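import Pool.Agent.P.MP_b8021b_nt.VE.StA

/-! Basic lemmas on geometric points, values and relations. -/

namespace Pool.Agent.P.MP_b8021b_nt.VE

open Polynomial Finset WithZero
open scoped Classical WithZero

theorem ell (W : WeierstrassCurve ℚ) [W.IsElliptic] (L : Type) [Field L] [Algebra ℚ L] :
    WeierstrassCurve.IsElliptic (W.baseChange L).toAffine :=
  inferInstanceAs (W.map (algebraMap ℚ L)).IsElliptic

namespace GPt

variable {K : Type} [Field K] (p : GPt K)

theorem mem_iff (a : K) : a ∈ p.v.valuationSubring ↔ p.v a ≤ 1 := Iff.rfl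

theorem v_ne {a : K} (ha : a ≠ 0) : p.v a ≠ 0 := by simpa using ha

theorem v_eq {a : K} (ha : a ≠ 0) : p.v a = exp (-p.ord a) := by
  rw [ord, neg_neg, exp_log (p.v_ne ha)]

theorem ord_zero : p.ord 0 = 0 := by simp [ord]

theorem ord_one : p.ord 1 = 0 := by simp [ord]

theorem ord_mul {a b : K} (ha : a ≠ 0) (hb : b ≠ 0) : p.ord (a * b) = p.ord a + p.ord b := by
  simp only [ord, map_mul, log_mul (p.v_ne ha) (p.v_ne hb), neg_add]

theorem ord_inv (a : K) : p.ord a⁻¹ = -p.ord a := by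
  simp only [ord, map_inv₀, log_inv]

theorem ord_div {a b : K} (ha : a ≠ 0) (hb : b ≠ 0) : p.ord (a / b) = p.ord a - p.ord b := by
  rw [div_eq_mul_inv, p.ord_mul ha (inv_ne_zero hb), ord_inv, sub_eq_add_neg]

theorem ord_pow (a : K) (n : ℕ) : p.ord (a ^ n) = n * p.ord a := by
  simp only [ord, map_pow, log_pow, nsmul_eq_mul, mul_neg]

theorem ord_neg (a : K) : p.ord (-a) = p.ord a := by
  simp only [ord, Valuation.map_neg]

theorem ord_prod {ι : Type*} (s : Finset ι) (f : ι → K) (hf : ∀ i ∈ s, f i ≠ 0) :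
    p.ord (∏ i ∈ s, f i) = ∑ i ∈ s, p.ord (f i) := by
  induction s using Finset.induction_on with
  | empty => simp [ord]
  | insert i s hi ih =>
    rw [prod_insert hi, sum_insert hi, p.ord_mul (hf i (mem_insert_self _ _))
      (prod_ne_zero_iff.2 fun j hj => hf j (mem_insert_of_mem hj)),
      ih fun j hj => hf j (mem_insert_of_mem hj)]

theorem ord_eq_zero_iff {a : K} (ha : a ≠ 0) : p.ord a = 0 ↔ p.v a = 1 := by
  rw [p.v_eq ha, exp_eq_one, neg_eq_zero]

theorem ord_nonneg_iff {a : K} (ha : a ≠ 0) : 0 ≤ p.ord a ↔ a ∈ p.v.valuationSubring := by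
  rw [mem_iff, p.v_eq ha, ← exp_zero, exp_le_exp, neg_nonpos]

theorem ord_pos_iff {a : K} (ha : a ≠ 0) : 0 < p.ord a ↔ p.v a < 1 := by
  rw [p.v_eq ha, ← exp_zero, exp_lt_exp, neg_lt_zero]

theorem ord_neg_iff (a : K) : p.ord a < 0 ↔ a ∉ p.v.valuationSubring := by
  rcases eq_or_ne a 0 with rfl | ha
  · simp [ord]
  · rw [← p.ord_nonneg_iff ha, not_le]

theorem ord_nonneg {a : K} (h : a ∈ p.v.valuationSubring) : 0 ≤ p.ord a :=
  not_lt.1 fun h' => (p.ord_neg_iff a).1 h' h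

theorem v_lt_iff {a b : K} (ha : a ≠ 0) (hb : b ≠ 0) : p.v a < p.v b ↔ p.ord b < p.ord a := by
  rw [p.v_eq ha, p.v_eq hb, exp_lt_exp, neg_lt_neg_iff]

theorem exists_val {a : K} (h : a ∈ p.v.valuationSubring) : ∃ c, p.Val a c := ⟨_, h, rfl⟩

theorem val_zero : p.Val 0 0 := ⟨zero_mem _, map_zero p.ρ⟩

theorem val_one : p.Val 1 1 := ⟨one_mem _, map_one p.ρ⟩

theorem val_zero_iff (a : K) : p.Val a 0 ↔ p.v a < 1 :=
  ⟨fun ⟨h, e⟩ => (p.ker ⟨a, h⟩).1 e, fun h => ⟨h.le, (p.ker ⟨a, h.le⟩).2 h⟩⟩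

theorem val_zero_of_ord_pos {a : K} (h : 0 < p.ord a) : p.Val a 0 := by
  rcases eq_or_ne a 0 with rfl | ha
  · exact p.val_zero
  · exact (p.val_zero_iff a).2 ((p.ord_pos_iff ha).1 h)

variable {p}

namespace Val

variable {a b : K} {c d : Qb}

theorem mem (h : p.Val a c) : a ∈ p.v.valuationSubring := h.1

theorem unique (h : p.Val a c) (h' : p.Val a d) : c = d := by
  obtain ⟨_, rfl⟩ := h
  obtain ⟨_, rfl⟩ := h'
  rfl

theorem add (h : p.Val a c) (h' : p.Val b d) : p.Val (a + b) (c + d) := by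
  obtain ⟨h1, rfl⟩ := h
  obtain ⟨h2, rfl⟩ := h'
  exact ⟨add_mem h1 h2, map_add p.ρ ⟨a, h1⟩ ⟨b, h2⟩⟩

theorem mul (h : p.Val a c) (h' : p.Val b d) : p.Val (a * b) (c * d) := by
  obtain ⟨h1, rfl⟩ := h
  obtain ⟨h2, rfl⟩ := h'
  exact ⟨mul_mem h1 h2, map_mul p.ρ ⟨a, h1⟩ ⟨b, h2⟩⟩

theorem neg (h : p.Val a c) : p.Val (-a) (-c) := by
  obtain ⟨h1, rfl⟩ := h
  exact ⟨neg_mem h1, map_neg p.ρ ⟨a, h1⟩⟩

theorem sub (h : p.Val a c) (h' : p.Val b d) : p.Val (a - b) (c - d) := by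
  rw [sub_eq_add_neg, sub_eq_add_neg]
  exact h.add h'.neg

theorem pow (h : p.Val a c) (n : ℕ) : p.Val (a ^ n) (c ^ n) := by
  induction n with
  | zero => simpa using p.val_one
  | succ n ih =>
    rw [pow_succ, pow_succ]
    exact ih.mul h

theorem v_eq_one (h : p.Val a c) (hc : c ≠ 0) : p.v a = 1 :=
  le_antisymm h.mem (not_lt.1 fun h' => hc (h.unique ((p.val_zero_iff a).2 h')))

theorem ne_zero (h : p.Val a c) (hc : c ≠ 0) : a ≠ 0 := by
  rintro rfl
  exact hc (h.unique p.val_zero)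

theorem ord_eq_zero (h : p.Val a c) (hc : c ≠ 0) : p.ord a = 0 :=
  (p.ord_eq_zero_iff (h.ne_zero hc)).2 (h.v_eq_one hc)

theorem ord_pos (h : p.Val a 0) (ha : a ≠ 0) : 0 < p.ord a :=
  (p.ord_pos_iff ha).2 ((p.val_zero_iff a).1 h)

theorem ne_of_ord (h : p.Val a c) (ha : a ≠ 0) (h0 : p.ord a = 0) : c ≠ 0 := by
  rintro rfl
  exact (h.ord_pos ha).ne' h0

theorem inv (h : p.Val a c) (hc : c ≠ 0) : p.Val a⁻¹ c⁻¹ := by
  have h1 : a⁻¹ ∈ p.v.valuationSubring := by
    rw [mem_iff, map_inv₀, h.v_eq_one hc, inv_one]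
  obtain ⟨d, hd⟩ := p.exists_val h1
  have h2 := h.mul hd
  rw [mul_inv_cancel₀ (h.ne_zero hc)] at h2
  rwa [← eq_inv_of_mul_eq_one_right (h2.unique p.val_one)]

theorem div (h : p.Val a c) (h' : p.Val b d) (hd : d ≠ 0) : p.Val (a / b) (c / d) := by
  rw [div_eq_mul_inv, div_eq_mul_inv]
  exact h.mul (h'.inv hd)

theorem sum {ι : Type*} (s : Finset ι) {f : ι → K} {g : ι → Qb}
    (h : ∀ i ∈ s, p.Val (f i) (g i)) : p.Val (∑ i ∈ s, f i) (∑ i ∈ s, g i) := by
  induction s using Finset.induction_on with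
  | empty => simpa using p.val_zero
  | insert i s hi ih =>
    rw [sum_insert hi, sum_insert hi]
    exact (h i (mem_insert_self _ _)).add (ih fun j hj => h j (mem_insert_of_mem hj))

theorem prod {ι : Type*} (s : Finset ι) {f : ι → K} {g : ι → Qb}
    (h : ∀ i ∈ s, p.Val (f i) (g i)) : p.Val (∏ i ∈ s, f i) (∏ i ∈ s, g i) := by
  induction s using Finset.induction_on with
  | empty => simpa using p.val_one
  | insert i s hi ih =>
    rw [prod_insert hi, prod_insert hi]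
    exact (h i (mem_insert_self _ _)).mul (ih fun j hj => h j (mem_insert_of_mem hj))

end Val

variable (p)

theorem exists_val_ne {a : K} (ha : a ≠ 0) (h : p.ord a = 0) : ∃ c, c ≠ 0 ∧ p.Val a c := by
  obtain ⟨c, hc⟩ := p.exists_val ((p.ord_nonneg_iff ha).1 h.ge)
  exact ⟨c, hc.ne_of_ord ha h, hc⟩

/-- the quotient of a function by one with a smaller order vanishes -/
theorem val_div_zero {a b : K} (hb : b ≠ 0) (h : a = 0 ∨ p.ord b < p.ord a) : p.Val (a / b) 0 := by
  rcases eq_or_ne a 0 with rfl | ha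
  · simpa using p.val_zero
  · refine p.val_zero_of_ord_pos ?_
    rw [p.ord_div ha hb]
    linarith [h.resolve_left ha]

theorem val_natCast (n : ℕ) : p.Val (n : K) (n : Qb) := by
  induction n with
  | zero => simpa using p.val_zero
  | succ n ih => simpa using ih.add p.val_one

theorem val_intCast (n : ℤ) : p.Val (n : K) (n : Qb) := by
  obtain ⟨m, rfl | rfl⟩ := n.eq_nat_or_neg
  · simpa using p.val_natCast m
  · simpa using (p.val_natCast m).neg

theorem val_ratCast [CharZero K] (q : ℚ) : p.Val (q : K) (q : Qb) := by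
  rw [Rat.cast_def, Rat.cast_def]
  exact (p.val_intCast _).div (p.val_natCast _) (Nat.cast_ne_zero.2 q.den_nz)

theorem val_rat [Algebra ℚ K] (q : ℚ) : p.Val (algebraMap ℚ K q) (algebraMap ℚ Qb q) := by
  have : CharZero K := algebraRat.charZero K
  rw [eq_ratCast, eq_ratCast]
  exact p.val_ratCast q

/-- algebraic numbers are regular -/
theorem mem_of_alg {L : Type} [Field L] [Algebra ℚ L] [Algebra.IsAlgebraic ℚ L] (ι : L →+* K)
    (c : L) : ι c ∈ p.v.valuationSubring := by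
  have : CharZero L := algebraRat.charZero L
  have : CharZero K := (RingHom.charZero_iff ι.injective).1 inferInstance
  have hv : p.v.Integers p.v.integer := Valuation.integer.integers p.v
  refine hv.mem_of_integral ?_
  obtain ⟨q, hq, h0⟩ := (Algebra.IsAlgebraic.isAlgebraic (R := ℚ) c).isIntegral
  let j : ℚ →+* p.v.integer := (Rat.castHom K).codRestrict p.v.integer fun a => (p.val_ratCast a).mem
  refine ⟨q.map j, hq.map j, ?_⟩
  rw [eval₂_map, Subsingleton.elim ((algebraMap p.v.integer K).comp j) (ι.comp (algebraMap ℚ L)),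
    ← hom_eval₂, h0, map_zero]

/-- the embedding of the field of constants given by a geometric point -/
theorem exists_emb {L : Type} [Field L] [Algebra ℚ L] [Algebra.IsAlgebraic ℚ L] (ι : L →+* K) :
    ∃ τ : L →ₐ[ℚ] Qb, ∀ c, p.Val (ι c) (τ c) := by
  let j : L →+* p.v.valuationSubring :=
    ι.codRestrict p.v.valuationSubring.toSubring fun a => p.mem_of_alg ι a
  exact ⟨(p.ρ.comp j).toRatAlgHom, fun c => ⟨p.mem_of_alg ι c, rfl⟩⟩

theorem ord_alg {L : Type} [Field L] [Algebra ℚ L] [Algebra.IsAlgebraic ℚ L] (ι : L →+* K)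
    (c : L) : p.ord (ι c) = 0 := by
  obtain ⟨τ, hτ⟩ := p.exists_emb ι
  rcases eq_or_ne c 0 with rfl | hc
  · rw [map_zero, ord_zero]
  · exact (hτ c).ord_eq_zero ((_root_.map_ne_zero τ).2 hc)

/-- values of polynomial expressions -/
theorem val_eval₂ {L : Type} [CommRing L] {ι : L →+* K} {τ : L →+* Qb}
    (h : ∀ c, p.Val (ι c) (τ c)) {a : K} {c : Qb} (ha : p.Val a c) (g : L[X]) :
    p.Val (g.eval₂ ι a) (g.eval₂ τ c) := by
  rw [eval₂_eq_sum_range, eval₂_eq_sum_range]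
  exact Val.sum _ fun i _ => (h _).mul (ha.pow i)

/-- two points with the same valuation and the same values agree -/
theorem ext_val {p q : GPt K} (hv : p.v = q.v) (h : ∀ a c, p.Val a c → q.Val a c) : p = q := by
  obtain ⟨v, ρ, h1, h2⟩ := p
  obtain ⟨v', ρ', h1', h2'⟩ := q
  obtain rfl : v = v' := hv
  obtain rfl : ρ = ρ' := by
    ext a
    obtain ⟨_, e⟩ := h a (ρ a) ⟨a.2, rfl⟩
    exact e.symm
  rfl

section E

variable [Algebra ℚ K] (W : WeierstrassCurve ℚ)

theorem valE_zero : p.ValE W 0 0 := ⟨fun _ => rfl, fun _ _ _ h => by cases h⟩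

variable {p W}

theorem valE_some {x y : K} {a b : Qb} (h : (W.baseChange K).toAffine.Nonsingular x y)
    (h' : (W.baseChange Qb).toAffine.Nonsingular a b) (hx : p.Val x a) (hy : p.Val y b) :
    p.ValE W (.some x y h) (.some a b h') := by
  refine ⟨fun e => (by cases e), fun x' y' _ e => ?_⟩
  cases e
  exact Or.inl ⟨a, b, h', hx, hy, rfl⟩

theorem valE_inf {x y : K} (h : (W.baseChange K).toAffine.Nonsingular x y)
    (hx : x ∉ p.v.valuationSubring) : p.ValE W (.some x y h) 0 := by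
  refine ⟨fun _ => rfl, fun x' y' _ e => ?_⟩
  cases e
  exact Or.inr ⟨hx, rfl⟩

/-- a constant morphism -/
theorem valE_const {L : Type} [Field L] [Algebra ℚ L] (ι : L →ₐ[ℚ] K) (τ : L →ₐ[ℚ] Qb)
    (h : ∀ c, p.Val (ι c) (τ c)) (P : EP W L) :
    p.ValE W (WeierstrassCurve.Affine.Point.map (W' := W.toAffine) ι P) (mp τ P) := by
  rcases P with _ | ⟨x, y, hP⟩
  · exact p.valE_zero W
  · exact valE_some _ _ (h x) (h y)

/-- the values of the coordinates of a point satisfy the equation -/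
theorem nonsingular_val [W.IsElliptic] {x y : K} {a b : Qb}
    (h : (W.baseChange K).toAffine.Nonsingular x y) (hx : p.Val x a) (hy : p.Val y b) :
    (W.baseChange Qb).toAffine.Nonsingular a b := by
  have e := (WeierstrassCurve.Affine.equation_iff _ _).1 h.1
  have := ell W Qb
  rw [← WeierstrassCurve.Affine.equation_iff_nonsingular, WeierstrassCurve.Affine.equation_iff]
  have h1 := ((hy.pow 2).add (((p.val_rat W.a₁).mul hx).mul hy)).add ((p.val_rat W.a₃).mul hy)
  have h2 := (((hx.pow 3).add ((p.val_rat W.a₂).mul (hx.pow 2))).add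
    ((p.val_rat W.a₄).mul hx)).add (p.val_rat W.a₆)
  exact Val.unique (e ▸ h1) h2

end E

end GPt

section Rel

variable {W : WeierstrassCurve ℚ} {l : EP W Qb × Qbˣ → ℝ}

theorem ext0_zero (P : EP W Qb) : ext0 l P 0 = 0 := dif_pos rfl

theorem ext0_ne (P : EP W Qb) {u : Qb} (h : u ≠ 0) : ext0 l P u = l (P, Units.mk0 u h) := dif_neg h

theorem ext0_units (P : EP W Qb) (u : Qbˣ) : ext0 l P u = l (P, u) := by
  rw [ext0_ne P u.ne_zero, Units.mk0_val]

theorem ext0_one (P : EP W Qb) : ext0 l P 1 = l (P, 1) := ext0_units P 1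

theorem mp_zero {L : Type} [Field L] [Algebra ℚ L] (τ : L →ₐ[ℚ] Qb) : mp τ (0 : EP W L) = 0 := rfl

theorem mp_add {L : Type} [Field L] [Algebra ℚ L] (τ : L →ₐ[ℚ] Qb) (P Q : EP W L) :
    mp τ (P + Q) = mp τ P + mp τ Q := map_add _ P Q

theorem mp_map {L L' : Type} [Field L] [Algebra ℚ L] [Field L'] [Algebra ℚ L'] (ι : L →ₐ[ℚ] L')
    (τ : L' →ₐ[ℚ] Qb) (P : EP W L) :
    mp τ (WeierstrassCurve.Affine.Point.map (W' := W.toAffine) ι P) = mp (τ.comp ι) P := by
  cases P <;> rfl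

/-- a relation, in a form that is easy to use -/
theorem Kills.rel (hl : Kills W l) {K : Type} [Field K] [Algebra ℚ K] (hK : IsCurve K)
    (ξ : EP W K) {u f : K} (hu : u ≠ 0) (hf : f ≠ 0)
    (h1 : ∀ p : GPt K, p.ord u ≠ 0 → p.Val f 1) (S : Finset (GPt K))
    (hS : ∀ p, p ∉ S → p.ord f = 0) (P : GPt K → EP W Qb) (c : GPt K → Qb)
    (hP : ∀ p ∈ S, p.ord f ≠ 0 → p.ValE W ξ (P p) ∧ p.Val u (c p)) :
    ∑ p ∈ S, (p.ord f : ℝ) * ext0 l (P p) (c p) = 0 := by
  have hc : ∀ p ∈ S.filter fun p => p.ord f ≠ 0, c p ≠ 0 := by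
    intro p hp
    obtain ⟨h2, h3⟩ := mem_filter.1 hp
    refine (hP p h2 h3).2.ne_of_ord hu ?_
    by_contra h4
    exact h3 ((h1 p h4).ord_eq_zero one_ne_zero)
  set φ : GPt K → EP W Qb × Qbˣ := fun p => (P p, if h : c p = 0 then 1 else Units.mk0 (c p) h)
    with hφ
  have key := hl (∑ p ∈ S.filter fun p => p.ord f ≠ 0, Finsupp.single (φ p) (p.ord f))
    (AddSubgroup.subset_closure ⟨K, inferInstance, inferInstance, hK, ξ, Units.mk0 u hu,
      Units.mk0 f hf, S.filter fun p => p.ord f ≠ 0, φ, h1, fun p hp => by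
        by_contra h
        exact hp (mem_filter.2 ⟨by_contra fun h' => h (hS p h'), h⟩), fun p hp => by
        obtain ⟨h2, h3⟩ := mem_filter.1 hp
        refine ⟨(hP p h2 h3).1, ?_⟩
        simp only [hφ, dif_neg (hc p hp), Units.val_mk0]
        exact (hP p h2 h3).2, rfl⟩)
  rw [← Finsupp.sum_finsetSum_index (by simp) (by intro z a b; push_cast; ring)] at key
  rw [← sum_filter_of_ne (p := fun p => p.ord f ≠ 0) (fun p _ h h' => h (by simp [h'])), ← key]
  refine sum_congr rfl fun p hp => ?_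
  rw [Finsupp.sum_single_index (by simp), ext0_ne _ (hc p hp)]
  simp only [hφ, dif_neg (hc p hp)]

/-- a relation on the completion of an affine curve: `T` is a finite set of affine points that
contains the zeros of `a` and `b`, `I` is the set of points at infinity -/
theorem Kills.rel_aff (hl : Kills W l) (h0 : S_S0) {R K : Type} [CommRing R] [IsDedekindDomain R]
    [Field K] [Algebra R K] [IsFractionRing R K] [Algebra ℚ K] (hK : IsCurve K)
    (ξ : EP W K) {u : K} (hu : u ≠ 0) {a b : R} (ha : a ≠ 0) (hb : b ≠ 0)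
    (h1 : ∀ p : GPt K, p.ord u ≠ 0 → p.Val (algebraMap R K a / algebraMap R K b) 1)
    (T : Finset (R →+* Qb)) (hT : ∀ σ : R →+* Qb, σ a = 0 ∨ σ b = 0 → σ ∈ T)
    (hT0 : ∀ σ ∈ T, RingHom.ker σ ≠ ⊥)
    (I : Finset (GPt K)) (hI : ∀ p, p ∈ I ↔ ∃ r, algebraMap R K r ∉ p.v.valuationSubring)
    (P : (R →+* Qb) → EP W Qb) (c : (R →+* Qb) → Qb)
    (hP : ∀ σ ∈ T, ∀ p : GPt K, (∀ r, p.Val (algebraMap R K r) (σ r)) →
      p.ValE W ξ (P σ) ∧ p.Val u (c σ))
    (P' : GPt K → EP W Qb) (c' : GPt K → Qb)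
    (hP' : ∀ p ∈ I, p.ord (algebraMap R K a / algebraMap R K b) ≠ 0 →
      p.ValE W ξ (P' p) ∧ p.Val u (c' p)) :
    ∑ σ ∈ T, ((multiplicity (RingHom.ker σ) (Ideal.span {a}) : ℝ) -
        multiplicity (RingHom.ker σ) (Ideal.span {b})) * ext0 l (P σ) (c σ) +
      ∑ p ∈ I, (p.ord (algebraMap R K a / algebraMap R K b) : ℝ) * ext0 l (P' p) (c' p) = 0 := by
  obtain ⟨s1, s2, s3⟩ := h0 R K
  have hinj := IsFractionRing.injective R K
  have ha' : algebraMap R K a ≠ 0 := (map_ne_zero_iff _ hinj).2 ha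
  have hb' : algebraMap R K b ≠ 0 := (map_ne_zero_iff _ hinj).2 hb
  choose pt hpt using fun σ : T => (s1 σ (hT0 σ σ.2)).exists
  have ptinj : Function.Injective pt := by
    intro σ σ' e
    ext r
    exact (hpt σ r).unique (e ▸ hpt σ' r)
  have hdis : Disjoint (univ.image pt) I := by
    refine disjoint_left.2 fun p hp hp' => ?_
    obtain ⟨σ, -, rfl⟩ := mem_image.1 hp
    obtain ⟨r, hr⟩ := (hI _).1 hp'
    exact hr (hpt σ r).mem
  have key := hl.rel hK ξ hu (div_ne_zero ha' hb') h1 (univ.image pt ∪ I) (fun p hp => by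
      rw [mem_union, not_or] at hp
      obtain ⟨σ, hσ, hv⟩ := s2 p fun r => by_contra fun h => hp.2 ((hI p).2 ⟨r, h⟩)
      have hσT : σ ∉ T := fun h => hp.1
        (mem_image.2 ⟨⟨σ, h⟩, mem_univ _, (s1 σ hσ).unique (hpt ⟨σ, h⟩) hv⟩)
      rw [p.ord_div ha' hb', (hv a).ord_eq_zero fun h => hσT (hT σ (Or.inl h)),
        (hv b).ord_eq_zero fun h => hσT (hT σ (Or.inr h)), sub_zero])
    (fun p => if h : ∃ σ, pt σ = p then P h.choose else P' p)
    (fun p => if h : ∃ σ, pt σ = p then c h.choose else c' p) (fun p hp ho => by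
      by_cases h : ∃ σ, pt σ = p
      · simp only [dif_pos h]
        exact hP _ h.choose.2 p fun r => by simpa only [h.choose_spec] using hpt h.choose r
      · simp only [dif_neg h]
        exact hP' p ((mem_union.1 hp).resolve_left fun h' => by
          obtain ⟨σ, -, e⟩ := mem_image.1 h'
          exact h ⟨σ, e⟩) ho)
  rw [sum_union hdis, sum_image fun _ _ _ _ e => ptinj e] at key
  rw [← key, ← sum_coe_sort T]
  congr 1
  · refine sum_congr rfl fun σ _ => ?_
    have h : ∃ σ', pt σ' = pt σ := ⟨σ, rfl⟩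
    have e : h.choose = σ := ptinj h.choose_spec
    simp only [dif_pos h, e]
    rw [(pt σ).ord_div ha' hb', s3 _ σ (hpt σ) a ha, s3 _ σ (hpt σ) b hb]
    push_cast
    rfl
  · refine sum_congr rfl fun p hp => ?_
    have h : ¬ ∃ σ, pt σ = p := fun ⟨σ, e⟩ =>
      disjoint_left.1 hdis (mem_image.2 ⟨σ, mem_univ _, e⟩) hp
    simp only [dif_neg h]

end Rel

end Pool.Agent.P.MP_b8021b_nt.VE
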