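import Pool.Agent.P.MP_b8021b_nt.VE.Defs

/-! Shared lemmas on `hev`, the sections `gp`, `cp`, `F`, the forms `N`, `D`, and `Fix.Ev`. -/

namespace Pool.Agent.P.MP_b8021b_nt.VE

open Polynomial Finset Filter

/-! ### homogeneous evaluation -/

lemma hev_eq_homog (d : ℕ) (g : ℤ[X]) (a b : ℤ) :
    hev d g a b = MvPolynomial.eval ![a, b] (g.homogenize d) := by
  rw [hev, homogenize, map_sum, Finset.Nat.sum_antidiagonal_eq_sum_range_succ_mk]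
  refine sum_congr rfl fun i _ => ?_
  rw [MvPolynomial.eval_monomial, Finsupp.prod_fintype _ _ (by simp)]
  simp [Fin.prod_univ_two, mul_assoc]

@[simp] lemma hev_zero (d : ℕ) (a b : ℤ) : hev d 0 a b = 0 := by simp [hev]

lemma hev_add (d : ℕ) (g h : ℤ[X]) (a b : ℤ) : hev d (g + h) a b = hev d g a b + hev d h a b := by
  simp [hev, add_mul, sum_add_distrib]

lemma hev_neg (d : ℕ) (g : ℤ[X]) (a b : ℤ) : hev d (-g) a b = -hev d g a b := by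
  simp [hev]

lemma hev_sub (d : ℕ) (g h : ℤ[X]) (a b : ℤ) : hev d (g - h) a b = hev d g a b - hev d h a b := by
  simp [hev, sub_mul, sum_sub_distrib]

lemma hev_C_mul (d : ℕ) (c : ℤ) (g : ℤ[X]) (a b : ℤ) :
    hev d (C c * g) a b = c * hev d g a b := by
  simp only [hev, coeff_C_mul, mul_sum, mul_assoc]

lemma hev_sum {ι : Type*} (d : ℕ) (s : Finset ι) (g : ι → ℤ[X]) (a b : ℤ) :
    hev d (∑ i ∈ s, g i) a b = ∑ i ∈ s, hev d (g i) a b := by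
  simp only [hev, finsetSum_coeff, sum_mul]
  exact sum_comm

lemma hev_X_pow {d i : ℕ} (h : i ≤ d) (a b : ℤ) : hev d (X ^ i) a b = a ^ i * b ^ (d - i) := by
  rw [hev_eq_homog, homogenize_X_pow h]
  simp

lemma hev_C (d : ℕ) (c a b : ℤ) : hev d (C c) a b = c * b ^ d := by
  rw [hev_eq_homog, homogenize_C]
  simp

lemma hev_mul {d e : ℕ} {g h : ℤ[X]} (hg : g.natDegree ≤ d) (hh : h.natDegree ≤ e) (a b : ℤ) :
    hev (d + e) (g * h) a b = hev d g a b * hev e h a b := by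
  simp only [hev_eq_homog, homogenize_mul g h hg hh, map_mul]

lemma hev_sq {d : ℕ} {g : ℤ[X]} (hg : g.natDegree ≤ d) (a b : ℤ) :
    hev (2 * d) (g ^ 2) a b = hev d g a b ^ 2 := by
  rw [two_mul, sq, sq, hev_mul hg hg]

lemma hev_add_deg {d : ℕ} {g : ℤ[X]} (hg : g.natDegree ≤ d) (e : ℕ) (a b : ℤ) :
    hev (d + e) g a b = hev d g a b * b ^ e := by
  have := hev_mul (h := C 1) (e := e) hg (by simp) a b
  rwa [hev_C, one_mul, C_1, mul_one] at this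

lemma hev_succ {d : ℕ} {g : ℤ[X]} (hg : g.natDegree ≤ d) (a b : ℤ) :
    hev (d + 1) g a b = b * hev d g a b := by
  rw [hev_add_deg hg, pow_one, mul_comm]

/-- the basic formula: if `a = τ b` in a ring then `hev d g a b = b ^ d g τ` there -/
lemma hev_cast {R : Type*} [CommRing R] {d : ℕ} {g : ℤ[X]} (hg : g.natDegree ≤ d) {a b : ℤ}
    {τ : R} (h : (a : R) = τ * b) : ((hev d g a b : ℤ) : R) = (b : R) ^ d * aeval τ g := by
  rw [aeval_eq_sum_range' (Nat.lt_succ_of_le hg), hev, mul_sum]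
  push_cast
  refine sum_congr rfl fun i hi => ?_
  have hi' : i ≤ d := Nat.lt_succ_iff.mp (mem_range.mp hi)
  have : (b : R) ^ d = b ^ i * b ^ (d - i) := by rw [← pow_add, Nat.add_sub_cancel' hi']
  rw [h, this, zsmul_eq_mul, mul_pow]
  ring

lemma hev_div {K : Type*} [Field K] {d : ℕ} {g : ℤ[X]} (hg : g.natDegree ≤ d) (a : ℤ) {b : ℤ}
    (hb : (b : K) ≠ 0) : ((hev d g a b : ℤ) : K) = (b : K) ^ d * aeval ((a : K) / b) g :=
  hev_cast hg (div_mul_cancel₀ _ hb).symm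

lemma aeval_int_eq (g : ℤ[X]) (a : ℤ) : aeval a g = g.eval a := by
  rw [← coe_aeval_eq_eval]

lemma aeval_intCast {R : Type*} [CommRing R] (g : ℤ[X]) (a : ℤ) :
    aeval (a : R) g = ((g.eval a : ℤ) : R) := by
  have := aeval_algebraMap_apply R a g
  simpa [aeval_int_eq] using this

lemma aeval_eq_eval_map {R : Type*} [CommRing R] (g : ℤ[X]) (a : R) :
    aeval a g = (g.map (Int.castRingHom R)).eval a := by
  rw [aeval_def, eval_map]; rfl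

lemma hev_mul_right {d : ℕ} {g : ℤ[X]} (hg : g.natDegree ≤ d) (τ b : ℤ) :
    hev d g (τ * b) b = b ^ d * g.eval τ := by
  have := hev_cast (R := ℤ) hg (a := τ * b) (b := b) (τ := τ) (by simp)
  simpa [aeval_int_eq] using this

lemma hev_one {d : ℕ} {g : ℤ[X]} (hg : g.natDegree ≤ d) (a : ℤ) : hev d g a 1 = g.eval a := by
  simpa using hev_mul_right hg a 1

lemma hev_b_zero (d : ℕ) (g : ℤ[X]) (a : ℤ) : hev d g a 0 = g.coeff d * a ^ d := by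
  rw [hev, sum_range_succ, Nat.sub_self, pow_zero, mul_one, sum_eq_zero, zero_add]
  intro i hi
  rw [zero_pow (by have := mem_range.mp hi; omega), mul_zero]

lemma hev_a_zero (d : ℕ) (g : ℤ[X]) (b : ℤ) : hev d g 0 b = g.coeff 0 * b ^ d := by
  rw [hev, sum_range_succ', sum_eq_zero] <;> simp

lemma hev_smul (d : ℕ) (g : ℤ[X]) (m a b : ℤ) :
    hev d g (m * a) (m * b) = m ^ d * hev d g a b := by
  rw [hev, hev, mul_sum]
  refine sum_congr rfl fun i hi => ?_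
  have hi' : i ≤ d := Nat.lt_succ_iff.mp (mem_range.mp hi)
  have : m ^ d = m ^ i * m ^ (d - i) := by rw [← pow_add, Nat.add_sub_cancel' hi']
  rw [this, mul_pow, mul_pow]
  ring

/-- `hev` only depends on the images of `a`, `b` in a ring -/
lemma hev_cast_congr {R : Type*} [CommRing R] (d : ℕ) (g : ℤ[X]) {a b a' b' : ℤ}
    (ha : (a : R) = a') (hb : (b : R) = b') :
    ((hev d g a b : ℤ) : R) = ((hev d g a' b' : ℤ) : R) := by
  simp only [hev]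
  push_cast
  rw [ha, hb]

lemma hev_modEq (d : ℕ) (g : ℤ[X]) {m a b a' b' : ℤ} (ha : a ≡ a' [ZMOD m]) (hb : b ≡ b' [ZMOD m]) :
    hev d g a b ≡ hev d g a' b' [ZMOD m] := by
  unfold hev
  exact Int.ModEq.sum fun i _ => ((ha.pow i).mul_left _).mul (hb.pow _)

lemma dvd_hev_sub (d : ℕ) (g : ℤ[X]) {m a b a' b' : ℤ} (ha : m ∣ a - a') (hb : m ∣ b - b') :
    m ∣ hev d g a b - hev d g a' b' :=
  (hev_modEq d g (Int.modEq_iff_dvd.mpr ha) (Int.modEq_iff_dvd.mpr hb)).dvd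

/-- reduction modulo `m` when `a ≡ τ b` -/
lemma dvd_hev_sub_eval {d : ℕ} {g : ℤ[X]} (hg : g.natDegree ≤ d) {m a b τ : ℤ}
    (h : m ∣ a - τ * b) : m ∣ hev d g a b - b ^ d * g.eval τ := by
  rw [← hev_mul_right hg]
  exact dvd_hev_sub d g h (by simp)

lemma dvd_hev_of_C_dvd (d : ℕ) {g : ℤ[X]} {m : ℤ} (h : C m ∣ g) (a b : ℤ) : m ∣ hev d g a b := by
  obtain ⟨g', rfl⟩ := h
  rw [hev_C_mul]
  exact dvd_mul_right _ _

lemma abs_hev_le (d : ℕ) (g : ℤ[X]) (a b : ℤ) {H : ℝ} (ha : |(a : ℝ)| ≤ H) (hb : |(b : ℝ)| ≤ H) :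
    |((hev d g a b : ℤ) : ℝ)| ≤ (∑ i ∈ range (d + 1), |((g.coeff i : ℤ) : ℝ)|) * H ^ d := by
  rw [hev, sum_mul]
  push_cast
  refine (abs_sum_le_sum_abs _ _).trans (sum_le_sum fun i hi => ?_)
  have hi' : i ≤ d := Nat.lt_succ_iff.mp (mem_range.mp hi)
  have : H ^ d = H ^ i * H ^ (d - i) := by rw [← pow_add, Nat.add_sub_cancel' hi']
  have h0 : 0 ≤ H := (abs_nonneg _).trans ha
  rw [this, abs_mul, abs_mul, abs_pow, abs_pow, mul_assoc]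
  gcongr

lemma natDegree_nrm_le {f g c : ℤ[X]} {k : ℕ} (hk : 2 ≤ k) (hf : f.natDegree ≤ 4)
    (hg : g.natDegree ≤ k) (hc : c.natDegree ≤ k - 2) : (nrm f g c).natDegree ≤ 2 * k := by
  refine (natDegree_sub_le _ _).trans (max_le (natDegree_pow_le.trans (by omega)) ?_)
  refine natDegree_mul_le.trans ?_
  have : (c ^ 2).natDegree ≤ 2 * c.natDegree := natDegree_pow_le
  omega

lemma hev_nrm {f g c : ℤ[X]} {k : ℕ} (hk : 2 ≤ k) (hf : f.natDegree ≤ 4)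
    (hg : g.natDegree ≤ k) (hc : c.natDegree ≤ k - 2) (a b : ℤ) :
    hev (2 * k) (nrm f g c) a b = hev k g a b ^ 2 - hev (k - 2) c a b ^ 2 * hev 4 f a b := by
  rw [nrm, hev_sub, hev_sq hg, ← hev_sq hc, ← hev_mul _ hf]
  · congr 2; omega
  · exact natDegree_pow_le.trans (by omega)

/-! ### sections -/

namespace Par

variable (p : Par)

lemma r_pos : 0 < p.r := p.hr.pos

lemma two_le_r : 2 ≤ p.r := p.hr.two_le

lemma f_monic : p.f.Monic := p.hf.1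

lemma f_natDegree : p.f.natDegree = 3 := p.hf.2.1

lemma f_natDegree_le : p.f.natDegree ≤ 4 := by rw [p.f_natDegree]; norm_num

lemma f_coeff_three : p.f.coeff 3 = 1 := by
  have := p.f_monic.coeff_natDegree
  rwa [p.f_natDegree] at this

lemma f_coeff_four : p.f.coeff 4 = 0 :=
  coeff_eq_zero_of_natDegree_lt (by rw [p.f_natDegree]; norm_num)

lemma f_coeff_zero_ne : p.f.coeff 0 ≠ 0 := p.hf.2.2.2

/-- the free part of `gp` -/
noncomputable def gq (s : p.Co) : ℤ[X] := ∑ i : Fin p.k, C (s (.inl i)) * X ^ (i.1 + 1)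

/-- the free part of `cp` -/
noncomputable def cq (s : p.Co) : ℤ[X] := ∑ i : Fin (p.k - 2), C (s (.inr i)) * X ^ (i.1 + 1)

lemma gp_eq (s : p.Co) : p.gp s = p.g0 + C ((p.r : ℤ) ^ p.n0) * p.gq s := rfl

lemma cp_eq (s : p.Co) : p.cp s = p.c0 + C ((p.r : ℤ) ^ p.n0) * p.cq s := rfl

lemma natDegree_gq (s : p.Co) : (p.gq s).natDegree ≤ p.k :=
  natDegree_sum_le_of_forall_le _ _ fun i _ => (natDegree_C_mul_X_pow_le _ _).trans i.2

lemma natDegree_cq (s : p.Co) : (p.cq s).natDegree ≤ p.k - 2 :=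
  natDegree_sum_le_of_forall_le _ _ fun i _ => (natDegree_C_mul_X_pow_le _ _).trans i.2

lemma coeff_gq_zero (s : p.Co) : (p.gq s).coeff 0 = 0 := by
  simp [gq, finsetSum_coeff, coeff_X_pow]

lemma coeff_cq_zero (s : p.Co) : (p.cq s).coeff 0 = 0 := by
  simp [cq, finsetSum_coeff, coeff_X_pow]

lemma coeff_gq_succ (s : p.Co) (i : Fin p.k) : (p.gq s).coeff (i.1 + 1) = s (.inl i) := by
  simp only [gq, finsetSum_coeff, coeff_C_mul, coeff_X_pow]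
  rw [sum_eq_single i] <;> simp +contextual [Fin.ext_iff, eq_comm]

lemma coeff_cq_succ (s : p.Co) (i : Fin (p.k - 2)) : (p.cq s).coeff (i.1 + 1) = s (.inr i) := by
  simp only [cq, finsetSum_coeff, coeff_C_mul, coeff_X_pow]
  rw [sum_eq_single i] <;> simp +contextual [Fin.ext_iff, eq_comm]

lemma gq_sub (s s' : p.Co) : p.gq (s - s') = p.gq s - p.gq s' := by
  simp [gq, sub_mul, sum_sub_distrib]

lemma cq_sub (s s' : p.Co) : p.cq (s - s') = p.cq s - p.cq s' := by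
  simp [cq, sub_mul, sum_sub_distrib]

lemma gq_add (s s' : p.Co) : p.gq (s + s') = p.gq s + p.gq s' := by
  simp [gq, add_mul, sum_add_distrib]

lemma cq_add (s s' : p.Co) : p.cq (s + s') = p.cq s + p.cq s' := by
  simp [cq, add_mul, sum_add_distrib]

lemma natDegree_gp (s : p.Co) : (p.gp s).natDegree ≤ p.k :=
  (natDegree_add_le _ _).trans (max_le p.dg ((natDegree_C_mul_le _ _).trans (p.natDegree_gq s)))

lemma natDegree_cp (s : p.Co) : (p.cp s).natDegree ≤ p.k - 2 :=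
  (natDegree_add_le _ _).trans (max_le p.dc ((natDegree_C_mul_le _ _).trans (p.natDegree_cq s)))

lemma natDegree_F (s : p.Co) : (p.F s).natDegree ≤ 2 * p.k :=
  natDegree_nrm_le (by have := p.hk; omega) p.f_natDegree_le (p.natDegree_gp s) (p.natDegree_cp s)

lemma natDegree_FR (s : p.Co) : (p.FR s).natDegree ≤ 2 * p.k :=
  natDegree_map_le.trans (p.natDegree_F s)

lemma coeff_gp_zero (s : p.Co) : (p.gp s).coeff 0 = p.g0.coeff 0 := by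
  rw [gp_eq, coeff_add, coeff_C_mul, coeff_gq_zero, mul_zero, add_zero]

lemma coeff_cp_zero (s : p.Co) : (p.cp s).coeff 0 = p.c0.coeff 0 := by
  rw [cp_eq, coeff_add, coeff_C_mul, coeff_cq_zero, mul_zero, add_zero]

lemma coeff_gp_succ (s : p.Co) (i : Fin p.k) :
    (p.gp s).coeff (i.1 + 1) = p.g0.coeff (i.1 + 1) + (p.r : ℤ) ^ p.n0 * s (.inl i) := by
  rw [gp_eq, coeff_add, coeff_C_mul, coeff_gq_succ]

lemma coeff_cp_succ (s : p.Co) (i : Fin (p.k - 2)) :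
    (p.cp s).coeff (i.1 + 1) = p.c0.coeff (i.1 + 1) + (p.r : ℤ) ^ p.n0 * s (.inr i) := by
  rw [cp_eq, coeff_add, coeff_C_mul, coeff_cq_succ]

lemma C_dvd_gp_sub (s : p.Co) : C ((p.r : ℤ) ^ p.n0) ∣ p.gp s - p.g0 :=
  ⟨p.gq s, by rw [gp_eq, add_sub_cancel_left]⟩

lemma C_dvd_cp_sub (s : p.Co) : C ((p.r : ℤ) ^ p.n0) ∣ p.cp s - p.c0 :=
  ⟨p.cq s, by rw [cp_eq, add_sub_cancel_left]⟩

lemma coeff_F_zero (s : p.Co) : (p.F s).coeff 0 = (nrm p.f p.g0 p.c0).coeff 0 := by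
  simp only [F, nrm, coeff_sub, sq, mul_coeff_zero, coeff_gp_zero, coeff_cp_zero]

lemma natAbs_coeff_F_zero (s : p.Co) : ((p.F s).coeff 0).natAbs = p.r ^ p.E0 := by
  rw [coeff_F_zero, p.const]

/-- the Newton polygon of a section -/
lemma slope_F (s : p.Co) :
    (p.r : ℤ) ^ p.e ∣ (p.F s).coeff (2 * p.k) ∧ ¬ (p.r : ℤ) ^ (p.e + 1) ∣ (p.F s).coeff (2 * p.k) ∧
      ∀ i ≤ 2 * p.k, (p.r : ℤ) ^ (2 * p.k * p.e + (2 * p.k - i) * (p.E0 - p.e)) ∣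
        (p.F s).coeff i ^ (2 * p.k) :=
  p.slope _ _ (p.natDegree_gp s) (p.natDegree_cp s) (p.coeff_gp_zero s) (p.coeff_cp_zero s)
    (p.C_dvd_gp_sub s) (p.C_dvd_cp_sub s)

lemma coeff_F_top_ne (s : p.Co) : (p.F s).coeff (2 * p.k) ≠ 0 := fun h =>
  (p.slope_F s).2.1 (h ▸ dvd_zero _)

lemma natDegree_F_eq (s : p.Co) : (p.F s).natDegree = 2 * p.k :=
  le_antisymm (p.natDegree_F s) (le_natDegree_of_ne_zero (p.coeff_F_top_ne s))

/-- the lower coefficients of the norm form are divisible by `r ^ (e + 1)` -/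
lemma dvd_coeff_F (s : p.Co) {i : ℕ} (hi : i < 2 * p.k) : (p.r : ℤ) ^ (p.e + 1) ∣ (p.F s).coeff i := by
  have h := (p.slope_F s).2.2 i hi.le
  have hr : Prime (p.r : ℤ) := Nat.prime_iff_prime_int.mp p.hr
  by_cases h0 : (p.F s).coeff i = 0
  · rw [h0]; exact dvd_zero _
  obtain ⟨j, c, hc, hj⟩ := WfDvdMonoid.max_power_factor' h0 hr.not_isUnit
  rcases Nat.lt_or_ge p.e j with hlt | hle
  · rw [hj]; exact (pow_dvd_pow _ hlt).mul_right _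
  exfalso
  have h1 : 2 * p.k * p.e + 1 ≤ 2 * p.k * p.e + (2 * p.k - i) * (p.E0 - p.e) := by
    have : 1 ≤ (2 * p.k - i) * (p.E0 - p.e) :=
      Nat.mul_pos (by omega) (by have := p.hE; omega)
    omega
  have h2 : (p.r : ℤ) ^ (j * (2 * p.k) + 1) ∣ (p.F s).coeff i ^ (2 * p.k) := by
    refine (pow_dvd_pow _ ?_).trans h
    have : j * (2 * p.k) ≤ 2 * p.k * p.e := by rw [mul_comm]; exact Nat.mul_le_mul_left _ hle
    omega
  rw [hj, mul_pow, ← pow_mul, pow_succ] at h2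
  exact hc (hr.dvd_of_dvd_pow ((mul_dvd_mul_iff_left (pow_ne_zero _ hr.ne_zero)).mp h2))

/-! ### values on a fibre -/

lemma N_eq_hev (s : p.Co) (t : ℤ × ℤ) : p.N s t = hev (2 * p.k) (p.F s) t.1 t.2 :=
  (hev_nrm (by have := p.hk; omega) p.f_natDegree_le (p.natDegree_gp s) (p.natDegree_cp s) _ _).symm

lemma D_eq (t : ℤ × ℤ) : p.D t = t.2 * hev 3 p.f t.1 t.2 := hev_succ p.f_natDegree.le _ _

lemma D_eq' (t : ℤ × ℤ) : p.D t = t.2 * (t.1 ^ 3 + p.f.coeff 2 * t.1 ^ 2 * t.2 +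
    p.f.coeff 1 * t.1 * t.2 ^ 2 + p.f.coeff 0 * t.2 ^ 3) := by
  rw [D_eq, hev]
  simp only [sum_range_succ, sum_range_zero, f_coeff_three]
  ring

lemma gt_eq (s : p.Co) (t : ℤ × ℤ) : p.gt s t = hev p.k p.g0 t.1 t.2 + (p.r : ℤ) ^ p.n0 *
    ∑ i : Fin p.k, s (.inl i) * (t.1 ^ (i.1 + 1) * t.2 ^ (p.k - (i.1 + 1))) := by
  rw [gt, gp, hev_add, hev_C_mul, hev_sum]
  congr 2
  exact sum_congr rfl fun i _ => by rw [hev_C_mul, hev_X_pow i.2]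

lemma ct_eq (s : p.Co) (t : ℤ × ℤ) : p.ct s t = hev (p.k - 2) p.c0 t.1 t.2 + (p.r : ℤ) ^ p.n0 *
    ∑ i : Fin (p.k - 2), s (.inr i) * (t.1 ^ (i.1 + 1) * t.2 ^ (p.k - 2 - (i.1 + 1))) := by
  rw [ct, cp, hev_add, hev_C_mul, hev_sum]
  congr 2
  exact sum_congr rfl fun i _ => by rw [hev_C_mul, hev_X_pow i.2]

lemma gt_sub (s s' : p.Co) (t : ℤ × ℤ) :
    p.gt s t - p.gt s' t = (p.r : ℤ) ^ p.n0 * hev p.k (p.gq (s - s')) t.1 t.2 := by
  rw [gt, gt, gp_eq, gp_eq, gq_sub, hev_add, hev_add, hev_C_mul, hev_C_mul, hev_sub]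
  ring

lemma ct_sub (s s' : p.Co) (t : ℤ × ℤ) :
    p.ct s t - p.ct s' t = (p.r : ℤ) ^ p.n0 * hev (p.k - 2) (p.cq (s - s')) t.1 t.2 := by
  rw [ct, ct, cp_eq, cp_eq, cq_sub, hev_add, hev_add, hev_C_mul, hev_C_mul, hev_sub]
  ring

section cast

variable {R : Type*} [CommRing R] {t : ℤ × ℤ} {τ : R}

lemma gt_cast (s : p.Co) (h : (t.1 : R) = τ * t.2) :
    ((p.gt s t : ℤ) : R) = (t.2 : R) ^ p.k * aeval τ (p.gp s) := hev_cast (p.natDegree_gp s) h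

lemma ct_cast (s : p.Co) (h : (t.1 : R) = τ * t.2) :
    ((p.ct s t : ℤ) : R) = (t.2 : R) ^ (p.k - 2) * aeval τ (p.cp s) := hev_cast (p.natDegree_cp s) h

lemma D_cast (h : (t.1 : R) = τ * t.2) : ((p.D t : ℤ) : R) = (t.2 : R) ^ 4 * aeval τ p.f :=
  hev_cast p.f_natDegree_le h

lemma N_cast (s : p.Co) (h : (t.1 : R) = τ * t.2) :
    ((p.N s t : ℤ) : R) = (t.2 : R) ^ (2 * p.k) * aeval τ (p.F s) := by
  rw [N_eq_hev]; exact hev_cast (p.natDegree_F s) h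

end cast

lemma N_real (s : p.Co) {t : ℤ × ℤ} (h : t.2 ≠ 0) :
    (p.N s t : ℝ) = (t.2 : ℝ) ^ (2 * p.k) * (p.FR s).eval ((t.1 : ℝ) / t.2) := by
  rw [FR, ← aeval_eq_eval_map]
  exact p.N_cast s (div_mul_cancel₀ _ (by exact_mod_cast h)).symm

lemma D_real {t : ℤ × ℤ} (h : t.2 ≠ 0) :
    (p.D t : ℝ) = (t.2 : ℝ) ^ 4 * aeval ((t.1 : ℝ) / t.2) p.f :=
  p.D_cast (div_mul_cancel₀ _ (by exact_mod_cast h)).symm

section mod

variable {m τ : ℤ} {t : ℤ × ℤ}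

lemma dvd_gt_sub (s : p.Co) (h : m ∣ t.1 - τ * t.2) :
    m ∣ p.gt s t - t.2 ^ p.k * (p.gp s).eval τ := dvd_hev_sub_eval (p.natDegree_gp s) h

lemma dvd_ct_sub (s : p.Co) (h : m ∣ t.1 - τ * t.2) :
    m ∣ p.ct s t - t.2 ^ (p.k - 2) * (p.cp s).eval τ := dvd_hev_sub_eval (p.natDegree_cp s) h

lemma dvd_D_sub (h : m ∣ t.1 - τ * t.2) : m ∣ p.D t - t.2 ^ 4 * p.f.eval τ :=
  dvd_hev_sub_eval p.f_natDegree_le h

lemma dvd_N_sub (s : p.Co) (h : m ∣ t.1 - τ * t.2) :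
    m ∣ p.N s t - t.2 ^ (2 * p.k) * (p.F s).eval τ := by
  rw [N_eq_hev]; exact dvd_hev_sub_eval (p.natDegree_F s) h

/-- the value of the section at `ω ≡ b ^ 2 w` -/
lemma dvd_val_sub (s : p.Co) (w : ℤ) (h : m ∣ t.1 - τ * t.2) :
    m ∣ p.gt s t + p.ct s t * (t.2 ^ 2 * w) -
      t.2 ^ p.k * ((p.gp s).eval τ + (p.cp s).eval τ * w) := by
  have h1 := p.dvd_gt_sub s h
  have h2 := (p.dvd_ct_sub s h).mul_right (t.2 ^ 2 * w)
  have hk : t.2 ^ p.k = t.2 ^ (p.k - 2) * t.2 ^ 2 := by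
    rw [← pow_add]; congr 1; have := p.hk; omega
  have := dvd_add h1 h2
  rw [hk] at this ⊢
  refine (this.trans (Dvd.intro 1 ?_))
  ring

lemma dvd_eval_gp_sub {s s' : p.Co} (h : ∀ j, m ∣ s j - s' j) (a : ℤ) :
    m ∣ (p.gp s).eval a - (p.gp s').eval a := by
  have : (p.gp s).eval a - (p.gp s').eval a = (p.r : ℤ) ^ p.n0 * (p.gq (s - s')).eval a := by
    simp only [gp_eq, gq_sub, eval_add, eval_mul, eval_C, eval_sub]; ring
  rw [this, gq, eval_finsetSum]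
  refine Dvd.dvd.mul_left (dvd_sum fun i _ => ?_) _
  rw [eval_mul, eval_C]
  exact (h _).mul_right _

lemma dvd_eval_cp_sub {s s' : p.Co} (h : ∀ j, m ∣ s j - s' j) (a : ℤ) :
    m ∣ (p.cp s).eval a - (p.cp s').eval a := by
  have : (p.cp s).eval a - (p.cp s').eval a = (p.r : ℤ) ^ p.n0 * (p.cq (s - s')).eval a := by
    simp only [cp_eq, cq_sub, eval_add, eval_mul, eval_C, eval_sub]; ring
  rw [this, cq, eval_finsetSum]
  refine Dvd.dvd.mul_left (dvd_sum fun i _ => ?_) _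
  rw [eval_mul, eval_C]
  exact (h _).mul_right _

lemma dvd_gt_sub_gt {s s' : p.Co} (h : ∀ j, m ∣ s j - s' j) (t : ℤ × ℤ) :
    m ∣ p.gt s t - p.gt s' t := by
  rw [gt_sub, gq, hev_sum]
  refine Dvd.dvd.mul_left (dvd_sum fun i _ => ?_) _
  rw [hev_C_mul]
  exact (h _).mul_right _

lemma dvd_ct_sub_ct {s s' : p.Co} (h : ∀ j, m ∣ s j - s' j) (t : ℤ × ℤ) :
    m ∣ p.ct s t - p.ct s' t := by
  rw [ct_sub, cq, hev_sum]
  refine Dvd.dvd.mul_left (dvd_sum fun i _ => ?_) _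
  rw [hev_C_mul]
  exact (h _).mul_right _

end mod

/-- on the fibre `t` through `x` the discriminant is the square of `b ^ 2 w` modulo the prime -/
lemma IsPt.dvd_D {p : Par} {x : Pt} {t : ℤ × ℤ} (hx : p.IsPt x) (ht : OnT x t) :
    (x.1 : ℤ) ∣ p.D t - (t.2 ^ 2 * x.2.2) ^ 2 := by
  have h1 := p.dvd_D_sub ht.1
  have h2 := hx.2.2.2.2.2.2.2.mul_left (t.2 ^ 4)
  refine (dvd_sub h1 h2).trans (Dvd.intro 1 ?_)
  ring

lemma onS_iff {p : Par} {x : Pt} {t : ℤ × ℤ} (hq : x.1.Prime) (ht : OnT x t) (s : p.Co) :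
    p.OnS x s ↔ (x.1 : ℤ) ∣ p.gt s t + p.ct s t * (t.2 ^ 2 * x.2.2) := by
  have h := p.dvd_val_sub s x.2.2 ht.1
  have hp : Prime (x.1 : ℤ) := Nat.prime_iff_prime_int.mp hq
  rw [dvd_iff_dvd_of_dvd_sub h, OnS]
  exact ⟨fun h => h.mul_left _, fun h =>
    (hp.dvd_or_dvd h).resolve_left fun h' => ht.2 (hp.dvd_of_dvd_pow h')⟩

lemma onS_congr {p : Par} {x : Pt} {s s' : p.Co} (h : ∀ j, (x.1 : ℤ) ∣ s j - s' j) :
    p.OnS x s ↔ p.OnS x s' := by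
  refine dvd_iff_dvd_of_dvd_sub ?_
  have := dvd_add (p.dvd_eval_gp_sub h x.2.1) ((p.dvd_eval_cp_sub h x.2.1).mul_right x.2.2)
  refine this.trans (Dvd.intro 1 ?_)
  ring

/-- the `r`-adic valuation of the norm on an admissible fibre -/
lemma N_val (s : p.Co) {t : ℤ × ℤ} (h1 : (p.r : ℤ) ∣ t.1 - 1) :
    (p.r : ℤ) ^ p.e ∣ p.N s t ∧ ¬ (p.r : ℤ) ^ (p.e + 1) ∣ p.N s t := by
  have hr : Prime (p.r : ℤ) := Nat.prime_iff_prime_int.mp p.hr
  have key : (p.r : ℤ) ^ (p.e + 1) ∣ p.N s t - (p.F s).coeff (2 * p.k) * t.1 ^ (2 * p.k) := by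
    rw [N_eq_hev, hev, sum_range_succ, Nat.sub_self, pow_zero, mul_one, add_sub_cancel_right]
    exact dvd_sum fun i hi => ((p.dvd_coeff_F s (mem_range.mp hi)).mul_right _).mul_right _
  obtain ⟨ha, hb, -⟩ := p.slope_F s
  constructor
  · exact (dvd_iff_dvd_of_dvd_sub ((pow_dvd_pow _ (Nat.le_succ _)).trans key)).mpr (ha.mul_right _)
  · intro h
    have h3 := (dvd_iff_dvd_of_dvd_sub key).mp h
    have h4 : ¬ (p.r : ℤ) ∣ t.1 ^ (2 * p.k) := fun h' => by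
      have := dvd_sub (hr.dvd_of_dvd_pow h') h1
      rw [sub_sub_cancel] at this
      exact hr.not_dvd_one this
    exact hb (hr.pow_dvd_of_dvd_mul_right _ h4 h3)

lemma Adm.r_dvd {p : Par} {t : ℤ × ℤ} (h : p.Adm t) : (p.r : ℤ) ∣ t.1 - 1 ∧ (p.r : ℤ) ∣ t.2 := by
  have hn : p.n0 ≠ 0 := by have := p.hn; omega
  refine ⟨(dvd_pow_self _ hn).trans h.2.2.1, ?_⟩
  have := dvd_add ((dvd_pow_self _ hn).trans h.2.2.2) (dvd_refl (p.r : ℤ))
  rwa [sub_add_cancel] at this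

lemma Adm.N_val {p : Par} {t : ℤ × ℤ} (h : p.Adm t) (s : p.Co) :
    (p.r : ℤ) ^ p.e ∣ p.N s t ∧ ¬ (p.r : ℤ) ^ (p.e + 1) ∣ p.N s t :=
  p.N_val s h.r_dvd.1

lemma Adm.N_pos {p : Par} {t : ℤ × ℤ} (h : p.Adm t) (s : p.Co) : 0 < p.N s t := by
  have h0 : p.N s t ≠ 0 := fun h0 => (h.N_val s).2 (h0 ▸ dvd_zero _)
  have : 0 ≤ p.N s t := by
    have := h.2.1
    unfold N
    nlinarith [sq_nonneg (p.gt s t), sq_nonneg (p.ct s t)]
  omega

end Par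

lemma inv_inv {x : Pt} (h : x.2.2 ≤ x.1) : inv (inv x) = x := by
  obtain ⟨q, a, w⟩ := x
  simp only [inv, Prod.mk.injEq, true_and] at h ⊢
  omega

@[simp] lemma inv_fst (x : Pt) : (inv x).1 = x.1 := rfl

lemma onT_inv (x : Pt) (t : ℤ × ℤ) : OnT (inv x) t ↔ OnT x t := Iff.rfl

/-! ### membership -/

lemma mem_Xset {p : Par} {y : ℝ} {N : ℕ} {x : Pt} :
    x ∈ Xset p y N ↔ x.1 ∈ Pset y N ∧ p.IsPt x := by
  classical
  refine ⟨fun h => ⟨fst_mem_Pset h, (mem_filter.mp h).2⟩, fun ⟨h1, h2⟩ => ?_⟩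
  refine mem_filter.mpr ⟨?_, h2⟩
  obtain ⟨i, -, hi⟩ := mem_biUnion.mp h1
  have := mem_range.mp (mem_filter.mp hi).1
  obtain ⟨-, -, -, -, h5, -, h7, -⟩ := h2
  simp only [mem_product, mem_range]
  exact ⟨h1, by omega, by omega⟩

lemma mem_Sset {p : Par} {S0 L : ℕ} {s : p.Co} :
    s ∈ Sset p S0 L ↔ ∀ j, |s j - cen p S0 j| < L := by
  simp only [Sset, Fintype.mem_piFinset, Finset.mem_Ioo, abs_lt]
  exact forall_congr' fun j => by constructor <;> rintro ⟨h1, h2⟩ <;> constructor <;> linarith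

lemma Tset_prop {p : Par} {c : Cfg} {t : ℤ × ℤ} (h : t ∈ Tset p c) :
    c.B ≤ t.2 ∧ t.2 < c.B * (1 + c.η) ∧ c.τ0 ≤ (t.1 : ℝ) / t.2 ∧ (t.1 : ℝ) / t.2 < c.τ0 + c.η ∧
      (p.r : ℤ) ^ p.n0 ∣ t.1 - 1 ∧ (p.r : ℤ) ^ p.n0 ∣ t.2 - p.r ∧
      (M0 p.r c.z : ℤ) ∣ t.1 ∧ (M0 p.r c.z : ℤ) ∣ t.2 - 1 := by
  classical
  exact (mem_filter.mp h).2

lemma tent_nonneg (v : ℝ) : 0 ≤ tent v := le_max_left _ _

lemma tent_le_one (v : ℝ) : tent v ≤ 1 := max_le zero_le_one (by linarith [abs_nonneg v])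

lemma abs_tent_sub (v w : ℝ) : |tent v - tent w| ≤ |v - w| := by
  refine (abs_max_sub_max_le_max _ _ _ _).trans (max_le (by simp) ?_)
  rw [sub_sub_sub_cancel_left, abs_sub_comm]
  exact abs_abs_sub_abs_le_abs_sub _ _

lemma tent_ne_zero {v : ℝ} (h : tent v ≠ 0) : |v| < 1 := by
  by_contra h'
  exact h (max_eq_left (by linarith [not_lt.mp h']))

lemma wS_nonneg (p : Par) (S0 L : ℕ) (s : p.Co) : 0 ≤ wS p S0 L s :=
  prod_nonneg fun _ _ => div_nonneg (tent_nonneg _) (Nat.cast_nonneg _)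

lemma M0_pos (r z : ℕ) : 0 < M0 r z :=
  prod_pos fun _ hl => (mem_filter.mp hl).2.1.pos

lemma dvd_M0 {r z l : ℕ} (hl : l.Prime) (hz : l ≤ z) (hr : l ≠ r) : l ∣ M0 r z :=
  dvd_prod_of_mem _ (mem_filter.mpr ⟨mem_range.mpr (by omega), hl, hr⟩)

lemma prime_dvd_M0 {r z l : ℕ} (hl : l.Prime) : l ∣ M0 r z ↔ l ≤ z ∧ l ≠ r := by
  refine ⟨fun h => ?_, fun h => dvd_M0 hl h.1 h.2⟩
  obtain ⟨l', h1, h2⟩ := (Prime.dvd_finsetProd_iff hl.prime _).mp h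
  obtain ⟨h3, h4, h5⟩ := mem_filter.mp h1
  obtain rfl := (Nat.prime_dvd_prime_iff_eq hl h4).mp h2
  exact ⟨by have := mem_range.mp h3; omega, h5⟩

lemma one_le_Pi (z n : ℕ) : 1 ≤ Pi z n :=
  Finset.one_le_prod fun l _ => le_add_of_nonneg_right (by positivity)

/-! ### large `y` -/

namespace Fix

variable {F : Fix} {Φ Ψ : Cfg → Prop}

lemma Ev.and (h : F.Ev Φ) (h' : F.Ev Ψ) : F.Ev fun c => Φ c ∧ Ψ c := by
  obtain ⟨a, ha⟩ := h
  obtain ⟨b, hb⟩ := h'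
  exact ⟨max a b, fun c hc hi =>
    ⟨ha c ((le_max_left _ _).trans hc) hi, hb c ((le_max_right _ _).trans hc) hi⟩⟩

lemma Ev.mono (h : F.Ev Φ) (h' : ∀ c, F.In c → Φ c → Ψ c) : F.Ev Ψ := by
  obtain ⟨a, ha⟩ := h
  exact ⟨a, fun c hc hi => h' c hi (ha c hc hi)⟩

lemma Ev.of_forall (h : ∀ c, F.In c → Φ c) : F.Ev Φ := ⟨0, fun c _ hi => h c hi⟩

lemma Ev.of_eventually {φ : ℝ → Prop} (h : ∀ᶠ y in atTop, φ y) : F.Ev fun c => φ c.y := by
  obtain ⟨a, ha⟩ := eventually_atTop.mp h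
  exact ⟨a, fun c hc _ => ha c.y hc⟩

lemma Ev.of_exists {φ : ℝ → Prop} (h : ∃ y₀, ∀ y, y₀ ≤ y → φ y) : F.Ev fun c => φ c.y := by
  obtain ⟨a, ha⟩ := h
  exact ⟨a, fun c hc _ => ha c.y hc⟩

lemma ev_y_ge (F : Fix) (a : ℝ) : F.Ev fun c => a ≤ c.y := ⟨a, fun _ hc _ => hc⟩

lemma ev_log_ge (F : Fix) (a : ℝ) : F.Ev fun c => a ≤ Real.log c.y :=
  Ev.of_eventually (φ := fun y => a ≤ Real.log y) (Real.tendsto_log_atTop.eventually_ge_atTop a)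

lemma Ev.forall_finset {ι : Type*} (s : Finset ι) {Φ : ι → Cfg → Prop} (h : ∀ i ∈ s, F.Ev (Φ i)) :
    F.Ev fun c => ∀ i ∈ s, Φ i c := by
  classical
  induction s using Finset.induction_on with
  | empty => exact Ev.of_forall (by simp)
  | insert a s _ ih =>
    refine ((h a (mem_insert_self _ _)).and (ih fun i hi => h i (mem_insert_of_mem hi))).mono ?_
    intro c _ hc i hi
    rcases mem_insert.mp hi with rfl | hi
    exacts [hc.1, hc.2 i hi]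

end Fix

/-- a power of the logarithm is eventually smaller than a power -/
lemma ev_log_pow_le (C : ℝ) (A : ℕ) {δ : ℝ} (hδ : 0 < δ) :
    ∀ᶠ y : ℝ in atTop, C * Real.log y ^ A ≤ y ^ δ := by
  have h := (isLittleO_log_rpow_rpow_atTop (A : ℝ) hδ).const_mul_left C
  filter_upwards [h.bound one_pos, eventually_ge_atTop 1] with y hy h1
  rw [one_mul, Real.norm_eq_abs, Real.norm_eq_abs, Real.rpow_natCast,
    abs_of_nonneg (Real.rpow_nonneg (by linarith) δ)] at hy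
  exact (le_abs_self _).trans hy

lemma ev_log_pow_le_self (C : ℝ) (A : ℕ) : ∀ᶠ y : ℝ in atTop, C * Real.log y ^ A ≤ y := by
  simpa using ev_log_pow_le C A one_pos

namespace Fix

lemma ev_log_pow_le (F : Fix) (C : ℝ) (A : ℕ) {δ : ℝ} (hδ : 0 < δ) :
    F.Ev fun c => C * Real.log c.y ^ A ≤ c.y ^ δ :=
  Ev.of_eventually (φ := fun y => C * Real.log y ^ A ≤ y ^ δ) (VE.ev_log_pow_le C A hδ)

lemma ev_log_pow_le_self (F : Fix) (C : ℝ) (A : ℕ) : F.Ev fun c => C * Real.log c.y ^ A ≤ c.y :=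
  Ev.of_eventually (φ := fun y => C * Real.log y ^ A ≤ y) (VE.ev_log_pow_le_self C A)

/-- `1 ≤ N ≤ (log y) ^ (6 A + 1)`, the shape used by `S_Theta`, `S_E2`, `S_LSH` -/
lemma ev_N (F : Fix) : F.Ev fun c => 1 ≤ c.N ∧ (c.N : ℝ) ≤ Real.log c.y ^ (6 * F.A + 1) := by
  refine (F.ev_log_ge 2).mono fun c hi hc => ⟨?_, ?_⟩
  · have : (1 : ℝ) ≤ c.N := (one_le_pow₀ (by linarith)).trans hi.N_ge
    exact_mod_cast this
  · rw [pow_succ]
    have : 0 ≤ Real.log c.y ^ (6 * F.A) := pow_nonneg (by linarith) _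
    nlinarith [hi.N_le]

lemma ev_N_ge (F : Fix) (hA : 1 ≤ F.A) (a : ℝ) : F.Ev fun c => a ≤ c.N := by
  refine ((F.ev_log_ge a).and (F.ev_log_ge 1)).mono fun c hi hc => ?_
  exact hc.1.trans ((le_self_pow₀ hc.2 (by omega)).trans hi.N_ge)

/-- every power of `N` is smaller than a power of `y` -/
lemma ev_N_pow_le (F : Fix) (C : ℝ) (m : ℕ) {δ : ℝ} (hδ : 0 < δ) :
    F.Ev fun c => C * (c.N : ℝ) ^ m ≤ c.y ^ δ := by
  refine (F.ev_N.and (F.ev_log_pow_le |C| ((6 * F.A + 1) * m) hδ)).mono fun c _ hc => ?_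
  refine le_trans ?_ hc.2
  rw [pow_mul]
  exact mul_le_mul (le_abs_self _) (pow_le_pow_left₀ (Nat.cast_nonneg _) hc.1.2 _)
    (by positivity) (abs_nonneg _)

lemma ev_N_pow_le_self (F : Fix) (C : ℝ) (m : ℕ) : F.Ev fun c => C * (c.N : ℝ) ^ m ≤ c.y := by
  simpa using F.ev_N_pow_le C m one_pos

/-- a statement for all `N` in the range of `S_Theta` holds for the parameters -/
lemma Ev.of_N {F : Fix} {φ : ℝ → ℕ → Prop}
    (h : ∃ y₀ : ℝ, ∀ y, y₀ ≤ y → ∀ N : ℕ, 1 ≤ N → (N : ℝ) ≤ Real.log y ^ (6 * F.A + 1) → φ y N) :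
    F.Ev fun c => φ c.y c.N :=
  ((Ev.of_exists h).and F.ev_N).mono fun c _ hc => hc.1 c.N hc.2.1 hc.2.2

/-- `y ^ 199 ≤ L ≤ S0` -/
lemma ev_L (F : Fix) : F.Ev fun c => c.y ^ 199 ≤ c.L ∧ c.L ≤ c.S0 := by
  refine ((F.ev_y_ge (2 / F.η)).and (F.ev_y_ge 0)).mono fun c hi hc => ⟨?_, ?_⟩
  · have h1 : 2 ≤ c.η * c.y := by
      rw [hi.η, mul_comm]; exact (div_le_iff₀ F.ηpos).mp hc.1
    have h2 : 0 ≤ c.y ^ 199 := pow_nonneg hc.2 _
    have h3 : 0 < c.η := hi.η ▸ F.ηpos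
    have h4 : c.η * c.y ^ 200 ≤ c.η * c.S0 := mul_le_mul_of_nonneg_left hi.S_ge h3.le
    have h5 : c.η * c.y ^ 200 = c.η * c.y * c.y ^ 199 := by ring
    nlinarith [hi.L_ge]
  · have h3 : c.η ≤ 1 := hi.η ▸ F.ηle
    have : (c.L : ℝ) ≤ c.S0 := hi.L_le.trans (by
      have : (0 : ℝ) ≤ c.S0 := Nat.cast_nonneg _
      nlinarith)
    exact_mod_cast this

variable {F : Fix} {c : Cfg}

lemma In.η_pos (h : F.In c) : 0 < c.η := h.η ▸ F.ηpos

lemma In.η_le (h : F.In c) : c.η ≤ 1 := h.η ▸ F.ηle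

lemma In.τ0_le (h : F.In c) : c.τ0 ≤ -2 := h.τ0 ▸ F.tau.1

lemma In.one_le_B (h : F.In c) (hy : 1 ≤ c.y) : 1 ≤ c.B := (one_le_pow₀ hy).trans h.B_ge

lemma In.t2_pos (h : F.In c) (hy : 1 ≤ c.y) {t : ℤ × ℤ} (ht : t ∈ Tset F.p c) : 0 < t.2 := by
  have : (0 : ℝ) < t.2 := by linarith [(Tset_prop ht).1, h.one_le_B hy]
  exact_mod_cast this

lemma In.t2_le (h : F.In c) (hy : 1 ≤ c.y) {t : ℤ × ℤ} (ht : t ∈ Tset F.p c) :
    (t.2 : ℝ) ≤ 2 * c.B := by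
  nlinarith [(Tset_prop ht).2.1, h.one_le_B hy, h.η_le]

lemma In.t1_neg (h : F.In c) (hy : 1 ≤ c.y) {t : ℤ × ℤ} (ht : t ∈ Tset F.p c) : t.1 < 0 := by
  have h2 : (0 : ℝ) < t.2 := by exact_mod_cast h.t2_pos hy ht
  have h3 : (t.1 : ℝ) / t.2 < 0 := by linarith [(Tset_prop ht).2.2.2.1, h.τ0_le, h.η_le]
  have : (t.1 : ℝ) < 0 := by simpa using (div_lt_iff₀ h2).mp h3
  exact_mod_cast this

/-- the discriminant of a fibre is at most `-b ^ 4` -/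
lemma In.D_le (h : F.In c) (hy : 1 ≤ c.y) {t : ℤ × ℤ} (ht : t ∈ Tset F.p c) :
    (F.p.D t : ℝ) ≤ -(t.2 : ℝ) ^ 4 := by
  have h2 := h.t2_pos hy ht
  have h3 : aeval ((t.1 : ℝ) / t.2) F.p.f ≤ -1 :=
    F.tau.2 _ (by linarith [(Tset_prop ht).2.2.2.1, h.τ0, h.η_le])
  rw [F.p.D_real h2.ne']
  have : (0 : ℝ) ≤ (t.2 : ℝ) ^ 4 := by positivity
  nlinarith

lemma In.adm (h : F.In c) (hy : 1 ≤ c.y) {t : ℤ × ℤ} (ht : t ∈ Tset F.p c) : F.p.Adm t := by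
  have h2 := h.t2_pos hy ht
  refine ⟨h2, ?_, (Tset_prop ht).2.2.2.2.1, (Tset_prop ht).2.2.2.2.2.1⟩
  have h3 : (0 : ℝ) < (t.2 : ℝ) ^ 4 := by positivity
  have : (F.p.D t : ℝ) < 0 := by linarith [h.D_le hy ht]
  exact_mod_cast this

lemma In.wT_nonneg (h : F.In c) (hy : 1 ≤ c.y) {t : ℤ × ℤ} (ht : t ∈ Tset F.p c) :
    0 ≤ wT F.p c t :=
  div_nonneg (inv_nonneg.mpr (by exact_mod_cast (h.t2_pos hy ht).le))
    (sum_nonneg fun _ ht' => inv_nonneg.mpr (by exact_mod_cast (h.t2_pos hy ht').le))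

end Fix

end Pool.Agent.P.MP_b8021b_nt.VE
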