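import Pool.Agent.P.MP_b8021b_nt.VE.Defs

/-! Interface statements of part N. Each is proved in its own file of this folder. -/

namespace Pool.Agent.P.MP_b8021b_nt.VE

open Polynomial NumberField Finset MeasureTheory
open scoped Classical ComplexConjugate

/-! ### counting -/

/-- N0: primes in short multiplicative intervals -/
def S_Theta : Prop :=
  ∀ A : ℕ, ∃ y₀ : ℝ, ∀ y, y₀ ≤ y → ∀ N : ℕ, 1 ≤ N → (N : ℝ) ≤ Real.log y ^ A →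
    (∀ i < N, y / (2 * N) ≤ ∑ q ∈ strat y N i, Real.log q) ∧
    (∀ i < N, ∑ q ∈ strat y N i, wt y N q = 1) ∧
    (∀ i, ∀ q ∈ strat y N i, lv y N q = i) ∧
    ∀ q ∈ Pset y N, q.Prime ∧ y ≤ q ∧ q < 3 * y ∧ lv y N q < N ∧ q ∈ strat y N (lv y N q) ∧
      0 ≤ wt y N q ∧ wt y N q ≤ 4 * N * Real.log y / y

/-- N1: points modulo a prime -/
def S_Card : Prop :=
  ∀ p : Par, ∃ C : ℝ, ∀ q : ℕ, q.Prime → q ≠ 2 → q ≠ p.r →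
    |(((range q ×ˢ range q).filter fun a => p.IsPt (q, a)).card : ℝ) - q| ≤ C * (q : ℝ) ^ (3 / 4 : ℝ)

/-- N2: fibres in boxes and residue classes -/
def S_TEq : Prop :=
  ∀ (p : Par) (c : Cfg) (d : ℕ) (R : Finset (ZMod d × ZMod d)) (τ₁ τ₂ B₁ B₂ : ℝ), c.τ0 ≤ -2 →
    0 < c.η → c.η ≤ 1 → 1 ≤ d → d.Coprime (M0 p.r c.z * p.r) →
    6 * (M0 p.r c.z * p.r ^ p.n0 * d : ℕ) ≤ c.η * c.B → c.τ0 ≤ τ₁ → τ₁ ≤ τ₂ → τ₂ ≤ c.τ0 + c.η →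
    c.B ≤ B₁ → B₁ ≤ B₂ → B₂ ≤ c.B * (1 + c.η) →
    c.η ^ 2 * c.B / (2 * ((M0 p.r c.z * p.r ^ p.n0 : ℕ) : ℝ) ^ 2) ≤
      ∑ t ∈ Tset p c, ((t.2 : ℝ))⁻¹ ∧
    |∑ t ∈ Tset p c with τ₁ ≤ (t.1 : ℝ) / t.2 ∧ (t.1 : ℝ) / t.2 < τ₂ ∧ B₁ ≤ t.2 ∧ t.2 < B₂ ∧
        ((t.1 : ZMod d), (t.2 : ZMod d)) ∈ R, wT p c t -
      (τ₂ - τ₁) * (B₂ - B₁) / (c.η ^ 2 * c.B) * (R.card / (d : ℝ) ^ 2)| ≤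
      20 * (R.card / (d : ℝ) ^ 2) * ((M0 p.r c.z * p.r ^ p.n0 * d : ℕ) / (c.η * c.B))

/-- N3: sections in residue classes -/
def S_SEq : Prop :=
  ∀ p : Par, ∃ C : ℝ, 1 ≤ C ∧ ∀ (S0 L d : ℕ), 1 ≤ d → d ≤ L →
    ∑ s ∈ Sset p S0 L, wS p S0 L s = 1 ∧
    (∀ R : Finset (p.Ix → ZMod d),
      |∑ s ∈ Sset p S0 L with (fun j => (s j : ZMod d)) ∈ R, wS p S0 L s -
        R.card / (d : ℝ) ^ (2 * p.k - 2)| ≤ C * (d / L) * (R.card / (d : ℝ) ^ (2 * p.k - 2))) ∧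
    ∀ (t : ℤ × ℤ) (R : Finset (ZMod d × ZMod d)), IsCoprime (d : ℤ) (t.1 * p.r) →
      |∑ s ∈ Sset p S0 L with ((p.gt s t : ZMod d), (p.ct s t : ZMod d)) ∈ R, wS p S0 L s -
        R.card / (d : ℝ) ^ 2| ≤ C * (d / L) * (R.card / (d : ℝ) ^ 2)

/-- N4a: the base, the fibres and the cells -/
def S_IndT : Prop :=
  ∀ (F : Fix) (Nc : ℕ) [NeZero Nc] (ε : ℝ), 1 ≤ F.A → 0 < ε → F.Ev fun c =>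
    (base F.p c.y c.N).Ok ε ∧ (sideT F.p c).Ok (base F.p c.y c.N) ε ∧
      (box F.p c Nc).Ok (sideT F.p c) (base F.p c.y c.N) ε ∧ ∀ t ∈ Tset F.p c, F.p.Adm t

/-- N4b: the sections -/
def S_IndS : Prop :=
  ∀ (F : Fix) (ε : ℝ), 0 < ε → F.Ev fun c =>
    (sideS F.p c.y c.N c.S0 c.L).Ok (base F.p c.y c.N) ε

/-- Nf: the norm form is almost constant; sizes -/
def S_Flat : Prop :=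
  ∀ (p : Par) (τ0 : ℝ), ∃ C : ℝ, 1 ≤ C ∧ ∀ F : Fix, F.p = p → F.τ0 = τ0 → F.Ev fun c =>
    (∀ s ∈ Sset p c.S0 c.L, ∀ a ∈ Set.Icc τ0 (τ0 + c.η),
      |(p.FR s).eval a / ((p.r : ℝ) ^ p.n0 * c.S0 * τ0 ^ p.k) ^ 2 - 1| ≤ C * c.η) ∧
    (∀ s, (p.F s).natDegree ≤ 2 * p.k) ∧
    (∀ s, ∀ t : ℤ × ℤ, t.2 ≠ 0 →
      (p.N s t : ℝ) = (t.2 : ℝ) ^ (2 * p.k) * (p.FR s).eval ((t.1 : ℝ) / t.2)) ∧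
    (∀ t ∈ Tset p c, t.1 < 0 ∧ |(t.1 : ℝ)| ≤ C * c.B ∧ c.B ^ 4 ≤ -(p.D t : ℝ) ∧
      -(p.D t : ℝ) ≤ C * c.B ^ 4) ∧
    ∀ x x' t t', IsQ p c x x' t t' → (nn p x x' t t' : ℝ) ≤ c.y ^ 75

/-! ### quadratic fields -/

/-- existence -/
def S_IQ : Prop :=
  ∀ D : ℤ, D < 0 → ∃ (L : Type) (_ : Field L) (_ : NumberField L) (K : IQ L), K.D = D

/-- basic facts -/
def S_IQb : Prop :=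
  ∀ (L : Type) [Field L] [NumberField L] (K : IQ L),
    (∀ β : 𝓞 L, ∃ a b : ℤ, 2 * K.D * β = a + b * K.ω) ∧
    (∀ a b : ℤ, (a : 𝓞 L) + b * K.ω = 0 → a = 0 ∧ b = 0) ∧
    (∀ β : 𝓞 L, (Ideal.absNorm (Ideal.span {β}) : ℝ) = ‖K.σ β‖ ^ 2) ∧
    (∀ a b : ℤ, ‖K.σ ((a : 𝓞 L) + b * K.ω : 𝓞 L)‖ ^ 2 = a ^ 2 - b ^ 2 * K.D) ∧
    (∀ β : 𝓞 L, K.σ (K.c β) = conj (K.σ β)) ∧ (∀ β, K.c (K.c β) = β) ∧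
    Finite (𝓞 L)ˣ ∧ (∀ (n : ℕ) (ε : (𝓞 L)ˣ), 3 ≤ n → (n : 𝓞 L) ∣ ε - 1 → ε = 1) ∧
    (∀ I : Ideal (𝓞 L), I * I.map K.c = Ideal.span {(Ideal.absNorm I : 𝓞 L)}) ∧
    (∀ I : Ideal (𝓞 L), Ideal.absNorm (I.map K.c) = Ideal.absNorm I) ∧
    |discr L| ≤ 4 * |K.D| ∧
    (∃ e : Module.Basis (Fin 2) ℤ (𝓞 L), |(K.σ (e 0) * conj (K.σ (e 1))).im| = cov L) ∧
    ∀ q : ℕ, q.Prime → ¬ (q : ℤ) ∣ 2 * K.D →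
      (Set.ncard {I : Ideal (𝓞 L) | Ideal.absNorm I = q} : ℤ) = 1 + jacobiSym K.D q

/-- N6 -/
def S_QF : Prop :=
  ∀ (p : Par) (t : ℤ × ℤ) (L : Type) [Field L] [NumberField L] (K : IQ L), p.Adm t → K.D = p.D t →
    (∃ 𝔮 : Ideal (𝓞 L), 𝔮 ^ 2 = Ideal.span {(p.r : 𝓞 L)}) ∧
    (∀ s, (Ideal.absNorm (Ideal.span {K.al p t s}) : ℤ) = p.N s t ∧ (p.r : ℤ) ^ p.e ∣ p.N s t ∧
      ¬ (p.r : ℤ) ^ (p.e + 1) ∣ p.N s t) ∧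
    (∀ x, p.IsPt x → OnT x t → Ideal.absNorm (K.J t x) = x.1 ∧ (K.J t x).map K.c = K.J t (inv x) ∧
      ¬ (x.1 : ℤ) ∣ t.1 * p.D t ∧ ∀ s, p.OnS x s ↔ K.al p t s ∈ K.J t x) ∧
    (∀ x x', p.IsPt x → OnT x t → p.IsPt x' → OnT x' t → K.J t x = K.J t x' → x = x') ∧
    (∀ (q : ℕ) (I : Ideal (𝓞 L)), q.Prime → ¬ (q : ℤ) ∣ 2 * p.r * t.1 * p.D t →
      Ideal.absNorm I = q → ∃ x : Pt, x.1 = q ∧ p.IsPt x ∧ OnT x t ∧ K.J t x = I) ∧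
    ∀ 𝔮 : Ideal (𝓞 L), 𝔮 ^ 2 = Ideal.span {(p.r : 𝓞 L)} →
      Ideal.absNorm 𝔮 = p.r ∧ 𝔮.map K.c = 𝔮 ∧ (∀ s, K.al p t s ∈ 𝔮 ^ p.e) ∧
      ∀ (n : ℕ) (s : p.Co) (x : Fin n → Pt), p.Good t s x →
        Ideal.span {K.al p t s} = 𝔮 ^ p.e * ∏ i, K.J t (x i)

/-- N11a: ideals of given norm -/
def S_Lam : Prop :=
  ∀ (L : Type) [Field L] [NumberField L],
    (∀ m : ℕ, 1 ≤ m → Set.ncard {I : Ideal (𝓞 L) | Ideal.absNorm I = m} ≤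
      m.divisors.card ^ Module.finrank ℚ L) ∧
    (∀ (χ : Ideal (𝓞 L) → ℂ) (m : ℕ), 1 ≤ m → (∀ I, ‖χ I‖ ≤ 1) →
      ‖lam χ m‖ ≤ (m.divisors.card : ℝ) ^ Module.finrank ℚ L) ∧
    ∀ (χ : Ideal (𝓞 L) →* ℂ) (m m' : ℕ), 1 ≤ m → 1 ≤ m' → m.Coprime m' →
      lam χ (m * m') = lam χ m * lam χ m'

/-- N11: class number bound -/
def S_Cl : Prop :=
  ∃ C : ℝ, 1 ≤ C ∧ ∀ (L : Type) [Field L] [NumberField L] (K : IQ L),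
    (classNumber L : ℝ) ≤ C * cov L * (1 + Real.log |(K.D : ℝ)|) ^ 3 ∧ 1 / 2 ≤ cov L ∧
      cov L ≤ √|(K.D : ℝ)| ∧ 1 ≤ wu L

/-- N12: the number of invertible residues -/
def S_Phi : Prop :=
  ∀ (L : Type) [Field L] [NumberField L], Module.finrank ℚ L = 2 → ∀ m n : ℕ, 1 ≤ n → m ∣ n →
    1 ≤ phi L n ∧ phi L n ≤ n ^ 2 ∧ 1 ≤ cc L m n ∧
      cc L m n ≤ ∏ l ∈ n.primeFactors.filter (fun l => ¬ l ∣ m), (1 - 1 / (l : ℝ))⁻¹ ^ 2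

/-- N7a: the ray class group -/
def S_Ray : Prop :=
  ∀ (L : Type) [Field L] [NumberField L] (n : ℕ), 1 ≤ n →
    ∃ (G : Type) (_ : CommGroup G) (_ : Fintype G) (π : Ideal (𝓞 L) → G),
      (∀ I J, I ≠ ⊥ → J ≠ ⊥ → Cop n I → Cop n J → π (I * J) = π I * π J) ∧
      (∀ (g : G) (d : ℕ), 1 ≤ d → ∃ I, I ≠ ⊥ ∧ Cop (n * d) I ∧ π I = g) ∧
      (∀ I J, I ≠ ⊥ → J ≠ ⊥ → Cop n I → Cop n J → (π I = π J ↔ Ray n I J)) ∧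
      ((∀ ε : (𝓞 L)ˣ, (n : 𝓞 L) ∣ ε - 1 → ε = 1) →
        Fintype.card G * wu L = classNumber L * phi L n)

/-- N7: orthogonality -/
def S_Eq : Prop :=
  ∀ (L : Type) [Field L] [NumberField L] (K : IQ L) (n : ℕ) (k : ℤ), 3 ≤ n →
    ∃ 𝒳 : Finset (Ideal (𝓞 L) →* ℂ), (∀ χ, χ ∈ 𝒳 ↔ IsHChar K.σ n k χ) ∧
      𝒳.card * wu L = classNumber L * phi L n ∧
      ∀ (𝔞 𝔟₀ 𝔟 : Ideal (𝓞 L)) (α₀ : 𝓞 L), 𝔞 ≠ ⊥ → Ideal.span {α₀} = 𝔞 * 𝔟₀ → Cop n 𝔟₀ →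
        (∀ α, Ideal.span {α} = 𝔞 * 𝔟 → α - α₀ ∈ Ideal.span {(n : 𝓞 L)} * 𝔞 →
          (ir L n : ℂ) * ∑ χ ∈ 𝒳, χ 𝔟 * conj (χ 𝔟₀) = (dir (K.σ α) * conj (dir (K.σ α₀))) ^ k ∧
          ∀ α', Ideal.span {α'} = 𝔞 * 𝔟 → α' - α₀ ∈ Ideal.span {(n : 𝓞 L)} * 𝔞 → α' = α) ∧
        ((¬ ∃ α, Ideal.span {α} = 𝔞 * 𝔟 ∧ α - α₀ ∈ Ideal.span {(n : 𝓞 L)} * 𝔞) →
          ∑ χ ∈ 𝒳, χ 𝔟 * conj (χ 𝔟₀) = 0)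

/-- N13: Legendre's theorem -/
def S_Leg : Prop :=
  ∀ d m : ℕ, Squarefree d → Squarefree m → d.Coprime m → IsSquare (-(d : ZMod m)) →
    IsSquare (m : ZMod d) → ∃ x y z : ℤ, z ≠ 0 ∧ x ^ 2 + d * y ^ 2 = m * z ^ 2

/-- N14: symmetric characters -/
def S_SymA : Prop :=
  ∀ (L : Type) [Field L] [NumberField L] (K : IQ L) (n : ℕ) (k : ℤ) (χ : Ideal (𝓞 L) →* ℂ),
    3 ≤ n → 2 * K.D ∣ n → IsHChar K.σ n k χ → K.Sym χ →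
    k = 0 ∧ ∀ I, Ideal.absNorm I ≡ 1 [MOD 8 * n ^ 2] → χ I = 1

/-- N23a: quadratic characters -/
def S_Kap : Prop :=
  ∀ (D : ℤ) (M : ℕ), M ≠ 0 → D ≠ 0 → 4 * D ∣ M → ∃ κ : DirichletCharacter ℂ M,
    (∀ m : ℕ, m.Coprime M → κ m = (jacobiSym D m : ℤ)) ∧ (¬ IsSquare D → κ ≠ 1)

/-- N15a: symmetric characters factor through the norm -/
def S_SymB : Prop :=
  ∀ (L : Type) [Field L] [NumberField L] (K : IQ L) (n : ℕ), 3 ≤ n → 2 * K.D ∣ n →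
    (∀ I : Ideal (𝓞 L), Cop n I → jacobiSym K.D (Ideal.absNorm I) = 1) ∧
    (∀ I : Ideal (𝓞 L), Cop n I ↔ (Ideal.absNorm I).Coprime n) ∧
    ∀ (k : ℤ) (χ : Ideal (𝓞 L) →* ℂ), IsHChar K.σ n k χ → K.Sym χ →
      ∃ η : DirichletCharacter ℂ (8 * n ^ 2), ∀ I, χ I = η (Ideal.absNorm I)

/-- N15: the error term of one field -/
def S_Err : Prop :=
  ∀ (L : Type) [Field L] [NumberField L] (K : IQ L) (n N u R : ℕ) (y ϑ V : ℝ), 3 ≤ n →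
    2 * K.D ∣ n → 1 ≤ u → 0 ≤ V → 0 ≤ ϑ → (∀ i < N, ∑ q ∈ strat y N i, wt y N q = 1) →
    (∀ i < N, ∀ q ∈ strat y N i, 0 ≤ wt y N q ∧ wt y N q ≤ ϑ) →
    (∀ (k : ℤ) (χ : Ideal (𝓞 L) →* ℂ), |k| < R → IsHChar K.σ n k χ → ¬ K.Sym χ → ∀ i < N,
      ‖Sm y N i (lam χ)‖ ≤ V) →
    Err K.σ y N u n R ≤ 2 ^ u * E2 y N u (8 * n ^ 2) +
      2 * R * (classNumber L * phi L n) * N * V ^ u ∧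
    ∀ ε : ℝ, 0 ≤ ε → E2 y N u (8 * n ^ 2) ≤ ε ^ u → ∀ χ : Ideal (𝓞 L) →* ℂ, IsChar n χ →
      IsTriv n χ → ∀ i < N, ‖Sm y N i (lam χ) - 1‖ ≤ ε + ϑ * n.primeFactors.card

/-- N16: Siegel-Walfisz and the large sieve -/
def S_E2 : Prop :=
  ∀ c : ℕ, ∃ u₀ : ℕ, ∀ u, u₀ ≤ u → ∀ A : ℕ, ∃ C' : ℕ, ∀ A' : ℕ, ∃ y₀ : ℝ, ∀ y, y₀ ≤ y → ∀ N : ℕ,
    1 ≤ N → (N : ℝ) ≤ Real.log y ^ A → ∃ e : ℕ → ℝ, (∀ d, 0 ≤ e d) ∧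
      ∑ d ∈ Finset.Icc 1 ⌊y ^ c⌋₊, e d ≤ Real.log y ^ C' ∧
      ∑ d ∈ Finset.Icc 1 ⌊Real.log y ^ A'⌋₊, e d ≤ (Real.log y ^ A')⁻¹ ∧
      ∀ m : ℕ, 1 ≤ m → (m : ℝ) ≤ y ^ c → E2 y N u m ≤ ∑ d ∈ m.divisors, e d + 1 / y

/-- N17a: the modulus is rarely divisible by a given integer -/
def S_Dvd : Prop :=
  ∃ c₀ : ℝ, 0 < c₀ ∧ ∀ F : Fix, ∃ C : ℝ, F.Ev fun c => ∀ d : ℕ, 1 ≤ d → (d : ℝ) ≤ c.y ^ 151 →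
    Qs F.p c (fun x x' t t' => if dl t t' ≠ 0 ∧ d ∣ 8 * nn F.p x x' t t' ^ 2 then 1 else 0) ≤
      C * ((d : ℝ) ^ (-c₀) + c.y ^ (-c₀))

/-- N17: the Dirichlet characters modulo `8 n ^ 2` are rarely bad -/
def S_E2avg : Prop :=
  ∃ u₀ : ℕ, ∀ F : Fix, u₀ ≤ F.u → 1 ≤ F.A → ∀ A' : ℕ, F.Ev fun c =>
    Qs F.p c (fun x x' t t' => if dl t t' ≠ 0 ∧
      (Real.log c.y ^ A')⁻¹ < E2 c.y c.N F.u (8 * nn F.p x x' t t' ^ 2) then 1 else 0) ≤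
      (Real.log c.y ^ A')⁻¹

/-- N18: few fibres have the same field -/
def S_Mul : Prop :=
  ∀ F : Fix, F.Ev fun c => ∀ t ∈ Tset F.p c,
    (((Tset F.p c).filter fun t' => IsCoprime t'.1 t'.2 ∧ IsSquare (F.p.D t * F.p.D t')).card : ℝ) ≤
      c.B ^ (3 / 2 : ℝ) * c.y ^ (1 / 4 : ℝ)

/-! ### Rankin-Selberg sums -/

/-- N8: lattice sums and integrals -/
def S_Lat : Prop :=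
  ∀ (E : Type) [NormedAddCommGroup E] [NormedSpace ℝ E] [FiniteDimensional ℝ E] [MeasurableSpace E]
    [BorelSpace E] (μ : Measure E) [μ.IsAddHaarMeasure] (Λ : Submodule ℤ E) [DiscreteTopology Λ]
    [IsZLattice ℝ Λ] (J : Type) [Fintype J] (v : Module.Basis J ℝ E) (f : E → ℂ) (κ : ℝ) (S : Set E)
    (a : E), (∀ j, v j ∈ Λ) → Continuous f → HasCompactSupport f → μ S ≠ ⊤ →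
    (∀ (y : E) (c : J → ℝ), (∀ j, |c j| ≤ 1) → ‖f (y + ∑ j, c j • v j) - f y‖ ≤ κ) →
    (∀ (y : E) (c : J → ℝ), (∀ j, |c j| ≤ 1) → f y ≠ 0 → y + ∑ j, c j • v j ∈ S) →
    ‖∑ᶠ x ∈ (Λ : Set E), f (a + x) - (∫ y, f y ∂μ) / (ZLattice.covolume Λ μ : ℝ)‖ ≤
      κ * μ.real S / ZLattice.covolume Λ μ

/-- N19: the biquadratic field -/
def S_BQ : Prop :=
  ∀ (L L' : Type) [Field L] [NumberField L] [Field L'] [NumberField L'] (K : IQ L) (K' : IQ L')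
    (n n' : ℕ) (k k' : ℤ) (χ : Ideal (𝓞 L) →* ℂ) (χ' : Ideal (𝓞 L') →* ℂ) (Q : ℝ), 3 ≤ n → 3 ≤ n' →
    2 * K.D ∣ n → 2 * K'.D ∣ n' → (n : ℝ) ≤ Q → (n' : ℝ) ≤ Q → IsHChar K.σ n k χ →
    IsHChar K'.σ n' k' χ' → ¬ IsSquare (K.D * K'.D) →
    ∃ (M : Type) (_ : Field M) (_ : NumberField M) (F : Quart M Q) (ψ : Ideal (𝓞 M) →* ℂ),
      F.IsH (n * n') (k - k') (k + k') ψ ∧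
      (∀ m : ℕ, Squarefree m → lam ψ m = lam χ m * conj (lam χ' m)) ∧
      (IsTriv (n * n') ψ → K.Adj χ K'.D (n * n'))

/-- N20: geometry of numbers in the quartic field -/
def S_Mink : Prop :=
  ∃ C : ℕ, ∀ (K : Type) [Field K] [NumberField K] (Q : ℝ) (F : Quart K Q), 2 ≤ Q →
    (∀ (𝔞 : Ideal (𝓞 K)) (v : ℝ), 𝔞 ≠ ⊥ → ∃ γ ∈ 𝔞, γ ≠ 0 ∧
      ‖F.σ₁ γ‖ ≤ Q ^ C * (Ideal.absNorm 𝔞 : ℝ) ^ (1 / 4 : ℝ) * Real.exp v ∧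
      ‖F.σ₂ γ‖ ≤ Q ^ C * (Ideal.absNorm 𝔞 : ℝ) ^ (1 / 4 : ℝ) * Real.exp (-v)) ∧
    (∀ (m d : ℕ) (𝔞 : Ideal (𝓞 K)), 1 ≤ m → 1 ≤ d → 𝔞 ≠ ⊥ → Cop m 𝔞 → ∃ (𝔠 : Ideal (𝓞 K)) (β : 𝓞 K),
      𝔠 ≠ ⊥ ∧ Cop (m * d) 𝔠 ∧ (Ideal.absNorm 𝔠 : ℝ) ≤ (Q * m * d) ^ C ∧ (m : 𝓞 K) ∣ β - 1 ∧
      𝔞 * 𝔠 = Ideal.span {β}) ∧
    ∀ m : ℕ, 1 ≤ m → ∃ ε : (𝓞 K)ˣ, (m : 𝓞 K) ∣ ε - 1 ∧ 0 < Real.log ‖F.σ₁ (ε : 𝓞 K)‖ ∧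
      Real.log ‖F.σ₁ (ε : 𝓞 K)‖ ≤ (Q * m) ^ C

/-- N21: sums of the test function over a coset -/
def S_Win : Prop :=
  ∃ C : ℕ, ∀ (K : Type) [Field K] [NumberField K] (Q : ℝ) (F : Quart K Q) (k₁ k₂ : ℤ) (R : ℝ),
    2 ≤ Q → 0 < R → ∃ I : ℂ, (k₁ ≠ 0 ∨ k₂ ≠ 0 → I = 0) ∧
      ∀ (𝔟 : Ideal (𝓞 K)) (β₀ : 𝓞 K) (Z : ℝ), 𝔟 ≠ ⊥ → 1 ≤ Z →
        {β : 𝓞 K | wfn k₁ k₂ Z R (F.σ₁ β) (F.σ₂ β) ≠ 0}.Finite ∧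
        ‖∑ᶠ β ∈ {β : 𝓞 K | β - β₀ ∈ 𝔟}, wfn k₁ k₂ Z R (F.σ₁ β) (F.σ₂ β) -
          Z * I / Ideal.absNorm 𝔟‖ ≤
          (Q * Ideal.absNorm 𝔟 * (R + 1) * (|k₁| + |k₂| + 1)) ^ C * Z ^ (3 / 4 : ℝ)

/-- N22a: cancellation for a nontrivial character of the quartic field -/
def S_RS4 : Prop :=
  ∃ C : ℕ, ∀ (K : Type) [Field K] [NumberField K] (Q : ℝ) (F : Quart K Q) (m d : ℕ) (k₁ k₂ : ℤ)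
    (ψ : Ideal (𝓞 K) →* ℂ) (Y : ℝ), 2 ≤ Q → 2 ≤ m → 1 ≤ d → 1 ≤ Y → F.IsH m k₁ k₂ ψ → ¬ IsTriv m ψ →
    ‖∑ j ∈ range ⌈3 * Y⌉₊ with d ^ 2 ∣ j, (tent (j / Y - 3 / 2) : ℂ) * lam ψ j‖ ≤
      (Q * m * d * (|k₁| + |k₂| + 1)) ^ C * Y ^ (3 / 4 : ℝ)

/-- N22: the Rankin-Selberg bound -/
def S_RS : Prop :=
  ∃ (C : ℕ) (η₀ : ℝ), 0 < η₀ ∧ ∀ (L L' : Type) [Field L] [NumberField L] [Field L'] [NumberField L']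
    (K : IQ L) (K' : IQ L') (n n' : ℕ) (k k' : ℤ) (χ : Ideal (𝓞 L) →* ℂ) (χ' : Ideal (𝓞 L') →* ℂ)
    (Q Y : ℝ), 3 ≤ n → 3 ≤ n' → 2 * K.D ∣ n → 2 * K'.D ∣ n' → (n : ℝ) ≤ Q → (n' : ℝ) ≤ Q →
    (|k| : ℝ) ≤ Q → (|k'| : ℝ) ≤ Q → 1 ≤ Y → IsHChar K.σ n k χ → IsHChar K'.σ n' k' χ' →
    ¬ IsSquare (K.D * K'.D) → K.Adj χ K'.D (n * n') ∨
      ‖∑ j ∈ range ⌈3 * Y⌉₊ with Squarefree j,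
        (tent (j / Y - 3 / 2) : ℂ) * (lam χ j * conj (lam χ' j))‖ ≤ Q ^ C * Y ^ (1 - η₀)

/-- N23: a non symmetric character is adjacent to at most one field -/
def S_Adj : Prop :=
  ∀ (L : Type) [Field L] [NumberField L] (K : IQ L) (n m m' : ℕ) (k D' D'' : ℤ)
    (χ : Ideal (𝓞 L) →* ℂ), 3 ≤ n → 2 * K.D ∣ n → 1 ≤ m → 1 ≤ m' → D' < 0 → D'' < 0 →
    IsHChar K.σ n k χ → ¬ K.Sym χ → K.Adj χ D' m → K.Adj χ D'' m' → IsSquare (D' * D'')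

/-- N24: the large sieve for a family of fields -/
def S_LSH : Prop :=
  ∀ c : ℕ, ∃ δ : ℝ, 0 < δ ∧ ∀ A : ℕ, ∃ y₀ : ℝ, ∀ y, y₀ ≤ y → ∀ N : ℕ, 1 ≤ N →
    (N : ℝ) ≤ Real.log y ^ A → ∀ (J : Type) [Fintype J] (L : J → Type) [∀ j, Field (L j)]
    [∀ j, NumberField (L j)] (K : ∀ j, IQ (L j)) (n : J → ℕ) (k : J → ℤ)
    (χ : ∀ j, Ideal (𝓞 (L j)) →* ℂ) (i : ℕ) (g : ℝ), i < N → 0 ≤ g →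
    (∀ j, 3 ≤ n j ∧ 2 * (K j).D ∣ n j ∧ (n j : ℝ) ≤ y ^ c ∧ (|k j| : ℝ) ≤ y ^ c ∧
      IsHChar (K j).σ (n j) (k j) (χ j) ∧ ¬ (K j).Sym (χ j) ∧ y ^ (-δ) ≤ ‖Sm y N i (lam (χ j))‖) →
    (∀ j, ((univ.filter fun j' => IsSquare ((K j).D * (K j').D)).card : ℝ) ≤ g) →
    (Fintype.card J : ℝ) ≤ g * y

/-- few fibres are bad -/
def S_Bad : Prop :=
  ∃ δ : ℝ, 0 < δ ∧ ∀ (F : Fix) (ε : ℝ), 1 ≤ F.A → 0 < ε → F.Ev fun c =>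
    ∀ (L : Tset F.p c → Type) [∀ t, Field (L t)] [∀ t, NumberField (L t)] (K : ∀ t, IQ (L t)),
      (∀ t, (K t).D = F.p.D t.1) →
      ∑ t : Tset F.p c with IsCoprime t.1.1 t.1.2 ∧ (K t).Bad c.y c.N δ, wT F.p c t.1 ≤ ε

/-! ### transfer to the sections -/

/-- N9: the Fejer kernel -/
def S_Fej : Prop :=
  ∀ (R : ℕ) (z : ℂ), 1 ≤ R → ‖z‖ = 1 → 0 ≤ fej R z ∧ fej R z ≤ R ∧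
    (∀ z' : ℂ, ‖z'‖ = 1 → |fej R z - fej R z'| ≤ (R : ℝ) ^ 2 * ‖z - z'‖) ∧
    (∀ M, R ≤ M → ∑ j ∈ range M, fej R (z * conj (rt M j)) = M) ∧
    (∀ M, R + 1 ≤ M → ∑ j ∈ range M, fej R (z * conj (rt M j)) * ‖z - rt M j‖ ^ 2 = 2 * M / R) ∧
    ∫ θ in (-Real.pi)..Real.pi, fej R (Complex.exp (θ * Complex.I) * z) = 2 * Real.pi

/-- N10: lattice points of a coset in discs and shells -/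
def S_Shell : Prop :=
  ∀ u : ℕ, ∃ C : ℝ, 1 ≤ C ∧ ∀ (L : Type) [Field L] [NumberField L] (K : IQ L) (𝔟 : Ideal (𝓞 L))
    (n₁ : ℕ) (α₀ : 𝓞 L) (r₀ : ℝ), 1 ≤ n₁ → (n₁ : 𝓞 L) ∈ 𝔟 → n₁ * (1 + √|(K.D : ℝ)|) ≤ r₀ →
    (∀ ζ : ℂ, ∃ α, α - α₀ ∈ 𝔟 ∧ ‖K.σ α - ζ‖ ≤ r₀) ∧
    (∀ (ζ : ℂ) (ϱ : ℝ), {α : 𝓞 L | ‖K.σ α - ζ‖ ≤ ϱ}.Finite ∧ (4 * r₀ ≤ ϱ →
      ϱ ^ 2 / (C * (Ideal.absNorm 𝔟 * cov L)) ≤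
        Set.ncard {α : 𝓞 L | α - α₀ ∈ 𝔟 ∧ ‖K.σ α - ζ‖ ≤ ϱ} ∧
      Set.ncard {α : 𝓞 L | α - α₀ ∈ 𝔟 ∧ ‖K.σ α - ζ‖ ≤ ϱ} ≤
        C * ϱ ^ 2 / (Ideal.absNorm 𝔟 * cov L))) ∧
    ∀ (X : ℝ) (N R m : ℕ) (ρ : ℂ), 1 ≤ N → 1 ≤ R → m ≤ u * N → ‖ρ‖ = 1 → N * r₀ ≤ X →
      |∑ᶠ α ∈ {α : 𝓞 L | α - α₀ ∈ 𝔟}, sh N (X ^ 2) m (K.σ α) * fej R (dir (K.σ α) * ρ) -
        Real.pi * X ^ 2 * Real.exp (m / N) / (N * (Ideal.absNorm 𝔟 * cov L))| ≤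
        C * (X ^ 2 / (N * (Ideal.absNorm 𝔟 * cov L))) * (1 / (N : ℝ) ^ 2 + R ^ 2 * N * r₀ / X)

/-- N26: the transfer lemma -/
def S_TF : Prop :=
  ∀ (J : Type) (s : Finset J) (pos : J → ℂ) (Mx R : ℕ) (ϱ : ℕ → J → ℝ) (rad e : ℕ → ℝ) (ω : J → ℝ)
    (Ω Λ δ₀ δ₁ δ₂ r₁ : ℝ), 1 ≤ R → 0 ≤ Ω → 0 ≤ Λ → 0 ≤ δ₀ → 0 ≤ δ₁ →
    (∀ m < Mx, 0 ≤ rad m ∧ rad m ≤ r₁) →
    (∀ m < Mx, ∀ a ∈ s, ϱ m a ≠ 0 → pos a ≠ 0 ∧ |‖pos a‖ - rad m| ≤ δ₁) →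
    (∀ a, |ω a| ≤ Ω) → (∀ a a', |ω a - ω a'| ≤ Ω * (Λ * ‖pos a - pos a'‖ + δ₀)) →
    (∀ ζ : ℂ, ∃ a, ‖pos a - ζ‖ ≤ δ₂) →
    (∀ m < Mx, ∀ ρ : ℂ, ‖ρ‖ = 1 → |∑ a ∈ s, ϱ m a * fej R (dir (pos a) * ρ)| ≤ e m) →
    |∑ m ∈ range Mx, ∑ a ∈ s, ϱ m a * ω a| ≤ Ω * (∑ m ∈ range Mx, e m +
      (∑ m ∈ range Mx, ∑ a ∈ s, |ϱ m a|) * (δ₀ + Λ * (δ₁ + δ₂ + 2 * r₁ / √R)))

/-- N27: equidistribution of products of primes in one coset -/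
def S_Cos : Prop :=
  ∀ u : ℕ, 1 ≤ u → ∃ C : ℝ, 1 ≤ C ∧ ∀ (L : Type) [Field L] [NumberField L] (K : IQ L) (n N n₁ : ℕ)
    (𝔞 : Ideal (𝓞 L)) (α₀ : 𝓞 L) (y X ε Ω Λ δ₀ : ℝ) (ω : 𝓞 L → ℝ), 3 ≤ n → 1 ≤ N → 1 ≤ n₁ →
    2 ≤ y → 𝔞 ≠ ⊥ → UnitC n 𝔞 α₀ → (n₁ : 𝓞 L) ∈ Ideal.span {(n : 𝓞 L)} * 𝔞 → 0 < X →
    X ^ 2 = Ideal.absNorm 𝔞 * y ^ u → (N : ℝ) ^ 6 * (n₁ * (1 + √|(K.D : ℝ)|)) ≤ X → ε ≤ 1 →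
    EqD K.σ y N u n ε → 0 ≤ Ω → 0 ≤ Λ → 0 ≤ δ₀ →
    (∀ α, α - α₀ ∈ Ideal.span {(n : 𝓞 L)} * 𝔞 → |ω α| ≤ Ω) →
    (∀ α α', α - α₀ ∈ Ideal.span {(n : 𝓞 L)} * 𝔞 → α' - α₀ ∈ Ideal.span {(n : 𝓞 L)} * 𝔞 →
      |ω α - ω α'| ≤ Ω * (Λ * ‖K.σ α - K.σ α'‖ / X + δ₀)) →
    ∃ s : Finset (𝓞 L), (∀ α ∈ s, α - α₀ ∈ Ideal.span {(n : 𝓞 L)} * 𝔞) ∧
      (∀ α, α - α₀ ∈ Ideal.span {(n : 𝓞 L)} * 𝔞 → α ∉ s →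
        Wan y N u 𝔞 α = 0 ∧ Lam K.σ y N u n 𝔞 α = 0) ∧
      |∑ α ∈ s, (Wan y N u 𝔞 α - Lam K.σ y N u n 𝔞 α) * ω α| ≤
        C * Ω * (N ^ u * ir L n) * (ε + δ₀ + (1 + Λ) / N) ∧
      ∑ α ∈ s, Wan y N u 𝔞 α ≤ C * (N ^ u * ir L n) ∧
      ∑ α ∈ s, Lam K.σ y N u n 𝔞 α ≤ C * (N ^ u * ir L n)

/-- N25: the weight of the fibres of the evaluation map -/
def S_Om : Prop :=
  ∀ F : Fix, ∃ C : ℝ, 1 ≤ C ∧ F.Ev fun c => ∀ (t t' : ℤ × ℤ) (L L' : Type) [Field L] [NumberField L]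
    [Field L'] [NumberField L'] (K : IQ L) (K' : IQ L') (𝔟 : Ideal (𝓞 L)) (𝔟' : Ideal (𝓞 L'))
    (n₁ : ℕ) (s₀ : F.p.Co) (ζ Ω : ℝ), t ∈ Tset F.p c → t' ∈ Tset F.p c → IsCoprime t.1 t.2 →
    IsCoprime t'.1 t'.2 → K.D = F.p.D t → K'.D = F.p.D t' → c.y⁻¹ ≤ ζ →
    ζ ≤ |(t.1 : ℝ) / t.2 - (t'.1 : ℝ) / t'.2| → 1 ≤ n₁ → (n₁ : ℝ) ≤ c.y ^ 80 → (n₁ : 𝓞 L) ∈ 𝔟 →
    (n₁ : 𝓞 L') ∈ 𝔟' →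
    𝔟 ≤ Ideal.span {((2 * (F.p.r : ℤ) ^ F.p.n0 * t.1 * dl t t' * F.p.D t : ℤ) : 𝓞 L)} →
    𝔟' ≤ Ideal.span {((2 * (F.p.r : ℤ) ^ F.p.n0 * t'.1 * dl t t' * F.p.D t' : ℤ) : 𝓞 L')} →
    Ω = C * (∑ s ∈ Sset F.p c.S0 c.L with K.al F.p t s - K.al F.p t s₀ ∈ 𝔟 ∧
        K'.al F.p t' s - K'.al F.p t' s₀ ∈ 𝔟', wS F.p c.S0 c.L s) *
      (Ideal.absNorm 𝔟 * cov L) * (Ideal.absNorm 𝔟' * cov L') / (ζ * c.L * c.B ^ F.p.k) ^ 4 →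
    ∀ α₁ α₂ α₁' α₂', α₁ - K.al F.p t s₀ ∈ 𝔟 → α₂ - K.al F.p t s₀ ∈ 𝔟 →
      α₁' - K'.al F.p t' s₀ ∈ 𝔟' → α₂' - K'.al F.p t' s₀ ∈ 𝔟' →
      om K K' F.p c t t' α₁ α₁' ≤ Ω ∧
      |om K K' F.p c t t' α₁ α₁' - om K K' F.p c t t' α₂ α₂'| ≤
        Ω * (C * (‖K.σ α₁ - K.σ α₂‖ + ‖K'.σ α₁' - K'.σ α₂'‖) / (ζ * c.L * c.B ^ F.p.k) + c.y⁻¹)

/-- N28a: pointwise bounds -/
def S_Sup : Prop :=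
  ∀ F : Fix, 6 ≤ F.u → 1 ≤ F.A → ∃ C : ℝ, 1 ≤ C ∧ F.Ev fun c => ∀ (x x' : Pt) (t : ℤ × ℤ) (L : Type)
    [Field L] [NumberField L] (K : IQ L), x ∈ Xset F.p c.y c.N → x' ∈ Xset F.p c.y c.N →
    t ∈ Tset F.p c → K.D = F.p.D t → 0 ≤ kap' L F.p c F.u x x' ∧
      (∀ s, 0 ≤ Wg F.p c F.u t s x x' ∧
        kap' L F.p c F.u x x' * Wg F.p c F.u t s x x' ≤ C * Real.log c.y ^ (F.u + 3)) ∧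
      ∀ (𝔞 : Ideal (𝓞 L)) (α : 𝓞 L), α ≠ 0 → 0 ≤ Wan c.y c.N F.u 𝔞 α ∧
        kap' L F.p c F.u x x' * Wan c.y c.N F.u 𝔞 α ≤ C * Real.log c.y ^ (F.u + 3)

/-- N28b: good tuples and factorisations -/
def S_WW : Prop :=
  ∀ F : Fix, 4 ≤ F.z → F.p.r ≤ F.z → 1 ≤ F.A → F.Ev fun c => ∀ (x x' : Pt) (t t' : ℤ × ℤ) (L : Type)
    [Field L] [NumberField L] (K : IQ L) (𝔮 : Ideal (𝓞 L)), IsQ F.p c x x' t t' → dl t t' ≠ 0 →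
    K.D = F.p.D t → 𝔮 ^ 2 = Ideal.span {(F.p.r : 𝓞 L)} →
    Ideal.absNorm (K.a0 F.p 𝔮 t x x') = F.p.r ^ F.p.e * x.1 * x'.1 ∧
    (∀ s, F.p.OnS x s ∧ F.p.OnS x' s ↔ K.al F.p t s ∈ K.a0 F.p 𝔮 t x x') ∧
    |Es F.p c x x' (fun _ => 1) - 1| ≤ c.y⁻¹ ∧
    Es F.p c x x' (fun s => if UnitC (nn F.p x x' t t') (K.a0 F.p 𝔮 t x x') (K.al F.p t s)
      then 0 else 1) ≤ Pi c.z (nn F.p x x' t t') - 1 ∧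
    Es F.p c x x' (fun s => if Wg F.p c F.u t s x x' =
      (if UnitC (nn F.p x x' t t') (K.a0 F.p 𝔮 t x x') (K.al F.p t s)
        then Wan c.y c.N F.u (K.a0 F.p 𝔮 t x x') (K.al F.p t s) else 0) then 0 else 1) ≤ 1000 / c.y

/-- N28c: the size of the smooth model -/
def S_Lam1 : Prop :=
  ∀ (p : Par) (τ0 : ℝ) (u : ℕ), 6 ≤ u → ∃ C η₀ : ℝ, 1 ≤ C ∧ 0 < η₀ ∧ ∀ F : Fix, F.p = p → F.τ0 = τ0 →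
    F.u = u → F.η ≤ η₀ → 1 ≤ F.A → F.Ev fun c => ∀ (x x' : Pt) (t : ℤ × ℤ) (L : Type) [Field L]
    [NumberField L] (K : IQ L) (𝔞 : Ideal (𝓞 L)) (n : ℕ), x ∈ Xset p c.y c.N → x' ∈ Xset p c.y c.N →
    t ∈ Tset p c → K.D = p.D t → 1 ≤ n → Ideal.absNorm 𝔞 = p.r ^ p.e * x.1 * x'.1 →
    (∀ s ∈ Sset p c.S0 c.L, |kap' L p c u x x' * Lam K.σ c.y c.N u n 𝔞 (K.al p t s) -
      cc L (M0 p.r c.z * p.r) n| ≤ C * c.η * cc L (M0 p.r c.z * p.r) n ∧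
      ‖K.σ (K.al p t s)‖ ≤ C * (c.S0 * c.B ^ p.k)) ∧
    kap' L p c u x x' * (c.N ^ u * ir L n) * (n ^ 2 * cov L) ≤
      C * cc L (M0 p.r c.z * p.r) n * c.y ^ u ∧
    Ideal.absNorm 𝔞 * c.y ^ u ≤ C * (c.S0 * c.B ^ p.k) ^ 2 ∧
    (c.S0 * c.B ^ p.k) ^ 2 ≤ C * (Ideal.absNorm 𝔞 * c.y ^ u)

/-- N28: the pair correlation for one quadruple -/
def S_PairEst : Prop :=
  ∀ (p : Par) (τ0 : ℝ) (u : ℕ), 6 ≤ u → ∃ C η₀ : ℝ, 1 ≤ C ∧ 0 < η₀ ∧ ∀ F : Fix, F.p = p → F.τ0 = τ0 →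
    F.u = u → F.η ≤ η₀ → 1 ≤ F.A → 4 ≤ F.z → p.r ≤ F.z → F.Ev fun c =>
    ∀ (x x' : Pt) (t t' : ℤ × ℤ) (L L' : Type) [Field L] [NumberField L] [Field L'] [NumberField L']
      (K : IQ L) (K' : IQ L'), IsQ p c x x' t t' → K.D = p.D t → K'.D = p.D t' →
      (Real.log c.y ^ F.A)⁻¹ ≤ |(t.1 : ℝ) / t.2 - (t'.1 : ℝ) / t'.2| →
      EqD K.σ c.y c.N u (nn p x x' t t') (Real.log c.y ^ (5 * F.A))⁻¹ →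
      EqD K'.σ c.y c.N u (nn p x x' t t') (Real.log c.y ^ (5 * F.A))⁻¹ →
      |Es p c x x' fun s => (kap' L p c u x x' * Wg p c u t s x x' - 1) *
        (kap' L' p c u x x' * Wg p c u t' s x x' - 1)| ≤
        C * (Pi c.z (nn p x x' t t') - 1 + c.η * Pi c.z (nn p x x' t t'))

/-- N29: averages over the quadruples -/
def S_Pi : Prop :=
  ∀ (p : Par) (ε : ℝ), 0 < ε → ∃ z₀ : ℕ, ∀ F : Fix, F.p = p → z₀ ≤ F.z → 1 ≤ F.A →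
    ∃ C : ℝ, F.Ev fun c => Qs p c (fun _ _ _ _ => 1) ≤ 10 ∧
      Qs p c (fun x x' t t' => if dl t t' ≠ 0 then Pi c.z (nn p x x' t t') - 1 else 0) ≤ ε ∧
      ∑ t ∈ Tset p c with ¬ IsCoprime t.1 t.2, wT p c t ≤ ε ∧
      ∀ ζ : ℝ, c.y⁻¹ ≤ ζ → Qs p c (fun _ _ t t' =>
        if |(t.1 : ℝ) / t.2 - (t'.1 : ℝ) / t'.2| < ζ then 1 else 0) ≤ C * ζ

/-- N30: the design is mixing -/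
def S_Mix : Prop :=
  ∀ (p : Par) (τ0 : ℝ), ∃ u₀ : ℕ, ∀ u, u₀ ≤ u → ∀ ε : ℝ, 0 < ε → ∃ (η₀ : ℝ) (z₀ : ℕ), 0 < η₀ ∧
    ∀ F : Fix, F.p = p → F.τ0 = τ0 → F.u = u → F.η ≤ η₀ → z₀ ≤ F.z → 2 * u + 8 ≤ F.A →
    F.Ev fun c => ∃ μ, Mix (base p c.y c.N) (sideT p c) (sideS p c.y c.N c.S0 c.L) u μ ε ∧
      ∀ t s x, μ t s x ≠ 0 → p.Good t.1 s.1 fun i => (x i).1

/-- N31: two scales -/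
def S_NT : Prop :=
  ∀ p : Par, ∃ u, 6 ≤ u ∧ ∀ (Nc : ℕ) [NeZero Nc] (ε : ℝ), 0 < ε → ∃ (c : Cfg) (B' : ℝ),
    Fine p c u Nc ε ∧ Fine p { c with B := B' } (u + 1) Nc ε

end Pool.Agent.P.MP_b8021b_nt.VE
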