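import Pool.Agent.P.MP_b8021b_nt.VE.PRs41

/-! N22a: cancellation in sums of a nontrivial ray class character of a quartic field. -/

namespace Pool.Agent.P.MP_b8021b_nt.VE

open NumberField Finset
open scoped Classical

namespace Rs4

variable {K : Type} [Field K] [NumberField K]

/-- splitting into cosets; the number of cosets does not depend on the ideal -/
lemma coset_sum (K : Type) [Field K] [NumberField K] {d : ℕ} (hd : 1 ≤ d) :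
    ∃ ρ : ℕ, ρ ≤ (d ^ 2) ^ Module.finrank ℚ K ∧ ∀ (m : ℕ) (𝔠 : Ideal (𝓞 K)) (w : 𝓞 K → ℂ)
      (hw : {β | w β ≠ 0}.Finite) (c : ℂ) (e : ℝ), d.Coprime m → Cop (m * d) 𝔠 →
      (∀ β₀, ‖∑ᶠ β ∈ {β : 𝓞 K | β - β₀ ∈ 𝔠 * Ideal.span {((m * d ^ 2 : ℕ) : 𝓞 K)}}, w β - c‖ ≤ e) →
      ‖∑ β ∈ hw.toFinset with β ∈ 𝔠 ∧ (m : 𝓞 K) ∣ β - 1 ∧
        d ^ 2 ∣ Ideal.absNorm (Ideal.span {β}), w β - ρ * c‖ ≤ ρ * e := by
  let D : Ideal (𝓞 K) := Ideal.span {((d ^ 2 : ℕ) : 𝓞 K)}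
  have hD : Ideal.absNorm D = (d ^ 2) ^ Module.finrank ℚ K := by
    rw [Ideal.absNorm_span_natCast, RingOfIntegers.rank]
  have : Finite (𝓞 K ⧸ D) := (Ideal.absNorm_ne_zero_iff D).1 (by rw [hD]; positivity)
  let _ : Fintype (𝓞 K ⧸ D) := Fintype.ofFinite _
  let s : 𝓞 K ⧸ D → 𝓞 K := Function.surjInv Ideal.Quotient.mk_surjective
  have hs : ∀ r, Ideal.Quotient.mk D (s r) = r := Function.surjInv_eq _
  let ℛ : Finset (𝓞 K ⧸ D) := univ.filter fun r => d ^ 2 ∣ Ideal.absNorm (Ideal.span {s r})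
  have hq : ∀ β r, Ideal.Quotient.mk D β = r ↔ ((d ^ 2 : ℕ) : 𝓞 K) ∣ β - s r := fun β r => by
    rw [← Ideal.mem_span_singleton, ← Ideal.Quotient.eq, hs]
  refine ⟨ℛ.card, ?_, fun m 𝔠 w hw c e hdm hc he => ?_⟩
  · rw [← hD, Ideal.absNorm_apply, Submodule.cardQuot_apply, Nat.card_eq_fintype_card]
    exact card_le_univ _
  have hc2 : Cop (m * d ^ 2) 𝔠 := by
    rw [cop_iff] at hc ⊢
    exact Nat.Coprime.mul_right hc.coprime_mul_right_right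
      (hc.coprime_mul_left_right.pow_right 2)
  have hmd : IsCoprime (m : 𝓞 K) ((d ^ 2 : ℕ) : 𝓞 K) := (hdm.symm.pow_right 2).cast
  rw [← sum_fiberwise_of_maps_to (t := ℛ) (g := Ideal.Quotient.mk D)]
  swap
  · intro β hβ
    simp only [mem_filter, mem_univ, true_and, ℛ] at hβ ⊢
    exact (dvd_norm_congr ((hq β _).1 rfl)).1 hβ.2.2.2
  rw [← nsmul_eq_mul, ← nsmul_eq_mul, ← sum_const, ← sum_const, ← sum_sub_distrib]
  refine (norm_sum_le _ _).trans (sum_le_sum fun r hr => ?_)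
  obtain ⟨a, b, hab⟩ := hmd
  obtain ⟨x, hx, y, hy, hxy⟩ := Submodule.mem_sup.1 ((Ideal.eq_top_iff_one _).1 hc2.sup_eq)
  obtain ⟨t, rfl⟩ := Ideal.mem_span_singleton.1 hy
  push_cast at hab hxy
  have h1 : (m : 𝓞 K) ∣ (b * d ^ 2 + s r * a * m) * x - 1 :=
    ⟨s r * a * x - a * x - d ^ 2 * t, by linear_combination x * hab + hxy⟩
  have h2 : ((d ^ 2 : ℕ) : 𝓞 K) ∣ (b * d ^ 2 + s r * a * m) * x - s r :=
    ⟨b * x - s r * b * x - s r * m * t, by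
      push_cast; linear_combination s r * x * hab + s r * hxy⟩
  have h3 : (b * d ^ 2 + s r * a * m) * x ∈ 𝔠 := 𝔠.mul_mem_left _ hx
  generalize (b * d ^ 2 + s r * a * m) * x = β₀ at h1 h2 h3
  refine le_of_eq_of_le ?_ (he β₀)
  congr 2
  refine (finsum_mem_eq_sum_of_inter_support_eq _ ?_).symm
  ext β
  simp only [Set.mem_inter_iff, Set.mem_ofPred_eq, coe_filter, mem_filter,
    Set.Finite.mem_toFinset, Function.mem_support, and_congr_left_iff]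
  intro hβ
  rw [Ideal.mul_eq_inf_of_isCoprime hc2, Ideal.mem_inf, Ideal.mem_span_singleton, hq]
  constructor
  · rintro ⟨h4, h5⟩
    rw [Nat.cast_mul] at h5
    have h6 : ((d ^ 2 : ℕ) : 𝓞 K) ∣ β - s r := by
      have := dvd_add ((Dvd.intro_left _ rfl).trans h5) h2
      rwa [sub_add_sub_cancel] at this
    refine ⟨⟨hβ, ?_, ?_, (dvd_norm_congr h6).2 (mem_filter.1 hr).2⟩, h6⟩
    · simpa using 𝔠.add_mem h4 h3
    · have := dvd_add ((Dvd.intro _ rfl).trans h5) h1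
      rwa [sub_add_sub_cancel] at this
  · rintro ⟨⟨-, h4, h5, -⟩, h6⟩
    refine ⟨𝔠.sub_mem h4 h3, ?_⟩
    rw [Nat.cast_mul]
    refine IsCoprime.mul_dvd ⟨a, b, by push_cast; exact hab⟩ ?_ ?_
    · have := dvd_sub h5 h1
      rwa [sub_sub_sub_cancel_right] at this
    · have := dvd_sub h6 h2
      rwa [sub_sub_sub_cancel_right] at this

lemma card_ids (hLam : S_Lam) (h4 : Module.finrank ℚ K = 4) (X : ℕ) :
    ((Ids K X).filter fun A => A ≠ ⊥).card ≤ X ^ 5 := by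
  rw [card_eq_sum_card_fiberwise (t := Icc 1 X) (f := fun A => Ideal.absNorm A)]
  swap
  · intro A hA
    have h := mem_filter.1 (mem_coe.1 hA)
    exact mem_coe.2 (mem_Icc.2
      ⟨Nat.pos_of_ne_zero (mt Ideal.absNorm_eq_zero_iff.1 h.2), mem_Ids.1 h.1⟩)
  refine (sum_le_card_nsmul _ _ (X ^ 4) fun j hj => ?_).trans (by simp [pow_succ'])
  obtain ⟨h1, h2⟩ := mem_Icc.1 hj
  have h3 := (hLam K).1 j h1
  rw [h4] at h3
  refine le_trans ?_ (h3.trans (Nat.pow_le_pow_left ((Nat.card_divisors_le_self j).trans h2) 4))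
  rw [← Set.ncard_coe_finset]
  exact Set.ncard_le_ncard (fun A hA => (mem_filter.1 (mem_coe.1 hA)).2)
    (Ideal.finite_setOfPred_absNorm_eq j)

/-- small representatives of the ray classes -/
lemma reps (hRay : S_Ray) (hLam : S_Lam) (h4 : Module.finrank ℚ K = 4) {m d : ℕ} (hm : 2 ≤ m)
    {X : ℝ} (hrep : ∀ 𝔞 : Ideal (𝓞 K), 𝔞 ≠ ⊥ → Cop m 𝔞 → ∃ (𝔠 : Ideal (𝓞 K)) (β : 𝓞 K),
      𝔠 ≠ ⊥ ∧ Cop (m * d) 𝔠 ∧ (Ideal.absNorm 𝔠 : ℝ) ≤ X ∧ (m : 𝓞 K) ∣ β - 1 ∧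
        𝔞 * 𝔠 = Ideal.span {β}) :
    ∃ (G : Type) (_ : Fintype G) (𝔠 : G → Ideal (𝓞 K)), (Fintype.card G : ℝ) ≤ X ^ 5 ∧
      (∀ g, 𝔠 g ≠ ⊥ ∧ Cop (m * d) (𝔠 g) ∧ (Ideal.absNorm (𝔠 g) : ℝ) ≤ X) ∧
      (∀ (f : Ideal (𝓞 K) → ℂ) (s : Finset (Ideal (𝓞 K))), (∀ A, ¬ Cop m A → f A = 0) →
        ∑ A ∈ s, f A = ∑ g, ∑ A ∈ s with Rel m (𝔠 g) A, f A) ∧
      ∀ ψ : Ideal (𝓞 K) →* ℂ, (∀ β : 𝓞 K, (m : 𝓞 K) ∣ β - 1 → ψ (Ideal.span {β}) = 1) →
        ¬ IsTriv m ψ → ∑ g, (ψ (𝔠 g))⁻¹ = 0 := by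
  obtain ⟨G, _, _, π, hmul, hsurj, hray, -⟩ := hRay K m (by omega)
  choose I hI0 hI1 hI2 using fun g => hsurj g 1 le_rfl
  simp only [mul_one] at hI1
  choose 𝔠 β h0 h1 h2 h3 h5 using fun g => hrep (I g) (hI0 g) (hI1 g)
  have hcm : ∀ g, Cop m (𝔠 g) := fun g => by
    have := h1 g
    rw [cop_iff] at this ⊢
    exact this.coprime_mul_right_right
  have hrel : ∀ g A, Rel m (𝔠 g) A ↔ Cop m A ∧ π A = g := by
    intro g A
    constructor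
    · rintro ⟨b, hb1, hb2⟩
      have hA : Cop m A := IsCoprime.of_mul_left_left (by rw [hb2]; exact cop_span hb1)
      refine ⟨hA, ?_⟩
      rw [← hI2 g, hray _ _ (ne_bot_of hm hA) (hI0 g) hA (hI1 g)]
      refine ⟨β g, b, ne_zero_of hm (h3 g), ne_zero_of hm hb1, h3 g, hb1, ?_⟩
      rw [← h5 g, ← hb2]; ring
    · rintro ⟨hA, rfl⟩
      obtain ⟨a, b, ha0, -, ha, hb, hab⟩ :=
        (hray _ _ (ne_bot_of hm hA) (hI0 _) hA (hI1 _)).1 (hI2 (π A)).symm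
      have h6 : A * 𝔠 (π A) * Ideal.span {a} = Ideal.span {β (π A) * b} := by
        rw [← Ideal.span_singleton_mul_span_singleton, ← h5, mul_right_comm, hab]; ring
      obtain ⟨c, hc⟩ : a ∣ β (π A) * b := Ideal.mem_span_singleton.1 (Ideal.mul_le_right
        (I := A * 𝔠 (π A)) (by rw [h6]; exact Ideal.mem_span_singleton_self _))
      refine ⟨c, ?_, ?_⟩
      · have : c - 1 = (β (π A) - 1) * b + (b - 1) - c * (a - 1) := by linear_combination -hc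
        rw [this]
        exact dvd_sub (dvd_add ((h3 _).mul_right _) hb) (ha.mul_left _)
      · refine mul_right_cancel₀ (b := Ideal.span {a}) (mt Ideal.span_singleton_eq_bot.1 ha0) ?_
        rw [h6, hc, Ideal.span_singleton_mul_span_singleton, mul_comm]
  have hinj : Function.Injective 𝔠 := fun g g' h => by
    have := (hrel g' (I g)).1 ⟨β g, h3 g, h ▸ h5 g⟩
    rw [← this.2, hI2]
  refine ⟨G, inferInstance, 𝔠, ?_, fun g => ⟨h0 g, h1 g, h2 g⟩, fun f s hf => ?_, fun ψ hψ ht => ?_⟩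
  · have hX : 0 ≤ X := (Nat.cast_nonneg _).trans (h2 1)
    have h6 : Fintype.card G ≤ ((Ids K ⌊X⌋₊).filter fun A => A ≠ ⊥).card :=
      card_le_card_of_injOn 𝔠 (fun g _ => mem_coe.2
        (mem_filter.2 ⟨mem_Ids.2 (Nat.le_floor (h2 g)), h0 g⟩)) hinj.injOn
    calc (Fintype.card G : ℝ) ≤ (⌊X⌋₊ ^ 5 : ℕ) := by
          exact_mod_cast h6.trans (card_ids hLam h4 _)
      _ ≤ X ^ 5 := by push_cast; gcongr; exact Nat.floor_le hX
  · rw [← sum_fiberwise s π f]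
    refine sum_congr rfl fun g _ => (sum_subset (fun A hA => ?_) fun A hA hA' => hf A fun h => ?_).symm
    · exact mem_filter.2 ⟨(mem_filter.1 hA).1, ((hrel g A).1 (mem_filter.1 hA).2).2⟩
    · exact hA' (mem_filter.2 ⟨(mem_filter.1 hA).1, (hrel g A).2 ⟨h, (mem_filter.1 hA).2⟩⟩)
  · have h6 : ∀ g A, Cop m A → π A = g → ψ A = (ψ (𝔠 g))⁻¹ := by
      intro g A hA hg
      obtain ⟨b, hb1, hb2⟩ := (hrel g A).2 ⟨hA, hg⟩
      exact eq_inv_of_mul_eq_one_left (by rw [← map_mul, hb2, hψ b hb1])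
    simp only [IsTriv, not_forall] at ht
    obtain ⟨A, hA, hA1⟩ := ht
    have h7 : ψ A * ∑ g, (ψ (𝔠 g))⁻¹ = ∑ g, (ψ (𝔠 g))⁻¹ := by
      rw [mul_sum, ← Equiv.sum_comp (Equiv.mulLeft (π A)) fun g => (ψ (𝔠 g))⁻¹]
      refine sum_congr rfl fun g _ => ?_
      rw [← h6 g (I g) (hI1 g) (hI2 g), ← map_mul]
      refine h6 _ _ (IsCoprime.mul_left hA (hI1 g)) ?_
      rw [hmul _ _ (ne_bot_of hm hA) (hI0 g) hA (hI1 g), hI2]; rfl
    by_contra h8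
    exact hA1 (mul_right_cancel₀ h8 (h7.trans (one_mul _).symm))

end Rs4

open Rs4 in
theorem p_rs4 (hRay : S_Ray) (hMink : S_Mink) (hWin : S_Win) (hLam : S_Lam) : S_RS4 := by
  obtain ⟨CM, hM⟩ := hMink
  obtain ⟨CW, hW⟩ := hWin
  refine ⟨CM * 5 + (8 + ((2 * CM + 10) * CW + CM)),
    fun K _ _ Q F m d k₁ k₂ ψ Y hQ hm hd hY hψ ht => ?_⟩
  have hY0 : 0 < Y := by linarith
  have hz : ∀ A, ¬ Cop m A → gw ψ d Y A = 0 := fun A hA => by simp [gw, hψ.zero A hA]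
  have hm' : (2 : ℝ) ≤ m := by exact_mod_cast hm
  have hd' : (1 : ℝ) ≤ d := by exact_mod_cast hd
  have hk : (1 : ℝ) ≤ (|k₁| : ℤ) + (|k₂| : ℤ) + 1 := by
    push_cast; linarith [abs_nonneg (k₁ : ℝ), abs_nonneg (k₂ : ℝ)]
  rw [sum_eq ψ d hY0]
  by_cases hdm : d.Coprime m
  swap
  · rw [sum_eq_zero, norm_zero]
    · positivity
    intro A _
    by_cases h : d ^ 2 ∣ Ideal.absNorm A
    · exact hz A fun hA => hdm (Nat.Coprime.coprime_dvd_left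
        ((dvd_pow_self d two_ne_zero).trans h) ((cop_iff _ _).1 hA))
    · rw [gw, if_neg h]
  obtain ⟨-, hrep, hunit⟩ := hM K Q F hQ
  obtain ⟨ε, hε, hε0, hε1⟩ := hunit m (by omega)
  obtain ⟨G, _, 𝔠, hG, h𝔠, hsum, hzero⟩ := reps hRay hLam F.deg hm (d := d)
    fun 𝔞 h0 h1 => hrep m d 𝔞 (by omega) hd h0 h1
  obtain ⟨R, hR⟩ : ∃ R, R = 2 * Real.log ‖F.σ₁ (ε : 𝓞 K)‖ := ⟨_, rfl⟩
  have hR0 : 0 < R := by rw [hR]; positivity
  obtain ⟨J, hJ1, hJ⟩ := unit_sum F m ε hε R hR0 (by rw [vv_unit, hR]) fun M hM0 => by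
    obtain ⟨_, -, h⟩ := hW K Q F 0 0 M hQ hM0
    exact (h ⊤ 0 1 top_ne_bot le_rfl).1
  obtain ⟨I, hI0, hI⟩ := hW K Q F k₁ k₂ R hQ hR0
  obtain ⟨ρ, hρ, hcos⟩ := coset_sum K hd
  rw [F.deg] at hρ
  obtain ⟨kk, hkk⟩ : ∃ kk : ℝ, kk = (|k₁| : ℤ) + (|k₂| : ℤ) + 1 := ⟨_, rfl⟩
  rw [← hkk] at hk hI ⊢
  obtain ⟨P, hP⟩ : ∃ P, P = Q * m * d * kk := ⟨_, rfl⟩
  rw [← hP]
  have hP1 : Q * m * d ≤ P := by rw [hP]; exact le_mul_of_one_le_right (by positivity) hk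
  have hP2 : Q * m ≤ P := (le_mul_of_one_le_right (by positivity) hd').trans hP1
  have hP3 : (m : ℝ) * d ≤ P := by
    refine le_trans ?_ hP1
    rw [mul_assoc]; exact le_mul_of_one_le_left (by positivity) (by linarith)
  have hP4 : Q * kk ≤ P := by
    rw [hP, mul_assoc Q, mul_right_comm]
    exact le_mul_of_one_le_right (by positivity) (by nlinarith)
  have hP5 : 4 ≤ P := by nlinarith
  have hP6 : (d : ℝ) ≤ P := (le_mul_of_one_le_left (by positivity) (by linarith)).trans hP3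
  have hX : (Q * m * d) ^ CM ≤ P ^ CM := by gcongr
  have hR1 : R + 1 ≤ P ^ CM * P := by
    have h1 : (Q * m) ^ CM ≤ P ^ CM := by gcongr
    have h2 : 1 ≤ P ^ CM := one_le_pow₀ (by linarith)
    nlinarith
  obtain ⟨n, hn⟩ : ∃ n : ℕ, n = Ideal.absNorm (Ideal.span {((m * d ^ 2 : ℕ) : 𝓞 K)}) := ⟨_, rfl⟩
  have hn1 : (n : ℝ) = (m * d ^ 2) ^ 4 := by
    rw [hn, Ideal.absNorm_span_natCast, RingOfIntegers.rank, F.deg]; push_cast; rfl
  have hn2 : (n : ℝ) ≤ P ^ 8 := by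
    rw [hn1]
    calc ((m : ℝ) * d ^ 2) ^ 4 = ((m * d) * d) ^ 4 := by ring
      _ ≤ (P * P) ^ 4 := by gcongr
      _ = P ^ 8 := by ring
  have hn0 : n ≠ 0 := by
    have : (n : ℝ) ≠ 0 := by rw [hn1]; positivity
    exact_mod_cast this
  have hρ' : (ρ : ℝ) ≤ P ^ 8 := by
    calc (ρ : ℝ) ≤ ((d ^ 2) ^ 4 : ℕ) := by exact_mod_cast hρ
      _ = (d : ℝ) ^ 8 := by push_cast; ring
      _ ≤ P ^ 8 := by gcongr
  obtain ⟨e, he⟩ : ∃ e, e = (P ^ (2 * CM + 10)) ^ CW * (P ^ CM * Y ^ (3 / 4 : ℝ)) := ⟨_, rfl⟩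
  have he0 : 0 ≤ e := by rw [he]; positivity
  have key : ∀ g, ‖∑ A ∈ Ids K ⌈3 * Y⌉₊ with Rel m (𝔠 g) A, gw ψ d Y A -
      (ψ (𝔠 g))⁻¹ * (ρ * (Y * I / n) / J)‖ ≤ P ^ 8 * e := by
    intro g
    obtain ⟨h0, h1, h2⟩ := h𝔠 g
    have hN : (1 : ℝ) ≤ Ideal.absNorm (𝔠 g) := by
      exact_mod_cast Nat.pos_of_ne_zero (mt Ideal.absNorm_eq_zero_iff.1 h0)
    have hZ : 1 ≤ Y * Ideal.absNorm (𝔠 g) := one_le_mul_of_one_le_of_one_le hY hN
    have hfin := (hI ⊤ 0 _ top_ne_bot hZ).1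
    have h3 := (cop_iff _ _).1 h1
    have h4 := class_sum F hm hψ hY0 h0 h3.coprime_mul_left_right hfin hJ
    have hb : Ideal.absNorm (𝔠 g * Ideal.span {((m * d ^ 2 : ℕ) : 𝓞 K)}) =
        Ideal.absNorm (𝔠 g) * n := by rw [map_mul, hn]
    have h5 := hcos m (𝔠 g) _ hfin (Y * I / n) e hdm h1 fun β₀ => by
      have h6 := (hI (𝔠 g * Ideal.span {((m * d ^ 2 : ℕ) : 𝓞 K)}) β₀ _ (by
        rw [Ne, ← Ideal.absNorm_eq_zero_iff, hb]
        exact mul_ne_zero (mt Ideal.absNorm_eq_zero_iff.1 h0) hn0) hZ).2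
      rw [hb] at h6
      have h7 : ((Y * Ideal.absNorm (𝔠 g) : ℝ) : ℂ) * I / ((Ideal.absNorm (𝔠 g) * n : ℕ) : ℂ) =
          Y * I / n := by
        have : ((Ideal.absNorm (𝔠 g) : ℕ) : ℂ) ≠ 0 := by
          exact_mod_cast mt Ideal.absNorm_eq_zero_iff.1 h0
        push_cast; field_simp
      rw [h7] at h6
      refine h6.trans ?_
      rw [he]
      have h8 : (Ideal.absNorm (𝔠 g) : ℝ) ≤ P ^ CM := h2.trans hX
      refine mul_le_mul (pow_le_pow_left₀ (by positivity) ?_ _) ?_ (by positivity) (by positivity)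
      · push_cast
        calc Q * (Ideal.absNorm (𝔠 g) * n) * (R + 1) * kk
            = (Q * kk) * (Ideal.absNorm (𝔠 g) * n) * (R + 1) := by ring
          _ ≤ P * (P ^ CM * P ^ 8) * (P ^ CM * P) := by gcongr
          _ = P ^ (2 * CM + 10) := by ring
      · rw [Real.mul_rpow hY0.le (by positivity), mul_comm]
        gcongr
        refine le_trans ?_ h8
        simpa using Real.rpow_le_rpow_of_exponent_le hN (show (3 / 4 : ℝ) ≤ 1 by norm_num)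
    have h6 : ‖ψ (𝔠 g)‖ = 1 := hψ.norm_cop _ ((cop_iff _ _).2 h3.coprime_mul_right_right)
    have h7 : ψ (𝔠 g) ≠ 0 := norm_ne_zero_iff.1 (by rw [h6]; exact one_ne_zero)
    have h8 : (J : ℂ) ≠ 0 := by exact_mod_cast (by linarith : J ≠ 0)
    rw [h4] at h5
    generalize ∑ A ∈ Ids K ⌈3 * Y⌉₊ with Rel m (𝔠 g) A, gw ψ d Y A = T at h5 ⊢
    have h9 : T - (ψ (𝔠 g))⁻¹ * (ρ * (Y * I / n) / J) =
        (ψ (𝔠 g))⁻¹ * (J : ℂ)⁻¹ * (ψ (𝔠 g) * J * T - ρ * (Y * I / n)) := by field_simp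
    rw [h9, norm_mul, norm_mul, norm_inv, norm_inv, h6, inv_one, one_mul, Complex.norm_real,
      Real.norm_of_nonneg (by linarith)]
    calc _ ≤ 1 * (ρ * e) :=
          mul_le_mul (inv_le_one_of_one_le₀ hJ1) h5 (norm_nonneg _) zero_le_one
      _ ≤ P ^ 8 * e := by rw [one_mul]; gcongr
  have main : ∑ g, (ψ (𝔠 g))⁻¹ * (ρ * (Y * I / n) / J) = 0 := by
    rw [← sum_mul]
    by_cases hk0 : k₁ ≠ 0 ∨ k₂ ≠ 0
    · simp [hI0 hk0]
    · simp only [not_or, not_not] at hk0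
      rw [hzero ψ (fun β hβ => by simp [hψ.prin β hβ, hk0.1, hk0.2]) ht, zero_mul]
  rw [hsum _ _ hz, ← sub_zero (∑ g, _), ← main, ← sum_sub_distrib]
  refine (norm_sum_le _ _).trans ((sum_le_card_nsmul _ _ _ fun g _ => key g).trans ?_)
  rw [card_univ, nsmul_eq_mul]
  calc (Fintype.card G : ℝ) * (P ^ 8 * e) ≤ (P ^ CM) ^ 5 * (P ^ 8 * e) := by
        gcongr
        exact hG.trans (by gcongr)
    _ = _ := by rw [he, ← pow_mul, ← pow_mul]; ring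

end Pool.Agent.P.MP_b8021b_nt.VE
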