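import Pool.Agent.P.MP_b8021b_nt.VE.StN

/-! N11a: ideals of given norm. -/

namespace Pool.Agent.P.MP_b8021b_nt.VE

open NumberField Finset UniqueFactorizationMonoid
open scoped Classical

namespace LamP

variable {L : Type} [Field L] [NumberField L]

/-- the ideals of norm `m` -/
def nI (L : Type) [Field L] [NumberField L] (m : ℕ) : Set (Ideal (𝓞 L)) :=
  {I | Ideal.absNorm I = m}

theorem fin (m : ℕ) : (nI L m).Finite := Ideal.finite_setOfPred_absNorm_eq m

theorem mem_of {m : ℕ} {I : Ideal (𝓞 L)} (h : I ∈ nI L m) : (m : 𝓞 L) ∈ I := by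
  have := Ideal.absNorm_mem I
  rwa [show Ideal.absNorm I = m from h] at this

omit [NumberField L] in
theorem bez {m m' : ℕ} (h : m.Coprime m') : ∃ a b : 𝓞 L, a * m + b * m' = 1 := by
  have : IsCoprime (m : 𝓞 L) (m' : 𝓞 L) := Nat.Coprime.cast h
  exact this

theorem recover {m m' : ℕ} (h : m.Coprime m') {I J : Ideal (𝓞 L)} (hI : I ∈ nI L m)
    (hJ : J ∈ nI L m') : I * J ⊔ Ideal.span {(m : 𝓞 L)} = I := by
  apply le_antisymm
  · exact sup_le Ideal.mul_le_left ((Ideal.span_singleton_le_iff_mem _).mpr (mem_of hI))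
  · intro x hx
    obtain ⟨a, b, hab⟩ := bez (L := L) h
    have : x = x * (b * m') + (x * a) * m := by linear_combination (-x) * hab
    rw [this]
    refine Ideal.add_mem _ (Ideal.mem_sup_left (Ideal.mul_mem_mul hx
      (Ideal.mul_mem_left _ _ (mem_of hJ)))) (Ideal.mem_sup_right ?_)
    exact Ideal.mul_mem_left _ _ (Ideal.mem_span_singleton_self _)

theorem split {m m' : ℕ} (_hm : 1 ≤ m) (_hm' : 1 ≤ m') (h : m.Coprime m') {K : Ideal (𝓞 L)}
    (hK : K ∈ nI L (m * m')) : ∃ I ∈ nI L m, ∃ J ∈ nI L m', I * J = K := by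
  have e : (K ⊔ Ideal.span {(m : 𝓞 L)}) * (K ⊔ Ideal.span {(m' : 𝓞 L)}) = K := by
    apply le_antisymm
    · rw [Ideal.sup_mul, Ideal.mul_sup, Ideal.mul_sup]
      refine sup_le (sup_le Ideal.mul_le_left Ideal.mul_le_left) (sup_le Ideal.mul_le_right ?_)
      rw [Ideal.span_singleton_mul_span_singleton, Ideal.span_singleton_le_iff_mem]
      have := mem_of hK
      rwa [Nat.cast_mul] at this
    · intro x hx
      obtain ⟨a, b, hab⟩ := bez (L := L) h
      have : x = x * (b * m') + (a * m) * x := by linear_combination (-x) * hab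
      rw [this]
      refine Ideal.add_mem _ (Ideal.mul_mem_mul (Ideal.mem_sup_left hx) (Ideal.mem_sup_right ?_))
        (Ideal.mul_mem_mul (Ideal.mem_sup_right ?_) (Ideal.mem_sup_left hx)) <;>
      exact Ideal.mul_mem_left _ _ (Ideal.mem_span_singleton_self _)
  have hN : Ideal.absNorm (K ⊔ Ideal.span {(m : 𝓞 L)}) *
      Ideal.absNorm (K ⊔ Ideal.span {(m' : 𝓞 L)}) = m * m' := by
    rw [← map_mul, e]; exact hK
  have d1 : Ideal.absNorm (K ⊔ Ideal.span {(m : 𝓞 L)}) ∣ m ^ Module.finrank ℤ (𝓞 L) := by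
    rw [← Ideal.absNorm_span_natCast]; exact Ideal.absNorm_dvd_absNorm_of_le le_sup_right
  have d2 : Ideal.absNorm (K ⊔ Ideal.span {(m' : 𝓞 L)}) ∣ m' ^ Module.finrank ℤ (𝓞 L) := by
    rw [← Ideal.absNorm_span_natCast]; exact Ideal.absNorm_dvd_absNorm_of_le le_sup_right
  set a := Ideal.absNorm (K ⊔ Ideal.span {(m : 𝓞 L)})
  set b := Ideal.absNorm (K ⊔ Ideal.span {(m' : 𝓞 L)})
  have c1 : a.Coprime m' := Nat.Coprime.coprime_dvd_left d1 (Nat.Coprime.pow_left _ h)
  have c2 : b.Coprime m := Nat.Coprime.coprime_dvd_left d2 (Nat.Coprime.pow_left _ h.symm)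
  have a1 : a ∣ m := c1.dvd_of_dvd_mul_right ⟨b, hN.symm⟩
  have b1 : b ∣ m' := c2.dvd_of_dvd_mul_left ⟨a, by rw [← hN, mul_comm]⟩
  have a2 : m ∣ a := c2.symm.dvd_of_dvd_mul_right ⟨m', hN⟩
  have b2 : m' ∣ b := c1.symm.dvd_of_dvd_mul_left ⟨m, by rw [hN, mul_comm]⟩
  exact ⟨_, Nat.dvd_antisymm a1 a2, _, Nat.dvd_antisymm b1 b2, e⟩

theorem bij {m m' : ℕ} (hm : 1 ≤ m) (hm' : 1 ≤ m') (h : m.Coprime m') :
    Set.BijOn (fun z : Ideal (𝓞 L) × Ideal (𝓞 L) => z.1 * z.2) (nI L m ×ˢ nI L m')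
      (nI L (m * m')) := by
  refine ⟨?_, ?_, ?_⟩
  · rintro ⟨I, J⟩ ⟨hI, hJ⟩
    change Ideal.absNorm (I * J) = m * m'
    rw [map_mul, show Ideal.absNorm I = m from hI, show Ideal.absNorm J = m' from hJ]
  · rintro ⟨I, J⟩ ⟨hI, hJ⟩ ⟨I', J'⟩ ⟨hI', hJ'⟩ e
    have e' : I * J = I' * J' := e
    replace hI : I ∈ nI L m := hI
    replace hJ : J ∈ nI L m' := hJ
    replace hI' : I' ∈ nI L m := hI'
    replace hJ' : J' ∈ nI L m' := hJ'
    refine Prod.ext ?_ ?_
    · change I = I'
      rw [← recover h hI hJ, e', recover h hI' hJ']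
    · change J = J'
      rw [← recover h.symm hJ hI, mul_comm J, e', mul_comm I', recover h.symm hJ' hI']
  · intro K hK
    obtain ⟨I, hI, J, hJ, e⟩ := split hm hm' h hK
    exact ⟨(I, J), ⟨hI, hJ⟩, e⟩

theorem card_nf {p k : ℕ} (hp : p.Prime) {I : Ideal (𝓞 L)} (hI : I ∈ nI L (p ^ k)) :
    Multiset.card (normalizedFactors I) ≤ k := by
  have hN : Ideal.absNorm I = p ^ k := hI
  have h0 : I ≠ ⊥ := by
    rw [Ne, ← Ideal.absNorm_eq_zero_iff, hN]; exact (pow_pos hp.pos k).ne'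
  have h1 : ∀ P ∈ normalizedFactors I, p ∣ Ideal.absNorm P := by
    intro P hP
    have hd : Ideal.absNorm P ∣ p ^ k := hN ▸ map_dvd _ (dvd_of_mem_normalizedFactors hP)
    obtain ⟨f, -, hf⟩ := (Nat.dvd_prime_pow hp).mp hd
    rcases f with _ | f
    · rw [pow_zero, Ideal.absNorm_eq_one_iff] at hf
      exact absurd (Ideal.isUnit_iff.mpr hf) (prime_of_normalized_factor P hP).not_isUnit
    · rw [hf]; exact dvd_pow_self p (Nat.succ_ne_zero f)
  have h2 : p ^ Multiset.card (normalizedFactors I) ∣ p ^ k := by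
    rw [← hN]
    conv_rhs => rw [← Ideal.prod_normalizedFactors_eq_self h0, map_multiset_prod]
    rw [← Multiset.prod_replicate, ← Multiset.map_const']
    exact Multiset.prod_dvd_prod_of_dvd _ _ h1
  exact (Nat.pow_dvd_pow_iff_le_right hp.one_lt).mp h2

theorem pp {p k : ℕ} (hp : p.Prime) :
    (nI L (p ^ k)).ncard ≤ (k + 1) ^ Module.finrank ℚ L := by
  set S := (normalizedFactors (Ideal.span {(p : 𝓞 L)})).toFinset with hS
  have hpI : Ideal.span {(p : 𝓞 L)} ∈ nI L (p ^ Module.finrank ℤ (𝓞 L)) :=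
    Ideal.absNorm_span_natCast p
  have hSc : S.card ≤ Module.finrank ℚ L := by
    rw [← RingOfIntegers.rank L]
    exact (Multiset.toFinset_card_le _).trans (card_nf hp hpI)
  have hp0 : Ideal.span {(p : 𝓞 L)} ≠ ⊥ := by
    rw [Ne, Ideal.span_singleton_eq_bot]; exact_mod_cast hp.ne_zero
  have h0 : ∀ I ∈ nI L (p ^ k), I ≠ ⊥ := by
    intro I hI
    rw [Ne, ← Ideal.absNorm_eq_zero_iff, show Ideal.absNorm I = p ^ k from hI]
    exact (pow_pos hp.pos k).ne'
  have hin : ∀ I ∈ nI L (p ^ k), ∀ P ∈ normalizedFactors I, P ∈ S := by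
    intro I hI P hP
    have hpr := prime_of_normalized_factor P hP
    have hPp : P.IsPrime := Ideal.isPrime_of_prime hpr
    have hle : I ≤ P := Ideal.dvd_iff_le.mp (dvd_of_mem_normalizedFactors hP)
    have hm : (p : 𝓞 L) ∈ P := by
      have := hle (mem_of hI)
      rw [Nat.cast_pow] at this
      exact hPp.mem_of_pow_mem k this
    rw [hS, Multiset.mem_toFinset, Ideal.mem_normalizedFactors_iff hp0]
    exact ⟨hPp, (Ideal.span_singleton_le_iff_mem _).mpr hm⟩
  let f : Ideal (𝓞 L) → (S → ℕ) := fun I P => (normalizedFactors I).count P.1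
  have hf : (nI L (p ^ k)).ncard ≤
      ((Fintype.piFinset fun _ : S => range (k + 1) : Finset (S → ℕ)) : Set (S → ℕ)).ncard := by
    refine Set.ncard_le_ncard_of_injOn f ?_ ?_ (Finset.finite_toSet _)
    · intro I hI
      simp only [mem_coe, Fintype.mem_piFinset, mem_range]
      intro P
      exact Nat.lt_succ_of_le ((Multiset.count_le_card _ _).trans (card_nf hp hI))
    · intro I hI J hJ e
      rw [← Ideal.prod_normalizedFactors_eq_self (h0 I hI),
        ← Ideal.prod_normalizedFactors_eq_self (h0 J hJ)]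
      congr 1
      ext P
      by_cases hP : P ∈ S
      · exact congrFun e ⟨P, hP⟩
      · rw [Multiset.count_eq_zero.mpr fun h => hP (hin I hI P h),
          Multiset.count_eq_zero.mpr fun h => hP (hin J hJ P h)]
  rw [Set.ncard_coe_finset, Fintype.card_piFinset] at hf
  simp only [card_range, prod_const, card_univ, Fintype.card_coe] at hf
  exact hf.trans (Nat.pow_le_pow_right (Nat.succ_pos k) hSc)

theorem cnt_le (m : ℕ) : 1 ≤ m → (nI L m).ncard ≤ m.divisors.card ^ Module.finrank ℚ L := by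
  induction m using Nat.recOnPosPrimePosCoprime with
  | prime_pow p k hp _ =>
    intro _
    rw [Nat.divisors_prime_pow hp, card_map, card_range]
    exact pp hp
  | zero => intro h; omega
  | one =>
    intro _
    have := pp (L := L) (k := 0) Nat.prime_two
    simpa using this
  | coprime a b ha hb hab iha ihb =>
    intro _
    rw [← (bij (L := L) ha.le hb.le hab).ncard_eq, Set.ncard_prod, hab.card_divisors_mul, mul_pow]
    exact Nat.mul_le_mul (iha ha.le) (ihb hb.le)

theorem lam_eq (χ : Ideal (𝓞 L) → ℂ) (m : ℕ) : lam χ m = ∑ I ∈ (fin (L := L) m).toFinset, χ I :=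
  finsum_mem_eq_finite_toFinset_sum χ (fin m)

end LamP

theorem p_lamP : S_Lam := by
  intro L _ _
  refine ⟨fun m hm => LamP.cnt_le m hm, fun χ m hm hχ => ?_, fun χ m m' hm hm' h => ?_⟩
  · rw [LamP.lam_eq]
    refine (norm_sum_le _ _).trans ((sum_le_sum fun I _ => hχ I).trans ?_)
    rw [sum_const, nsmul_eq_mul, mul_one, ← Set.ncard_eq_toFinset_card _ (LamP.fin m)]
    exact_mod_cast LamP.cnt_le m hm
  · rw [LamP.lam_eq, LamP.lam_eq, LamP.lam_eq, sum_mul_sum, ← sum_product']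
    symm
    have hb := LamP.bij (L := L) hm hm' h
    refine sum_bij (fun z _ => z.1 * z.2) ?_ ?_ ?_ ?_
    · intro z hz
      simp only [mem_product, Set.Finite.mem_toFinset] at hz ⊢
      exact hb.1 hz
    · intro z hz z' hz' e
      simp only [mem_product, Set.Finite.mem_toFinset] at hz hz'
      exact hb.2.1 hz hz' e
    · intro K hK
      simp only [Set.Finite.mem_toFinset] at hK
      obtain ⟨z, hz, e⟩ := hb.2.2 hK
      exact ⟨z, by simpa only [mem_product, Set.Finite.mem_toFinset, Set.mem_prod] using hz, e⟩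
    · intro z _
      exact (map_mul χ _ _).symm

end Pool.Agent.P.MP_b8021b_nt.VE
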