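import Pool.Agent.P.MP_b8021b_nt.VE.StN

/-! N8: lattice sums and integrals. -/

namespace Pool.Agent.P.MP_b8021b_nt.VE

open MeasureTheory Finset
open scoped Classical ENNReal Pointwise

namespace LatP

variable {E : Type} [NormedAddCommGroup E] [NormedSpace ℝ E] [FiniteDimensional ℝ E]
  {J : Type} [Fintype J]

omit [FiniteDimensional ℝ E] in
theorem fd_repr (v : Module.Basis J ℝ E) {t : E} (ht : t ∈ ZSpan.fundamentalDomain v) :
    ∃ c : J → ℝ, (∀ j, |c j| ≤ 1) ∧ t = ∑ j, c j • v j := by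
  refine ⟨fun j => v.repr t j, fun j => ?_, (v.sum_repr t).symm⟩
  have h : v.repr t j ∈ Set.Ico (0 : ℝ) 1 := ht j
  rw [abs_of_nonneg h.1]
  exact h.2.le

theorem fin_inter (Λ : Submodule ℤ E) [DiscreteTopology Λ] {s : Set E}
    (hs : Bornology.IsBounded s) : {x : Λ | (x : E) ∈ s}.Finite := by
  have h1 : DiscreteTopology Λ.toAddSubgroup := (inferInstance : DiscreteTopology Λ)
  have h2 : IsClosed (Λ : Set E) := AddSubgroup.isClosed_of_discrete (H := Λ.toAddSubgroup)
  have h3 : (s ∩ (Λ : Set E)).Finite :=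
    Metric.finite_isBounded_inter_isClosed (isDiscrete_iff_discreteTopology.mpr inferInstance) hs h2
  refine Set.Finite.subset (h3.preimage (f := ((↑) : Λ → E)) Subtype.val_injective.injOn) ?_
  intro x hx
  exact ⟨hx, x.2⟩

/-- coset decomposition -/
noncomputable def eqv (v : Module.Basis J ℝ E) (Λ : Submodule ℤ E) (hv : ∀ j, v j ∈ Λ) :
    {x : Λ // (x : E) ∈ ZSpan.fundamentalDomain v} × Submodule.span ℤ (Set.range v) ≃ Λ :=
  have hle : Submodule.span ℤ (Set.range v) ≤ Λ :=
    Submodule.span_le.mpr (by rintro _ ⟨j, rfl⟩; exact hv j)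
  { toFun := fun p => p.1.1 + ⟨p.2.1, hle p.2.2⟩
    invFun := fun x => (⟨⟨ZSpan.fract v x, Λ.sub_mem x.2 (hle (ZSpan.floor v (x : E)).2)⟩,
      ZSpan.fract_mem_fundamentalDomain v x⟩, ZSpan.floor v (x : E))
    left_inv := by
      rintro ⟨⟨r, hr⟩, x⟩
      have h1 : ZSpan.fract v ((r : E) + x) = r := by
        rw [ZSpan.fract_add_ZSpan v _ x.2, ZSpan.fract_eq_self.mpr hr]
      have h2 : (ZSpan.floor v ((r : E) + x) : E) = x := by
        rw [ZSpan.fract_apply] at h1
        rw [sub_eq_iff_eq_add] at h1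
        exact (add_left_cancel h1).symm
      ext
      · exact h1
      · exact h2
    right_inv := by
      intro x
      ext
      exact sub_add_cancel (x : E) _ }

omit [FiniteDimensional ℝ E] in
theorem eqv_coe (v : Module.Basis J ℝ E) (Λ : Submodule ℤ E) (hv : ∀ j, v j ∈ Λ)
    (p : {x : Λ // (x : E) ∈ ZSpan.fundamentalDomain v} × Submodule.span ℤ (Set.range v)) :
    (eqv v Λ hv p : E) = p.1.1 + p.2 := rfl

variable [MeasurableSpace E] [BorelSpace E] (μ : Measure E) [μ.IsAddHaarMeasure]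

theorem unfold_l (v : Module.Basis J ℝ E) (Λ : Submodule ℤ E) (hv : ∀ j, v j ∈ Λ)
    (φ : E → ℝ≥0∞) :
    ∑' x : Λ, ∫⁻ t in ZSpan.fundamentalDomain v, φ (x + t) ∂μ =
      ∑' _r : {x : Λ // (x : E) ∈ ZSpan.fundamentalDomain v}, ∫⁻ y, φ y ∂μ := by
  have hM : MeasurableVAdd (Submodule.span ℤ (Set.range v)) E :=
    (inferInstance : MeasurableVAdd (Submodule.span ℤ (Set.range v)).toAddSubgroup E)
  have hI : VAddInvariantMeasure (Submodule.span ℤ (Set.range v)) E μ :=
    (inferInstance : VAddInvariantMeasure (Submodule.span ℤ (Set.range v)).toAddSubgroup E μ)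
  rw [← (eqv v Λ hv).tsum_eq, ENNReal.tsum_prod']
  refine tsum_congr fun r => ?_
  rw [← lintegral_add_left_eq_self φ (r.1 : E),
    (ZSpan.isAddFundamentalDomain v μ).lintegral_eq_tsum'']
  refine tsum_congr fun x => ?_
  refine lintegral_congr fun t => ?_
  rw [eqv_coe, add_assoc]
  rfl

theorem unfold_i (v : Module.Basis J ℝ E) (Λ : Submodule ℤ E) (hv : ∀ j, v j ∈ Λ)
    (φ : E → ℂ) (hφ : Integrable φ μ)
    (hs : Summable fun x : Λ => ∫ t in ZSpan.fundamentalDomain v, φ (x + t) ∂μ) :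
    ∑' x : Λ, ∫ t in ZSpan.fundamentalDomain v, φ (x + t) ∂μ =
      ∑' _r : {x : Λ // (x : E) ∈ ZSpan.fundamentalDomain v}, ∫ y, φ y ∂μ := by
  have hM : MeasurableVAdd (Submodule.span ℤ (Set.range v)) E :=
    (inferInstance : MeasurableVAdd (Submodule.span ℤ (Set.range v)).toAddSubgroup E)
  have hI : VAddInvariantMeasure (Submodule.span ℤ (Set.range v)) E μ :=
    (inferInstance : VAddInvariantMeasure (Submodule.span ℤ (Set.range v)).toAddSubgroup E μ)
  rw [← (eqv v Λ hv).tsum_eq]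
  refine ((eqv v Λ hv).summable_iff.mpr hs).tsum_prod.trans (tsum_congr fun r => ?_)
  rw [← integral_add_left_eq_self φ (r.1 : E),
    (ZSpan.isAddFundamentalDomain v μ).integral_eq_tsum'' _ (hφ.comp_add_left _)]
  refine tsum_congr fun x => ?_
  refine integral_congr_ae (Filter.Eventually.of_forall fun t => ?_)
  simp only [Function.comp]
  rw [eqv_coe, add_assoc]
  rfl

theorem index_eq (v : Module.Basis J ℝ E) (Λ : Submodule ℤ E) [DiscreteTopology Λ]
    [IsZLattice ℝ Λ] (hv : ∀ j, v j ∈ Λ) :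
    (Nat.card {x : Λ // (x : E) ∈ ZSpan.fundamentalDomain v} : ℝ) * ZLattice.covolume Λ μ =
      μ.real (ZSpan.fundamentalDomain v) := by
  have hfin : Finite {x : Λ // (x : E) ∈ ZSpan.fundamentalDomain v} :=
    (fin_inter Λ (ZSpan.fundamentalDomain_isBounded v)).to_subtype
  have := Fintype.ofFinite {x : Λ // (x : E) ∈ ZSpan.fundamentalDomain v}
  have hM : MeasurableVAdd Λ E := (inferInstance : MeasurableVAdd Λ.toAddSubgroup E)
  have hI : VAddInvariantMeasure Λ E μ :=
    (inferInstance : VAddInvariantMeasure Λ.toAddSubgroup E μ)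
  set b := Module.Free.chooseBasis ℤ Λ
  have hF := ZLattice.isAddFundamentalDomain b μ
  set F := ZSpan.fundamentalDomain (b.ofZLatticeBasis ℝ Λ) with hFd
  have hFm : MeasurableSet F := ZSpan.fundamentalDomain_measurableSet _
  have h1 := unfold_l μ v Λ hv (F.indicator 1)
  rw [lintegral_indicator_one hFm, tsum_fintype (fun _ => μ F), sum_const, card_univ,
    nsmul_eq_mul] at h1
  have h2 : ∑' x : Λ, ∫⁻ t in ZSpan.fundamentalDomain v, F.indicator 1 (x + t) ∂μ =
      μ (ZSpan.fundamentalDomain v) := by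
    rw [hF.measure_eq_tsum' (ZSpan.fundamentalDomain v), ← (Equiv.neg Λ).tsum_eq]
    refine tsum_congr fun x => ?_
    have h3 : (fun t => F.indicator (1 : E → ℝ≥0∞) (((Equiv.neg Λ x : Λ) : E) + t)) =
        (x +ᵥ F).indicator 1 := by
      funext t
      have h4 : ((Equiv.neg Λ x : Λ) : E) + t ∈ F ↔ t ∈ x +ᵥ F := by
        rw [Set.mem_vadd_set_iff_neg_vadd_mem]
        rfl
      by_cases h : t ∈ x +ᵥ F
      · rw [Set.indicator_of_mem h, Set.indicator_of_mem (h4.mpr h)]
        rfl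
      · rw [Set.indicator_of_notMem h, Set.indicator_of_notMem (fun h' => h (h4.mp h'))]
    rw [h3, lintegral_indicator_one (hFm.const_vadd x), Measure.restrict_apply (hFm.const_vadd x),
      Set.inter_comm]
  rw [ZLattice.covolume_eq_measure_fundamentalDomain Λ μ hF, measureReal_def, measureReal_def,
    ← h2, h1, ENNReal.toReal_mul, Nat.card_eq_fintype_card, ENNReal.toReal_natCast]

end LatP

open LatP in
theorem p_lat : S_Lat := by
  intro E _ _ _ _ _ μ _ Λ _ _ J _ v f κ S a hv hf hc hS h1 h2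
  set F0 := ZSpan.fundamentalDomain v with hF0
  have hb : Bornology.IsBounded F0 := ZSpan.fundamentalDomain_isBounded v
  have hF0m : MeasurableSet F0 := ZSpan.fundamentalDomain_measurableSet v
  have hF0f : μ F0 ≠ ⊤ := hb.measure_lt_top.ne
  have hV : 0 < μ.real F0 :=
    ENNReal.toReal_pos (ZSpan.measure_fundamentalDomain_ne_zero v) hF0f
  have hκ : 0 ≤ κ := le_trans (norm_nonneg _) (h1 0 0 (by simp))
  have hcov := ZLattice.covolume_pos Λ μ
  have hfin : Finite {x : Λ // (x : E) ∈ F0} := (fin_inter Λ hb).to_subtype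
  have := Fintype.ofFinite {x : Λ // (x : E) ∈ F0}
  have hidx := index_eq μ v Λ hv
  rw [Nat.card_eq_fintype_card] at hidx
  set m := Fintype.card {x : Λ // (x : E) ∈ F0} with hm
  have h0 : (0 : E) ∈ F0 := by
    intro i
    simp
  have hT : {x : Λ | (x : E) ∈ tsupport f - ({a} + F0)}.Finite :=
    fin_inter Λ (hc.isCompact.isBounded.sub (Bornology.isBounded_singleton.add hb))
  set T := hT.toFinset with hTd
  have hout : ∀ x : Λ, x ∉ T → ∀ t ∈ F0, f (a + (x + t)) = 0 := by
    intro x hx t ht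
    by_contra hne
    apply hx
    rw [hTd, Set.Finite.mem_toFinset]
    refine ⟨a + (x + t), subset_tsupport _ hne, a + t, ⟨a, rfl, t, ht, rfl⟩, ?_⟩
    simp only
    abel
  have hint : Integrable f μ := hf.integrable_of_hasCompactSupport hc
  have hint' : Integrable (fun y => f (a + y)) μ := hint.comp_add_left a
  have hz : ∀ x : Λ, x ∉ T → ∫ t in F0, f (a + (x + t)) ∂μ = 0 := fun x hx =>
    setIntegral_eq_zero_of_forall_eq_zero (hout x hx)
  have hI : ∑ x ∈ T, ∫ t in F0, f (a + (x + t)) ∂μ = m * ∫ y, f y ∂μ := by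
    have h3 := unfold_i μ v Λ hv (fun y => f (a + y)) hint' (summable_of_ne_finset_zero hz)
    rw [tsum_eq_sum hz, tsum_fintype, sum_const, card_univ, nsmul_eq_mul,
      integral_add_left_eq_self f a] at h3
    exact h3
  have hsum : ∑ᶠ x ∈ (Λ : Set E), f (a + x) = ∑ x ∈ T, f (a + x) := by
    have h3 : ∑ᶠ x ∈ (Λ : Set E), f (a + x) = ∑ᶠ x : Λ, f (a + x) :=
      (finsum_set_coe_eq_finsum_mem (f := fun x => f (a + x)) (Λ : Set E)).symm
    rw [h3]
    refine finsum_eq_sum_of_support_subset _ fun x hx => ?_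
    by_contra hn
    have := hout x hn 0 h0
    rw [add_zero] at this
    exact hx this
  set S' := toMeasurable μ S with hS'
  have hS'm : MeasurableSet S' := measurableSet_toMeasurable μ S
  set A : Λ → Set E := fun x => (fun t => a + (x + t)) ⁻¹' S' with hA
  have hAm : ∀ x, MeasurableSet (A x) := fun x =>
    hS'm.preimage (by fun_prop)
  have hloc : ∀ x : Λ, ‖(μ.real F0 : ℂ) * f (a + x) - ∫ t in F0, f (a + (x + t)) ∂μ‖ ≤
      κ * μ.real (A x ∩ F0) := by
    intro x
    have hi : IntegrableOn (fun t => f (a + (x + t))) F0 μ :=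
      (hint'.comp_add_left (x : E)).integrableOn
    have hc' : IntegrableOn (fun _ : E => f (a + x)) F0 μ := integrableOn_const hF0f
    have h3 : (μ.real F0 : ℂ) * f (a + x) - ∫ t in F0, f (a + (x + t)) ∂μ =
        ∫ t in F0, (f (a + x) - f (a + (x + t))) ∂μ := by
      rw [integral_sub hc' hi, setIntegral_const, Complex.real_smul]
    have h4 : ∫ t in F0, (A x).indicator (fun _ => κ) t ∂μ = κ * μ.real (A x ∩ F0) := by
      rw [integral_indicator_const κ (hAm x), measureReal_restrict_apply (hAm x), smul_eq_mul,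
        mul_comm]
    rw [h3, ← h4]
    refine norm_integral_le_of_norm_le ((integrableOn_const hF0f).indicator (hAm x)) ?_
    refine (ae_restrict_iff' hF0m).mpr (Filter.Eventually.of_forall fun t ht => ?_)
    obtain ⟨c, hc1, rfl⟩ := fd_repr v ht
    by_cases hA' : (∑ j, c j • v j) ∈ A x
    · rw [Set.indicator_of_mem hA', norm_sub_rev, ← add_assoc]
      exact h1 _ c hc1
    · rw [Set.indicator_of_notMem hA']
      have h5 : f (a + x) = 0 := by
        by_contra hne
        apply hA'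
        have := h2 _ c hc1 hne
        rw [add_assoc] at this
        exact subset_toMeasurable μ S this
      have h6 : f (a + (x + ∑ j, c j • v j)) = 0 := by
        by_contra hne
        apply hA'
        have := h2 _ 0 (by simp) hne
        simp only [Pi.zero_apply, zero_smul, sum_const_zero, add_zero] at this
        exact subset_toMeasurable μ S this
      rw [h5, h6, sub_zero, norm_zero]
  have hmeas : ∑ x ∈ T, μ.real (A x ∩ F0) ≤ m * μ.real S := by
    have h3 := unfold_l μ v Λ hv (fun y => S'.indicator 1 (a + y))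
    rw [lintegral_add_left_eq_self (S'.indicator 1) a, lintegral_indicator_one hS'm,
      tsum_fintype (fun _ => μ S'), sum_const, card_univ, nsmul_eq_mul,
      show μ S' = μ S from measure_toMeasurable S] at h3
    have h4 : ∀ x : Λ, ∫⁻ t in F0, S'.indicator (1 : E → ℝ≥0∞) (a + (x + t)) ∂μ =
        μ (A x ∩ F0) := by
      intro x
      rw [← Measure.restrict_apply (hAm x), ← lintegral_indicator_one (hAm x)]
      rfl
    have h5 : ∑ x ∈ T, μ (A x ∩ F0) ≤ m * μ S := by
      rw [← h3, tsum_congr h4]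
      exact ENNReal.sum_le_tsum T
    have h6 := ENNReal.toReal_mono (ENNReal.mul_ne_top (ENNReal.natCast_ne_top m) hS) h5
    rw [ENNReal.toReal_sum fun x _ =>
      ne_top_of_le_ne_top hF0f (measure_mono Set.inter_subset_right), ENNReal.toReal_mul,
      ENNReal.toReal_natCast] at h6
    exact h6
  have hmain : ‖(μ.real F0 : ℂ) * ∑ x ∈ T, f (a + x) - m * ∫ y, f y ∂μ‖ ≤ κ * (m * μ.real S) := by
    rw [← hI, mul_sum, ← sum_sub_distrib]
    refine (norm_sum_le _ _).trans ((sum_le_sum fun x _ => hloc x).trans ?_)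
    rw [← mul_sum]
    exact mul_le_mul_of_nonneg_left hmeas hκ
  have hm0 : (0 : ℝ) < m := by
    by_contra hneg
    have : (m : ℝ) = 0 := le_antisymm (not_lt.mp hneg) (Nat.cast_nonneg m)
    rw [this, zero_mul] at hidx
    exact hV.ne hidx
  have hcC : ((ZLattice.covolume Λ μ : ℝ) : ℂ) ≠ 0 := Complex.ofReal_ne_zero.mpr hcov.ne'
  have h7 : (μ.real F0 : ℂ) * ∑ x ∈ T, f (a + x) - m * ∫ y, f y ∂μ =
      ((m * ZLattice.covolume Λ μ : ℝ) : ℂ) *
        (∑ x ∈ T, f (a + x) - (∫ y, f y ∂μ) / (ZLattice.covolume Λ μ : ℝ)) := by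
    rw [← hidx]
    push_cast
    field_simp
  rw [h7, norm_mul, Complex.norm_real, Real.norm_of_nonneg (mul_pos hm0 hcov).le] at hmain
  rw [hsum, le_div_iff₀ hcov]
  have h8 : (m : ℝ) * (‖∑ x ∈ T, f (a + x) - (∫ y, f y ∂μ) / (ZLattice.covolume Λ μ : ℝ)‖ *
      ZLattice.covolume Λ μ) ≤ m * (κ * μ.real S) := by
    calc _ = (m * ZLattice.covolume Λ μ) *
          ‖∑ x ∈ T, f (a + x) - (∫ y, f y ∂μ) / (ZLattice.covolume Λ μ : ℝ)‖ := by ring
      _ ≤ κ * (m * μ.real S) := hmain
      _ = _ := by ring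
  exact le_of_mul_le_mul_left h8 hm0

end Pool.Agent.P.MP_b8021b_nt.VE
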