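import Pool.Agent.P.MP_b8021b_nt.VE.StN

/-! N7a: the ray class group. -/

namespace Pool.Agent.P.MP_b8021b_nt.VE

open NumberField
open scoped Classical nonZeroDivisors

namespace RayP

variable {L : Type} [Field L] [NumberField L]

omit [NumberField L] in
lemma cop_span {n : ℕ} {x : 𝓞 L} : Cop n (Ideal.span {x}) ↔ IsCoprime x (n : 𝓞 L) :=
  Ideal.isCoprime_span_singleton_iff _ _

omit [NumberField L] in
lemma cop_mul {n : ℕ} {I J : Ideal (𝓞 L)} (hI : Cop n I) (hJ : Cop n J) : Cop n (I * J) :=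
  IsCoprime.mul_left hI hJ

omit [NumberField L] in
lemma cop_of_mul {n d : ℕ} {I : Ideal (𝓞 L)} (h : Cop (n * d) I) : Cop n I := by
  unfold Cop at h ⊢
  rw [Nat.cast_mul, ← Ideal.span_singleton_mul_span_singleton] at h
  exact h.of_mul_right_left

omit [NumberField L] in
lemma cop_of_dvd_sub_one {n : ℕ} {x : 𝓞 L} (h : (n : 𝓞 L) ∣ x - 1) : IsCoprime x (n : 𝓞 L) := by
  obtain ⟨c, hc⟩ := h
  exact ⟨1, -c, by linear_combination hc⟩

omit [NumberField L] in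
lemma coprime_nat_of_primes (c : 𝓞 L) (d : ℕ) (hd : d ≠ 0)
    (h : ∀ p : ℕ, p.Prime → p ∣ d → IsCoprime c (p : 𝓞 L)) : IsCoprime c (d : 𝓞 L) := by
  induction d using Nat.recOnMul with
  | zero => exact absurd rfl hd
  | one => simpa using isCoprime_one_right
  | prime p hp => exact h p hp dvd_rfl
  | mul a b iha ihb =>
    rw [Nat.cast_mul]
    exact (iha (left_ne_zero_of_mul hd) fun p hp hpa => h p hp (hpa.mul_right b)).mul_right
      (ihb (right_ne_zero_of_mul hd) fun p hp hpb => h p hp (hpb.mul_left a))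

/-- an element coprime to `n` can be moved in its class to a nonzero element coprime to `n d` -/
lemma exists_lift {n d : ℕ} (hn : 1 ≤ n) (hd : 1 ≤ d) {c : 𝓞 L} (hc : IsCoprime c (n : 𝓞 L)) :
    ∃ c' : 𝓞 L, c' ≠ 0 ∧ (n : 𝓞 L) ∣ c' - c ∧ IsCoprime c' ((n * d : ℕ) : 𝓞 L) := by
  set d₂ : ℕ := ∏ p ∈ d.primeFactors.filter (fun p => ¬ p ∣ n), p with hd₂
  have hco : Nat.Coprime d₂ n := by
    refine Nat.Coprime.prod_left fun p hp => ?_
    obtain ⟨h1, h2⟩ := Finset.mem_filter.mp hp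
    exact (Nat.Prime.coprime_iff_not_dvd (Nat.prime_of_mem_primeFactors h1)).mpr h2
  obtain ⟨a, b, hab⟩ : IsCoprime (d₂ : 𝓞 L) (n : 𝓞 L) := by
    simpa using (Nat.isCoprime_iff_coprime.mpr hco).map (Int.castRingHom (𝓞 L))
  have key : ∃ c' : 𝓞 L, (n : 𝓞 L) ∣ c' - c ∧ IsCoprime c' ((n * d : ℕ) : 𝓞 L) := by
    have h1 : (n : 𝓞 L) ∣ (c * (a * d₂) + b * n) - c := ⟨b - c * b, by linear_combination c * hab⟩
    have h2 : IsCoprime (c * (a * d₂) + b * n) (n : 𝓞 L) := by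
      obtain ⟨e, he⟩ := h1
      have : c * (a * d₂) + b * n = c + n * e := by linear_combination he
      rw [this]
      exact hc.add_mul_left_left e
    refine ⟨c * (a * d₂) + b * n, h1, coprime_nat_of_primes _ _ (by positivity) fun p hp hpd => ?_⟩
    by_cases hpn : p ∣ n
    · exact h2.of_isCoprime_of_dvd_right (Nat.cast_dvd_cast hpn)
    · have h3 : p ∣ d := ((Nat.Prime.dvd_mul hp).mp hpd).resolve_left hpn
      have h4 : p ∣ d₂ := Finset.dvd_prod_of_mem _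
        (Finset.mem_filter.mpr ⟨Nat.mem_primeFactors.mpr ⟨hp, h3, by omega⟩, hpn⟩)
      have h5 : IsCoprime (c * (a * d₂) + b * n) (d₂ : 𝓞 L) :=
        ⟨1, a - c * a, by linear_combination hab⟩
      exact h5.of_isCoprime_of_dvd_right (Nat.cast_dvd_cast h4)
  obtain ⟨c', h1, h2⟩ := key
  by_cases h0 : c' = 0
  · refine ⟨((n * d : ℕ) : 𝓞 L), Nat.cast_ne_zero.mpr (by positivity), ?_, ?_⟩
    · rw [h0] at h1
      have : ((n * d : ℕ) : 𝓞 L) - c = n * d + (0 - c) := by push_cast; ring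
      rw [this]
      exact dvd_add (dvd_mul_right _ _) h1
    · rw [h0] at h2
      simpa using h2.add_mul_left_left 1
  · exact ⟨c', h0, h1, h2⟩

/-- every nonzero ideal has a complement coprime to a given integer -/
lemma exists_compl {m : ℕ} (hm : 1 ≤ m) {I : Ideal (𝓞 L)} (hI : I ≠ ⊥) :
    ∃ (J : Ideal (𝓞 L)) (a : 𝓞 L), J ≠ ⊥ ∧ Cop m J ∧ I * J = Ideal.span {a} := by
  have hm0 : Ideal.span {((2 * m : ℕ) : 𝓞 L)} ≠ ⊥ := by
    rw [Ne, Ideal.span_singleton_eq_bot]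
    exact Nat.cast_ne_zero.mpr (by omega)
  obtain ⟨a, ha⟩ := IsDedekindDomain.exists_sup_span_eq
    (I := I * Ideal.span {((2 * m : ℕ) : 𝓞 L)}) (J := I) Ideal.mul_le_left (mul_ne_zero hI hm0)
  have haI : Ideal.span {a} ≤ I := le_trans le_sup_right ha.le
  obtain ⟨J, hJ⟩ := Ideal.dvd_iff_le.mpr haI
  have hco : IsCoprime J (Ideal.span {((2 * m : ℕ) : 𝓞 L)}) := by
    rw [Ideal.isCoprime_iff_sup_eq]
    rw [hJ, ← Ideal.mul_sup] at ha
    have : I * (Ideal.span {((2 * m : ℕ) : 𝓞 L)} ⊔ J) = I * ⊤ := by rw [ha, Ideal.mul_top]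
    rw [sup_comm]
    exact mul_left_cancel₀ hI this
  refine ⟨J, a, ?_, cop_of_mul (d := 2) (by rwa [mul_comm m 2]), hJ.symm⟩
  rintro rfl
  rw [Ideal.isCoprime_iff_sup_eq, bot_sup_eq] at hco
  have h1 := congrArg Ideal.absNorm hco
  rw [Ideal.absNorm_span_natCast, Ideal.absNorm_top] at h1
  have h2 : 0 < Module.finrank ℤ (𝓞 L) := Module.finrank_pos
  have := (Nat.pow_eq_one.mp h1).resolve_right h2.ne'
  omega

/-- inverse in the ray class group -/
lemma exists_inv {n d : ℕ} (hn : 1 ≤ n) (hd : 1 ≤ d) {I : Ideal (𝓞 L)} (hI : I ≠ ⊥)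
    (hc : Cop n I) : ∃ (J : Ideal (𝓞 L)) (a : 𝓞 L), J ≠ ⊥ ∧ Cop (n * d) J ∧ a ≠ 0 ∧
      (n : 𝓞 L) ∣ a - 1 ∧ I * J = Ideal.span {a} := by
  obtain ⟨J, a, hJ, hJc, hIJ⟩ := exists_compl (m := n * d) (Nat.mul_pos hn hd) hI
  have ha : IsCoprime a (n : 𝓞 L) := by
    rw [← cop_span, ← hIJ]
    exact cop_mul hc (cop_of_mul hJc)
  have ha0 : a ≠ 0 := by
    rintro rfl
    rw [Ideal.span_singleton_eq_bot.mpr rfl] at hIJ
    exact mul_ne_zero hI hJ hIJ
  obtain ⟨c, b, hcb⟩ := ha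
  obtain ⟨c', h0, ⟨e, he⟩, h2⟩ := exists_lift hn hd (c := c) ⟨a, b, by linear_combination hcb⟩
  refine ⟨J * Ideal.span {c'}, a * c', mul_ne_zero hJ (by
    rwa [Ne, Ideal.zero_eq_bot, Ideal.span_singleton_eq_bot]), cop_mul hJc (cop_span.mpr h2),
    mul_ne_zero ha0 h0, ⟨a * e - b, by linear_combination a * he + hcb⟩, ?_⟩
  rw [← mul_assoc, hIJ, Ideal.span_singleton_mul_span_singleton]

omit [NumberField L] in
lemma one_mod_mul {n : ℕ} {a b : 𝓞 L} (ha : (n : 𝓞 L) ∣ a - 1) (hb : (n : 𝓞 L) ∣ b - 1) :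
    (n : 𝓞 L) ∣ a * b - 1 := by
  have : a * b - 1 = (a - 1) * b + (b - 1) := by ring
  rw [this]
  exact dvd_add (ha.mul_right _) hb

variable (L) in
/-- the nonzero ideals coprime to `n` -/
def Mon (n : ℕ) : Submonoid (Ideal (𝓞 L)) where
  carrier := {I | I ≠ ⊥ ∧ Cop n I}
  one_mem' := ⟨by simp, isCoprime_one_left⟩
  mul_mem' := fun ha hb => ⟨mul_ne_zero ha.1 hb.1, cop_mul ha.2 hb.2⟩

variable (L) in
/-- the ray congruence -/
def con (n : ℕ) : Con (Mon L n) where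
  r I J := Ray n I.1 J.1
  iseqv :=
    { refl := fun _ => ⟨1, 1, one_ne_zero, one_ne_zero, by simp, by simp, rfl⟩
      symm := fun ⟨α, β, h1, h2, h3, h4, h5⟩ => ⟨β, α, h2, h1, h4, h3, h5.symm⟩
      trans := by
        rintro I J K ⟨α, β, h1, h2, h3, h4, h5⟩ ⟨γ, δ, g1, g2, g3, g4, g5⟩
        refine ⟨α * γ, β * δ, mul_ne_zero h1 g1, mul_ne_zero h2 g2, one_mod_mul h3 g3,
          one_mod_mul h4 g4, ?_⟩
        rw [← Ideal.span_singleton_mul_span_singleton, ← Ideal.span_singleton_mul_span_singleton,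
          ← mul_assoc, h5, mul_right_comm, g5]
        ring }
  mul' := by
    rintro I J K M ⟨α, β, h1, h2, h3, h4, h5⟩ ⟨γ, δ, g1, g2, g3, g4, g5⟩
    refine ⟨α * γ, β * δ, mul_ne_zero h1 g1, mul_ne_zero h2 g2, one_mod_mul h3 g3,
      one_mod_mul h4 g4, ?_⟩
    rw [← Ideal.span_singleton_mul_span_singleton, ← Ideal.span_singleton_mul_span_singleton,
      Submonoid.coe_mul, Submonoid.coe_mul, mul_mul_mul_comm, h5, g5, mul_mul_mul_comm]

lemma con_iff {n : ℕ} (I J : Mon L n) : (con L n).mk' I = (con L n).mk' J ↔ Ray n I.1 J.1 :=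
  (con L n).eq

lemma mk_eq_one {n : ℕ} (I : Mon L n) {a : 𝓞 L} (h0 : a ≠ 0) (h1 : (n : 𝓞 L) ∣ a - 1)
    (h : I.1 = Ideal.span {a}) : (con L n).mk' I = 1 := by
  rw [← map_one (con L n).mk', con_iff]
  exact ⟨1, a, one_ne_zero, h0, by simp, h1, by simp [h]⟩

lemma isUnit_quot {n : ℕ} (hn : 1 ≤ n) (g : (con L n).Quotient) : IsUnit g := by
  obtain ⟨I, rfl⟩ := (con L n).mk'_surjective g
  obtain ⟨J, a, hJ, hJc, ha0, ha, hIJ⟩ := exists_inv hn le_rfl I.2.1 I.2.2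
  refine IsUnit.of_mul_eq_one ((con L n).mk' ⟨J, hJ, cop_of_mul hJc⟩) ?_
  rw [← map_mul]
  exact mk_eq_one _ ha0 ha hIJ

variable (L) in
/-- the ray class group -/
def RG (n : ℕ) : Type := (con L n).Quotientˣ

noncomputable instance (n : ℕ) : CommGroup (RG L n) :=
  inferInstanceAs (CommGroup (con L n).Quotientˣ)

/-- the class of an ideal -/
noncomputable def cls {n : ℕ} (hn : 1 ≤ n) : Mon L n →* RG L n :=
  (IsUnit.liftRight (con L n).mk' fun _ => isUnit_quot hn _)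

lemma val_cls {n : ℕ} (hn : 1 ≤ n) (I : Mon L n) :
    Units.val (show (con L n).Quotientˣ from cls hn I) = (con L n).mk' I :=
  IsUnit.coe_liftRight (con L n).mk' (fun _ => isUnit_quot hn _) I

lemma cls_iff {n : ℕ} (hn : 1 ≤ n) (I J : Mon L n) : cls hn I = cls hn J ↔ Ray n I.1 J.1 := by
  rw [← con_iff, ← val_cls hn, ← val_cls hn]
  exact ⟨fun h => by rw [h], fun h => Units.ext h⟩

lemma cls_surj {n : ℕ} (hn : 1 ≤ n) : Function.Surjective (cls (L := L) hn) := by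
  intro g
  obtain ⟨I, hI⟩ := (con L n).mk'_surjective (Units.val (show (con L n).Quotientˣ from g))
  exact ⟨I, Units.ext ((val_cls hn I).trans hI)⟩

lemma cls_eq_one {n : ℕ} (hn : 1 ≤ n) (I : Mon L n) {a : 𝓞 L} (h0 : a ≠ 0)
    (h1 : (n : 𝓞 L) ∣ a - 1) (h : I.1 = Ideal.span {a}) : cls hn I = 1 := by
  rw [← map_one (cls hn), cls_iff]
  exact ⟨1, a, one_ne_zero, h0, by simp, h1, by simp [h]⟩

/-- the ideal class of an element of the monoid -/
noncomputable def toCl (n : ℕ) : Mon L n →* ClassGroup (𝓞 L) where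
  toFun I := ClassGroup.mk0 ⟨I.1, mem_nonZeroDivisors_of_ne_zero I.2.1⟩
  map_one' := by rw [← map_one ClassGroup.mk0]; rfl
  map_mul' I J := by rw [← map_mul]; rfl

lemma toCl_eq {n : ℕ} {I J : Mon L n} (h : Ray n I.1 J.1) : toCl n I = toCl n J := by
  obtain ⟨α, β, h1, h2, -, -, h5⟩ := h
  exact ClassGroup.mk0_eq_mk0_iff.mpr ⟨α, β, h1, h2, by rw [mul_comm, h5, mul_comm]⟩

lemma toCl_surj {n : ℕ} (hn : 1 ≤ n) : Function.Surjective (toCl (L := L) n) := by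
  intro c
  obtain ⟨I, hI⟩ := ClassGroup.mk0_surjective c⁻¹
  obtain ⟨J, a, hJ, hJc, hIJ⟩ := exists_compl hn (nonZeroDivisors.ne_zero I.2)
  refine ⟨⟨J, hJ, hJc⟩, ?_⟩
  have ha : a ≠ 0 := by
    rintro rfl
    rw [Ideal.span_singleton_eq_bot.mpr rfl] at hIJ
    exact mul_ne_zero (nonZeroDivisors.ne_zero I.2) hJ hIJ
  have : ClassGroup.mk0 ⟨J, mem_nonZeroDivisors_of_ne_zero hJ⟩ = (ClassGroup.mk0 I)⁻¹ :=
    ClassGroup.mk0_eq_mk0_inv_iff.mpr ⟨a, ha, by rw [mul_comm]; exact hIJ⟩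
  rw [hI, inv_inv] at this
  exact this

/-- the map to the class group -/
noncomputable def psi {n : ℕ} (hn : 1 ≤ n) : RG L n →* ClassGroup (𝓞 L) where
  toFun g := toCl n (cls_surj hn g).choose
  map_one' := by
    rw [← map_one (toCl n)]
    exact toCl_eq ((cls_iff hn _ _).mp (by rw [(cls_surj hn _).choose_spec, map_one]))
  map_mul' g h := by
    rw [← map_mul]
    exact toCl_eq ((cls_iff hn _ _).mp (by
      rw [map_mul, (cls_surj hn _).choose_spec, (cls_surj hn _).choose_spec,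
        (cls_surj hn _).choose_spec]))

lemma psi_cls {n : ℕ} (hn : 1 ≤ n) (I : Mon L n) : psi hn (cls hn I) = toCl n I :=
  toCl_eq ((cls_iff hn _ _).mp (cls_surj hn _).choose_spec)

lemma psi_surj {n : ℕ} (hn : 1 ≤ n) : Function.Surjective (psi (L := L) hn) := by
  intro c
  obtain ⟨I, rfl⟩ := toCl_surj hn c
  exact ⟨_, psi_cls hn I⟩

omit [NumberField L] in
lemma coprime_iff_isUnit {n : ℕ} (x : 𝓞 L) :
    IsCoprime x (n : 𝓞 L) ↔ IsUnit (Ideal.Quotient.mk (Ideal.span {(n : 𝓞 L)}) x) := by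
  constructor
  · rintro ⟨a, b, h⟩
    refine IsUnit.of_mul_eq_one (Ideal.Quotient.mk _ a) ?_
    rw [← map_mul, ← map_one (Ideal.Quotient.mk _), Ideal.Quotient.eq, Ideal.mem_span_singleton]
    exact ⟨-b, by linear_combination h⟩
  · intro h
    obtain ⟨y, hy⟩ := h.exists_right_inv
    obtain ⟨a, rfl⟩ := Ideal.Quotient.mk_surjective y
    rw [← map_mul, ← map_one (Ideal.Quotient.mk _), Ideal.Quotient.eq,
      Ideal.mem_span_singleton] at hy
    obtain ⟨b, hb⟩ := hy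
    exact ⟨a, -b, by linear_combination hb⟩

/-- a principal ideal as an element of the monoid -/
def prin {n : ℕ} (x : 𝓞 L) (h0 : x ≠ 0) (h : IsCoprime x (n : 𝓞 L)) : Mon L n :=
  ⟨Ideal.span {x}, by rwa [Ne, Ideal.span_singleton_eq_bot], cop_span.mpr h⟩

lemma cls_prin {n : ℕ} (hn : 1 ≤ n) {x y : 𝓞 L} (h0 : x ≠ 0) (h : IsCoprime x (n : 𝓞 L))
    (g0 : y ≠ 0) (g : IsCoprime y (n : 𝓞 L)) (hxy : (n : 𝓞 L) ∣ x - y) :
    cls hn (prin x h0 h) = cls hn (prin y g0 g) := by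
  rw [cls_iff]
  obtain ⟨a, b, hab⟩ := h
  obtain ⟨z, hz0, ⟨e, he⟩, -⟩ := exists_lift hn le_rfl (c := a) ⟨x, b, by linear_combination hab⟩
  obtain ⟨f, hf⟩ := hxy
  refine ⟨z * y, z * x, mul_ne_zero hz0 g0, mul_ne_zero hz0 h0, ⟨e * y - b - a * f, ?_⟩,
    ⟨e * x - b, ?_⟩, ?_⟩
  · linear_combination y * he + hab - a * hf
  · linear_combination x * he + hab
  · simp only [prin, Ideal.span_singleton_mul_span_singleton]
    congr 2
    ring

lemma exists_rep {n : ℕ} (hn : 1 ≤ n) (u : (𝓞 L ⧸ Ideal.span {(n : 𝓞 L)})ˣ) :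
    ∃ x : 𝓞 L, x ≠ 0 ∧ IsCoprime x (n : 𝓞 L) ∧ Ideal.Quotient.mk _ x = u.1 := by
  obtain ⟨c, hc⟩ := Ideal.Quotient.mk_surjective u.1
  have h1 : IsCoprime c (n : 𝓞 L) := (coprime_iff_isUnit c).mpr (hc ▸ u.isUnit)
  obtain ⟨c', h0, h2, h3⟩ := exists_lift hn le_rfl h1
  refine ⟨c', h0, by simpa using h3, ?_⟩
  rw [← hc, Ideal.Quotient.eq, Ideal.mem_span_singleton]
  exact h2

/-- the class of the principal ideal of a lift -/
noncomputable def th0 {n : ℕ} (hn : 1 ≤ n) (u : (𝓞 L ⧸ Ideal.span {(n : 𝓞 L)})ˣ) : RG L n :=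
  cls hn (prin _ (exists_rep hn u).choose_spec.1 (exists_rep hn u).choose_spec.2.1)

lemma th0_eq {n : ℕ} (hn : 1 ≤ n) (u : (𝓞 L ⧸ Ideal.span {(n : 𝓞 L)})ˣ) {x : 𝓞 L} (h0 : x ≠ 0)
    (h : IsCoprime x (n : 𝓞 L)) (hx : Ideal.Quotient.mk _ x = u.1) :
    th0 hn u = cls hn (prin x h0 h) := by
  apply cls_prin
  rw [← Ideal.mem_span_singleton, ← Ideal.Quotient.eq, hx]
  exact (exists_rep hn u).choose_spec.2.2

/-- the map from the invertible residues -/
noncomputable def th {n : ℕ} (hn : 1 ≤ n) : (𝓞 L ⧸ Ideal.span {(n : 𝓞 L)})ˣ →* RG L n where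
  toFun := th0 hn
  map_one' := by
    rw [th0_eq hn 1 one_ne_zero isCoprime_one_left (by simp)]
    exact cls_eq_one hn _ one_ne_zero (by simp) rfl
  map_mul' u v := by
    obtain ⟨x, x0, x1, x2⟩ := exists_rep hn u
    obtain ⟨y, y0, y1, y2⟩ := exists_rep hn v
    rw [th0_eq hn u x0 x1 x2, th0_eq hn v y0 y1 y2, th0_eq hn (u * v) (mul_ne_zero x0 y0)
      (x1.mul_left y1) (by rw [map_mul, x2, y2, Units.val_mul]), ← map_mul]
    congr 1
    exact Subtype.ext (Ideal.span_singleton_mul_span_singleton x y).symm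

lemma ker_psi {n : ℕ} (hn : 1 ≤ n) : (psi (L := L) hn).ker = (th hn).range := by
  ext g
  rw [MonoidHom.mem_ker, MonoidHom.mem_range]
  constructor
  · intro h
    obtain ⟨I, rfl⟩ := cls_surj hn g
    rw [psi_cls] at h
    obtain ⟨x, hx⟩ := (ClassGroup.mk0_eq_one_iff _).mp h
    have hx' : I.1 = Ideal.span {x} := hx
    have x0 : x ≠ 0 := by
      rintro rfl
      exact I.2.1 (by rw [hx', Ideal.span_singleton_eq_bot])
    have x1 : IsCoprime x (n : 𝓞 L) := cop_span.mp (hx' ▸ I.2.2)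
    refine ⟨((coprime_iff_isUnit x).mp x1).unit, ?_⟩
    refine (th0_eq hn _ x0 x1 rfl).trans ?_
    congr 1
    exact Subtype.ext hx'.symm
  · rintro ⟨u, rfl⟩
    obtain ⟨x, x0, x1, x2⟩ := exists_rep hn u
    have : th hn u = cls hn (prin x x0 x1) := th0_eq hn u x0 x1 x2
    rw [this, psi_cls]
    exact (ClassGroup.mk0_eq_one_iff _).mpr ⟨x, rfl⟩

lemma ker_th {n : ℕ} (hn : 1 ≤ n) : (th (L := L) hn).ker =
    (Units.map (Ideal.Quotient.mk (Ideal.span {(n : 𝓞 L)})).toMonoidHom).range := by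
  ext u
  rw [MonoidHom.mem_ker, MonoidHom.mem_range]
  constructor
  · intro h
    obtain ⟨x, x0, x1, x2⟩ := exists_rep hn u
    have h2 : th hn u = cls hn (prin x x0 x1) := th0_eq hn u x0 x1 x2
    rw [h2, ← map_one (cls hn), cls_iff] at h
    obtain ⟨α, β, -, -, ⟨a, ha⟩, ⟨b, hb⟩, h5⟩ := h
    simp only [prin, Ideal.span_singleton_mul_span_singleton, OneMemClass.coe_one, one_mul] at h5
    obtain ⟨ε, hε⟩ := (Ideal.span_singleton_eq_span_singleton.mp h5).symm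
    refine ⟨ε, Units.ext ?_⟩
    rw [← x2]
    change Ideal.Quotient.mk _ (ε : 𝓞 L) = _
    rw [Ideal.Quotient.eq, Ideal.mem_span_singleton]
    exact ⟨x * a - b * ε, by linear_combination hε + x * ha - (ε : 𝓞 L) * hb⟩
  · rintro ⟨ε, rfl⟩
    have h1 : IsCoprime (ε : 𝓞 L) (n : 𝓞 L) := ⟨(ε⁻¹ : (𝓞 L)ˣ), 0, by simp⟩
    have h2 := th0_eq hn (Units.map (Ideal.Quotient.mk (Ideal.span {(n : 𝓞 L)})).toMonoidHom ε)
      ε.ne_zero h1 rfl
    refine h2.trans (cls_eq_one hn _ one_ne_zero (by simp) ?_)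
    simp [prin]

lemma finite_quot {n : ℕ} (hn : 1 ≤ n) : Finite (𝓞 L ⧸ Ideal.span {(n : 𝓞 L)}) :=
  Ideal.finiteQuotientOfFreeOfNeBot _ (by
    rw [Ne, Ideal.span_singleton_eq_bot]
    exact Nat.cast_ne_zero.mpr (by omega))

lemma finite_RG {n : ℕ} (hn : 1 ≤ n) : Finite (RG L n) := by
  have := finite_quot (L := L) hn
  have h1 : Finite (psi (L := L) hn).ker := by
    rw [ker_psi]
    exact Finite.of_surjective _ (th hn).rangeRestrict_surjective
  have := Fintype.ofFinite (psi (L := L) hn).ker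
  have := Group.fintypeOfKerOfCodom (psi (L := L) hn)
  infer_instance

lemma card_RG {n : ℕ} (hn : 1 ≤ n) (h : ∀ ε : (𝓞 L)ˣ, (n : 𝓞 L) ∣ ε - 1 → ε = 1) :
    Nat.card (RG L n) * wu L = classNumber L * phi L n := by
  have h1 : Nat.card (RG L n) = Nat.card (psi (L := L) hn).ker * classNumber L := by
    rw [← Subgroup.card_mul_index (psi (L := L) hn).ker, Subgroup.index_ker,
      MonoidHom.range_eq_top.mpr (psi_surj hn), Subgroup.card_top, classNumber,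
      ← Nat.card_eq_fintype_card]
  have h2 : phi L n = Nat.card (th (L := L) hn).ker * Nat.card (th (L := L) hn).range := by
    rw [phi, ← Subgroup.card_mul_index (th (L := L) hn).ker, Subgroup.index_ker]
  have h3 : Function.Injective
      (Units.map (Ideal.Quotient.mk (Ideal.span {(n : 𝓞 L)})).toMonoidHom) := by
    rw [injective_iff_map_eq_one]
    intro ε hε
    apply h
    have h4 : Ideal.Quotient.mk (Ideal.span {(n : 𝓞 L)}) (ε : 𝓞 L) = 1 := congrArg Units.val hε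
    rwa [← map_one (Ideal.Quotient.mk _), Ideal.Quotient.eq, Ideal.mem_span_singleton] at h4
  have h4 : Nat.card (th (L := L) hn).ker = wu L := by
    rw [ker_th, wu]
    exact (Nat.card_congr (MonoidHom.ofInjective h3).toEquiv).symm
  rw [h1, h2, h4, ker_psi]
  ring

end RayP

open RayP in
theorem p_ray : S_Ray := by
  intro L _ _ n hn
  have hf := finite_RG (L := L) hn
  let π : Ideal (𝓞 L) → RG L n := fun I => if h : I ∈ Mon L n then cls hn ⟨I, h⟩ else 1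
  have hπ : ∀ I (h : I ∈ Mon L n), π I = cls hn ⟨I, h⟩ := fun I h => dif_pos h
  refine ⟨RG L n, inferInstance, Fintype.ofFinite _, π, ?_, ?_, ?_, ?_⟩
  · intro I J hI hJ cI cJ
    rw [hπ I ⟨hI, cI⟩, hπ J ⟨hJ, cJ⟩, hπ _ ((Mon L n).mul_mem ⟨hI, cI⟩ ⟨hJ, cJ⟩), ← map_mul]
    rfl
  · intro g d hd
    obtain ⟨I, hI⟩ := cls_surj hn g⁻¹
    obtain ⟨J, a, hJ, hJc, ha0, ha, hIJ⟩ := exists_inv hn hd I.2.1 I.2.2
    refine ⟨J, hJ, hJc, ?_⟩
    rw [hπ J ⟨hJ, cop_of_mul hJc⟩]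
    have : cls hn (I * ⟨J, hJ, cop_of_mul hJc⟩) = 1 := cls_eq_one hn _ ha0 ha hIJ
    rw [map_mul, hI, inv_mul_eq_one] at this
    exact this.symm
  · intro I J hI hJ cI cJ
    rw [hπ I ⟨hI, cI⟩, hπ J ⟨hJ, cJ⟩, cls_iff]
  · intro h
    rw [← card_RG hn h, @Nat.card_eq_fintype_card _ (Fintype.ofFinite _)]

end Pool.Agent.P.MP_b8021b_nt.VE
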