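import Pool.Agent.P.MP_b8021b_nt.VE.StN

namespace Pool.Agent.P.MP_b8021b_nt.VE

open NumberField

theorem p_iq : S_IQ := by
  intro D hD
  have hF : Fact (∀ r : ℚ, r ^ 2 ≠ (D : ℚ) + 0 * r) := ⟨fun r h => by
    have h1 : (D : ℚ) < 0 := by exact_mod_cast hD
    nlinarith [sq_nonneg r]⟩
  let L := QuadraticAlgebra ℚ (D : ℚ) 0
  have hc : CharZero L := algebraRat.charZero L
  have hf : FiniteDimensional ℚ L := by
    have := (inferInstance : Module.Finite ℚ (QuadraticAlgebra ℚ (D : ℚ) 0))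
    exact this
  have hn : NumberField L := ⟨⟩
  have hw : (QuadraticAlgebra.omega : L) ^ 2 = D := by
    rw [sq, QuadraticAlgebra.omega_mul_omega_eq_mk]
    ext <;> simp
  have hi : IsIntegral ℤ (QuadraticAlgebra.omega : L) := by
    refine IsIntegral.of_pow (n := 2) (by norm_num) ?_
    rw [hw]
    exact isIntegral_algebraMap (R := ℤ) (x := D)
  refine ⟨L, inferInstance, hn, ⟨D, hD, ⟨_, hi⟩, ?_, QuadraticAlgebra.finrank_eq_two _ _,
    Classical.choice inferInstance, RingOfIntegers.mapRingEquiv (starRingAut (R := L)), ?_⟩, rfl⟩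
  · exact Subtype.ext hw
  · apply Subtype.ext
    change star (QuadraticAlgebra.omega : L) = -QuadraticAlgebra.omega
    ext <;> simp

end Pool.Agent.P.MP_b8021b_nt.VE
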