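import Pool.Agent.P.MP_b8021b_nt.VE.StA

/-! Shared lemmas for part A: the presentation `Quad`, the involution, `ord` and `pair`. -/

namespace Pool.Agent.P.MP_b8021b_nt.VE

open Polynomial
open scoped Classical

noncomputable section

namespace Quad

variable {F A : Type} [Field F] [CommRing A] [Algebra F A] (M : Quad F A)

theorem exists_el (h : A) : ∃ g c : F[X], h = M.el g c := M.surj h

theorem el_eq_zero {g c : F[X]} : M.el g c = 0 ↔ g = 0 ∧ c = 0 :=
  ⟨M.inj g c, by rintro ⟨rfl, rfl⟩; simp [el]⟩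

theorem el_add (g c g' c' : F[X]) : M.el g c + M.el g' c' = M.el (g + g') (c + c') := by
  simp only [el, map_add]; ring

theorem el_sub (g c g' c' : F[X]) : M.el g c - M.el g' c' = M.el (g - g') (c - c') := by
  simp only [el, map_sub]; ring

theorem el_neg (g c : F[X]) : -M.el g c = M.el (-g) (-c) := by
  simp only [el, map_neg]; ring

theorem el_mul (g c g' c' : F[X]) :
    M.el g c * M.el g' c' = M.el (g * g' + c * c' * M.f) (g * c' + c * g') := by
  simp only [el, map_add, map_mul, ← M.rel]; ring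

theorem el_smul (a : F) (g c : F[X]) : a • M.el g c = M.el (a • g) (a • c) := by
  simp only [el, map_smul, smul_add, smul_mul_assoc]

theorem aeval_mul_el (q g c : F[X]) : aeval M.x q * M.el g c = M.el (q * g) (q * c) := by
  simp only [el, map_mul]; ring

theorem el_inj {g c g' c' : F[X]} : M.el g c = M.el g' c' ↔ g = g' ∧ c = c' := by
  rw [← sub_eq_zero, el_sub, el_eq_zero, sub_eq_zero, sub_eq_zero]

theorem el_zero_right (g : F[X]) : M.el g 0 = aeval M.x g := by simp [el]

theorem el_zero : M.el 0 0 = 0 := by simp [el]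

theorem el_one : M.el 1 0 = 1 := by simp [el]

theorem el_X : M.el X 0 = M.x := by simp [el]

theorem el_y : M.el 0 1 = M.y := by simp [el]

theorem el_C (a : F) : M.el (C a) 0 = algebraMap F A a := by simp [el]

theorem el_C_C (a b : F) : M.el (C a) (C b) = algebraMap F A a + algebraMap F A b * M.y := by
  simp [el]

theorem aeval_eq_zero {g : F[X]} : aeval M.x g = 0 ↔ g = 0 := by
  rw [← el_zero_right, el_eq_zero]; simp

theorem aeval_injective : Function.Injective (aeval M.x : F[X] →ₐ[F] A) :=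
  (injective_iff_map_eq_zero _).2 fun _ h => M.aeval_eq_zero.1 h

theorem f_ne_zero : M.f ≠ 0 := M.monic.ne_zero

include M in
theorem nontrivial : Nontrivial A := M.aeval_injective.nontrivial

include M in
theorem algebraMap_injective : Function.Injective (algebraMap F A) :=
  haveI := M.nontrivial
  (algebraMap F A).injective

theorem x_sub_ne_zero (t : F) : M.x - algebraMap F A t ≠ 0 := by
  have h : aeval M.x (X - C t) ≠ 0 := fun h => X_sub_C_ne_zero t (M.aeval_eq_zero.1 h)
  simpa using h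

theorem x_ne_zero : M.x ≠ 0 := by simpa using M.x_sub_ne_zero 0

theorem y_ne_zero : M.y ≠ 0 := by
  rw [← el_y, Ne, el_eq_zero]; simp

/-- divisibility by a polynomial in `x` -/
theorem aeval_dvd_el {q g c : F[X]} : aeval M.x q ∣ M.el g c ↔ q ∣ g ∧ q ∣ c := by
  constructor
  · rintro ⟨h, hh⟩
    obtain ⟨g', c', rfl⟩ := M.exists_el h
    rw [aeval_mul_el, el_inj] at hh
    exact ⟨⟨_, hh.1⟩, ⟨_, hh.2⟩⟩
  · rintro ⟨⟨g', rfl⟩, ⟨c', rfl⟩⟩
    exact ⟨M.el g' c', (M.aeval_mul_el _ _ _).symm⟩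

theorem aeval_dvd_aeval {q g : F[X]} : aeval M.x q ∣ aeval M.x g ↔ q ∣ g := by
  rw [← M.el_zero_right g, aeval_dvd_el]; simp

/-- first coordinate -/
def c0 (h : A) : F[X] := (M.surj h).choose

/-- second coordinate -/
def c1 (h : A) : F[X] := (M.surj h).choose_spec.choose

theorem el_c0_c1 (h : A) : M.el (M.c0 h) (M.c1 h) = h :=
  (M.surj h).choose_spec.choose_spec.symm

theorem c0_el (g c : F[X]) : M.c0 (M.el g c) = g := (M.el_inj.1 (M.el_c0_c1 _)).1

theorem c1_el (g c : F[X]) : M.c1 (M.el g c) = c := (M.el_inj.1 (M.el_c0_c1 _)).2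

/-- the universal property of the presentation -/
def lift {B : Type*} [CommRing B] [Algebra F B] (a b : B) (hb : b ^ 2 = aeval a M.f) :
    A →ₐ[F] B where
  toFun h := aeval a (M.c0 h) + aeval a (M.c1 h) * b
  map_one' := by rw [← M.el_one, c0_el, c1_el]; simp
  map_zero' := by rw [← M.el_zero, c0_el, c1_el]; simp
  map_mul' h h' := by
    obtain ⟨g, c, rfl⟩ := M.exists_el h
    obtain ⟨g', c', rfl⟩ := M.exists_el h'
    rw [el_mul]
    simp only [c0_el, c1_el, map_add, map_mul, ← hb]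
    ring
  map_add' h h' := by
    obtain ⟨g, c, rfl⟩ := M.exists_el h
    obtain ⟨g', c', rfl⟩ := M.exists_el h'
    rw [el_add]
    simp only [c0_el, c1_el, map_add]
    ring
  commutes' r := by rw [← M.el_C, c0_el, c1_el]; simp

section lift

variable {B : Type*} [CommRing B] [Algebra F B]

theorem lift_el (a b : B) (hb : b ^ 2 = aeval a M.f) (g c : F[X]) :
    M.lift a b hb (M.el g c) = aeval a g + aeval a c * b := by
  change aeval a (M.c0 _) + aeval a (M.c1 _) * b = _
  rw [c0_el, c1_el]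

theorem lift_x (a b : B) (hb : b ^ 2 = aeval a M.f) : M.lift a b hb M.x = a := by
  rw [← M.el_X, lift_el]; simp

theorem lift_y (a b : B) (hb : b ^ 2 = aeval a M.f) : M.lift a b hb M.y = b := by
  rw [← M.el_y, lift_el]; simp

theorem map_el (σ : A →ₐ[F] B) (g c : F[X]) :
    σ (M.el g c) = aeval (σ M.x) g + aeval (σ M.x) c * σ M.y := by
  simp only [el, map_add, map_mul, aeval_algHom_apply]

theorem map_rel (σ : A →ₐ[F] B) : σ M.y ^ 2 = aeval (σ M.x) M.f := by
  rw [← map_pow, M.rel, aeval_algHom_apply]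

theorem hom_ext {σ τ : A →ₐ[F] B} (hx : σ M.x = τ M.x) (hy : σ M.y = τ M.y) : σ = τ := by
  ext h
  obtain ⟨g, c, rfl⟩ := M.exists_el h
  rw [map_el, map_el, hx, hy]

end lift

/-- the involution as an algebra homomorphism -/
def conjHom : A →ₐ[F] A := M.lift M.x (-M.y) (by rw [neg_sq, M.rel])

theorem conjHom_el (g c : F[X]) : M.conjHom (M.el g c) = M.el g (-c) := by
  rw [conjHom, lift_el]; simp [el]

/-- the involution `y ↦ -y` -/
def conj : A ≃ₐ[F] A :=
  AlgEquiv.ofAlgHom M.conjHom M.conjHom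
    (by ext h; obtain ⟨g, c, rfl⟩ := M.exists_el h; simp [conjHom_el])
    (by ext h; obtain ⟨g, c, rfl⟩ := M.exists_el h; simp [conjHom_el])

theorem conj_el (g c : F[X]) : M.conj (M.el g c) = M.el g (-c) := M.conjHom_el g c

theorem conj_x : M.conj M.x = M.x := by rw [← M.el_X, conj_el, neg_zero]

theorem conj_y : M.conj M.y = -M.y := by rw [← M.el_y, conj_el, el_neg, neg_zero]

theorem conj_aeval (g : F[X]) : M.conj (aeval M.x g) = aeval M.x g := by
  rw [← M.el_zero_right, conj_el, neg_zero]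

theorem conj_conj (h : A) : M.conj (M.conj h) = h := by
  obtain ⟨g, c, rfl⟩ := M.exists_el h
  rw [conj_el, conj_el, neg_neg]

theorem eq_conj (ι : A ≃ₐ[F] A) (hx : ι M.x = M.x) (hy : ι M.y = -M.y) : ι = M.conj := by
  have h : (ι : A →ₐ[F] A) = (M.conj : A →ₐ[F] A) :=
    M.hom_ext (by simpa [conj_x] using hx) (by simpa [conj_y] using hy)
  ext a
  exact DFunLike.congr_fun h a

theorem el_mul_conj (g c : F[X]) :
    M.el g c * M.el g (-c) = aeval M.x (g ^ 2 - c ^ 2 * M.f) := by
  rw [el_mul, ← el_zero_right, el_inj]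
  constructor <;> ring

/-- the norm to `F[x]` -/
def nm (h : A) : F[X] := M.c0 h ^ 2 - M.c1 h ^ 2 * M.f

theorem nm_el (g c : F[X]) : M.nm (M.el g c) = g ^ 2 - c ^ 2 * M.f := by
  rw [nm, c0_el, c1_el]

theorem mul_conj (h : A) : h * M.conj h = aeval M.x (M.nm h) := by
  obtain ⟨g, c, rfl⟩ := M.exists_el h
  rw [conj_el, el_mul_conj, nm_el]

theorem nm_mul (h h' : A) : M.nm (h * h') = M.nm h * M.nm h' := by
  apply M.aeval_injective
  rw [map_mul, ← mul_conj, ← mul_conj, ← mul_conj, map_mul]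
  ring

theorem nm_aeval (g : F[X]) : M.nm (aeval M.x g) = g ^ 2 := by
  rw [← M.el_zero_right, nm_el]; simp

theorem nm_conj (h : A) : M.nm (M.conj h) = M.nm h := by
  apply M.aeval_injective
  rw [← mul_conj, ← mul_conj, conj_conj, mul_comm]

theorem add_conj (h : A) : h + M.conj h = aeval M.x (2 * M.c0 h) := by
  obtain ⟨g, c, rfl⟩ := M.exists_el h
  rw [conj_el, el_add, c0_el, ← el_zero_right, el_inj]
  constructor <;> ring

/-- the degree of the norm when `c = 0` or the degrees of the two terms differ (parity) -/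
theorem natDegree_nm (g c : F[X]) (hc : c ≠ 0) :
    (g ^ 2 - c ^ 2 * M.f).natDegree = max (2 * g.natDegree) (2 * c.natDegree + 3) := by
  have h1 : (g ^ 2).natDegree = 2 * g.natDegree := natDegree_pow _ _
  have h2 : (c ^ 2 * M.f).natDegree = 2 * c.natDegree + 3 := by
    rw [natDegree_mul (pow_ne_zero _ hc) M.f_ne_zero, natDegree_pow, M.deg]
  rcases lt_trichotomy (g ^ 2).natDegree (c ^ 2 * M.f).natDegree with h | h | h
  · rw [natDegree_sub_eq_right_of_natDegree_lt h]; omega
  · omega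
  · rw [natDegree_sub_eq_left_of_natDegree_lt h]; omega

theorem nm_eq_zero {h : A} : M.nm h = 0 ↔ h = 0 := by
  constructor
  · obtain ⟨g, c, rfl⟩ := M.exists_el h
    rw [nm_el]
    intro h0
    by_cases hc : c = 0
    · subst hc
      have : g = 0 := by simpa using h0
      rw [this, el_zero]
    · have := M.natDegree_nm g c hc
      rw [h0, natDegree_zero] at this
      omega
  · rintro rfl
    rw [← M.el_zero, nm_el]; simp

include M in
theorem isDomain : IsDomain A := by
  have := M.nontrivial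
  have : NoZeroDivisors A := ⟨fun {a b} h => by
    have h' := M.nm_mul a b
    rw [h, M.nm_eq_zero.2 rfl] at h'
    rcases mul_eq_zero.1 h'.symm with h1 | h1
    · exact Or.inl (M.nm_eq_zero.1 h1)
    · exact Or.inr (M.nm_eq_zero.1 h1)⟩
  exact NoZeroDivisors.to_isDomain A

/-- the conjugate of a maximal ideal -/
def conjP (P : MaximalSpectrum A) : MaximalSpectrum A :=
  ⟨P.asIdeal.comap (M.conj : A →+* A),
    haveI := P.isMaximal
    Ideal.comap_isMaximal_of_surjective (M.conj : A →+* A) M.conj.surjective⟩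

theorem mem_conjP {P : MaximalSpectrum A} {h : A} :
    h ∈ (M.conjP P).asIdeal ↔ M.conj h ∈ P.asIdeal := Iff.rfl

theorem conj_mem_conjP {P : MaximalSpectrum A} {h : A} :
    M.conj h ∈ (M.conjP P).asIdeal ↔ h ∈ P.asIdeal := by rw [mem_conjP, conj_conj]

theorem conjP_conjP (P : MaximalSpectrum A) : M.conjP (M.conjP P) = P := by
  ext h
  rw [mem_conjP, conj_mem_conjP]

theorem aeval_mem_conjP {P : MaximalSpectrum A} {g : F[X]} :
    aeval M.x g ∈ (M.conjP P).asIdeal ↔ aeval M.x g ∈ P.asIdeal := by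
  rw [mem_conjP, conj_aeval]

end Quad

/-! ### functionals -/

namespace IsFn

variable {A : Type} [CommRing A] {φ : MaximalSpectrum A → A → ℝ} (hφ : IsFn φ)
include hφ

theorem one (P : MaximalSpectrum A) : φ P 1 = 0 := by
  have h1 : (1 : A) ∉ P.asIdeal := (Ideal.ne_top_iff_one _).1 P.isMaximal.ne_top
  have h := hφ.mul P 1 1 h1 h1
  rw [mul_one] at h
  linarith

theorem pow (P : MaximalSpectrum A) (h : A) (n : ℕ) : φ P (h ^ n) = n * φ P h := by
  by_cases hh : h ∈ P.asIdeal
  · rcases n with _ | n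
    · simp [hφ.one]
    · rw [hφ.zero P h hh, hφ.zero P _ (Ideal.pow_mem_of_mem _ hh _ n.succ_pos), mul_zero]
  · induction n with
    | zero => simp [hφ.one]
    | succ n ih =>
      rw [pow_succ, hφ.mul P _ _ (fun h' => hh (P.isMaximal.isPrime.mem_of_pow_mem n h')) hh, ih]
      push_cast
      ring

theorem eq_zero_of_pow (P : MaximalSpectrum A) {h : A} {n : ℕ} (hn : n ≠ 0)
    (h1 : h ^ n - 1 ∈ P.asIdeal) : φ P h = 0 := by
  have h2 := hφ.congr P _ _ h1
  rw [hφ.pow, hφ.one] at h2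
  exact (mul_eq_zero.1 h2).resolve_left (Nat.cast_ne_zero.2 hn)

theorem neg_one (P : MaximalSpectrum A) : φ P (-1) = 0 :=
  hφ.eq_zero_of_pow P two_ne_zero (by simp)

theorem neg (P : MaximalSpectrum A) (h : A) : φ P (-h) = φ P h := by
  by_cases hh : h ∈ P.asIdeal
  · rw [hφ.zero P h hh, hφ.zero P _ (neg_mem hh)]
  · have h1 : (-1 : A) ∉ P.asIdeal := fun h' =>
      (Ideal.ne_top_iff_one _).1 P.isMaximal.ne_top (neg_mem_iff.1 h')
    rw [← neg_one_mul, hφ.mul P _ _ h1 hh, hφ.neg_one, zero_add]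

theorem prod (P : MaximalSpectrum A) {ι : Type*} (s : Finset ι) (h : ι → A)
    (hh : ∀ i ∈ s, h i ∉ P.asIdeal) : φ P (∏ i ∈ s, h i) = ∑ i ∈ s, φ P (h i) := by
  induction s using Finset.induction_on with
  | empty => simp [hφ.one]
  | insert a s ha ih =>
    have h2 : ∀ i ∈ s, h i ∉ P.asIdeal := fun i hi => hh i (Finset.mem_insert_of_mem hi)
    have h3 : ∏ i ∈ s, h i ∉ P.asIdeal := fun h' => by
      have := P.isMaximal.isPrime
      obtain ⟨i, hi, hi'⟩ := Ideal.IsPrime.prod_mem_iff.1 h'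
      exact h2 i hi hi'
    rw [Finset.prod_insert ha, Finset.sum_insert ha,
      hφ.mul P _ _ (hh a (Finset.mem_insert_self _ _)) h3, ih h2]

end IsFn

/-! ### orders -/

section ord

variable {A : Type} [CommRing A]

theorem not_mem_of_isUnit (P : MaximalSpectrum A) {u : A} (hu : IsUnit u) : u ∉ P.asIdeal :=
  fun h => P.isMaximal.ne_top (Ideal.eq_top_of_isUnit_mem _ h hu)

theorem not_mem_of_isCoprime (P : MaximalSpectrum A) {f h : A} (hc : IsCoprime f h)
    (hf : f ∈ P.asIdeal) : h ∉ P.asIdeal := fun hh => by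
  obtain ⟨a, b, hab⟩ := hc
  exact (Ideal.ne_top_iff_one _).1 P.isMaximal.ne_top
    (hab ▸ add_mem (Ideal.mul_mem_left _ _ hf) (Ideal.mul_mem_left _ _ hh))

theorem isCoprime_of_forall {f h : A}
    (H : ∀ P : MaximalSpectrum A, f ∈ P.asIdeal → h ∉ P.asIdeal) : IsCoprime f h := by
  rw [← Ideal.isCoprime_span_singleton_iff, Ideal.isCoprime_iff_sup_eq]
  by_contra hne
  obtain ⟨m, hm, hle⟩ := Ideal.exists_le_maximal _ hne
  exact H ⟨m, hm⟩ (hle (Ideal.mem_sup_left (Ideal.mem_span_singleton_self f)))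
    (hle (Ideal.mem_sup_right (Ideal.mem_span_singleton_self h)))

theorem ord_congr (P : MaximalSpectrum A) {f g : A} (h : Associated f g) : ord P f = ord P g := by
  unfold ord
  have h1 : Ideal.span {f} = Ideal.span {g} :=
    le_antisymm (Ideal.span_singleton_le_span_singleton.2 h.symm.dvd)
      (Ideal.span_singleton_le_span_singleton.2 h.dvd)
  rw [h1]

variable [IsDedekindDomain A]

theorem ord_eq_zero_iff (P : MaximalSpectrum A) {f : A} : ord P f = 0 ↔ f ∉ P.asIdeal := by
  unfold ord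
  rw [multiplicity_eq_zero, Ideal.dvd_span_singleton]

theorem ord_pos_iff (P : MaximalSpectrum A) {f : A} : 0 < ord P f ↔ f ∈ P.asIdeal := by
  rw [Nat.pos_iff_ne_zero, Ne, ord_eq_zero_iff, not_not]

theorem finiteMultiplicity_span (P : MaximalSpectrum A) {I : Ideal A} (hI : I ≠ ⊥) :
    FiniteMultiplicity P.asIdeal I :=
  FiniteMultiplicity.of_not_isUnit (by rw [Ideal.isUnit_iff]; exact P.isMaximal.ne_top) hI

theorem multiplicity_ideal_mul (P : MaximalSpectrum A) {I J : Ideal A} (hI : I ≠ ⊥) (hJ : J ≠ ⊥) :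
    multiplicity P.asIdeal (I * J) = multiplicity P.asIdeal I + multiplicity P.asIdeal J := by
  by_cases hP : P.asIdeal = ⊥
  · have h0 : ∀ K : Ideal A, K ≠ ⊥ → multiplicity P.asIdeal K = 0 := fun K hK => by
      rw [multiplicity_eq_zero, hP]
      exact fun h => hK (zero_dvd_iff.1 h)
    rw [h0 _ hI, h0 _ hJ, h0 _ (mul_ne_zero hI hJ)]
  · exact multiplicity_mul (Ideal.prime_of_isPrime hP P.isMaximal.isPrime)
      (finiteMultiplicity_span P (mul_ne_zero hI hJ))

theorem ord_mul (P : MaximalSpectrum A) {f g : A} (hf : f ≠ 0) (hg : g ≠ 0) :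
    ord P (f * g) = ord P f + ord P g := by
  unfold ord
  rw [← Ideal.span_singleton_mul_span_singleton]
  exact multiplicity_ideal_mul P (by simpa using hf) (by simpa using hg)

theorem ord_of_isUnit (P : MaximalSpectrum A) {u : A} (hu : IsUnit u) : ord P u = 0 :=
  (ord_eq_zero_iff P).2 (not_mem_of_isUnit P hu)

theorem ord_pow (P : MaximalSpectrum A) {f : A} (hf : f ≠ 0) (n : ℕ) :
    ord P (f ^ n) = n * ord P f := by
  induction n with
  | zero => simpa using ord_of_isUnit P isUnit_one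
  | succ n ih => rw [pow_succ, ord_mul P (pow_ne_zero _ hf) hf, ih]; ring

theorem le_ord_iff (P : MaximalSpectrum A) {f : A} (hf : f ≠ 0) {n : ℕ} :
    n ≤ ord P f ↔ f ∈ P.asIdeal ^ n := by
  unfold ord
  rw [← (finiteMultiplicity_span P (I := Ideal.span {f}) (by simpa using hf)).pow_dvd_iff_le_multiplicity,
    Ideal.dvd_span_singleton]

theorem finite_mem {f : A} (hf : f ≠ 0) : {P : MaximalSpectrum A | f ∈ P.asIdeal}.Finite := by
  have h0 : Ideal.span {f} ≠ 0 := by simpa using hf
  refine Set.Finite.of_finite_image (f := fun P => P.asIdeal) ?_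
    (fun P _ Q _ h => MaximalSpectrum.ext h)
  refine (UniqueFactorizationMonoid.normalizedFactors (Ideal.span {f})).finite_toSet.subset ?_
  rintro _ ⟨P, hP, rfl⟩
  exact (Ideal.mem_normalizedFactors_iff h0).2
    ⟨P.isMaximal.isPrime, (Ideal.span_singleton_le_iff_mem _).2 hP⟩

/-- the finite set of zeros -/
def zs (f : A) : Finset (MaximalSpectrum A) :=
  if hf : f = 0 then ∅ else (finite_mem hf).toFinset

theorem mem_zs {f : A} (hf : f ≠ 0) {P : MaximalSpectrum A} : P ∈ zs f ↔ f ∈ P.asIdeal := by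
  rw [zs, dif_neg hf, Set.Finite.mem_toFinset]; rfl

theorem pair_eq_sum (φ : MaximalSpectrum A → A → ℝ) (f h : A) (s : Finset (MaximalSpectrum A))
    (hs : ∀ P : MaximalSpectrum A, f ∈ P.asIdeal → P ∈ s) :
    pair φ f h = ∑ P ∈ s, (ord P f : ℝ) * φ P h := by
  refine finsum_eq_sum_of_support_subset _ fun P hP => ?_
  refine hs P ((ord_pos_iff P).1 (Nat.pos_of_ne_zero fun h0 => hP ?_))
  simp [h0]

theorem pair_eq_sum_zs (φ : MaximalSpectrum A → A → ℝ) {f : A} (hf : f ≠ 0) (h : A) :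
    pair φ f h = ∑ P ∈ zs f, (ord P f : ℝ) * φ P h :=
  pair_eq_sum φ f h _ fun _ hP => (mem_zs hf).2 hP

theorem pair_congr (φ ψ : MaximalSpectrum A → A → ℝ) (f h h' : A)
    (H : ∀ P : MaximalSpectrum A, f ∈ P.asIdeal → φ P h = ψ P h') : pair φ f h = pair ψ f h' := by
  refine finsum_congr fun P => ?_
  by_cases hP : f ∈ P.asIdeal
  · rw [H P hP]
  · simp [(ord_eq_zero_iff P).2 hP]

theorem pair_eq_zero (φ : MaximalSpectrum A → A → ℝ) (f h : A)
    (H : ∀ P : MaximalSpectrum A, f ∈ P.asIdeal → φ P h = 0) : pair φ f h = 0 := by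
  refine finsum_eq_zero_of_forall_eq_zero fun P => ?_
  by_cases hP : f ∈ P.asIdeal
  · simp [H P hP]
  · simp [(ord_eq_zero_iff P).2 hP]

/-- only one zero matters -/
theorem pair_eq_single (φ : MaximalSpectrum A → A → ℝ) (f h : A) (P : MaximalSpectrum A)
    (H : ∀ Q : MaximalSpectrum A, Q ≠ P → f ∈ Q.asIdeal → φ Q h = 0) :
    pair φ f h = (ord P f : ℝ) * φ P h := by
  refine finsum_eq_single _ P fun Q hQ => ?_
  by_cases hP : f ∈ Q.asIdeal
  · simp [H Q hQ hP]
  · simp [(ord_eq_zero_iff Q).2 hP]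

theorem pair_unit_left (φ : MaximalSpectrum A → A → ℝ) {u : A} (hu : IsUnit u) (h : A) :
    pair φ u h = 0 :=
  pair_eq_zero φ u h fun P hP => absurd hP (not_mem_of_isUnit P hu)

theorem pair_mul_left (φ : MaximalSpectrum A → A → ℝ) {f g : A} (hf : f ≠ 0) (hg : g ≠ 0)
    (h : A) : pair φ (f * g) h = pair φ f h + pair φ g h := by
  have hfg := mul_ne_zero hf hg
  rw [pair_eq_sum_zs φ hfg,
    pair_eq_sum φ f h (zs (f * g)) fun P hP => (mem_zs hfg).2 (Ideal.mul_mem_right _ _ hP),
    pair_eq_sum φ g h (zs (f * g)) fun P hP => (mem_zs hfg).2 (Ideal.mul_mem_left _ _ hP),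
    ← Finset.sum_add_distrib]
  refine Finset.sum_congr rfl fun P _ => ?_
  rw [ord_mul P hf hg]
  push_cast
  ring

theorem pair_pow_left (φ : MaximalSpectrum A → A → ℝ) {f : A} (hf : f ≠ 0) (n : ℕ) (h : A) :
    pair φ (f ^ n) h = n * pair φ f h := by
  induction n with
  | zero => simpa using pair_unit_left φ isUnit_one h
  | succ n ih => rw [pow_succ, pair_mul_left φ (pow_ne_zero _ hf) hf, ih]; push_cast; ring

omit [IsDedekindDomain A] in
theorem pair_associated_left (φ : MaximalSpectrum A → A → ℝ) {f g : A} (hfg : Associated f g)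
    (h : A) : pair φ f h = pair φ g h :=
  finsum_congr fun P => by rw [ord_congr P hfg]

namespace IsFn

variable {φ : MaximalSpectrum A → A → ℝ} (hφ : IsFn φ)
include hφ

theorem pair_mul_right {f h h' : A} (hf : f ≠ 0) (hh : IsCoprime f h) (hh' : IsCoprime f h') :
    pair φ f (h * h') = pair φ f h + pair φ f h' := by
  rw [pair_eq_sum_zs φ hf, pair_eq_sum_zs φ hf, pair_eq_sum_zs φ hf, ← Finset.sum_add_distrib]
  refine Finset.sum_congr rfl fun P hP => ?_
  have hP' := (mem_zs hf).1 hP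
  rw [hφ.mul P _ _ (not_mem_of_isCoprime P hh hP') (not_mem_of_isCoprime P hh' hP'), mul_add]

theorem pair_pow_right {f : A} (hf : f ≠ 0) (h : A) (n : ℕ) :
    pair φ f (h ^ n) = n * pair φ f h := by
  rw [pair_eq_sum_zs φ hf, pair_eq_sum_zs φ hf, Finset.mul_sum]
  refine Finset.sum_congr rfl fun P _ => ?_
  rw [hφ.pow]
  ring

theorem pair_congr_right {f h h' : A} (H : f ∣ h - h') : pair φ f h = pair φ f h' :=
  pair_congr φ φ f h h' fun P hP => hφ.congr P _ _ (Ideal.mem_of_dvd _ H hP)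

theorem pair_neg_right (f h : A) : pair φ f (-h) = pair φ f h :=
  pair_congr φ φ f _ _ fun P _ => hφ.neg P h

theorem pair_one_right (f : A) : pair φ f 1 = 0 := pair_eq_zero φ f 1 fun P _ => hφ.one P

theorem pair_unit_right {f u : A} (hf : f ≠ 0) (hu : IsUnit u) : pair φ f u = 0 := by
  rw [hφ.recip f u hf hu.ne_zero (isCoprime_of_forall fun P _ => not_mem_of_isUnit P hu),
    pair_unit_left φ hu]

theorem pair_mul_unit_right {f h u : A} (hf : f ≠ 0) (hh : IsCoprime f h) (hu : IsUnit u) :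
    pair φ f (u * h) = pair φ f h := by
  rw [hφ.pair_mul_right hf (isCoprime_of_forall fun P _ => not_mem_of_isUnit P hu) hh,
    hφ.pair_unit_right hf hu, zero_add]

end IsFn

end ord

end

end Pool.Agent.P.MP_b8021b_nt.VE
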