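import Pool.Agent.P.MP_b8021b_nt.VE.StB

/-! Shared lemmas for part B: monotonicity, symmetry, positivity, elementary sums. -/

namespace Pool.Agent.P.MP_b8021b_nt.VE

open Polynomial Finset
open scoped Classical

noncomputable section

/-! ### weighted sums over events -/

section gen

variable {α : Type} [Fintype α]

/-- the weight of an event is monotone -/
lemma sum_with_mono {w : α → ℝ} (hw : ∀ a, 0 ≤ w a) {p q : α → Prop} [DecidablePred p]
    [DecidablePred q] (h : ∀ a, w a ≠ 0 → p a → q a) : ∑ a with p a, w a ≤ ∑ a with q a, w a := by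
  rw [sum_filter, sum_filter]
  refine sum_le_sum fun a _ => ?_
  by_cases h0 : w a = 0
  · simp [h0]
  · by_cases hp : p a
    · simp [hp, h a h0 hp]
    · simp only [hp, if_false]; split_ifs; exacts [hw a, le_rfl]

/-- union bound -/
lemma sum_with_or {w : α → ℝ} (hw : ∀ a, 0 ≤ w a) {p q r : α → Prop} [DecidablePred p]
    [DecidablePred q] [DecidablePred r] (h : ∀ a, w a ≠ 0 → p a → q a ∨ r a) :
    ∑ a with p a, w a ≤ ∑ a with q a, w a + ∑ a with r a, w a := by
  rw [sum_filter, sum_filter, sum_filter, ← sum_add_distrib]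
  refine sum_le_sum fun a _ => ?_
  have := hw a
  by_cases h0 : w a = 0
  · simp [h0]
  · by_cases hp : p a
    · rcases h a h0 hp with h1 | h1
      · simp only [hp, h1, if_true]; split_ifs <;> linarith
      · simp only [hp, h1, if_true]; split_ifs <;> linarith
    · simp only [hp, if_false]; split_ifs <;> linarith

/-- union bound over a finite index type -/
lemma sum_with_exists {ι : Type} [Fintype ι] {w : α → ℝ} (hw : ∀ a, 0 ≤ w a) {p : α → Prop}
    [DecidablePred p] {q : ι → α → Prop} [∀ i, DecidablePred (q i)]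
    (h : ∀ a, w a ≠ 0 → p a → ∃ i, q i a) :
    ∑ a with p a, w a ≤ ∑ i, ∑ a with q i a, w a := by
  simp only [sum_filter]
  rw [sum_comm]
  refine sum_le_sum fun a _ => ?_
  have h1 : ∀ i, 0 ≤ if q i a then w a else 0 := fun i => by split_ifs; exacts [hw a, le_rfl]
  by_cases h0 : w a = 0
  · simp [h0]
  · by_cases hp : p a
    · obtain ⟨i, hi⟩ := h a h0 hp
      have := single_le_sum (f := fun i => if q i a then w a else 0) (fun i _ => h1 i) (mem_univ i)
      simpa [hp, hi] using this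
    · simp only [hp, if_false]; exact sum_nonneg fun i _ => h1 i

lemma sum_with_nonneg {w : α → ℝ} (hw : ∀ a, 0 ≤ w a) (p : α → Prop) [DecidablePred p] :
    0 ≤ ∑ a with p a, w a := sum_nonneg fun a _ => hw a

lemma sum_with_le {w : α → ℝ} (hw : ∀ a, 0 ≤ w a) (p : α → Prop) [DecidablePred p] :
    ∑ a with p a, w a ≤ ∑ a, w a :=
  sum_le_sum_of_subset_of_nonneg (filter_subset _ _) fun a _ _ => hw a

lemma sum_with_not (w : α → ℝ) (p : α → Prop) [DecidablePred p] :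
    ∑ a with ¬ p a, w a = ∑ a, w a - ∑ a with p a, w a := by
  rw [← sum_filter_add_sum_filter_not univ p w]; ring

/-- the weight of an event as the mean of its indicator -/
lemma sum_with_eq (w : α → ℝ) (p : α → Prop) [DecidablePred p] :
    ∑ a with p a, w a = ∑ a, w a * if p a then 1 else 0 := by
  rw [sum_filter]; exact sum_congr rfl fun a _ => by split_ifs <;> simp

/-- Markov -/
lemma markov {w f : α → ℝ} (hw : ∀ a, 0 ≤ w a) (hf : ∀ a, 0 ≤ f a) {p : α → Prop} [DecidablePred p]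
    {l : ℝ} (h : ∀ a, w a ≠ 0 → p a → l ≤ f a) : l * ∑ a with p a, w a ≤ ∑ a, w a * f a := by
  rw [sum_filter, mul_sum]
  refine sum_le_sum fun a _ => ?_
  have h1 := mul_nonneg (hw a) (hf a)
  by_cases h0 : w a = 0
  · simp [h0]
  · split_ifs with hp
    · nlinarith [h a h0 hp, hw a]
    · simpa using h1

/-- Chebyshev -/
lemma chebyshev {w : α → ℝ} (hw : ∀ a, 0 ≤ w a) (f : α → ℝ) {l : ℝ} (hl : 0 ≤ l) :
    l ^ 2 * ∑ a with l < |f a|, w a ≤ ∑ a, w a * f a ^ 2 :=
  markov hw (fun a => sq_nonneg (f a)) fun a _ h => by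
    rw [← sq_abs (f a)]; exact pow_le_pow_left₀ hl h.le 2

/-- Cauchy-Schwarz with a weight -/
lemma wcs {w : α → ℝ} (hw : ∀ a, 0 ≤ w a) (f g : α → ℝ) :
    (∑ a, w a * (f a * g a)) ^ 2 ≤ (∑ a, w a * f a ^ 2) * ∑ a, w a * g a ^ 2 := by
  have h := sum_mul_sq_le_sq_mul_sq univ (fun a => √(w a) * f a) fun a => √(w a) * g a
  have e : ∀ (a : α) (x y : ℝ), √(w a) * x * (√(w a) * y) = w a * (x * y) := fun a x y => by
    have := Real.mul_self_sqrt (hw a)
    calc √(w a) * x * (√(w a) * y) = √(w a) * √(w a) * (x * y) := by ring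
      _ = _ := by rw [this]
  simp only [sq (√(w _) * _), e, ← sq] at h
  exact h

/-- a sum over tuples through the pair of the first two coordinates -/
lemma sum_pair {u : ℕ} (π : (Fin (u + 2) → α) → ℝ) (g : α → α → ℝ) :
    ∑ x, π x * g (x 0) (x 1) = ∑ a, ∑ a', (∑ x with x 0 = a ∧ x 1 = a', π x) * g a a' := by
  simp only [sum_filter, sum_mul]
  symm
  calc ∑ a, ∑ a', ∑ x : Fin (u + 2) → α, (if x 0 = a ∧ x 1 = a' then π x else 0) * g a a'
      = ∑ a, ∑ x : Fin (u + 2) → α, ∑ a', (if x 0 = a ∧ x 1 = a' then π x else 0) * g a a' :=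
        sum_congr rfl fun a _ => sum_comm
    _ = ∑ x : Fin (u + 2) → α, ∑ a, ∑ a', (if x 0 = a ∧ x 1 = a' then π x else 0) * g a a' :=
        sum_comm
    _ = _ := by
        refine sum_congr rfl fun x _ => ?_
        rw [sum_eq_single (x 0), sum_eq_single (x 1)] <;> simp +contextual [eq_comm]

/-- reindexing a sum against a symmetric weight -/
lemma sum_perm {n : ℕ} {π : (Fin n → α) → ℝ} (hπ : ∀ x (σ : Equiv.Perm (Fin n)), π (x ∘ σ) = π x)
    (σ : Equiv.Perm (Fin n)) (g : (Fin n → α) → ℝ) : ∑ x, π x * g (x ∘ σ) = ∑ x, π x * g x := by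
  refine Fintype.sum_equiv (Equiv.arrowCongr σ.symm (Equiv.refl α)) _ _ fun x => ?_
  have : (Equiv.arrowCongr σ.symm (Equiv.refl α)) x = x ∘ σ := by
    ext i; simp [Equiv.arrowCongr_apply]
  rw [this, hπ]

lemma exists_perm_two {u : ℕ} {i j : Fin (u + 2)} (h : i ≠ j) :
    ∃ σ : Equiv.Perm (Fin (u + 2)), σ 0 = i ∧ σ 1 = j := by
  refine ⟨(Equiv.swap 0 i) * Equiv.swap 1 (Equiv.swap 0 i j), ?_, ?_⟩
  · have h1 : (0 : Fin (u + 2)) ≠ Equiv.swap 0 i j := by
      intro e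
      apply h
      have := congrArg (Equiv.swap 0 i) e
      simpa using this
    rw [Equiv.Perm.mul_apply, Equiv.swap_apply_of_ne_of_ne zero_ne_one h1]
    simp
  · simp [Equiv.Perm.mul_apply]

/-- two coordinates of a symmetric weight have the law of the first two -/
lemma sum_symm_two {u : ℕ} {π : (Fin (u + 2) → α) → ℝ}
    (hπ : ∀ x (σ : Equiv.Perm (Fin (u + 2))), π (x ∘ σ) = π x) {i j : Fin (u + 2)} (h : i ≠ j)
    (g : α → α → ℝ) : ∑ x, π x * g (x i) (x j) = ∑ x, π x * g (x 0) (x 1) := by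
  obtain ⟨σ, h0, h1⟩ := exists_perm_two h
  rw [← sum_perm hπ σ fun x => g (x 0) (x 1)]
  simp [h0, h1]

/-- a coordinate of a symmetric weight has the law of the first -/
lemma sum_symm_one {u : ℕ} {π : (Fin (u + 2) → α) → ℝ}
    (hπ : ∀ x (σ : Equiv.Perm (Fin (u + 2))), π (x ∘ σ) = π x) (i : Fin (u + 2))
    (g : α → ℝ) : ∑ x, π x * g (x i) = ∑ x, π x * g (x 0) := by
  rw [← sum_perm hπ (Equiv.swap 0 i) fun x => g (x 0)]
  simp

lemma sum_with_symm_one {u : ℕ} {π : (Fin (u + 2) → α) → ℝ}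
    (hπ : ∀ x (σ : Equiv.Perm (Fin (u + 2))), π (x ∘ σ) = π x) (i : Fin (u + 2))
    (E : α → Prop) [DecidablePred E] : ∑ x with E (x i), π x = ∑ x with E (x 0), π x := by
  rw [sum_with_eq, sum_with_eq]
  exact sum_symm_one hπ i fun a => if E a then 1 else 0

lemma sum_with_symm_two {u : ℕ} {π : (Fin (u + 2) → α) → ℝ}
    (hπ : ∀ x (σ : Equiv.Perm (Fin (u + 2))), π (x ∘ σ) = π x) {i j : Fin (u + 2)} (h : i ≠ j)
    (E E' : α → Prop) [DecidablePred E] [DecidablePred E'] :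
    ∑ x with E (x i) ∧ E' (x j), π x = ∑ x with E (x 0) ∧ E' (x 1), π x := by
  rw [sum_with_eq, sum_with_eq]
  exact sum_symm_two hπ h fun a a' => if E a ∧ E' a' then 1 else 0

/-- splitting a sum along the levels -/
lemma sum_lev {N : ℕ} {lev : α → ℕ} (h : ∀ x, lev x < N) (f : α → ℝ) :
    ∑ x, f x = ∑ i ∈ range N, ∑ x with lev x = i, f x :=
  (sum_fiberwise_of_maps_to (fun x _ => mem_range.mpr (h x)) f).symm

end gen

/-- truncation at height `K` -/
def tr (K x : ℝ) : ℝ := max (-K) (min K x)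

lemma abs_tr_le {K : ℝ} (hK : 0 ≤ K) (x : ℝ) : |tr K x| ≤ K := by
  unfold tr; rw [abs_le]; constructor
  · exact le_max_left _ _
  · exact max_le (by linarith) (min_le_left _ _)

lemma tr_of_le {K x : ℝ} (h : |x| ≤ K) : tr K x = x := by
  rw [abs_le] at h; unfold tr; rw [min_eq_right h.2, max_eq_right h.1]

lemma tr_neg {K : ℝ} (hK : 0 ≤ K) (x : ℝ) : tr K (-x) = -tr K x := by
  unfold tr; simp only [max_def, min_def]; split_ifs <;> linarith

lemma abs_tr_sub_le (K x y : ℝ) : |tr K x - tr K y| ≤ |x - y| := by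
  unfold tr; simp only [max_def, min_def]
  rcases abs_cases (x - y) with h | h <;> rw [abs_le] <;> constructor <;> split_ifs <;> linarith

lemma abs_tr_le_abs {K : ℝ} (hK : 0 ≤ K) (x : ℝ) : |tr K x| ≤ |x| := by
  have := abs_tr_sub_le K x 0
  rwa [tr_of_le (x := 0) (by simpa using hK), sub_zero, sub_zero] at this

lemma abs_tr_of_lt {K x : ℝ} (hK : 0 ≤ K) (h : K ≤ |x|) : |tr K x| = K := by
  unfold tr; simp only [max_def, min_def]
  rcases abs_cases x with h' | h' <;> split_ifs <;> rw [abs_eq hK] <;>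
    first | (left; linarith) | (right; linarith)

/-! ### the kernel -/

lemma Hh_nonneg (N u i i' : ℕ) : 0 ≤ Hh N u i i' := by unfold Hh; positivity

lemma Hh_symm (N u i i' : ℕ) : Hh N u i i' = Hh N u i' i := by
  unfold Hh; rw [sub_right_comm]

lemma P1_nonneg (N u i : ℕ) : 0 ≤ P1 N u i := sum_nonneg fun _ _ => Hh_nonneg _ _ _ _

section B

variable {P X Z T S C : Type} [Fintype P] [Fintype X] [Fintype Z] [Fintype T] [Fintype S]
  [Fintype C]

lemma pos_of_Npos {ε : ℝ} {N : ℕ} (h : 1 ≤ ε * N) : 0 < ε ∧ 0 < N := by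
  have h0 : (0 : ℝ) ≤ N := Nat.cast_nonneg N
  constructor
  · by_contra h'; push Not at h'; nlinarith
  · rcases Nat.eq_zero_or_pos N with h' | h'
    · subst h'; norm_num at h
    · exact h'

/-- `N` is large when `ε` is small -/
lemma le_of_Npos {ε : ℝ} {N M : ℕ} (h : 1 ≤ ε * N) (hM : ε * M ≤ 1) : M ≤ N := by
  have := (pos_of_Npos h).1
  have h2 : (M : ℝ) ≤ N := by by_contra h'; push Not at h'; nlinarith
  exact_mod_cast h2

namespace Base.Ok

variable {b : Base P X} {ε ε' : ℝ} (h : b.Ok ε)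
include h

lemma pos : 0 < ε := (pos_of_Npos h.Npos).1
lemma N_pos : 0 < b.N := (pos_of_Npos h.Npos).2
lemma NR_pos : (0 : ℝ) < b.N := by exact_mod_cast h.N_pos
lemma one_le_N : (1 : ℝ) ≤ b.N := by exact_mod_cast h.N_pos
lemma q_pos (a : P) : 0 < b.q a := by
  have h1 := h.q_ge a
  have h2 := h.NR_pos
  have h3 := h.pos
  by_contra h'; push Not at h'; nlinarith
lemma div_le : ε / b.N ≤ ε := div_le_self h.pos.le h.one_le_N
lemma div_pos : 0 < ε / b.N := _root_.div_pos h.pos h.NR_pos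
lemma inv_q_le (a : P) : 1 / b.q a ≤ ε / b.N := by
  rw [div_le_div_iff₀ (h.q_pos a) h.NR_pos]; linarith [h.q_ge a]
lemma inv_N_le : 1 / (b.N : ℝ) ≤ ε := by rw [div_le_iff₀ h.NR_pos]; exact h.Npos

lemma mono (e : ε ≤ ε') : b.Ok ε' where
  Npos := h.Npos.trans (mul_le_mul_of_nonneg_right e h.NR_pos.le)
  lev_lt := h.lev_lt
  v_mem := h.v_mem
  q_ge a := (h.q_ge a).trans (mul_le_mul_of_nonneg_right e (h.q_pos a).le)
  w_nonneg := h.w_nonneg
  w_le a := (h.w_le a).trans (div_le_div_of_nonneg_right e h.NR_pos.le)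
  w_sum := h.w_sum
  card a := (h.card a).trans (div_le_div_of_nonneg_right e h.NR_pos.le)
  ι_ι := h.ι_ι
  pr_ι := h.pr_ι

/-- the total weight of the primes -/
lemma sum_w : ∑ a, b.w a = b.N := by
  rw [sum_lev h.lev_lt, sum_congr rfl fun i hi => h.w_sum i (mem_range.mp hi)]; simp

lemma ι_bij : Function.Bijective b.ι := Function.Involutive.bijective h.ι_ι

/-- reindexing by the involution -/
lemma sum_ι (f : X → ℝ) : ∑ x, f (b.ι x) = ∑ x, f x := h.ι_bij.sum_comp f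

omit h in
/-- a sum over points of a function of the prime -/
lemma sum_pr (f : P → ℝ) :
    ∑ x, f (b.pr x) = ∑ a, ((univ.filter fun x => b.pr x = a).card : ℝ) * f a := by
  rw [← sum_fiberwise univ b.pr]
  refine sum_congr rfl fun a _ => ?_
  rw [sum_congr rfl fun x hx => by rw [(mem_filter.mp hx).2]]
  simp

/-- the mean of a function of the prime over the points -/
lemma abs_sum_pr (f : P → ℝ) :
    |∑ x, f (b.pr x) / b.q (b.pr x) - ∑ a, f a| ≤ ε / b.N * ∑ a, |f a| := by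
  rw [sum_pr (b := b) fun a => f a / b.q a, ← sum_sub_distrib, mul_sum]
  refine (abs_sum_le_sum_abs _ _).trans (sum_le_sum fun a _ => ?_)
  have : ((univ.filter fun x => b.pr x = a).card : ℝ) * (f a / b.q a) - f a =
      (((univ.filter fun x => b.pr x = a).card : ℝ) / b.q a - 1) * f a := by ring
  rw [this, abs_mul]
  exact mul_le_mul_of_nonneg_right (h.card a) (abs_nonneg _)

/-- mass of the points of one level -/
lemma lev_mass {i : ℕ} (hi : i < b.N) :
    |∑ x with b.lev (b.pr x) = i, b.w (b.pr x) / b.q (b.pr x) - 1| ≤ ε / b.N := by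
  have h1 := h.abs_sum_pr fun a => if b.lev a = i then b.w a else 0
  have h2 : ∑ a, (if b.lev a = i then b.w a else 0) = 1 := by rw [← sum_filter, h.w_sum i hi]
  have h3 : ∑ a, |if b.lev a = i then b.w a else 0| = 1 := by
    rw [← h2]; refine sum_congr rfl fun a _ => abs_of_nonneg ?_
    split_ifs; exacts [h.w_nonneg a, le_rfl]
  rw [h2, h3, mul_one] at h1
  rw [sum_filter]
  simpa only [ite_div, zero_div] using h1

/-- mass of all points -/
lemma mass : |∑ x, b.w (b.pr x) / (b.q (b.pr x) * b.N) - 1| ≤ ε / b.N := by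
  have h1 := h.abs_sum_pr b.w
  rw [sum_congr rfl fun a _ => abs_of_nonneg (h.w_nonneg a), h.sum_w] at h1
  have hN := h.NR_pos
  have : ∑ x, b.w (b.pr x) / (b.q (b.pr x) * b.N) - 1 =
      (∑ x, b.w (b.pr x) / b.q (b.pr x) - b.N) / b.N := by
    rw [sub_div, div_self hN.ne', sum_div]; simp only [div_div]
  rw [this, abs_div, abs_of_pos hN, div_le_iff₀ hN]
  exact h1

/-- mass of the points over one prime -/
lemma fib_mass (a : P) : ∑ x with b.pr x = a, b.w (b.pr x) / b.q (b.pr x) ≤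
    (1 + ε / b.N) * (ε / b.N) := by
  rw [sum_congr rfl fun x hx => by rw [(mem_filter.mp hx).2], sum_const, nsmul_eq_mul]
  have h1 := (abs_le.mp (h.card a)).2
  have h2 := h.w_le a
  have h3 := h.w_nonneg a
  have h4 := h.div_pos
  calc _ = ((univ.filter fun x => b.pr x = a).card : ℝ) / b.q a * b.w a := by ring
    _ ≤ _ := mul_le_mul (by linarith) h2 h3 (by linarith)

lemma om_nonneg (u : ℕ) (x x' : X) : 0 ≤ b.om u x x' := by
  unfold Base.om
  have := h.w_nonneg (b.pr x)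
  have := h.w_nonneg (b.pr x')
  have := h.q_pos (b.pr x)
  have := h.q_pos (b.pr x')
  have := Hh_nonneg b.N u (b.lev (b.pr x)) (b.lev (b.pr x'))
  split_ifs <;> positivity

lemma om_ι_left (u : ℕ) (x x' : X) : b.om u (b.ι x) x' = b.om u x x' := by
  unfold Base.om; rw [h.pr_ι]

lemma om_ι_right (u : ℕ) (x x' : X) : b.om u x (b.ι x') = b.om u x x' := by
  unfold Base.om; rw [h.pr_ι]

end Base.Ok

omit [Fintype P] [Fintype X] in
lemma Base.om_symm (b : Base P X) (u : ℕ) (x x' : X) : b.om u x x' = b.om u x' x := by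
  unfold Base.om
  by_cases h : b.pr x = b.pr x'
  · simp [h]
  · rw [if_pos h, if_pos (Ne.symm h), Hh_symm]; ring

omit [Fintype P] [Fintype X] in
lemma Base.om_of_eq (b : Base P X) (u : ℕ) {x x' : X} (h : b.pr x = b.pr x') :
    b.om u x x' = 0 := by simp [Base.om, h]

namespace Side

variable (σ : Side X Z) (b : Base P X)

omit [Fintype P] [Fintype X] [Fintype Z] in
lemma c2_symm (x x' : X) (z : Z) : σ.c2 b x x' z = σ.c2 b x' x z := by
  unfold c2; simp only [and_comm, mul_comm]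

omit [Fintype P] in
lemma sum_c1 (x : X) : ∑ z, σ.c1 b x z = σ.prob {x} * b.q (b.pr x) := by
  unfold c1 prob; rw [sum_mul, sum_filter]; simp

omit [Fintype P] in
lemma sum_c2 (x x' : X) : ∑ z, σ.c2 b x x' z = σ.prob {x, x'} * (b.q (b.pr x) * b.q (b.pr x')) := by
  unfold c2 prob; rw [sum_mul, sum_filter]; simp

omit [Fintype P] [Fintype X] [Fintype Z] in
lemma c2_eq (x x' : X) (z : Z) :
    σ.c2 b x x' z = σ.c1 b x z * (if σ.on x' z then b.q (b.pr x') else 0) := by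
  unfold c2 c1; by_cases h : σ.on x z <;> by_cases h' : σ.on x' z <;> simp [h, h', mul_assoc]

omit [Fintype P] [Fintype X] [Fintype Z] in
lemma flag_eq {x : X} (hq : b.q (b.pr x) ≠ 0) (z : Z) :
    σ.flag b x z = b.w (b.pr x) / (b.q (b.pr x) * b.N) * σ.c1 b x z := by
  unfold flag m c1; split_ifs
  · field_simp
  · simp

omit [Fintype P] [Fintype X] [Fintype Z] in
lemma wt_mul_m {x : X} (hq : b.q (b.pr x) ≠ 0) (z : Z) :
    σ.wt z * σ.m b z x = b.w (b.pr x) / b.q (b.pr x) * σ.c1 b x z := by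
  unfold m c1; split_ifs
  · field_simp
  · simp

omit [Fintype P] [Fintype X] [Fintype Z] in
lemma on_of_m {z : Z} {x : X} (h : σ.m b z x ≠ 0) : σ.on x z := by
  by_contra h'; simp [m, h'] at h

omit [Fintype P] [Fintype X] [Fintype Z] in
lemma on_of_flag {z : Z} {x : X} (h : σ.flag b x z ≠ 0) : σ.on x z := by
  by_contra h'; simp [flag, m, h'] at h

variable {σ b} {ε ε' : ℝ}

omit [Fintype Z] in
lemma m_nonneg (h : b.Ok ε) (z : Z) (x : X) : 0 ≤ σ.m b z x := by
  unfold m; split_ifs; exacts [h.w_nonneg _, le_rfl]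

omit [Fintype P] in
lemma Ok.mono (h : σ.Ok b ε) (e : ε ≤ ε') : σ.Ok b ε' where
  nonneg := h.nonneg
  sum := h.sum
  ind Y h1 h2 := (h.ind Y h1 h2).trans (div_le_div_of_nonneg_right e (Nat.cast_nonneg _))
  same0 := h.same0
  same1 := h.same1

omit [Fintype P] in
lemma CellInd.mono {cell : Z → C} (h : σ.CellInd b cell ε) (e : ε ≤ ε') : σ.CellInd b cell ε' :=
  fun Y h1 h2 c => (h Y h1 h2 c).trans (div_le_div_of_nonneg_right e (Nat.cast_nonneg _))

omit [Fintype P] in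
lemma Ok.prob_nonneg (h : σ.Ok b ε) (Y : Finset X) : 0 ≤ σ.prob Y :=
  sum_nonneg fun z _ => h.nonneg z

lemma Ok.c1_nonneg (h : σ.Ok b ε) (hb : b.Ok ε') (x : X) (z : Z) : 0 ≤ σ.c1 b x z := by
  unfold c1; split_ifs; exacts [mul_nonneg (h.nonneg z) (hb.q_pos _).le, le_rfl]

lemma Ok.c2_nonneg (h : σ.Ok b ε) (hb : b.Ok ε') (x x' : X) (z : Z) : 0 ≤ σ.c2 b x x' z := by
  unfold c2; split_ifs
  exacts [mul_nonneg (h.nonneg z) (mul_pos (hb.q_pos _) (hb.q_pos _)).le, le_rfl]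

lemma Ok.flag_nonneg (h : σ.Ok b ε) (hb : b.Ok ε') (x : X) (z : Z) : 0 ≤ σ.flag b x z :=
  div_nonneg (mul_nonneg (h.nonneg z) (m_nonneg hb z x)) (Nat.cast_nonneg _)

omit [Fintype P] in
lemma Ok.sum_c1 (h : σ.Ok b ε) (x : X) : |∑ z, σ.c1 b x z - 1| ≤ ε / b.N := by
  have := h.ind {x} (by simp) (by simp)
  rw [Side.sum_c1]; simpa using this

omit [Fintype P] in
lemma Ok.sum_c2 (h : σ.Ok b ε) {x x' : X} (hx : b.pr x ≠ b.pr x') :
    |∑ z, σ.c2 b x x' z - 1| ≤ ε / b.N := by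
  have hne : x ≠ x' := fun e => hx (by rw [e])
  have := h.ind {x, x'} (card_le_two.trans (by norm_num)) (by
    intro a ha a' ha' e
    simp only [coe_insert, coe_singleton, Set.mem_insert_iff, Set.mem_singleton_iff] at ha ha'
    rcases ha with rfl | rfl <;> rcases ha' with rfl | rfl <;> simp_all)
  rw [Side.sum_c2]; rwa [prod_pair hne] at this

/-- total mass of the flags -/
lemma Ok.flag_mass (h : σ.Ok b ε) (hb : b.Ok ε) (e : ε ≤ 1) :
    |∑ z, ∑ x, σ.flag b x z - 1| ≤ 3 * (ε / b.N) := by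
  rw [sum_comm]
  have h1 := hb.mass
  have h0 := hb.div_pos
  have h0' : ε / b.N ≤ 1 := hb.div_le.trans e
  have h2 : ∀ x, 0 ≤ b.w (b.pr x) / (b.q (b.pr x) * b.N) := fun x =>
    div_nonneg (hb.w_nonneg _) (mul_pos (hb.q_pos _) hb.NR_pos).le
  have h3 : |∑ x, ∑ z, σ.flag b x z - ∑ x, b.w (b.pr x) / (b.q (b.pr x) * b.N)| ≤
      (∑ x, b.w (b.pr x) / (b.q (b.pr x) * b.N)) * (ε / b.N) := by
    rw [← sum_sub_distrib, sum_mul]
    refine (abs_sum_le_sum_abs _ _).trans (sum_le_sum fun x _ => ?_)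
    simp only [σ.flag_eq b (hb.q_pos _).ne']
    rw [← mul_sum, ← mul_sub_one, abs_mul, abs_of_nonneg (h2 x)]
    exact mul_le_mul_of_nonneg_left (h.sum_c1 x) (h2 x)
  rw [abs_le] at h1 h3 ⊢
  constructor <;> nlinarith [h1.1, h1.2, h3.1, h3.2]

end Side

omit [Fintype P] in
lemma Box.Ok.mono {Nc : ℕ} {β : Box T Nc} {σ : Side X T} {b : Base P X} {ε ε' : ℝ}
    (h : β.Ok σ b ε) (e : ε ≤ ε') : β.Ok σ b ε' := ⟨h.mem, h.cell.mono e, h.inv⟩

lemma Box.Ok.on_ι {Nc : ℕ} {β : Box T Nc} {σ : Side X T} {b : Base P X} {ε ε' : ℝ}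
    (h : β.Ok σ b ε) (hb : b.Ok ε') (x : X) (t : T) : σ.on (b.ι x) t ↔ σ.on x t :=
  ⟨fun h' => by simpa [hb.ι_ι] using h.inv _ _ h', h.inv x t⟩

omit [Fintype T] in
lemma Box.Mem.τ_mem {Nc : ℕ} {β : Box T Nc} (h : β.Mem) (t : T) :
    β.τ t ∈ Set.Icc β.τ0 (β.τ0 + β.η) := by
  have h1 := h.τ_ge t
  have h2 := h.τ_le t
  have h3 := h.ηpos
  have h4 : ((β.cell t).1.1 : ℝ) + 1 ≤ Nc := by exact_mod_cast (β.cell t).1.2
  have h5 : (0 : ℝ) ≤ (β.cell t).1.1 := Nat.cast_nonneg _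
  have h6 : (0 : ℝ) < Nc := by linarith
  have h7 : (((β.cell t).1.1 : ℝ) + 1) * β.η / Nc ≤ β.η := by
    rw [div_le_iff₀ h6]; nlinarith
  have h8 : 0 ≤ ((β.cell t).1.1 : ℝ) * β.η / Nc := by positivity
  constructor <;> linarith

omit [Fintype T] in
lemma Box.Mem.b_mem {Nc : ℕ} {β : Box T Nc} (h : β.Mem) (t : T) :
    β.B ≤ β.b t ∧ β.b t ≤ β.B * (1 + β.η) := by
  have h1 := h.b_ge t
  have h2 := h.b_le t
  have h3 := h.ηpos
  have h4 : ((β.cell t).2.1 : ℝ) + 1 ≤ Nc := by exact_mod_cast (β.cell t).2.2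
  have h5 : (0 : ℝ) ≤ (β.cell t).2.1 := Nat.cast_nonneg _
  have h6 : (0 : ℝ) < Nc := by linarith
  have h7 : (((β.cell t).2.1 : ℝ) + 1) * β.η / Nc ≤ β.η := by
    rw [div_le_iff₀ h6]; nlinarith
  have h8 : 0 ≤ ((β.cell t).2.1 : ℝ) * β.η / Nc := by positivity
  have h9 := h.Bpos
  constructor <;> nlinarith

section des

variable {b : Base P X} {σT : Side X T} {σS : Side X S} {u : ℕ}
  {μ : T → S → (Fin (u + 2) → X) → ℝ} {ε ε' : ℝ}

omit [Fintype P] [Fintype X] [Fintype T] [Fintype S] in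
lemma nu_swap (b : Base P X) (σT : Side X T) (σS : Side X S) (u : ℕ) (t : T) (s : S) (x x' : X) :
    nu b σS σT u s t x x' = nu b σT σS u t s x x' := by unfold nu; ring

omit [Fintype P] [Fintype X] [Fintype T] [Fintype S] in
lemma Tup.swap (h : Tup b σT σS u μ) : Tup b σS σT u fun s t x => μ t s x where
  nonneg s t x := h.nonneg t s x
  symm s t x σ := h.symm t s x σ
  supp s t x h' := ⟨fun i => ((h.supp t s x h').1 i).symm, (h.supp t s x h').2⟩

omit [Fintype P] in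
lemma Mix.swap (h : Mix b σT σS u μ ε) : Mix b σS σT u (fun s t x => μ t s x) ε where
  tup := h.tup.swap
  cut φ ψ h1 h2 := by
    have := h.cut ψ φ h2 h1
    rw [sum_comm, sum_comm (f := fun t s => ∑ x, ∑ x', nu b σT σS u t s x x' *
      (ψ t x x' * φ s x x'))] at this
    simpa only [nu_swap b σT σS, mul_comm (φ _ _ _)] using this

omit [Fintype P] in
lemma Mix.mono (h : Mix b σT σS u μ ε) (e : ε ≤ ε') : Mix b σT σS u μ ε' :=
  ⟨h.tup, fun φ ψ h1 h2 => (h.cut φ ψ h1 h2).trans e⟩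

lemma Des.swap (h : Des b σT σS u μ ε) : Des b σS σT u (fun s t x => μ t s x) ε :=
  ⟨h.base, h.sS, h.sT, h.mix.swap⟩

lemma Des.mono (h : Des b σT σS u μ ε) (e : ε ≤ ε') : Des b σT σS u μ ε' :=
  ⟨h.base.mono e, h.sT.mono e, h.sS.mono e, h.mix.mono e⟩

lemma Des.pos (h : Des b σT σS u μ ε) : 0 < ε := h.base.pos

lemma nu_nonneg (hb : b.Ok ε) (hT : σT.Ok b ε) (hS : σS.Ok b ε) (t : T) (s : S) (x x' : X) :
    0 ≤ nu b σT σS u t s x x' :=
  mul_nonneg (mul_nonneg (hb.om_nonneg _ _ _) (hT.c2_nonneg hb _ _ _)) (hS.c2_nonneg hb _ _ _)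

omit [Fintype P] in
/-- the ideal side of the cut norm in product form -/
lemma sum_nu (b : Base P X) (σT : Side X T) (σS : Side X S) (u : ℕ) (φ : T → X → X → ℝ)
    (ψ : S → X → X → ℝ) :
    ∑ t, ∑ s, ∑ x, ∑ x', nu b σT σS u t s x x' * (φ t x x' * ψ s x x') =
      ∑ x, ∑ x', b.om u x x' * ((∑ t, σT.c2 b x x' t * φ t x x') *
        ∑ s, σS.c2 b x x' s * ψ s x x') := by
  symm
  calc _ = ∑ x, ∑ x', ∑ t, ∑ s, nu b σT σS u t s x x' * (φ t x x' * ψ s x x') := by
        refine sum_congr rfl fun x _ => sum_congr rfl fun x' _ => ?_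
        rw [sum_mul_sum, mul_sum]
        refine sum_congr rfl fun t _ => ?_
        rw [mul_sum]
        exact sum_congr rfl fun s _ => by unfold nu; ring
    _ = ∑ x, ∑ t, ∑ s, ∑ x', nu b σT σS u t s x x' * (φ t x x' * ψ s x x') :=
        sum_congr rfl fun x _ => sum_comm.trans (sum_congr rfl fun t _ => sum_comm)
    _ = _ := sum_comm.trans (sum_congr rfl fun t _ => sum_comm)

omit [Fintype P] in
/-- the trivial cell structure is independent -/
lemma Side.Ok.cellInd_unit {σ : Side X Z} (h : σ.Ok b ε) : σ.CellInd b (fun _ => ()) ε := by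
  intro Y h1 h2 c
  have := h.ind Y (h1.trans (by norm_num)) h2
  simpa [Side.prob] using this

end des

section loc

variable {N u : ℕ} {lev : X → ℕ} {m : X → ℝ} {π : Z → (Fin (u + 2) → X) → ℝ} {cell : Z → C}
  {ε ε' : ℝ}

lemma Loc.pos (h : Loc N u lev m π cell ε) : 0 < ε := (pos_of_Npos h.Npos).1

lemma Loc.N_pos (h : Loc N u lev m π cell ε) : 0 < N := (pos_of_Npos h.Npos).2

lemma Loc.NR_pos (h : Loc N u lev m π cell ε) : (0 : ℝ) < N := by exact_mod_cast h.N_pos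

lemma Loc.mono (h : Loc N u lev m π cell ε) (e : ε ≤ ε') : Loc N u lev m π cell ε' where
  Npos := h.Npos.trans (mul_le_mul_of_nonneg_right e (Nat.cast_nonneg _))
  lev_lt := h.lev_lt
  m_nonneg := h.m_nonneg
  m_sum i hi := (h.m_sum i hi).trans e
  nonneg := h.nonneg
  symm := h.symm
  tv := h.tv.trans e

/-- total mass of the points -/
lemma Loc.mass (h : Loc N u lev m π cell ε) : |(∑ x, m x) / N - 1| ≤ ε := by
  have hN := h.NR_pos
  have : (∑ x, m x) / N - 1 = (∑ i ∈ range N, (∑ x with lev x = i, m x - 1)) / N := by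
    rw [sum_sub_distrib, ← sum_lev h.lev_lt]; simp; field_simp
  rw [this, abs_div, abs_of_pos hN, div_le_iff₀ hN]
  refine (abs_sum_le_sum_abs _ _).trans ?_
  refine (sum_le_sum fun i hi => h.m_sum i (mem_range.mp hi)).trans ?_
  simp [mul_comm]

/-- bounded test functions of the cell and two coordinates -/
lemma Loc.test (h : Loc N u lev m π cell ε) {i j : Fin (u + 2)} (hij : i ≠ j) (g : C → X → X → ℝ)
    {K : ℝ} (hK : 0 ≤ K) (hg : ∀ c a a', |g c a a'| ≤ K) :
    |∑ z, ∑ x, π z x * g (cell z) (x i) (x j) -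
      (∑ c, ∑ a, ∑ a', m a * m a' * Hh N u (lev a) (lev a') * g c a a') / Fintype.card C| ≤
      K * ε := by
  have e1 : ∑ z, ∑ x, π z x * g (cell z) (x i) (x j) =
      ∑ c, ∑ a, ∑ a', (∑ z with cell z = c, ∑ x with x 0 = a ∧ x 1 = a', π z x) * g c a a' := by
    rw [← sum_fiberwise univ cell]
    refine sum_congr rfl fun c _ => ?_
    rw [sum_congr rfl fun z hz => by
      rw [sum_symm_two (h.symm z) hij (g (cell z)), sum_pair, (mem_filter.mp hz).2], sum_comm]
    refine sum_congr rfl fun a _ => ?_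
    rw [sum_comm]
    exact sum_congr rfl fun a' _ => (sum_mul _ _ _).symm
  rw [e1]
  simp only [sum_div, ← sum_sub_distrib]
  refine le_trans ?_ (mul_le_mul_of_nonneg_left h.tv hK)
  simp only [mul_sum]
  refine (abs_sum_le_sum_abs _ _).trans (sum_le_sum fun c _ => ?_)
  refine (abs_sum_le_sum_abs _ _).trans (sum_le_sum fun a _ => ?_)
  refine (abs_sum_le_sum_abs _ _).trans (sum_le_sum fun a' _ => ?_)
  rw [mul_div_right_comm, ← sub_mul, abs_mul, mul_comm]
  exact mul_le_mul_of_nonneg_right (hg c a a') (abs_nonneg _)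

omit [Fintype Z] [Fintype C] in
lemma abs_levMean_le (hm : ∀ x, 0 ≤ m x) {ψ : X → ℝ} {K : ℝ} (hK : 0 ≤ K) (hψ : ∀ x, |ψ x| ≤ K)
    (lev : X → ℕ) (i : ℕ) : |levMean lev m ψ i| ≤ K := by
  unfold levMean
  have h0 : 0 ≤ ∑ x with lev x = i, m x := sum_nonneg fun x _ => hm x
  rw [abs_div, abs_of_nonneg h0]
  refine div_le_of_le_mul₀ h0 hK ((abs_sum_le_sum_abs _ _).trans ?_)
  rw [mul_sum]
  refine sum_le_sum fun x _ => ?_
  rw [abs_mul, abs_of_nonneg (hm x), mul_comm]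
  exact mul_le_mul_of_nonneg_right (hψ x) (hm x)

end loc

end B

namespace Sys

variable {P X T S : Type} [Fintype P] [Fintype X] [Fintype T] [Fintype S] {Nc u d : ℕ}
  {G : Sys P X T S Nc u} {ε ε' : ℝ}

lemma Ok.mono (h : G.Ok d ε) (e : ε ≤ ε') : G.Ok d ε' :=
  { h with des := h.des.mono e, box := h.box.mono e }

lemma Ok.flagT_nonneg (h : G.Ok d ε) (x : X) (t : T) : 0 ≤ G.σT.flag G.b x t :=
  h.des.sT.flag_nonneg h.des.base x t

lemma Ok.flagS_nonneg (h : G.Ok d ε) (x : X) (s : S) : 0 ≤ G.σS.flag G.b x s :=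
  h.des.sS.flag_nonneg h.des.base x s

lemma Ok.τ_mem (h : G.Ok d ε) (t : T) : G.box.τ t ∈ G.I := h.box.mem.τ_mem t

lemma PT.mono (hG : G.Ok d ε) {a : X → ℝ} {lam h lam' h' : ℝ} (H : G.PT a lam h) (e : lam ≤ lam')
    (e' : h ≤ h') : G.PT a lam' h' :=
  ⟨H.1, le_trans (sum_le_sum fun t _ => sum_with_mono (fun x => hG.flagT_nonneg x t)
    fun _ _ hx => e.trans_lt hx) (H.2.trans e')⟩

lemma PT.nonneg (hG : G.Ok d ε) {a : X → ℝ} {lam h : ℝ} (H : G.PT a lam h) : 0 ≤ h :=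
  le_trans (sum_nonneg fun t _ => sum_nonneg fun x _ => hG.flagT_nonneg x t) H.2

lemma RS.mono (hG : G.Ok d ε) {a : X → ℝ} {lam h δ lam' h' δ' : ℝ} (H : G.RS d a lam h δ)
    (e : lam ≤ lam') (e' : h ≤ h') (e'' : δ ≤ δ') : G.RS d a lam' h' δ' := by
  obtain ⟨Gd, h1, h2⟩ := H
  refine ⟨Gd, h1.trans e'', fun s hs => ?_⟩
  obtain ⟨φ₀, κ, h3, h4⟩ := h2 s hs
  refine ⟨φ₀, κ, le_trans (div_le_div_of_nonneg_right (sum_with_mono
    (fun x => Side.m_nonneg hG.des.base s x) fun _ _ hx => e.trans_lt hx) (Nat.cast_nonneg _))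
    (h3.trans e'), fun t => (h4 t).trans e⟩

end Sys

end

end Pool.Agent.P.MP_b8021b_nt.VE
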