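import Pool.Agent.P.MP_b8021b_nt.VE.StB

/-! B5: the approximate functional equation. -/

namespace Pool.Agent.P.MP_b8021b_nt.VE

open Finset

namespace FeP

/-- the sum of `(∑ φ + A) ^ 2` over tuples of length `r` with sum `m` -/
noncomputable def T (N : ℕ) (φ : ℕ → ℝ) : ℕ → ℤ → ℝ → ℝ
  | 0, m, A => cnt 0 N m * A ^ 2
  | r + 1, m, A => ∑ i ∈ range N, T N φ r (m - i) (A + φ i)

theorem T_nonneg (N : ℕ) (φ : ℕ → ℝ) : ∀ (r : ℕ) (m : ℤ) (A : ℝ), 0 ≤ T N φ r m A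
  | 0, m, A => by unfold T; positivity
  | r + 1, m, A => by unfold T; exact sum_nonneg fun i _ => T_nonneg N φ r _ _

theorem T_eq {N : ℕ} (φ : ℕ → ℝ)
    (hc : ∀ (r : ℕ) (m : ℤ), (cnt (r + 1) N m : ℝ) = ∑ i ∈ range N, (cnt r N (m - i) : ℝ)) :
    ∀ (r : ℕ) (m : ℤ) (A : ℝ), T N φ (r + 2) m A =
      (r + 2) * ∑ i ∈ range N, (cnt (r + 1) N (m - i) : ℝ) * φ i ^ 2 +
      (r + 2) * (r + 1) * ∑ i ∈ range N, ∑ j ∈ range N, (cnt r N (m - i - j) : ℝ) * (φ i * φ j) +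
      2 * (r + 2) * A * ∑ i ∈ range N, (cnt (r + 1) N (m - i) : ℝ) * φ i +
      A ^ 2 * cnt (r + 2) N m := by
  have sw : ∀ (r : ℕ) (m : ℤ) (g : ℕ → ℝ),
      ∑ j ∈ range N, ∑ i ∈ range N, (cnt r N (m - j - i) : ℝ) * g i =
        ∑ i ∈ range N, (cnt (r + 1) N (m - i) : ℝ) * g i := by
    intro r m g
    rw [sum_comm]
    refine sum_congr rfl fun i _ => ?_
    rw [hc, sum_mul]
    refine sum_congr rfl fun j _ => ?_
    rw [sub_right_comm]
  have sw' : ∀ (r : ℕ) (m : ℤ) (g : ℕ → ℝ),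
      ∑ j ∈ range N, ∑ i ∈ range N, (cnt r N (m - j - i) : ℝ) * g j =
        ∑ i ∈ range N, (cnt (r + 1) N (m - i) : ℝ) * g i := by
    intro r m g
    refine sum_congr rfl fun i _ => ?_
    rw [hc, sum_mul]
  intro r
  induction r with
  | zero =>
    intro m A
    have e : T N φ (0 + 2) m A = ∑ j ∈ range N, ∑ i ∈ range N,
        ((cnt 0 N (m - j - i) : ℝ) * φ i ^ 2 + (cnt 0 N (m - j - i) : ℝ) * φ j ^ 2 +
          2 * ((cnt 0 N (m - j - i) : ℝ) * (φ j * φ i)) +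
          2 * A * ((cnt 0 N (m - j - i) : ℝ) * φ i) + 2 * A * ((cnt 0 N (m - j - i) : ℝ) * φ j) +
          A ^ 2 * ((cnt 0 N (m - j - i) : ℝ) * 1)) := by
      simp only [T]
      exact sum_congr rfl fun j _ => sum_congr rfl fun i _ => by ring
    rw [e]
    simp only [sum_add_distrib, ← mul_sum]
    rw [sw 0 m (fun i => φ i ^ 2), sw' 0 m (fun i => φ i ^ 2), sw 0 m φ, sw' 0 m φ,
      sw 0 m (fun _ => 1), hc (0 + 1) m]
    simp only [mul_one]
    push_cast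
    ring
  | succ r ih =>
    intro m A
    have e : T N φ (r + 1 + 2) m A = ∑ j ∈ range N, T N φ (r + 2) (m - j) (A + φ j) := by
      rw [show r + 1 + 2 = (r + 2) + 1 from rfl, T]
    have e2 : ∀ j ∈ range N, T N φ (r + 2) (m - j) (A + φ j) =
        (r + 2) * ∑ i ∈ range N, (cnt (r + 1) N (m - j - i) : ℝ) * φ i ^ 2 +
        (r + 2) * (r + 1) * ∑ i ∈ range N, ∑ l ∈ range N,
          (cnt r N (m - i - j - l) : ℝ) * (φ i * φ l) +
        2 * (r + 2) * A * ∑ i ∈ range N, (cnt (r + 1) N (m - j - i) : ℝ) * φ i +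
        2 * (r + 2) * ∑ i ∈ range N, (cnt (r + 1) N (m - j - i) : ℝ) * (φ j * φ i) +
        A ^ 2 * (cnt (r + 2) N (m - j) : ℝ) + 2 * A * ((cnt (r + 2) N (m - j) : ℝ) * φ j) +
        (cnt (r + 2) N (m - j) : ℝ) * φ j ^ 2 := by
      intro j _
      rw [ih]
      have : ∑ i ∈ range N, (cnt (r + 1) N (m - j - i) : ℝ) * (φ j * φ i) =
          φ j * ∑ i ∈ range N, (cnt (r + 1) N (m - j - i) : ℝ) * φ i := by
        rw [mul_sum]; exact sum_congr rfl fun i _ => by ring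
      rw [this]
      simp only [sub_right_comm m (j : ℤ)]
      ring
    have e3 : ∑ j ∈ range N, ∑ i ∈ range N, ∑ l ∈ range N,
          (cnt r N (m - i - j - l) : ℝ) * (φ i * φ l) =
        ∑ i ∈ range N, ∑ l ∈ range N, (cnt (r + 1) N (m - i - l) : ℝ) * (φ i * φ l) := by
      rw [sum_comm]
      exact sum_congr rfl fun i _ => sw r (m - i) fun l => φ i * φ l
    rw [e, sum_congr rfl e2]
    simp only [sum_add_distrib, ← mul_sum]
    rw [e3, sw (r + 1) m (fun i => φ i ^ 2), sw (r + 1) m φ, hc (r + 2) m]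
    push_cast
    ring

theorem shift {f : ℕ → ℝ} (hf : ∀ a, 0 ≤ f a) {n h N : ℕ} (hn : n + h ≤ N) :
    ∑ a ∈ range n, f (a + h) ≤ ∑ a ∈ range N, f a := by
  have h1 : ∑ a ∈ range (h + n), f a ≤ ∑ a ∈ range N, f a :=
    sum_le_sum_of_subset_of_nonneg (range_mono (by omega)) fun a _ _ => hf a
  rw [sum_range_add] at h1
  have h2 : 0 ≤ ∑ a ∈ range h, f a := sum_nonneg fun a _ => hf a
  simp only [add_comm h] at h1
  linarith

theorem pig {F : ℕ → ℝ} {n : ℕ} (hn : 0 < n) {B : ℝ} (h : ∑ b ∈ range n, F b ≤ n * B) :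
    ∃ b < n, F b ≤ B := by
  obtain ⟨b, hb, hB⟩ := exists_le_of_sum_le (s := range n) (f := F) (g := fun _ => B)
    ⟨0, mem_range.2 hn⟩ (by simpa using h)
  exact ⟨b, mem_range.1 hb, hB⟩

theorem dbl {g : ℕ → ℕ → ℝ} (hg : ∀ a b, 0 ≤ g a b) (hs : ∀ a b, g a b = g b a) (N : ℕ) :
    ∑ j ∈ range N, ∑ i ∈ range N, g i j ≤
      2 * ∑ h ∈ range N, ∑ a ∈ range (N - h), g (a + h) a := by
  have e : ∑ h ∈ range N, ∑ a ∈ range (N - h), g (a + h) a =
      ∑ i ∈ range N, ∑ j ∈ range (i + 1), g i j := by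
    rw [← sum_range_diag_flip N fun h a => g (a + h) a]
    refine sum_congr rfl fun i _ => ?_
    rw [← sum_flip (fun j => g i j)]
    refine sum_congr rfl fun h hh => ?_
    rw [Nat.sub_add_cancel (by simpa [Nat.lt_succ_iff] using hh)]
  rw [e]
  clear e
  induction N with
  | zero => simp
  | succ N ih =>
    rw [sum_range_succ, sum_range_succ (fun i => ∑ j ∈ range (i + 1), g i j)]
    simp only [sum_range_succ (n := N), sum_add_distrib]
    have : ∑ i ∈ range N, g i N = ∑ i ∈ range N, g N i := sum_congr rfl fun i _ => hs _ _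
    have h0 := hg N N
    linarith

theorem core {N : ℕ} (hN : 2 ≤ N) (φ G : ℕ → ℝ) {s K : ℝ} (hs : 0 ≤ s)
    (hE : ∑ a ∈ range N, ∑ b ∈ range N, (φ a + φ b - G (a + b)) ^ 2 ≤ (N : ℝ) ^ 2 * s ^ 2)
    (hK : ∀ i < N, |φ i| ≤ K) :
    ∃ φ₁ κ : ℝ, ∑ i ∈ range N, (φ i - φ₁ - κ * i / N) ^ 2 ≤ 20864 * N * s ^ 2 ∧ |κ| ≤ 6 * K := by
  obtain ⟨L, hL⟩ : ∃ L, L = N / 2 := ⟨_, rfl⟩
  have hNR : (0 : ℝ) < N := by exact_mod_cast (by omega : 0 < N)
  have hhalf : ∀ h ≤ L, (N : ℝ) ≤ 2 * ((N - h : ℕ) : ℝ) := fun h hh => by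
    exact_mod_cast (by omega : N ≤ 2 * (N - h))
  have hd : ∀ h, ∃ δ : ℝ, h ≤ L → |δ| ≤ 2 * K ∧
      ∑ a ∈ range (N - h), (φ (a + h) - φ a - δ) ^ 2 ≤ 8 * N * s ^ 2 := by
    intro h
    by_cases hh : h ≤ L
    swap
    · exact ⟨0, fun h' => (hh h').elim⟩
    have h1 : ∑ a ∈ range (N - h), ∑ b ∈ range (N - h),
        (φ (a + h) + φ b - G (a + h + b)) ^ 2 ≤ (N : ℝ) ^ 2 * s ^ 2 := by
      refine le_trans ?_ hE
      refine le_trans ?_ (shift (f := fun a => ∑ b ∈ range N, (φ a + φ b - G (a + b)) ^ 2)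
        (fun a => sum_nonneg fun _ _ => sq_nonneg _) (n := N - h) (h := h) (by omega))
      exact sum_le_sum fun a _ => sum_le_sum_of_subset_of_nonneg (range_mono (by omega))
        fun _ _ _ => sq_nonneg _
    have h2 : ∑ b ∈ range (N - h), ∑ a ∈ range (N - h),
        (φ (a + h) - φ a - (φ (b + h) - φ b)) ^ 2 ≤ ((N - h : ℕ) : ℝ) * (8 * N * s ^ 2) := by
      calc _ ≤ ∑ b ∈ range (N - h), ∑ a ∈ range (N - h),
            (2 * (φ (a + h) + φ b - G (a + h + b)) ^ 2 +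
              2 * (φ (b + h) + φ a - G (b + h + a)) ^ 2) := by
            refine sum_le_sum fun b _ => sum_le_sum fun a _ => ?_
            rw [show b + h + a = a + h + b by ring]
            nlinarith [sq_nonneg (φ (a + h) + φ b - G (a + h + b) +
              (φ (b + h) + φ a - G (a + h + b)))]
        _ ≤ 4 * ((N : ℝ) ^ 2 * s ^ 2) := by
            simp only [sum_add_distrib, ← mul_sum]
            rw [sum_comm (s := range (N - h)) (t := range (N - h))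
              (f := fun b a => (φ (a + h) + φ b - G (a + h + b)) ^ 2)]
            linarith
        _ ≤ _ := by
            have := hhalf h hh
            have h3 : 0 ≤ (N : ℝ) * s ^ 2 := by positivity
            nlinarith [mul_le_mul_of_nonneg_right this h3]
    obtain ⟨b, hb, hB⟩ := pig (by omega) h2
    refine ⟨φ (b + h) - φ b, fun _ => ⟨?_, hB⟩⟩
    have := hK (b + h) (by omega)
    have := hK b (by omega)
    have := abs_sub (φ (b + h)) (φ b)
    linarith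
  choose δ hδ using hd
  have hadd : ∀ h h', h + h' ≤ L → |δ (h + h') - δ h - δ h'| ≤ 12 * s := by
    intro h h' hh
    have h1 := (hδ (h + h') hh).2
    have h2 := (shift (f := fun a => (φ (a + h) - φ a - δ h) ^ 2) (fun _ => sq_nonneg _)
      (n := N - (h + h')) (h := h') (N := N - h) (by omega)).trans (hδ h (by omega)).2
    have h3 := (sum_le_sum_of_subset_of_nonneg (range_mono (by omega : N - (h + h') ≤ N - h'))
      (f := fun a => (φ (a + h') - φ a - δ h') ^ 2) fun _ _ _ => sq_nonneg _).trans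
      (hδ h' (by omega)).2
    have h4 : ∑ _a ∈ range (N - (h + h')), (δ (h + h') - δ h - δ h') ^ 2 ≤
        ∑ a ∈ range (N - (h + h')), (3 * (φ (a + (h + h')) - φ a - δ (h + h')) ^ 2 +
          3 * (φ (a + h' + h) - φ (a + h') - δ h) ^ 2 + 3 * (φ (a + h') - φ a - δ h') ^ 2) := by
      refine sum_le_sum fun a _ => ?_
      rw [show a + h' + h = a + (h + h') by ring]
      obtain ⟨x, hx⟩ : ∃ x, x = φ (a + (h + h')) - φ a - δ (h + h') := ⟨_, rfl⟩
      obtain ⟨y, hy⟩ : ∃ y, y = φ (a + (h + h')) - φ (a + h') - δ h := ⟨_, rfl⟩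
      obtain ⟨z, hz⟩ : ∃ z, z = φ (a + h') - φ a - δ h' := ⟨_, rfl⟩
      have : δ (h + h') - δ h - δ h' = y + z - x := by rw [hx, hy, hz]; ring
      rw [this, ← hx, ← hy, ← hz]
      nlinarith [sq_nonneg (x + y), sq_nonneg (x + z), sq_nonneg (y - z)]
    simp only [sum_add_distrib, ← mul_sum, sum_const, card_range, nsmul_eq_mul] at h4
    have h5 := hhalf (h + h') hh
    refine abs_le_of_sq_le_sq' ?_ (by positivity) |> abs_le.2
    have h6 : (N : ℝ) * (δ (h + h') - δ h - δ h') ^ 2 ≤ N * (12 * s) ^ 2 := by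
      nlinarith [mul_le_mul_of_nonneg_right h5 (sq_nonneg (δ (h + h') - δ h - δ h'))]
    exact le_of_mul_le_mul_left h6 hNR
  have hL1 : 1 ≤ L := by omega
  have hLR : (0 : ℝ) < L := by exact_mod_cast hL1
  obtain ⟨k, hk⟩ : ∃ k : ℝ, k = δ L / L := ⟨_, rfl⟩
  have hkL : k * L = δ L := by rw [hk]; field_simp
  have hρ : ∀ h ≤ L, |δ h - k * h| ≤ 36 * s := by
    obtain ⟨h0, hh0, hmax⟩ := exists_max_image (range (L + 1)) (fun h => |δ h - k * h|)
      ⟨0, by simp⟩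
    have hm : ∀ h ≤ L, |δ h - k * h| ≤ |δ h0 - k * h0| := fun h hh =>
      hmax h (mem_range.2 (by omega))
    have hh0' : h0 ≤ L := by have := mem_range.1 hh0; omega
    have db : ∀ h, h + h ≤ L → 2 * |δ h - k * h| ≤ |δ h0 - k * h0| + 12 * s := by
      intro h hh
      have a1 := abs_le.1 (hadd h h hh)
      have a2 := abs_le.1 (hm (h + h) hh)
      push_cast at a2
      rcases abs_cases (δ h - k * h) with ⟨e, _⟩ | ⟨e, _⟩ <;> rw [e] <;> linarith [a1.1, a1.2, a2.1, a2.2]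
    suffices |δ h0 - k * h0| ≤ 36 * s from fun h hh => (hm h hh).trans this
    by_cases c : h0 + h0 ≤ L
    · have := db h0 c
      linarith
    · obtain ⟨h1, e1⟩ : ∃ h1, L = h0 + h1 := ⟨L - h0, by omega⟩
      have a1 := db h1 (by omega)
      have a2 := abs_le.1 (hadd h0 h1 (by omega))
      rw [← e1] at a2
      have e2 : (L : ℝ) = h0 + h1 := by exact_mod_cast e1
      have e3 : δ L = k * h0 + k * h1 := by rw [← hkL, e2]; ring
      have a3 := le_abs_self (δ h1 - k * h1)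
      have a4 := neg_abs_le (δ h1 - k * h1)
      rcases abs_cases (δ h0 - k * h0) with ⟨e, _⟩ | ⟨e, _⟩ <;> rw [e] at a1 ⊢ <;>
        linarith [a2.1, a2.2]
  obtain ⟨ψ, hψ⟩ : ∃ ψ : ℕ → ℝ, ∀ i, ψ i = φ i - k * i := ⟨_, fun _ => rfl⟩
  have hs1 : ∀ h ≤ L, ∑ a ∈ range (N - h), (ψ (a + h) - ψ a) ^ 2 ≤ 2608 * N * s ^ 2 := by
    intro h hh
    have a1 := (hδ h hh).2
    have a2 : (δ h - k * h) ^ 2 ≤ (36 * s) ^ 2 := sq_le_sq' (abs_le.1 (hρ h hh)).1 (abs_le.1 (hρ h hh)).2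
    have a3 : ∑ a ∈ range (N - h), (ψ (a + h) - ψ a) ^ 2 ≤
        ∑ a ∈ range (N - h), (2 * (φ (a + h) - φ a - δ h) ^ 2 + 2 * (36 * s) ^ 2) := by
      refine sum_le_sum fun a _ => ?_
      have : ψ (a + h) - ψ a = (φ (a + h) - φ a - δ h) + (δ h - k * h) := by
        rw [hψ, hψ]; push_cast; ring
      rw [this]
      nlinarith [sq_nonneg ((φ (a + h) - φ a - δ h) - (δ h - k * h))]
    simp only [sum_add_distrib, ← mul_sum, sum_const, card_range, nsmul_eq_mul] at a3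
    have a4 : ((N - h : ℕ) : ℝ) ≤ N := by exact_mod_cast Nat.sub_le N h
    nlinarith [mul_le_mul_of_nonneg_right a4 (sq_nonneg s)]
  have hs2 : ∀ h < N, ∑ a ∈ range (N - h), (ψ (a + h) - ψ a) ^ 2 ≤ 10432 * N * s ^ 2 := by
    intro h hh
    obtain ⟨h1, h2, e, l1, l2⟩ : ∃ h1 h2, h = h1 + h2 ∧ h1 ≤ L ∧ h2 ≤ L :=
      ⟨h / 2, h - h / 2, by omega, by omega, by omega⟩
    have a1 := (shift (f := fun a => (ψ (a + h2) - ψ a) ^ 2) (fun _ => sq_nonneg _)
      (n := N - h) (h := h1) (N := N - h2) (by omega)).trans (hs1 h2 l2)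
    have a2 := (sum_le_sum_of_subset_of_nonneg (range_mono (by omega : N - h ≤ N - h1))
      (f := fun a => (ψ (a + h1) - ψ a) ^ 2) fun _ _ _ => sq_nonneg _).trans (hs1 h1 l1)
    have a3 : ∑ a ∈ range (N - h), (ψ (a + h) - ψ a) ^ 2 ≤ ∑ a ∈ range (N - h),
        (2 * (ψ (a + h1 + h2) - ψ (a + h1)) ^ 2 + 2 * (ψ (a + h1) - ψ a) ^ 2) := by
      refine sum_le_sum fun a _ => ?_
      rw [e, ← add_assoc]
      nlinarith [sq_nonneg (ψ (a + h1 + h2) - ψ (a + h1) - (ψ (a + h1) - ψ a))]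
    simp only [sum_add_distrib, ← mul_sum] at a3
    linarith
  have hs3 : ∑ j ∈ range N, ∑ i ∈ range N, (ψ i - ψ j) ^ 2 ≤ N * (20864 * N * s ^ 2) := by
    refine (dbl (g := fun i j => (ψ i - ψ j) ^ 2) (fun _ _ => sq_nonneg _)
      (fun _ _ => by ring) N).trans ?_
    have := sum_le_sum (s := range N) fun h hh => hs2 h (mem_range.1 hh)
    simp only [sum_const, card_range, nsmul_eq_mul] at this
    linarith
  obtain ⟨j, -, hj⟩ := pig (by omega) hs3
  refine ⟨ψ j, k * N, le_trans (le_of_eq (sum_congr rfl fun i _ => ?_)) hj, ?_⟩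
  · rw [hψ i]; congr 1; field_simp; ring
  · have a1 := (hδ L le_rfl).1
    have a2 : (N : ℝ) ≤ 3 * L := by exact_mod_cast (by omega : N ≤ 3 * L)
    rw [← hkL, abs_mul, abs_of_pos hLR] at a1
    rw [abs_mul, abs_of_pos hNR]
    nlinarith [mul_le_mul_of_nonneg_left a2 (abs_nonneg k)]

end FeP

open FeP in
theorem p_fe (hCnt : S_Cnt) : S_FE := by
  intro u hu
  obtain ⟨h1, -, -, -, -, h6⟩ := hCnt
  obtain ⟨c, C0, hc, -, hb⟩ := h6 u hu
  refine ⟨20864 / c + 6, by have : 0 ≤ 20864 / c := by positivity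
                            linarith, ?_⟩
  intro N hN φ A
  obtain ⟨-, -, -, hH⟩ := hb N hN
  have hN0 : 0 < N := by omega
  have hNR : (0 : ℝ) < N := by exact_mod_cast hN0
  have hc1 : ∀ (r : ℕ) (m : ℤ), (cnt (r + 1) N m : ℝ) = ∑ i ∈ range N, (cnt r N (m - i) : ℝ) :=
    fun r m => by rw [h1]; push_cast; rfl
  obtain ⟨Z, hZ⟩ : ∃ Z : ℝ, Z = cnt (u + 2) N (Mz N u) := ⟨_, rfl⟩
  have hZpos : 0 < Z := by
    have h0 := (hH 0 hN0 0 hN0).1
    have : 0 ≤ Z := by rw [hZ]; positivity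
    rcases this.eq_or_lt with e | e
    · rw [Hh, ← hZ, ← e, div_zero, mul_zero] at h0
      linarith
    · exact e
  have hP : ∀ i : ℕ, P1 N u i = (cnt (u + 1) N (Mz N u - i) : ℝ) / Z := fun i => by
    rw [P1, hc1, sum_div, hZ]; rfl
  have hF : Form N u φ A = T N φ (u + 2) (Mz N u) A / Z := by
    rw [T_eq φ hc1, ← hZ, Form]
    simp only [hP, Hh, ← hZ, div_mul_eq_mul_div, ← sum_div]
    field_simp
  refine ⟨by rw [hF]; exact div_nonneg (T_nonneg _ _ _ _ _) hZpos.le, ?_⟩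
  intro σ K hσ hle hK
  have hG : ∀ m : ℤ, ∃ g : ℝ, ∀ B : ℝ, (cnt u N m : ℝ) * (B - g) ^ 2 ≤ T N φ u m B := by
    intro m
    obtain ⟨v, rfl⟩ : ∃ v, u = v + 2 := ⟨u - 2, by omega⟩
    obtain ⟨t, a, hq⟩ : ∃ t a : ℝ, ∀ B : ℝ, T N φ (v + 2) m B =
        t + 2 * B * a + B ^ 2 * cnt (v + 2) N m :=
      ⟨_, (v + 2) * ∑ i ∈ range N, (cnt (v + 1) N (m - i) : ℝ) * φ i, fun B => by
        rw [T_eq φ hc1]; congr 2; ring⟩
    obtain ⟨w, hw⟩ : ∃ w : ℝ, w = cnt (v + 2) N m := ⟨_, rfl⟩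
    rw [← hw] at hq ⊢
    have hw0 : 0 ≤ w := by rw [hw]; positivity
    rcases hw0.eq_or_lt with e | e
    · exact ⟨0, fun B => by rw [← e, zero_mul]; exact T_nonneg _ _ _ _ _⟩
    · refine ⟨-(a / w), fun B => ?_⟩
      have h0 := T_nonneg N φ (v + 2) m (-(a / w))
      rw [hq] at h0 ⊢
      obtain ⟨y, hy⟩ : ∃ y, y = a / w := ⟨_, rfl⟩
      have ha : a = y * w := by rw [hy]; field_simp
      rw [← hy] at h0 ⊢
      rw [ha] at h0 ⊢
      nlinarith
  choose g hg using hG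
  have hE : ∑ a ∈ range N, ∑ b ∈ range N,
      (φ a + φ b - (g (Mz N u - ((a + b : ℕ) : ℤ)) - A)) ^ 2 ≤ (N : ℝ) ^ 2 * (σ / √c) ^ 2 := by
    have e : T N φ (u + 2) (Mz N u) A =
        ∑ a ∈ range N, ∑ b ∈ range N, T N φ u (Mz N u - a - b) (A + φ a + φ b) := by
      simp only [T]
    rw [hF, e, div_le_iff₀ hZpos] at hle
    have a1 : ∑ a ∈ range N, ∑ b ∈ range N, c * Z / (N : ℝ) ^ 2 *
        (φ a + φ b - (g (Mz N u - ((a + b : ℕ) : ℤ)) - A)) ^ 2 ≤ σ ^ 2 * Z := by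
      refine le_trans (sum_le_sum fun a ha => sum_le_sum fun b hb' => ?_) hle
      refine le_trans ?_ (hg _ _)
      have a2 := (hH a (mem_range.1 ha) b (mem_range.1 hb')).1
      rw [Hh, ← hZ, ← mul_div_assoc, le_div_iff₀ hZpos] at a2
      have a3 : c * Z / (N : ℝ) ^ 2 ≤ cnt u N (Mz N u - a - b) := by
        rw [div_le_iff₀ (by positivity)]; linarith
      have e2 : Mz N u - ((a + b : ℕ) : ℤ) = Mz N u - a - b := by push_cast; ring
      rw [e2, show φ a + φ b - (g (Mz N u - a - b) - A) = A + φ a + φ b - g (Mz N u - a - b) by ring]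
      exact mul_le_mul_of_nonneg_right a3 (sq_nonneg _)
    simp only [← mul_sum] at a1
    rw [div_pow, Real.sq_sqrt hc.le]
    rw [div_mul_eq_mul_div, div_le_iff₀ (by positivity)] at a1
    rw [← mul_div_assoc, le_div_iff₀ hc]
    refine le_of_mul_le_mul_right ?_ hZpos
    linarith
  obtain ⟨φ₁, κ, a1, a2⟩ := core (by omega) φ (fun m => g (Mz N u - (m : ℤ)) - A)
    (div_nonneg hσ (Real.sqrt_nonneg _)) hE hK
  have hK0 : 0 ≤ K := (abs_nonneg _).trans (hK 0 hN0)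
  have hq : 0 ≤ 20864 / c := by positivity
  refine ⟨φ₁, κ, a1.trans ?_, a2.trans ?_⟩
  · rw [div_pow, Real.sq_sqrt hc.le]
    have : 20864 * (N : ℝ) * (σ ^ 2 / c) = 20864 / c * N * σ ^ 2 := by ring
    rw [this]
    have : 0 ≤ (N : ℝ) * σ ^ 2 := by positivity
    nlinarith
  · nlinarith [mul_nonneg hq (add_nonneg hK0 hσ)]

end Pool.Agent.P.MP_b8021b_nt.VE
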