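import Pool.Agent.P.MP_b8021b_nt.VE.StB

/-! B5': second moments under the local structure. -/

namespace Pool.Agent.P.MP_b8021b_nt.VE

open Polynomial Finset
open scoped Classical

namespace L2

variable {X Z Ce : Type} [Fintype X] [Fintype Z] [Fintype Ce]

/-- the level sums -/
noncomputable def A (lev : X → ℕ) (m f : X → ℝ) (i : ℕ) : ℝ := ∑ x with lev x = i, m x * f x

lemma fib {N : ℕ} {lev : X → ℕ} (h : ∀ x, lev x < N) (G : X → ℝ) :
    ∑ x, G x = ∑ i ∈ range N, ∑ x with lev x = i, G x :=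
  (sum_fiberwise_of_maps_to (s := univ) (t := range N) (g := lev)
    (fun x _ => mem_range.mpr (h x)) G).symm

lemma fib1 {N : ℕ} {lev : X → ℕ} (h : ∀ x, lev x < N) (m f : X → ℝ) (G : ℕ → ℝ) :
    ∑ x, m x * f x * G (lev x) = ∑ i ∈ range N, A lev m f i * G i := by
  rw [fib h]
  refine sum_congr rfl fun i _ => ?_
  rw [A, sum_mul]
  refine sum_congr rfl fun x hx => ?_
  rw [(mem_filter.mp hx).2]

lemma fib2 {N : ℕ} {lev : X → ℕ} (h : ∀ x, lev x < N) (m f f' : X → ℝ) (H : ℕ → ℕ → ℝ) :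
    ∑ a, ∑ a', m a * m a' * H (lev a) (lev a') * (f a * f' a') =
      ∑ i ∈ range N, ∑ i' ∈ range N, H i i' * (A lev m f i * A lev m f' i') := by
  have h1 : ∀ a, ∑ a', m a * m a' * H (lev a) (lev a') * (f a * f' a') =
      m a * f a * ∑ i' ∈ range N, A lev m f' i' * H (lev a) i' := by
    intro a
    rw [← fib1 h m f' (fun i' => H (lev a) i'), mul_sum]
    exact sum_congr rfl fun a' _ => by ring
  simp only [h1]
  rw [fib1 h m f (fun i => ∑ i' ∈ range N, A lev m f' i' * H i i')]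
  refine sum_congr rfl fun i _ => ?_
  rw [mul_sum]
  exact sum_congr rfl fun i' _ => by ring

lemma pairfib {u : ℕ} (G : (Fin (u + 2) → X) → ℝ) (F : X → X → ℝ) :
    ∑ x, G x * F (x 0) (x 1) = ∑ a, ∑ a', (∑ x with x 0 = a ∧ x 1 = a', G x) * F a a' := by
  have e1 : ∀ a a' : X, (∑ x with x 0 = a ∧ x 1 = a', G x) * F a a' =
      ∑ x : Fin (u + 2) → X, if x 0 = a then (if x 1 = a' then G x * F a a' else 0) else 0 := by
    intro a a'
    rw [sum_mul, sum_filter]
    refine sum_congr rfl fun x _ => ?_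
    by_cases h0 : x 0 = a <;> by_cases h1 : x 1 = a' <;> simp [h0, h1]
  simp only [e1]
  symm
  rw [sum_congr rfl fun a _ => sum_comm, sum_comm]
  refine sum_congr rfl fun x _ => ?_
  have e2 : ∀ a : X, (∑ a', if x 0 = a then (if x 1 = a' then G x * F a a' else 0) else 0) =
      if x 0 = a then G x * F a (x 1) else 0 := by
    intro a
    by_cases h0 : x 0 = a
    · simp only [if_pos h0]
      rw [sum_ite_eq, if_pos (mem_univ _)]
    · simp only [if_neg h0, sum_const_zero]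
  simp only [e2]
  rw [sum_ite_eq, if_pos (mem_univ _)]

/-- comparison in total variation -/
lemma tv {N u : ℕ} {lev : X → ℕ} {m : X → ℝ} {π : Z → (Fin (u + 2) → X) → ℝ} {cell : Z → Ce}
    {ε : ℝ} (h : Loc N u lev m π cell ε) (F : Ce → X → X → ℝ) (B : ℝ) (hB : 0 ≤ B)
    (hF : ∀ c a a', |F c a a'| ≤ B) :
    |∑ z, ∑ x, π z x * F (cell z) (x 0) (x 1) -
      (∑ c, ∑ a, ∑ a', m a * m a' * Hh N u (lev a) (lev a') * F c a a') / Fintype.card Ce| ≤
      ε * B := by
  have h1 : ∑ z, ∑ x, π z x * F (cell z) (x 0) (x 1) =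
      ∑ c, ∑ a, ∑ a', (∑ z with cell z = c, ∑ x with x 0 = a ∧ x 1 = a', π z x) * F c a a' := by
    rw [← sum_fiberwise (s := univ) (g := cell)]
    refine sum_congr rfl fun c _ => ?_
    have e1 : ∑ z with cell z = c, ∑ x, π z x * F (cell z) (x 0) (x 1) =
        ∑ z with cell z = c, ∑ a, ∑ a', (∑ x with x 0 = a ∧ x 1 = a', π z x) * F c a a' := by
      refine sum_congr rfl fun z hz => ?_
      rw [(mem_filter.mp hz).2, pairfib]
    rw [e1, sum_comm]
    refine sum_congr rfl fun a _ => ?_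
    rw [sum_comm]
    refine sum_congr rfl fun a' _ => ?_
    rw [← sum_mul]
  have h2 : (∑ c, ∑ a, ∑ a', m a * m a' * Hh N u (lev a) (lev a') * F c a a') / Fintype.card Ce =
      ∑ c, ∑ a, ∑ a', m a * m a' * Hh N u (lev a) (lev a') / Fintype.card Ce * F c a a' := by
    simp only [sum_div]
    refine sum_congr rfl fun c _ => sum_congr rfl fun a _ => sum_congr rfl fun a' _ => by ring
  rw [h1, h2, ← sum_sub_distrib]
  refine (abs_sum_le_sum_abs _ _).trans (le_trans ?_ (mul_le_mul_of_nonneg_right h.tv hB))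
  rw [sum_mul]
  refine sum_le_sum fun c _ => ?_
  rw [← sum_sub_distrib, sum_mul]
  refine (abs_sum_le_sum_abs _ _).trans (sum_le_sum fun a _ => ?_)
  rw [← sum_sub_distrib, sum_mul]
  refine (abs_sum_le_sum_abs _ _).trans (sum_le_sum fun a' _ => ?_)
  rw [← sub_mul, abs_mul]
  exact mul_le_mul_of_nonneg_left (hF c a a') (abs_nonneg _)

/-- product test functions -/
lemma tvp {N u : ℕ} {lev : X → ℕ} {m : X → ℝ} {π : Z → (Fin (u + 2) → X) → ℝ} {cell : Z → Ce}
    [Nonempty Ce] {ε : ℝ} (h : Loc N u lev m π cell ε) (f f' : X → ℝ) (hf : ∀ a, |f a| ≤ 1)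
    (hf' : ∀ a, |f' a| ≤ 1) :
    |∑ z, ∑ x, π z x * (f (x 0) * f' (x 1)) -
      ∑ i ∈ range N, ∑ i' ∈ range N, Hh N u i i' * (A lev m f i * A lev m f' i')| ≤ ε := by
  have h1 := tv h (fun _ a a' => f a * f' a') 1 zero_le_one (fun _ a a' => by
    rw [abs_mul]; exact mul_le_one₀ (hf a) (abs_nonneg _) (hf' a'))
  have hc : (Fintype.card Ce : ℝ) ≠ 0 := Nat.cast_ne_zero.mpr Fintype.card_ne_zero
  rw [sum_const, card_univ, nsmul_eq_mul, mul_div_cancel_left₀ _ hc, fib2 h.lev_lt, mul_one] at h1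
  exact h1

lemma sym2 {u : ℕ} (p : (Fin (u + 2) → X) → ℝ)
    (hp : ∀ x (σ : Equiv.Perm (Fin (u + 2))), p (x ∘ σ) = p x) (F : X → X → ℝ)
    (i j : Fin (u + 2)) (hij : i ≠ j) :
    ∑ x, p x * F (x i) (x j) = ∑ x, p x * F (x 0) (x 1) := by
  obtain ⟨σ, h0, h1⟩ : ∃ σ : Equiv.Perm (Fin (u + 2)), σ 0 = i ∧ σ 1 = j := by
    refine ⟨Equiv.swap 0 i * Equiv.swap 1 (Equiv.swap 0 i j), ?_, ?_⟩
    · have h2 : (0 : Fin (u + 2)) ≠ Equiv.swap 0 i j := by
        intro h
        apply hij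
        have := congrArg (Equiv.swap 0 i) h
        rwa [Equiv.swap_apply_self, Equiv.swap_apply_left] at this
      rw [Equiv.Perm.mul_apply, Equiv.swap_apply_of_ne_of_ne Fin.zero_ne_one h2,
        Equiv.swap_apply_left]
    · rw [Equiv.Perm.mul_apply, Equiv.swap_apply_left, Equiv.swap_apply_self]
  refine Fintype.sum_equiv (Equiv.arrowCongr σ.symm (Equiv.refl X)) _ _ fun x => ?_
  have e : (Equiv.arrowCongr σ.symm (Equiv.refl X)) x = x ∘ σ := by
    funext k
    simp [Equiv.arrowCongr_apply]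
  rw [e, hp, Function.comp_apply, Function.comp_apply, h0, h1]

lemma sym1 {u : ℕ} (p : (Fin (u + 2) → X) → ℝ)
    (hp : ∀ x (σ : Equiv.Perm (Fin (u + 2))), p (x ∘ σ) = p x) (f : X → ℝ)
    (i : Fin (u + 2)) : ∑ x, p x * f (x i) = ∑ x, p x * f (x 0) := by
  by_cases hi : i = 0
  · rw [hi]
  · exact sym2 p hp (fun a _ => f a) i 0 hi

lemma expand {u : ℕ} (p : (Fin (u + 2) → X) → ℝ)
    (hp : ∀ x (σ : Equiv.Perm (Fin (u + 2))), p (x ∘ σ) = p x) (ψ : X → ℝ) (g : ℝ) :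
    ∑ x, p x * (∑ i, ψ (x i) + g) ^ 2 =
      ∑ x, p x * ((u + 2) * ψ (x 0) ^ 2 + (u + 2) * (u + 1) * (ψ (x 0) * ψ (x 1)) +
        2 * (u + 2) * g * ψ (x 0) + g ^ 2) := by
  have e1 : ∀ x : Fin (u + 2) → X, p x * (∑ i, ψ (x i) + g) ^ 2 =
      ∑ i, ∑ j, p x * (ψ (x i) * ψ (x j)) + 2 * g * ∑ i, p x * ψ (x i) + p x * g ^ 2 := by
    intro x
    have : ∑ i, ∑ j, p x * (ψ (x i) * ψ (x j)) = p x * (∑ i, ψ (x i)) ^ 2 := by
      rw [sq, sum_mul_sum, mul_sum]
      exact sum_congr rfl fun i _ => by rw [mul_sum]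
    rw [this, ← mul_sum]
    ring
  have e2 : ∑ x, ∑ i, p x * ψ (x i) = (u + 2) * ∑ x, p x * ψ (x 0) := by
    rw [sum_comm, sum_congr rfl fun i _ => sym1 p hp ψ i, sum_const, card_univ, Fintype.card_fin,
      nsmul_eq_mul]
    push_cast
    ring
  have e3 : ∀ i : Fin (u + 2), ∑ j, ∑ x, p x * (ψ (x i) * ψ (x j)) =
      ∑ x, p x * ψ (x 0) ^ 2 + (u + 1) * ∑ x, p x * (ψ (x 0) * ψ (x 1)) := by
    intro i
    rw [← add_sum_erase _ _ (mem_univ i)]
    congr 1
    · rw [← sym1 p hp (fun a => ψ a ^ 2) i]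
      exact sum_congr rfl fun x _ => by ring
    · rw [sum_congr rfl fun j hj =>
        sym2 p hp (fun a a' => ψ a * ψ a') i j (ne_of_mem_erase hj).symm, sum_const,
        card_erase_of_mem (mem_univ i), card_univ, Fintype.card_fin, nsmul_eq_mul]
      push_cast
      ring
  have e4 : ∑ x, ∑ i, ∑ j, p x * (ψ (x i) * ψ (x j)) =
      (u + 2) * (∑ x, p x * ψ (x 0) ^ 2 + (u + 1) * ∑ x, p x * (ψ (x 0) * ψ (x 1))) := by
    rw [sum_comm, sum_congr rfl fun i _ => sum_comm, sum_congr rfl fun i _ => e3 i, sum_const,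
      card_univ, Fintype.card_fin, nsmul_eq_mul]
    push_cast
    ring
  simp only [e1]
  rw [sum_add_distrib, sum_add_distrib, e4, ← mul_sum, e2]
  simp only [mul_add, sum_add_distrib, mul_sum]
  congr 1
  congr 1
  congr 1
  · exact sum_congr rfl fun x _ => by ring
  · exact sum_congr rfl fun x _ => by ring
  · exact sum_congr rfl fun x _ => by ring

lemma Hh_nonneg (N u i i' : ℕ) : 0 ≤ Hh N u i i' :=
  div_nonneg (Nat.cast_nonneg _) (Nat.cast_nonneg _)

/-- indicator function -/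
noncomputable def ind (E : X → Prop) (a : X) : ℝ := if E a then 1 else 0

omit [Fintype X] in
lemma ind_abs (E : X → Prop) (a : X) : |ind E a| ≤ 1 := by
  unfold ind
  split_ifs <;> simp

omit [Fintype X] in
lemma ind_nonneg (E : X → Prop) (a : X) : 0 ≤ ind E a := by
  unfold ind
  split_ifs <;> simp

lemma A_nonneg {lev : X → ℕ} {m f : X → ℝ} (hm : ∀ x, 0 ≤ m x) (hf : ∀ x, 0 ≤ f x) (i : ℕ) :
    0 ≤ A lev m f i := sum_nonneg fun x _ => mul_nonneg (hm x) (hf x)

lemma A_one (lev : X → ℕ) (m : X → ℝ) (i : ℕ) :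
    A lev m (fun _ => 1) i = ∑ x with lev x = i, m x := by
  simp only [A, mul_one]

lemma A_ind {N : ℕ} {lev : X → ℕ} (h : ∀ x, lev x < N) (m : X → ℝ) (E : X → Prop) :
    ∑ i ∈ range N, A lev m (ind E) i = ∑ a with E a, m a := by
  have := fib1 h m (ind E) (fun _ => 1)
  simp only [mul_one] at this
  rw [← this, sum_filter]
  refine sum_congr rfl fun x _ => ?_
  unfold ind
  split_ifs <;> simp

lemma prod_close {ε M M' : ℝ} (hε : ε ≤ 1) (h : |M - 1| ≤ ε) (h' : |M' - 1| ≤ ε) :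
    |M * M' - 1| ≤ 3 * ε := by
  have h0 : 0 ≤ ε := (abs_nonneg _).trans h
  obtain ⟨a1, a2⟩ := abs_le.mp h
  obtain ⟨b1, b2⟩ := abs_le.mp h'
  rw [abs_le]
  constructor <;> nlinarith

/-- the total mass of the ideal law -/
lemma mass {N u : ℕ} {lev : X → ℕ} {m : X → ℝ} {ε : ℝ} (hε : ε ≤ 1)
    (hm : ∀ i < N, |∑ x with lev x = i, m x - 1| ≤ ε) (hP : ∑ i ∈ range N, P1 N u i = 1) :
    |∑ i ∈ range N, ∑ i' ∈ range N, Hh N u i i' *
      (A lev m (fun _ => 1) i * A lev m (fun _ => 1) i') - 1| ≤ 3 * ε := by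
  have e : ∑ i ∈ range N, ∑ i' ∈ range N, Hh N u i i' *
      (A lev m (fun _ => 1) i * A lev m (fun _ => 1) i') - 1 =
      ∑ i ∈ range N, ∑ i' ∈ range N, Hh N u i i' *
        (A lev m (fun _ => 1) i * A lev m (fun _ => 1) i' - 1) := by
    simp only [mul_sub, mul_one, sum_sub_distrib]
    rw [← hP]
    rfl
  have e2 : 3 * ε = ∑ i ∈ range N, ∑ i' ∈ range N, Hh N u i i' * (3 * ε) := by
    simp only [← sum_mul]
    have : ∑ i ∈ range N, ∑ i' ∈ range N, Hh N u i i' = 1 := hP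
    rw [this, one_mul]
  rw [e, e2]
  refine (abs_sum_le_sum_abs _ _).trans (sum_le_sum fun i hi => ?_)
  refine (abs_sum_le_sum_abs _ _).trans (sum_le_sum fun i' hi' => ?_)
  rw [abs_mul, abs_of_nonneg (Hh_nonneg N u i i'), A_one, A_one]
  exact mul_le_mul_of_nonneg_left
    (prod_close hε (hm i (mem_range.mp hi)) (hm i' (mem_range.mp hi'))) (Hh_nonneg N u i i')

lemma A_mean {lev : X → ℕ} {m : X → ℝ} (ψ : X → ℝ) {i : ℕ}
    (hM : 0 < ∑ x with lev x = i, m x) :
    A lev m ψ i = (∑ x with lev x = i, m x) * levMean lev m ψ i := by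
  rw [levMean, mul_div_cancel₀ _ hM.ne']
  rfl

lemma mean_abs {lev : X → ℕ} {m : X → ℝ} (hm : ∀ x, 0 ≤ m x) {ψ : X → ℝ} {K : ℝ}
    (hψ : ∀ x, |ψ x| ≤ K) {i : ℕ} (hM : 0 < ∑ x with lev x = i, m x) :
    |levMean lev m ψ i| ≤ K := by
  rw [levMean, abs_div, abs_of_pos hM, div_le_iff₀ hM, mul_sum]
  refine (abs_sum_le_sum_abs _ _).trans (sum_le_sum fun x _ => ?_)
  rw [abs_mul, abs_of_nonneg (hm x), mul_comm K]
  exact mul_le_mul_of_nonneg_left (hψ x) (hm x)

lemma A_var {lev : X → ℕ} {m : X → ℝ} (ψ : X → ℝ) {i : ℕ}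
    (hM : 0 < ∑ x with lev x = i, m x) :
    A lev m (fun x => ψ x ^ 2) i = A lev m (fun x => (ψ x - levMean lev m ψ (lev x)) ^ 2) i +
      (∑ x with lev x = i, m x) * levMean lev m ψ i ^ 2 := by
  have e : A lev m (fun x => (ψ x - levMean lev m ψ (lev x)) ^ 2) i =
      A lev m (fun x => ψ x ^ 2) i - 2 * levMean lev m ψ i * A lev m ψ i +
        (∑ x with lev x = i, m x) * levMean lev m ψ i ^ 2 := by
    simp only [A]
    rw [mul_sum, sum_mul, ← sum_sub_distrib, ← sum_add_distrib]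
    refine sum_congr rfl fun x hx => ?_
    rw [(mem_filter.mp hx).2]
    ring
  rw [e, A_mean ψ hM]
  ring

lemma A_sq_le {lev : X → ℕ} {m : X → ℝ} (hm : ∀ x, 0 ≤ m x) {ψ : X → ℝ} {K : ℝ}
    (hψ : ∀ x, |ψ x| ≤ K) (i : ℕ) :
    A lev m (fun x => ψ x ^ 2) i ≤ (∑ x with lev x = i, m x) * K ^ 2 := by
  rw [A, sum_mul]
  refine sum_le_sum fun x _ => mul_le_mul_of_nonneg_left ?_ (hm x)
  exact sq_le_sq' (abs_le.mp (hψ x)).1 (abs_le.mp (hψ x)).2

lemma quad_abs {n K a a' g : ℝ} (hn : 0 ≤ n) (ha : |a| ≤ K) (ha' : |a'| ≤ K) (hg : |g| ≤ K) :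
    |(n + 2) * a ^ 2 + (n + 2) * (n + 1) * (a * a') + 2 * (n + 2) * g * a + g ^ 2| ≤
      (n + 3) ^ 2 * K ^ 2 := by
  have hK : 0 ≤ K := (abs_nonneg _).trans ha
  have h1 : |a ^ 2| ≤ K ^ 2 := by
    rw [abs_pow]; exact pow_le_pow_left₀ (abs_nonneg _) ha 2
  have h2 : |a * a'| ≤ K ^ 2 := by
    rw [abs_mul, sq]; exact mul_le_mul ha ha' (abs_nonneg _) hK
  have h3 : |g * a| ≤ K ^ 2 := by
    rw [abs_mul, sq]; exact mul_le_mul hg ha (abs_nonneg _) hK
  have h4 : |g ^ 2| ≤ K ^ 2 := by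
    rw [abs_pow]; exact pow_le_pow_left₀ (abs_nonneg _) hg 2
  obtain ⟨a1, a2⟩ := abs_le.mp h1
  obtain ⟨b1, b2⟩ := abs_le.mp h2
  obtain ⟨c1, c2⟩ := abs_le.mp h3
  obtain ⟨d1, d2⟩ := abs_le.mp h4
  have p1 : 0 ≤ n + 2 := by linarith
  have p2 : 0 ≤ (n + 2) * (n + 1) := mul_nonneg p1 (by linarith)
  have p3 : 0 ≤ 2 * (n + 2) := by linarith
  have q1 := mul_le_mul_of_nonneg_left a1 p1
  have q2 := mul_le_mul_of_nonneg_left a2 p1
  have q3 := mul_le_mul_of_nonneg_left b1 p2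
  have q4 := mul_le_mul_of_nonneg_left b2 p2
  have q5 := mul_le_mul_of_nonneg_left c1 p3
  have q6 := mul_le_mul_of_nonneg_left c2 p3
  rw [abs_le]
  constructor <;> nlinarith

lemma term {n ε K M M' V φ φ' g : ℝ} (hn : 0 ≤ n) (hε : ε ≤ 1) (hM : |M - 1| ≤ ε)
    (hM' : |M' - 1| ≤ ε) (hV0 : 0 ≤ V) (hV : V ≤ 2 * K ^ 2) (hφ : |φ| ≤ K) (hφ' : |φ'| ≤ K)
    (hg : |g| ≤ K) :
    (n + 2) * V + ((n + 2) * φ ^ 2 + (n + 2) * (n + 1) * (φ * φ') + 2 * (n + 2) * g * φ + g ^ 2) ≤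
      (n + 2) * ((V + M * φ ^ 2) * M') + (n + 2) * (n + 1) * (M * φ * (M' * φ')) +
        2 * (n + 2) * g * (M * φ * M') + g ^ 2 * (M * M') + 5 * (n + 3) ^ 2 * ε * K ^ 2 := by
  have h0 : 0 ≤ ε := (abs_nonneg _).trans hM
  have h1 := quad_abs hn hφ hφ' hg
  have h2 := prod_close hε hM hM'
  set Q := (n + 2) * φ ^ 2 + (n + 2) * (n + 1) * (φ * φ') + 2 * (n + 2) * g * φ + g ^ 2 with hQ
  have h3 : |(M * M' - 1) * Q| ≤ 3 * ε * ((n + 3) ^ 2 * K ^ 2) := by
    rw [abs_mul]; exact mul_le_mul h2 h1 (abs_nonneg _) (by linarith)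
  have h4 : V * (1 - M') ≤ 2 * K ^ 2 * ε := by
    have := (abs_le.mp hM').1
    calc V * (1 - M') ≤ V * ε := mul_le_mul_of_nonneg_left (by linarith) hV0
      _ ≤ 2 * K ^ 2 * ε := mul_le_mul_of_nonneg_right hV h0
  have h5 := mul_le_mul_of_nonneg_left h4 (show 0 ≤ n + 2 by linarith)
  have h6 := (abs_le.mp h3).1
  have h7 : (n + 2) * (2 * K ^ 2 * ε) ≤ (n + 3) ^ 2 * (2 * K ^ 2 * ε) :=
    mul_le_mul_of_nonneg_right (by nlinarith) (by positivity)
  have e : (n + 2) * ((V + M * φ ^ 2) * M') + (n + 2) * (n + 1) * (M * φ * (M' * φ')) +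
        2 * (n + 2) * g * (M * φ * M') + g ^ 2 * (M * M') =
      (n + 2) * V + Q - (n + 2) * (V * (1 - M')) + (M * M' - 1) * Q := by
    rw [hQ]; ring
  rw [e]
  nlinarith

/-- the ideal second moment on one cell -/
lemma ideal {N u : ℕ} {lev : X → ℕ} {m : X → ℝ} {ε : ℝ} (hε : ε ≤ 1 / 2) (hl : ∀ x, lev x < N)
    (hm0 : ∀ x, 0 ≤ m x) (hm : ∀ i < N, |∑ x with lev x = i, m x - 1| ≤ ε)
    (hP : ∑ i ∈ range N, P1 N u i = 1) (ψ : X → ℝ) (g K : ℝ) (hψ : ∀ x, |ψ x| ≤ K)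
    (hg : |g| ≤ K) :
    (u + 2) * ∑ x, m x * P1 N u (lev x) * (ψ x - levMean lev m ψ (lev x)) ^ 2 +
      Form N u (levMean lev m ψ) g ≤
    ∑ a, ∑ a', m a * m a' * Hh N u (lev a) (lev a') *
      ((u + 2) * ψ a ^ 2 + (u + 2) * (u + 1) * (ψ a * ψ a') + 2 * (u + 2) * g * ψ a + g ^ 2) +
      5 * (u + 3) ^ 2 * ε * K ^ 2 := by
  have hH : ∑ i ∈ range N, ∑ i' ∈ range N, Hh N u i i' = 1 := hP
  set φ := levMean lev m ψ with hφ
  set V := A lev m (fun x => (ψ x - φ (lev x)) ^ 2) with hV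
  have e1 : ∑ x, m x * P1 N u (lev x) * (ψ x - φ (lev x)) ^ 2 =
      ∑ i ∈ range N, ∑ i' ∈ range N, Hh N u i i' * V i := by
    rw [sum_congr rfl fun x _ => mul_right_comm (m x) _ _,
      fib1 hl m (fun x => (ψ x - φ (lev x)) ^ 2) (P1 N u)]
    refine sum_congr rfl fun i _ => ?_
    rw [P1, mul_sum]
    exact sum_congr rfl fun i' _ => mul_comm _ _
  have e2 : Form N u φ g = ∑ i ∈ range N, ∑ i' ∈ range N, Hh N u i i' *
      ((u + 2) * φ i ^ 2 + (u + 2) * (u + 1) * (φ i * φ i') + 2 * (u + 2) * g * φ i + g ^ 2) := by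
    have e : g ^ 2 = ∑ i ∈ range N, ∑ i' ∈ range N, Hh N u i i' * g ^ 2 := by
      simp only [← sum_mul]
      rw [hH, one_mul]
    rw [Form]
    conv_lhs => rw [e]
    simp only [P1, mul_sum, sum_mul, ← sum_add_distrib]
    exact sum_congr rfl fun i _ => sum_congr rfl fun i' _ => by ring
  have e3 : ∑ a, ∑ a', m a * m a' * Hh N u (lev a) (lev a') *
      ((u + 2) * ψ a ^ 2 + (u + 2) * (u + 1) * (ψ a * ψ a') + 2 * (u + 2) * g * ψ a + g ^ 2) =
      (u + 2) * ∑ a, ∑ a', m a * m a' * Hh N u (lev a) (lev a') * (ψ a ^ 2 * 1) +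
      (u + 2) * (u + 1) * ∑ a, ∑ a', m a * m a' * Hh N u (lev a) (lev a') * (ψ a * ψ a') +
      2 * (u + 2) * g * ∑ a, ∑ a', m a * m a' * Hh N u (lev a) (lev a') * (ψ a * 1) +
      g ^ 2 * ∑ a, ∑ a', m a * m a' * Hh N u (lev a) (lev a') * (1 * 1) := by
    simp only [mul_sum, ← sum_add_distrib]
    exact sum_congr rfl fun i _ => sum_congr rfl fun i' _ => by ring
  have e4 : 5 * (u + 3) ^ 2 * ε * K ^ 2 =
      ∑ i ∈ range N, ∑ i' ∈ range N, Hh N u i i' * (5 * (u + 3) ^ 2 * ε * K ^ 2) := by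
    simp only [← sum_mul]
    rw [hH, one_mul]
  rw [e1, e2, e3, e4, fib2 hl m (fun a => ψ a ^ 2) (fun _ => 1), fib2 hl m ψ ψ,
    fib2 hl m ψ (fun _ => 1), fib2 hl m (fun _ => 1) (fun _ => 1)]
  simp only [mul_sum, ← sum_add_distrib]
  refine sum_le_sum fun i hi => sum_le_sum fun i' hi' => ?_
  have hi1 := hm i (mem_range.mp hi)
  have hi2 := hm i' (mem_range.mp hi')
  have hM : 0 < ∑ x with lev x = i, m x := by linarith [(abs_le.mp hi1).1]
  have hM' : 0 < ∑ x with lev x = i', m x := by linarith [(abs_le.mp hi2).1]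
  have hv := A_var (lev := lev) (m := m) ψ hM
  have hV0 : 0 ≤ V i := A_nonneg hm0 (fun x => sq_nonneg _) i
  have hV1 : V i ≤ 2 * K ^ 2 := by
    have h1 := A_sq_le (lev := lev) hm0 hψ i
    have h2 : 0 ≤ (∑ x with lev x = i, m x) * φ i ^ 2 := mul_nonneg hM.le (sq_nonneg _)
    have h3 : (∑ x with lev x = i, m x) * K ^ 2 ≤ 2 * K ^ 2 :=
      mul_le_mul_of_nonneg_right (by linarith [(abs_le.mp hi1).2]) (sq_nonneg _)
    have h4 : V i + (∑ x with lev x = i, m x) * φ i ^ 2 ≤ (∑ x with lev x = i, m x) * K ^ 2 := by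
      rw [hV, hφ, ← hv]; exact h1
    linarith
  have ht := term (Nat.cast_nonneg u) (by linarith) hi1 hi2 hV0 hV1 (mean_abs hm0 hψ hM)
    (mean_abs hm0 hψ hM') hg
  have := mul_le_mul_of_nonneg_left ht (Hh_nonneg N u i i')
  rw [hv, A_mean ψ hM, A_mean ψ hM', A_one, A_one]
  rw [← hφ, ← hV]
  linarith

end L2

open L2 in
theorem p_l2 (hCnt : S_Cnt) : S_L2 := by
  intro u hu
  obtain ⟨c0, C0, hc0, hC0, hH⟩ := hCnt.2.2.2.2.2 u hu
  have hu0 : (0 : ℝ) ≤ u := Nat.cast_nonneg u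
  have hic : 0 < 2 / c0 := by positivity
  have hsq : (0 : ℝ) ≤ (u + 3) ^ 2 := sq_nonneg _
  refine ⟨2 * C0 + 2 / c0 + 6 * (u + 3) ^ 2 + 4, 1 / (12 * (u + 2)), by linarith, by positivity, ?_⟩
  intro X Z Ce _ _ _ _ N lev m π cell ε hε h
  set C := 2 * C0 + 2 / c0 + 6 * (u + 3) ^ 2 + 4 with hC
  have hN0 : (0 : ℝ) ≤ N := Nat.cast_nonneg N
  have hε0 : 0 < ε := by
    by_contra hn
    have := mul_nonpos_of_nonpos_of_nonneg (not_lt.mp hn) hN0
    linarith [h.Npos]
  have hε1 : ε * (12 * (u + 2)) ≤ 1 := by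
    rwa [le_div_iff₀ (by positivity)] at hε
  have hε2 : ε ≤ 1 / 2 := by nlinarith
  have hNge : 12 * (u + 2) ≤ N := by
    have : (12 * (u + 2) : ℝ) ≤ N := by
      have h1 := h.Npos
      by_contra hn
      have := mul_lt_mul_of_pos_left (not_le.mp hn) hε0
      linarith
    exact_mod_cast this
  have hNpos : (0 : ℝ) < N := by
    have : 0 < N := by omega
    exact_mod_cast this
  obtain ⟨hP, -, hP1, hH2⟩ := hH N hNge
  have hmass := mass (lev := lev) (m := m) (u := u) (by linarith : ε ≤ 1) h.m_sum hP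
  have hcard : (0 : ℝ) < Fintype.card Ce := Nat.cast_pos.mpr Fintype.card_pos
  refine ⟨?_, ?_, ?_, ?_, ?_⟩
  · have h1 := tvp h (fun _ => 1) (fun _ => 1) (by simp) (by simp)
    simp only [mul_one] at h1
    obtain ⟨a1, a2⟩ := abs_le.mp h1
    obtain ⟨b1, b2⟩ := abs_le.mp hmass
    have : 4 * ε ≤ C * ε := mul_le_mul_of_nonneg_right (by linarith) hε0.le
    rw [abs_le]
    constructor <;> linarith
  · intro 𝒞
    have h1 := tv h (fun c _ _ => ind (fun c => c ∈ 𝒞) c) 1 zero_le_one (fun c _ _ => ind_abs _ c)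
    have e1 : ∑ z, ∑ x, π z x * ind (fun c => c ∈ 𝒞) (cell z) =
        ∑ z with cell z ∈ 𝒞, ∑ x, π z x := by
      rw [sum_filter]
      refine sum_congr rfl fun z _ => ?_
      unfold ind
      by_cases hz : cell z ∈ 𝒞 <;> simp [hz]
    set ν := ∑ i ∈ range N, ∑ i' ∈ range N, Hh N u i i' *
      (A lev m (fun _ => 1) i * A lev m (fun _ => 1) i') with hν
    have e2 : ∑ c, ∑ a, ∑ a', m a * m a' * Hh N u (lev a) (lev a') * ind (fun c => c ∈ 𝒞) c =
        𝒞.card * ν := by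
      have e3 : ∀ c, ∑ a, ∑ a', m a * m a' * Hh N u (lev a) (lev a') * ind (fun c => c ∈ 𝒞) c =
          ind (fun c => c ∈ 𝒞) c * ν := by
        intro c
        rw [hν, ← fib2 h.lev_lt m (fun _ => 1) (fun _ => 1)]
        simp only [mul_sum]
        exact sum_congr rfl fun a _ => sum_congr rfl fun a' _ => by ring
      simp only [e3]
      rw [← sum_mul]
      congr 1
      have e4 : ∀ c, ind (fun c => c ∈ 𝒞) c = if c ∈ 𝒞 then (1 : ℝ) else 0 := by
        intro c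
        unfold ind
        by_cases hz : c ∈ 𝒞 <;> simp [hz]
      simp only [e4]
      rw [sum_ite_mem, univ_inter, sum_const, nsmul_eq_mul, mul_one]
    rw [e1, e2, mul_one] at h1
    have a1 := (abs_le.mp h1).1
    have b1 := (abs_le.mp hmass).1
    have r0 : (0 : ℝ) ≤ 𝒞.card / Fintype.card Ce := by positivity
    have r1 : (𝒞.card : ℝ) / Fintype.card Ce ≤ 1 := by
      rw [div_le_one hcard]
      exact_mod_cast card_le_univ 𝒞
    have e5 : 𝒞.card * ν / Fintype.card Ce = 𝒞.card / Fintype.card Ce * ν := by ring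
    have : 4 * ε ≤ C * ε := mul_le_mul_of_nonneg_right (by linarith) hε0.le
    rw [e5] at a1
    nlinarith
  · intro E
    have h1 := tvp h (ind E) (fun _ => 1) (ind_abs E) (by simp)
    have e1 : ∑ z, ∑ x, π z x * (ind E (x 0) * 1) = ∑ z, ∑ x with E (x 0), π z x := by
      refine sum_congr rfl fun z _ => ?_
      rw [sum_filter]
      refine sum_congr rfl fun x _ => ?_
      unfold ind
      by_cases hz : E (x 0) <;> simp [hz]
    rw [e1] at h1
    obtain ⟨a1, a2⟩ := abs_le.mp h1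
    have hA := A_ind h.lev_lt m E
    have hA0 := A_nonneg (lev := lev) h.m_nonneg (ind_nonneg E)
    have hS0 : 0 ≤ ∑ a with E a, m a := sum_nonneg fun a _ => h.m_nonneg a
    have up : ∑ i ∈ range N, ∑ i' ∈ range N, Hh N u i i' *
        (A lev m (ind E) i * A lev m (fun _ => 1) i') ≤ 2 * C0 * (∑ a with E a, m a) / N := by
      rw [← hA, mul_sum, sum_div]
      refine sum_le_sum fun i hi => ?_
      calc ∑ i' ∈ range N, Hh N u i i' * (A lev m (ind E) i * A lev m (fun _ => 1) i')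
          ≤ ∑ i' ∈ range N, Hh N u i i' * (A lev m (ind E) i * 2) := by
            refine sum_le_sum fun i' hi' => mul_le_mul_of_nonneg_left
              (mul_le_mul_of_nonneg_left ?_ (hA0 i)) (Hh_nonneg N u i i')
            rw [A_one]
            linarith [(abs_le.mp (h.m_sum i' (mem_range.mp hi'))).2]
        _ = N * P1 N u i * (A lev m (ind E) i * 2) / N := by
            rw [← sum_mul, P1]
            field_simp
        _ ≤ C0 * (A lev m (ind E) i * 2) / N := by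
            refine div_le_div_of_nonneg_right (mul_le_mul_of_nonneg_right
              (hP1 i (mem_range.mp hi)).2 (by linarith [hA0 i])) hN0
        _ = _ := by ring
    have lo : c0 / 2 * ((∑ a with E a, m a) / N) ≤ ∑ i ∈ range N, ∑ i' ∈ range N, Hh N u i i' *
        (A lev m (ind E) i * A lev m (fun _ => 1) i') := by
      rw [← hA, sum_div, mul_sum]
      refine sum_le_sum fun i hi => ?_
      calc c0 / 2 * (A lev m (ind E) i / N) = c0 * (A lev m (ind E) i * (1 / 2)) / N := by ring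
        _ ≤ N * P1 N u i * (A lev m (ind E) i * (1 / 2)) / N := by
            refine div_le_div_of_nonneg_right (mul_le_mul_of_nonneg_right
              (hP1 i (mem_range.mp hi)).1 (by linarith [hA0 i])) hN0
        _ = ∑ i' ∈ range N, Hh N u i i' * (A lev m (ind E) i * (1 / 2)) := by
            rw [← sum_mul, P1]
            field_simp
        _ ≤ _ := by
            refine sum_le_sum fun i' hi' => mul_le_mul_of_nonneg_left
              (mul_le_mul_of_nonneg_left ?_ (hA0 i)) (Hh_nonneg N u i i')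
            rw [A_one]
            linarith [(abs_le.mp (h.m_sum i' (mem_range.mp hi'))).1]
    constructor
    · have : 2 * C0 * (∑ a with E a, m a) / N ≤ C * (∑ a with E a, m a) / N :=
        div_le_div_of_nonneg_right (mul_le_mul_of_nonneg_right (by linarith) hS0) hN0
      linarith
    · have hπ0 : 0 ≤ ∑ z, ∑ x with E (x 0), π z x + ε :=
        add_nonneg (sum_nonneg fun z _ => sum_nonneg fun x _ => h.nonneg z x) hε0.le
      have h2 : c0 / 2 * ((∑ a with E a, m a) / N) ≤ ∑ z, ∑ x with E (x 0), π z x + ε := by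
        linarith
      have h3 := mul_le_mul_of_nonneg_left h2 hic.le
      have e2 : 2 / c0 * (c0 / 2 * ((∑ a with E a, m a) / N)) = (∑ a with E a, m a) / N := by
        field_simp
      rw [e2] at h3
      exact h3.trans (mul_le_mul_of_nonneg_right (by linarith) hπ0)
  · intro E E'
    have h1 := tvp h (ind E) (ind E') (ind_abs E) (ind_abs E')
    have e1 : ∑ z, ∑ x, π z x * (ind E (x 0) * ind E' (x 1)) =
        ∑ z, ∑ x with E (x 0) ∧ E' (x 1), π z x := by
      refine sum_congr rfl fun z _ => ?_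
      rw [sum_filter]
      refine sum_congr rfl fun x _ => ?_
      unfold ind
      by_cases hz : E (x 0) <;> by_cases hz' : E' (x 1) <;> simp [hz, hz']
    rw [e1] at h1
    have a2 := (abs_le.mp h1).2
    have hA0 := A_nonneg (lev := lev) h.m_nonneg (ind_nonneg E)
    have hA0' := A_nonneg (lev := lev) h.m_nonneg (ind_nonneg E')
    have hS0 : 0 ≤ ∑ a with E a, m a := sum_nonneg fun a _ => h.m_nonneg a
    have hS0' : 0 ≤ ∑ a with E' a, m a := sum_nonneg fun a _ => h.m_nonneg a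
    have up : ∑ i ∈ range N, ∑ i' ∈ range N, Hh N u i i' *
        (A lev m (ind E) i * A lev m (ind E') i') ≤
        C0 * ((∑ a with E a, m a) / N * ((∑ a with E' a, m a) / N)) := by
      rw [← A_ind h.lev_lt m E, ← A_ind h.lev_lt m E', div_mul_div_comm, sum_mul_sum, sum_div,
        mul_sum]
      refine sum_le_sum fun i hi => ?_
      rw [sum_div, mul_sum]
      refine sum_le_sum fun i' hi' => ?_
      calc Hh N u i i' * (A lev m (ind E) i * A lev m (ind E') i')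
          = (N : ℝ) ^ 2 * Hh N u i i' * (A lev m (ind E) i * A lev m (ind E') i' / (N * N)) := by
            field_simp
        _ ≤ _ := mul_le_mul_of_nonneg_right (hH2 i (mem_range.mp hi) i' (mem_range.mp hi')).2
            (div_nonneg (mul_nonneg (hA0 i) (hA0' i')) (by positivity))
    have : C0 * ((∑ a with E a, m a) / N * ((∑ a with E' a, m a) / N)) ≤
        C * ((∑ a with E a, m a) / N * ((∑ a with E' a, m a) / N)) :=
      mul_le_mul_of_nonneg_right (by linarith) (by positivity)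
    linarith
  · intro ψ g K hψ hg
    have h1 := tv h (fun c a a' => (u + 2) * ψ a ^ 2 + (u + 2) * (u + 1) * (ψ a * ψ a') +
      2 * (u + 2) * g c * ψ a + g c ^ 2) ((u + 3) ^ 2 * K ^ 2) (by positivity)
      (fun c a a' => quad_abs hu0 (hψ a) (hψ a') (hg c))
    have a1 := (abs_le.mp h1).1
    rw [sum_congr rfl fun z _ => expand (π z) (h.symm z) ψ (g (cell z))]
    have h2 := sum_le_sum (s := univ) fun c _ =>
      ideal hε2 h.lev_lt h.m_nonneg h.m_sum hP ψ (g c) K hψ (hg c)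
    rw [sum_add_distrib, sum_add_distrib, sum_const, sum_const, card_univ, nsmul_eq_mul,
      nsmul_eq_mul] at h2
    have h3 := div_le_div_of_nonneg_right h2 hcard.le
    rw [add_div, add_div, mul_div_cancel_left₀ _ hcard.ne', mul_div_cancel_left₀ _ hcard.ne'] at h3
    have h4 : 6 * (u + 3) ^ 2 * (ε * K ^ 2) ≤ C * (ε * K ^ 2) :=
      mul_le_mul_of_nonneg_right (by linarith) (by positivity)
    linarith

end Pool.Agent.P.MP_b8021b_nt.VE
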