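import Pool.Agent.P.MP_b8021b_nt.VE.PLocS

/-! B8: rigidity on a fibre. -/

namespace Pool.Agent.P.MP_b8021b_nt.VE

open Polynomial Finset
open scoped Classical

noncomputable section

namespace LocT

open LocS

variable {X Z : Type} [Fintype X] [Fintype Z] {N u : ℕ} {lev : X → ℕ} {m : X → ℝ}
  {π : Z → (Fin (u + 2) → X) → ℝ} {ε C : ℝ}

/-- the level means of an anti-invariant function vanish -/
lemma levMean_zero {ι : X → X} {ψ : X → ℝ} (h1 : ∀ x, ι (ι x) = x) (h2 : ∀ x, lev (ι x) = lev x)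
    (h3 : ∀ x, m (ι x) = m x) (h4 : ∀ x, m x ≠ 0 → ψ (ι x) = -ψ x) (i : ℕ) :
    levMean lev m ψ i = 0 := by
  unfold levMean
  have hb : Function.Bijective ι := Function.Involutive.bijective h1
  have e := hb.sum_comp fun x => if lev x = i then m x * ψ x else 0
  have e2 : ∑ x, (if lev (ι x) = i then m (ι x) * ψ (ι x) else 0) =
      -∑ x, if lev x = i then m x * ψ x else 0 := by
    rw [← sum_neg_distrib]
    refine sum_congr rfl fun x _ => ?_
    rw [h2, h3]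
    by_cases hm : m x = 0
    · simp [hm]
    · rw [h4 x hm]; split_ifs <;> ring
  have e3 : ∑ x, (if lev x = i then m x * ψ x else 0) = 0 := by linarith
  rw [sum_filter, e3, zero_div]

lemma ar {lam K η U T S R : ℝ} (hl : 0 ≤ lam) (hK : 0 ≤ K) (hη : 0 ≤ η)
    (c5 : U ^ 2 * T + R ≤ η ^ 2) (h : S ≤ 2 * (lam + 0) ^ 2 + (U * K) ^ 2 * T) :
    S + R * K ^ 2 ≤ (2 * lam + K * η) ^ 2 := by
  have e2 := mul_le_mul_of_nonneg_left c5 (sq_nonneg K)
  have e3 : 0 ≤ lam * (K * η) := mul_nonneg hl (mul_nonneg hK hη)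
  linarith [sq_nonneg lam]

/-- one step of the iteration -/
lemma step (H : L2c N lev m π (fun _ => ()) ε C) {ι : X → X} {ψ : X → ℝ} {c η D h lam k Λ : ℝ}
    (h1 : ∀ x, ι (ι x) = x) (h2 : ∀ x, lev (ι x) = lev x)
    (h3 : ∀ x, m (ι x) = m x) (h4 : ∀ x, m x ≠ 0 → ψ (ι x) = -ψ x) (hc : 0 < c)
    (hP : ∀ i < N, c ≤ N * P1 N u i) (hF : ∀ (φ : ℕ → ℝ) (A : ℝ), 0 ≤ Form N u φ A)
    (hl : 0 < lam) (hh : pm π (fun _ x => lam < |∑ i, ψ (x i) + 0|) ≤ h)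
    (c2 : C ^ 2 * (u + 2) * k ≤ 1 / 2) (c3 : 2 * C * (u + 3) * (h + ε) ≤ k / 2) (c4 : C * ε ≤ 1)
    (c5 : (u + 3) ^ 2 * (h + (u + 2) * (C * (2 * C * (u + 3) * (h + ε)) + ε)) + C * ε ≤ η ^ 2)
    (hD : 0 < D) (c6 : 1 / c ≤ D ^ 2 * (k / 2)) (hη : 0 ≤ η) (c7 : η * D * (u + 2) ≤ 1 / 2)
    (hΛ : 0 ≤ Λ) (hf : mm N m (fun x => Λ < |ψ x|) ≤ k) :
    mm N m (fun x => (2 * D + 1) * lam + Λ / 2 < |ψ x|) ≤ k := by
  have hN := H.loc.NR_pos
  have hm := H.loc.m_nonneg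
  have hu : (0 : ℝ) ≤ u := Nat.cast_nonneg u
  have t1 := tail H (ψ := ψ) (At := fun _ => 0) (Mg := 0) hh hΛ hf (fun _ => by simp) c2
  set K := lam + (u + 2) * Λ + 0 with hK
  have hK0 : 0 ≤ K := by positivity
  have t2 := trunc H (ψ := ψ) (At := fun _ => 0) (g := fun _ => 0) (o := 0) hh hK0
    (by positivity) t1 (fun _ => by simpa using hK0) (fun _ => by simp) c4
  set σ := 2 * lam + K * η with hσ
  have hσ0 : 0 < σ := by positivity
  have t3 := (H.l2 (fun x => tr K (ψ x)) (fun _ => 0) K (fun x => abs_tr_le hK0 _)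
    (fun _ => by simpa using hK0)).trans (ar hl.le hK0 hη c5 t2)
  have t4 : ∀ i, levMean lev m (fun x => tr K (ψ x)) i = 0 :=
    levMean_zero h1 h2 h3 fun x hx => by rw [h4 x hx, tr_neg hK0]
  have t5 : 0 ≤ (∑ _c : Unit, Form N u (levMean lev m fun x => tr K (ψ x)) 0) /
      Fintype.card Unit := div_nonneg (sum_nonneg fun _ _ => hF _ _) (Nat.cast_nonneg _)
  simp only [t4, sub_zero] at t3
  have t6 : 0 ≤ ∑ x, m x * P1 N u (lev x) * tr K (ψ x) ^ 2 :=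
    sum_nonneg fun x _ => mul_nonneg (mul_nonneg (hm x) (P1_nonneg _ _ _)) (sq_nonneg _)
  have t7 : ∑ x, m x * P1 N u (lev x) * tr K (ψ x) ^ 2 ≤ σ ^ 2 := by linarith [mul_nonneg hu t6]
  have t8 : c * ∑ x, m x * tr K (ψ x) ^ 2 ≤ N * ∑ x, m x * P1 N u (lev x) * tr K (ψ x) ^ 2 := by
    rw [mul_sum, mul_sum]
    refine sum_le_sum fun x _ => ?_
    have := mul_le_mul_of_nonneg_right (hP _ (H.loc.lev_lt x))
      (mul_nonneg (hm x) (sq_nonneg (tr K (ψ x))))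
    linarith
  have t9 : ∑ x, m x * tr K (ψ x) ^ 2 ≤ 1 / c * (N * σ ^ 2) := by
    rw [one_div, le_inv_mul_iff₀ hc]
    exact t8.trans (mul_le_mul_of_nonneg_left t7 hN.le)
  have t10 : mm N m (fun x => D * σ < |tr K (ψ x)|) ≤ k / 2 := by
    have e1 := (chebyshev hm (fun x => tr K (ψ x)) (l := D * σ) (by positivity)).trans t9
    rw [← mm_eq, div_le_iff₀ hN]
    have e2 : 1 / c * (N * σ ^ 2) ≤ (D * σ) ^ 2 * (k / 2 * N) := by
      have := mul_le_mul_of_nonneg_right c6 (by positivity : 0 ≤ N * σ ^ 2)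
      linarith
    exact le_of_mul_le_mul_left (e1.trans e2) (by positivity)
  have t11 := mm_or (N := N) hm (p := fun x => (2 * D + 1) * lam + Λ / 2 < |ψ x|)
    (q := fun x => K < |ψ x|) (r := fun x => D * σ < |tr K (ψ x)|) ?_
  · linarith
  intro x hx
  by_contra hcon
  push Not at hcon
  obtain ⟨e1, e2⟩ := hcon
  rw [tr_of_le e1] at e2
  have a1 : D * σ = 2 * D * lam + η * D * lam + η * D * (u + 2) * Λ := by rw [hσ, hK]; ring
  have a2 : 0 ≤ η * D := by positivity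
  have a3 : η * D ≤ 1 := by linarith [mul_nonneg a2 hu]
  have a4 := mul_le_mul_of_nonneg_right c7 hΛ
  have a5 := mul_le_mul_of_nonneg_right a3 hl.le
  linarith

end LocT

open LocS LocT in
theorem p_locT (hCnt : S_Cnt) (hFE : S_FE) (hL2 : S_L2) : S_LocT := by
  intro u hu
  obtain ⟨C, ε₀, hC, hε₀, HL⟩ := exists_l2c hL2 hu
  obtain ⟨CF, hCF, HF⟩ := hFE u hu
  obtain ⟨c, C', hc, -, HC⟩ := hCnt.2.2.2.2.2 u hu
  have hu0 : (0 : ℝ) ≤ u := Nat.cast_nonneg u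
  obtain ⟨k, hk, k2⟩ : ∃ k : ℝ, 0 < k ∧ C ^ 2 * (u + 2) * k ≤ 1 / 2 := by
    refine ⟨1 / (2 * (C ^ 2 * (u + 2))), by positivity, le_of_eq ?_⟩
    field_simp
  obtain ⟨D, hD, c6⟩ : ∃ D : ℝ, 0 < D ∧ 1 / c ≤ D ^ 2 * (k / 2) := by
    refine ⟨√((1 / c) / (k / 2)), by positivity, ?_⟩
    rw [Real.sq_sqrt (by positivity), div_mul_cancel₀ _ (by positivity)]
  obtain ⟨η, hη0, c7⟩ : ∃ η : ℝ, 0 < η ∧ η * D * (u + 2) ≤ 1 / 2 := by
    refine ⟨1 / (2 * (D * (u + 2))), by positivity, le_of_eq ?_⟩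
    field_simp
  set E : ℝ := 2 * C * (u + 3) with hE
  set W : ℝ := (u + 3) ^ 2 * (1 + (u + 2) * (C * (2 * E) + 1)) + C with hW
  have hE0 : 0 < E := by positivity
  have hW0 : 0 < W := by positivity
  obtain ⟨h₀, h0, a1, a3, a5, a6, a7⟩ : ∃ h₀ : ℝ, 0 < h₀ ∧ h₀ ≤ ε₀ ∧
      h₀ * (12 * (u + 2)) ≤ 1 ∧ h₀ * (4 * E) ≤ k ∧ h₀ * C ≤ 1 ∧ h₀ * W ≤ η ^ 2 := by
    refine ⟨min ε₀ (min (1 / (12 * (u + 2)))
      (min (k / (4 * E)) (min (1 / C) (η ^ 2 / W)))), by positivity, ?_, ?_, ?_, ?_, ?_⟩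
    all_goals first | rw [← le_div_iff₀ (by positivity)] | skip
    all_goals simp only [min_le_iff, le_refl, true_or, or_true]
  set C₁ : ℝ := 2 * D + 1 with hC₁
  have hC₁0 : 0 < C₁ := by positivity
  set C₂ : ℝ := 1 + (u + 2) * (2 * C₁ + 1) with hC₂
  have hC₂0 : 1 ≤ C₂ := by
    have : 0 ≤ (u + 2) * (2 * C₁ + 1) := by positivity
    linarith
  refine ⟨C₂ + E, h₀, by linarith, h0, ?_⟩
  intro X Z _ _ N lev m π ε h lam ι ψ hε hh hl hloc i1 i2 i3 i4 heq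
  have H := HL X Z Unit N lev m π (fun _ => ()) ε (hε.trans a1) hloc
  have heq' : pm π (fun _ x => lam < |∑ i, ψ (x i) + 0|) ≤ h := by
    simp only [add_zero]
    rwa [← pm_eq]
  have hε0 := hloc.pos
  have hh0 : 0 ≤ h := (pm_nonneg hloc.nonneg _).trans heq'
  have hN : 12 * (u + 2) ≤ N := le_of_Npos hloc.Npos (by
    push_cast; exact (mul_le_mul_of_nonneg_right hε (by positivity)).trans a3)
  have c3 : E * (h + ε) ≤ k / 2 := by
    linarith [mul_le_mul_of_nonneg_left hh hE0.le, mul_le_mul_of_nonneg_left hε hE0.le]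
  have c4 : C * ε ≤ 1 := by linarith [mul_le_mul_of_nonneg_left hε (show 0 ≤ C by linarith)]
  have c5 : (u + 3) ^ 2 * (h + (u + 2) * (C * (E * (h + ε)) + ε)) + C * ε ≤ η ^ 2 := by
    refine le_trans ?_ a7
    have b2 : h + (u + 2) * (C * (E * (h + ε)) + ε) ≤
        h₀ + (u + 2) * (C * (E * (h₀ + h₀)) + h₀) := by gcongr
    have b3 := mul_le_mul_of_nonneg_left b2 (sq_nonneg ((u : ℝ) + 3))
    have b4 : C * ε ≤ C * h₀ := by gcongr
    rw [hW]
    linarith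
  have hit : ∀ j : ℕ, mm N m (fun x => 2 * C₁ * lam + (∑ x, |ψ x|) / 2 ^ j < |ψ x|) ≤ k := by
    intro j
    induction j with
    | zero =>
      refine le_trans (mm_mono (q := fun _ => False) hloc.m_nonneg fun x hx => ?_) ?_
      · have b1 := single_le_sum (f := fun x => |ψ x|) (fun x _ => abs_nonneg _) (mem_univ x)
        have b2 : 0 < 2 * C₁ * lam := by positivity
        simp only [pow_zero, div_one] at hx
        linarith
      · simp [mm, hk.le]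
    | succ j ih =>
      have h1 := step H i1 i2 i3 i4 hc (fun i hi => ((HC N hN).2.2.1 i hi).1)
        (fun φ A => (HF N hN φ A).1) hl heq' k2 c3 c4 c5 hD c6 hη0.le c7 (by positivity) ih
      refine le_trans (mm_mono hloc.m_nonneg fun x hx => lt_of_eq_of_lt ?_ hx) h1
      rw [pow_succ, hC₁]; field_simp; ring
  obtain ⟨j, hj⟩ : ∃ j : ℕ, (∑ x, |ψ x|) / 2 ^ j ≤ lam := by
    obtain ⟨j, hj⟩ := pow_unbounded_of_one_lt ((∑ x, |ψ x|) / lam) (one_lt_two (α := ℝ))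
    refine ⟨j, ?_⟩
    rw [div_lt_iff₀ hl] at hj
    rw [div_le_iff₀ (by positivity)]
    linarith
  have hf' : mm N m (fun x => (2 * C₁ + 1) * lam < |ψ x|) ≤ k :=
    le_trans (mm_mono hloc.m_nonneg fun x hx => lt_of_le_of_lt (by linarith) hx) (hit j)
  have h3 := tail H (ψ := ψ) (At := fun _ => 0) (Mg := 0) heq' (by positivity) hf'
    (fun _ => by simp) k2
  have e : lam + (u + 2) * ((2 * C₁ + 1) * lam) + 0 = C₂ * lam := by rw [hC₂]; ring
  have e'' : 0 ≤ E * lam := by positivity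
  rw [mm_eq]
  refine le_trans (mm_mono hloc.m_nonneg fun x hx => lt_of_le_of_lt (by linarith) hx)
    (h3.trans ?_)
  exact mul_le_mul_of_nonneg_right (by linarith) (by linarith)

end

end Pool.Agent.P.MP_b8021b_nt.VE
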