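import Pool.Agent.P.MP_b8021b_nt.VE.StB

/-! B6: a bound on most cells gives a bound everywhere. -/

namespace Pool.Agent.P.MP_b8021b_nt.VE

open Polynomial Finset
open scoped Classical

namespace Rem

lemma lip_one (L : ℝ[X]) : ∃ K : ℝ, 0 ≤ K ∧ ∀ x ∈ Set.Icc (0 : ℝ) 1, ∀ y ∈ Set.Icc (0 : ℝ) 1,
    |L.eval x - L.eval y| ≤ K * |x - y| := by
  induction L using Polynomial.induction_on' with
  | add p q hp hq =>
    obtain ⟨K, hK, h⟩ := hp
    obtain ⟨K', hK', h'⟩ := hq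
    refine ⟨K + K', by positivity, fun x hx y hy => ?_⟩
    have h1 := h x hx y hy
    have h2 := h' x hx y hy
    simp only [eval_add]
    calc |eval x p + eval x q - (eval y p + eval y q)|
        = |(eval x p - eval y p) + (eval x q - eval y q)| := by ring_nf
      _ ≤ _ := abs_add_le _ _
      _ ≤ _ := by linarith
  | monomial n a =>
    refine ⟨|a| * n, by positivity, fun x hx y hy => ?_⟩
    simp only [eval_monomial]
    rw [← mul_sub, abs_mul, mul_assoc]
    refine mul_le_mul_of_nonneg_left ?_ (abs_nonneg _)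
    have h1 := abs_pow_sub_pow_le x y n
    have h2 : max |x| |y| ^ (n - 1) ≤ 1 := by
      refine pow_le_one₀ (le_max_of_le_left (abs_nonneg _)) (max_le ?_ ?_)
      · rw [abs_of_nonneg hx.1]; exact hx.2
      · rw [abs_of_nonneg hy.1]; exact hy.2
    have h3 : 0 ≤ |x - y| * n := by positivity
    calc _ ≤ _ := h1
      _ ≤ |x - y| * n * 1 := mul_le_mul_of_nonneg_left h2 h3
      _ = _ := by ring

/-- the inequality of Markov, with an unspecified constant -/
lemma markov (d : ℕ) : ∃ K : ℝ, 1 ≤ K ∧ ∀ (P : ℝ[X]) (S : ℝ), P.natDegree ≤ d →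
    (∀ x ∈ Set.Icc (0 : ℝ) 1, |P.eval x| ≤ S) →
    ∀ x ∈ Set.Icc (0 : ℝ) 1, ∀ y ∈ Set.Icc (0 : ℝ) 1,
      |P.eval x - P.eval y| ≤ K * S * |x - y| := by
  set v : ℕ → ℝ := fun k => (k : ℝ) / (d + 1) with hv
  have hd : (0 : ℝ) < d + 1 := by positivity
  have hinj : Set.InjOn v (range (d + 1) : Finset ℕ) := by
    intro a _ b _ h
    simp only [hv] at h
    have := (div_left_inj' hd.ne').mp h
    exact_mod_cast this
  choose K hK0 hK using fun k => lip_one (Lagrange.basis (range (d + 1)) v k)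
  have hs : 0 ≤ ∑ k ∈ range (d + 1), K k := sum_nonneg fun k _ => hK0 k
  refine ⟨1 + ∑ k ∈ range (d + 1), K k, by linarith, fun P S hP hS x hx y hy => ?_⟩
  have hS0 : 0 ≤ S := (abs_nonneg _).trans (hS x hx)
  have hdeg : P.degree < (range (d + 1)).card := by
    rw [card_range]
    exact lt_of_le_of_lt degree_le_natDegree (by exact_mod_cast Nat.lt_succ_of_le hP)
  have hP' := Lagrange.eq_interpolate hinj hdeg
  rw [Lagrange.interpolate_apply] at hP'
  have he : ∀ z, P.eval z =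
      ∑ k ∈ range (d + 1), P.eval (v k) * (Lagrange.basis (range (d + 1)) v k).eval z := by
    intro z
    conv_lhs => rw [hP']
    simp only [eval_finsetSum, eval_mul, eval_C]
  rw [he x, he y, ← sum_sub_distrib]
  refine (abs_sum_le_sum_abs _ _).trans ?_
  have h1 : ∀ k ∈ range (d + 1),
      |P.eval (v k) * (Lagrange.basis (range (d + 1)) v k).eval x -
        P.eval (v k) * (Lagrange.basis (range (d + 1)) v k).eval y| ≤ K k * (S * |x - y|) := by
    intro k hk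
    rw [← mul_sub, abs_mul]
    have hk' : v k ∈ Set.Icc (0 : ℝ) 1 := by
      refine ⟨by simp only [hv]; positivity, ?_⟩
      simp only [hv]
      rw [div_le_one hd]
      have := mem_range.mp hk
      exact_mod_cast this.le
    calc _ ≤ S * (K k * |x - y|) :=
          mul_le_mul (hS _ hk') (hK k x hx y hy) (abs_nonneg _) hS0
      _ = _ := by ring
  refine (sum_le_sum h1).trans ?_
  rw [← sum_mul]
  have : 0 ≤ S * |x - y| := by positivity
  nlinarith

lemma window {N : ℕ} (hN : 0 < N) (G : Finset (Fin N)) (δ s l : ℝ)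
    (hG : (1 - δ) * N ≤ G.card) (hs : 0 ≤ s) (hl : s + l ≤ 1) (h : δ * N + 2 < l * N)
    (hl0 : 0 ≤ l) :
    ∃ i ∈ G, s ≤ (i.1 : ℝ) / N ∧ ((i.1 : ℝ) + 1) / N ≤ s + l := by
  by_contra hc
  push Not at hc
  have hN' : (0 : ℝ) < N := by exact_mod_cast hN
  set a := ⌈s * N⌉₊ with ha
  set b := ⌊(s + l) * N⌋₊ with hb
  have hsl : 0 ≤ (s + l) * N := by positivity
  have hbN : b ≤ N := by
    have h1 : (b : ℝ) ≤ (s + l) * N := Nat.floor_le hsl
    have h2 : (s + l) * N ≤ N := by nlinarith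
    exact_mod_cast h1.trans h2
  have hsub : G.map Fin.valEmbedding ⊆ range N \ Finset.Ico a b := by
    intro n hn
    obtain ⟨i, hi, rfl⟩ := mem_map.mp hn
    refine mem_sdiff.mpr ⟨mem_range.mpr i.2, fun hm => ?_⟩
    obtain ⟨h1, h2⟩ := mem_Ico.mp hm
    simp only [Fin.valEmbedding_apply] at h1 h2
    have h3 : s * N ≤ (i.1 : ℝ) := Nat.ceil_le.mp h1
    have h4 : ((i.1 + 1 : ℕ) : ℝ) ≤ (s + l) * N := (Nat.le_floor_iff hsl).mp h2
    have := hc i hi (by rw [le_div_iff₀ hN']; exact h3)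
    rw [lt_div_iff₀ hN'] at this
    push_cast at h4
    linarith
  have hI : Finset.Ico a b ⊆ range N := fun n hn =>
    mem_range.mpr (lt_of_lt_of_le (mem_Ico.mp hn).2 hbN)
  have hcard := card_le_card hsub
  rw [card_map, card_sdiff_of_subset hI, card_range, Nat.card_Ico] at hcard
  have h5 : G.card + b ≤ N + a := by omega
  have h6 : (G.card : ℝ) + b ≤ N + a := by exact_mod_cast h5
  have h7 : (a : ℝ) < s * N + 1 := Nat.ceil_lt_add_one (by positivity)
  have h8 : (s + l) * N < b + 1 := Nat.lt_floor_add_one _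
  nlinarith

lemma line {N : ℕ} (hN : 0 < N) (f : Fin N → ℕ) (x : ℝ) (h : x * (N : ℝ) ^ 2 ≤ ∑ i, (f i : ℝ)) :
    ∃ i, x * N ≤ f i := by
  by_contra hc
  push Not at hc
  have : Nonempty (Fin N) := ⟨⟨0, hN⟩⟩
  have := sum_lt_sum_of_nonempty (s := univ) univ_nonempty fun i _ => hc i
  rw [sum_const, card_univ, Fintype.card_fin, nsmul_eq_mul] at this
  nlinarith

lemma lines {N : ℕ} (hN : 0 < N) (p : Fin N × Fin N → Prop) [DecidablePred p] (x : ℝ)
    (h : x * (N : ℝ) ^ 2 ≤ ((univ.filter p).card : ℝ)) :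
    (∃ i, x * N ≤ ((univ.filter fun j => p (i, j)).card : ℝ)) ∧
      ∃ j, x * N ≤ ((univ.filter fun i => p (i, j)).card : ℝ) := by
  constructor
  · refine line hN _ x (h.trans (le_of_eq ?_))
    simp only [card_filter]
    rw [Fintype.sum_prod_type]
    push_cast
    rfl
  · refine line hN _ x (h.trans (le_of_eq ?_))
    simp only [card_filter]
    rw [Fintype.sum_prod_type_right]
    push_cast
    rfl

lemma log_le {B w b b' : ℝ} (hB : 0 < B) (h : B ≤ b) (h' : B ≤ b') (hw : |b - b'| ≤ B * w) :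
    |Real.log b - Real.log b'| ≤ w := by
  have hb : 0 < b := by linarith
  have hb' : 0 < b' := by linarith
  have hw0 : 0 ≤ w := by
    have := (abs_nonneg _).trans hw
    exact nonneg_of_mul_nonneg_right this hB |> fun h => by
      by_contra hc
      push Not at hc
      nlinarith
  obtain ⟨h1, h2⟩ := abs_le.mp hw
  rw [abs_le]
  constructor
  · have := Real.log_le_sub_one_of_pos (div_pos hb' hb)
    rw [Real.log_div hb'.ne' hb.ne'] at this
    have h3 : b' / b - 1 ≤ w := by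
      rw [sub_le_iff_le_add, div_le_iff₀ hb]; nlinarith
    linarith
  · have := Real.log_le_sub_one_of_pos (div_pos hb hb')
    rw [Real.log_div hb.ne' hb'.ne'] at this
    have h3 : b / b' - 1 ≤ w := by
      rw [sub_le_iff_le_add, div_le_iff₀ hb']; nlinarith
    linarith

lemma log_ge {B w b b' : ℝ} (hB : 0 < B) (h : B ≤ b) (h' : b' ≤ 2 * B) (hw0 : 0 ≤ w)
    (hw : 2 * B * w ≤ b' - b) : w ≤ Real.log b' - Real.log b := by
  have hb : 0 < b := by linarith
  have hb' : 0 < b' := by nlinarith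
  have := Real.log_le_sub_one_of_pos (div_pos hb hb')
  rw [Real.log_div hb.ne' hb'.ne'] at this
  have h3 : b / b' - 1 ≤ -w := by
    rw [sub_le_iff_le_add, div_le_iff₀ hb']; nlinarith
  linarith

/-- a subinterval on which the logarithmic derivative is comparable with its maximum -/
lemma sub_int {d : ℕ} {K : ℝ} (hK1 : 1 ≤ K)
    (hK : ∀ (P : ℝ[X]) (S : ℝ), P.natDegree ≤ d → (∀ x ∈ Set.Icc (0 : ℝ) 1, |P.eval x| ≤ S) →
      ∀ x ∈ Set.Icc (0 : ℝ) 1, ∀ y ∈ Set.Icc (0 : ℝ) 1, |P.eval x - P.eval y| ≤ K * S * |x - y|)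
    (τ0 η : ℝ) (hη : 0 < η) (F Q : ℝ[X]) (hQ : Q.natDegree ≤ d)
    (hF : ∀ a ∈ Set.Icc τ0 (τ0 + η), 0 < F.eval a)
    (hF2 : ∀ a ∈ Set.Icc τ0 (τ0 + η), ∀ a' ∈ Set.Icc τ0 (τ0 + η), F.eval a ≤ 2 * F.eval a') :
    ∃ G s : ℝ, 0 ≤ G ∧ 0 ≤ s ∧ s + 1 / (2 * K) ≤ 1 ∧
      (∀ a ∈ Set.Icc τ0 (τ0 + η), |Q.eval a / F.eval a| ≤ G) ∧
      ∀ a, τ0 + s * η ≤ a → a ≤ τ0 + (s + 1 / (2 * K)) * η → G / 8 ≤ |Q.eval a / F.eval a| := by
  set P : ℝ[X] := Q.comp (C η * X + C τ0) with hP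
  have hPe : ∀ x, P.eval x = Q.eval (η * x + τ0) := by intro x; simp [hP, eval_comp]
  have hPd : P.natDegree ≤ d := by
    refine natDegree_comp_le.trans ?_
    have : (C η * X + C τ0 : ℝ[X]).natDegree ≤ 1 := natDegree_linear_le
    calc _ ≤ Q.natDegree * 1 := Nat.mul_le_mul_left _ this
      _ ≤ d := by omega
  obtain ⟨x0, hx0, hmax⟩ := (isCompact_Icc (a := (0 : ℝ)) (b := 1)).exists_isMaxOn
    ⟨0, by simp⟩ (f := fun x => |P.eval x|) (P.continuous.abs.continuousOn)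
  set S := |P.eval x0| with hS
  have hS0 : 0 ≤ S := abs_nonneg _
  have hSb : ∀ x ∈ Set.Icc (0 : ℝ) 1, |P.eval x| ≤ S := fun x hx => hmax hx
  have h0 : τ0 ∈ Set.Icc τ0 (τ0 + η) := ⟨le_rfl, by linarith⟩
  have hF0 := hF τ0 h0
  have hρ : 0 < 1 / (2 * K) := by positivity
  have hρ2 : 1 / (2 * K) ≤ 1 / 2 := one_div_le_one_div_of_le (by norm_num) (by linarith)
  have hsc : ∀ a, Q.eval a = P.eval ((a - τ0) / η) := by
    intro a; rw [hPe]; congr 1; field_simp; ring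
  obtain ⟨s, hs0, hs1, hs2⟩ : ∃ s : ℝ, 0 ≤ s ∧ s + 1 / (2 * K) ≤ 1 ∧
      ∀ x, s ≤ x → x ≤ s + 1 / (2 * K) → |x - x0| ≤ 1 / (2 * K) := by
    by_cases h : x0 ≤ 1 / 2
    · exact ⟨x0, hx0.1, by linarith, fun x h1 h2 => abs_le.mpr ⟨by linarith, by linarith⟩⟩
    · push Not at h
      exact ⟨x0 - 1 / (2 * K), by linarith, by linarith [hx0.2],
        fun x h1 h2 => abs_le.mpr ⟨by linarith, by linarith⟩⟩
  refine ⟨2 * S / F.eval τ0, s, by positivity, hs0, hs1, fun a ha => ?_, fun a ha1 ha2 => ?_⟩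
  · have hFa := hF a ha
    have h1 : |Q.eval a| ≤ S := by
      rw [hsc]
      refine hSb _ ⟨div_nonneg (by linarith [ha.1]) hη.le, ?_⟩
      rw [div_le_one hη]; linarith [ha.2]
    rw [abs_div, abs_of_pos hFa, div_le_div_iff₀ hFa hF0]
    linarith only [mul_le_mul h1 (hF2 τ0 h0 a ha) hF0.le hS0]
  · have hx1 : s ≤ (a - τ0) / η := by rw [le_div_iff₀ hη]; linarith
    have hx2 : (a - τ0) / η ≤ s + 1 / (2 * K) := by rw [div_le_iff₀ hη]; linarith
    have ha : a ∈ Set.Icc τ0 (τ0 + η) := ⟨by linarith only [ha1, mul_nonneg hs0 hη.le],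
      by linarith only [ha2, mul_le_mul_of_nonneg_right hs1 hη.le]⟩
    have hFa := hF a ha
    have h1 := hK P S hPd hSb ((a - τ0) / η) ⟨by linarith, by linarith⟩ x0 hx0
    have h2 : K * S * |(a - τ0) / η - x0| ≤ S / 2 := by
      calc _ ≤ K * S * (1 / (2 * K)) :=
            mul_le_mul_of_nonneg_left (hs2 _ hx1 hx2) (by positivity)
        _ = S / 2 := by field_simp
    have h3 : S / 2 ≤ |Q.eval a| := by
      rw [hsc]
      have := abs_sub_abs_le_abs_sub (P.eval x0) (P.eval ((a - τ0) / η))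
      rw [abs_sub_comm] at this
      linarith
    rw [abs_div, abs_of_pos hFa, div_div, div_le_div_iff₀ (by positivity) hFa]
    linarith only [mul_le_mul_of_nonneg_left (hF2 a ha τ0 h0) hS0,
      mul_le_mul_of_nonneg_right h3 hF0.le]

end Rem

open Rem in
theorem p_rem : S_Rem := by
  intro d
  obtain ⟨K, hK1, hK⟩ := markov d
  refine ⟨500 * K, 1 / (12 * K), ⌈100 * K⌉₊, by linarith, by positivity, ?_⟩
  intro Nc hNc T _ β F Q R κ c M hβ hQ hF hF2 hR hM hcard
  have hN : 100 * K ≤ (Nc : ℝ) := Nat.ceil_le.mp hNc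
  have hN0 : (0 : ℝ) < Nc := by linarith
  have hN0' : 0 < Nc := by exact_mod_cast hN0
  have hη := hβ.ηpos
  have hη1 := hβ.ηle
  have hB := hβ.Bpos
  obtain ⟨G, s, hG0, hs0, hs1, hG, hG8⟩ := sub_int hK1 hK β.τ0 β.η hη F Q hQ hF hF2
  have hfin : ∀ i : Fin Nc, 0 ≤ (i.1 : ℝ) / Nc ∧ ((i.1 : ℝ) + 1) / Nc ≤ 1 := by
    intro i
    refine ⟨by positivity, ?_⟩
    rw [div_le_one hN0]
    exact_mod_cast i.2
  have hτ1 : ∀ t, β.τ0 + ((β.cell t).1.1 : ℝ) / Nc * β.η ≤ β.τ t := fun t => by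
    have := hβ.τ_ge t; rwa [mul_div_right_comm] at this
  have hτ2 : ∀ t, β.τ t ≤ β.τ0 + (((β.cell t).1.1 : ℝ) + 1) / Nc * β.η := fun t => by
    have := hβ.τ_le t; rwa [mul_div_right_comm] at this
  have hb1 : ∀ t, β.B * (1 + ((β.cell t).2.1 : ℝ) / Nc * β.η) ≤ β.b t := fun t => by
    have := hβ.b_ge t; rwa [mul_div_right_comm] at this
  have hb2 : ∀ t, β.b t ≤ β.B * (1 + (((β.cell t).2.1 : ℝ) + 1) / Nc * β.η) := fun t => by
    have := hβ.b_le t; rwa [mul_div_right_comm] at this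
  have hτI : ∀ t, β.τ t ∈ Set.Icc β.τ0 (β.τ0 + β.η) := fun t =>
    ⟨by linarith only [hτ1 t, mul_nonneg (hfin (β.cell t).1).1 hη.le],
      by linarith only [hτ2 t, mul_le_mul_of_nonneg_right (hfin (β.cell t).1).2 hη.le]⟩
  have hbB : ∀ t, β.B ≤ β.b t := fun t => by
    have := mul_nonneg hB.le (mul_nonneg (hfin (β.cell t).2).1 hη.le)
    linarith only [hb1 t, this]
  have hbB2 : ∀ t, β.b t ≤ β.B * (1 + β.η) := fun t => by
    refine (hb2 t).trans (mul_le_mul_of_nonneg_left ?_ hB.le)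
    linarith only [mul_le_mul_of_nonneg_right (hfin (β.cell t).2).2 hη.le]
  have hRl : ∀ t t', |R (β.τ t) - R (β.τ t')| ≤ G * |β.τ t - β.τ t'| := fun t t' => by
    have := (convex_Icc β.τ0 (β.τ0 + β.η)).norm_image_sub_le_of_norm_hasDerivWithin_le
      (f := R) (f' := fun a => Q.eval a / F.eval a) (C := G)
      (fun a ha => (hR a ha).hasDerivWithinAt) (fun a ha => hG a ha) (hτI t') (hτI t)
    simpa only [Real.norm_eq_abs] using this
  have hadd : ∀ i : Fin Nc, ((i.1 : ℝ) + 1) / Nc = (i.1 : ℝ) / Nc + 1 / Nc := fun i => by ring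
  have hR1 : ∀ t t', |R (β.τ t) - R (β.τ t')| ≤ β.η * G := fun t t' => by
    refine (hRl t t').trans ?_
    rw [mul_comm β.η]
    refine mul_le_mul_of_nonneg_left (abs_le.mpr ⟨?_, ?_⟩) hG0 <;>
      linarith only [(hτI t).1, (hτI t).2, (hτI t').1, (hτI t').2]
  have hR2 : ∀ t t', (β.cell t).1 = (β.cell t').1 →
      |R (β.τ t) - R (β.τ t')| ≤ β.η * G / Nc := fun t t' h => by
    refine (hRl t t').trans ?_
    have h1 := hτ1 t
    have h2 := hτ2 t
    have h3 := hτ1 t'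
    have h4 := hτ2 t'
    rw [← h] at h3 h4
    rw [hadd] at h2 h4
    calc _ ≤ G * (1 / Nc * β.η) :=
          mul_le_mul_of_nonneg_left (abs_le.mpr ⟨by linarith only [h1, h4],
            by linarith only [h2, h3]⟩) hG0
      _ = _ := by ring
  have hL1 : ∀ t t', |κ * Real.log (β.b t) - κ * Real.log (β.b t')| ≤ β.η * |κ| := fun t t' => by
    rw [← mul_sub, abs_mul, mul_comm β.η]
    refine mul_le_mul_of_nonneg_left (log_le hB (hbB t) (hbB t') (abs_le.mpr ⟨?_, ?_⟩))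
      (abs_nonneg _) <;> linarith only [hbB t, hbB t', hbB2 t, hbB2 t']
  have hL2 : ∀ t t', (β.cell t).2 = (β.cell t').2 →
      |κ * Real.log (β.b t) - κ * Real.log (β.b t')| ≤ β.η * |κ| / Nc := fun t t' h => by
    have h1 := hb1 t
    have h2 := hb2 t
    have h3 := hb1 t'
    have h4 := hb2 t'
    rw [← h] at h3 h4
    rw [hadd] at h2 h4
    rw [← mul_sub, abs_mul]
    calc _ ≤ |κ| * (1 / Nc * β.η) :=
          mul_le_mul_of_nonneg_left (log_le hB (hbB t) (hbB t')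
            (abs_le.mpr ⟨by linarith only [h1, h4], by linarith only [h2, h3]⟩)) (abs_nonneg _)
      _ = _ := by ring
  obtain ⟨⟨i, hi⟩, ⟨j, hj⟩⟩ := lines hN0' _ _ hcard
  have hδ : 1 / (12 * K) ≤ 1 / 12 := one_div_le_one_div_of_le (by norm_num) (by linarith)
  have hw1 : 1 / (12 * K) * (Nc : ℝ) + 2 < 1 / 4 * Nc := by
    linarith only [mul_le_mul_of_nonneg_right hδ hN0.le, hN, hK1]
  have hw2 : 1 / (12 * K) * (Nc : ℝ) + 2 < 1 / (6 * K) * Nc := by
    have h1 : 1 / (6 * K) * (Nc : ℝ) = 2 * (1 / (12 * K) * Nc) := by field_simp; norm_num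
    have h2 : 1 / (12 * K) * (100 * K) ≤ 1 / (12 * K) * (Nc : ℝ) :=
      mul_le_mul_of_nonneg_left hN (by positivity)
    have h3 : 1 / (12 * K) * (100 * K) = 100 / 12 := by field_simp
    linarith only [h1, h2, h3]
  have hρ : 1 / (2 * K) = 3 * (1 / (6 * K)) := by field_simp; norm_num
  have hρ0 : 0 < 1 / (6 * K) := by positivity
  -- the column
  obtain ⟨j1, hj1, -, hj1'⟩ := window hN0' _ _ 0 (1 / 4) hi le_rfl (by norm_num) hw1 (by norm_num)
  obtain ⟨j2, hj2, hj2', -⟩ := window hN0' _ _ (3 / 4) (1 / 4) hi (by norm_num) (by norm_num) hw1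
    (by norm_num)
  obtain ⟨t1, ht1, hA1⟩ := (mem_filter.mp hj1).2
  obtain ⟨t2, ht2, hA2⟩ := (mem_filter.mp hj2).2
  have hcol : β.η * |κ| / 4 ≤ 2 * M + β.η * G / Nc := by
    have h1 := hb2 t1
    have h2 := hb1 t2
    rw [ht1] at h1
    rw [ht2] at h2
    simp only at h1 h2
    have hBη : 0 < β.B * β.η := by positivity
    have h3 : β.η / 4 ≤ Real.log (β.b t2) - Real.log (β.b t1) :=
      log_ge hB (hbB t1) (by linarith only [hbB2 t2, mul_le_mul_of_nonneg_left hη1 hB.le])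
        (by positivity) (by linarith only [h1, h2, mul_le_mul_of_nonneg_right hj1' hBη.le,
          mul_le_mul_of_nonneg_right hj2' hBη.le])
    have h4 := hR2 t1 t2 (by rw [ht1, ht2])
    have h5 : |κ| * (β.η / 4) ≤ |κ * (Real.log (β.b t2) - Real.log (β.b t1))| := by
      rw [abs_mul]
      exact mul_le_mul_of_nonneg_left (h3.trans (le_abs_self _)) (abs_nonneg _)
    have h6 : |κ * (Real.log (β.b t2) - Real.log (β.b t1))| ≤ 2 * M + β.η * G / Nc := by
      obtain ⟨a1, a2⟩ := abs_le.mp hA1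
      obtain ⟨a3, a4⟩ := abs_le.mp hA2
      obtain ⟨a5, a6⟩ := abs_le.mp h4
      exact abs_le.mpr ⟨by linarith only [a2, a3, a5], by linarith only [a1, a4, a6]⟩
    linarith only [h5, h6]
  -- the row
  obtain ⟨i1, hi1, hi1a, hi1b⟩ := window hN0' _ _ s (1 / (6 * K)) hj hs0 (by linarith) hw2 hρ0.le
  obtain ⟨i2, hi2, hi2a, hi2b⟩ := window hN0' _ _ (s + 2 * (1 / (6 * K))) (1 / (6 * K)) hj
    (by linarith) (by linarith) hw2 hρ0.le
  obtain ⟨t3, ht3, hA3⟩ := (mem_filter.mp hi1).2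
  obtain ⟨t4, ht4, hA4⟩ := (mem_filter.mp hi2).2
  have hrow : β.η * G / (48 * K) ≤ 2 * M + β.η * |κ| / Nc := by
    have h1 := hτ1 t3
    have h2 := hτ2 t3
    have h3 := hτ1 t4
    have h4 := hτ2 t4
    rw [ht3] at h1 h2
    rw [ht4] at h3 h4
    simp only at h1 h2 h3 h4
    have e1 : β.τ0 + s * β.η ≤ β.τ t3 := by
      linarith only [h1, mul_le_mul_of_nonneg_right hi1a hη.le]
    have e2 : β.τ t4 ≤ β.τ0 + (s + 1 / (2 * K)) * β.η := by
      rw [hρ]; linarith only [h4, mul_le_mul_of_nonneg_right hi2b hη.le]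
    have e3 : 1 / (6 * K) * β.η ≤ β.τ t4 - β.τ t3 := by
      linarith only [h2, h3, mul_le_mul_of_nonneg_right hi1b hη.le,
        mul_le_mul_of_nonneg_right hi2a hη.le]
    have e4 : β.τ t3 < β.τ t4 := by linarith only [e3, mul_pos hρ0 hη]
    have hsub : Set.Icc (β.τ t3) (β.τ t4) ⊆ Set.Icc β.τ0 (β.τ0 + β.η) :=
      Set.Icc_subset_Icc (hτI t3).1 (hτI t4).2
    obtain ⟨ξ, hξ, hξ'⟩ := exists_hasDerivAt_eq_slope R (fun a => Q.eval a / F.eval a) e4
      (fun a ha => (hR a (hsub ha)).continuousAt.continuousWithinAt)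
      (fun a ha => hR a (hsub (Set.Ioo_subset_Icc_self ha)))
    have h5 := hG8 ξ (by linarith only [e1, hξ.1]) (by linarith only [e2, hξ.2])
    rw [hξ', abs_div, abs_of_pos (sub_pos.mpr e4), le_div_iff₀ (sub_pos.mpr e4)] at h5
    have h6 : G / 8 * (1 / (6 * K) * β.η) ≤ G / 8 * (β.τ t4 - β.τ t3) :=
      mul_le_mul_of_nonneg_left e3 (by positivity)
    have h7 : G / 8 * (1 / (6 * K) * β.η) = β.η * G / (48 * K) := by field_simp; ring
    have h8 := hL2 t3 t4 (by rw [ht3, ht4])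
    have h9 : |R (β.τ t4) - R (β.τ t3)| ≤ 2 * M + β.η * |κ| / Nc := by
      obtain ⟨a1, a2⟩ := abs_le.mp hA3
      obtain ⟨a3, a4⟩ := abs_le.mp hA4
      obtain ⟨a5, a6⟩ := abs_le.mp h8
      exact abs_le.mpr ⟨by linarith only [a2, a3, a5], by linarith only [a1, a4, a6]⟩
    linarith only [h5, h6, h7, h9]
  have hM1 : 0 ≤ β.η * G := by positivity
  have hM2 : 0 ≤ β.η * |κ| := by positivity
  set M1 := β.η * G with hM1d
  set M2 := β.η * |κ| with hM2d
  have hKM : M ≤ K * M := le_mul_of_one_le_left hM hK1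
  have c1 : M1 / Nc ≤ M1 / 4 := div_le_div_of_nonneg_left hM1 (by norm_num) (by linarith)
  have c2 : M2 / Nc ≤ M2 / (96 * K) := div_le_div_of_nonneg_left hM2 (by positivity) (by linarith)
  have c3 : M1 ≤ 96 * (K * M) + M2 / 2 := by
    have h1 : M1 / (48 * K) ≤ 2 * M + M2 / (96 * K) := by linarith only [hrow, c2]
    rw [div_le_iff₀ (by positivity)] at h1
    have h2 : (2 * M + M2 / (96 * K)) * (48 * K) = 96 * (K * M) + M2 / 2 := by field_simp; ring
    linarith only [h1, h2]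
  have hKM0 : 0 ≤ K * M := hM.trans hKM
  have b1 : M1 ≤ 200 * (K * M) := by linarith only [c1, c3, hcol, hKM, hM1, hM]
  have b2 : M2 ≤ 208 * (K * M) := by linarith only [c1, b1, hcol, hKM]
  refine ⟨fun a ha => ?_, by linarith only [b2, hKM0], fun t => ?_, fun t t' h => ?_⟩
  · have := mul_le_mul_of_nonneg_left (hG a ha) hη.le
    linarith only [this, b1, hKM0, hM1d]
  · obtain ⟨a1, a2⟩ := abs_le.mp hA1
    obtain ⟨a3, a4⟩ := abs_le.mp (hR1 t t1)
    obtain ⟨a5, a6⟩ := abs_le.mp (hL1 t t1)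
    exact abs_le.mpr ⟨by linarith only [a1, a3, a5, b1, b2, hKM, hKM0],
      by linarith only [a2, a4, a6, b1, b2, hKM, hKM0]⟩
  · obtain ⟨a3, a4⟩ := abs_le.mp (hR2 t t' (by rw [h]))
    obtain ⟨a5, a6⟩ := abs_le.mp (hL2 t t' (by rw [h]))
    have h1 : M1 / Nc + M2 / Nc ≤ 500 * K / Nc * M := by
      rw [← add_div, div_mul_eq_mul_div]
      exact div_le_div_of_nonneg_right (by linarith only [b1, b2, hKM0]) hN0.le
    exact abs_le.mpr ⟨by linarith only [a3, a5, h1], by linarith only [a4, a6, h1]⟩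

end Pool.Agent.P.MP_b8021b_nt.VE
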