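import Pool.Agent.P.MP_b8021b_nt.VE.StN

/-! N3: the sections are equidistributed in residue classes. -/

namespace Pool.Agent.P.MP_b8021b_nt.VE

open Polynomial Finset
open scoped Classical

namespace PSEq

/-- the tent is the convolution of two boxes -/
theorem tent_sum (c : ℤ) {L : ℕ} (hL : 1 ≤ L) (g : ℤ → ℝ) :
    ∑ n ∈ Ioo (c - L) (c + L), tent (((n - c : ℤ) : ℝ) / L) / L * g n =
      (∑ b ∈ Ico (0 : ℤ) L, ∑ a ∈ Ico (c - b) (c - b + L), g a) / (L : ℝ) ^ 2 := by
  have hL0 : (0 : ℝ) < L := by exact_mod_cast hL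
  have e : ∀ b ∈ Ico (0 : ℤ) L, ∑ a ∈ Ico (c - b) (c - b + L), g a =
      ∑ n ∈ Ioo (c - L) (c + L), if c - b ≤ n ∧ n < c - b + L then g n else 0 := fun b hb => by
    rw [← sum_filter]
    refine sum_congr (Finset.ext fun n => ?_) fun _ _ => rfl
    simp only [mem_Ico, mem_filter, mem_Ioo] at hb ⊢
    omega
  rw [sum_congr rfl e, sum_comm, sum_div]
  refine sum_congr rfl fun n hn => ?_
  rw [mem_Ioo] at hn
  have e1 : (Ico (0 : ℤ) L).filter (fun b => c - b ≤ n ∧ n < c - b + L) =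
      Ico (max 0 (c - n)) (min L (L + c - n)) := by
    ext b
    simp only [mem_Ico, mem_filter, max_le_iff, lt_min_iff]
    omega
  have e2 : (min (L : ℤ) (L + c - n) - max 0 (c - n)) = L - |n - c| := by
    rcases abs_cases (n - c) with h | h <;> omega
  have e3 : 0 ≤ (L : ℤ) - |n - c| := by rcases abs_cases (n - c) with h | h <;> omega
  have e4 : (((L : ℤ) - |n - c|).toNat : ℝ) = L - |((n - c : ℤ) : ℝ)| := by
    rw [← Int.cast_natCast, Int.toNat_of_nonneg e3]; push_cast; rfl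
  have e5 : (0 : ℝ) ≤ L - |((n - c : ℤ) : ℝ)| := by rw [← e4]; positivity
  rw [← sum_filter, e1, sum_const, Int.card_Ico, e2, nsmul_eq_mul, e4, tent, abs_div,
    abs_of_pos hL0, max_eq_right (by rw [sub_nonneg, div_le_one hL0]; linarith)]
  field_simp

theorem count {d : ℕ} (hd : 1 ≤ d) (ρ : ZMod d) (a : ℤ) (L : ℕ) :
    |(∑ n ∈ Ico a (a + L), if (n : ZMod d) = ρ then (1 : ℝ) else 0) - L / d| ≤ 1 := by
  obtain ⟨v, rfl⟩ := ZMod.intCast_surjective ρ
  have h := Int.Ico_filter_modEq_card a (a + L) (r := d) (by exact_mod_cast hd) v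
  have hd0 : (0 : ℚ) < d := by exact_mod_cast hd
  have e : (∑ n ∈ Ico a (a + L), if (n : ZMod d) = v then (1 : ℝ) else 0) =
      ((Ico a (a + L)).filter fun n => n ≡ v [ZMOD d]).card := by
    rw [card_filter]
    push_cast
    exact sum_congr rfl fun n _ => if_congr (ZMod.intCast_eq_intCast_iff _ _ _) rfl rfl
  rw [e]
  set m := ((Ico a (a + L)).filter fun n => n ≡ v [ZMOD d]).card
  have e1 : (((a + L : ℤ) : ℚ) - v) / (d : ℤ) = ((a : ℚ) - v) / (d : ℤ) + L / d := by
    push_cast; ring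
  rw [e1] at h
  set x := ((a : ℚ) - v) / (d : ℤ)
  have hy : (0 : ℚ) ≤ L / d := by positivity
  rw [max_eq_left (sub_nonneg.2 (Int.ceil_mono (by linarith)))] at h
  have h' : (m : ℚ) = ⌈x + L / d⌉ - ⌈x⌉ := by exact_mod_cast h
  have : |(m : ℚ) - L / d| ≤ 1 := by
    rw [h', abs_le]
    constructor <;> linarith [Int.le_ceil x, Int.ceil_lt_add_one x, Int.le_ceil (x + L / d),
      Int.ceil_lt_add_one (x + L / d)]
  have := (Rat.cast_le (K := ℝ)).2 this
  push_cast at this
  exact this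

theorem one_dim (c : ℤ) {L d : ℕ} (hd : 1 ≤ d) (hL : d ≤ L) (ρ : ZMod d) :
    |(∑ n ∈ Ioo (c - L) (c + L), tent (((n - c : ℤ) : ℝ) / L) / L *
      if (n : ZMod d) = ρ then (1 : ℝ) else 0) * d - 1| ≤ d / L := by
  have hL0 : (0 : ℝ) < L := by exact_mod_cast hd.trans hL
  have hd0 : (0 : ℝ) < d := by exact_mod_cast hd
  rw [tent_sum c (hd.trans hL)]
  have h := (abs_sum_le_sum_abs _ _).trans
    (sum_le_sum fun b (_ : b ∈ Ico (0 : ℤ) L) => count hd ρ (c - b) L)
  rw [sum_sub_distrib, sum_const, sum_const, Int.card_Ico, sub_zero, Int.toNat_natCast,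
    nsmul_eq_mul, nsmul_eq_mul, mul_one] at h
  generalize (∑ b ∈ Ico (0 : ℤ) L, _ : ℝ) = T at h ⊢
  rw [show T / (L : ℝ) ^ 2 * d - 1 = (T - L * (L / d)) * (d / L ^ 2) by field_simp, abs_mul,
    abs_of_pos (show (0 : ℝ) < d / L ^ 2 by positivity)]
  refine (mul_le_mul_of_nonneg_right h (by positivity)).trans (le_of_eq ?_)
  field_simp

theorem prod_near {ι : Type} (s : Finset ι) (x : ι → ℝ) {e : ℝ} (h1 : e ≤ 1)
    (h : ∀ j, |x j - 1| ≤ e) : |∏ j ∈ s, x j - 1| ≤ (2 ^ s.card - 1) * e := by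
  induction s using Finset.induction_on with
  | empty => simp
  | insert a s ha ih =>
    rw [prod_insert ha, card_insert_of_notMem ha,
      show x a * ∏ j ∈ s, x j - 1 = x a * (∏ j ∈ s, x j - 1) + (x a - 1) by ring]
    have h2 : |x a| ≤ 2 := by
      have := abs_le.1 (h a)
      rw [abs_le]; constructor <;> linarith
    refine (abs_add_le _ _).trans ?_
    rw [abs_mul, pow_succ]
    linarith [mul_le_mul h2 ih (abs_nonneg _) zero_le_two, h a]

theorem card_Ix (p : Par) : Fintype.card p.Ix = 2 * p.k - 2 := by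
  have := p.hk
  simp only [Par.Ix, Fintype.card_sum, Fintype.card_fin]
  omega

theorem cls (p : Par) (S0 : ℕ) {L d : ℕ} (hd : 1 ≤ d) (hL : d ≤ L) (ρ : p.Ix → ZMod d) :
    |(∑ s ∈ Sset p S0 L, if (fun j => (s j : ZMod d)) = ρ then wS p S0 L s else 0) -
      1 / (d : ℝ) ^ (2 * p.k - 2)| ≤ 2 ^ (2 * p.k - 2) * (d / L) * (1 / (d : ℝ) ^ (2 * p.k - 2)) := by
  have hL0 : (0 : ℝ) < L := by exact_mod_cast hd.trans hL
  have hd0 : (0 : ℝ) < d := by exact_mod_cast hd
  have h := prod_near univ _ (by rw [div_le_one hL0]; exact_mod_cast hL)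
    (fun j => one_dim (cen p S0 j) hd hL (ρ j))
  rw [prod_mul_distrib, prod_const, card_univ, card_Ix, prod_univ_sum] at h
  have e : (∑ s ∈ Sset p S0 L, if (fun j => (s j : ZMod d)) = ρ then wS p S0 L s else 0) =
      ∑ s ∈ Sset p S0 L, ∏ j, tent (((s j - cen p S0 j : ℤ) : ℝ) / L) / L *
        if (s j : ZMod d) = ρ j then (1 : ℝ) else 0 := by
    refine sum_congr rfl fun s _ => ?_
    rw [prod_mul_distrib, wS]
    split_ifs with hs
    · rw [prod_congr rfl fun j _ => if_pos (congrFun hs j), prod_const_one, mul_one]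
    · obtain ⟨j, hj⟩ := Function.ne_iff.1 hs
      exact (mul_eq_zero_of_right _ (prod_eq_zero (f := fun j =>
        if (s j : ZMod d) = ρ j then (1 : ℝ) else 0) (mem_univ j) (if_neg hj))).symm
  rw [e, Sset]
  generalize (∑ s ∈ Fintype.piFinset (α := p.Ix) _, _ : ℝ) = T at h ⊢
  rw [show T - 1 / (d : ℝ) ^ (2 * p.k - 2) =
    (T * d ^ (2 * p.k - 2) - 1) * (1 / (d : ℝ) ^ (2 * p.k - 2)) by field_simp, abs_mul,
    abs_of_pos (show (0 : ℝ) < 1 / (d : ℝ) ^ (2 * p.k - 2) by positivity)]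
  refine mul_le_mul_of_nonneg_right (h.trans ?_) (by positivity)
  exact mul_le_mul_of_nonneg_right (by linarith) (by positivity)

theorem main (p : Par) (S0 : ℕ) {L d : ℕ} (hd : 1 ≤ d) (hL : d ≤ L) (R : Finset (p.Ix → ZMod d))
    (P : p.Co → Prop) [DecidablePred P] (hP : ∀ s, P s ↔ (fun j => (s j : ZMod d)) ∈ R) :
    |∑ s ∈ Sset p S0 L with P s, wS p S0 L s - R.card / (d : ℝ) ^ (2 * p.k - 2)| ≤
      2 ^ (2 * p.k - 2) * (d / L) * (R.card / (d : ℝ) ^ (2 * p.k - 2)) := by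
  have h := (abs_sum_le_sum_abs _ _).trans (sum_le_sum fun ρ (_ : ρ ∈ R) => cls p S0 hd hL ρ)
  rw [sum_sub_distrib, sum_comm, sum_const, sum_const, nsmul_eq_mul, nsmul_eq_mul] at h
  have e : ∑ s ∈ Sset p S0 L with P s, wS p S0 L s = ∑ s ∈ Sset p S0 L, ∑ ρ ∈ R,
      if (fun j => (s j : ZMod d)) = ρ then wS p S0 L s else 0 := by
    rw [sum_filter]
    refine sum_congr rfl fun s _ => ?_
    rw [sum_ite_eq]
    exact if_congr (hP s) rfl rfl
  rw [mul_one_div, ← e] at h
  refine h.trans (le_of_eq ?_)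
  ring

theorem hev_sec {m n : ℕ} (h : m ≤ n) (g : ℤ[X]) (c : ℤ) (s : Fin m → ℤ) (a b : ℤ) :
    hev n (g + C c * ∑ i : Fin m, C (s i) * X ^ (i.1 + 1)) a b =
      hev n g a b + ∑ i : Fin m, s i * (c * a ^ (i.1 + 1) * b ^ (n - (i.1 + 1))) := by
  simp only [hev, coeff_add, coeff_C_mul, finsetSum_coeff, coeff_X_pow, add_mul,
    sum_add_distrib, mul_sum, sum_mul]
  congr 1
  rw [sum_comm]
  refine sum_congr rfl fun i _ => ?_
  rw [sum_eq_single_of_mem (i.1 + 1) (mem_range.2 (by omega)) fun j _ hj => by simp [hj]]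
  simp only [if_true]
  ring

theorem card_pre {G H : Type} [AddCommGroup G] [AddCommGroup H] [Fintype G] [Fintype H]
    (Λ : G →+ H) (hΛ : Function.Surjective Λ) (v : H) (R : Finset H) (S : Finset G)
    (hS : ∀ ρ, ρ ∈ S ↔ v + Λ ρ ∈ R) : S.card * Fintype.card H = R.card * Fintype.card G := by
  have e : ∀ y y' : H, (univ.filter fun ρ => v + Λ ρ = y).card =
      (univ.filter fun ρ => v + Λ ρ = y').card := fun y y' => by
    obtain ⟨w, hw⟩ := hΛ (y' - y)
    refine card_bijective (e := fun ρ => ρ + w) (Equiv.addRight w).bijective fun ρ => ?_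
    simp only [mem_filter, mem_univ, true_and, map_add, hw]
    constructor <;> intro h
    · rw [← add_assoc, h]; abel
    · rw [← add_assoc, ← eq_sub_iff_add_eq] at h
      rw [h]; abel
  have c : ∀ T : Finset H, (univ.filter fun ρ => v + Λ ρ ∈ T).card =
      T.card * (univ.filter fun ρ => v + Λ ρ = 0).card := fun T => by
    rw [card_eq_sum_card_fiberwise (f := fun ρ => v + Λ ρ) (t := T)
      (s := univ.filter fun ρ => v + Λ ρ ∈ T) fun ρ h => (mem_filter.1 (mem_coe.1 h)).2,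
      ← smul_eq_mul, ← sum_const]
    refine sum_congr rfl fun y hy => Eq.trans (congrArg card (Finset.ext fun ρ => ?_)) (e y 0)
    simp only [mem_filter, mem_univ, true_and]
    exact ⟨fun h => h.2, fun h => ⟨h ▸ hy, h⟩⟩
  have c1 := c univ
  simp only [mem_univ, filter_true, card_univ] at c1
  rw [show S = univ.filter fun ρ => v + Λ ρ ∈ R from Finset.ext fun ρ => by simp [hS], c R, c1]
  ring

/-- a linear form in finitely many variables -/
def lin {m : ℕ} {R : Type} [CommRing R] (w : Fin m → R) : (Fin m → R) →+ R where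
  toFun s := ∑ i, s i * w i
  map_zero' := by simp
  map_add' s s' := by simp [add_mul, sum_add_distrib]

theorem lin_surj {m : ℕ} {R : Type} [CommRing R] {w : Fin m → R} (i : Fin m) (h : IsUnit (w i)) :
    Function.Surjective (lin w) := fun y => by
  obtain ⟨v, hv⟩ := h.exists_left_inv
  refine ⟨Pi.single i (y * v), ?_⟩
  change ∑ j, _ * w j = y
  rw [sum_eq_single i (fun j _ hj => by simp [hj]) (by simp), Pi.single_eq_same, mul_assoc, hv,
    mul_one]

end PSEq

open PSEq in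
theorem p_sEq : S_SEq := by
  intro p
  refine ⟨2 ^ (2 * p.k - 2), one_le_pow₀ one_le_two, fun S0 L d hd hL => ⟨?_, fun R =>
    main p S0 hd hL R _ fun _ => Iff.rfl, fun t R hc => ?_⟩⟩
  · have hL0 : (0 : ℝ) < L := by exact_mod_cast hd.trans hL
    rw [Sset, show wS p S0 L = fun s => ∏ j, tent (((s j - cen p S0 j : ℤ) : ℝ) / L) / L from rfl,
      ← prod_univ_sum (fun j => Ioo (cen p S0 j - L) (cen p S0 j + L))
        fun j n => tent (((n - cen p S0 j : ℤ) : ℝ) / L) / L]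
    refine prod_eq_one fun j _ => ?_
    have := tent_sum (cen p S0 j) (hd.trans hL) fun _ => 1
    simp only [mul_one, sum_const, Int.card_Ico, add_sub_cancel_left, sub_zero, Int.toNat_natCast,
      nsmul_eq_mul] at this
    rw [this]
    field_simp
  · have : NeZero d := ⟨by omega⟩
    have hk := p.hk
    have hd0 : (0 : ℝ) < d := by exact_mod_cast hd
    have hu : IsUnit ((t.1 * p.r : ℤ) : ZMod d) := by
      obtain ⟨a, b, h⟩ := hc
      have := congrArg (Int.cast : ℤ → ZMod d) h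
      rw [Int.cast_add, Int.cast_mul, Int.cast_natCast, ZMod.natCast_self, mul_zero, zero_add,
        Int.cast_mul, Int.cast_one] at this
      exact IsUnit.of_mul_eq_one_right _ this
    rw [Int.cast_mul, IsUnit.mul_iff] at hu
    set w : (n m : ℕ) → Fin m → ZMod d := fun n _ i =>
      (((p.r : ℤ) ^ p.n0 * t.1 ^ (i.1 + 1) * t.2 ^ (n - (i.1 + 1)) : ℤ) : ZMod d) with hw
    have hs : ∀ n, 1 ≤ n → Function.Surjective (lin (w n n)) := fun n hn =>
      lin_surj ⟨n - 1, by omega⟩ (by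
        simp only [hw, Nat.sub_add_cancel hn, Nat.sub_self, pow_zero, mul_one, Int.cast_mul,
          Int.cast_pow]
        exact (hu.2.pow _).mul (hu.1.pow _))
    let Λ : (p.Ix → ZMod d) →+ ZMod d × ZMod d :=
      { toFun := fun ρ => (lin (w p.k p.k) fun i => ρ (.inl i),
          lin (w (p.k - 2) (p.k - 2)) fun i => ρ (.inr i))
        map_zero' := Prod.ext (map_zero _) (map_zero _)
        map_add' := fun _ _ => Prod.ext (map_add _ _ _) (map_add _ _ _) }
    have hΛ : Function.Surjective Λ := fun y => by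
      obtain ⟨a, ha⟩ := hs p.k (by omega) y.1
      obtain ⟨b, hb⟩ := hs (p.k - 2) (by omega) y.2
      exact ⟨Sum.elim a b, Prod.ext ha hb⟩
    set v : ZMod d × ZMod d := (hev p.k p.g0 t.1 t.2, hev (p.k - 2) p.c0 t.1 t.2) with hv
    obtain ⟨S, hS⟩ : ∃ S : Finset (p.Ix → ZMod d), ∀ ρ, ρ ∈ S ↔ v + Λ ρ ∈ R :=
      ⟨univ.filter fun ρ => v + Λ ρ ∈ R, fun ρ => by simp only [mem_filter, mem_univ, true_and]⟩
    have hcard := card_pre Λ hΛ v R S hS
    rw [Fintype.card_prod, Fintype.card_fun, ZMod.card, card_Ix] at hcard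
    have hq : (S.card : ℝ) / (d : ℝ) ^ (2 * p.k - 2) = R.card / (d : ℝ) ^ 2 := by
      rw [div_eq_div_iff (by positivity) (by positivity), sq]
      exact_mod_cast hcard
    rw [← hq]
    refine main p S0 hd hL _ _ fun s => ?_
    rw [hS]
    refine iff_of_eq (congrArg (· ∈ R) (Prod.ext ?_ ?_))
    · change ((p.gt s t : ℤ) : ZMod d) = (hev p.k p.g0 t.1 t.2 : ℤ) + ∑ i, _ * w p.k p.k i
      rw [Par.gt, Par.gp, hev_sec le_rfl, Int.cast_add, Int.cast_sum]
      simp only [hw, Int.cast_mul]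
    · change ((p.ct s t : ℤ) : ZMod d) = (hev (p.k - 2) p.c0 t.1 t.2 : ℤ) +
        ∑ i, _ * w (p.k - 2) (p.k - 2) i
      rw [Par.ct, Par.cp, hev_sec le_rfl, Int.cast_add, Int.cast_sum]
      simp only [hw, Int.cast_mul]

end Pool.Agent.P.MP_b8021b_nt.VE
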