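import Pool.Agent.P.MP_b8021b_nt.VE.StN
import Pool.Agent.P.MP_746f10_nt.Basic

/-! N24: the large sieve for a family of fields. -/

namespace Pool.Agent.P.MP_b8021b_nt.VE

open NumberField Finset
open scoped Classical ComplexConjugate

namespace Lsh

/-- tuples of elements of `P` -/
abbrev Tu (P : Finset ℕ) (h : ℕ) : Finset (Fin h → ℕ) := Fintype.piFinset fun _ => P

/-- injective tuples -/
noncomputable def Ti (P : Finset ℕ) (h : ℕ) : Finset (Fin h → ℕ) :=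
  (Tu P h).filter Function.Injective

theorem lam_one {L : Type} [Field L] [NumberField L] (χ : Ideal (𝓞 L) →* ℂ) : lam χ 1 = 1 := by
  have : {I : Ideal (𝓞 L) | Ideal.absNorm I = 1} = {1} := by
    ext I
    simp [Ideal.absNorm_eq_one_iff]
  rw [lam, this, finsum_mem_singleton, map_one]

theorem mul_prod {f : ℕ → ℂ} (h1 : f 1 = 1)
    (hm : ∀ m m', 1 ≤ m → 1 ≤ m' → m.Coprime m' → f (m * m') = f m * f m') {ι : Type} (s : Finset ι)
    (τ : ι → ℕ) (hp : ∀ i, (τ i).Prime) (hi : Function.Injective τ) :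
    f (∏ i ∈ s, τ i) = ∏ i ∈ s, f (τ i) := by
  induction s using Finset.induction_on with
  | empty => simpa using h1
  | insert a s ha ih =>
    rw [prod_insert ha, prod_insert ha, hm _ _ (hp a).pos (prod_pos fun i _ => (hp i).pos), ih]
    exact Nat.Coprime.prod_right fun i hs => (Nat.coprime_primes (hp a) (hp i)).2
      fun e => ha (hi e ▸ hs)

variable {P : Finset ℕ} {w : ℕ → ℝ} {ϑ : ℝ} {h : ℕ}

theorem tot (h1 : ∑ q ∈ P, w q = 1) : ∑ τ ∈ Tu P h, ∏ l, w (τ l) = 1 := by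
  rw [← Finset.sum_pow', h1, one_pow]

theorem W_nonneg (h0 : ∀ q ∈ P, 0 ≤ w q ∧ w q ≤ ϑ) {τ : Fin h → ℕ} (hτ : τ ∈ Tu P h) :
    0 ≤ ∏ l, w (τ l) := prod_nonneg fun l _ => (h0 _ (Fintype.mem_piFinset.1 hτ l)).1

theorem coll (h0 : ∀ q ∈ P, 0 ≤ w q ∧ w q ≤ ϑ) (h1 : ∑ q ∈ P, w q = 1) (i i' : Fin h)
    (hi : i ≠ i') : ∑ τ ∈ Tu P h with τ i = τ i', ∏ l, w (τ l) ≤ ϑ := by
  rw [← sum_fiberwise_of_maps_to (t := P) (g := fun τ => τ i)
    fun τ hτ => Fintype.mem_piFinset.1 (mem_filter.1 hτ).1 i]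
  calc _ ≤ ∑ q ∈ P, w q * ϑ := sum_le_sum fun q hq => ?_
    _ = ϑ := by rw [← sum_mul, h1, one_mul]
  have e : ((Tu P h).filter fun τ => τ i = τ i').filter (fun τ => τ i = q) =
      Fintype.piFinset fun l => if l = i ∨ l = i' then {q} else P := by
    ext τ
    simp only [mem_filter, Fintype.mem_piFinset]
    constructor
    · rintro ⟨⟨a, b⟩, c⟩ l
      split_ifs with hl
      · rcases hl with rfl | rfl
        · exact mem_singleton.2 c
        · exact mem_singleton.2 (b ▸ c)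
      · exact a l
    · intro a
      have a1 : τ i = q := by simpa using a i
      have a2 : τ i' = q := by simpa using a i'
      refine ⟨⟨fun l => ?_, a1.trans a2.symm⟩, a1⟩
      have := a l
      split_ifs at this with hl
      · rw [mem_singleton.1 this]; exact hq
      · exact this
  rw [e, ← prod_univ_sum (fun l : Fin h => if l = i ∨ l = i' then {q} else P) fun _ x => w x,
    ← prod_subset (subset_univ {i, i'}) fun l _ hl => by
      rw [if_neg (by simpa using hl), h1], prod_pair hi]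
  simp only [true_or, or_true, if_true, sum_singleton]
  exact mul_le_mul_of_nonneg_left (h0 q hq).2 (h0 q hq).1

theorem noninj (h0 : ∀ q ∈ P, 0 ≤ w q ∧ w q ≤ ϑ) (h1 : ∑ q ∈ P, w q = 1) (hϑ : 0 ≤ ϑ) :
    ∑ τ ∈ Tu P h with ¬ Function.Injective τ, ∏ l, w (τ l) ≤ h ^ 2 * ϑ := by
  calc _ ≤ ∑ τ ∈ Tu P h, ∑ p : Fin h × Fin h,
        if p.1 ≠ p.2 ∧ τ p.1 = τ p.2 then ∏ l, w (τ l) else 0 := by
        rw [sum_filter]
        refine sum_le_sum fun τ hτ => ?_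
        have hn : ∀ p ∈ (univ : Finset (Fin h × Fin h)),
            0 ≤ if p.1 ≠ p.2 ∧ τ p.1 = τ p.2 then ∏ l, w (τ l) else 0 := fun p _ => by
          split_ifs
          · exact W_nonneg h0 hτ
          · exact le_rfl
        split_ifs with hi
        · exact sum_nonneg hn
        · obtain ⟨a, b, e, n⟩ := Function.not_injective_iff.1 hi
          exact le_trans (by rw [if_pos ⟨n, e⟩]) (single_le_sum hn (mem_univ (a, b)))
    _ ≤ ∑ _p : Fin h × Fin h, ϑ := by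
        rw [sum_comm]
        refine sum_le_sum fun p _ => ?_
        by_cases hp : p.1 = p.2
        · simpa [hp] using hϑ
        · refine le_trans (le_of_eq ?_) (coll h0 h1 p.1 p.2 hp)
          rw [sum_filter]
          exact sum_congr rfl fun τ _ => if_congr (and_iff_right hp) rfl rfl
    _ = _ := by simp [sq]

theorem split (h0 : ∀ q ∈ P, 0 ≤ w q ∧ w q ≤ ϑ) (h1 : ∑ q ∈ P, w q = 1) (hϑ : 0 ≤ ϑ)
    (hP : ∀ q ∈ P, q.Prime) {f : ℕ → ℂ} (f1 : f 1 = 1)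
    (hm : ∀ m m', 1 ≤ m → 1 ≤ m' → m.Coprime m' → f (m * m') = f m * f m')
    (hf : ∀ q ∈ P, ‖f q‖ ≤ 4) : ‖∑ q ∈ P, w q * f q‖ ^ h ≤
      ‖∑ τ ∈ Ti P h, ((∏ l, w (τ l) : ℝ) : ℂ) * f (∏ l, τ l)‖ + 4 ^ h * (h ^ 2 * ϑ) := by
  rw [← norm_pow, Finset.sum_pow', ← sum_filter_add_sum_filter_not _ Function.Injective]
  refine (norm_add_le _ _).trans (add_le_add (le_of_eq (congrArg _ (sum_congr rfl fun τ hτ => ?_)))
    ((norm_sum_le _ _).trans ?_))
  · obtain ⟨a, b⟩ := mem_filter.1 hτ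
    rw [prod_mul_distrib, mul_prod f1 hm _ τ (fun i => hP _ (Fintype.mem_piFinset.1 a i)) b,
      Complex.ofReal_prod]
  · refine le_trans ?_ (mul_le_mul_of_nonneg_left (noninj h0 h1 hϑ) (by positivity))
    rw [mul_sum]
    refine sum_le_sum fun τ hτ => ?_
    have a := Fintype.mem_piFinset.1 (mem_filter.1 hτ).1
    rw [norm_prod]
    calc _ ≤ ∏ l, 4 * w (τ l) := prod_le_prod (fun _ _ => norm_nonneg _) fun l _ => by
          rw [norm_mul, Complex.norm_real, Real.norm_of_nonneg (h0 _ (a l)).1, mul_comm]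
          exact mul_le_mul_of_nonneg_right (hf _ (a l)) (h0 _ (a l)).1
      _ = _ := by rw [prod_mul_distrib]; simp

theorem fib (hP : ∀ q ∈ P, q.Prime) {F : ℕ → ℝ} (hF : ∀ m, 0 ≤ F m) :
    ∑ τ ∈ Ti P h, F (∏ l, τ l) ≤
      h ^ h * ∑ m ∈ (Ti P h).image (fun τ => ∏ l, τ l), F m := by
  rw [sum_comp F (fun τ : Fin h → ℕ => ∏ l, τ l), mul_sum]
  refine sum_le_sum fun m hm => ?_
  rw [nsmul_eq_mul]
  refine mul_le_mul_of_nonneg_right ?_ (hF m)
  obtain ⟨σ, hσ, rfl⟩ := mem_image.1 hm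
  have a := Fintype.mem_piFinset.1 (mem_filter.1 hσ).1
  have : ((Ti P h).filter fun τ => ∏ l, τ l = ∏ l, σ l) ⊆ Tu (univ.image σ) h := fun τ hτ => by
    obtain ⟨b, e⟩ := mem_filter.1 hτ
    have c := Fintype.mem_piFinset.1 (mem_filter.1 b).1
    refine Fintype.mem_piFinset.2 fun l => ?_
    have d : τ l ∣ ∏ l, σ l := e ▸ dvd_prod_of_mem _ (mem_univ l)
    obtain ⟨j, -, hj⟩ := ((hP _ (c l)).prime.dvd_finsetProd_iff _).1 d
    exact mem_image.2 ⟨j, mem_univ j,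
      ((Nat.prime_dvd_prime_iff_eq (hP _ (c l)) (hP _ (a j))).1 hj).symm⟩
  have h2 := card_le_card this
  rw [Fintype.card_piFinset, prod_const, card_univ, Fintype.card_fin] at h2
  have h3 : (univ.image σ).card ≤ h := card_image_le.trans (by simp)
  exact_mod_cast h2.trans (Nat.pow_le_pow_left h3 h)

theorem dyad {x : ℝ} (n : ℕ) (hn : 1 ≤ n) (h1 : 1 ≤ x) (h2 : x ≤ 2 ^ n) :
    ∃ r < n, 2 ^ r ≤ x ∧ x ≤ 2 * 2 ^ r := by
  induction n, hn using Nat.le_induction with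
  | base => exact ⟨0, one_pos, by simpa using h1, by simpa using h2⟩
  | succ n hn ih =>
    rcases le_total x (2 ^ n) with h | h
    · obtain ⟨r, a, b⟩ := ih h
      exact ⟨r, a.trans n.lt_succ_self, b⟩
    · exact ⟨n, n.lt_succ_self, h, by rwa [pow_succ'] at h2⟩

/-- the window of the Rankin-Selberg sums -/
noncomputable def Wn (Y : ℝ) : Finset ℕ := (range ⌈3 * Y⌉₊).filter Squarefree

theorem cover {y : ℝ} (hy : 1 ≤ y) (hh : 1 ≤ h) (hP : ∀ q ∈ P, q.Prime ∧ y ≤ q ∧ (q : ℝ) < 3 * y)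
    {F : ℕ → ℝ} (hF : ∀ m, 0 ≤ F m) : ∑ m ∈ (Ti P h).image (fun τ => ∏ l, τ l), F m ≤
      ∑ r ∈ range (2 * h), 2 * ∑ m ∈ Wn (2 ^ r * y ^ h),
        tent (m / (2 ^ r * y ^ h) - 3 / 2) * F m := by
  have hn : ∀ r m : ℕ, 0 ≤ 2 * (tent (m / (2 ^ r * y ^ h) - 3 / 2) * F m) := fun r m =>
    mul_nonneg zero_le_two (mul_nonneg (le_max_left _ _) (hF m))
  have hY : 0 < y ^ h := by positivity
  calc _ ≤ ∑ m ∈ (Ti P h).image (fun τ => ∏ l, τ l), ∑ r ∈ range (2 * h),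
        if m ∈ Wn (2 ^ r * y ^ h) then 2 * (tent (m / (2 ^ r * y ^ h) - 3 / 2) * F m) else 0 :=
        sum_le_sum fun m hm => ?_
    _ ≤ _ := by
        rw [sum_comm]
        refine sum_le_sum fun r _ => ?_
        rw [← sum_filter, mul_sum]
        exact sum_le_sum_of_subset_of_nonneg (fun m hm => (mem_filter.1 hm).2) fun m _ _ => hn r m
  obtain ⟨σ, hσ, rfl⟩ := mem_image.1 hm
  have a := Fintype.mem_piFinset.1 (mem_filter.1 hσ).1
  have hs : Squarefree (∏ l, σ l) := Finset.squarefree_prod_of_pairwise_isCoprime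
    (fun i _ j _ hij => Nat.coprime_iff_isRelPrime.1 ((Nat.coprime_primes (hP _ (a i)).1
      (hP _ (a j)).1).2 fun e => hij ((mem_filter.1 hσ).2 e))) fun i _ => (hP _ (a i)).1.squarefree
  have l1 : y ^ h ≤ ((∏ l, σ l : ℕ) : ℝ) := by
    rw [Nat.cast_prod]
    calc y ^ h = ∏ _l : Fin h, y := by simp
      _ ≤ _ := prod_le_prod (fun _ _ => by linarith) fun l _ => (hP _ (a l)).2.1
  have l2 : ((∏ l, σ l : ℕ) : ℝ) ≤ 2 ^ (2 * h) * y ^ h := by
    rw [Nat.cast_prod]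
    calc _ ≤ ∏ _l : Fin h, 2 ^ 2 * y := prod_le_prod (fun _ _ => Nat.cast_nonneg _)
          fun l _ => by linarith [(hP _ (a l)).2.2]
      _ = _ := by rw [prod_const, card_univ, Fintype.card_fin, mul_pow, ← pow_mul]
  set m : ℕ := ∏ l, σ l
  obtain ⟨r, r1, r2, r3⟩ := dyad (x := m / y ^ h) (2 * h) (by omega) ((one_le_div hY).2 l1)
    ((div_le_iff₀ hY).2 l2)
  have hr : (0 : ℝ) < 2 ^ r := by positivity
  have e : (m : ℝ) / (2 ^ r * y ^ h) = m / y ^ h / 2 ^ r := by rw [div_div, mul_comm]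
  have t1 : 1 ≤ (m : ℝ) / (2 ^ r * y ^ h) := by rw [e]; exact (one_le_div hr).2 r2
  have t2 : (m : ℝ) / (2 ^ r * y ^ h) ≤ 2 := by rw [e]; exact (div_le_iff₀ hr).2 r3
  have hw : m ∈ Wn (2 ^ r * y ^ h) := mem_filter.2 ⟨mem_range.2 (Nat.lt_ceil.2 (by
    have := (div_le_iff₀ (mul_pos hr hY)).1 t2
    nlinarith [mul_pos hr hY])), hs⟩
  refine le_trans ?_ (single_le_sum (f := fun r => if m ∈ Wn (2 ^ r * y ^ h) then
    2 * (tent (m / (2 ^ r * y ^ h) - 3 / 2) * F m) else 0) (fun r _ => by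
      split_ifs
      · exact hn r m
      · exact le_rfl) (mem_range.2 r1))
  rw [if_pos hw]
  have : 1 / 2 ≤ tent (m / (2 ^ r * y ^ h) - 3 / 2) := le_max_of_le_right (by
    have : |(m : ℝ) / (2 ^ r * y ^ h) - 3 / 2| ≤ 1 / 2 := abs_le.2 ⟨by linarith, by linarith⟩
    linarith)
  nlinarith [hF m]

theorem gram {J : Type} [Fintype J] (s : Finset ℕ) (t : ℕ → ℝ) (f : J → ℕ → ℂ) (c : J → ℂ)
    (hc : ∀ j, ‖c j‖ = 1) : ∑ m ∈ s, t m * ‖∑ j, c j * f j m‖ ^ 2 ≤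
      ∑ j, ∑ j', ‖∑ m ∈ s, (t m : ℂ) * (f j m * conj (f j' m))‖ := by
  have e : ((∑ m ∈ s, t m * ‖∑ j, c j * f j m‖ ^ 2 : ℝ) : ℂ) =
      ∑ j, ∑ j', c j * conj (c j') * ∑ m ∈ s, (t m : ℂ) * (f j m * conj (f j' m)) := by
    push_cast
    simp only [← Complex.mul_conj', map_sum, map_mul, sum_mul_sum]
    simp only [mul_sum]
    rw [sum_comm]
    refine sum_congr rfl fun j _ => ?_
    rw [sum_comm]
    exact sum_congr rfl fun j' _ => sum_congr rfl fun m _ => by ring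
  refine (le_abs_self _).trans ?_
  rw [← Real.norm_eq_abs, ← Complex.norm_real, e]
  refine (norm_sum_le _ _).trans (sum_le_sum fun j _ => (norm_sum_le _ _).trans
    (sum_le_sum fun j' _ => ?_))
  rw [norm_mul, norm_mul, Complex.norm_conj, hc, hc, one_mul, one_mul]

theorem core {J : Type} [Fintype J] {y s R : ℝ} (hy : 1 ≤ y) (hh : 1 ≤ h) (hs : 0 ≤ s)
    (h0 : ∀ q ∈ P, 0 ≤ w q ∧ w q ≤ ϑ) (h1 : ∑ q ∈ P, w q = 1) (hϑ : 0 ≤ ϑ)
    (hP : ∀ q ∈ P, q.Prime ∧ y ≤ q ∧ (q : ℝ) < 3 * y) (f : J → ℕ → ℂ)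
    (hT : ∀ j, s ≤ ‖∑ τ ∈ Ti P h, ((∏ l, w (τ l) : ℝ) : ℂ) * f j (∏ l, τ l)‖)
    (hR : ∀ r < 2 * h, ∀ j, ∑ j', ‖∑ m ∈ Wn (2 ^ r * y ^ h),
      (tent (m / (2 ^ r * y ^ h) - 3 / 2) : ℂ) * (f j m * conj (f j' m))‖ ≤ R) :
    (Fintype.card J * s) ^ 2 ≤ ϑ ^ h * (h ^ h * (2 * h * (2 * (Fintype.card J * R)))) := by
  choose c hc e using fun j => Complex.exists_norm_eq_mul_self
    (∑ τ ∈ Ti P h, ((∏ l, w (τ l) : ℝ) : ℂ) * f j (∏ l, τ l))
  have hW : ∀ τ ∈ Ti P h, 0 ≤ ∏ l, w (τ l) := fun τ hτ => W_nonneg h0 (mem_filter.1 hτ).1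
  have a1 : Fintype.card J * s ≤
      ∑ τ ∈ Ti P h, (∏ l, w (τ l)) * ‖∑ j, c j * f j (∏ l, τ l)‖ := by
    calc _ = ∑ _j : J, s := by simp
      _ ≤ ∑ j, ‖∑ τ ∈ Ti P h, ((∏ l, w (τ l) : ℝ) : ℂ) * f j (∏ l, τ l)‖ :=
          sum_le_sum fun j _ => hT j
      _ ≤ ‖∑ τ ∈ Ti P h, ((∏ l, w (τ l) : ℝ) : ℂ) * ∑ j, c j * f j (∏ l, τ l)‖ := by
          refine (le_abs_self _).trans (le_of_eq ?_)
          rw [← Real.norm_eq_abs, ← Complex.norm_real, Complex.ofReal_sum]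
          congr 1
          simp only [e, mul_sum]
          rw [sum_comm]
          exact sum_congr rfl fun τ _ => sum_congr rfl fun j _ => by ring
      _ ≤ _ := (norm_sum_le _ _).trans (sum_le_sum fun τ hτ => by
          rw [norm_mul, Complex.norm_real, Real.norm_of_nonneg (hW τ hτ)])
  have a2 : ∑ τ ∈ Ti P h, ∏ l, w (τ l) ≤ 1 := by
    rw [← tot (h := h) h1]
    exact sum_le_sum_of_subset_of_nonneg (filter_subset _ _) fun τ hτ _ => W_nonneg h0 hτ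
  have a3 := sum_sq_le_sum_mul_sum_of_sq_le_mul (Ti P h)
    (r := fun τ => (∏ l, w (τ l)) * ‖∑ j, c j * f j (∏ l, τ l)‖) (f := fun τ => ∏ l, w (τ l))
    (g := fun τ => (∏ l, w (τ l)) * ‖∑ j, c j * f j (∏ l, τ l)‖ ^ 2) hW
    (fun τ hτ => mul_nonneg (hW τ hτ) (sq_nonneg _)) fun τ _ => le_of_eq (by ring)
  have a4 : ∑ τ ∈ Ti P h, (∏ l, w (τ l)) * ‖∑ j, c j * f j (∏ l, τ l)‖ ^ 2 ≤
      ϑ ^ h * ∑ τ ∈ Ti P h, ‖∑ j, c j * f j (∏ l, τ l)‖ ^ 2 := by
    rw [mul_sum]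
    refine sum_le_sum fun τ hτ => mul_le_mul_of_nonneg_right ?_ (sq_nonneg _)
    have a := Fintype.mem_piFinset.1 (mem_filter.1 hτ).1
    calc _ ≤ ∏ _l : Fin h, ϑ := prod_le_prod (fun l _ => (h0 _ (a l)).1) fun l _ => (h0 _ (a l)).2
      _ = _ := by simp
  have a5 := fib (h := h) (fun q hq => (hP q hq).1)
    (F := fun m => ‖∑ j, c j * f j m‖ ^ 2) fun _ => sq_nonneg _
  have a6 := cover hy hh hP (F := fun m => ‖∑ j, c j * f j m‖ ^ 2) fun _ => sq_nonneg _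
  have a7 : ∑ r ∈ range (2 * h), 2 * ∑ m ∈ Wn (2 ^ r * y ^ h),
      tent (m / (2 ^ r * y ^ h) - 3 / 2) * ‖∑ j, c j * f j m‖ ^ 2 ≤
      2 * h * (2 * (Fintype.card J * R)) := by
    calc _ ≤ ∑ _r ∈ range (2 * h), 2 * (Fintype.card J * R) := sum_le_sum fun r hr => by
          refine mul_le_mul_of_nonneg_left ((gram _ _ f c hc).trans ?_) zero_le_two
          calc _ ≤ ∑ _j : J, R := sum_le_sum fun j _ => hR r (mem_range.1 hr) j
            _ = _ := by simp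
      _ = _ := by simp
  refine (pow_le_pow_left₀ (by positivity) a1 2).trans (a3.trans ?_)
  refine (mul_le_of_le_one_left (sum_nonneg fun τ hτ => mul_nonneg (hW τ hτ) (sq_nonneg _))
    a2).trans (a4.trans (mul_le_mul_of_nonneg_left (a5.trans
      (mul_le_mul_of_nonneg_left (a6.trans a7) (by positivity))) (by positivity)))

theorem row {J : Type} [Fintype J] (G : J → ℝ) (X : Finset J) {g B E : ℝ} (hB : 0 ≤ B)
    (hE : 0 ≤ E) (hg : (X.card : ℝ) ≤ g) (h1 : ∀ j, G j ≤ B)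
    (h2 : ∀ j, j ∉ X → G j ≤ E) : ∑ j, G j ≤ g * B + Fintype.card J * E := by
  rw [← sum_add_sum_compl X]
  refine add_le_add ((sum_le_card_nsmul _ _ B fun j _ => h1 j).trans ?_)
    ((sum_le_card_nsmul _ _ E fun j hj => h2 j (mem_compl.1 hj)).trans ?_)
  · rw [nsmul_eq_mul]; exact mul_le_mul_of_nonneg_right hg hB
  · rw [nsmul_eq_mul]
    exact mul_le_mul_of_nonneg_right (by exact_mod_cast card_le_univ _) hE

theorem ev (c : ℝ) (K : ℕ) : ∀ᶠ y : ℝ in Filter.atTop, c * Real.log y ^ K ≤ y ^ (1 / 8 : ℝ) := by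
  have := (isLittleO_log_rpow_rpow_atTop (K : ℝ) (by norm_num : (0 : ℝ) < 1 / 8)).const_mul_left c
  filter_upwards [this.bound one_pos, Filter.eventually_ge_atTop 1] with y h hy
  rw [one_mul, Real.rpow_natCast, Real.norm_of_nonneg (Real.rpow_nonneg (by linarith) _)] at h
  exact (le_abs_self _).trans h

theorem fin {J g v M C : ℝ} (hJ : 0 ≤ J) (hg : 0 ≤ g) (hv : 1 ≤ v) (hC : 1 ≤ C) (hM : 0 ≤ M)
    (h1 : 16 * C * M ≤ v) (h2 : J ^ 2 ≤ M * v ^ 2 * (J * (8 * g * C * v + J / v ^ 8))) :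
    J ≤ g * v ^ 8 := by
  rcases hJ.eq_or_lt with rfl | hJ
  · positivity
  have h3 : J ≤ M * v ^ 2 * (8 * g * C * v + J / v ^ 8) := by
    refine le_of_mul_le_mul_left ?_ hJ
    nlinarith
  have h4 : M * v ^ 2 * (J / v ^ 8) ≤ J / 2 := by
    rw [← mul_div_assoc, div_le_div_iff₀ (by positivity) two_pos]
    have a : 16 * M ≤ v := by nlinarith
    have b : v ^ 3 ≤ v ^ 8 := pow_le_pow_right₀ hv (by norm_num)
    have c : M * v ^ 2 * 2 ≤ v ^ 8 := by nlinarith [sq_nonneg v, mul_nonneg hM (sq_nonneg v)]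
    nlinarith
  have h5 : M * v ^ 2 * (8 * g * C * v) ≤ g * v ^ 4 / 2 := by
    have := mul_le_mul_of_nonneg_left h1 (show 0 ≤ g * v ^ 3 by positivity)
    nlinarith
  have h6 : g * v ^ 4 ≤ g * v ^ 8 :=
    mul_le_mul_of_nonneg_left (pow_le_pow_right₀ hv (by norm_num)) hg
  nlinarith

end Lsh

open Lsh in
theorem p_lsh (hTheta : S_Theta) (hLam : S_Lam) (hRS : S_RS) (hAdj : S_Adj) : S_LSH := by
  intro c
  obtain ⟨C, η, hη, hRS⟩ := hRS
  obtain ⟨h, hh⟩ := exists_nat_ge (max 1 ((c * C + 1) / η))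
  have h1 : 1 ≤ h := by exact_mod_cast (le_max_left _ _).trans hh
  have h1' : (1 : ℝ) ≤ h := by exact_mod_cast h1
  have h2 : (c * C + 1 : ℝ) ≤ h * η := (div_le_iff₀ hη).1 ((le_max_right _ _).trans hh)
  refine ⟨1 / (8 * h), by positivity, fun A => ?_⟩
  obtain ⟨y₁, hy₁⟩ := hTheta A
  obtain ⟨C₁, hC₁, hτ⟩ := MP_746f10_nt.exists_tau_le 4 (8 * (h + 1))
  obtain ⟨y₀, hy₀⟩ := Filter.eventually_atTop.1 (((ev (16 * C₁ * (16 * h ^ (h + 1) * 4 ^ h * 4 ^ h))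
    ((A + 1) * h)).and (Filter.eventually_ge_atTop y₁)).and
    ((Filter.eventually_ge_atTop (3 * 4 ^ h)).and
      (Real.tendsto_log_atTop.eventually_ge_atTop 1)))
  refine ⟨y₀, fun y hy N hN hNA J _ L _ _ K n k χ i g hi hg hJ hsq => ?_⟩
  obtain ⟨⟨b1, b2⟩, b3, b4⟩ := hy₀ y hy
  obtain ⟨-, t2, -, t4⟩ := hy₁ y b2 N hN hNA
  have h4 : (1 : ℝ) ≤ 4 ^ h := one_le_pow₀ (by norm_num)
  have y1 : 1 ≤ y := by linarith
  have y0 : 0 < y := by linarith
  set v := y ^ (1 / 8 : ℝ) with hv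
  have v1 : 1 ≤ v := Real.one_le_rpow y1 (by norm_num)
  have v0 : 0 < v := by linarith
  have v8 : v ^ 8 = y := by
    rw [hv, ← Real.rpow_natCast, ← Real.rpow_mul y0.le]; norm_num
  set l := Real.log y
  have hP : ∀ q ∈ strat y N i, q ∈ Pset y N := fun q hq => mem_biUnion.2 ⟨i, mem_range.2 hi, hq⟩
  set ϑ := 4 * l ^ (A + 1) / y with hϑ
  have l1 : 1 ≤ 4 * l ^ (A + 1) := by linarith [one_le_pow₀ (n := A + 1) b4]
  have ϑ0 : 0 ≤ ϑ := by positivity
  have w0 : ∀ q ∈ strat y N i, 0 ≤ wt y N q ∧ wt y N q ≤ ϑ := fun q hq => by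
    obtain ⟨-, -, -, -, -, a, b⟩ := t4 q (hP q hq)
    refine ⟨a, b.trans (div_le_div_of_nonneg_right ?_ y0.le)⟩
    rw [pow_succ, mul_assoc]
    exact mul_le_mul_of_nonneg_left (mul_le_mul_of_nonneg_right hNA (by linarith)) (by norm_num)
  have hχ : ∀ j I, ‖χ j I‖ ≤ 1 := fun j I => by
    by_cases e : Cop (n j) I
    · exact ((hJ j).2.2.2.2.1.norm_cop I e).le
    · rw [(hJ j).2.2.2.2.1.zero I e, norm_zero]; exact zero_le_one
  have hl : ∀ j m, 1 ≤ m → ‖lam (χ j) m‖ ≤ (m.divisors.card : ℝ) ^ 2 := fun j m hm => by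
    have := (hLam (L j)).2.1 (χ j) m hm (hχ j)
    rwa [(K j).deg] at this
  set M : ℝ := 16 * h ^ (h + 1) * 4 ^ h * (4 * l ^ (A + 1)) ^ h with hM
  have M0 : 0 ≤ M := by positivity
  have M1 : 16 * C₁ * M ≤ v := le_trans (le_of_eq (by rw [hM, mul_pow, ← pow_mul]; ring)) b1
  have hT : ∀ j, 1 / (2 * v) ≤ ‖∑ τ ∈ Ti (strat y N i) h,
      ((∏ l, wt y N (τ l) : ℝ) : ℂ) * lam (χ j) (∏ l, τ l)‖ := fun j => by
    have a := split (h := h) w0 (t2 i hi) ϑ0 (fun q hq => (t4 q (hP q hq)).1) (lam_one (χ j))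
      ((hLam (L j)).2.2 (χ j)) fun q hq => (hl j q (t4 q (hP q hq)).1.pos).trans (by
        rw [Nat.Prime.divisors (t4 q (hP q hq)).1, card_pair (t4 q (hP q hq)).1.one_lt.ne]
        norm_num)
    have b : 1 / v ≤ ‖Sm y N i (lam (χ j))‖ ^ h := by
      refine le_trans (le_of_eq ?_)
        (pow_le_pow_left₀ (Real.rpow_nonneg y0.le _) (hJ j).2.2.2.2.2.2 h)
      rw [← Real.rpow_natCast, ← Real.rpow_mul y0.le, hv, one_div, ← Real.rpow_neg y0.le]
      congr 1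
      field_simp
    have d : 4 ^ h * (h ^ 2 * ϑ) ≤ 1 / (2 * v) := by
      have e1 : (h : ℝ) ^ 2 ≤ h ^ (h + 1) := pow_le_pow_right₀ h1' (by omega)
      have e2 : 4 * l ^ (A + 1) ≤ (4 * l ^ (A + 1)) ^ h := le_self_pow₀ l1 (by omega)
      have e3 : 4 ^ h * ((h : ℝ) ^ 2 * (4 * l ^ (A + 1))) ≤ M := by
        calc _ ≤ 4 ^ h * ((h : ℝ) ^ (h + 1) * (4 * l ^ (A + 1)) ^ h) := by gcongr
          _ ≤ _ := by
            rw [hM]
            nlinarith [show 0 ≤ 4 ^ h * ((h : ℝ) ^ (h + 1) * (4 * l ^ (A + 1)) ^ h) by positivity]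
      have e4 : v ^ 2 ≤ v ^ 8 := pow_le_pow_right₀ v1 (by norm_num)
      rw [hϑ, ← mul_div_assoc, ← mul_div_assoc, div_le_div_iff₀ y0 (by positivity), ← v8]
      have e5 : 16 * M ≤ v := by nlinarith
      nlinarith [mul_le_mul_of_nonneg_right e3 v0.le]
    have e : 1 / v = 1 / (2 * v) + 1 / (2 * v) := by field_simp; norm_num
    change ‖Sm y N i (lam (χ j))‖ ^ h ≤ _ at a
    linarith
  have hR : ∀ r < 2 * h, ∀ j, ∑ j', ‖∑ m ∈ Wn (2 ^ r * y ^ h),
      (tent (m / (2 ^ r * y ^ h) - 3 / 2) : ℂ) * (lam (χ j) m * conj (lam (χ j') m))‖ ≤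
      2 * g * (4 * (4 ^ h * y ^ h) * (C₁ * v)) + Fintype.card J * (4 ^ h * y ^ h / y) := by
    intro r hr j
    have yh : 1 ≤ y ^ h := one_le_pow₀ y1
    have r1 : (1 : ℝ) ≤ 2 ^ r := one_le_pow₀ one_le_two
    have r2 : (2 : ℝ) ^ r ≤ 4 ^ h := by
      rw [show (4 : ℝ) = 2 ^ 2 by norm_num, ← pow_mul]
      exact pow_le_pow_right₀ one_le_two hr.le
    set Y := 2 ^ r * y ^ h with hY
    have Y1 : y ^ h ≤ Y := le_mul_of_one_le_left (by positivity) r1
    have Y2 : Y ≤ 4 ^ h * y ^ h := mul_le_mul_of_nonneg_right r2 (by positivity)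
    refine row _ ((univ.filter fun j' => IsSquare ((K j).D * (K j').D)) ∪
      univ.filter fun j' => (K j).Adj (χ j) (K j').D (n j * n j')) (by positivity) (by positivity)
      ?_ (fun j' => ?_) fun j' hj' => ?_
    · refine le_trans (Nat.cast_le.2 (card_union_le _ _)) ?_
      rw [Nat.cast_add, two_mul]
      refine add_le_add (hsq j) ?_
      rcases (univ.filter fun j' => (K j).Adj (χ j) (K j').D (n j * n j')).eq_empty_or_nonempty
        with e | ⟨j₀, e⟩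
      · rw [e]; simpa using hg
      · refine le_trans (Nat.cast_le.2 (card_le_card fun j' hj' => ?_)) (hsq j₀)
        have p : ∀ j', 1 ≤ n j * n j' := fun j' =>
          Nat.mul_pos (by have := (hJ j).1; omega) (by have := (hJ j').1; omega)
        exact mem_filter.2 ⟨mem_univ _, hAdj (L j) (K j) (n j) _ _ (k j) _ _ (χ j) (hJ j).1
          (hJ j).2.1 (p j₀) (p j') (K j₀).neg (K j').neg (hJ j).2.2.2.2.1 (hJ j).2.2.2.2.2.1
          (mem_filter.1 e).2 (mem_filter.1 hj').2⟩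
    · refine (norm_sum_le _ _).trans ((sum_le_card_nsmul _ _ (C₁ * v) fun m hm => ?_).trans ?_)
      · obtain ⟨a, b⟩ := mem_filter.1 hm
        have m1 : 1 ≤ m := Nat.pos_of_ne_zero b.ne_zero
        have m2 : (m : ℝ) ≤ v ^ (8 * (h + 1)) := by
          rw [pow_mul, v8, pow_succ]
          have := Nat.lt_ceil.1 (mem_range.1 a)
          nlinarith [mul_le_mul_of_nonneg_left b3 (show 0 ≤ y ^ h by positivity)]
        refine le_trans ?_ (hτ m v b.ne_zero v1 m2)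
        have t1 : ‖(tent (m / Y - 3 / 2) : ℂ)‖ ≤ 1 := by
          rw [Complex.norm_real, Real.norm_of_nonneg (show 0 ≤ tent _ from le_max_left _ _)]
          exact max_le zero_le_one (sub_le_self _ (abs_nonneg _))
        rw [norm_mul, norm_mul, Complex.norm_conj]
        refine (mul_le_of_le_one_left (by positivity) t1).trans
          ((mul_le_mul (hl j m m1) (hl j' m m1) (norm_nonneg _) (by positivity)).trans_eq ?_)
        ring
      · rw [nsmul_eq_mul]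
        refine mul_le_mul_of_nonneg_right ?_ (by positivity)
        have a : (Wn Y).card ≤ ⌈3 * Y⌉₊ := (card_filter_le _ _).trans (card_range _).le
        have b := (Nat.ceil_lt_add_one (show 0 ≤ 3 * Y by linarith)).le
        have d : ((Wn Y).card : ℝ) ≤ ⌈3 * Y⌉₊ := by exact_mod_cast a
        linarith
    · have a : ¬ IsSquare ((K j).D * (K j').D) := fun e =>
        hj' (mem_union_left _ (mem_filter.2 ⟨mem_univ _, e⟩))
      have b : ¬ (K j).Adj (χ j) (K j').D (n j * n j') := fun e =>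
        hj' (mem_union_right _ (mem_filter.2 ⟨mem_univ _, e⟩))
      refine (((hRS (L j) (L j') (K j) (K j') (n j) (n j') (k j) (k j') (χ j) (χ j') (y ^ c) Y
        (hJ j).1 (hJ j').1 (hJ j).2.1 (hJ j').2.1 (hJ j).2.2.1 (hJ j').2.2.1 (hJ j).2.2.2.1
        (hJ j').2.2.2.1 (yh.trans Y1) (hJ j).2.2.2.2.1 (hJ j').2.2.2.2.1 a).resolve_left b).trans ?_)
      have Y0 : 0 < Y := by linarith
      have e1 : Y ^ (-η) ≤ y ^ (-(c * C + 1 : ℝ)) := by
        refine (Real.rpow_le_rpow_of_nonpos (by positivity) Y1 (by linarith)).trans ?_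
        rw [← Real.rpow_natCast, ← Real.rpow_mul y0.le]
        exact Real.rpow_le_rpow_of_exponent_le y1 (by linarith)
      have e2 : y ^ (-(c * C + 1 : ℝ)) = (y ^ (c * C) * y)⁻¹ := by
        rw [Real.rpow_neg y0.le, ← pow_succ, ← Real.rpow_natCast]; push_cast; rfl
      rw [sub_eq_add_neg, Real.rpow_add Y0, Real.rpow_one, ← pow_mul]
      calc _ ≤ y ^ (c * C) * (4 ^ h * y ^ h * (y ^ (c * C) * y)⁻¹) := by
            rw [← e2]; gcongr
        _ = _ := by field_simp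
  have := core y1 h1 (by positivity) w0 (t2 i hi) ϑ0
    (fun q hq => ⟨(t4 q (hP q hq)).1, (t4 q (hP q hq)).2.1, (t4 q (hP q hq)).2.2.1⟩)
    (fun j => lam (χ j)) hT hR
  rw [← v8]
  refine fin (Nat.cast_nonneg _) hg v1 hC₁ M0 M1 ?_
  rw [v8]
  calc (Fintype.card J : ℝ) ^ 2 = (Fintype.card J * (1 / (2 * v))) ^ 2 * (4 * v ^ 2) := by
        field_simp; norm_num
    _ ≤ _ := mul_le_mul_of_nonneg_right this (by positivity)
    _ = _ := by rw [hM, hϑ, div_pow]; field_simp; ring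

end Pool.Agent.P.MP_b8021b_nt.VE
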