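import Pool.Agent.P.MP_b8021b_nt.VE.StN
import Pool.Agent.P.MP_0ad054_nt.An.All

/-! Dirichlet characters over the strata: Siegel-Walfisz and the large sieve. -/

namespace Pool.Agent.P.MP_b8021b_nt.VE

open Finset
open scoped ArithmeticFunction.vonMangoldt
open Pool.Agent.P.MP_0ad054_nt.An

namespace E2P

/-- coefficients of a power of a sum -/
noncomputable def co (s : Finset ℕ) (w : ℕ → ℝ) (k n : ℕ) : ℝ :=
  ∑ f ∈ (Fintype.piFinset fun _ : Fin k => s) with ∏ j, f j = n, ∏ j, w (f j)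

theorem prod_mem {s : Finset ℕ} {Y k : ℕ} (hs : ∀ q ∈ s, q.Prime ∧ q ≤ Y)
    {f : Fin k → ℕ} (hf : f ∈ Fintype.piFinset fun _ : Fin k => s) : ∏ j, f j ∈ Icc 1 (Y ^ k) := by
  rw [Fintype.mem_piFinset] at hf
  refine mem_Icc.2 ⟨Nat.one_le_iff_ne_zero.2 (prod_ne_zero_iff.2 fun j _ => (hs _ (hf j)).1.ne_zero), ?_⟩
  simpa using prod_le_pow_card univ f Y fun j _ => (hs _ (hf j)).2

theorem pow_eq {s : Finset ℕ} {Y k : ℕ} (hs : ∀ q ∈ s, q.Prime ∧ q ≤ Y) (w : ℕ → ℝ)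
    {d : ℕ} (χ : DirichletCharacter ℂ d) :
    (∑ q ∈ s, (w q : ℂ) * χ q) ^ k = ∑ n ∈ Icc 1 (Y ^ k), (co s w k n : ℂ) * χ n := by
  rw [sum_pow', ← sum_fiberwise_of_maps_to (g := fun f : Fin k → ℕ => ∏ j, f j)
    fun f hf => prod_mem hs hf]
  refine sum_congr rfl fun n _ => ?_
  rw [co, Complex.ofReal_sum, sum_mul]
  refine sum_congr rfl fun f hf => ?_
  rw [← (mem_filter.1 hf).2, prod_mul_distrib, Complex.ofReal_prod, Nat.cast_prod, map_prod]

theorem co_sum {s : Finset ℕ} {Y k : ℕ} (hs : ∀ q ∈ s, q.Prime ∧ q ≤ Y) (w : ℕ → ℝ) :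
    ∑ n ∈ Icc 1 (Y ^ k), co s w k n = (∑ q ∈ s, w q) ^ k := by
  rw [sum_pow', ← sum_fiberwise_of_maps_to (g := fun f : Fin k → ℕ => ∏ j, f j)
    fun f hf => prod_mem hs hf]
  rfl

theorem card_fib {s : Finset ℕ} (hs : ∀ q ∈ s, q.Prime) (k n : ℕ) :
    ((Fintype.piFinset fun _ : Fin k => s).filter fun f => ∏ j, f j = n).card ≤ k ^ k := by
  rcases ((Fintype.piFinset fun _ : Fin k => s).filter fun f => ∏ j, f j = n).eq_empty_or_nonempty
    with h | ⟨f, hf⟩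
  · simp [h]
  obtain ⟨hf1, hf2⟩ := mem_filter.1 hf
  rw [Fintype.mem_piFinset] at hf1
  have h1 : ((Fintype.piFinset fun _ : Fin k => s).filter fun f => ∏ j, f j = n) ⊆
      Fintype.piFinset fun _ : Fin k => univ.image f := fun g hg => by
    obtain ⟨hg1, hg2⟩ := mem_filter.1 hg
    rw [Fintype.mem_piFinset] at hg1 ⊢
    intro j
    have h2 : g j ∣ ∏ j, f j := by
      rw [hf2, ← hg2]; exact dvd_prod_of_mem _ (mem_univ j)
    obtain ⟨i, -, hi⟩ := (Prime.dvd_finsetProd_iff (hs _ (hg1 j)).prime _).1 h2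
    exact mem_image.2 ⟨i, mem_univ _,
      ((Nat.prime_dvd_prime_iff_eq (hs _ (hg1 j)) (hs _ (hf1 i))).1 hi).symm⟩
  refine (card_le_card h1).trans ?_
  rw [Fintype.card_piFinset, prod_const, card_univ, Fintype.card_fin]
  exact Nat.pow_le_pow_left (card_image_le.trans (by simp)) _

theorem co_nonneg {s : Finset ℕ} {w : ℕ → ℝ} (hw : ∀ q ∈ s, 0 ≤ w q) (k n : ℕ) :
    0 ≤ co s w k n :=
  sum_nonneg fun _ hf => prod_nonneg fun j _ => hw _ (Fintype.mem_piFinset.1 (mem_filter.1 hf).1 j)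

theorem co_le {s : Finset ℕ} {w : ℕ → ℝ} {W : ℝ} (hs : ∀ q ∈ s, q.Prime) (hW : 0 ≤ W)
    (hw : ∀ q ∈ s, 0 ≤ w q ∧ w q ≤ W) (k n : ℕ) : co s w k n ≤ (k * W) ^ k := by
  refine (sum_le_card_nsmul _ _ (W ^ k) fun f hf => ?_).trans ?_
  · have h := Fintype.mem_piFinset.1 (mem_filter.1 hf).1
    calc ∏ j, w (f j) ≤ ∏ _j : Fin k, W :=
          prod_le_prod (fun j _ => (hw _ (h j)).1) fun j _ => (hw _ (h j)).2
      _ = W ^ k := by simp
  · rw [nsmul_eq_mul, mul_pow]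
    gcongr
    exact_mod_cast card_fib hs k n

theorem co_sq {s : Finset ℕ} {w : ℕ → ℝ} {W : ℝ} {Y : ℕ} (hs : ∀ q ∈ s, q.Prime ∧ q ≤ Y)
    (hW : 0 ≤ W) (hw : ∀ q ∈ s, 0 ≤ w q ∧ w q ≤ W) (h1 : ∑ q ∈ s, w q = 1) (k : ℕ) :
    ∑ n ∈ Icc 1 (Y ^ k), ‖(co s w k n : ℂ)‖ ^ 2 ≤ (k * W) ^ k := by
  calc _ ≤ ∑ n ∈ Icc 1 (Y ^ k), (k * W) ^ k * co s w k n := sum_le_sum fun n _ => by
        have h0 := co_nonneg (fun q hq => (hw q hq).1) k n
        rw [Complex.norm_real, Real.norm_of_nonneg h0, sq]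
        exact mul_le_mul_of_nonneg_right (co_le (fun q hq => (hs q hq).1) hW hw k n) h0
    _ = _ := by rw [← mul_sum, co_sum hs, h1, one_pow, mul_one]

theorem norm_le_one {s : Finset ℕ} {w : ℕ → ℝ} (hw : ∀ q ∈ s, 0 ≤ w q) (h1 : ∑ q ∈ s, w q = 1)
    {d : ℕ} (χ : DirichletCharacter ℂ d) : ‖∑ q ∈ s, (w q : ℂ) * χ q‖ ≤ 1 := by
  refine (norm_sum_le _ _).trans (le_trans (sum_le_sum fun q hq => ?_) h1.le)
  rw [norm_mul, Complex.norm_real, Real.norm_of_nonneg (hw q hq)]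
  exact mul_le_of_le_one_right (hw q hq) (χ.norm_le_one _)

/-- few large primes divide `m` -/
theorem card_dvd {s : Finset ℕ} {y : ℝ} {c m : ℕ} (hy : 1 < y) (hs : ∀ q ∈ s, q.Prime ∧ y ≤ q)
    (hm : 1 ≤ m) (hc : (m : ℝ) ≤ y ^ c) : (s.filter fun q => q ∣ m).card ≤ c := by
  have h1 : ∏ p ∈ s.filter fun q => q ∣ m, p ∣ m := prod_primes_dvd m
    (fun a ha => (hs a (mem_filter.1 ha).1).1.prime) fun a ha => (mem_filter.1 ha).2
  have h2 : ((∏ p ∈ s.filter fun q => q ∣ m, p : ℕ) : ℝ) ≤ m := by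
    exact_mod_cast Nat.le_of_dvd hm h1
  have h3 : y ^ (s.filter fun q => q ∣ m).card ≤ ((∏ p ∈ s.filter fun q => q ∣ m, p : ℕ) : ℝ) := by
    rw [Nat.cast_prod, ← prod_const]
    exact prod_le_prod (fun _ _ => by linarith) fun a ha => (hs a (mem_filter.1 ha).1).2
  exact (pow_le_pow_iff_right₀ hy).1 (h3.trans (h2.trans hc))

open DirichletCharacter in
theorem change {s : Finset ℕ} {w : ℕ → ℝ} {W y : ℝ} {c m d : ℕ} (hy : 1 < y)
    (hs : ∀ q ∈ s, q.Prime ∧ y ≤ q) (hW : 0 ≤ W) (hw : ∀ q ∈ s, 0 ≤ w q ∧ w q ≤ W)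
    (hm : 1 ≤ m) (hc : (m : ℝ) ≤ y ^ c) (h : d ∣ m) (χ : DirichletCharacter ℂ d) :
    ‖∑ q ∈ s, (w q : ℂ) * changeLevel h χ q‖ ≤ ‖∑ q ∈ s, (w q : ℂ) * χ q‖ + c * W := by
  refine (norm_le_norm_sub_add _ (∑ q ∈ s, (w q : ℂ) * χ q)).trans ?_
  rw [add_comm]
  gcongr
  rw [← sum_sub_distrib]
  calc _ ≤ ∑ q ∈ s, if q ∣ m then W else 0 := (norm_sum_le _ _).trans (sum_le_sum fun q hq => ?_)
    _ = (s.filter fun q => q ∣ m).card * W := by rw [← sum_filter, sum_const, nsmul_eq_mul]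
    _ ≤ c * W := by
      gcongr
      exact card_dvd hy hs hm hc
  split_ifs with hn
  · have hn' : ¬ q.Coprime m := fun h' => ((hs q hq).1.coprime_iff_not_dvd.1 h') hn
    rw [MulChar.map_nonunit _ (mt (ZMod.isUnit_iff_coprime q m).1 hn'), mul_zero, zero_sub,
      norm_neg, norm_mul, Complex.norm_real, Real.norm_of_nonneg (hw q hq).1]
    exact (mul_le_of_le_one_right (hw q hq).1 (χ.norm_le_one _)).trans (hw q hq).2
  · have := changeLevel_eq_cast_of_dvd' χ h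
      (Nat.isCoprime_iff_coprime.2 ((hs q hq).1.coprime_iff_not_dvd.2 hn))
    simp only [Int.cast_natCast] at this
    simp [this]

/-- primes instead of prime powers -/
theorem theta_psi {d : ℕ} (χ : DirichletCharacter ℂ d) {X : ℕ} (hX : 1 ≤ X) :
    ‖∑ q ∈ Icc 1 X with q.Prime, (Real.log q : ℂ) * χ q‖ ≤
      ‖∑ n ∈ Icc 1 X, (Λ n : ℂ) * χ n‖ + 2 * √X * Real.log X := by
  have h1 : ∑ q ∈ Icc 1 X with q.Prime, (Real.log q : ℂ) * χ q =
      ∑ n ∈ Icc 1 X, (Λ n : ℂ) * χ n - ∑ n ∈ Icc 1 X with ¬ n.Prime, (Λ n : ℂ) * χ n := by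
    rw [← sum_filter_add_sum_filter_not (Icc 1 X) Nat.Prime, add_sub_cancel_right]
    refine sum_congr rfl fun q hq => ?_
    rw [ArithmeticFunction.vonMangoldt_apply_prime (mem_filter.1 hq).2]
  rw [h1]
  refine (norm_sub_le _ _).trans (add_le_add_right ?_ _)
  have h2 := Chebyshev.psi_sub_theta_le (x := X) (by exact_mod_cast hX)
  rw [Chebyshev.psi_sub_theta_eq_sum_not_prime, Nat.floor_natCast] at h2
  refine (norm_sum_le _ _).trans (le_trans (sum_le_sum fun n _ => ?_) h2)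
  rw [norm_mul, Complex.norm_real, Real.norm_of_nonneg ArithmeticFunction.vonMangoldt_nonneg]
  exact mul_le_of_le_one_right ArithmeticFunction.vonMangoldt_nonneg (χ.norm_le_one _)

theorem ev_log (K : ℝ) : ∀ᶠ y : ℝ in Filter.atTop, K ≤ Real.log y :=
  Real.tendsto_log_atTop.eventually_ge_atTop K

theorem ev_pow (K : ℝ) (B : ℕ) : ∀ᶠ y : ℝ in Filter.atTop, K * Real.log y ^ B ≤ √y := by
  have h := (isLittleO_log_rpow_rpow_atTop (B : ℝ) (show (0 : ℝ) < 1 / 2 by norm_num)).bound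
    (show 0 < 1 / (|K| + 1) by positivity)
  filter_upwards [h, Filter.eventually_ge_atTop 1] with y h hy
  have hl := Real.log_nonneg hy
  rw [Real.rpow_natCast, Real.norm_of_nonneg (by positivity), Real.norm_of_nonneg (by positivity),
    ← Real.sqrt_eq_rpow, one_div, ← div_eq_inv_mul, le_div_iff₀ (by positivity)] at h
  refine le_trans ?_ h
  rw [mul_comm]
  gcongr
  linarith [le_abs_self K]

/-- the large sieve for a power -/
theorem lsk : ∃ C : ℝ, 0 < C ∧ ∀ (s : Finset ℕ) (w : ℕ → ℝ) (W : ℝ) (Y k R u : ℕ),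
    (∀ q ∈ s, q.Prime ∧ q ≤ Y) → 0 ≤ W → (∀ q ∈ s, 0 ≤ w q ∧ w q ≤ W) → ∑ q ∈ s, w q = 1 →
    2 * k ≤ u → ∑ d ∈ Icc 1 R, ∑ χ ∈ BVP.prim d, ‖∑ q ∈ s, (w q : ℂ) * χ q‖ ^ u ≤
      C * ((Y : ℝ) ^ k + (R : ℝ) ^ 2) * (1 + Real.log R) * (k * W) ^ k := by
  obtain ⟨C, C0, hC⟩ := ls
  refine ⟨C, C0, fun s w W Y k R u hs hW hw h1 hu => ?_⟩
  have h2 := hC R (Y ^ k) fun n => co s w k n
  have hl := Real.log_natCast_nonneg R
  rw [Nat.cast_pow] at h2
  refine le_trans (sum_le_sum fun d hd => ?_) (h2.trans ?_)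
  · have d0 : 0 < d := (mem_Icc.1 hd).1
    have h3 : (1 : ℝ) ≤ (d : ℝ) / d.totient := by
      rw [le_div_iff₀ (by exact_mod_cast Nat.totient_pos.2 d0), one_mul]
      exact_mod_cast Nat.totient_le d
    refine le_trans (sum_le_sum fun χ _ => ?_)
      (le_mul_of_one_le_left (sum_nonneg fun _ _ => by positivity) h3)
    rw [← pow_eq hs, norm_pow, ← pow_mul]
    exact pow_le_pow_of_le_one (norm_nonneg _) (norm_le_one (fun q hq => (hw q hq).1) h1 χ)
      (by omega)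
  · gcongr
    exact co_sq hs hW hw h1 k

/-- Siegel-Walfisz for primes -/
theorem tb (A G : ℕ) : ∀ᶠ y : ℝ in Filter.atTop, ∀ X : ℕ, y - 1 ≤ X → X ≤ 3 * y →
    ∀ (d : ℕ) (χ : DirichletCharacter ℂ d), 1 ≤ d → (d : ℝ) ≤ Real.log y ^ A → χ ≠ 1 →
    ‖∑ q ∈ Icc 1 X with q.Prime, (Real.log q : ℂ) * χ q‖ ≤ y / (4 * Real.log y ^ G) := by
  obtain ⟨C, C0, hC⟩ := sw_all (G + 1) (2 * A)
  filter_upwards [ev_log 4, ev_log (24 * C * 2 ^ (G + 1)), ev_pow 64 (G + 1),
    Filter.eventually_ge_atTop 4] with y h4 hL hP hy X h1 h2 d χ hd hdA hχ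
  have : NeZero d := ⟨by omega⟩
  have X3 : (3 : ℝ) ≤ X := by linarith
  have X2 : 2 ≤ X := by
    have : 3 ≤ X := by exact_mod_cast X3
    omega
  have l1 : Real.log y / 2 ≤ Real.log X := by
    have := Real.log_le_log (by linarith) (show y ≤ (X : ℝ) ^ 2 by nlinarith)
    rw [Real.log_pow] at this
    push_cast at this
    linarith
  have l2 : Real.log X ≤ 2 * Real.log y := by
    have := Real.log_le_log (by linarith) (show (X : ℝ) ≤ y ^ 2 by nlinarith)
    rw [Real.log_pow] at this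
    push_cast at this
    linarith
  have l3 : √X ≤ 2 * √y := by
    rw [Real.sqrt_le_left (by positivity), mul_pow, Real.sq_sqrt (by linarith)]
    linarith
  have h5 := hC X d χ X2 (hdA.trans (by
    rw [pow_mul]
    exact pow_le_pow_left₀ (by linarith) (by nlinarith) _)) hχ
  set L := Real.log y
  have L0 : 0 < L := by linarith
  have h6 : C * X / Real.log X ^ (G + 1) ≤ y / (8 * L ^ G) := by
    calc _ ≤ C * (3 * y) / (L / 2) ^ (G + 1) := by gcongr
      _ = (24 * C * 2 ^ (G + 1) / L) * (y / (8 * L ^ G)) := by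
        rw [div_pow]; field_simp; ring
      _ ≤ _ := mul_le_of_le_one_left (by positivity) ((div_le_one L0).2 hL)
  have h7 : 2 * √X * Real.log X ≤ y / (8 * L ^ G) := by
    have l0 := Real.log_natCast_nonneg X
    calc _ ≤ 2 * (2 * √y) * (2 * L) := by gcongr
      _ = (64 * L ^ (G + 1)) * √y / (8 * L ^ G) := by field_simp; ring
      _ ≤ √y * √y / (8 * L ^ G) := by gcongr
      _ = _ := by rw [Real.mul_self_sqrt (by linarith)]
  calc _ ≤ _ := theta_psi χ (by omega)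
    _ ≤ y / (8 * L ^ G) + y / (8 * L ^ G) := add_le_add (h5.trans h6) h7
    _ = _ := by field_simp; ring

/-- a stratum is an interval of primes -/
theorem strat_sum {y : ℝ} (hy : 0 < y) {N i : ℕ} (hs : (strat y N i).Nonempty) (f : ℕ → ℂ) :
    ∃ a ∈ strat y N i, ∃ b ∈ strat y N i, ∑ q ∈ strat y N i, f q =
      ∑ q ∈ Icc 1 b with q.Prime, f q - ∑ q ∈ Icc 1 (a - 1) with q.Prime, f q := by
  have ha := min'_mem _ hs
  have hb := max'_mem _ hs
  have h1 := fun q hq => min'_le (strat y N i) q hq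
  have h2 := fun q hq => le_max' (strat y N i) q hq
  generalize_proofs at h1 h2
  set a := (strat y N i).min' hs
  set b := (strat y N i).max' hs
  refine ⟨a, ha, b, hb, ?_⟩
  have hab := h1 b hb
  rw [← sum_sdiff_eq_sub (filter_subset_filter _ (Icc_subset_Icc_right (by omega)))]
  refine sum_congr ?_ fun _ _ => rfl
  ext q
  rw [mem_sdiff, mem_filter, mem_filter, mem_Icc, mem_Icc]
  constructor
  · intro hq
    have h3 := (mem_filter.1 hq).2.1
    have h4 := h3.one_le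
    have h5 := h1 q hq
    exact ⟨⟨⟨h4, h2 q hq⟩, h3⟩, fun h => by omega⟩
  · rintro ⟨⟨⟨h3, h4⟩, h5⟩, h6⟩
    have h7 : a ≤ q := by
      by_contra h
      exact h6 ⟨⟨h3, by omega⟩, h5⟩
    obtain ⟨ha1, ha2, ha3⟩ := mem_filter.1 ha
    obtain ⟨hb1, hb2, hb3⟩ := mem_filter.1 hb
    have a0 : (0 : ℝ) < a := by exact_mod_cast ha2.pos
    have q0 : (0 : ℝ) < q := by exact_mod_cast h5.pos
    refine mem_filter.2 ⟨mem_range.2 (lt_of_le_of_lt h4 (mem_range.1 hb1)), h5, le_antisymm ?_ ?_⟩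
    · rw [← hb3]
      gcongr
    · rw [← ha3]
      gcongr

/-- small conductors -/
theorem small (hT : S_Theta) (A A' B : ℕ) : ∀ᶠ y : ℝ in Filter.atTop, ∀ N : ℕ, 1 ≤ N →
    (N : ℝ) ≤ Real.log y ^ A → ∀ i < N, ∀ (d : ℕ) (χ : DirichletCharacter ℂ d), 1 ≤ d →
    (d : ℝ) ≤ Real.log y ^ A' → χ ≠ 1 → ‖Sm y N i fun q => χ q‖ ≤ (Real.log y ^ B)⁻¹ := by
  obtain ⟨y₀, h⟩ := hT A
  filter_upwards [tb A' (A + B), ev_log 1, Filter.eventually_ge_atTop y₀,
    Filter.eventually_ge_atTop 1] with y ht hL hy y1 N hN hA i hi d χ hd hdA hχ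
  obtain ⟨t1, t2, t3, t4⟩ := h y hy N hN hA
  have N0 : (0 : ℝ) < N := by exact_mod_cast hN
  have hs : (strat y N i).Nonempty := by
    rw [nonempty_iff_ne_empty]
    intro h0
    have := t2 i hi
    rw [h0, sum_empty] at this
    exact zero_ne_one this
  have hP : ∀ q ∈ strat y N i, q ∈ Pset y N := fun q hq =>
    mem_biUnion.2 ⟨i, mem_range.2 hi, hq⟩
  obtain ⟨a, ha, b, hb, hab⟩ := strat_sum (by linarith) hs fun q => (Real.log q : ℂ) * χ q
  obtain ⟨a1, a2, a3, -⟩ := t4 a (hP a ha)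
  obtain ⟨-, b2, b3, -⟩ := t4 b (hP b hb)
  have a4 : ((a - 1 : ℕ) : ℝ) = a - 1 := by rw [Nat.cast_sub a1.one_le, Nat.cast_one]
  have e1 := ht b (by linarith) b3.le d χ hd hdA hχ
  have e2 := ht (a - 1) (by linarith) (by linarith) d χ hd hdA hχ
  have e3 : (Sm y N i fun q => χ q) = (∑ q ∈ strat y N i, (Real.log q : ℂ) * χ q) /
      (∑ q ∈ strat y N i, Real.log q : ℝ) := by
    rw [Sm, sum_div]
    refine sum_congr rfl fun q hq => ?_
    rw [wt, t3 i q hq, Complex.ofReal_div]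
    ring
  have e4 := t1 i hi
  have e5 : 0 < y / (2 * N) := by positivity
  set L := Real.log y
  rw [e3, norm_div, Complex.norm_real, Real.norm_of_nonneg (e5.le.trans e4), hab]
  calc _ ≤ (y / (4 * L ^ (A + B)) + y / (4 * L ^ (A + B))) / (y / (2 * N)) := by
        gcongr
        exact (norm_sub_le _ _).trans (add_le_add e1 e2)
    _ = N / L ^ A * (L ^ B)⁻¹ := by field_simp; ring
    _ ≤ _ := mul_le_of_le_one_left (by positivity) ((div_le_one (by positivity)).2 hA)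

open Classical DirichletCharacter in
/-- reduction to primitive characters -/
theorem fib {s : Finset ℕ} {w : ℕ → ℝ} {W y : ℝ} {c m : ℕ} (u : ℕ) (hy : 1 < y)
    (hs : ∀ q ∈ s, q.Prime ∧ y ≤ q) (hW : 0 ≤ W) (hw : ∀ q ∈ s, 0 ≤ w q ∧ w q ≤ W)
    (hm : 1 ≤ m) (hc : (m : ℝ) ≤ y ^ c) :
    ∑ᶠ η ∈ {η : DirichletCharacter ℂ m | η ≠ 1}, ‖∑ q ∈ s, (w q : ℂ) * η q‖ ^ u ≤
      ∑ d ∈ m.divisors, (if 2 ≤ d then 2 ^ u * ∑ χ ∈ BVP.prim d,
        ‖∑ q ∈ s, (w q : ℂ) * χ q‖ ^ u else 0) + m * (2 * (c * W)) ^ u := by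
  have : NeZero m := ⟨by omega⟩
  have E0 : 0 ≤ (2 * (c * W)) ^ u := by positivity
  rw [show {η : DirichletCharacter ℂ m | η ≠ 1} = ↑(univ.erase (1 : DirichletCharacter ℂ m)) by
    ext; simp, finsum_mem_coe_finset]
  rw [← sum_fiberwise_of_maps_to (t := m.divisors) (g := conductor) fun χ _ =>
    Nat.mem_divisors.2 ⟨conductor_dvd_level χ, NeZero.ne m⟩]
  conv_rhs => rw [show (m : ℝ) * (2 * (c * W)) ^ u =
    ∑ r ∈ m.divisors, r.totient * (2 * (c * W)) ^ u by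
      rw [← sum_mul, ← Nat.cast_sum, Nat.sum_totient]]
  rw [← sum_add_distrib]
  refine sum_le_sum fun r hr => ?_
  have h := Nat.dvd_of_mem_divisors hr
  have r0 := Nat.pos_of_mem_divisors hr
  split_ifs with h2
  · have h3 : (univ.erase (1 : DirichletCharacter ℂ m)).filter (fun χ => conductor χ = r) ⊆
        (BVP.prim r).image (changeLevel h) := fun χ hχ => by
      obtain rfl := (mem_filter.1 hχ).2
      exact mem_image.2 ⟨χ.primitiveCharacter, mem_filter.2 ⟨mem_univ _,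
        χ.primitiveCharacter_isPrimitive⟩, χ.changeLevel_primitiveCharacter⟩
    have h4 : ∀ χ ∈ BVP.prim r, ‖∑ q ∈ s, (w q : ℂ) * changeLevel h χ q‖ ^ u ≤
        2 ^ u * ‖∑ q ∈ s, (w q : ℂ) * χ q‖ ^ u + (2 * (c * W)) ^ u := fun χ _ => by
      refine (pow_le_pow_left₀ (norm_nonneg _) (change hy hs hW hw hm hc h χ) u).trans
        ((add_pow_le (norm_nonneg _) (by positivity) u).trans ?_)
      rw [mul_pow 2, ← mul_add]
      gcongr
      · norm_num
      · omega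
    refine (sum_le_sum_of_subset_of_nonneg h3 fun _ _ _ => by positivity).trans
      ((sum_image_le_of_nonneg fun _ _ => by positivity).trans ((sum_le_sum h4).trans ?_))
    rw [sum_add_distrib, sum_const, nsmul_eq_mul, ← mul_sum]
    gcongr
    exact BVP.card_prim_le r0.ne'
  · refine le_trans (le_of_eq (sum_eq_zero fun χ hχ => ?_)) (by positivity)
    rw [mem_filter, mem_erase, Ne, eq_one_iff_conductor_eq_one] at hχ
    omega

end E2P

open E2P in
theorem p_e2 (hTheta : S_Theta) : S_E2 := by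
  intro c
  refine ⟨4 * c + 2, fun u hu A => ⟨(A + 1) * (2 * c + 1) + 1, fun A' => ?_⟩⟩
  obtain ⟨C, C0, hC⟩ := lsk
  obtain ⟨y₀, h⟩ := hTheta A
  refine Filter.eventually_atTop.1 ?_
  filter_upwards [small hTheta A A' (A + 3 * A' + 1), ev_log 1, ev_log (2 ^ u),
    ev_log (2 ^ u * C * 2 * (1 + c) * (32 * c) ^ (2 * c)), ev_pow (8 * c) (A + 1),
    ev_pow ((8 * c) ^ (c + 2)) (A + (A + 1) * (c + 2)),
    Filter.eventually_ge_atTop y₀, Filter.eventually_ge_atTop 2]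
    with y hsm hL hu2 hK hP1 hP2 hy y2 N hN hA
  obtain ⟨-, t2, -, t4⟩ := h y hy N hN hA
  have hP : ∀ i ∈ range N, ∀ q ∈ strat y N i, q ∈ Pset y N := fun i hi q hq =>
    mem_biUnion.2 ⟨i, hi, hq⟩
  have y0 : 0 < y := by linarith
  have sq : √y ≤ y := by
    rw [Real.sqrt_le_left y0.le]; nlinarith
  set L := Real.log y with hLd
  have L0 : 0 < L := by linarith
  have W0 : 0 ≤ 4 * N * L / y := by positivity
  refine ⟨fun d => ∑ i ∈ range N, if 2 ≤ d then 2 ^ u * ∑ χ ∈ BVP.prim d,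
    ‖Sm y N i fun q => χ q‖ ^ u else 0, fun d => sum_nonneg fun i _ => ?_, ?_, ?_, ?_⟩
  · split_ifs <;> positivity
  · set R := ⌊y ^ c⌋₊
    have R1 : (R : ℝ) ≤ y ^ c := Nat.floor_le (by positivity)
    have R0 : 0 < R := Nat.floor_pos.2 (one_le_pow₀ (by linarith))
    have R2 : Real.log R ≤ c * L := by
      rw [hLd, ← Real.log_pow]
      exact Real.log_le_log (by exact_mod_cast R0) R1
    have R3 := Real.log_natCast_nonneg R
    have Y1 : (⌈3 * y⌉₊ : ℝ) ≤ 4 * y := by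
      linarith [Nat.ceil_lt_add_one (show 0 ≤ 3 * y by positivity)]
    rw [sum_comm]
    refine (sum_le_card_nsmul _ _ (2 ^ u * (C * (2 * (4 * y) ^ (2 * c)) * ((1 + c) * L) *
      ((2 * c : ℕ) * (4 * L ^ A * L / y)) ^ (2 * c))) fun i hi => ?_).trans ?_
    · have h1 := hC (strat y N i) (wt y N) _ ⌈3 * y⌉₊ (2 * c) R u
        (fun q hq => ⟨(mem_filter.1 hq).2.1, Nat.lt_succ_iff.1 (mem_range.1 (mem_filter.1 hq).1)⟩)
        W0 (fun q hq => (t4 q (hP i hi q hq)).2.2.2.2.2) (t2 i (mem_range.1 hi)) (by omega)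
      calc _ ≤ ∑ d ∈ Icc 1 R, 2 ^ u * ∑ χ ∈ BVP.prim d, ‖Sm y N i fun q => χ q‖ ^ u :=
            sum_le_sum fun d _ => by
              split_ifs
              · exact le_rfl
              · positivity
        _ ≤ _ := by
            rw [← mul_sum]
            refine mul_le_mul_of_nonneg_left (h1.trans ?_) (by positivity)
            gcongr
            · rw [two_mul ((4 * y) ^ (2 * c))]
              gcongr
              calc (R : ℝ) ^ 2 ≤ (y ^ c) ^ 2 := by gcongr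
                _ = y ^ (2 * c) := by ring
                _ ≤ _ := by gcongr; linarith
            · linarith
    · rw [card_range, nsmul_eq_mul]
      calc _ ≤ L ^ A * (2 ^ u * (C * (2 * (4 * y) ^ (2 * c)) * ((1 + c) * L) *
            ((2 * c : ℕ) * (4 * L ^ A * L / y)) ^ (2 * c))) := by gcongr
        _ = (2 ^ u * C * 2 * (1 + c)) * L ^ (A + 1) *
            ((4 * y) * ((2 * c : ℕ) * (4 * L ^ A * L / y))) ^ (2 * c) := by
              rw [mul_pow (4 * y)]; ring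
        _ = (2 ^ u * C * 2 * (1 + c) * (32 * c) ^ (2 * c)) * L ^ ((A + 1) * (2 * c + 1)) := by
              rw [show (4 * y) * ((2 * c : ℕ) * (4 * L ^ A * L / y)) = 32 * c * L ^ (A + 1) by
                push_cast; field_simp; ring, mul_pow (32 * c : ℝ), ← pow_mul]
              ring
        _ ≤ L * L ^ ((A + 1) * (2 * c + 1)) := by gcongr
        _ = _ := by ring
  · have R1 : (⌊L ^ A'⌋₊ : ℝ) ≤ L ^ A' := Nat.floor_le (by positivity)
    refine (sum_le_card_nsmul _ _ (L ^ A * (L * (L ^ A' * (L ^ (A + 3 * A' + 1))⁻¹)))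
      fun d hd => ?_).trans ?_
    · have d1 := (mem_Icc.1 hd).1
      have d2 : (d : ℝ) ≤ L ^ A' := le_trans (by exact_mod_cast (mem_Icc.1 hd).2) R1
      refine (sum_le_card_nsmul _ _ (L * (L ^ A' * (L ^ (A + 3 * A' + 1))⁻¹))
        fun i hi => ?_).trans ?_
      · split_ifs with h2
        · refine mul_le_mul hu2 ((sum_le_card_nsmul _ _ ((L ^ (A + 3 * A' + 1))⁻¹)
            fun χ hχ => ?_).trans ?_) (by positivity) L0.le
          · refine le_trans ?_ (hsm N hN hA i (mem_range.1 hi) d χ d1 d2 (BVP.prim_ne_one h2 hχ))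
            exact pow_le_of_le_one (norm_nonneg _) (norm_le_one
              (fun q hq => (t4 q (hP i hi q hq)).2.2.2.2.2.1) (t2 i (mem_range.1 hi)) χ) (by omega)
          · rw [nsmul_eq_mul]
            gcongr
            refine le_trans ?_ d2
            exact_mod_cast (BVP.card_prim_le (by omega)).trans (Nat.totient_le d)
        · positivity
      · rw [card_range, nsmul_eq_mul]
        gcongr
    · rw [Nat.card_Icc, add_tsub_cancel_right, nsmul_eq_mul]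
      calc _ ≤ L ^ A' * (L ^ A * (L * (L ^ A' * (L ^ (A + 3 * A' + 1))⁻¹))) := by gcongr
        _ = _ := by field_simp; ring
  · intro m hm hc
    rw [sum_comm, E2]
    refine (sum_le_sum fun i hi => fib u (by linarith) (fun q hq => ⟨(t4 q (hP i hi q hq)).1,
      (t4 q (hP i hi q hq)).2.1⟩) W0 (fun q hq => (t4 q (hP i hi q hq)).2.2.2.2.2) hm hc).trans ?_
    rw [sum_add_distrib, sum_const, card_range, nsmul_eq_mul]
    refine add_le_add le_rfl ?_
    have h1 : 2 * (c * (4 * N * L / y)) ≤ 8 * c * L ^ (A + 1) / y := by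
      calc _ ≤ 2 * (c * (4 * L ^ A * L / y)) := by gcongr
        _ = _ := by ring
    calc _ ≤ L ^ A * (y ^ c * (8 * c * L ^ (A + 1) / y) ^ u) := by gcongr
      _ ≤ L ^ A * (y ^ c * (8 * c * L ^ (A + 1) / y) ^ (c + 2)) := by
          gcongr _ * (_ * ?_)
          exact pow_le_pow_of_le_one (by positivity) ((div_le_one y0).2 (hP1.trans sq)) (by omega)
      _ = (8 * c) ^ (c + 2) * L ^ (A + (A + 1) * (c + 2)) / y * (1 / y) := by
          rw [div_pow, mul_pow _ (L ^ (A + 1)), ← pow_mul]; field_simp; ring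
      _ ≤ _ := mul_le_of_le_one_left (by positivity) ((div_le_one y0).2 (hP2.trans sq))

end Pool.Agent.P.MP_b8021b_nt.VE
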