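import Pool.Agent.P.MP_b8021b_nt.VE.StN

/-! N7: orthogonality of the ray class characters of a given angular type. -/

namespace Pool.Agent.P.MP_b8021b_nt.VE

open NumberField Finset
open scoped Classical ComplexConjugate nonZeroDivisors

namespace EqP

lemma dir_mul (z w : ℂ) : dir (z * w) = dir z * dir w := by
  simp only [dir, norm_mul, Complex.ofReal_mul]
  rw [mul_div_mul_comm]

lemma dir_one : dir 1 = 1 := by simp [dir]

lemma norm_dir {z : ℂ} (hz : z ≠ 0) : ‖dir z‖ = 1 := by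
  simp only [dir, norm_div, Complex.norm_real, norm_norm]
  exact div_self (norm_ne_zero_iff.mpr hz)

lemma dir_ne {z : ℂ} (hz : z ≠ 0) : dir z ≠ 0 := by
  intro h
  have := norm_dir hz
  rw [h, norm_zero] at this
  exact zero_ne_one this

lemma dir_of_norm {z : ℂ} (hz : ‖z‖ = 1) : dir z = z := by simp [dir, hz]

lemma mul_conj_of_norm {z : ℂ} (hz : ‖z‖ = 1) : z * conj z = 1 := by
  rw [Complex.mul_conj, Complex.normSq_eq_norm_sq, hz]; simp

lemma conj_eq_inv {z : ℂ} (hz : ‖z‖ = 1) : conj z = z⁻¹ :=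
  eq_inv_of_mul_eq_one_right (mul_conj_of_norm hz)

/-- homomorphisms to the multiplicative group of the complex numbers extend -/
lemma ext_hom {A B : Type} [CommGroup A] [CommGroup B] (f : A →* B) (hf : Function.Injective f)
    (g : A →* ℂˣ) : ∃ h : B →* ℂˣ, ∀ a, h (f a) = g a := by
  let _ : DivisibleBy (Additive ℂˣ) ℤ := by
    refine divisibleByOfSMulRightSurj _ _ ?_
    intro m hm a
    have hne : (Additive.toMul a : ℂˣ).1 ≠ 0 := (Additive.toMul a).ne_zero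
    refine ⟨Additive.ofMul (Units.mk0 (Complex.exp (Complex.log (Additive.toMul a : ℂˣ).1 / m))
      (Complex.exp_ne_zero _)), ?_⟩
    apply Additive.toMul.injective
    apply Units.ext
    have hm' : (m : ℂ) ≠ 0 := by exact_mod_cast hm
    simp only [toMul_zsmul, toMul_ofMul, Units.val_zpow_eq_zpow_val, Units.val_mk0]
    rw [← Complex.exp_int_mul, mul_div_cancel₀ _ hm', Complex.exp_log hne]
  obtain ⟨h, hh⟩ := (Module.Baer.of_divisible (Additive ℂˣ)).extension_property_addMonoidHom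
    (MonoidHom.toAdditive f) hf (MonoidHom.toAdditive g)
  refine ⟨MonoidHom.toAdditive.symm h, fun a => ?_⟩
  exact congrArg Additive.toMul (DFunLike.congr_fun hh (Additive.ofMul a))

variable {L : Type} [Field L] [NumberField L] {n : ℕ}

/-- the modulus is not a unit and the only unit congruent to one is one -/
def Rig (L : Type) [Field L] (n : ℕ) : Prop :=
  ¬ (n : 𝓞 L) ∣ 1 ∧ ∀ ε : (𝓞 L)ˣ, (n : 𝓞 L) ∣ ε - 1 → ε = 1

lemma rig_of (h : ∀ ε : (𝓞 L)ˣ, (n : 𝓞 L) ∣ ε - 1 → ε = 1) : Rig L n := by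
  refine ⟨fun h1 => ?_, h⟩
  have := h (-1) (h1.trans (one_dvd _))
  have h2 : ((-1 : (𝓞 L)ˣ) : 𝓞 L) = ((1 : (𝓞 L)ˣ) : 𝓞 L) := congrArg Units.val this
  simp only [Units.val_neg, Units.val_one] at h2
  have h3 : (2 : 𝓞 L) = 0 := by linear_combination -h2
  exact two_ne_zero h3

omit [NumberField L] in
lemma ne_zero_of (hR : Rig L n) {α : 𝓞 L} (h : (n : 𝓞 L) ∣ α - 1) : α ≠ 0 := by
  rintro rfl
  exact hR.1 (by simpa using h)

omit [NumberField L] in
lemma cop_mul {I J : Ideal (𝓞 L)} : Cop n (I * J) ↔ Cop n I ∧ Cop n J :=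
  IsCoprime.mul_left_iff

omit [NumberField L] in
lemma cop_top : Cop n (1 : Ideal (𝓞 L)) := isCoprime_one_left

omit [NumberField L] in
lemma cop_iff {I : Ideal (𝓞 L)} : Cop n I ↔ ∃ β ∈ I, (n : 𝓞 L) ∣ β - 1 := by
  unfold Cop
  rw [Ideal.isCoprime_iff_exists]
  constructor
  · rintro ⟨a, ha, b, hb, hab⟩
    refine ⟨a, ha, ?_⟩
    rw [Ideal.mem_span_singleton] at hb
    have : a - 1 = -b := by linear_combination hab
    rw [this]; exact hb.neg_right
  · rintro ⟨a, ha, hb⟩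
    refine ⟨a, ha, -(a - 1), ?_, by ring⟩
    rw [Ideal.mem_span_singleton]; exact hb.neg_right

omit [NumberField L] in
lemma cop_span {α : 𝓞 L} (h : (n : 𝓞 L) ∣ α - 1) : Cop n (Ideal.span {α}) :=
  cop_iff.mpr ⟨α, Ideal.mem_span_singleton_self α, h⟩

omit [NumberField L] in
lemma ne_bot_of (hR : Rig L n) {I : Ideal (𝓞 L)} (h : Cop n I) : I ≠ ⊥ := by
  obtain ⟨β, hβ, h1⟩ := cop_iff.mp h
  rintro rfl
  exact ne_zero_of hR h1 (Ideal.mem_bot.mp hβ)

omit [NumberField L] in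
lemma dvd_mul_sub {α β : 𝓞 L} (h : (n : 𝓞 L) ∣ α - 1) (h' : (n : 𝓞 L) ∣ β - 1) :
    (n : 𝓞 L) ∣ α * β - 1 := by
  have : α * β - 1 = (α - 1) * β + (β - 1) := by ring
  rw [this]; exact (h.mul_right _).add h'

omit [NumberField L] in
lemma eq_of_span (hR : Rig L n) {α β : 𝓞 L} (h : (n : 𝓞 L) ∣ α - 1) (h' : (n : 𝓞 L) ∣ β - 1)
    (e : Ideal.span {α} = Ideal.span {β}) : α = β := by
  obtain ⟨ε, hε⟩ := Ideal.span_singleton_eq_span_singleton.mp e
  have : (ε : 𝓞 L) - 1 = (β - 1) - (α - 1) - (α - 1) * (ε - 1) := by rw [← hε]; ring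
  have h1 : ε = 1 := hR.2 ε (by rw [this]; exact (h'.sub h).sub (h.mul_right _))
  rw [← hε, h1]; simp

/-- the quotients of two integers congruent to one -/
def U1 (L : Type) [Field L] [NumberField L] (n : ℕ) : Subgroup Lˣ where
  carrier := {u | ∃ α β : 𝓞 L, (n : 𝓞 L) ∣ α - 1 ∧ (n : 𝓞 L) ∣ β - 1 ∧ (u : L) * β = α}
  one_mem' := ⟨1, 1, by simp, by simp, by simp⟩
  mul_mem' := by
    rintro u v ⟨a, b, ha, hb, e⟩ ⟨c, d, hc, hd, e'⟩
    refine ⟨a * c, b * d, dvd_mul_sub ha hc, dvd_mul_sub hb hd, ?_⟩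
    have e1 : ((a * c : 𝓞 L) : L) = (a : L) * (c : L) := map_mul (algebraMap (𝓞 L) L) a c
    have e2 : ((b * d : 𝓞 L) : L) = (b : L) * (d : L) := map_mul (algebraMap (𝓞 L) L) b d
    rw [e1, e2, Units.val_mul, ← e, ← e']; ring
  inv_mem' := by
    rintro u ⟨a, b, ha, hb, e⟩
    refine ⟨b, a, hb, ha, ?_⟩
    rw [← e, ← mul_assoc, Units.inv_mul, one_mul]

/-- the angular character -/
noncomputable def ang (σ : L →+* ℂ) (k : ℤ) : Lˣ →* ℂˣ where
  toFun u := Units.mk0 (dir (σ u) ^ k) (zpow_ne_zero _ (dir_ne ((map_ne_zero σ).mpr u.ne_zero)))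
  map_one' := by apply Units.ext; simp [dir_one]
  map_mul' u v := by apply Units.ext; simp [dir_mul, mul_zpow]

/-- there is a character of every angular type -/
lemma exists_char (hR : Rig L n) (σ : L →+* ℂ) (k : ℤ) :
    ∃ χ : Ideal (𝓞 L) →* ℂ, IsHChar σ n k χ := by
  have hinj : Function.Injective ((toPrincipalIdeal (𝓞 L) L).comp (U1 L n).subtype) := by
    rw [injective_iff_map_eq_one]
    rintro ⟨u, a, b, ha, hb, e⟩ hu
    have h1 : FractionalIdeal.spanSingleton (𝓞 L)⁰ (u : L) = 1 := by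
      have := congrArg Units.val hu
      simpa [coe_toPrincipalIdeal] using this
    have h2 : Ideal.span {a} = Ideal.span {b} := by
      apply FractionalIdeal.coeIdeal_injective (K := L)
      simp only [FractionalIdeal.coeIdeal_span_singleton]
      have ea : algebraMap (𝓞 L) L a = (u : L) * algebraMap (𝓞 L) L b := e.symm
      rw [ea, ← FractionalIdeal.spanSingleton_mul_spanSingleton, h1, one_mul]
    have h3 := eq_of_span hR ha hb h2
    have hb0 : (b : L) ≠ 0 := by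
      have := ne_zero_of hR hb
      exact_mod_cast this
    apply Subtype.ext
    apply Units.ext
    rw [h3] at e
    simpa [hb0] using e
  obtain ⟨h, hh⟩ := ext_hom _ hinj ((ang σ k).comp (U1 L n).subtype)
  have hne : ∀ I : Ideal (𝓞 L), Cop n I → (I : FractionalIdeal (𝓞 L)⁰ L) ≠ 0 := fun I hI =>
    FractionalIdeal.coeIdeal_ne_zero.mpr (ne_bot_of hR hI)
  let χ : Ideal (𝓞 L) →* ℂ :=
    { toFun := fun I => if hI : Cop n I then dir (h (Units.mk0 _ (hne I hI)) : ℂˣ) else 0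
      map_one' := by
        rw [dif_pos cop_top]
        have : Units.mk0 _ (hne 1 cop_top) = 1 := by
          apply Units.ext; simp
        rw [this, map_one, Units.val_one, dir_one]
      map_mul' := by
        intro I J
        by_cases hI : Cop n I
        · by_cases hJ : Cop n J
          · rw [dif_pos (cop_mul.mpr ⟨hI, hJ⟩), dif_pos hI, dif_pos hJ, ← dir_mul,
              ← Units.val_mul, ← map_mul]
            have : Units.mk0 _ (hne (I * J) (cop_mul.mpr ⟨hI, hJ⟩)) =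
                Units.mk0 _ (hne I hI) * Units.mk0 _ (hne J hJ) := by
              apply Units.ext; simp [FractionalIdeal.coeIdeal_mul]
            rw [this]
          · rw [dif_neg hJ, dif_neg fun h => hJ (cop_mul.mp h).2, mul_zero]
        · rw [dif_neg hI, dif_neg fun h => hI (cop_mul.mp h).1, zero_mul] }
  refine ⟨χ, ⟨fun I hI => ?_, fun I hI => ?_⟩, fun α hα => ?_⟩
  · show ‖(if hI : Cop n I then dir (h (Units.mk0 _ (hne I hI)) : ℂˣ) else 0)‖ = 1
    rw [dif_pos hI]; exact norm_dir (Units.ne_zero _)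
  · show (if hI : Cop n I then dir (h (Units.mk0 _ (hne I hI)) : ℂˣ) else 0) = 0
    rw [dif_neg hI]
  · show (if hI : Cop n (Ideal.span {α}) then dir (h (Units.mk0 _ (hne _ hI)) : ℂˣ) else 0) = _
    rw [dif_pos (cop_span hα)]
    have hα0 : (α : L) ≠ 0 := by
      have := ne_zero_of hR hα
      exact_mod_cast this
    have hm : Units.mk0 (α : L) hα0 ∈ U1 L n := ⟨α, 1, hα, by simp, by simp⟩
    have e1 : Units.mk0 _ (hne _ (cop_span hα)) =
        ((toPrincipalIdeal (𝓞 L) L).comp (U1 L n).subtype) ⟨_, hm⟩ := by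
      apply Units.ext
      simp [coe_toPrincipalIdeal, FractionalIdeal.coeIdeal_span_singleton]
    rw [e1, hh]
    show dir (dir (σ α) ^ k) = _
    apply dir_of_norm
    rw [norm_zpow, norm_dir ((map_ne_zero σ).mpr hα0), one_zpow]

lemma sum_dual (G : Type) [CommGroup G] [Fintype G] [Fintype (G →* ℂˣ)] (g : G) :
    ∑ η : G →* ℂˣ, ((η g : ℂˣ) : ℂ) = if g = 1 then (Fintype.card G : ℂ) else 0 := by
  split_ifs with hg
  · subst hg
    have := CommGroup.card_monoidHom_of_hasEnoughRootsOfUnity G ℂ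
    rw [Nat.card_eq_fintype_card, Nat.card_eq_fintype_card] at this
    simp [this]
  · obtain ⟨η₀, h₀⟩ := CommGroup.exists_apply_ne_one_of_hasEnoughRootsOfUnity G ℂ hg
    have h1 : ∑ η : G →* ℂˣ, ((η g : ℂˣ) : ℂ) = ∑ η : G →* ℂˣ, (((η₀ * η) g : ℂˣ) : ℂ) :=
      (Equiv.sum_comp (Equiv.mulLeft η₀) fun η : G →* ℂˣ => ((η g : ℂˣ) : ℂ)).symm
    simp only [MonoidHom.mul_apply, Units.val_mul, ← Finset.mul_sum] at h1
    have h2 : ((η₀ g : ℂˣ) : ℂ) ≠ 1 := fun h => h₀ (Units.ext h)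
    have h3 : (((η₀ g : ℂˣ) : ℂ) - 1) * ∑ η : G →* ℂˣ, ((η g : ℂˣ) : ℂ) = 0 := by
      linear_combination -h1
    exact (mul_eq_zero.mp h3).resolve_left (sub_ne_zero.mpr h2)

lemma norm_dual {G : Type} [CommGroup G] [Fintype G] (η : G →* ℂˣ) (g : G) :
    ‖((η g : ℂˣ) : ℂ)‖ = 1 := by
  have h1 : ((η g : ℂˣ) : ℂ) ^ Fintype.card G = 1 := by
    rw [← Units.val_pow_eq_pow_val, ← map_pow, pow_card_eq_one, map_one, Units.val_one]
  have h2 := congrArg norm h1
  rw [norm_pow, norm_one] at h2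
  exact (pow_eq_one_iff_of_nonneg (norm_nonneg _) Fintype.card_ne_zero).mp h2

/-- a congruent generator gives a ray equivalence -/
lemma ray_of_gen {𝔞 𝔟₀ 𝔟 : Ideal (𝓞 L)} {α₀ α : 𝓞 L} (ha : 𝔞 ≠ ⊥)
    (h₀ : Ideal.span {α₀} = 𝔞 * 𝔟₀) (hc : Cop n 𝔟₀) (h : Ideal.span {α} = 𝔞 * 𝔟)
    (hm : α - α₀ ∈ Ideal.span {(n : 𝓞 L)} * 𝔞) :
    ∃ β₀ β : 𝓞 L, (n : 𝓞 L) ∣ β₀ - 1 ∧ (n : 𝓞 L) ∣ β - 1 ∧ β₀ * α = β * α₀ ∧
      𝔟 * Ideal.span {β₀} = 𝔟₀ * Ideal.span {β} := by
  obtain ⟨β₀, hb, h1⟩ := cop_iff.mp hc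
  obtain ⟨a, haa, e⟩ := Ideal.mem_span_singleton_mul.mp hm
  have h2 : a * β₀ ∈ Ideal.span {α₀} := by rw [h₀]; exact Ideal.mul_mem_mul haa hb
  obtain ⟨c, hcc⟩ := Ideal.mem_span_singleton'.mp h2
  have e2 : β₀ * α = (β₀ + n * c) * α₀ := by linear_combination (-β₀) * e - (n : 𝓞 L) * hcc
  refine ⟨β₀, β₀ + n * c, h1, ?_, e2, ?_⟩
  · have : β₀ + n * c - 1 = (β₀ - 1) + n * c := by ring
    rw [this]; exact h1.add (dvd_mul_right _ _)
  · apply mul_left_cancel₀ ha
    rw [← mul_assoc, ← mul_assoc, ← h, ← h₀, Ideal.span_singleton_mul_span_singleton,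
      Ideal.span_singleton_mul_span_singleton, mul_comm α, e2, mul_comm α₀]

/-- a ray equivalence gives a congruent generator -/
lemma gen_of_ray {𝔞 𝔟₀ 𝔟 : Ideal (𝓞 L)} {α₀ : 𝓞 L} (h₀ : Ideal.span {α₀} = 𝔞 * 𝔟₀)
    (hr : Ray n 𝔟 𝔟₀) : ∃ α, Ideal.span {α} = 𝔞 * 𝔟 ∧ α - α₀ ∈ Ideal.span {(n : 𝓞 L)} * 𝔞 := by
  obtain ⟨β₀, β, hb0, -, h1, h2, e⟩ := hr
  have e1 : Ideal.span {β₀} * (𝔞 * 𝔟) = Ideal.span {β * α₀} := by
    rw [← Ideal.span_singleton_mul_span_singleton, h₀]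
    calc Ideal.span {β₀} * (𝔞 * 𝔟) = 𝔞 * (𝔟 * Ideal.span {β₀}) := by ring
      _ = 𝔞 * (𝔟₀ * Ideal.span {β}) := by rw [e]
      _ = _ := by ring
  have hd : β₀ ∣ β * α₀ := by
    rw [← Ideal.mem_span_singleton, ← Ideal.dvd_span_singleton, ← e1]
    exact dvd_mul_right _ _
  obtain ⟨α, hα⟩ := hd
  have e2 : Ideal.span {α} = 𝔞 * 𝔟 := by
    have hne : Ideal.span {β₀} ≠ ⊥ := by simpa using hb0
    apply mul_left_cancel₀ hne
    rw [e1, hα, Ideal.span_singleton_mul_span_singleton]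
  refine ⟨α, e2, ?_⟩
  have m1 : α ∈ 𝔞 := by
    rw [← Ideal.dvd_span_singleton, e2]; exact dvd_mul_right _ _
  have m0 : α₀ ∈ 𝔞 := by
    rw [← Ideal.dvd_span_singleton, h₀]; exact dvd_mul_right _ _
  have e3 : α - α₀ = (β - 1) * α₀ - (β₀ - 1) * α := by linear_combination -hα
  rw [e3]
  exact Ideal.sub_mem _ (Ideal.mul_mem_mul (Ideal.mem_span_singleton.mpr h2) m0)
    (Ideal.mul_mem_mul (Ideal.mem_span_singleton.mpr h1) m1)

/-- the congruent generator is unique -/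
lemma gen_unique (hR : Rig L n) {𝔞 𝔟 : Ideal (𝓞 L)} {α α' : 𝓞 L} (ha : 𝔞 ≠ ⊥) (hc : Cop n 𝔟)
    (h : Ideal.span {α} = 𝔞 * 𝔟) (h' : Ideal.span {α'} = 𝔞 * 𝔟)
    (hm : α' - α ∈ Ideal.span {(n : 𝓞 L)} * 𝔞) : α' = α := by
  obtain ⟨ε, hε⟩ := Ideal.span_singleton_eq_span_singleton.mp (h.trans h'.symm)
  have h1 : Ideal.span {(n : 𝓞 L)} * 𝔞 ∣ 𝔟 * Ideal.span {(ε : 𝓞 L) - 1} * 𝔞 := by
    have e : 𝔟 * Ideal.span {(ε : 𝓞 L) - 1} * 𝔞 = Ideal.span {α' - α} := by
      have : α' - α = α * (ε - 1) := by rw [← hε]; ring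
      rw [this, ← Ideal.span_singleton_mul_span_singleton, h]; ring
    rw [e, Ideal.dvd_span_singleton]; exact hm
  have h2 := (mul_dvd_mul_iff_right ha).mp h1
  have h3 := (IsCoprime.symm hc).dvd_of_dvd_mul_left h2
  rw [Ideal.dvd_span_singleton, Ideal.mem_span_singleton] at h3
  rw [← hε, hR.2 ε h3]; simp

omit [NumberField L] in
lemma char_ray {σ : L →+* ℂ} {k : ℤ} {χ : Ideal (𝓞 L) →* ℂ} (hχ : IsHChar σ n k χ)
    {I J : Ideal (𝓞 L)} {α β : 𝓞 L} (ha : (n : 𝓞 L) ∣ α - 1) (hb : (n : 𝓞 L) ∣ β - 1)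
    (e : I * Ideal.span {α} = J * Ideal.span {β}) :
    χ I * dir (σ α) ^ k = χ J * dir (σ β) ^ k := by
  rw [← hχ.prin α ha, ← hχ.prin β hb, ← map_mul, ← map_mul, e]

/-- twist of a character by a function of the ray class -/
noncomputable def tw (hR : Rig L n) {G : Type} [CommGroup G] (π : Ideal (𝓞 L) → G)
    (hπ : ∀ I J, I ≠ ⊥ → J ≠ ⊥ → Cop n I → Cop n J → π (I * J) = π I * π J)
    (χ : Ideal (𝓞 L) →* ℂ) (hχ : IsChar n χ) (η : G →* ℂˣ) : Ideal (𝓞 L) →* ℂ where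
  toFun I := χ I * (η (π I) : ℂˣ)
  map_one' := by
    have h := hπ 1 1 (ne_bot_of hR cop_top) (ne_bot_of hR cop_top) cop_top cop_top
    rw [mul_one] at h
    have h1 : π 1 = 1 := by simpa using h
    rw [h1, map_one, map_one, Units.val_one, mul_one]
  map_mul' I J := by
    by_cases hI : Cop n I
    · by_cases hJ : Cop n J
      · rw [hπ I J (ne_bot_of hR hI) (ne_bot_of hR hJ) hI hJ, map_mul, map_mul, Units.val_mul]
        ring
      · rw [map_mul, hχ.zero J hJ]; ring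
    · rw [map_mul, hχ.zero I hI]; ring

end EqP

open EqP in
theorem p_eqP (hIQb : S_IQb) (hRay : S_Ray) : S_Eq := by
  intro L _ _ K n k hn
  obtain ⟨-, -, -, -, -, -, hfin, hun, -⟩ := hIQb L K
  have hR : Rig L n := rig_of fun ε => hun n ε hn
  obtain ⟨G, _, _, π, hπ, hsur, hray, hcard⟩ := hRay L n (by omega)
  have hcard := hcard hR.2
  obtain ⟨χ₀, h₀⟩ := exists_char hR K.σ k
  have hc := CommGroup.card_monoidHom_of_hasEnoughRootsOfUnity G ℂ
  have : Finite (G →* ℂˣ) := Nat.finite_of_card_ne_zero (by rw [hc]; exact Nat.card_pos.ne')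
  let _ : Fintype (G →* ℂˣ) := Fintype.ofFinite _
  rw [Nat.card_eq_fintype_card, Nat.card_eq_fintype_card] at hc
  set T := tw hR π hπ χ₀ h₀.toIsChar with hT
  have hTa : ∀ η I, T η I = χ₀ I * (η (π I) : ℂˣ) := fun _ _ => rfl
  have hsur' : ∀ g, ∃ I, Cop n I ∧ π I = g := fun g => by
    obtain ⟨I, -, h1, h2⟩ := hsur g 1 le_rfl
    exact ⟨I, by simpa using h1, h2⟩
  have hray' : ∀ I J, Cop n I → Cop n J → (π I = π J ↔ Ray n I J) := fun I J hI hJ =>
    hray I J (ne_bot_of hR hI) (ne_bot_of hR hJ) hI hJ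
  have hπ' : ∀ I J, Cop n I → Cop n J → π (I * J) = π I * π J := fun I J hI hJ =>
    hπ I J (ne_bot_of hR hI) (ne_bot_of hR hJ) hI hJ
  have hπ1 : π 1 = 1 := by
    have h := hπ' 1 1 cop_top cop_top
    rw [mul_one] at h
    simpa using h
  have hne : ∀ χ : Ideal (𝓞 L) →* ℂ, IsChar n χ → ∀ I, Cop n I → χ I ≠ 0 := fun χ hχ I hI h => by
    have := hχ.norm_cop I hI
    rw [h, norm_zero] at this
    exact zero_ne_one this
  have hσ : ∀ α : 𝓞 L, α ≠ 0 → K.σ α ≠ 0 := fun α hα =>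
    (map_ne_zero K.σ).mpr (by exact_mod_cast hα)
  have hinj : Function.Injective T := by
    intro η η' e
    ext g
    obtain ⟨I, hI, rfl⟩ := hsur' g
    have := DFunLike.congr_fun e I
    rw [hTa, hTa] at this
    exact mul_left_cancel₀ (hne χ₀ h₀.toIsChar I hI) this
  have hsum : ∀ 𝔟 𝔟₀, ∑ χ ∈ univ.image T, χ 𝔟 * conj (χ 𝔟₀) =
      χ₀ 𝔟 * conj (χ₀ 𝔟₀) * if π 𝔟 = π 𝔟₀ then (Fintype.card G : ℂ) else 0 := by
    intro 𝔟 𝔟₀
    rw [Finset.sum_image fun a _ b _ h => hinj h]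
    have e1 : (if π 𝔟 = π 𝔟₀ then (Fintype.card G : ℂ) else 0) =
        ∑ η : G →* ℂˣ, ((η (π 𝔟 * (π 𝔟₀)⁻¹) : ℂˣ) : ℂ) := by
      rw [sum_dual]
      by_cases h : π 𝔟 = π 𝔟₀
      · rw [if_pos h, if_pos (mul_inv_eq_one.mpr h)]
      · rw [if_neg h, if_neg fun h' => h (mul_inv_eq_one.mp h')]
    rw [e1, Finset.mul_sum]
    refine Finset.sum_congr rfl fun η _ => ?_
    rw [hTa, hTa, map_mul (starRingEnd ℂ), conj_eq_inv (norm_dual η _), map_mul η, map_inv η,
      Units.val_mul, Units.val_inv_eq_inv_val]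
    ring
  refine ⟨univ.image T, fun χ => ⟨?_, fun hχ => ?_⟩, ?_, ?_⟩
  · intro hm
    obtain ⟨η, -, rfl⟩ := Finset.mem_image.mp hm
    refine ⟨⟨fun I hI => ?_, fun I hI => ?_⟩, fun α hα => ?_⟩
    · rw [hTa, norm_mul, h₀.norm_cop I hI, norm_dual, mul_one]
    · rw [hTa, h₀.zero I hI, zero_mul]
    · have : π (Ideal.span {α}) = π 1 := (hray' _ _ (cop_span hα) cop_top).mpr
        ⟨1, α, one_ne_zero, ne_zero_of hR hα, by simp, hα, by simp⟩
      rw [hTa, this, hπ1, map_one, Units.val_one, mul_one, h₀.prin α hα]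
  · have key : ∀ I J, Cop n I → Cop n J → π I = π J → χ I / χ₀ I = χ J / χ₀ J := by
      intro I J hI hJ e
      obtain ⟨α, β, ha0, hb0, ha, hb, e'⟩ := (hray' I J hI hJ).mp e
      have e1 := char_ray hχ ha hb e'
      have e2 := char_ray h₀ ha hb e'
      have hA : dir (K.σ α) ^ k ≠ 0 := zpow_ne_zero _ (dir_ne (hσ α ha0))
      rw [div_eq_div_iff (hne χ₀ h₀.toIsChar I hI) (hne χ₀ h₀.toIsChar J hJ)]
      apply mul_right_cancel₀ hA
      linear_combination χ₀ J * e1 - χ J * e2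
    choose r hr hr' using hsur'
    let η : G →* ℂˣ :=
      { toFun := fun g => Units.mk0 (χ (r g) / χ₀ (r g))
          (div_ne_zero (hne χ hχ.toIsChar _ (hr g)) (hne χ₀ h₀.toIsChar _ (hr g)))
        map_one' := by
          apply Units.ext
          simp only [Units.val_mk0, Units.val_one]
          rw [key _ 1 (hr 1) cop_top (by rw [hr', hπ1]), map_one, map_one, div_one]
        map_mul' := by
          intro g g'
          apply Units.ext
          simp only [Units.val_mk0, Units.val_mul]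
          rw [key _ (r g * r g') (hr _) (cop_mul.mpr ⟨hr g, hr g'⟩)
            (by rw [hπ' _ _ (hr g) (hr g'), hr', hr', hr']), map_mul, map_mul, mul_div_mul_comm] }
    refine Finset.mem_image.mpr ⟨η, Finset.mem_univ _, ?_⟩
    apply MonoidHom.ext
    intro I
    rw [hTa]
    by_cases hI : Cop n I
    · have : ((η (π I) : ℂˣ) : ℂ) = χ I / χ₀ I := key _ I (hr _) hI (hr' _)
      rw [this, mul_div_cancel₀ _ (hne χ₀ h₀.toIsChar I hI)]
    · rw [h₀.zero I hI, hχ.zero I hI, zero_mul]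
  · rw [Finset.card_image_of_injective _ hinj, Finset.card_univ, hc, hcard]
  · intro 𝔞 𝔟₀ 𝔟 α₀ ha h0 hc0
    refine ⟨fun α hα hm => ?_, fun hno => ?_⟩
    · obtain ⟨β₀, β, hb0, hb, e, e'⟩ := ray_of_gen ha h0 hc0 hα hm
      have hcb : Cop n 𝔟 := by
        have : Cop n (𝔟 * Ideal.span {β₀}) := by
          rw [e']; exact cop_mul.mpr ⟨hc0, cop_span hb⟩
        exact (cop_mul.mp this).1
      refine ⟨?_, fun α' hα' hm' => gen_unique hR ha hcb hα hα' ?_⟩
      · have hp : π 𝔟 = π 𝔟₀ := (hray' _ _ hcb hc0).mpr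
          ⟨β₀, β, ne_zero_of hR hb0, ne_zero_of hR hb, hb0, hb, e'⟩
        have hw : 0 < wu L := Nat.card_pos
        have hir : (ir L n : ℂ) * Fintype.card G = 1 := by
          have h1 : (classNumber L : ℝ) * phi L n = Fintype.card G * wu L := by
            exact_mod_cast hcard.symm
          have h2 : (wu L : ℝ) ≠ 0 := by exact_mod_cast hw.ne'
          have h3 : (Fintype.card G : ℝ) ≠ 0 := by exact_mod_cast Fintype.card_ne_zero
          have h4 : ir L n * Fintype.card G = 1 := by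
            rw [ir, h1]; field_simp
          exact_mod_cast h4
        have hα₀ : α₀ ≠ 0 := by
          intro h
          rw [h, Ideal.span_singleton_eq_bot.mpr rfl] at h0
          exact mul_ne_zero ha (ne_bot_of hR hc0) h0.symm
        have e1 := char_ray h₀ hb0 hb e'
        have e2 : dir (K.σ β₀) * dir (K.σ α) = dir (K.σ β) * dir (K.σ α₀) := by
          have e5 : (β₀ : L) * (α : L) = (β : L) * (α₀ : L) := by
            have := congrArg (algebraMap (𝓞 L) L) e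
            rwa [map_mul, map_mul] at this
          rw [← dir_mul, ← dir_mul, ← map_mul K.σ, ← map_mul K.σ, e5]
        have hB : dir (K.σ β₀) ≠ 0 := dir_ne (hσ _ (ne_zero_of hR hb0))
        have hA : dir (K.σ α₀) ≠ 0 := dir_ne (hσ _ hα₀)
        have e3 : dir (K.σ α) * conj (dir (K.σ α₀)) = dir (K.σ β) / dir (K.σ β₀) := by
          rw [conj_eq_inv (norm_dir (hσ _ hα₀)), ← div_eq_mul_inv, div_eq_div_iff hA hB]
          linear_combination e2
        have e4 := mul_conj_of_norm (h₀.norm_cop _ hc0)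
        rw [hsum, if_pos hp, e3, div_zpow, eq_div_iff (zpow_ne_zero _ hB)]
        linear_combination (χ₀ 𝔟 * conj (χ₀ 𝔟₀) * dir (K.σ β₀) ^ k) * hir +
          conj (χ₀ 𝔟₀) * e1 + dir (K.σ β) ^ k * e4
      · have : α' - α = (α' - α₀) - (α - α₀) := by ring
        rw [this]; exact Ideal.sub_mem _ hm' hm
    · rw [hsum]
      by_cases hcb : Cop n 𝔟
      · rw [if_neg fun hp => hno (gen_of_ray h0 ((hray' _ _ hcb hc0).mp hp)), mul_zero]
      · rw [h₀.zero _ hcb, zero_mul, zero_mul]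

end Pool.Agent.P.MP_b8021b_nt.VE
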