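import Pool.Agent.P.MP_b8021b_nt.VE.Defs

/-! Interface statements of parts S and A. Each is proved in its own file of this folder. -/

namespace Pool.Agent.P.MP_b8021b_nt.VE

open Polynomial NumberField Finset IsDedekindDomain
open scoped Classical

/-! ### part A -/

/-- A1: the coordinate ring is a Dedekind domain; degrees -/
def S_A1 : Prop :=
  ∀ (F A : Type) [Field F] [CharZero F] [CommRing A] [Algebra F A] (M : Quad F A),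
    IsDedekindDomain A ∧
    (∀ I : Ideal A, I ≠ ⊥ → FiniteDimensional F (A ⧸ I)) ∧
    (∀ I J : Ideal A, I ≠ ⊥ → J ≠ ⊥ → dg F (I * J) = dg F I + dg F J) ∧
    (∀ P : MaximalSpectrum A, P.asIdeal ≠ ⊥) ∧
    (∀ g c : F[X], M.el g c ≠ 0 → del F (M.el g c) = (g ^ 2 - c ^ 2 * M.f).natDegree) ∧
    (∀ h : A, h ≠ 0 → del F h ≠ 1 ∧ (del F h = 0 → ∃ c : F, h = algebraMap F A c)) ∧
    (∀ h h' : A, h ≠ 0 → h' ≠ 0 → del F h = del F h' →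
      ∃ c : F, c ≠ 0 ∧ (h = c • h' ∨ del F (h - c • h') < del F h)) ∧
    (∀ n : ℕ, 1 ≤ n → ∃ V : Submodule F A, FiniteDimensional F V ∧ Module.finrank F V = n ∧
      ∀ h, h ∈ V ↔ h = 0 ∨ del F h ≤ n)

/-- A2: the coordinate ring of an elliptic curve has such a presentation -/
def S_A2 : Prop :=
  ∀ (F : Type) [Field F] [CharZero F] (W : WeierstrassCurve F) [W.IsElliptic],
    ∃ M : Quad F W.toAffine.CoordinateRing, M.x = cX W ∧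
      2 * M.y = 2 * cY W + W.a₁ • cX W + algebraMap F _ W.a₃

/-- A3: integral model with a prescribed fibre at `x = 0` -/
def S_Model : Prop :=
  ∀ (A : Type) [CommRing A] [Algebra ℚ A] (M : Quad ℚ A) (t : ℚ), ∃ (M' : Model A) (c : ℚ),
    c ≠ 0 ∧ M'.x = algebraMap ℚ A c * (M.x - algebraMap ℚ A t)

/-- A4: every functional is anti-invariant -/
def S_Sym : Prop :=
  ∀ (A : Type) [CommRing A] [Algebra ℚ A] (M : Quad ℚ A) (ι : A ≃ₐ[ℚ] A), ι M.x = M.x →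
    ι M.y = -M.y → ∀ φ, IsFn φ → Anti ι φ

/-- A5: reduction to the rational fibres -/
def S_Deg : Prop :=
  ∀ (A : Type) [CommRing A] [Algebra ℚ A] (M : Quad ℚ A) (φ : MaximalSpectrum A → A → ℝ),
    IsFn φ → (∀ (P : MaximalSpectrum A) (t : ℚ), M.x - algebraMap ℚ A t ∈ P.asIdeal →
      ∀ h, φ P h = 0) → ∀ P h, φ P h = 0

/-- the core statement (A11) -/
def S_Core : Prop :=
  ∀ (A : Type) [CommRing A] [Algebra ℚ A] (M : Model A) (φ : MaximalSpectrum A → A → ℝ),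
    IsFn φ → M.fz.coeff 0 ≠ 0 → ∀ (r : ℕ) (γ₀ γ₁ : ℚ), CoreCond (M.fz.coeff 0) r γ₀ γ₁ →
    pair φ M.x (algebraMap ℚ A γ₀ + algebraMap ℚ A γ₁ * M.y) = 0

/-- A6a: the core elements and the rationals generate a quadratic field up to torsion -/
def S_QuadGen : Prop :=
  ∀ (L : Type) [Field L] [NumberField L] (D : ℤ) (ω : L), ω ^ 2 = D → ¬ IsSquare D →
    Module.finrank ℚ L = 2 → ∀ Φ : L → ℝ, (∀ a b, a ≠ 0 → b ≠ 0 → Φ (a * b) = Φ a + Φ b) →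
    (∀ q : ℚ, q ≠ 0 → Φ q = 0) → (∀ r γ₀ γ₁, CoreCond D r γ₀ γ₁ → Φ (γ₀ + γ₁ * ω) = 0) →
    ∀ a, a ≠ 0 → Φ a = 0

/-- A6: the fibre `x = 0` -/
def S_Fib : Prop :=
  ∀ (A : Type) [CommRing A] [Algebra ℚ A] (M : Model A) (φ : MaximalSpectrum A → A → ℝ),
    IsFn φ → ∀ P : MaximalSpectrum A, M.x ∈ P.asIdeal → ∀ h, φ P h = 0

/-- the algebraic form of the theorem -/
def S_Alg : Prop :=
  ∀ (A : Type) [CommRing A] [Algebra ℚ A] (_ : Quad ℚ A) (φ : MaximalSpectrum A → A → ℝ),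
    IsFn φ → ∀ P h, φ P h = 0

/-- A7a, first half: a multiple of a point is close to the origin -/
def S_Tors : Prop :=
  ∀ (r : ℕ) [Fact r.Prime] (f : ℤ[X]), Cubic0 f → ∀ (w₀ : ℚ_[r])
    (h₁ : (wc f ℚ_[r]).toAffine.Nonsingular 0 w₀) (n : ℕ),
    ∃ (k : ℕ) (xQ yQ : ℚ_[r]) (hQ : (wc f ℚ_[r]).toAffine.Nonsingular xQ yQ), 5 ≤ k ∧
      (2 * k - 1) • WeierstrassCurve.Affine.Point.some 0 w₀ h₁ +
        WeierstrassCurve.Affine.Point.some xQ yQ hQ = 0 ∧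
      ‖xQ‖ ≤ (r : ℝ) ^ (-(n : ℤ)) ∧ ‖yQ - w₀‖ ≤ (r : ℝ) ^ (-(n : ℤ))

/-- A7a -/
def S_Near : Prop :=
  ∀ (r : ℕ) [Fact r.Prime] (f : ℤ[X]), Cubic0 f → ∀ w₀ : ℚ_[r], w₀ ^ 2 = (f.coeff 0 : ℤ) →
    ∀ n : ℕ, ∃ (k : ℕ) (g c : ℚ_[r][X]) (xQ yQ l : ℚ_[r]), 5 ≤ k ∧ NearData r f w₀ n k g c xQ yQ l

/-- A7b -/
def S_Weier : Prop :=
  ∀ (r : ℕ) [Fact r.Prime] (f : ℤ[X]), Cubic0 f → ∀ w₀ : ℚ_[r], w₀ ^ 2 = (f.coeff 0 : ℤ) →
    ∃ ν n₁ : ℕ, 1 ≤ ν ∧ ∀ n, n₁ ≤ n → ∀ (k : ℕ) (g c : ℚ_[r][X]) (xQ yQ l : ℚ_[r]), 5 ≤ k →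
      NearData r f w₀ n k g c xQ yQ l →
      g.natDegree ≤ k ∧ c.natDegree ≤ k - 2 ∧ g.coeff 0 + c.coeff 0 * w₀ = 0 ∧
      (∀ i : ℕ, ‖g.coeff i‖ * (r : ℝ) ^ (-(i * ν : ℤ)) ≤ ‖g.coeff 0‖) ∧
      ‖l‖ * (r : ℝ) ^ (-(2 * k * ν : ℤ)) ≤ ‖2 * g.coeff 0‖ ^ 2

/-- A7 -/
def S_Rad : Prop :=
  ∀ f : ℤ[X], Cubic0 f → ∀ (r : ℕ) (γ₀ γ₁ : ℚ), CoreCond (f.coeff 0) r γ₀ γ₁ →
    ∃ (p : Par) (G j : ℕ), p.f = f ∧ p.r = r ∧ 1 ≤ j ∧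
      (X ^ 2 - C (f.coeff 0 : ℚ) : ℚ[X]) ∣ C (p.g0.coeff 0 : ℚ) + C (p.c0.coeff 0 : ℚ) * X -
        C ((r : ℚ) ^ G) * (C γ₀ + C γ₁ * X) ^ j

/-- A8: homomorphisms from the multiplicative group of a number field to the reals -/
def S_Rep : Prop :=
  ∀ (K : Type) [Field K] [NumberField K] (Φ : K → ℝ),
    (∀ a b, a ≠ 0 → b ≠ 0 → Φ (a * b) = Φ a + Φ b) →
    ∃ (c : HeightOneSpectrum (𝓞 K) → ℝ) (γ : InfinitePlace K → ℝ), ∑ w, γ w = 0 ∧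
      ∀ a, a ≠ 0 → Φ a = ∑ᶠ v, c v * (-WithZero.log (v.valuation K a) : ℤ) +
        ∑ w, γ w * Real.log (w a)

/-- A9a: the archimedean part -/
def S_Arch : Prop :=
  ∀ (J : Type) [Fintype J] (m : J → ℝ) (θ : J → ℂ) (F : ℝ[X]), F ≠ 0 →
    (∀ j, θ j ≠ 0 ∧ aeval (θ j) F = 0) → ∃ Q : ℝ[X], Q.natDegree ≤ F.natDegree - 1 ∧
      (∀ a : ℝ, F.eval a ≠ 0 → HasDerivAt (fun a : ℝ => ∑ j, m j * Real.log ‖1 - a / θ j‖)
        (Q.eval a / F.eval a) a) ∧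
      (Q = 0 → ∀ a : ℝ, ∑ j, m j * Real.log ‖1 - a / θ j‖ = 0)

/-- A9: the section side of the cochain -/
def S_C2 : Prop :=
  ∀ (A : Type) [CommRing A] [Algebra ℚ A] (M : Model A) (p : Par)
    (φ : MaximalSpectrum A → A → ℝ), p.f = M.fz → IsFn φ → ∀ s : p.Co,
    ∃ (c₂ : Pt → ℝ) (Q : ℝ[X]) (Ar : ℝ → ℝ), Q.natDegree ≤ 2 * p.k - 1 ∧
      (∀ a, (p.FR s).eval a ≠ 0 → HasDerivAt Ar (Q.eval a / (p.FR s).eval a) a) ∧
      (Q = 0 → ∀ a, Ar a = 0) ∧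
      ∀ (n : ℕ) (t : ℤ × ℤ) (x : Fin n → Pt), p.Adm t → p.Good t s x →
        pair φ (M.sec p s) (M.fib t) = M.beta p φ + ∑ i, c₂ (x i) + Ar ((t.1 : ℝ) / t.2)

/-- A10: the fibre side of the cochain -/
def S_C1 : Prop :=
  ∀ (A : Type) [CommRing A] [Algebra ℚ A] (M : Model A) (p : Par)
    (φ : MaximalSpectrum A → A → ℝ), p.f = M.fz → IsFn φ → ∀ t : ℤ × ℤ, p.Adm t →
    ∃ c₁ : Pt → ℝ, (∀ x, p.IsPt x → OnT x t → c₁ (inv x) = -c₁ x) ∧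
      ∀ (n : ℕ) (s : p.Co) (x : Fin n → Pt), p.Good t s x →
        pair φ (M.sec p s) (M.fib t) = ∑ i, c₁ (x i)

/-! ### part S -/

/-- S0: geometric points of an affine curve -/
def S_S0 : Prop :=
  ∀ (R K : Type) [CommRing R] [IsDedekindDomain R] [Field K] [Algebra R K] [IsFractionRing R K],
    (∀ σ : R →+* Qb, RingHom.ker σ ≠ ⊥ → ∃! p : GPt K, ∀ r, p.Val (algebraMap R K r) (σ r)) ∧
    (∀ p : GPt K, (∀ r, algebraMap R K r ∈ p.v.valuationSubring) →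
      ∃ σ : R →+* Qb, RingHom.ker σ ≠ ⊥ ∧ ∀ r, p.Val (algebraMap R K r) (σ r)) ∧
    ∀ (p : GPt K) (σ : R →+* Qb), (∀ r, p.Val (algebraMap R K r) (σ r)) → ∀ r, r ≠ 0 →
      p.ord (algebraMap R K r) = multiplicity (RingHom.ker σ) (Ideal.span {r})

/-- S0, points at infinity -/
def S_Sinf : Prop :=
  ∀ (L A K : Type) [Field L] [NumberField L] [CommRing A] [IsDomain A] [Algebra L A] [Field K]
    [Algebra A K] [IsFractionRing A K] [Algebra ℚ K] (M : Quad L A),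
    IsCurve K ∧ {p : GPt K | algebraMap A K M.x ∉ p.v.valuationSubring}.Finite ∧
    (∀ p : GPt K, algebraMap A K M.x ∈ p.v.valuationSubring →
      ∀ a, algebraMap A K a ∈ p.v.valuationSubring) ∧
    ∀ p : GPt K, algebraMap A K M.x ∉ p.v.valuationSubring → ∀ h : A, h ≠ 0 →
      p.ord (algebraMap A K h) = -(del L h : ℤ)

/-- S1: relations in the fibres -/
def S_S1 : Prop :=
  ∀ (W : WeierstrassCurve ℚ) (l : EP W Qb × Qbˣ → ℝ), Kills W l →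
    ∀ (L : Type) [Field L] [NumberField L] (P : EP W L) (G : L[X]) (N : L), G.Monic →
    1 ≤ G.natDegree → N ≠ 0 → G.coeff 0 = (-1) ^ G.natDegree * N →
    ∑ τ : L →ₐ[ℚ] Qb, (((G.map (τ : L →+* Qb)).roots.map (ext0 l (mp τ P))).sum -
      ext0 l (mp τ P) (τ N) - (G.natDegree - 1 : ℝ) * l (mp τ P, 1)) = 0

/-- S3: Abel's theorem -/
def S_S3 : Prop :=
  ∀ (W : WeierstrassCurve ℚ) [W.IsElliptic] (l : EP W Qb × Qbˣ → ℝ), Kills W l →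
    ∀ (L : Type) [Field L] [NumberField L] (P Q : EP W L),
    ∑ τ : L →ₐ[ℚ] Qb, (l (mp τ P, 1) + l (mp τ Q, 1) - l (mp τ (P + Q), 1) - l (0, 1)) = 0

/-- S2, first half: reciprocity -/
def S_S2a : Prop :=
  ∀ (W : WeierstrassCurve ℚ) [W.IsElliptic] (l : EP W Qb × Qbˣ → ℝ), Kills W l →
    (∀ u, l (0, u) = 0) → (∀ P, l (P, 1) = 0) → IsFn (phiW l)

/-- S2 -/
def S_S2 : Prop :=
  ∀ (W : WeierstrassCurve ℚ) [W.IsElliptic] (l : EP W Qb × Qbˣ → ℝ), Kills W l →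
    (∀ u, l (0, u) = 0) → (∀ P, l (P, 1) = 0) →
    ∀ (L : Type) [Field L] [NumberField L] (P : EP W L) (u : L), u ≠ 0 →
    ∑ τ : L →ₐ[ℚ] Qb, ext0 l (mp τ P) (τ u) = 0

end Pool.Agent.P.MP_b8021b_nt.VE
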