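import Pool.Agent.P.MP_b8021b_nt.VE.PIndT1

/-! N4a: the base, the fibres and the cells of the design are as required. -/

namespace Pool.Agent.P.MP_b8021b_nt.VE

open Polynomial Finset
open scoped Classical

namespace IndT

/-- the size conditions used for the fibres -/
structure Big (p : Par) (c : Cfg) : Prop where
  τ : c.τ0 ≤ -2
  η0 : 0 < c.η
  η1 : c.η ≤ 1
  y1 : 1 ≤ c.y
  z : (c.z : ℝ) < c.y
  M : 162 * ((M0 p.r c.z * p.r ^ p.n0 : ℕ) : ℝ) ≤ c.η * c.y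
  B : c.y ^ 4 ≤ c.B
  pr : ∀ q ∈ Pset c.y c.N, q.Prime ∧ c.y ≤ q ∧ q < 3 * c.y

lemma Big.Bpos {p : Par} {c : Cfg} (h : Big p c) : 0 < c.B :=
  lt_of_lt_of_le (pow_pos (lt_of_lt_of_le one_pos h.y1) 4) h.B

lemma M_pos (p : Par) (z : ℕ) : 0 < M0 p.r z * p.r ^ p.n0 :=
  Nat.mul_pos (prod_pos fun _ hl => (mem_filter.1 hl).2.1.pos) (pow_pos p.hr.pos _)

lemma fin_est {S d a P E ρ u v : ℝ} (d0 : 0 < d) (hρ : ρ = P * d) (a0 : 0 ≤ a) (a1 : a ≤ 1)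
    (P1 : P ≤ 1) (P0 : 1 - u ≤ P) (E0 : 0 ≤ E) (hE : E ≤ v)
    (e2 : |S - a * (ρ / d ^ 2)| ≤ 20 * (ρ / d ^ 2) * E) : |S * d - a| ≤ u + 20 * v := by
  have e3 : |S * d - a * P| ≤ 20 * P * E := by
    have e4 : S * d - a * P = (S - a * (ρ / d ^ 2)) * d := by
      rw [hρ]; field_simp
    have e5 : 20 * P * E = 20 * (ρ / d ^ 2) * E * d := by
      rw [hρ]; field_simp
    rw [e4, e5, abs_mul, abs_of_pos d0]
    exact mul_le_mul_of_nonneg_right e2 d0.le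
  have e7 : P * E ≤ 1 * E := mul_le_mul_of_nonneg_right P1 E0
  have e8 : a * (1 - P) ≤ 1 * u := mul_le_mul a1 (by linarith) (by linarith) zero_le_one
  have e9 : 0 ≤ a * (1 - P) := mul_nonneg a0 (by linarith)
  rw [abs_le] at e3 ⊢
  constructor <;> linarith [e3.1, e3.2]

lemma est (hTEq : S_TEq) {p : Par} {c : Cfg} (h : Big p c) (Y : Finset (Xset p c.y c.N))
    (hY : Y.card ≤ 3) (hi : Set.InjOn (fun x : Xset p c.y c.N => x.1.1) Y) {τ₁ τ₂ B₁ B₂ : ℝ}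
    (h1 : c.τ0 ≤ τ₁) (h2 : τ₁ ≤ τ₂) (h3 : τ₂ ≤ c.τ0 + c.η) (h4 : c.B ≤ B₁) (h5 : B₁ ≤ B₂)
    (h6 : B₂ ≤ c.B * (1 + c.η)) :
    c.η ^ 2 * c.B / (2 * ((M0 p.r c.z * p.r ^ p.n0 : ℕ) : ℝ) ^ 2) ≤
      ∑ t ∈ Tset p c, ((t.2 : ℝ))⁻¹ ∧
    |(∑ t ∈ Tset p c with τ₁ ≤ (t.1 : ℝ) / t.2 ∧ (t.1 : ℝ) / t.2 < τ₂ ∧ B₁ ≤ t.2 ∧ t.2 < B₂ ∧
        ∀ x ∈ Y, OnT x.1 t, wT p c t) * (∏ x ∈ Y, (x.1.1 : ℝ)) -
      (τ₂ - τ₁) * (B₂ - B₁) / (c.η ^ 2 * c.B)| ≤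
      (3 + 540 * ((M0 p.r c.z * p.r ^ p.n0 : ℕ) : ℝ) / c.η) / c.y := by
  have hP : ∀ x : Xset p c.y c.N, x.1.1.Prime ∧ c.y ≤ x.1.1 ∧ x.1.1 < 3 * c.y :=
    fun x => h.pr _ (fst_mem_Pset x.2)
  have hT := tot_prod Y (fun x => x.1.1) (fun x _ => (hP x).1) hi
  set d : ℕ := ∏ x ∈ Y, x.1.1 with hd
  obtain ⟨R, hR, hm⟩ : ∃ R : Finset (ZMod d × ZMod d), R.card = d.totient ∧
      ∀ t : ℤ × ℤ, ((t.1 : ZMod d), (t.2 : ZMod d)) ∈ R ↔ ∀ x ∈ Y, OnT x.1 t :=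
    classes Y (fun x => x.1) (fun x _ => (hP x).1) hi
  set M : ℕ := M0 p.r c.z * p.r ^ p.n0 with hM
  have y0 : 0 < c.y := lt_of_lt_of_le one_pos h.y1
  have B0 := h.Bpos
  have η0 := h.η0
  have hdR : (d : ℝ) = ∏ x ∈ Y, (x.1.1 : ℝ) := by rw [hd]; push_cast; rfl
  have d0 : 0 < d := prod_pos fun x _ => (hP x).1.pos
  have d0' : (0 : ℝ) < d := by exact_mod_cast d0
  have dle : (d : ℝ) ≤ 27 * c.y ^ 3 := by
    rw [hdR]
    calc ∏ x ∈ Y, (x.1.1 : ℝ) ≤ ∏ _x ∈ Y, 3 * c.y :=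
          prod_le_prod (fun x _ => Nat.cast_nonneg _) fun x _ => (hP x).2.2.le
      _ = (3 * c.y) ^ Y.card := prod_const _
      _ ≤ (3 * c.y) ^ 3 := pow_le_pow_right₀ (by linarith [h.y1]) hY
      _ = 27 * c.y ^ 3 := by ring
  have hc : d.Coprime (M0 p.r c.z * p.r) := by
    refine Nat.Coprime.prod_left fun x _ => Nat.Coprime.mul_right ?_ ?_
    · refine Nat.Coprime.prod_right fun l hl => ?_
      refine (Nat.coprime_primes (hP x).1 (mem_filter.1 hl).2.1).2 fun e => ?_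
      have e1 : (l : ℝ) ≤ c.z := by
        exact_mod_cast Nat.lt_succ_iff.1 (mem_range.1 (mem_filter.1 hl).1)
      have e2 := (hP x).2.1
      rw [e] at e2
      linarith [h.z]
    · exact (Nat.coprime_primes (hP x).1 p.hr).2 (mem_filter.1 x.2).2.2.2.1
  have M0' : (0 : ℝ) ≤ M := Nat.cast_nonneg _
  have hMd : (M : ℝ) * d * c.y ≤ 27 * M * c.B := by
    have e1 : (d : ℝ) * c.y ≤ 27 * c.B := by nlinarith [h.B, mul_le_mul_of_nonneg_right dle y0.le]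
    nlinarith [mul_le_mul_of_nonneg_left e1 M0']
  have h7 : 6 * ((M * d : ℕ) : ℝ) ≤ c.η * c.B := by
    push_cast
    refine le_of_mul_le_mul_right ?_ y0
    nlinarith [mul_le_mul_of_nonneg_right h.M B0.le]
  obtain ⟨e1, e2⟩ := hTEq p c d R τ₁ τ₂ B₁ B₂ h.τ η0 h.η1 d0 hc h7 h1 h2 h3 h4 h5 h6
  refine ⟨e1, ?_⟩
  simp only [hm] at e2
  have a0 : 0 ≤ (τ₂ - τ₁) * (B₂ - B₁) / (c.η ^ 2 * c.B) := div_nonneg (mul_nonneg (by linarith) (by linarith)) (by positivity)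
  have a1 : (τ₂ - τ₁) * (B₂ - B₁) / (c.η ^ 2 * c.B) ≤ 1 := by
    rw [div_le_one (by positivity)]
    calc (τ₂ - τ₁) * (B₂ - B₁) ≤ c.η * (c.B * c.η) :=
          mul_le_mul (by linarith) (by linarith) (by linarith) η0.le
      _ = c.η ^ 2 * c.B := by ring
  set P : ℝ := ∏ x ∈ Y, (1 - (x.1.1 : ℝ)⁻¹) with hPd
  have q0 : ∀ x : Xset p c.y c.N, (0 : ℝ) < x.1.1 := fun x => y0.trans_le (hP x).2.1
  have q1 : ∀ x : Xset p c.y c.N, (x.1.1 : ℝ)⁻¹ ≤ 1 := fun x =>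
    inv_le_one_of_one_le₀ (h.y1.trans (hP x).2.1)
  have hRP : (R.card : ℝ) = P * d := by
    rw [hR, hT, hPd, hdR, ← prod_mul_distrib]
    exact prod_congr rfl fun x _ => by have := (q0 x).ne'; field_simp
  have P1 : P ≤ 1 := prod_le_one (fun x _ => sub_nonneg.2 (q1 x)) fun x _ =>
    sub_le_self _ (inv_nonneg.2 (q0 x).le)
  have P0 : 1 - 3 / c.y ≤ P := by
    refine le_trans ?_ (prod_ge Y _ (fun x _ => inv_nonneg.2 (q0 x).le) fun x _ => q1 x)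
    have : ∑ x ∈ Y, (x.1.1 : ℝ)⁻¹ ≤ 3 / c.y :=
      calc ∑ x ∈ Y, (x.1.1 : ℝ)⁻¹ ≤ ∑ _x ∈ Y, c.y⁻¹ :=
            sum_le_sum fun x _ => inv_anti₀ y0 (hP x).2.1
        _ = Y.card * c.y⁻¹ := by rw [sum_const, nsmul_eq_mul]
        _ ≤ 3 * c.y⁻¹ := mul_le_mul_of_nonneg_right (by exact_mod_cast hY) (inv_nonneg.2 y0.le)
        _ = 3 / c.y := (div_eq_mul_inv _ _).symm
    linarith
  have hE : ((M * d : ℕ) : ℝ) / (c.η * c.B) ≤ 27 * M / c.η / c.y := by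
    push_cast
    rw [div_div, div_le_div_iff₀ (by positivity) (by positivity)]
    nlinarith [mul_le_mul_of_nonneg_left hMd η0.le]
  have E0 : 0 ≤ ((M * d : ℕ) : ℝ) / (c.η * c.B) := by positivity
  rw [← hdR]
  refine (fin_est d0' hRP a0 a1 P1 P0 E0 hE e2).trans (le_of_eq ?_)
  ring

lemma memT {p : Par} {c : Cfg} {t : ℤ × ℤ} (h : t ∈ Tset p c) :
    c.B ≤ t.2 ∧ t.2 < c.B * (1 + c.η) ∧ c.τ0 ≤ (t.1 : ℝ) / t.2 ∧ (t.1 : ℝ) / t.2 < c.τ0 + c.η ∧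
      (p.r : ℤ) ^ p.n0 ∣ t.1 - 1 ∧ (p.r : ℤ) ^ p.n0 ∣ t.2 - p.r ∧
      (M0 p.r c.z : ℤ) ∣ t.1 ∧ (M0 p.r c.z : ℤ) ∣ t.2 - 1 := (mem_filter.1 h).2

lemma injq {p : Par} {c : Cfg} {Y : Finset (Xset p c.y c.N)}
    (h : Set.InjOn (base p c.y c.N).pr Y) : Set.InjOn (fun x : Xset p c.y c.N => x.1.1) Y :=
  fun _ hx _ hx' e => h hx hx' (Subtype.ext e)

lemma ok_of {P X Z : Type} [Fintype P] [Fintype X] [Fintype Z] (σ : Side X Z) (b : Base P X)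
    {ε : ℝ} (nn : ∀ z, 0 ≤ σ.wt z) (hs : ∑ z, σ.wt z = 1)
    (ind : ∀ Y : Finset X, Y.card ≤ 3 → Set.InjOn b.pr Y →
      |σ.prob Y * (∏ x ∈ Y, b.q (b.pr x)) - 1| ≤ ε / b.N) (hε1 : ε / b.N ≤ 1)
    (q0 : ∀ a, 0 ≤ b.q a)
    (tw : ∀ x x', b.pr x' = b.pr x → ∀ z, σ.on x z → σ.on x' z → x' = x ∨ x' = b.ι x) :
    σ.Ok b ε := by
  refine ⟨nn, hs, ind, fun x => ?_, fun x₀ x hne => ?_⟩
  · have e1 := ind {x} (by simp) (by simp)
    rw [prod_singleton, abs_le] at e1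
    refine (same σ nn x (b.ι x) _ (fun x' hx' => tw x x' (mem_filter.1 hx').2) {x}
      (fun x' => {x, x'}) (by simp) (by simp) (by simp) _ (q0 (b.pr x))).trans ?_
    linarith [e1.2]
  · have hx : x₀ ≠ x := fun e => hne (e ▸ rfl)
    have e1 := ind {x₀, x} (card_le_two.trans (by norm_num)) (by
      intro v hv w hw e
      simp only [coe_insert, coe_singleton, Set.mem_insert_iff, Set.mem_singleton_iff] at hv hw
      rcases hv with hv | hv <;> rcases hw with hw | hw <;> rw [hv, hw] at e ⊢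
      · exact absurd e.symm hne
      · exact absurd e hne)
    rw [prod_pair hx, abs_le] at e1
    refine (same σ nn x (b.ι x) _ (fun x' hx' => tw x x' (mem_filter.1 hx').2) {x₀, x}
      (fun x' => {x₀, x, x'}) (fun x' => insert_subset_insert _ (by simp)) (by simp) (by simp) _
      (mul_nonneg (q0 (b.pr x₀)) (q0 (b.pr x)))).trans ?_
    linarith [e1.2]

lemma side (hTEq : S_TEq) {p : Par} {c : Cfg} (h : Big p c) {ε : ℝ}
    (hε : (3 + 540 * ((M0 p.r c.z * p.r ^ p.n0 : ℕ) : ℝ) / c.η) / c.y ≤ ε / c.N)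
    (hε1 : ε / c.N ≤ 1) : (sideT p c).Ok (base p c.y c.N) ε := by
  have B0 := h.Bpos
  have η0 := h.η0
  have hB1 : c.B ≤ c.B * (1 + c.η) := by nlinarith
  have w0 : ∀ t ∈ Tset p c, 0 < ((t.2 : ℝ))⁻¹ := fun t ht => inv_pos.2 (B0.trans_le (memT ht).1)
  have nn : ∀ z, 0 ≤ (sideT p c).wt z := fun z =>
    div_nonneg (w0 _ z.2).le (sum_nonneg fun t ht => (w0 t ht).le)
  have ind : ∀ Y : Finset (Xset p c.y c.N), Y.card ≤ 3 → Set.InjOn (base p c.y c.N).pr Y →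
      |(sideT p c).prob Y * (∏ x ∈ Y, (base p c.y c.N).q ((base p c.y c.N).pr x)) - 1| ≤
        ε / c.N := by
    intro Y hY hi
    have e := (est hTEq h Y hY (injq hi) le_rfl (by linarith : c.τ0 ≤ c.τ0 + c.η) le_rfl le_rfl
      hB1 le_rfl).2
    have e1 : (c.τ0 + c.η - c.τ0) * (c.B * (1 + c.η) - c.B) / (c.η ^ 2 * c.B) = 1 := by
      field_simp
      ring
    rw [e1, ← sum_sub (Tset p c) _ (fun z => ∀ x ∈ Y, (sideT p c).on x z) (wT p c)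
      fun z => ⟨fun hz => ⟨(memT z.2).2.2.1, (memT z.2).2.2.2.1, (memT z.2).1, (memT z.2).2.1,
        hz⟩, fun hz => hz.2.2.2.2⟩] at e
    exact e.trans hε
  refine ok_of _ _ nn ?_ ind hε1 (fun a => Nat.cast_nonneg _) fun x x' hx' z h1 h2 => ?_
  · have e := (est hTEq h ∅ (by simp) (by simp) le_rfl (by linarith : c.τ0 ≤ c.τ0 + c.η) le_rfl
      le_rfl hB1 le_rfl).1
    have e0 : (0 : ℝ) < ((M0 p.r c.z * p.r ^ p.n0 : ℕ) : ℝ) := by exact_mod_cast M_pos p c.z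
    have e1 : 0 < ∑ t ∈ Tset p c, ((t.2 : ℝ))⁻¹ := lt_of_lt_of_le (by positivity) e
    change ∑ z : Tset p c, wT p c z.1 = 1
    rw [(Tset p c).sum_coe_sort (wT p c)]
    simp only [wT]
    rw [← sum_div, div_self e1.ne']
  · rcases two (mem_filter.1 x.2).2 (mem_filter.1 x'.2).2 (congrArg Subtype.val hx') h1 h2 with
      e | e
    · exact Or.inl (Subtype.ext e)
    · exact Or.inr (Subtype.ext e)

lemma cellT {p : Par} {c : Cfg} (h : Big p c) (Nc : ℕ) [NeZero Nc] (z : Tset p c)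
    (k : Fin Nc × Fin Nc) : (box p c Nc).cell z = k ↔
      c.τ0 + k.1.1 * c.η / Nc ≤ (z.1.1 : ℝ) / z.1.2 ∧
      (z.1.1 : ℝ) / z.1.2 < c.τ0 + (k.1.1 + 1) * c.η / Nc ∧
      c.B * (1 + k.2.1 * c.η / Nc) ≤ z.1.2 ∧ z.1.2 < c.B * (1 + (k.2.1 + 1) * c.η / Nc) := by
  have B0 := h.Bpos
  have η0 := h.η0
  have N0 : (0 : ℝ) < Nc := by exact_mod_cast Nat.pos_of_ne_zero (NeZero.ne Nc)
  obtain ⟨h1, h2, h3, h4, -⟩ := memT z.2
  have key : ∀ v : ℝ, 0 ≤ v → v < c.η → ∀ i : Fin Nc,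
      Fin.ofNat Nc ⌊Nc * v / c.η⌋₊ = i ↔ i.1 * c.η / Nc ≤ v ∧ v < (i.1 + 1) * c.η / Nc := by
    intro v v0 v1 i
    rw [cell_iff Nc _ (by positivity) (by rw [div_lt_iff₀ η0]; nlinarith), le_div_iff₀ η0,
      div_lt_iff₀ η0, div_le_iff₀ N0, lt_div_iff₀ N0, mul_comm v]
  have h5 : 0 ≤ (z.1.2 : ℝ) / c.B - 1 := by rw [sub_nonneg, le_div_iff₀ B0]; linarith
  have h6 : (z.1.2 : ℝ) / c.B - 1 < c.η := by rw [sub_lt_iff_lt_add', div_lt_iff₀ B0]; linarith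
  rw [Prod.ext_iff]
  simp only [box]
  rw [key _ (by linarith) (by linarith), key _ h5 h6, le_sub_iff_add_le', sub_lt_iff_lt_add',
    le_sub_iff_add_le', sub_lt_iff_lt_add', le_div_iff₀ B0, div_lt_iff₀ B0, mul_comm _ c.B,
    mul_comm _ c.B, and_assoc]

lemma boxOk (hTEq : S_TEq) {p : Par} {c : Cfg} (h : Big p c) (Nc : ℕ) [NeZero Nc] {ε : ℝ}
    (hε : (3 + 540 * ((M0 p.r c.z * p.r ^ p.n0 : ℕ) : ℝ) / c.η) / c.y * (Nc : ℝ) ^ 2 ≤ ε / c.N) :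
    (box p c Nc).Ok (sideT p c) (base p c.y c.N) ε := by
  have B0 := h.Bpos
  have η0 := h.η0
  have N0 : (0 : ℝ) < Nc := by exact_mod_cast Nat.pos_of_ne_zero (NeZero.ne Nc)
  refine ⟨⟨B0, η0, h.η1, fun t => ((cellT h Nc t _).1 rfl).1,
    fun t => ((cellT h Nc t _).1 rfl).2.1.le, fun t => ((cellT h Nc t _).1 rfl).2.2.1,
    fun t => ((cellT h Nc t _).1 rfl).2.2.2.le⟩, fun Y hY hi k => ?_, fun _ _ hx => hx⟩
  have key : ∀ i : Fin Nc, 0 ≤ (i.1 : ℝ) * c.η / Nc ∧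
      (i.1 : ℝ) * c.η / Nc ≤ (i.1 + 1) * c.η / Nc ∧ ((i.1 : ℝ) + 1) * c.η / Nc ≤ c.η := by
    intro i
    have : (i.1 : ℝ) + 1 ≤ Nc := by exact_mod_cast i.2
    refine ⟨by positivity, by gcongr; linarith, ?_⟩
    rw [div_le_iff₀ N0]
    nlinarith
  obtain ⟨a1, a2, a3⟩ := key k.1
  obtain ⟨b1, b2, b3⟩ := key k.2
  have e := (est hTEq h Y (hY.trans (by norm_num)) (injq hi)
    (τ₁ := c.τ0 + k.1.1 * c.η / Nc) (τ₂ := c.τ0 + (k.1.1 + 1) * c.η / Nc)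
    (B₁ := c.B * (1 + k.2.1 * c.η / Nc)) (B₂ := c.B * (1 + (k.2.1 + 1) * c.η / Nc))
    (by linarith) (by linarith) (by linarith) (by nlinarith) (by nlinarith) (by nlinarith)).2
  have e1 : (c.τ0 + (k.1.1 + 1) * c.η / Nc - (c.τ0 + k.1.1 * c.η / Nc)) *
      (c.B * (1 + (k.2.1 + 1) * c.η / Nc) - c.B * (1 + k.2.1 * c.η / Nc)) / (c.η ^ 2 * c.B) =
      1 / (Nc : ℝ) ^ 2 := by
    field_simp
    ring
  have e2 : ∀ S : ℝ, S * (Fintype.card (Fin Nc × Fin Nc) : ℝ) - 1 =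
      (S - 1 / (Nc : ℝ) ^ 2) * (Nc : ℝ) ^ 2 := by
    intro S
    rw [Fintype.card_prod, Fintype.card_fin]
    push_cast
    field_simp
  rw [e1] at e
  rw [e2, abs_mul, abs_of_pos (pow_pos N0 2)]
  refine le_trans (mul_le_mul_of_nonneg_right (le_of_eq_of_le ?_ e) (pow_pos N0 2).le) hε
  refine congrArg (fun S : ℝ => |S * (∏ x ∈ Y, (x.1.1 : ℝ)) - 1 / (Nc : ℝ) ^ 2|) ?_
  refine sum_sub (Tset p c) _ _ (wT p c) fun z => ?_
  rw [cellT h Nc z k, and_assoc, and_assoc, and_assoc]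
  rfl

lemma baseOk {p : Par} {y : ℝ} {N : ℕ} {ε C : ℝ} (hN : 1 ≤ ε * N) (hNy : N ≤ ε * y)
    (hw : 4 * N * Real.log y / y ≤ ε / N) (hC : |C| / y ^ (1 / 4 : ℝ) ≤ ε / N)
    (hs : ∀ i < N, ∑ q ∈ strat y N i, wt y N q = 1) (hl : ∀ i, ∀ q ∈ strat y N i, lv y N q = i)
    (hP : ∀ q ∈ Pset y N, q.Prime ∧ y ≤ q ∧ q < 3 * y ∧ lv y N q < N ∧
      q ∈ strat y N (lv y N q) ∧ 0 ≤ wt y N q ∧ wt y N q ≤ 4 * N * Real.log y / y)
    (h2 : 2 < y) (hr : (p.r : ℝ) < y)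
    (hc : ∀ q : ℕ, q.Prime → q ≠ 2 → q ≠ p.r →
      |(((range q ×ˢ range q).filter fun a => p.IsPt (q, a)).card : ℝ) - q| ≤
        C * (q : ℝ) ^ (3 / 4 : ℝ)) : (base p y N).Ok ε := by
  have y0 : 0 < y := by linarith
  have ε0 : 0 < ε := by
    by_contra hn
    have : ε * N ≤ 0 := mul_nonpos_of_nonpos_of_nonneg (not_lt.1 hn) (Nat.cast_nonneg _)
    linarith
  have N0 : (0 : ℝ) < N := by
    refine lt_of_le_of_ne (Nat.cast_nonneg _) fun e => ?_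
    rw [← e] at hN
    linarith
  refine ⟨hN, fun a => (hP _ a.2).2.2.2.1, fun a => ?_, fun a => ?_,
    fun a => (hP _ a.2).2.2.2.2.2.1, fun a => (hP _ a.2).2.2.2.2.2.2.trans hw, fun i hi => ?_,
    fun a => ?_, fun x => ?_, fun x => rfl⟩
  · have e : 0 ≤ (N : ℝ) * Real.log (a.1 / y) :=
      mul_nonneg N0.le (Real.log_nonneg ((one_le_div y0).2 (hP _ a.2).2.1))
    change (lv y N a.1 : ℝ) / N ≤ Real.log (a.1 / y) ∧ Real.log (a.1 / y) ≤ (lv y N a.1 + 1) / N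
    rw [div_le_iff₀ N0, le_div_iff₀ N0, mul_comm]
    exact ⟨Nat.floor_le e, (Nat.lt_floor_add_one _).le⟩
  · exact hNy.trans (mul_le_mul_of_nonneg_left (hP _ a.2).2.1 ε0.le)
  · rw [← hs i hi]
    refine (sum_sub (Pset y N) (fun q => lv y N q = i) _ (wt y N) (i1 := inferInstance)
      fun _ => Iff.rfl).trans ?_
    refine sum_congr ?_ fun _ _ => rfl
    ext q
    rw [mem_filter]
    exact ⟨fun h => h.2 ▸ (hP q h.1).2.2.2.2.1,
      fun h => ⟨mem_biUnion.2 ⟨i, mem_range.2 hi, h⟩, hl i q h⟩⟩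
  · obtain ⟨q, hq⟩ := a
    obtain ⟨q1, q2, q3, -⟩ := hP q hq
    have q0 : (0 : ℝ) < q := y0.trans_le q2
    have e := hc q q1 (by rintro rfl; norm_num at q2; linarith) (by rintro rfl; linarith)
    have e1 : ∀ i : DecidablePred fun x => (base p y N).pr x = ⟨q, hq⟩,
        (@Finset.filter _ (fun x => (base p y N).pr x = ⟨q, hq⟩) i univ).card =
        ((range q ×ˢ range q).filter fun a => p.IsPt (q, a)).card := by
      intro i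
      refine card_bij (fun x _ => x.1.2) (fun x hx => ?_) (fun x hx x' hx' e => ?_)
        fun a ha => ?_
      · have e2 : x.1.1 = q := congrArg Subtype.val (mem_filter.1 hx).2
        have e3 := (mem_filter.1 x.2).2
        refine mem_filter.2 ⟨mem_product.2 ⟨mem_range.2 ?_, mem_range.2 ?_⟩, ?_⟩
        · exact e2 ▸ e3.2.2.2.2.1
        · exact e2 ▸ e3.2.2.2.2.2.2.1
        · rw [← e2]
          exact e3
      · have e2 : x.1.1 = q := congrArg Subtype.val (mem_filter.1 hx).2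
        have e3 : x'.1.1 = q := congrArg Subtype.val (mem_filter.1 hx').2
        exact Subtype.ext (Prod.ext (e2.trans e3.symm) e)
      · obtain ⟨a1, a2⟩ := mem_filter.1 ha
        have e2 : q ≤ ⌈3 * y⌉₊ := by
          have := q3.le.trans (Nat.le_ceil _)
          exact_mod_cast this
        rw [mem_product, mem_range, mem_range] at a1
        refine ⟨⟨(q, a), mem_filter.2 ⟨?_, a2⟩⟩, mem_filter.2 ⟨mem_univ _, rfl⟩, rfl⟩
        simp only [mem_product, mem_range]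
        exact ⟨hq, by omega, by omega⟩
    rw [e1]
    change |_ / (q : ℝ) - 1| ≤ ε / N
    rw [div_sub_one q0.ne', abs_div, abs_of_pos q0]
    refine le_trans ?_ hC
    have e4 : (q : ℝ) ^ (3 / 4 : ℝ) * (q : ℝ) ^ (1 / 4 : ℝ) = q := by
      rw [← Real.rpow_add q0]
      norm_num
    have e5 : y ^ (1 / 4 : ℝ) ≤ (q : ℝ) ^ (1 / 4 : ℝ) := Real.rpow_le_rpow y0.le q2 (by norm_num)
    have e6 : 0 < (q : ℝ) ^ (3 / 4 : ℝ) := Real.rpow_pos_of_pos q0 _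
    have e7 : 0 < y ^ (1 / 4 : ℝ) := Real.rpow_pos_of_pos y0 _
    rw [div_le_div_iff₀ q0 e7]
    calc _ ≤ |C| * (q : ℝ) ^ (3 / 4 : ℝ) * (q : ℝ) ^ (1 / 4 : ℝ) :=
          mul_le_mul (e.trans (mul_le_mul_of_nonneg_right (le_abs_self C) e6.le)) e5 e7.le
            (by positivity)
      _ = |C| * q := by rw [mul_assoc, e4]
  · have e := (mem_filter.1 x.2).2.2.2.2.2.2.2.1
    refine Subtype.ext (Prod.ext rfl (Prod.ext rfl ?_))
    change x.1.1 - (x.1.1 - x.1.2.2) = x.1.2.2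
    omega

lemma arith {ε C K l P Q y N : ℝ} (ε0 : 0 < ε) (C0 : 0 ≤ C) (K0 : 0 ≤ K) (l1 : 2 ≤ l) (p1 : 1 ≤ P)
    (N0 : 0 < N) (hN : N ≤ 2 * P) (Qy : Q ≤ y) (h1 : (16 + 2 * C + 2 * K) * (P * P * l) ≤ Q * ε) :
    N ≤ ε * y ∧ 4 * N * l * N ≤ ε * y ∧ C * N ≤ ε * Q ∧ K * N ≤ ε * y ∧ N ≤ P * l := by
  have b1 : P ≤ P * P * l := by
    have : 1 ≤ P * l := one_le_mul_of_one_le_of_one_le p1 (by linarith)
    nlinarith
  have b0 : 0 ≤ P * P * l := by linarith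
  have bQ : Q * ε ≤ y * ε := mul_le_mul_of_nonneg_right Qy ε0.le
  have b2 : N ≤ 2 * (P * P * l) := by linarith
  have c0 := mul_nonneg C0 b0
  have k0 := mul_nonneg K0 b0
  have c1 := mul_le_mul_of_nonneg_left b2 C0
  have k1 := mul_le_mul_of_nonneg_left b2 K0
  have n1 : N * N ≤ 2 * P * (2 * P) := mul_le_mul hN hN N0.le (by linarith)
  have n2 := mul_le_mul_of_nonneg_right n1 (by linarith : 0 ≤ l)
  have n3 := mul_le_mul_of_nonneg_left l1 (by linarith : 0 ≤ P)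
  refine ⟨?_, ?_, ?_, ?_, ?_⟩ <;> linarith

end IndT

open IndT in
theorem p_indT (hTheta : S_Theta) (hCard : S_Card) (hTEq : S_TEq) : S_IndT := by
  intro F Nc _ ε hA ε0
  obtain ⟨y₁, hT⟩ := hTheta (6 * F.A + 1)
  obtain ⟨C, hC⟩ := hCard F.p
  have η0 := F.ηpos
  set M : ℝ := ((M0 F.p.r F.z * F.p.r ^ F.p.n0 : ℕ) : ℝ) with hM
  have M0' : 0 ≤ M := Nat.cast_nonneg _
  have Nc1 : (1 : ℝ) ≤ Nc := by exact_mod_cast Nat.pos_of_ne_zero (NeZero.ne Nc)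
  set K : ℝ := (3 + 540 * M / F.η) * (Nc : ℝ) ^ 2 with hK
  have K0 : 0 ≤ K := by positivity
  obtain ⟨y₀, hy⟩ := Filter.eventually_atTop.1 ((large ((16 + 2 * |C| + 2 * K) / ε)
    (12 * F.A + 1)).and ((Real.tendsto_log_atTop.eventually_ge_atTop (2 + ε + 1 / ε)).and
    (Filter.eventually_ge_atTop (|y₁| + 3 + F.z + F.p.r + 162 * M / F.η))))
  refine ⟨y₀, fun c hc hI => ?_⟩
  obtain ⟨h1, h2, h3⟩ := hy _ hc
  have z0 : (0 : ℝ) ≤ F.z := Nat.cast_nonneg _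
  have r0 : (0 : ℝ) ≤ F.p.r := Nat.cast_nonneg _
  have m0 : 0 ≤ 162 * M / F.η := by positivity
  have a0 := abs_nonneg y₁
  have a1 := le_abs_self y₁
  have i0 : 0 < 1 / ε := by positivity
  have y1 : 1 ≤ c.y := by linarith
  have y0 : 0 < c.y := by linarith
  have hN1 := hI.N_ge
  have hN2 := hI.N_le
  set l := Real.log c.y with hl
  have l1 : 1 ≤ l := by linarith
  have hlN : l ≤ c.N := le_trans (le_self_pow₀ l1 (by omega)) hN1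
  have N0 : (0 : ℝ) < c.N := by linarith
  have p1 : 1 ≤ l ^ (6 * F.A) := one_le_pow₀ l1
  have hpow : l ^ (12 * F.A + 1) = l ^ (6 * F.A) * l ^ (6 * F.A) * l := by ring
  set P := l ^ (6 * F.A) with hP
  set Q := c.y ^ (1 / 4 : ℝ) with hQ
  have Q0 : 0 < Q := Real.rpow_pos_of_pos y0 _
  have Qy : Q ≤ c.y := by
    have := Real.rpow_le_rpow_of_exponent_le y1 (by norm_num : (1 / 4 : ℝ) ≤ 1)
    rwa [Real.rpow_one] at this
  rw [hpow, div_mul_eq_mul_div, div_le_iff₀ ε0] at h1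
  obtain ⟨c0, c1, c2, c3, c4⟩ :=
    arith ε0 (abs_nonneg C) K0 (by linarith) p1 N0 hN2 Qy h1
  obtain ⟨-, t2, t3, t4⟩ := hT c.y (by linarith) c.N (by exact_mod_cast l1.trans hlN) (by
    rw [pow_succ]
    exact c4)
  have big : Big F.p c := ⟨hI.τ0 ▸ F.tau.1, hI.η ▸ η0, hI.η ▸ F.ηle, y1, by rw [hI.z]; linarith,
    by
      rw [hI.z, hI.η, mul_comm F.η, ← div_le_iff₀ η0]
      linarith,
    hI.B_ge, fun q hq => ⟨(t4 q hq).1, (t4 q hq).2.1, (t4 q hq).2.2.1⟩⟩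
  have d1 : (3 + 540 * ((M0 F.p.r c.z * F.p.r ^ F.p.n0 : ℕ) : ℝ) / c.η) / c.y * (Nc : ℝ) ^ 2 ≤
      ε / c.N := by
    rw [hI.z, hI.η, div_mul_eq_mul_div, div_le_div_iff₀ y0 N0]
    exact c3
  refine ⟨baseOk ?_ c0 ?_ ?_ t2 t3 t4 (by linarith) (by linarith) hC,
    side hTEq big (le_trans ?_ d1) ?_, boxOk hTEq big Nc d1, fun t ht => ?_⟩
  · have : 1 / ε ≤ c.N := by linarith
    rwa [div_le_iff₀ ε0, mul_comm] at this
  · rw [div_le_div_iff₀ y0 N0]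
    exact c1
  · rw [div_le_div_iff₀ Q0 N0]
    exact c2
  · have := big.η0
    exact le_mul_of_one_le_right (by positivity) (one_le_pow₀ Nc1)
  · rw [div_le_one N0]
    linarith
  · obtain ⟨m1, -, -, m4, m5, m6, -⟩ := memT ht
    have t0 : 0 < t.2 := by exact_mod_cast big.Bpos.trans_le m1
    refine ⟨t0, D_neg F.tau t0 ?_, m5, m6⟩
    have := big.η1
    rw [hI.τ0] at m4
    linarith

end Pool.Agent.P.MP_b8021b_nt.VE
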