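import Pool.Agent.P.MP_b8021b_nt.VE.StB
import Pool.Agent.P.MP_b8021b_nt.VE.StN
import Pool.Agent.P.MP_b8021b_nt.VE.BasicP

/-! N28c: the size of the smooth model. -/

namespace Pool.Agent.P.MP_b8021b_nt.VE

open Polynomial NumberField Finset
open scoped Classical

namespace Lam1

theorem tent_eq (w : ℝ) : tent w = clamp (w + 1) - clamp w := by
  unfold tent clamp
  rcases le_total w 0 with h | h
  · rw [abs_of_nonpos h, min_eq_right (by linarith : w + 1 ≤ 1), min_eq_right (by linarith : w ≤ 1),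
      max_eq_left h, sub_zero]
    congr 1; ring
  · rw [abs_of_nonneg h, min_eq_left (by linarith : 1 ≤ w + 1), max_eq_right zero_le_one]
    rcases le_total w 1 with h1 | h1
    · rw [min_eq_right h1, max_eq_right h, max_eq_right (by linarith)]
    · rw [min_eq_left h1, max_eq_right zero_le_one, max_eq_left (by linarith), sub_self]

theorem tent_sum (n : ℕ) {v : ℝ} (h0 : 0 ≤ v) (h1 : v ≤ n) :
    ∑ m ∈ range (n + 1), tent (v - m) = 1 := by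
  have h := Finset.sum_range_sub' (fun m : ℕ => clamp (v - m + 1)) (n + 1)
  have h2 : ∀ m ∈ range (n + 1), tent (v - m) =
      clamp (v - m + 1) - clamp (v - ((m + 1 : ℕ) : ℝ) + 1) := by
    intro m _
    rw [tent_eq]; congr 2; push_cast; ring
  rw [sum_congr rfl h2, h]
  unfold clamp
  push_cast
  rw [min_eq_left (by linarith), max_eq_right zero_le_one,
    max_eq_left (min_le_of_right_le (by linarith)), sub_zero]

theorem core (n : ℕ) {v a : ℝ} (g : ℕ → ℝ) (h0 : 0 ≤ v) (h1 : v ≤ n)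
    (hg : ∀ m : ℕ, |v - m| < 1 → |g m - 1| ≤ a) :
    |∑ m ∈ range (n + 1), g m * tent (v - m) - 1| ≤ a := by
  have h2 : ∑ m ∈ range (n + 1), g m * tent (v - m) - 1 =
      ∑ m ∈ range (n + 1), (g m - 1) * tent (v - m) := by
    simp only [sub_mul, one_mul, sum_sub_distrib, tent_sum n h0 h1]
  rw [h2]
  refine (abs_sum_le_sum_abs _ _).trans ?_
  have h3 : a = ∑ m ∈ range (n + 1), a * tent (v - m) := by
    rw [← mul_sum, tent_sum n h0 h1, mul_one]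
  rw [h3]
  refine sum_le_sum fun m _ => ?_
  rw [abs_mul, abs_of_nonneg (tent_nonneg _)]
  by_cases h : tent (v - m) = 0
  · rw [h, mul_zero, mul_zero]
  · exact mul_le_mul_of_nonneg_right (hg m (tent_ne_zero h)) (tent_nonneg _)

theorem lip_nat {f : ℤ → ℝ} {a : ℝ} (h : ∀ m, |f (m + 1) - f m| ≤ a) (m : ℤ) (d : ℕ) :
    |f (m + d) - f m| ≤ d * a := by
  induction d with
  | zero => simp
  | succ d ih =>
    have h1 := h (m + d)
    have h2 := abs_sub_le (f (m + d + 1)) (f (m + d)) (f m)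
    push_cast
    rw [← add_assoc]
    linarith

theorem lip {f : ℤ → ℝ} {a : ℝ} (h : ∀ m, |f (m + 1) - f m| ≤ a) (m m' : ℤ) :
    |f m - f m'| ≤ |(m : ℝ) - m'| * a := by
  rcases le_total m' m with h1 | h1
  · obtain ⟨d, rfl⟩ := Int.le.dest h1
    have := lip_nat h m' d
    push_cast
    rwa [add_sub_cancel_left, Nat.abs_cast]
  · obtain ⟨d, rfl⟩ := Int.le.dest h1
    have := lip_nat h m d
    push_cast
    rw [abs_sub_comm, abs_sub_comm (m : ℝ)]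
    rwa [add_sub_cancel_left, Nat.abs_cast]

theorem Mz_bd (N u : ℕ) : ((u : ℝ) + 2) * N / 2 - 1 / 2 ≤ Mz N u ∧
    (Mz N u : ℝ) ≤ ((u : ℝ) + 2) * N / 2 := by
  have h1 : 2 * ((u + 2) * N / 2) ≤ (u + 2) * N := Nat.mul_div_le _ _
  have h2 : (u + 2) * N ≤ 2 * ((u + 2) * N / 2) + 1 := by omega
  have h3 : (2 : ℝ) * (((u + 2) * N / 2 : ℕ) : ℝ) ≤ (u + 2) * N := by exact_mod_cast h1
  have h4 : ((u : ℝ) + 2) * N ≤ 2 * (((u + 2) * N / 2 : ℕ) : ℝ) + 1 := by exact_mod_cast h2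
  unfold Mz
  rw [Int.cast_natCast]
  constructor <;> linarith

theorem lv_bd {y : ℝ} {N q : ℕ} (hy : 0 < y) (hq : y ≤ q) :
    (lv y N q : ℝ) ≤ N * Real.log (q / y) ∧ N * Real.log (q / y) < lv y N q + 1 := by
  have h : 0 ≤ Real.log (q / y) := Real.log_nonneg ((one_le_div hy).2 hq)
  exact ⟨Nat.floor_le (by positivity), Nat.lt_floor_add_one _⟩

theorem prod_bd {a b α β : ℝ} (ha : |a - 1| ≤ α) (hb : |b - 1| ≤ β) (hβ : β ≤ 2) :
    |a * b - 1| ≤ 3 * α + β := by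
  have h1 : a * b - 1 = (a - 1) * b + (b - 1) := by ring
  have h2 : |b| ≤ 3 := by
    rw [abs_le] at hb ⊢
    constructor <;> linarith [hb.1, hb.2]
  have h3 : |(a - 1) * b| ≤ α * 3 := by
    rw [abs_mul]
    exact mul_le_mul ha h2 (abs_nonneg _) ((abs_nonneg _).trans ha)
  rw [h1]
  exact (abs_add_le _ _).trans (by linarith)

theorem log_bd {w δ : ℝ} (h : |w - 1| ≤ δ) (hδ : δ ≤ 1 / 2) : 0 < w ∧ |Real.log w| ≤ 2 * δ := by
  obtain ⟨h1, h2⟩ := abs_le.1 h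
  have hw : 0 < w := by linarith
  refine ⟨hw, abs_le.2 ⟨?_, ?_⟩⟩
  · have h3 := Real.one_sub_inv_le_log_of_pos hw
    have h4 : w⁻¹ ≤ 1 + 2 * δ := by
      rw [inv_le_iff_one_le_mul₀ hw]; nlinarith
    linarith
  · have h3 := Real.log_le_sub_one_of_pos hw
    linarith

/-- the ratio of the two counts -/
theorem ratio_bd {f : ℤ → ℝ} {N T δ : ℝ} {r : ℕ} (hN : 0 < N) (hT : 0 < T)
    (h : ∀ m, |f (m + 1) - f m| ≤ N ^ r) {m m' : ℤ} (hm : |(m : ℝ) - m'| ≤ δ * N)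
    (hl : (N / T) ^ (r + 1) ≤ f m') : |f m / f m' - 1| ≤ δ * T ^ (r + 1) := by
  have h0 : 0 < (N / T) ^ (r + 1) := by positivity
  have h1 : 0 < f m' := h0.trans_le hl
  have hδ : 0 ≤ δ := by
    have := (abs_nonneg _).trans hm
    exact nonneg_of_mul_nonneg_left this hN
  have h2 : |f m - f m'| ≤ δ * N * N ^ r :=
    (lip h m m').trans (mul_le_mul_of_nonneg_right hm (by positivity))
  rw [div_sub_one h1.ne', abs_div, abs_of_pos h1, div_le_iff₀ h1]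
  refine h2.trans (le_trans (le_of_eq ?_) (mul_le_mul_of_nonneg_left hl (by positivity)))
  rw [div_pow]
  field_simp
  ring

theorem cnt_low (hCnt : S_Cnt) {r N i i' : ℕ} (hr : 4 ≤ r) (hN : 12 * (r + 4) ≤ N) (hi : i < N)
    (hi' : i' < N) :
    ((N : ℝ) / (4 * (r + 2))) ^ (r + 1) ≤ cnt (r + 2) N (Mz N (r + 2) - i - i') := by
  have h := hCnt.2.2.2.1 (r + 1) N (Mz N (r + 2) - i - i') (by omega) ?_
  · have e : (((r + 1 : ℕ) : ℝ) + 1) = r + 2 := by push_cast; ring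
    rwa [e] at h
  · obtain ⟨h1, h2⟩ := Mz_bd N (r + 2)
    have h3 : (i : ℝ) + 1 ≤ N := by exact_mod_cast hi
    have h4 : (i' : ℝ) + 1 ≤ N := by exact_mod_cast hi'
    have h5 : (4 : ℝ) ≤ r := by exact_mod_cast hr
    have h6 : (0 : ℝ) ≤ i := Nat.cast_nonneg _
    have h7 : (0 : ℝ) ≤ i' := Nat.cast_nonneg _
    have h8 : 4 * (N : ℝ) ≤ r * N := mul_le_mul_of_nonneg_right h5 (Nat.cast_nonneg _)
    push_cast at h1 h2 ⊢
    rw [abs_le]
    constructor <;> linarith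

theorem cnt_top (hCnt : S_Cnt) {r N : ℕ} (hN : 12 * (r + 4) ≤ N) :
    (0 : ℝ) < cnt (r + 2 + 2) N (Mz N (r + 2)) := by
  have hN0 : (0 : ℝ) < N := by exact_mod_cast (by omega : 0 < N)
  have h := hCnt.2.2.2.1 (r + 3) N (Mz N (r + 2)) (by omega) ?_
  · exact lt_of_lt_of_le (by positivity) h
  · obtain ⟨h1, h2⟩ := Mz_bd N (r + 2)
    have h5 : (0 : ℝ) ≤ r * N := by positivity
    have h6 : (1 : ℝ) ≤ N := by exact_mod_cast (by omega : 1 ≤ N)
    push_cast at h1 h2 ⊢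
    rw [abs_le]
    constructor <;> linarith

theorem est (hCnt : S_Cnt) {r N q q' : ℕ} {y η C₁ Z R : ℝ} (hr : 4 ≤ r) (hN : 12 * (r + 4) ≤ N)
    (hy : 0 < y) (hq : y ≤ q) (hq' : y ≤ q') (hl : lv y N q < N) (hl' : lv y N q' < N)
    (hη : 1 ≤ η * N) (hC : 0 ≤ C₁) (hsm : (C₁ + 5) * η ≤ 1) (hR : 0 < R) (hZ : 0 < Z)
    (hw : |Real.log (Z / (R * y ^ (r + 2 + 2) * Real.exp ((((r + 2 : ℕ) : ℝ) + 2) / 2)))| ≤ C₁ * η) :
    |∑ m ∈ range ((r + 2) * N + 1),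
      ((cnt (r + 2) N m : ℝ) / cnt (r + 2) N (Mz N (r + 2) - lv y N q - lv y N q') *
        (y ^ 2 / (q * q') * Real.exp (Mz N (r + 2) / N) / Real.exp (m / N))) *
        tent (N * Real.log (Z / (R * q * q' * y ^ (r + 2))) - m) - 1| ≤
      (3 * ((C₁ + 3) * (4 * (r + 2)) ^ (r + 1)) + 2 * (C₁ + 5)) * η := by
  have hN0 : (0 : ℝ) < N := by exact_mod_cast (by omega : 0 < N)
  have hq0 : (0 : ℝ) < q := hy.trans_le hq
  have hq0' : (0 : ℝ) < q' := hy.trans_le hq'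
  obtain ⟨a1, a2⟩ := lv_bd (N := N) hy hq
  obtain ⟨b1, b2⟩ := lv_bd (N := N) hy hq'
  obtain ⟨m1, m2⟩ := Mz_bd N (r + 2)
  have hlow := cnt_low hCnt hr hN hl hl'
  have i1 : (lv y N q : ℝ) + 1 ≤ N := by exact_mod_cast hl
  have i2 : (lv y N q' : ℝ) + 1 ≤ N := by exact_mod_cast hl'
  have i3 : (0 : ℝ) ≤ lv y N q := Nat.cast_nonneg _
  have i4 : (0 : ℝ) ≤ lv y N q' := Nat.cast_nonneg _
  have hr4 : 4 * (N : ℝ) ≤ r * N :=
    mul_le_mul_of_nonneg_right (by exact_mod_cast hr) (Nat.cast_nonneg _)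
  generalize lv y N q = i at *
  generalize lv y N q' = i' at *
  generalize Mz N (r + 2) = M at *
  have hv : Real.log (Z / (R * q * q' * y ^ (r + 2))) =
      Real.log (Z / (R * y ^ (r + 2 + 2) * Real.exp ((((r + 2 : ℕ) : ℝ) + 2) / 2))) +
        (((r + 2 : ℕ) : ℝ) + 2) / 2 - Real.log (q / y) - Real.log (q' / y) := by
    have e : Z / (R * q * q' * y ^ (r + 2)) =
        Z / (R * y ^ (r + 2 + 2) * Real.exp ((((r + 2 : ℕ) : ℝ) + 2) / 2)) *
          Real.exp ((((r + 2 : ℕ) : ℝ) + 2) / 2) / (q / y) / (q' / y) := by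
      field_simp
      ring
    rw [e, Real.log_div (by positivity) (by positivity),
      Real.log_div (by positivity) (by positivity), Real.log_mul (by positivity) (by positivity),
      Real.log_exp]
  have hex : ∀ m : ℕ, y ^ 2 / (q * q') * Real.exp (M / N) / Real.exp (m / N) =
      Real.exp ((M - m - N * Real.log (q / y) - N * Real.log (q' / y)) / N) := by
    intro m
    have e : ((M : ℝ) - m - N * Real.log (q / y) - N * Real.log (q' / y)) / N =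
        M / N - m / N - Real.log (q / y) - Real.log (q' / y) := by
      field_simp
    rw [e, Real.exp_sub, Real.exp_sub, Real.exp_sub, Real.exp_log (by positivity),
      Real.exp_log (by positivity)]
    field_simp
  rw [hv]
  generalize Real.log (Z / (R * y ^ (r + 2 + 2) *
    Real.exp ((((r + 2 : ℕ) : ℝ) + 2) / 2))) = ℓ at *
  simp only [hex]
  generalize Real.log (q / y) = lam1 at *
  generalize Real.log (q' / y) = lam2 at *
  obtain ⟨w1, w2⟩ := abs_le.1 hw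
  have w3 : -(C₁ * (η * N)) ≤ N * ℓ := by
    linarith [mul_le_mul_of_nonneg_left w1 hN0.le]
  have w4 : N * ℓ ≤ C₁ * (η * N) := by
    linarith [mul_le_mul_of_nonneg_left w2 hN0.le]
  have w5 : (C₁ + 5) * (η * N) ≤ N := by
    linarith [mul_le_mul_of_nonneg_left hsm hN0.le]
  have w6 : 0 ≤ C₁ * (η * N) := by positivity
  push_cast at m1 m2 ⊢
  refine core _ (fun m : ℕ => (cnt (r + 2) N m : ℝ) / cnt (r + 2) N (M - i - i') *
    Real.exp ((M - m - N * lam1 - N * lam2) / N)) (by linarith) (by push_cast; linarith) ?_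
  intro m hm
  obtain ⟨k1, k2⟩ := abs_lt.1 hm
  have hmm : |((m : ℤ) : ℝ) - ((M - i - i' : ℤ) : ℝ)| ≤ (C₁ + 3) * η * N := by
    push_cast
    rw [abs_le]
    constructor <;> linarith
  have hrat := ratio_bd (f := fun m => (cnt (r + 2) N m : ℝ)) hN0 (by positivity)
    (hCnt.2.2.2.2.1 r N) hmm hlow
  have hx : |((M : ℝ) - m - N * lam1 - N * lam2) / N| ≤ (C₁ + 5) * η := by
    push_cast at hmm
    obtain ⟨k3, k4⟩ := abs_le.1 hmm
    rw [abs_div, abs_of_pos hN0, div_le_iff₀ hN0, abs_le]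
    constructor <;> linarith
  have hexp := (Real.abs_exp_sub_one_le (hx.trans hsm)).trans
    (mul_le_mul_of_nonneg_left hx zero_le_two)
  refine (prod_bd hrat hexp (by linarith)).trans (le_of_eq ?_)
  ring

theorem alg1 {pi y EM N w h f0 f cv m0 n q q' K0 K2 k Em T : ℝ} (u : ℕ) (hpi : pi ≠ 0)
    (hy : y ≠ 0) (hN : N ≠ 0) (hw : w ≠ 0) (hh : h ≠ 0) (hf0 : f0 ≠ 0) (hf : f ≠ 0) (hcv : cv ≠ 0)
    (hm0 : m0 ≠ 0) (hq : q ≠ 0) (hq' : q' ≠ 0) (hK0 : K0 ≠ 0) (hK2 : K2 ≠ 0) (hEm : Em ≠ 0) :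
    pi * y ^ (u + 2) * EM / (N * (w / (h * f0)) * cv * m0 ^ 2 * K2) / (q * q' * (K0 / K2)) *
      (k * (w / (h * f)) * (n ^ 2 * cv * N / (pi * y ^ u * Em)) * T) =
    n ^ 2 * f0 / (f * m0 ^ 2) * (k / K0 * (y ^ 2 / (q * q') * EM / Em) * T) := by
  field_simp
  ring

theorem alg2 {pi y EM N w h f0 f cv m0 n q q' K0 K2 : ℝ} (r : ℕ)
    (hN : N ≠ 0) (hw : w ≠ 0) (hh : h ≠ 0) (hf0 : f0 ≠ 0) (hf : f ≠ 0) (hcv : cv ≠ 0)
    (hm0 : m0 ≠ 0) (hq : q ≠ 0) (hq' : q' ≠ 0) (hK0 : K0 ≠ 0) (hK2 : K2 ≠ 0) :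
    pi * y ^ (r + 2 + 2) * EM / (N * (w / (h * f0)) * cv * m0 ^ 2 * K2) / (q * q' * (K0 / K2)) *
      (N ^ (r + 2) * (w / (h * f))) * (n ^ 2 * cv) =
    pi * EM * (N ^ (r + 1) / K0) * (y ^ 2 / (q * q')) * (n ^ 2 * f0 / (f * m0 ^ 2)) *
      y ^ (r + 2) := by
  field_simp
  ring

end Lam1

open Lam1 in
theorem p_lam1 (hCnt : S_Cnt) (hTheta : S_Theta) (hFlat : S_Flat) (hIQb : S_IQb) (hCl : S_Cl)
    (hPhi : S_Phi) : S_Lam1 := by
  intro p τ0 u hu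
  obtain ⟨r, rfl⟩ : ∃ r, u = r + 2 := ⟨u - 2, by omega⟩
  have hr : 4 ≤ r := by omega
  obtain ⟨Cf, hCf, hF⟩ := hFlat p τ0
  obtain ⟨C₁, hC₁⟩ : ∃ C₁ : ℝ, C₁ = 2 * p.k + 2 * Cf := ⟨_, rfl⟩
  have hC₁0 : 0 ≤ C₁ := by rw [hC₁]; positivity
  obtain ⟨C₃, hC₃⟩ : ∃ C₃ : ℝ, C₃ = 3 * ((C₁ + 3) * (4 * (r + 2)) ^ (r + 1)) + 2 * (C₁ + 5) :=
    ⟨_, rfl⟩
  obtain ⟨G, hG⟩ : ∃ G : ℝ, G = (p.r : ℝ) ^ p.n0 * |τ0| ^ p.k := ⟨_, rfl⟩
  obtain ⟨E, hE⟩ : ∃ E : ℝ, E = Real.exp ((((r + 2 : ℕ) : ℝ) + 2) / 2) := ⟨_, rfl⟩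
  have hC₃0 : 0 ≤ C₃ := by rw [hC₃]; positivity
  have hG0 : 0 ≤ G := by rw [hG]; positivity
  have hE1 : 1 ≤ E := by rw [hE]; exact Real.one_le_exp (by positivity)
  have hT0 : 0 ≤ Real.pi * E * (4 * ((r : ℝ) + 2)) ^ (r + 1) := by positivity
  have hk0 : 0 ≤ 2 * 2 ^ p.k * G := by positivity
  have hG2 : 0 ≤ 9 * G ^ 2 := by positivity
  obtain ⟨C, hC⟩ : ∃ C : ℝ, C = C₃ + 2 * 2 ^ p.k * G +
    Real.pi * E * (4 * ((r : ℝ) + 2)) ^ (r + 1) + 9 * G ^ 2 + E := ⟨_, rfl⟩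
  refine ⟨C, 1 / (C₁ + 5), by linarith, by positivity, fun F hp hτ hu' hη hA => ?_⟩
  have hTh := Fix.Ev.of_N (F := F) (hTheta (6 * F.A + 1))
  refine (((((hF F hp hτ).and hTh).and (F.ev_N_ge hA (12 * (r + 4) : ℕ))).and
    (F.ev_N_ge hA (1 / F.η))).and (F.ev_y_ge 1)).mono ?_
  rintro c hi ⟨⟨⟨⟨⟨f1, -, f3, -, -⟩, -, -, -, hP⟩, hN⟩, hNη⟩, hy1⟩ x x' t L _ _ K 𝔞 n hx hx' ht hK
    hn h𝔞
  subst hp hτ
  have hy : 0 < c.y := by linarith
  have hN' : 12 * (r + 4) ≤ c.N := by exact_mod_cast hN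
  have hN0 : (0 : ℝ) < c.N := by exact_mod_cast (by omega : 0 < c.N)
  have hη0 := hi.η_pos
  have hη1 : 1 ≤ c.η * c.N := by
    rw [div_le_iff₀ F.ηpos, ← hi.η] at hNη; linarith
  have hsm : (C₁ + 5) * c.η ≤ 1 := by
    rw [le_div_iff₀ (by positivity), ← hi.η] at hη; linarith
  obtain ⟨-, hq, hq3, hl, -⟩ := hP x.1 (fst_mem_Pset hx)
  obtain ⟨-, hq', hq3', hl', -⟩ := hP x'.1 (fst_mem_Pset hx')
  have hq0 : (0 : ℝ) < x.1 := hy.trans_le hq
  have hq0' : (0 : ℝ) < x'.1 := hy.trans_le hq'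
  have hr0 : (0 : ℝ) < F.p.r := by exact_mod_cast F.p.r_pos
  have hr1 : (1 : ℝ) ≤ F.p.r := by exact_mod_cast F.p.r_pos
  have hm0 : 1 ≤ M0 F.p.r c.z * F.p.r := Nat.mul_pos (M0_pos _ _) F.p.r_pos
  have hm0' : (0 : ℝ) < ((M0 F.p.r c.z * F.p.r : ℕ) : ℝ) := by exact_mod_cast hm0
  have hf0 : (0 : ℝ) < phi L (M0 F.p.r c.z * F.p.r) := by
    exact_mod_cast (hPhi L K.deg 1 _ hm0 (one_dvd _)).1
  have hf : (0 : ℝ) < phi L n := by exact_mod_cast (hPhi L K.deg 1 _ hn (one_dvd _)).1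
  obtain ⟨Ccl, -, hCl⟩ := hCl
  obtain ⟨-, hcv, -, hw⟩ := hCl L K
  have hcv0 : 0 < cov L := by linarith
  have hw0 : (0 : ℝ) < wu L := by exact_mod_cast hw
  have hh0 : (0 : ℝ) < classNumber L := by exact_mod_cast classNumber_pos L
  have hlow := cnt_low hCnt hr hN' hl hl'
  have hK0 : (0 : ℝ) < cnt (r + 2) c.N (Mz c.N (r + 2) - lv c.y c.N x.1 - lv c.y c.N x'.1) :=
    lt_of_lt_of_le (by positivity) hlow
  have hK2 := cnt_top hCnt hN'
  have hcc : 0 ≤ cc L (M0 F.p.r c.z * F.p.r) n := by unfold cc; positivity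
  have hB1 := hi.one_le_B hy1
  have hB0 : 0 < c.B := by linarith
  have hS0 : (0 : ℝ) < c.S0 := lt_of_lt_of_le (by positivity) hi.S_ge
  have hτ2 : 2 ≤ |F.τ0| := by
    have := F.tau.1
    rw [abs_of_neg (by linarith)]; linarith
  have hG1 : 1 ≤ G := by
    rw [hG]
    exact one_le_mul_of_one_le_of_one_le (one_le_pow₀ hr1) (one_le_pow₀ (by linarith))
  have hGs : ((F.p.r : ℝ) ^ F.p.n0 * c.S0 * F.τ0 ^ F.p.k) ^ 2 = (G * c.S0) ^ 2 := by
    have e : (F.τ0 ^ F.p.k) ^ 2 = (|F.τ0| ^ F.p.k) ^ 2 := by rw [← abs_pow, sq_abs]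
    rw [hG, mul_pow, e]; ring
  have hsize : (F.p.r : ℝ) ^ F.p.e * c.y ^ (r + 2 + 2) * E =
      G ^ 2 * (c.S0 * c.B ^ F.p.k) ^ 2 := by
    have h1 := hi.size
    rw [hi.τ0, hGs, hu', ← hE] at h1
    rw [← h1]; ring
  have h𝔞' : (Ideal.absNorm 𝔞 : ℝ) = (F.p.r : ℝ) ^ F.p.e * x.1 * x'.1 := by
    rw [h𝔞]; push_cast; ring
  have hX0 : 0 < (c.S0 : ℝ) * c.B ^ F.p.k := by positivity
  have hRy : 0 < (F.p.r : ℝ) ^ F.p.e * c.y ^ (r + 2) := by positivity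
  refine ⟨fun s hs => ?_, ?_, ?_, ?_⟩
  · obtain ⟨t1, t2, t3, t4, -⟩ := Tset_prop ht
    have hb0 : (0 : ℝ) < t.2 := by linarith
    have hb : t.2 ≠ 0 := by exact_mod_cast hb0.ne'
    have g1 := f1 s hs (t.1 / t.2) ⟨by rw [← hi.τ0]; exact t3, by rw [← hi.τ0]; exact t4.le⟩
    rw [hGs] at g1
    have hCη : Cf * c.η ≤ 1 / 2 := by
      have : (0 : ℝ) ≤ F.p.k * c.η := by positivity
      rw [hC₁] at hsm; linarith
    obtain ⟨g2, g3⟩ := log_bd g1 hCη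
    have hZ : ‖K.σ (K.al F.p t s)‖ ^ 2 = (t.2 : ℝ) ^ (2 * F.p.k) *
        ((F.p.FR s).eval ((t.1 : ℝ) / t.2) / (G * c.S0) ^ 2 * (G * c.S0) ^ 2) := by
      rw [div_mul_cancel₀ _ (by positivity), ← f3 s t hb]
      have h4 := (hIQb L K).2.2.2.1 (F.p.gt s t) (F.p.ct s t)
      unfold IQ.al Par.N
      rw [h4, hK]; push_cast; ring
    generalize (F.p.FR s).eval ((t.1 : ℝ) / t.2) / (G * c.S0) ^ 2 = w at g1 g2 g3 hZ
    have hZ0 : 0 < ‖K.σ (K.al F.p t s)‖ ^ 2 := by rw [hZ]; positivity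
    have hα : K.σ (K.al F.p t s) ≠ 0 := fun h => by
      rw [h, norm_zero] at hZ0; simp at hZ0
    constructor
    · have hlog : |Real.log (‖K.σ (K.al F.p t s)‖ ^ 2 / ((F.p.r : ℝ) ^ F.p.e * c.y ^ (r + 2 + 2) *
          Real.exp ((((r + 2 : ℕ) : ℝ) + 2) / 2)))| ≤ C₁ * c.η := by
        have e : ‖K.σ (K.al F.p t s)‖ ^ 2 / ((F.p.r : ℝ) ^ F.p.e * c.y ^ (r + 2 + 2) * E) =
            ((t.2 : ℝ) / c.B) ^ (2 * F.p.k) * w := by
          rw [hZ, hsize, div_pow]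
          field_simp
          ring
        rw [← hE, e, Real.log_mul (by positivity) g2.ne', Real.log_pow]
        have l1 : 0 ≤ Real.log ((t.2 : ℝ) / c.B) := Real.log_nonneg ((one_le_div hB0).2 t1)
        have l2 : Real.log ((t.2 : ℝ) / c.B) ≤ c.η := by
          have l3 := Real.log_le_sub_one_of_pos (div_pos hb0 hB0)
          have l4 : (t.2 : ℝ) / c.B ≤ 1 + c.η := by rw [div_le_iff₀ hB0]; linarith
          linarith
        have l5 := mul_le_mul_of_nonneg_left l2 (Nat.cast_nonneg (α := ℝ) F.p.k)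
        have l6 := mul_nonneg (Nat.cast_nonneg (α := ℝ) F.p.k) l1
        obtain ⟨l7, l8⟩ := abs_le.1 g3
        have l9 : (0 : ℝ) ≤ F.p.k * c.η := by positivity
        rw [hC₁, abs_le]
        push_cast
        constructor <;> linarith
      have hest := est hCnt hr hN' hy hq hq' hl hl' hη1 hC₁0 hsm (by positivity) hZ0 hlog
      rw [← hC₃] at hest
      have hid : kap' L F.p c (r + 2) x x' * Lam K.σ c.y c.N (r + 2) n 𝔞 (K.al F.p t s) =
          cc L (M0 F.p.r c.z * F.p.r) n * ∑ m ∈ range ((r + 2) * c.N + 1),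
          ((cnt (r + 2) c.N m : ℝ) /
            cnt (r + 2) c.N (Mz c.N (r + 2) - lv c.y c.N x.1 - lv c.y c.N x'.1) *
          (c.y ^ 2 / (x.1 * x'.1) * Real.exp (Mz c.N (r + 2) / c.N) / Real.exp (m / c.N))) *
          tent (c.N * Real.log (‖K.σ (K.al F.p t s)‖ ^ 2 /
            ((F.p.r : ℝ) ^ F.p.e * x.1 * x'.1 * c.y ^ (r + 2))) - m) := by
        unfold Lam
        rw [mul_sum, mul_sum]
        refine sum_congr rfl fun m _ => ?_
        unfold kap' kap Hh ir cc sh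
        rw [if_neg hα, h𝔞']
        exact alg1 (r + 2) Real.pi_ne_zero hy.ne' hN0.ne' hw0.ne' hh0.ne' hf0.ne' hf.ne' hcv0.ne'
          hm0'.ne' hq0.ne' hq0'.ne' hK0.ne' hK2.ne' (Real.exp_ne_zero _)
      rw [hid, ← mul_sub_one, abs_mul, abs_of_nonneg hcc, mul_comm]
      refine mul_le_mul_of_nonneg_right (hest.trans ?_) hcc
      exact mul_le_mul_of_nonneg_right (by linarith) hη0.le
    · refine le_trans ?_ (mul_le_mul_of_nonneg_right
        (show 2 * 2 ^ F.p.k * G ≤ C by linarith) hX0.le)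
      refine le_of_sq_le_sq ?_ (by positivity)
      have l1 : (t.2 : ℝ) ^ (2 * F.p.k) ≤ (2 * c.B) ^ (2 * F.p.k) :=
        pow_le_pow_left₀ hb0.le (hi.t2_le hy1 ht) _
      have l2 : w ≤ 4 := by linarith [(abs_le.1 g1).2]
      rw [hZ]
      refine (mul_le_mul l1 (mul_le_mul_of_nonneg_right l2 (by positivity)) (by positivity)
        (by positivity)).trans (le_of_eq ?_)
      ring
  · have hid : kap' L F.p c (r + 2) x x' * (c.N ^ (r + 2) * ir L n) * (n ^ 2 * cov L) =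
        Real.pi * Real.exp (Mz c.N (r + 2) / c.N) * (c.N ^ (r + 1) /
          cnt (r + 2) c.N (Mz c.N (r + 2) - lv c.y c.N x.1 - lv c.y c.N x'.1)) *
          (c.y ^ 2 / (x.1 * x'.1)) * cc L (M0 F.p.r c.z * F.p.r) n * c.y ^ (r + 2) := by
      unfold kap' kap Hh ir cc
      exact alg2 r hN0.ne' hw0.ne' hh0.ne' hf0.ne' hf.ne' hcv0.ne'
        hm0'.ne' hq0.ne' hq0'.ne' hK0.ne' hK2.ne'
    rw [hid]
    refine mul_le_mul_of_nonneg_right (mul_le_mul_of_nonneg_right ?_ hcc) (by positivity)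
    have e1 : Real.exp (Mz c.N (r + 2) / c.N) ≤ E := by
      rw [hE]
      refine Real.exp_le_exp.2 ?_
      rw [div_le_iff₀ hN0]
      linarith [(Mz_bd c.N (r + 2)).2]
    have e2 : (c.N : ℝ) ^ (r + 1) /
        cnt (r + 2) c.N (Mz c.N (r + 2) - lv c.y c.N x.1 - lv c.y c.N x'.1) ≤
        (4 * ((r : ℝ) + 2)) ^ (r + 1) := by
      rw [div_pow, div_le_iff₀ (by positivity)] at hlow
      rw [div_le_iff₀ hK0]; linarith
    have e3 : c.y ^ 2 / (x.1 * x'.1) ≤ 1 := by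
      rw [div_le_one (by positivity), sq]
      exact mul_le_mul hq hq' hy.le hq0.le
    refine le_trans ?_ (show Real.pi * E * (4 * ((r : ℝ) + 2)) ^ (r + 1) * 1 ≤ C by linarith)
    gcongr
  · have e1 : (x.1 : ℝ) * x'.1 ≤ 3 * c.y * (3 * c.y) :=
      mul_le_mul hq3.le hq3'.le hq0'.le (by positivity)
    have e2 := mul_le_mul_of_nonneg_left e1 hRy.le
    have e3 := mul_le_mul_of_nonneg_left hE1
      (show 0 ≤ (F.p.r : ℝ) ^ F.p.e * c.y ^ (r + 2 + 2) by positivity)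
    refine le_trans ?_ (mul_le_mul_of_nonneg_right (show 9 * G ^ 2 ≤ C by linarith) (by positivity))
    rw [h𝔞', mul_assoc 9, ← hsize]
    have e4 : c.y ^ (r + 2 + 2) = c.y ^ (r + 2) * (c.y * c.y) := by ring
    rw [e4] at e3 ⊢
    linarith
  · have e1 : c.y * c.y ≤ (x.1 : ℝ) * x'.1 := mul_le_mul hq hq' hy.le hq0.le
    have e2 := mul_le_mul_of_nonneg_left (mul_le_mul_of_nonneg_left e1 hRy.le)
      (show 0 ≤ E by linarith)
    have e3 := mul_le_mul_of_nonneg_right (one_le_pow₀ (n := 2) hG1)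
      (show 0 ≤ ((c.S0 : ℝ) * c.B ^ F.p.k) ^ 2 by positivity)
    refine le_trans ?_ (mul_le_mul_of_nonneg_right (show E ≤ C by linarith) (by positivity))
    rw [← hsize] at e3
    have e4 : c.y ^ (r + 2 + 2) = c.y ^ (r + 2) * (c.y * c.y) := by ring
    rw [e4] at e3
    rw [h𝔞']
    linarith

end Pool.Agent.P.MP_b8021b_nt.VE
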