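import Pool.Agent.P.MP_b8021b_nt.VE.StN

/-! Helper lemmas for the package `omP`: the weight of sections and translation. -/

namespace Pool.Agent.P.MP_b8021b_nt.VE.OmP

open Polynomial Finset NumberField
open scoped Classical

lemma hev_add (d : ℕ) (P Q : ℤ[X]) (a b : ℤ) : hev d (P + Q) a b = hev d P a b + hev d Q a b := by
  simp only [hev, coeff_add, add_mul, Finset.sum_add_distrib]

lemma hev_lin (n : ℕ) (ρ : ℤ) (v : Fin n → ℤ) (a b : ℤ) :
    hev n (C ρ * ∑ i : Fin n, C (v i) * X ^ (i.1 + 1)) a b =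
      ρ * ∑ i : Fin n, v i * a ^ (i.1 + 1) * b ^ (n - (i.1 + 1)) := by
  simp only [hev, coeff_C_mul, finsetSum_coeff, coeff_X_pow, mul_ite, mul_one, mul_zero]
  rw [Finset.mul_sum]
  simp only [Finset.mul_sum, Finset.sum_mul]
  rw [Finset.sum_comm]
  refine Finset.sum_congr rfl fun i _ => ?_
  rw [Finset.sum_eq_single (i.1 + 1)]
  · rw [if_pos rfl]; ring
  · intro j _ hj
    rw [if_neg hj]; ring
  · intro h
    exact absurd (mem_range.mpr (by have := i.2; omega)) h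

/-- the linear part of `gt` -/
def lg (p : Par) (v : p.Co) (t : ℤ × ℤ) : ℤ :=
  (p.r : ℤ) ^ p.n0 * ∑ i : Fin p.k, v (.inl i) * t.1 ^ (i.1 + 1) * t.2 ^ (p.k - (i.1 + 1))

/-- the linear part of `ct` -/
def lc (p : Par) (v : p.Co) (t : ℤ × ℤ) : ℤ :=
  (p.r : ℤ) ^ p.n0 *
    ∑ i : Fin (p.k - 2), v (.inr i) * t.1 ^ (i.1 + 1) * t.2 ^ (p.k - 2 - (i.1 + 1))

lemma gt_add (p : Par) (s v : p.Co) (t : ℤ × ℤ) : p.gt (s + v) t = p.gt s t + lg p v t := by
  have : p.gp (s + v) = p.gp s +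
      C ((p.r : ℤ) ^ p.n0) * ∑ i : Fin p.k, C (v (.inl i)) * X ^ (i.1 + 1) := by
    simp only [Par.gp, Pi.add_apply, map_add, add_mul, Finset.sum_add_distrib, mul_add, add_assoc]
  rw [Par.gt, this, hev_add, hev_lin]
  rfl

lemma ct_add (p : Par) (s v : p.Co) (t : ℤ × ℤ) : p.ct (s + v) t = p.ct s t + lc p v t := by
  have : p.cp (s + v) = p.cp s +
      C ((p.r : ℤ) ^ p.n0) * ∑ i : Fin (p.k - 2), C (v (.inr i)) * X ^ (i.1 + 1) := by
    simp only [Par.cp, Pi.add_apply, map_add, add_mul, Finset.sum_add_distrib, mul_add, add_assoc]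
  rw [Par.ct, this, hev_add, hev_lin]
  rfl

lemma lg_smul (p : Par) (n : ℤ) (v : p.Co) (t : ℤ × ℤ) :
    lg p (fun j => n * v j) t = n * lg p v t := by
  simp only [lg, Finset.mul_sum]
  exact Finset.sum_congr rfl fun i _ => by ring

lemma lc_smul (p : Par) (n : ℤ) (v : p.Co) (t : ℤ × ℤ) :
    lc p (fun j => n * v j) t = n * lc p v t := by
  simp only [lc, Finset.mul_sum]
  exact Finset.sum_congr rfl fun i _ => by ring

lemma al_add {L : Type} [Field L] [NumberField L] (K : IQ L) (p : Par) (t : ℤ × ℤ) (s v : p.Co) :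
    K.al p t (s + v) = K.al p t s + ((lg p v t : 𝓞 L) + (lc p v t : 𝓞 L) * K.ω) := by
  simp only [IQ.al, gt_add, ct_add]
  push_cast
  ring

lemma al_congr {L : Type} [Field L] [NumberField L] (K : IQ L) (p : Par) (t : ℤ × ℤ) (n : ℕ)
    (𝔟 : Ideal (𝓞 L)) (hn : (n : 𝓞 L) ∈ 𝔟) (s s' : p.Co)
    (h : (fun j => (s j : ZMod n)) = fun j => (s' j : ZMod n)) :
    K.al p t s' - K.al p t s ∈ 𝔟 := by
  have h1 : ∀ j, ∃ w : ℤ, s' j - s j = n * w := fun j =>
    (ZMod.intCast_eq_intCast_iff_dvd_sub _ _ _).mp (congrFun h j)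
  choose w hw using h1
  have h2 : s' = s + fun j => (n : ℤ) * w j := by
    funext j
    simp only [Pi.add_apply]
    linarith [hw j]
  rw [h2, al_add, lg_smul, lc_smul, add_sub_cancel_left]
  push_cast
  rw [mul_assoc, ← mul_add]
  exact 𝔟.mul_mem_right _ hn

lemma sum_shift (n : ℕ) (hn : 1 ≤ n) (P : ℤ[X]) (a b : ℤ) :
    ∑ i : Fin n, P.coeff i.1 * a ^ (i.1 + 1) * b ^ (n - (i.1 + 1)) = a * hev (n - 1) P a b := by
  rw [hev, Nat.sub_add_cancel hn, Finset.mul_sum,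
    Fin.sum_univ_eq_sum_range (fun i => P.coeff i * a ^ (i + 1) * b ^ (n - (i + 1))) n]
  refine Finset.sum_congr rfl fun i _ => ?_
  rw [show n - (i + 1) = n - 1 - i by omega]
  ring

/-! ### the weights -/

lemma tent_nonneg (v : ℝ) : 0 ≤ tent v := le_max_left _ _

lemma tent_le (v : ℝ) : tent v ≤ 1 := max_le zero_le_one (by linarith [abs_nonneg v])

lemma tent_lip (v w : ℝ) : |tent v - tent w| ≤ |v - w| := by
  unfold tent
  refine (abs_max_sub_max_le_max _ _ _ _).trans (max_le (by simp) ?_)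
  rw [show 1 - |v| - (1 - |w|) = |w| - |v| by ring, abs_sub_comm v w]
  exact abs_abs_sub_abs_le_abs_sub _ _

lemma prod_lip {ι : Type} (S : Finset ι) (f g : ι → ℝ) (hf : ∀ i, 0 ≤ f i ∧ f i ≤ 1)
    (hg : ∀ i, 0 ≤ g i ∧ g i ≤ 1) : |∏ i ∈ S, f i - ∏ i ∈ S, g i| ≤ ∑ i ∈ S, |f i - g i| := by
  induction S using Finset.induction_on with
  | empty => simp
  | insert i S hi ih =>
    rw [Finset.prod_insert hi, Finset.prod_insert hi, Finset.sum_insert hi]
    have h1 : 0 ≤ ∏ j ∈ S, f j := Finset.prod_nonneg fun j _ => (hf j).1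
    have h2 : ∏ j ∈ S, f j ≤ 1 := Finset.prod_le_one (fun j _ => (hf j).1) fun j _ => (hf j).2
    have e : f i * ∏ j ∈ S, f j - g i * ∏ j ∈ S, g j =
        (f i - g i) * ∏ j ∈ S, f j + g i * (∏ j ∈ S, f j - ∏ j ∈ S, g j) := by ring
    rw [e]
    refine (abs_add_le _ _).trans (add_le_add ?_ ?_)
    · rw [abs_mul, abs_of_nonneg h1]
      nlinarith [abs_nonneg (f i - g i)]
    · rw [abs_mul, abs_of_nonneg (hg i).1]
      nlinarith [abs_nonneg (∏ j ∈ S, f j - ∏ j ∈ S, g j), (hg i).1, (hg i).2]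

lemma wS_eq (p : Par) (S0 L : ℕ) (s : p.Co) : wS p S0 L s =
    (∏ j, tent (((s j - cen p S0 j : ℤ) : ℝ) / L)) / (L : ℝ) ^ Fintype.card p.Ix := by
  rw [wS, Finset.prod_div_distrib, Finset.prod_const, Finset.card_univ]

lemma wS_nonneg (p : Par) (S0 L : ℕ) (s : p.Co) : 0 ≤ wS p S0 L s := by
  rw [wS_eq]
  exact div_nonneg (Finset.prod_nonneg fun j _ => tent_nonneg _) (by positivity)

lemma wS_le (p : Par) (S0 L : ℕ) (s : p.Co) :
    wS p S0 L s ≤ 1 / (L : ℝ) ^ Fintype.card p.Ix := by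
  rw [wS_eq]
  exact div_le_div_of_nonneg_right
    (Finset.prod_le_one (fun j _ => tent_nonneg _) fun j _ => tent_le _) (by positivity)

lemma mem_Sset {p : Par} {S0 L : ℕ} {s : p.Co} :
    s ∈ Sset p S0 L ↔ ∀ j, |s j - cen p S0 j| < L := by
  simp only [Sset, Fintype.mem_piFinset, Finset.mem_Ioo, abs_lt]
  exact forall_congr' fun j => by constructor <;> rintro ⟨h1, h2⟩ <;> constructor <;> linarith

lemma wS_zero {p : Par} {S0 L : ℕ} (hL : 1 ≤ L) {s : p.Co} (h : s ∉ Sset p S0 L) :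
    wS p S0 L s = 0 := by
  rw [mem_Sset] at h
  push Not at h
  obtain ⟨j, hj⟩ := h
  have hL' : (0 : ℝ) < L := by exact_mod_cast hL
  rw [wS]
  refine Finset.prod_eq_zero (mem_univ j) ?_
  have h1 : (L : ℝ) ≤ |((s j - cen p S0 j : ℤ) : ℝ)| := by exact_mod_cast hj
  have : tent (((s j - cen p S0 j : ℤ) : ℝ) / L) = 0 := by
    unfold tent
    refine max_eq_left ?_
    rw [abs_div, abs_of_pos hL', sub_nonpos, le_div_iff₀ hL']
    linarith
  rw [this, zero_div]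

lemma wS_lip (p : Par) (S0 L : ℕ) (hL : 1 ≤ L) (s v : p.Co) (V : ℝ) (hv : ∀ j, |(v j : ℝ)| ≤ V) :
    |wS p S0 L s - wS p S0 L (s + v)| ≤
      Fintype.card p.Ix * (V / L) / (L : ℝ) ^ Fintype.card p.Ix := by
  have hL' : (0 : ℝ) < L := by exact_mod_cast hL
  rw [wS_eq, wS_eq, ← sub_div, abs_div, abs_of_pos (pow_pos hL' _)]
  refine div_le_div_of_nonneg_right ?_ (by positivity)
  refine (prod_lip _ _ _ (fun j => ⟨tent_nonneg _, tent_le _⟩)
    fun j => ⟨tent_nonneg _, tent_le _⟩).trans ?_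
  refine (Finset.sum_le_card_nsmul _ _ (V / L) fun j _ => ?_).trans ?_
  · refine (tent_lip _ _).trans ?_
    rw [← sub_div, abs_div, abs_of_pos hL']
    refine div_le_div_of_nonneg_right ?_ hL'.le
    simp only [Pi.add_apply]
    push_cast
    rw [show (s j : ℝ) - cen p S0 j - (s j + v j - cen p S0 j) = -(v j) by ring, abs_neg]
    exact hv j
  · rw [Finset.card_univ, nsmul_eq_mul]

lemma wS_low (p : Par) (S0 L : ℕ) (hL : 1 ≤ L) (s v : p.Co) (hs : s ∈ Sset p S0 L)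
    (hv : ∀ j, |(v j : ℝ)| ≤ L) : s + v ∈ Sset p S0 (4 * L) ∧
      1 / (8 * L : ℝ) ^ Fintype.card p.Ix ≤ wS p S0 (4 * L) (s + v) := by
  have hL' : (0 : ℝ) < L := by exact_mod_cast hL
  rw [mem_Sset] at hs
  have h2 : ∀ j, |(s + v) j - cen p S0 j| < 2 * L := fun j => by
    have h1 : |v j| ≤ (L : ℤ) := by exact_mod_cast hv j
    have h3 := abs_add_le (s j - cen p S0 j) (v j)
    have h4 := hs j
    rw [show (s + v) j - cen p S0 j = s j - cen p S0 j + v j by simp only [Pi.add_apply]; ring]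
    linarith
  refine ⟨mem_Sset.mpr fun j => ?_, ?_⟩
  · have := h2 j
    push_cast
    linarith [Int.natCast_nonneg L]
  · rw [wS, one_div, ← inv_pow, ← Finset.card_univ, ← Finset.prod_const]
    refine Finset.prod_le_prod (fun j _ => by positivity) fun j _ => ?_
    have h3 : |(((s + v) j - cen p S0 j : ℤ) : ℝ)| ≤ 2 * L := by exact_mod_cast (h2 j).le
    have h4 : 1 / 2 ≤ tent ((((s + v) j - cen p S0 j : ℤ) : ℝ) / ((4 * L : ℕ) : ℝ)) := by
      refine le_trans ?_ (le_max_right _ _)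
      have h5 : |(((s + v) j - cen p S0 j : ℤ) : ℝ) / ((4 * L : ℕ) : ℝ)| ≤ 1 / 2 := by
        rw [abs_div, Nat.abs_cast, div_le_iff₀ (by positivity)]
        push_cast at h3 ⊢
        linarith
      linarith
    rw [le_div_iff₀ (by positivity)]
    refine le_trans (le_of_eq ?_) h4
    push_cast
    field_simp
    ring

/-- translation of a fibre -/
lemma lip (p : Par) (S0 L : ℕ) (hL : 1 ≤ L) (Φ₁ Φ₂ : p.Co → Prop) [DecidablePred Φ₁]
    [DecidablePred Φ₂] (v : p.Co) (V M : ℝ) (hV : 0 ≤ V) (hΦ : ∀ s, Φ₁ s ↔ Φ₂ (s + v))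
    (hv : ∀ j, |(v j : ℝ)| ≤ V) (h1 : (((Sset p S0 L).filter Φ₁).card : ℝ) ≤ M)
    (h2 : (((Sset p S0 L).filter Φ₂).card : ℝ) ≤ M) :
    |∑ s ∈ Sset p S0 L with Φ₁ s, wS p S0 L s - ∑ s ∈ Sset p S0 L with Φ₂ s, wS p S0 L s| ≤
      2 * M * (Fintype.card p.Ix * (V / L) / (L : ℝ) ^ Fintype.card p.Ix) := by
  set A := (Sset p S0 L).filter Φ₁ with hA
  set B := ((Sset p S0 L).filter Φ₂).image (fun s => s - v) with hB
  have e1 : ∑ s ∈ A, wS p S0 L s = ∑ s ∈ A ∪ B, wS p S0 L s := by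
    refine Finset.sum_subset Finset.subset_union_left fun s hs hsA => ?_
    refine wS_zero hL fun h => hsA (mem_filter.mpr ⟨h, ?_⟩)
    rcases mem_union.mp hs with h' | h'
    · exact absurd h' hsA
    · obtain ⟨s', hs', rfl⟩ := mem_image.mp h'
      rw [hΦ, sub_add_cancel]
      exact (mem_filter.mp hs').2
  have e2 : ∑ s ∈ (Sset p S0 L).filter Φ₂, wS p S0 L s = ∑ s ∈ B, wS p S0 L (s + v) := by
    rw [hB, Finset.sum_image fun a _ b _ h => sub_left_injective h]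
    simp only [sub_add_cancel]
  have e3 : ∑ s ∈ B, wS p S0 L (s + v) = ∑ s ∈ A ∪ B, wS p S0 L (s + v) := by
    refine Finset.sum_subset Finset.subset_union_right fun s hs hsB => ?_
    refine wS_zero hL fun h => hsB ?_
    rcases mem_union.mp hs with h' | h'
    · exact mem_image.mpr ⟨s + v, mem_filter.mpr ⟨h, (hΦ s).mp (mem_filter.mp h').2⟩,
        add_sub_cancel_right s v⟩
    · exact h'
  rw [e1, e2, e3, ← Finset.sum_sub_distrib]
  refine (Finset.abs_sum_le_sum_abs _ _).trans ?_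
  refine (Finset.sum_le_card_nsmul _ _ _ fun s _ => wS_lip p S0 L hL s v V hv).trans ?_
  rw [nsmul_eq_mul]
  refine mul_le_mul_of_nonneg_right ?_ (by positivity)
  have c1 : ((A ∪ B).card : ℝ) ≤ A.card + B.card := by exact_mod_cast Finset.card_union_le A B
  have c2 : (B.card : ℝ) ≤ ((Sset p S0 L).filter Φ₂).card := by
    exact_mod_cast Finset.card_image_le
  linarith

/-- packing of translates of a fibre -/
lemma pack (p : Par) (S0 L : ℕ) (hL : 1 ≤ L) {ι : Type} (T : Finset ι) (Φ Ψ : p.Co → Prop)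
    [DecidablePred Φ] [DecidablePred Ψ] (v : ι → p.Co) (hv : ∀ i ∈ T, ∀ j, |(v i j : ℝ)| ≤ L)
    (hΨ : ∀ s, Φ s → ∀ i ∈ T, Ψ (s + v i))
    (hinj : ∀ s s', Φ s → Φ s' → ∀ i ∈ T, ∀ i' ∈ T, s + v i = s' + v i' → i = i') :
    (((Sset p S0 L).filter Φ).card : ℝ) * T.card ≤
      (8 * L : ℝ) ^ Fintype.card p.Ix * ∑ s ∈ Sset p S0 (4 * L) with Ψ s, wS p S0 (4 * L) s := by
  have hL' : (0 : ℝ) < L := by exact_mod_cast hL
  set A := ((Sset p S0 L).filter Φ) ×ˢ T with hA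
  have hi : Set.InjOn (fun z : p.Co × ι => z.1 + v z.2) A := by
    rintro ⟨s, i⟩ hz ⟨s', i'⟩ hz' h
    obtain ⟨a1, a2⟩ := mem_product.mp (mem_coe.mp hz)
    obtain ⟨b1, b2⟩ := mem_product.mp (mem_coe.mp hz')
    have := hinj s s' (mem_filter.mp a1).2 (mem_filter.mp b1).2 i a2 i' b2 h
    subst this
    have h' : s + v i = s' + v i := h
    rw [add_right_cancel h']
  have e1 : (((Sset p S0 L).filter Φ).card : ℝ) * T.card =
      (A.image fun z : p.Co × ι => z.1 + v z.2).card := by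
    rw [Finset.card_image_of_injOn hi, hA, Finset.card_product]
    push_cast
    rfl
  rw [e1, ← div_le_iff₀' (by positivity)]
  calc ((A.image fun z : p.Co × ι => z.1 + v z.2).card : ℝ) / (8 * L : ℝ) ^ Fintype.card p.Ix
      = ∑ _s ∈ A.image fun z : p.Co × ι => z.1 + v z.2, 1 / (8 * L : ℝ) ^ Fintype.card p.Ix := by
        rw [Finset.sum_const, nsmul_eq_mul, mul_one_div]
    _ ≤ ∑ s ∈ A.image fun z : p.Co × ι => z.1 + v z.2, wS p S0 (4 * L) s := by
        refine Finset.sum_le_sum fun s hs => ?_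
        obtain ⟨⟨s', i⟩, hz, rfl⟩ := mem_image.mp hs
        obtain ⟨a1, a2⟩ := mem_product.mp hz
        exact (wS_low p S0 L hL s' (v i) (mem_filter.mp a1).1 (hv i a2)).2
    _ ≤ _ := by
        refine Finset.sum_le_sum_of_subset_of_nonneg (fun s hs => ?_) fun s _ _ => wS_nonneg _ _ _ _
        obtain ⟨⟨s', i⟩, hz, rfl⟩ := mem_image.mp hs
        obtain ⟨a1, a2⟩ := mem_product.mp hz
        exact mem_filter.mpr ⟨(wS_low p S0 L hL s' (v i) (mem_filter.mp a1).1 (hv i a2)).1,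
          hΨ s' (mem_filter.mp a1).2 i a2⟩

/-- the mass of a union of residue classes at two scales -/
lemma two_scales (hSEq : S_SEq) (p : Par) : ∃ C : ℝ, 1 ≤ C ∧ ∀ (S0 L n : ℕ) (Ψ : p.Co → Prop)
    [DecidablePred Ψ], 1 ≤ n → 2 * C * n ≤ L →
    (∀ s s' : p.Co, (fun j => (s j : ZMod n)) = (fun j => (s' j : ZMod n)) → Ψ s → Ψ s') →
    ∑ s ∈ Sset p S0 (4 * L) with Ψ s, wS p S0 (4 * L) s ≤
      4 * ∑ s ∈ Sset p S0 L with Ψ s, wS p S0 L s := by
  obtain ⟨C, hC, h⟩ := hSEq p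
  refine ⟨C, hC, fun S0 L n Ψ _ hn hL hΨ => ?_⟩
  have : NeZero n := ⟨by omega⟩
  have hn' : (1 : ℝ) ≤ n := by exact_mod_cast hn
  have hnL : (n : ℝ) ≤ L := by nlinarith
  have hnL' : n ≤ L := by exact_mod_cast hnL
  have hL0 : (0 : ℝ) < L := by linarith
  set R : Finset (p.Ix → ZMod n) :=
    univ.filter fun ρ => ∃ s : p.Co, (fun j => (s j : ZMod n)) = ρ ∧ Ψ s with hR
  have hm : ∀ s : p.Co, (fun j => (s j : ZMod n)) ∈ R ↔ Ψ s := fun s => by
    rw [hR, mem_filter]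
    exact ⟨fun ⟨_, s', h1, h2⟩ => hΨ s' s h1 h2, fun h => ⟨mem_univ _, s, rfl, h⟩⟩
  have h1 := (h S0 L n hn hnL').2.1 R
  have h2 := (h S0 (4 * L) n hn (by omega)).2.1 R
  rw [Finset.filter_congr fun s _ => hm s] at h1 h2
  set q : ℝ := R.card / (n : ℝ) ^ (2 * p.k - 2)
  have hq : 0 ≤ q := by positivity
  have a1 : C * (n / L) ≤ 1 / 2 := by
    rw [← mul_div_assoc, div_le_iff₀ hL0]; linarith
  have a2 : C * (n / ((4 * L : ℕ) : ℝ)) ≤ 1 := by
    push_cast
    rw [← mul_div_assoc, div_le_iff₀ (by positivity)]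
    nlinarith
  have b1 := (abs_le.mp h1).1
  have b2 := (abs_le.mp h2).2
  have b3 := mul_le_mul_of_nonneg_right a1 hq
  have b4 := mul_le_mul_of_nonneg_right a2 hq
  linarith

end Pool.Agent.P.MP_b8021b_nt.VE.OmP
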