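import Pool.Agent.P.MP_b8021b_nt.VE.StN

/-! Helper lemmas for the package `omP`: lifting differences to small integer vectors. -/

namespace Pool.Agent.P.MP_b8021b_nt.VE.OmP

open Polynomial Finset
open scoped Classical

lemma hev_real (d : ℕ) (P : ℤ[X]) (hP : P.natDegree ≤ d) (a b : ℤ) (hb : b ≠ 0) :
    (hev d P a b : ℝ) = (b : ℝ) ^ d * aeval ((a : ℝ) / b) P := by
  have hb' : (b : ℝ) ≠ 0 := by exact_mod_cast hb
  rw [aeval_eq_sum_range' (Nat.lt_succ_of_le hP), hev, Finset.mul_sum]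
  push_cast
  refine Finset.sum_congr rfl fun i hi => ?_
  have hi' : i ≤ d := Nat.lt_succ_iff.mp (mem_range.mp hi)
  obtain ⟨j, rfl⟩ := Nat.exists_eq_add_of_le hi'
  rw [Nat.add_sub_cancel_left, zsmul_eq_mul, div_pow, pow_add]
  field_simp

lemma lift0 (d : ℕ) (hd : 1 ≤ d) (a b a' b' x x' : ℤ) (h : IsCoprime a b) (h' : IsCoprime a' b')
    (hb : b ≠ 0) (hb' : b' ≠ 0) :
    ∃ P : ℤ[X], P.natDegree ≤ d ∧
      (b : ℝ) ^ d * aeval ((a : ℝ) / b) P = ((a * b' - a' * b : ℤ) : ℝ) * x ∧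
      (b' : ℝ) ^ d * aeval ((a' : ℝ) / b') P = ((a * b' - a' * b : ℤ) : ℝ) * x' := by
  obtain ⟨u, v, huv⟩ := h
  obtain ⟨u', v', huv'⟩ := h'
  obtain ⟨e, rfl⟩ := Nat.exists_eq_add_of_le' hd
  have hbr : (b : ℝ) ≠ 0 := by exact_mod_cast hb
  have hbr' : (b' : ℝ) ≠ 0 := by exact_mod_cast hb'
  have hr : (u : ℝ) * a + v * b = 1 := by exact_mod_cast huv
  have hr' : (u' : ℝ) * a' + v' * b' = 1 := by exact_mod_cast huv'
  have e1 : (u : ℝ) * ((a : ℝ) / b) + v = 1 / b := by field_simp; linarith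
  have e2 : (u' : ℝ) * ((a' : ℝ) / b') + v' = 1 / b' := by field_simp; linarith
  refine ⟨C x * (C b' * X - C a') * (C u * X + C v) ^ e +
    C x' * (C a - C b * X) * (C u' * X + C v') ^ e, ?_, ?_, ?_⟩
  · have h1 : ∀ s t : ℤ, ((C s * X + C t : ℤ[X]) ^ e).natDegree ≤ e := fun s t => by
      refine natDegree_pow_le.trans ?_
      have : (C s * X + C t : ℤ[X]).natDegree ≤ 1 := natDegree_linear_le
      nlinarith
    have h2 : (C x * (C b' * X - C a') : ℤ[X]).natDegree ≤ 1 := by compute_degree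
    have h3 : (C x' * (C a - C b * X) : ℤ[X]).natDegree ≤ 1 := by compute_degree
    refine (natDegree_add_le _ _).trans (max_le ?_ ?_)
    · refine natDegree_mul_le.trans ?_
      have := h1 u v
      omega
    · refine natDegree_mul_le.trans ?_
      have := h1 u' v'
      omega
  · simp only [map_add, map_mul, map_sub, map_pow, aeval_X, eq_intCast, map_intCast]
    rw [e1]
    have : (a : ℝ) - b * (a / b) = 0 := by field_simp; ring
    rw [this]
    push_cast
    rw [one_div, inv_pow]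
    field_simp
    ring
  · simp only [map_add, map_mul, map_sub, map_pow, aeval_X, eq_intCast, map_intCast]
    rw [e2]
    have : (b' : ℝ) * (a' / b') - a' = 0 := by field_simp; ring
    rw [this]
    push_cast
    rw [one_div, inv_pow]
    field_simp
    ring

lemma reduce (d : ℕ) (a b a' b' : ℤ) (hb : 0 < b) (hb' : 0 < b') (P : ℤ[X])
    (hP : P.natDegree ≤ d) (j : ℕ) :
    ∃ Q : ℤ[X], Q.natDegree ≤ d ∧ aeval ((a : ℝ) / b) Q = aeval ((a : ℝ) / b) P ∧
      aeval ((a' : ℝ) / b') Q = aeval ((a' : ℝ) / b') P ∧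
      ∀ i, 2 ≤ i → d < i + j → |Q.coeff i| ≤ b * b' := by
  have hbb : 0 < b * b' := mul_pos hb hb'
  have hbr : (b : ℝ) ≠ 0 := by exact_mod_cast hb.ne'
  have hbr' : (b' : ℝ) ≠ 0 := by exact_mod_cast hb'.ne'
  induction j with
  | zero =>
    refine ⟨P, hP, rfl, rfl, fun i _ hi => ?_⟩
    rw [coeff_eq_zero_of_natDegree_lt (by omega)]
    simpa using hbb.le
  | succ j ih =>
    obtain ⟨Q, hQ, h1, h2, h3⟩ := ih
    by_cases hj : j + 2 ≤ d
    · obtain ⟨e, rfl⟩ := Nat.exists_eq_add_of_le' hj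
      set w : ℤ := Q.coeff (e + 2) / (b * b') with hw
      set q : ℤ[X] := C (w * (b * b')) * X ^ (e + 2) - C (w * (a * b' + a' * b)) * X ^ (e + 1) +
        C (w * (a * a')) * X ^ e with hq
      refine ⟨Q - q, ?_, ?_, ?_, ?_⟩
      · refine (natDegree_sub_le _ _).trans (max_le hQ ?_)
        rw [hq]
        refine (natDegree_add_le _ _).trans (max_le ((natDegree_sub_le _ _).trans (max_le ?_ ?_)) ?_)
        all_goals exact (natDegree_C_mul_X_pow_le _ _).trans (by omega)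
      · rw [map_sub, h1, hq]
        simp only [map_add, map_mul, map_sub, map_pow, aeval_X, eq_intCast, map_intCast]
        have e1 : (a : ℝ) = b * ((a : ℝ) / b) := by field_simp
        generalize aeval ((a : ℝ) / b) P = z
        generalize (a : ℝ) / b = τ at e1
        rw [e1]
        ring
      · rw [map_sub, h2, hq]
        simp only [map_add, map_mul, map_sub, map_pow, aeval_X, eq_intCast, map_intCast]
        have e1 : (a' : ℝ) = b' * ((a' : ℝ) / b') := by field_simp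
        generalize aeval ((a' : ℝ) / b') P = z
        generalize (a' : ℝ) / b' = τ at e1
        rw [e1]
        ring
      · intro i hi hi'
        rw [coeff_sub, hq]
        simp only [coeff_add, coeff_sub, coeff_C_mul_X_pow]
        by_cases hie : i = e + 2
        · subst hie
          rw [if_pos rfl, if_neg (by omega), if_neg (by omega)]
          have e1 : Q.coeff (e + 2) - (w * (b * b') - 0 + 0) = Q.coeff (e + 2) % (b * b') := by
            rw [Int.emod_def, hw]; ring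
          rw [e1, abs_of_nonneg (Int.emod_nonneg _ hbb.ne')]
          exact (Int.emod_lt_of_pos _ hbb).le
        · rw [if_neg hie, if_neg (by omega), if_neg (by omega)]
          simpa using h3 i hi (by omega)
    · exact ⟨Q, hQ, h1, h2, fun i hi hi' => h3 i hi (by omega)⟩

/-- the lifting lemma for one binary form -/
lemma lift1 (d : ℕ) (hd : 1 ≤ d) (a b a' b' x x' : ℤ) (h : IsCoprime a b) (h' : IsCoprime a' b')
    (hb : 0 < b) (hb' : 0 < b') (T ζ W A : ℝ) (hT : 1 ≤ T) (hτ : |(a : ℝ) / b| ≤ T)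
    (hτ' : |(a' : ℝ) / b'| ≤ T) (hζ : 0 < ζ) (hζ1 : ζ ≤ 1)
    (hζτ : ζ ≤ |(a : ℝ) / b - (a' : ℝ) / b'|) (hW : (b : ℝ) * b' ≤ W)
    (hA : |((a * b' - a' * b : ℤ) : ℝ) * x| / (b : ℝ) ^ d +
      |((a * b' - a' * b : ℤ) : ℝ) * x'| / (b' : ℝ) ^ d ≤ A) :
    ∃ P : ℤ[X], hev d P a b = (a * b' - a' * b) * x ∧ hev d P a' b' = (a * b' - a' * b) * x' ∧
      ∀ i, |(P.coeff i : ℝ)| ≤ (1 + T) * (A + 2 * ((d + 1) * W * T ^ d)) / ζ := by
  obtain ⟨P, hP, e1, e2⟩ := lift0 d hd a b a' b' x x' h h' hb.ne' hb'.ne'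
  obtain ⟨Q, hQ, f1, f2, f3⟩ := reduce d a b a' b' hb hb' P hP (d + 1)
  have hbr : (0 : ℝ) < b := by exact_mod_cast hb
  have hbr' : (0 : ℝ) < b' := by exact_mod_cast hb'
  have hW0 : 0 < W := lt_of_lt_of_le (mul_pos hbr hbr') hW
  have hc : ∀ i, 2 ≤ i → |(Q.coeff i : ℝ)| ≤ W := fun i hi => by
    have := f3 i hi (by omega)
    have h2 : ((|Q.coeff i| : ℤ) : ℝ) ≤ ((b * b' : ℤ) : ℝ) := by exact_mod_cast this
    push_cast at h2
    linarith
  set E : ℝ := (d + 1) * W * T ^ d with hE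
  have hTd : 1 ≤ T ^ d := one_le_pow₀ hT
  have hWE : W ≤ E := by
    rw [hE]
    have : (0 : ℝ) ≤ d := Nat.cast_nonneg d
    nlinarith [mul_nonneg this hW0.le, mul_nonneg (mul_nonneg (add_nonneg this zero_le_one) hW0.le)
      (sub_nonneg.mpr hTd)]
  have key : ∀ τ : ℝ, |τ| ≤ T → |aeval τ Q - (Q.coeff 0 + Q.coeff 1 * τ)| ≤ E := by
    intro τ hτ
    obtain ⟨e, rfl⟩ := Nat.exists_eq_add_of_le' hd
    rw [aeval_eq_sum_range' (Nat.lt_succ_of_le hQ), Finset.sum_range_succ', Finset.sum_range_succ']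
    simp only [zsmul_eq_mul, zero_add, pow_one, pow_zero, mul_one]
    rw [show ∀ s u v : ℝ, s + u + v - (v + u) = s from fun s u v => by ring]
    refine (Finset.abs_sum_le_sum_abs _ _).trans ?_
    have : ∀ i ∈ range e, |(Q.coeff (i + 1 + 1) : ℝ) * τ ^ (i + 1 + 1)| ≤ W * T ^ (e + 1) := by
      intro i hi
      rw [abs_mul, abs_pow]
      refine mul_le_mul (hc _ (by omega)) ?_ (by positivity) hW0.le
      refine (pow_le_pow_left₀ (abs_nonneg _) hτ _).trans (pow_le_pow_right₀ hT ?_)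
      have := mem_range.mp hi
      omega
    refine (Finset.sum_le_card_nsmul _ _ _ this).trans ?_
    rw [card_range, nsmul_eq_mul, hE]
    push_cast
    have : 0 ≤ W * T ^ (e + 1) := by positivity
    nlinarith
  have g1 : aeval ((a : ℝ) / b) Q = ((a * b' - a' * b : ℤ) : ℝ) * x / (b : ℝ) ^ d := by
    rw [f1, ← e1]; field_simp
  have g2 : aeval ((a' : ℝ) / b') Q = ((a * b' - a' * b : ℤ) : ℝ) * x' / (b' : ℝ) ^ d := by
    rw [f2, ← e2]; field_simp
  have hA' : |aeval ((a : ℝ) / b) Q| + |aeval ((a' : ℝ) / b') Q| ≤ A := by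
    rw [g1, g2, abs_div, abs_div, abs_of_pos (pow_pos hbr d), abs_of_pos (pow_pos hbr' d)]
    exact hA
  refine ⟨Q, ?_, ?_, ?_⟩
  · have := hev_real d Q hQ a b hb.ne'
    rw [f1, e1] at this
    exact_mod_cast this
  · have := hev_real d Q hQ a' b' hb'.ne'
    rw [f2, e2] at this
    exact_mod_cast this
  · have k1 := key _ hτ
    have k2 := key _ hτ'
    set τ := (a : ℝ) / b
    set τ' := (a' : ℝ) / b'
    set z := aeval τ Q
    set z' := aeval τ' Q
    have hz := abs_nonneg z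
    have hz' := abs_nonneg z'
    have hE0 : 0 < E := lt_of_lt_of_le hW0 hWE
    have hA0 : 0 ≤ A := by linarith
    have c1 : |(Q.coeff 1 : ℝ)| ≤ (A + 2 * E) / ζ := by
      rw [le_div_iff₀ hζ]
      have : (Q.coeff 1 : ℝ) * (τ - τ') = z - z' - (z - (Q.coeff 0 + Q.coeff 1 * τ)) +
        (z' - (Q.coeff 0 + Q.coeff 1 * τ')) := by ring
      calc |(Q.coeff 1 : ℝ)| * ζ ≤ |(Q.coeff 1 : ℝ)| * |τ - τ'| :=
            mul_le_mul_of_nonneg_left hζτ (abs_nonneg _)
        _ = |z - z' - (z - (Q.coeff 0 + Q.coeff 1 * τ)) +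
            (z' - (Q.coeff 0 + Q.coeff 1 * τ'))| := by rw [← abs_mul, this]
        _ ≤ A + 2 * E := by
          have t1 := abs_add_le (z - z' - (z - (Q.coeff 0 + Q.coeff 1 * τ)))
            (z' - (Q.coeff 0 + Q.coeff 1 * τ'))
          have t2 := abs_sub (z - z') (z - (Q.coeff 0 + Q.coeff 1 * τ))
          have t3 := abs_sub z z'
          linarith
    have hM : A + 2 * E ≤ (A + 2 * E) / ζ := by
      rw [le_div_iff₀ hζ]; nlinarith
    have hM0 : 0 ≤ (A + 2 * E) / ζ := by positivity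
    have c0 : |(Q.coeff 0 : ℝ)| ≤ (A + 2 * E) / ζ + T * ((A + 2 * E) / ζ) := by
      have : (Q.coeff 0 : ℝ) = z - (z - (Q.coeff 0 + Q.coeff 1 * τ)) - Q.coeff 1 * τ := by ring
      have t1 := abs_sub (z - (z - (Q.coeff 0 + Q.coeff 1 * τ))) (Q.coeff 1 * τ)
      have t2 := abs_sub z (z - (Q.coeff 0 + Q.coeff 1 * τ))
      have t3 : |(Q.coeff 1 : ℝ) * τ| ≤ T * ((A + 2 * E) / ζ) := by
        rw [abs_mul, mul_comm]
        exact mul_le_mul hτ c1 (abs_nonneg _) (by linarith)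
      rw [← this] at t1
      linarith
    intro i
    rw [mul_div_assoc]
    have hTM : 0 ≤ T * ((A + 2 * E) / ζ) := by positivity
    rcases i with _ | _ | i
    · linarith
    · linarith
    · have := hc (i + 1 + 1) (by omega)
      linarith

end Pool.Agent.P.MP_b8021b_nt.VE.OmP
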