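import Pool.Agent.P.MP_b8021b_nt.VE.StN
import Pool.Agent.P.MP_d9fb17_nt.Basic

/-! N22: the Rankin-Selberg bound over squarefree integers. -/

namespace Pool.Agent.P.MP_b8021b_nt.VE

open NumberField Finset ArithmeticFunction
open scoped Classical ComplexConjugate

namespace Rs

theorem sq_dvd_iff {a b d : ℕ} (ha : Squarefree a) (hb : b ≠ 0) (hd : d ≠ 0) :
    d ^ 2 ∣ b ^ 2 * a ↔ d ∣ b := by
  refine ⟨fun h => ?_, fun h => (pow_dvd_pow_of_dvd h 2).mul_right a⟩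
  refine (Nat.factorization_prime_le_iff_dvd hd hb).1 fun p hp => ?_
  have h1 := (Nat.factorization_prime_le_iff_dvd (pow_ne_zero 2 hd)
    (mul_ne_zero (pow_ne_zero 2 hb) ha.ne_zero)).2 h p hp
  have h2 := ha.natFactorization_le_one p
  rw [Nat.factorization_mul (pow_ne_zero 2 hb) ha.ne_zero, Nat.factorization_pow,
    Nat.factorization_pow] at h1
  simp only [Finsupp.smul_apply, Finsupp.add_apply, smul_eq_mul] at h1
  omega

theorem sum_mu {j T : ℕ} (hj : j ≠ 0) (hT : j ≤ T) :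
    ∑ d ∈ Icc 1 T with d ^ 2 ∣ j, moebius d = if Squarefree j then 1 else 0 := by
  obtain ⟨a, b, rfl, ha⟩ := Nat.sq_mul_squarefree j
  have hb : b ≠ 0 := by rintro rfl; simp at hj
  have e : (Icc 1 T).filter (fun d => d ^ 2 ∣ b ^ 2 * a) = b.divisors := by
    ext d
    simp only [mem_filter, mem_Icc, Nat.mem_divisors]
    constructor
    · rintro ⟨⟨h1, -⟩, h⟩
      exact ⟨(sq_dvd_iff ha hb (by omega)).1 h, hb⟩
    · rintro ⟨h, -⟩
      have h0 : 0 < d := Nat.pos_of_dvd_of_pos h (Nat.pos_of_ne_zero hb)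
      refine ⟨⟨h0, ?_⟩, (sq_dvd_iff ha hb h0.ne').2 h⟩
      exact (Nat.le_of_dvd (Nat.pos_of_ne_zero hj) ((h.trans (dvd_pow_self b two_ne_zero)).mul_right a)).trans hT
  have h1 : ∑ d ∈ b.divisors, moebius d = if b = 1 then 1 else 0 := by
    have := congrArg (fun f : ArithmeticFunction ℤ => f b) moebius_mul_coe_zeta
    simpa only [coe_mul_zeta_apply, one_apply] using this
  rw [e, h1]
  by_cases h : b = 1
  · subst h; simp [ha]
  · rw [if_neg h, if_neg]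
    intro hs
    exact h (Nat.isUnit_iff.1 (hs b ⟨a, by ring⟩))

theorem sieve (w : ℕ → ℂ) (T D : ℕ) (hD : 1 ≤ D) (A M : ℝ) (hM : 0 ≤ M) (h0 : w 0 = 0)
    (hw : ∀ j < T, j ≠ 0 → ‖w j‖ ≤ M)
    (hS : ∀ d, 1 ≤ d → d ≤ D → ‖∑ j ∈ range T with d ^ 2 ∣ j, w j‖ ≤ A) :
    ‖∑ j ∈ range T with Squarefree j, w j‖ ≤ D * A + M * T / D := by
  have e : ∑ j ∈ range T with Squarefree j, w j =
      ∑ d ∈ Icc 1 T, (moebius d : ℂ) * ∑ j ∈ range T with d ^ 2 ∣ j, w j := by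
    simp only [mul_sum, sum_filter]
    rw [sum_comm]
    refine sum_congr rfl fun j hj => ?_
    rcases eq_or_ne j 0 with rfl | h
    · simp [h0]
    have := congrArg (fun z : ℤ => (z : ℂ) * w j) (sum_mu h (mem_range.1 hj).le)
    simp only [sum_filter, Int.cast_sum, Int.cast_ite, Int.cast_one, Int.cast_zero, sum_mul,
      ite_mul, one_mul, zero_mul] at this
    rw [← this]
    exact sum_congr rfl fun d _ => by split_ifs <;> simp
  have h1 : ∀ d, ‖(moebius d : ℂ) * ∑ j ∈ range T with d ^ 2 ∣ j, w j‖ ≤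
      ‖∑ j ∈ range T with d ^ 2 ∣ j, w j‖ := fun d => by
    rw [norm_mul]
    refine mul_le_of_le_one_left (norm_nonneg _) ?_
    rw [Complex.norm_intCast]
    exact_mod_cast abs_moebius_le_one
  have h2 : ∀ d : ℕ, ‖∑ j ∈ range T with d ^ 2 ∣ j, w j‖ ≤ M * T * ((d : ℝ) ^ 2)⁻¹ := fun d => by
    have : ∑ j ∈ range T with d ^ 2 ∣ j, w j = ∑ j ∈ (range T).erase 0 with d ^ 2 ∣ j, w j := by
      rw [filter_erase, sum_erase _ h0]
    rw [this]
    refine (norm_sum_le _ _).trans ((sum_le_card_nsmul _ _ M fun j hj => ?_).trans ?_)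
    · obtain ⟨k1, k2⟩ := mem_erase.1 (mem_filter.1 hj).1
      exact hw j (mem_range.1 k2) k1
    · have hc : (((range T).erase 0).filter fun j => d ^ 2 ∣ j).card ≤ T / d ^ 2 := by
        rw [← Nat.Ioc_filter_dvd_card_eq_div]
        refine card_le_card (filter_subset_filter _ fun j hj => ?_)
        obtain ⟨k1, k2⟩ := mem_erase.1 hj
        exact mem_Ioc.2 ⟨Nat.pos_of_ne_zero k1, (mem_range.1 k2).le⟩
      have hc' : ((((range T).erase 0).filter fun j => d ^ 2 ∣ j).card : ℝ) ≤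
          T * ((d : ℝ) ^ 2)⁻¹ := by
        refine (Nat.cast_le.2 hc).trans (Nat.cast_div_le.trans_eq ?_)
        rw [Nat.cast_pow, div_eq_mul_inv]
      rw [nsmul_eq_mul, mul_comm, mul_assoc]
      exact mul_le_mul_of_nonneg_left hc' hM
  have hsub : Icc 1 T ⊆ Icc 1 D ∪ Ioc D (max D T) := fun d hd => by
    simp only [mem_union, mem_Icc, mem_Ioc, le_max_iff] at hd ⊢
    omega
  rw [e]
  refine (norm_sum_le _ _).trans ((sum_le_sum fun d _ => h1 d).trans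
    ((sum_le_sum_of_subset_of_nonneg hsub fun _ _ _ => norm_nonneg _).trans ?_))
  rw [sum_union (disjoint_left.2 fun d h h' => by
    simp only [mem_Icc, mem_Ioc] at h h'; omega)]
  refine add_le_add ((sum_le_card_nsmul _ _ A fun d hd =>
    hS d (mem_Icc.1 hd).1 (mem_Icc.1 hd).2).trans_eq (by simp)) ?_
  refine (sum_le_sum fun d _ => h2 d).trans ?_
  rw [← mul_sum, div_eq_mul_inv]
  refine mul_le_mul_of_nonneg_left ((sum_Ioc_inv_sq_le_sub (by omega) (le_max_left D T)).trans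
    (sub_le_self _ (by positivity))) (by positivity)

end Rs

theorem p_rs (hBQ : S_BQ) (hRS4 : S_RS4) (hLam : S_Lam) : S_RS := by
  obtain ⟨C, hC⟩ := hRS4
  set a : ℝ := 1 / (8 * (C + 1)) with ha
  have ha0 : 0 < a := by positivity
  have ha1 : a * (C + 1) = 1 / 8 := by rw [ha]; field_simp
  have ha2 : a ≤ 1 / 8 := by nlinarith [mul_nonneg ha0.le (Nat.cast_nonneg (α := ℝ) C)]
  obtain ⟨C1, hC1, hdiv⟩ := MP_d9fb17_nt.div_bound (ε := a / 8) (by positivity)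
  obtain ⟨N, hN⟩ := pow_unbounded_of_one_lt (1 + 32 * C1 ^ 4) (by norm_num : (1 : ℝ) < 3)
  refine ⟨6 * C + N, a / 2, by positivity, ?_⟩
  intro L L' _ _ _ _ K K' n n' k k' χ χ' Q Y hn hn' hD hD' hQ hQ' hk hk' hY hχ hχ' hsq
  obtain ⟨M, _, _, F, ψ, hψ, hl, hadj⟩ := hBQ L L' K K' n n' k k' χ χ' Q hn hn' hD hD' hQ hQ' hχ hχ' hsq
  by_cases ht : IsTriv (n * n') ψ
  · exact Or.inl (hadj ht)
  right
  have hQ3 : (3 : ℝ) ≤ Q := le_trans (by exact_mod_cast hn) hQ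
  have hY0 : 0 < Y := by linarith
  have hYa : 1 ≤ Y ^ a := Real.one_le_rpow hY ha0.le
  set D : ℕ := ⌊Y ^ a⌋₊ with hDd
  have hD1 : 1 ≤ D := Nat.le_floor (by simpa using hYa)
  have hD1' : (1 : ℝ) ≤ D := by exact_mod_cast hD1
  have hD2 : (D : ℝ) ≤ Y ^ a := Nat.floor_le (by positivity)
  have hD3 : Y ^ a ≤ 2 * D := by linarith [Nat.lt_floor_add_one (Y ^ a)]
  have hT : (⌈3 * Y⌉₊ : ℝ) ≤ 4 * Y := by
    linarith [Nat.ceil_lt_add_one (show 0 ≤ 3 * Y by positivity)]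
  have hψ1 : ∀ I, ‖ψ I‖ ≤ 1 := fun I => by
    by_cases h : Cop (n * n') I
    · exact (hψ.norm_cop I h).le
    · rw [hψ.zero I h]; simp
  have key := Rs.sieve (fun j => (tent (j / Y - 3 / 2) : ℂ) * lam ψ j) ⌈3 * Y⌉₊ D hD1
    ((Q ^ 6 * D) ^ C * Y ^ (3 / 4 : ℝ)) (C1 ^ 4 * (4 * Y ^ (a / 2))) (by positivity)
    (by norm_num [tent]) (fun j hj h0 => by
      have t1 : ‖(tent (j / Y - 3 / 2) : ℂ)‖ ≤ 1 := by
        rw [Complex.norm_real, tent, Real.norm_eq_abs, abs_of_nonneg (le_max_left _ _)]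
        exact max_le zero_le_one (sub_le_self _ (abs_nonneg _))
      have t2 := (hLam M).2.1 ψ j (Nat.one_le_iff_ne_zero.2 h0) hψ1
      rw [F.deg] at t2
      have t3 : (j : ℝ) ≤ 4 * Y := (Nat.cast_le.2 hj.le).trans hT
      have t4 : ((j : ℝ) ^ (a / 8)) ^ 4 ≤ 4 * Y ^ (a / 2) := by
        rw [← Real.rpow_natCast, ← Real.rpow_mul (Nat.cast_nonneg j),
          show a / 8 * ((4 : ℕ) : ℝ) = a / 2 by push_cast; ring]
        refine (Real.rpow_le_rpow (Nat.cast_nonneg j) t3 (by positivity)).trans ?_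
        rw [Real.mul_rpow (by norm_num) hY0.le]
        refine mul_le_mul_of_nonneg_right ?_ (by positivity)
        exact (Real.rpow_le_rpow_of_exponent_le (by norm_num) (by linarith : a / 2 ≤ 1)).trans_eq
          (Real.rpow_one 4)
      rw [norm_mul]
      refine (mul_le_of_le_one_left (norm_nonneg _) t1).trans (t2.trans ?_)
      refine (pow_le_pow_left₀ (Nat.cast_nonneg _) (hdiv j h0) 4).trans ?_
      rw [mul_pow]
      exact mul_le_mul_of_nonneg_left t4 (by positivity))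
    fun d hd hd' => by
      refine (hC M Q F (n * n') d (k - k') (k + k') ψ Y (by linarith) (by nlinarith) hd hY hψ
        ht).trans (mul_le_mul_of_nonneg_right (pow_le_pow_left₀ (by positivity) ?_ C)
          (by positivity))
      have u1 : ((n * n' : ℕ) : ℝ) ≤ Q ^ 2 := by
        rw [Nat.cast_mul, sq]
        exact mul_le_mul hQ hQ' (Nat.cast_nonneg _) (by linarith)
      have u2 : ((|k - k'| : ℤ) : ℝ) + ((|k + k'| : ℤ) : ℝ) + 1 ≤ Q ^ 3 := by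
        push_cast
        have := abs_sub (k : ℝ) k'
        have := abs_add_le (k : ℝ) k'
        nlinarith [mul_le_mul hQ3 hQ3 (by norm_num) (by linarith : (0 : ℝ) ≤ Q)]
      have u3 : (d : ℝ) ≤ D := by exact_mod_cast hd'
      calc _ ≤ Q * Q ^ 2 * D * Q ^ 3 := by gcongr
        _ = _ := by ring
  have e : ∑ j ∈ range ⌈3 * Y⌉₊ with Squarefree j,
      (tent (j / Y - 3 / 2) : ℂ) * (lam χ j * conj (lam χ' j)) =
      ∑ j ∈ range ⌈3 * Y⌉₊ with Squarefree j, (tent (j / Y - 3 / 2) : ℂ) * lam ψ j :=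
    sum_congr rfl fun j hj => by rw [hl j (mem_filter.1 hj).2]
  rw [e]
  refine key.trans ?_
  have hQ6 : 1 ≤ Q ^ (6 * C) := one_le_pow₀ (by linarith)
  have m1 : (D : ℝ) * ((Q ^ 6 * D) ^ C * Y ^ (3 / 4 : ℝ)) ≤ Q ^ (6 * C) * Y ^ (1 - a / 2) := by
    have v1 : (D : ℝ) ^ (C + 1) ≤ Y ^ (1 / 8 : ℝ) := by
      refine (pow_le_pow_left₀ (by positivity) hD2 _).trans_eq ?_
      rw [← Real.rpow_natCast, ← Real.rpow_mul hY0.le, Nat.cast_add, Nat.cast_one, ha1]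
    have v2 : Y ^ (1 / 8 : ℝ) * Y ^ (3 / 4 : ℝ) ≤ Y ^ (1 - a / 2) := by
      rw [← Real.rpow_add hY0]
      exact Real.rpow_le_rpow_of_exponent_le hY (by linarith)
    calc _ = Q ^ (6 * C) * ((D : ℝ) ^ (C + 1) * Y ^ (3 / 4 : ℝ)) := by rw [mul_pow, ← pow_mul]; ring
      _ ≤ Q ^ (6 * C) * (Y ^ (1 / 8 : ℝ) * Y ^ (3 / 4 : ℝ)) := by gcongr
      _ ≤ _ := by gcongr
  have m2 : C1 ^ 4 * (4 * Y ^ (a / 2)) * (⌈3 * Y⌉₊ : ℕ) / D ≤ 32 * C1 ^ 4 * Y ^ (1 - a / 2) := by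
    rw [div_le_iff₀ (by positivity)]
    have v1 : Y ^ (a / 2) * Y = Y ^ (1 - a / 2) * Y ^ a := by
      rw [← Real.rpow_add hY0, ← Real.rpow_add_one hY0.ne']
      congr 1; ring
    calc _ ≤ C1 ^ 4 * (4 * Y ^ (a / 2)) * (4 * Y) := by gcongr
      _ = 16 * C1 ^ 4 * Y ^ (1 - a / 2) * Y ^ a := by rw [mul_assoc _ _ (Y ^ a), ← v1]; ring
      _ ≤ 16 * C1 ^ 4 * Y ^ (1 - a / 2) * (2 * D) := by gcongr
      _ = _ := by ring
  have m3 : 1 + 32 * C1 ^ 4 ≤ Q ^ N := hN.le.trans (pow_le_pow_left₀ (by norm_num) hQ3 N)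
  have hp : 0 ≤ Y ^ (1 - a / 2) := by positivity
  calc _ ≤ Q ^ (6 * C) * Y ^ (1 - a / 2) + 32 * C1 ^ 4 * Y ^ (1 - a / 2) := add_le_add m1 m2
    _ ≤ Q ^ (6 * C) * Y ^ (1 - a / 2) + Q ^ (6 * C) * (32 * C1 ^ 4 * Y ^ (1 - a / 2)) :=
      add_le_add le_rfl (le_mul_of_one_le_left (by positivity) hQ6)
    _ = Q ^ (6 * C) * (1 + 32 * C1 ^ 4) * Y ^ (1 - a / 2) := by ring
    _ ≤ Q ^ (6 * C) * Q ^ N * Y ^ (1 - a / 2) := by gcongr
    _ = _ := by rw [pow_add]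

end Pool.Agent.P.MP_b8021b_nt.VE
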