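import Pool.Agent.P.MP_b8021b_nt.VE.StN
import Pool.Agent.P.MP_0ad054_nt.An.Lup
import Pool.Agent.P.MP_0ad054_nt.An.Siegel
import Pool.Agent.P.MP_0ad054_nt.An.Zfree
import Pool.Agent.P.MP_0ad054_nt.An.Tauber
import Pool.Agent.P.MP_0ad054_nt.An.SW

/-! N0: primes in short multiplicative intervals. -/

namespace Pool.Agent.P.MP_b8021b_nt.VE

open Finset Filter
open scoped Classical

namespace Theta

open Pool.Agent.P.MP_0ad054_nt.An in
theorem pnt0 : Pool.Agent.P.MP_0ad054_nt.An.S_PNT := pnt lup (zfree lup (siegel lup)) tauber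

theorem psi_eq (X : ℕ) :
    Chebyshev.psi X = ∑ n ∈ Icc 1 X, ArithmeticFunction.vonMangoldt n := by
  unfold Chebyshev.psi
  rw [Nat.floor_natCast]
  rfl

theorem lv_eq {y : ℝ} {N i q : ℕ} (h : q ∈ strat y N i) : lv y N q = i := by
  unfold strat at h
  have h2 := (mem_filter.1 h).2.2
  unfold lv
  rw [← Int.floor_toNat, h2]
  rfl

/-- primes of an integer interval inside the stratum -/
theorem sub_le {y : ℝ} (hy : 0 < y) {N i : ℕ} (hN : 1 ≤ N) (hi : i < N) {X₁ X₂ : ℕ}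
    (h12 : X₁ ≤ X₂) (h1 : y * Real.exp (i / N) < X₁ + 1)
    (h2 : (X₂ : ℝ) < y * Real.exp ((i + 1) / N)) :
    Chebyshev.theta X₂ - Chebyshev.theta X₁ ≤ ∑ q ∈ strat y N i, Real.log q := by
  have hNp : (0 : ℝ) < N := by exact_mod_cast hN
  unfold Chebyshev.theta
  rw [Nat.floor_natCast, Nat.floor_natCast, sum_filter, sum_filter,
    ← sum_Ioc_consecutive _ (Nat.zero_le X₁) h12, add_sub_cancel_left, ← sum_filter]
  refine sum_le_sum_of_subset_of_nonneg ?_ fun q _ _ => Real.log_natCast_nonneg q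
  intro q hq
  obtain ⟨hq1, hq2⟩ := mem_filter.1 hq
  obtain ⟨hq3, hq4⟩ := mem_Ioc.1 hq1
  have hq5 : (X₁ : ℝ) + 1 ≤ q := by exact_mod_cast hq3
  have hq6 : (q : ℝ) ≤ X₂ := by exact_mod_cast hq4
  have hq0 : (0 : ℝ) < q := by exact_mod_cast hq2.pos
  have he : Real.exp ((i + 1) / N) < 3 := by
    have h3 : ((i : ℝ) + 1) / N ≤ 1 := by
      rw [div_le_one hNp]; exact_mod_cast hi
    have := Real.exp_le_exp.2 h3
    have := Real.exp_one_lt_d9
    linarith
  unfold strat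
  refine mem_filter.2 ⟨mem_range.2 ?_, hq2, ?_⟩
  · have h4 : (q : ℝ) ≤ 3 * y := by nlinarith
    have h5 : (q : ℝ) ≤ ⌈3 * y⌉₊ := h4.trans (Nat.le_ceil _)
    have h6 : q ≤ ⌈3 * y⌉₊ := by exact_mod_cast h5
    omega
  · rw [Int.floor_eq_iff]
    have hqy : 0 < (q : ℝ) / y := div_pos hq0 hy
    constructor
    · have h7 : (i : ℝ) / N ≤ Real.log (q / y) := by
        rw [Real.le_log_iff_exp_le hqy, le_div_iff₀ hy]; linarith
      rw [div_le_iff₀ hNp] at h7
      push_cast; linarith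
    · have h7 : Real.log (q / y) < ((i : ℝ) + 1) / N := by
        rw [Real.log_lt_iff_lt_exp hqy, div_lt_iff₀ hy]; linarith
      rw [lt_div_iff₀ hNp] at h7
      push_cast; linarith

theorem small (A : ℕ) (C : ℝ) : ∃ y₀ : ℝ, ∀ y, y₀ ≤ y → 4 ≤ y ∧ C ≤ Real.log y ∧
    Real.log y ^ (A + 1) ≤ Real.sqrt y / 100 := by
  have h1 := (isLittleO_log_rpow_rpow_atTop ((A + 1 : ℕ) : ℝ)
    (by norm_num : (0 : ℝ) < 1 / 2)).bound (by norm_num : (0 : ℝ) < 1 / 100)
  have h2 := Real.tendsto_log_atTop.eventually_ge_atTop C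
  obtain ⟨y₀, h⟩ := eventually_atTop.1 ((h1.and h2).and (eventually_ge_atTop (4 : ℝ)))
  refine ⟨y₀, fun y hy => ?_⟩
  obtain ⟨⟨h3, h4⟩, h5⟩ := h y hy
  refine ⟨h5, h4, ?_⟩
  rw [Real.rpow_natCast, ← Real.sqrt_eq_rpow, Real.norm_eq_abs, Real.norm_eq_abs,
    abs_of_nonneg (Real.sqrt_nonneg y)] at h3
  have := le_abs_self (Real.log y ^ (A + 1))
  linarith

theorem sq_ge {y x : ℝ} (hy : 4 ≤ y) (h : y - 1 ≤ x) : y ≤ x ^ 2 := by nlinarith

theorem le_sq {y x : ℝ} (hy : 4 ≤ y) (h : x ≤ 3 * y) : x ≤ y ^ 2 := by nlinarith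

theorem lower (A : ℕ) : ∃ y₀ : ℝ, ∀ y, y₀ ≤ y → 4 ≤ y ∧ ∀ N : ℕ, 1 ≤ N →
    (N : ℝ) ≤ Real.log y ^ A → ∀ i < N, y / (2 * N) ≤ ∑ q ∈ strat y N i, Real.log q := by
  obtain ⟨C, hC, hP⟩ := pnt0 (A + 1)
  obtain ⟨y₀, h₀⟩ := small A (max 1 (24 * C * 2 ^ (A + 1)))
  refine ⟨y₀, fun y hy => ?_⟩
  obtain ⟨hy4, hl, hs⟩ := h₀ y hy
  refine ⟨hy4, fun N hN hNA i hi => ?_⟩
  have hl1 : 1 ≤ Real.log y := (le_max_left _ _).trans hl
  have hl2 : 24 * C * 2 ^ (A + 1) ≤ Real.log y := (le_max_right _ _).trans hl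
  have hNp : (0 : ℝ) < N := by exact_mod_cast hN
  have hy0 : 0 < y := by linarith
  set l := Real.log y with hldef
  set a := y * Real.exp (i / N) with ha
  set b := y * Real.exp ((i + 1) / N) with hb
  have he1 : 1 ≤ Real.exp ((i : ℝ) / N) := Real.one_le_exp (by positivity)
  have hya : y ≤ a := by rw [ha]; nlinarith
  have hab : a + y / N ≤ b := by
    have h1 : Real.exp (((i : ℝ) + 1) / N) = Real.exp (i / N) * Real.exp (1 / N) := by
      rw [← Real.exp_add, add_div]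
    have h2 : 1 / (N : ℝ) + 1 ≤ Real.exp (1 / N) := Real.add_one_le_exp _
    have h3 : 0 < 1 / (N : ℝ) := by positivity
    have h4 : y / N = y * (1 / N) := by ring
    rw [hb, h1, h4, ← mul_assoc, ← ha]
    nlinarith
  have hb3 : b ≤ 3 * y := by
    have h3 : ((i : ℝ) + 1) / N ≤ 1 := by
      rw [div_le_one hNp]; exact_mod_cast hi
    have h4 := Real.exp_le_exp.2 h3
    have h5 := Real.exp_one_lt_d9
    rw [hb]; nlinarith
  have hlA : 1 ≤ l ^ A := one_le_pow₀ hl1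
  have hsq : Real.sqrt y * Real.sqrt y = y := Real.mul_self_sqrt hy0.le
  have hsq1 : 1 ≤ Real.sqrt y := by
    rw [Real.one_le_sqrt]; linarith
  have hpow : l ^ (A + 1) = l ^ A * l := pow_succ l A
  have hyl : y / l ^ A ≤ y / N := div_le_div_of_nonneg_left hy0.le hNp hNA
  -- the quantity `u = y / l ^ A`
  set u := y / l ^ A with hu
  have hul : u * l ^ A = y := by rw [hu]; field_simp
  have hu0 : 0 < u := by rw [hu]; positivity
  have hu100 : 100 * Real.sqrt y * l ≤ u := by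
    rw [hu, le_div_iff₀ (by positivity)]
    nlinarith
  have hu1 : 100 ≤ u := by nlinarith
  obtain ⟨X₂, hX₂⟩ : ∃ X₂ : ℕ, ⌈b⌉₊ = X₂ + 1 :=
    Nat.exists_eq_succ_of_ne_zero (by
      have : 0 < ⌈b⌉₊ := Nat.ceil_pos.2 (by positivity)
      omega)
  have hX2a : b ≤ X₂ + 1 := by
    have := Nat.le_ceil b
    rw [hX₂] at this; exact_mod_cast this
  have hX2b : (X₂ : ℝ) < b := by
    have := Nat.ceil_lt_add_one (show 0 ≤ b by positivity)
    rw [hX₂] at this; push_cast at this; linarith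
  set X₁ := ⌊a⌋₊ with hX₁
  have hX1a : (X₁ : ℝ) ≤ a := Nat.floor_le (by positivity)
  have hX1b : a < X₁ + 1 := Nat.lt_floor_add_one a
  have h12r : (X₁ : ℝ) ≤ X₂ := by linarith
  have h12 : X₁ ≤ X₂ := by exact_mod_cast h12r
  have hX1c : (2 : ℝ) ≤ X₁ := by linarith
  have hX1d : 2 ≤ X₁ := by exact_mod_cast hX1c
  refine le_trans ?_ (sub_le hy0 hN hi h12 hX1b hX2b)
  -- the error terms
  have hE : ∀ X : ℕ, X₁ ≤ X → X ≤ X₂ → |Chebyshev.psi X - X| ≤ u / 8 := by
    intro X hX1 hX2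
    have hXa : (X₁ : ℝ) ≤ X := by exact_mod_cast hX1
    have hXb : (X : ℝ) ≤ X₂ := by exact_mod_cast hX2
    have h1 := hP X (hX1d.trans hX1)
    rw [psi_eq]
    refine h1.trans ?_
    have hlog : l / 2 ≤ Real.log X := by
      have h9 : y - 1 ≤ (X : ℝ) := by linarith
      have h2 : y ≤ (X : ℝ) ^ 2 := sq_ge hy4 h9
      have h3 := Real.log_le_log hy0 h2
      rw [Real.log_pow] at h3
      push_cast at h3; linarith
    have h4 : (l / 2) ^ (A + 1) ≤ Real.log X ^ (A + 1) := pow_le_pow_left₀ (by positivity) hlog _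
    have h5 : 0 < (l / 2) ^ (A + 1) := by positivity
    refine (div_le_div₀ (by positivity) (show C * X ≤ C * (3 * y) from mul_le_mul_of_nonneg_left (by linarith) hC.le) h5 h4).trans ?_
    rw [div_le_iff₀ h5, div_pow, hpow]
    have h6 : u / 8 * (l ^ A * l / 2 ^ (A + 1)) = y * (l / 2 ^ (A + 1)) / 8 := by
      rw [← hul]; ring
    have h7 : 24 * C ≤ l / 2 ^ (A + 1) := by
      rw [le_div_iff₀ (by positivity)]; exact hl2
    have h8 := mul_le_mul_of_nonneg_left h7 hy0.le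
    rw [h6]; linarith
  have hE1 := abs_le.1 (hE X₁ le_rfl h12)
  have hE2 := abs_le.1 (hE X₂ h12 le_rfl)
  have hT1 := Chebyshev.theta_le_psi (X₁ : ℝ)
  have hT2 := abs_le.1 (Chebyshev.abs_psi_sub_theta_le_sqrt_mul_log (x := (X₂ : ℝ)) (by linarith))
  have hT3 : Real.sqrt X₂ ≤ 2 * Real.sqrt y := by
    rw [Real.sqrt_le_left (by positivity), mul_pow, Real.sq_sqrt hy0.le]; linarith
  have hT4 : Real.log X₂ ≤ 2 * l := by
    have h2 : (X₂ : ℝ) ≤ y ^ 2 := le_sq hy4 (by linarith)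
    have h3 := Real.log_le_log (by linarith) h2
    rw [Real.log_pow] at h3
    push_cast at h3; linarith
  have hT5 : 0 ≤ Real.log (X₂ : ℝ) := Real.log_natCast_nonneg _
  have hT6 : 2 * Real.sqrt X₂ * Real.log X₂ ≤ 8 * Real.sqrt y * l := by
    have := mul_le_mul hT3 hT4 hT5 (by positivity)
    linarith
  have hh : y / (2 * N) = y / N / 2 := by field_simp
  rw [hh]
  linarith

end Theta

theorem p_theta : S_Theta := by
  intro A
  obtain ⟨y₀, h⟩ := Theta.lower A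
  refine ⟨y₀, fun y hy N hN hNA => ?_⟩
  obtain ⟨hy4, hlow⟩ := h y hy
  have hlow := hlow N hN hNA
  have hNp : (0 : ℝ) < N := by exact_mod_cast hN
  have hy0 : 0 < y := by linarith
  have hpos : 0 < y / (2 * N) := by positivity
  refine ⟨hlow, fun i hi => ?_, fun i q hq => Theta.lv_eq hq, fun q hq => ?_⟩
  · have h1 : ∀ q ∈ strat y N i, wt y N q = Real.log q / ∑ q' ∈ strat y N i, Real.log q' := by
      intro q hq
      unfold wt
      rw [Theta.lv_eq hq]
    rw [sum_congr rfl h1, ← sum_div, div_self (hpos.trans_le (hlow i hi)).ne']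
  · unfold Pset at hq
    obtain ⟨i, hi, hq⟩ := mem_biUnion.1 hq
    have hi := mem_range.1 hi
    have hlv := Theta.lv_eq hq
    have hq' := hq
    unfold strat at hq'
    obtain ⟨-, hp, hfl⟩ := mem_filter.1 hq'
    rw [Int.floor_eq_iff] at hfl
    obtain ⟨hf1, hf2⟩ := hfl
    push_cast at hf1 hf2
    have hq0 : (0 : ℝ) < q := by exact_mod_cast hp.pos
    have hqy : 0 < (q : ℝ) / y := div_pos hq0 hy0
    have hi0 : (0 : ℝ) ≤ i := Nat.cast_nonneg i
    have hiN : (i : ℝ) + 1 ≤ N := by exact_mod_cast hi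
    have hl0 : 0 ≤ Real.log (q / y) := by
      by_contra hc
      push Not at hc
      nlinarith
    have hl1 : Real.log (q / y) < 1 := by
      by_contra hc
      push Not at hc
      nlinarith
    have hyq : y ≤ q := by
      rw [Real.log_nonneg_iff hqy, one_le_div hy0] at hl0
      exact hl0
    have hq3 : (q : ℝ) < 3 * y := by
      rw [Real.log_lt_iff_lt_exp hqy, div_lt_iff₀ hy0] at hl1
      have := Real.exp_one_lt_d9
      nlinarith
    have hS := hlow i hi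
    have hlq : Real.log q ≤ 2 * Real.log y := by
      have h2 : (q : ℝ) ≤ y ^ 2 := by nlinarith
      have h3 := Real.log_le_log hq0 h2
      rw [Real.log_pow] at h3
      push_cast at h3; linarith
    have hlq0 : 0 ≤ Real.log (q : ℝ) := Real.log_natCast_nonneg q
    refine ⟨hp, hyq, hq3, hlv ▸ hi, hlv ▸ hq, ?_, ?_⟩
    · unfold wt
      rw [hlv]
      exact div_nonneg hlq0 (hpos.trans_le hS).le
    · unfold wt
      rw [hlv]
      refine (div_le_div₀ (by linarith) hlq hpos hS).trans (le_of_eq ?_)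
      field_simp
      ring

end Pool.Agent.P.MP_b8021b_nt.VE
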