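import Pool.Agent.P.MP_b8021b_nt.VE.StN

/-! Basic facts on imaginary quadratic fields. -/

namespace Pool.Agent.P.MP_b8021b_nt.VE

open NumberField
open scoped ComplexConjugate

namespace Iqb

variable {L : Type} [Field L] [NumberField L] (K : IQ L)

theorem D_ne : K.D ≠ 0 := K.neg.ne

theorem sig_sq : K.σ K.ω ^ 2 = (K.D : ℂ) := by
  have h := congrArg (fun β : 𝓞 L => K.σ β) K.sq
  simpa using h

theorem sig_re : (K.σ K.ω).re = 0 ∧ (K.σ K.ω).im ^ 2 = -(K.D : ℝ) := by
  have h := sig_sq K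
  have h1 := congrArg Complex.re h
  have h2 := congrArg Complex.im h
  simp only [sq, Complex.mul_re, Complex.mul_im, Complex.intCast_re, Complex.intCast_im] at h1 h2
  have hD : (K.D : ℝ) < 0 := by exact_mod_cast K.neg
  have h3 : (K.σ K.ω).re * (K.σ K.ω).im = 0 := by linarith
  rcases mul_eq_zero.1 h3 with h4 | h4
  · rw [h4] at h1
    exact ⟨h4, by rw [sq]; linarith⟩
  · rw [h4] at h1
    nlinarith [mul_self_nonneg (K.σ K.ω).re]

theorem sig_lin (a b : ℤ) : K.σ ((a : 𝓞 L) + b * K.ω : 𝓞 L) = a + b * K.σ K.ω := by simp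

theorem indep (a b : ℤ) (h : (a : 𝓞 L) + b * K.ω = 0) : a = 0 ∧ b = 0 := by
  have h0 := sig_lin K a b
  rw [h] at h0
  have h1 := congrArg Complex.re h0
  have h2 := congrArg Complex.im h0
  obtain ⟨hr, hi⟩ := sig_re K
  simp [hr] at h1 h2
  have hD : (K.D : ℝ) < 0 := by exact_mod_cast K.neg
  refine ⟨by exact_mod_cast h1.symm, ?_⟩
  rcases h2 with h2 | h2
  · exact h2
  · rw [h2] at hi
    linarith

theorem norm_lin (a b : ℤ) :
    ‖K.σ ((a : 𝓞 L) + b * K.ω : 𝓞 L)‖ ^ 2 = a ^ 2 - b ^ 2 * K.D := by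
  obtain ⟨hr, hi⟩ := sig_re K
  rw [sig_lin, Complex.sq_norm, Complex.normSq_apply]
  simp only [Complex.add_re, Complex.mul_re, Complex.add_im, Complex.mul_im, Complex.intCast_re,
    Complex.intCast_im, hr]
  linear_combination (b : ℝ) ^ 2 * hi

theorem ext2 {a b a' b' : ℤ} (h : (a : 𝓞 L) + b * K.ω = a' + b' * K.ω) : a = a' ∧ b = b' := by
  have := indep K (a - a') (b - b') (by push_cast; linear_combination h)
  constructor <;> linarith [this.1, this.2]

/-- some multiple of an integer lies in the order generated by `ω` -/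
theorem exists_mul (β : 𝓞 L) : ∃ m a b : ℤ, m ≠ 0 ∧ m * β = a + b * K.ω := by
  have hli : LinearIndependent ℚ ![(1 : L), (K.ω : L)] := by
    refine LinearIndependent.pair_iff.2 fun s t h => ?_
    have h0 := congrArg K.σ h
    obtain ⟨hr, hi⟩ := sig_re K
    have h1 := congrArg Complex.re h0
    have h2 := congrArg Complex.im h0
    simp [Rat.smul_def, hr] at h1 h2
    have hD : (K.D : ℝ) < 0 := by exact_mod_cast K.neg
    refine ⟨h1, ?_⟩
    rcases h2 with h2 | h2
    · exact h2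
    · rw [h2] at hi
      linarith
  let b := basisOfLinearIndependentOfCardEqFinrank hli (by simp [K.deg])
  have hb := b.sum_repr (β : L)
  simp only [b, Fin.sum_univ_two, coe_basisOfLinearIndependentOfCardEqFinrank,
    Matrix.cons_val_zero, Matrix.cons_val_one, Rat.smul_def] at hb
  generalize (basisOfLinearIndependentOfCardEqFinrank hli _).repr (β : L) 0 = s at hb
  generalize (basisOfLinearIndependentOfCardEqFinrank hli _).repr (β : L) 1 = t at hb
  refine ⟨s.den * t.den, s.num * t.den, t.num * s.den, by positivity, ?_⟩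
  apply RingOfIntegers.ext
  have hs : (s.num : L) = s * s.den := by
    rw [Rat.cast_def]; field_simp
  have ht : (t.num : L) = t * t.den := by
    rw [Rat.cast_def]; field_simp
  simp only [map_mul, map_add, map_intCast, map_natCast, Int.cast_mul, Int.cast_natCast]
  rw [hs, ht]
  change _ * (β : L) = _ + _ * (K.ω : L)
  rw [← hb]
  ring

theorem c_lin (a b : ℤ) : K.c ((a : 𝓞 L) + b * K.ω) = a - b * K.ω := by
  simp [K.cω, sub_eq_add_neg]

theorem c_mul {β : 𝓞 L} {m a b : ℤ} (h : m * β = a + b * K.ω) : m * K.c β = a - b * K.ω := by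
  rw [← c_lin, ← h]; simp

theorem cc (β : 𝓞 L) : K.c (K.c β) = β := by
  obtain ⟨m, a, b, hm, h⟩ := exists_mul K β
  have h1 := c_mul K h
  have h2 := c_mul K (β := K.c β) (a := a) (b := -b) (m := m) (by rw [h1]; push_cast; ring)
  have hm' : (m : 𝓞 L) ≠ 0 := by exact_mod_cast hm
  apply mul_left_cancel₀ hm'
  rw [h2, h]; push_cast; ring

theorem sig_c (β : 𝓞 L) : K.σ (K.c β) = conj (K.σ β) := by
  obtain ⟨m, a, b, hm, h⟩ := exists_mul K β
  have h1 := congrArg (fun β : 𝓞 L => K.σ β) (c_mul K h)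
  have h2 := congrArg (fun β : 𝓞 L => conj (K.σ β)) h
  have hw : conj (K.σ K.ω) = -K.σ K.ω := by
    apply Complex.ext <;> simp [(sig_re K).1]
  simp only [map_mul, map_add, map_sub, map_intCast] at h1 h2
  have hm' : (m : ℂ) ≠ 0 := by exact_mod_cast hm
  apply mul_left_cancel₀ hm'
  rw [h1, h2, hw]; ring

/-- an algebraic integer which is rational is an integer -/
theorem int_of_mul {γ : 𝓞 L} {m a : ℤ} (hm : m ≠ 0) (h : m * γ = a) : ∃ n : ℤ, γ = n := by
  have h1 : (γ : L) = algebraMap ℚ L (a / m) := by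
    have h2 := congrArg (fun β : 𝓞 L => (β : L)) h
    have hm' : (m : L) ≠ 0 := by exact_mod_cast hm
    simp only [map_mul, map_intCast] at h2
    simp only [map_div₀, map_intCast]
    field_simp
    exact (mul_comm _ _).trans h2
  have h3 : IsIntegral ℤ (algebraMap ℚ L (a / m)) := h1 ▸ γ.isIntegral_coe
  rw [isIntegral_algebraMap_iff (algebraMap ℚ L).injective] at h3
  obtain ⟨n, hn⟩ := IsIntegrallyClosed.isIntegral_iff.1 h3
  refine ⟨n, RingOfIntegers.ext ?_⟩
  rw [h1, ← hn]; simp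

theorem int_of_fix {γ : 𝓞 L} (h : K.c γ = γ) : ∃ n : ℤ, γ = n := by
  obtain ⟨m, a, b, hm, h1⟩ := exists_mul K γ
  have h2 := c_mul K h1
  rw [h] at h2
  exact int_of_mul (m := 2 * m) (a := 2 * a) (by omega) (by push_cast; linear_combination h1 + h2)

theorem coord (β : 𝓞 L) : ∃ a b : ℤ, 2 * K.D * β = a + b * K.ω := by
  obtain ⟨a, ha⟩ := int_of_fix K (γ := β + K.c β) (by rw [map_add, cc, add_comm])
  obtain ⟨b, hb⟩ := int_of_fix K (γ := (β - K.c β) * K.ω)
    (by rw [map_mul, map_sub, cc, K.cω]; ring)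
  refine ⟨K.D * a, b, ?_⟩
  push_cast
  rw [← ha, ← hb, ← K.sq]
  ring

theorem absNorm_map (I : Ideal (𝓞 L)) : Ideal.absNorm (I.map K.c) = Ideal.absNorm I := by
  rw [Ideal.absNorm_apply, Ideal.absNorm_apply, Submodule.cardQuot_apply, Submodule.cardQuot_apply]
  exact (Nat.card_congr (Ideal.quotientEquiv I (I.map K.c) K.c rfl).toEquiv).symm

include K in
theorem rank : Module.finrank ℤ (𝓞 L) = 2 := by rw [RingOfIntegers.rank, K.deg]

include K in
theorem absNorm_nat (n : ℕ) : Ideal.absNorm (Ideal.span {(n : 𝓞 L)}) = n ^ 2 := by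
  rw [Ideal.absNorm_span_natCast, rank K]

include K in
theorem absNorm_int (n : ℤ) : Ideal.absNorm (Ideal.span {(n : 𝓞 L)}) = n.natAbs ^ 2 := by
  rw [← absNorm_nat K]
  congr 1
  rcases Int.natAbs_eq n with h | h
  · rw [h]; simp
  · rw [h]; simp [Ideal.span_singleton_neg]

theorem mul_map_c (I : Ideal (𝓞 L)) :
    I * I.map K.c = Ideal.span {(Ideal.absNorm I : 𝓞 L)} := by
  obtain ⟨g, hg⟩ : ∃ g : ℤ, (I * I.map K.c).comap (Int.castRingHom (𝓞 L)) = Ideal.span {g} :=
    ⟨_, (Ideal.span_singleton_generator _).symm⟩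
  have hdv : ∀ n : ℤ, (n : 𝓞 L) ∈ I * I.map K.c ↔ g ∣ n := fun n => by
    rw [← Ideal.mem_span_singleton, ← hg, Ideal.mem_comap]; simp
  have hm : ∀ α ∈ I, ∀ β ∈ I, α * K.c β ∈ I * I.map K.c := fun α hα β hβ =>
    Ideal.mul_mem_mul hα (Ideal.mem_map_of_mem _ hβ)
  have key : I * I.map K.c = Ideal.span {(g : 𝓞 L)} := by
    refine le_antisymm (Ideal.mul_le.2 fun α hα β' hβ' => ?_) ?_
    · obtain ⟨β, hβ, rfl⟩ := (Ideal.mem_map_iff_of_surjective K.c K.c.surjective).1 hβ'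
      obtain ⟨T, hT⟩ := int_of_fix K (γ := α * K.c β + β * K.c α)
        (by simp only [map_add, map_mul, cc]; ring)
      obtain ⟨A, hA⟩ := int_of_fix K (γ := α * K.c α) (by simp only [map_mul, cc]; ring)
      obtain ⟨B, hB⟩ := int_of_fix K (γ := β * K.c β) (by simp only [map_mul, cc]; ring)
      obtain ⟨T', rfl⟩ := (hdv T).1 (hT ▸ add_mem (hm α hα β hβ) (hm β hβ α hα))
      obtain ⟨A', rfl⟩ := (hdv A).1 (hA ▸ hm α hα α hα)
      obtain ⟨B', rfl⟩ := (hdv B).1 (hB ▸ hm β hβ β hβ)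
      have hq : (α * K.c β) ^ 2 - g * T' * (α * K.c β) + g ^ 2 * (A' * B') = 0 := by
        push_cast at hT hA hB
        linear_combination (α * K.c β) * hT - (β * K.c β) * hA - (g * A') * hB
      rw [Ideal.mem_span_singleton]
      generalize α * K.c β = γ at hq
      by_cases hg0 : g = 0
      · subst hg0
        have : γ = 0 := by simpa using hq
        simp [this]
      have hg' : (g : L) ≠ 0 := by exact_mod_cast hg0
      have hq' := congrArg (fun β : 𝓞 L => (β : L)) hq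
      simp only [map_add, map_sub, map_mul, map_pow, map_intCast, map_zero] at hq'
      have hint : IsIntegral ℤ ((γ : L) / g) := by
        refine ⟨Polynomial.X ^ 2 - Polynomial.C T' * Polynomial.X + Polynomial.C (A' * B'), ?_, ?_⟩
        · monicity!
        · simp only [Polynomial.eval₂_add, Polynomial.eval₂_sub, Polynomial.eval₂_mul,
            Polynomial.eval₂_X_pow, Polynomial.eval₂_X, Polynomial.eval₂_C]
          simp only [eq_intCast, Int.cast_mul]
          field_simp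
          linear_combination hq'
      refine ⟨⟨_, hint⟩, RingOfIntegers.ext ?_⟩
      change (γ : L) = g * ((γ : L) / g)
      field_simp
    · rw [Ideal.span_le, Set.singleton_subset_iff]
      exact (hdv g).2 dvd_rfl
  have hn := congrArg Ideal.absNorm key
  rw [map_mul, absNorm_map, absNorm_int K, ← sq] at hn
  have hn' : Ideal.absNorm I = g.natAbs := Nat.pow_left_injective two_ne_zero hn
  rw [key, hn']
  rcases Int.natAbs_eq g with h | h
  · rw [h]; simp
  · rw [h]; simp [Ideal.span_singleton_neg]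

theorem absNorm_span (β : 𝓞 L) : (Ideal.absNorm (Ideal.span {β}) : ℝ) = ‖K.σ β‖ ^ 2 := by
  obtain ⟨n, hn⟩ := int_of_fix K (γ := β * K.c β) (by simp only [map_mul, cc]; ring)
  have h1 := absNorm_int K n
  rw [← hn, ← Ideal.span_singleton_mul_span_singleton, map_mul] at h1
  have h2 : Ideal.span {K.c β} = (Ideal.span {β}).map K.c := by
    rw [Ideal.map_span, Set.image_singleton]
  rw [h2, absNorm_map, ← sq] at h1
  rw [Nat.pow_left_injective two_ne_zero h1]
  have h3 := congrArg (fun β : 𝓞 L => ‖K.σ β‖) hn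
  simp only [map_mul, map_intCast, norm_mul, Complex.norm_intCast] at h3
  have h4 : ‖K.σ (K.c β)‖ = ‖K.σ β‖ := by rw [sig_c, Complex.norm_conj]
  rw [Nat.cast_natAbs, Int.cast_abs, ← h3, sq]
  exact congrArg _ h4

theorem norm_unit (ε : (𝓞 L)ˣ) : ‖K.σ (ε : 𝓞 L)‖ = 1 := by
  have h := absNorm_span K ε
  rw [Ideal.span_singleton_eq_top.2 ε.isUnit, Ideal.absNorm_top, Nat.cast_one] at h
  exact (pow_eq_one_iff_of_nonneg (norm_nonneg _) two_ne_zero).1 h.symm

include K in
theorem finite_units : Finite (𝓞 L)ˣ := by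
  have h := (Embeddings.finite_of_norm_le L ℂ 1).to_subtype
  refine Finite.of_injective (β := {x : L | IsIntegral ℤ x ∧ ∀ φ : L →+* ℂ, ‖φ x‖ ≤ 1})
    (fun ε => ⟨((ε : 𝓞 L) : L), (ε : 𝓞 L).isIntegral_coe,
      fun φ => (norm_unit { K with σ := φ } ε).le⟩) fun ε ε' hε => ?_
  exact Units.ext (RingOfIntegers.ext (Subtype.mk.inj hε))

include K in
theorem unit_eq_one (n : ℕ) (ε : (𝓞 L)ˣ) (hn : 3 ≤ n) (h : (n : 𝓞 L) ∣ ε - 1) : ε = 1 := by
  obtain ⟨γ, hγ⟩ := h
  by_cases h0 : γ = 0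
  · rw [h0, mul_zero, sub_eq_zero] at hγ
    exact Units.ext hγ
  exfalso
  have h1 : 1 ≤ ‖K.σ γ‖ := by
    have h2 := absNorm_span K γ
    have h3 : Ideal.absNorm (Ideal.span {γ}) ≠ 0 := by
      rw [Ne, Ideal.absNorm_eq_zero_iff, Ideal.span_singleton_eq_bot]; exact h0
    have h4 : (1 : ℝ) ≤ Ideal.absNorm (Ideal.span {γ}) := by
      exact_mod_cast Nat.one_le_iff_ne_zero.2 h3
    rw [h2] at h4
    exact (one_le_pow_iff_of_nonneg (norm_nonneg _) two_ne_zero).1 h4
  have h5 := congrArg (fun β : 𝓞 L => ‖K.σ β‖) hγ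
  simp only [map_sub, map_mul, map_one, map_natCast, norm_mul, Complex.norm_natCast] at h5
  have h6 := norm_sub_le (K.σ (ε : 𝓞 L)) 1
  rw [norm_unit, norm_one] at h6
  have hn' : (3 : ℝ) ≤ n := by exact_mod_cast hn
  have h7 : (n : ℝ) * 1 ≤ n * ‖K.σ γ‖ := mul_le_mul_of_nonneg_left h1 (by positivity)
  have h8 : ‖K.σ (ε : 𝓞 L) - 1‖ = n * ‖K.σ γ‖ := h5
  linarith

theorem trace_eq (β : 𝓞 L) : (Algebra.trace ℤ (𝓞 L) β : ℝ) = 2 * (K.σ β).re := by
  obtain ⟨m, a, b, hm, h⟩ := exists_mul K β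
  have hw : Algebra.trace ℤ (𝓞 L) K.ω = 0 := by
    have h1 := Algebra.trace_eq_of_algEquiv K.c.toIntAlgEquiv K.ω
    have h2 : K.c.toIntAlgEquiv K.ω = -K.ω := K.cω
    rw [h2, map_neg] at h1
    omega
  have h1 : m * Algebra.trace ℤ (𝓞 L) β = 2 * a := by
    have h2 := congrArg (Algebra.trace ℤ (𝓞 L)) h
    rw [← zsmul_eq_mul, ← zsmul_eq_mul, map_add, map_zsmul, map_zsmul, hw, ← eq_intCast
      (algebraMap ℤ (𝓞 L)), Algebra.trace_algebraMap, rank K] at h2
    simpa using h2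
  have h3 := congrArg (fun β : 𝓞 L => (K.σ β).re) h
  simp only [map_mul, map_add, map_intCast, Complex.add_re, Complex.mul_re, Complex.intCast_re,
    Complex.intCast_im, zero_mul, sub_zero] at h3
  have h4 : (K.σ (algebraMap (𝓞 L) L K.ω)).re = 0 := (sig_re K).1
  rw [h4] at h3
  have hm' : (m : ℝ) ≠ 0 := by exact_mod_cast hm
  apply mul_left_cancel₀ hm'
  have h5 : (m : ℝ) * Algebra.trace ℤ (𝓞 L) β = 2 * a := by exact_mod_cast h1
  rw [h5]
  linear_combination (-2 : ℝ) * h3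

theorem discr_eq (e : Module.Basis (Fin 2) ℤ (𝓞 L)) :
    (discr L : ℝ) = -4 * (K.σ (e 0) * conj (K.σ (e 1))).im ^ 2 := by
  rw [← discr_eq_discr L e, Algebra.discr_def, Matrix.det_fin_two]
  simp only [Algebra.traceMatrix_apply, Algebra.traceForm_apply, Int.cast_sub, Int.cast_mul,
    trace_eq K, map_mul, Complex.mul_re, Complex.mul_im, Complex.conj_re, Complex.conj_im]
  ring

theorem cov_eq (e : Module.Basis (Fin 2) ℤ (𝓞 L)) :
    |(K.σ (e 0) * conj (K.σ (e 1))).im| = cov L := by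
  rw [cov, discr_eq K e]
  generalize (K.σ (e 0) * conj (K.σ (e 1))).im = v
  have : |-4 * v ^ 2| = (2 * |v|) ^ 2 := by
    rw [abs_mul, abs_sq, mul_pow, sq_abs]; norm_num
  rw [this, Real.sqrt_sq (by positivity)]
  ring

include K in
theorem exists_basis : Nonempty (Module.Basis (Fin 2) ℤ (𝓞 L)) :=
  ⟨Module.finBasisOfFinrankEq ℤ (𝓞 L) (rank K)⟩

theorem discr_le : |discr L| ≤ 4 * |K.D| := by
  obtain ⟨e⟩ := exists_basis K
  have h1 := e.sum_repr 1
  have h2 := e.sum_repr K.ω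
  simp only [Fin.sum_univ_two, zsmul_eq_mul] at h1 h2
  generalize e.repr 1 0 = a at h1
  generalize e.repr 1 1 = b at h1
  generalize e.repr K.ω 0 = c at h2
  generalize e.repr K.ω 1 = d at h2
  have h3 := congrArg (fun β : 𝓞 L => K.σ β) h1
  have h4 := congrArg (fun β : 𝓞 L => K.σ β) h2
  simp only [map_mul, map_add, map_intCast, map_one] at h3 h4
  have hd := discr_eq K e
  obtain ⟨hr, hi⟩ := sig_re K
  have h5 := congrArg Complex.re h3
  have h6 := congrArg Complex.im h3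
  have h7 := congrArg Complex.re h4
  have h8 := congrArg Complex.im h4
  simp only [Complex.add_re, Complex.mul_re, Complex.add_im, Complex.mul_im, Complex.intCast_re,
    Complex.intCast_im, zero_mul, sub_zero, add_zero, Complex.one_re, Complex.one_im,
    Complex.conj_re, Complex.conj_im] at h5 h6 h7 h8 hd
  have hr' : (K.σ (algebraMap (𝓞 L) L K.ω)).re = 0 := hr
  have hi' : (K.σ (algebraMap (𝓞 L) L K.ω)).im ^ 2 = -(K.D : ℝ) := hi
  rw [hr'] at h7
  rw [← h8] at hi'
  change (discr L : ℝ) = -4 * ((K.σ (algebraMap (𝓞 L) L (e 0))).re *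
    -(K.σ (algebraMap (𝓞 L) L (e 1))).im + (K.σ (algebraMap (𝓞 L) L (e 0))).im *
    (K.σ (algebraMap (𝓞 L) L (e 1))).re) ^ 2 at hd
  generalize (K.σ (algebraMap (𝓞 L) L (e 0))).re = x at *
  generalize (K.σ (algebraMap (𝓞 L) L (e 0))).im = y at *
  generalize (K.σ (algebraMap (𝓞 L) L (e 1))).re = z at *
  generalize (K.σ (algebraMap (𝓞 L) L (e 1))).im = w at *
  have key : (a * d - b * c : ℝ) * (x * -w + y * z) = -(c * y + d * w) := by
    linear_combination (-(c * y + d * w)) * h5 + (c * x + d * z) * h6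
  have h9 : 4 * K.D = (a * d - b * c) ^ 2 * discr L := by
    have : (4 * K.D : ℝ) = (a * d - b * c) ^ 2 * discr L := by
      rw [hd]
      linear_combination 4 * hi' + 4 * ((a * d - b * c : ℝ) * (x * -w + y * z) - (c * y + d * w)) * key
    exact_mod_cast this
  have h10 : a * d - b * c ≠ 0 := fun h => by
    rw [h] at h9
    have := K.neg
    omega
  have h11 : 1 ≤ (a * d - b * c) ^ 2 := by
    have := sq_pos_of_ne_zero h10
    omega
  calc |discr L| ≤ (a * d - b * c) ^ 2 * |discr L| := le_mul_of_one_le_left (abs_nonneg _) h11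
    _ = |4 * K.D| := by rw [h9, abs_mul, abs_sq]
    _ = 4 * |K.D| := by rw [abs_mul]; norm_num

/-! ### primes of degree one -/

section primes

variable {q : ℕ} [hq : Fact q.Prime]

theorem two_D_ne (h : ¬ (q : ℤ) ∣ 2 * K.D) : (2 * K.D : ZMod q) ≠ 0 := fun h' =>
  h ((ZMod.intCast_zmod_eq_zero_iff_dvd _ _).1 (by exact_mod_cast h'))

/-- a square root of `D` modulo `q` gives a homomorphism -/
theorem exists_hom (h : ¬ (q : ℤ) ∣ 2 * K.D) {w : ZMod q} (hw : w ^ 2 = K.D) :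
    ∃ φ : 𝓞 L →+* ZMod q, φ K.ω = w := by
  choose a b hab using coord K
  have h0 := two_D_ne K h
  have hD : (2 * K.D : ℤ) ≠ 0 := mul_ne_zero two_ne_zero (D_ne K)
  have huniq : ∀ (β : 𝓞 L) (a' b' : ℤ), 2 * K.D * β = a' + b' * K.ω → a β = a' ∧ b β = b' :=
    fun β a' b' h' => ext2 K ((hab β).symm.trans h')
  refine ⟨⟨⟨⟨fun β => (a β + b β * w) / (2 * K.D), ?_⟩, fun β γ => ?_⟩, ?_, fun β γ => ?_⟩, ?_⟩
  · obtain ⟨h1, h2⟩ := huniq 1 (2 * K.D) 0 (by push_cast; ring)
    rw [h1, h2]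
    push_cast
    rw [zero_mul, add_zero, div_self h0]
  · have h1 := ext2 K (a := 2 * K.D * a (β * γ)) (b := 2 * K.D * b (β * γ))
      (a' := a β * a γ + b β * b γ * K.D) (b' := a β * b γ + b β * a γ) (by
        push_cast
        linear_combination (-2 * K.D) * hab (β * γ) + (2 * K.D * γ) * hab β +
          (a β + b β * K.ω) * hab γ + (b β * b γ) * K.sq)
    have h2 := congrArg (Int.cast : ℤ → ZMod q) h1.1
    have h3 := congrArg (Int.cast : ℤ → ZMod q) h1.2
    push_cast at h2 h3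
    rw [div_mul_div_comm, div_eq_div_iff h0 (mul_ne_zero h0 h0)]
    linear_combination (2 * K.D) * h2 + (2 * K.D * w) * h3 - (2 * K.D * b β * b γ) * hw
  · obtain ⟨h1, h2⟩ := huniq 0 0 0 (by simp)
    simp [h1, h2]
  · obtain ⟨h1, h2⟩ := huniq (β + γ) (a β + a γ) (b β + b γ)
      (by push_cast; linear_combination hab β + hab γ)
    simp only [h1, h2]
    push_cast
    ring
  · obtain ⟨h1, h2⟩ := huniq K.ω 0 (2 * K.D) (by push_cast; ring)
    change (a K.ω + b K.ω * w) / (2 * K.D) = w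
    rw [h1, h2]
    push_cast
    rw [zero_add, mul_div_cancel_left₀ _ h0]

theorem hom_sq (φ : 𝓞 L →+* ZMod q) : φ K.ω ^ 2 = K.D := by
  rw [← map_pow, K.sq, map_intCast]

theorem absNorm_ker (φ : 𝓞 L →+* ZMod q) : Ideal.absNorm (RingHom.ker φ) = q := by
  rw [Ideal.absNorm_apply, Submodule.cardQuot_apply,
    Nat.card_congr (RingHom.quotientKerEquivOfSurjective (ZMod.ringHom_surjective φ)).toEquiv,
    Nat.card_zmod]

theorem exists_ker {I : Ideal (𝓞 L)} (hI : Ideal.absNorm I = q) :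
    ∃ φ : 𝓞 L →+* ZMod q, RingHom.ker φ = I := by
  rw [Ideal.absNorm_apply, Submodule.cardQuot_apply] at hI
  have : Finite (𝓞 L ⧸ I) := Nat.finite_of_card_ne_zero (hI ▸ hq.out.ne_zero)
  let _ := Fintype.ofFinite (𝓞 L ⧸ I)
  let e := ZMod.ringEquivOfPrime (𝓞 L ⧸ I) hq.out (by rw [← Nat.card_eq_fintype_card, hI])
  refine ⟨e.symm.toRingHom.comp (Ideal.Quotient.mk I), ?_⟩
  ext β
  simp [RingHom.mem_ker, Ideal.Quotient.eq_zero_iff_mem]

/-- the kernel of a homomorphism -/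
theorem ker_eq (h : ¬ (q : ℤ) ∣ 2 * K.D) (φ : 𝓞 L →+* ZMod q) {w : ℤ} (hw : φ K.ω = w) :
    RingHom.ker φ = Ideal.span {(q : 𝓞 L), K.ω - w} := by
  refine le_antisymm (fun β hβ => ?_) ?_
  · obtain ⟨a, b, hab⟩ := coord K β
    have h1 := congrArg φ hab
    rw [map_mul, RingHom.mem_ker.1 hβ, mul_zero] at h1
    simp only [map_add, map_mul, map_intCast, hw] at h1
    obtain ⟨c, hc⟩ := (ZMod.intCast_zmod_eq_zero_iff_dvd (a + b * w) q).1 (by push_cast; exact h1.symm)
    obtain ⟨u, v, huv⟩ := ((Nat.prime_iff_prime_int.1 hq.out).irreducible.coprime_iff_not_dvd).2 h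
    have hc' := congrArg (Int.cast : ℤ → 𝓞 L) hc
    have huv' := congrArg (Int.cast : ℤ → 𝓞 L) huv
    push_cast at hc' huv'
    exact Ideal.mem_span_pair.2 ⟨u * β + v * c, v * b, by
      linear_combination β * huv' - v * hab - v * hc'⟩
  · rw [Ideal.span_le]
    rintro _ (rfl | rfl) <;> simp [RingHom.mem_ker, hw]

theorem ker_inj (h : ¬ (q : ℤ) ∣ 2 * K.D) {φ ψ : 𝓞 L →+* ZMod q} :
    RingHom.ker φ = RingHom.ker ψ ↔ φ K.ω = ψ K.ω := by
  obtain ⟨w, hw⟩ := ZMod.intCast_surjective (φ K.ω)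
  constructor
  · intro h1
    have h2 : K.ω - w ∈ RingHom.ker φ := by simp [RingHom.mem_ker, hw]
    rw [h1, RingHom.mem_ker, map_sub, map_intCast, sub_eq_zero] at h2
    rw [h2, hw]
  · intro h1
    rw [ker_eq K h φ hw.symm, ker_eq K h ψ (h1 ▸ hw.symm)]

theorem card_primes (h : ¬ (q : ℤ) ∣ 2 * K.D) :
    (Set.ncard {I : Ideal (𝓞 L) | Ideal.absNorm I = q} : ℤ) = 1 + jacobiSym K.D q := by
  have h2 : q ≠ 2 := fun h2 => h (by rw [h2]; exact dvd_mul_right _ _)
  rw [← jacobiSym.legendreSym.to_jacobiSym, add_comm, ← legendreSym.card_sqrts q h2,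
    ← Set.ncard_eq_toFinset_card']
  congr 1
  choose φ hφ using fun w : {x : ZMod q | x ^ 2 = K.D} => exists_hom K h (w := w.1) w.2
  symm
  refine Set.ncard_congr (fun w hw => RingHom.ker (φ ⟨w, hw⟩)) (fun w hw => absNorm_ker _)
    (fun w w' hw hw' h' => ?_) fun I hI => ?_
  · have := (ker_inj K h).1 h'
    rwa [hφ, hφ] at this
  · obtain ⟨ψ, rfl⟩ := exists_ker (q := q) hI
    exact ⟨ψ K.ω, hom_sq K ψ, (ker_inj K h).2 (hφ _)⟩

end primes

end Iqb

end Pool.Agent.P.MP_b8021b_nt.VE
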