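import Pool.Agent.P.MP_b8021b_nt.VE.StN

/-! N23a: quadratic characters. -/

namespace Pool.Agent.P.MP_b8021b_nt.VE

open scoped Classical

namespace Kap

lemma odd_of_cop {M m : ℕ} (h4 : 4 ∣ M) (hm : m.Coprime M) : Odd m := by
  have h2 : 2 ∣ M := Dvd.dvd.trans (by norm_num) h4
  exact Nat.coprime_two_right.mp (Nat.Coprime.coprime_dvd_right h2 hm)

lemma jac_congr (D : ℤ) {m m' : ℕ} (hm : Odd m) (hm' : Odd m')
    (h : m ≡ m' [MOD 4 * D.natAbs]) : jacobiSym D m = jacobiSym D m' := by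
  rw [jacobiSym.mod_right D hm, jacobiSym.mod_right D hm', h]

lemma crt {p q M c : ℕ} (hp : p.Prime) (hM : M ≠ 0) (hq : ∃ j, q = p ^ (j + 1))
    (hc : ¬ p ∣ c) : ∃ m : ℕ, m.Coprime M ∧ m ≡ c [MOD q] ∧
      ∀ d, d ∣ M → ¬ p ∣ d → m ≡ 1 [MOD d] := by
  obtain ⟨e, M', hM', rfl⟩ := Nat.exists_eq_pow_mul_and_not_dvd hM p hp.one_lt.ne'
  obtain ⟨j, rfl⟩ := hq
  have hcop : p.Coprime M' := (Nat.Prime.coprime_iff_not_dvd hp).mpr hM'
  obtain ⟨m, h1, h2⟩ := Nat.chineseRemainder (hcop.pow_left (j + 1)) c 1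
  refine ⟨m, ?_, h1, fun d hd hpd => ?_⟩
  · refine Nat.Coprime.mul_right (Nat.Coprime.pow_right _ ?_) ?_
    · rw [Nat.coprime_comm, Nat.Prime.coprime_iff_not_dvd hp]
      intro hd
      have h3 : m ≡ c [MOD p] := h1.of_dvd (dvd_pow_self p (Nat.succ_ne_zero j))
      exact hc ((h3.dvd_iff dvd_rfl).mp hd)
    · have := h2.gcd_eq
      rw [Nat.gcd_one_left] at this
      exact this
  · have hdp : d.Coprime (p ^ e) :=
      Nat.Coprime.pow_right _ ((Nat.Prime.coprime_iff_not_dvd hp).mpr hpd).symm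
    exact h2.of_dvd (hdp.dvd_of_dvd_mul_left hd)

lemma exists_neg_sqfree (s : ℤ) (hs : s = 1 ∨ s = -1) (a M : ℕ) (ha : Squarefree a) (hM : M ≠ 0)
    (h4 : 4 * a ∣ M) (hn : s * a ≠ 1) : ∃ m : ℕ, m.Coprime M ∧ jacobiSym (s * a) m = -1 := by
  have h4' : 4 ∣ M := (Dvd.intro _ rfl).trans h4
  by_cases ha1 : a = 1
  · subst ha1
    have hs' : s = -1 := by
      rcases hs with rfl | rfl
      · simp at hn
      · rfl
    subst hs'
    obtain ⟨m, h1, h2, -⟩ := crt (q := 4) (c := 3) Nat.prime_two hM ⟨1, by norm_num⟩ (by norm_num)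
    refine ⟨m, h1, ?_⟩
    have := jac_congr (-1) (odd_of_cop h4' h1) (by decide : Odd 3) (by simpa using h2)
    simp only [Nat.cast_one, mul_one]
    rw [this]
    norm_num
  by_cases ha2 : a = 2
  · subst ha2
    obtain ⟨m, h1, h2, -⟩ := crt (q := 8) (c := 5) Nat.prime_two hM ⟨2, by norm_num⟩ (by norm_num)
    refine ⟨m, h1, ?_⟩
    rcases hs with rfl | rfl
    · have := jac_congr 2 (odd_of_cop h4' h1) (by decide : Odd 5) (by simpa using h2)
      simp only [Nat.cast_ofNat, one_mul]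
      rw [this]
      norm_num
    · have := jac_congr (-2) (odd_of_cop h4' h1) (by decide : Odd 5) (by simpa using h2)
      simp only [Nat.cast_ofNat, neg_mul, one_mul]
      rw [this]
      norm_num
  obtain ⟨p, hp, hp2, hpa⟩ : ∃ p : ℕ, p.Prime ∧ p ≠ 2 ∧ p ∣ a := by
    by_contra hcon
    push Not at hcon
    have h1 : ∀ p : ℕ, p.Prime → p ∣ a → p = 2 := fun p hp hd => by
      by_contra h
      exact hcon p hp h hd
    have h2 := Nat.eq_prime_pow_of_unique_prime_dvd ha.ne_zero (p := 2)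
      (fun {d} hd hda => h1 d hd hda)
    generalize a.primeFactorsList.length = k at h2
    rcases k with _ | _ | k
    · exact ha1 (by simpa using h2)
    · exact ha2 (by simpa using h2)
    · have : IsUnit (2 : ℕ) := ha 2 ⟨2 ^ k, by rw [h2]; ring⟩
      simp at this
  obtain ⟨a', rfl⟩ := hpa
  have hpa' : ¬ p ∣ a' := by
    rintro ⟨b, rfl⟩
    have : IsUnit p := ha p ⟨b, by ring⟩
    exact hp.one_lt.ne' (by simpa using this)
  have : Fact p.Prime := ⟨hp⟩
  obtain ⟨c, hc⟩ := FiniteField.exists_nonsquare (F := ZMod p)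
    (by rw [ZMod.ringChar_zmod_n]; exact hp2)
  have hc0 : ¬ p ∣ c.val := by
    intro hd
    apply hc
    have : c = 0 := by
      rw [← ZMod.natCast_zmod_val c]
      exact (ZMod.natCast_eq_zero_iff _ _).mpr hd
    rw [this]
    exact IsSquare.zero
  obtain ⟨m, h1, h2, h3⟩ := crt (q := p) (c := c.val) hp hM ⟨0, by simp⟩ hc0
  refine ⟨m, h1, ?_⟩
  have hmo := odd_of_cop h4' h1
  have hp4 : ¬ p ∣ 4 := by
    intro hd
    have : p ∣ 2 := hp.dvd_of_dvd_pow (n := 2) (by simpa using hd)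
    exact hp2 ((Nat.prime_dvd_prime_iff_eq hp Nat.prime_two).mp this)
  have h5 : m ≡ 1 [MOD 4 * a'] :=
    h3 _ (Dvd.dvd.trans ⟨p, by ring⟩ h4) (by
      intro hd
      rcases (Nat.Prime.dvd_mul hp).mp hd with h | h
      · exact hp4 h
      · exact hpa' h)
  have h6 : jacobiSym (s * a') m = 1 := by
    rw [jac_congr (s * a') hmo odd_one (by
      rcases hs with rfl | rfl <;> simpa using h5), jacobiSym.one_right]
  have h7 : jacobiSym p m = -1 := by
    have hm4 : m % 4 = 1 := h3 4 h4' hp4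
    rw [jacobiSym.quadratic_reciprocity_one_mod_four' (hp.odd_of_ne_two hp2) hm4,
      ZMod.nonsquare_iff_jacobiSym_eq_neg_one]
    have : ((m : ℤ) : ZMod p) = c := by
      rw [Int.cast_natCast, (ZMod.natCast_eq_natCast_iff _ _ _).mpr h2, ZMod.natCast_zmod_val]
    rwa [this]
  have h8 : s * ((p * a' : ℕ) : ℤ) = p * (s * a') := by push_cast; ring
  rw [h8, jacobiSym.mul_left, h6, h7]
  norm_num

lemma exists_neg (D : ℤ) (M : ℕ) (hM : M ≠ 0) (h4 : 4 * D ∣ M) (hD : ¬ IsSquare D) :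
    ∃ m : ℕ, m.Coprime M ∧ jacobiSym D m = -1 := by
  obtain ⟨a, b, hab, ha⟩ := Nat.sq_mul_squarefree D.natAbs
  obtain ⟨s, hs, hsD⟩ : ∃ s : ℤ, (s = 1 ∨ s = -1) ∧ D = s * D.natAbs := by
    rcases Int.natAbs_eq D with h | h
    · exact ⟨1, Or.inl rfl, by rw [one_mul]; exact h⟩
    · exact ⟨-1, Or.inr rfl, by rw [neg_one_mul]; exact h⟩
  have h4' : 4 * D.natAbs ∣ M := by
    have := Int.natAbs_dvd_natAbs.mpr h4
    simpa [Int.natAbs_mul] using this
  have hD' : D = (b : ℤ) ^ 2 * (s * a) := by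
    rw [hsD, ← hab]; push_cast; ring
  obtain ⟨m, h1, h2⟩ := exists_neg_sqfree s hs a M ha hM
    (Dvd.dvd.trans ⟨b ^ 2, by rw [← hab]; ring⟩ h4') (by
      intro h
      apply hD
      rw [hD', h]
      exact ⟨b, by ring⟩)
  refine ⟨m, h1, ?_⟩
  have hb : b ∣ M := Dvd.dvd.trans ⟨4 * b * a, by rw [← hab]; ring⟩ h4'
  have hbm : (b : ℤ).gcd m = 1 := by
    rw [Int.gcd_natCast_natCast]
    exact (Nat.Coprime.coprime_dvd_right hb h1).symm
  rw [hD', jacobiSym.mul_left, jacobiSym.sq_one' hbm, h2, one_mul]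

end Kap

open Kap in
theorem p_kapP : S_Kap := by
  intro D M hM _ h4
  have : NeZero M := ⟨hM⟩
  have h4' : 4 * D.natAbs ∣ M := by
    have := Int.natAbs_dvd_natAbs.mpr h4
    simpa [Int.natAbs_mul] using this
  have h4'' : 4 ∣ M := (Dvd.intro _ rfl).trans h4'
  have hodd : ∀ x : ZMod M, IsUnit x → Odd x.val := by
    intro x hx
    refine odd_of_cop h4'' ?_
    rw [← ZMod.isUnit_iff_coprime, ZMod.natCast_zmod_val]
    exact hx
  have hval : ∀ m : ℕ, m.Coprime M → jacobiSym D (m : ZMod M).val = jacobiSym D m := by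
    intro m hm
    refine jac_congr D (hodd _ ((ZMod.isUnit_iff_coprime m M).mpr hm)) (odd_of_cop h4'' hm) ?_
    rw [ZMod.val_natCast]
    exact (Nat.mod_modEq m M).of_dvd h4'
  let κ : DirichletCharacter ℂ M :=
    { toFun := fun x => if IsUnit x then ((jacobiSym D x.val : ℤ) : ℂ) else 0
      map_one' := by
        have := hval 1 (Nat.coprime_one_left M)
        rw [Nat.cast_one] at this
        simp [this, jacobiSym.one_right]
      map_mul' := fun x y => by
        by_cases hx : IsUnit x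
        · by_cases hy : IsUnit y
          · rw [if_pos hx, if_pos hy, if_pos (hx.mul hy), ← Int.cast_mul,
              ← jacobiSym.mul_right' D (hodd x hx).pos.ne' (hodd y hy).pos.ne']
            congr 1
            refine jac_congr D (hodd _ (hx.mul hy)) ((hodd x hx).mul (hodd y hy)) ?_
            rw [ZMod.val_mul]
            exact (Nat.mod_modEq _ M).of_dvd h4'
          · rw [if_neg hy, if_neg (fun h => hy (isUnit_of_mul_isUnit_right h)), mul_zero]
        · rw [if_neg hx, if_neg (fun h => hx (isUnit_of_mul_isUnit_left h)), zero_mul]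
      map_nonunit' := fun x hx => if_neg hx }
  have hκ : ∀ m : ℕ, m.Coprime M → κ m = (jacobiSym D m : ℤ) := by
    intro m hm
    change (if IsUnit (m : ZMod M) then ((jacobiSym D (m : ZMod M).val : ℤ) : ℂ) else 0) = _
    rw [if_pos ((ZMod.isUnit_iff_coprime m M).mpr hm), hval m hm]
  refine ⟨κ, hκ, fun hD h1 => ?_⟩
  obtain ⟨m, hm, hj⟩ := exists_neg D M hM h4 hD
  have h2 := hκ m hm
  rw [h1, hj, MulChar.one_apply ((ZMod.isUnit_iff_coprime m M).mpr hm)] at h2
  norm_num at h2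

end Pool.Agent.P.MP_b8021b_nt.VE
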