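import Mathlib

/-!
Additive characters of the multiplicative group of a number field.
-/

namespace Pool.Agent.P.MP_b8021b_nt.VE

open NumberField NumberField.Units NumberField.InfinitePlace IsDedekindDomain
open scoped nonZeroDivisors

variable {K : Type*} [Field K] [NumberField K]

/-- a homomorphism from the units to the reals is a combination of the logarithms of the places -/
theorem rep_units (φ : Additive (𝓞 K)ˣ →+ ℝ) : ∃ g : InfinitePlace K → ℝ, ∑ w, g w = 0 ∧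
    ∀ u : (𝓞 K)ˣ, φ (Additive.ofMul u) = ∑ w, g w * Real.log (w (u : K)) := by
  classical
  let b := (basisUnitLattice K).ofZLatticeBasis ℝ (unitLattice K)
  let L : dirichletUnitTheorem.logSpace K →ₗ[ℝ] ℝ :=
    b.constr ℝ fun i => φ (Additive.ofMul (fundSystem K i))
  have hL : ∀ u : (𝓞 K)ˣ, L (logEmbedding K (Additive.ofMul u)) = φ (Additive.ofMul u) := by
    intro u
    obtain ⟨⟨ζ, e⟩, rfl, -⟩ := exist_unique_eq_mul_prod K u
    have h1 : logEmbedding K (Additive.ofMul (ζ : (𝓞 K)ˣ)) = 0 :=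
      dirichletUnitTheorem.logEmbedding_eq_zero_iff.2 ζ.2
    have h2 : φ (Additive.ofMul (ζ : (𝓞 K)ˣ)) = 0 := by
      obtain ⟨n, hn, e⟩ := isOfFinOrder_iff_pow_eq_one.1 ((CommGroup.mem_torsion _).1 ζ.2)
      have : n • φ (Additive.ofMul (ζ : (𝓞 K)ˣ)) = 0 := by
        rw [← map_nsmul, ← ofMul_pow, e, ofMul_one, map_zero]
      exact (smul_eq_zero.1 this).resolve_left hn.ne'
    simp only [ofMul_mul, ofMul_prod, ofMul_zpow, map_add, map_sum, map_zsmul, h1, h2, map_zero]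
    congr 1
    refine Finset.sum_congr rfl fun i _ => ?_
    rw [logEmbedding_fundSystem, ← Module.Basis.ofZLatticeBasis_apply ℝ, Module.Basis.constr_basis]
  let g0 : InfinitePlace K → ℝ := fun w =>
    if h : w ≠ dirichletUnitTheorem.w₀ then L (Pi.single ⟨w, h⟩ 1) * mult w else 0
  have h0 : ∀ u : (𝓞 K)ˣ, φ (Additive.ofMul u) = ∑ w, g0 w * Real.log (w (u : K)) := by
    intro u
    rw [← hL, Fintype.sum_eq_add_sum_subtype_ne _ dirichletUnitTheorem.w₀,
      LinearMap.pi_apply_eq_sum_univ]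
    simp only [g0, ne_eq, not_true_eq_false, dif_neg, not_false_eq_true, zero_mul, zero_add]
    refine Finset.sum_congr rfl fun w _ => ?_
    rw [dif_pos w.2, dirichletUnitTheorem.logEmbedding_component, smul_eq_mul]
    have : (fun j => if w = j then (1 : ℝ) else 0) = Pi.single w 1 := by
      funext j; simp [Pi.single_apply, eq_comm]
    rw [this]
    ring
  have hd : (∑ w : InfinitePlace K, (mult w : ℝ)) ≠ 0 := by
    rw [← Nat.cast_sum, sum_mult_eq]
    exact Nat.cast_ne_zero.2 Module.finrank_pos.ne'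
  refine ⟨fun w => g0 w - (∑ w, g0 w) / (∑ w : InfinitePlace K, (mult w : ℝ)) * mult w, ?_,
    fun u => ?_⟩
  · rw [Finset.sum_sub_distrib, ← Finset.mul_sum, div_mul_cancel₀ _ hd, sub_self]
  · simp only [sub_mul, Finset.sum_sub_distrib, mul_assoc]
    rw [← Finset.mul_sum, sum_mult_mul_log, mul_zero, sub_zero, h0]

/-- a multiplicative function killing the units extends to the nonzero ideals -/
theorem rep_ext (Ψ : 𝓞 K → ℝ) (h : ∀ a b, a ≠ 0 → b ≠ 0 → Ψ (a * b) = Ψ a + Ψ b)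
    (hu : ∀ u : (𝓞 K)ˣ, Ψ u = 0) : ∃ Θ : Ideal (𝓞 K) → ℝ,
      (∀ I J, I ≠ 0 → J ≠ 0 → Θ (I * J) = Θ I + Θ J) ∧
      ∀ x : 𝓞 K, x ≠ 0 → Θ (Ideal.span {x}) = Ψ x := by
  let n := Fintype.card (ClassGroup (𝓞 K))
  have hn : (n : ℝ) ≠ 0 := Nat.cast_ne_zero.2 Fintype.card_ne_zero
  have ex : ∀ I : Ideal (𝓞 K), ∃ x : 𝓞 K, I ≠ 0 → I ^ n = Ideal.span {x} := fun I => by
    by_cases hI : I = 0
    · exact ⟨0, fun h => absurd hI h⟩
    · have : ClassGroup.mk0 (⟨I, mem_nonZeroDivisors_of_ne_zero hI⟩ ^ n : (Ideal (𝓞 K))⁰) = 1 := by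
        rw [map_pow, pow_card_eq_one]
      obtain ⟨x, hx⟩ := (ClassGroup.mk0_eq_one_iff (pow_mem (mem_nonZeroDivisors_of_ne_zero hI) n)).1
        this
      exact ⟨x, fun _ => hx⟩
  choose π hπ using ex
  have h1 : Ψ 1 = 0 := hu 1
  have eq : ∀ x y : 𝓞 K, x ≠ 0 → Ideal.span {x} = Ideal.span {y} → Ψ x = Ψ y := fun x y hx e => by
    obtain ⟨u, rfl⟩ := Ideal.span_singleton_eq_span_singleton.1 e
    rw [h _ _ hx u.ne_zero, hu, add_zero]
  have ne : ∀ I, I ≠ 0 → π I ≠ 0 := fun I hI e =>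
    pow_ne_zero n hI (by rw [hπ I hI, e]; simp)
  have pw : ∀ (x : 𝓞 K) (k : ℕ), x ≠ 0 → Ψ (x ^ k) = k * Ψ x := fun x k hx => by
    induction k with
    | zero => simpa using h1
    | succ k ih => rw [pow_succ, h _ _ (pow_ne_zero _ hx) hx, ih]; push_cast; ring
  refine ⟨fun I => Ψ (π I) / n, fun I J hI hJ => ?_, fun x hx => ?_⟩
  · change Ψ (π (I * J)) / n = _
    rw [← add_div, ← h _ _ (ne I hI) (ne J hJ), eq _ (π I * π J) (ne _ (mul_ne_zero hI hJ))]
    rw [← hπ _ (mul_ne_zero hI hJ), mul_pow, hπ I hI, hπ J hJ, Ideal.span_singleton_mul_span_singleton]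
  · have hI : Ideal.span {x} ≠ 0 := by simpa using hx
    rw [div_eq_iff hn, mul_comm, ← pw x n hx]
    exact eq _ _ (ne _ hI) (by rw [← hπ _ hI, Ideal.span_singleton_pow])

/-- ideal form of the representation -/
theorem rep_ideal (Φ : K → ℝ) (h : ∀ a b, a ≠ 0 → b ≠ 0 → Φ (a * b) = Φ a + Φ b) :
    ∃ (Θ : Ideal (𝓞 K) → ℝ) (g : InfinitePlace K → ℝ),
      (∀ I J, I ≠ 0 → J ≠ 0 → Θ (I * J) = Θ I + Θ J) ∧ ∑ w, g w = 0 ∧
      ∀ x : 𝓞 K, x ≠ 0 → Φ x = Θ (Ideal.span {x}) + ∑ w, g w * Real.log (w (x : K)) := by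
  have c0 : ∀ x : 𝓞 K, x ≠ 0 → (x : K) ≠ 0 := fun x hx => RingOfIntegers.coe_ne_zero_iff.2 hx
  obtain ⟨g, g1, g2⟩ := rep_units (AddMonoidHom.mk' (fun u : Additive (𝓞 K)ˣ =>
    Φ ((u.toMul : (𝓞 K)ˣ) : 𝓞 K)) fun u v => by
      simpa using h _ _ (c0 _ u.toMul.ne_zero) (c0 _ v.toMul.ne_zero))
  obtain ⟨Θ, h1, h2⟩ := rep_ext (fun x : 𝓞 K => Φ x - ∑ w, g w * Real.log (w (x : K)))
    (fun a b ha hb => by
      have : ∀ w : InfinitePlace K, Real.log (w ((a * b : 𝓞 K) : K)) =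
          Real.log (w (a : K)) + Real.log (w (b : K)) := fun w => by
        rw [← Real.log_mul (w.pos_iff.2 (c0 a ha)).ne' (w.pos_iff.2 (c0 b hb)).ne', ← map_mul]
        rfl
      simp only [this, mul_add, Finset.sum_add_distrib]
      rw [show ((a * b : 𝓞 K) : K) = a * b from rfl, h _ _ (c0 a ha) (c0 b hb)]
      ring) fun u => sub_eq_zero.2 (g2 u)
  exact ⟨Θ, g, h1, g1, fun x hx => by rw [h2 x hx]; ring⟩

/-- an additive function on the nonzero ideals is determined by its values on the primes -/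
theorem ideal_sum (Θ : Ideal (𝓞 K) → ℝ) (h : ∀ I J, I ≠ 0 → J ≠ 0 → Θ (I * J) = Θ I + Θ J)
    (I : Ideal (𝓞 K)) (hI : I ≠ 0) : Θ I = ∑ᶠ v : HeightOneSpectrum (𝓞 K),
      Θ v.asIdeal * (FractionalIdeal.count K v (I : FractionalIdeal (𝓞 K)⁰ K) : ℤ) := by
  have fin : ∀ J : FractionalIdeal (𝓞 K)⁰ K, Function.HasFiniteSupport
      fun v : HeightOneSpectrum (𝓞 K) => Θ v.asIdeal * (FractionalIdeal.count K v J : ℤ) :=
    fun J => (Filter.eventually_cofinite.1 (FractionalIdeal.finite_factors J)).subset fun v hv e =>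
      hv (by simp [e])
  induction I using UniqueFactorizationMonoid.induction_on_prime with
  | h₁ => exact absurd rfl hI
  | h₂ I hu =>
    obtain rfl : I = 1 := by simpa using hu
    have := h 1 1 one_ne_zero one_ne_zero
    rw [mul_one] at this
    have h1 : Θ 1 = 0 := by linarith
    rw [h1, Ideal.one_eq_top, FractionalIdeal.coeIdeal_top]
    simp [FractionalIdeal.count_one]
  | h₃ J P hJ hP ih =>
    let v0 : HeightOneSpectrum (𝓞 K) := ⟨P, Ideal.isPrime_of_prime hP, hP.ne_zero⟩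
    have e : ∀ v : HeightOneSpectrum (𝓞 K),
        Θ v.asIdeal * (FractionalIdeal.count K v ((P * J : Ideal (𝓞 K)) : FractionalIdeal (𝓞 K)⁰ K) : ℤ) =
        Θ v.asIdeal * (FractionalIdeal.count K v (P : FractionalIdeal (𝓞 K)⁰ K) : ℤ) +
        Θ v.asIdeal * (FractionalIdeal.count K v (J : FractionalIdeal (𝓞 K)⁰ K) : ℤ) := fun v => by
      rw [FractionalIdeal.coeIdeal_mul, FractionalIdeal.count_mul K v
        (FractionalIdeal.coeIdeal_ne_zero.2 hP.ne_zero) (FractionalIdeal.coeIdeal_ne_zero.2 hJ)]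
      push_cast
      ring
    have e0 : ∑ᶠ v : HeightOneSpectrum (𝓞 K), Θ v.asIdeal *
        (FractionalIdeal.count K v (v0.asIdeal : FractionalIdeal (𝓞 K)⁰ K) : ℤ) = Θ v0.asIdeal := by
      rw [finsum_eq_single _ v0 fun v hv => by
        rw [FractionalIdeal.count_maximal_coprime K v hv.symm]
        simp, FractionalIdeal.count_self]
      simp
    rw [h _ _ hP.ne_zero hJ, ih hJ, finsum_congr e, finsum_add_distrib (fin _) (fin _), e0]

/-- paper A8 -/
theorem rep (Φ : K → ℝ) (h : ∀ a b, a ≠ 0 → b ≠ 0 → Φ (a * b) = Φ a + Φ b) :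
    ∃ (c : HeightOneSpectrum (𝓞 K) → ℝ) (g : InfinitePlace K → ℝ), ∑ w, g w = 0 ∧
      ∀ x : K, x ≠ 0 → Φ x = ∑ᶠ v : HeightOneSpectrum (𝓞 K),
        c v * (FractionalIdeal.count K v (FractionalIdeal.spanSingleton (𝓞 K)⁰ x) : ℤ) +
        ∑ w, g w * Real.log (w x) := by
  obtain ⟨Θ, g, h1, h2, h3⟩ := rep_ideal Φ h
  refine ⟨fun v => Θ v.asIdeal, g, h2, fun x hx => ?_⟩
  have fin : ∀ J : FractionalIdeal (𝓞 K)⁰ K, Function.HasFiniteSupport
      fun v : HeightOneSpectrum (𝓞 K) => Θ v.asIdeal * (FractionalIdeal.count K v J : ℤ) :=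
    fun J => (Filter.eventually_cofinite.1 (FractionalIdeal.finite_factors J)).subset fun v hv e =>
      hv (by simp [e])
  have key : ∀ a : 𝓞 K, a ≠ 0 → Φ a = ∑ᶠ v : HeightOneSpectrum (𝓞 K),
      Θ v.asIdeal * (FractionalIdeal.count K v (FractionalIdeal.spanSingleton (𝓞 K)⁰ (a : K)) : ℤ) +
      ∑ w, g w * Real.log (w (a : K)) := fun a ha => by
    rw [h3 a ha, ideal_sum Θ h1 _ (by simpa using ha), FractionalIdeal.coeIdeal_span_singleton]
  obtain ⟨a, b, hb, rfl⟩ := IsFractionRing.div_surjective (A := 𝓞 K) x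
  have hb0 : b ≠ 0 := nonZeroDivisors.ne_zero hb
  have hb' : algebraMap (𝓞 K) K b ≠ 0 := RingOfIntegers.coe_ne_zero_iff.2 hb0
  have ha : a ≠ 0 := by rintro rfl; simp at hx
  set x := algebraMap (𝓞 K) K a / algebraMap (𝓞 K) K b with hxd
  have e : (a : K) = x * b := (div_mul_cancel₀ _ hb').symm
  have k1 := key a ha
  have e1 : ∀ v : HeightOneSpectrum (𝓞 K),
      Θ v.asIdeal * (FractionalIdeal.count K v (FractionalIdeal.spanSingleton (𝓞 K)⁰ (x * b)) : ℤ) =
      Θ v.asIdeal * (FractionalIdeal.count K v (FractionalIdeal.spanSingleton (𝓞 K)⁰ x) : ℤ) +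
      Θ v.asIdeal * (FractionalIdeal.count K v (FractionalIdeal.spanSingleton (𝓞 K)⁰ (b : K)) : ℤ) :=
    fun v => by
      rw [← FractionalIdeal.spanSingleton_mul_spanSingleton, FractionalIdeal.count_mul K v
        (FractionalIdeal.spanSingleton_ne_zero_iff.2 hx)
        (FractionalIdeal.spanSingleton_ne_zero_iff.2 hb')]
      push_cast
      ring
  have e2 : ∀ w : InfinitePlace K, g w * Real.log (w (x * b)) =
      g w * Real.log (w x) + g w * Real.log (w (b : K)) := fun w => by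
    rw [map_mul, Real.log_mul (w.pos_iff.2 hx).ne' (w.pos_iff.2 hb').ne', mul_add]
  rw [e, h _ _ hx hb', finsum_congr e1, finsum_add_distrib (fin _) (fin _), key b hb0,
    Finset.sum_congr rfl fun w _ => e2 w, Finset.sum_add_distrib] at k1
  linarith

end Pool.Agent.P.MP_b8021b_nt.VE
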