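import Pool.Agent.P.MP_b8021b_nt.VE.StA
import Pool.Agent.P.MP_b8021b_nt.VE.Rep0

/-! Package A8: homomorphisms from the multiplicative group of a number field to the reals. -/

namespace Pool.Agent.P.MP_b8021b_nt.VE

open NumberField IsDedekindDomain
open scoped nonZeroDivisors

namespace Rep

variable {K : Type*} [Field K] [NumberField K]

lemma count_int (v : HeightOneSpectrum (𝓞 K)) (a : 𝓞 K) (ha : a ≠ 0) :
    FractionalIdeal.count K v (FractionalIdeal.spanSingleton (𝓞 K)⁰ (algebraMap (𝓞 K) K a)) =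
      -WithZero.log (v.valuation K (algebraMap (𝓞 K) K a)) := by
  classical
  rw [← FractionalIdeal.coeIdeal_span_singleton,
    FractionalIdeal.count_coe K v (by simpa using ha),
    HeightOneSpectrum.valuation_of_algebraMap, HeightOneSpectrum.intValuation_if_neg v ha,
    WithZero.log_exp, neg_neg]

lemma count_eq (v : HeightOneSpectrum (𝓞 K)) (x : K) (hx : x ≠ 0) :
    FractionalIdeal.count K v (FractionalIdeal.spanSingleton (𝓞 K)⁰ x) =
      -WithZero.log (v.valuation K x) := by
  obtain ⟨a, b, hb, rfl⟩ := IsFractionRing.div_surjective (A := 𝓞 K) x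
  have hb0 : b ≠ 0 := nonZeroDivisors.ne_zero hb
  have hb' : algebraMap (𝓞 K) K b ≠ 0 := RingOfIntegers.coe_ne_zero_iff.2 hb0
  have ha : a ≠ 0 := by rintro rfl; simp at hx
  set x := algebraMap (𝓞 K) K a / algebraMap (𝓞 K) K b with hxd
  have e : algebraMap (𝓞 K) K a = x * algebraMap (𝓞 K) K b := (div_mul_cancel₀ _ hb').symm
  have k1 := count_int v a ha
  have k2 := count_int v b hb0
  rw [e, ← FractionalIdeal.spanSingleton_mul_spanSingleton, FractionalIdeal.count_mul K v
    (FractionalIdeal.spanSingleton_ne_zero_iff.2 hx)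
    (FractionalIdeal.spanSingleton_ne_zero_iff.2 hb'), map_mul,
    WithZero.log_mul ((Valuation.ne_zero_iff _).2 hx) ((Valuation.ne_zero_iff _).2 hb'), k2] at k1
  linarith

end Rep

theorem p_rep : S_Rep := by
  intro K _ _ Φ h
  obtain ⟨c, g, h1, h2⟩ := rep Φ h
  refine ⟨c, g, h1, fun a ha => ?_⟩
  rw [h2 a ha]
  simp only [Rep.count_eq _ a ha]

end Pool.Agent.P.MP_b8021b_nt.VE
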