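import Pool.Agent.P.MP_b8021b_nt.VE.BasicS
import Pool.Agent.P.MP_b8021b_nt.FF1

/-! Geometric points of an affine curve. -/

namespace Pool.Agent.P.MP_b8021b_nt.VE

open IsDedekindDomain WithZero
open scoped Classical WithZero

namespace S0

variable {R K : Type} [CommRing R] [IsDedekindDomain R] [Field K] [Algebra R K]
  [IsFractionRing R K]

theorem ne_top (p : GPt K) : p.v.valuationSubring ≠ ⊤ := by
  intro h
  obtain ⟨x, hx⟩ := p.surj (exp 1)
  have : x ∈ p.v.valuationSubring := by rw [h]; trivial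
  rw [Valuation.mem_valuationSubring_iff, hx, ← exp_zero, exp_le_exp] at this
  omega

theorem prime (p : GPt K) (σ : R →+* Qb) (h : ∀ r, p.Val (algebraMap R K r) (σ r)) :
    ∃ P : HeightOneSpectrum R, P.asIdeal = RingHom.ker σ ∧ P.valuation K = p.v := by
  obtain ⟨P, hP⟩ := exists_heightOne_of_valuationSubring (R := R) p.v.valuationSubring
    (fun r => (h r).mem) (ne_top p)
  have e : P.valuation K = p.v := val_eq_of_isEquiv (P.valuation_surjective K) p.surj
    ((Valuation.isEquiv_iff_valuationSubring _ _).mpr hP)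
  refine ⟨P, ?_, e⟩
  ext r
  rw [← P.valuation_lt_one_iff_mem (K := K), e, RingHom.mem_ker]
  exact ((p.val_zero_iff _).symm.trans ⟨fun h1 => (h r).unique h1, fun h1 => h1 ▸ h r⟩)

theorem frac (P : HeightOneSpectrum R) {a : K} (ha : a ∈ (P.valuation K).valuationSubring) :
    ∃ r s : R, s ∉ P.asIdeal ∧ a = algebraMap R K r / algebraMap R K s := by
  rw [← HeightOneSpectrum.valuationSubringAtPrime_eq_valuationSubring] at ha
  obtain ⟨r, s, hs, rfl⟩ := ha
  exact ⟨r, s, hs, (div_eq_mul_inv _ _).symm⟩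

theorem exists_pt (σ : R →+* Qb) (hσ : RingHom.ker σ ≠ ⊥) :
    ∃ p : GPt K, ∀ r, p.Val (algebraMap R K r) (σ r) := by
  obtain ⟨P, hP⟩ : ∃ P : HeightOneSpectrum R, ∀ r, r ∈ P.asIdeal ↔ σ r = 0 :=
    ⟨⟨RingHom.ker σ, RingHom.ker_isPrime σ, hσ⟩, fun _ => Iff.rfl⟩
  have e := HeightOneSpectrum.valuationSubringAtPrime_eq_valuationSubring (K := K) P
  have hu : ∀ s : P.asIdeal.primeCompl, IsUnit (σ s) := fun s =>
    isUnit_iff_ne_zero.2 ((hP s).not.1 s.2)
  let ρ : (P.valuation K).valuationSubring →+* Qb :=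
    (IsLocalization.lift (S := P.valuationSubringAtPrime K) hu).comp
      (ValuationSubring.inclusion _ _ e.ge)
  have hρ : ∀ r : R, ρ ⟨algebraMap R K r, P.valuation_le_one r⟩ = σ r := fun r =>
    IsLocalization.lift_eq (S := P.valuationSubringAtPrime K) hu r
  refine ⟨⟨P.valuation K, ρ, P.valuation_surjective K, fun a => ?_⟩,
    fun r => ⟨P.valuation_le_one r, hρ r⟩⟩
  obtain ⟨r, s, hs, h1⟩ := frac P a.2
  have h2 : P.valuation K (algebraMap R K s) = 1 := P.valuation_eq_one_iff_notMem.2 hs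
  have h3 : algebraMap R K s ≠ 0 := fun h => by simp [h] at h2
  have h4 : a * ⟨algebraMap R K s, P.valuation_le_one s⟩ =
      ⟨algebraMap R K r, P.valuation_le_one r⟩ := Subtype.ext (eq_div_iff h3 |>.1 h1)
  have h5 : ρ a * σ s = σ r := by rw [← hρ, ← hρ, ← map_mul, h4]
  have h6 : σ s ≠ 0 := (hP s).not.1 hs
  rw [h1, map_div₀, h2, div_one]
  refine Iff.trans ?_ (P.valuation_lt_one_iff_mem (K := K) r).symm
  rw [hP, ← h5, mul_eq_zero, or_iff_left h6]

end S0

open S0

theorem p_s0 : S_S0 := by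
  intro R K _ _ _ _ _
  refine ⟨fun σ hσ => ?_, fun p hp => ?_, fun p σ h r hr => ?_⟩
  · obtain ⟨p, hp⟩ := exists_pt (K := K) σ hσ
    refine ⟨p, hp, fun q hq => ?_⟩
    obtain ⟨P, h1, h2⟩ := prime p σ hp
    obtain ⟨Q, h3, h4⟩ := prime q σ hq
    obtain rfl : P = Q := HeightOneSpectrum.ext (h1.trans h3.symm)
    refine GPt.ext_val (h4.symm.trans h2) fun a c hc => ?_
    obtain ⟨r, s, hs, rfl⟩ := frac P (h4 ▸ hc.mem)
    have h6 : σ s ≠ 0 := by rwa [h1] at hs
    exact hc.unique ((hq r).div (hq s) h6) ▸ (hp r).div (hp s) h6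
  · let σ : R →+* Qb :=
      p.ρ.comp ((algebraMap R K).codRestrict p.v.valuationSubring.toSubring hp)
    have h : ∀ r, p.Val (algebraMap R K r) (σ r) := fun r => ⟨hp r, rfl⟩
    obtain ⟨P, h1, -⟩ := prime p σ h
    exact ⟨σ, h1 ▸ P.ne_bot, h⟩
  · obtain ⟨P, h1, h2⟩ := prime p σ h
    have h3 : P.valuation K (algebraMap R K r) = P.intValuation r := P.valuation_of_algebraMap r
    rw [GPt.ord, ← h2, h3, P.intValuation_eq_exp_neg_multiplicity hr, log_exp, neg_neg, h1]

end Pool.Agent.P.MP_b8021b_nt.VE
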