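import Pool.Agent.P.MP_b8021b_nt.VE.Stmt

/-!
Auxiliary definitions for the theorem that `V(E)` is torsion for elliptic curves over the
rationals. See h4_VE.md in the team store for the mathematics.
-/

namespace Pool.Agent.P.MP_b8021b_nt.VE

open Polynomial NumberField Finset
open scoped Classical

noncomputable section

/-! ### part S: functionals on cycles -/

abbrev Qb := AlgebraicClosure ℚ

abbrev EP (W : WeierstrassCurve ℚ) (L : Type) [Field L] [Algebra ℚ L] :=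
  (W.baseChange L).toAffine.Point

/-- the functional `l` kills the relations -/
def Kills (W : WeierstrassCurve ℚ) (l : EP W Qb × Qbˣ → ℝ) : Prop :=
  ∀ D ∈ susTrivial W, (D.sum fun z n => (n : ℝ) * l z) = 0

/-- extension by zero -/
def ext0 {W : WeierstrassCurve ℚ} (l : EP W Qb × Qbˣ → ℝ) (P : EP W Qb) (u : Qb) : ℝ :=
  if h : u = 0 then 0 else l (P, Units.mk0 u h)

/-- conjugate of a point -/
def mp {W : WeierstrassCurve ℚ} {L : Type} [Field L] [Algebra ℚ L] (τ : L →ₐ[ℚ] Qb)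
    (P : EP W L) : EP W Qb :=
  WeierstrassCurve.Affine.Point.map (W' := W.toAffine) τ P

/-- the class of `X` in the coordinate ring -/
def cX {F : Type} [Field F] (W : WeierstrassCurve F) : W.toAffine.CoordinateRing :=
  WeierstrassCurve.Affine.CoordinateRing.mk W.toAffine (C X)

/-- the class of `Y` in the coordinate ring -/
def cY {F : Type} [Field F] (W : WeierstrassCurve F) : W.toAffine.CoordinateRing :=
  WeierstrassCurve.Affine.CoordinateRing.mk W.toAffine X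

/-- the point given by a homomorphism of the coordinate ring -/
def ptOf (W : WeierstrassCurve ℚ) (σ : W.toAffine.CoordinateRing →ₐ[ℚ] Qb) : EP W Qb :=
  if h : (W.baseChange Qb).toAffine.Nonsingular (σ (cX W)) (σ (cY W)) then .some _ _ h else 0

/-- the family of homomorphisms attached to a functional -/
def phiW {W : WeierstrassCurve ℚ} (l : EP W Qb × Qbˣ → ℝ)
    (P : MaximalSpectrum W.toAffine.CoordinateRing) (h : W.toAffine.CoordinateRing) : ℝ :=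
  ∑ᶠ σ ∈ {σ : W.toAffine.CoordinateRing →ₐ[ℚ] Qb | RingHom.ker σ = P.asIdeal},
    ext0 l (ptOf W σ) (σ h)

/-! ### part A: algebra -/

/-- a presentation `y ^ 2 = f x` of the coordinate ring -/
structure Quad (F A : Type) [Field F] [CommRing A] [Algebra F A] where
  f : F[X]
  monic : f.Monic
  deg : f.natDegree = 3
  sep : f.Separable
  x : A
  y : A
  rel : y ^ 2 = aeval x f
  surj : ∀ h : A, ∃ g c : F[X], h = aeval x g + aeval x c * y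
  inj : ∀ g c : F[X], aeval x g + aeval x c * y = 0 → g = 0 ∧ c = 0

/-- the function `g + c y` -/
def Quad.el {F A : Type} [Field F] [CommRing A] [Algebra F A] (M : Quad F A) (g c : F[X]) : A :=
  aeval M.x g + aeval M.x c * M.y

/-- the degree of an ideal -/
def dg (F : Type) {A : Type} [Field F] [CommRing A] [Algebra F A] (I : Ideal A) : ℕ :=
  Module.finrank F (A ⧸ I)

/-- the order of the pole at infinity -/
def del (F : Type) {A : Type} [Field F] [CommRing A] [Algebra F A] (h : A) : ℕ :=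
  dg F (Ideal.span {h})

/-- an integral model -/
structure Model (A : Type) [CommRing A] [Algebra ℚ A] extends Quad ℚ A where
  fz : ℤ[X]
  hfz : fz.map (Int.castRingHom ℚ) = f

/-- order of vanishing -/
def ord {A : Type} [CommRing A] (P : MaximalSpectrum A) (f : A) : ℕ :=
  multiplicity P.asIdeal (Ideal.span {f})

/-- `∑ ord_P(f) φ_P(h)` -/
def pair {A : Type} [CommRing A] (φ : MaximalSpectrum A → A → ℝ) (f h : A) : ℝ :=
  ∑ᶠ P, (ord P f : ℝ) * φ P h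

/-- a family of homomorphisms from the unit groups of the residue fields (extended by zero) that
kills the tame symbols of coprime pairs -/
structure IsFn {A : Type} [CommRing A] (φ : MaximalSpectrum A → A → ℝ) : Prop where
  zero : ∀ P h, h ∈ P.asIdeal → φ P h = 0
  congr : ∀ P h h', h - h' ∈ P.asIdeal → φ P h = φ P h'
  mul : ∀ P h h', h ∉ P.asIdeal → h' ∉ P.asIdeal → φ P (h * h') = φ P h + φ P h'
  recip : ∀ f h : A, f ≠ 0 → h ≠ 0 → IsCoprime f h → pair φ f h = pair φ h f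

/-- `φ` changes sign under `ι` -/
def Anti {A : Type} [CommRing A] [Algebra ℚ A] (ι : A ≃ₐ[ℚ] A)
    (φ : MaximalSpectrum A → A → ℝ) : Prop :=
  ∀ (P Q : MaximalSpectrum A), (∀ h, h ∈ P.asIdeal ↔ ι h ∈ Q.asIdeal) →
    ∀ h, φ Q (ι h) = -φ P h

/-- the elements `γ₀ + γ₁ √D` for which the core statement is proved -/
def CoreCond (D : ℤ) (r : ℕ) (γ₀ γ₁ : ℚ) : Prop :=
  r.Prime ∧ (∃ (K : ℕ) (a b : ℤ), (r : ℚ) ^ K * γ₀ = a ∧ (r : ℚ) ^ K * γ₁ = b) ∧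
    (∃ T : ℤ, 2 * γ₀ = T ∧ ¬ (r : ℤ) ∣ T) ∧ ∃ h : ℕ, 1 ≤ h ∧ |γ₀ ^ 2 - γ₁ ^ 2 * D| = (r : ℚ) ^ h

/-- a monic separable integral cubic with nonzero constant term -/
def Cubic0 (f : ℤ[X]) : Prop :=
  f.Monic ∧ f.natDegree = 3 ∧ (f.map (Int.castRingHom ℚ)).Separable ∧ f.coeff 0 ≠ 0

/-- the curve `y ^ 2 = f x` -/
def wc (f : ℤ[X]) (R : Type) [CommRing R] : WeierstrassCurve R :=
  ⟨0, ((f.coeff 2 : ℤ) : R), 0, ((f.coeff 1 : ℤ) : R), ((f.coeff 0 : ℤ) : R)⟩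

/-- a function with divisor `(2 k - 1) P₁ + Q`, `Q` close to `P₁ = (0, w₀)` -/
structure NearData (r : ℕ) [Fact r.Prime] (f : ℤ[X]) (w₀ : ℚ_[r]) (n k : ℕ) (g c : ℚ_[r][X])
    (xQ yQ l : ℚ_[r]) : Prop where
  l0 : l ≠ 0
  norm : g ^ 2 - c ^ 2 * f.map (Int.castRingHom ℚ_[r]) = C l * X ^ (2 * k - 1) * (X - C xQ)
  atP : g.coeff 0 - c.coeff 0 * w₀ ≠ 0
  atQ : g.eval xQ + c.eval xQ * yQ = 0
  onE : yQ ^ 2 = aeval xQ f
  nx : ‖xQ‖ ≤ (r : ℝ) ^ (-(n : ℤ))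
  ny : ‖yQ - w₀‖ ≤ (r : ℝ) ^ (-(n : ℤ))

/-- homogeneous evaluation in degree `d` -/
def hev (d : ℕ) (g : ℤ[X]) (a b : ℤ) : ℤ := ∑ i ∈ range (d + 1), g.coeff i * a ^ i * b ^ (d - i)

/-- the norm of `g + c y` -/
def nrm (f g c : ℤ[X]) : ℤ[X] := g ^ 2 - c ^ 2 * f

/-- the fixed arithmetic data -/
structure Par where
  f : ℤ[X]
  hf : Cubic0 f
  k : ℕ
  hk : 5 ≤ k
  r : ℕ
  hr : r.Prime
  n0 : ℕ
  e : ℕ
  E0 : ℕ
  hn : e + 2 ≤ n0
  hE : e < E0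
  g0 : ℤ[X]
  c0 : ℤ[X]
  dg : g0.natDegree ≤ k
  dc : c0.natDegree ≤ k - 2
  const : ((nrm f g0 c0).coeff 0).natAbs = r ^ E0
  /-- every section congruent to the base section has a Newton polygon with one slope -/
  slope : ∀ g c : ℤ[X], g.natDegree ≤ k → c.natDegree ≤ k - 2 → g.coeff 0 = g0.coeff 0 →
    c.coeff 0 = c0.coeff 0 → C ((r : ℤ) ^ n0) ∣ g - g0 → C ((r : ℤ) ^ n0) ∣ c - c0 →
    (r : ℤ) ^ e ∣ (nrm f g c).coeff (2 * k) ∧ ¬ (r : ℤ) ^ (e + 1) ∣ (nrm f g c).coeff (2 * k) ∧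
      ∀ i ≤ 2 * k, (r : ℤ) ^ (2 * k * e + (2 * k - i) * (E0 - e)) ∣
        (nrm f g c).coeff i ^ (2 * k)

namespace Par

variable (p : Par)

/-- indices of the free coefficients of a section -/
abbrev Ix := Fin p.k ⊕ Fin (p.k - 2)

/-- free coefficients of a section -/
abbrev Co := p.Ix → ℤ

def gp (s : p.Co) : ℤ[X] :=
  p.g0 + C ((p.r : ℤ) ^ p.n0) * ∑ i : Fin p.k, C (s (.inl i)) * X ^ (i.1 + 1)

def cp (s : p.Co) : ℤ[X] :=
  p.c0 + C ((p.r : ℤ) ^ p.n0) * ∑ i : Fin (p.k - 2), C (s (.inr i)) * X ^ (i.1 + 1)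

def F (s : p.Co) : ℤ[X] := nrm p.f (p.gp s) (p.cp s)

def FR (s : p.Co) : ℝ[X] := (p.F s).map (Int.castRingHom ℝ)

def D (t : ℤ × ℤ) : ℤ := hev 4 p.f t.1 t.2

def gt (s : p.Co) (t : ℤ × ℤ) : ℤ := hev p.k (p.gp s) t.1 t.2

def ct (s : p.Co) (t : ℤ × ℤ) : ℤ := hev (p.k - 2) (p.cp s) t.1 t.2

/-- the norm of the section `s` on the fibre `t` -/
def N (s : p.Co) (t : ℤ × ℤ) : ℤ := p.gt s t ^ 2 - p.ct s t ^ 2 * p.D t

end Par

/-- the section as a function -/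
def Model.sec {A : Type} [CommRing A] [Algebra ℚ A] (M : Model A) (p : Par) (s : p.Co) : A :=
  M.el ((p.gp s).map (Int.castRingHom ℚ)) ((p.cp s).map (Int.castRingHom ℚ))

/-- the equation of the fibre -/
def Model.fib {A : Type} [CommRing A] [Algebra ℚ A] (M : Model A) (t : ℤ × ℤ) : A :=
  (t.2 : A) * M.x - (t.1 : A)

/-- the value to be killed -/
def Model.beta {A : Type} [CommRing A] [Algebra ℚ A] (M : Model A) (p : Par)
    (φ : MaximalSpectrum A → A → ℝ) : ℝ :=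
  pair φ M.x (((p.g0.coeff 0 : ℤ) : A) + ((p.c0.coeff 0 : ℤ) : A) * M.y)

/-- a point of the curve modulo a prime: `(q, τ, w)` -/
abbrev Pt := ℕ × ℕ × ℕ

/-- `x` is a point modulo an odd prime with both coordinates nonzero -/
def Par.IsPt (p : Par) (x : Pt) : Prop :=
  x.1.Prime ∧ x.1 ≠ 2 ∧ x.1 ≠ p.r ∧ 0 < x.2.1 ∧ x.2.1 < x.1 ∧ 0 < x.2.2 ∧ x.2.2 < x.1 ∧
    (x.1 : ℤ) ∣ (x.2.2 : ℤ) ^ 2 - p.f.eval (x.2.1 : ℤ)

def inv (x : Pt) : Pt := (x.1, x.2.1, x.1 - x.2.2)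

/-- `x` lies on the fibre `t` -/
def OnT (x : Pt) (t : ℤ × ℤ) : Prop := (x.1 : ℤ) ∣ t.1 - x.2.1 * t.2 ∧ ¬ (x.1 : ℤ) ∣ t.2

/-- `x` lies on the section `s` -/
def Par.OnS (p : Par) (x : Pt) (s : p.Co) : Prop :=
  (x.1 : ℤ) ∣ (p.gp s).eval (x.2.1 : ℤ) + (p.cp s).eval (x.2.1 : ℤ) * x.2.2

/-- fibres that are allowed at the prime `r` and at infinity -/
def Par.Adm (p : Par) (t : ℤ × ℤ) : Prop :=
  0 < t.2 ∧ p.D t < 0 ∧ (p.r : ℤ) ^ p.n0 ∣ t.1 - 1 ∧ (p.r : ℤ) ^ p.n0 ∣ t.2 - p.r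

/-- the intersection of `t` and `s` is the sum of the points `x i`, away from `r` -/
def Par.Good (p : Par) {u : ℕ} (t : ℤ × ℤ) (s : p.Co) (x : Fin u → Pt) : Prop :=
  (∀ i, p.IsPt (x i) ∧ OnT (x i) t ∧ p.OnS (x i) s) ∧ (Function.Injective fun i => (x i).1) ∧
    p.N s t = (p.r : ℤ) ^ p.e * ∏ i, ((x i).1 : ℤ)

/-! ### part B: the abstract design -/

/-- number of tuples in `[0, N) ^ r` with sum `m` -/
def cnt (r N : ℕ) (m : ℤ) : ℕ :=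
  (univ.filter fun i : Fin r → Fin N => ∑ j, ((i j).1 : ℤ) = m).card

/-- the prescribed sum of the levels -/
def Mz (N u : ℕ) : ℤ := (((u + 2) * N / 2 : ℕ) : ℤ)

/-- law of two levels of a tuple of length `u + 2` -/
def Hh (N u i i' : ℕ) : ℝ := (cnt u N (Mz N u - i - i') : ℝ) / cnt (u + 2) N (Mz N u)

/-- law of one level -/
def P1 (N u i : ℕ) : ℝ := ∑ i' ∈ range N, Hh N u i i'

/-- the mean of `(∑ φ (i j) + A) ^ 2` over the tuples with the prescribed sum -/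
def Form (N u : ℕ) (φ : ℕ → ℝ) (A : ℝ) : ℝ :=
  (u + 2) * ∑ i ∈ range N, P1 N u i * φ i ^ 2 +
    (u + 2) * (u + 1) * ∑ i ∈ range N, ∑ i' ∈ range N, Hh N u i i' * (φ i * φ i') +
    2 * (u + 2) * A * ∑ i ∈ range N, P1 N u i * φ i + A ^ 2

/-- primes, points and weights -/
structure Base (P X : Type) where
  N : ℕ
  pr : X → P
  lev : P → ℕ
  q : P → ℝ
  v : P → ℝ
  w : P → ℝ
  ι : X → X

/-- a weighted family of subsets of the set of points -/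
structure Side (X Z : Type) where
  on : X → Z → Prop
  wt : Z → ℝ

/-- real coordinates of the fibres and the cells -/
structure Box (T : Type) (Nc : ℕ) where
  τ0 : ℝ
  B : ℝ
  η : ℝ
  τ : T → ℝ
  b : T → ℝ
  cell : T → Fin Nc × Fin Nc

section B

variable {P X Z T S C : Type} [Fintype P] [Fintype X] [Fintype Z] [Fintype T] [Fintype S]
  [Fintype C]

structure Base.Ok (b : Base P X) (ε : ℝ) : Prop where
  Npos : 1 ≤ ε * b.N
  lev_lt : ∀ a, b.lev a < b.N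
  v_mem : ∀ a, (b.lev a : ℝ) / b.N ≤ b.v a ∧ b.v a ≤ (b.lev a + 1) / b.N
  q_ge : ∀ a, (b.N : ℝ) ≤ ε * b.q a
  w_nonneg : ∀ a, 0 ≤ b.w a
  w_le : ∀ a, b.w a ≤ ε / b.N
  w_sum : ∀ i < b.N, ∑ a with b.lev a = i, b.w a = 1
  card : ∀ a, |((univ.filter fun x => b.pr x = a).card : ℝ) / b.q a - 1| ≤ ε / b.N
  ι_ι : ∀ x, b.ι (b.ι x) = x
  pr_ι : ∀ x, b.pr (b.ι x) = b.pr x

/-- probability that all points of `Y` are incident -/
def Side.prob (σ : Side X Z) (Y : Finset X) : ℝ := ∑ z with ∀ x ∈ Y, σ.on x z, σ.wt z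

structure Side.Ok (σ : Side X Z) (b : Base P X) (ε : ℝ) : Prop where
  nonneg : ∀ z, 0 ≤ σ.wt z
  sum : ∑ z, σ.wt z = 1
  ind : ∀ Y : Finset X, Y.card ≤ 3 → Set.InjOn b.pr Y →
    |σ.prob Y * (∏ x ∈ Y, b.q (b.pr x)) - 1| ≤ ε / b.N
  same0 : ∀ x, ∑ x' with b.pr x' = b.pr x, σ.prob {x, x'} * b.q (b.pr x) ≤ 5
  same1 : ∀ x₀ x, b.pr x ≠ b.pr x₀ →
    ∑ x' with b.pr x' = b.pr x, σ.prob {x₀, x, x'} * (b.q (b.pr x₀) * b.q (b.pr x)) ≤ 5

/-- the cells are independent of the incidence with at most two points -/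
def Side.CellInd (σ : Side X Z) (b : Base P X) (cell : Z → C) (ε : ℝ) : Prop :=
  ∀ Y : Finset X, Y.card ≤ 2 → Set.InjOn b.pr Y → ∀ c,
    |(∑ z with cell z = c ∧ ∀ x ∈ Y, σ.on x z, σ.wt z) * (∏ x ∈ Y, b.q (b.pr x)) *
      Fintype.card C - 1| ≤ ε / b.N

/-- the fibres lie in their cells -/
structure Box.Mem {Nc : ℕ} (β : Box T Nc) : Prop where
  Bpos : 0 < β.B
  ηpos : 0 < β.η
  ηle : β.η ≤ 1
  τ_ge : ∀ t, β.τ0 + (β.cell t).1.1 * β.η / Nc ≤ β.τ t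
  τ_le : ∀ t, β.τ t ≤ β.τ0 + ((β.cell t).1.1 + 1) * β.η / Nc
  b_ge : ∀ t, β.B * (1 + (β.cell t).2.1 * β.η / Nc) ≤ β.b t
  b_le : ∀ t, β.b t ≤ β.B * (1 + ((β.cell t).2.1 + 1) * β.η / Nc)

structure Box.Ok {Nc : ℕ} (β : Box T Nc) (σ : Side X T) (b : Base P X) (ε : ℝ) : Prop where
  mem : β.Mem
  cell : σ.CellInd b β.cell ε
  inv : ∀ x t, σ.on x t → σ.on (b.ι x) t

/-- ideal law of a pair of points -/
def Base.om (b : Base P X) (u : ℕ) (x x' : X) : ℝ :=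
  if b.pr x ≠ b.pr x' then
    b.w (b.pr x) * b.w (b.pr x') * Hh b.N u (b.lev (b.pr x)) (b.lev (b.pr x')) /
      (b.q (b.pr x) * b.q (b.pr x'))
  else 0

/-- law of `z` given one point -/
def Side.c1 (σ : Side X Z) (b : Base P X) (x : X) (z : Z) : ℝ :=
  if σ.on x z then σ.wt z * b.q (b.pr x) else 0

/-- law of `z` given two points -/
def Side.c2 (σ : Side X Z) (b : Base P X) (x x' : X) (z : Z) : ℝ :=
  if σ.on x z ∧ σ.on x' z then σ.wt z * (b.q (b.pr x) * b.q (b.pr x')) else 0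

/-- weight of the points on `z` -/
def Side.m (σ : Side X Z) (b : Base P X) (z : Z) (x : X) : ℝ :=
  if σ.on x z then b.w (b.pr x) else 0

/-- law of an incident pair -/
def Side.flag (σ : Side X Z) (b : Base P X) (x : X) (z : Z) : ℝ := σ.wt z * σ.m b z x / b.N

/-- the ideal law of a fibre, a section and two common points -/
def nu (b : Base P X) (σT : Side X T) (σS : Side X S) (u : ℕ) (t : T) (s : S) (x x' : X) : ℝ :=
  b.om u x x' * σT.c2 b x x' t * σS.c2 b x x' s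

/-- `μ` is a symmetric weight on incident tuples -/
structure Tup (b : Base P X) (σT : Side X T) (σS : Side X S) (u : ℕ)
    (μ : T → S → (Fin (u + 2) → X) → ℝ) : Prop where
  nonneg : ∀ t s x, 0 ≤ μ t s x
  symm : ∀ t s x (σ : Equiv.Perm (Fin (u + 2))), μ t s (x ∘ σ) = μ t s x
  supp : ∀ t s x, μ t s x ≠ 0 →
    (∀ i, σT.on (x i) t ∧ σS.on (x i) s) ∧ Function.Injective fun i => b.pr (x i)

/-- the two-point marginal of `μ` is close to `nu` in cut norm -/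
structure Mix (b : Base P X) (σT : Side X T) (σS : Side X S) (u : ℕ)
    (μ : T → S → (Fin (u + 2) → X) → ℝ) (ε : ℝ) : Prop where
  tup : Tup b σT σS u μ
  cut : ∀ (φ : T → X → X → ℝ) (ψ : S → X → X → ℝ), (∀ t x x', |φ t x x'| ≤ 1) →
    (∀ s x x', |ψ s x x'| ≤ 1) →
    |∑ t, ∑ s, ∑ x, μ t s x * (φ t (x 0) (x 1) * ψ s (x 0) (x 1)) -
      ∑ t, ∑ s, ∑ x, ∑ x', nu b σT σS u t s x x' * (φ t x x' * ψ s x x')| ≤ ε

/-- a mixing design -/
structure Des (b : Base P X) (σT : Side X T) (σS : Side X S) (u : ℕ)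
    (μ : T → S → (Fin (u + 2) → X) → ℝ) (ε : ℝ) : Prop where
  base : b.Ok ε
  sT : σT.Ok b ε
  sS : σS.Ok b ε
  mix : Mix b σT σS u μ ε

/-- the local structure seen from one fibre or one section -/
structure Loc (N u : ℕ) (lev : X → ℕ) (m : X → ℝ) (π : Z → (Fin (u + 2) → X) → ℝ) (cell : Z → C)
    (ε : ℝ) : Prop where
  Npos : 1 ≤ ε * N
  lev_lt : ∀ x, lev x < N
  m_nonneg : ∀ x, 0 ≤ m x
  m_sum : ∀ i < N, |∑ x with lev x = i, m x - 1| ≤ ε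
  nonneg : ∀ z x, 0 ≤ π z x
  symm : ∀ z x (σ : Equiv.Perm (Fin (u + 2))), π z (x ∘ σ) = π z x
  tv : ∑ c, ∑ a, ∑ a', |∑ z with cell z = c, ∑ x with x 0 = a ∧ x 1 = a', π z x -
    m a * m a' * Hh N u (lev a) (lev a') / Fintype.card C| ≤ ε

/-- mean of `ψ` on a level -/
def levMean (lev : X → ℕ) (m ψ : X → ℝ) (i : ℕ) : ℝ :=
  (∑ x with lev x = i, m x * ψ x) / ∑ x with lev x = i, m x

/-- a bound at some point of most cells gives a bound everywhere and a small oscillation -/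
def RemP (A Lg : Z → ℝ) (cell : Z → C) (CR δ θ : ℝ) : Prop :=
  ∀ φ₀ κ M : ℝ, 0 ≤ M → (1 - δ) * Fintype.card C ≤
      ((univ.filter fun c => ∃ z, cell z = c ∧ |A z + φ₀ + κ * Lg z| ≤ M).card : ℝ) →
    (∀ z, |A z + φ₀ + κ * Lg z| ≤ CR * M) ∧
      ∀ z z', cell z = cell z' → |A z + κ * Lg z - (A z' + κ * Lg z')| ≤ θ * M

end B

/-- a design with a cochain -/
structure Sys (P X T S : Type) (Nc u : ℕ) where
  b : Base P X
  σT : Side X T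
  σS : Side X S
  box : Box T Nc
  μ : T → S → (Fin (u + 2) → X) → ℝ
  c₁ : X → T → ℝ
  c₂ : X → S → ℝ
  F : S → ℝ[X]
  Q : S → ℝ[X]
  A : S → ℝ → ℝ
  c : ℝ
  β : ℝ

namespace Sys

variable {P X T S : Type} [Fintype P] [Fintype X] [Fintype T] [Fintype S] {Nc u : ℕ}
  (G : Sys P X T S Nc u)

/-- the interval of the first coordinate -/
def I : Set ℝ := Set.Icc G.box.τ0 (G.box.τ0 + G.box.η)

/-- the logarithm of the norm -/
def Lg (d : ℕ) (s : S) (t : T) : ℝ :=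
  Real.log ((G.F s).eval (G.box.τ t)) + (d + 1) * Real.log (G.box.b t) + G.c

structure Ok (d : ℕ) (ε : ℝ) : Prop where
  des : Des G.b G.σT G.σS u G.μ ε
  box : G.box.Ok G.σT G.b ε
  anti : ∀ x t, G.σT.on x t → G.c₁ (G.b.ι x) t = -G.c₁ x t
  degF : ∀ s, (G.F s).natDegree ≤ d + 1
  degQ : ∀ s, (G.Q s).natDegree ≤ d
  pos : ∀ s, ∀ a ∈ G.I, 0 < (G.F s).eval a
  flat : ∀ s, ∀ a ∈ G.I, ∀ a' ∈ G.I, (G.F s).eval a ≤ 2 * (G.F s).eval a'
  deriv : ∀ s, ∀ a ∈ G.I, HasDerivAt (G.A s) ((G.Q s).eval a / (G.F s).eval a) a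
  zero : ∀ s, G.Q s = 0 → ∀ a ∈ G.I, G.A s a = 0
  size : ∀ t s x, G.μ t s x ≠ 0 → ∑ i, G.b.v (G.b.pr (x i)) = G.Lg d s t
  eqn : ∀ t s x, G.μ t s x ≠ 0 →
    ∑ i, G.c₁ (x i) t = G.β + ∑ i, G.c₂ (x i) s + G.A s (G.box.τ t)

/-- `c₁` is within `lam` of the anti-invariant function `a` off a set of mass `h` -/
def PT (a : X → ℝ) (lam h : ℝ) : Prop :=
  (∀ x, a (G.b.ι x) = -a x) ∧ ∑ t, ∑ x with lam < |G.c₁ x t - a x|, G.σT.flag G.b x t ≤ h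

/-- on most sections `c₂ - a + β / n` is within `lam` of an affine function of the size -/
def RS (d : ℕ) (a : X → ℝ) (lam h ε : ℝ) : Prop :=
  ∃ Gd : Finset S, ∑ s with s ∉ Gd, G.σS.wt s ≤ ε ∧ ∀ s ∈ Gd, ∃ φ₀ κ : ℝ,
    (∑ x with lam < |G.c₂ x s - a x + G.β / (u + 2) - φ₀ - κ * G.b.v (G.b.pr x)|,
      G.σS.m G.b s x) / G.b.N ≤ h ∧
    ∀ t, |G.A s (G.box.τ t) + (u + 2) * φ₀ + κ * G.Lg d s t| ≤ lam

end Sys

/-! ### part N: number theory -/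

/-- an imaginary quadratic field with a chosen square root of `D` -/
structure IQ (L : Type) [Field L] [NumberField L] where
  D : ℤ
  neg : D < 0
  ω : 𝓞 L
  sq : ω ^ 2 = D
  deg : Module.finrank ℚ L = 2
  σ : L →+* ℂ
  c : 𝓞 L ≃+* 𝓞 L
  cω : c ω = -ω

/-- the direction of a complex number -/
def dir (z : ℂ) : ℂ := z / (‖z‖ : ℂ)

/-- `I` is coprime to `n` -/
def Cop {L : Type} [Field L] (n : ℕ) (I : Ideal (𝓞 L)) : Prop :=
  IsCoprime I (Ideal.span {(n : 𝓞 L)})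

/-- a unitary character of the ideals coprime to `n`, extended by zero -/
structure IsChar {L : Type} [Field L] (n : ℕ) (χ : Ideal (𝓞 L) →* ℂ) : Prop where
  norm_cop : ∀ I, Cop n I → ‖χ I‖ = 1
  zero : ∀ I, ¬ Cop n I → χ I = 0

/-- a ray class character of modulus `n` and angular type `k` -/
structure IsHChar {L : Type} [Field L] (σ : L →+* ℂ) (n : ℕ) (k : ℤ)
    (χ : Ideal (𝓞 L) →* ℂ) : Prop extends IsChar n χ where
  prin : ∀ α : 𝓞 L, (n : 𝓞 L) ∣ α - 1 → χ (Ideal.span {α}) = dir (σ α) ^ k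

/-- the trivial character -/
def IsTriv {L : Type} [Field L] (n : ℕ) (χ : Ideal (𝓞 L) →* ℂ) : Prop :=
  ∀ I, Cop n I → χ I = 1

/-- invariance under conjugation -/
def IQ.Sym {L : Type} [Field L] [NumberField L] (K : IQ L) (χ : Ideal (𝓞 L) →* ℂ) : Prop :=
  ∀ I : Ideal (𝓞 L), χ (I.map K.c) = χ I

/-- the relation forced on `χ` by a pole of a Rankin-Selberg series -/
def IQ.Adj {L : Type} [Field L] [NumberField L] (K : IQ L) (χ : Ideal (𝓞 L) →* ℂ) (D' : ℤ)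
    (m : ℕ) : Prop :=
  (∀ I, Cop m I → χ (I.map K.c) ^ 2 = χ I ^ 2) ∧
    ∀ q : ℕ, q.Prime → ¬ q ∣ m → IsSquare (D' : ZMod q) → ∀ I : Ideal (𝓞 L),
      Ideal.absNorm I = q → χ (I.map K.c) = χ I

/-- sum over the ideals of norm `m` -/
def lam {L : Type} [Field L] [NumberField L] (χ : Ideal (𝓞 L) → ℂ) (m : ℕ) : ℂ :=
  ∑ᶠ I ∈ {I : Ideal (𝓞 L) | Ideal.absNorm I = m}, χ I

/-- the ideal attached to a point on the fibre `t` -/
def IQ.J {L : Type} [Field L] [NumberField L] (K : IQ L) (t : ℤ × ℤ) (x : Pt) : Ideal (𝓞 L) :=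
  Ideal.span {(x.1 : 𝓞 L), K.ω - ((t.2 ^ 2 * x.2.2 : ℤ) : 𝓞 L)}

/-- the value of the section `s` on the fibre `t` -/
def IQ.al {L : Type} [Field L] [NumberField L] (K : IQ L) (p : Par) (t : ℤ × ℤ) (s : p.Co) :
    𝓞 L := (p.gt s t : 𝓞 L) + (p.ct s t : 𝓞 L) * K.ω

/-- covolume of the ring of integers of an imaginary quadratic field -/
def cov (L : Type) [Field L] [NumberField L] : ℝ := √(|discr L| : ℝ) / 2

/-- number of invertible residues -/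
def phi (L : Type) [Field L] (n : ℕ) : ℕ := Nat.card (𝓞 L ⧸ Ideal.span {(n : 𝓞 L)})ˣ

/-- number of units -/
def wu (L : Type) [Field L] : ℕ := Nat.card (𝓞 L)ˣ

/-- the inverse of the ray class number -/
def ir (L : Type) [Field L] [NumberField L] (n : ℕ) : ℝ := wu L / (classNumber L * phi L n)

/-- `I` and `J` lie in the same ray class -/
def Ray {L : Type} [Field L] (n : ℕ) (I J : Ideal (𝓞 L)) : Prop :=
  ∃ α β : 𝓞 L, α ≠ 0 ∧ β ≠ 0 ∧ (n : 𝓞 L) ∣ α - 1 ∧ (n : 𝓞 L) ∣ β - 1 ∧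
    I * Ideal.span {α} = J * Ideal.span {β}

/-- a totally complex quartic field with a small basis -/
structure Quart (K : Type) [Field K] [NumberField K] (Q : ℝ) where
  σ₁ : K →+* ℂ
  σ₂ : K →+* ℂ
  deg : Module.finrank ℚ K = 4
  nrm : ∀ β : 𝓞 K, (Ideal.absNorm (Ideal.span {β}) : ℝ) = ‖σ₁ β‖ ^ 2 * ‖σ₂ β‖ ^ 2
  b : Fin 4 → 𝓞 K
  li : LinearIndependent ℝ fun j => (σ₁ (b j), σ₂ (b j))
  le₁ : ∀ j, ‖σ₁ (b j)‖ ≤ Q
  le₂ : ∀ j, ‖σ₂ (b j)‖ ≤ Q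

/-- a ray class character of a quartic field -/
structure Quart.IsH {K : Type} [Field K] [NumberField K] {Q : ℝ} (F : Quart K Q) (m : ℕ)
    (k₁ k₂ : ℤ) (ψ : Ideal (𝓞 K) →* ℂ) : Prop extends IsChar m ψ where
  prin : ∀ β : 𝓞 K, (m : 𝓞 K) ∣ β - 1 →
    ψ (Ideal.span {β}) = dir (F.σ₁ β) ^ k₁ * dir (F.σ₂ β) ^ k₂

def tent (v : ℝ) : ℝ := max 0 (1 - |v|)

def clamp (v : ℝ) : ℝ := max 0 (min 1 v)

/-- the test function on `ℂ × ℂ` -/
def wfn (k₁ k₂ : ℤ) (Z R : ℝ) (z₁ z₂ : ℂ) : ℂ :=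
  dir z₁ ^ k₁ * dir z₂ ^ k₂ * (tent (‖z₁‖ ^ 2 * ‖z₂‖ ^ 2 / Z - 3 / 2) *
    (clamp (Real.log ‖z₁‖ - Real.log ‖z₂‖) - clamp (Real.log ‖z₁‖ - Real.log ‖z₂‖ - R)) : ℝ)

/-- the Fejer kernel on the unit circle -/
def fej (R : ℕ) (z : ℂ) : ℝ :=
  (∑ k ∈ Finset.Ioo (-(R : ℤ)) R, (1 - |(k : ℝ)| / R : ℝ) * z ^ k).re

/-- `exp (2 π i j / M)` -/
def rt (M j : ℕ) : ℂ := Complex.exp (2 * Real.pi * Complex.I * j / M)

/-- radial tent -/
def sh (N : ℕ) (X2 : ℝ) (m : ℕ) (z : ℂ) : ℝ :=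
  if z = 0 then 0 else tent (N * Real.log (‖z‖ ^ 2 / X2) - m)

/-- the primes of the stratum `i` -/
def strat (y : ℝ) (N i : ℕ) : Finset ℕ :=
  (range (⌈3 * y⌉₊ + 1)).filter fun q => q.Prime ∧ ⌊N * Real.log (q / y)⌋ = i

/-- the primes of the window -/
def Pset (y : ℝ) (N : ℕ) : Finset ℕ := (range N).biUnion (strat y N)

/-- the stratum of a prime -/
def lv (y : ℝ) (N q : ℕ) : ℕ := ⌊N * Real.log (q / y)⌋₊

/-- the weight of a prime in its stratum -/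
def wt (y : ℝ) (N q : ℕ) : ℝ := Real.log q / ∑ q' ∈ strat y N (lv y N q), Real.log q'

/-- the sum of a function over a stratum -/
def Sm (y : ℝ) (N i : ℕ) (a : ℕ → ℂ) : ℂ := ∑ q ∈ strat y N i, wt y N q * a q

/-- the contribution of the nontrivial Dirichlet characters modulo `n` -/
def E2 (y : ℝ) (N u n : ℕ) : ℝ :=
  ∑ i ∈ range N, ∑ᶠ η ∈ {η : DirichletCharacter ℂ n | η ≠ 1}, ‖Sm y N i fun q => η q‖ ^ u

/-- the contribution of the nontrivial ray class characters -/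
def Err {L : Type} [Field L] [NumberField L] (σ : L →+* ℂ) (y : ℝ) (N u n R : ℕ) : ℝ :=
  ∑ k ∈ Finset.Ioo (-(R : ℤ)) R, ∑ᶠ χ ∈ {χ : Ideal (𝓞 L) →* ℂ | IsHChar σ n k χ ∧ ¬ IsTriv n χ},
    ∑ i ∈ range N, ‖Sm y N i (lam χ)‖ ^ u

/-- the primes coprime to `n` are equidistributed in ray classes and sectors -/
def EqD {L : Type} [Field L] [NumberField L] (σ : L →+* ℂ) (y : ℝ) (N u n : ℕ) (ε : ℝ) : Prop :=
  Err σ y N u n (N ^ 2) ≤ ε ∧
    ∀ χ : Ideal (𝓞 L) →* ℂ, IsChar n χ → IsTriv n χ → ∀ i < N, ‖Sm y N i (lam χ) - 1‖ ≤ ε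

/-- some non symmetric character has a large sum -/
def IQ.Bad {L : Type} [Field L] [NumberField L] (K : IQ L) (y : ℝ) (N : ℕ) (δ : ℝ) : Prop :=
  ∃ (n : ℕ) (k : ℤ) (χ : Ideal (𝓞 L) →* ℂ) (i : ℕ), 3 ≤ n ∧ (n : ℝ) ≤ y ^ 75 ∧ 2 * K.D ∣ n ∧
    |k| < (N : ℤ) ^ 2 ∧ IsHChar K.σ n k χ ∧ ¬ K.Sym χ ∧ i < N ∧ y ^ (-δ) < ‖Sm y N i (lam χ)‖

/-- weighted number of factorisations of `α` as `𝔞` times `u` primes of the window -/
def Wan {L : Type} [Field L] [NumberField L] (y : ℝ) (N u : ℕ) (𝔞 : Ideal (𝓞 L)) (α : 𝓞 L) : ℝ :=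
  ∑ q ∈ Fintype.piFinset fun _ : Fin u => Pset y N, (∏ j, wt y N (q j)) *
    Set.ncard {I : Fin u → Ideal (𝓞 L) | (∀ j, Ideal.absNorm (I j) = q j) ∧
      Ideal.span {α} = 𝔞 * ∏ j, I j}

/-- the smooth radial model of `Wan` on a coset of `n 𝔞` -/
def Lam {L : Type} [Field L] [NumberField L] (σ : L →+* ℂ) (y : ℝ) (N u n : ℕ)
    (𝔞 : Ideal (𝓞 L)) (α : 𝓞 L) : ℝ :=
  ∑ m ∈ range (u * N + 1), cnt u N m * ir L n *
    (n ^ 2 * cov L * N / (Real.pi * y ^ u * Real.exp (m / N))) *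
      sh N (Ideal.absNorm 𝔞 * y ^ u) m (σ α)

/-- the points of the window -/
def Xset (p : Par) (y : ℝ) (N : ℕ) : Finset Pt :=
  (Pset y N ×ˢ range (⌈3 * y⌉₊ + 1) ×ˢ range (⌈3 * y⌉₊ + 1)).filter p.IsPt

lemma Par.IsPt.inv {p : Par} {x : Pt} (h : p.IsPt x) : p.IsPt (inv x) := by
  obtain ⟨h1, h2, h3, h4, h5, h6, h7, h8⟩ := h
  refine ⟨h1, h2, h3, h4, h5, ?_, ?_, ?_⟩
  · simp only [VE.inv]; omega
  · simp only [VE.inv]; omega
  · simp only [VE.inv]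
    rw [Nat.cast_sub h7.le]
    obtain ⟨c, hc⟩ := h8
    exact ⟨c + x.1 - 2 * x.2.2, by linear_combination hc⟩

lemma fst_mem_Pset {p : Par} {y : ℝ} {N : ℕ} {x : Pt} (h : x ∈ Xset p y N) : x.1 ∈ Pset y N :=
  (mem_product.mp (mem_filter.mp h).1).1

lemma inv_mem_Xset {p : Par} {y : ℝ} {N : ℕ} {x : Pt} (h : x ∈ Xset p y N) :
    inv x ∈ Xset p y N := by
  have h1 := fst_mem_Pset h
  obtain ⟨h2, h3⟩ := mem_filter.mp h
  refine mem_filter.mpr ⟨?_, h3.inv⟩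
  simp only [mem_product, mem_range] at h2 ⊢
  refine ⟨h1, h2.2.1, ?_⟩
  obtain ⟨i, -, hi⟩ := mem_biUnion.mp h1
  have := mem_range.mp (mem_filter.mp hi).1
  simp only [VE.inv]; omega

/-- the base of the design -/
def base (p : Par) (y : ℝ) (N : ℕ) : Base (Pset y N) (Xset p y N) where
  N := N
  pr x := ⟨x.1.1, fst_mem_Pset x.2⟩
  lev q := lv y N q.1
  q q := q.1
  v q := Real.log (q.1 / y)
  w q := wt y N q.1
  ι x := ⟨inv x.1, inv_mem_Xset x.2⟩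

/-- centre of the box of sections -/
def cen (p : Par) (S0 : ℕ) : p.Co
  | .inl i => if i.1 + 1 = p.k then S0 else 0
  | .inr _ => 0

/-- the sections -/
def Sset (p : Par) (S0 L : ℕ) : Finset p.Co :=
  Fintype.piFinset fun j => Finset.Ioo (cen p S0 j - L) (cen p S0 j + L)

/-- the weight of a section -/
def wS (p : Par) (S0 L : ℕ) (s : p.Co) : ℝ :=
  ∏ j, tent (((s j - cen p S0 j : ℤ) : ℝ) / L) / L

def sideS (p : Par) (y : ℝ) (N S0 L : ℕ) : Side (Xset p y N) (Sset p S0 L) where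
  on x s := p.OnS x.1 s.1
  wt s := wS p S0 L s.1

/-- the parameters -/
structure Cfg where
  y : ℝ
  N : ℕ
  τ0 : ℝ
  η : ℝ
  B : ℝ
  z : ℕ
  S0 : ℕ
  L : ℕ

/-- product of the primes up to `z` other than `r` -/
def M0 (r z : ℕ) : ℕ := ∏ l ∈ (range (z + 1)).filter (fun l => l.Prime ∧ l ≠ r), l

/-- the fibres -/
def Tset (p : Par) (c : Cfg) : Finset (ℤ × ℤ) :=
  (Finset.Icc ⌊2 * c.B * c.τ0⌋ 0 ×ˢ Finset.Icc 0 ⌈2 * c.B⌉).filter fun t =>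
    c.B ≤ t.2 ∧ t.2 < c.B * (1 + c.η) ∧ c.τ0 ≤ (t.1 : ℝ) / t.2 ∧ (t.1 : ℝ) / t.2 < c.τ0 + c.η ∧
      (p.r : ℤ) ^ p.n0 ∣ t.1 - 1 ∧ (p.r : ℤ) ^ p.n0 ∣ t.2 - p.r ∧
      (M0 p.r c.z : ℤ) ∣ t.1 ∧ (M0 p.r c.z : ℤ) ∣ t.2 - 1

/-- the weight of a fibre -/
def wT (p : Par) (c : Cfg) (t : ℤ × ℤ) : ℝ := ((t.2 : ℝ))⁻¹ / ∑ t' ∈ Tset p c, ((t'.2 : ℝ))⁻¹

def sideT (p : Par) (c : Cfg) : Side (Xset p c.y c.N) (Tset p c) where
  on x t := OnT x.1 t.1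
  wt t := wT p c t.1

def box (p : Par) (c : Cfg) (Nc : ℕ) [NeZero Nc] : Box (Tset p c) Nc where
  τ0 := c.τ0
  B := c.B
  η := c.η
  τ t := (t.1.1 : ℝ) / t.1.2
  b t := t.1.2
  cell t := (Fin.ofNat Nc ⌊Nc * ((t.1.1 : ℝ) / t.1.2 - c.τ0) / c.η⌋₊,
    Fin.ofNat Nc ⌊Nc * ((t.1.2 : ℝ) / c.B - 1) / c.η⌋₊)

/-- the cubic is negative to the left of `τ0 + 1` -/
def Par.Tau (p : Par) (τ0 : ℝ) : Prop := τ0 ≤ -2 ∧ ∀ a : ℝ, a ≤ τ0 + 1 → aeval a p.f ≤ -1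

/-- the fixed constants: everything except `y` and what depends on it -/
structure Fix where
  p : Par
  τ0 : ℝ
  tau : p.Tau τ0
  u : ℕ
  A : ℕ
  η : ℝ
  ηpos : 0 < η
  ηle : η ≤ 1
  z : ℕ

/-- the ranges of the parameters -/
structure Fix.In (F : Fix) (c : Cfg) : Prop where
  τ0 : c.τ0 = F.τ0
  η : c.η = F.η
  z : c.z = F.z
  N_ge : Real.log c.y ^ (6 * F.A) ≤ c.N
  N_le : c.N ≤ 2 * Real.log c.y ^ (6 * F.A)
  B_ge : c.y ^ 4 ≤ c.B
  B_le : c.B ≤ c.y ^ 6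
  S_ge : c.y ^ 200 ≤ c.S0
  L_ge : c.η * c.S0 / 2 ≤ c.L
  L_le : c.L ≤ c.η * c.S0
  size : c.B ^ (2 * F.p.k) * ((F.p.r : ℝ) ^ F.p.n0 * c.S0 * c.τ0 ^ F.p.k) ^ 2 =
    (F.p.r : ℝ) ^ F.p.e * c.y ^ (F.u + 2) * Real.exp ((F.u + 2) / 2)

/-- `Φ` holds for all large `y` -/
def Fix.Ev (F : Fix) (Φ : Cfg → Prop) : Prop := ∃ y₀ : ℝ, ∀ c, y₀ ≤ c.y → F.In c → Φ c

/-- the determinant of two fibres -/
def dl (t t' : ℤ × ℤ) : ℤ := t.1 * t'.2 - t'.1 * t.2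

/-- the modulus attached to two points and two fibres -/
def nn (p : Par) (x x' : Pt) (t t' : ℤ × ℤ) : ℕ :=
  (2 * (p.r : ℤ) ^ p.n0 * x.1 * x'.1 * t.1 * t'.1 * dl t t' * p.D t * p.D t').natAbs

/-- the singular series majorant -/
def Pi (z n : ℕ) : ℝ := ∏ l ∈ n.primeFactors.filter (fun l => z < l), (1 + 10 / (l : ℝ))

/-- two points over different primes on two primitive fibres -/
structure IsQ (p : Par) (c : Cfg) (x x' : Pt) (t t' : ℤ × ℤ) : Prop where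
  hx : x ∈ Xset p c.y c.N
  hx' : x' ∈ Xset p c.y c.N
  ht : t ∈ Tset p c
  ht' : t' ∈ Tset p c
  ne : x.1 ≠ x'.1
  o11 : OnT x t
  o12 : OnT x t'
  o21 : OnT x' t
  o22 : OnT x' t'
  pr : IsCoprime t.1 t.2
  pr' : IsCoprime t'.1 t'.2

/-- weighted sum over the quadruples -/
def Qs (p : Par) (c : Cfg) (Φ : Pt → Pt → ℤ × ℤ → ℤ × ℤ → ℝ) : ℝ :=
  ∑ x ∈ Xset p c.y c.N, ∑ x' ∈ Xset p c.y c.N, ∑ t ∈ Tset p c, ∑ t' ∈ Tset p c,
    if IsQ p c x x' t t' then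
      wt c.y c.N x.1 * wt c.y c.N x'.1 * (x.1 * x'.1) * wT p c t * wT p c t' / c.N ^ 2 *
        Φ x x' t t'
    else 0

/-- conditional expectation over the sections through two points -/
def Es (p : Par) (c : Cfg) (x x' : Pt) (Φ : p.Co → ℝ) : ℝ :=
  ∑ s ∈ Sset p c.S0 c.L with p.OnS x s ∧ p.OnS x' s, wS p c.S0 c.L s * (x.1 * x'.1) * Φ s

/-- the normalising factor of a fibre -/
def kap (L : Type) [Field L] [NumberField L] (p : Par) (c : Cfg) (u : ℕ) : ℝ :=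
  Real.pi * c.y ^ (u + 2) * Real.exp (Mz c.N u / c.N) /
    (c.N * ir L (M0 p.r c.z * p.r) * cov L * ((M0 p.r c.z * p.r : ℕ) : ℝ) ^ 2 *
      cnt (u + 2) c.N (Mz c.N u))

/-- the normalising factor of a fibre and two points -/
def kap' (L : Type) [Field L] [NumberField L] (p : Par) (c : Cfg) (u : ℕ) (x x' : Pt) : ℝ :=
  kap L p c u / (x.1 * x'.1 * Hh c.N u (lv c.y c.N x.1) (lv c.y c.N x'.1))

/-- weighted number of completions of two points to a good tuple -/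
def Wg (p : Par) (c : Cfg) (u : ℕ) (t : ℤ × ℤ) (s : p.Co) (x x' : Pt) : ℝ :=
  ∑ v ∈ Fintype.piFinset fun _ : Fin u => Xset p c.y c.N with
    p.Good t s (Fin.cons x (Fin.cons x' v) : Fin (u + 2) → Pt), ∏ j, wt c.y c.N (v j).1

/-- the local density on the unit cosets -/
def cc (L : Type) [Field L] (m n : ℕ) : ℝ := (n : ℝ) ^ 2 * phi L m / (phi L n * (m : ℝ) ^ 2)

/-- the fixed part of the factorisation -/
def IQ.a0 {L : Type} [Field L] [NumberField L] (K : IQ L) (p : Par) (𝔮 : Ideal (𝓞 L))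
    (t : ℤ × ℤ) (x x' : Pt) : Ideal (𝓞 L) := 𝔮 ^ p.e * K.J t x * K.J t x'

/-- `α` is `𝔞` times an ideal coprime to `n` -/
def UnitC {L : Type} [Field L] (n : ℕ) (𝔞 : Ideal (𝓞 L)) (α : 𝓞 L) : Prop :=
  ∃ 𝔟, Ideal.span {α} = 𝔞 * 𝔟 ∧ Cop n 𝔟

/-- mass of the sections with prescribed values on two fibres -/
def om {L L' : Type} [Field L] [NumberField L] [Field L'] [NumberField L'] (K : IQ L) (K' : IQ L')
    (p : Par) (c : Cfg) (t t' : ℤ × ℤ) (α : 𝓞 L) (α' : 𝓞 L') : ℝ :=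
  ∑ s ∈ Sset p c.S0 c.L with K.al p t s = α ∧ K'.al p t' s = α', wS p c.S0 c.L s

/-- the design attached to the parameters has all the properties needed -/
structure Fine (p : Par) (c : Cfg) (u Nc : ℕ) [NeZero Nc] (ε : ℝ) : Prop where
  ypos : 0 < c.y
  box : (box p c Nc).Ok (sideT p c) (base p c.y c.N) ε
  adm : ∀ t ∈ Tset p c, p.Adm t
  pos : ∀ s ∈ Sset p c.S0 c.L, ∀ a ∈ Set.Icc c.τ0 (c.τ0 + c.η), 0 < (p.FR s).eval a
  flat : ∀ s ∈ Sset p c.S0 c.L, ∀ a ∈ Set.Icc c.τ0 (c.τ0 + c.η), ∀ a' ∈ Set.Icc c.τ0 (c.τ0 + c.η),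
    (p.FR s).eval a ≤ 2 * (p.FR s).eval a'
  des : ∃ μ, Des (base p c.y c.N) (sideT p c) (sideS p c.y c.N c.S0 c.L) u μ ε ∧
    ∀ t s x, μ t s x ≠ 0 → p.Good t.1 s.1 fun i => (x i).1

end

end Pool.Agent.P.MP_b8021b_nt.VE
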