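import Pool.Agent.P.MP_b8021b_nt.VE.StN

/-! N26: the transfer lemma. -/

namespace Pool.Agent.P.MP_b8021b_nt.VE

open Finset
open scoped Classical ComplexConjugate

namespace Tf

lemma norm_rt (M j : ℕ) : ‖rt M j‖ = 1 := by
  unfold rt
  have : (2 * Real.pi * Complex.I * j / M : ℂ) = ((2 * Real.pi * j / M : ℝ) : ℂ) * Complex.I := by
    push_cast; ring
  rw [this, Complex.norm_exp_ofReal_mul_I]

lemma norm_dir {z : ℂ} (hz : z ≠ 0) : ‖dir z‖ = 1 := by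
  unfold dir
  have : ‖z‖ ≠ 0 := norm_ne_zero_iff.mpr hz
  rw [norm_div, Complex.norm_real, Real.norm_eq_abs, abs_norm, div_self this]

lemma dist_dir {z : ℂ} (hz : z ≠ 0) (r : ℝ) : ‖z - r * dir z‖ = |‖z‖ - r| := by
  have h1 : z - r * dir z = ((‖z‖ - r : ℝ) : ℂ) * dir z := by
    have : ((‖z‖ : ℝ) : ℂ) ≠ 0 := by exact_mod_cast norm_ne_zero_iff.mpr hz
    unfold dir
    push_cast
    field_simp
  rw [h1, norm_mul, norm_dir hz, mul_one, Complex.norm_real, Real.norm_eq_abs]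

lemma amgm (x R : ℝ) (hR : 0 < R) : x ≤ 1 / √R + √R / 4 * x ^ 2 := by
  have hs : 0 < √R := Real.sqrt_pos.mpr hR
  have h : 0 ≤ (x * √R / 2 - 1) ^ 2 / √R := by positivity
  have : (x * √R / 2 - 1) ^ 2 / √R = 1 / √R + √R / 4 * x ^ 2 - x := by
    field_simp
    ring
  linarith

/-- first moment of the kernel -/
lemma first (hFej : S_Fej) (R : ℕ) (hR : 1 ≤ R) (z : ℂ) (hz : ‖z‖ = 1) :
    ∑ j ∈ range (R + 1), fej R (z * conj (rt (R + 1) j)) * ‖z - rt (R + 1) j‖ ≤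
      ((R + 1 : ℕ) : ℝ) * (2 / √R) := by
  have hR' : (0 : ℝ) < R := by exact_mod_cast hR
  have hs : 0 < √(R : ℝ) := Real.sqrt_pos.mpr hR'
  obtain ⟨-, -, -, h1, h2, -⟩ := hFej R z hR hz
  have h1 := h1 (R + 1) (by omega)
  have h2 := h2 (R + 1) le_rfl
  have hpos : ∀ j, 0 ≤ fej R (z * conj (rt (R + 1) j)) := fun j =>
    (hFej R _ hR (by rw [norm_mul, hz, Complex.norm_conj, norm_rt, one_mul])).1
  calc ∑ j ∈ range (R + 1), fej R (z * conj (rt (R + 1) j)) * ‖z - rt (R + 1) j‖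
      ≤ ∑ j ∈ range (R + 1), fej R (z * conj (rt (R + 1) j)) *
          (1 / √R + √R / 4 * ‖z - rt (R + 1) j‖ ^ 2) :=
        sum_le_sum fun j _ => mul_le_mul_of_nonneg_left (amgm _ _ hR') (hpos j)
    _ = 1 / √R * ∑ j ∈ range (R + 1), fej R (z * conj (rt (R + 1) j)) +
          √R / 4 * ∑ j ∈ range (R + 1),
            fej R (z * conj (rt (R + 1) j)) * ‖z - rt (R + 1) j‖ ^ 2 := by
        rw [mul_sum, mul_sum, ← sum_add_distrib]
        exact sum_congr rfl fun j _ => by ring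
    _ = ((R + 1 : ℕ) : ℝ) * (3 / 2 / √R) := by
        rw [h1, h2]
        have hsq : (R : ℝ) = √R * √R := (Real.mul_self_sqrt hR'.le).symm
        have : √(R : ℝ) / 4 * (2 * ((R + 1 : ℕ) : ℝ) / R) = ((R + 1 : ℕ) : ℝ) * (1 / 2 / √R) := by
          conv_lhs => rw [hsq]
          rw [Real.sqrt_mul_self hs.le]
          field_simp
          norm_num
        rw [this]
        ring
    _ ≤ ((R + 1 : ℕ) : ℝ) * (2 / √R) := by
        gcongr
        norm_num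

/-- one shell -/
lemma one (hFej : S_Fej) {J : Type} (s : Finset J) (pos : J → ℂ) (R : ℕ) (ϱ : J → ℝ)
    (rad e : ℝ) (ω : J → ℝ) (Ω Λ δ₀ δ₁ δ₂ r₁ : ℝ) (hR : 1 ≤ R) (hΩ : 0 ≤ Ω) (hΛ : 0 ≤ Λ)
    (hr0 : 0 ≤ rad) (hr1 : rad ≤ r₁)
    (hsupp : ∀ a ∈ s, ϱ a ≠ 0 → pos a ≠ 0 ∧ |‖pos a‖ - rad| ≤ δ₁)
    (hω : ∀ a, |ω a| ≤ Ω) (hlip : ∀ a a', |ω a - ω a'| ≤ Ω * (Λ * ‖pos a - pos a'‖ + δ₀))
    (hnet : ∀ ζ : ℂ, ∃ a, ‖pos a - ζ‖ ≤ δ₂)
    (he : ∀ ρ : ℂ, ‖ρ‖ = 1 → |∑ a ∈ s, ϱ a * fej R (dir (pos a) * ρ)| ≤ e) :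
    |∑ a ∈ s, ϱ a * ω a| ≤
      Ω * (e + (∑ a ∈ s, |ϱ a|) * (δ₀ + Λ * (δ₁ + δ₂ + 2 * r₁ / √R))) := by
  choose b hb using hnet
  set M : ℝ := ((R + 1 : ℕ) : ℝ) with hM
  have hMpos : 0 < M := by rw [hM]; positivity
  set f : J → ℕ → ℝ := fun a j => fej R (dir (pos a) * conj (rt (R + 1) j)) with hf
  set c : ℕ → J := fun j => b (rad * rt (R + 1) j) with hc
  set K : ℝ := δ₀ + Λ * (δ₁ + δ₂ + 2 * r₁ / √R) with hK
  have hsplit : M * ∑ a ∈ s, ϱ a * ω a =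
      ∑ j ∈ range (R + 1), ω (c j) * ∑ a ∈ s, ϱ a * f a j +
        ∑ a ∈ s, ϱ a * ∑ j ∈ range (R + 1), f a j * (ω a - ω (c j)) := by
    have h1 : ∑ j ∈ range (R + 1), ω (c j) * ∑ a ∈ s, ϱ a * f a j =
        ∑ a ∈ s, ϱ a * ∑ j ∈ range (R + 1), f a j * ω (c j) := by
      simp_rw [mul_sum]
      rw [sum_comm]
      exact sum_congr rfl fun a _ => sum_congr rfl fun j _ => by ring
    rw [h1, ← sum_add_distrib, mul_sum]
    refine sum_congr rfl fun a ha => ?_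
    by_cases h0 : ϱ a = 0
    · simp [h0]
    · have hz := norm_dir (hsupp a ha h0).1
      have hsum : ∑ j ∈ range (R + 1), f a j = M := (hFej R _ hR hz).2.2.2.1 (R + 1) (by omega)
      rw [← mul_add, ← sum_add_distrib, ← hsum, sum_mul, mul_sum]
      exact sum_congr rfl fun j _ => by ring
  have hA : |∑ j ∈ range (R + 1), ω (c j) * ∑ a ∈ s, ϱ a * f a j| ≤ M * (Ω * e) := by
    refine (abs_sum_le_sum_abs _ _).trans ?_
    calc ∑ j ∈ range (R + 1), |ω (c j) * ∑ a ∈ s, ϱ a * f a j|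
        ≤ ∑ _j ∈ range (R + 1), Ω * e := by
          refine sum_le_sum fun j _ => ?_
          rw [abs_mul]
          exact mul_le_mul (hω _) (he _ (by rw [Complex.norm_conj, norm_rt])) (abs_nonneg _) hΩ
      _ = M * (Ω * e) := by rw [sum_const, card_range, nsmul_eq_mul]
  have hB : ∀ a ∈ s, |ϱ a * ∑ j ∈ range (R + 1), f a j * (ω a - ω (c j))| ≤
      |ϱ a| * (M * (Ω * K)) := by
    intro a ha
    by_cases h0 : ϱ a = 0
    · simp [h0]
    obtain ⟨hp, hd⟩ := hsupp a ha h0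
    have hz := norm_dir hp
    have hsum : ∑ j ∈ range (R + 1), f a j = M := (hFej R _ hR hz).2.2.2.1 (R + 1) (by omega)
    have hfirst : ∑ j ∈ range (R + 1), f a j * ‖dir (pos a) - rt (R + 1) j‖ ≤ M * (2 / √R) :=
      first hFej R hR _ hz
    have hpos : ∀ j, 0 ≤ f a j := fun j =>
      (hFej R _ hR (by rw [norm_mul, hz, Complex.norm_conj, norm_rt, one_mul])).1
    rw [abs_mul]
    refine mul_le_mul_of_nonneg_left ?_ (abs_nonneg _)
    refine (abs_sum_le_sum_abs _ _).trans ?_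
    have hdist : ∀ j, ‖pos a - pos (c j)‖ ≤ δ₁ + δ₂ + r₁ * ‖dir (pos a) - rt (R + 1) j‖ := by
      intro j
      have e1 : pos a - pos (c j) = (pos a - rad * dir (pos a)) +
          (rad : ℂ) * (dir (pos a) - rt (R + 1) j) - (pos (c j) - rad * rt (R + 1) j) := by ring
      have e2 : ‖(rad : ℂ) * (dir (pos a) - rt (R + 1) j)‖ ≤
          r₁ * ‖dir (pos a) - rt (R + 1) j‖ := by
        rw [norm_mul, Complex.norm_real, Real.norm_eq_abs, abs_of_nonneg hr0]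
        exact mul_le_mul_of_nonneg_right hr1 (norm_nonneg _)
      have e3 := dist_dir hp rad
      have e4 : ‖pos (c j) - rad * rt (R + 1) j‖ ≤ δ₂ := hb _
      rw [e1]
      refine (norm_sub_le _ _).trans ?_
      have e5 := norm_add_le (pos a - rad * dir (pos a)) ((rad : ℂ) * (dir (pos a) - rt (R + 1) j))
      linarith
    calc ∑ j ∈ range (R + 1), |f a j * (ω a - ω (c j))|
        ≤ ∑ j ∈ range (R + 1), f a j *
            (Ω * (Λ * (δ₁ + δ₂ + r₁ * ‖dir (pos a) - rt (R + 1) j‖) + δ₀)) := by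
          refine sum_le_sum fun j _ => ?_
          rw [abs_mul, abs_of_nonneg (hpos j)]
          refine mul_le_mul_of_nonneg_left ((hlip _ _).trans ?_) (hpos j)
          have := hdist j
          gcongr
      _ = Ω * ((Λ * (δ₁ + δ₂) + δ₀) * ∑ j ∈ range (R + 1), f a j +
            Λ * r₁ * ∑ j ∈ range (R + 1), f a j * ‖dir (pos a) - rt (R + 1) j‖) := by
          rw [mul_sum, mul_sum, ← sum_add_distrib, mul_sum]
          exact sum_congr rfl fun j _ => by ring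
      _ ≤ Ω * ((Λ * (δ₁ + δ₂) + δ₀) * M + Λ * r₁ * (M * (2 / √R))) := by
          rw [hsum]
          have : 0 ≤ Λ * r₁ := mul_nonneg hΛ (hr0.trans hr1)
          gcongr
      _ = M * (Ω * K) := by rw [hK]; ring
  have hB' : |∑ a ∈ s, ϱ a * ∑ j ∈ range (R + 1), f a j * (ω a - ω (c j))| ≤
      (∑ a ∈ s, |ϱ a|) * (M * (Ω * K)) := by
    rw [sum_mul]
    exact (abs_sum_le_sum_abs _ _).trans (sum_le_sum hB)
  have hall : M * |∑ a ∈ s, ϱ a * ω a| ≤ M * (Ω * (e + (∑ a ∈ s, |ϱ a|) * K)) := by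
    rw [← abs_of_pos hMpos, ← abs_mul, hsplit, abs_of_pos hMpos]
    refine (abs_add_le _ _).trans ?_
    linarith
  exact le_of_mul_le_mul_left hall hMpos

end Tf

theorem p_tf (hFej : S_Fej) : S_TF := by
  intro J s pos Mx R ϱ rad e ω Ω Λ δ₀ δ₁ δ₂ r₁ hR hΩ hΛ _ _ hrad hsupp hω hlip hnet he
  refine (abs_sum_le_sum_abs _ _).trans ?_
  rw [sum_mul, ← sum_add_distrib, mul_sum]
  refine sum_le_sum fun m hm => ?_
  have hm' := mem_range.mp hm
  exact Tf.one hFej s pos R (ϱ m) (rad m) (e m) ω Ω Λ δ₀ δ₁ δ₂ r₁ hR hΩ hΛ (hrad m hm').1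
    (hrad m hm').2 (hsupp m hm') hω hlip hnet (he m hm')

end Pool.Agent.P.MP_b8021b_nt.VE
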