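import Pool.Agent.P.MP_b8021b_nt.VE.StN

/-! Auxiliary lemmas for N27: decomposition of `Wan` by levels and the character expansion. -/

namespace Pool.Agent.P.MP_b8021b_nt.VE

open Polynomial NumberField Finset
open scoped Classical ComplexConjugate

namespace Cos

noncomputable section

variable {L : Type} [Field L] [NumberField L] {u N : ℕ}

/-- the ideals of norm `q` -/
def T (L : Type) [Field L] [NumberField L] (q : ℕ) : Finset (Ideal (𝓞 L)) :=
  (Ideal.finite_setOfPred_absNorm_eq (S := 𝓞 L) q).toFinset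

lemma mem_T {q : ℕ} {I : Ideal (𝓞 L)} : I ∈ T L q ↔ Ideal.absNorm I = q := by
  simp [T]

lemma lam_eq (χ : Ideal (𝓞 L) → ℂ) (q : ℕ) : lam χ q = ∑ I ∈ T L q, χ I :=
  finsum_mem_eq_finite_toFinset_sum _ _

/-- the part of `Wan` with prescribed levels -/
def Wi (y : ℝ) (i : Fin u → Fin N) (𝔞 : Ideal (𝓞 L)) (α : 𝓞 L) : ℝ :=
  ∑ q ∈ Fintype.piFinset fun j => strat y N (i j), (∏ j, wt y N (q j)) *
    ∑ I ∈ Fintype.piFinset fun j => T L (q j), if Ideal.span {α} = 𝔞 * ∏ j, I j then 1 else 0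

lemma mem_strat {y : ℝ} {i q : ℕ} (h : q ∈ strat y N i) :
    q.Prime ∧ (i : ℝ) ≤ N * Real.log (q / y) ∧ N * Real.log (q / y) < i + 1 := by
  obtain ⟨h1, h2⟩ := (mem_filter.mp h).2
  have := Int.floor_eq_iff.mp h2
  exact ⟨h1, by exact_mod_cast this.1, by exact_mod_cast this.2⟩

lemma strat_inj {y : ℝ} {i i' q : ℕ} (h : q ∈ strat y N i) (h' : q ∈ strat y N i') : i = i' := by
  have h1 := (mem_filter.mp h).2.2
  have h2 := (mem_filter.mp h').2.2
  exact_mod_cast h1.symm.trans h2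

lemma wt_nonneg (y : ℝ) (N q : ℕ) : 0 ≤ wt y N q :=
  div_nonneg (Real.log_natCast_nonneg _) (sum_nonneg fun _ _ => Real.log_natCast_nonneg _)

lemma Wi_nonneg (y : ℝ) (i : Fin u → Fin N) (𝔞 : Ideal (𝓞 L)) (α : 𝓞 L) : 0 ≤ Wi y i 𝔞 α :=
  sum_nonneg fun _ _ => mul_nonneg (prod_nonneg fun _ _ => wt_nonneg _ _ _)
    (sum_nonneg fun _ _ => by split_ifs <;> norm_num)

lemma sum_Pset (y : ℝ) (f : (Fin u → ℕ) → ℝ) :
    ∑ q ∈ Fintype.piFinset fun _ : Fin u => Pset y N, f q =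
      ∑ i : Fin u → Fin N, ∑ q ∈ Fintype.piFinset fun j => strat y N (i j), f q := by
  rw [← sum_biUnion]
  · refine sum_congr ?_ fun _ _ => rfl
    ext q
    simp only [Fintype.mem_piFinset, mem_biUnion, mem_univ, true_and, Pset, mem_range]
    constructor
    · intro h
      choose i hi hq using h
      exact ⟨fun j => ⟨i j, hi j⟩, hq⟩
    · rintro ⟨i, hi⟩ j
      exact ⟨i j, (i j).2, hi j⟩
  · intro i _ i' _ hne
    refine disjoint_left.mpr fun q h h' => hne ?_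
    funext j
    exact Fin.ext (strat_inj (Fintype.mem_piFinset.mp h j) (Fintype.mem_piFinset.mp h' j))

lemma Wan_eq (y : ℝ) (𝔞 : Ideal (𝓞 L)) (α : 𝓞 L) :
    Wan y N u 𝔞 α = ∑ i : Fin u → Fin N, Wi y i 𝔞 α := by
  unfold Wan
  rw [sum_Pset]
  refine sum_congr rfl fun i _ => sum_congr rfl fun q _ => ?_
  congr 1
  have : {I : Fin u → Ideal (𝓞 L) | (∀ j, Ideal.absNorm (I j) = q j) ∧
      Ideal.span {α} = 𝔞 * ∏ j, I j} = ((Fintype.piFinset fun j => T L (q j)).filter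
        fun I => Ideal.span {α} = 𝔞 * ∏ j, I j : Finset _) := by
    ext I
    simp [mem_T]
  rw [this, Set.ncard_coe_finset, card_filter]
  push_cast
  rfl

/-- tuples of levels with sum `m` -/
def fib (u N m : ℕ) : Finset (Fin u → Fin N) :=
  univ.filter fun i : Fin u → Fin N => ∑ j, ((i j).1 : ℤ) = (m : ℤ)

lemma cnt_eq (u N m : ℕ) : cnt u N m = (fib u N m).card := rfl

lemma mem_fib {m : ℕ} {i : Fin u → Fin N} : i ∈ fib u N m ↔ ∑ j, (i j).1 = m := by
  simp only [fib, mem_filter, mem_univ, true_and]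
  exact_mod_cast Iff.rfl

lemma sum_le (i : Fin u → Fin N) : ∑ j, (i j).1 ≤ u * N := by
  have : ∑ j, (i j).1 ≤ ∑ _j : Fin u, N := sum_le_sum fun j _ => (i j).2.le
  simpa using this

lemma sum_fib (f : (Fin u → Fin N) → ℝ) :
    ∑ m ∈ range (u * N + 1), ∑ i ∈ fib u N m, f i = ∑ i, f i := by
  rw [← sum_fiberwise_of_maps_to (s := univ) (t := range (u * N + 1))
    (g := fun i : Fin u → Fin N => ∑ j, (i j).1)
    (fun i _ => mem_range.mpr (Nat.lt_succ_of_le (sum_le i))) f]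
  refine sum_congr rfl fun m _ => sum_congr ?_ fun _ _ => rfl
  ext i
  simp [mem_fib]

lemma sum_cnt (u N : ℕ) : ∑ m ∈ range (u * N + 1), (cnt u N m : ℝ) = (N : ℝ) ^ u := by
  have := sum_fib (u := u) (N := N) fun _ => 1
  simpa [cnt_eq] using this

/-- `z` lies in the shell number `m` -/
def Near (u N : ℕ) (X : ℝ) (m : ℕ) (z : ℂ) : Prop :=
  z ≠ 0 ∧ |N * Real.log (‖z‖ ^ 2 / X ^ 2) - m| ≤ u

lemma near_fac (σ : L →+* ℂ)
    (hn : ∀ β : 𝓞 L, (Ideal.absNorm (Ideal.span {β}) : ℝ) = ‖σ β‖ ^ 2) {y X : ℝ} (hy : 0 < y)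
    {𝔞 : Ideal (𝓞 L)} (ha : 𝔞 ≠ ⊥) (hX : X ^ 2 = Ideal.absNorm 𝔞 * y ^ u) (i : Fin u → Fin N)
    {q : Fin u → ℕ} (hq : ∀ j, q j ∈ strat y N (i j)) {I : Fin u → Ideal (𝓞 L)}
    (hI : ∀ j, I j ∈ T L (q j)) {α : 𝓞 L} (h : Ideal.span {α} = 𝔞 * ∏ j, I j) :
    Near u N X (∑ j, (i j).1) (σ α) := by
  have hA : (0 : ℝ) < Ideal.absNorm 𝔞 := by
    exact_mod_cast Nat.pos_of_ne_zero fun h0 => ha (Ideal.absNorm_eq_zero_iff.mp h0)
  have hq0 : ∀ j, (0 : ℝ) < q j := fun j => by exact_mod_cast (mem_strat (hq j)).1.pos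
  have h1 : ‖σ α‖ ^ 2 = Ideal.absNorm 𝔞 * ∏ j, (q j : ℝ) := by
    rw [← hn, h, map_mul, map_prod]
    push_cast
    congr 1
    exact prod_congr rfl fun j _ => by rw [mem_T.mp (hI j)]
  have h2 : ‖σ α‖ ^ 2 / X ^ 2 = ∏ j, ((q j : ℝ) / y) := by
    rw [h1, hX, prod_div_distrib, prod_const, card_univ, Fintype.card_fin]
    field_simp
  refine ⟨fun h0 => ?_, ?_⟩
  · have : (0 : ℝ) < ‖σ α‖ ^ 2 := by
      rw [h1]
      exact mul_pos hA (prod_pos fun j _ => hq0 j)
    simp [h0] at this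
  · rw [h2, Real.log_prod fun j _ => (div_pos (hq0 j) hy).ne', mul_sum]
    push_cast
    rw [← sum_sub_distrib]
    refine (abs_sum_le_sum_abs _ _).trans ?_
    have : ∑ j, |N * Real.log ((q j : ℝ) / y) - ((i j).1 : ℝ)| ≤ ∑ _j : Fin u, (1 : ℝ) :=
      sum_le_sum fun j _ => by
        have := mem_strat (hq j)
        rw [abs_le]
        constructor <;> linarith [this.2.1, this.2.2]
    simpa using this

lemma near_Wi (σ : L →+* ℂ)
    (hn : ∀ β : 𝓞 L, (Ideal.absNorm (Ideal.span {β}) : ℝ) = ‖σ β‖ ^ 2) {y X : ℝ} (hy : 0 < y)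
    {𝔞 : Ideal (𝓞 L)} (ha : 𝔞 ≠ ⊥) (hX : X ^ 2 = Ideal.absNorm 𝔞 * y ^ u) (i : Fin u → Fin N)
    {α : 𝓞 L} (h : Wi y i 𝔞 α ≠ 0) : Near u N X (∑ j, (i j).1) (σ α) := by
  obtain ⟨q, hq, h1⟩ := exists_ne_zero_of_sum_ne_zero h
  obtain ⟨I, hI, h2⟩ := exists_ne_zero_of_sum_ne_zero (right_ne_zero_of_mul h1)
  refine near_fac σ hn hy ha hX i (Fintype.mem_piFinset.mp hq) (Fintype.mem_piFinset.mp hI) ?_
  by_contra h3
  simp [h3] at h2

lemma near_sh (hu : 1 ≤ u) {X : ℝ} {m : ℕ} {z : ℂ} (h : sh N (X ^ 2) m z ≠ 0) :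
    Near u N X m z := by
  unfold sh at h
  split_ifs at h with h0
  · exact absurd rfl h
  · refine ⟨h0, ?_⟩
    by_contra h1
    apply h
    have : (1 : ℝ) ≤ u := by exact_mod_cast hu
    unfold tent
    exact max_eq_left (by linarith [not_le.mp h1])

lemma sh_nonneg (X2 : ℝ) (m : ℕ) (z : ℂ) : 0 ≤ sh N X2 m z := by
  unfold sh
  split_ifs
  · exact le_rfl
  · exact le_max_left _ _

lemma exp_lip {a b c : ℝ} (ha : a ≤ c) (hb : b ≤ c) :
    |Real.exp a - Real.exp b| ≤ Real.exp c * |a - b| := by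
  wlog h : b ≤ a generalizing a b
  · rw [abs_sub_comm, abs_sub_comm a]
    exact this hb ha (not_le.mp h).le
  rw [abs_of_nonneg (sub_nonneg.mpr (Real.exp_le_exp.mpr h)), abs_of_nonneg (sub_nonneg.mpr h)]
  have h1 : Real.exp b = Real.exp a * Real.exp (b - a) := by
    rw [← Real.exp_add]
    congr 1
    ring
  have h2 := Real.add_one_le_exp (b - a)
  have h3 := Real.exp_le_exp.mpr ha
  have h4 := Real.exp_pos a
  rw [h1]
  nlinarith [mul_le_mul_of_nonneg_left h2 h4.le, mul_le_mul_of_nonneg_right h3 (sub_nonneg.mpr h)]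

lemma Near.rad (hN : 1 ≤ N) {X : ℝ} (hX : 0 < X) {m : ℕ} (hm : m ≤ u * N) {z : ℂ}
    (h : Near u N X m z) :
    ‖z‖ ≤ X * Real.exp u ∧ |‖z‖ - X * Real.exp (m / (2 * N))| ≤ X * Real.exp u * u / N := by
  obtain ⟨h0, h1⟩ := h
  have hz : 0 < ‖z‖ := norm_pos_iff.mpr h0
  have hN' : (1 : ℝ) ≤ N := by exact_mod_cast hN
  have hm' : (m : ℝ) ≤ u * N := by exact_mod_cast hm
  have hu : (0 : ℝ) ≤ u := Nat.cast_nonneg u
  set t := Real.log (‖z‖ / X) with ht
  have e1 : Real.log (‖z‖ ^ 2 / X ^ 2) = 2 * t := by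
    rw [← div_pow, Real.log_pow]
    norm_num [ht]
  have e2 : ‖z‖ = X * Real.exp t := by
    rw [ht, Real.exp_log (div_pos hz hX)]
    field_simp
  rw [e1] at h1
  have h2 := abs_le.mp h1
  have h3 : t ≤ u := by
    by_contra h4
    have h4 := not_le.mp h4
    nlinarith [h2.2]
  have h4 : (m : ℝ) / (2 * N) ≤ u := by
    rw [div_le_iff₀ (by positivity)]
    nlinarith
  have h5 : |t - m / (2 * N)| ≤ u / N := by
    have : t - m / (2 * N) = (N * (2 * t) - m) / (2 * N) := by field_simp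
    rw [this, abs_div, abs_of_pos (by positivity : (0 : ℝ) < 2 * N),
      div_le_div_iff₀ (by positivity) (by positivity)]
    nlinarith
  refine ⟨?_, ?_⟩
  · rw [e2]
    gcongr
  · rw [e2, ← mul_sub, abs_mul, abs_of_pos hX, mul_div_assoc, mul_assoc]
    gcongr
    refine (exp_lip h3 h4).trans ?_
    gcongr

lemma norm_dir {z : ℂ} (h : z ≠ 0) : ‖dir z‖ = 1 := by
  unfold dir
  rw [norm_div, Complex.norm_real, norm_norm, div_self (norm_ne_zero_iff.mpr h)]

lemma prod_sub_one {ι : Type} (s : Finset ι) (f : ι → ℂ) {ε : ℝ} (h1 : ε ≤ 1)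
    (h : ∀ j, ‖f j - 1‖ ≤ ε) : ‖∏ j ∈ s, f j - 1‖ ≤ (2 ^ s.card - 1) * ε := by
  induction s using Finset.induction_on with
  | empty => simp
  | insert a s ha ih =>
    rw [prod_insert ha, card_insert_of_notMem ha]
    have e : f a * ∏ j ∈ s, f j - 1 = f a * (∏ j ∈ s, f j - 1) + (f a - 1) := by ring
    have h2 : ‖f a‖ ≤ 2 := by
      have := norm_add_le (f a - 1) 1
      simp only [sub_add_cancel, norm_one] at this
      linarith [h a]
    rw [e]
    refine (norm_add_le _ _).trans ?_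
    rw [norm_mul]
    have := mul_le_mul h2 ih (norm_nonneg _) (by norm_num)
    rw [pow_succ]
    linarith [h a]

/-- the trivial character -/
def chi0 (L : Type) [Field L] (n : ℕ) : Ideal (𝓞 L) →* ℂ where
  toFun I := if Cop n I then 1 else 0
  map_one' := if_pos isCoprime_one_left
  map_mul' I J := by
    have : Cop n (I * J) ↔ Cop n I ∧ Cop n J := IsCoprime.mul_left_iff
    by_cases h1 : Cop n I <;> by_cases h2 : Cop n J <;> simp [this, h1, h2]

omit [NumberField L] in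
lemma chi0_apply (n : ℕ) (I : Ideal (𝓞 L)) : chi0 L n I = if Cop n I then 1 else 0 := rfl

omit [NumberField L] in
lemma cop_of_dvd {n : ℕ} {α : 𝓞 L} (h : (n : 𝓞 L) ∣ α - 1) : Cop n (Ideal.span {α}) := by
  obtain ⟨c, hc⟩ := h
  unfold Cop
  rw [Ideal.isCoprime_span_singleton_iff]
  exact ⟨1, -c, by linear_combination hc⟩

omit [NumberField L] in
lemma chi0_triv (n : ℕ) : IsTriv n (chi0 L n) := fun I h => by simp [chi0_apply, h]

omit [NumberField L] in
lemma chi0_H (σ : L →+* ℂ) (n : ℕ) : IsHChar σ n 0 (chi0 L n) where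
  norm_cop I h := by simp [chi0_apply, h]
  zero I h := by simp [chi0_apply, h]
  prin α h := by simp [chi0_apply, cop_of_dvd h]

omit [NumberField L] in
lemma eq_chi0 {n : ℕ} {χ : Ideal (𝓞 L) →* ℂ} (h : IsChar n χ) (ht : IsTriv n χ) :
    χ = chi0 L n := by
  ext I
  rw [chi0_apply]
  split_ifs with h1
  · exact ht I h1
  · exact h.zero I h1

/-- a trivial character has angular type zero -/
lemma k_eq_zero (K : IQ L) {n : ℕ} (hn : 1 ≤ n) {k : ℤ} {χ : Ideal (𝓞 L) →* ℂ}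
    (h : IsHChar K.σ n k χ) (ht : IsTriv n χ) : k = 0 := by
  by_contra hk
  set w : ℂ := K.σ (K.ω : L) with hw
  have hw2 : w ^ 2 = K.D := by
    have := congrArg (fun a : 𝓞 L => K.σ (a : L)) K.sq
    simpa using this
  have hD : (K.D : ℝ) < 0 := by exact_mod_cast K.neg
  have hre : w.re = 0 ∧ w.im ≠ 0 := by
    have h1 := congrArg Complex.re hw2
    have h2 := congrArg Complex.im hw2
    simp only [sq, Complex.mul_re, Complex.mul_im, Complex.intCast_re, Complex.intCast_im] at h1 h2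
    have h3 : w.im ≠ 0 := fun h0 => by
      rw [h0] at h1
      nlinarith [sq_nonneg w.re]
    refine ⟨?_, h3⟩
    have : w.re * w.im = 0 := by linarith
    exact (mul_eq_zero.mp this).resolve_right h3
  set g : ℕ → ℂ := fun t => 1 + (n * t : ℕ) * w with hg
  have hg1 : ∀ t, (g t).re = 1 := fun t => by
    simp only [hg, Complex.add_re, Complex.one_re, Complex.mul_re, Complex.natCast_re,
      Complex.natCast_im, hre.1]
    ring
  have hg0 : ∀ t, g t ≠ 0 := fun t h0 => by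
    have := hg1 t
    rw [h0] at this
    simp at this
  have hroot : ∀ t, dir (g t) ^ k.natAbs = 1 := fun t => by
    have hd : (n : 𝓞 L) ∣ (1 + (n * t : ℕ) * K.ω) - 1 := ⟨t * K.ω, by push_cast; ring⟩
    have h1 := h.prin _ hd
    rw [ht _ (cop_of_dvd hd)] at h1
    have h2 : K.σ ((1 + (n * t : ℕ) * K.ω : 𝓞 L) : L) = g t := by simp [hg, hw]
    rw [h2] at h1
    rcases Int.natAbs_eq k with h3 | h3
    · rw [← zpow_natCast, ← h3, ← h1]
    · rw [h3, zpow_neg, zpow_natCast] at h1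
      exact inv_eq_one.mp h1.symm
  have hinj : Function.Injective fun t => dir (g t) := fun t t' htt => by
    have h1 : ∀ t, (dir (g t)).re = ‖g t‖⁻¹ := fun t => by
      unfold dir
      rw [Complex.div_ofReal_re, hg1, one_div]
    have h2 : ‖g t‖ = ‖g t'‖ := by
      have := congrArg Complex.re htt
      simp only [h1] at this
      exact inv_injective this
    have h3 : g t = g t' := by
      simp only [dir, h2] at htt
      exact (div_left_inj' (by simpa using hg0 t')).mp htt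
    have hw0 : w ≠ 0 := fun h0 => hre.2 (by simp [h0])
    have h4 : ((n * t : ℕ) : ℂ) = (n * t' : ℕ) := mul_right_cancel₀ hw0 (add_left_cancel h3)
    exact Nat.eq_of_mul_eq_mul_left hn (by exact_mod_cast h4)
  refine Set.infinite_of_injective_forall_mem hinj
    (s := ((nthRoots k.natAbs (1 : ℂ)).toFinset : Set ℂ)) (fun t => ?_) (Finset.finite_toSet _)
  simp only [mem_coe, Multiset.mem_toFinset]
  exact (mem_nthRoots (Int.natAbs_pos.mpr hk)).mpr (hroot t)

end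

end Cos

end Pool.Agent.P.MP_b8021b_nt.VE
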