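import Pool.Agent.P.MP_b8021b_nt.VE.PShell1

/-! Package shell, part 3: the radial tent and its integral. -/

namespace Pool.Agent.P.MP_b8021b_nt.VE.Shell

open MeasureTheory

lemma tent_nonneg (v : ℝ) : 0 ≤ tent v := le_max_left _ _

lemma tent_le (v : ℝ) : tent v ≤ 1 := max_le zero_le_one (by linarith [abs_nonneg v])

lemma tent_ne {v : ℝ} (h : tent v ≠ 0) : |v| < 1 := by
  by_contra hh
  exact h (max_eq_left (by linarith [not_lt.mp hh]))

lemma tent_lip (a b : ℝ) : |tent a - tent b| ≤ |a - b| := by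
  unfold tent
  rw [max_comm 0, max_comm 0]
  refine (abs_max_sub_max_le_abs _ _ _).trans ?_
  rw [show 1 - |a| - (1 - |b|) = |b| - |a| by ring, abs_sub_comm a]
  exact abs_abs_sub_abs_le_abs_sub _ _

lemma tent_cont : Continuous tent := by
  unfold tent
  fun_prop

lemma tent_supp : HasCompactSupport tent := by
  refine HasCompactSupport.intro (isCompact_Icc (a := -1) (b := 1)) fun v hv => ?_
  by_contra h
  exact hv (abs_le.mp (tent_ne h).le)

lemma tent_int : ∫ v, tent v = 1 := by
  rw [← intervalIntegral.integral_eq_integral_of_support_subset (a := -1) (b := 1)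
    (fun v hv => ⟨(abs_lt.mp (tent_ne hv)).1, (abs_lt.mp (tent_ne hv)).2.le⟩),
    ← intervalIntegral.integral_add_adjacent_intervals (b := 0)
      (tent_cont.intervalIntegrable _ _) (tent_cont.intervalIntegrable _ _)]
  have h1 : ∫ v in (-1 : ℝ)..0, tent v = ∫ v in (-1 : ℝ)..0, (1 + v) := by
    refine intervalIntegral.integral_congr fun v hv => ?_
    rw [Set.uIcc_of_le (by norm_num)] at hv
    unfold tent
    rw [abs_of_nonpos hv.2, max_eq_right (by linarith [hv.1])]; ring
  have h2 : ∫ v in (0 : ℝ)..1, tent v = ∫ v in (0 : ℝ)..1, (1 - v) := by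
    refine intervalIntegral.integral_congr fun v hv => ?_
    rw [Set.uIcc_of_le (by norm_num)] at hv
    unfold tent
    rw [abs_of_nonneg hv.1, max_eq_right (by linarith [hv.2])]
  rw [h1, h2, intervalIntegral.integral_add (by simp) (by simp),
    intervalIntegral.integral_sub (by simp) (by simp)]
  simp only [integral_id, intervalIntegral.integral_const, smul_eq_mul]
  norm_num

lemma tent_odd : ∫ v, tent v * v = 0 := by
  have h := integral_neg_eq_self (fun v : ℝ => tent v * v) volume
  have e : ∀ v : ℝ, tent (-v) * -v = -(tent v * v) := by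
    intro v; unfold tent; rw [abs_neg]; ring
  simp only [e, integral_neg] at h
  linarith

lemma tent_exp {t : ℝ} (ht : |t| ≤ 1) : |(∫ v, tent v * Real.exp (t * v)) - 1| ≤ t ^ 2 := by
  have hi : ∀ f : ℝ → ℝ, Continuous f → Integrable fun v => tent v * f v := fun f hf =>
    (tent_cont.mul hf).integrable_of_hasCompactSupport tent_supp.mul_right
  have h0 : Integrable tent := tent_cont.integrable_of_hasCompactSupport tent_supp
  have e : (∫ v, tent v * Real.exp (t * v)) - 1 =
      ∫ v, tent v * (Real.exp (t * v) - 1 - t * v) := by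
    have : ∀ v, tent v * (Real.exp (t * v) - 1 - t * v) =
        tent v * Real.exp (t * v) - tent v - t * (tent v * v) := fun v => by ring
    simp only [this]
    have i1 : Integrable fun v => tent v * Real.exp (t * v) := hi _ (by fun_prop)
    have i2 : Integrable fun v => tent v * Real.exp (t * v) - tent v := i1.sub h0
    have i3 : Integrable fun v => t * (tent v * v) := (hi _ continuous_id).const_mul t
    rw [integral_sub i2 i3, integral_sub i1 h0, integral_const_mul, tent_int, tent_odd]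
    ring
  rw [e]
  have hb : ∀ v, ‖tent v * (Real.exp (t * v) - 1 - t * v)‖ ≤ t ^ 2 * tent v := by
    intro v
    by_cases hv : tent v = 0
    · simp [hv]
    have h1 := (tent_ne hv).le
    have h2 : |t * v| ≤ 1 := by
      rw [abs_mul]; exact mul_le_one₀ ht (abs_nonneg _) h1
    have h3 := Real.abs_exp_sub_one_sub_id_le h2
    have h4 : (t * v) ^ 2 ≤ t ^ 2 := by
      have : v ^ 2 ≤ 1 := by rw [← sq_abs]; nlinarith [abs_nonneg v]
      rw [mul_pow]; nlinarith [sq_nonneg t]
    rw [Real.norm_eq_abs, abs_mul, abs_of_nonneg (tent_nonneg v), mul_comm]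
    exact mul_le_mul_of_nonneg_right (h3.trans h4) (tent_nonneg v)
  have := norm_integral_le_of_norm_le (h0.const_mul (t ^ 2)) (Filter.Eventually.of_forall hb)
  rwa [integral_const_mul, tent_int, mul_one, Real.norm_eq_abs] at this

lemma radial {X : ℝ} (hX : 0 < X) {N : ℕ} (hN : 1 ≤ N) (m : ℕ) :
    ∫ r in Set.Ioi (0 : ℝ), r * tent (N * Real.log (r ^ 2 / X ^ 2) - m) =
      X ^ 2 * Real.exp (m / N) / (2 * N) * ∫ v, tent v * Real.exp (1 / N * v) := by
  have hN0 : (0 : ℝ) < N := by exact_mod_cast hN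
  let f : ℝ → ℝ := fun v => X * Real.exp ((m + v) / (2 * N))
  have him : f '' Set.univ = Set.Ioi 0 := by
    ext r
    constructor
    · rintro ⟨v, -, rfl⟩
      exact mul_pos hX (Real.exp_pos _)
    · intro hr
      have hr' : 0 < r := hr
      refine ⟨2 * N * Real.log (r / X) - m, trivial, ?_⟩
      have : (m + (2 * N * Real.log (r / X) - m)) / (2 * N) = Real.log (r / X) := by
        field_simp; ring
      simp only [f]
      rw [this, Real.exp_log (by positivity)]
      field_simp
  have hd : ∀ v, HasDerivAt f (f v / (2 * N)) v := by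
    intro v
    have h1 : HasDerivAt (fun v : ℝ => (m + v) / (2 * N)) (1 / (2 * N)) v :=
      ((hasDerivAt_id v).const_add (m : ℝ)).div_const _
    have h2 := (h1.exp).const_mul X
    refine h2.congr_deriv ?_
    simp only [f]; ring
  have hinj : Set.InjOn f Set.univ := by
    intro a _ b _ h
    have h1 := Real.exp_injective (mul_left_cancel₀ hX.ne' h)
    field_simp at h1
    linarith
  rw [← him, integral_image_eq_integral_abs_deriv_smul MeasurableSet.univ
    (fun v _ => (hd v).hasDerivWithinAt) hinj, Measure.restrict_univ, ← integral_const_mul]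
  refine integral_congr_ae (Filter.Eventually.of_forall fun v => ?_)
  have hf : 0 < f v := mul_pos hX (Real.exp_pos _)
  have h2 : f v ^ 2 = X ^ 2 * Real.exp ((m + v) / N) := by
    simp only [f]
    rw [mul_pow, ← Real.exp_nat_mul]
    congr 2
    push_cast
    field_simp
  have h3 : N * Real.log (f v ^ 2 / X ^ 2) - m = v := by
    rw [h2, mul_div_cancel_left₀ _ (by positivity), Real.log_exp]
    field_simp; ring
  have h4 : Real.exp ((m + v) / N) = Real.exp (m / N) * Real.exp (1 / N * v) := by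
    rw [← Real.exp_add]; congr 1; ring
  simp only [smul_eq_mul]
  rw [h3, abs_of_pos (by positivity)]
  have h5 : f v / (2 * N) * (f v * tent v) = f v ^ 2 / (2 * N) * tent v := by ring
  rw [h5, h2, h4]
  ring

lemma log_lip {a b c : ℝ} (hc : 0 < c) (ha : c ≤ a) (hb : c ≤ b) :
    |Real.log a - Real.log b| ≤ |a - b| / c := by
  have key : ∀ a b : ℝ, c ≤ a → c ≤ b → Real.log a - Real.log b ≤ |a - b| / c := by
    intro a b ha hb
    have ha0 : 0 < a := hc.trans_le ha
    have hb0 : 0 < b := hc.trans_le hb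
    rw [← Real.log_div ha0.ne' hb0.ne']
    refine (Real.log_le_sub_one_of_pos (by positivity)).trans ?_
    have : a / b - 1 = (a - b) / b := by field_simp
    rw [this]
    calc (a - b) / b ≤ |a - b| / b := by gcongr; exact le_abs_self _
      _ ≤ |a - b| / c := by gcongr
  rw [abs_le]
  refine ⟨?_, key a b ha hb⟩
  have := key b a hb ha
  rw [abs_sub_comm] at this
  linarith

/-- the radial profile, cut off near the origin -/
noncomputable def ph (N : ℕ) (X : ℝ) (m : ℕ) (r : ℝ) : ℝ :=
  tent (N * Real.log (max r (X / 2) ^ 2 / X ^ 2) - m)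

lemma tent_small {X : ℝ} (hX : 0 < X) {N : ℕ} (hN : 1 ≤ N) (m : ℕ) {r : ℝ} (hr : 0 < r)
    (h : r ≤ X / 2) : tent (N * Real.log (r ^ 2 / X ^ 2) - m) = 0 := by
  by_contra hne
  have h1 := (abs_lt.mp (tent_ne hne)).1
  have hN1 : (1 : ℝ) ≤ N := by exact_mod_cast hN
  have h2 : r ^ 2 / X ^ 2 ≤ Real.exp (-1) := by
    have h3 : r ^ 2 / X ^ 2 ≤ 1 / 4 := by
      rw [div_le_iff₀ (by positivity)]; nlinarith
    have := Real.exp_neg_one_gt_d9
    linarith
  have h4 : Real.log (r ^ 2 / X ^ 2) ≤ -1 := by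
    rw [Real.log_le_iff_le_exp (by positivity)]; exact h2
  have h5 : (0 : ℝ) ≤ m := Nat.cast_nonneg _
  nlinarith

lemma sh_eq {X : ℝ} (hX : 0 < X) {N : ℕ} (hN : 1 ≤ N) (m : ℕ) (z : ℂ) :
    sh N (X ^ 2) m z = ph N X m ‖z‖ := by
  unfold sh ph
  rcases le_total ‖z‖ (X / 2) with h | h
  · rw [max_eq_right h, tent_small hX hN m (by positivity) le_rfl]
    split_ifs with hz
    · rfl
    · exact tent_small hX hN m (norm_pos_iff.mpr hz) h
  · rw [max_eq_left h, if_neg]
    rintro rfl
    rw [norm_zero] at h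
    linarith

lemma ph_lip {X : ℝ} (hX : 0 < X) (N m : ℕ) (r r' : ℝ) :
    |ph N X m r - ph N X m r'| ≤ 4 * N * |r - r'| / X := by
  refine (tent_lip _ _).trans ?_
  have hp : ∀ r : ℝ, 0 < max r (X / 2) := fun r => lt_max_of_lt_right (by positivity)
  have e : ∀ r : ℝ, Real.log (max r (X / 2) ^ 2 / X ^ 2) =
      2 * Real.log (max r (X / 2)) - 2 * Real.log X := by
    intro r
    rw [Real.log_div (pow_pos (hp r) 2).ne' (by positivity), Real.log_pow, Real.log_pow]
    norm_num
  rw [e, e]
  have h1 := log_lip (c := X / 2) (by positivity) (le_max_right r _) (le_max_right r' _)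
  have h2 := abs_max_sub_max_le_abs r r' (X / 2)
  have e2 : N * (2 * Real.log (max r (X / 2)) - 2 * Real.log X) - m -
      (N * (2 * Real.log (max r' (X / 2)) - 2 * Real.log X) - m) =
      2 * N * (Real.log (max r (X / 2)) - Real.log (max r' (X / 2))) := by ring
  rw [e2, abs_mul, abs_of_nonneg (by positivity : (0 : ℝ) ≤ 2 * N)]
  calc _ ≤ 2 * N * (|r - r'| / (X / 2)) := by
        refine mul_le_mul_of_nonneg_left (h1.trans ?_) (by positivity)
        gcongr
    _ = _ := by field_simp; ring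

lemma ph_ne {X : ℝ} (hX : 0 < X) {N : ℕ} (hN : 1 ≤ N) (m : ℕ) {r : ℝ} (h : ph N X m r ≠ 0) :
    X / 2 < r ∧ X * Real.exp ((m - 1) / (2 * N)) ≤ r ∧ r ≤ X * Real.exp ((m + 1) / (2 * N)) := by
  have hN0 : (0 : ℝ) < N := by exact_mod_cast hN
  have h1 : X / 2 < r := by
    by_contra hh
    apply h
    unfold ph
    rw [max_eq_right (not_lt.mp hh), tent_small hX hN m (by positivity) le_rfl]
  have hr : 0 < r := by linarith
  unfold ph at h
  rw [max_eq_left h1.le, ← div_pow, Real.log_pow] at h
  obtain ⟨h2, h3⟩ := abs_lt.mp (tent_ne h)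
  push_cast at h2 h3
  refine ⟨h1, ?_, ?_⟩
  · rw [← le_div_iff₀' hX, ← Real.le_log_iff_exp_le (by positivity), div_le_iff₀ (by positivity)]
    linarith
  · rw [← div_le_iff₀' hX, ← Real.log_le_iff_le_exp (by positivity), le_div_iff₀ (by positivity)]
    linarith

lemma dir_norm {z : ℂ} (hz : z ≠ 0) : ‖dir z‖ = 1 := by
  unfold dir
  rw [norm_div, Complex.norm_real, norm_norm, div_self (norm_ne_zero_iff.mpr hz)]

lemma dir_lip {y y' : ℂ} (hy : y ≠ 0) (hy' : y' ≠ 0) : ‖dir y' - dir y‖ ≤ 2 * ‖y' - y‖ / ‖y‖ := by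
  have h0 : 0 < ‖y‖ := norm_pos_iff.mpr hy
  have h0' : 0 < ‖y'‖ := norm_pos_iff.mpr hy'
  have c0 : (‖y‖ : ℂ) ≠ 0 := by exact_mod_cast h0.ne'
  have c0' : (‖y'‖ : ℂ) ≠ 0 := by exact_mod_cast h0'.ne'
  have e : dir y' - dir y = ((y' - y) + dir y' * ((‖y‖ - ‖y'‖ : ℝ) : ℂ)) / (‖y‖ : ℂ) := by
    unfold dir
    push_cast
    field_simp
    ring
  rw [e, norm_div, Complex.norm_real, norm_norm]
  gcongr
  refine (norm_add_le _ _).trans ?_
  rw [norm_mul, dir_norm hy', one_mul, Complex.norm_real, Real.norm_eq_abs]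
  have := abs_norm_sub_norm_le y y'
  rw [norm_sub_rev] at this
  linarith

end Pool.Agent.P.MP_b8021b_nt.VE.Shell
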