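import Pool.Agent.P.MP_b8021b_nt.VE.PPairEst2

/-! Pair correlation estimate: construction of a side. -/

namespace Pool.Agent.P.MP_b8021b_nt.VE.PairEst

open NumberField Finset
open scoped Classical

lemma sd_of (hCos : S_Cos) (hShell : S_Shell) (u : ℕ) (hu : 1 ≤ u) :
    ∃ C : ℝ, 1 ≤ C ∧ ∀ (σ : Type) (S : Finset σ) (P : σ → Prop) (L : Type) [Field L]
      [NumberField L] (K : IQ L) (a : σ → 𝓞 L) (n N : ℕ) (𝔞 : Ideal (𝓞 L))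
      (y ε H δ κ cq Z CL E : ℝ), 3 ≤ n → 1 ≤ N → 2 ≤ y → 𝔞 ≠ ⊥ → 1 ≤ CL → 1 ≤ cq → 0 < cov L →
      4 * (N : ℝ) ^ 6 * ((n * Ideal.absNorm 𝔞 : ℕ) * (1 + √|(K.D : ℝ)|)) * CL ≤ Z → ε ≤ 1 →
      EqD K.σ y N u n ε → 0 ≤ H → 0 ≤ δ → 0 ≤ κ →
      κ * (N ^ u * ir L n) * (n ^ 2 * cov L) ≤ CL * cq * y ^ u →
      Ideal.absNorm 𝔞 * y ^ u ≤ CL * Z ^ 2 → Z ^ 2 ≤ CL * (Ideal.absNorm 𝔞 * y ^ u) →
      (∀ s ∈ S, ‖K.σ (a s)‖ ≤ CL * Z) → (∀ s, P s ↔ a s ∈ 𝔞) → 0 ≤ E →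
      ε + δ + (1 + H * (CL * Z)) / N ≤ E →
      Sd S P a (Ideal.span {(n : 𝓞 L)} * 𝔞) (Rs n 𝔞 κ (Wan y N u 𝔞)) (Rs n 𝔞 κ (Lam K.σ y N u n 𝔞))
        (Lip K (Ideal.span {(n : 𝓞 L)} * 𝔞) H δ)
        (Ideal.absNorm (Ideal.span {(n : 𝓞 L)} * 𝔞) * cov L) (C * CL ^ 2 * cq * Z ^ 2) E := by
  obtain ⟨Cc, hCc, hcos⟩ := hCos u hu
  obtain ⟨Cs, hCs, hsh⟩ := hShell u
  refine ⟨Cc * Cs, one_le_mul_of_one_le_of_one_le hCc hCs, ?_⟩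
  intro σ S P L _ _ K a n N 𝔞 y ε H δ κ cq Z CL E hn hN hy h0 hCL hcq hcov hr hε hE hH hδ hκ h1 h2 h3
    h4 h5 hE0 h6
  have hNa : 1 ≤ Ideal.absNorm 𝔞 :=
    Nat.pos_of_ne_zero fun h => h0 (Ideal.absNorm_eq_zero_iff.mp h)
  have hNa' : (1 : ℝ) ≤ Ideal.absNorm 𝔞 := by exact_mod_cast hNa
  have hn' : (3 : ℝ) ≤ n := by exact_mod_cast hn
  have hN' : (1 : ℝ) ≤ N := by exact_mod_cast hN
  have hn1 : 1 ≤ n * Ideal.absNorm 𝔞 := Nat.mul_pos (by omega) hNa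
  have hmem : ((n * Ideal.absNorm 𝔞 : ℕ) : 𝓞 L) ∈ Ideal.span {(n : 𝓞 L)} * 𝔞 := by
    rw [Nat.cast_mul]
    exact Ideal.mul_mem_mul (Ideal.mem_span_singleton_self _) (Ideal.absNorm_mem 𝔞)
  set r₀ : ℝ := (n * Ideal.absNorm 𝔞 : ℕ) * (1 + √|(K.D : ℝ)|) with hr₀
  have hr0 : 0 ≤ r₀ := by positivity
  have hN6 : (1 : ℝ) ≤ N ^ 6 := one_le_pow₀ hN'
  have hZ : 0 ≤ Z := le_trans (by positivity) hr
  have hvol : ((Ideal.absNorm (Ideal.span {(n : 𝓞 L)} * 𝔞) : ℕ) : ℝ) * cov L =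
      n ^ 2 * Ideal.absNorm 𝔞 * cov L := by rw [absNorm_n K]; push_cast; rfl
  have hvol0 : 0 < (n : ℝ) ^ 2 * Ideal.absNorm 𝔞 * cov L := by positivity
  set X : ℝ := √(Ideal.absNorm 𝔞 * y ^ u) with hX
  have hX0 : 0 < X := Real.sqrt_pos.mpr (by positivity)
  have hX2 : X ^ 2 = Ideal.absNorm 𝔞 * y ^ u := Real.sq_sqrt (by positivity)
  have hX3 : X ≤ CL * Z := by
    refine abs_le_of_sq_le_sq' ?_ (by positivity) |>.2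
    rw [hX2, mul_pow]
    exact h2.trans (mul_le_mul_of_nonneg_right (by nlinarith) (sq_nonneg _))
  have hX4 : (N : ℝ) ^ 6 * r₀ ≤ X := by
    have a1 : Z ≤ CL * X := by
      refine abs_le_of_sq_le_sq' ?_ (by positivity) |>.2
      rw [mul_pow, hX2]
      exact h3.trans (mul_le_mul_of_nonneg_right (by nlinarith) (by positivity))
    have a2 : CL * ((N : ℝ) ^ 6 * r₀) ≤ CL * X := by
      have : 0 ≤ (N : ℝ) ^ 6 * r₀ * CL := by positivity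
      nlinarith
    exact le_of_mul_le_mul_left a2 (by linarith)
  have hM : κ * (Cc * (N ^ u * ir L n)) ≤ Cc * Cs * CL ^ 2 * cq * Z ^ 2 /
      ((Ideal.absNorm (Ideal.span {(n : 𝓞 L)} * 𝔞) : ℕ) * cov L) := by
    rw [hvol, le_div_iff₀ hvol0]
    calc _ = Cc * (κ * (N ^ u * ir L n) * (n ^ 2 * cov L)) * Ideal.absNorm 𝔞 := by ring
      _ ≤ Cc * (CL * cq * y ^ u) * Ideal.absNorm 𝔞 := by gcongr
      _ = Cc * 1 * CL * cq * (Ideal.absNorm 𝔞 * y ^ u) := by ring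
      _ ≤ Cc * Cs * CL * cq * (CL * Z ^ 2) := by gcongr
      _ = _ := by ring
  have hG : 0 ≤ Cc * Cs * CL ^ 2 * cq * Z ^ 2 := by positivity
  refine ⟨hvol ▸ hvol0, hG, fun s s₀ b1 b2 => ?_, ?_, fun α₀ => ?_⟩
  · rw [h5] at b1 ⊢
    simpa using 𝔞.add_mem (Ideal.mul_le_right b2) b1
  · refine side_f h0 hκ (div_nonneg hG (hvol ▸ hvol0.le)) hE0 (Wan_nonneg y N u 𝔞)
      (Lam_nonneg K.σ (by linarith) N u n 𝔞) (lip_zero K _ H δ) fun α₀ ω Ω hU hΩ hl => ?_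
    obtain ⟨s, b1, b2, b3, b4, b5⟩ := hcos L K n N _ 𝔞 α₀ y X ε Ω (H * X) δ ω hn hN hn1 hy h0 hU hmem
      hX0 hX2 hX4 hε hE hΩ (by positivity) hδ hl.1 (fun α α' c1 c2 => by
        have := hl.2 α α' c1 c2
        rwa [show H * X * ‖K.σ α - K.σ α'‖ / X = H * ‖K.σ α - K.σ α'‖ by field_simp])
    refine ⟨s, b1, b2, ?_, (mul_le_mul_of_nonneg_left b4 hκ).trans hM,
      (mul_le_mul_of_nonneg_left b5 hκ).trans hM⟩
    have hir := ir_nonneg L n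
    have c1 : ε + δ + (1 + H * X) / N ≤ E := le_trans (by gcongr) h6
    calc _ ≤ κ * (Cc * Ω * (N ^ u * ir L n) * E) :=
          mul_le_mul_of_nonneg_left (b3.trans (by gcongr)) hκ
      _ = Ω * (κ * (Cc * (N ^ u * ir L n)) * E) := by ring
      _ ≤ _ := by gcongr
  · obtain ⟨-, b1, -⟩ := hsh L K _ _ α₀ r₀ hn1 hmem le_rfl
    obtain ⟨b2, b3⟩ := b1 0 (CL * Z)
    have b4 : 4 * r₀ ≤ CL * Z := by
      have c1 : 4 * r₀ ≤ 4 * (N : ℝ) ^ 6 * r₀ * CL := by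
        have := mul_le_mul_of_nonneg_left (one_le_mul_of_one_le_of_one_le hN6 hCL) hr0
        nlinarith
      nlinarith
    have b5 : {α : 𝓞 L | α - α₀ ∈ Ideal.span {(n : 𝓞 L)} * 𝔞 ∧ ‖K.σ α - 0‖ ≤ CL * Z}.Finite :=
      b2.subset fun α h => h.2
    refine ⟨b5.toFinset, fun α h => (b5.mem_toFinset.mp h).1, fun s hs h =>
      b5.mem_toFinset.mpr ⟨h, by rw [sub_zero]; exact h4 s hs⟩, ?_⟩
    rw [← Set.ncard_eq_toFinset_card _ b5]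
    refine (b3 b4).2.trans (div_le_div_of_nonneg_right ?_ (hvol ▸ hvol0.le))
    calc _ = 1 * Cs * CL ^ 2 * 1 * Z ^ 2 := by ring
      _ ≤ _ := by gcongr

/-- the final numerical inequality -/
lemma num {Co C η m y N S0 Lr Bk cq cq' Q e : ℝ} (CL : ℝ) (hCo : 1 ≤ Co) (hCL : 1 ≤ CL)
    (hη : 0 < η) (hm : 1 ≤ m) (hS : 0 < S0) (hB : 0 < Bk) (hL : η * S0 / 2 ≤ Lr) (hN : m ^ 6 ≤ N)
    (hy : m ^ 5 ≤ y) (hq : cq * cq' ≤ Q) (hQ : 0 ≤ Q) (he0 : 0 ≤ e) (he : e ≤ 2)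
    (hK : 128 * Co * C ^ 2 * (3 + 2 * Co * CL / η) / η ^ 5 ≤ m) :
    (m ^ 5)⁻¹ + y⁻¹ + (1 + Co / (m⁻¹ * Lr * Bk) * (CL * (S0 * Bk))) / N ≤
      (3 + 2 * Co * CL / η) / m ^ 5 ∧
    4 * (Co / (m⁻¹ * Lr * Bk) ^ 4 * (C * cq * (S0 * Bk) ^ 2) * (C * cq' * (S0 * Bk) ^ 2) *
      ((3 + 2 * Co * CL / η) / m ^ 5)) * e ≤ η * Q := by
  have hm0 : 0 < m := by linarith
  have hL0 : 0 < Lr := lt_of_lt_of_le (by positivity) hL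
  have h1 : S0 * Bk / (m⁻¹ * Lr * Bk) ≤ 2 * m / η := by
    rw [div_le_div_iff₀ (by positivity) hη]
    calc S0 * Bk * η = 2 * Bk * (η * S0 / 2) := by ring
      _ ≤ 2 * Bk * Lr := by gcongr
      _ = _ := by field_simp
  have h0 : 0 ≤ S0 * Bk / (m⁻¹ * Lr * Bk) := by positivity
  constructor
  · have a1 : y⁻¹ ≤ (m ^ 5)⁻¹ := inv_anti₀ (by positivity) hy
    have a2 : (1 + Co / (m⁻¹ * Lr * Bk) * (CL * (S0 * Bk))) / N ≤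
        (m + Co * CL * (2 * m / η)) / m ^ 6 := by
      refine div_le_div₀ (by positivity) (add_le_add hm ?_) (by positivity) hN
      calc _ = Co * CL * (S0 * Bk / (m⁻¹ * Lr * Bk)) := by ring
        _ ≤ _ := by gcongr
    refine (add_le_add (add_le_add le_rfl a1) a2).trans (le_of_eq ?_)
    field_simp
    ring
  · calc _ = 4 * Co * C ^ 2 * (cq * cq') * (S0 * Bk / (m⁻¹ * Lr * Bk)) ^ 4 *
          ((3 + 2 * Co * CL / η) / m ^ 5) * e := by ring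
      _ ≤ 4 * Co * C ^ 2 * Q * (2 * m / η) ^ 4 * ((3 + 2 * Co * CL / η) / m ^ 5) * 2 := by gcongr
      _ = η * Q * (128 * Co * C ^ 2 * (3 + 2 * Co * CL / η) / η ^ 5 / m) := by field_simp; ring
      _ ≤ η * Q * 1 := by
        gcongr
        exact (div_le_one hm0).mpr hK
      _ = _ := mul_one _

/-- the size of the fundamental domain -/
lemma size {y N n Na D CL Z : ℝ} (hy : 4 ≤ y) (hN : N ^ 6 ≤ y) (hn0 : 0 ≤ n) (hn : n ≤ y ^ 75)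
    (hNa0 : 0 ≤ Na) (hNa : Na ≤ y ^ 5) (hD : |D| ≤ y ^ 26) (hCL0 : 0 ≤ CL) (hCL : CL ≤ y)
    (hZ : y ^ 200 ≤ Z) : 4 * N ^ 6 * (n * Na * (1 + √|D|)) * CL ≤ Z := by
  have h1 : (1 : ℝ) ≤ y := by linarith
  have h2 : √|D| ≤ y ^ 13 := Real.sqrt_le_iff.mpr ⟨by positivity, by rw [← pow_mul]; exact hD⟩
  have h3 : 1 + √|D| ≤ y * y ^ 13 := by nlinarith [one_le_pow₀ (n := 13) h1]
  calc _ ≤ y * y * (y ^ 75 * y ^ 5 * (y * y ^ 13)) * y := by gcongr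
    _ = y ^ 97 := by ring
    _ ≤ y ^ 200 := pow_le_pow_right₀ h1 (by norm_num)
    _ ≤ Z := hZ

/-! ### the modulus -/

lemma dl_ne {t t' : ℤ × ℤ} (h : t.2 ≠ 0) (h' : t'.2 ≠ 0)
    (hne : (t.1 : ℝ) / t.2 - (t'.1 : ℝ) / t'.2 ≠ 0) : dl t t' ≠ 0 := by
  intro h0
  apply hne
  have a1 : (t.2 : ℝ) ≠ 0 := by exact_mod_cast h
  have a2 : (t'.2 : ℝ) ≠ 0 := by exact_mod_cast h'
  have : (t.1 : ℝ) * t'.2 - t'.1 * t.2 = 0 := by exact_mod_cast h0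
  rw [div_sub_div _ _ a1 a2, div_eq_zero_iff]
  left
  linarith

lemma nn_dvd (p : Par) (x x' : Pt) (t t' : ℤ × ℤ) :
    2 * (p.r : ℤ) ^ p.n0 * t.1 * dl t t' * p.D t ∣ (nn p x x' t t' : ℤ) := by
  rw [nn, Int.dvd_natAbs]
  exact ⟨x.1 * x'.1 * t'.1 * p.D t', by ring⟩

lemma le_span {L : Type} [Field L] (p : Par) (x x' : Pt) (t t' : ℤ × ℤ) (𝔞 : Ideal (𝓞 L)) :
    Ideal.span {(nn p x x' t t' : 𝓞 L)} * 𝔞 ≤
      Ideal.span {((2 * (p.r : ℤ) ^ p.n0 * t.1 * dl t t' * p.D t : ℤ) : 𝓞 L)} := by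
  refine Ideal.mul_le_left.trans (Ideal.span_singleton_le_span_singleton.mpr ?_)
  have := Int.cast_dvd_cast (α := 𝓞 L) _ _ (nn_dvd p x x' t t')
  rwa [Int.cast_natCast] at this

lemma nn_facts {F : Fix} {c : Cfg} (hi : F.In c) (hy : 1 ≤ c.y) {x x' : Pt} {t t' : ℤ × ℤ}
    (h : IsQ F.p c x x' t t') (hd : dl t t' ≠ 0) :
    3 ≤ nn F.p x x' t t' ∧ M0 F.p.r c.z * F.p.r ∣ nn F.p x x' t t' := by
  have hx := (mem_Xset.mp h.hx).2.1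
  have hx' := (mem_Xset.mp h.hx').2.1
  have h0 : nn F.p x x' t t' ≠ 0 := by
    rw [nn, Int.natAbs_ne_zero]
    have a1 := (hi.t1_neg hy h.ht).ne
    have a2 := (hi.t1_neg hy h.ht').ne
    have a3 := (hi.adm hy h.ht).2.1.ne
    have a4 := (hi.adm hy h.ht').2.1.ne
    have a5 : (F.p.r : ℤ) ≠ 0 := by exact_mod_cast F.p.r_pos.ne'
    have a6 : (x.1 : ℤ) ≠ 0 := by exact_mod_cast hx.ne_zero
    have a7 : (x'.1 : ℤ) ≠ 0 := by exact_mod_cast hx'.ne_zero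
    positivity
  obtain ⟨m, hm⟩ : ∃ m, F.p.n0 = m + 1 := ⟨F.p.n0 - 1, by have := F.p.hn; omega⟩
  constructor
  · have : 2 * F.p.r ∣ nn F.p x x' t t' := by
      rw [← Int.natCast_dvd_natCast]
      refine Dvd.dvd.trans ⟨(F.p.r : ℤ) ^ m * t.1 * dl t t' * F.p.D t, ?_⟩ (nn_dvd _ x x' t t')
      rw [hm]; push_cast; ring
    have := Nat.le_of_dvd (Nat.pos_of_ne_zero h0) this
    have := F.p.two_le_r
    omega
  · obtain ⟨b, hb⟩ := (Tset_prop h.ht).2.2.2.2.2.2.1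
    rw [← Int.natCast_dvd_natCast]
    refine Dvd.dvd.trans ⟨2 * (F.p.r : ℤ) ^ m * b * dl t t' * F.p.D t, ?_⟩ (nn_dvd _ x x' t t')
    rw [hm]
    nth_rewrite 1 [hb]
    push_cast; ring

end Pool.Agent.P.MP_b8021b_nt.VE.PairEst
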