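import Pool.Agent.P.MP_b8021b_nt.VE.PPiP2

/-! The four estimates of the package piP under explicit hypotheses. -/

namespace Pool.Agent.P.MP_b8021b_nt.VE.PiP

open Polynomial Finset
open scoped Classical

variable {p : Par} {c : Cfg}

lemma sum_inv_sq_le (S : Finset ℕ) {z : ℕ} (hz : 1 ≤ z) (hS : ∀ l ∈ S, z < l) :
    ∑ l ∈ S, ((l : ℝ) ^ 2)⁻¹ ≤ (z : ℝ)⁻¹ := by
  have h1 : S ⊆ Ioc z (z + S.sup id) := fun l hl =>
    mem_Ioc.mpr ⟨hS l hl, le_add_left (le_sup (f := id) hl)⟩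
  refine (sum_le_sum_of_subset_of_nonneg h1 fun _ _ _ => by positivity).trans ?_
  refine (sum_Ioc_inv_sq_le_sub (by omega) (by omega)).trans ?_
  have : (0 : ℝ) ≤ ((z + S.sup id : ℕ) : ℝ)⁻¹ := by positivity
  linarith

lemma Ctx.part4 (h : Ctx p c) (hT : S_TEq) {ζ : ℝ} (hζ : c.y⁻¹ ≤ ζ) :
    Qs p c (fun _ _ t t' => if |(t.1 : ℝ) / t.2 - (t'.1 : ℝ) / t'.2| < ζ then 1 else 0) ≤
      4 * (2 / c.η + 1) * ζ := by
  have hy : 0 < c.y := by linarith [h.y1]
  have hζ0 : 0 < ζ := lt_of_lt_of_le (inv_pos.mpr hy) hζ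
  have hη := h.ηpos
  rw [mul_assoc]
  refine h.qs_le (Φ := fun t t' => if |(t.1 : ℝ) / t.2 - (t'.1 : ℝ) / t'.2| < ζ then 1 else 0)
    (by positivity) (fun t t' => by split_ifs <;> norm_num) (fun _ _ _ _ _ => le_rfl) ?_
  intro q hq q' hq' hne
  refine h.inn_le (by positivity) (fun t t' => by split_ifs <;> norm_num) fun t ht hc => ?_
  obtain ⟨-, -, t3, t4, -⟩ := mem_T ht
  have := h.est3 hT hq hq' hne hc frm_fst ∅ (by simp) (by simp; linarith [h.y1])
    (τ₁ := max c.τ0 ((t.1 : ℝ) / t.2 - ζ)) (τ₂ := min (c.τ0 + c.η) ((t.1 : ℝ) / t.2 + ζ))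
    (le_max_left _ _) (le_trans (max_le t3 (by linarith)) (le_min t4.le (by linarith)))
    (min_le_left _ _)
  refine le_trans (sum_le_sum fun t' ht' => ?_) (this.trans ?_)
  · obtain ⟨-, -, s3, s4, -⟩ := mem_T ht'
    have hw := h.wT_nonneg ht'
    by_cases hh : ((q : ℤ) ∣ dl t t' ∧ (q' : ℤ) ∣ dl t t') ∧
        |(t.1 : ℝ) / t.2 - (t'.1 : ℝ) / t'.2| < ζ
    · obtain ⟨b1, b2⟩ := abs_lt.mp hh.2
      rw [if_pos hh.1, if_pos hh.2, if_pos ⟨max_le s3 (by linarith), lt_min s4 (by linarith),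
        hh.1.1, hh.1.2, by simp⟩, mul_one]
    · refine le_trans (le_of_eq ?_) (b := 0) (by split_ifs <;> simp [hw])
      split_ifs with g1 g2
      · exact absurd ⟨g1, g2⟩ hh
      · simp
      · rfl
  · simp only [prod_empty, Nat.cast_one]
    rw [mul_one_div]
    refine div_le_div_of_nonneg_right ?_ (by positivity)
    have b1 : min (c.τ0 + c.η) ((t.1 : ℝ) / t.2 + ζ) - max c.τ0 ((t.1 : ℝ) / t.2 - ζ) ≤ 2 * ζ := by
      linarith [min_le_right (c.τ0 + c.η) ((t.1 : ℝ) / t.2 + ζ),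
        le_max_right c.τ0 ((t.1 : ℝ) / t.2 - ζ)]
    have b2 := div_le_div_of_nonneg_right b1 hη.le
    have b3 : (2 / c.η + 1) * ζ = 2 * ζ / c.η + ζ := by ring
    rw [b3, one_div]
    linarith

lemma Ctx.mass (h : Ctx p c) (hT : S_TEq) {q q' : ℕ} (hq : q ∈ Pset c.y c.N)
    (hq' : q' ∈ Pset c.y c.N) (hne : q ≠ q') {t : ℤ × ℤ} (ht : IsCoprime t.1 t.2)
    {G : ℤ × ℤ → ℤ} (hG : Frm G) (S : Finset ℕ)
    (hS : ∀ l ∈ S, l.Prime ∧ c.z < l ∧ (l : ℝ) < c.y) (hD : ((∏ l ∈ S, l : ℕ) : ℝ) ≤ c.y) :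
    ∑ t' ∈ Tset p c, (if (q : ℤ) ∣ dl t t' ∧ (q' : ℤ) ∣ dl t t' then
        wT p c t' * (if ∀ l ∈ S, (l : ℤ) ∣ G t' then 1 else 0) else 0) ≤
      2 * (∏ l ∈ S, 4 / (l : ℝ)) / (q * q') := by
  have hy : 0 < c.y := by linarith [h.y1]
  have hη := h.ηpos
  have := h.est3 hT hq hq' hne ht hG S hS hD (τ₁ := c.τ0) (τ₂ := c.τ0 + c.η) le_rfl
    (by linarith) le_rfl
  refine le_trans (sum_le_sum fun t' ht' => le_of_eq ?_) (this.trans ?_)
  · obtain ⟨-, -, s3, s4, -⟩ := mem_T ht'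
    by_cases g1 : (q : ℤ) ∣ dl t t' ∧ (q' : ℤ) ∣ dl t t'
    · by_cases g2 : ∀ l ∈ S, (l : ℤ) ∣ G t'
      · rw [if_pos g1, if_pos g2, if_pos ⟨s3, s4, g1.1, g1.2, g2⟩, mul_one]
      · rw [if_pos g1, if_neg g2, if_neg fun hh => g2 hh.2.2.2.2, mul_zero]
    · rw [if_neg g1, if_neg fun hh => g1 ⟨hh.2.2.1, hh.2.2.2.1⟩]
  · rw [mul_div_assoc]
    refine mul_le_mul_of_nonneg_right ?_
      (div_nonneg (prod_nonneg fun _ _ => by positivity) (by positivity))
    have b1 : (c.τ0 + c.η - c.τ0) / c.η = 1 := by field_simp; ring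
    have b2 := (div_le_one hy).mpr hD
    linarith

lemma Ctx.inn_one (h : Ctx p c) (hT : S_TEq) {q q' : ℕ} (hq : q ∈ Pset c.y c.N)
    (hq' : q' ∈ Pset c.y c.N) (hne : q ≠ q') : inn p c q q' (fun _ _ => 1) ≤ 2 / (q * q') := by
  refine h.inn_le (by positivity) (fun _ _ => zero_le_one) fun t _ hc => ?_
  have := h.mass hT hq hq' hne hc frm_fst ∅ (by simp) (by simp; linarith [h.y1])
  simpa using this

lemma Ctx.part1 (h : Ctx p c) (hT : S_TEq) : Qs p c (fun _ _ _ _ => 1) ≤ 10 :=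
  (h.qs_le (Φ := fun _ _ => 1) (β := 2) (by norm_num) (fun _ _ => zero_le_one)
    (fun _ _ _ _ _ => le_rfl) fun _ hq _ hq' hne => h.inn_one hT hq hq' hne).trans (by norm_num)

/-- the product over the small primes dividing `n` -/
noncomputable def HH (S : Finset ℕ) (K : ℝ) (n : ℤ) : ℝ :=
  ∏ l ∈ S, (1 + if (l : ℤ) ∣ n then K / (l : ℝ) else 0)

lemma one_le_HH (S : Finset ℕ) {K : ℝ} (hK : 0 ≤ K) (n : ℤ) : 1 ≤ HH S K n :=
  Finset.one_le_prod fun l _ => by
    split_ifs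
    · exact le_add_of_nonneg_right (by positivity)
    · simp

lemma prod_sub_one (S : Finset ℕ) (f : ℕ → ℝ) :
    ∏ l ∈ S, (1 + f l) - 1 = ∑ U ∈ S.powerset.erase ∅, ∏ l ∈ U, f l := by
  rw [prod_one_add, ← add_sum_erase _ _ (empty_mem_powerset S)]
  simp

lemma Ctx.inn_HH (h : Ctx p c) (hT : S_TEq) {q q' : ℕ} (hq : q ∈ Pset c.y c.N)
    (hq' : q' ∈ Pset c.y c.N) (hne : q ≠ q') {G : ℤ × ℤ → ℤ × ℤ → ℤ}
    (hG : ∀ t, IsCoprime t.1 t.2 → Frm (G t)) (S : Finset ℕ)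
    (hS : ∀ l ∈ S, l.Prime ∧ c.z < l ∧ (l : ℝ) < c.y) (hD : ((∏ l ∈ S, l : ℕ) : ℝ) ≤ c.y)
    {K : ℝ} (hK : 0 ≤ K) (hz : 1 ≤ c.z) :
    inn p c q q' (fun t t' => HH S K (G t t') - 1) ≤
      2 * (Real.exp (4 * K / c.z) - 1) / (q * q') := by
  have hexp : 0 ≤ Real.exp (4 * K / c.z) - 1 := by
    have := Real.one_le_exp (x := 4 * K / c.z) (by positivity)
    linarith
  refine h.inn_le (by positivity) (fun t t' => by linarith [one_le_HH S hK (G t t')])
    fun t _ hc => ?_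
  have e : ∀ t', (if (q : ℤ) ∣ dl t t' ∧ (q' : ℤ) ∣ dl t t' then
      wT p c t' * (HH S K (G t t') - 1) else 0) = ∑ U ∈ S.powerset.erase ∅,
        (∏ l ∈ U, K / (l : ℝ)) * (if (q : ℤ) ∣ dl t t' ∧ (q' : ℤ) ∣ dl t t' then
          wT p c t' * (if ∀ l ∈ U, (l : ℤ) ∣ G t t' then 1 else 0) else 0) := fun t' => by
    by_cases g1 : (q : ℤ) ∣ dl t t' ∧ (q' : ℤ) ∣ dl t t'
    · simp only [if_pos g1]
      unfold HH
      rw [prod_sub_one, mul_sum]
      refine sum_congr rfl fun U _ => ?_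
      rw [prod_ite_zero]
      split_ifs <;> ring
    · simp [if_neg g1]
  rw [sum_congr rfl fun t' _ => e t', sum_comm]
  calc _ ≤ ∑ U ∈ S.powerset.erase ∅, (∏ l ∈ U, K / (l : ℝ)) *
        (2 * (∏ l ∈ U, 4 / (l : ℝ)) / (q * q')) := by
        refine sum_le_sum fun U hU => ?_
        have hUS : U ⊆ S := mem_powerset.mp (mem_of_mem_erase hU)
        rw [← mul_sum]
        refine mul_le_mul_of_nonneg_left (h.mass hT hq hq' hne hc (hG t hc) U
          (fun l hl => hS l (hUS hl)) (le_trans ?_ hD)) (prod_nonneg fun _ _ => by positivity)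
        exact_mod_cast Nat.le_of_dvd (prod_pos fun l hl => (hS l hl).1.pos)
          (prod_dvd_prod_of_subset _ _ _ hUS)
    _ = 2 * (∏ l ∈ S, (1 + 4 * K * ((l : ℝ) ^ 2)⁻¹) - 1) / (q * q') := by
        rw [prod_sub_one, mul_sum, sum_div]
        refine sum_congr rfl fun U _ => ?_
        have : ∏ l ∈ U, 4 * K * ((l : ℝ) ^ 2)⁻¹ =
            (∏ l ∈ U, K / (l : ℝ)) * ∏ l ∈ U, 4 / (l : ℝ) := by
          rw [← prod_mul_distrib]
          exact prod_congr rfl fun l _ => by ring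
        rw [this]; ring
    _ ≤ _ := by
        refine div_le_div_of_nonneg_right (mul_le_mul_of_nonneg_left (sub_le_sub_right ?_ _)
          (by norm_num)) (by positivity)
        calc _ ≤ ∏ l ∈ S, Real.exp (4 * K * ((l : ℝ) ^ 2)⁻¹) :=
              prod_le_prod (fun _ _ => by positivity) fun l _ => by
                linarith [Real.add_one_le_exp (4 * K * ((l : ℝ) ^ 2)⁻¹)]
          _ = Real.exp (4 * K * ∑ l ∈ S, ((l : ℝ) ^ 2)⁻¹) := by rw [mul_sum, Real.exp_sum]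
          _ ≤ _ := by
              refine Real.exp_le_exp.mpr ?_
              rw [div_eq_mul_inv]
              exact mul_le_mul_of_nonneg_left
                (sum_inv_sq_le S hz fun l hl => (hS l hl).2.1) (by positivity)

lemma five (f g : Fin 5 → ℝ) (hf : ∀ i, 1 ≤ f i) (hg : ∀ i, f i ^ 5 ≤ g i) :
    ∏ i, f i ≤ 1 + ∑ i, (g i - 1) := by
  obtain ⟨j, -, hj⟩ := exists_max_image univ f univ_nonempty
  have h1 : ∏ i, f i ≤ ∏ _i : Fin 5, f j :=
    prod_le_prod (fun i _ => by linarith [hf i]) fun i hi => hj i hi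
  have h2 : g j - 1 ≤ ∑ i, (g i - 1) := single_le_sum (f := fun i => g i - 1)
    (fun i _ => by linarith [hg i, one_le_pow₀ (n := 5) (hf i)]) (mem_univ j)
  simp only [prod_const, card_univ, Fintype.card_fin] at h1
  linarith [hg j]

lemma HH_pow (S : Finset ℕ) (hS : ∀ l ∈ S, 10 ≤ l) (n : ℤ) : HH S 10 n ^ 5 ≤ HH S 310 n := by
  unfold HH
  rw [← prod_pow]
  refine prod_le_prod (fun l _ => by split_ifs <;> positivity) fun l hl => ?_
  split_ifs
  · have h1 : (10 : ℝ) ≤ l := by exact_mod_cast hS l hl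
    have h2 : (10 : ℝ) / l ≤ 1 := (div_le_one (by linarith)).mpr h1
    have h3 : (0 : ℝ) ≤ 10 / l := by positivity
    rw [show (310 : ℝ) / l = 31 * (10 / l) by ring]
    set x := (10 : ℝ) / l
    have h4 : x ^ 2 ≤ x := by nlinarith
    have h5 : x ^ 3 ≤ x := by nlinarith
    have h6 : x ^ 4 ≤ x := by nlinarith
    have h7 : x ^ 5 ≤ x := by nlinarith
    nlinarith
  · simp

lemma pi_le (z n : ℕ) {Y : ℝ} (hY : 1 < Y) (hn : (n : ℝ) ≤ Real.exp (150 * Y)) :
    Pi z n ≤ HH ((range (⌊Y⌋₊ + 1)).filter fun l => l.Prime ∧ z < l) 10 n *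
      Real.exp (1500 / Real.log Y) := by
  have hlog := Real.log_pos hY
  set S := (range (⌊Y⌋₊ + 1)).filter fun l => l.Prime ∧ z < l with hS
  rcases Nat.eq_zero_or_pos n with rfl | hn0
  · have : Pi z 0 = 1 := by simp [Pi]
    rw [this]
    exact one_le_mul_of_one_le_of_one_le (one_le_HH _ (by norm_num) _)
      (Real.one_le_exp (by positivity))
  unfold Pi
  set A := n.primeFactors.filter fun l => z < l with hA
  rw [← prod_filter_mul_prod_filter_not A fun l : ℕ => (l : ℝ) ≤ Y]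
  refine mul_le_mul ?_ ?_ (prod_nonneg fun _ _ => by positivity)
    (zero_le_one.trans (one_le_HH _ (by norm_num) _))
  · unfold HH
    have hsub : A.filter (fun l : ℕ => (l : ℝ) ≤ Y) ⊆ S := fun l hl => by
      obtain ⟨h1, h2⟩ := mem_filter.mp hl
      obtain ⟨h3, h4⟩ := mem_filter.mp h1
      exact mem_filter.mpr ⟨mem_range.mpr (Nat.lt_succ_of_le (Nat.le_floor h2)),
        Nat.prime_of_mem_primeFactors h3, h4⟩
    refine le_trans (le_of_eq (prod_congr rfl fun l hl => ?_))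
      (prod_le_prod_of_subset_of_one_le hsub (fun l _ => by split_ifs <;> positivity)
        fun l _ _ => ?_)
    · rw [if_pos]
      exact_mod_cast Nat.dvd_of_mem_primeFactors (mem_filter.mp (mem_filter.mp hl).1).1
    · split_ifs
      · exact le_add_of_nonneg_right (by positivity)
      · simp
  · set L := A.filter fun l : ℕ => ¬ (l : ℝ) ≤ Y with hL
    have hLs : L ⊆ n.primeFactors := (filter_subset _ _).trans (filter_subset _ _)
    have h1 : Y ^ L.card ≤ n := by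
      calc Y ^ L.card = ∏ _l ∈ L, Y := by simp
        _ ≤ ∏ l ∈ L, (l : ℝ) := prod_le_prod (fun _ _ => by linarith) fun l hl =>
            (not_le.mp (mem_filter.mp hl).2).le
        _ = ((∏ l ∈ L, l : ℕ) : ℝ) := by push_cast; rfl
        _ ≤ n := by
            exact_mod_cast Nat.le_of_dvd hn0 ((prod_dvd_prod_of_subset _ _ _ hLs).trans
              (Nat.prod_primeFactors_dvd n))
    have h2 : L.card * Real.log Y ≤ 150 * Y := by
      rw [← Real.log_pow, Real.log_le_iff_le_exp (by positivity)]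
      exact h1.trans hn
    calc _ ≤ ∏ _l ∈ L, Real.exp (10 / Y) := prod_le_prod (fun _ _ => by positivity) fun l hl => by
          have h3 := (not_le.mp (mem_filter.mp hl).2).le
          have h4 : (10 : ℝ) / l ≤ 10 / Y := by gcongr
          linarith [Real.add_one_le_exp (10 / Y)]
      _ = Real.exp (L.card * (10 / Y)) := by rw [prod_const, Real.exp_nat_mul]
      _ ≤ _ := by
          refine Real.exp_le_exp.mpr ?_
          rw [le_div_iff₀ hlog]
          calc L.card * (10 / Y) * Real.log Y = (L.card * Real.log Y) * (10 / Y) := by ring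
            _ ≤ (150 * Y) * (10 / Y) := by gcongr
            _ = 1500 := by field_simp; norm_num

end Pool.Agent.P.MP_b8021b_nt.VE.PiP
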