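import Pool.Agent.P.MP_b8021b_nt.VE.StN

/-! Counting lemmas for the package `ww`. -/

namespace Pool.Agent.P.MP_b8021b_nt.VE.Ww

open Finset

/-- `Φ` depends on the residues modulo `d` and holds for `m` pairs of residues -/
def Den (d : ℕ) (Φ : ℤ → ℤ → Prop) (m : ℕ) : Prop :=
  ∃ R : Finset (ZMod d × ZMod d), R.card = m ∧
    ∀ g c : ℤ, Φ g c ↔ ((g : ZMod d), (c : ZMod d)) ∈ R

lemma Den.mul {d₁ d₂ m₁ m₂ : ℕ} {Φ₁ Φ₂ : ℤ → ℤ → Prop} (h : d₁.Coprime d₂) (h₁ : Den d₁ Φ₁ m₁)
    (h₂ : Den d₂ Φ₂ m₂) : Den (d₁ * d₂) (fun g c => Φ₁ g c ∧ Φ₂ g c) (m₁ * m₂) := by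
  obtain ⟨R₁, c₁, e₁⟩ := h₁
  obtain ⟨R₂, c₂, e₂⟩ := h₂
  let e := ZMod.chineseRemainder h
  let E : (ZMod d₁ × ZMod d₁) × (ZMod d₂ × ZMod d₂) ≃ ZMod (d₁ * d₂) × ZMod (d₁ * d₂) :=
    { toFun := fun z => (e.symm (z.1.1, z.2.1), e.symm (z.1.2, z.2.2))
      invFun := fun z => (((e z.1).1, (e z.2).1), ((e z.1).2, (e z.2).2))
      left_inv := fun z => by simp
      right_inv := fun z => by simp }
  refine ⟨(R₁ ×ˢ R₂).map E.toEmbedding, by rw [card_map, card_product, c₁, c₂], fun g c => ?_⟩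
  beta_reduce
  rw [mem_map_equiv, mem_product, e₁, e₂]
  have hg : e (g : ZMod (d₁ * d₂)) = (g : ZMod d₁ × ZMod d₂) := map_intCast e g
  have hc : e (c : ZMod (d₁ * d₂)) = (c : ZMod d₁ × ZMod d₂) := map_intCast e c
  have : E.symm ((g : ZMod (d₁ * d₂)), (c : ZMod (d₁ * d₂))) =
      (((g : ZMod d₁), (c : ZMod d₁)), ((g : ZMod d₂), (c : ZMod d₂))) := by
    show (((e (g : ZMod (d₁ * d₂))).1, (e (c : ZMod (d₁ * d₂))).1),
      ((e (g : ZMod (d₁ * d₂))).2, (e (c : ZMod (d₁ * d₂))).2)) = _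
    rw [hg, hc]
    simp only [Prod.fst_intCast, Prod.snd_intCast]
  rw [this]

lemma den_lin (q : ℕ) (hq : q ≠ 0) (β : ℤ) : Den q (fun g c => (q : ℤ) ∣ g + c * β) q := by
  have : NeZero q := ⟨hq⟩
  let f : ZMod q ↪ ZMod q × ZMod q := ⟨fun c => (-(c * β), c), fun a b h => congrArg Prod.snd h⟩
  refine ⟨univ.map f, by rw [card_map, card_univ, ZMod.card], fun g c => ?_⟩
  beta_reduce
  rw [← ZMod.intCast_zmod_eq_zero_iff_dvd]
  push_cast
  simp only [mem_map, mem_univ, true_and, f, Function.Embedding.coeFn_mk, Prod.mk.injEq]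
  constructor
  · intro h
    exact ⟨c, by linear_combination -h, rfl⟩
  · rintro ⟨a, h1, rfl⟩
    linear_combination -h1

lemma den_quad (l : ℕ) (hl : l.Prime) (D : ℤ) :
    ∃ m ≤ 2 * l, Den l (fun g c => (l : ℤ) ∣ g ^ 2 - c ^ 2 * D) m := by
  have : Fact l.Prime := ⟨hl⟩
  refine ⟨_, ?_, univ.filter fun z : ZMod l × ZMod l => z.1 ^ 2 = z.2 ^ 2 * D, rfl, fun g c => ?_⟩
  · have := card_le_mul_card_image_of_maps_to (f := Prod.snd)
      (s := univ.filter fun z : ZMod l × ZMod l => z.1 ^ 2 = z.2 ^ 2 * D) (t := univ)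
      (fun a _ => mem_univ _) 2 (fun b _ => by
        by_cases h : ∃ g₀ : ZMod l, g₀ ^ 2 = b ^ 2 * D
        · obtain ⟨g₀, h₀⟩ := h
          refine le_trans (card_le_card (t := {(g₀, b), (-g₀, b)}) fun z hz => ?_) card_le_two
          simp only [mem_filter, mem_univ, true_and] at hz
          obtain ⟨h1, h2⟩ := hz
          rw [h2, ← h₀] at h1
          rcases sq_eq_sq_iff_eq_or_eq_neg.mp h1 with h3 | h3
          · exact mem_insert.mpr (Or.inl (Prod.ext h3 h2))
          · exact mem_insert.mpr (Or.inr (mem_singleton.mpr (Prod.ext h3 h2)))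
        · refine le_trans (card_le_card (t := ∅) fun z hz => ?_) (by simp)
          simp only [mem_filter, mem_univ, true_and] at hz
          exact absurd ⟨z.1, by rw [hz.1, hz.2]⟩ h)
    rwa [card_univ, ZMod.card] at this
  · beta_reduce
    rw [← ZMod.intCast_zmod_eq_zero_iff_dvd]
    push_cast
    simp only [mem_filter, mem_univ, true_and, sub_eq_zero]

lemma den_sq (l : ℕ) (hl : l.Prime) (h2 : l ≠ 2) (D : ℤ) (hD : ¬ (l : ℤ) ∣ D) :
    ∃ m ≤ 3 * l ^ 2, Den (l ^ 2) (fun g c => (l : ℤ) ^ 2 ∣ g ^ 2 - c ^ 2 * D) m := by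
  classical
  have : NeZero (l ^ 2) := ⟨pow_ne_zero 2 hl.ne_zero⟩
  have hp : Prime (l : ℤ) := Nat.prime_iff_prime_int.mp hl
  have key : ∀ g c : ℤ, (l : ℤ) ^ 2 ∣ g ^ 2 - c ^ 2 * D ↔
      (g : ZMod (l ^ 2)) ^ 2 = (c : ZMod (l ^ 2)) ^ 2 * D := by
    intro g c
    have := ZMod.intCast_zmod_eq_zero_iff_dvd (g ^ 2 - c ^ 2 * D) (l ^ 2)
    push_cast at this
    rw [← this, sub_eq_zero]
  have zz : ∀ g : ℤ, (l : ℤ) ^ 2 ∣ g → (g : ZMod (l ^ 2)) = 0 := by
    intro g h
    have := ZMod.intCast_zmod_eq_zero_iff_dvd g (l ^ 2)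
    push_cast at this
    exact this.mpr h
  let M : Finset (ZMod (l ^ 2)) := (range l).image fun j => ((l * j : ℕ) : ZMod (l ^ 2))
  have hM : M.card ≤ l := card_image_le.trans (card_range l).le
  have mM : ∀ g : ℤ, (l : ℤ) ∣ g → (g : ZMod (l ^ 2)) ∈ M := by
    rintro g ⟨j, rfl⟩
    have hl0 : (0 : ℤ) < l := by exact_mod_cast hl.pos
    have h1 : 0 ≤ j % l := Int.emod_nonneg _ hl0.ne'
    have h3 : j % l < l := Int.emod_lt_of_pos _ hl0
    refine mem_image.mpr ⟨(j % l).toNat, mem_range.mpr (by omega), ?_⟩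
    have h4 : (((j % l).toNat : ℕ) : ℤ) = j % l := Int.toNat_of_nonneg h1
    have h5 : (((l : ℤ) * j - l * (j % l) : ℤ) : ZMod (l ^ 2)) = 0 :=
      zz _ ⟨j / l, by have := Int.mul_ediv_add_emod j l; linear_combination (-(l : ℤ)) * this⟩
    have h6 : ((l * (j % l).toNat : ℕ) : ZMod (l ^ 2)) = (((l : ℤ) * (j % l) : ℤ) : ZMod (l ^ 2)) := by
      rw [← h4]
      push_cast
      rw [Int.toNat_natCast]
    rw [h6]
    rw [Int.cast_sub, sub_eq_zero] at h5
    exact h5.symm
  let R := univ.filter fun z : ZMod (l ^ 2) × ZMod (l ^ 2) =>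
    z.1 ^ 2 = z.2 ^ 2 * (D : ZMod (l ^ 2))
  refine ⟨_, ?_, R, rfl, fun g c => ?_⟩
  · have h1 : (R.filter fun z => z.2 ∉ M).card ≤ 2 * l ^ 2 := by
      have := card_le_mul_card_image_of_maps_to (f := Prod.snd)
        (s := R.filter fun z => z.2 ∉ M) (t := univ) (fun a _ => mem_univ _) 2 (fun b _ => by
        by_cases h : b ∉ M ∧ ∃ g₀ : ZMod (l ^ 2), g₀ ^ 2 = b ^ 2 * (D : ZMod (l ^ 2))
        · obtain ⟨hb, g₀, h₀⟩ := h
          refine le_trans (card_le_card (t := {(g₀, b), (-g₀, b)}) fun z hz => ?_) card_le_two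
          simp only [R, mem_filter, mem_univ, true_and] at hz
          obtain ⟨⟨h1, -⟩, h2'⟩ := hz
          obtain ⟨g, hg⟩ := ZMod.intCast_surjective z.1
          obtain ⟨g', rfl⟩ := ZMod.intCast_surjective g₀
          obtain ⟨c, rfl⟩ := ZMod.intCast_surjective b
          rw [h2', ← hg] at h1
          have d1 := (key g c).mpr h1
          have d2 := (key g' c).mpr h₀
          have d3 : (l : ℤ) ^ 2 ∣ (g - g') * (g + g') := by
            have := dvd_sub d1 d2
            rwa [show g ^ 2 - c ^ 2 * D - (g' ^ 2 - c ^ 2 * D) = (g - g') * (g + g') by ring] at this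
          have n1 : ¬ (l : ℤ) ∣ g' := by
            intro hh
            have d4 : (l : ℤ) ∣ g' ^ 2 - c ^ 2 * D := (dvd_pow_self _ two_ne_zero).trans d2
            have d5 : (l : ℤ) ∣ c ^ 2 * D := by
              have := dvd_sub (dvd_pow hh two_ne_zero) d4
              rwa [sub_sub_cancel] at this
            rcases hp.dvd_or_dvd d5 with d6 | d6
            · exact hb (mM c (hp.dvd_of_dvd_pow d6))
            · exact hD d6
          by_cases hh : (l : ℤ) ∣ g + g'
          · have n2 : ¬ (l : ℤ) ∣ g - g' := by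
              intro h7
              have d7 : (l : ℤ) ∣ 2 * g' := by
                have := dvd_sub hh h7
                rwa [show g + g' - (g - g') = 2 * g' by ring] at this
              rcases hp.dvd_or_dvd d7 with d8 | d8
              · have : l ∣ 2 := by exact_mod_cast d8
                exact h2 ((Nat.prime_dvd_prime_iff_eq hl Nat.prime_two).mp this)
              · exact n1 d8
            have d9 := zz _ (hp.pow_dvd_of_dvd_mul_left 2 n2 d3)
            refine mem_insert.mpr (Or.inr (mem_singleton.mpr (Prod.ext ?_ h2')))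
            rw [← hg]
            push_cast at d9
            show (g : ZMod (l ^ 2)) = -(g' : ZMod (l ^ 2))
            linear_combination d9
          · have d9 := zz _ (hp.pow_dvd_of_dvd_mul_right 2 hh d3)
            refine mem_insert.mpr (Or.inl (Prod.ext ?_ h2'))
            rw [← hg]
            push_cast at d9
            show (g : ZMod (l ^ 2)) = (g' : ZMod (l ^ 2))
            linear_combination d9
        · refine le_trans (card_le_card (t := ∅) fun z hz => ?_) (by simp)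
          simp only [R, mem_filter, mem_univ, true_and] at hz
          exact absurd ⟨hz.2 ▸ hz.1.2, z.1, by rw [hz.1.1, hz.2]⟩ h)
      rwa [card_univ, ZMod.card] at this
    have h3 : (R.filter fun z => ¬ z.2 ∉ M).card ≤ l ^ 2 := by
      refine le_trans (card_le_card (t := M ×ˢ M) fun z hz => ?_) ?_
      · simp only [R, mem_filter, mem_univ, true_and, not_not] at hz
        obtain ⟨h1, h2'⟩ := hz
        refine mem_product.mpr ⟨?_, h2'⟩
        obtain ⟨j, -, hj⟩ := mem_image.mp h2'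
        obtain ⟨g, hg⟩ := ZMod.intCast_surjective z.1
        have h4 : z.2 = (((l : ℤ) * j : ℤ) : ZMod (l ^ 2)) := by rw [← hj]; push_cast; rfl
        rw [← hg, h4] at h1
        have d1 := (key g _).mpr h1
        have d4 : (l : ℤ) ∣ g ^ 2 - ((l : ℤ) * j) ^ 2 * D := (dvd_pow_self _ two_ne_zero).trans d1
        have d5 : (l : ℤ) ∣ g ^ 2 := by
          have := dvd_add d4 (show (l : ℤ) ∣ ((l : ℤ) * j) ^ 2 * D from ⟨l * j ^ 2 * D, by ring⟩)
          rwa [sub_add_cancel] at this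
        rw [← hg]
        exact mM g (hp.dvd_of_dvd_pow d5)
      · rw [card_product]
        exact (Nat.mul_le_mul hM hM).trans (sq l).ge
    have := card_filter_add_card_filter_not (s := R) fun z => z.2 ∉ M
    omega
  · beta_reduce
    rw [key]
    simp only [R, mem_filter, mem_univ, true_and]

/-- union bound -/
lemma union_bound {σ ι : Type} (S : Finset σ) (w : σ → ℝ) (hw : ∀ s, 0 ≤ w s) (κ : ℝ) (hκ : 0 ≤ κ)
    (On P : σ → Prop) [DecidablePred On] [DecidablePred P] (I : Finset ι) (E : ι → σ → Prop)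
    [∀ i, DecidablePred (E i)] (h : ∀ s, On s → ¬ P s → ∃ i ∈ I, E i s) :
    ∑ s ∈ S with On s, w s * κ * (if P s then 0 else 1) ≤
      ∑ i ∈ I, κ * ∑ s ∈ S with E i s, w s := by
  have e1 : ∑ i ∈ I, κ * ∑ s ∈ S with E i s, w s =
      ∑ s ∈ S, ∑ i ∈ I, if E i s then w s * κ else 0 := by
    rw [sum_comm]
    refine sum_congr rfl fun i _ => ?_
    rw [sum_filter, mul_sum]
    refine sum_congr rfl fun s _ => ?_
    split_ifs
    · ring
    · ring
  rw [e1, sum_filter]
  refine sum_le_sum fun s _ => ?_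
  have h0 : 0 ≤ w s * κ := mul_nonneg (hw s) hκ
  have h1 : ∀ i ∈ I, 0 ≤ if E i s then w s * κ else 0 := fun i _ => by
    split_ifs
    · exact h0
    · exact le_rfl
  by_cases ho : On s
  · by_cases hp : P s
    · simp only [ho, hp, if_true, mul_zero]
      exact sum_nonneg h1
    · obtain ⟨i, hi, he⟩ := h s ho hp
      simp only [ho, hp, if_true, if_false, mul_one]
      refine le_trans ?_ (single_le_sum h1 hi)
      simp only [he, if_true, le_refl]
  · simp only [ho, if_false]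
    exact sum_nonneg h1

lemma sum_le_prod {ι : Type} (I : Finset ι) (a : ι → ℝ) (ha : ∀ i, 0 ≤ a i) :
    ∑ i ∈ I, a i ≤ ∏ i ∈ I, (1 + a i) - 1 := by
  classical
  induction I using Finset.induction_on with
  | empty => simp
  | insert j s hj ih =>
    rw [sum_insert hj, prod_insert hj]
    have h1 : 0 ≤ ∑ i ∈ s, a i := sum_nonneg fun i _ => ha i
    have := ha j
    nlinarith

/-- few large primes divide `n` -/
lemma card_dvd_le (P : Finset ℕ) (y : ℝ) (hy : 1 < y) (n k : ℕ) (hn : n ≠ 0) (hk : (n : ℝ) ≤ y ^ k)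
    (hP : ∀ l ∈ P, l.Prime ∧ y ≤ l ∧ l ∣ n) : P.card ≤ k := by
  have h1 : ∏ l ∈ P, l ∣ n :=
    Finset.prod_primes_dvd n (fun l hl => (hP l hl).1.prime) fun l hl => (hP l hl).2.2
  have h2 : ((∏ l ∈ P, l : ℕ) : ℝ) ≤ n := by exact_mod_cast Nat.le_of_dvd (Nat.pos_of_ne_zero hn) h1
  have h3 : y ^ P.card ≤ ((∏ l ∈ P, l : ℕ) : ℝ) := by
    rw [← prod_const, Nat.cast_prod]
    exact prod_le_prod (fun _ _ => by linarith) fun l hl => (hP l hl).2.1
  exact (pow_le_pow_iff_right₀ hy).mp (h3.trans (h2.trans hk))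

end Pool.Agent.P.MP_b8021b_nt.VE.Ww
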