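import Pool.Agent.P.MP_b8021b_nt.VE.StN

/-! Algebraic lemmas for the package `ww`. -/

namespace Pool.Agent.P.MP_b8021b_nt.VE.Ww

open Polynomial NumberField Finset
open scoped Classical

lemma hev_zero (d : ℕ) (g : ℤ[X]) (a b : ℤ) : a ∣ hev d g a b - g.coeff 0 * b ^ d := by
  unfold hev
  rw [sum_range_succ']
  simp only [pow_zero, mul_one, Nat.sub_zero, add_sub_cancel_right]
  exact dvd_sum fun i _ => ⟨g.coeff (i + 1) * a ^ i * b ^ (d - (i + 1)), by ring⟩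

lemma gp_zero (p : Par) (s : p.Co) : (p.gp s).coeff 0 = p.g0.coeff 0 := by
  unfold Par.gp
  rw [coeff_add, mul_coeff_zero, finsetSum_coeff, sum_eq_zero, mul_zero, add_zero]
  intro i _
  rw [mul_coeff_zero, coeff_X_pow, if_neg (by omega), mul_zero]

lemma cp_zero (p : Par) (s : p.Co) : (p.cp s).coeff 0 = p.c0.coeff 0 := by
  unfold Par.cp
  rw [coeff_add, mul_coeff_zero, finsetSum_coeff, sum_eq_zero, mul_zero, add_zero]
  intro i _
  rw [mul_coeff_zero, coeff_X_pow, if_neg (by omega), mul_zero]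

/-- a prime other than `r` that divides the numerator of a primitive fibre does not divide the
norm -/
lemma not_dvd_N (p : Par) (s : p.Co) (t : ℤ × ℤ) (ht : IsCoprime t.1 t.2) (l : ℕ) (hl : l.Prime)
    (hr : l ≠ p.r) (ha : (l : ℤ) ∣ t.1) : ¬ (l : ℤ) ∣ p.N s t := by
  intro hN
  have hp : Prime (l : ℤ) := Nat.prime_iff_prime_int.mp hl
  obtain ⟨a1, h1⟩ := ha.trans (hev_zero p.k (p.gp s) t.1 t.2)
  obtain ⟨a2, h2⟩ := ha.trans (hev_zero (p.k - 2) (p.cp s) t.1 t.2)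
  obtain ⟨a3, h3⟩ := ha.trans (hev_zero 4 p.f t.1 t.2)
  rw [gp_zero] at h1
  rw [cp_zero] at h2
  have hk : t.2 ^ p.k = t.2 ^ (p.k - 2) * t.2 ^ 2 := by
    rw [← pow_add]
    congr 1
    have := p.hk
    omega
  have h4 : (nrm p.f p.g0 p.c0).coeff 0 = p.g0.coeff 0 ^ 2 - p.c0.coeff 0 ^ 2 * p.f.coeff 0 := by
    unfold nrm
    rw [coeff_sub, mul_coeff_zero, sq, sq, mul_coeff_zero, mul_coeff_zero, sq, sq]
  have h5 : (l : ℤ) ∣ (nrm p.f p.g0 p.c0).coeff 0 * (t.2 ^ p.k) ^ 2 := by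
    have e : (nrm p.f p.g0 p.c0).coeff 0 * (t.2 ^ p.k) ^ 2 = p.N s t - l *
        (2 * a1 * p.gt s t - l * a1 ^ 2 - (2 * a2 * p.ct s t - l * a2 ^ 2) * p.D t -
          (p.ct s t - l * a2) ^ 2 * a3) := by
      have g1 : p.g0.coeff 0 * t.2 ^ p.k = p.gt s t - l * a1 := by
        unfold Par.gt; linear_combination -h1
      have g2 : p.c0.coeff 0 * t.2 ^ (p.k - 2) = p.ct s t - l * a2 := by
        unfold Par.ct; linear_combination -h2
      have g3 : p.f.coeff 0 * t.2 ^ 4 = p.D t - l * a3 := by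
        unfold Par.D; linear_combination -h3
      have g4 : (nrm p.f p.g0 p.c0).coeff 0 * (t.2 ^ p.k) ^ 2 = (p.g0.coeff 0 * t.2 ^ p.k) ^ 2 -
          (p.c0.coeff 0 * t.2 ^ (p.k - 2)) ^ 2 * (p.f.coeff 0 * t.2 ^ 4) := by
        rw [h4, hk]; ring
      rw [g4, g1, g2, g3]
      unfold Par.N
      ring
    rw [e]
    exact dvd_sub hN (dvd_mul_right _ _)
  rcases hp.dvd_or_dvd h5 with h6 | h6
  · have h7 : l ∣ p.r ^ p.E0 := by
      rw [← p.const]
      exact Int.natCast_dvd.mp h6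
    exact hr ((Nat.prime_dvd_prime_iff_eq hl p.hr).mp (hl.dvd_of_dvd_pow h7))
  · exact hp.not_isUnit (ht.isUnit_of_dvd' ha (hp.dvd_of_dvd_pow (hp.dvd_of_dvd_pow h6)))

variable {L : Type} [Field L] [NumberField L]

lemma int_mem_iff (I : Ideal (𝓞 L)) (q : ℕ) (hq : q.Prime) (hI : Ideal.absNorm I = q) (m : ℤ) :
    (m : 𝓞 L) ∈ I ↔ (q : ℤ) ∣ m := by
  have h0 : (q : 𝓞 L) ∈ I := hI ▸ Ideal.absNorm_mem I
  constructor
  · intro h
    by_contra hn
    have hp : Prime (q : ℤ) := Nat.prime_iff_prime_int.mp hq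
    obtain ⟨a, b, hab⟩ := hp.irreducible.coprime_iff_not_dvd.mpr hn
    have h1 : (1 : 𝓞 L) ∈ I := by
      have h2 : ((a * q + b * m : ℤ) : 𝓞 L) = 1 := by rw [hab]; simp
      rw [← h2]
      push_cast
      exact I.add_mem (I.mul_mem_left _ h0) (I.mul_mem_left _ h)
    rw [(Ideal.eq_top_iff_one I).mpr h1, Ideal.absNorm_top] at hI
    exact hq.one_lt.ne hI
  · rintro ⟨c, rfl⟩
    push_cast
    exact I.mul_mem_right _ h0

lemma al_mem_iff (K : IQ L) (p : Par) (t : ℤ × ℤ) (s : p.Co) (x : Pt) (hq : x.1.Prime)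
    (hI : Ideal.absNorm (K.J t x) = x.1) :
    K.al p t s ∈ K.J t x ↔ (x.1 : ℤ) ∣ p.gt s t + p.ct s t * (t.2 ^ 2 * x.2.2) := by
  rw [← int_mem_iff _ _ hq hI]
  have h : K.ω - ((t.2 ^ 2 * x.2.2 : ℤ) : 𝓞 L) ∈ K.J t x :=
    Ideal.subset_span (Set.mem_insert_of_mem _ rfl)
  have e : K.al p t s = ((p.gt s t + p.ct s t * (t.2 ^ 2 * x.2.2) : ℤ) : 𝓞 L) +
      (p.ct s t : 𝓞 L) * (K.ω - ((t.2 ^ 2 * x.2.2 : ℤ) : 𝓞 L)) := by
    unfold IQ.al
    push_cast
    ring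
  rw [e]
  exact Ideal.add_mem_iff_left _ (Ideal.mul_mem_left _ _ h)

lemma cop_of_norm (I J : Ideal (𝓞 L)) (h : (Ideal.absNorm I).Coprime (Ideal.absNorm J)) :
    IsCoprime I J := by
  rw [Ideal.isCoprime_iff_exists]
  obtain ⟨a, b, hab⟩ := Nat.isCoprime_iff_coprime.mpr h
  refine ⟨(a : 𝓞 L) * (Ideal.absNorm I : ℕ), I.mul_mem_left _ (Ideal.absNorm_mem I),
    (b : 𝓞 L) * (Ideal.absNorm J : ℕ), J.mul_mem_left _ (Ideal.absNorm_mem J), ?_⟩
  have h2 : ((a * (Ideal.absNorm I : ℕ) + b * (Ideal.absNorm J : ℕ) : ℤ) : 𝓞 L) = 1 := by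
    rw [hab]; simp
  rw [← h2]
  push_cast
  rfl

lemma mem_mul3 (A I J : Ideal (𝓞 L)) (h1 : (Ideal.absNorm A).Coprime (Ideal.absNorm I))
    (h2 : (Ideal.absNorm A).Coprime (Ideal.absNorm J))
    (h3 : (Ideal.absNorm I).Coprime (Ideal.absNorm J)) (α : 𝓞 L) :
    α ∈ A * I * J ↔ α ∈ A ∧ α ∈ I ∧ α ∈ J := by
  have c1 := cop_of_norm A I h1
  have c2 := (cop_of_norm A J h2).mul_left (cop_of_norm I J h3)
  rw [Ideal.mul_eq_inf_of_isCoprime c2, Ideal.mul_eq_inf_of_isCoprime c1, Ideal.mem_inf,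
    Ideal.mem_inf, and_assoc]

/-- off the exceptional event, good tuples are factorisations -/
lemma wg_eq (K : IQ L) (p : Par) (c : Cfg) (u n : ℕ) (t : ℤ × ℤ) (s : p.Co) (x x' : Pt)
    (𝔮 : Ideal (𝓞 L)) (hP : ∀ q ∈ Pset c.y c.N, q.Prime)
    (hx : p.IsPt x) (hx' : p.IsPt x') (ox : OnT x t) (ox' : OnT x' t) (hne : x.1 ≠ x'.1)
    (sx : p.OnS x s) (sx' : p.OnS x' s)
    (hN : (Ideal.absNorm (Ideal.span {K.al p t s}) : ℤ) = p.N s t)
    (h3 : ∀ x, p.IsPt x → OnT x t → Ideal.absNorm (K.J t x) = x.1 ∧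
      (p.OnS x s ↔ K.al p t s ∈ K.J t x))
    (h4 : ∀ x x', p.IsPt x → OnT x t → p.IsPt x' → OnT x' t → K.J t x = K.J t x' → x = x')
    (h5 : ∀ (q : ℕ) (I : Ideal (𝓞 L)), q.Prime → ¬ (q : ℤ) ∣ 2 * p.r * t.1 * p.D t →
      Ideal.absNorm I = q → ∃ x : Pt, x.1 = q ∧ p.IsPt x ∧ OnT x t ∧ K.J t x = I)
    (h6 : ∀ (x : Fin (u + 2) → Pt), p.Good t s x →
      Ideal.span {K.al p t s} = 𝔮 ^ p.e * ∏ i, K.J t (x i))
    (ha : Ideal.absNorm (K.a0 p 𝔮 t x x') = p.r ^ p.e * x.1 * x'.1)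
    (hc : ∀ I : Ideal (𝓞 L), Cop n I ↔ (Ideal.absNorm I).Coprime n)
    (hn1 : 2 * p.r * t.1 * p.D t ∣ n) (hn2 : x.1 ∣ n) (hn3 : x'.1 ∣ n)
    (b1 : ∀ l ∈ Pset c.y c.N, ¬ (l : ℤ) ^ 2 ∣ p.N s t)
    (b2 : ∀ l ∈ Pset c.y c.N, l ∣ n → l ≠ x.1 → l ≠ x'.1 → ¬ (l : ℤ) ∣ p.N s t) :
    Wg p c u t s x x' = if UnitC n (K.a0 p 𝔮 t x x') (K.al p t s)
      then Wan c.y c.N u (K.a0 p 𝔮 t x x') (K.al p t s) else 0 := by
  have fac : ∀ v : Fin u → Pt, p.Good t s (Fin.cons x (Fin.cons x' v) : Fin (u + 2) → Pt) →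
      Ideal.span {K.al p t s} = K.a0 p 𝔮 t x x' * ∏ j, K.J t (v j) := by
    intro v hv
    rw [h6 _ hv, Fin.prod_univ_succ, Fin.prod_univ_succ]
    simp only [Fin.cons_zero, Fin.cons_succ, IQ.a0, mul_assoc]
  have pt : ∀ v : Fin u → Pt, p.Good t s (Fin.cons x (Fin.cons x' v) : Fin (u + 2) → Pt) →
      ∀ j, p.IsPt (v j) ∧ OnT (v j) t := by
    intro v hv j
    have := hv.1 j.succ.succ
    simp only [Fin.cons_succ] at this
    exact ⟨this.1, this.2.1⟩
  have a0 : K.a0 p 𝔮 t x x' ≠ 0 := by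
    intro h
    rw [h, map_zero] at ha
    exact mul_ne_zero (mul_ne_zero (pow_ne_zero _ p.hr.ne_zero) hx.1.ne_zero) hx'.1.ne_zero ha.symm
  split_ifs with hU
  · obtain ⟨𝔟, hb, hcb⟩ := hU
    unfold Wg Wan
    rw [← sum_fiberwise_of_maps_to (t := Fintype.piFinset fun _ : Fin u => Pset c.y c.N)
      (g := fun v j => (v j).1) (fun v hv => Fintype.mem_piFinset.mpr fun j =>
        fst_mem_Pset (Fintype.mem_piFinset.mp (mem_filter.mp hv).1 j))]
    refine sum_congr rfl fun q hq => ?_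
    rw [sum_congr rfl (g := fun _ => ∏ j, wt c.y c.N (q j)) (fun v hv => by
      rw [← (mem_filter.mp hv).2]), sum_const, nsmul_eq_mul, mul_comm]
    congr 2
    rw [← Set.ncard_coe_finset]
    have hq' := Fintype.mem_piFinset.mp hq
    refine Set.ncard_congr (fun v _ j => K.J t (v j)) ?_ ?_ ?_
    · intro v hv
      obtain ⟨h1, h2⟩ := mem_filter.mp (mem_coe.mp hv)
      have g := (mem_filter.mp h1).2
      refine ⟨fun j => ?_, fac v g⟩
      rw [← h2]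
      exact (h3 _ (pt v g j).1 (pt v g j).2).1
    · intro v v' hv hv' h
      have g := (mem_filter.mp (mem_filter.mp (mem_coe.mp hv)).1).2
      have g' := (mem_filter.mp (mem_filter.mp (mem_coe.mp hv')).1).2
      funext j
      exact h4 _ _ (pt v g j).1 (pt v g j).2 (pt v' g' j).1 (pt v' g' j).2 (congrFun h j)
    · rintro I ⟨hI, hf⟩
      have e : 𝔟 = ∏ j, I j := mul_left_cancel₀ a0 (hb.symm.trans hf)
      have nb : Ideal.absNorm 𝔟 = ∏ j, q j := by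
        rw [e, map_prod]
        exact prod_congr rfl fun j _ => hI j
      have cq : ∀ j, ¬ q j ∣ n := fun j h => by
        have h1 := (hc 𝔟).mp hcb
        rw [nb] at h1
        exact (hP _ (hq' j)).one_lt.ne'
          (Nat.eq_one_of_dvd_coprimes h1 (dvd_prod_of_mem q (mem_univ j)) h)
      have ex : ∀ j, ∃ z : Pt, z.1 = q j ∧ p.IsPt z ∧ OnT z t ∧ K.J t z = I j := fun j =>
        h5 (q j) (I j) (hP _ (hq' j))
          (fun h => cq j (Int.natCast_dvd_natCast.mp (h.trans hn1))) (hI j)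
      choose v v1 v2 v3 v4 using ex
      have hNN : p.N s t = (p.r : ℤ) ^ p.e * (x.1 * (x'.1 * ∏ j, (q j : ℤ))) := by
        rw [← hN, hb, map_mul, ha, nb]
        push_cast
        ring
      refine ⟨v, mem_coe.mpr (mem_filter.mpr ⟨mem_filter.mpr ⟨Fintype.mem_piFinset.mpr fun j => ?_,
        ?_, ?_, ?_⟩, funext v1⟩), funext v4⟩
      · have h1 : (v j).1 ∈ Pset c.y c.N := v1 j ▸ hq' j
        obtain ⟨i, -, hi⟩ := mem_biUnion.mp h1
        have h2 := mem_range.mp (mem_filter.mp hi).1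
        obtain ⟨-, -, -, -, g1, -, g2, -⟩ := v2 j
        refine mem_filter.mpr ⟨mem_product.mpr ⟨h1, mem_product.mpr ⟨mem_range.mpr ?_,
          mem_range.mpr ?_⟩⟩, v2 j⟩
        · omega
        · omega
      · intro i
        refine Fin.cases ?_ (fun i => Fin.cases ?_ (fun j => ?_) i) i
        · exact ⟨hx, ox, sx⟩
        · exact ⟨hx', ox', sx'⟩
        · simp only [Fin.cons_succ]
          refine ⟨v2 j, v3 j, (h3 _ (v2 j) (v3 j)).2.mpr ?_⟩
          rw [v4 j, ← Ideal.span_singleton_le_iff_mem, hf]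
          exact Ideal.le_of_dvd (Dvd.dvd.mul_left (dvd_prod_of_mem I (mem_univ j)) _)
      · have e2 : (fun i => ((Fin.cons x (Fin.cons x' v) : Fin (u + 2) → Pt) i).1) =
            (Fin.cons x.1 (Fin.cons x'.1 q) : Fin (u + 2) → ℕ) := by
          funext i
          refine Fin.cases rfl (fun i => Fin.cases rfl (fun j => ?_) i) i
          simp only [Fin.cons_succ, v1]
        rw [e2, Fin.cons_injective_iff, Fin.cons_injective_iff]
        refine ⟨?_, ?_, fun i j hij => ?_⟩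
        · rintro ⟨i, hi⟩
          revert hi
          refine Fin.cases (fun hi => hne hi.symm) (fun j hi => ?_) i
          simp only [Fin.cons_succ] at hi
          exact cq j (hi ▸ hn2)
        · rintro ⟨j, hi⟩
          exact cq j (hi ▸ hn3)
        · by_contra hne'
          refine b1 _ (hq' i) ?_
          rw [hNN]
          refine Dvd.dvd.mul_left (Dvd.dvd.mul_left (Dvd.dvd.mul_left ?_ _) _) _
          have := prod_dvd_prod_of_subset {i, j} univ (fun j => (q j : ℤ)) (subset_univ _)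
          rwa [prod_pair hne', ← hij, ← sq] at this
      · rw [hNN, Fin.prod_univ_succ, Fin.prod_univ_succ]
        simp only [Fin.cons_zero, Fin.cons_succ, v1]
  · unfold Wg
    refine sum_eq_zero fun v hv => absurd ?_ hU
    obtain ⟨h1, g⟩ := mem_filter.mp hv
    refine ⟨_, fac v g, (hc _).mpr ?_⟩
    rw [map_prod]
    refine Nat.Coprime.prod_left fun j _ => ?_
    have m1 := fst_mem_Pset (Fintype.mem_piFinset.mp h1 j)
    rw [(h3 _ (pt v g j).1 (pt v g j).2).1, (hP _ m1).coprime_iff_not_dvd]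
    intro h
    refine b2 _ m1 h (fun e => ?_) (fun e => ?_) ?_
    · exact absurd (g.2.1 (a₁ := j.succ.succ) (a₂ := 0) e) (Fin.succ_ne_zero _)
    · exact absurd (Fin.succ_injective _ (g.2.1 (a₁ := j.succ.succ) (a₂ := Fin.succ 0) e))
        (Fin.succ_ne_zero _)
    · rw [g.2.2]
      exact Dvd.dvd.mul_left (dvd_prod_of_mem
        (fun i => (((Fin.cons x (Fin.cons x' v) : Fin (u + 2) → Pt) i).1 : ℤ))
        (mem_univ j.succ.succ)) _

end Pool.Agent.P.MP_b8021b_nt.VE.Ww
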