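import Pool.Agent.P.MP_b8021b_nt.VE.StA

/-! Package A2: the coordinate ring of an elliptic curve has a presentation `y ^ 2 = f x`. -/

namespace Pool.Agent.P.MP_b8021b_nt.VE

open Polynomial

namespace PA2

variable {F : Type} [Field F]

/-- a monic cubic -/
noncomputable def cub (a b c : F) : F[X] := X ^ 3 + C a * X ^ 2 + C b * X + C c

theorem cub_monic (a b c : F) : (cub a b c).Monic := by
  unfold cub
  monicity!

theorem cub_deg (a b c : F) : (cub a b c).natDegree = 3 := by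
  unfold cub
  compute_degree!

theorem cub_der (a b c : F) :
    derivative (cub a b c) = 3 * X ^ 2 + 2 * C a * X + C b := by
  unfold cub
  simp only [derivative_add, derivative_X_pow, derivative_mul, derivative_C, derivative_X,
    zero_mul, zero_add, mul_one, add_zero, Nat.cast_ofNat, map_ofNat]
  norm_num
  ring

theorem cub_sep (a b c : F)
    (h : 9 * (a ^ 2 * b ^ 2 - 4 * b ^ 3 - 4 * a ^ 3 * c - 27 * c ^ 2 + 18 * a * b * c) ≠ 0) :
    (cub a b c).Separable := by
  set d := 9 * (a ^ 2 * b ^ 2 - 4 * b ^ 3 - 4 * a ^ 3 * c - 27 * c ^ 2 + 18 * a * b * c) with hd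
  have hC : C d = 9 * (C a ^ 2 * C b ^ 2 - 4 * C b ^ 3 - 4 * C a ^ 3 * C c - 27 * C c ^ 2
      + 18 * C a * C b * C c) := by
    rw [hd]
    simp only [map_mul, map_add, map_sub, map_pow, map_ofNat]
  have h1 : C d⁻¹ * C d = (1 : F[X]) := by rw [← map_mul, inv_mul_cancel₀ h, map_one]
  rw [separable_def', cub_der]
  refine ⟨-C d⁻¹ * (9 * ((27 * C c - 9 * C a * C b + 2 * C a ^ 3) -
      2 * (3 * C b - C a ^ 2) * (3 * X + C a))),
    -C d⁻¹ * (2 * (3 * C b - C a ^ 2) * (3 * X + C a) ^ 2 -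
      (27 * C c - 9 * C a * C b + 2 * C a ^ 3) * (3 * X + C a) + 4 * (3 * C b - C a ^ 2) ^ 2), ?_⟩
  rw [← h1, hC]
  unfold cub
  ring

theorem aeval_cX (W : WeierstrassCurve F) (g : F[X]) :
    aeval (cX W) g = WeierstrassCurve.Affine.CoordinateRing.mk W.toAffine (C g) := by
  have h : cX W = algebraMap F[X] W.toAffine.CoordinateRing X := rfl
  rw [h, aeval_algebraMap_apply, aeval_X_left_apply]
  rfl

theorem alg_eq (W : WeierstrassCurve F) (a : F) :
    algebraMap F W.toAffine.CoordinateRing a =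
      WeierstrassCurve.Affine.CoordinateRing.mk W.toAffine (C (C a)) := by
  rw [← aeval_cX, aeval_C]

theorem rel0 (W : WeierstrassCurve F) :
    cY W ^ 2 + (algebraMap F _ W.a₁ * cX W + algebraMap F _ W.a₃) * cY W =
      cX W ^ 3 + algebraMap F _ W.a₂ * cX W ^ 2 + algebraMap F _ W.a₄ * cX W +
        algebraMap F _ W.a₆ := by
  have h : WeierstrassCurve.Affine.CoordinateRing.mk W.toAffine
      (X ^ 2 + C (C W.a₁ * X + C W.a₃) * X -
        C (X ^ 3 + C W.a₂ * X ^ 2 + C W.a₄ * X + C W.a₆)) = 0 :=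
    AdjoinRoot.mk_self
  simp only [map_sub, map_add, map_mul, map_pow] at h
  simp only [alg_eq, cX, cY]
  linear_combination h

end PA2

open PA2 in
theorem p_a2 : S_A2 := by
  intro F _ _ W _
  have h2 : (2 : F) ≠ 0 := two_ne_zero
  set A := W.toAffine.CoordinateRing
  have hh : (2 : A) * algebraMap F A 2⁻¹ = 1 := by
    rw [← map_ofNat (algebraMap F A) 2, ← map_mul, mul_inv_cancel₀ h2, map_one]
  set e : F[X] := C (W.a₁ / 2) * X + C (W.a₃ / 2) with he
  have hae : aeval (cX W) e = algebraMap F A 2⁻¹ *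
      (algebraMap F A W.a₁ * cX W + algebraMap F A W.a₃) := by
    rw [he]
    simp only [map_add, map_mul, aeval_C, aeval_X, div_eq_mul_inv]
    ring
  have hsm : ∀ (g : F[X]) (z : A), g • z = aeval (cX W) g * z := fun g z => by
    rw [aeval_cX, WeierstrassCurve.Affine.CoordinateRing.smul]
  refine ⟨⟨cub (W.b₂ / 4) (W.b₄ / 2) (W.b₆ / 4), cub_monic _ _ _, cub_deg _ _ _,
    cub_sep _ _ _ ?_, cX W, cY W + aeval (cX W) e, ?_, ?_, ?_⟩, rfl, ?_⟩
  · have hΔ : W.Δ ≠ 0 := W.isUnit_Δ.ne_zero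
    have hb := W.b_relation
    have : 9 * ((W.b₂ / 4) ^ 2 * (W.b₄ / 2) ^ 2 - 4 * (W.b₄ / 2) ^ 3 -
        4 * (W.b₂ / 4) ^ 3 * (W.b₆ / 4) - 27 * (W.b₆ / 4) ^ 2 +
        18 * (W.b₂ / 4) * (W.b₄ / 2) * (W.b₆ / 4)) = 9 / 16 * W.Δ := by
      rw [WeierstrassCurve.Δ]
      linear_combination (9 / 64 * W.b₂ ^ 2) * hb
    rw [this]
    exact mul_ne_zero (by norm_num) hΔ
  · have e2 : W.b₂ / 4 = W.a₂ + (2⁻¹ * W.a₁) ^ 2 := by
      rw [WeierstrassCurve.b₂]; field_simp; ring
    have e4 : W.b₄ / 2 = W.a₄ + 2⁻¹ * W.a₁ * W.a₃ := by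
      rw [WeierstrassCurve.b₄]; field_simp
    have e6 : W.b₆ / 4 = W.a₆ + (2⁻¹ * W.a₃) ^ 2 := by
      rw [WeierstrassCurve.b₆]; field_simp; ring
    rw [hae, e2, e4, e6]
    unfold cub
    simp only [map_add, map_mul, map_pow, aeval_C, aeval_X]
    have h0 := rel0 W
    linear_combination h0 + ((algebraMap F A W.a₁ * cX W + algebraMap F A W.a₃) * cY W +
      algebraMap F A 2⁻¹ * algebraMap F A W.a₁ * algebraMap F A W.a₃ * cX W) * hh
  · intro h
    obtain ⟨p, q, hpq⟩ := WeierstrassCurve.Affine.CoordinateRing.exists_smul_basis_eq h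
    refine ⟨p - q * e, q, ?_⟩
    rw [← hpq, hsm, hsm, map_sub, map_mul]
    change _ * _ + _ * cY W = _
    ring
  · intro g c h
    have h' : (g + c * e) • (1 : A) +
        c • WeierstrassCurve.Affine.CoordinateRing.mk W.toAffine X = 0 := by
      rw [hsm, hsm, map_add, map_mul]
      change _ * _ + _ * cY W = _
      linear_combination h
    obtain ⟨h1, h2⟩ := WeierstrassCurve.Affine.CoordinateRing.smul_basis_eq_zero h'
    rw [h2, zero_mul, add_zero] at h1
    exact ⟨h1, h2⟩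
  · change 2 * (cY W + aeval (cX W) e) = _
    rw [hae, Algebra.smul_def]
    linear_combination (algebraMap F A W.a₁ * cX W + algebraMap F A W.a₃) * hh

end Pool.Agent.P.MP_b8021b_nt.VE
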