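import Pool.Agent.P.MP_b8021b_nt.VE.StN

/-! N23: a non symmetric character is adjacent to at most one field. -/

namespace Pool.Agent.P.MP_b8021b_nt.VE

open NumberField
open scoped Classical ComplexConjugate

namespace AdjP

variable {L : Type} [Field L] [NumberField L]

/-- the quotient of `χ` by its conjugate, on the ideals coprime to `N` -/
noncomputable def rho (K : IQ L) (N : ℕ) (χ : Ideal (𝓞 L) →* ℂ) : Ideal (𝓞 L) →* ℂ where
  toFun I := if Cop N I then χ I * conj (χ (I.map K.c)) else 0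
  map_one' := by
    rw [if_pos (show Cop N 1 from isCoprime_one_left), Ideal.one_eq_top, Ideal.map_top,
      ← Ideal.one_eq_top, map_one, map_one, one_mul]
  map_mul' I J := by
    have h : Cop N (I * J) ↔ Cop N I ∧ Cop N J := IsCoprime.mul_left_iff
    by_cases hI : Cop N I
    · by_cases hJ : Cop N J
      · rw [if_pos (h.mpr ⟨hI, hJ⟩), if_pos hI, if_pos hJ, Ideal.map_mul, map_mul, map_mul, map_mul]
        ring
      · rw [if_neg fun g => hJ (h.mp g).2, if_neg hJ, mul_zero]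
    · rw [if_neg fun g => hI (h.mp g).1, if_neg hI, zero_mul]

lemma rho_apply (K : IQ L) (N : ℕ) (χ : Ideal (𝓞 L) →* ℂ) (I : Ideal (𝓞 L)) :
    rho K N χ I = if Cop N I then χ I * conj (χ (I.map K.c)) else 0 := rfl

omit [NumberField L] in
lemma cop_of_dvd {n N : ℕ} (h : n ∣ N) {I : Ideal (𝓞 L)} (hI : Cop N I) : Cop n I :=
  IsCoprime.of_isCoprime_of_dvd_right hI
    (by
      obtain ⟨e, rfl⟩ := h
      exact ⟨Ideal.span {(e : 𝓞 L)}, by
        rw [Nat.cast_mul, Ideal.span_singleton_mul_span_singleton]⟩)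

lemma map_span (K : IQ L) (α : 𝓞 L) :
    (Ideal.span {α}).map K.c = Ideal.span {K.c α} := by
  rw [Ideal.map_span, Set.image_singleton]

lemma c_one (K : IQ L) {n : ℕ} {α : 𝓞 L} (h : (n : 𝓞 L) ∣ α - 1) : (n : 𝓞 L) ∣ K.c α - 1 := by
  have := map_dvd K.c h
  rwa [map_natCast, map_sub, map_one] at this

lemma dir_conj (z : ℂ) : dir (conj z) = conj (dir z) := by
  simp [dir]

lemma mul_conj_one {z : ℂ} (h : ‖z‖ = 1) : z * conj z = 1 := by
  rw [Complex.mul_conj', h]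
  simp

lemma eq_of_mul_conj {z w : ℂ} (hw : ‖w‖ = 1) (h : z * conj w = 1) : w = z := by
  have := mul_conj_one hw
  linear_combination z * this - w * h

lemma conj_of_sq {z w : ℂ} (hz : ‖z‖ = 1) (hw : ‖w‖ = 1) (h : w ^ 2 = z ^ 2) :
    w * conj z = z * conj w := by
  rcases sq_eq_sq_iff_eq_or_eq_neg.mp h with rfl | rfl
  · rfl
  · rw [map_neg]
    ring

lemma jac_cases {D : ℤ} {M a : ℕ} (hD : D ∣ M) (ha : a.Coprime M) :
    jacobiSym D a = 1 ∨ jacobiSym D a = -1 := by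
  refine jacobiSym.eq_one_or_neg_one ?_
  rw [← Int.isCoprime_iff_gcd_eq_one]
  exact ((Nat.isCoprime_iff_coprime.mpr ha).of_isCoprime_of_dvd_right hD).symm

lemma exists_neg (hKap : S_Kap) {D : ℤ} {M : ℕ} (hM : M ≠ 0) (h0 : D ≠ 0) (hD : 4 * D ∣ M)
    (hs : ¬ IsSquare D) : ∃ a : ℕ, a.Coprime M ∧ jacobiSym D a = -1 := by
  obtain ⟨κ, h1, h2⟩ := hKap D M hM h0 hD
  have : NeZero M := ⟨hM⟩
  obtain ⟨u, hu⟩ := MulChar.ne_one_iff.mp (h2 hs)
  have hc := ZMod.val_coe_unit_coprime u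
  refine ⟨_, hc, (jac_cases ((dvd_mul_left D 4).trans hD) hc).resolve_left fun h => hu ?_⟩
  have := h1 _ hc
  rw [h, ZMod.natCast_zmod_val] at this
  simpa using this

lemma jac_congr (hKap : S_Kap) {D : ℤ} {M : ℕ} (hM : M ≠ 0) (h0 : D ≠ 0) (hD : 4 * D ∣ M)
    {a b : ℕ} (ha : a.Coprime M) (hb : b.Coprime M) (h : (a : ZMod M) = b) :
    jacobiSym D a = jacobiSym D b := by
  obtain ⟨κ, h1, -⟩ := hKap D M hM h0 hD
  have h2 := h1 a ha
  rw [h, h1 b hb] at h2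
  exact_mod_cast h2.symm

lemma not_sq_of_neg {D : ℤ} (h : D < 0) : ¬ IsSquare D := by
  rintro ⟨r, rfl⟩
  nlinarith [mul_self_nonneg r]

end AdjP

open AdjP in
theorem p_adj (hIQb : S_IQb) (hRay : S_Ray) (hSymA : S_SymA) (hSymB : S_SymB) (hKap : S_Kap) :
    S_Adj := by
  intro L _ _ K n m m' k D' D'' χ hn hDn hm hm' hD' hD'' hχ hns hA hA'
  obtain ⟨-, -, -, -, hσ, hcc, -, -, -, hNc, -, -, hcount⟩ := hIQb L K
  by_contra hsq
  have hD := K.neg
  obtain ⟨d, hd⟩ : ∃ d : ℕ, d = m * m' * (D' * D'').natAbs := ⟨_, rfl⟩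
  have d1 : 1 ≤ d := by
    rw [hd]
    exact Nat.mul_pos (Nat.mul_pos hm hm') (Int.natAbs_pos.mpr (mul_ne_zero hD'.ne hD''.ne))
  obtain ⟨N, hN⟩ : ∃ N : ℕ, N = n * d := ⟨_, rfl⟩
  have nN : n ∣ N := hN ▸ dvd_mul_right n d
  have mN : m ∣ N := ⟨n * m' * (D' * D'').natAbs, by rw [hN, hd]; ring⟩
  have mN' : m' ∣ N := ⟨n * m * (D' * D'').natAbs, by rw [hN, hd]; ring⟩
  have N3 : 3 ≤ N := by rw [hN]; nlinarith
  have DN : 2 * K.D ∣ N := hDn.trans (Int.natCast_dvd_natCast.mpr nN)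
  have EN : K.D * (D' * D'') ∣ N := by
    rw [hN, hd]
    push_cast
    refine mul_dvd_mul ((dvd_mul_left _ _).trans hDn) (Dvd.dvd.mul_left ?_ _)
    exact self_dvd_abs _
  have hM : ∀ E : ℤ, E ∣ K.D * (D' * D'') → 4 * E ∣ ((8 * N ^ 2 : ℕ) : ℤ) := by
    intro E hE
    obtain ⟨e, he⟩ := hE.trans EN
    exact ⟨2 * e * N, by push_cast; rw [sq]; nth_rewrite 1 [he]; ring⟩
  have M0 : 8 * N ^ 2 ≠ 0 := by positivity
  obtain ⟨b1, b2, -⟩ := hSymB L K n hn hDn
  obtain ⟨-, c2, c3⟩ := hSymB L K N N3 DN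
  have copn : ∀ I : Ideal (𝓞 L), Cop n (I.map K.c) ↔ Cop n I := fun I => by rw [b2, b2, hNc]
  have copN : ∀ I : Ideal (𝓞 L), Cop N (I.map K.c) ↔ Cop N I := fun I => by rw [c2, c2, hNc]
  have mapmap : ∀ I : Ideal (𝓞 L), (I.map K.c).map K.c = I := by
    intro I
    refine le_antisymm ?_ fun x hx => ?_
    · rw [Ideal.map_le_iff_le_comap, Ideal.map_le_iff_le_comap]
      intro x hx
      rw [Ideal.mem_comap, Ideal.mem_comap, hcc]
      exact hx
    · rw [← hcc x]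
      exact Ideal.mem_map_of_mem _ (Ideal.mem_map_of_mem _ hx)
  have hρ : IsHChar K.σ N (k * 2) (rho K N χ) := by
    refine ⟨⟨fun I hI => ?_, fun I hI => ?_⟩, fun α hα => ?_⟩
    · rw [rho_apply, if_pos hI, norm_mul, Complex.norm_conj, hχ.norm_cop _ (cop_of_dvd nN hI),
        hχ.norm_cop _ ((copn I).mpr (cop_of_dvd nN hI)), one_mul]
    · rw [rho_apply, if_neg hI]
    · have h1 : (n : 𝓞 L) ∣ α - 1 := (Nat.cast_dvd_cast nN).trans hα
      have h2 : Cop N (Ideal.span {α}) := by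
        obtain ⟨c, hc⟩ := hα
        exact (Ideal.isCoprime_span_singleton_iff _ _).mpr ⟨1, -c, by linear_combination hc⟩
      rw [rho_apply, if_pos h2, map_span, hχ.prin _ h1, hχ.prin _ (c_one K h1), hσ, dir_conj,
        ← map_zpow₀, Complex.conj_conj, zpow_mul, zpow_two]
  have hsym : K.Sym (rho K N χ) := by
    intro I
    rw [rho_apply, rho_apply, copN, mapmap]
    split_ifs with hI
    · exact conj_of_sq (hχ.norm_cop _ (cop_of_dvd nN hI))
        (hχ.norm_cop _ ((copn I).mpr (cop_of_dvd nN hI))) (hA.1 I (cop_of_dvd mN hI))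
    · rfl
  have k0 : k = 0 := by
    have := (hSymA L K N _ _ N3 DN hρ hsym).1
    omega
  obtain ⟨η, hη⟩ := c3 _ _ hρ hsym
  have hprin : ∀ α : 𝓞 L, (n : 𝓞 L) ∣ α - 1 → χ (Ideal.span {α}) = 1 := fun α h => by
    rw [hχ.prin α h, k0, zpow_zero]
  have nebot : ∀ I : Ideal (𝓞 L), Cop n I → I ≠ ⊥ := by
    rintro I hI rfl
    rw [b2, Ideal.absNorm_bot, Nat.coprime_zero_left] at hI
    omega
  have copM : ∀ a : ℕ, a.Coprime N → a.Coprime (8 * N ^ 2) := by
    intro a ha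
    have h2 : 2 ∣ N := Int.natCast_dvd_natCast.mp ((dvd_mul_right 2 K.D).trans DN)
    exact Nat.Coprime.mul_right (Nat.Coprime.pow_right 3 (ha.of_dvd_right h2)) (ha.pow_right 2)
  obtain ⟨a₀, a1, a2, a3⟩ : ∃ a : ℕ, a.Coprime (8 * N ^ 2) ∧ jacobiSym K.D a = 1 ∧ η a ≠ 1 := by
    obtain ⟨I, hI⟩ := not_forall.mp hns
    have cI : Cop n I := by
      by_contra h
      exact hI (by rw [hχ.zero I h, hχ.zero _ fun g => h ((copn I).mp g)])
    obtain ⟨G, _, _, π, -, r2, r3, -⟩ := hRay L n (by omega)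
    obtain ⟨J, hJ0, hJ, hπ⟩ := r2 (π I) d d1
    rw [← hN] at hJ
    have cJ := cop_of_dvd nN hJ
    obtain ⟨α, β, -, -, hα, hβ, e⟩ := (r3 J I hJ0 (nebot I cI) cJ cI).mp hπ
    have e1 : χ J = χ I := by
      have := congrArg χ e
      rwa [map_mul, map_mul, hprin α hα, hprin β hβ, mul_one, mul_one] at this
    have e2 : χ (J.map K.c) = χ (I.map K.c) := by
      have := congrArg (fun I => χ (Ideal.map K.c I)) e
      simp only [Ideal.map_mul, map_mul, map_span] at this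
      rwa [hprin _ (c_one K hα), hprin _ (c_one K hβ), mul_one, mul_one] at this
    refine ⟨Ideal.absNorm J, copM _ ((c2 J).mp hJ), b1 J cJ, fun h => hI ?_⟩
    rw [← hη, rho_apply, if_pos hJ] at h
    rw [← e1, ← e2]
    exact eq_of_mul_conj (hχ.norm_cop _ ((copn J).mpr cJ)) h
  have key : ∀ (E : ℤ) (μ : ℕ), E ≠ 0 → E ∣ K.D * (D' * D'') → μ ∣ N → K.Adj χ E μ → ∀ a : ℕ,
      a.Coprime (8 * N ^ 2) → jacobiSym K.D a = 1 → jacobiSym E a = 1 → η a = 1 := by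
    intro E μ hE0 hE hμ hAd a ha j1 j2
    have : NeZero (8 * N ^ 2) := ⟨M0⟩
    obtain ⟨q, -, hq, hqa⟩ := Nat.forall_exists_prime_gt_and_eq_mod
      ((ZMod.isUnit_iff_coprime a _).mpr ha) 0
    have hqc : q.Coprime (8 * N ^ 2) := (ZMod.isUnit_iff_coprime q _).mp
      (hqa ▸ (ZMod.isUnit_iff_coprime a _).mpr ha)
    have hqN : q.Coprime N := hqc.of_dvd_right ⟨8 * N, by ring⟩
    have hqN' : ¬ q ∣ N := hq.coprime_iff_not_dvd.mp hqN
    rw [← jac_congr hKap M0 hD.ne (hM _ (dvd_mul_right _ _)) hqc ha hqa] at j1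
    rw [← jac_congr hKap M0 hE0 (hM _ hE) hqc ha hqa] at j2
    have h1 := hcount q hq fun h => hqN' (Int.natCast_dvd_natCast.mp (h.trans DN))
    rw [j1] at h1
    obtain ⟨I, hI⟩ := Set.nonempty_of_ncard_ne_zero
      (s := {I : Ideal (𝓞 L) | Ideal.absNorm I = q}) (by omega)
    have hI' : Ideal.absNorm I = q := hI
    have cI : Cop N I := (c2 I).mpr (hI' ▸ hqN)
    have : Fact q.Prime := ⟨hq⟩
    have h2 := hAd.2 q hq (fun h => hqN' (h.trans hμ)) (ZMod.isSquare_of_jacobiSym_eq_one j2) I hI'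
    rw [← hqa, ← hI', ← hη, rho_apply, if_pos cI, h2]
    exact mul_conj_one (hχ.norm_cop _ (cop_of_dvd nN cI))
  have d1' : D' ∣ K.D * (D' * D'') := ⟨K.D * D'', by ring⟩
  have d2' : D'' ∣ K.D * (D' * D'') := ⟨K.D * D', by ring⟩
  have key1 := key D' m hD'.ne d1' mN hA
  have key2 := key D'' m' hD''.ne d2' mN' hA'
  have cs : ∀ E : ℤ, E ∣ K.D * (D' * D'') → ∀ a : ℕ, a.Coprime (8 * N ^ 2) →
      jacobiSym E a = 1 ∨ jacobiSym E a = -1 := fun E hE a ha =>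
    jac_cases ((dvd_mul_left E 4).trans (hM E hE)) ha
  have jm : ∀ (E : ℤ) (a b : ℕ), a.Coprime (8 * N ^ 2) → b.Coprime (8 * N ^ 2) →
      jacobiSym E (a * b) = jacobiSym E a * jacobiSym E b := by
    intro E a b ha hb
    have h1 : ∀ x : ℕ, x.Coprime (8 * N ^ 2) → x ≠ 0 := by
      rintro x hx rfl
      rw [Nat.coprime_zero_left] at hx
      omega
    exact jacobiSym.mul_right' E (h1 a ha) (h1 b hb)
  have a4 : jacobiSym D' a₀ = -1 := (cs _ d1' _ a1).resolve_left fun h => a3 (key1 _ a1 a2 h)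
  have a5 : jacobiSym D'' a₀ = -1 := (cs _ d2' _ a1).resolve_left fun h => a3 (key2 _ a1 a2 h)
  have hH : ∀ a : ℕ, a.Coprime (8 * N ^ 2) → jacobiSym K.D a = 1 → jacobiSym (D' * D'') a = 1 := by
    intro a ha j
    have hc : (a * a₀).Coprime (8 * N ^ 2) := Nat.Coprime.mul_left ha a1
    have j' : jacobiSym K.D (a * a₀) = 1 := by rw [jm _ _ _ ha a1, j, a2, one_mul]
    have fin : η a = 1 → η ((a * a₀ : ℕ) : ZMod (8 * N ^ 2)) = 1 → False := by
      intro h1 h2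
      rw [Nat.cast_mul, map_mul, h1, one_mul] at h2
      exact a3 h2
    rw [jacobiSym.mul_left]
    rcases cs _ d1' a ha with h1 | h1 <;> rcases cs _ d2' a ha with h2 | h2
    · rw [h1, h2, one_mul]
    · exact (fin (key1 a ha j h1) (key2 _ hc j' (by rw [jm _ _ _ ha a1, h2, a5]; rfl))).elim
    · exact (fin (key2 a ha j h2) (key1 _ hc j' (by rw [jm _ _ _ ha a1, h1, a4]; rfl))).elim
    · rw [h1, h2]
      rfl
  have Epos : 0 < D' * D'' := mul_pos_of_neg_of_neg hD' hD''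
  obtain ⟨u, u1, u2⟩ := exists_neg hKap M0 Epos.ne' (hM _ (dvd_mul_left _ _)) hsq
  obtain ⟨v, v1, v2⟩ := exists_neg hKap M0 (mul_neg_of_neg_of_pos hD Epos).ne (hM _ dvd_rfl)
    (not_sq_of_neg (mul_neg_of_neg_of_pos hD Epos))
  rw [jacobiSym.mul_left] at v2
  have u3 : jacobiSym K.D u = -1 := (cs _ (dvd_mul_right _ _) u u1).resolve_left fun h => by
    rw [hH u u1 h] at u2
    omega
  have v3 : jacobiSym K.D v = -1 := (cs _ (dvd_mul_right _ _) v v1).resolve_left fun h => by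
    rw [hH v v1 h, h] at v2
    omega
  have := hH (u * v) (Nat.Coprime.mul_left u1 v1) (by rw [jm _ _ _ u1 v1, u3, v3]; rfl)
  rw [jm _ _ _ u1 v1, u2] at this
  rw [v3] at v2
  omega

end Pool.Agent.P.MP_b8021b_nt.VE
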