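import Pool.Agent.P.MP_b8021b_nt.VE.StA

/-! The algebraic form of the theorem from the fibre statement. -/

namespace Pool.Agent.P.MP_b8021b_nt.VE

theorem p_alg (hModel : S_Model) (hFib : S_Fib) (hDeg : S_Deg) : S_Alg := by
  intro A _ _ M φ hφ
  refine hDeg A M φ hφ ?_
  intro P t ht h
  obtain ⟨M', c, -, hx⟩ := hModel A M t
  refine hFib A M' φ hφ P ?_ h
  rw [hx]
  exact P.asIdeal.mul_mem_left _ ht

end Pool.Agent.P.MP_b8021b_nt.VE
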