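import Pool.Agent.P.MP_b8021b_nt.VE.StN

/-! Package bad: few fibres are bad. -/

namespace Pool.Agent.P.MP_b8021b_nt.VE

open Polynomial NumberField Finset Filter
open scoped Classical

namespace bad

lemma ev_log (n : ℕ) (κ : ℝ) (hκ : 0 < κ) :
    ∃ y₀ : ℝ, ∀ y, y₀ ≤ y → Real.log y ^ n ≤ κ * y ^ (3 / 4 : ℝ) := by
  have h := (isLittleO_log_rpow_rpow_atTop (n : ℝ) (show (0 : ℝ) < 3 / 4 by norm_num)).bound hκ
  obtain ⟨y₀, hy⟩ := eventually_atTop.mp h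
  refine ⟨max y₀ 1, fun y hy1 => ?_⟩
  have h1 : (1 : ℝ) ≤ y := le_trans (le_max_right _ _) hy1
  have h2 := hy y (le_trans (le_max_left _ _) hy1)
  rw [Real.rpow_natCast, Real.norm_eq_abs, Real.norm_eq_abs,
    abs_of_nonneg (Real.rpow_nonneg (by linarith) _)] at h2
  exact le_trans (le_abs_self _) h2

lemma M0_pos (r z : ℕ) : 0 < M0 r z := by
  unfold M0
  exact prod_pos fun l hl => (mem_filter.mp hl).2.1.pos

lemma wT_le (hTEq : S_TEq) (p : Par) (c : Cfg) (h1 : c.τ0 ≤ -2) (h2 : 0 < c.η) (h3 : c.η ≤ 1)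
    (hB : 0 < c.B) (h4 : 6 * ((M0 p.r c.z * p.r ^ p.n0 : ℕ) : ℝ) ≤ c.η * c.B)
    (t : ℤ × ℤ) (ht : t ∈ Tset p c) :
    wT p c t ≤ 2 * ((M0 p.r c.z * p.r ^ p.n0 : ℕ) : ℝ) ^ 2 / (c.η ^ 2 * c.B ^ 2) := by
  have hQ : (0 : ℝ) < ((M0 p.r c.z * p.r ^ p.n0 : ℕ) : ℝ) := by
    have := Nat.mul_pos (M0_pos p.r c.z) (pow_pos p.hr.pos p.n0)
    exact_mod_cast this
  have h := (hTEq p c 1 ∅ c.τ0 c.τ0 c.B c.B h1 h2 h3 le_rfl (Nat.coprime_one_left _)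
    (by rw [mul_one]; exact h4) le_rfl le_rfl (by linarith) le_rfl le_rfl
    (by nlinarith)).1
  set Q : ℝ := ((M0 p.r c.z * p.r ^ p.n0 : ℕ) : ℝ)
  have hb : c.B ≤ (t.2 : ℝ) := (mem_filter.mp ht).2.1
  have hi : ((t.2 : ℝ))⁻¹ ≤ c.B⁻¹ := inv_anti₀ hB hb
  have hpos : 0 < c.η ^ 2 * c.B / (2 * Q ^ 2) := by positivity
  unfold wT
  calc ((t.2 : ℝ))⁻¹ / ∑ t' ∈ Tset p c, ((t'.2 : ℝ))⁻¹
      ≤ c.B⁻¹ / (c.η ^ 2 * c.B / (2 * Q ^ 2)) :=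
        div_le_div₀ (inv_nonneg.mpr hB.le) hi hpos h
    _ = 2 * Q ^ 2 / (c.η ^ 2 * c.B ^ 2) := by field_simp

end bad

theorem p_bad (hTEq : S_TEq) (hMul : S_Mul) (hLSH : S_LSH) : S_Bad := by
  obtain ⟨δ, hδ, hL⟩ := hLSH 75
  refine ⟨δ, hδ, fun F ε _ hε => ?_⟩
  obtain ⟨y₁, hy₁⟩ := hL (6 * F.A + 1)
  obtain ⟨y₂, hy₂⟩ := hMul F
  have hη := F.ηpos
  set Q : ℝ := ((M0 F.p.r F.z * F.p.r ^ F.p.n0 : ℕ) : ℝ) with hQdef
  have hQ : 0 < Q := by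
    have := Nat.mul_pos (bad.M0_pos F.p.r F.z) (pow_pos F.p.hr.pos F.p.n0)
    rw [hQdef]; exact_mod_cast this
  obtain ⟨y₃, hy₃⟩ := bad.ev_log (6 * F.A) (ε * F.η ^ 2 / (4 * Q ^ 2)) (by positivity)
  obtain ⟨y₄, hy₄⟩ := bad.ev_log (6 * F.A) (1 / 2) (by norm_num)
  refine ⟨max (max (max y₁ y₂) (max y₃ y₄)) (max (Real.exp 2) (6 * Q / F.η)),
    fun c hc hIn L _ _ K hK => ?_⟩
  simp only [max_le_iff] at hc
  obtain ⟨⟨⟨c1, c2⟩, c3, c4⟩, c5, c6⟩ := hc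
  have hy1 : (1 : ℝ) ≤ c.y := le_trans (Real.one_le_exp (by norm_num)) c5
  have hy0 : 0 < c.y := by linarith
  have hlog : 2 ≤ Real.log c.y := (Real.le_log_iff_exp_le hy0).mpr c5
  have hN1 : 1 ≤ c.N := by
    have : (1 : ℝ) ≤ c.N := le_trans (one_le_pow₀ (by linarith)) hIn.N_ge
    exact_mod_cast this
  have hN2 : (c.N : ℝ) ≤ Real.log c.y ^ (6 * F.A + 1) := by
    rw [pow_succ]
    have : 0 ≤ Real.log c.y ^ (6 * F.A) := by positivity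
    nlinarith [hIn.N_le]
  have h34 : c.y ^ (3 / 4 : ℝ) ≤ c.y := by
    calc c.y ^ (3 / 4 : ℝ) ≤ c.y ^ (1 : ℝ) :=
          Real.rpow_le_rpow_of_exponent_le hy1 (by norm_num)
      _ = c.y := Real.rpow_one _
  have hNy : (c.N : ℝ) ≤ c.y := by
    have := hy₄ c.y c4
    linarith [hIn.N_le]
  have hyB : c.y ≤ c.B := le_trans (le_self_pow₀ hy1 (by norm_num)) hIn.B_ge
  have hB : 0 < c.B := by linarith
  set g : ℝ := c.B ^ (3 / 2 : ℝ) * c.y ^ (1 / 4 : ℝ) with hg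
  have hg0 : 0 ≤ g := by positivity
  let P : ℕ → Tset F.p c → Prop := fun i t => IsCoprime t.1.1 t.1.2 ∧
    ∃ (n : ℕ) (k : ℤ) (χ : Ideal (𝓞 (L t)) →* ℂ), 3 ≤ n ∧ (n : ℝ) ≤ c.y ^ 75 ∧ 2 * (K t).D ∣ n ∧
      |k| < (c.N : ℤ) ^ 2 ∧ IsHChar (K t).σ n k χ ∧ ¬ (K t).Sym χ ∧
      c.y ^ (-δ) < ‖Sm c.y c.N i (lam χ)‖
  have hcard : ∀ i < c.N, ((univ.filter (P i)).card : ℝ) ≤ g * c.y := by
    intro i hi
    have hex : ∀ j : {t // P i t}, ∃ (n : ℕ) (k : ℤ) (χ : Ideal (𝓞 (L j.1)) →* ℂ), 3 ≤ n ∧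
        (n : ℝ) ≤ c.y ^ 75 ∧ 2 * (K j.1).D ∣ n ∧ |k| < (c.N : ℤ) ^ 2 ∧ IsHChar (K j.1).σ n k χ ∧
        ¬ (K j.1).Sym χ ∧ c.y ^ (-δ) < ‖Sm c.y c.N i (lam χ)‖ := fun j => j.2.2
    choose n k χ hh using hex
    have h := hy₁ c.y c1 c.N hN1 hN2 {t // P i t} (fun j => L j.1) (fun j => K j.1) n k χ i g hi
      hg0 (fun j => ?_) (fun j => ?_)
    · rwa [Fintype.card_subtype] at h
    · obtain ⟨a1, a2, a3, a4, a5, a6, a7⟩ := hh j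
      refine ⟨a1, a3, a2, ?_, a5, a6, a7.le⟩
      have b1 : ((|k j| : ℤ) : ℝ) ≤ (c.N : ℝ) ^ 2 := by exact_mod_cast a4.le
      rw [Int.cast_abs] at b1
      calc |(k j : ℝ)| ≤ (c.N : ℝ) ^ 2 := b1
        _ ≤ c.y ^ 2 := pow_le_pow_left₀ (by positivity) hNy 2
        _ ≤ c.y ^ 75 := pow_le_pow_right₀ hy1 (by norm_num)
    · refine le_trans ?_ (hy₂ c c2 hIn j.1.1 j.1.2)
      refine Nat.cast_le.mpr (card_le_card_of_injOn (fun j' => j'.1.1) (fun j' hj' => ?_)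
        (fun a _ b _ hab => Subtype.ext (Subtype.ext hab)))
      have b1 := (mem_filter.mp hj').2
      rw [hK, hK] at b1
      exact mem_filter.mpr ⟨j'.1.2, j'.2.1, b1⟩
  have hsub : (univ.filter fun t : Tset F.p c => IsCoprime t.1.1 t.1.2 ∧ (K t).Bad c.y c.N δ) ⊆
      (range c.N).biUnion fun i => univ.filter (P i) := by
    intro t ht
    obtain ⟨h1, n, k, χ, i, a1, a2, a3, a4, a5, a6, a7, a8⟩ := (mem_filter.mp ht).2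
    exact mem_biUnion.mpr ⟨i, mem_range.mpr a7,
      mem_filter.mpr ⟨mem_univ _, h1, n, k, χ, a1, a2, a3, a4, a5, a6, a8⟩⟩
  have hc2 : ((univ.filter fun t : Tset F.p c =>
      IsCoprime t.1.1 t.1.2 ∧ (K t).Bad c.y c.N δ).card : ℝ) ≤ c.N * (g * c.y) := by
    have b1 := le_trans (card_le_card hsub) card_biUnion_le
    have b2 : (((∑ i ∈ range c.N, (univ.filter (P i)).card : ℕ)) : ℝ) ≤ c.N * (g * c.y) := by
      rw [Nat.cast_sum]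
      have := sum_le_card_nsmul (range c.N) (fun i => ((univ.filter (P i)).card : ℝ)) (g * c.y)
        fun i hi => hcard i (mem_range.mp hi)
      rwa [card_range, nsmul_eq_mul] at this
    exact le_trans (Nat.cast_le.mpr b1) b2
  have hw : ∀ t : Tset F.p c, wT F.p c t.1 ≤ 2 * Q ^ 2 / (F.η ^ 2 * c.B ^ 2) := by
    intro t
    have b1 : 6 * Q ≤ F.η * c.B := by
      have := (div_le_iff₀ hη).mp c6
      nlinarith
    have := bad.wT_le hTEq F.p c (by rw [hIn.τ0]; exact F.tau.1) (by rw [hIn.η]; exact hη)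
      (by rw [hIn.η]; exact F.ηle) hB (by rw [hIn.η, hIn.z]; exact b1) t.1 t.2
    rwa [hIn.η, hIn.z] at this
  have hs := sum_le_card_nsmul (univ.filter fun t : Tset F.p c =>
      IsCoprime t.1.1 t.1.2 ∧ (K t).Bad c.y c.N δ) (fun t => wT F.p c t.1) _ fun t _ => hw t
  rw [nsmul_eq_mul] at hs
  refine le_trans hs (le_trans (mul_le_mul_of_nonneg_right hc2 (by positivity)) ?_)
  have e1 : c.B ^ (3 / 2 : ℝ) = c.B * √c.B := by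
    rw [Real.sqrt_eq_rpow, show (3 / 2 : ℝ) = 1 + 1 / 2 by norm_num, Real.rpow_add hB,
      Real.rpow_one]
  have e2 : c.y ^ (3 / 4 : ℝ) * c.y ^ (1 / 4 : ℝ) = c.y := by
    rw [← Real.rpow_add hy0]; norm_num
  have e3 : c.y ^ 2 ≤ √c.B := Real.le_sqrt_of_sq_le (by nlinarith [hIn.B_ge])
  have e4 : √c.B * √c.B = c.B := Real.mul_self_sqrt hB.le
  have e5 : (c.N : ℝ) ≤ 2 * (ε * F.η ^ 2 / (4 * Q ^ 2) * c.y ^ (3 / 4 : ℝ)) := by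
    have := hy₃ c.y c3
    linarith [hIn.N_le]
  have hs0 : 0 < c.y ^ (1 / 4 : ℝ) := by positivity
  have hb0 : 0 < √c.B := Real.sqrt_pos.mpr hB
  rw [hg, e1]
  set b := √c.B
  set s := c.y ^ (1 / 4 : ℝ)
  set s' := c.y ^ (3 / 4 : ℝ)
  calc (c.N : ℝ) * (c.B * b * s * c.y) * (2 * Q ^ 2 / (F.η ^ 2 * c.B ^ 2))
      ≤ 2 * (ε * F.η ^ 2 / (4 * Q ^ 2) * s') * (c.B * b * s * c.y) *
        (2 * Q ^ 2 / (F.η ^ 2 * c.B ^ 2)) := by gcongr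
    _ = ε * ((s' * s) * c.y * b / c.B) := by field_simp; ring
    _ = ε * (c.y ^ 2 / b) := by rw [e2, ← e4]; field_simp
    _ ≤ ε * 1 := by gcongr; exact (div_le_one hb0).mpr e3
    _ = ε := mul_one ε

end Pool.Agent.P.MP_b8021b_nt.VE
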