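import Pool.Agent.P.MP_b8021b_nt.VE.StB

/-! B13: two tuple lengths force `β = 0`. -/

namespace Pool.Agent.P.MP_b8021b_nt.VE

open Polynomial Finset
open scoped Classical

namespace Bb

variable {P X Z T S : Type} [Fintype P] [Fintype X] [Fintype Z] [Fintype T] [Fintype S]

theorem N_pos {b : Base P X} {ε : ℝ} (h : b.Ok ε) : (1 : ℝ) ≤ b.N := by
  have h1 := h.Npos
  rcases Nat.eq_zero_or_pos b.N with h0 | h0
  · rw [h0] at h1; norm_num at h1
  · exact_mod_cast h0

theorem eps_pos {b : Base P X} {ε : ℝ} (h : b.Ok ε) : 0 < ε := by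
  have h1 := h.Npos
  have h2 := N_pos h
  by_contra h3
  nlinarith [not_lt.1 h3]

theorem q_pos {b : Base P X} {ε : ℝ} (h : b.Ok ε) (a : P) : 0 < b.q a := by
  have h1 := h.q_ge a
  have h2 := N_pos h
  have h3 := eps_pos h
  by_contra h4
  nlinarith [not_lt.1 h4]

omit [Fintype P] [Fintype X] in
theorem div_mono (b : Base P X) {ε ε' : ℝ} (hε : ε ≤ ε') : ε / b.N ≤ ε' / b.N :=
  div_le_div_of_nonneg_right hε (Nat.cast_nonneg _)

theorem base_mono {b : Base P X} {ε ε' : ℝ} (h : b.Ok ε) (hε : ε ≤ ε') : b.Ok ε' where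
  Npos := h.Npos.trans (mul_le_mul_of_nonneg_right hε (Nat.cast_nonneg _))
  lev_lt := h.lev_lt
  v_mem := h.v_mem
  q_ge a := (h.q_ge a).trans (mul_le_mul_of_nonneg_right hε (q_pos h a).le)
  w_nonneg := h.w_nonneg
  w_le a := (h.w_le a).trans (div_mono b hε)
  w_sum := h.w_sum
  card a := (h.card a).trans (div_mono b hε)
  ι_ι := h.ι_ι
  pr_ι := h.pr_ι

theorem side_mono {b : Base P X} {σ : Side X Z} {ε ε' : ℝ} (h : σ.Ok b ε) (hε : ε ≤ ε') :
    σ.Ok b ε' where
  nonneg := h.nonneg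
  sum := h.sum
  ind Y h1 h2 := (h.ind Y h1 h2).trans (div_mono b hε)
  same0 := h.same0
  same1 := h.same1

theorem sys_mono {Nc u d : ℕ} {G : Sys P X T S Nc u} {ε ε' : ℝ} (h : G.Ok d ε) (hε : ε ≤ ε') :
    G.Ok d ε' where
  des := ⟨base_mono h.des.base hε, side_mono h.des.sT hε, side_mono h.des.sS hε,
    h.des.mix.tup, fun φ ψ h1 h2 => (h.des.mix.cut φ ψ h1 h2).trans hε⟩
  box := ⟨h.box.mem, fun Y h1 h2 c => (h.box.cell Y h1 h2 c).trans (div_mono G.b hε), h.box.inv⟩
  anti := h.anti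
  degF := h.degF
  degQ := h.degQ
  pos := h.pos
  flat := h.flat
  deriv := h.deriv
  zero := h.zero
  size := h.size
  eqn := h.eqn

theorem eps_div {b : Base P X} {ε : ℝ} (h : b.Ok ε) (hε : ε ≤ 1 / 2) : ε / b.N ≤ 1 / 2 := by
  have h2 := N_pos h
  have h3 := eps_pos h
  rw [div_le_iff₀ (by linarith)]
  nlinarith

/-- the total weight of the points -/
theorem total {b : Base P X} {ε : ℝ} (h : b.Ok ε) (hε : ε ≤ 1 / 2) :
    1 / 2 ≤ ∑ x, b.w (b.pr x) / (b.q (b.pr x) * b.N) := by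
  have hN := N_pos h
  have e1 : ∑ a, b.w a = b.N := by
    rw [← sum_fiberwise_of_maps_to (s := univ) (t := range b.N) (g := b.lev)
      (fun a _ => mem_range.2 (h.lev_lt a))]
    rw [sum_congr rfl fun i hi => h.w_sum i (mem_range.1 hi)]
    simp
  rw [← sum_fiberwise (s := univ) (g := b.pr)]
  have e2 : ∀ a, b.w a / (2 * b.N) ≤
      ∑ x with b.pr x = a, b.w (b.pr x) / (b.q (b.pr x) * b.N) := by
    intro a
    rw [sum_congr rfl fun x hx => by rw [(mem_filter.1 hx).2], sum_const, nsmul_eq_mul]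
    have h1 := (abs_le.1 ((h.card a).trans (eps_div h hε))).1
    have hq := q_pos h a
    have hw := h.w_nonneg a
    have e : ((univ.filter fun x => b.pr x = a).card : ℝ) * (b.w a / (b.q a * b.N)) =
        ((univ.filter fun x => b.pr x = a).card : ℝ) / b.q a * (b.w a / b.N) := by
      field_simp
    have e' : b.w a / (2 * b.N) = 1 / 2 * (b.w a / b.N) := by field_simp
    rw [e, e']
    exact mul_le_mul_of_nonneg_right (by linarith) (by positivity)
  refine le_trans ?_ (sum_le_sum fun a _ => e2 a)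
  rw [← sum_div, e1]
  apply le_of_eq
  field_simp

theorem flag_nonneg {b : Base P X} {σ : Side X Z} {ε : ℝ} (h : b.Ok ε) (hs : σ.Ok b ε) (x : X)
    (z : Z) : 0 ≤ σ.flag b x z := by
  unfold Side.flag Side.m
  have h1 := hs.nonneg z
  have h2 := h.w_nonneg (b.pr x)
  split_ifs <;> positivity

theorem flag_ge {b : Base P X} {σ : Side X Z} {ε : ℝ} (h : b.Ok ε) (hs : σ.Ok b ε)
    (hε : ε ≤ 1 / 2) (x : X) :
    b.w (b.pr x) / (b.q (b.pr x) * b.N) ≤ 2 * ∑ z, σ.flag b x z := by
  have hN := N_pos h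
  have hq := q_pos h (b.pr x)
  have hw := h.w_nonneg (b.pr x)
  have h1 := (abs_le.1 ((hs.ind {x} (by simp) (by simp)).trans (eps_div h hε))).1
  rw [prod_singleton] at h1
  have e : ∑ z, σ.flag b x z = σ.prob {x} * (b.w (b.pr x) / b.N) := by
    unfold Side.flag Side.m Side.prob
    rw [sum_filter, sum_mul]
    refine sum_congr rfl fun z _ => ?_
    by_cases hz : σ.on x z
    · rw [if_pos hz, if_pos (by simpa using hz), mul_div_assoc]
    · rw [if_neg hz, if_neg (by simpa using hz)]; simp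
  have e' : b.w (b.pr x) / (b.q (b.pr x) * b.N) = 1 / b.q (b.pr x) * (b.w (b.pr x) / b.N) := by
    field_simp
  rw [e, e', ← mul_assoc]
  refine mul_le_mul_of_nonneg_right ?_ (by positivity)
  rw [div_le_iff₀ hq]
  linarith

/-- two anti-invariant approximations of the same function have the same shift -/
theorem shift_eq {b : Base P X} {σ : Side X Z} {ε : ℝ} (h : b.Ok ε) (hs : σ.Ok b ε)
    (hε : ε ≤ 1 / 2) (c : X → Z → ℝ) (a a' : X → ℝ) (γ γ' : ℝ) (ha : ∀ x, a (b.ι x) = -a x)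
    (ha' : ∀ x, a' (b.ι x) = -a' x)
    (h1 : ∑ z, ∑ x with c x z ≠ a x - γ, σ.flag b x z ≤ 1 / 100)
    (h2 : ∑ z, ∑ x with c x z ≠ a' x - γ', σ.flag b x z ≤ 1 / 100) : γ = γ' := by
  by_contra hne
  have hN := N_pos h
  set g : X → ℝ := fun x => b.w (b.pr x) / (b.q (b.pr x) * b.N) with hg
  have g0 : ∀ x, 0 ≤ g x := fun x => by
    have := h.w_nonneg (b.pr x)
    have := q_pos h (b.pr x)
    positivity
  set k : X → ℝ := fun x => if a x - γ ≠ a' x - γ' then g x else 0 with hk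
  have k0 : ∀ x, 0 ≤ k x := fun x => by
    simp only [hk]; split_ifs
    · exact g0 x
    · exact le_rfl
  have b1 : ∀ x, g x ≤ k x + k (b.ι x) := by
    intro x
    by_cases hx : a x - γ ≠ a' x - γ'
    · have : k x = g x := if_pos hx
      linarith [k0 (b.ι x)]
    · have hx' : a (b.ι x) - γ ≠ a' (b.ι x) - γ' := by
        rw [ha, ha']
        intro e
        apply hne
        linarith [not_not.1 hx]
      have : k (b.ι x) = g (b.ι x) := if_pos hx'
      have e : g (b.ι x) = g x := by simp only [hg, h.pr_ι]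
      linarith [k0 x]
  have b2 : ∑ x, k (b.ι x) = ∑ x, k x :=
    Equiv.sum_comp (Function.Involutive.toPerm b.ι h.ι_ι) k
  have b3 : ∀ x, k x ≤ 2 * ∑ z, ((if c x z ≠ a x - γ then σ.flag b x z else 0) +
      if c x z ≠ a' x - γ' then σ.flag b x z else 0) := by
    intro x
    have f0 := flag_nonneg h hs x
    by_cases hx : a x - γ ≠ a' x - γ'
    · have : k x = g x := if_pos hx
      rw [this]
      refine (flag_ge h hs hε x).trans (mul_le_mul_of_nonneg_left (sum_le_sum fun z _ => ?_)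
        (by norm_num))
      have := f0 z
      split_ifs with c1 c2 c2
      · linarith
      · linarith
      · linarith
      · exact (hx ((not_not.1 c1).symm.trans (not_not.1 c2))).elim
    · have : k x = 0 := if_neg hx
      rw [this]
      refine mul_nonneg (by norm_num) (sum_nonneg fun z _ => ?_)
      have := f0 z
      split_ifs <;> linarith
  have b4 : ∑ x, k x ≤ 2 * (1 / 100 + 1 / 100) := by
    refine (sum_le_sum fun x _ => b3 x).trans ?_
    rw [← mul_sum, sum_comm]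
    simp only [sum_add_distrib]
    simp only [sum_filter] at h1 h2
    linarith
  have b5 := total h hε
  have b6 : ∑ x, g x ≤ ∑ x, (k x + k (b.ι x)) := sum_le_sum fun x _ => b1 x
  rw [sum_add_distrib, b2] at b6
  linarith

end Bb

open Bb

theorem p_bb (hRig : S_Rig) : S_B := by
  intro u d hu
  obtain ⟨N₀, h0⟩ := hRig u d hu (1 / 100) (by norm_num)
  obtain ⟨N₁, h1⟩ := hRig (u + 1) d (by omega) (1 / 100) (by norm_num)
  obtain ⟨ε₀, p0, h0⟩ := h0 (N₀ + N₁ + 1) (by omega)
  obtain ⟨ε₁, p1, h1⟩ := h1 (N₀ + N₁ + 1) (by omega)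
  refine ⟨N₀ + N₁ + 1, min (min ε₀ ε₁) (1 / 2), by omega, by positivity, ?_⟩
  intro P X T T' S _ _ _ _ _ G G' hG hG' e1 e2 e3 e4
  obtain ⟨a, ha, hb⟩ := h0 P X T S G (sys_mono hG ((min_le_left _ _).trans (min_le_left _ _)))
  obtain ⟨a', ha', hb'⟩ :=
    h1 P X T' S G' (sys_mono hG' ((min_le_left _ _).trans (min_le_right _ _)))
  rw [e1] at ha'
  rw [e1, e2, e3, e4] at hb'
  have key := shift_eq hG.des.base hG.des.sS (min_le_right _ _) G.c₂ a a' _ _ ha ha' hb hb'
  have hu' : (0 : ℝ) ≤ u := Nat.cast_nonneg u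
  push_cast at key
  rw [div_eq_div_iff (by positivity) (by positivity)] at key
  linarith

end Pool.Agent.P.MP_b8021b_nt.VE
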