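import Pool.Agent.P.MP_b8021b_nt.VE.PBq1

/-! N19: the biquadratic field. -/

namespace Pool.Agent.P.MP_b8021b_nt.VE

open Polynomial NumberField Finset
open scoped Classical ComplexConjugate

set_option linter.unusedSectionVars false

namespace Bq

variable {L L' : Type} [Field L] [NumberField L] [Field L'] [NumberField L']

lemma not_sq (hIQb : S_IQb) (K : IQ L) (D' : ℤ) (hD' : D' < 0) (h : ¬ IsSquare (K.D * D'))
    (r : L) : r ^ 2 ≠ (D' : L) + 0 * r := by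
  intro hr
  rw [zero_mul, add_zero] at hr
  have hi : IsIntegral ℤ r := by
    refine ⟨X ^ 2 - C D', monic_X_pow_sub_C _ (by norm_num), ?_⟩
    rw [eval₂_sub, eval₂_X_pow, eval₂_C, hr]
    simp
  obtain ⟨h1, h2, -⟩ := hIQb L K
  let β : 𝓞 L := ⟨r, hi⟩
  have hβ : β ^ 2 = D' := by
    apply RingOfIntegers.ext
    simpa [β] using hr
  obtain ⟨a, b, hab⟩ := h1 β
  have h3 := h2 (a ^ 2 + b ^ 2 * K.D - 4 * K.D ^ 2 * D') (2 * a * b) (by
    push_cast
    linear_combination (-(2 * K.D * β + (a + b * K.ω))) * hab + (4 * K.D ^ 2) * hβ -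
      b ^ 2 * K.sq)
  obtain ⟨h4, h5⟩ := h3
  have hD := K.neg
  rcases mul_eq_zero.mp h5 with h6 | h6
  · have ha : a = 0 := by omega
    subst ha
    have h7 : b ^ 2 = 4 * (K.D * D') := by
      apply mul_left_cancel₀ hD.ne
      linear_combination h4
    have h8 : (2 : ℤ) ∣ b := Int.prime_two.dvd_of_dvd_pow (n := 2) ⟨2 * (K.D * D'), by linarith⟩
    obtain ⟨c, rfl⟩ := h8
    exact h ⟨c, by linarith⟩
  · subst h6
    nlinarith [sq_nonneg a, mul_pos (sq_pos_of_neg hD) (neg_pos.mpr hD')]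

/-- the data of the compositum -/
structure Cp (K : IQ L) (K' : IQ L') (M : Type) [Field M] [Algebra L M] [Algebra L' M] where
  h2 : Module.finrank L M = 2
  h2' : Module.finrank L' M = 2
  τ : M ≃ₐ[L] M
  τ' : M ≃ₐ[L'] M
  hτ : τ (algebraMap L' M K'.ω) = -algebraMap L' M K'.ω
  hτ' : τ' (algebraMap L M K.ω) = -algebraMap L M K.ω
  σ : M →+* ℂ
  hσ : ∀ x, σ (algebraMap L M x) = K.σ x
  hσ' : ∀ x, σ (algebraMap L' M x) = K'.σ x
  hc : ∀ z, σ (τ' z) = conj (σ (τ z))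

lemma exists_cp (hIQb : S_IQb) (K : IQ L) (K' : IQ L') (h : ¬ IsSquare (K.D * K'.D)) :
    ∃ (M : Type) (_ : Field M) (_ : NumberField M) (_ : Algebra L M) (_ : Algebra L' M),
      Nonempty (Cp K K' M) := by
  have : Fact (∀ r : L, r ^ 2 ≠ (K'.D : L) + 0 * r) := ⟨not_sq hIQb K K'.D K'.neg h⟩
  obtain ⟨M, _, _, _, w, h2, hw, hl, hs⟩ : ∃ (M : Type) (_ : Field M) (_ : NumberField M)
      (_ : Algebra L M) (w : M), Module.finrank L M = 2 ∧ w ^ 2 = K'.D ∧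
      (∀ (A : Type) [CommRing A] (f : L →+* A) (s : A), s ^ 2 = K'.D →
        ∃ g : M →+* A, (∀ x, g (algebraMap L M x) = f x) ∧ g w = s) ∧
      ∀ z : M, ∃ x y : L, z = algebraMap L M x + algebraMap L M y * w := by
    refine ⟨QuadraticAlgebra L (K'.D : L) 0, inferInstance, NumberField.of_module_finite L _,
      inferInstance, QuadraticAlgebra.omega, QuadraticAlgebra.finrank_eq_two _ _, ?_, ?_, ?_⟩
    · rw [sq]; ext <;> simp
    · intro A _ f s hs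
      exact qa_lift _ A f s (by simpa using hs)
    · intro z
      exact ⟨z.re, z.im, by ext <;> simp⟩
  have hext : ∀ {A : Type} [CommRing A] (g g' : M →+* A),
      (∀ x, g (algebraMap L M x) = g' (algebraMap L M x)) → g w = g' w → ∀ z, g z = g' z := by
    intro A _ g g' h1 h3 z
    obtain ⟨x, y, rfl⟩ := hs z
    simp only [map_add, map_mul, h1, h3]
  obtain ⟨i', hi'⟩ := exists_hom K' M w hw
  let _ : Algebra L' M := i'.toAlgebra
  have hi : algebraMap L' M K'.ω = w := hi'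
  have h4 : Module.finrank ℚ M = 4 := by
    rw [← Module.finrank_mul_finrank ℚ L M, K.deg, h2]
  have h2' : Module.finrank L' M = 2 := by
    have := Module.finrank_mul_finrank ℚ L' M
    rw [K'.deg, h4] at this
    omega
  obtain ⟨t, ht, htw⟩ := hl M (algebraMap L M) (-w) (by rw [neg_sq, hw])
  obtain ⟨c, hc⟩ := exists_hom K M (-algebraMap L M K.ω) (by
    rw [neg_sq, ← map_pow, sqL, map_intCast])
  obtain ⟨t', ht', htw'⟩ := hl M c w hw
  have ht2 : ∀ x, t' (algebraMap L' M x) = algebraMap L' M x := fun x =>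
    DFunLike.congr_fun (hom_ext K' (t'.comp (algebraMap L' M)) (algebraMap L' M)
      (by rw [RingHom.comp_apply, hi, htw'])) x
  obtain ⟨σ, hσ, hσw⟩ := hl ℂ K.σ (K'.σ K'.ω) (by rw [← map_pow, sqL, map_intCast])
  have hσ' : ∀ x, σ (algebraMap L' M x) = K'.σ x := fun x =>
    DFunLike.congr_fun (hom_ext K' (σ.comp (algebraMap L' M)) K'.σ
      (by rw [RingHom.comp_apply, hi, hσw])) x
  let T : M →ₐ[L] M := { t with commutes' := ht }
  let T' : M →ₐ[L'] M := { t' with commutes' := ht2 }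
  refine ⟨M, inferInstance, inferInstance, inferInstance, inferInstance, ⟨⟨h2, h2',
    AlgEquiv.ofBijective T T.bijective, AlgEquiv.ofBijective T' T'.bijective, ?_, ?_, σ, hσ, hσ',
    ?_⟩⟩⟩
  · rw [hi]; exact htw
  · change t' _ = _
    rw [ht', hc]
  · refine hext (σ.comp t') ((starRingEnd ℂ).comp (σ.comp t)) (fun x => ?_) ?_
    · refine DFunLike.congr_fun (hom_ext K ((σ.comp t').comp (algebraMap L M))
        (((starRingEnd ℂ).comp (σ.comp t)).comp (algebraMap L M)) ?_) x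
      simp only [RingHom.comp_apply]
      rw [ht', hc, ht, map_neg, hσ, conj_s]
    · simp only [RingHom.comp_apply]
      rw [htw', htw, map_neg, hσw, map_neg, conj_s, neg_neg]

lemma dir_mul (z w : ℂ) : dir (z * w) = dir z * dir w := by
  unfold dir
  rw [norm_mul, Complex.ofReal_mul, mul_div_mul_comm]

lemma dir_conj (z : ℂ) : dir (conj z) = conj (dir z) := by
  unfold dir
  rw [map_div₀, Complex.conj_ofReal, Complex.norm_conj]

lemma conj_dir {z : ℂ} (hz : z ≠ 0) : conj (dir z) = (dir z)⁻¹ := by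
  have : ‖dir z‖ = 1 := by
    unfold dir
    rw [norm_div, Complex.norm_real, norm_norm, div_self (norm_ne_zero_iff.mpr hz)]
  exact (Complex.inv_eq_conj this).symm

lemma dir_ne {z : ℂ} (hz : z ≠ 0) : dir z ≠ 0 := by
  unfold dir
  exact div_ne_zero hz (by exact_mod_cast norm_ne_zero_iff.mpr hz)

lemma unit_of {m n : ℕ} {D : ℤ} (hD : 2 * D ∣ n) (h : n.Coprime m) :
    ∃ e : ZMod m, e * (2 * (D : ZMod m)) = 1 := by
  obtain ⟨c, hc⟩ := hD
  obtain ⟨u, hu⟩ := ((ZMod.isUnit_iff_coprime n m).mpr h).exists_left_inv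
  have : (n : ZMod m) = 2 * D * c := by exact_mod_cast congrArg (Int.cast : ℤ → ZMod m) hc
  exact ⟨u * c, by rw [← hu, this]; ring⟩

lemma lam_eq (χ : Ideal (𝓞 L) → ℂ) (m : ℕ) :
    lam χ m = ∑ I ∈ (Ideal.finite_setOfPred_absNorm_eq (S := 𝓞 L) m).toFinset, χ I := by
  unfold lam
  exact finsum_mem_eq_finite_toFinset_sum _ _

namespace Cp

variable {K : IQ L} {K' : IQ L'} {M : Type} [Field M] [NumberField M] [Algebra L M] [Algebra L' M]
  (B : Cp K K' M)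

lemma w_ne (K : IQ L) : algebraMap L M K.ω ≠ 0 := by
  intro h
  have h1 : (K.ω : L) = 0 := (algebraMap L M).injective (by rw [h, map_zero])
  exact s_ne K (by rw [h1, map_zero])

lemma τ_ne : B.τ ≠ 1 := fun h => by
  have := B.hτ
  rw [h, AlgEquiv.one_apply] at this
  exact w_ne (M := M) K' (by linear_combination this / 2)

lemma τ'_ne : B.τ' ≠ 1 := fun h => by
  have := B.hτ'
  rw [h, AlgEquiv.one_apply] at this
  exact w_ne (M := M) K (by linear_combination this / 2)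

lemma W_sq (K : IQ L) : (algebraMap (𝓞 L) (𝓞 M) K.ω) ^ 2 = K.D := by
  rw [← map_pow, K.sq, map_intCast]

lemma rsW : rs B.τ (algebraMap (𝓞 L') (𝓞 M) K'.ω) = -algebraMap (𝓞 L') (𝓞 M) K'.ω :=
  RingOfIntegers.ext B.hτ

lemma rsW' : rs B.τ' (algebraMap (𝓞 L) (𝓞 M) K.ω) = -algebraMap (𝓞 L) (𝓞 M) K.ω :=
  RingOfIntegers.ext B.hτ'

lemma σ_norm (β : 𝓞 M) : K.σ (Algebra.intNorm (𝓞 L) (𝓞 M) β) = B.σ β * B.σ (B.τ β) := by
  rw [← B.hσ, ← j_coe, j_norm B.h2 B.τ B.τ_ne, ← map_mul]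
  rfl

lemma σ_norm' (β : 𝓞 M) :
    K'.σ (Algebra.intNorm (𝓞 L') (𝓞 M) β) = B.σ β * conj (B.σ (B.τ β)) := by
  rw [← B.hσ', ← j_coe, j_norm B.h2' B.τ' B.τ'_ne, ← B.hc, ← map_mul]
  rfl

/-- the basis -/
noncomputable def bs (K : IQ L) (K' : IQ L') (M : Type) [Field M] [Algebra L M] [Algebra L' M] :
    Fin 4 → 𝓞 M :=
  ![1, algebraMap (𝓞 L) (𝓞 M) K.ω, algebraMap (𝓞 L') (𝓞 M) K'.ω,
    algebraMap (𝓞 L) (𝓞 M) K.ω * algebraMap (𝓞 L') (𝓞 M) K'.ω]

lemma σ_bs : (fun j => B.σ (bs K K' M j)) =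
    ![1, K.σ K.ω, K'.σ K'.ω, K.σ K.ω * K'.σ K'.ω] := by
  ext j
  fin_cases j
  · simp [bs]
  · exact B.hσ _
  · exact B.hσ' _
  · change B.σ (algebraMap L M K.ω * algebraMap L' M K'.ω) = K.σ K.ω * K'.σ K'.ω
    rw [map_mul, B.hσ, B.hσ']

lemma σ_bs' : (fun j => B.σ (B.τ (bs K K' M j))) =
    ![1, K.σ K.ω, -K'.σ K'.ω, -(K.σ K.ω * K'.σ K'.ω)] := by
  ext j
  fin_cases j
  · simp [bs]
  · change B.σ (B.τ (algebraMap L M K.ω)) = K.σ K.ω
    rw [AlgEquiv.commutes, B.hσ]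
  · change B.σ (B.τ (algebraMap L' M K'.ω)) = -K'.σ K'.ω
    rw [B.hτ, map_neg, B.hσ']
  · change B.σ (B.τ (algebraMap L M K.ω * algebraMap L' M K'.ω)) = -(K.σ K.ω * K'.σ K'.ω)
    rw [map_mul, AlgEquiv.commutes, B.hτ, map_mul, map_neg, B.hσ, B.hσ', mul_neg]

lemma indep (K : IQ L) (a b : ℝ) (h : (a : ℂ) + b * K.σ K.ω = 0) : a = 0 ∧ b = 0 := by
  have h1 := congrArg conj h
  simp only [map_add, map_mul, Complex.conj_ofReal, conj_s, map_zero] at h1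
  have h2 : (a : ℂ) = 0 := by linear_combination (h + h1) / 2
  have h3 : (b : ℂ) * K.σ K.ω = 0 := by linear_combination (h - h1) / 2
  exact ⟨by exact_mod_cast h2, by exact_mod_cast (mul_eq_zero.mp h3).resolve_right (s_ne K)⟩

lemma s_le (K : IQ L) {n : ℕ} {Q : ℝ} (hn : 3 ≤ n) (hD : 2 * K.D ∣ n) (hQ : (n : ℝ) ≤ Q) :
    ‖K.σ K.ω‖ ^ 2 ≤ Q := by
  rw [norm_s]
  have h1 : K.D ∣ n := (Dvd.intro_left 2 rfl).trans hD
  have h2 : |K.D| ≤ n := Int.le_of_dvd (by omega) ((abs_dvd _ _).mpr h1)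
  have h3 : |(K.D : ℝ)| ≤ n := by exact_mod_cast h2
  linarith

/-- the quartic field -/
noncomputable def quart (hIQb : S_IQb) {n n' : ℕ} {Q : ℝ} (hn : 3 ≤ n) (hn' : 3 ≤ n')
    (hD : 2 * K.D ∣ n) (hD' : 2 * K'.D ∣ n') (hQ : (n : ℝ) ≤ Q) (hQ' : (n' : ℝ) ≤ Q) :
    Quart M Q where
  σ₁ := B.σ
  σ₂ := B.σ.comp B.τ.toRingEquiv.toRingHom
  deg := by rw [← Module.finrank_mul_finrank ℚ L M, K.deg, B.h2]
  nrm β := by
    rw [← Ideal.absNorm_relNorm (R := 𝓞 L), Ideal.relNorm_singleton, (hIQb L K).2.2.1, B.σ_norm,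
      norm_mul, mul_pow]
    rfl
  b := bs K K' M
  li := by
    rw [Fintype.linearIndependent_iff]
    intro g hg
    have h1 := congrArg Prod.fst hg
    have h2 := congrArg Prod.snd hg
    have e1 := fun j => congrFun B.σ_bs j
    have e2 := fun j => congrFun B.σ_bs' j
    simp only [Prod.fst_sum, Prod.snd_sum, Prod.smul_mk, Prod.fst_zero, Prod.snd_zero] at h1 h2
    change ∑ j, g j • B.σ (B.τ (bs K K' M j)) = 0 at h2
    simp only [e1, e2, Fin.sum_univ_four, Complex.real_smul, Matrix.cons_val_zero,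
      Matrix.cons_val_one, Matrix.cons_val] at h1 h2
    have h3 := indep K (g 0) (g 1) (by linear_combination (h1 + h2) / 2)
    have h4 := indep K (g 2) (g 3) (by
      apply mul_right_cancel₀ (s_ne K')
      linear_combination (h1 - h2) / 2)
    intro j
    fin_cases j
    exacts [h3.1, h3.2, h4.1, h4.2]
  le₁ j := by
    have h1 := s_le K hn hD hQ
    have h2 := s_le K' hn' hD' hQ'
    have h3 : (3 : ℝ) ≤ n := by exact_mod_cast hn
    rw [congrFun B.σ_bs j]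
    fin_cases j <;> simp <;> nlinarith [sq_nonneg (‖K.σ K.ω‖ - ‖K'.σ K'.ω‖),
      sq_nonneg (‖K.σ K.ω‖ - 1), sq_nonneg (‖K'.σ K'.ω‖ - 1)]
  le₂ j := by
    have h1 := s_le K hn hD hQ
    have h2 := s_le K' hn' hD' hQ'
    have h3 : (3 : ℝ) ≤ n := by exact_mod_cast hn
    change ‖B.σ (B.τ (bs K K' M j))‖ ≤ Q
    rw [congrFun B.σ_bs' j]
    fin_cases j <;> simp <;> nlinarith [sq_nonneg (‖K.σ K.ω‖ - ‖K'.σ K'.ω‖),
      sq_nonneg (‖K.σ K.ω‖ - 1), sq_nonneg (‖K'.σ K'.ω‖ - 1)]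

end Cp

/-- the character -/
noncomputable def psi (M : Type) [Field M] [NumberField M] [Algebra L M] [Algebra L' M]
    (χ : Ideal (𝓞 L) →* ℂ) (χ' : Ideal (𝓞 L') →* ℂ) : Ideal (𝓞 M) →* ℂ where
  toFun A := χ (Ideal.relNorm (𝓞 L) A) * conj (χ' (Ideal.relNorm (𝓞 L') A))
  map_one' := by simp only [map_one, mul_one]
  map_mul' A A' := by simp only [map_mul]; ring

namespace Cp

variable {K : IQ L} {K' : IQ L'} {M : Type} [Field M] [NumberField M] [Algebra L M] [Algebra L' M]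
  (B : Cp K K' M) {n n' : ℕ} {k k' : ℤ} {χ : Ideal (𝓞 L) →* ℂ} {χ' : Ideal (𝓞 L') →* ℂ}

lemma psi_apply (A : Ideal (𝓞 M)) :
    psi M χ χ' A = χ (Ideal.relNorm (𝓞 L) A) * conj (χ' (Ideal.relNorm (𝓞 L') A)) := rfl

include B

lemma isChar (h : IsChar n χ) (h' : IsChar n' χ') : IsChar (n * n') (psi M χ χ') where
  norm_cop A hA := by
    rw [psi_apply, norm_mul, Complex.norm_conj,
      h.norm_cop _ ((cop_norm B.h2 B.τ B.τ_ne n A).mpr (cop_of_dvd hA (Dvd.intro _ rfl))),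
      h'.norm_cop _ ((cop_norm B.h2' B.τ' B.τ'_ne n' A).mpr
        (cop_of_dvd hA (Dvd.intro_left _ rfl))), mul_one]
  zero A hA := by
    rw [psi_apply]
    by_cases h1 : Cop n A
    · rw [h'.zero _ (fun h2 => hA (cop_mul h1 ((cop_norm B.h2' B.τ' B.τ'_ne n' A).mp h2))),
        map_zero, mul_zero]
    · rw [h.zero _ (fun h2 => h1 ((cop_norm B.h2 B.τ B.τ_ne n A).mp h2)), zero_mul]

lemma prin (hn : 3 ≤ n) (hn' : 3 ≤ n') (h : IsHChar K.σ n k χ) (h' : IsHChar K'.σ n' k' χ')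
    (β : 𝓞 M) (hβ : ((n * n' : ℕ) : 𝓞 M) ∣ β - 1) :
    psi M χ χ' (Ideal.span {β}) = dir (B.σ β) ^ (k - k') * dir (B.σ (B.τ β)) ^ (k + k') := by
  have h0 : β ≠ 0 := ne_zero_of_mod (by nlinarith) hβ
  have h0' : (β : M) ≠ 0 := fun h => h0 (RingOfIntegers.ext h)
  have h1 : B.σ β ≠ 0 := (_root_.map_ne_zero _).mpr h0'
  have h2 : B.σ (B.τ β) ≠ 0 := (_root_.map_ne_zero _).mpr ((_root_.map_ne_zero _).mpr h0')
  rw [psi_apply, Ideal.relNorm_singleton, Ideal.relNorm_singleton,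
    h.prin _ (norm_mod B.h2 B.τ B.τ_ne ((Nat.cast_dvd_cast (Dvd.intro _ rfl)).trans hβ)),
    h'.prin _ (norm_mod B.h2' B.τ' B.τ'_ne ((Nat.cast_dvd_cast (Dvd.intro_left _ rfl)).trans hβ)),
    B.σ_norm, B.σ_norm', dir_mul, dir_mul, dir_conj, map_zpow₀, map_mul, Complex.conj_conj,
    conj_dir h1, zpow_sub₀ (dir_ne h1), zpow_add₀ (dir_ne h2), mul_zpow, mul_zpow, inv_zpow]
  ring

lemma glue (hIQb : S_IQb) {m : ℕ} (hc : n'.Coprime m) (hD' : 2 * K'.D ∣ n')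
    (f : 𝓞 L →+* ZMod m) (f' : 𝓞 L' →+* ZMod m) :
    ∃ g : 𝓞 M →+* ZMod m, g.comp (algebraMap (𝓞 L) (𝓞 M)) = f ∧
      g.comp (algebraMap (𝓞 L') (𝓞 M)) = f' := by
  obtain ⟨e, he⟩ := unit_of hD' hc
  obtain ⟨g, hg, hg'⟩ := ext_ex B.h2 B.τ B.τ_ne K'.D _ (W_sq K') B.rsW e he f (f' K'.ω)
    (by rw [← map_pow, K'.sq, map_intCast])
  refine ⟨g, hg, int_ext hIQb K' _ _ (fun x y h => ?_) hg'⟩
  linear_combination e * h - (x - y) * he

lemma lam_psi (hIQb : S_IQb) (hD' : 2 * K'.D ∣ n') (h : IsChar n χ) (h' : IsChar n' χ') (m : ℕ)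
    (hm : Squarefree m) : lam (psi M χ χ') m = lam χ m * conj (lam χ' m) := by
  have hm0 := hm.ne_zero
  rw [lam_eq, lam_eq, lam_eq]
  by_cases hc : n'.Coprime m
  swap
  · rw [Finset.sum_eq_zero (s := (Ideal.finite_setOfPred_absNorm_eq (S := 𝓞 L') m).toFinset),
      map_zero, mul_zero, Finset.sum_eq_zero]
    · intro A hA
      obtain ⟨g, rfl⟩ := exists_ker hm A (by simpa using hA)
      exact (B.isChar h h').zero _ fun h1 =>
        hc ((cop_ker g).mp (cop_of_dvd h1 (Dvd.intro_left _ rfl)))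
    · intro A hA
      obtain ⟨g, rfl⟩ := exists_ker hm A (by simpa using hA)
      exact h'.zero _ fun h1 => hc ((cop_ker g).mp h1)
  obtain ⟨e, he⟩ := unit_of hD' hc
  rw [map_sum, Finset.sum_mul_sum, ← Finset.sum_product']
  refine Finset.sum_nbij (fun A => (Ideal.relNorm (𝓞 L) A, Ideal.relNorm (𝓞 L') A)) ?_ ?_ ?_ ?_
  · intro A hA
    simpa [Ideal.absNorm_relNorm] using hA
  · intro A hA A' hA' hAA
    obtain ⟨g, rfl⟩ := exists_ker hm A (by simpa using hA)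
    obtain ⟨g', rfl⟩ := exists_ker hm A' (by simpa using hA')
    simp only [relNorm_ker hm0, Prod.mk.injEq] at hAA
    rw [ext_uniq B.h2 B.τ B.τ_ne K'.D _ (W_sq K') B.rsW e he g g'
      (ZMod.ringHom_eq_of_ker_eq _ _ hAA.1)
      (DFunLike.congr_fun (ZMod.ringHom_eq_of_ker_eq _ _ hAA.2) K'.ω)]
  · rintro ⟨I, I'⟩ hI
    simp only [Finset.coe_product, Set.mem_prod, Set.Finite.coe_toFinset, Set.mem_ofPred_eq] at hI
    obtain ⟨f, rfl⟩ := exists_ker hm I hI.1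
    obtain ⟨f', rfl⟩ := exists_ker hm I' hI.2
    obtain ⟨g, rfl, rfl⟩ := B.glue hIQb hc hD' f f'
    refine ⟨RingHom.ker g, by simpa using norm_ker g, ?_⟩
    simp only [relNorm_ker hm0]
  · intro A _
    rfl

lemma adj (hIQb : S_IQb) (hD' : 2 * K'.D ∣ n') (ht : IsTriv (n * n') (psi M χ χ')) :
    K.Adj χ K'.D (n * n') := by
  have cancel : ∀ a b c : ℂ, a * c = 1 → b * c = 1 → a = b := fun a b c h1 h2 => by
    linear_combination a * h2 * (-1) + b * h1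
  constructor
  · intro I hI
    have key : ∀ J : Ideal (𝓞 L), Cop (n * n') J →
        χ J ^ 2 * conj (χ' (Ideal.relNorm (𝓞 L') (J.map (algebraMap (𝓞 L) (𝓞 M))))) = 1 := by
      intro J hJ
      have := ht (J.map (algebraMap (𝓞 L) (𝓞 M))) (by
        obtain ⟨a, ha, h1⟩ := (cop_iff _ _).mp hJ
        refine (cop_iff _ _).mpr ⟨_, Ideal.mem_map_of_mem _ ha, ?_⟩
        simpa using map_dvd (algebraMap (𝓞 L) (𝓞 M)) h1)
      rwa [psi_apply, Ideal.relNorm_algebraMap, finrank_int B.h2, map_pow] at this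
    have h1 := key I hI
    have h2 := key (I.map K.c) (by
      obtain ⟨a, ha, h1⟩ := (cop_iff _ _).mp hI
      refine (cop_iff _ _).mpr ⟨_, Ideal.mem_map_of_mem _ ha, ?_⟩
      simpa using map_dvd K.c h1)
    have h3 : (algebraMap (𝓞 L) (𝓞 M)).comp (K.c : 𝓞 L →+* 𝓞 L) =
        ((rs B.τ' : 𝓞 M ≃ₐ[𝓞 L'] 𝓞 M) : 𝓞 M →+* 𝓞 M).comp (algebraMap (𝓞 L) (𝓞 M)) := by
      refine int_ext hIQb K _ _ (fun x y h => mul_left_cancel₀ ?_ h) ?_
      · exact mul_ne_zero two_ne_zero (Int.cast_ne_zero.mpr K.neg.ne)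
      · simp only [RingHom.comp_apply, RingHom.coe_coe]
        rw [K.cω, map_neg, B.rsW']
    have h4 : (I.map K.c).map (algebraMap (𝓞 L) (𝓞 M)) =
        (I.map (algebraMap (𝓞 L) (𝓞 M))).map (rs B.τ') := by
      change (I.map (K.c : 𝓞 L →+* 𝓞 L)).map (algebraMap (𝓞 L) (𝓞 M)) =
        (I.map (algebraMap (𝓞 L) (𝓞 M))).map ((rs B.τ' : 𝓞 M ≃ₐ[𝓞 L'] 𝓞 M) : 𝓞 M →+* 𝓞 M)
      rw [Ideal.map_map, Ideal.map_map, h3]
    rw [h4, Ideal.relNorm_map_algEquiv] at h2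
    exact cancel _ _ _ h2 h1
  · rintro q hq hqn ⟨a, ha⟩ I hI
    have hc : (n * n').Coprime q := ((Nat.Prime.coprime_iff_not_dvd hq).mpr hqn).symm
    have hc' : n'.Coprime q := Nat.Coprime.coprime_mul_left hc
    obtain ⟨e, he⟩ := unit_of hD' hc'
    obtain ⟨f, hf⟩ := exists_ker hq.squarefree I hI
    obtain ⟨f₂, hf₂⟩ := exists_ker hq.squarefree (I.map K.c)
      (by rw [(hIQb L K).2.2.2.2.2.2.2.2.2.1, hI])
    obtain ⟨g, hg, -⟩ := ext_ex B.h2 B.τ B.τ_ne K'.D _ (W_sq K') B.rsW e he f a (by rw [ha, sq])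
    obtain ⟨g₂, hg₂, hg₂'⟩ := B.glue hIQb hc' hD' f₂ (g.comp (algebraMap (𝓞 L') (𝓞 M)))
    have h1 := ht _ ((cop_ker g).mpr hc)
    have h2 := ht _ ((cop_ker g₂).mpr hc)
    rw [psi_apply, relNorm_ker hq.ne_zero, relNorm_ker hq.ne_zero] at h1 h2
    rw [hg, hf] at h1
    rw [hg₂, hf₂, hg₂'] at h2
    exact cancel _ _ _ h2 h1

end Cp

end Bq

theorem p_bq (hIQb : S_IQb) : S_BQ := by
  intro L L' _ _ _ _ K K' n n' k k' χ χ' Q hn hn' hD hD' hQ hQ' h h' hs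
  obtain ⟨M, _, _, _, _, ⟨B⟩⟩ := Bq.exists_cp hIQb K K' hs
  exact ⟨M, inferInstance, inferInstance, B.quart hIQb hn hn' hD hD' hQ hQ', Bq.psi M χ χ',
    ⟨B.isChar h.toIsChar h'.toIsChar, B.prin hn hn' h h'⟩,
    B.lam_psi hIQb hD' h.toIsChar h'.toIsChar, B.adj hIQb hD'⟩

end Pool.Agent.P.MP_b8021b_nt.VE
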