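import Pool.Agent.P.MP_b8021b_nt.VE.StA
import Pool.Agent.P.MP_b8021b_nt.VE.StN

/-! A10: the fibre side of the cochain. -/

namespace Pool.Agent.P.MP_b8021b_nt.VE

open Polynomial NumberField Finset
open scoped Classical

noncomputable section

namespace C1

section lift

variable {A : Type} [CommRing A] [Algebra ℚ A] (M : Quad ℚ A)

lemma el_inj {g c g' c' : ℚ[X]} (h : M.el g c = M.el g' c') : g = g' ∧ c = c' := by
  have h0 : aeval M.x (g - g') + aeval M.x (c - c') * M.y = 0 := by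
    simp only [Quad.el] at h
    simp only [map_sub]
    linear_combination h
  obtain ⟨h1, h2⟩ := M.inj _ _ h0
  exact ⟨sub_eq_zero.mp h1, sub_eq_zero.mp h2⟩

lemma el_add (g c g' c' : ℚ[X]) : M.el g c + M.el g' c' = M.el (g + g') (c + c') := by
  simp only [Quad.el, map_add]; ring

lemma el_mul (g c g' c' : ℚ[X]) :
    M.el g c * M.el g' c' = M.el (g * g' + c * c' * M.f) (g * c' + c * g') := by
  simp only [Quad.el, map_add, map_mul, ← M.rel]; ring

lemma el_C (q : ℚ) : algebraMap ℚ A q = M.el (C q) 0 := by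
  simp [Quad.el]

/-- first coordinate -/
def cg (h : A) : ℚ[X] := (M.surj h).choose

/-- second coordinate -/
def ch (h : A) : ℚ[X] := (M.surj h).choose_spec.choose

lemma el_c (h : A) : M.el (cg M h) (ch M h) = h := ((M.surj h).choose_spec.choose_spec).symm

lemma cg_el (g c : ℚ[X]) : cg M (M.el g c) = g := (el_inj M (el_c M _)).1

lemma ch_el (g c : ℚ[X]) : ch M (M.el g c) = c := (el_inj M (el_c M _)).2

variable {B : Type} [CommRing B] [Algebra ℚ B]

/-- the underlying function of the lift -/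
def lf (u v : B) (h : A) : B := aeval u (cg M h) + aeval u (ch M h) * v

lemma lf_el (u v : B) (g c : ℚ[X]) : lf M u v (M.el g c) = aeval u g + aeval u c * v := by
  simp only [lf, cg_el, ch_el]

/-- the homomorphism with `x ↦ u`, `y ↦ v` -/
def lift (u v : B) (huv : v ^ 2 = aeval u M.f) : A →ₐ[ℚ] B where
  toFun := lf M u v
  map_one' := by
    have : (1 : A) = M.el 1 0 := by simp [Quad.el]
    rw [this, lf_el]; simp
  map_mul' h h' := by
    rw [← el_c M h, ← el_c M h', el_mul, lf_el, lf_el, lf_el]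
    simp only [map_add, map_mul, ← huv]; ring
  map_zero' := by
    have : (0 : A) = M.el 0 0 := by simp [Quad.el]
    rw [this, lf_el]; simp
  map_add' h h' := by
    rw [← el_c M h, ← el_c M h', el_add, lf_el, lf_el, lf_el]
    simp only [map_add]; ring
  commutes' q := by
    rw [el_C M q, lf_el]; simp

lemma lift_el (u v : B) (huv : v ^ 2 = aeval u M.f) (g c : ℚ[X]) :
    lift M u v huv (M.el g c) = aeval u g + aeval u c * v := lf_el M u v g c

lemma x_el : M.x = M.el X 0 := by simp [Quad.el]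

lemma y_el : M.y = M.el 0 1 := by simp [Quad.el]

lemma neg_rel : (-M.y) ^ 2 = aeval M.x M.f := by rw [neg_sq, M.rel]

/-- the involution as a homomorphism -/
def io : A →ₐ[ℚ] A := lift M M.x (-M.y) (neg_rel M)

lemma io_el (g c : ℚ[X]) : io M (M.el g c) = M.el g (-c) := by
  rw [io, lift_el]; simp [Quad.el]

lemma io_io (h : A) : io M (io M h) = h := by
  conv_lhs => rw [← el_c M h, io_el, io_el, neg_neg]
  exact el_c M h

/-- the involution -/
def iota : A ≃ₐ[ℚ] A :=
  AlgEquiv.ofAlgHom (io M) (io M) (AlgHom.ext (io_io M)) (AlgHom.ext (io_io M))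

lemma iota_x : iota M M.x = M.x := by
  change io M M.x = M.x
  conv_lhs => rw [x_el M, io_el, neg_zero]
  exact (x_el M).symm

lemma iota_y : iota M M.y = -M.y := by
  change io M M.y = -M.y
  conv_lhs => rw [y_el M, io_el]
  simp [Quad.el]

end lift

lemma hev_eq {K : Type} [Field K] [CharZero K] (d : ℕ) (g : ℤ[X]) (hg : g.natDegree ≤ d)
    (a b : ℤ) (hb : (b : K) ≠ 0) :
    ((hev d g a b : ℤ) : K) =
      (b : K) ^ d * aeval ((a : K) / b) (g.map (Int.castRingHom ℚ)) := by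
  have h1 : aeval ((a : K) / b) (g.map (Int.castRingHom ℚ)) = aeval ((a : K) / b) g := by
    have := aeval_map_algebraMap ℚ ((a : K) / b) g
    rwa [algebraMap_int_eq] at this
  rw [h1, aeval_eq_sum_range' (Nat.lt_succ_of_le hg), hev, mul_sum]
  push_cast
  refine sum_congr rfl fun i hi => ?_
  have hi' : i ≤ d := Nat.lt_succ_iff.mp (mem_range.mp hi)
  obtain ⟨j, rfl⟩ := Nat.exists_eq_add_of_le hi'
  rw [Nat.add_sub_cancel_left, zsmul_eq_mul, div_pow, pow_add]
  field_simp

lemma gp_deg (p : Par) (s : p.Co) : (p.gp s).natDegree ≤ p.k := by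
  unfold Par.gp
  refine (natDegree_add_le _ _).trans (max_le p.dg ?_)
  refine (natDegree_C_mul_le _ _).trans ?_
  refine natDegree_sum_le_of_forall_le _ _ fun i _ => ?_
  refine (natDegree_C_mul_X_pow_le _ _).trans ?_
  have := i.2
  omega

lemma cp_deg (p : Par) (s : p.Co) : (p.cp s).natDegree ≤ p.k - 2 := by
  unfold Par.cp
  refine (natDegree_add_le _ _).trans (max_le p.dc ?_)
  refine (natDegree_C_mul_le _ _).trans ?_
  refine natDegree_sum_le_of_forall_le _ _ fun i _ => ?_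
  refine (natDegree_C_mul_X_pow_le _ _).trans ?_
  have := i.2
  omega

section ideals

variable {L : Type} [Field L] [NumberField L]

lemma exists_gen (I : Ideal (𝓞 L)) (hI : I ≠ ⊥) :
    ∃ α : 𝓞 L, I ^ Fintype.card (ClassGroup (𝓞 L)) = Ideal.span {α} := by
  have hI' : I ∈ nonZeroDivisors (Ideal (𝓞 L)) := mem_nonZeroDivisors_of_ne_zero hI
  have h1 : ClassGroup.mk0 (⟨I, hI'⟩ ^ Fintype.card (ClassGroup (𝓞 L))) = 1 := by
    rw [map_pow, pow_card_eq_one]
  have h2 := (ClassGroup.mk0_eq_one_iff (pow_mem hI' _)).mp h1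
  exact ⟨h2.generator, (h2.span_singleton_generator).symm⟩

/-- extension of a homomorphism to ideals -/
lemma exists_ext (hfin : Finite (𝓞 L)ˣ) (Φ : 𝓞 L → ℝ)
    (hΦ : ∀ a b, a ≠ 0 → b ≠ 0 → Φ (a * b) = Φ a + Φ b) :
    ∃ Ψ : Ideal (𝓞 L) → ℝ, (∀ I J, I ≠ ⊥ → J ≠ ⊥ → Ψ (I * J) = Ψ I + Ψ J) ∧
      ∀ a, a ≠ 0 → Ψ (Ideal.span {a}) = Φ a := by
  have h1 : Φ 1 = 0 := by
    have := hΦ 1 1 one_ne_zero one_ne_zero
    rw [one_mul] at this
    linarith
  have hpow : ∀ a, a ≠ 0 → ∀ n : ℕ, Φ (a ^ n) = n * Φ a := by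
    intro a ha n
    induction n with
    | zero => simp [h1]
    | succ n ih => rw [pow_succ, hΦ _ _ (pow_ne_zero _ ha) ha, ih]; push_cast; ring
  have hunit : ∀ ε : (𝓞 L)ˣ, Φ ε = 0 := by
    intro ε
    have hpos : 0 < orderOf ε := orderOf_pos ε
    have h2 : ((ε : 𝓞 L)) ^ orderOf ε = 1 := by
      rw [← Units.val_pow_eq_pow_val, pow_orderOf_eq_one, Units.val_one]
    have h3 := hpow ε ε.ne_zero (orderOf ε)
    rw [h2, h1] at h3
    have h4 : (orderOf ε : ℝ) ≠ 0 := by exact_mod_cast hpos.ne'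
    exact (mul_eq_zero.mp h3.symm).resolve_left h4
  have hass : ∀ a b : 𝓞 L, a ≠ 0 → Ideal.span {a} = Ideal.span {b} → Φ a = Φ b := by
    intro a b ha hab
    obtain ⟨ε, rfl⟩ := Ideal.span_singleton_eq_span_singleton.mp hab
    rw [hΦ _ _ ha ε.ne_zero, hunit, add_zero]
  set n := Fintype.card (ClassGroup (𝓞 L)) with hn
  have hn0 : (n : ℝ) ≠ 0 := by exact_mod_cast Fintype.card_ne_zero
  let gen : Ideal (𝓞 L) → 𝓞 L := fun I => if h : I = ⊥ then 0 else (exists_gen I h).choose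
  have hgen : ∀ I, I ≠ ⊥ → I ^ n = Ideal.span {gen I} := by
    intro I hI
    simp only [gen, dif_neg hI]
    exact (exists_gen I hI).choose_spec
  have hgen0 : ∀ I, I ≠ ⊥ → gen I ≠ 0 := by
    intro I hI h0
    have := hgen I hI
    rw [h0, Ideal.span_singleton_zero] at this
    exact pow_ne_zero n hI this
  refine ⟨fun I => Φ (gen I) / n, fun I J hI hJ => ?_, fun a ha => ?_⟩
  · have hIJ : I * J ≠ ⊥ := mul_ne_zero hI hJ
    have h2 : Ideal.span {gen (I * J)} = Ideal.span {gen I * gen J} := by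
      rw [← hgen _ hIJ, mul_pow, hgen I hI, hgen J hJ, Ideal.span_singleton_mul_span_singleton]
    simp only
    rw [hass _ _ (hgen0 _ hIJ) h2, hΦ _ _ (hgen0 I hI) (hgen0 J hJ), add_div]
  · have hI : Ideal.span {a} ≠ ⊥ := by simpa using ha
    have h2 : Ideal.span {gen (Ideal.span {a})} = Ideal.span {a ^ n} := by
      rw [← hgen _ hI, Ideal.span_singleton_pow]
    simp only
    rw [hass _ _ (hgen0 _ hI) h2, hpow a ha]
    field_simp

end ideals

lemma pair_max {A : Type} [CommRing A] [IsDedekindDomain A] (φ : MaximalSpectrum A → A → ℝ)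
    (f h : A) (P : MaximalSpectrum A) (hP : P.asIdeal = Ideal.span {f}) :
    pair φ f h = φ P h := by
  unfold pair
  rw [finsum_eq_single _ P]
  · have : ord P f = 1 := by
      unfold ord
      rw [← hP]
      exact multiplicity_self
    rw [this]; simp
  · intro Q hQ
    have : ord Q f = 0 := by
      unfold ord
      rw [← hP, multiplicity_eq_zero]
      intro hd
      apply hQ
      exact MaximalSpectrum.ext
        (P.isMaximal.eq_of_le Q.isMaximal.ne_top (Ideal.le_of_dvd hd)).symm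
    rw [this]; simp

end C1

open C1 in
theorem p_c1 (hA1 : S_A1) (hSym : S_Sym) (hIQ : S_IQ) (hIQb : S_IQb) (hQF : S_QF) : S_C1 := by
  intro A _ _ M p φ hf hφ t ht
  obtain ⟨L, _, _, K, hK⟩ := hIQ (p.D t) ht.2.1
  obtain ⟨hb1, hb2, -, -, -, -, hfin, -, hconj, -, -, -, -⟩ := hIQb L K
  obtain ⟨⟨𝔮, h𝔮⟩, -, hJ, -, -, hgood⟩ := hQF p t L K ht hK
  obtain ⟨-, -, -, hgood⟩ := hgood 𝔮 h𝔮
  have : IsDedekindDomain A := (hA1 ℚ A M.toQuad).1
  have hb0 : (t.2 : L) ≠ 0 := by exact_mod_cast ht.1.ne'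
  have hb0' : (t.2 : ℚ) ≠ 0 := by exact_mod_cast ht.1.ne'
  have hD0 : (K.D : L) ≠ 0 := by exact_mod_cast K.neg.ne
  set u : L := (t.1 : L) / t.2 with hu
  set ω : L := (K.ω : L) with hω
  have hω2 : ω ^ 2 = (K.D : L) := by
    have := congrArg (algebraMap (𝓞 L) L) K.sq
    simpa using this
  have hrel : (ω / (t.2 : L) ^ 2) ^ 2 = aeval u M.f := by
    have h1 := hev_eq (K := L) 4 p.f (by rw [p.hf.2.1]; norm_num) t.1 t.2 hb0
    have h2 : p.f.map (Int.castRingHom ℚ) = M.f := by rw [hf, M.hfz]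
    rw [h2] at h1
    have h3 : (K.D : L) = (t.2 : L) ^ 4 * aeval u M.f := by rw [hK]; exact h1
    rw [div_pow, hω2, h3]
    field_simp
  set ψ := lift M.toQuad u (ω / (t.2 : L) ^ 2) hrel with hψ
  have hψel : ∀ g c, ψ (M.el g c) = aeval u g + aeval u c * (ω / (t.2 : L) ^ 2) :=
    lift_el M.toQuad u _ hrel
  have hu' : u = algebraMap ℚ L ((t.1 : ℚ) / t.2) := by simp [hu]
  -- independence of `1` and `ω` over the rationals
  have hind : ∀ a b : ℚ, (a : L) + b * ω = 0 → a = 0 ∧ b = 0 := by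
    intro a b hab
    have h1 : ((a.num * b.den : ℤ) : 𝓞 L) + ((b.num * a.den : ℤ) : 𝓞 L) * K.ω = 0 := by
      apply RingOfIntegers.coe_injective
      have ha : (a.num : L) = a * a.den := by exact_mod_cast (Rat.mul_den_eq_num a).symm
      have hb : (b.num : L) = b * b.den := by exact_mod_cast (Rat.mul_den_eq_num b).symm
      simp only [map_add, map_mul, map_intCast, map_zero]
      push_cast
      rw [ha, hb]
      have : algebraMap (𝓞 L) L K.ω = ω := rfl
      rw [this]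
      linear_combination (a.den * b.den : L) * hab
    obtain ⟨h2, h3⟩ := hb2 _ _ h1
    have ha : (a.den : ℤ) ≠ 0 := by exact_mod_cast a.den_ne_zero
    have hb : (b.den : ℤ) ≠ 0 := by exact_mod_cast b.den_ne_zero
    exact ⟨Rat.num_eq_zero.mp ((mul_eq_zero.mp h2).resolve_right hb),
      Rat.num_eq_zero.mp ((mul_eq_zero.mp h3).resolve_right ha)⟩
  have hfib : M.fib t = M.el (C (t.2 : ℚ) * (X - C ((t.1 : ℚ) / t.2))) 0 := by
    simp only [Model.fib, Quad.el, map_mul, map_sub, aeval_C, aeval_X, map_zero, zero_mul,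
      add_zero]
    rw [mul_sub, ← map_mul, mul_div_cancel₀ _ hb0']
    simp
  have hker : RingHom.ker ψ = Ideal.span {M.fib t} := by
    apply le_antisymm
    · intro h hh
      rw [RingHom.mem_ker, ← el_c M.toQuad h, hψel, hu', aeval_algebraMap_apply,
        aeval_algebraMap_apply] at hh
      have h1 := hind (aeval ((t.1 : ℚ) / t.2) (cg M.toQuad h))
        (aeval ((t.1 : ℚ) / t.2) (ch M.toQuad h) / (t.2 : ℚ) ^ 2) (by
          rw [← hh]
          simp only [eq_ratCast]
          push_cast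
          ring)
      have h2 : X - C ((t.1 : ℚ) / t.2) ∣ cg M.toQuad h := by
        rw [dvd_iff_isRoot]
        simpa using h1.1
      have h3 : X - C ((t.1 : ℚ) / t.2) ∣ ch M.toQuad h := by
        rw [dvd_iff_isRoot]
        have := h1.2
        rw [div_eq_zero_iff] at this
        simpa using this.resolve_right (pow_ne_zero _ hb0')
      obtain ⟨g, hg⟩ := h2
      obtain ⟨c, hc⟩ := h3
      rw [Ideal.mem_span_singleton]
      refine ⟨M.el (C (t.2 : ℚ)⁻¹ * g) (C (t.2 : ℚ)⁻¹ * c), ?_⟩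
      have hC : C (t.2 : ℚ) * C (t.2 : ℚ)⁻¹ = 1 := by rw [← C_mul, mul_inv_cancel₀ hb0', C_1]
      rw [hfib, el_mul, ← el_c M.toQuad h, hg, hc]
      congr 1
      · linear_combination (-(X - C ((t.1 : ℚ) / t.2)) * g) * hC
      · linear_combination (-(X - C ((t.1 : ℚ) / t.2)) * c) * hC
    · rw [Ideal.span_le, Set.singleton_subset_iff, SetLike.mem_coe, RingHom.mem_ker, hfib, hψel,
        hu']
      simp
  have hsurjO : ∀ β : 𝓞 L, ∃ h, ψ h = (β : L) := by
    intro β
    obtain ⟨a, b, hab⟩ := hb1 β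
    have h1 : 2 * (K.D : L) * (β : L) = a + b * ω := by
      have := congrArg (algebraMap (𝓞 L) L) hab
      simp only [map_mul, map_add, map_intCast, map_ofNat] at this
      exact this
    refine ⟨M.el (C ((a : ℚ) / (2 * K.D))) (C ((b : ℚ) * t.2 ^ 2 / (2 * K.D))), ?_⟩
    rw [hψel]
    simp only [aeval_C, eq_ratCast]
    push_cast
    field_simp
    linear_combination -h1
  have hsurj : Function.Surjective ψ := by
    intro z
    obtain ⟨a, b, hb, rfl⟩ := IsFractionRing.div_surjective (A := 𝓞 L) z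
    have hbz : b ≠ 0 := nonZeroDivisors.ne_zero hb
    obtain ⟨n, hn0, hn⟩ : ∃ n : ℕ, n ≠ 0 ∧ (n : 𝓞 L) ∈ Ideal.span {b} :=
      ⟨Ideal.absNorm (Ideal.span {b}), by simpa using hbz, Ideal.absNorm_mem _⟩
    obtain ⟨c, hc⟩ := Ideal.mem_span_singleton'.mp hn
    obtain ⟨h, hh⟩ := hsurjO (a * c)
    refine ⟨algebraMap ℚ A (n : ℚ)⁻¹ * h, ?_⟩
    have hc' : (c : L) * (b : L) = n := by
      have := congrArg (algebraMap (𝓞 L) L) hc
      simpa using this
    have hn' : (n : L) ≠ 0 := by exact_mod_cast hn0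
    have hb' : algebraMap (𝓞 L) L b ≠ 0 := by simpa using hbz
    rw [map_mul, hh, AlgHom.commutes]
    simp only [eq_ratCast]
    push_cast
    rw [eq_div_iff hb', ← hc']
    have hc0 : (c : L) ≠ 0 := by
      intro h0
      rw [h0, zero_mul] at hc'
      exact hn' hc'.symm
    have hb'' : (b : L) ≠ 0 := hb'
    change ((c : L) * (b : L))⁻¹ * ((a : L) * (c : L)) * (b : L) = (a : L)
    field_simp
  let P0 : MaximalSpectrum A := ⟨RingHom.ker ψ, RingHom.ker_isMaximal_of_surjective ψ hsurj⟩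
  have hmem : ∀ h, h ∈ P0.asIdeal ↔ ψ h = 0 := fun h => RingHom.mem_ker
  let Φ : L → ℝ := fun z => φ P0 (hsurj z).choose
  have hΦ : ∀ h, Φ (ψ h) = φ P0 h := by
    intro h
    apply hφ.congr
    rw [hmem, map_sub, (hsurj (ψ h)).choose_spec, sub_self]
  have hΦmul : ∀ a b, a ≠ 0 → b ≠ 0 → Φ (a * b) = Φ a + Φ b := by
    intro a b ha hb
    obtain ⟨a, rfl⟩ := hsurj a
    obtain ⟨b, rfl⟩ := hsurj b
    rw [← map_mul, hΦ, hΦ, hΦ]
    exact hφ.mul _ _ _ (by rwa [hmem]) (by rwa [hmem])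
  have hΦint : ∀ n : ℤ, Φ n = 0 := by
    intro n
    have hanti := hSym A M.toQuad (iota M.toQuad) (iota_x _) (iota_y _) φ hφ P0 P0 (by
      intro h
      have hfi : iota M.toQuad (M.fib t) = M.fib t := by
        simp only [Model.fib, map_sub, map_mul, map_intCast, iota_x]
      have key : ∀ h, h ∈ P0.asIdeal → iota M.toQuad h ∈ P0.asIdeal := by
        intro h hh
        change h ∈ RingHom.ker ψ at hh
        change _ ∈ RingHom.ker ψ
        rw [hker, Ideal.mem_span_singleton] at hh ⊢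
        have := map_dvd (iota M.toQuad) hh
        rwa [hfi] at this
      refine ⟨key h, fun hh => ?_⟩
      have := key _ hh
      change io M.toQuad (io M.toQuad h) ∈ _ at this
      rwa [io_io] at this) (n : A)
    rw [map_intCast] at hanti
    have h1 := hΦ (n : A)
    rw [map_intCast] at h1
    linarith
  obtain ⟨Ψ, hΨmul, hΨ⟩ := exists_ext hfin (fun a => Φ a) (by
    intro a b ha hb
    simp only [map_mul]
    exact hΦmul _ _ (by simpa using ha) (by simpa using hb))
  have hΨnat : ∀ n : ℕ, n ≠ 0 → Ψ (Ideal.span {(n : 𝓞 L)}) = 0 := by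
    intro n hn
    rw [hΨ _ (by exact_mod_cast hn)]
    have := hΦint n
    simpa using this
  have hΨ1 : Ψ 1 = 0 := by
    have := hΨnat 1 one_ne_zero
    simpa using this
  have hJ0 : ∀ x, p.IsPt x → OnT x t → K.J t x ≠ ⊥ := by
    intro x hx hxt h0
    have := (hJ x hx hxt).1
    rw [h0, Ideal.absNorm_bot] at this
    exact hx.1.ne_zero this.symm
  have h𝔮0 : 𝔮 ≠ ⊥ := by
    intro h0
    rw [h0, ← Ideal.zero_eq_bot, zero_pow two_ne_zero, Ideal.zero_eq_bot, eq_comm,
      Ideal.span_singleton_eq_bot] at h𝔮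
    exact p.hr.ne_zero (by exact_mod_cast h𝔮)
  have hΨ𝔮 : Ψ 𝔮 = 0 := by
    have h1 := hΨmul 𝔮 𝔮 h𝔮0 h𝔮0
    rw [← sq, h𝔮, hΨnat _ p.hr.ne_zero] at h1
    linarith
  have hΨ𝔮' : ∀ e : ℕ, Ψ (𝔮 ^ e) = 0 := by
    intro e
    induction e with
    | zero => simpa using hΨ1
    | succ e ih => rw [pow_succ, hΨmul _ _ (pow_ne_zero _ h𝔮0) h𝔮0, ih, hΨ𝔮, add_zero]
  refine ⟨fun x => Ψ (K.J t x), fun x hx hxt => ?_, fun n s x hx => ?_⟩
  · obtain ⟨h1, h2, -⟩ := hJ x hx hxt
    have h3 := hconj (K.J t x)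
    have h4 : K.J t (inv x) ≠ ⊥ := by
      intro h0
      rw [h2, h0, Ideal.mul_bot, eq_comm, Ideal.span_singleton_eq_bot, h1] at h3
      exact hx.1.ne_zero (by exact_mod_cast h3)
    have h5 := hΨmul _ _ (hJ0 x hx hxt) h4
    rw [h2] at h3
    rw [h3, h1, hΨnat _ hx.1.ne_zero] at h5
    simp only
    linarith
  · have h1 := hgood n s x hx
    have hprod : ∀ S : Finset (Fin n), ∏ i ∈ S, K.J t (x i) ≠ ⊥ ∧
        Ψ (∏ i ∈ S, K.J t (x i)) = ∑ i ∈ S, Ψ (K.J t (x i)) := by
      intro S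
      induction S using Finset.induction_on with
      | empty => exact ⟨by simp, by simpa using hΨ1⟩
      | insert i S hi ih =>
        have hi0 := hJ0 (x i) (hx.1 i).1 (hx.1 i).2.1
        rw [prod_insert hi, sum_insert hi, hΨmul _ _ hi0 ih.1, ih.2]
        exact ⟨mul_ne_zero hi0 ih.1, rfl⟩
    have hal0 : K.al p t s ≠ 0 := by
      intro h0
      rw [h0, Ideal.span_singleton_zero] at h1
      exact mul_ne_zero (pow_ne_zero p.e h𝔮0) (hprod univ).1 h1.symm
    have h2 : Φ (K.al p t s : L) = ∑ i, Ψ (K.J t (x i)) := by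
      have := hΨ _ hal0
      rw [h1, hΨmul _ _ (pow_ne_zero p.e h𝔮0) (hprod univ).1, hΨ𝔮', zero_add, (hprod univ).2]
        at this
      exact this.symm
    have h3 : ((t.2 ^ p.k : ℤ) : L) * ψ (M.sec p s) = (K.al p t s : L) := by
      have hg := hev_eq (K := L) p.k (p.gp s) (gp_deg p s) t.1 t.2 hb0
      have hc := hev_eq (K := L) (p.k - 2) (p.cp s) (cp_deg p s) t.1 t.2 hb0
      have hal : (K.al p t s : L) = (p.gt s t : L) + (p.ct s t : L) * ω := by
        simp [IQ.al, hω]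
      obtain ⟨j, hj⟩ : ∃ j, p.k = j + 2 := ⟨p.k - 2, by have := p.hk; omega⟩
      rw [hal, Par.gt, Par.ct, hg, hc, Model.sec, hψel, ← hu]
      have hj2 : p.k - 2 = j := by omega
      rw [hj2]
      have hpk : (t.2 : L) ^ p.k = (t.2 : L) ^ j * (t.2 : L) ^ 2 := by rw [hj, pow_add]
      push_cast
      rw [hpk]
      field_simp
    have hal0' : (K.al p t s : L) ≠ 0 := by simpa using hal0
    have hsec : ψ (M.sec p s) ≠ 0 := by
      intro h0
      rw [h0, mul_zero] at h3
      exact hal0' h3.symm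
    have hpk0 : ((t.2 ^ p.k : ℤ) : L) ≠ 0 := by
      push_cast
      exact pow_ne_zero _ hb0
    have h4 : Φ (ψ (M.sec p s)) = ∑ i, Ψ (K.J t (x i)) := by
      rw [← h2, ← h3, hΦmul _ _ hpk0 hsec, hΦint, zero_add]
    have hs0 : M.sec p s ≠ 0 := by
      intro h0
      rw [h0, map_zero] at hsec
      exact hsec rfl
    have hf0 : M.fib t ≠ 0 := by
      intro h0
      have := (hA1 ℚ A M.toQuad).2.2.2.1 P0
      apply this
      change RingHom.ker ψ = ⊥
      rw [hker, h0, Ideal.span_singleton_zero]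
    have hcop : IsCoprime (M.sec p s) (M.fib t) := by
      obtain ⟨h, hh⟩ := hsurj (ψ (M.sec p s))⁻¹
      have h5 : 1 - h * M.sec p s ∈ RingHom.ker ψ := by
        rw [RingHom.mem_ker, map_sub, map_one, map_mul, hh, inv_mul_cancel₀ hsec, sub_self]
      rw [hker, Ideal.mem_span_singleton'] at h5
      obtain ⟨c, hc⟩ := h5
      exact ⟨h, c, by linear_combination hc⟩
    rw [hφ.recip _ _ hs0 hf0 hcop, pair_max φ _ _ P0 hker, ← hΦ, h4]

end

end Pool.Agent.P.MP_b8021b_nt.VE
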