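import Pool.Agent.P.MP_b8021b_nt.VE.BasicA
import Pool.Agent.P.MP_b8021b_nt.VE.BasicP

/-! A9: the section side of the cochain. -/

namespace Pool.Agent.P.MP_b8021b_nt.VE

open Polynomial Finset NumberField IsDedekindDomain
open scoped Classical

noncomputable section

namespace C2P

section val

variable {K Γ : Type} [Field K] [LinearOrderedCommGroupWithZero Γ] (v : Valuation K Γ)

lemma v_nat (n : ℕ) : v (n : K) ≤ 1 := by
  induction n with
  | zero => simp
  | succ n ih =>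
    rw [Nat.cast_succ]
    exact v.map_add_le ih (by simp)

lemma v_int (n : ℤ) : v (n : K) ≤ 1 := by
  obtain ⟨m, rfl | rfl⟩ := n.eq_nat_or_neg
  · simpa using v_nat v m
  · simpa using v_nat v m

lemma v_dvd {a b : ℤ} (h : a ∣ b) : v (b : K) ≤ v (a : K) := by
  obtain ⟨c, rfl⟩ := h
  rw [Int.cast_mul, map_mul]
  exact mul_le_of_le_one_right' (v_int v c)

lemma v_cop {a b : ℤ} (h : IsCoprime a b) (ha : v (a : K) < 1) : v (b : K) = 1 := by
  refine le_antisymm (v_int v b) (not_lt.mp fun hb => ?_)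
  obtain ⟨c, d, hcd⟩ := h
  have h1 : v ((c * a : ℤ) : K) < 1 := (v_dvd v (dvd_mul_left a c)).trans_lt ha
  have h2 : v ((d * b : ℤ) : K) < 1 := (v_dvd v (dvd_mul_left b d)).trans_lt hb
  have h3 := v.map_add_lt h1 h2
  rw [← Int.cast_add, hcd] at h3
  simp at h3

lemma v_pow_sub {b c : K} (hb : v b ≤ 1) (hc : v c ≤ 1) (m : ℕ) :
    v (b ^ m - c ^ m) ≤ v (b - c) := by
  induction m with
  | zero => simp
  | succ m ih =>
    have : b ^ (m + 1) - c ^ (m + 1) = b * (b ^ m - c ^ m) + (b - c) * c ^ m := by ring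
    rw [this]
    refine v.map_add_le ?_ ?_
    · rw [map_mul]
      exact (mul_le_of_le_one_left' hb).trans ih
    · rw [map_mul, map_pow]
      exact mul_le_of_le_one_right' (pow_le_one' hc m)

variable (p : Par) (s : p.Co) {θ : K}

lemma sum_F (hθ : aeval θ (p.F s) = 0) :
    ∑ i ∈ range (2 * p.k + 1), (((p.F s).coeff i : ℤ) : K) * θ ^ i = 0 := by
  rw [aeval_eq_sum_range' (Nat.lt_succ_of_le (p.natDegree_F s))] at hθ
  simpa only [zsmul_eq_mul] using hθ

lemma not_dom (hθ : aeval θ (p.F s) = 0) (j : ℕ) (hj : j ≤ 2 * p.k)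
    (h0 : v ((((p.F s).coeff j : ℤ) : K) * θ ^ j) ≠ 0)
    (h : ∀ i ≤ 2 * p.k, i ≠ j → v ((((p.F s).coeff i : ℤ) : K) * θ ^ i) <
      v ((((p.F s).coeff j : ℤ) : K) * θ ^ j)) : False := by
  have h1 := v.map_sum_eq_of_lt (s := range (2 * p.k + 1))
    (f := fun i => (((p.F s).coeff i : ℤ) : K) * θ ^ i) (j := j)
    (mem_range.mpr (Nat.lt_succ_of_le hj)) (fun i hi => by
      obtain ⟨a, b⟩ := mem_sdiff.mp hi
      exact h i (Nat.lt_succ_iff.mp (mem_range.mp a)) (by simpa using b))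
  rw [sum_F p s hθ, map_zero] at h1
  exact h0 h1.symm

lemma v_F0 : v (((p.F s).coeff 0 : ℤ) : K) = v (p.r : K) ^ p.E0 := by
  have h := p.natAbs_coeff_F_zero s
  rcases Int.natAbs_eq ((p.F s).coeff 0) with h1 | h1 <;> rw [h1, h] <;> simp

lemma theta_ne [CharZero K] (hθ : aeval θ (p.F s) = 0) : θ ≠ 0 := by
  rintro rfl
  have h := p.natAbs_coeff_F_zero s
  have h1 : (((p.F s).coeff 0 : ℤ) : K) = 0 := by
    rw [← coeff_zero_eq_aeval_zero'] at hθ
    simpa using hθ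
  have h2 : (p.F s).coeff 0 = 0 := by exact_mod_cast h1
  rw [h2] at h
  exact pow_ne_zero _ p.hr.ne_zero h.symm

/-- away from `r` the inverse of a root is integral -/
lemma one_le (hθ : aeval θ (p.F s) = 0) (hr : v (p.r : K) = 1) : 1 ≤ v θ := by
  refine not_lt.mp fun hlt => not_dom v p s hθ 0 (Nat.zero_le _) ?_ fun i _ hi => ?_
  · simp [v_F0, hr]
  · rw [pow_zero, mul_one, v_F0, hr, one_pow, map_mul, map_pow]
    exact (mul_le_of_le_one_left' (v_int v _)).trans_lt (pow_lt_one₀ zero_le hlt hi)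

/-- one slope at `r` -/
lemma slope [CharZero K] (hθ : aeval θ (p.F s) = 0) (hr : v (p.r : K) < 1) :
    v θ ^ (2 * p.k) = v (p.r : K) ^ (p.E0 - p.e) := by
  have hθ0 : 0 < v θ := zero_lt_iff.mpr (by simpa using theta_ne p s hθ)
  have hr0 : 0 < v (p.r : K) := zero_lt_iff.mpr (by simpa using p.hr.ne_zero)
  obtain ⟨⟨c, hc⟩, h2, h3⟩ := p.slope_F s
  have hprime : Prime (p.r : ℤ) := Nat.prime_iff_prime_int.mp p.hr
  have hc1 : v (c : K) = 1 := by
    refine v_cop v (a := p.r) ((Prime.coprime_iff_not_dvd hprime).mpr fun h => h2 ?_)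
      (by simpa using hr)
    rw [hc, pow_succ]
    exact mul_dvd_mul_left _ h
  have htop : v (((p.F s).coeff (2 * p.k) : ℤ) : K) = v (p.r : K) ^ p.e := by
    rw [hc]
    simp [hc1]
  set n := 2 * p.k with hn
  set d := p.E0 - p.e with hd
  set ρ := v (p.r : K)
  have hi : ∀ i ≤ n, v ((((p.F s).coeff i : ℤ) : K) * θ ^ i) ^ n ≤
      ρ ^ (n * p.e) * ((ρ ^ d) ^ (n - i) * (v θ ^ n) ^ i) := by
    intro i hi
    have h4 := v_dvd v (h3 i hi)
    simp only [Int.cast_pow, map_pow, Int.cast_natCast] at h4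
    rw [map_mul, map_pow, mul_pow, ← mul_assoc, ← pow_mul ρ, ← pow_add, mul_comm d,
      ← pow_mul, ← pow_mul, mul_comm i]
    exact mul_le_mul_left h4 _
  have hne : 0 < ρ ^ (n * p.e) := pow_pos hr0 _
  rcases lt_trichotomy (v θ ^ n) (ρ ^ d) with h | h | h
  · exfalso
    refine not_dom v p s hθ 0 (Nat.zero_le _) ?_ fun i hi' hi0 => ?_
    · rw [pow_zero, mul_one, v_F0]
      exact (pow_pos hr0 _).ne'
    · refine lt_of_pow_lt_pow_left₀ n zero_le ((hi i hi').trans_lt ?_)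
      rw [pow_zero, mul_one, v_F0]
      have e1 : (ρ ^ p.E0) ^ n = ρ ^ (n * p.e) * ((ρ ^ d) ^ (n - i) * (ρ ^ d) ^ i) := by
        rw [← pow_add, Nat.sub_add_cancel hi', ← pow_mul, ← pow_mul, ← pow_add]
        congr 1
        have := p.hE
        have : p.E0 = p.e + d := by omega
        rw [this]
        ring
      rw [e1]
      exact mul_lt_mul_of_pos_left (mul_lt_mul_of_pos_left
        (pow_lt_pow_left₀ h zero_le hi0) (pow_pos (pow_pos hr0 _) _)) hne
  · exact h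
  · exfalso
    refine not_dom v p s hθ n le_rfl ?_ fun i hi' hi0 => ?_
    · rw [map_mul, htop, map_pow]
      exact (mul_pos (pow_pos hr0 _) (pow_pos hθ0 _)).ne'
    · refine lt_of_pow_lt_pow_left₀ n zero_le ((hi i hi').trans_lt ?_)
      rw [map_mul, htop, map_pow]
      have e1 : (ρ ^ p.e * v θ ^ n) ^ n =
          ρ ^ (n * p.e) * ((v θ ^ n) ^ (n - i) * (v θ ^ n) ^ i) := by
        rw [← pow_add, Nat.sub_add_cancel hi', mul_pow, ← pow_mul, mul_comm p.e]
      rw [e1]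
      exact mul_lt_mul_of_pos_left (mul_lt_mul_of_pos_right
        (pow_lt_pow_left₀ h zero_le (by omega)) (pow_pos (pow_pos hθ0 _) _)) hne

lemma val_r [CharZero K] (hθ : aeval θ (p.F s) = 0) (hr : v (p.r : K) < 1) {t : ℤ × ℤ}
    (ht : p.Adm t) : v ((t.2 : K) - t.1 * θ⁻¹) = (v θ)⁻¹ := by
  have hθ0 : 0 < v θ := zero_lt_iff.mpr (by simpa using theta_ne p s hθ)
  have ha : v (t.1 : K) = 1 := by
    refine v_cop v (a := p.r) ?_ (by simpa using hr)
    obtain ⟨c, hc⟩ := ht.r_dvd.1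
    exact ⟨-c, 1, by linear_combination hc⟩
  have h1 : v θ < 1 := by
    refine lt_of_pow_lt_pow_left₀ (2 * p.k) zero_le ?_
    rw [slope v p s hθ hr, one_pow]
    exact pow_lt_one₀ zero_le hr (by have := p.hE; omega)
  have h2 : v ((t.1 : K) * θ⁻¹) = (v θ)⁻¹ := by rw [map_mul, ha, one_mul, map_inv₀]
  rw [← h2]
  refine v.map_sub_eq_of_lt_right ?_
  rw [h2]
  exact (v_int v _).trans_lt ((one_lt_inv₀ hθ0).mpr h1)

lemma val_N [CharZero K] (hθ : aeval θ (p.F s) = 0) (hr : v (p.r : K) = 1) (t : ℤ × ℤ) :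
    v θ⁻¹ ≤ 1 ∧ v ((t.2 : K) - t.1 * θ⁻¹) ≤ 1 ∧ v (p.N s t : K) ≤ v ((t.2 : K) - t.1 * θ⁻¹) := by
  have hθ0 := theta_ne p s hθ
  have h1 : v θ⁻¹ ≤ 1 := by
    rw [map_inv₀]
    exact inv_le_one_of_one_le₀ (one_le v p s hθ hr)
  have h2 : v ((t.1 : K) * θ⁻¹) ≤ 1 := by
    rw [map_mul]
    exact mul_le_one' (v_int v _) h1
  refine ⟨h1, v.map_sub_le (v_int v _) h2, ?_⟩
  have h3 : (p.N s t : K) = ∑ i ∈ range (2 * p.k + 1), (((p.F s).coeff i * t.1 ^ i : ℤ) : K) *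
      ((t.2 : K) ^ (2 * p.k - i) - ((t.1 : K) * θ⁻¹) ^ (2 * p.k - i)) := by
    have h4 := sum_F p s hθ
    have h5 : ∑ i ∈ range (2 * p.k + 1), (((p.F s).coeff i * t.1 ^ i : ℤ) : K) *
        ((t.1 : K) * θ⁻¹) ^ (2 * p.k - i) = ((t.1 : K) * θ⁻¹) ^ (2 * p.k) *
        ∑ i ∈ range (2 * p.k + 1), (((p.F s).coeff i : ℤ) : K) * θ ^ i := by
      rw [mul_sum]
      refine sum_congr rfl fun i hi => ?_
      obtain ⟨j, hj⟩ := Nat.exists_eq_add_of_le (Nat.lt_succ_iff.mp (mem_range.mp hi))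
      have e : ((t.1 : K) * θ⁻¹) ^ i * θ ^ i = (t.1 : K) ^ i := by
        rw [← mul_pow, inv_mul_cancel_right₀ hθ0]
      rw [hj, Nat.add_sub_cancel_left, pow_add]
      push_cast
      rw [← e]
      ring
    simp only [mul_sub, sum_sub_distrib]
    rw [h5, h4, mul_zero, sub_zero, Par.N_eq_hev, hev]
    push_cast
    rfl
  rw [h3]
  refine v.map_sum_le fun i _ => ?_
  rw [map_mul]
  exact (mul_le_of_le_one_left' (v_int v _)).trans (v_pow_sub v (v_int v _) h2 _)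

lemma val_q {η : K} {q τ a b : ℤ} (hη : v η ≤ 1) (hb : v (b : K) = 1) (h : q ∣ a - τ * b)
    (hle : v (q : K) ≤ v ((b : K) - a * η)) :
    v ((b : K) - a * η) = max (v (1 - τ * η)) (v (q : K)) := by
  obtain ⟨m, hm⟩ := h
  have h1 : (b : K) - a * η = b * (1 - τ * η) - (q * m : ℤ) * η := by
    rw [← hm]
    push_cast
    ring
  have h2 : v ((b : K) * (1 - τ * η)) = v (1 - τ * η) := by rw [map_mul, hb, one_mul]
  have h3 : v (((q * m : ℤ) : K) * η) ≤ v (q : K) := by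
    rw [map_mul]
    exact (mul_le_of_le_one_right' hη).trans (v_dvd v (dvd_mul_right q m))
  rcases le_or_gt (v (1 - τ * η)) (v (q : K)) with h4 | h4
  · rw [max_eq_right h4]
    refine le_antisymm ?_ hle
    rw [h1]
    exact v.map_sub_le (h2.trans_le h4) h3
  · rw [max_eq_left h4.le, h1, v.map_sub_eq_of_lt_left (by rw [h2]; exact h3.trans_lt h4), h2]

end val

/-- the local contribution of a point -/
def gv {K : Type} [Field K] (v : Valuation K (WithZero (Multiplicative ℤ))) (η : K) (x : Pt) : ℝ :=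
  if v (x.1 : K) < 1 then ((-WithZero.log (max (v (1 - x.2.1 * η)) (v (x.1 : K))) : ℤ) : ℝ) else 0

lemma gv_zero {K : Type} [Field K] (v : Valuation K (WithZero (Multiplicative ℤ))) (η : K) {x : Pt}
    (h : v (x.1 : K) = 1) : gv v η x = 0 := if_neg (by rw [h]; exact lt_irrefl _)

lemma val_all {K : Type} [Field K] [CharZero K] (v : Valuation K (WithZero (Multiplicative ℤ)))
    (p : Par) (s : p.Co) {θ : K} (hθ : aeval θ (p.F s) = 0) {n : ℕ} {t : ℤ × ℤ} {x : Fin n → Pt}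
    (ht : p.Adm t) (hx : p.Good t s x) :
    ((-WithZero.log (v ((t.2 : K) - t.1 * θ⁻¹)) : ℤ) : ℝ) = ∑ i, gv v θ⁻¹ (x i) -
      ((p.E0 - p.e : ℕ) : ℝ) / (2 * p.k : ℕ) * ((-WithZero.log (v (p.r : K)) : ℤ) : ℝ) := by
  obtain ⟨h1, h2, h3⟩ := hx
  have cop : ∀ a b : ℕ, a.Prime → b.Prime → a ≠ b → v (a : K) < 1 → v (b : K) = 1 := by
    intro a b ha hb hab h
    have := v_cop v (a := a) (b := b)
      (Nat.isCoprime_iff_coprime.mpr ((Nat.coprime_primes ha hb).mpr hab)) (by simpa using h)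
    simpa using this
  rcases (v_nat v p.r).lt_or_eq with hr | hr
  · have h4 : ∑ i, gv v θ⁻¹ (x i) = 0 := by
      refine sum_eq_zero fun i _ => if_neg ?_
      rw [cop _ _ p.hr (h1 i).1.1 (h1 i).1.2.2.1.symm hr]
      exact lt_irrefl _
    have h5 := congrArg WithZero.log (slope v p s hθ hr)
    rw [WithZero.log_pow, WithZero.log_pow, nsmul_eq_mul, nsmul_eq_mul] at h5
    have h6 : ((2 * p.k : ℕ) : ℝ) * (WithZero.log (v θ) : ℤ) =
        ((p.E0 - p.e : ℕ) : ℝ) * (WithZero.log (v (p.r : K)) : ℤ) := by exact_mod_cast h5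
    have h7 : ((2 * p.k : ℕ) : ℝ) ≠ 0 := by
      have := p.hk
      exact_mod_cast (by omega : 2 * p.k ≠ 0)
    rw [val_r v p s hθ hr ht, h4, WithZero.log_inv, neg_neg, Int.cast_neg]
    field_simp
    linear_combination h6
  · obtain ⟨h4, h5, h6⟩ := val_N v p s hθ hr t
    have h7 : v (p.N s t : K) = ∏ i, v ((x i).1 : K) := by
      rw [h3]
      simp [hr]
    rw [hr, WithZero.log_one, neg_zero, Int.cast_zero, mul_zero, sub_zero]
    by_cases hq : ∃ i, v ((x i).1 : K) < 1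
    · obtain ⟨i, hi⟩ := hq
      have h8 : ∀ j, j ≠ i → v ((x j).1 : K) = 1 := fun j hj =>
        cop _ _ (h1 i).1.1 (h1 j).1.1 (fun h => hj (h2 h).symm) hi
      rw [h7, prod_eq_single i (fun j _ hj => h8 j hj) (by simp)] at h6
      have hb : v (t.2 : K) = 1 := v_cop v (a := (x i).1)
        ((Prime.coprime_iff_not_dvd (Nat.prime_iff_prime_int.mp (h1 i).1.1)).mpr (h1 i).2.1.2)
        (by simpa using hi)
      have h9 := val_q v h4 hb (h1 i).2.1.1 (by simpa using h6)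
      rw [Fintype.sum_eq_single i fun j hj => gv_zero v θ⁻¹ (h8 j hj), gv, if_pos hi, h9]
      simp
    · have h8 : ∀ j, v ((x j).1 : K) = 1 := fun j =>
        le_antisymm (v_nat v _) (not_lt.mp fun h => hq ⟨j, h⟩)
      rw [h7, prod_eq_one fun j _ => h8 j] at h6
      rw [le_antisymm h5 h6, sum_eq_zero fun j _ => gv_zero v θ⁻¹ (h8 j)]
      simp

lemma fin_supp {K : Type} [Field K] [NumberField K] (a : K) (ha : a ≠ 0) :
    {v : HeightOneSpectrum (𝓞 K) | v.valuation K a < 1}.Finite := by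
  refine (HeightOneSpectrum.Support.finite (𝓞 K) a⁻¹).subset fun v hv => ?_
  have h0 : 0 < v.valuation K a := zero_lt_iff.mpr (by simpa using ha)
  change 1 < v.valuation K a⁻¹
  rw [map_inv₀]
  exact (one_lt_inv₀ h0).mpr hv

/-- the contribution of one zero of the section -/
lemma field_part (hRep : S_Rep) (p : Par) (s : p.Co) (K : Type) [Field K] [NumberField K]
    (Φ : K → ℝ) (hΦ : ∀ a b, a ≠ 0 → b ≠ 0 → Φ (a * b) = Φ a + Φ b) (θ : K)
    (hθ : aeval θ (p.F s) = 0) :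
    ∃ (c : Pt → ℝ) (J : Type) (_ : Fintype J) (m : J → ℝ) (ϑ : J → ℂ),
      (∀ j, ϑ j ≠ 0 ∧ aeval (ϑ j) (p.FR s) = 0) ∧
      ∀ (n : ℕ) (t : ℤ × ℤ) (x : Fin n → Pt), p.Adm t → p.Good t s x →
        Φ (t.2 * θ - t.1) = Φ θ + ∑ i, c (x i) +
          ∑ j, m j * Real.log ‖1 - (((t.1 : ℝ) / t.2 : ℝ) : ℂ) / ϑ j‖ -
          ((p.E0 - p.e : ℕ) : ℝ) / (2 * p.k : ℕ) * Φ p.r := by
  obtain ⟨c, γ, hγ, hc⟩ := hRep K Φ hΦ
  have hθ0 := theta_ne p s hθ
  refine ⟨fun x => ∑ᶠ v, c v * gv (v.valuation K) θ⁻¹ x, InfinitePlace K, inferInstance, γ,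
    fun w => w.embedding θ, fun w => ⟨by simpa using hθ0, ?_⟩, fun n t x ht hx => ?_⟩
  · have h1 : aeval (w.embedding θ) (p.FR s) = aeval (w.embedding θ) (p.F s) := by
      have := aeval_map_algebraMap ℝ (w.embedding θ) (p.F s)
      rwa [algebraMap_int_eq] at this
    have h2 := aeval_algHom_apply (w.embedding).toIntAlgHom θ (p.F s)
    rw [hθ, map_zero] at h2
    exact h1.trans h2
  · set ν : ℝ := ((p.E0 - p.e : ℕ) : ℝ) / (2 * p.k : ℕ)
    have hb : (t.2 : K) ≠ 0 := by exact_mod_cast ht.1.ne'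
    have hr : (p.r : K) ≠ 0 := by exact_mod_cast p.hr.ne_zero
    have e1 : (t.2 : K) * θ - t.1 = θ * (t.2 - t.1 * θ⁻¹) := by field_simp
    have hne : (t.2 : K) - t.1 * θ⁻¹ ≠ 0 := by
      intro h0
      rw [h0, mul_zero] at e1
      have h1 := p.N_cast (R := K) (t := t) (τ := θ) s (by linear_combination -e1)
      rw [hθ, mul_zero] at h1
      exact (ht.N_pos s).ne' (by exact_mod_cast h1)
    rw [e1, hΦ _ _ hθ0 hne, hc _ hne, hc _ hr]
    -- archimedean part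
    have a1 : ∑ w, γ w * Real.log (w ((t.2 : K) - t.1 * θ⁻¹)) =
        ∑ w : InfinitePlace K,
          γ w * Real.log ‖1 - (((t.1 : ℝ) / t.2 : ℝ) : ℂ) / w.embedding θ‖ := by
      have hb' : (0 : ℝ) < t.2 := by exact_mod_cast ht.1
      have : ∀ w : InfinitePlace K, γ w * Real.log (w ((t.2 : K) - t.1 * θ⁻¹)) =
          γ w * Real.log t.2 +
            γ w * Real.log ‖1 - (((t.1 : ℝ) / t.2 : ℝ) : ℂ) / w.embedding θ‖ := by
        intro w
        have hb'' : ((t.2 : ℝ) : ℂ) ≠ 0 := by exact_mod_cast ht.1.ne'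
        have h1 : w.embedding ((t.2 : K) - t.1 * θ⁻¹) =
            ((t.2 : ℝ) : ℂ) * (1 - (((t.1 : ℝ) / t.2 : ℝ) : ℂ) / w.embedding θ) := by
          have : ((t.2 : ℤ) : ℂ) ≠ 0 := by exact_mod_cast ht.1.ne'
          simp only [map_sub, map_mul, map_intCast, map_inv₀]
          push_cast
          field_simp
        have h2 : (1 - (((t.1 : ℝ) / t.2 : ℝ) : ℂ) / w.embedding θ) ≠ 0 := by
          intro h0
          rw [h0, mul_zero] at h1
          exact hne (by simpa only [map_eq_zero] using h1)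
        rw [← w.norm_embedding_eq, h1, norm_mul, Complex.norm_real, Real.norm_of_nonneg hb'.le,
          Real.log_mul hb'.ne' (norm_ne_zero_iff.mpr h2), mul_add]
      rw [sum_congr rfl fun w _ => this w, sum_add_distrib, ← sum_mul, hγ, zero_mul, zero_add]
    have a2 : ∑ w, γ w * Real.log (w (p.r : K)) = 0 := by
      have : ∀ w : InfinitePlace K, γ w * Real.log (w (p.r : K)) = γ w * Real.log p.r := by
        intro w
        rw [← w.norm_embedding_eq]
        simp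
      rw [sum_congr rfl fun w _ => this w, ← sum_mul, hγ, zero_mul]
    -- finite part
    have hq : ∀ i, ((x i).1 : K) ≠ 0 := fun i => by exact_mod_cast (hx.1 i).1.1.ne_zero
    set S := (fin_supp _ hr).toFinset ∪ univ.biUnion fun i => (fin_supp _ (hq i)).toFinset
    have g0 : ∀ v ∉ S, (∀ i, gv (v.valuation K) θ⁻¹ (x i) = 0) ∧
        ((-WithZero.log (v.valuation K (p.r : K)) : ℤ) : ℝ) = 0 := by
      intro v hv
      simp only [S, mem_union, Set.Finite.mem_toFinset, mem_biUnion, mem_univ, true_and, not_or,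
        not_exists, Set.mem_ofPred_eq] at hv
      refine ⟨fun i => if_neg (hv.2 i), ?_⟩
      rw [le_antisymm (v_nat _ p.r) (not_lt.mp hv.1)]
      simp
    have fs : ∀ G : HeightOneSpectrum (𝓞 K) → ℝ, (∀ v ∉ S, G v = 0) →
        ∑ᶠ v, c v * G v = ∑ v ∈ S, c v * G v := by
      intro G hG
      refine finsum_eq_sum_of_support_subset _ fun v hv => ?_
      by_contra h
      exact hv (by simp [hG v h])
    have f1 := fs (fun v => ((-WithZero.log (v.valuation K ((t.2 : K) - t.1 * θ⁻¹)) : ℤ) : ℝ))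
      (fun v hv => by
        rw [val_all _ p s hθ ht hx, (g0 v hv).2, sum_eq_zero fun i _ => (g0 v hv).1 i]
        simp)
    have f2 := fs (fun v => ((-WithZero.log (v.valuation K (p.r : K)) : ℤ) : ℝ))
      (fun v hv => (g0 v hv).2)
    have f3 : ∀ i, ∑ᶠ v, c v * gv (v.valuation K) θ⁻¹ (x i) =
        ∑ v ∈ S, c v * gv (v.valuation K) θ⁻¹ (x i) := fun i =>
      fs (fun v => gv (v.valuation K) θ⁻¹ (x i)) (fun v hv => (g0 v hv).1 i)
    rw [a1, a2, f1, f2, sum_congr rfl fun i _ => f3 i, sum_comm]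
    have f4 : ∑ v ∈ S, c v * ((-WithZero.log (v.valuation K ((t.2 : K) - t.1 * θ⁻¹)) : ℤ) : ℝ) =
        ∑ v ∈ S, ∑ i, c v * gv (v.valuation K) θ⁻¹ (x i) -
          ν * ∑ v ∈ S, c v * ((-WithZero.log (v.valuation K (p.r : K)) : ℤ) : ℝ) := by
      rw [mul_sum, ← sum_sub_distrib]
      refine sum_congr rfl fun v _ => ?_
      rw [val_all _ p s hθ ht hx, ← mul_sum]
      ring
    rw [f4]
    ring

end C2P

open C2P in
theorem p_c2 (hA1 : S_A1) (hRep : S_Rep) (hArch : S_Arch) : S_C2 := by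
  intro A _ _ M p φ hf hφ s
  obtain ⟨hD, hfd, -, hP0, -⟩ := hA1 ℚ A M.toQuad
  have hnm : M.toQuad.nm (M.sec p s) = (p.F s).map (Int.castRingHom ℚ) := by
    rw [Model.sec, Quad.nm_el, Par.F, nrm, ← M.hfz, ← hf]
    simp
  have hF0 : p.F s ≠ 0 := fun h => p.coeff_F_top_ne s (by rw [h, coeff_zero])
  have hσ : M.sec p s ≠ 0 := by
    intro h
    rw [M.toQuad.nm_eq_zero.mpr h, eq_comm,
      Polynomial.map_eq_zero_iff (RingHom.injective_int _)] at hnm
    exact hF0 hnm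
  have hmem : ∀ P : MaximalSpectrum A, M.sec p s ∈ P.asIdeal → aeval M.x (p.F s) ∈ P.asIdeal := by
    intro P hP
    have h1 := M.toQuad.mul_conj (M.sec p s)
    have h2 := aeval_map_algebraMap ℚ M.x (p.F s)
    rw [algebraMap_int_eq] at h2
    rw [hnm, h2] at h1
    rw [← h1]
    exact Ideal.mul_mem_right _ _ hP
  have key : ∀ P : zs (M.sec p s), ∃ (c : Pt → ℝ) (J : Type) (_ : Fintype J) (m : J → ℝ)
      (ϑ : J → ℂ), (∀ j, ϑ j ≠ 0 ∧ aeval (ϑ j) (p.FR s) = 0) ∧ M.x ∉ P.1.asIdeal ∧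
      ∀ (n : ℕ) (t : ℤ × ℤ) (x : Fin n → Pt), p.Adm t → p.Good t s x →
        φ P (M.fib t) = φ P M.x + ∑ i, c (x i) +
          ∑ j, m j * Real.log ‖1 - (((t.1 : ℝ) / t.2 : ℝ) : ℂ) / ϑ j‖ -
          ((p.E0 - p.e : ℕ) : ℝ) / (2 * p.k : ℕ) * φ P (p.r : A) := by
    rintro ⟨P, hP⟩
    have hP' := hmem P ((mem_zs hσ).mp hP)
    have := P.isMaximal
    let _ := Ideal.Quotient.field P.asIdeal
    have := hfd P.asIdeal (hP0 P)
    have : NumberField (A ⧸ P.asIdeal) := NumberField.of_module_finite ℚ _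
    have hsurj := Ideal.Quotient.mk_surjective (I := P.asIdeal)
    let Φ : A ⧸ P.asIdeal → ℝ := fun z => φ P (hsurj z).choose
    have hΦ : ∀ h, Φ (Ideal.Quotient.mk P.asIdeal h) = φ P h := by
      intro h
      apply hφ.congr
      rw [← Ideal.Quotient.eq_zero_iff_mem, map_sub, (hsurj _).choose_spec, sub_self]
    have hΦmul : ∀ a b, a ≠ 0 → b ≠ 0 → Φ (a * b) = Φ a + Φ b := by
      intro a b ha hb
      obtain ⟨a, rfl⟩ := hsurj a
      obtain ⟨b, rfl⟩ := hsurj b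
      rw [← map_mul, hΦ, hΦ, hΦ]
      exact hφ.mul _ _ _ (by rwa [← Ideal.Quotient.eq_zero_iff_mem])
        (by rwa [← Ideal.Quotient.eq_zero_iff_mem])
    have hθ : aeval (Ideal.Quotient.mk P.asIdeal M.x) (p.F s) = 0 := by
      have h2 := aeval_algHom_apply (Ideal.Quotient.mk P.asIdeal).toIntAlgHom M.x (p.F s)
      exact h2.trans (Ideal.Quotient.eq_zero_iff_mem.mpr hP')
    obtain ⟨c, J, _, m, ϑ, h1, h2⟩ := field_part hRep p s _ Φ hΦmul _ hθ
    refine ⟨c, J, inferInstance, m, ϑ, h1, ?_, fun n t x ht hx => ?_⟩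
    · rw [← Ideal.Quotient.eq_zero_iff_mem]
      exact theta_ne p s hθ
    · have h3 := h2 n t x ht hx
      rw [hΦ] at h3
      rw [← hΦ (M.fib t), ← hΦ (p.r : A), Model.fib]
      simpa only [map_sub, map_mul, map_intCast, map_natCast] using h3
  choose c J hJ m ϑ h1 h2 h3 using key
  have hFR : p.FR s ≠ 0 := by
    rw [Par.FR, Ne, Polynomial.map_eq_zero_iff (RingHom.injective_int _)]
    exact hF0
  obtain ⟨Q, q1, q2, q3⟩ := hArch (Σ P, J P) (fun j => (ord j.1.1 (M.sec p s) : ℝ) * m j.1 j.2)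
    (fun j => ϑ j.1 j.2) (p.FR s) hFR (fun j => h1 j.1 j.2)
  refine ⟨fun x => ∑ P : zs (M.sec p s), (ord P.1 (M.sec p s) : ℝ) * c P x, Q, _,
    q1.trans (Nat.sub_le_sub_right (p.natDegree_FR s) 1), q2, q3, fun n t x ht hx => ?_⟩
  have ps : ∀ h, pair φ (M.sec p s) h =
      ∑ P : zs (M.sec p s), (ord P.1 (M.sec p s) : ℝ) * φ P h := fun h => by
    rw [pair_eq_sum_zs φ hσ, ← sum_coe_sort]
  have b1 : pair φ (M.sec p s) (p.r : A) = 0 := by
    refine hφ.pair_unit_right hσ ?_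
    have : IsUnit (p.r : ℚ) := isUnit_iff_ne_zero.mpr (by exact_mod_cast p.hr.ne_zero)
    simpa using this.map (algebraMap ℚ A)
  have b2 : pair φ (M.sec p s) M.x = M.beta p φ := by
    rw [hφ.recip _ _ hσ M.toQuad.x_ne_zero
      (isCoprime_of_forall fun P hP => h2 ⟨P, (mem_zs hσ).mpr hP⟩), Model.beta]
    refine hφ.pair_congr_right ?_
    have e1 : ((p.g0.coeff 0 : ℤ) : A) + ((p.c0.coeff 0 : ℤ) : A) * M.y =
        M.el (C (p.g0.coeff 0 : ℚ)) (C (p.c0.coeff 0 : ℚ)) := by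
      rw [Quad.el_C_C]
      simp
    have e2 := (M.toQuad.aeval_dvd_el (q := X)
      (g := (p.gp s).map (Int.castRingHom ℚ) - C (p.g0.coeff 0 : ℚ))
      (c := (p.cp s).map (Int.castRingHom ℚ) - C (p.c0.coeff 0 : ℚ))).mpr
      ⟨by rw [X_dvd_iff]; simp [Par.coeff_gp_zero], by rw [X_dvd_iff]; simp [Par.coeff_cp_zero]⟩
    rw [aeval_X] at e2
    rw [e1, Model.sec, Quad.el_sub]
    exact e2
  rw [ps] at b1 b2
  rw [ps, ← b2, Fintype.sum_sigma, sum_comm, ← sum_add_distrib, ← sum_add_distrib]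
  refine Eq.trans ?_ (sub_zero _)
  rw [← mul_zero (((p.E0 - p.e : ℕ) : ℝ) / (2 * p.k : ℕ)), ← b1, mul_sum, ← sum_sub_distrib]
  refine sum_congr rfl fun P _ => ?_
  rw [h3 P n t x ht hx, ← mul_sum]
  simp only [mul_assoc]
  rw [← mul_sum]
  ring

end

end Pool.Agent.P.MP_b8021b_nt.VE
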