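import Pool.Agent.P.MP_b8021b_nt.VE.StN
import Pool.Agent.P.MP_79de8b_nt.W2

/-! N1: the number of points modulo a prime, from the Stepanov bound. -/

namespace Pool.Agent.P.MP_b8021b_nt.VE

open Polynomial Finset
open scoped Classical

namespace Card

lemma exists_bezout (f : ℤ[X]) (hd : f.natDegree = 3)
    (hs : (f.map (Int.castRingHom ℚ)).Separable) :
    ∃ (a b : ℤ[X]) (d : ℤ), d ≠ 0 ∧ f * a + derivative f * b = C d := by
  obtain ⟨a, b, -, -, h⟩ := exists_mul_add_mul_eq_C_resultant (f := f) (g := derivative f)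
    (m := f.natDegree) (n := (derivative f).natDegree) le_rfl le_rfl (Or.inl (by omega))
  refine ⟨a, b, _, ?_, h⟩
  intro h0
  have h1 := resultant_ne_zero _ _ hs
  apply h1
  have hi : Function.Injective (Int.castRingHom ℚ) := Int.cast_injective
  rw [derivative_map, natDegree_map_eq_of_injective hi, natDegree_map_eq_of_injective hi,
    resultant_map_map, h0, map_zero]

lemma sep_scale {F : Type} [Field F] {f : F[X]} (hs : f.Separable) {a : F} (ha : a ≠ 0) (u : F)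
    (hu : u ≠ 0) : (C u * f.comp (C a * X)).Separable := by
  obtain ⟨s, t, h⟩ := hs
  refine ⟨C u⁻¹ * s.comp (C a * X), C (u⁻¹ * a⁻¹) * t.comp (C a * X), ?_⟩
  have h2 := congrArg (fun p => p.comp (C a * X)) h
  simp only [add_comp, mul_comp, one_comp] at h2
  have e1 : C u⁻¹ * C u = (1 : F[X]) := by rw [← C_mul, inv_mul_cancel₀ hu, C_1]
  have e2 : C a⁻¹ * C a = (1 : F[X]) := by rw [← C_mul, inv_mul_cancel₀ ha, C_1]
  simp only [derivative_mul, derivative_C, zero_mul, zero_add, derivative_comp, derivative_X,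
    mul_one, C_mul]
  linear_combination h2 + (s.comp (C a * X) * f.comp (C a * X)
    + t.comp (C a * X) * (derivative f).comp (C a * X) * (C a⁻¹ * C a)) * e1
    + t.comp (C a * X) * (derivative f).comp (C a * X) * e2

lemma res_bound : ∃ K : ℝ, ∀ (F : Type) [Field F] [Fintype F] [DecidableEq F] (f : F[X]),
    ringChar F ≠ 2 → f.Monic → f.natDegree = 3 → f.Separable → f.eval 0 ≠ 0 →
    |((univ.filter fun x : F => f.eval x ≠ 0 ∧ IsSquare (f.eval x)).card : ℝ) -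
      Fintype.card F / 2| ≤ K * Real.sqrt (Fintype.card F) := by
  obtain ⟨K, hK⟩ := MR.w2 3
  refine ⟨K, fun F _ _ _ f hF hm hd hs h0 => ?_⟩
  have hodd : Odd (Fintype.card F) := Nat.odd_iff.2 (FiniteField.odd_card_of_char_ne_two hF)
  have hc : (Fintype.card F - 1) / 2 = Fintype.card F / 2 := by
    obtain ⟨k, hk⟩ := hodd
    omega
  have h1 := hK F f hodd hm hd (by omega) hs h0
  obtain ⟨a, ha⟩ := FiniteField.exists_nonsquare hF
  have ha0 : a ≠ 0 := fun e => ha (e ▸ IsSquare.zero)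
  have hai : a⁻¹ ≠ 0 := inv_ne_zero ha0
  set g : F[X] := C (a ^ 3) * f.comp (C a⁻¹ * X) with hg
  have hdl : (C a⁻¹ * X : F[X]).natDegree = 1 := natDegree_C_mul_X _ hai
  have hgd : g.natDegree = 3 := by
    rw [hg, natDegree_C_mul (pow_ne_zero 3 ha0), natDegree_comp, hd, hdl]
  have hgm : g.Monic := by
    rw [Monic, hg, leadingCoeff_mul, leadingCoeff_C, leadingCoeff_comp (by omega), hm.leadingCoeff,
      leadingCoeff_C_mul_X, hd]
    field_simp
  have hge : ∀ x, g.eval (a * x) = a ^ 3 * f.eval x := fun x => by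
    simp [hg, eval_comp, ← mul_assoc, inv_mul_cancel₀ ha0]
  have hg0 : g.eval 0 ≠ 0 := by
    have := hge 0
    rw [mul_zero] at this
    rw [this]
    exact mul_ne_zero (pow_ne_zero 3 ha0) h0
  have h2 := hK F g hodd hgm hgd (by omega) (sep_scale hs hai _ (pow_ne_zero 3 ha0)) hg0
  rw [hc] at h1 h2
  have hap : a ^ (Fintype.card F / 2) = -1 :=
    (FiniteField.pow_dichotomy hF ha0).resolve_left
      fun e => ha ((FiniteField.isSquare_iff hF ha0).2 e)
  set R := univ.filter fun x : F => f.eval x ≠ 0 ∧ IsSquare (f.eval x) with hR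
  have u1 : R.card ≤ (univ.filter fun x : F =>
      f.eval x = 0 ∨ f.eval x ^ (Fintype.card F / 2) = 1).card := by
    refine card_le_card fun x hx => ?_
    obtain ⟨-, b1, b2⟩ := mem_filter.1 hx
    exact mem_filter.2 ⟨mem_univ _, Or.inr ((FiniteField.isSquare_iff hF b1).1 b2)⟩
  have u2 : Rᶜ.card ≤ (univ.filter fun x : F =>
      g.eval x = 0 ∨ g.eval x ^ (Fintype.card F / 2) = 1).card := by
    refine card_le_card_of_injOn (fun x => a * x) (fun x hx => ?_)
      (fun x _ y _ e => mul_left_cancel₀ ha0 e)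
    have hx : ¬ (f.eval x ≠ 0 ∧ IsSquare (f.eval x)) := by simpa [hR] using hx
    refine mem_coe.2 (mem_filter.2 ⟨mem_univ _, ?_⟩)
    rw [hge]
    by_cases b1 : f.eval x = 0
    · exact Or.inl (by rw [b1, mul_zero])
    · have b2 : f.eval x ^ (Fintype.card F / 2) = -1 :=
        (FiniteField.pow_dichotomy hF b1).resolve_left
          fun e => hx ⟨b1, (FiniteField.isSquare_iff hF b1).2 e⟩
      right
      rw [mul_pow, ← pow_mul, mul_comm 3, pow_mul, hap, b2]
      norm_num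
  have u3 : R.card + Rᶜ.card = Fintype.card F := card_add_card_compl R
  have u1' := (Nat.cast_le (α := ℝ)).2 u1
  have u2' := (Nat.cast_le (α := ℝ)).2 u2
  have u3' : (R.card : ℝ) + Rᶜ.card = Fintype.card F := by exact_mod_cast u3
  rw [abs_le]
  constructor <;> linarith

lemma pts {F : Type} [Field F] [Fintype F] [DecidableEq F] (hF : ringChar F ≠ 2) (f : F[X]) :
    |((univ.filter fun z : F × F => z.1 ≠ 0 ∧ z.2 ≠ 0 ∧ z.2 ^ 2 = f.eval z.1).card : ℝ) -
      2 * (univ.filter fun x : F => f.eval x ≠ 0 ∧ IsSquare (f.eval x)).card| ≤ 2 := by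
  set R := univ.filter fun x : F => f.eval x ≠ 0 ∧ IsSquare (f.eval x) with hR
  have h1 : (univ.filter fun z : F × F => z.1 ≠ 0 ∧ z.2 ≠ 0 ∧ z.2 ^ 2 = f.eval z.1).card =
      ∑ x ∈ R.erase 0, 2 := by
    rw [card_eq_sum_card_fiberwise (f := Prod.fst) (t := R.erase 0)]
    · refine sum_congr rfl fun x hx => ?_
      obtain ⟨hx0, hx⟩ := mem_erase.1 hx
      obtain ⟨-, b1, w, hw⟩ := mem_filter.1 hx
      have hw0 : w ≠ 0 := fun e => b1 (by rw [hw, e, mul_zero])
      have hne : w ≠ -w := fun e => hw0 ((Ring.eq_self_iff_eq_zero_of_char_ne_two hF).1 e.symm)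
      refine Eq.trans (congrArg card ?_)
        (card_pair (show (x, w) ≠ (x, -w) from fun e => hne (Prod.mk.inj e).2))
      ext ⟨s, t⟩
      simp only [mem_filter, mem_univ, true_and, mem_insert, mem_singleton, Prod.mk.injEq]
      constructor
      · rintro ⟨⟨-, -, c⟩, rfl⟩
        rw [hw, ← sq] at c
        rcases sq_eq_sq_iff_eq_or_eq_neg.1 c with e | e
        · exact Or.inl ⟨rfl, e⟩
        · exact Or.inr ⟨rfl, e⟩
      · rintro (⟨rfl, rfl⟩ | ⟨rfl, rfl⟩)
        · exact ⟨⟨hx0, hw0, by rw [hw, sq]⟩, rfl⟩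
        · exact ⟨⟨hx0, neg_ne_zero.2 hw0, by rw [hw]; ring⟩, rfl⟩
    · rintro ⟨s, t⟩ hz
      obtain ⟨-, c1, c2, c3⟩ := mem_filter.1 (mem_coe.1 hz)
      refine mem_coe.2 (mem_erase.2 ⟨c1, mem_filter.2 ⟨mem_univ _, ?_, t, ?_⟩⟩)
      · rw [← c3]; exact pow_ne_zero 2 c2
      · rw [← c3, sq]
  rw [h1, sum_const, smul_eq_mul]
  have a1 : (R.erase 0).card ≤ R.card := card_erase_le
  have a2 : R.card ≤ (R.erase 0).card + 1 := by
    have := pred_card_le_card_erase (s := R) (a := 0)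
    omega
  have a1' := (Nat.cast_le (α := ℝ)).2 a1
  have a2' : (R.card : ℝ) ≤ (R.erase 0).card + 1 := by exact_mod_cast a2
  push_cast
  rw [abs_le]
  constructor <;> linarith

end Card

theorem p_card : S_Card := by
  intro p
  obtain ⟨hm, hd, hs, h0⟩ := p.hf
  obtain ⟨a, b, d, hd0, hab⟩ := Card.exists_bezout p.f hd hs
  obtain ⟨K, hK⟩ := Card.res_bound
  set D : ℕ := (d * p.f.coeff 0).natAbs with hD
  have hD0 : 0 < D := Int.natAbs_pos.2 (mul_ne_zero hd0 h0)
  refine ⟨2 * |K| + 2 + (D : ℝ) ^ 2, fun q hq hq2 hqr => ?_⟩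
  have hq1 : (1 : ℝ) ≤ q := by exact_mod_cast hq.one_le
  have hp1 : (1 : ℝ) ≤ (q : ℝ) ^ (3 / 4 : ℝ) := Real.one_le_rpow hq1 (by norm_num)
  have hK0 : 0 ≤ |K| := abs_nonneg K
  set N := ((range q ×ˢ range q).filter fun a => p.IsPt (q, a)).card with hN
  by_cases hdv : (q : ℤ) ∣ d * p.f.coeff 0
  · have h1 : q ≤ D := Nat.le_of_dvd hD0 (Int.natCast_dvd.1 hdv)
    have h2 : N ≤ q * q := (card_filter_le _ _).trans (by simp)
    have h1' : (q : ℝ) ≤ D := by exact_mod_cast h1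
    have h2' : (N : ℝ) ≤ q * q := by exact_mod_cast h2
    have h3 : (0 : ℝ) ≤ N := Nat.cast_nonneg _
    have h4 : |(N : ℝ) - q| ≤ (D : ℝ) ^ 2 := by
      rw [abs_le]
      constructor <;> nlinarith
    have h5 : (0 : ℝ) ≤ (D : ℝ) ^ 2 := sq_nonneg _
    nlinarith
  have : Fact q.Prime := ⟨hq⟩
  have hF : ringChar (ZMod q) ≠ 2 := by rwa [ZMod.ringChar_zmod_n]
  set f := p.f.map (Int.castRingHom (ZMod q)) with hf
  have hdq : (d : ZMod q) ≠ 0 := fun e =>
    hdv (((ZMod.intCast_zmod_eq_zero_iff_dvd d q).1 e).mul_right _)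
  have h0q : ((p.f.coeff 0 : ℤ) : ZMod q) ≠ 0 := fun e =>
    hdv (((ZMod.intCast_zmod_eq_zero_iff_dvd _ q).1 e).mul_left _)
  have hsep : f.Separable := by
    have h := congrArg (Polynomial.map (Int.castRingHom (ZMod q))) hab
    simp only [Polynomial.map_add, Polynomial.map_mul, map_C, ← derivative_map, ← hf] at h
    refine ⟨C (d : ZMod q)⁻¹ * a.map (Int.castRingHom (ZMod q)),
      C (d : ZMod q)⁻¹ * b.map (Int.castRingHom (ZMod q)), ?_⟩
    have e1 : C (d : ZMod q)⁻¹ * C (Int.castRingHom (ZMod q) d) = (1 : (ZMod q)[X]) := by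
      rw [← C_mul, eq_intCast, inv_mul_cancel₀ hdq, C_1]
    linear_combination C (d : ZMod q)⁻¹ * h + e1
  have hev : ∀ x : ℤ, f.eval (x : ZMod q) = ((p.f.eval x : ℤ) : ZMod q) := fun x => by
    rw [hf, eval_intCast_map]; simp
  have hb := hK (ZMod q) f hF (hm.map _) (by rw [hf, hm.natDegree_map, hd]) hsep (by
    rw [← coeff_zero_eq_eval_zero, hf, coeff_map]; exact h0q)
  have hc := Card.pts hF f
  have hNe : N = (univ.filter fun z : ZMod q × ZMod q =>
      z.1 ≠ 0 ∧ z.2 ≠ 0 ∧ z.2 ^ 2 = f.eval z.1).card := by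
    have hz : ∀ x : ℕ, 0 < x → x < q → (x : ZMod q) ≠ 0 := fun x h1 h2 e =>
      absurd (Nat.le_of_dvd h1 ((ZMod.natCast_eq_zero_iff x q).1 e)) (by omega)
    have hiff : ∀ x y : ℕ, (q : ℤ) ∣ (y : ℤ) ^ 2 - p.f.eval (x : ℤ) ↔
        (y : ZMod q) ^ 2 = f.eval (x : ZMod q) := fun x y => by
      rw [← ZMod.intCast_zmod_eq_zero_iff_dvd, ← sub_eq_zero (a := (y : ZMod q) ^ 2)]
      have := hev x
      push_cast at this ⊢
      rw [this]
    refine card_bij (fun a _ => ((a.1 : ZMod q), (a.2 : ZMod q))) ?_ ?_ ?_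
    · rintro ⟨x, y⟩ h
      obtain ⟨-, -, -, -, c1, c2, c3, c4, c5⟩ := mem_filter.1 h
      exact mem_filter.2 ⟨mem_univ _, hz x c1 c2, hz y c3 c4, (hiff x y).1 c5⟩
    · rintro ⟨x, y⟩ h ⟨x', y'⟩ h' e
      obtain ⟨-, -, -, -, -, c2, -, c4, -⟩ := mem_filter.1 h
      obtain ⟨-, -, -, -, -, c2', -, c4', -⟩ := mem_filter.1 h'
      obtain ⟨e1, e2⟩ := Prod.mk.inj e
      have e1' := congrArg ZMod.val e1
      have e2' := congrArg ZMod.val e2
      simp only at c2 c4 c2' c4'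
      rw [ZMod.val_cast_of_lt c2, ZMod.val_cast_of_lt c2'] at e1'
      rw [ZMod.val_cast_of_lt c4, ZMod.val_cast_of_lt c4'] at e2'
      exact Prod.ext e1' e2'
    · rintro ⟨s, t⟩ h
      obtain ⟨-, c1, c2, c3⟩ := mem_filter.1 h
      refine ⟨(s.val, t.val), mem_filter.2 ⟨mem_product.2 ⟨mem_range.2 (ZMod.val_lt s),
        mem_range.2 (ZMod.val_lt t)⟩, hq, hq2, hqr, ZMod.val_pos.2 c1, ZMod.val_lt s,
        ZMod.val_pos.2 c2, ZMod.val_lt t, (hiff _ _).2 (by simpa using c3)⟩, by simp⟩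
  rw [ZMod.card] at hb
  rw [← hNe] at hc
  have hs1 : Real.sqrt q ≤ (q : ℝ) ^ (3 / 4 : ℝ) := by
    rw [Real.sqrt_eq_rpow]
    exact Real.rpow_le_rpow_of_exponent_le hq1 (by norm_num)
  have hs2 : K * Real.sqrt q ≤ |K| * (q : ℝ) ^ (3 / 4 : ℝ) :=
    (mul_le_mul_of_nonneg_right (le_abs_self K) (Real.sqrt_nonneg _)).trans
      (mul_le_mul_of_nonneg_left hs1 hK0)
  have h5 : (0 : ℝ) ≤ (D : ℝ) ^ 2 * (q : ℝ) ^ (3 / 4 : ℝ) := by positivity
  rw [abs_le] at hb hc ⊢
  constructor <;> nlinarith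

end Pool.Agent.P.MP_b8021b_nt.VE
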