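import Pool.Agent.P.MP_b8021b_nt.VE.StN

/-! N11: the class number bound. -/

namespace Pool.Agent.P.MP_b8021b_nt.VE

open NumberField Finset

namespace Cl

/-- a submultiplicative function weighted by the number of divisors -/
theorem conv (f : ℕ → ℝ) (hf : ∀ a b, f (a * b) ≤ f a * f b) (X : ℕ) :
    ∑ m ∈ Ioc 0 X, (m.divisors.card : ℝ) * f m ≤
      ∑ a ∈ Ioc 0 X, f a * ∑ b ∈ Ioc 0 (X / a), f b := by
  let g : ArithmeticFunction ℝ := ⟨fun n => if n = 0 then 0 else f n, by simp⟩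
  have hg : ∀ n, 0 < n → g n = f n := fun n hn => if_neg hn.ne'
  calc _ ≤ ∑ m ∈ Ioc 0 X, (g * g) m := sum_le_sum fun m _ => by
        have hc : m.divisors.card = m.divisorsAntidiagonal.card := by
          rw [← Nat.map_div_right_divisors, card_map]
        rw [ArithmeticFunction.mul_apply, hc, ← nsmul_eq_mul]
        refine card_nsmul_le_sum _ _ _ fun x hx => ?_
        obtain ⟨h1, h2⟩ := Nat.mem_divisorsAntidiagonal.1 hx
        rw [← h1] at h2 ⊢
        rw [hg _ (Nat.pos_of_ne_zero (left_ne_zero_of_mul h2)),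
          hg _ (Nat.pos_of_ne_zero (right_ne_zero_of_mul h2))]
        exact hf _ _
    _ = _ := by
        rw [ArithmeticFunction.sum_Ioc_mul_eq_sum_sum]
        refine sum_congr rfl fun a ha => ?_
        rw [hg a (mem_Ioc.1 ha).1, sum_congr rfl fun b hb => hg b (mem_Ioc.1 hb).1]

theorem harm {X Y : ℕ} (h : Y ≤ X) : ∑ a ∈ Ioc 0 Y, (a : ℝ)⁻¹ ≤ 1 + Real.log X := by
  have h1 := harmonic_le_one_add_log X
  rw [harmonic_eq_sum_Icc] at h1
  push_cast at h1
  refine le_trans (sum_le_sum_of_subset_of_nonneg (fun a ha => ?_) fun _ _ _ => by positivity) h1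
  have := mem_Ioc.1 ha
  exact mem_Icc.2 ⟨by omega, by omega⟩

theorem tau1 {X Y : ℕ} (h : Y ≤ X) :
    ∑ m ∈ Ioc 0 Y, (m.divisors.card : ℝ) ≤ Y * (1 + Real.log X) := by
  have h1 := conv (fun _ => 1) (fun _ _ => by simp) Y
  simp only [mul_one, one_mul, sum_const, Nat.card_Ioc, tsub_zero, nsmul_eq_mul] at h1
  refine h1.trans (le_trans ?_ (mul_le_mul_of_nonneg_left (harm h) (Nat.cast_nonneg Y)))
  rw [mul_sum]
  exact sum_le_sum fun a _ => by rw [← div_eq_mul_inv]; exact Nat.cast_div_le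

theorem tauInv (X : ℕ) :
    ∑ m ∈ Ioc 0 X, (m.divisors.card : ℝ) * (m : ℝ)⁻¹ ≤ (1 + Real.log X) ^ 2 := by
  have h0 : 0 ≤ 1 + Real.log X := by have := Real.log_natCast_nonneg X; linarith
  refine (conv (fun n => (n : ℝ)⁻¹) (fun a b => by simp [mul_comm]) X).trans ?_
  calc _ ≤ ∑ a ∈ Ioc 0 X, (a : ℝ)⁻¹ * (1 + Real.log X) := sum_le_sum fun a _ =>
        mul_le_mul_of_nonneg_left (harm (Nat.div_le_self _ _)) (by positivity)
    _ ≤ _ := by
        rw [← sum_mul, sq]
        exact mul_le_mul_of_nonneg_right (harm le_rfl) h0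

theorem tau2 (X : ℕ) :
    ∑ m ∈ Ioc 0 X, (m.divisors.card : ℝ) ^ 2 ≤ X * (1 + Real.log X) ^ 3 := by
  have h0 : 0 ≤ 1 + Real.log X := by have := Real.log_natCast_nonneg X; linarith
  simp only [sq]
  refine (conv (fun n => (n.divisors.card : ℝ)) (fun a b => ?_) X).trans ?_
  · rw [Nat.divisors_mul]
    exact_mod_cast card_mul_le
  calc _ ≤ ∑ a ∈ Ioc 0 X, (a.divisors.card : ℝ) * (a : ℝ)⁻¹ * (X * (1 + Real.log X)) :=
        sum_le_sum fun a _ => by
          rw [mul_assoc]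
          refine mul_le_mul_of_nonneg_left ((tau1 (Nat.div_le_self X a)).trans ?_) (by positivity)
          rw [← mul_assoc, inv_mul_eq_div]
          exact mul_le_mul_of_nonneg_right Nat.cast_div_le h0
    _ ≤ (1 + Real.log X) ^ 2 * (X * (1 + Real.log X)) := by
        rw [← sum_mul]
        exact mul_le_mul_of_nonneg_right (tauInv X) (by positivity)
    _ = _ := by ring

/-- every class contains an ideal of norm at most the square root of the discriminant -/
theorem small {L : Type} [Field L] [NumberField L] (hd : Module.finrank ℚ L = 2)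
    (C : ClassGroup (𝓞 L)) : ∃ I : nonZeroDivisors (Ideal (𝓞 L)), ClassGroup.mk0 I = C ∧
      (Ideal.absNorm (I : Ideal (𝓞 L)) : ℝ) ≤ √(|discr L| : ℝ) := by
  obtain ⟨I, h1, h2⟩ := exists_ideal_in_class_of_norm_le C
  refine ⟨I, h1, h2.trans ?_⟩
  have h3 := InfinitePlace.card_add_two_mul_card_eq_rank L
  have h4 : (4 / Real.pi) ^ InfinitePlace.nrComplexPlaces L ≤ 2 := by
    have h5 : 4 / Real.pi ≤ 2 := by
      rw [div_le_iff₀ Real.pi_pos]
      linarith [Real.pi_gt_three]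
    have h6 : InfinitePlace.nrComplexPlaces L = 0 ∨ InfinitePlace.nrComplexPlaces L = 1 := by omega
    rcases h6 with h | h <;> simp [h, h5]
  rw [hd]
  refine (mul_le_mul_of_nonneg_right h4 (by positivity)).trans (le_of_eq ?_)
  norm_num [Nat.factorial]
  ring

theorem card_le (hLam : S_Lam) {L : Type} [Field L] [NumberField L] (hd : Module.finrank ℚ L = 2) :
    classNumber L ≤ ∑ m ∈ Ioc 0 ⌊√(|discr L| : ℝ)⌋₊, m.divisors.card ^ 2 := by
  classical
  choose I hI hN using small hd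
  have hf : ∀ m : ℕ, {J : Ideal (𝓞 L) | Ideal.absNorm J = m}.Finite :=
    fun m => Ideal.finite_setOfPred_absNorm_eq m
  calc classNumber L = (univ : Finset (ClassGroup (𝓞 L))).card := rfl
    _ ≤ ((Ioc 0 ⌊√(|discr L| : ℝ)⌋₊).biUnion fun m => (hf m).toFinset).card := by
        refine card_le_card_of_injOn (fun C => (I C : Ideal (𝓞 L))) (fun C _ => ?_)
          fun C _ C' _ h => ?_
        · refine mem_coe.2 (mem_biUnion.2 ⟨Ideal.absNorm (I C : Ideal (𝓞 L)), mem_Ioc.2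
            ⟨Nat.pos_of_ne_zero (Ideal.absNorm_ne_zero_of_nonZeroDivisors (I C)),
              Nat.le_floor (hN C)⟩, ?_⟩)
          simp
        · rw [← hI C, ← hI C', Subtype.ext h]
    _ ≤ _ := card_biUnion_le.trans (sum_le_sum fun m hm => by
        have h := (hLam L).1 m (mem_Ioc.1 hm).1
        rwa [Set.ncard_eq_toFinset_card _ (hf m), hd] at h)

end Cl

open Cl in
theorem p_cl (hIQb : S_IQb) (hLam : S_Lam) : S_Cl := by
  refine ⟨16, by norm_num, fun L _ _ K => ?_⟩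
  obtain ⟨-, -, -, -, -, -, hfin, -, -, -, hdisc, -⟩ := hIQb L K
  have hD : (1 : ℝ) ≤ |(K.D : ℝ)| := by exact_mod_cast Int.one_le_abs K.neg.ne
  have hd1 : (1 : ℝ) ≤ |(discr L : ℝ)| := by exact_mod_cast Int.one_le_abs (discr_ne_zero L)
  have hd2 : |(discr L : ℝ)| ≤ 4 * |(K.D : ℝ)| := by exact_mod_cast hdisc
  have hs1 : 1 ≤ √(|discr L| : ℝ) := Real.one_le_sqrt.2 hd1
  have hs2 : √(|discr L| : ℝ) ≤ 2 * √|(K.D : ℝ)| := by
    refine Real.sqrt_le_iff.2 ⟨by positivity, ?_⟩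
    rw [mul_pow, Real.sq_sqrt (abs_nonneg _)]
    linarith
  refine ⟨?_, by unfold cov; linarith, by unfold cov; linarith, Nat.card_pos⟩
  set X := ⌊√(|discr L| : ℝ)⌋₊ with hX
  have hX1 : 1 ≤ X := Nat.le_floor (by simpa using hs1)
  have hX2 : (X : ℝ) ≤ √(|discr L| : ℝ) := Nat.floor_le (by positivity)
  have h1 : (classNumber L : ℝ) ≤ X * (1 + Real.log X) ^ 3 := by
    refine le_trans ?_ (tau2 X)
    have h0 : classNumber L ≤ ∑ m ∈ Ioc 0 X, m.divisors.card ^ 2 := card_le hLam K.deg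
    exact_mod_cast h0
  have hl : 0 ≤ Real.log |(K.D : ℝ)| := Real.log_nonneg hD
  have h2 : Real.log X ≤ 1 + Real.log |(K.D : ℝ)| := by
    have h3 : √|(K.D : ℝ)| ≤ |(K.D : ℝ)| := Real.sqrt_le_iff.2 ⟨by positivity, by nlinarith⟩
    have h4 : Real.log X ≤ Real.log (2 * |(K.D : ℝ)|) :=
      Real.log_le_log (by exact_mod_cast hX1) (by linarith)
    rw [Real.log_mul (by norm_num) (by linarith)] at h4
    linarith [Real.log_two_lt_d9]
  have h5 : (1 + Real.log X) ^ 3 ≤ (2 * (1 + Real.log |(K.D : ℝ)|)) ^ 3 :=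
    pow_le_pow_left₀ (by have := Real.log_natCast_nonneg X; linarith) (by linarith) 3
  calc _ ≤ _ := h1
    _ ≤ √(|discr L| : ℝ) * (2 * (1 + Real.log |(K.D : ℝ)|)) ^ 3 :=
        mul_le_mul hX2 h5 (by have := Real.log_natCast_nonneg X; positivity) (by positivity)
    _ = _ := by unfold cov; ring

end Pool.Agent.P.MP_b8021b_nt.VE
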