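import Pool.Agent.P.MP_b8021b_nt.VE.StB

/-! Counting tuples with a prescribed sum. -/

namespace Pool.Agent.P.MP_b8021b_nt.VE

open Finset

namespace CntP

lemma cnt_eq_sum (r N : ℕ) (m : ℤ) :
    cnt r N m = ∑ i : Fin r → Fin N, if ∑ j, ((i j).1 : ℤ) = m then 1 else 0 := by
  unfold cnt
  rw [card_filter]

lemma rec1 (r N : ℕ) (m : ℤ) : cnt (r + 1) N m = ∑ i ∈ range N, cnt r N (m - i) := by
  rw [cnt_eq_sum, ← (Fin.consEquiv fun _ : Fin (r + 1) => Fin N).sum_comp, Fintype.sum_prod_type,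
    ← Fin.sum_univ_eq_sum_range (fun i => cnt r N (m - i))]
  refine sum_congr rfl fun a _ => ?_
  rw [cnt_eq_sum]
  refine sum_congr rfl fun x _ => ?_
  have h : ∑ j, ((((Fin.consEquiv fun _ : Fin (r + 1) => Fin N) (a, x)) j).1 : ℤ)
      = (a.1 : ℤ) + ∑ j, ((x j).1 : ℤ) := by
    rw [Fin.sum_univ_succ]
    simp [Fin.consEquiv]
  rw [h]
  by_cases h1 : ∑ j, ((x j).1 : ℤ) = m - a.1
  · rw [if_pos h1, if_pos (by rw [h1]; ring)]
  · rw [if_neg h1, if_neg fun h2 => h1 (by rw [← h2]; ring)]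

lemma cnt_zero (N : ℕ) (m : ℤ) : cnt 0 N m = if m = 0 then 1 else 0 := by
  rw [cnt_eq_sum]
  by_cases h : m = 0
  · simp [h]
  · simp [h, Ne.symm h]

lemma cnt_one_le (N : ℕ) (m : ℤ) : cnt 1 N m ≤ 1 := by
  rw [rec1]
  simp only [cnt_zero]
  rw [← card_filter]
  refine card_le_one.mpr fun a ha b hb => ?_
  have h1 := (mem_filter.mp ha).2
  have h2 := (mem_filter.mp hb).2
  omega

lemma cnt_one_ge (N : ℕ) (m : ℤ) (h0 : 0 ≤ m) (h1 : m < N) : 1 ≤ cnt 1 N m := by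
  rw [rec1]
  simp only [cnt_zero]
  rw [← card_filter]
  refine card_pos.mpr ⟨m.toNat, mem_filter.mpr ⟨mem_range.mpr (by omega), by omega⟩⟩

lemma upper (r N : ℕ) (m : ℤ) : cnt (r + 1) N m ≤ N ^ r := by
  induction r generalizing m with
  | zero => simpa using cnt_one_le N m
  | succ r ih =>
    rw [rec1]
    calc ∑ i ∈ range N, cnt (r + 1) N (m - i) ≤ ∑ _i ∈ range N, N ^ r :=
          sum_le_sum fun i _ => ih _
      _ = N ^ (r + 1) := by simp [pow_succ, mul_comm]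

lemma total (r N : ℕ) : ∑ m ∈ range (r * N + 1), cnt r N m = N ^ r := by
  have h := card_eq_sum_card_fiberwise (s := (univ : Finset (Fin r → Fin N)))
    (t := range (r * N + 1)) (f := fun i => ∑ j, (i j).1) (by
      intro i _
      have h1 : ∑ j, (i j).1 ≤ ∑ _j : Fin r, N := sum_le_sum fun j _ => (i j).2.le
      simp only [sum_const, card_univ, Fintype.card_fin, smul_eq_mul] at h1
      exact mem_coe.mpr (mem_range.mpr (Nat.lt_succ_of_le h1)))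
  simp only [card_univ, Fintype.card_fun, Fintype.card_fin] at h
  rw [h]
  refine sum_congr rfl fun m _ => ?_
  unfold cnt
  refine congrArg card (filter_congr fun i _ => ?_)
  rw [← Nat.cast_sum]
  exact Nat.cast_inj

lemma window (N k w : ℕ) (hw : k + w ≤ N) (r : ℕ) (m : ℤ)
    (h1 : (r : ℤ) * (k + w - 1) ≤ m) (h2 : m - r * k < N) : w ^ r ≤ cnt (r + 1) N m := by
  induction r generalizing m with
  | zero =>
    simp only [Nat.cast_zero, zero_mul, sub_zero] at h1 h2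
    simpa using cnt_one_ge N m h1 h2
  | succ r ih =>
    rw [rec1]
    have hsub : Ico k (k + w) ⊆ range N := fun i hi =>
      mem_range.mpr (lt_of_lt_of_le (mem_Ico.mp hi).2 hw)
    calc w ^ (r + 1) = ∑ _i ∈ Ico k (k + w), w ^ r := by simp [pow_succ, mul_comm]
      _ ≤ ∑ i ∈ Ico k (k + w), cnt (r + 1) N (m - i) := by
          refine sum_le_sum fun i hi => ih _ ?_ ?_
          · have h3 : (i : ℤ) ≤ k + w - 1 := by have := (mem_Ico.mp hi).2; omega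
            push_cast at h1
            linarith
          · have h3 : (k : ℤ) ≤ i := by have := (mem_Ico.mp hi).1; omega
            push_cast at h2
            linarith
      _ ≤ _ := sum_le_sum_of_subset hsub

lemma lower (r N : ℕ) (m : ℤ) (hN : 12 * (r + 1) ≤ N)
    (hm : |(m : ℝ) - (r + 1) * N / 2| ≤ (r + 1) * N / 6) :
    ((N : ℝ) / (4 * (r + 1))) ^ r ≤ cnt (r + 1) N m := by
  have hR : (0 : ℝ) < (r : ℝ) + 1 := by positivity
  have hN' : 12 * ((r : ℝ) + 1) ≤ N := by exact_mod_cast hN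
  have hr0 : (0 : ℝ) ≤ r := Nat.cast_nonneg r
  obtain ⟨hm1, hm2⟩ := abs_le.mp hm
  set a : ℝ := m / (r + 1) with ha
  have hma : (m : ℝ) = a * (r + 1) := by rw [ha]; field_simp
  have ha1 : (N : ℝ) / 3 ≤ a := by
    rw [ha, le_div_iff₀ hR]; linarith
  have ha2 : a ≤ 2 * N / 3 := by
    rw [ha, div_le_iff₀ hR]; linarith
  have ha0 : 0 ≤ a := by linarith
  set b : ℝ := N / (4 * (r + 1)) with hb
  have hb0 : 0 ≤ b := by positivity
  have hbN : b * (r + 1) = N / 4 := by rw [hb]; field_simp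
  have hk1 : (⌊a⌋₊ : ℝ) ≤ a := Nat.floor_le ha0
  have hk2 : a < ⌊a⌋₊ + 1 := Nat.lt_floor_add_one a
  have hw1 : b ≤ ⌈b⌉₊ := Nat.le_ceil b
  have hw2 : (⌈b⌉₊ : ℝ) < b + 1 := Nat.ceil_lt_add_one hb0
  have hb4 : b ≤ N / 4 := by nlinarith
  have h := window N ⌊a⌋₊ ⌈b⌉₊ (by
      have : ((⌊a⌋₊ + ⌈b⌉₊ : ℕ) : ℝ) ≤ N := by push_cast; linarith
      exact_mod_cast this) r m (by
      have : (r : ℝ) * (⌊a⌋₊ + ⌈b⌉₊ - 1) ≤ m := by
        have h3 : (r : ℝ) * (⌊a⌋₊ + ⌈b⌉₊ - 1) ≤ r * (a + b) :=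
          mul_le_mul_of_nonneg_left (by linarith) hr0
        nlinarith
      exact_mod_cast this) (by
      have : (m : ℝ) - r * ⌊a⌋₊ < N := by
        have h3 : (r : ℝ) * (a - 1) ≤ r * ⌊a⌋₊ := mul_le_mul_of_nonneg_left (by linarith) hr0
        nlinarith
      exact_mod_cast this)
  calc b ^ r ≤ (⌈b⌉₊ : ℝ) ^ r := pow_le_pow_left₀ hb0 hw1 r
    _ ≤ _ := by exact_mod_cast h

lemma diff (r N : ℕ) (m : ℤ) :
    |(cnt (r + 2) N (m + 1) : ℝ) - cnt (r + 2) N m| ≤ (N : ℝ) ^ r := by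
  have h1 : cnt (r + 2) N (m + 1) + cnt (r + 1) N (m + 1 - N)
      = cnt (r + 2) N m + cnt (r + 1) N (m + 1) := by
    have e1 := sum_range_succ (fun i : ℕ => cnt (r + 1) N (m + 1 - i)) N
    have e2 := sum_range_succ' (fun i : ℕ => cnt (r + 1) N (m + 1 - i)) N
    rw [rec1 (r + 1) N (m + 1), rec1 (r + 1) N m, ← e1, e2]
    simp only [Nat.cast_zero, sub_zero]
    refine congrArg (· + cnt (r + 1) N (m + 1)) (sum_congr rfl fun i _ => ?_)
    refine congrArg (cnt (r + 1) N) ?_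
    push_cast
    ring
  have h2 : (cnt (r + 2) N (m + 1) : ℝ) + cnt (r + 1) N (m + 1 - N)
      = cnt (r + 2) N m + cnt (r + 1) N (m + 1) := by exact_mod_cast h1
  have h3 : (cnt (r + 1) N (m + 1 - N) : ℝ) ≤ (N : ℝ) ^ r := by exact_mod_cast upper r N _
  have h4 : (cnt (r + 1) N (m + 1) : ℝ) ≤ (N : ℝ) ^ r := by exact_mod_cast upper r N _
  have h5 : (0 : ℝ) ≤ cnt (r + 1) N (m + 1 - N) := Nat.cast_nonneg _
  have h6 : (0 : ℝ) ≤ cnt (r + 1) N (m + 1) := Nat.cast_nonneg _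
  rw [abs_le]
  constructor <;> linarith

lemma Mz_bound (N u : ℕ) : ((u : ℝ) + 2) * N / 2 - 1 / 2 ≤ (Mz N u : ℝ) ∧
    (Mz N u : ℝ) ≤ ((u : ℝ) + 2) * N / 2 := by
  have h1 : 2 * ((u + 2) * N / 2) ≤ (u + 2) * N := Nat.mul_div_le _ _
  have h2 : (u + 2) * N ≤ 2 * ((u + 2) * N / 2) + 1 := by omega
  have h3 : 2 * (((u + 2) * N / 2 : ℕ) : ℝ) ≤ ((u : ℝ) + 2) * N := by exact_mod_cast h1
  have h4 : ((u : ℝ) + 2) * N ≤ 2 * (((u + 2) * N / 2 : ℕ) : ℝ) + 1 := by exact_mod_cast h2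
  have h5 : (Mz N u : ℝ) = (((u + 2) * N / 2 : ℕ) : ℝ) := by
    unfold Mz
    exact Int.cast_natCast _
  rw [h5]
  constructor <;> linarith

lemma law (v : ℕ) (hv : 5 ≤ v) (N : ℕ) (hN : 12 * (v + 1 + 2) ≤ N) :
    ∑ i ∈ range N, P1 N (v + 1) i = 1 ∧
    ∀ i < N, ∀ i' < N, (1 / (4 * ((v : ℝ) + 1))) ^ v ≤ (N : ℝ) ^ 2 * Hh N (v + 1) i i' ∧
      (N : ℝ) ^ 2 * Hh N (v + 1) i i' ≤ (4 * ((v : ℝ) + 3)) ^ (v + 2) := by
  have hN' : 12 * ((v : ℝ) + 3) ≤ N := by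
    have : ((12 * (v + 1 + 2) : ℕ) : ℝ) ≤ N := by exact_mod_cast hN
    push_cast at this
    linarith
  have hv' : (5 : ℝ) ≤ v := by exact_mod_cast hv
  have hN0 : (0 : ℝ) < N := by linarith
  obtain ⟨hM1, hM2⟩ := Mz_bound N (v + 1)
  push_cast at hM1 hM2
  have hD1 : ((N : ℝ) / (4 * ((v : ℝ) + 3))) ^ (v + 2) ≤ cnt (v + 1 + 2) N (Mz N (v + 1)) := by
    have h := lower (v + 2) N (Mz N (v + 1)) (by omega) (by
      push_cast
      rw [abs_le]
      constructor <;> nlinarith)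
    push_cast at h
    rw [show (v : ℝ) + 2 + 1 = v + 3 by ring] at h
    exact h
  have hD2 : (cnt (v + 1 + 2) N (Mz N (v + 1)) : ℝ) ≤ (N : ℝ) ^ (v + 2) := by
    exact_mod_cast upper (v + 2) N _
  have hD0 : (0 : ℝ) < cnt (v + 1 + 2) N (Mz N (v + 1)) :=
    lt_of_lt_of_le (by positivity) hD1
  refine ⟨?_, fun i hi i' hi' => ?_⟩
  · unfold P1 Hh
    simp only [← sum_div]
    rw [div_eq_one_iff_eq hD0.ne', rec1 (v + 1 + 1) N]
    push_cast
    refine sum_congr rfl fun i _ => ?_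
    rw [rec1 (v + 1) N]
    push_cast
    rfl
  · have hi1 : (i : ℝ) + 1 ≤ N := by exact_mod_cast hi
    have hi2 : (i' : ℝ) + 1 ≤ N := by exact_mod_cast hi'
    have hi3 : (0 : ℝ) ≤ i := Nat.cast_nonneg _
    have hi4 : (0 : ℝ) ≤ i' := Nat.cast_nonneg _
    have hA1 : ((N : ℝ) / (4 * ((v : ℝ) + 1))) ^ v ≤ cnt (v + 1) N (Mz N (v + 1) - i - i') := by
      refine lower v N _ (by omega) ?_
      push_cast
      rw [abs_le]
      constructor <;> nlinarith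
    have hA2 : (cnt (v + 1) N (Mz N (v + 1) - i - i') : ℝ) ≤ (N : ℝ) ^ v := by
      exact_mod_cast upper v N _
    unfold Hh
    rw [← mul_div_assoc]
    constructor
    · rw [le_div_iff₀ hD0]
      calc (1 / (4 * ((v : ℝ) + 1))) ^ v * (cnt (v + 1 + 2) N (Mz N (v + 1)) : ℝ)
          ≤ (1 / (4 * ((v : ℝ) + 1))) ^ v * (N : ℝ) ^ (v + 2) :=
            mul_le_mul_of_nonneg_left hD2 (by positivity)
        _ = (N : ℝ) ^ 2 * ((N : ℝ) / (4 * ((v : ℝ) + 1))) ^ v := by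
            rw [div_pow, div_pow, one_pow]; ring
        _ ≤ _ := mul_le_mul_of_nonneg_left hA1 (by positivity)
    · rw [div_le_iff₀ hD0]
      calc (N : ℝ) ^ 2 * (cnt (v + 1) N (Mz N (v + 1) - i - i') : ℝ)
          ≤ (N : ℝ) ^ 2 * (N : ℝ) ^ v := mul_le_mul_of_nonneg_left hA2 (by positivity)
        _ = (4 * ((v : ℝ) + 3)) ^ (v + 2) * ((N : ℝ) / (4 * ((v : ℝ) + 3))) ^ (v + 2) := by
            rw [← mul_pow, mul_div_cancel₀ _ (by positivity)]; ring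
        _ ≤ _ := mul_le_mul_of_nonneg_left hD1 (by positivity)

end CntP

theorem p_cntP : S_Cnt := by
  refine ⟨CntP.rec1, CntP.upper, CntP.total, CntP.lower, CntP.diff, fun u hu => ?_⟩
  obtain ⟨v, rfl⟩ : ∃ v, u = v + 1 := ⟨u - 1, by omega⟩
  have hv0 : (0 : ℝ) ≤ v := Nat.cast_nonneg _
  refine ⟨(1 / (4 * ((v : ℝ) + 1))) ^ v, (4 * ((v : ℝ) + 3)) ^ (v + 2), by positivity,
    one_le_pow₀ (by linarith), fun N hN => ?_⟩
  obtain ⟨h1, h2⟩ := CntP.law v (by omega) N hN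
  have hN0 : (0 : ℝ) < N := by exact_mod_cast (by omega : 0 < N)
  refine ⟨h1, fun i i' => ?_, fun i hi => ?_, h2⟩
  · unfold Hh
    rw [sub_right_comm]
  · have e : (N : ℝ) * ((N : ℝ) * P1 N (v + 1) i) = ∑ i' ∈ range N, (N : ℝ) ^ 2 * Hh N (v + 1) i i' := by
      unfold P1
      rw [← mul_sum]
      ring
    constructor
    · refine le_of_mul_le_mul_left ?_ hN0
      rw [e]
      calc (N : ℝ) * (1 / (4 * ((v : ℝ) + 1))) ^ v
          = ∑ _i' ∈ range N, (1 / (4 * ((v : ℝ) + 1))) ^ v := by simp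
        _ ≤ _ := sum_le_sum fun i' hi' => (h2 i hi i' (mem_range.mp hi')).1
    · refine le_of_mul_le_mul_left ?_ hN0
      rw [e]
      calc _ ≤ ∑ _i' ∈ range N, (4 * ((v : ℝ) + 3)) ^ (v + 2) :=
            sum_le_sum fun i' hi' => (h2 i hi i' (mem_range.mp hi')).2
        _ = _ := by simp

end Pool.Agent.P.MP_b8021b_nt.VE
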