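import Pool.Agent.P.MP_b8021b_nt.VE.Defs

/-! Interface statements of part B. Each is proved in its own file of this folder. -/

namespace Pool.Agent.P.MP_b8021b_nt.VE

open Polynomial Finset
open scoped Classical

/-- B1: counting tuples -/
def S_Cnt : Prop :=
  (∀ (r N : ℕ) (m : ℤ), cnt (r + 1) N m = ∑ i ∈ range N, cnt r N (m - i)) ∧
  (∀ (r N : ℕ) (m : ℤ), cnt (r + 1) N m ≤ N ^ r) ∧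
  (∀ (r N : ℕ), ∑ m ∈ range (r * N + 1), cnt r N m = N ^ r) ∧
  (∀ (r N : ℕ) (m : ℤ), 12 * (r + 1) ≤ N →
    |(m : ℝ) - (r + 1) * N / 2| ≤ (r + 1) * N / 6 → ((N : ℝ) / (4 * (r + 1))) ^ r ≤ cnt (r + 1) N m) ∧
  (∀ (r N : ℕ) (m : ℤ), |(cnt (r + 2) N (m + 1) : ℝ) - cnt (r + 2) N m| ≤ (N : ℝ) ^ r) ∧
  ∀ u, 6 ≤ u → ∃ c C : ℝ, 0 < c ∧ 1 ≤ C ∧ ∀ N, 12 * (u + 2) ≤ N →
    ∑ i ∈ range N, P1 N u i = 1 ∧ (∀ i i', Hh N u i i' = Hh N u i' i) ∧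
    (∀ i < N, c ≤ N * P1 N u i ∧ N * P1 N u i ≤ C) ∧
    ∀ i < N, ∀ i' < N, c ≤ (N : ℝ) ^ 2 * Hh N u i i' ∧ (N : ℝ) ^ 2 * Hh N u i i' ≤ C

/-- B2: second moments -/
def S_TK : Prop :=
  ∃ C : ℝ, 1 ≤ C ∧ ∀ (P X Z : Type) [Fintype P] [Fintype X] [Fintype Z] (b : Base P X)
    (σ : Side X Z) (ε : ℝ), ε ≤ 1 → b.Ok ε → σ.Ok b ε →
    (∀ (β : X → ℝ) (bb : P → ℝ), (∀ x, |β x| ≤ bb (b.pr x)) → (∀ a, 0 ≤ bb a) →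
      ∑ z, σ.wt z * (∑ x, β x * ((if σ.on x z then 1 else 0) - 1 / b.q (b.pr x))) ^ 2 ≤
        C * (ε / b.N * (∑ a, bb a) ^ 2 + ∑ a, bb a ^ 2) ∧
      ∀ x₀, (∀ x, b.pr x = b.pr x₀ → β x = 0) →
        ∑ z, σ.c1 b x₀ z * (∑ x, β x * ((if σ.on x z then 1 else 0) - 1 / b.q (b.pr x))) ^ 2 ≤
          C * (ε / b.N * (∑ a, bb a) ^ 2 + ∑ a, bb a ^ 2)) ∧
    (∀ (φ : Z → ℝ) (x : X), (∀ z, |φ z| ≤ 1) →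
      ∑ x' with b.pr x' ≠ b.pr x, b.w (b.pr x') / (b.q (b.pr x') * b.N) *
        |∑ z, σ.c2 b x x' z * φ z - ∑ z, σ.c1 b x z * φ z| ≤ C * √ε) ∧
    ∀ Z₀ : Finset Z, ∑ z ∈ Z₀, ∑ x, σ.flag b x z ≤ C * √(∑ z ∈ Z₀, σ.wt z)

/-- B3: product test functions of one point or of two different points -/
def S_One : Prop :=
  ∀ u, 6 ≤ u → ∀ ε' : ℝ, 0 < ε' → ∃ ε : ℝ, 0 < ε ∧ ∀ (P X T S : Type) [Fintype P] [Fintype X]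
    [Fintype T] [Fintype S] (b : Base P X) (σT : Side X T) (σS : Side X S)
    (μ : T → S → (Fin (u + 2) → X) → ℝ), Des b σT σS u μ ε →
    ∀ (φ : T → X → ℝ) (ψ : S → X → ℝ), (∀ t x, |φ t x| ≤ 1) → (∀ s x, |ψ s x| ≤ 1) →
    |∑ t, ∑ s, ∑ x, μ t s x * (φ t (x 0) * ψ s (x 0)) -
      ∑ x, b.w (b.pr x) / b.q (b.pr x) * P1 b.N u (b.lev (b.pr x)) *
        ((∑ t, σT.c1 b x t * φ t x) * ∑ s, σS.c1 b x s * ψ s x)| ≤ ε' ∧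
    |∑ t, ∑ s, ∑ x, μ t s x * (φ t (x 0) * ψ s (x 1)) -
      ∑ x, ∑ x', b.om u x x' *
        ((∑ t, σT.c1 b x t * φ t x) * ∑ s, σS.c1 b x' s * ψ s x')| ≤ ε'

/-- B3: a rare event of a fibre and a point is rare on almost every section -/
def S_Cond : Prop :=
  ∀ u, 6 ≤ u → ∃ C : ℝ, 1 ≤ C ∧ ∀ ε' : ℝ, 0 < ε' → ∃ ε : ℝ, 0 < ε ∧ ∀ (P X T S : Type) [Fintype P]
    [Fintype X] [Fintype T] [Fintype S] (b : Base P X) (σT : Side X T) (σS : Side X S)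
    (μ : T → S → (Fin (u + 2) → X) → ℝ), Des b σT σS u μ ε →
    ∀ (E : T → X → Prop) (h : ℝ), ∑ t, ∑ x with E t x, σT.flag b x t ≤ h →
    ∑ s with σS.wt s * (C * h + ε') < ∑ t, ∑ x with E t (x 0), μ t s x, σS.wt s ≤ ε'

/-- B4: the local structure on almost every section -/
def S_Loc : Prop :=
  ∀ u, 6 ≤ u → ∀ (n : ℕ) (ε' : ℝ), 0 < ε' → ∃ ε : ℝ, 0 < ε ∧ ∀ (P X T S C : Type) [Fintype P]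
    [Fintype X] [Fintype T] [Fintype S] [Fintype C] [Nonempty C] (b : Base P X) (σT : Side X T)
    (σS : Side X S) (μ : T → S → (Fin (u + 2) → X) → ℝ) (cell : T → C), Fintype.card C ≤ n →
    Des b σT σS u μ ε → σT.CellInd b cell ε →
    ∃ Gd : Finset S, ∑ s with s ∉ Gd, σS.wt s ≤ ε' ∧ ∑ t, ∑ s with s ∉ Gd, ∑ x, μ t s x ≤ ε' ∧
      ∀ s ∈ Gd, 0 < σS.wt s ∧ Loc b.N u (fun x => b.lev (b.pr x)) (σS.m b s)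
        (fun t x => μ t s x / σS.wt s) cell ε'

/-- B5: the functional equation -/
def S_FE : Prop :=
  ∀ u, 6 ≤ u → ∃ C : ℝ, 1 ≤ C ∧ ∀ N, 12 * (u + 2) ≤ N → ∀ (φ : ℕ → ℝ) (A : ℝ),
    0 ≤ Form N u φ A ∧ ∀ σ K : ℝ, 0 ≤ σ → Form N u φ A ≤ σ ^ 2 → (∀ i < N, |φ i| ≤ K) →
      ∃ φ₁ κ : ℝ, ∑ i ∈ range N, (φ i - φ₁ - κ * i / N) ^ 2 ≤ C * N * σ ^ 2 ∧ |κ| ≤ C * (K + σ)

/-- B5': the second moment of a sum over a tuple -/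
def S_L2 : Prop :=
  ∀ u, 6 ≤ u → ∃ C ε₀ : ℝ, 1 ≤ C ∧ 0 < ε₀ ∧ ∀ (X Z Ce : Type) [Fintype X] [Fintype Z] [Fintype Ce]
    [Nonempty Ce] (N : ℕ) (lev : X → ℕ) (m : X → ℝ) (π : Z → (Fin (u + 2) → X) → ℝ) (cell : Z → Ce)
    (ε : ℝ), ε ≤ ε₀ → Loc N u lev m π cell ε →
    |∑ z, ∑ x, π z x - 1| ≤ C * ε ∧
    (∀ 𝒞 : Finset Ce, (𝒞.card : ℝ) / Fintype.card Ce ≤ ∑ z with cell z ∈ 𝒞, ∑ x, π z x + C * ε) ∧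
    (∀ E : X → Prop, ∑ z, ∑ x with E (x 0), π z x ≤ C * (∑ a with E a, m a) / N + ε ∧
      (∑ a with E a, m a) / N ≤ C * (∑ z, ∑ x with E (x 0), π z x + ε)) ∧
    (∀ E E' : X → Prop, ∑ z, ∑ x with E (x 0) ∧ E' (x 1), π z x ≤
      C * ((∑ a with E a, m a) / N * ((∑ a with E' a, m a) / N)) + ε) ∧
    ∀ (ψ : X → ℝ) (g : Ce → ℝ) (K : ℝ), (∀ x, |ψ x| ≤ K) → (∀ c, |g c| ≤ K) →
      (u + 2) * ∑ x, m x * P1 N u (lev x) * (ψ x - levMean lev m ψ (lev x)) ^ 2 +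
        (∑ c, Form N u (levMean lev m ψ) (g c)) / Fintype.card Ce ≤
      ∑ z, ∑ x, π z x * (∑ i, ψ (x i) + g (cell z)) ^ 2 + C * ε * K ^ 2

/-- B6: a bound on most cells -/
def S_Rem : Prop :=
  ∀ d : ℕ, ∃ (C δ : ℝ) (N₀ : ℕ), 1 ≤ C ∧ 0 < δ ∧ ∀ Nc, N₀ ≤ Nc → ∀ (T : Type) [Fintype T]
    (β : Box T Nc) (F Q : ℝ[X]) (R : ℝ → ℝ) (κ c M : ℝ), β.Mem → Q.natDegree ≤ d →
    (∀ a ∈ Set.Icc β.τ0 (β.τ0 + β.η), 0 < F.eval a) →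
    (∀ a ∈ Set.Icc β.τ0 (β.τ0 + β.η), ∀ a' ∈ Set.Icc β.τ0 (β.τ0 + β.η), F.eval a ≤ 2 * F.eval a') →
    (∀ a ∈ Set.Icc β.τ0 (β.τ0 + β.η), HasDerivAt R (Q.eval a / F.eval a) a) → 0 ≤ M →
    (1 - δ) * (Nc : ℝ) ^ 2 ≤ ((univ.filter fun e => ∃ t, β.cell t = e ∧
      |R (β.τ t) + κ * Real.log (β.b t) + c| ≤ M).card : ℝ) →
    (∀ a ∈ Set.Icc β.τ0 (β.τ0 + β.η), β.η * |Q.eval a / F.eval a| ≤ C * M) ∧ β.η * |κ| ≤ C * M ∧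
      (∀ t, |R (β.τ t) + κ * Real.log (β.b t) + c| ≤ C * M) ∧
      ∀ t t', β.cell t = β.cell t' → |R (β.τ t) + κ * Real.log (β.b t) -
        (R (β.τ t') + κ * Real.log (β.b t'))| ≤ C / Nc * M

/-- B7: rigidity on a section -/
def S_LocS : Prop :=
  ∀ u, 6 ≤ u → ∀ CR δ : ℝ, 1 ≤ CR → 0 < δ → ∃ C h₀ : ℝ, 1 ≤ C ∧ 0 < h₀ ∧
    ∀ (X Z Ce : Type) [Fintype X] [Fintype Z] [Fintype Ce] [Nonempty Ce] (N : ℕ) (lev : X → ℕ)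
      (m : X → ℝ) (π : Z → (Fin (u + 2) → X) → ℝ) (cell : Z → Ce) (ε θ h lam : ℝ) (A Lg : Z → ℝ)
      (v ψ : X → ℝ), ε ≤ h₀ → 0 ≤ θ → θ ≤ h₀ → h ≤ h₀ → 0 < lam → Loc N u lev m π cell ε →
      RemP A Lg cell CR δ θ → (∀ x, (lev x : ℝ) / N ≤ v x ∧ v x ≤ (lev x + 1) / N) →
      (∀ z x, π z x ≠ 0 → ∑ i, v (x i) = Lg z) →
      ∑ z, ∑ x with lam < |∑ i, ψ (x i) + A z|, π z x ≤ h →
      ∃ φ₀ κ : ℝ, (∑ x with C * lam < |ψ x - φ₀ - κ * v x|, m x) / N ≤ C * (h + ε) ∧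
        ∀ z, |A z + (u + 2) * φ₀ + κ * Lg z| ≤ C * lam

/-- B8: rigidity on a fibre -/
def S_LocT : Prop :=
  ∀ u, 6 ≤ u → ∃ C h₀ : ℝ, 1 ≤ C ∧ 0 < h₀ ∧
    ∀ (X Z : Type) [Fintype X] [Fintype Z] (N : ℕ) (lev : X → ℕ) (m : X → ℝ)
      (π : Z → (Fin (u + 2) → X) → ℝ) (ε h lam : ℝ) (ι : X → X) (ψ : X → ℝ), ε ≤ h₀ → h ≤ h₀ →
      0 < lam → Loc N u lev m π (fun _ => ()) ε → (∀ x, ι (ι x) = x) → (∀ x, lev (ι x) = lev x) →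
      (∀ x, m (ι x) = m x) → (∀ x, m x ≠ 0 → ψ (ι x) = -ψ x) →
      ∑ z, ∑ x with lam < |∑ i, ψ (x i)|, π z x ≤ h →
      (∑ x with C * lam < |ψ x|, m x) / N ≤ C * (h + ε)

/-- B9 -/
def S_SA : Prop :=
  ∀ u d, 6 ≤ u → ∃ (C h₀ : ℝ) (N₀ : ℕ), 1 ≤ C ∧ 0 < h₀ ∧ ∀ Nc, N₀ ≤ Nc → ∀ ε' : ℝ, 0 < ε' →
    ∃ ε : ℝ, 0 < ε ∧ ∀ (P X T S : Type) [Fintype P] [Fintype X] [Fintype T] [Fintype S]
      (G : Sys P X T S Nc u), G.Ok d ε → ∀ (a : X → ℝ) (lam h : ℝ), 0 < lam → h ≤ h₀ →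
      G.PT a lam h → G.RS d a (C * lam) (C * h + ε') ε'

/-- B10 -/
def S_Tail : Prop :=
  ∀ u d, 6 ≤ u → ∃ (C h₀ : ℝ) (N₀ : ℕ), 1 ≤ C ∧ 0 < h₀ ∧ ∀ Nc, N₀ ≤ Nc → ∀ ε' : ℝ, 0 < ε' →
    ∃ ε : ℝ, 0 < ε ∧ ∀ (P X T S : Type) [Fintype P] [Fintype X] [Fintype T] [Fintype S]
      (G : Sys P X T S Nc u), G.Ok d ε → ∀ (a : X → ℝ) (lam h : ℝ), 0 < lam → h ≤ h₀ →
      G.PT a lam h → ∃ a', G.PT a' (C * lam) (C * h ^ 2 + ε')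

/-- B11 -/
def S_Contr : Prop :=
  ∀ u d, 6 ≤ u → ∃ (C h₀ : ℝ) (N₀ : ℕ), 1 ≤ C ∧ 0 < h₀ ∧ ∀ Nc, N₀ ≤ Nc → ∀ ε' : ℝ, 0 < ε' →
    ∃ ε : ℝ, 0 < ε ∧ ∀ (P X T S : Type) [Fintype P] [Fintype X] [Fintype T] [Fintype S]
      (G : Sys P X T S Nc u), G.Ok d ε → ∀ (a : X → ℝ) (lam h θ : ℝ), 0 < lam → h ≤ h₀ → 0 < θ →
      θ ≤ 1 → G.PT a lam h → ∃ a', G.PT a' (θ * lam) (C * (h + 1 / (Nc : ℝ) ^ 2 + ε') / θ ^ 2)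

/-- B12 -/
def S_Rig : Prop :=
  ∀ u d, 6 ≤ u → ∀ δ : ℝ, 0 < δ → ∃ N₀ : ℕ, ∀ Nc, N₀ ≤ Nc →
    ∃ ε : ℝ, 0 < ε ∧ ∀ (P X T S : Type) [Fintype P] [Fintype X] [Fintype T] [Fintype S]
      (G : Sys P X T S Nc u), G.Ok d ε → ∃ a : X → ℝ, (∀ x, a (G.b.ι x) = -a x) ∧
      ∑ s, ∑ x with G.c₂ x s ≠ a x - G.β / (u + 2), G.σS.flag G.b x s ≤ δ

/-- B13: two scales -/
def S_B : Prop :=
  ∀ u d, 6 ≤ u → ∃ (Nc : ℕ) (ε : ℝ), 1 ≤ Nc ∧ 0 < ε ∧ ∀ (P X T T' S : Type) [Fintype P] [Fintype X]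
    [Fintype T] [Fintype T'] [Fintype S] (G : Sys P X T S Nc u) (G' : Sys P X T' S Nc (u + 1)),
    G.Ok d ε → G'.Ok d ε → G'.b = G.b → G'.σS = G.σS → G'.c₂ = G.c₂ → G'.β = G.β → G.β = 0

/-- B0: pair correlations control the cut norm -/
def S_Cut : Prop :=
  ∀ u, 6 ≤ u → ∀ ε' : ℝ, 0 < ε' → ∃ ε : ℝ, 0 < ε ∧ ∀ (P X T S : Type) [Fintype P] [Fintype X]
    [Fintype T] [Fintype S] (b : Base P X) (σT : Side X T) (σS : Side X S)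
    (μ : T → S → (Fin (u + 2) → X) → ℝ) (T₀ : Finset T) (W : T → S → X → X → ℝ),
    b.Ok ε → σT.Ok b ε → σS.Ok b ε → Tup b σT σS u μ →
    (∀ t s a a', ∑ x with x 0 = a ∧ x 1 = a', μ t s x =
      if t ∈ T₀ then nu b σT σS u t s a a' * W t s a a' else 0) →
    ∑ t with t ∉ T₀, σT.wt t ≤ ε →
    ∑ a, ∑ a', ∑ t ∈ T₀, ∑ t' ∈ T₀, b.om u a a' * σT.c2 b a a' t * σT.c2 b a a' t' *
      |∑ s, σS.c2 b a a' s * ((W t s a a' - 1) * (W t' s a a' - 1))| ≤ ε →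
    Mix b σT σS u μ ε'

end Pool.Agent.P.MP_b8021b_nt.VE
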