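import Pool.Agent.P.MP_b8021b_nt.VE.StA
import Pool.Agent.P.MP_b8021b_nt.VE.StB
import Pool.Agent.P.MP_b8021b_nt.VE.StN

/-! A11: the core statement from the cochain, the mixing designs and their rigidity. -/

namespace Pool.Agent.P.MP_b8021b_nt.VE

open Polynomial Finset
open scoped Classical

namespace PCore

theorem hev_cast {d : ℕ} {g : ℤ[X]} (hg : g.natDegree ≤ d) (a b : ℤ) (hb : (b : ℝ) ≠ 0) :
    (hev d g a b : ℝ) = (b : ℝ) ^ d * (g.map (Int.castRingHom ℝ)).eval ((a : ℝ) / b) := by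
  rw [eval_eq_sum_range' (n := d + 1) (lt_of_le_of_lt natDegree_map_le (by omega)), hev,
    Finset.mul_sum]
  push_cast
  refine Finset.sum_congr rfl fun i hi => ?_
  have hi' : i ≤ d := Nat.lt_succ_iff.1 (mem_range.1 hi)
  rw [coeff_map, eq_intCast, div_pow, pow_sub₀ _ hb hi']
  field_simp

theorem deg_aux {m n : ℕ} (h : m ≤ n) (c : ℤ) (s : Fin m → ℤ) :
    (C c * ∑ i : Fin m, C (s i) * X ^ (i.1 + 1) : ℤ[X]).natDegree ≤ n :=
  (natDegree_C_mul_le _ _).trans (natDegree_sum_le_of_forall_le _ _ fun i _ =>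
    (natDegree_C_mul_X_pow_le _ _).trans (by omega))

theorem deg_gp (p : Par) (s : p.Co) : (p.gp s).natDegree ≤ p.k :=
  natDegree_add_le_of_degree_le p.dg (deg_aux le_rfl _ fun i => s (.inl i))

theorem deg_cp (p : Par) (s : p.Co) : (p.cp s).natDegree ≤ p.k - 2 :=
  natDegree_add_le_of_degree_le p.dc (deg_aux le_rfl _ fun i => s (.inr i))

theorem deg_FR (p : Par) (s : p.Co) : (p.FR s).natDegree ≤ 2 * p.k - 1 + 1 := by
  have hk := p.hk
  have h1 := deg_gp p s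
  have h2 := deg_cp p s
  have h3 := p.hf.2.1
  refine natDegree_map_le.trans ((natDegree_sub_le _ _).trans (max_le ?_ ?_))
  · exact natDegree_pow_le.trans (by omega)
  · refine natDegree_mul_le.trans ?_
    have := natDegree_pow_le (p := p.cp s) (n := 2)
    omega

theorem N_cast (p : Par) (s : p.Co) (t : ℤ × ℤ) (hb : (t.2 : ℝ) ≠ 0) :
    (p.N s t : ℝ) = (t.2 : ℝ) ^ (2 * p.k) * (p.FR s).eval ((t.1 : ℝ) / t.2) := by
  obtain ⟨m, hm⟩ : ∃ m, p.k = m + 2 := ⟨p.k - 2, by have := p.hk; omega⟩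
  have h2 := deg_cp p s
  simp only [Par.N, Par.gt, Par.ct, Par.D, Par.FR, Par.F, nrm]
  push_cast
  rw [hev_cast (deg_gp p s) _ _ hb, hev_cast h2 _ _ hb,
    hev_cast (d := 4) (by rw [p.hf.2.1]; omega) _ _ hb]
  simp only [Polynomial.map_sub, Polynomial.map_mul, Polynomial.map_pow, eval_sub, eval_mul,
    eval_pow]
  have e1 : (t.2 : ℝ) ^ p.k = t.2 ^ m * t.2 ^ 2 := by rw [hm, pow_add]
  have e2 : (t.2 : ℝ) ^ (p.k - 2) = t.2 ^ m := by rw [hm, Nat.add_sub_cancel]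
  rw [mul_comm 2 p.k, pow_mul, e1, e2]
  ring

theorem sys (hC1 : S_C1) {A : Type} [CommRing A] [Algebra ℚ A] (M : Model A) (p : Par)
    {φ : MaximalSpectrum A → A → ℝ} (hp : p.f = M.fz) (hφ : IsFn φ) (c₂ : p.Co → Pt → ℝ)
    (Q : p.Co → ℝ[X]) (Ar : p.Co → ℝ → ℝ) (h1 : ∀ s, (Q s).natDegree ≤ 2 * p.k - 1)
    (h2 : ∀ s a, (p.FR s).eval a ≠ 0 → HasDerivAt (Ar s) ((Q s).eval a / (p.FR s).eval a) a)
    (h3 : ∀ s, Q s = 0 → ∀ a, Ar s a = 0)
    (h4 : ∀ s (n : ℕ) (t : ℤ × ℤ) (x : Fin n → Pt), p.Adm t → p.Good t s x →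
      pair φ (M.sec p s) (M.fib t) = M.beta p φ + ∑ i, c₂ s (x i) + Ar s ((t.1 : ℝ) / t.2))
    (c : Cfg) {u Nc : ℕ} [NeZero Nc] {ε : ℝ} (hF : Fine p c u Nc ε) :
    ∃ G : Sys (Pset c.y c.N) (Xset p c.y c.N) (Tset p c) (Sset p c.S0 c.L) Nc u,
      G.Ok (2 * p.k - 1) ε ∧ G.b = base p c.y c.N ∧ G.σS = sideS p c.y c.N c.S0 c.L ∧
      G.c₂ = (fun x s => c₂ s.1 x.1) ∧ G.β = M.beta p φ := by
  obtain ⟨μ, hμ, hg⟩ := hF.des
  choose c₁ a1 a2 using fun t : Tset p c => hC1 A M p φ hp hφ t.1 (hF.adm t.1 t.2)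
  refine ⟨⟨base p c.y c.N, sideT p c, sideS p c.y c.N c.S0 c.L, box p c Nc, μ,
    fun x t => c₁ t x.1, fun x s => c₂ s.1 x.1, fun s => p.FR s.1, fun s => Q s.1,
    fun s => Ar s.1, -(p.e * Real.log p.r) - (u + 2) * Real.log c.y, M.beta p φ⟩,
    ⟨hμ, hF.box, fun x t h => a1 t x.1 (mem_filter.1 x.2).2 h, fun s => deg_FR p s.1,
      fun s => h1 s.1, fun s => hF.pos s.1 s.2, fun s => hF.flat s.1 s.2,
      fun s a ha => h2 s.1 a (hF.pos s.1 s.2 a ha).ne', fun s h a _ => h3 s.1 h a,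
      fun t s x h => ?_, fun t s x h => ?_⟩, rfl, rfl, rfl, rfl⟩
  · obtain ⟨g1, -, g3⟩ := hg t s x h
    have hb : (0 : ℝ) < t.1.2 := by exact_mod_cast (hF.adm t.1 t.2).1
    have hr : (0 : ℝ) < p.r := by exact_mod_cast p.hr.pos
    have hq : ∀ i, (0 : ℝ) < (x i).1.1 := fun i => by exact_mod_cast (g1 i).1.1.pos
    have e := N_cast p s.1 t.1 hb.ne'
    rw [g3] at e
    push_cast at e
    have hp' : 0 < ∏ i, ((x i).1.1 : ℝ) := Finset.prod_pos fun i _ => hq i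
    have hF0 : (p.FR s.1).eval ((t.1.1 : ℝ) / t.1.2) ≠ 0 := fun h0 => by
      rw [h0, mul_zero] at e
      exact (mul_pos (pow_pos hr _) hp').ne' e
    have e' := congrArg Real.log e
    rw [Real.log_mul (pow_pos hr _).ne' hp'.ne', Real.log_mul (pow_pos hb _).ne' hF0,
      Real.log_pow, Real.log_pow, Real.log_prod fun i _ => (hq i).ne'] at e'
    have hk : ((2 * p.k - 1 : ℕ) : ℝ) + 1 = (2 * p.k : ℕ) := by
      have := p.hk
      exact_mod_cast (by omega : 2 * p.k - 1 + 1 = 2 * p.k)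
    change ∑ i, Real.log (((x i).1.1 : ℝ) / c.y) = Real.log ((p.FR s.1).eval
      ((t.1.1 : ℝ) / t.1.2)) + (((2 * p.k - 1 : ℕ) : ℝ) + 1) * Real.log t.1.2 +
      (-(p.e * Real.log p.r) - (u + 2) * Real.log c.y)
    rw [hk, Finset.sum_congr rfl fun i _ => Real.log_div (hq i).ne' hF.ypos.ne',
      Finset.sum_sub_distrib, Finset.sum_const, Finset.card_univ, Fintype.card_fin, nsmul_eq_mul]
    push_cast at e' ⊢
    linarith
  · exact (a2 t _ s.1 _ (hg t s x h)).symm.trans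
      (h4 s.1 _ t.1 _ (hF.adm t.1 t.2) (hg t s x h))

theorem mem_of_ord {A : Type} [CommRing A] {P : MaximalSpectrum A} {f : A} (h : ord P f ≠ 0) :
    f ∈ P.asIdeal :=
  Ideal.le_of_dvd (not_not.1 fun h' => h (multiplicity_eq_zero.2 h'))
    (Ideal.mem_span_singleton_self f)

end PCore

open PCore in
theorem p_core (hA1 : S_A1) (hRad : S_Rad) (hC1 : S_C1) (hC2 : S_C2) (hNT : S_NT) (hB : S_B) :
    S_Core := by
  intro A _ _ M φ hφ h0 r γ₀ γ₁ hc
  have hinj : Function.Injective (Int.castRingHom ℚ) := RingHom.injective_int _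
  have hf : Cubic0 M.fz := ⟨monic_of_injective hinj (M.hfz ▸ M.monic),
    (natDegree_map_eq_of_injective hinj _).symm.trans (M.hfz ▸ M.deg), M.hfz ▸ M.sep, h0⟩
  obtain ⟨p, G, j, hp, hr, hj, hd⟩ := hRad M.fz hf r γ₀ γ₁ hc
  have hβ : M.beta p φ = 0 := by
    obtain ⟨u, hu, hN⟩ := hNT p
    obtain ⟨Nc, ε, hNc, hε, hb⟩ := hB u (2 * p.k - 1) hu
    have : NeZero Nc := ⟨by omega⟩
    obtain ⟨c, B', f1, f2⟩ := hN Nc ε hε
    choose c₂ Q Ar h1 h2 h3 h4 using hC2 A M p φ hp hφ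
    obtain ⟨G₁, a1, a2, a3, a4, a5⟩ := sys hC1 M p hp hφ c₂ Q Ar h1 h2 h3 h4 c f1
    obtain ⟨G₂, b1, b2, b3, b4, b5⟩ := sys hC1 M p hp hφ c₂ Q Ar h1 h2 h3 h4 _ f2
    exact a5.symm.trans (hb _ _ _ _ _ G₁ G₂ a1 b1 (b2.trans a2.symm) (b3.trans a3.symm)
      (b4.trans a4.symm) (b5.trans a5.symm))
  obtain ⟨hD, -, -, hP, -⟩ := hA1 ℚ A M.toQuad
  have hx : M.x ≠ 0 := fun h => X_ne_zero (M.inj X 0 (by simp [h])).1
  have hfin : {P : MaximalSpectrum A | ord P M.x ≠ 0}.Finite := by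
    refine Set.Finite.of_finite_image (f := fun P : MaximalSpectrum A =>
      (⟨P.asIdeal, P.isMaximal.isPrime, hP P⟩ : IsDedekindDomain.HeightOneSpectrum A))
      ((Ideal.finite_factors (I := Ideal.span {M.x}) (by simpa using hx)).subset ?_)
      fun P _ P' _ h => MaximalSpectrum.ext (congrArg IsDedekindDomain.HeightOneSpectrum.asIdeal h)
    rintro _ ⟨P, h, rfl⟩
    exact not_not.1 fun h' => h (multiplicity_eq_zero.2 h')
  have hun : ∀ (q : ℚ), q ≠ 0 → ∀ P : MaximalSpectrum A, algebraMap ℚ A q ∉ P.asIdeal :=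
    fun q hq P h => P.isMaximal.ne_top
      (Ideal.eq_top_of_isUnit_mem _ h ((IsUnit.mk0 q hq).map _))
  have hr0 : (r : ℚ) ≠ 0 := by exact_mod_cast hc.1.ne_zero
  set γ := algebraMap ℚ A γ₀ + algebraMap ℚ A γ₁ * M.y with hγ
  set ρ := algebraMap ℚ A ((r : ℚ) ^ G) with hρ
  have hρu : IsUnit ρ := (IsUnit.mk0 _ (pow_ne_zero G hr0)).map _
  have hρ0 : pair φ M.x ρ = 0 := by
    rw [hφ.recip _ _ hx hρu.ne_zero ((isUnit_iff_dvd_one.1 hρu).elim fun v hv =>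
      ⟨0, v, by rw [zero_mul, zero_add, mul_comm, ← hv]⟩), pair]
    refine finsum_eq_zero_of_forall_eq_zero fun P => ?_
    rw [not_not.1 fun h : ord P ρ ≠ 0 => hun _ (pow_ne_zero G hr0) P (mem_of_ord h)]
    simp
  have key : ∀ P : MaximalSpectrum A, M.x ∈ P.asIdeal →
      φ P (((p.g0.coeff 0 : ℤ) : A) + ((p.c0.coeff 0 : ℤ) : A) * M.y) = φ P ρ + j * φ P γ := by
    intro P hxP
    have hy : M.y ^ 2 - algebraMap ℚ A (M.fz.coeff 0 : ℚ) ∈ P.asIdeal := by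
      obtain ⟨w, hw⟩ : X ∣ M.f - C (M.fz.coeff 0 : ℚ) := by
        rw [X_dvd_iff, ← M.hfz]; simp
      have := congrArg (aeval M.x) hw
      rw [map_sub, aeval_C, map_mul, aeval_X] at this
      rw [M.rel, this]
      exact Ideal.mul_mem_right _ _ hxP
    have hγP : γ ∉ P.asIdeal := fun h => by
      obtain ⟨n, -, hn⟩ := hc.2.2.2
      refine hun (γ₀ ^ 2 - γ₁ ^ 2 * M.fz.coeff 0)
        (fun h' => pow_ne_zero n hr0 (by rw [← hn, h', abs_zero])) P ?_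
      have e : algebraMap ℚ A (γ₀ ^ 2 - γ₁ ^ 2 * M.fz.coeff 0) =
          γ * (algebraMap ℚ A γ₀ - algebraMap ℚ A γ₁ * M.y) +
            algebraMap ℚ A γ₁ ^ 2 * (M.y ^ 2 - algebraMap ℚ A (M.fz.coeff 0 : ℚ)) := by
        rw [hγ, map_sub, map_mul, map_pow, map_pow]; ring
      rw [e]
      exact add_mem (Ideal.mul_mem_right _ _ h) (Ideal.mul_mem_left _ _ hy)
    have hpow : ∀ n : ℕ, ρ * γ ^ n ∉ P.asIdeal ∧ φ P (ρ * γ ^ n) = φ P ρ + n * φ P γ := by
      intro n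
      induction n with
      | zero =>
        rw [pow_zero, mul_one]
        exact ⟨hun _ (pow_ne_zero G hr0) P, by simp⟩
      | succ n ih =>
        rw [pow_succ, ← mul_assoc]
        refine ⟨fun h => (P.isMaximal.isPrime.mem_or_mem h).elim ih.1 hγP, ?_⟩
        rw [hφ.mul P _ _ ih.1 hγP, ih.2]
        push_cast
        ring
    rw [← (hpow j).2]
    refine hφ.congr P _ _ ?_
    obtain ⟨w, hw⟩ := hd
    have := congrArg (aeval M.y) hw
    simp only [map_sub, map_add, map_mul, map_pow, aeval_C, aeval_X, map_intCast] at this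
    rw [hρ, hγ, map_pow, this]
    exact Ideal.mul_mem_right _ _ (by simpa using hy)
  have hs : ∀ h : A, (Function.support fun P : MaximalSpectrum A =>
      (ord P M.x : ℝ) * φ P h).Finite := fun h =>
    hfin.subset fun P hP h0 => hP (by simp [h0])
  have e : M.beta p φ = pair φ M.x ρ + j * pair φ M.x γ := by
    rw [Model.beta, pair, pair, pair, mul_finsum, ← finsum_add_distrib (hs ρ)
      ((hs γ).subset fun P hP h0 => hP (by simp only [h0, mul_zero]))]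
    refine finsum_congr fun P => ?_
    by_cases h : ord P M.x = 0
    · simp [h]
    · rw [key P (mem_of_ord h)]; ring
  rw [hβ, hρ0, zero_add] at e
  exact (mul_eq_zero.1 e.symm).resolve_left (by exact_mod_cast (by omega : j ≠ 0))

end Pool.Agent.P.MP_b8021b_nt.VE
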