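import Pool.Agent.P.MP_b8021b_nt.VE.BasicA

/-! A5: reduction to the rational fibres. -/

namespace Pool.Agent.P.MP_b8021b_nt.VE

open Module

namespace DegP

/-- the facts on degrees that are used -/
structure Hy (A : Type) [CommRing A] [Algebra ℚ A] : Prop where
  fin : ∀ I : Ideal A, I ≠ ⊥ → FiniteDimensional ℚ (A ⧸ I)
  mul : ∀ I J : Ideal A, I ≠ ⊥ → J ≠ ⊥ → dg ℚ (I * J) = dg ℚ I + dg ℚ J
  ne : ∀ P : MaximalSpectrum A, P.asIdeal ≠ ⊥
  one : ∀ h : A, h ≠ 0 → del ℚ h ≠ 1 ∧ (del ℚ h = 0 → ∃ c : ℚ, h = algebraMap ℚ A c)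
  rr : ∀ n : ℕ, 1 ≤ n → ∃ V : Submodule ℚ A, FiniteDimensional ℚ V ∧ finrank ℚ V = n ∧
    ∀ h, h ∈ V ↔ h = 0 ∨ del ℚ h ≤ n

variable {A : Type} [CommRing A] [Algebra ℚ A] [IsDedekindDomain A] (H : Hy A)
  {φ : MaximalSpectrum A → A → ℝ}
include H
set_option linter.unusedSectionVars false

theorem fac' {I J : Ideal A} (hJ : J ≠ ⊥) (h : J ≤ I) :
    ∃ b, b ≠ ⊥ ∧ J = I * b ∧ dg ℚ J = dg ℚ I + dg ℚ b := by
  obtain ⟨b, rfl⟩ := Ideal.dvd_iff_le.2 h
  have h1 : I ≠ ⊥ := left_ne_zero_of_mul hJ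
  have h2 : b ≠ ⊥ := right_ne_zero_of_mul hJ
  exact ⟨b, h2, rfl, H.mul _ _ h1 h2⟩

theorem fac {I : Ideal A} {h : A} (h0 : h ≠ 0) (hI : h ∈ I) :
    ∃ b, b ≠ ⊥ ∧ Ideal.span {h} = I * b ∧ del ℚ h = dg ℚ I + dg ℚ b :=
  fac' H (by simpa using h0) ((Ideal.span_singleton_le_iff_mem _).2 hI)

theorem dg_mono {I J : Ideal A} (hJ : J ≠ ⊥) (h : J ≤ I) : dg ℚ I ≤ dg ℚ J := by
  obtain ⟨b, -, -, h1⟩ := fac' H hJ h
  omega

theorem dg_le_del {I : Ideal A} {h : A} (h0 : h ≠ 0) (hI : h ∈ I) : dg ℚ I ≤ del ℚ h := by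
  obtain ⟨b, -, -, h1⟩ := fac H h0 hI
  omega

omit [IsDedekindDomain A] in
theorem dg_pos {I : Ideal A} (h0 : I ≠ ⊥) (h1 : I ≠ ⊤) : 0 < dg ℚ I := by
  have := H.fin I h0
  have := Ideal.Quotient.nontrivial_iff.2 h1
  exact finrank_pos

theorem del_mul {g q : A} (h : g * q ≠ 0) : del ℚ (g * q) = del ℚ g + del ℚ q := by
  unfold del
  rw [← Ideal.span_singleton_mul_span_singleton]
  exact H.mul _ _ (by simpa using left_ne_zero_of_mul h) (by simpa using right_ne_zero_of_mul h)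

omit H [Algebra ℚ A] [IsDedekindDomain A] in
theorem other {h : A} {m n : MaximalSpectrum A} {b : Ideal A}
    (hb : Ideal.span {h} = m.asIdeal * b) (hn : n ≠ m) (hh : h ∈ n.asIdeal) : b ≤ n.asIdeal := by
  have h1 : m.asIdeal * b ≤ n.asIdeal := hb ▸ (Ideal.span_singleton_le_iff_mem _).2 hh
  exact (n.isMaximal.isPrime.mul_le.1 h1).resolve_left fun h2 =>
    hn (MaximalSpectrum.ext (m.isMaximal.eq_of_le n.isMaximal.ne_top h2).symm)

omit H [Algebra ℚ A] in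
theorem van {h c : A} {m : MaximalSpectrum A} (hm : h ∈ m.asIdeal)
    (h1 : ∀ n, n ≠ m → h ∈ n.asIdeal → φ n c = 0) (h2 : pair φ h c = 0) : φ m c = 0 := by
  rw [pair_eq_single φ h c m h1] at h2
  exact (mul_eq_zero.1 h2).resolve_left (Nat.cast_ne_zero.2 ((ord_pos_iff m).2 hm).ne')

omit [IsDedekindDomain A] in
theorem ker_rank (V : Submodule ℚ A) [FiniteDimensional ℚ V] {I : Ideal A} (hI : I ≠ ⊥) :
    finrank ℚ V ≤ dg ℚ I + finrank ℚ ↥(V ⊓ I.restrictScalars ℚ) := by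
  have := H.fin I hI
  let f : V →ₗ[ℚ] A ⧸ I := (Ideal.Quotient.mkₐ ℚ I).toLinearMap.domRestrict V
  have h1 : LinearMap.ker f = (V ⊓ I.restrictScalars ℚ).comap V.subtype := by
    ext v
    simp [f, Ideal.Quotient.eq_zero_iff_mem]
  rw [← f.finrank_range_add_finrank_ker, h1,
    (Submodule.comapSubtypeEquivOfLe inf_le_left).finrank_eq]
  exact Nat.add_le_add_right (Submodule.finrank_le _) _

omit [IsDedekindDomain A] in
theorem ex_mem {I : Ideal A} (hI : I ≠ ⊥) : ∃ g ∈ I, g ≠ 0 ∧ del ℚ g ≤ dg ℚ I + 1 := by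
  obtain ⟨V, a, b, c⟩ := H.rr (dg ℚ I + 1) (by omega)
  have h1 := ker_rank H V hI
  obtain ⟨g, g1, g2⟩ := Submodule.exists_mem_ne_zero_of_ne_bot
    (p := V ⊓ I.restrictScalars ℚ) fun h => by
      rw [h, finrank_bot] at h1
      omega
  exact ⟨g, g1.2, g2, ((c g).1 g1.1).resolve_left g2⟩

omit [IsDedekindDomain A] in
theorem rat {I : Ideal A} (hI : I ≠ ⊥) (h : dg ℚ I ≤ 1) (x : A) :
    ∃ t : ℚ, x - algebraMap ℚ A t ∈ I := by
  by_cases h1 : I = ⊤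
  · exact ⟨0, h1 ▸ trivial⟩
  have := H.fin I hI
  have := Ideal.Quotient.nontrivial_iff.2 h1
  have h2 := dg_pos H hI h1
  obtain ⟨t, ht⟩ := (finrank_eq_one_iff_of_nonzero' (K := ℚ) (1 : A ⧸ I) one_ne_zero).1
    (le_antisymm h h2) (Ideal.Quotient.mk I x)
  refine ⟨t, Ideal.Quotient.eq.1 ?_⟩
  rw [← ht, Ideal.Quotient.mk_algebraMap, Algebra.algebraMap_eq_smul_one]

/-- a function of small degree that vanishes at `m` and is coprime to `c` -/
theorem ex_coprime (m : MaximalSpectrum A) {c : A} (h0 : c ≠ 0) (hc : c ∉ m.asIdeal) :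
    ∃ h ∈ m.asIdeal, h ≠ 0 ∧ del ℚ h ≤ dg ℚ m.asIdeal + 2 ∧ IsCoprime h c := by
  obtain ⟨V, a1, a2, a3⟩ := H.rr (dg ℚ m.asIdeal + 2) (by omega)
  have h1 := ker_rank H V (H.ne m)
  obtain ⟨g, g1, g2, g3⟩ := ex_mem H (H.ne m)
  let W := V ⊓ m.asIdeal.restrictScalars ℚ
  have hg : g ∈ W := ⟨(a3 g).2 (Or.inr (by omega)), g1⟩
  have := (finite_mem h0).to_subtype
  obtain ⟨h, hh⟩ := Submodule.exists_forall_notMem_of_forall_ne_top
    (ι := Option {n : MaximalSpectrum A | c ∈ n.asIdeal})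
    (fun o => (o.elim ⊥ fun n => n.1.asIdeal.restrictScalars ℚ).comap W.subtype) (by
      rintro (_ | ⟨n, hn⟩) e
      · exact g2 (Submodule.comap_subtype_eq_top.1 e hg)
      have e1 : W ≤ n.asIdeal.restrictScalars ℚ := Submodule.comap_subtype_eq_top.1 e
      have hne : n ≠ m := fun e2 => hc (e2 ▸ hn)
      obtain ⟨b, b1, b2, b3⟩ := fac H g2 g1
      have b4 := other b2 hne (e1 hg)
      obtain ⟨b', c1, c2, c3⟩ := fac' H b1 b4
      have p1 := dg_pos H (H.ne n) n.isMaximal.ne_top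
      have c4 : b' = ⊤ := by
        by_contra c5
        have := dg_pos H c1 c5
        omega
      rw [c4, Ideal.mul_top] at c2
      have e2 : W ≤ Submodule.span ℚ {g} := fun w hw => by
        by_cases w0 : w = 0
        · exact w0 ▸ zero_mem _
        obtain ⟨d, d1, d2, -⟩ := fac H w0 hw.2
        have d3 : w ∈ Ideal.span {g} := by
          rw [b2, c2, ← Ideal.span_singleton_le_iff_mem, d2]
          exact Ideal.mul_mono_right (other d2 hne (e1 hw))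
        obtain ⟨q, rfl⟩ := Ideal.mem_span_singleton.1 d3
        have d4 := del_mul H w0
        have d5 := ((a3 _).1 hw.1).resolve_left w0
        obtain ⟨d6, d7⟩ := H.one q (right_ne_zero_of_mul w0)
        obtain ⟨r, rfl⟩ := d7 (by omega)
        rw [mul_comm, ← Algebra.smul_def]
        exact Submodule.smul_mem _ _ (Submodule.mem_span_singleton_self g)
      have e3 := (Submodule.finrank_mono e2).trans (finrank_span_singleton g2).le
      have e4 : finrank ℚ V ≤ dg ℚ m.asIdeal + finrank ℚ W := h1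
      omega)
  have k0 : h.1 ≠ 0 := hh none
  exact ⟨h.1, h.2.2, k0, ((a3 _).1 h.2.1).resolve_left k0,
    isCoprime_of_forall fun n hn hn' => hh (some ⟨n, hn'⟩) hn⟩

theorem small (hφ : IsFn φ) (m : MaximalSpectrum A) (hd : 3 ≤ dg ℚ m.asIdeal)
    (ih : ∀ n : MaximalSpectrum A, dg ℚ n.asIdeal < dg ℚ m.asIdeal → ∀ h, φ n h = 0)
    {c : A} (h0 : c ≠ 0) (hc : del ℚ c < dg ℚ m.asIdeal) : c ∉ m.asIdeal ∧ φ m c = 0 := by
  have h1 : c ∉ m.asIdeal := fun h => absurd (dg_le_del H h0 h) (by omega)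
  obtain ⟨h, a1, a2, a3, a4⟩ := ex_coprime H m h0 h1
  obtain ⟨b, b1, b2, b3⟩ := fac H a2 a1
  refine ⟨h1, van a1 (fun n hn hh => ih n ?_ c) ?_⟩
  · have := dg_mono H b1 (other b2 hn hh)
    omega
  · rw [hφ.recip h c a2 h0 a4]
    exact pair_eq_zero φ c h fun n hn => ih n ((dg_le_del H h0 hn).trans_lt hc) h

theorem big (hφ : IsFn φ) (m : MaximalSpectrum A) (hd : 3 ≤ dg ℚ m.asIdeal)
    (ih : ∀ n : MaximalSpectrum A, dg ℚ n.asIdeal < dg ℚ m.asIdeal → ∀ h, φ n h = 0) (u : A) :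
    φ m u = 0 := by
  by_cases hu : u ∈ m.asIdeal
  · exact hφ.zero m u hu
  obtain ⟨V, a1, a2, a3⟩ := H.rr (dg ℚ m.asIdeal / 2 + 1) (by omega)
  have := H.fin _ (H.ne m)
  let f : (V × V) →ₗ[ℚ] A ⧸ m.asIdeal := (Ideal.Quotient.mkₐ ℚ m.asIdeal).toLinearMap ∘ₗ
    (V.subtype ∘ₗ LinearMap.fst ℚ V V - LinearMap.mulLeft ℚ u ∘ₗ V.subtype ∘ₗ LinearMap.snd ℚ V V)
  obtain ⟨⟨c, c'⟩, k1, k2⟩ := Submodule.exists_mem_ne_zero_of_ne_bot
    (LinearMap.ker_ne_bot_of_finrank_lt (f := f) (by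
      rw [finrank_prod, a2]
      show dg ℚ m.asIdeal < _
      omega))
  have k3 : c.1 - u * c'.1 ∈ m.asIdeal := Ideal.Quotient.eq_zero_iff_mem.1 k1
  have s : ∀ v : V, v.1 ≠ 0 → v.1 ∉ m.asIdeal ∧ φ m v.1 = 0 := fun v hv =>
    small H hφ m hd ih hv (by
      have := ((a3 _).1 v.2).resolve_left hv
      omega)
  have k4 : c'.1 ≠ 0 := fun e => by
    rw [e, mul_zero, sub_zero] at k3
    exact (s c fun e' => k2 (Prod.ext (Subtype.ext e') (Subtype.ext e))).1 k3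
  have k5 : c.1 ≠ 0 := fun e => by
    rw [e, zero_sub, neg_mem_iff] at k3
    exact (m.isMaximal.isPrime.mem_or_mem k3).elim hu (s c' k4).1
  have k6 := hφ.congr m _ _ k3
  rwa [hφ.mul m _ _ hu (s c' k4).1, (s c k5).2, (s c' k4).2, add_zero, eq_comm] at k6

omit [IsDedekindDomain A] in
theorem span_two (m : MaximalSpectrum A) (hd : dg ℚ m.asIdeal = 2) {x : A}
    (hx : ∀ t : ℚ, x - algebraMap ℚ A t ∉ m.asIdeal) (u : A) :
    (∃ a : ℚ, u - algebraMap ℚ A a ∈ m.asIdeal) ∨ ∃ b t : ℚ, b ≠ 0 ∧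
      u - algebraMap ℚ A b * (x - algebraMap ℚ A t) ∈ m.asIdeal := by
  have := H.fin _ (H.ne m)
  have := Ideal.Quotient.nontrivial_iff.2 m.isMaximal.ne_top
  have li : LinearIndependent ℚ ![(1 : A ⧸ m.asIdeal), Ideal.Quotient.mk _ x] :=
    (LinearIndependent.pair_iff' one_ne_zero).2 fun t ht => hx t (Ideal.Quotient.eq.1 (by
      rw [← ht, Ideal.Quotient.mk_algebraMap, Algebra.algebraMap_eq_smul_one]))
  have h1 := li.span_eq_top_of_card_eq_finrank' (by rw [Fintype.card_fin]; exact hd.symm)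
  obtain ⟨c, hc⟩ := (Submodule.mem_span_range_iff_exists_fun ℚ).1
    (h1 ▸ Submodule.mem_top (x := Ideal.Quotient.mk m.asIdeal u))
  have h2 : u - (algebraMap ℚ A (c 0) + algebraMap ℚ A (c 1) * x) ∈ m.asIdeal := by
    refine Ideal.Quotient.eq.1 ?_
    rw [← hc]
    simp [Algebra.smul_def]
  by_cases h3 : c 1 = 0
  · exact Or.inl ⟨c 0, by simpa [h3] using h2⟩
  · refine Or.inr ⟨c 1, -(c 0 / c 1), h3, ?_⟩
    rw [mul_sub, ← map_mul, mul_neg, mul_div_cancel₀ _ h3, map_neg, sub_neg_eq_add, add_comm]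
    exact h2

theorem two (hφ : IsFn φ) {x : A} (x0 : ∀ t : ℚ, x - algebraMap ℚ A t ≠ 0)
    (hP : ∀ (P : MaximalSpectrum A) (t : ℚ), x - algebraMap ℚ A t ∈ P.asIdeal → ∀ h, φ P h = 0)
    (m : MaximalSpectrum A) (hd : dg ℚ m.asIdeal = 2) (u : A) : φ m u = 0 := by
  by_cases hx : ∃ t : ℚ, x - algebraMap ℚ A t ∈ m.asIdeal
  · obtain ⟨t, ht⟩ := hx
    exact hP m t ht u
  push Not at hx
  obtain ⟨h, a1, a2, a3⟩ := ex_mem H (H.ne m)
  obtain ⟨b, b1, b2, b3⟩ := fac H a2 a1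
  obtain ⟨q, hq⟩ := rat H b1 (by omega) x
  have un : ∀ a : ℚ, a ≠ 0 → IsUnit (algebraMap ℚ A a) := fun a ha => ha.isUnit.map _
  have v : ∀ c, pair φ h c = 0 → φ m c = 0 := fun c =>
    van a1 fun n hn hh => hP n q (other b2 hn hh hq) c
  have c1 : ∀ a : ℚ, φ m (algebraMap ℚ A a) = 0 := fun a => by
    by_cases ha : a = 0
    · exact hφ.zero m _ (by simp [ha])
    · exact v _ (hφ.pair_unit_right a2 (un a ha))
  have c2 : ∀ t, t ≠ q → φ m (x - algebraMap ℚ A t) = 0 := fun t ht => v _ (by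
    rw [hφ.recip h _ a2 (x0 t) (isCoprime_of_forall fun n hn hn' => by
      by_cases e : n = m
      · exact hx t (e ▸ hn')
      · have := sub_mem (other b2 e hn hq) hn'
        rw [sub_sub_sub_cancel_left, ← map_sub] at this
        exact not_mem_of_isUnit n (un _ (sub_ne_zero.2 ht)) this)]
    exact pair_eq_zero φ _ h fun n hn => hP n t hn h)
  have c3 : ∀ b t : ℚ, b ≠ 0 → φ m (algebraMap ℚ A b * (x - algebraMap ℚ A t)) =
      φ m (x - algebraMap ℚ A t) := fun b t hb => by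
    rw [hφ.mul m _ _ (not_mem_of_isUnit m (un b hb)) (hx t), c1, zero_add]
  have c4 : φ m (x - algebraMap ℚ A q) = 0 := by
    have e := hφ.mul m _ _ (hx q) (hx (q + 1))
    rw [c2 (q + 1) (by simp), add_zero] at e
    rw [← e]
    rcases span_two H m hd hx ((x - algebraMap ℚ A q) * (x - algebraMap ℚ A (q + 1))) with
      ⟨a, ha⟩ | ⟨b, t, hb, ha⟩
    · rw [hφ.congr m _ _ ha, c1]
    · rw [hφ.congr m _ _ ha, c3 b t hb]
      refine c2 t fun e' => ?_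
      rw [e', mul_comm (algebraMap ℚ A b), ← mul_sub, sub_sub, ← map_add] at ha
      exact (m.isMaximal.isPrime.mem_or_mem ha).elim (hx _) (hx _)
  rcases span_two H m hd hx u with ⟨a, ha⟩ | ⟨b, t, hb, ha⟩
  · rw [hφ.congr m _ _ ha, c1]
  · rw [hφ.congr m _ _ ha, c3 b t hb]
    by_cases e : t = q
    · rw [e, c4]
    · exact c2 t e

end DegP

open DegP in
theorem p_deg (hA1 : S_A1) : S_Deg := by
  intro A _ _ M φ hφ hP
  obtain ⟨a0, a1, a2, a3, -, a5, -, a7⟩ := hA1 ℚ A M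
  have H : Hy A := ⟨a1, a2, a3, a5, a7⟩
  suffices ∀ (d : ℕ) (P : MaximalSpectrum A), dg ℚ P.asIdeal = d → ∀ h, φ P h = 0 from
    fun P => this _ P rfl
  intro d
  induction d using Nat.strong_induction_on with
  | _ d ih =>
    intro P hd
    rcases lt_trichotomy d 2 with h | h | h
    · obtain ⟨t, ht⟩ := rat H (H.ne P) (by omega) M.x
      exact hP P t ht
    · exact two H hφ M.x_sub_ne_zero hP P (hd.trans h)
    · exact big H hφ P (by omega) fun n hn => ih _ (hd ▸ hn) n rfl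

end Pool.Agent.P.MP_b8021b_nt.VE
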