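import Pool.Agent.P.MP_b8021b_nt.VE.PDvd3
import Pool.Agent.P.MP_0ad054_nt.Div

/-! N17: a given modulus rarely divides `8 n ^ 2`. -/

namespace Pool.Agent.P.MP_b8021b_nt.VE

open Finset
open scoped Classical

namespace Dvd

lemma exists_h (c d : ℕ) (hc : 1 ≤ c) :
    ∃ h : ℕ, 1 ≤ h ∧ (h = 1 ∨ c * h ^ 216 ≤ d) ∧ d ≤ (2 * c * h) ^ 216 := by
  have hex : ∃ k : ℕ, d < c * (k + 2) ^ 216 := by
    refine ⟨d, ?_⟩
    have h1 : d + 2 ≤ (d + 2) ^ 216 := Nat.le_self_pow (by norm_num) _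
    have h2 : (d + 2) ^ 216 ≤ c * (d + 2) ^ 216 := Nat.le_mul_of_pos_left _ hc
    omega
  have h1 := Nat.find_spec hex
  refine ⟨Nat.find hex + 1, by omega, ?_, ?_⟩
  · rcases Nat.eq_zero_or_pos (Nat.find hex) with h0 | h0
    · left; omega
    · right
      have := Nat.find_min hex (m := Nat.find hex - 1) (by omega)
      rw [show Nat.find hex - 1 + 2 = Nat.find hex + 1 by omega] at this
      exact not_lt.mp this
  · generalize Nat.find hex = k at h1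
    refine h1.le.trans ?_
    rw [show 2 * c * (k + 1) = c * (2 * (k + 1)) by ring, mul_pow]
    exact Nat.mul_le_mul (Nat.le_self_pow (by norm_num) _) (Nat.pow_le_pow_left (by omega) _)

lemma set0 (hTheta : S_Theta) (hTEq : S_TEq) (hFlat : S_Flat) (F : Fix) :
    ∃ W C₁ : ℝ, F.Ev fun c => ∃ Mx : ℕ, Set0 F.p c (4 * c.N * Real.log c.y / c.y) W C₁ Mx := by
  obtain ⟨C, hC, hF⟩ := hFlat F.p F.τ0
  set M : ℕ := M0 F.p.r F.z * F.p.r ^ F.p.n0 with hM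
  have hM0 : 0 < M := Nat.mul_pos (M0_pos _ _) (pow_pos F.p.r_pos _)
  refine ⟨2 * (M : ℝ) ^ 2 / F.η ^ 2, 2 * C + 2, ?_⟩
  refine (((((hF F rfl rfl).and (Fix.Ev.of_N (hTheta (6 * F.A + 1)))).and F.ev_N).and
    (F.ev_y_ge 3)).and (F.ev_y_ge (6 * M / F.η))).mono ?_
  rintro c hi ⟨⟨⟨⟨⟨-, -, -, h1, -⟩, -, h2, h3, h4⟩, h5, -⟩, h6⟩, h7⟩
  have hy : 1 ≤ c.y := by linarith
  have hB := hi.one_le_B hy
  have hη := F.ηpos
  have hyB : c.y ≤ c.B := (le_self_pow₀ hy (by norm_num)).trans hi.B_ge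
  have hS := (hTEq F.p c 1 ∅ c.τ0 c.τ0 c.B c.B hi.τ0_le hi.η_pos hi.η_le le_rfl
    (Nat.coprime_one_left _) (by
      rw [hi.z, mul_one, ← hM, hi.η]
      rw [div_le_iff₀ hη] at h7
      nlinarith) le_rfl le_rfl (by linarith [hi.η_pos]) le_rfl le_rfl
      (by nlinarith [hi.η_pos])).1
  rw [hi.z, ← hM, hi.η] at hS
  have hS0 : 0 < F.η ^ 2 * c.B / (2 * (M : ℝ) ^ 2) := by positivity
  refine ⟨⌈2 * C * c.B⌉₊, fun q hq => ?_, ?_, h5, fun t ht => ?_, fun t ht => ⟨hi.wT_nonneg hy ht, ?_⟩,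
    ?_, ?_, by linarith, ?_, by positivity⟩
  · obtain ⟨a1, -, a2, -, -, a3, a4⟩ := h4 q hq
    exact ⟨a1, a2, a3, a4⟩
  · rw [Pset, sum_biUnion, sum_congr rfl fun i hi => h2 i (mem_range.mp hi)]
    · simp
    · intro i _ j _ hij
      exact disjoint_left.mpr fun q hq hq' => hij ((h3 i q hq).symm.trans (h3 j q hq'))
  · obtain ⟨a1, a2, -⟩ := h1 t ht
    have a3 := hi.t2_pos hy ht
    have a4 := hi.t2_le hy ht
    have a5 := Nat.le_ceil (2 * C * c.B)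
    have a6 : -((⌈2 * C * c.B⌉₊ : ℕ) : ℝ) ≤ t.1 := by
      have := neg_abs_le (t.1 : ℝ)
      nlinarith
    have a7 : (t.2 : ℝ) ≤ ((⌈2 * C * c.B⌉₊ : ℕ) : ℝ) := by nlinarith
    have a8 : -((⌈2 * C * c.B⌉₊ : ℕ) : ℤ) ≤ t.1 := by exact_mod_cast a6
    have a9 : t.2 ≤ ((⌈2 * C * c.B⌉₊ : ℕ) : ℤ) := by exact_mod_cast a7
    simp only [mem_product, mem_Icc]
    omega
  · have a1 := (Tset_prop ht).1
    calc wT F.p c t ≤ c.B⁻¹ / (F.η ^ 2 * c.B / (2 * (M : ℝ) ^ 2)) :=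
          div_le_div₀ (by positivity) (inv_anti₀ (by linarith) a1) hS0 hS
      _ = _ := by field_simp
  · simp only [wT]
    rw [← sum_div]
    exact div_self_le_one _
  · have := Nat.ceil_lt_add_one (show 0 ≤ 2 * C * c.B by positivity)
    nlinarith
  · have : c.y ^ 4 = c.y ^ 2 * c.y ^ 2 := by ring
    have : 9 ≤ c.y ^ 2 := by nlinarith
    nlinarith [hi.B_ge]

end Dvd

open _root_.Pool.Agent.P.MP_b8021b_nt.VE.Dvd in
theorem p_dvd (hTheta : S_Theta) (hTEq : S_TEq) (hFlat : S_Flat) : S_Dvd := by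
  refine ⟨1 / 432, by norm_num, fun F => ?_⟩
  obtain ⟨W, C₁, hS⟩ := set0 hTheta hTEq hFlat F
  obtain ⟨Cτ, hCτ, hτ⟩ := Pool.Agent.P.MP_0ad054_nt.tau_le (ε := 1 / 432) (by norm_num)
  set k : ℕ := 32 * F.p.r ^ (2 * F.p.n0) with hk
  have hk1 : 1 ≤ k := Nat.mul_pos (by norm_num) (pow_pos F.p.r_pos _)
  set K : ℝ := W * C₁ with hK
  refine ⟨Cτ * (8 * (K * (C₁ + 1)) * (1 + 5 * (K * (C₁ * (2 * k) + 1))) +
    4 * (K * (C₁ * (2 * k) + 9))), ?_⟩
  refine (((hS.and F.ev_N).and (F.ev_log_pow_le 4 (6 * F.A + 2) (δ := 1 / 432) (by norm_num))).and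
    (F.ev_y_ge 3)).mono ?_
  rintro c hi ⟨⟨⟨⟨Mx, H⟩, -, hN⟩, hl⟩, hy⟩ d hd hdy
  obtain ⟨h, hh, hc, hd2⟩ := exists_h k d hk1
  have hlog : 0 ≤ Real.log c.y := Real.log_nonneg (by linarith)
  have hy0 : 0 < c.y := by linarith
  refine (H.core hd hh (by positivity) hc).trans ?_
  have hτd := hτ d
  unfold Pool.Agent.P.MP_0ad054_nt.tau at hτd
  have hd0 : (1 : ℝ) ≤ d := by exact_mod_cast hd
  rw [Real.rpow_neg (by linarith), Real.rpow_neg hy0.le]
  have es : ((d : ℝ) ^ (1 / 432 : ℝ)) ^ 432 = d := by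
    rw [← Real.rpow_natCast, ← Real.rpow_mul (by linarith)]; norm_num
  have ew : (c.y ^ (1 / 432 : ℝ)) ^ 432 = c.y := by
    rw [← Real.rpow_natCast, ← Real.rpow_mul hy0.le]; norm_num
  have hs1 : 1 ≤ (d : ℝ) ^ (1 / 432 : ℝ) := Real.one_le_rpow hd0 (by norm_num)
  have hw1 : 1 ≤ c.y ^ (1 / 432 : ℝ) := Real.one_le_rpow (by linarith) (by norm_num)
  generalize (d : ℝ) ^ (1 / 432 : ℝ) = s at *
  generalize c.y ^ (1 / 432 : ℝ) = w at *
  have hs0 : 0 < s := by linarith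
  have hw0 : 0 < w := by linarith
  have hW := H.W0
  have hC := H.C0
  have hB := H.Bpos
  have hK0 : 0 ≤ K := by positivity
  have hh0 : (0 : ℝ) < h := by exact_mod_cast hh
  set E : ℝ := s⁻¹ + w⁻¹ with hE
  have hE1 : s⁻¹ ≤ E := le_add_of_nonneg_right (by positivity)
  have hE2 : w⁻¹ ≤ E := le_add_of_nonneg_left (by positivity)
  have a1 : s ≤ w ^ 151 := by
    refine le_of_pow_le_pow_left₀ (n := 432) (by norm_num) (by positivity) ?_
    rw [es, ← pow_mul, mul_comm, pow_mul, ew]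
    exact hdy
  have a2 : s ^ 2 ≤ 2 * k * h := by
    refine le_of_pow_le_pow_left₀ (n := 216) (by norm_num) (by positivity) ?_
    rw [← pow_mul, es]
    exact_mod_cast hd2
  have b1 : s * (C₁ / h) ≤ C₁ * (2 * k) * E := by
    refine le_trans ?_ (mul_le_mul_of_nonneg_left hE1 (by positivity))
    have : s / h ≤ 2 * k / s := by
      rw [div_le_div_iff₀ hh0 hs0]; nlinarith
    calc s * (C₁ / h) = C₁ * (s / h) := by ring
      _ ≤ C₁ * (2 * k / s) := mul_le_mul_of_nonneg_left this hC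
      _ = _ := by ring
  have a3 : s * w * w ≤ c.y := by
    calc s * w * w ≤ w ^ 151 * w * w := by gcongr
      _ = w ^ 153 := by ring
      _ ≤ w ^ 432 := pow_le_pow_right₀ hw1 (by norm_num)
      _ = _ := ew
  have b0 : s * (w / c.y) ≤ E := by
    refine le_trans ?_ hE2
    rw [← mul_div_assoc, div_le_iff₀ hy0, inv_mul_eq_div, le_div_iff₀ hw0]
    exact a3
  have b2 : s * (4 * c.N * Real.log c.y / c.y) ≤ E := by
    refine le_trans (mul_le_mul_of_nonneg_left (div_le_div_of_nonneg_right ?_ hy0.le) hs0.le) b0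
    refine le_trans ?_ hl
    rw [pow_succ, ← mul_assoc]
    gcongr
  have b3 : s * (c.y ^ 2 / c.B) ≤ E := by
    refine le_trans (mul_le_mul_of_nonneg_left ?_ hs0.le) b0
    rw [div_le_div_iff₀ hB hy0]
    have : c.y ^ 2 * c.y ≤ c.y ^ 4 := by
      rw [← pow_succ]; exact pow_le_pow_right₀ (by linarith) (by norm_num)
    nlinarith [hi.B_ge]
  have b4 : s * (1 / c.B) ≤ E := by
    refine le_trans (mul_le_mul_of_nonneg_left (div_le_div_of_nonneg_right ?_ hB.le) hs0.le) b3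
    exact one_le_pow₀ (by linarith)
  calc _ ≤ Cτ * s * (8 * (K * (C₁ + 1)) * (4 * c.N * Real.log c.y / c.y +
        5 * (K * (C₁ / h + 1 / c.B))) + 4 * (K * (C₁ / h + 9 * c.y ^ 2 / c.B))) :=
        mul_le_mul_of_nonneg_right hτd (by positivity)
    _ = Cτ * (8 * (K * (C₁ + 1)) * (s * (4 * c.N * Real.log c.y / c.y) +
        5 * (K * (s * (C₁ / h) + s * (1 / c.B)))) +
          4 * (K * (s * (C₁ / h) + 9 * (s * (c.y ^ 2 / c.B))))) := by ring
    _ ≤ Cτ * (8 * (K * (C₁ + 1)) * (E + 5 * (K * (C₁ * (2 * k) * E + E))) +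
          4 * (K * (C₁ * (2 * k) * E + 9 * E))) := by gcongr
    _ = _ := by ring

end Pool.Agent.P.MP_b8021b_nt.VE
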