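import Pool.Agent.P.MP_b8021b_nt.VE.StN

/-! Package N17: the Dirichlet characters modulo `8 n ^ 2` are rarely bad. -/

namespace Pool.Agent.P.MP_b8021b_nt.VE

open Polynomial NumberField Finset Filter
open scoped Classical

namespace E2avg

theorem wt_nonneg (y : ℝ) (N q : ℕ) : 0 ≤ wt y N q :=
  div_nonneg (Real.log_natCast_nonneg q) (sum_nonneg fun q' _ => Real.log_natCast_nonneg q')

theorem snd_nonneg {p : Par} {c : Cfg} {t : ℤ × ℤ} (h : t ∈ Tset p c) : (0 : ℝ) ≤ t.2 := by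
  have := (mem_Icc.1 (mem_product.1 (mem_filter.1 h).1).2).1
  exact_mod_cast this

theorem wT_nonneg {p : Par} {c : Cfg} {t : ℤ × ℤ} (h : t ∈ Tset p c) : 0 ≤ wT p c t :=
  div_nonneg (inv_nonneg.2 (snd_nonneg h)) (sum_nonneg fun _ h' => inv_nonneg.2 (snd_nonneg h'))

theorem qs_mono (p : Par) (c : Cfg) {Φ Ψ : Pt → Pt → ℤ × ℤ → ℤ × ℤ → ℝ}
    (h : ∀ x x' t t', IsQ p c x x' t t' → Φ x x' t t' ≤ Ψ x x' t t') : Qs p c Φ ≤ Qs p c Ψ := by
  unfold Qs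
  refine sum_le_sum fun x _ => sum_le_sum fun x' _ => sum_le_sum fun t ht =>
    sum_le_sum fun t' ht' => ?_
  split_ifs with hq
  · refine mul_le_mul_of_nonneg_left (h _ _ _ _ hq) ?_
    have := wt_nonneg c.y c.N x.1
    have := wt_nonneg c.y c.N x'.1
    have := wT_nonneg ht
    have := wT_nonneg ht'
    positivity
  · exact le_rfl

theorem qs_sum (p : Par) (c : Cfg) (s : Finset ℕ) (a : ℕ → ℝ)
    (Φ : ℕ → Pt → Pt → ℤ × ℤ → ℤ × ℤ → ℝ) :
    Qs p c (fun x x' t t' => ∑ d ∈ s, a d * Φ d x x' t t') = ∑ d ∈ s, a d * Qs p c (Φ d) := by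
  unfold Qs
  simp only [mul_sum]
  rw [sum_comm (s := s)]
  refine sum_congr rfl fun x _ => ?_
  rw [sum_comm (s := s)]
  refine sum_congr rfl fun x' _ => ?_
  rw [sum_comm (s := s)]
  refine sum_congr rfl fun t _ => ?_
  rw [sum_comm (s := s)]
  refine sum_congr rfl fun t' _ => ?_
  split_ifs
  · exact sum_congr rfl fun d _ => by ring
  · simp

theorem ev_log (n : ℕ) (K s : ℝ) (hK : 0 < K) (hs : 0 < s) :
    ∀ᶠ y : ℝ in atTop, K * Real.log y ^ n ≤ y ^ s := by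
  have h := (isLittleO_log_rpow_rpow_atTop (n : ℝ) hs).bound (inv_pos.2 hK)
  filter_upwards [h, eventually_ge_atTop 1] with y h1 h2
  have hl : 0 ≤ Real.log y := Real.log_nonneg h2
  rw [Real.rpow_natCast, Real.norm_of_nonneg (pow_nonneg hl n),
    Real.norm_of_nonneg (Real.rpow_nonneg (by linarith) s)] at h1
  calc K * Real.log y ^ n ≤ K * (K⁻¹ * y ^ s) := by gcongr
    _ = y ^ s := by field_simp

theorem prime_of {p : Par} {y : ℝ} {N : ℕ} {x : Pt} (h : x ∈ Xset p y N) : x.1.Prime :=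
  (mem_filter.1 h).2.1

/-- the pointwise bound -/
theorem ind_le (e : ℕ → ℝ) (he : ∀ d, 0 ≤ e d) (m Y Z : ℕ) (hm : 1 ≤ m) (hmY : m ≤ Y)
    (E δ r : ℝ) (hδ : 0 < δ) (hE : E ≤ ∑ d ∈ m.divisors, e d + r)
    (hZ : ∑ d ∈ Finset.Icc 1 Z, e d + r ≤ δ / 2) (hlt : δ < E) :
    1 ≤ ∑ d ∈ Finset.Icc 1 Y \ Finset.Icc 1 Z, 2 / δ * e d * (if d ∣ m then 1 else 0) := by
  have h1 : ∑ d ∈ m.divisors, e d ≤ ∑ d ∈ Finset.Icc 1 Z, e d +
      ∑ d ∈ Finset.Icc 1 Y \ Finset.Icc 1 Z, e d * (if d ∣ m then 1 else 0) := by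
    rw [← sum_inter_add_sum_sdiff m.divisors (Finset.Icc 1 Z)]
    refine add_le_add (sum_le_sum_of_subset_of_nonneg inter_subset_right fun d _ _ => he d) ?_
    simp only [mul_ite, mul_one, mul_zero]
    rw [← sum_filter]
    refine sum_le_sum_of_subset_of_nonneg (fun d hd => ?_) fun d _ _ => he d
    obtain ⟨h1, h2⟩ := mem_sdiff.1 hd
    have h3 := Nat.dvd_of_mem_divisors h1
    exact mem_filter.2 ⟨mem_sdiff.2 ⟨mem_Icc.2 ⟨Nat.pos_of_mem_divisors h1,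
      (Nat.le_of_dvd hm h3).trans hmY⟩, h2⟩, h3⟩
  have h2 : δ / 2 ≤ ∑ d ∈ Finset.Icc 1 Y \ Finset.Icc 1 Z, e d * (if d ∣ m then 1 else 0) := by
    linarith
  simp only [mul_assoc]
  rw [← mul_sum]
  calc (1 : ℝ) = 2 / δ * (δ / 2) := by field_simp
    _ ≤ _ := by gcongr

end E2avg

open E2avg in
theorem p_e2avg (hE2 : S_E2) (hDvd : S_Dvd) (hFlat : S_Flat) (hPi : S_Pi) : S_E2avg := by
  obtain ⟨u₀, h1⟩ := hE2 151
  obtain ⟨c₀, hc₀, h2⟩ := hDvd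
  refine ⟨u₀, fun F hu _ A' => ?_⟩
  obtain ⟨C', h3⟩ := h1 F.u hu (6 * F.A + 1)
  obtain ⟨C, y₂, h4⟩ := h2 F
  obtain ⟨Cf, -, h5⟩ := hFlat F.p F.τ0
  obtain ⟨y₃, h5⟩ := h5 F rfl rfl
  obtain ⟨A₁, hA₁⟩ := exists_nat_ge (((2 * A' + C' + 1 : ℕ) : ℝ) / c₀)
  obtain ⟨y₁, h6⟩ := h3 (A₁ + A' + 2)
  set K : ℝ := max C 1 with hK
  have hK1 : 1 ≤ K := le_max_right _ _
  have hev : ∀ᶠ y : ℝ in atTop, y₁ ≤ y ∧ y₂ ≤ y ∧ y₃ ≤ y ∧ 8 ≤ y ∧ 4 * K ≤ Real.log y ∧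
      4 * Real.log y ^ A' ≤ y ^ (1 : ℝ) ∧ 4 * K * Real.log y ^ (2 * A' + C') ≤ y ^ c₀ := by
    filter_upwards [eventually_ge_atTop y₁, eventually_ge_atTop y₂, eventually_ge_atTop y₃,
      eventually_ge_atTop 8, Real.tendsto_log_atTop.eventually_ge_atTop (4 * K),
      ev_log A' 4 1 (by norm_num) one_pos, ev_log (2 * A' + C') (4 * K) c₀ (by positivity) hc₀]
      with y a1 a2 a3 a4 a5 a6 a7 using ⟨a1, a2, a3, a4, a5, a6, a7⟩
  obtain ⟨y₀, hy₀⟩ := eventually_atTop.1 hev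
  refine ⟨y₀, fun c hc hin => ?_⟩
  obtain ⟨a1, a2, a3, a4, a5, a6, a7⟩ := hy₀ c.y hc
  rw [Real.rpow_one] at a6
  set l := Real.log c.y with hl
  have hl4 : 4 ≤ l := by linarith
  have hl1 : 1 ≤ l := by linarith
  have hl0 : 0 < l := by linarith
  have hy0 : 0 < c.y := by linarith
  have hN1 : 1 ≤ c.N := by
    have : (1 : ℝ) ≤ c.N := (one_le_pow₀ hl1).trans hin.N_ge
    exact_mod_cast this
  have hN2 : (c.N : ℝ) ≤ l ^ (6 * F.A + 1) := by
    refine hin.N_le.trans ?_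
    rw [pow_succ, mul_comm]
    gcongr
    linarith
  obtain ⟨e, he, b1, b2, b3⟩ := h6 c.y a1 c.N hN1 hN2
  obtain ⟨-, -, -, f4, f5⟩ := h5 c a3 hin
  have hB : 0 < c.B := lt_of_lt_of_le (by positivity) hin.B_ge
  set δ : ℝ := (l ^ A')⁻¹ with hδ
  have hδ0 : 0 < δ := by positivity
  set Y := ⌊c.y ^ 151⌋₊ with hY
  set Z := ⌊l ^ (A₁ + A' + 2)⌋₊ with hZ
  have hsm : ∑ d ∈ Finset.Icc 1 Z, e d + 1 / c.y ≤ δ / 2 := by
    have e1 : (l ^ (A₁ + A' + 2))⁻¹ ≤ δ / 4 := by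
      rw [hδ, div_eq_mul_inv, ← mul_inv]
      apply inv_anti₀ (by positivity)
      calc l ^ A' * 4 ≤ l ^ A' * l ^ (A₁ + 2) := by
            gcongr
            exact hl4.trans (le_self_pow₀ hl1 (by omega))
        _ = l ^ (A₁ + A' + 2) := by ring
    have e2 : 1 / c.y ≤ δ / 4 := by
      rw [hδ, div_eq_mul_inv (l ^ A')⁻¹, ← mul_inv, one_div]
      apply inv_anti₀ (by positivity)
      linarith
    linarith
  have hpt : Qs F.p c (fun x x' t t' => if dl t t' ≠ 0 ∧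
      δ < E2 c.y c.N F.u (8 * nn F.p x x' t t' ^ 2) then 1 else 0) ≤
      Qs F.p c (fun x x' t t' => ∑ d ∈ Finset.Icc 1 Y \ Finset.Icc 1 Z, 2 / δ * e d *
        (if dl t t' ≠ 0 ∧ d ∣ 8 * nn F.p x x' t t' ^ 2 then 1 else 0)) := by
    refine qs_mono _ _ fun x x' t t' hq => ?_
    split_ifs with h
    · have hD : ∀ t ∈ Tset F.p c, t.1 ≠ 0 ∧ F.p.D t ≠ 0 := by
        intro t ht
        obtain ⟨g1, -, g3, -⟩ := f4 t ht
        refine ⟨g1.ne, fun h0 => ?_⟩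
        rw [h0] at g3
        have : 0 < c.B ^ 4 := by positivity
        simp only [Int.cast_zero, neg_zero] at g3
        linarith
      have hn : nn F.p x x' t t' ≠ 0 := by
        unfold nn
        have := (prime_of hq.hx).ne_zero
        have := (prime_of hq.hx').ne_zero
        have := F.p.hr.ne_zero
        have := hD t hq.ht
        have := hD t' hq.ht'
        have := h.1
        simp_all
      have hm1 : 1 ≤ 8 * nn F.p x x' t t' ^ 2 := Nat.pos_of_ne_zero (by positivity)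
      have hm2 : ((8 * nn F.p x x' t t' ^ 2 : ℕ) : ℝ) ≤ c.y ^ 151 := by
        have := f5 x x' t t' hq
        push_cast
        calc (8 : ℝ) * (nn F.p x x' t t' : ℝ) ^ 2 ≤ c.y * (c.y ^ 75) ^ 2 := by gcongr
          _ = c.y ^ 151 := by ring
      have := ind_le e he _ Y Z hm1 (Nat.le_floor hm2) _ δ _ hδ0 (b3 _ hm1 hm2) hsm h.2
      simpa only [h.1, ne_eq, not_false_eq_true, true_and] using this
    · refine sum_nonneg fun d _ => ?_
      have := he d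
      positivity
  refine hpt.trans ?_
  rw [qs_sum]
  set η : ℝ := (4 * K * l ^ (2 * A' + C'))⁻¹ with hη
  have hterm : ∀ d ∈ Finset.Icc 1 Y \ Finset.Icc 1 Z, 2 / δ * e d * Qs F.p c (fun x x' t t' =>
      if dl t t' ≠ 0 ∧ d ∣ 8 * nn F.p x x' t t' ^ 2 then 1 else 0) ≤
      2 / δ * e d * (K * (η + η)) := by
    intro d hd
    obtain ⟨d1, d2⟩ := mem_sdiff.1 hd
    obtain ⟨d3, d4⟩ := mem_Icc.1 d1
    have d5 : (d : ℝ) ≤ c.y ^ 151 := (Nat.le_floor_iff (by positivity)).1 d4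
    have d6 : l ^ (A₁ + A' + 2) < d := by
      apply Nat.lt_of_floor_lt
      by_contra h
      exact d2 (mem_Icc.2 ⟨d3, not_lt.1 h⟩)
    have d0 : (0 : ℝ) < d := by exact_mod_cast d3
    have g1 : (d : ℝ) ^ (-c₀) ≤ η := by
      rw [Real.rpow_neg d0.le]
      apply inv_anti₀ (by positivity)
      calc 4 * K * l ^ (2 * A' + C') ≤ l * l ^ (2 * A' + C') := by gcongr
        _ = l ^ ((2 * A' + C' + 1 : ℕ) : ℝ) := by rw [Real.rpow_natCast]; ring
        _ ≤ l ^ (((A₁ + A' + 2 : ℕ) : ℝ) * c₀) := by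
            apply Real.rpow_le_rpow_of_exponent_le hl1
            rw [div_le_iff₀ hc₀] at hA₁
            refine hA₁.trans ?_
            gcongr
            omega
        _ = (l ^ (A₁ + A' + 2)) ^ c₀ := by rw [Real.rpow_mul hl0.le, Real.rpow_natCast]
        _ ≤ (d : ℝ) ^ c₀ := by gcongr
    have g2 : c.y ^ (-c₀) ≤ η := by
      rw [Real.rpow_neg hy0.le]
      exact inv_anti₀ (by positivity) a7
    have := he d
    refine mul_le_mul_of_nonneg_left ((h4 c a2 hin d d3 d5).trans ?_) (by positivity)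
    calc C * ((d : ℝ) ^ (-c₀) + c.y ^ (-c₀)) ≤ K * ((d : ℝ) ^ (-c₀) + c.y ^ (-c₀)) :=
          mul_le_mul_of_nonneg_right (le_max_left _ _) (by positivity)
      _ ≤ K * (η + η) := by gcongr
  refine (sum_le_sum hterm).trans ?_
  rw [← sum_mul, ← mul_sum]
  have hs : ∑ d ∈ Finset.Icc 1 Y \ Finset.Icc 1 Z, e d ≤ l ^ C' :=
    (sum_le_sum_of_subset_of_nonneg sdiff_subset fun d _ _ => he d).trans b1
  calc 2 / δ * (∑ d ∈ Finset.Icc 1 Y \ Finset.Icc 1 Z, e d) * (K * (η + η))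
      ≤ 2 / δ * l ^ C' * (K * (η + η)) := by gcongr
    _ = δ := by
        rw [hη, hδ]
        field_simp
        ring

end Pool.Agent.P.MP_b8021b_nt.VE
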