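import Pool.Agent.P.MP_b8021b_nt.VE.StN

/-! N15: the error term of one field. -/

namespace Pool.Agent.P.MP_b8021b_nt.VE

open NumberField Finset
open scoped Classical

namespace PErr

variable {L : Type} [Field L] [NumberField L]

theorem lam_norm (χ : Ideal (𝓞 L) → ℂ) (f : ℕ → ℂ) (h : ∀ I, χ I = f (Ideal.absNorm I)) (q : ℕ) :
    lam χ q = (Set.ncard {I : Ideal (𝓞 L) | Ideal.absNorm I = q} : ℂ) * f q := by
  have hf := Ideal.finite_setOfPred_absNorm_eq (S := 𝓞 L) q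
  unfold lam
  rw [finsum_mem_eq_finite_toFinset_sum _ hf, Set.ncard_eq_toFinset_card _ hf,
    sum_congr rfl (g := fun _ => f q), sum_const, nsmul_eq_mul]
  intro I hI
  rw [h I, (hf.mem_toFinset.1 hI : Ideal.absNorm I = q)]

theorem cop_M {D : ℤ} {n : ℕ} (hD : 2 * D ∣ n) {m : ℕ} (h : m.Coprime n) :
    m.Coprime (8 * n ^ 2) := by
  have h2 : 2 ∣ n := by exact_mod_cast (Dvd.intro _ rfl : (2 : ℤ) ∣ 2 * D).trans hD
  exact Nat.Coprime.mul_right (Nat.Coprime.pow_right 3 (h.coprime_dvd_right h2))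
    (Nat.Coprime.pow_right 2 h)

theorem lam_prime {D : ℤ} {n : ℕ} (hD : 2 * D ∣ n)
    (hc : ∀ q : ℕ, q.Prime → ¬ (q : ℤ) ∣ 2 * D →
      (Set.ncard {I : Ideal (𝓞 L) | Ideal.absNorm I = q} : ℤ) = 1 + jacobiSym D q)
    {κ η : DirichletCharacter ℂ (8 * n ^ 2)}
    (hκ : ∀ m : ℕ, m.Coprime (8 * n ^ 2) → κ m = (jacobiSym D m : ℤ))
    {χ : Ideal (𝓞 L) → ℂ} (h : ∀ I, χ I = η (Ideal.absNorm I)) {q : ℕ} (hq : q.Prime) :
    lam χ q = η q + (η * κ) q := by
  rw [lam_norm χ (fun m => η m) h, MulChar.mul_apply]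
  by_cases hqn : q.Coprime n
  · have h1 : ¬ (q : ℤ) ∣ 2 * D := fun hd =>
      (hq.coprime_iff_not_dvd.1 hqn) (by exact_mod_cast hd.trans hD)
    have h2 : (Set.ncard {I : Ideal (𝓞 L) | Ideal.absNorm I = q} : ℂ) =
        1 + (jacobiSym D q : ℤ) := by exact_mod_cast congrArg (Int.cast : ℤ → ℂ) (hc q hq h1)
    rw [h2, hκ q (cop_M hD hqn)]
    ring
  · have h1 : ¬ IsUnit (q : ZMod (8 * n ^ 2)) := by
      rw [ZMod.isUnit_iff_coprime]
      exact fun hc => hqn (hc.coprime_dvd_right (Dvd.dvd.mul_left (dvd_pow_self n two_ne_zero) 8))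
    rw [MulChar.map_nonunit _ h1]
    ring

theorem Sm_add (y : ℝ) (N i : ℕ) {a b c : ℕ → ℂ} (h : ∀ q : ℕ, q.Prime → a q = b q + c q) :
    Sm y N i a = Sm y N i b + Sm y N i c := by
  unfold Sm
  rw [← sum_add_distrib]
  refine sum_congr rfl fun q hq => ?_
  rw [h q (mem_filter.1 hq).2.1, mul_add]

theorem E2_eq (y : ℝ) (N u m : ℕ) [NeZero m] : E2 y N u m = ∑ i ∈ range N,
    ∑ η ∈ univ.filter fun η : DirichletCharacter ℂ m => η ≠ 1, ‖Sm y N i fun q => η q‖ ^ u := by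
  unfold E2
  refine sum_congr rfl fun i _ => ?_
  rw [← finsum_mem_coe_finset]
  simp

theorem pow_add_le (a b : ℂ) {u : ℕ} (hu : 1 ≤ u) :
    2 * ‖a + b‖ ^ u ≤ 2 ^ u * (‖a‖ ^ u + ‖b‖ ^ u) := by
  have h1 : ‖a + b‖ ^ u ≤ (‖a‖ + ‖b‖) ^ u := pow_le_pow_left₀ (norm_nonneg _) (norm_add_le _ _) u
  have h2 := add_pow_le (norm_nonneg a) (norm_nonneg b) u
  obtain ⟨v, rfl⟩ := Nat.exists_eq_add_of_le' hu
  rw [Nat.add_sub_cancel] at h2
  rw [pow_succ (2 : ℝ)]
  linarith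

/-- the symmetric characters -/
theorem sym_le {D : ℤ} {n : ℕ} [NeZero (8 * n ^ 2)] (hD : 2 * D ∣ n)
    (hc : ∀ q : ℕ, q.Prime → ¬ (q : ℤ) ∣ 2 * D →
      (Set.ncard {I : Ideal (𝓞 L) | Ideal.absNorm I = q} : ℤ) = 1 + jacobiSym D q)
    (hj : ∀ I : Ideal (𝓞 L), Cop n I → jacobiSym D (Ideal.absNorm I) = 1)
    (hcop : ∀ I : Ideal (𝓞 L), Cop n I ↔ (Ideal.absNorm I).Coprime n)
    {κ : DirichletCharacter ℂ (8 * n ^ 2)}
    (hκ : ∀ m : ℕ, m.Coprime (8 * n ^ 2) → κ m = (jacobiSym D m : ℤ))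
    (s : Finset (Ideal (𝓞 L) →* ℂ)) (hs : ∀ χ ∈ s, ¬ IsTriv n χ ∧
      ∃ η : DirichletCharacter ℂ (8 * n ^ 2), ∀ I, χ I = η (Ideal.absNorm I))
    (y : ℝ) (N : ℕ) {u : ℕ} (hu : 1 ≤ u) :
    ∑ χ ∈ s, ∑ i ∈ range N, ‖Sm y N i (lam χ)‖ ^ u ≤ 2 ^ u * E2 y N u (8 * n ^ 2) := by
  rw [E2_eq, sum_comm, mul_sum]
  refine sum_le_sum fun i _ => ?_
  choose! e he using fun χ (h : χ ∈ s) => (hs χ h).2
  have inj : Set.InjOn e s := fun χ h χ' h' hh => by
    ext I
    rw [he χ h, he χ' h', hh]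
  have inj' : Set.InjOn (fun χ => e χ * κ) s := fun χ h χ' h' hh =>
    inj h h' (mul_right_cancel hh)
  have hu1 : ∀ I : Ideal (𝓞 L), Cop n I → IsUnit ((Ideal.absNorm I : ℕ) : ZMod (8 * n ^ 2)) :=
    fun I hI => (ZMod.isUnit_iff_coprime _ _).2 (cop_M hD ((hcop I).1 hI))
  have n1 : ∀ χ ∈ s, e χ ≠ 1 := fun χ h hh => (hs χ h).1 fun I hI => by
    rw [he χ h, hh, MulChar.one_apply (hu1 I hI)]
  have n2 : ∀ χ ∈ s, e χ * κ ≠ 1 := fun χ h hh => (hs χ h).1 fun I hI => by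
    have := congrArg (fun η : DirichletCharacter ℂ (8 * n ^ 2) => η (Ideal.absNorm I : ℕ)) hh
    simp only [MulChar.mul_apply] at this
    rw [MulChar.one_apply (hu1 I hI), hκ _ (cop_M hD ((hcop I).1 hI)), hj I hI] at this
    rw [he χ h]
    simpa using this
  have key : ∀ g : (Ideal (𝓞 L) →* ℂ) → DirichletCharacter ℂ (8 * n ^ 2), Set.InjOn g s →
      (∀ χ ∈ s, g χ ≠ 1) → ∑ χ ∈ s, ‖Sm y N i fun q => g χ q‖ ^ u ≤
        ∑ η ∈ univ.filter fun η : DirichletCharacter ℂ (8 * n ^ 2) => η ≠ 1,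
          ‖Sm y N i fun q => η q‖ ^ u := by
    intro g hg h1
    rw [← sum_image (f := fun η : DirichletCharacter ℂ (8 * n ^ 2) =>
      ‖Sm y N i fun q => η q‖ ^ u) hg]
    refine sum_le_sum_of_subset_of_nonneg (fun η hη => ?_) fun _ _ _ => by positivity
    obtain ⟨χ, h, rfl⟩ := mem_image.1 hη
    exact mem_filter.2 ⟨mem_univ _, h1 χ h⟩
  have a1 := key e inj n1
  have a2 := key _ inj' n2
  have a3 : ∑ χ ∈ s, 2 * ‖Sm y N i (lam χ)‖ ^ u ≤ ∑ χ ∈ s, 2 ^ u *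
      (‖Sm y N i fun q => e χ q‖ ^ u + ‖Sm y N i fun q => (e χ * κ) q‖ ^ u) := by
    refine sum_le_sum fun χ h => ?_
    rw [Sm_add y N i fun q hq => lam_prime hD hc hκ (he χ h) hq]
    exact pow_add_le _ _ hu
  rw [← mul_sum, ← mul_sum, sum_add_distrib] at a3
  have a4 : (0 : ℝ) ≤ 2 ^ u := by positivity
  nlinarith [mul_le_mul_of_nonneg_left (add_le_add a1 a2) a4]

/-- the principal Dirichlet character -/
theorem one_le {D : ℤ} {n : ℕ} (hn : n ≠ 0) (hD : 2 * D ∣ n) {y ϑ : ℝ} {N i : ℕ} (hϑ : 0 ≤ ϑ)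
    (h1 : ∑ q ∈ strat y N i, wt y N q = 1)
    (h2 : ∀ q ∈ strat y N i, 0 ≤ wt y N q ∧ wt y N q ≤ ϑ) :
    ‖(Sm y N i fun q => (1 : DirichletCharacter ℂ (8 * n ^ 2)) q) - 1‖ ≤
      ϑ * n.primeFactors.card := by
  have e1 : (1 : ℂ) = ∑ q ∈ strat y N i, (wt y N q : ℂ) := by exact_mod_cast h1.symm
  have e2 : (Sm y N i fun q => (1 : DirichletCharacter ℂ (8 * n ^ 2)) q) - 1 =
      ∑ q ∈ strat y N i, (wt y N q : ℂ) * ((1 : DirichletCharacter ℂ (8 * n ^ 2)) q - 1) := by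
    simp only [mul_sub, mul_one, sum_sub_distrib, ← e1]
    rfl
  rw [e2]
  refine (norm_sum_le _ _).trans ?_
  calc ∑ q ∈ strat y N i, ‖(wt y N q : ℂ) * ((1 : DirichletCharacter ℂ (8 * n ^ 2)) q - 1)‖
      ≤ ∑ q ∈ strat y N i, if q ∈ n.primeFactors then ϑ else 0 := by
        refine sum_le_sum fun q hq => ?_
        have hp : q.Prime := (mem_filter.1 hq).2.1
        by_cases hu : IsUnit (q : ZMod (8 * n ^ 2))
        · rw [MulChar.one_apply hu, sub_self, mul_zero, norm_zero]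
          split_ifs
          · exact hϑ
          · exact le_rfl
        · have hd : q ∣ n := by
            by_contra hc
            exact hu ((ZMod.isUnit_iff_coprime _ _).2 (cop_M hD (hp.coprime_iff_not_dvd.2 hc)))
          rw [if_pos (Nat.mem_primeFactors.2 ⟨hp, hd, hn⟩), MulChar.map_nonunit _ hu, norm_mul,
            zero_sub, norm_neg, norm_one, mul_one, Complex.norm_real,
            Real.norm_of_nonneg (h2 q hq).1]
          exact (h2 q hq).2
    _ ≤ ϑ * n.primeFactors.card := by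
        rw [sum_ite_mem, sum_const, nsmul_eq_mul, mul_comm]
        exact mul_le_mul_of_nonneg_left (Nat.cast_le.2 (card_le_card inter_subset_right)) hϑ

end PErr

open PErr in
theorem p_err (hIQb : S_IQb) (hEq : S_Eq) (hSymA : S_SymA) (hSymB : S_SymB) (hKap : S_Kap)
    (hCl : S_Cl) : S_Err := by
  intro L _ _ K n N u R y ϑ V hn hD hu hV hϑ hw1 hw2 hns
  have hM : 8 * n ^ 2 ≠ 0 := by positivity
  have : NeZero (8 * n ^ 2) := ⟨hM⟩
  have hc := (hIQb L K).2.2.2.2.2.2.2.2.2.2.2.2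
  obtain ⟨hj, hcop, hsym⟩ := hSymB L K n hn hD
  have h4 : 4 * K.D ∣ ((8 * n ^ 2 : ℕ) : ℤ) := by
    obtain ⟨a, ha⟩ := hD
    exact ⟨4 * a * n, by push_cast; linear_combination (8 * (n : ℤ)) * ha⟩
  obtain ⟨κ, hκ, hκ1⟩ := hKap K.D _ hM K.neg.ne h4
  have hκ2 : κ ≠ 1 := hκ1 fun ⟨a, ha⟩ => by nlinarith [K.neg, mul_self_nonneg a]
  have hE : 0 ≤ E2 y N u (8 * n ^ 2) := by
    rw [E2_eq]
    positivity
  refine ⟨?_, fun ε hε hEε χ hχ ht i hi => ?_⟩
  · have hwu : 1 ≤ wu L := by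
      obtain ⟨C, -, hC⟩ := hCl
      exact (hC L K).2.2.2
    have step : ∀ k ∈ Finset.Ioo (-(R : ℤ)) R,
        ∑ᶠ χ ∈ {χ : Ideal (𝓞 L) →* ℂ | IsHChar K.σ n k χ ∧ ¬ IsTriv n χ},
          ∑ i ∈ range N, ‖Sm y N i (lam χ)‖ ^ u ≤
        (if k = 0 then 2 ^ u * E2 y N u (8 * n ^ 2) else 0) +
          (classNumber L * phi L n) * N * V ^ u := by
      intro k hk
      obtain ⟨X, hX, hcard, -⟩ := hEq L K n k hn
      have e : {χ : Ideal (𝓞 L) →* ℂ | IsHChar K.σ n k χ ∧ ¬ IsTriv n χ} =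
          ↑(X.filter fun χ => ¬ IsTriv n χ) := by
        ext χ
        simp [hX]
      rw [e, finsum_mem_coe_finset, ← sum_filter_add_sum_filter_not _ fun χ => K.Sym χ]
      refine add_le_add ?_ ?_
      · split_ifs with h0
        · refine sym_le hD hc hj hcop hκ _ (fun χ h => ?_) y N hu
          simp only [mem_filter, hX] at h
          exact ⟨h.1.2, hsym k χ h.1.1 h.2⟩
        · refine le_of_eq (sum_eq_zero fun χ h => ?_)
          simp only [mem_filter, hX] at h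
          exact (h0 (hSymA L K n k χ hn hD h.1.1 h.2).1).elim
      · have b1 : (X.card : ℝ) ≤ classNumber L * phi L n := by
          have : X.card ≤ classNumber L * phi L n := hcard ▸ Nat.le_mul_of_pos_right _ hwu
          exact_mod_cast this
        refine (sum_le_card_nsmul _ _ (N * V ^ u) fun χ h => ?_).trans ?_
        · simp only [mem_filter, hX] at h
          refine (sum_le_card_nsmul _ _ (V ^ u) fun i hi => ?_).trans ?_
          · exact pow_le_pow_left₀ (norm_nonneg _)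
              (hns k χ (abs_lt.2 (mem_Ioo.1 hk)) h.1.1 h.2 i (mem_range.1 hi)) u
          · rw [card_range, nsmul_eq_mul]
        · rw [nsmul_eq_mul, mul_assoc]
          refine mul_le_mul_of_nonneg_right (le_trans ?_ b1) (by positivity)
          exact Nat.cast_le.2 (card_le_card ((filter_subset _ _).trans (filter_subset _ _)))
    refine (sum_le_sum step).trans ?_
    rw [sum_add_distrib, sum_ite_eq', sum_const, nsmul_eq_mul]
    refine add_le_add ?_ ?_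
    · split_ifs
      · exact le_rfl
      · positivity
    · have b2 : ((Finset.Ioo (-(R : ℤ)) R).card : ℝ) ≤ 2 * R := by
        have : (Finset.Ioo (-(R : ℤ)) R).card ≤ 2 * R := by
          rw [Int.card_Ioo]
          omega
        exact_mod_cast this
      calc _ ≤ (2 * R : ℝ) * ((classNumber L * phi L n) * N * V ^ u) :=
            mul_le_mul_of_nonneg_right b2 (by positivity)
        _ = _ := by ring
  · have h1 : ∀ I, χ I = (1 : DirichletCharacter ℂ (8 * n ^ 2)) (Ideal.absNorm I) := by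
      intro I
      by_cases hI : Cop n I
      · rw [ht I hI, MulChar.one_apply
          ((ZMod.isUnit_iff_coprime _ _).2 (cop_M hD ((hcop I).1 hI)))]
      · rw [hχ.zero I hI, MulChar.map_nonunit]
        rw [ZMod.isUnit_iff_coprime]
        exact fun hc => hI ((hcop I).2
          (hc.coprime_dvd_right (Dvd.dvd.mul_left (dvd_pow_self n two_ne_zero) 8)))
    have h2 : ‖Sm y N i fun q => κ q‖ ≤ ε := by
      refine le_of_pow_le_pow_left₀ (by omega : u ≠ 0) hε (le_trans ?_ hEε)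
      rw [E2_eq]
      refine le_trans ?_ (single_le_sum (f := fun i => ∑ η ∈ univ.filter
        fun η : DirichletCharacter ℂ (8 * n ^ 2) => η ≠ 1, ‖Sm y N i fun q => η q‖ ^ u)
        (fun _ _ => by positivity) (mem_range.2 hi))
      exact single_le_sum (f := fun η : DirichletCharacter ℂ (8 * n ^ 2) =>
        ‖Sm y N i fun q => η q‖ ^ u) (fun _ _ => by positivity) (mem_filter.2 ⟨mem_univ _, hκ2⟩)
    have h3 := one_le (by omega) hD hϑ (hw1 i hi) (hw2 i hi)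
    rw [Sm_add y N i fun q hq => lam_prime hD hc hκ h1 hq, one_mul, add_sub_right_comm]
    exact (norm_add_le _ _).trans (by linarith)

end Pool.Agent.P.MP_b8021b_nt.VE
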