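import Pool.Agent.P.MP_b8021b_nt.VE.StN

/-! N9: the Fejer kernel. -/

namespace Pool.Agent.P.MP_b8021b_nt.VE

open Finset
open scoped ComplexConjugate

namespace FejP

theorem dbl (g : ℤ → ℂ) (R : ℕ) :
    ∑ k ∈ Finset.Ioo (-(R : ℤ)) R, ((R - |(k : ℝ)| : ℝ) : ℂ) * g k =
      ∑ a ∈ range R, ∑ b ∈ range R, g (a - b) := by
  rw [← Finset.sum_product' (f := fun a b : ℕ => g (a - b)),
    ← Finset.sum_fiberwise_of_maps_to (t := Finset.Ioo (-(R : ℤ)) R)
      (g := fun p : ℕ × ℕ => (p.1 : ℤ) - p.2)]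
  · refine Finset.sum_congr rfl fun k hk => ?_
    rw [Finset.mem_Ioo] at hk
    rw [Finset.sum_congr rfl (g := fun _ => g k) fun p hp => by rw [(Finset.mem_filter.1 hp).2],
      Finset.sum_const, nsmul_eq_mul]
    have hc : ((range R ×ˢ range R).filter fun p : ℕ × ℕ => (p.1 : ℤ) - p.2 = k).card =
        (range (R - k.natAbs)).card := by
      refine Finset.card_nbij' (fun p => min p.1 p.2) (fun c => (c + k.toNat, c + (-k).toNat))
        (fun p hp => ?_) (fun c hc => ?_) (fun p hp => ?_) (fun c _ => ?_)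
      · simp only [Finset.coe_filter, Finset.mem_product, Finset.mem_range, Set.mem_ofPred_eq,
          Finset.coe_range, Set.mem_Iio] at hp ⊢
        omega
      · simp only [Finset.coe_filter, Finset.mem_product, Finset.mem_range, Set.mem_ofPred_eq,
          Finset.coe_range, Set.mem_Iio] at hc ⊢
        omega
      · simp only [Finset.coe_filter, Finset.mem_product, Finset.mem_range,
          Set.mem_ofPred_eq] at hp
        refine Prod.ext ?_ ?_
        · dsimp only
          omega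
        · dsimp only
          omega
      · dsimp only
        omega
    have e : |(k : ℝ)| = (k.natAbs : ℝ) := by
      rw [← Int.cast_abs, Int.abs_eq_natAbs, Int.cast_natCast]
    rw [hc, Finset.card_range, Nat.cast_sub (by omega), e, Complex.ofReal_sub,
      Complex.ofReal_natCast, Complex.ofReal_natCast]
  · intro p hp
    simp only [Finset.mem_product, Finset.mem_range, Finset.mem_Ioo] at hp ⊢
    omega

theorem fej_eq {R : ℕ} (hR : 1 ≤ R) {z : ℂ} (hz : ‖z‖ = 1) :
    fej R z = ‖∑ a ∈ range R, z ^ a‖ ^ 2 / R := by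
  have hR' : (R : ℝ) ≠ 0 := Nat.cast_ne_zero.2 (by omega)
  have hz0 : z ≠ 0 := fun e => by simp [e] at hz
  have hc : conj z = z⁻¹ := (Complex.inv_eq_conj hz).symm
  have e : ((R : ℝ) : ℂ) * ∑ k ∈ Finset.Ioo (-(R : ℤ)) R, ((1 - |(k : ℝ)| / R : ℝ) : ℂ) * z ^ k =
      ((‖∑ a ∈ range R, z ^ a‖ ^ 2 : ℝ) : ℂ) := by
    have e1 : ∀ a b : ℕ, z ^ a * conj (z ^ b) = z ^ ((a : ℤ) - b) := fun a b => by
      rw [map_pow, hc, zpow_sub₀ hz0, zpow_natCast, zpow_natCast, inv_pow, div_eq_mul_inv]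
    rw [Finset.mul_sum, Complex.ofReal_pow, ← Complex.mul_conj', map_sum, Finset.sum_mul_sum]
    simp only [e1]
    rw [← dbl (fun k => z ^ k) R]
    refine Finset.sum_congr rfl fun k _ => ?_
    rw [← mul_assoc, ← Complex.ofReal_mul, mul_sub, mul_one, mul_div_cancel₀ _ hR']
  have := congrArg Complex.re e
  rw [Complex.re_ofReal_mul, Complex.ofReal_re] at this
  rw [eq_div_iff hR', mul_comm]
  exact this

theorem norm_geom_le (R : ℕ) {z : ℂ} (hz : ‖z‖ = 1) : ‖∑ a ∈ range R, z ^ a‖ ≤ R := by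
  refine (norm_sum_le _ _).trans (le_of_eq ?_)
  simp [hz]

theorem pow_lip {z w : ℂ} (hz : ‖z‖ = 1) (hw : ‖w‖ = 1) (a : ℕ) :
    ‖z ^ a - w ^ a‖ ≤ a * ‖z - w‖ := by
  induction a with
  | zero => simp
  | succ a ih =>
    have e : z ^ (a + 1) - w ^ (a + 1) = (z ^ a - w ^ a) * z + w ^ a * (z - w) := by ring
    rw [e]
    refine (norm_add_le _ _).trans ?_
    rw [norm_mul, norm_mul, norm_pow, hz, hw, one_pow]
    push_cast
    linarith

theorem geom_lip {z w : ℂ} (hz : ‖z‖ = 1) (hw : ‖w‖ = 1) (R : ℕ) :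
    ‖∑ a ∈ range R, z ^ a - ∑ a ∈ range R, w ^ a‖ ≤ (R : ℝ) ^ 2 / 2 * ‖z - w‖ := by
  induction R with
  | zero => simp
  | succ R ih =>
    rw [Finset.sum_range_succ, Finset.sum_range_succ, add_sub_add_comm]
    refine (norm_add_le _ _).trans ?_
    have := pow_lip hz hw R
    have h0 := norm_nonneg (z - w)
    push_cast
    nlinarith

theorem norm_rt (M j : ℕ) : ‖rt M j‖ = 1 := by
  have e : (2 * Real.pi * Complex.I * j / M : ℂ) = ((2 * Real.pi * j / M : ℝ) : ℂ) * Complex.I := by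
    push_cast
    ring
  rw [rt, e, Complex.norm_exp_ofReal_mul_I]

theorem sum_rt {M : ℕ} {k : ℤ} (h0 : k ≠ 0) (h1 : |k| < M) :
    ∑ j ∈ range M, conj (rt M j) ^ k = 0 := by
  have hM : M ≠ 0 := by
    rintro rfl
    exact absurd h1 (by simp)
  have hζ := Complex.isPrimitiveRoot_exp M hM
  set ζ := Complex.exp (2 * Real.pi * Complex.I / M) with hζd
  have e : ∀ j : ℕ, conj (rt M j) ^ k = (ζ ^ (-k)) ^ j := fun j => by
    have e1 : rt M j = ζ ^ j := by
      rw [rt, hζd, ← Complex.exp_nat_mul]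
      congr 1
      ring
    rw [← Complex.inv_eq_conj (norm_rt M j), e1, inv_zpow', ← zpow_natCast, ← zpow_natCast,
      ← zpow_mul, ← zpow_mul, mul_comm]
  have hne : ζ ^ (-k) - 1 ≠ 0 := fun h => by
    have := (hζ.zpow_eq_one_iff_dvd (-k)).1 (sub_eq_zero.1 h)
    exact h0 (Int.eq_zero_of_abs_lt_dvd ((dvd_neg).1 this) h1)
  have hp : (ζ ^ (-k)) ^ M = 1 := by
    rw [← zpow_natCast, ← zpow_mul, mul_comm, zpow_mul, zpow_natCast, hζ.pow_eq_one, one_zpow]
  simp only [e]
  have := geom_sum_mul (ζ ^ (-k)) M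
  rw [hp, sub_self] at this
  exact (mul_eq_zero.1 this).resolve_right hne

theorem int_exp {k : ℤ} (h0 : k ≠ 0) :
    ∫ θ in (-Real.pi)..Real.pi, Complex.exp (θ * Complex.I) ^ k = 0 := by
  have e : ∀ θ : ℝ, Complex.exp (θ * Complex.I) ^ k = Complex.exp (k * Complex.I * θ) := fun θ => by
    rw [← Complex.exp_int_mul]
    congr 1
    ring
  simp only [e]
  rw [integral_exp_mul_complex (mul_ne_zero (Int.cast_ne_zero.2 h0) Complex.I_ne_zero)]
  have e2 : (k * Complex.I * Real.pi : ℂ) =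
      k * Complex.I * ((-Real.pi : ℝ) : ℂ) + k * (2 * Real.pi * Complex.I) := by
    push_cast
    ring
  rw [e2, Complex.exp_add, Complex.exp_int_mul_two_pi_mul_I, mul_one, sub_self, zero_div]

end FejP

open FejP

theorem p_fejP : S_Fej := by
  intro R z hR hz
  have hR' : (0 : ℝ) < R := Nat.cast_pos.2 hR
  have h0 : (0 : ℤ) ∈ Finset.Ioo (-(R : ℤ)) R := by
    rw [Finset.mem_Ioo]
    omega
  have hw : ∀ M j, ‖z * conj (rt M j)‖ = 1 := fun M j => by
    rw [norm_mul, hz, Complex.norm_conj, norm_rt, one_mul]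
  refine ⟨?_, ?_, fun w hw => ?_, fun M hM => ?_, fun M hM => ?_, ?_⟩
  · rw [fej_eq hR hz]
    positivity
  · rw [fej_eq hR hz, div_le_iff₀ hR', ← sq]
    exact pow_le_pow_left₀ (norm_nonneg _) (norm_geom_le R hz) 2
  · rw [fej_eq hR hz, fej_eq hR hw, ← sub_div, abs_div, abs_of_pos hR', div_le_iff₀ hR',
      sq_sub_sq, abs_mul, abs_of_nonneg (by positivity)]
    have h1 := (abs_norm_sub_norm_le _ _).trans (geom_lip hz hw R)
    have h2 := add_le_add (norm_geom_le R hz) (norm_geom_le R hw)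
    calc _ ≤ (R + R) * ((R : ℝ) ^ 2 / 2 * ‖z - w‖) :=
          mul_le_mul h2 h1 (abs_nonneg _) (by positivity)
      _ = _ := by ring
  · simp only [fej]
    rw [← Complex.re_sum, Finset.sum_comm, Finset.sum_eq_single_of_mem 0 h0]
    · simp
    · intro k hk hk0
      rw [Finset.mem_Ioo] at hk
      simp only [mul_zpow, ← mul_assoc]
      rw [← Finset.mul_sum, sum_rt hk0 (by rw [abs_lt]; omega), mul_zero]
  · have e : ∀ j, fej R (z * conj (rt M j)) * ‖z - rt M j‖ ^ 2 =
        (2 - 2 * (z ^ R * conj (rt M j) ^ (R : ℤ)).re) / R := fun j => by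
      have e1 : ‖z - rt M j‖ = ‖z * conj (rt M j) - 1‖ := by
        have : z * conj (rt M j) - 1 = (z - rt M j) * conj (rt M j) := by
          rw [sub_mul, Complex.mul_conj', norm_rt]
          simp
        rw [this, norm_mul, Complex.norm_conj, norm_rt, mul_one]
      rw [fej_eq hR (hw M j), e1, div_mul_eq_mul_div, ← mul_pow, ← norm_mul, geom_sum_mul,
        zpow_natCast, ← mul_pow, Complex.sq_norm, Complex.normSq_sub, Complex.normSq_eq_norm_sq,
        norm_pow, hw]
      simp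
      ring
    simp only [e]
    rw [← Finset.sum_div, Finset.sum_sub_distrib, ← Finset.mul_sum, ← Complex.re_sum,
      ← Finset.mul_sum, sum_rt (by omega) (by rw [abs_lt]; omega)]
    simp
    ring
  · simp only [fej]
    have hc : ∀ k : ℤ, Continuous fun θ : ℝ =>
        ((1 - |(k : ℝ)| / R : ℝ) : ℂ) * (Complex.exp (θ * Complex.I) * z) ^ k := fun k =>
      continuous_const.mul (Continuous.zpow₀ (by fun_prop) k fun θ => Or.inl
        (mul_ne_zero (Complex.exp_ne_zero _) fun e => by simp [e] at hz))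
    have := Complex.reCLM.intervalIntegral_comp_comm (μ := MeasureTheory.volume)
      ((continuous_finsetSum (Finset.Ioo (-(R : ℤ)) R) fun k _ => hc k).intervalIntegrable
        (-Real.pi) Real.pi)
    simp only [Complex.reCLM_apply] at this
    rw [this, intervalIntegral.integral_finsetSum fun k _ => (hc k).intervalIntegrable _ _,
      Finset.sum_eq_single_of_mem 0 h0]
    · simp
      ring
    · intro k _ hk0
      simp only [mul_zpow, mul_comm _ (z ^ k), ← mul_assoc]
      rw [intervalIntegral.integral_const_mul, int_exp hk0, mul_zero]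

end Pool.Agent.P.MP_b8021b_nt.VE
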