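import Pool.Agent.P.MP_b8021b_nt.VE.StA

/-! Package fib [A6]: the functional vanishes on the fibre `x = 0`. -/

namespace Pool.Agent.P.MP_b8021b_nt.VE

open Polynomial NumberField Finset IsDedekindDomain
open scoped Classical

namespace Fib

section Inv

variable {A : Type} [CommRing A] [Algebra ℚ A] (M : Quad ℚ A)

lemma el_inj {g c g' c' : ℚ[X]} (h : M.el g c = M.el g' c') : g = g' ∧ c = c' := by
  have h1 := M.inj (g - g') (c - c') (by
    simp only [Quad.el] at h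
    simp only [map_sub]
    linear_combination h)
  exact ⟨sub_eq_zero.mp h1.1, sub_eq_zero.mp h1.2⟩

lemma el_add (g c g' c' : ℚ[X]) : M.el g c + M.el g' c' = M.el (g + g') (c + c') := by
  simp only [Quad.el, map_add]
  ring

lemma el_mul (g c g' c' : ℚ[X]) :
    M.el g c * M.el g' c' = M.el (g * g' + c * c' * M.f) (g * c' + c * g') := by
  simp only [Quad.el, map_add, map_mul]
  linear_combination (aeval M.x c * aeval M.x c') * M.rel

lemma exists_el (h : A) : ∃ g c, h = M.el g c := M.surj h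

/-- the underlying map of the involution -/
noncomputable def iv (h : A) : A :=
  M.el (M.surj h).choose (-(M.surj h).choose_spec.choose)

lemma iv_el (g c : ℚ[X]) : iv M (M.el g c) = M.el g (-c) := by
  have h := (M.surj (M.el g c)).choose_spec.choose_spec
  obtain ⟨h1, h2⟩ := el_inj M (g := g) (c := c) h
  unfold iv
  rw [← h2, ← h1]

lemma iv_iv (h : A) : iv M (iv M h) = h := by
  obtain ⟨g, c, rfl⟩ := exists_el M h
  rw [iv_el, iv_el, neg_neg]

lemma el_C (q : ℚ) : M.el (C q) 0 = algebraMap ℚ A q := by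
  simp [Quad.el]

lemma exists_inv : ∃ ι : A ≃ₐ[ℚ] A, ι M.x = M.x ∧ ι M.y = -M.y := by
  refine ⟨{ toFun := iv M, invFun := iv M, left_inv := iv_iv M, right_inv := iv_iv M,
            map_mul' := ?_, map_add' := ?_, commutes' := ?_ }, ?_, ?_⟩
  · intro a b
    obtain ⟨g, c, rfl⟩ := exists_el M a
    obtain ⟨g', c', rfl⟩ := exists_el M b
    rw [el_mul, iv_el, iv_el, iv_el, el_mul]
    congr 1 <;> ring
  · intro a b
    obtain ⟨g, c, rfl⟩ := exists_el M a
    obtain ⟨g', c', rfl⟩ := exists_el M b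
    rw [el_add, iv_el, iv_el, iv_el, el_add]
    congr 1
    ring
  · intro q
    rw [← el_C M q, iv_el, neg_zero]
  · have hx : M.x = M.el X 0 := by simp [Quad.el]
    change iv M M.x = M.x
    conv_lhs => rw [hx, iv_el, neg_zero]
    exact hx.symm
  · have hy : M.y = M.el 0 1 := by simp [Quad.el]
    change iv M M.y = -M.y
    conv_lhs => rw [hy, iv_el]
    simp [Quad.el]

lemma aeval_sub (g : ℚ[X]) : M.x ∣ aeval M.x g - algebraMap ℚ A (g.coeff 0) := by
  refine ⟨aeval M.x g.divX, ?_⟩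
  have h := congrArg (aeval M.x) (X_mul_divX_add g)
  rw [map_add, map_mul, aeval_X, aeval_C] at h
  linear_combination -h

/-- every function is `γ₀ + γ₁ y` modulo `x` -/
lemma red (h : A) :
    ∃ γ₀ γ₁ : ℚ, M.x ∣ h - (algebraMap ℚ A γ₀ + algebraMap ℚ A γ₁ * M.y) := by
  obtain ⟨g, c, rfl⟩ := M.surj h
  obtain ⟨a, ha⟩ := aeval_sub M g
  obtain ⟨b, hb⟩ := aeval_sub M c
  exact ⟨g.coeff 0, c.coeff 0, a + b * M.y, by linear_combination ha + M.y * hb⟩

lemma ysq : M.x ∣ M.y ^ 2 - algebraMap ℚ A (M.f.coeff 0) := by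
  rw [M.rel]
  exact aeval_sub M M.f

end Inv

section Fn

variable {A : Type} [CommRing A] {φ : MaximalSpectrum A → A → ℝ}

lemma one_notMem (P : MaximalSpectrum A) : (1 : A) ∉ P.asIdeal :=
  (Ideal.ne_top_iff_one _).mp P.isMaximal.ne_top

lemma phi_one (hφ : IsFn φ) (P : MaximalSpectrum A) : φ P 1 = 0 := by
  have h := hφ.mul P 1 1 (one_notMem P) (one_notMem P)
  rw [mul_one] at h
  linarith

lemma rat_notMem [Algebra ℚ A] (P : MaximalSpectrum A) {q : ℚ} (hq : q ≠ 0) :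
    algebraMap ℚ A q ∉ P.asIdeal := fun h =>
  P.isMaximal.ne_top (Ideal.eq_top_of_isUnit_mem _ h ((IsUnit.mk0 q hq).map _))

lemma mem_of_ord {P : MaximalSpectrum A} {f : A} (h : ord P f ≠ 0) : f ∈ P.asIdeal :=
  Ideal.le_of_dvd (multiplicity_ne_zero.mp h) (Ideal.mem_span_singleton_self f)

/-- the pairing when only one prime contributes -/
lemma of_pair [IsDedekindDomain A] {P : MaximalSpectrum A} {f h : A} (hf : f ∈ P.asIdeal)
    (hQ : ∀ Q : MaximalSpectrum A, f ∈ Q.asIdeal → Q ≠ P → φ Q h = 0) (h0 : pair φ f h = 0) :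
    φ P h = 0 := by
  unfold pair at h0
  rw [finsum_eq_single _ P] at h0
  · have h1 : ord P f ≠ 0 :=
      multiplicity_ne_zero.mpr (Ideal.dvd_iff_le.mpr ((Ideal.span_singleton_le_iff_mem _).mpr hf))
    rcases mul_eq_zero.mp h0 with h2 | h2
    · exact absurd (by exact_mod_cast h2) h1
    · exact h2
  · intro Q hQP
    by_cases h2 : ord Q f = 0
    · simp [h2]
    · rw [hQ Q (mem_of_ord h2) hQP, mul_zero]

end Fn

/-- a homomorphism from the nonzero rationals that kills the primes is zero -/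
lemma rat_zero (Φ : ℚ → ℝ) (hm : ∀ a b, a ≠ 0 → b ≠ 0 → Φ (a * b) = Φ a + Φ b)
    (hp : ∀ r : ℕ, r.Prime → Φ r = 0) (q : ℚ) (hq : q ≠ 0) : Φ q = 0 := by
  have h1 : Φ 1 = 0 := by
    have h := hm 1 1 one_ne_zero one_ne_zero
    rw [mul_one] at h
    linarith
  have hn1 : Φ (-1) = 0 := by
    have h := hm (-1) (-1) (by norm_num) (by norm_num)
    rw [neg_mul_neg, mul_one, h1] at h
    linarith
  have hn : ∀ n : ℕ, n ≠ 0 → Φ n = 0 := by
    intro n
    induction n using induction_on_primes with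
    | zero => intro h; exact absurd rfl h
    | one => intro _; simpa using h1
    | prime_mul p a hpp ih =>
      intro h
      have ha : a ≠ 0 := fun h0 => h (by rw [h0, mul_zero])
      rw [Nat.cast_mul, hm _ _ (by exact_mod_cast hpp.ne_zero) (by exact_mod_cast ha), hp p hpp,
        ih ha, add_zero]
  have hz : ∀ z : ℤ, z ≠ 0 → Φ z = 0 := by
    intro z hz
    rcases Int.natAbs_eq z with h | h
    · rw [h, Int.cast_natCast]
      exact hn _ (Int.natAbs_ne_zero.mpr hz)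
    · rw [h, Int.cast_neg, Int.cast_natCast, ← neg_one_mul,
        hm _ _ (by norm_num) (by exact_mod_cast Int.natAbs_ne_zero.mpr hz), hn1,
        hn _ (Int.natAbs_ne_zero.mpr hz), add_zero]
  have h2 := hm q q.den hq (by exact_mod_cast q.den_ne_zero)
  rw [Rat.mul_den_eq_num, hz _ (Rat.num_ne_zero.mpr hq), hn _ q.den_ne_zero] at h2
  linarith

/-- the split case: an element that is `r ^ j` at one point and `1` at the other -/
lemma split_core (b : ℤ) (hb : b ≠ 0) (r : ℕ) (hr : r.Prime) :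
    ∃ (j : ℕ) (γ₀ γ₁ : ℚ), 1 ≤ j ∧ CoreCond (b ^ 2) r γ₀ γ₁ ∧ γ₀ + γ₁ * b = (r : ℚ) ^ j ∧
      γ₀ - γ₁ * b = 1 := by
  obtain ⟨K, m, hm, hK⟩ := Nat.exists_eq_pow_mul_and_not_dvd
    (n := (2 * b).natAbs) (by omega) r hr.ne_one
  have hm0 : m ≠ 0 := fun h => hm (h ▸ dvd_zero r)
  have hco : r.Coprime m := (Nat.Prime.coprime_iff_not_dvd hr).mpr hm
  have hj : 1 ≤ m.totient := Nat.totient_pos.mpr (Nat.pos_of_ne_zero hm0)
  have hmod : (m : ℤ) ∣ (r : ℤ) ^ m.totient - 1 := by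
    have h := (Nat.ModEq.pow_totient hco).symm.dvd
    simpa using h
  obtain ⟨a, ha⟩ := hmod
  have hbq : (b : ℚ) ≠ 0 := by exact_mod_cast hb
  have hdiv : (2 * b) ∣ (r : ℤ) ^ K * ((r : ℤ) ^ m.totient - 1) := by
    rw [← Int.natAbs_dvd, hK, ha]
    exact ⟨a, by push_cast; ring⟩
  obtain ⟨c, hc⟩ := hdiv
  have hcq : (r : ℚ) ^ K * ((r : ℚ) ^ m.totient - 1) = 2 * b * c := by exact_mod_cast hc
  refine ⟨m.totient, ((r : ℚ) ^ m.totient + 1) / 2, ((r : ℚ) ^ m.totient - 1) / (2 * b), hj,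
    ⟨hr, ⟨K, (r : ℤ) ^ K + b * c, c, ?_, ?_⟩, ⟨(r : ℤ) ^ m.totient + 1, ?_, ?_⟩,
      m.totient, hj, ?_⟩, ?_, ?_⟩
  · push_cast
    linear_combination (1 / 2 : ℚ) * hcq
  · field_simp
    linear_combination hcq
  · push_cast
    ring
  · intro h
    have h1 : (r : ℤ) ∣ (r : ℤ) ^ m.totient := dvd_pow_self _ (by omega)
    have h2 : (r : ℤ) ∣ 1 := (dvd_add_right h1).mp h
    have h3 : r ∣ 1 := by exact_mod_cast h2
    exact hr.not_dvd_one h3
  · have : (((r : ℚ) ^ m.totient + 1) / 2) ^ 2 -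
        (((r : ℚ) ^ m.totient - 1) / (2 * b)) ^ 2 * ((b ^ 2 : ℤ) : ℚ) = (r : ℚ) ^ m.totient := by
      push_cast
      field_simp
      ring
    rw [this, abs_of_nonneg (by positivity)]
  · field_simp
    ring
  · field_simp
    ring

lemma norm_zero {D : ℤ} (hD : ¬ IsSquare D) {s t : ℚ} (h : s ^ 2 - t ^ 2 * D = 0) :
    s = 0 ∧ t = 0 := by
  have ht : t = 0 := by
    by_contra ht
    refine hD (Rat.isSquare_intCast_iff.mp ⟨s / t, ?_⟩)
    field_simp
    linear_combination -h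
  refine ⟨?_, ht⟩
  rw [ht] at h
  simpa using h

/-- a field spanned by `1` and a square root of a nonsquare -/
lemma quad_field (L : Type) [Field L] [CharZero L] (D : ℤ) (ω : L) (hω : ω ^ 2 = D)
    (hD : ¬ IsSquare D) (hs : ∀ a : L, ∃ s t : ℚ, a = s + t * ω) :
    FiniteDimensional ℚ L ∧ Module.finrank ℚ L = 2 := by
  have hli : LinearIndependent ℚ ![(1 : L), ω] := by
    rw [LinearIndependent.pair_iff]
    intro s t h
    rw [Rat.smul_def, Rat.smul_def, mul_one] at h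
    refine norm_zero hD ?_
    have h1 : ((s ^ 2 - t ^ 2 * D : ℚ) : L) = 0 := by
      push_cast
      linear_combination ((s : L) - t * ω) * h + (t : L) ^ 2 * hω
    exact_mod_cast h1
  have hsp : ⊤ ≤ Submodule.span ℚ (Set.range ![(1 : L), ω]) := by
    intro a _
    obtain ⟨s, t, rfl⟩ := hs a
    refine Submodule.add_mem _ ?_ ?_
    · have : (s : L) = s • (1 : L) := by rw [Rat.smul_def, mul_one]
      rw [this]
      exact Submodule.smul_mem _ _ (Submodule.subset_span ⟨0, rfl⟩)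
    · rw [← Rat.smul_def]
      exact Submodule.smul_mem _ _ (Submodule.subset_span ⟨1, rfl⟩)
  let B := Module.Basis.mk hli hsp
  exact ⟨Module.Finite.of_basis B, by simpa using Module.finrank_eq_card_basis B⟩

section Cases

variable {A : Type} [CommRing A] [Algebra ℚ A] (M : Model A) {φ : MaximalSpectrum A → A → ℝ}

lemma ysq' : M.x ∣ M.y ^ 2 - algebraMap ℚ A (M.fz.coeff 0 : ℤ) := by
  have h := ysq M.toQuad
  rw [← M.hfz, coeff_map] at h
  exact h

lemma mem_of_dvd {P : MaximalSpectrum A} (hx : M.x ∈ P.asIdeal) {h : A} (hd : M.x ∣ h) :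
    h ∈ P.asIdeal := by
  obtain ⟨a, rfl⟩ := hd
  exact P.asIdeal.mul_mem_right _ hx

/-- the ramified case -/
lemma case_zero (hSym : S_Sym) (hφ : IsFn φ) (hD : M.fz.coeff 0 = 0) (P : MaximalSpectrum A)
    (hx : M.x ∈ P.asIdeal) (h : A) : φ P h = 0 := by
  obtain ⟨ι, h1, h2⟩ := exists_inv M.toQuad
  have hy : M.y ∈ P.asIdeal := by
    have h3 := ysq' M
    rw [hD, Int.cast_zero, map_zero, sub_zero] at h3
    exact P.isMaximal.isPrime.mem_of_pow_mem 2 (mem_of_dvd M hx h3)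
  have hd : ∀ a, ι a - a ∈ P.asIdeal := by
    intro a
    obtain ⟨γ₀, γ₁, c, hc⟩ := red M.toQuad a
    have ha : a = algebraMap ℚ A γ₀ + algebraMap ℚ A γ₁ * M.y + M.x * c := by
      linear_combination hc
    have : ι a - a = M.x * (ι c - c) - 2 * algebraMap ℚ A γ₁ * M.y := by
      conv_lhs => rw [ha]
      simp only [map_add, map_mul, AlgEquiv.commutes, h1, h2]
      ring
    rw [this]
    exact P.asIdeal.sub_mem (P.asIdeal.mul_mem_right _ hx) (P.asIdeal.mul_mem_left _ hy)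
  have h4 := hSym A M.toQuad ι h1 h2 φ hφ P P (fun a => by
    constructor
    · intro ha
      simpa using P.asIdeal.add_mem (hd a) ha
    · intro ha
      simpa using P.asIdeal.sub_mem ha (hd a)) h
  rw [hφ.congr P (ι h) h (hd h)] at h4
  linarith

lemma red_split {b : ℚ} {P : MaximalSpectrum A} (hx : M.x ∈ P.asIdeal)
    (hy : M.y - algebraMap ℚ A b ∈ P.asIdeal) (γ₀ γ₁ : ℚ) {h : A}
    (hd : M.x ∣ h - (algebraMap ℚ A γ₀ + algebraMap ℚ A γ₁ * M.y)) :
    h - algebraMap ℚ A (γ₀ + γ₁ * b) ∈ P.asIdeal := by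
  have : h - algebraMap ℚ A (γ₀ + γ₁ * b) = (h - (algebraMap ℚ A γ₀ + algebraMap ℚ A γ₁ * M.y)) +
      algebraMap ℚ A γ₁ * (M.y - algebraMap ℚ A b) := by
    simp only [map_add, map_mul]
    ring
  rw [this]
  exact P.asIdeal.add_mem (mem_of_dvd M hx hd) (P.asIdeal.mul_mem_left _ hy)

lemma le_split {b : ℚ} {P Q : MaximalSpectrum A} (hx : M.x ∈ P.asIdeal)
    (hy : M.y - algebraMap ℚ A b ∈ P.asIdeal) (hx' : M.x ∈ Q.asIdeal)
    (hy' : M.y - algebraMap ℚ A b ∈ Q.asIdeal) : P.asIdeal ≤ Q.asIdeal := by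
  intro h hh
  obtain ⟨γ₀, γ₁, hd⟩ := red M.toQuad h
  have h1 := red_split M hx hy γ₀ γ₁ hd
  have h2 := red_split M hx' hy' γ₀ γ₁ hd
  have h3 : γ₀ + γ₁ * b = 0 := by
    by_contra h0
    refine rat_notMem P h0 ?_
    simpa using P.asIdeal.sub_mem hh h1
  rw [h3, map_zero, sub_zero] at h2
  exact h2

lemma or_split {b : ℤ} (hD : M.fz.coeff 0 = b ^ 2) {P : MaximalSpectrum A}
    (hx : M.x ∈ P.asIdeal) :
    M.y - algebraMap ℚ A (b : ℚ) ∈ P.asIdeal ∨ M.y - algebraMap ℚ A (-b : ℚ) ∈ P.asIdeal := by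
  refine P.isMaximal.isPrime.mem_or_mem ?_
  have h3 := mem_of_dvd M hx (ysq' M)
  rw [hD] at h3
  have : (M.y - algebraMap ℚ A (b : ℚ)) * (M.y - algebraMap ℚ A (-b : ℚ)) =
      M.y ^ 2 - algebraMap ℚ A ((b ^ 2 : ℤ) : ℚ) := by
    rw [Int.cast_pow, map_pow, map_neg]
    ring
  rw [this]
  exact h3

/-- the split case -/
lemma case_split (hA1 : S_A1) (hCore : S_Core) (hφ : IsFn φ) {b : ℤ} (hb : b ≠ 0)
    (hD : M.fz.coeff 0 = b ^ 2) (P : MaximalSpectrum A) (hx : M.x ∈ P.asIdeal)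
    (hy : M.y - algebraMap ℚ A (b : ℚ) ∈ P.asIdeal) (h : A) : φ P h = 0 := by
  have := (hA1 ℚ A M.toQuad).1
  have hm : ∀ a b : ℚ, a ≠ 0 → b ≠ 0 → φ P (algebraMap ℚ A (a * b)) =
      φ P (algebraMap ℚ A a) + φ P (algebraMap ℚ A b) := by
    intro a b ha hb
    rw [map_mul]
    exact hφ.mul P _ _ (rat_notMem P ha) (rat_notMem P hb)
  have hq : ∀ q : ℚ, q ≠ 0 → φ P (algebraMap ℚ A q) = 0 := by
    refine rat_zero (fun q => φ P (algebraMap ℚ A q)) hm fun r hr => ?_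
    obtain ⟨j, γ₀, γ₁, hj, hc, h1, h2⟩ := split_core b hb r hr
    have h3 := hCore A M φ hφ (by rw [hD]; exact pow_ne_zero 2 hb) r γ₀ γ₁ (by rw [hD]; exact hc)
    have h4 := of_pair hx (fun Q hQ hQP => by
      rcases or_split M hD hQ with h5 | h5
      · exact absurd (MaximalSpectrum.ext (le_antisymm (le_split M hQ h5 hx hy)
          (le_split M hx hy hQ h5))) hQP
      · have h6 := red_split M hQ h5 γ₀ γ₁
          (h := algebraMap ℚ A γ₀ + algebraMap ℚ A γ₁ * M.y) (by simp)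
        rw [mul_neg, ← sub_eq_add_neg, h2, map_one] at h6
        rw [hφ.congr Q _ _ h6, phi_one hφ]) h3
    have h6 := red_split M hx hy γ₀ γ₁
      (h := algebraMap ℚ A γ₀ + algebraMap ℚ A γ₁ * M.y) (by simp)
    rw [hφ.congr P _ _ h6, h1] at h4
    have hr0 : (r : ℚ) ≠ 0 := by exact_mod_cast hr.ne_zero
    have h7 : ∀ n : ℕ, φ P (algebraMap ℚ A ((r : ℚ) ^ n)) = n * φ P (algebraMap ℚ A r) := by
      intro n
      induction n with
      | zero => simpa using phi_one hφ P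
      | succ n ih =>
        rw [pow_succ, hm _ _ (pow_ne_zero _ hr0) hr0, ih]
        push_cast
        ring
    rw [h7] at h4
    rcases mul_eq_zero.mp h4 with h8 | h8
    · have : j = 0 := by exact_mod_cast h8
      omega
    · exact h8
  obtain ⟨γ₀, γ₁, hd⟩ := red M.toQuad h
  have h1 := red_split M hx hy γ₀ γ₁ hd
  rw [hφ.congr P _ _ h1]
  by_cases h0 : γ₀ + γ₁ * b = 0
  · rw [h0, map_zero]
    exact hφ.zero P 0 P.asIdeal.zero_mem
  · exact hq _ h0

lemma dvd_of_mem (hD : ¬ IsSquare (M.fz.coeff 0)) {P : MaximalSpectrum A}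
    (hx : M.x ∈ P.asIdeal) {h : A} (hh : h ∈ P.asIdeal) : M.x ∣ h := by
  obtain ⟨γ₀, γ₁, hd⟩ := red M.toQuad h
  have h1 : algebraMap ℚ A γ₀ + algebraMap ℚ A γ₁ * M.y ∈ P.asIdeal := by
    simpa using P.asIdeal.sub_mem hh (mem_of_dvd M hx hd)
  have h2 : algebraMap ℚ A (γ₀ ^ 2 - γ₁ ^ 2 * (M.fz.coeff 0 : ℤ)) ∈ P.asIdeal := by
    have : algebraMap ℚ A (γ₀ ^ 2 - γ₁ ^ 2 * (M.fz.coeff 0 : ℤ)) =
        (algebraMap ℚ A γ₀ + algebraMap ℚ A γ₁ * M.y) *
          (algebraMap ℚ A γ₀ - algebraMap ℚ A γ₁ * M.y) +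
        algebraMap ℚ A γ₁ ^ 2 * (M.y ^ 2 - algebraMap ℚ A (M.fz.coeff 0 : ℤ)) := by
      rw [map_sub, map_mul, map_pow, map_pow]
      ring
    rw [this]
    exact P.asIdeal.add_mem (P.asIdeal.mul_mem_right _ h1)
      (P.asIdeal.mul_mem_left _ (mem_of_dvd M hx (ysq' M)))
  have h3 : γ₀ ^ 2 - γ₁ ^ 2 * (M.fz.coeff 0 : ℤ) = 0 := by
    by_contra h0
    exact rat_notMem P h0 h2
  obtain ⟨rfl, rfl⟩ := norm_zero hD h3
  simpa using hd

/-- the inert case -/
lemma case_inert (hA1 : S_A1) (hSym : S_Sym) (hCore : S_Core) (hQuadGen : S_QuadGen)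
    (hφ : IsFn φ) (hD : ¬ IsSquare (M.fz.coeff 0)) (P : MaximalSpectrum A)
    (hx : M.x ∈ P.asIdeal) (h : A) : φ P h = 0 := by
  have := (hA1 ℚ A M.toQuad).1
  have := P.isMaximal
  obtain ⟨ι, h1, h2⟩ := exists_inv M.toQuad
  have hanti := hSym A M.toQuad ι h1 h2 φ hφ P P (fun a => by
    constructor
    · intro ha
      have h3 := map_dvd ι (dvd_of_mem M hD hx ha)
      rw [h1] at h3
      exact mem_of_dvd M hx h3
    · intro ha
      have h3 := dvd_of_mem M hD hx ha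
      rw [← h1] at h3
      exact mem_of_dvd M hx ((map_dvd_iff ι).mp h3))
  have hq : ∀ q : ℚ, φ P (algebraMap ℚ A q) = 0 := by
    intro q
    have h3 := hanti (algebraMap ℚ A q)
    rw [AlgEquiv.commutes] at h3
    linarith
  let : Field (A ⧸ P.asIdeal) := Ideal.Quotient.field P.asIdeal
  let π : A →+* A ⧸ P.asIdeal := Ideal.Quotient.mk P.asIdeal
  have : CharZero (A ⧸ P.asIdeal) :=
    charZero_of_injective_ringHom (π.comp (algebraMap ℚ A)).injective
  have hrat : ∀ q : ℚ, π (algebraMap ℚ A q) = (q : A ⧸ P.asIdeal) := fun q =>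
    eq_ratCast (π.comp (algebraMap ℚ A)) q
  have hω : π M.y ^ 2 = ((M.fz.coeff 0 : ℤ) : A ⧸ P.asIdeal) := by
    have h3 := Ideal.Quotient.eq.mpr (mem_of_dvd M hx (ysq' M))
    rw [map_pow] at h3
    rw [h3]
    exact (hrat _).trans (Rat.cast_intCast _)
  have hs : ∀ a : A ⧸ P.asIdeal, ∃ s t : ℚ, a = s + t * π M.y := by
    intro a
    obtain ⟨a, rfl⟩ := Ideal.Quotient.mk_surjective a
    obtain ⟨γ₀, γ₁, hd⟩ := red M.toQuad a
    refine ⟨γ₀, γ₁, ?_⟩
    rw [← hrat, ← hrat, ← map_mul, ← map_add]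
    exact Ideal.Quotient.eq.mpr (mem_of_dvd M hx hd)
  obtain ⟨hfin, hrk⟩ := quad_field (A ⧸ P.asIdeal) _ _ hω hD hs
  have : NumberField (A ⧸ P.asIdeal) := { to_finiteDimensional := hfin }
  let Φ : A ⧸ P.asIdeal → ℝ := fun a => φ P (Ideal.Quotient.mk_surjective a).choose
  have hΦ : ∀ a, Φ (π a) = φ P a := fun a =>
    hφ.congr P _ _ (Ideal.Quotient.eq.mp (Ideal.Quotient.mk_surjective (π a)).choose_spec)
  by_cases hh : h ∈ P.asIdeal
  · exact hφ.zero P h hh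
  rw [← hΦ]
  refine hQuadGen (A ⧸ P.asIdeal) _ _ hω hD hrk Φ ?_ ?_ ?_ _
    (fun h0 => hh (Ideal.Quotient.eq_zero_iff_mem.mp h0))
  · intro a b ha hb
    obtain ⟨a, rfl⟩ := Ideal.Quotient.mk_surjective a
    obtain ⟨b, rfl⟩ := Ideal.Quotient.mk_surjective b
    rw [← map_mul, hΦ, hΦ, hΦ]
    exact hφ.mul P a b (fun h0 => ha (Ideal.Quotient.eq_zero_iff_mem.mpr h0))
      (fun h0 => hb (Ideal.Quotient.eq_zero_iff_mem.mpr h0))
  · intro q _
    rw [← hrat, hΦ, hq]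
  · intro r γ₀ γ₁ hc
    rw [← hrat, ← hrat, ← map_mul, ← map_add, hΦ]
    refine of_pair hx (fun Q hQ hQP => absurd (MaximalSpectrum.ext (le_antisymm ?_ ?_)) hQP)
      (hCore A M φ hφ (fun h0 => hD (h0 ▸ IsSquare.zero)) r γ₀ γ₁ hc)
    · exact fun a ha => mem_of_dvd M hx (dvd_of_mem M hD hQ ha)
    · exact fun a ha => mem_of_dvd M hQ (dvd_of_mem M hD hx ha)

end Cases

end Fib

theorem p_fib (hA1 : S_A1) (hSym : S_Sym) (hCore : S_Core) (hQuadGen : S_QuadGen) : S_Fib := by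
  intro A _ _ M φ hφ P hx h
  by_cases hD : IsSquare (M.fz.coeff 0)
  · obtain ⟨b, hb⟩ := hD
    by_cases h0 : b = 0
    · exact Fib.case_zero M hSym hφ (by rw [hb, h0, mul_zero]) P hx h
    · have hb2 : M.fz.coeff 0 = b ^ 2 := by rw [hb, sq]
      rcases Fib.or_split M hb2 hx with hy | hy
      · exact Fib.case_split M hA1 hCore hφ h0 hb2 P hx hy h
      · exact Fib.case_split M hA1 hCore hφ (neg_ne_zero.mpr h0) (by rw [hb2, neg_sq]) P hx
          (by rw [Int.cast_neg]; exact hy) h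
  · exact Fib.case_inert M hA1 hSym hCore hQuadGen hφ hD P hx h

end Pool.Agent.P.MP_b8021b_nt.VE
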