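import Pool.Agent.P.MP_b8021b_nt.VE.StN

/-! Nf: the norm form is almost constant; sizes. -/

namespace Pool.Agent.P.MP_b8021b_nt.VE

open Polynomial Finset

namespace Flat

theorem deg_aux (g : ℤ[X]) (R : ℤ) (m : ℕ) (s : Fin m → ℤ) (hg : g.natDegree ≤ m) :
    (g + C R * ∑ i : Fin m, C (s i) * X ^ (i.1 + 1)).natDegree ≤ m := by
  refine (natDegree_add_le _ _).trans (max_le hg ((natDegree_C_mul_le _ _).trans ?_))
  refine natDegree_sum_le_of_forall_le _ _ fun i _ => (natDegree_C_mul_X_pow_le _ _).trans i.2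

theorem deg_gp (p : Par) (s : p.Co) : (p.gp s).natDegree ≤ p.k := deg_aux _ _ _ _ p.dg

theorem deg_cp (p : Par) (s : p.Co) : (p.cp s).natDegree ≤ p.k - 2 := deg_aux _ _ _ _ p.dc

theorem deg_F (p : Par) (s : p.Co) : (p.F s).natDegree ≤ 2 * p.k := by
  have h1 := deg_gp p s
  have h2 := deg_cp p s
  have h3 := p.hf.2.1
  have h4 := p.hk
  refine (natDegree_sub_le _ _).trans (max_le (natDegree_pow_le.trans (by omega)) ?_)
  refine natDegree_mul_le.trans ?_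
  have : (p.cp s ^ 2).natDegree ≤ 2 * (p.cp s).natDegree := natDegree_pow_le
  omega

theorem hev_eq (d : ℕ) (g : ℤ[X]) (hg : g.natDegree ≤ d) (a b : ℤ) (hb : b ≠ 0) :
    (hev d g a b : ℝ) = (b : ℝ) ^ d * aeval ((a : ℝ) / b) g := by
  have hb' : (b : ℝ) ≠ 0 := Int.cast_ne_zero.2 hb
  rw [aeval_eq_sum_range' (Nat.lt_succ_of_le hg), hev, mul_sum]
  push_cast
  refine sum_congr rfl fun i hi => ?_
  have hi' : i ≤ d := Nat.lt_succ_iff.1 (mem_range.1 hi)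
  obtain ⟨j, rfl⟩ := Nat.exists_eq_add_of_le hi'
  rw [Nat.add_sub_cancel_left, zsmul_eq_mul, pow_add, div_pow]
  field_simp

theorem FR_eval (p : Par) (s : p.Co) (a : ℝ) : (p.FR s).eval a =
    aeval a (p.gp s) ^ 2 - aeval a (p.cp s) ^ 2 * aeval a p.f := by
  have : (p.FR s).eval a = aeval a (p.F s) := by
    rw [Par.FR, eval_map, aeval_def]
    rfl
  rw [this, Par.F, nrm, map_sub, map_mul, map_pow, map_pow]

theorem D_eq (p : Par) (t : ℤ × ℤ) (ht : t.2 ≠ 0) :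
    (p.D t : ℝ) = (t.2 : ℝ) ^ 4 * aeval ((t.1 : ℝ) / t.2) p.f :=
  hev_eq 4 p.f (by rw [p.hf.2.1]; norm_num) _ _ ht

theorem N_eq (p : Par) (s : p.Co) (t : ℤ × ℤ) (ht : t.2 ≠ 0) :
    (p.N s t : ℝ) = (t.2 : ℝ) ^ (2 * p.k) * (p.FR s).eval ((t.1 : ℝ) / t.2) := by
  obtain ⟨m, hm⟩ := Nat.exists_eq_add_of_le (show 2 ≤ p.k by have := p.hk; omega)
  have h1 := hev_eq p.k _ (deg_gp p s) t.1 t.2 ht
  have h2 := hev_eq (p.k - 2) _ (deg_cp p s) t.1 t.2 ht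
  have e : p.k - 2 = m := by omega
  have e1 : (t.2 : ℝ) ^ (2 * p.k) = ((t.2 : ℝ) ^ p.k) ^ 2 := by ring
  have e2 : (t.2 : ℝ) ^ p.k = (t.2 : ℝ) ^ (p.k - 2) * (t.2 : ℝ) ^ 2 := by
    rw [← pow_add]
    congr 1
    omega
  rw [FR_eval, Par.N]
  push_cast
  rw [Par.gt, Par.ct, h1, h2, D_eq p t ht, e1, e2]
  ring

theorem sum_bd {m k : ℕ} (hmk : m ≤ k) (e : Fin m → ℝ) {L T a : ℝ} (he : ∀ i, |e i| ≤ L)
    (hL : 0 ≤ L) (hT : 1 ≤ T) (ha : |a| ≤ T) : |∑ i : Fin m, e i * a ^ (i.1 + 1)| ≤ k * (L * T ^ k) := by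
  refine (abs_sum_le_sum_abs _ _).trans ?_
  have h : ∀ i ∈ (univ : Finset (Fin m)), |e i * a ^ (i.1 + 1)| ≤ L * T ^ k := by
    intro i _
    rw [abs_mul, abs_pow]
    refine mul_le_mul (he i) ?_ (by positivity) hL
    exact (pow_le_pow_left₀ (abs_nonneg _) ha _).trans (pow_le_pow_right₀ hT (by omega))
  refine (sum_le_card_nsmul _ _ _ h).trans ?_
  rw [card_univ, Fintype.card_fin, nsmul_eq_mul]
  have : (m : ℝ) ≤ k := by exact_mod_cast hmk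
  gcongr

theorem exists_G (p : Par) (τ0 : ℝ) : ∃ G : ℝ, 1 ≤ G ∧ ∀ a ∈ Set.Icc τ0 (τ0 + 1),
    |aeval a p.g0| ≤ G ∧ |aeval a p.c0| ≤ G ∧ |aeval a p.f| ≤ G := by
  have h : ∀ g : ℤ[X], ∃ G : ℝ, ∀ a ∈ Set.Icc τ0 (τ0 + 1), |aeval a g| ≤ G := fun g =>
    isCompact_Icc.exists_bound_of_continuousOn (Polynomial.continuous_aeval g).continuousOn
  obtain ⟨G1, h1⟩ := h p.g0
  obtain ⟨G2, h2⟩ := h p.c0
  obtain ⟨G3, h3⟩ := h p.f
  refine ⟨max 1 (max G1 (max G2 G3)), le_max_left _ _, fun a ha => ⟨?_, ?_, ?_⟩⟩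
  · exact (h1 a ha).trans (by simp)
  · exact (h2 a ha).trans (by simp)
  · exact (h3 a ha).trans (by simp)

theorem mem_S {p : Par} {S0 L : ℕ} {s : p.Co} (hs : s ∈ Sset p S0 L) (j : p.Ix) :
    |(s j : ℝ) - (cen p S0 j : ℝ)| ≤ L := by
  have h := mem_Ioo.1 (Fintype.mem_piFinset.1 hs j)
  have h1 : ((cen p S0 j - L : ℤ) : ℝ) < s j := Int.cast_lt.2 h.1
  have h2 : (s j : ℝ) < ((cen p S0 j + L : ℤ) : ℝ) := Int.cast_lt.2 h.2
  push_cast at h1 h2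
  rw [abs_le]
  constructor <;> linarith

theorem gp_eval (p : Par) (S0 : ℕ) (s : p.Co) (a : ℝ) : aeval a (p.gp s) = aeval a p.g0 +
    (p.r : ℝ) ^ p.n0 * (S0 * a ^ p.k +
      ∑ i : Fin p.k, ((s (.inl i) : ℝ) - (cen p S0 (.inl i) : ℝ)) * a ^ (i.1 + 1)) := by
  have hk := p.hk
  have e : ∑ i : Fin p.k, (cen p S0 (.inl i) : ℝ) * a ^ (i.1 + 1) = S0 * a ^ p.k := by
    rw [sum_eq_single (⟨p.k - 1, by omega⟩ : Fin p.k)]
    · have : p.k - 1 + 1 = p.k := by omega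
      simp [cen, this]
    · intro i _ hi
      have : ¬ i.1 + 1 = p.k := fun h => hi (Fin.ext (by simp only; omega))
      simp [cen, this]
    · simp
  simp only [sub_mul, sum_sub_distrib, e]
  simp [Par.gp]

theorem cp_eval (p : Par) (S0 : ℕ) (s : p.Co) (a : ℝ) : aeval a (p.cp s) = aeval a p.c0 +
    (p.r : ℝ) ^ p.n0 *
      ∑ i : Fin (p.k - 2), ((s (.inr i) : ℝ) - (cen p S0 (.inr i) : ℝ)) * a ^ (i.1 + 1) := by
  simp [Par.cp, cen]

theorem flat (p : Par) {τ0 G η a : ℝ} {S0 L : ℕ} (hτ : τ0 ≤ -2) (hη : 0 < η) (hη1 : η ≤ 1)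
    (hG1 : 1 ≤ G) (hG : |aeval a p.g0| ≤ G ∧ |aeval a p.c0| ≤ G ∧ |aeval a p.f| ≤ G)
    (hS : G ≤ η * S0) (hL : L ≤ η * S0) {s : p.Co} (hs : s ∈ Sset p S0 L)
    (ha : a ∈ Set.Icc τ0 (τ0 + η)) :
    |(p.FR s).eval a / ((p.r : ℝ) ^ p.n0 * S0 * τ0 ^ p.k) ^ 2 - 1| ≤
      ((2 * p.k + 1) * (2 * p.k + 3) + (p.k + 1) ^ 2 * G) * η := by
  obtain ⟨ha1, ha2⟩ := ha
  set T := |τ0| with hT
  have hT' : T = -τ0 := abs_of_neg (by linarith)
  have hT1 : 1 ≤ T := by linarith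
  have haT : |a| ≤ T := by
    rw [abs_le]
    constructor <;> linarith
  set R : ℝ := (p.r : ℝ) ^ p.n0 with hR
  have hR1 : 1 ≤ R := one_le_pow₀ (by exact_mod_cast p.hr.one_lt.le)
  have hS0 : (0 : ℝ) < S0 := by
    by_contra h
    nlinarith
  have hTk : 1 ≤ T ^ p.k := one_le_pow₀ hT1
  set P : ℝ := R * S0 * τ0 ^ p.k with hP
  have hPa : |P| = R * S0 * T ^ p.k := by
    rw [hP, abs_mul, abs_mul, abs_of_pos hS0, abs_of_pos (by linarith : 0 < R), abs_pow]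
  have hP0 : 0 < |P| := by
    rw [hPa]
    positivity
  have hPn : P ≠ 0 := abs_pos.1 hP0
  have hGP : G ≤ η * |P| := by
    rw [hPa]
    calc G ≤ η * S0 := hS
      _ = η * (1 * S0 * 1) := by ring
      _ ≤ _ := by gcongr
  have hLP : R * (p.k * (L * T ^ p.k)) ≤ p.k * (η * |P|) := by
    rw [hPa]
    calc R * (p.k * (L * T ^ p.k)) ≤ R * (p.k * (η * S0 * T ^ p.k)) := by gcongr
      _ = _ := by ring
  have h1 := sum_bd le_rfl _ (fun i => mem_S hs (.inl i)) (Nat.cast_nonneg L) hT1 haT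
  have h2 := sum_bd (Nat.sub_le p.k 2) _ (fun i => mem_S hs (.inr i)) (Nat.cast_nonneg L) hT1 haT
  have h3 : |a ^ p.k - τ0 ^ p.k| ≤ η * p.k * T ^ p.k := by
    refine (abs_pow_sub_pow_le a τ0 p.k).trans ?_
    have h4 : |a - τ0| ≤ η := by
      rw [abs_le]
      constructor <;> linarith
    have h5 : max |a| |τ0| ^ (p.k - 1) ≤ T ^ p.k := by
      rw [max_eq_right haT]
      exact pow_le_pow_right₀ hT1 (Nat.sub_le _ _)
    gcongr
  have hg : |aeval a (p.gp s) - P| ≤ (2 * p.k + 1) * η * |P| := by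
    rw [gp_eval p S0, ← hR]
    set Z := ∑ i : Fin p.k, ((s (.inl i) : ℝ) - (cen p S0 (.inl i) : ℝ)) * a ^ (i.1 + 1)
    have e : aeval a p.g0 + R * (S0 * a ^ p.k + Z) - P =
        aeval a p.g0 + R * S0 * (a ^ p.k - τ0 ^ p.k) + R * Z := by
      rw [hP]
      ring
    rw [e]
    refine (abs_add_three _ _ _).trans ?_
    have h6 : |R * S0 * (a ^ p.k - τ0 ^ p.k)| ≤ p.k * (η * |P|) := by
      rw [abs_mul, abs_of_pos (by positivity : 0 < R * S0), hPa]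
      calc _ ≤ R * S0 * (η * p.k * T ^ p.k) := by gcongr
        _ = _ := by ring
    have h7 : |R * Z| ≤ p.k * (η * |P|) := by
      rw [abs_mul, abs_of_pos (by linarith : 0 < R)]
      exact (mul_le_mul_of_nonneg_left h1 (by linarith)).trans hLP
    linarith [hG.1]
  have hc : |aeval a (p.cp s)| ≤ (p.k + 1) * η * |P| := by
    rw [cp_eval p S0, ← hR]
    refine (abs_add_le _ _).trans ?_
    rw [abs_mul, abs_of_pos (by linarith : 0 < R)]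
    linarith [hG.2.1, (mul_le_mul_of_nonneg_left h2 (by linarith : 0 ≤ R)).trans hLP]
  rw [FR_eval]
  set g := aeval a (p.gp s)
  set c := aeval a (p.cp s)
  set f := aeval a p.f
  have hk0 : (0 : ℝ) ≤ p.k := Nat.cast_nonneg _
  have e : (g ^ 2 - c ^ 2 * f) / P ^ 2 - 1 =
      (g - P) / P * ((g - P) / P + 2) - (c / P) ^ 2 * f := by
    field_simp
    ring
  have hg' : |(g - P) / P| ≤ (2 * p.k + 1) * η := by
    rw [abs_div, div_le_iff₀ hP0]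
    exact hg
  have hc' : |c / P| ≤ (p.k + 1) * η := by
    rw [abs_div, div_le_iff₀ hP0]
    exact hc
  rw [e]
  refine (abs_sub _ _).trans ?_
  rw [abs_mul, abs_mul, abs_pow]
  have h8 : |(g - P) / P + 2| ≤ 2 * p.k + 3 := by
    refine (abs_add_le _ _).trans ?_
    rw [abs_two]
    nlinarith
  have h9 : |(g - P) / P| * |(g - P) / P + 2| ≤ (2 * p.k + 1) * η * (2 * p.k + 3) :=
    mul_le_mul hg' h8 (abs_nonneg _) (by positivity)
  have h10 : |c / P| ^ 2 * |f| ≤ ((p.k + 1) * η) ^ 2 * G := by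
    have := hG.2.2
    gcongr
  have h11 : ((p.k + 1) * η) ^ 2 * G ≤ (p.k + 1) ^ 2 * G * η := by
    calc ((p.k + 1) * η) ^ 2 * G = (p.k + 1) ^ 2 * G * η * η := by ring
      _ ≤ (p.k + 1) ^ 2 * G * η * 1 := by gcongr
      _ = _ := mul_one _
  linarith

theorem sizes (p : Par) {c : Cfg} {G : ℝ} (hτ : p.Tau c.τ0) (hη1 : c.η ≤ 1) (hB : 0 < c.B)
    (hG : ∀ a ∈ Set.Icc c.τ0 (c.τ0 + 1), |aeval a p.f| ≤ G) {t : ℤ × ℤ} (ht : t ∈ Tset p c) :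
    t.1 < 0 ∧ |(t.1 : ℝ)| ≤ 2 * |c.τ0| * c.B ∧ |(t.2 : ℝ)| ≤ 2 * c.B ∧ c.B ^ 4 ≤ -(p.D t : ℝ) ∧
      -(p.D t : ℝ) ≤ 16 * G * c.B ^ 4 := by
  obtain ⟨h1, h2, h3, h4, -⟩ := (mem_filter.1 ht).2
  have h0 : (0 : ℝ) < t.2 := hB.trans_le h1
  have h5 : (t.2 : ℝ) ≤ 2 * c.B := by nlinarith
  have hτ1 := hτ.1
  have hT : |c.τ0| = -c.τ0 := abs_of_neg (by linarith)
  have h6 : (t.1 : ℝ) < 0 := by
    have : (t.1 : ℝ) / t.2 < 0 := by linarith
    rw [div_lt_iff₀ h0] at this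
    linarith
  have h7 := hτ.2 ((t.1 : ℝ) / t.2) (by linarith)
  have h8 := hG ((t.1 : ℝ) / t.2) ⟨h3, by linarith⟩
  have h9 := (abs_le.1 h8).1
  have hD := D_eq p t (by exact_mod_cast h0.ne')
  have h10 : c.B ^ 4 ≤ (t.2 : ℝ) ^ 4 := by gcongr
  have h11 : (t.2 : ℝ) ^ 4 ≤ (2 * c.B) ^ 4 := by gcongr
  have h12 : 0 < (t.2 : ℝ) ^ 4 := by positivity
  refine ⟨by exact_mod_cast h6, ?_, by rwa [abs_of_pos h0], ?_, ?_⟩
  · rw [abs_of_neg h6, hT]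
    rw [le_div_iff₀ h0] at h3
    nlinarith
  · rw [hD]
    nlinarith
  · rw [hD]
    have hG0 : 0 ≤ G := (abs_nonneg _).trans h8
    have := mul_le_mul_of_nonneg_left h11 hG0
    nlinarith

theorem x_le {p : Par} {y : ℝ} {N : ℕ} {x : Pt} (hy : 1 ≤ y) (hx : x ∈ Xset p y N) :
    (x.1 : ℝ) ≤ 4 * y := by
  obtain ⟨i, -, hi⟩ := mem_biUnion.mp (fst_mem_Pset hx)
  have h := mem_range.mp (mem_filter.mp hi).1
  have h1 : (x.1 : ℝ) ≤ ⌈3 * y⌉₊ := by exact_mod_cast Nat.lt_succ_iff.1 h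
  have h2 := Nat.ceil_lt_add_one (show 0 ≤ 3 * y by linarith)
  linarith

end Flat

open Flat in
theorem p_flat (hTheta : S_Theta) : S_Flat := by
  have _ := hTheta
  intro p τ0
  obtain ⟨G, hG1, hG⟩ := exists_G p τ0
  set C1 : ℝ := (2 * p.k + 1) * (2 * p.k + 3) + (p.k + 1) ^ 2 * G with hC1
  have hC10 : 0 ≤ C1 := by positivity
  have hT0 := abs_nonneg τ0
  refine ⟨C1 + 2 * |τ0| + 16 * G, by linarith, ?_⟩
  rintro F rfl rfl
  set K : ℝ := 2 * (F.p.r : ℝ) ^ F.p.n0 * 4 * 4 * (2 * |F.τ0|) * (2 * |F.τ0|) * (8 * |F.τ0|) *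
    (16 * G) * (16 * G) with hK
  refine ⟨max 1 (max (G / F.η) K), fun c hc hI => ?_⟩
  have hy1 : 1 ≤ c.y := (le_max_left _ _).trans hc
  have hy2 : G / F.η ≤ c.y := ((le_max_left _ _).trans (le_max_right _ _)).trans hc
  have hy3 : K ≤ c.y := ((le_max_right _ _).trans (le_max_right _ _)).trans hc
  have hη : 0 < c.η := hI.η ▸ F.ηpos
  have hη1 : c.η ≤ 1 := hI.η ▸ F.ηle
  have hB : 0 < c.B := lt_of_lt_of_le (by positivity) hI.B_ge
  have hsz := fun t (ht : t ∈ Tset F.p c) => sizes F.p (c := c) (G := G) (hI.τ0 ▸ F.tau) hη1 hB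
    (by rw [hI.τ0]; exact fun a ha => (hG a ha).2.2) ht
  rw [hI.τ0] at hsz
  refine ⟨fun s hs a ha => ?_, deg_F F.p, N_eq F.p, fun t ht => ?_, fun x x' t t' hQ => ?_⟩
  · have hS : G ≤ c.η * c.S0 := by
      rw [div_le_iff₀ F.ηpos, ← hI.η, mul_comm] at hy2
      refine hy2.trans (mul_le_mul_of_nonneg_left (le_trans ?_ hI.S_ge) hη.le)
      exact le_self_pow₀ hy1 (by norm_num)
    refine (flat F.p F.tau.1 hη hη1 hG1 (hG a ⟨ha.1, by linarith [ha.2]⟩) hS hI.L_le hs ha).trans ?_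
    exact mul_le_mul_of_nonneg_right (by linarith) hη.le
  · obtain ⟨h1, h2, -, h4, h5⟩ := hsz t ht
    refine ⟨h1, h2.trans ?_, h4, h5.trans ?_⟩
    · exact mul_le_mul_of_nonneg_right (by linarith) hB.le
    · exact mul_le_mul_of_nonneg_right (by linarith) (by positivity)
  · obtain ⟨-, h2, h3, h4, h5⟩ := hsz t hQ.ht
    obtain ⟨-, h2', h3', h4', h5'⟩ := hsz t' hQ.ht'
    have hx := x_le hy1 hQ.hx
    have hx' := x_le hy1 hQ.hx'
    have hB4 : 0 < c.B ^ 4 := by positivity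
    have hD : |(F.p.D t : ℝ)| ≤ 16 * G * c.B ^ 4 := by
      rwa [abs_of_neg (by linarith)]
    have hD' : |(F.p.D t' : ℝ)| ≤ 16 * G * c.B ^ 4 := by
      rwa [abs_of_neg (by linarith)]
    have hdl : |(dl t t' : ℝ)| ≤ 8 * |F.τ0| * c.B ^ 2 := by
      rw [dl]
      push_cast
      refine (abs_sub _ _).trans ?_
      rw [abs_mul, abs_mul]
      have h6 := mul_le_mul h2 h3' (abs_nonneg _) (by positivity)
      have h7 := mul_le_mul h2' h3 (abs_nonneg _) (by positivity)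
      linarith
    have e : (nn F.p x x' t t' : ℝ) = 2 * (F.p.r : ℝ) ^ F.p.n0 * x.1 * x'.1 * |(t.1 : ℝ)| *
        |(t'.1 : ℝ)| * |(dl t t' : ℝ)| * |(F.p.D t : ℝ)| * |(F.p.D t' : ℝ)| := by
      rw [nn, Nat.cast_natAbs]
      push_cast
      simp only [abs_mul, abs_pow, Nat.abs_cast, abs_two]
    have hB6 := hI.B_le
    rw [e]
    calc _ ≤ 2 * (F.p.r : ℝ) ^ F.p.n0 * (4 * c.y) * (4 * c.y) * (2 * |F.τ0| * c.B) *
          (2 * |F.τ0| * c.B) * (8 * |F.τ0| * c.B ^ 2) * (16 * G * c.B ^ 4) *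
          (16 * G * c.B ^ 4) := by gcongr
      _ = K * (c.y ^ 2 * c.B ^ 12) := by
        rw [hK]
        ring
      _ ≤ c.y * (c.y ^ 2 * (c.y ^ 6) ^ 12) := by gcongr
      _ = c.y ^ 75 := by ring

end Pool.Agent.P.MP_b8021b_nt.VE
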