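import Pool.Agent.P.MP_b8021b_nt.VE.StN
import Pool.Agent.P.MP_b8021b_nt.VE.BasicP
import Pool.Agent.P.MP_b8021b_nt.VE.BasicB

/-! N4b: the incidences of the sections with at most three points are independent. -/

namespace Pool.Agent.P.MP_b8021b_nt.VE

open Polynomial Finset
open scoped Classical

namespace IndS

theorem fib_bound {X : Type} (S : Finset X) (τ : X → ℕ) (ι : X → X) {n : ℕ} (hn : 0 < n)
    (hτ : ∀ x ∈ S, τ x < n) (h2 : ∀ x ∈ S, ∀ x' ∈ S, τ x' = τ x → x' = x ∨ x' = ι x) (a : ℕ)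
    (g : X → ℝ) (h1 : ∀ x ∈ S, g x ≤ 5 / 4) (h3 : ∀ x ∈ S, τ x ≠ a → g x * n ≤ 5 / 4) :
    ∑ x ∈ S, g x ≤ 5 := by
  have hn' : (0 : ℝ) < n := by exact_mod_cast hn
  have hc : ∀ t, (S.filter fun x => τ x = t).card ≤ 2 := by
    intro t
    rcases (S.filter fun x => τ x = t).eq_empty_or_nonempty with h | ⟨x, hx⟩
    · rw [h]; simp
    · refine (card_le_card (t := {x, ι x}) fun x' hx' => ?_).trans card_le_two
      rw [mem_filter] at hx hx'
      rw [mem_insert, mem_singleton]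
      exact h2 x hx.1 x' hx'.1 (hx'.2.trans hx.2.symm)
  have hS : S.card ≤ 2 * n := by
    simpa using card_le_mul_card_image_of_maps_to (f := τ) (t := range n)
      (fun x hx => mem_range.2 (hτ x hx)) 2 fun t _ => hc t
  have hS' : (S.card : ℝ) ≤ 2 * n := by exact_mod_cast hS
  have hc' : ((S.filter fun x => τ x = a).card : ℝ) ≤ 2 := by exact_mod_cast hc a
  have e : ∑ x ∈ S, g x ≤ ∑ x ∈ S, ((if τ x = a then 5 / 4 else 0) + 5 / 4 / n : ℝ) := by
    refine sum_le_sum fun x hx => ?_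
    split_ifs with h
    · exact (h1 x hx).trans (le_add_of_nonneg_right (by positivity))
    · rw [zero_add, le_div_iff₀ hn']
      exact h3 x hx h
  rw [sum_add_distrib, ← sum_filter, sum_const, sum_const, nsmul_eq_mul, nsmul_eq_mul] at e
  have e2 : (S.card : ℝ) * (5 / 4 / n) ≤ 2 * n * (5 / 4 / n) :=
    mul_le_mul_of_nonneg_right hS' (by positivity)
  have e3 : (2 * n * (5 / 4 / n) : ℝ) = 5 / 2 := by field_simp; norm_num
  linarith

theorem ok_of {P X Z : Type} [Fintype P] [Fintype X] [Fintype Z] (σ : Side X Z) (b : Base P X)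
    (τ : X → ℕ) (n : P → ℕ) (hq : ∀ a, b.q a = n a) (hτ : ∀ x, τ x < n (b.pr x))
    (h2 : ∀ x x', b.pr x' = b.pr x → τ x' = τ x → x' = x ∨ x' = b.ι x)
    (h0 : ∀ z, 0 ≤ σ.wt z) (h1 : ∑ z, σ.wt z = 1) {δ ε : ℝ} (hδ : δ ≤ 1 / 4) (hε : δ ≤ ε / b.N)
    (key : ∀ Y : Finset X, Y.card ≤ 3 →
      (∀ x ∈ Y, ∀ x' ∈ Y, b.pr x = b.pr x' → τ x = τ x' → x = x') →
      |σ.prob Y * (∏ x ∈ Y, b.q (b.pr x)) - 1| ≤ δ) : σ.Ok b ε := by
  have key' : ∀ Y : Finset X, Y.card ≤ 3 →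
      (∀ x ∈ Y, ∀ x' ∈ Y, b.pr x = b.pr x' → τ x = τ x' → x = x') →
      σ.prob Y * (∏ x ∈ Y, b.q (b.pr x)) ≤ 5 / 4 := fun Y hY h => by
    linarith [(abs_le.1 (key Y hY h)).2]
  have mono : ∀ Y Y' : Finset X, Y ⊆ Y' → σ.prob Y' ≤ σ.prob Y := fun Y Y' h =>
    sum_with_mono h0 fun z _ hz x hx => hz x (h hx)
  have q0 : ∀ a, 0 ≤ b.q a := fun a => by rw [hq]; exact Nat.cast_nonneg _
  have fib : ∀ (x : X) (g : X → ℝ), (∀ x', b.pr x' = b.pr x → g x' ≤ 5 / 4) →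
      (∀ x', b.pr x' = b.pr x → τ x' ≠ τ x → g x' * b.q (b.pr x') ≤ 5 / 4) →
      ∑ x' with b.pr x' = b.pr x, g x' ≤ 5 := by
    intro x g g1 g2
    refine fib_bound _ τ b.ι (n := n (b.pr x)) ((Nat.zero_le _).trans_lt (hτ x)) ?_ ?_ (τ x) g
      (fun x' hx' => g1 x' (mem_filter.1 hx').2) fun x' hx' h => ?_
    · intro x' hx'
      rw [← (mem_filter.1 hx').2]
      exact hτ x'
    · intro x₁ hx₁ x₂ hx₂
      exact h2 x₁ x₂ ((mem_filter.1 hx₂).2.trans (mem_filter.1 hx₁).2.symm)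
    · rw [← hq, ← (mem_filter.1 hx').2]
      exact g2 x' (mem_filter.1 hx').2 h
  refine ⟨h0, h1, fun Y hY hinj => (key Y hY fun x hx x' hx' h _ => hinj hx hx' h).trans hε,
    fun x => fib x _ (fun x' _ => ?_) fun x' _ h => ?_,
    fun x₀ x hx => fib x _ (fun x' _ => ?_) fun x' e h => ?_⟩
  · have := key' {x} (by simp) (by simp)
    rw [prod_singleton] at this
    exact (mul_le_mul_of_nonneg_right (mono {x} {x, x'} (by simp)) (q0 _)).trans this
  · have hne : x ≠ x' := fun e => h (e ▸ rfl)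
    have := key' {x, x'} (card_le_two.trans (by norm_num)) (by
      simp only [mem_insert, mem_singleton]
      rintro a (rfl | rfl) a' (rfl | rfl) - e
      exacts [rfl, absurd e.symm h, absurd e h, rfl])
    rwa [prod_pair hne, ← mul_assoc] at this
  · have hne : x₀ ≠ x := fun e => hx (e ▸ rfl)
    have := key' {x₀, x} (card_le_two.trans (by norm_num)) (by
      simp only [mem_insert, mem_singleton]
      rintro a (rfl | rfl) a' (rfl | rfl) e -
      exacts [rfl, absurd e.symm hx, absurd e hx, rfl])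
    rw [prod_pair hne] at this
    exact (mul_le_mul_of_nonneg_right (mono {x₀, x} {x₀, x, x'}
      (insert_subset_insert _ (by simp))) (mul_nonneg (q0 _) (q0 _))).trans this
  · have hne : x₀ ≠ x := fun e => hx (e ▸ rfl)
    have hne' : x₀ ≠ x' := fun e' => hx (by rw [e', e])
    have hne2 : x ≠ x' := fun e => h (e ▸ rfl)
    have := key' {x₀, x, x'} card_le_three (by
      simp only [mem_insert, mem_singleton]
      rintro a (rfl | rfl | rfl) a' (rfl | rfl | rfl) e1 e2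
      exacts [rfl, absurd e1.symm hx, absurd (e.symm.trans e1.symm) hx, absurd e1 hx, rfl,
        absurd e2.symm h, absurd (e.symm.trans e1) hx, absurd e2 h, rfl])
    rw [prod_insert (by simp [hne, hne']), prod_pair hne2] at this
    exact le_of_eq_of_le (by ring) this

theorem sum_sub_eq {α : Type} (S : Finset α) (w : α → ℝ) {A : S → Prop} {B : α → Prop}
    {_ : DecidablePred A} {_ : DecidablePred B} (h : ∀ s : S, A s ↔ B s) :
    ∑ s : S with A s, w s = ∑ s ∈ S with B s, w s := by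
  rw [sum_filter, sum_filter, ← sum_coe_sort S]
  exact sum_congr rfl fun s _ => if_congr (h s) rfl rfl

/-- the coefficients of the linear condition given by a point -/
def wgt (p : Par) (x : Pt) : p.Ix → ℤ
  | .inl i => (p.r : ℤ) ^ p.n0 * (x.2.1 : ℤ) ^ (i.1 + 1)
  | .inr i => (p.r : ℤ) ^ p.n0 * (x.2.1 : ℤ) ^ (i.1 + 1) * x.2.2

theorem val_eq (p : Par) (x : Pt) (s : p.Co) :
    (p.gp s).eval (x.2.1 : ℤ) + (p.cp s).eval (x.2.1 : ℤ) * x.2.2 =
      (p.g0.eval (x.2.1 : ℤ) + p.c0.eval (x.2.1 : ℤ) * x.2.2) + ∑ j, s j * wgt p x j := by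
  simp only [Par.gp, Par.cp, eval_add, eval_mul, eval_C, eval_finsetSum, eval_pow, eval_X,
    Fintype.sum_sum_type, wgt, add_mul, mul_sum, sum_mul]
  have e1 : ∀ i : Fin p.k, (p.r : ℤ) ^ p.n0 * (s (.inl i) * (x.2.1 : ℤ) ^ (i.1 + 1)) =
      s (.inl i) * ((p.r : ℤ) ^ p.n0 * (x.2.1 : ℤ) ^ (i.1 + 1)) := fun i => by ring
  have e2 : ∀ i : Fin (p.k - 2),
      (p.r : ℤ) ^ p.n0 * (s (.inr i) * (x.2.1 : ℤ) ^ (i.1 + 1)) * x.2.2 =
      s (.inr i) * ((p.r : ℤ) ^ p.n0 * (x.2.1 : ℤ) ^ (i.1 + 1) * x.2.2) := fun i => by ring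
  simp only [e1, e2]
  ring

theorem exists_co (p : Par) (G : ℤ[X]) (hG : G.natDegree < p.k) : ∃ s : p.Co, ∀ x : Pt,
    ∑ j, s j * wgt p x j = (p.r : ℤ) ^ p.n0 * x.2.1 * G.eval (x.2.1 : ℤ) := by
  refine ⟨Sum.elim (fun i => G.coeff i.1) fun _ => 0, fun x => ?_⟩
  rw [eval_eq_sum_range' hG, mul_sum, ← Fin.sum_univ_eq_sum_range, Fintype.sum_sum_type]
  simp only [Sum.elim_inl, Sum.elim_inr, zero_mul, sum_const_zero, add_zero, wgt]
  exact sum_congr rfl fun i _ => by ring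

variable (p : Par) {ι : Type} [Fintype ι] (pt : ι → Pt) (hc : Fintype.card ι ≤ 3)
  (hpt : ∀ i, p.IsPt (pt i))
  (hsep : ∀ i j, (pt i).1 = (pt j).1 → (pt i).2.1 = (pt j).2.1 → i = j)

include hc hpt hsep

theorem exists_delta (i : ι) : ∃ s : p.Co, ¬ ((pt i).1 : ℤ) ∣ ∑ j, s j * wgt p (pt i) j ∧
    ∀ i', i' ≠ i → ((pt i').1 : ℤ) ∣ ∑ j, s j * wgt p (pt i') j := by
  let h : ι → ℤ[X] := fun j =>
    if (pt j).1 = (pt i).1 then X - C ((pt j).2.1 : ℤ) else C ((pt j).1 : ℤ)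
  have hd : (∏ j ∈ univ.erase i, h j).natDegree < p.k := by
    have h1 : ∑ j ∈ univ.erase i, (h j).natDegree ≤ (univ.erase i).card • 1 := by
      refine sum_le_card_nsmul _ _ _ fun j _ => ?_
      simp only [h]
      split_ifs
      · exact (natDegree_X_sub_C _).le
      · rw [natDegree_C]; exact zero_le_one
    have h2 := natDegree_prod_le (univ.erase i) h
    have h3 : (univ.erase i).card ≤ Fintype.card ι := card_le_univ _
    have := p.hk
    rw [smul_eq_mul] at h1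
    omega
  obtain ⟨s, hs⟩ := exists_co p _ hd
  obtain ⟨q1, -, q3, q4, q5, -⟩ := hpt i
  have hp : Prime ((pt i).1 : ℤ) := Nat.prime_iff_prime_int.1 q1
  refine ⟨s, fun hdv => ?_, fun i' hi' => ?_⟩
  · rw [hs, eval_prod] at hdv
    rcases hp.dvd_or_dvd hdv with hdv | hdv
    · rcases hp.dvd_or_dvd hdv with hdv | hdv
      · exact q3 ((Nat.prime_dvd_prime_iff_eq q1 p.hr).1
          (Int.natCast_dvd_natCast.1 (hp.dvd_of_dvd_pow hdv)))
      · exact absurd (Nat.le_of_dvd q4 (Int.natCast_dvd_natCast.1 hdv)) (not_le.2 q5)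
    · obtain ⟨j, hj, hdj⟩ := (Prime.dvd_finsetProd_iff hp _).1 hdv
      simp only [h] at hdj
      split_ifs at hdj with e
      · rw [eval_sub, eval_X, eval_C] at hdj
        have h5 := (hpt j).2.2.2.2.1
        have := Int.eq_zero_of_abs_lt_dvd hdj (abs_lt.2 ⟨by omega, by omega⟩)
        exact (mem_erase.1 hj).1 (hsep j i e (by omega))
      · rw [eval_C] at hdj
        exact e ((Nat.prime_dvd_prime_iff_eq q1 (hpt j).1).1 (Int.natCast_dvd_natCast.1 hdj)).symm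
  · rw [hs, eval_prod]
    refine Dvd.dvd.mul_left (Dvd.dvd.trans ?_
      (dvd_prod_of_mem _ (mem_erase.2 ⟨hi', mem_univ i'⟩))) _
    simp only [h]
    split_ifs
    · simp
    · rw [eval_C]

theorem exists_sol (a : ι → ℤ) :
    ∃ s : p.Co, ∀ i, ((pt i).1 : ℤ) ∣ ∑ j, s j * wgt p (pt i) j - a i := by
  choose s h1 h2 using exists_delta p pt hc hpt hsep
  have : ∀ i, ∃ n : ℤ, ((pt i).1 : ℤ) ∣ n * ∑ j, s i j * wgt p (pt i) j - a i := fun i => by
    obtain ⟨u, v, huv⟩ := (Nat.prime_iff_prime_int.1 (hpt i).1).irreducible.coprime_iff_not_dvd.2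
      (h1 i)
    exact ⟨a i * v, -(a i * u), by linear_combination a i * huv⟩
  choose n hn using this
  refine ⟨fun j => ∑ i, n i * s i j, fun i => ?_⟩
  have e : ∑ j, (∑ i', n i' * s i' j) * wgt p (pt i) j =
      ∑ i', n i' * ∑ j, s i' j * wgt p (pt i) j := by
    simp only [sum_mul, mul_sum, mul_assoc]
    exact sum_comm
  rw [e, ← add_sum_erase _ _ (mem_univ i), add_sub_right_comm]
  exact dvd_add (hn i) (dvd_sum fun i' hi' => (h2 i' i (mem_erase.1 hi').1.symm).mul_left _)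

theorem count {d : ℕ} (hd : d = ∏ i, (pt i).1) : ∃ R : Finset (p.Ix → ZMod d),
    (∀ s : p.Co, (fun j => (s j : ZMod d)) ∈ R ↔ ∀ i, p.OnS (pt i) s) ∧
      R.card * d = d ^ (2 * p.k - 2) := by
  have hq : ∀ i, NeZero (pt i).1 := fun i => ⟨(hpt i).1.ne_zero⟩
  have : NeZero d := ⟨by rw [hd]; exact prod_ne_zero_iff.2 fun i _ => (hpt i).1.ne_zero⟩
  have hdv : ∀ i, (pt i).1 ∣ d := fun i => by rw [hd]; exact dvd_prod_of_mem _ (mem_univ i)
  let Λ : (p.Ix → ZMod d) →+ (∀ i, ZMod (pt i).1) :=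
    { toFun := fun ρ i => ∑ j, ZMod.castHom (hdv i) (ZMod (pt i).1) (ρ j) * (wgt p (pt i) j : ℤ)
      map_zero' := by ext i; simp
      map_add' := fun ρ ρ' => by
        ext i
        simp only [Pi.add_apply, map_add, add_mul, sum_add_distrib] }
  have hΛ : ∀ (s : p.Co) (i : ι), Λ (fun j => (s j : ZMod d)) i =
      ((∑ j, s j * wgt p (pt i) j : ℤ) : ZMod (pt i).1) := fun s i => by
    change ∑ j, ZMod.castHom (hdv i) (ZMod (pt i).1) (s j : ZMod d) * (wgt p (pt i) j : ℤ) = _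
    simp only [map_intCast, Int.cast_sum, Int.cast_mul]
  have hsurj : Function.Surjective Λ := fun y => by
    obtain ⟨s, hs⟩ := exists_sol p pt hc hpt hsep fun i => ((y i).val : ℤ)
    refine ⟨fun j => (s j : ZMod d), funext fun i => ?_⟩
    rw [hΛ, ← sub_eq_zero, ← ZMod.natCast_zmod_val (y i), ← Int.cast_natCast, ← Int.cast_sub,
      ZMod.intCast_zmod_eq_zero_iff_dvd]
    exact hs i
  let v : ∀ i, ZMod (pt i).1 := fun i =>
    -((p.g0.eval ((pt i).2.1 : ℤ) + p.c0.eval ((pt i).2.1 : ℤ) * (pt i).2.2 : ℤ) : ZMod (pt i).1)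
  refine ⟨univ.filter fun ρ => Λ ρ = v, fun s => ?_, ?_⟩
  · rw [mem_filter, and_iff_right (mem_univ _), funext_iff]
    refine forall_congr' fun i => ?_
    rw [hΛ, Par.OnS, val_eq, ← ZMod.intCast_zmod_eq_zero_iff_dvd, Int.cast_add, add_comm,
      add_eq_zero_iff_eq_neg]
  · have e := card_eq_sum_card_fiberwise (f := Λ) (s := univ) (t := univ) fun _ _ => mem_univ _
    rw [sum_congr rfl fun y _ =>
        AddMonoidHom.card_fiber_eq_of_mem_range Λ (hsurj y) (hsurj v),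
      sum_const, card_univ, card_univ, Fintype.card_fun, Fintype.card_pi, ZMod.card,
      Fintype.card_sum, Fintype.card_fin, Fintype.card_fin, smul_eq_mul] at e
    simp only [ZMod.card] at e
    have hk := p.hk
    rw [show 2 * p.k - 2 = p.k + (p.k - 2) by omega, e, ← hd, mul_comm]

end IndS

open IndS in
theorem p_indS (hTheta : S_Theta) (hSEq : S_SEq) : S_IndS := by
  intro F ε hε
  obtain ⟨C, hC, hS⟩ := hSEq F.p
  have hT := Fix.Ev.of_N (F := F) (φ := fun y N => ∀ q ∈ Pset y N, (q : ℝ) < 3 * y) (by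
    obtain ⟨y₀, h⟩ := hTheta (6 * F.A + 1)
    exact ⟨y₀, fun y hy N h1 h2 q hq => ((h y hy N h1 h2).2.2.2 q hq).2.2.1⟩)
  refine ((((hT.and F.ev_L).and F.ev_N).and (F.ev_N_pow_le_self (27 * C / ε) 1)).and
    ((F.ev_y_ge (108 * C)))).mono ?_
  rintro c - ⟨⟨⟨⟨h1, h2, -⟩, h3, -⟩, h4⟩, h5⟩
  have hy : 1 ≤ c.y := by linarith
  have hN : (0 : ℝ) < c.N := by exact_mod_cast h3
  have hy4 : c.y ^ 4 ≤ c.L := (pow_le_pow_right₀ hy (by norm_num)).trans h2
  have hy3 : 0 < c.y ^ 3 := by positivity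
  have hL : (0 : ℝ) < c.L := lt_of_lt_of_le (by positivity) hy4
  have hL1 : 1 ≤ c.L := by exact_mod_cast hL
  have hδ : ∀ d : ℝ, d ≤ 27 * c.y ^ 3 → C * (d / c.L) ≤ 27 * C / c.y := fun d hd => by
    rw [← mul_div_assoc, div_le_div_iff₀ hL (by linarith)]
    have e1 : C * d * c.y ≤ C * (27 * c.y ^ 3) * c.y := by gcongr
    have e2 : 27 * C * c.y ^ 4 ≤ 27 * C * c.L := by gcongr
    nlinarith
  refine ok_of _ _ (fun x => x.1.2.1) (fun q => q.1) (fun _ => rfl)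
    (fun x => (mem_Xset.1 x.2).2.2.2.2.2.1) ?_ (fun s => wS_nonneg _ _ _ _) ?_
    (δ := 27 * C / c.y) ?_ ?_ ?_
  · rintro ⟨⟨q, a, w⟩, hx⟩ ⟨⟨q', a', w'⟩, hx'⟩ e1 e2
    obtain rfl : q' = q := congrArg Subtype.val e1
    obtain rfl : a' = a := e2
    obtain ⟨g1, -, -, -, -, g6, g7, g8⟩ := (mem_Xset.1 hx).2
    obtain ⟨-, -, -, -, -, g6', g7', g8'⟩ := (mem_Xset.1 hx').2
    simp only at g1 g6 g7 g8 g6' g7' g8'
    have hdv : (q' : ℤ) ∣ ((w' : ℤ) - w) * (w' + w - q') := by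
      refine (dvd_sub (dvd_sub g8' g8) (dvd_mul_right (q' : ℤ) ((w' : ℤ) - w))).trans
        (Dvd.intro 1 ?_)
      ring
    rcases (Nat.prime_iff_prime_int.1 g1).dvd_or_dvd hdv with h | h
    · have := Int.eq_zero_of_abs_lt_dvd h (abs_lt.2 ⟨by omega, by omega⟩)
      obtain rfl : w' = w := by omega
      exact Or.inl rfl
    · have := Int.eq_zero_of_abs_lt_dvd h (abs_lt.2 ⟨by omega, by omega⟩)
      obtain rfl : w' = q' - w := by omega
      exact Or.inr rfl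
  · exact (sum_coe_sort (Sset F.p c.S0 c.L) (wS F.p c.S0 c.L)).trans (hS c.S0 c.L 1 le_rfl hL1).1
  · rw [div_le_iff₀ (by linarith)]
    linarith
  · change _ ≤ ε / c.N
    rw [pow_one, div_mul_eq_mul_div, div_le_iff₀ hε] at h4
    rw [div_le_div_iff₀ (by linarith) hN]
    linarith
  · intro Y hY hsep
    obtain ⟨d, hd⟩ : ∃ d : ℕ, d = ∏ i : Y, i.1.1.1 := ⟨_, rfl⟩
    obtain ⟨R, hR, hcard⟩ := count F.p (fun i : Y => i.1.1) (by simpa using hY)
      (fun i => (mem_Xset.1 i.1.2).2)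
      (fun i j e1 e2 => Subtype.ext (hsep i i.2 j j.2 (Subtype.ext e1) e2)) hd
    have hd' : ∏ x ∈ Y, (base F.p c.y c.N).q ((base F.p c.y c.N).pr x) = d := by
      rw [hd, Nat.cast_prod, ← prod_coe_sort Y]
      rfl
    have hd1 : 1 ≤ d := by
      rw [hd]
      exact prod_pos fun i _ => (mem_Xset.1 i.1.2).2.1.pos
    have hd0 : (0 : ℝ) < d := by exact_mod_cast hd1
    have hd2 : (d : ℝ) ≤ 27 * c.y ^ 3 := by
      rw [← hd']
      refine (prod_le_prod (g := fun _ => 3 * c.y) (fun x _ => Nat.cast_nonneg _) fun x _ =>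
        (h1 _ (mem_Xset.1 x.2).1).le).trans ?_
      rw [prod_const]
      refine (pow_le_pow_right₀ (by linarith) hY).trans (le_of_eq ?_)
      ring
    have hdL : d ≤ c.L := by
      have : (d : ℝ) ≤ c.L := by nlinarith
      exact_mod_cast this
    have h := (hS c.S0 c.L d hd1 hdL).2.1 R
    have e : (R.card : ℝ) / (d : ℝ) ^ (2 * F.p.k - 2) = 1 / d := by
      rw [div_eq_div_iff (by positivity) hd0.ne', one_mul]
      exact_mod_cast hcard
    have e2 : (sideS F.p c.y c.N c.S0 c.L).prob Y =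
        ∑ s ∈ Sset F.p c.S0 c.L with (fun j => (s j : ZMod d)) ∈ R, wS F.p c.S0 c.L s := by
      unfold Side.prob
      refine sum_sub_eq (Sset F.p c.S0 c.L) (wS F.p c.S0 c.L) fun s => ?_
      exact ⟨fun h => (hR s.1).2 fun i => h i.1 i.2, fun h x hx => (hR s.1).1 h ⟨x, hx⟩⟩
    rw [e, ← e2] at h
    rw [hd']
    refine le_trans ?_ (hδ d hd2)
    have e3 : (sideS F.p c.y c.N c.S0 c.L).prob Y * d - 1 =
        ((sideS F.p c.y c.N c.S0 c.L).prob Y - 1 / d) * d := by field_simp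
    rw [e3, abs_mul, abs_of_pos hd0, ← le_div_iff₀ hd0]
    exact h.trans_eq (mul_one_div _ _)

end Pool.Agent.P.MP_b8021b_nt.VE
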