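import Pool.Agent.P.MP_b8021b_nt.VE.PIqb1

/-! N6: basic facts on imaginary quadratic fields. -/

namespace Pool.Agent.P.MP_b8021b_nt.VE

theorem p_iqb : S_IQb := by
  intro L _ _ K
  refine ⟨Iqb.coord K, Iqb.indep K, Iqb.absNorm_span K, Iqb.norm_lin K, Iqb.sig_c K, Iqb.cc K,
    Iqb.finite_units K, Iqb.unit_eq_one K, Iqb.mul_map_c K, Iqb.absNorm_map K, Iqb.discr_le K,
    ?_, fun q hq h => ?_⟩
  · obtain ⟨e⟩ := Iqb.exists_basis K
    exact ⟨e, Iqb.cov_eq K e⟩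
  · have := Fact.mk hq
    exact Iqb.card_primes K h

end Pool.Agent.P.MP_b8021b_nt.VE
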