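import Mathlib

/-!
Legendre's theorem for the norm form of an imaginary quadratic field.
-/

namespace Pool.Agent.P.MP_b8021b_nt.VE

open Finset

/-- a small nonzero vector on which two linear congruences hold -/
theorem leg_box (m d : ℕ) (hm : 0 < m) (hd : 0 < d) (r s : ℤ) : ∃ x y z : ℤ,
    ¬ (x = 0 ∧ y = 0 ∧ z = 0) ∧ x ^ 2 ≤ d ∧ y ^ 2 ≤ m * d ∧ z ^ 2 ≤ m ∧
      (m : ℤ) ∣ y - r * z ∧ (d : ℤ) ∣ y - s * x := by
  have : NeZero m := ⟨hm.ne'⟩
  have : NeZero d := ⟨hd.ne'⟩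
  let S : Finset (ℕ × ℕ × ℕ) :=
    range (d.sqrt + 1) ×ˢ range ((m * d).sqrt + 1) ×ˢ range (m.sqrt + 1)
  let F : ℕ × ℕ × ℕ → ZMod m × ZMod d := fun p =>
    (((p.2.1 - r * p.2.2 : ℤ) : ZMod m), ((p.2.1 - s * p.1 : ℤ) : ZMod d))
  have hc : (univ : Finset (ZMod m × ZMod d)).card < S.card := by
    simp only [S, card_univ, Fintype.card_prod, ZMod.card, card_product, card_range]
    have h1 := Nat.lt_succ_sqrt' d
    have h2 := Nat.lt_succ_sqrt' (m * d)
    have h3 := Nat.lt_succ_sqrt' m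
    refine lt_of_pow_lt_pow_left₀ 2 (Nat.zero_le _) ?_
    calc (m * d) ^ 2 = d * (m * d * m) := by ring
      _ < (d.sqrt + 1) ^ 2 * (((m * d).sqrt + 1) ^ 2 * (m.sqrt + 1) ^ 2) :=
        Nat.mul_lt_mul'' h1 (Nat.mul_lt_mul'' h2 h3)
      _ = _ := by ring
  obtain ⟨p, hp, q, hq, hne, e⟩ := exists_ne_map_eq_of_card_lt_of_maps_to hc
    (f := F) fun _ _ => mem_univ _
  simp only [S, mem_product, mem_range] at hp hq
  have key : ∀ n a b : ℕ, a < n.sqrt + 1 → b < n.sqrt + 1 → ((a : ℤ) - b) ^ 2 ≤ n := by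
    intro n a b ha hb
    have h1 : ((n.sqrt : ℤ)) ^ 2 ≤ n := by exact_mod_cast Nat.sqrt_le' n
    exact (sq_le_sq' (by omega) (by omega)).trans h1
  refine ⟨(p.1 : ℤ) - q.1, (p.2.1 : ℤ) - q.2.1, (p.2.2 : ℤ) - q.2.2, fun h => hne ?_,
    key _ _ _ hp.1 hq.1, by exact_mod_cast key _ _ _ hp.2.1 hq.2.1, key _ _ _ hp.2.2 hq.2.2, ?_, ?_⟩
  · exact Prod.ext (by omega) (Prod.ext (by omega) (by omega))
  · have := (ZMod.intCast_eq_intCast_iff_dvd_sub _ _ _).1 (congrArg Prod.fst e).symm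
    exact Dvd.dvd.trans this (dvd_of_eq (by ring))
  · have := (ZMod.intCast_eq_intCast_iff_dvd_sub _ _ _).1 (congrArg Prod.snd e).symm
    exact Dvd.dvd.trans this (dvd_of_eq (by ring))

/-- Legendre's theorem for the form `x ^ 2 + d * y ^ 2 - m * z ^ 2` -/
theorem legendre_core (m d : ℕ) (hm : 0 < m) (hd : 0 < d) (hc : Nat.Coprime m d)
    (h1 : IsSquare (-(d : ZMod m))) (h2 : IsSquare (m : ZMod d)) :
    ∃ x y : ℚ, (m : ℚ) = x ^ 2 + d * y ^ 2 := by
  obtain ⟨r0, hr⟩ := h1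
  obtain ⟨s0, hs⟩ := h2
  obtain ⟨r, rfl⟩ := ZMod.intCast_surjective r0
  obtain ⟨s, rfl⟩ := ZMod.intCast_surjective s0
  have hr' : (m : ℤ) ∣ r * r + d := (ZMod.intCast_zmod_eq_zero_iff_dvd _ _).1 (by
    push_cast; rw [← hr]; ring)
  have hs' : (d : ℤ) ∣ s * s - m := (ZMod.intCast_zmod_eq_zero_iff_dvd _ _).1 (by
    push_cast; rw [← hs]; ring)
  obtain ⟨x, y, z, h0, hx, hy, hz, k1, k2⟩ := leg_box m d hm hd r s
  have hm' : (0 : ℤ) < m := by exact_mod_cast hm
  have hd' : (0 : ℤ) < d := by exact_mod_cast hd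
  have hcz : IsCoprime (m : ℤ) d := Nat.isCoprime_iff_coprime.2 hc
  have d1 : (m : ℤ) ∣ m * x ^ 2 - y ^ 2 - d * z ^ 2 := by
    have : (m : ℤ) * x ^ 2 - y ^ 2 - d * z ^ 2 =
        m * x ^ 2 - (y - r * z) * (y + r * z) - (r * r + d) * z ^ 2 := by ring
    rw [this]
    exact ((dvd_mul_right _ _).sub (k1.mul_right _)).sub (hr'.mul_right _)
  have d2 : (d : ℤ) ∣ m * x ^ 2 - y ^ 2 - d * z ^ 2 := by
    have : (m : ℤ) * x ^ 2 - y ^ 2 - d * z ^ 2 =
        -((s * s - m) * x ^ 2) - (y - s * x) * (y + s * x) - d * z ^ 2 := by ring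
    rw [this]
    exact (((hs'.mul_right _).neg_right).sub (k2.mul_right _)).sub (dvd_mul_right _ _)
  obtain ⟨k, hk⟩ := hcz.mul_dvd d1 d2
  have hn : (0 : ℤ) < m * d := mul_pos hm' hd'
  have u1 : k ≤ 1 := le_of_mul_le_mul_left (by nlinarith [sq_nonneg y, sq_nonneg z]) hn
  have u2 : -2 ≤ k := le_of_mul_le_mul_left (by nlinarith [sq_nonneg x]) hn
  have hq : (m : ℚ) * x ^ 2 - y ^ 2 - d * z ^ 2 = m * d * k := by exact_mod_cast hk
  interval_cases k
  · refine ⟨z, 0, ?_⟩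
    have : z ^ 2 = m := by nlinarith [sq_nonneg x]
    have : (z : ℚ) ^ 2 = m := by exact_mod_cast this
    rw [this]; ring
  · have hp : (0 : ℚ) < (x : ℚ) ^ 2 + d := by positivity
    refine ⟨(x * y + d * z) / (x ^ 2 + d), (x * z - y) / (x ^ 2 + d), ?_⟩
    field_simp
    push_cast at hq
    linear_combination ((x : ℚ) ^ 2 + d) * hq
  · have hx0 : x ≠ 0 := by
      rintro rfl
      have hy0 : y = 0 := by nlinarith [sq_nonneg y, sq_nonneg z]
      have hz0 : z ^ 2 = 0 := by nlinarith [sq_nonneg y, sq_nonneg z]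
      exact h0 ⟨rfl, hy0, pow_eq_zero_iff two_ne_zero |>.1 hz0⟩
    have : (x : ℚ) ≠ 0 := by exact_mod_cast hx0
    refine ⟨y / x, z / x, ?_⟩
    field_simp
    push_cast at hq
    linear_combination hq
  · have hx2 : x ^ 2 = d := by nlinarith [sq_nonneg y, sq_nonneg z]
    have hy0 : y = 0 := by nlinarith [sq_nonneg y, sq_nonneg z]
    have hsd : IsCoprime (d : ℤ) s := by
      obtain ⟨c, hc'⟩ := hs'
      have : (m : ℤ) = s * s + d * (-c) := by linear_combination -hc'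
      rw [this] at hcz
      exact (IsCoprime.of_add_mul_left_left hcz).of_mul_left_left.symm
    have hdx : (d : ℤ) ∣ x := hsd.dvd_of_dvd_mul_left (by simpa [hy0] using k2)
    have hd1 : d = 1 := by
      obtain ⟨c, rfl⟩ := hdx
      have : (d : ℤ) * (d * c ^ 2) = d * 1 := by linear_combination hx2
      have h3 : (d : ℤ) ∣ 1 := ⟨c ^ 2, (mul_left_cancel₀ hd'.ne' this).symm⟩
      exact_mod_cast Int.eq_one_of_dvd_one hd'.le h3
    subst hd1
    obtain ⟨a, b, hab⟩ := Nat.eq_sq_add_sq_of_isSquare_mod_neg_one (n := m) ⟨r, by simpa using hr⟩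
    exact ⟨a, b, by rw [hab]; push_cast; ring⟩

/-- a square modulo every prime factor of a squarefree number is a square modulo the number -/
theorem isSquare_of_primes (c : ℤ) (a : ℕ) (ha : Squarefree a)
    (h : ∀ p : ℕ, p.Prime → p ∣ a → IsSquare (c : ZMod p)) : IsSquare (c : ZMod a) := by
  induction a using Nat.recOnMul with
  | zero => exact absurd ha not_squarefree_zero
  | one => exact ⟨0, Subsingleton.elim _ _⟩
  | prime p hp => exact h p hp dvd_rfl
  | mul a b iha ihb =>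
    obtain ⟨hc, h1, h2⟩ := Nat.squarefree_mul_iff.1 ha
    obtain ⟨r, hr⟩ := iha h1 fun p hp e => h p hp (e.mul_right _)
    obtain ⟨s, hs⟩ := ihb h2 fun p hp e => h p hp (e.mul_left _)
    refine ⟨(ZMod.chineseRemainder hc).symm (r, s), (ZMod.chineseRemainder hc).injective ?_⟩
    rw [map_mul, RingEquiv.apply_symm_apply, map_intCast]
    exact Prod.ext hr hs

/-- the form in which the conditions are checked prime by prime -/
theorem legendre_norm (m d : ℕ) (hm : 0 < m) (hd : 0 < d) (hc : Nat.Coprime m d)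
    (h1 : ∀ p : ℕ, p.Prime → Odd (m.factorization p) → IsSquare (-(d : ZMod p)))
    (h2 : IsSquare (m : ZMod d)) : ∃ x y : ℚ, (m : ℚ) = x ^ 2 + d * y ^ 2 := by
  obtain ⟨a, b, rfl, ha⟩ := Nat.sq_mul_squarefree m
  have hb : b ≠ 0 := by rintro rfl; simp at hm
  obtain ⟨x, y, e⟩ := legendre_core a d (Nat.pos_of_ne_zero ha.ne_zero) hd
    (Nat.Coprime.coprime_mul_left hc) (by
      have := isSquare_of_primes (-d) a ha fun p hp e => by
        have h3 : a.factorization p = 1 :=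
          le_antisymm (ha.natFactorization_le_one p) (hp.factorization_pos_of_dvd ha.ne_zero e)
        have := h1 p hp (by
          rw [Nat.factorization_mul (pow_ne_zero _ hb) ha.ne_zero, Nat.factorization_pow]
          simp [h3])
        simpa using this
      simpa using this) (by
      obtain ⟨s, hs⟩ := h2
      have hu : Nat.Coprime b d :=
        (Nat.Coprime.coprime_mul_right hc).coprime_dvd_left (dvd_pow_self b two_ne_zero)
      obtain ⟨u, hu'⟩ := (ZMod.isUnit_iff_coprime b d).2 hu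
      refine ⟨s * ↑u⁻¹, ?_⟩
      push_cast at hs
      rw [← hu'] at hs
      have h4 : (↑u⁻¹ : ZMod d) * u = 1 := u.inv_mul
      linear_combination (↑u⁻¹ : ZMod d) ^ 2 * hs - (a : ZMod d) * ((↑u⁻¹ : ZMod d) * u + 1) * h4)
  refine ⟨b * x, b * y, ?_⟩
  push_cast
  rw [e]
  ring

end Pool.Agent.P.MP_b8021b_nt.VE
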