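import Pool.Agent.P.MP_b8021b_nt.VE.StN
import Pool.Agent.P.MP_b8021b_nt.VE.Leg0

/-! Package N13: Legendre's theorem in integral form. -/

namespace Pool.Agent.P.MP_b8021b_nt.VE

theorem p_leg : S_Leg := by
  intro d m hd hm hc h1 h2
  obtain ⟨x, y, h⟩ := legendre_core m d (Nat.pos_of_ne_zero hm.ne_zero)
    (Nat.pos_of_ne_zero hd.ne_zero) hc.symm h1 h2
  have hx : (x.den : ℚ) ≠ 0 := by exact_mod_cast x.den_ne_zero
  have hy : (y.den : ℚ) ≠ 0 := by exact_mod_cast y.den_ne_zero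
  refine ⟨x.num * y.den, y.num * x.den, x.den * y.den, ?_, ?_⟩
  · exact mul_ne_zero (by exact_mod_cast x.den_ne_zero) (by exact_mod_cast y.den_ne_zero)
  · have ex : (x.num : ℚ) = x * x.den := (Rat.mul_den_eq_num x).symm
    have ey : (y.num : ℚ) = y * y.den := (Rat.mul_den_eq_num y).symm
    have : (((x.num * y.den) ^ 2 + d * (y.num * x.den) ^ 2 : ℤ) : ℚ) =
        ((m * (x.den * y.den) ^ 2 : ℤ) : ℚ) := by
      push_cast
      rw [ex, ey, h]
      ring
    exact_mod_cast this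

end Pool.Agent.P.MP_b8021b_nt.VE
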