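import Pool.Agent.P.MP_b8021b_nt.VE.BasicB

/-! B7: rigidity on a section. -/

namespace Pool.Agent.P.MP_b8021b_nt.VE

open Polynomial Finset
open scoped Classical

noncomputable section

namespace LocS

variable {X Z Ce : Type} [Fintype X] [Fintype Z] [Fintype Ce] {N u : ℕ} {lev : X → ℕ} {m : X → ℝ}
  {π : Z → (Fin (u + 2) → X) → ℝ} {cell : Z → Ce} {ε C : ℝ}

/-- weight of an event of tuples -/
def pm (π : Z → (Fin (u + 2) → X) → ℝ) (p : Z → (Fin (u + 2) → X) → Prop) : ℝ :=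
  ∑ z, ∑ x with p z x, π z x

/-- weight of a set of points -/
def mm (N : ℕ) (m : X → ℝ) (p : X → Prop) : ℝ := (∑ a with p a, m a) / N

lemma pm_eq (π : Z → (Fin (u + 2) → X) → ℝ) (p : Z → (Fin (u + 2) → X) → Prop)
    [i : ∀ z, DecidablePred (p z)] : ∑ z, ∑ x with p z x, π z x = pm π p := by
  unfold pm; rw [Subsingleton.elim i fun z x => Classical.propDecidable (p z x)]

lemma mm_eq (N : ℕ) (m : X → ℝ) (p : X → Prop) [i : DecidablePred p] :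
    (∑ a with p a, m a) / N = mm N m p := by
  unfold mm; rw [Subsingleton.elim i fun x => Classical.propDecidable (p x)]

lemma mm_nonneg (hm : ∀ x, 0 ≤ m x) (p : X → Prop) : 0 ≤ mm N m p :=
  div_nonneg (sum_with_nonneg hm p) (Nat.cast_nonneg _)

lemma mm_mono (hm : ∀ x, 0 ≤ m x) {p q : X → Prop} (h : ∀ x, p x → q x) : mm N m p ≤ mm N m q :=
  div_le_div_of_nonneg_right (sum_with_mono hm fun x _ => h x) (Nat.cast_nonneg _)

lemma mm_or (hm : ∀ x, 0 ≤ m x) {p q r : X → Prop} (h : ∀ x, p x → q x ∨ r x) :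
    mm N m p ≤ mm N m q + mm N m r := by
  unfold mm; rw [← add_div]
  exact div_le_div_of_nonneg_right (sum_with_or hm fun x _ => h x) (Nat.cast_nonneg _)

lemma pm_nonneg (hπ : ∀ z x, 0 ≤ π z x) (p : Z → (Fin (u + 2) → X) → Prop) : 0 ≤ pm π p :=
  sum_nonneg fun z _ => sum_with_nonneg (hπ z) _

lemma pm_union (hπ : ∀ z x, 0 ≤ π z x) {p q : Z → (Fin (u + 2) → X) → Prop}
    {r : Fin (u + 2) → Z → (Fin (u + 2) → X) → Prop} {c : ℝ}
    (h : ∀ z x, π z x ≠ 0 → p z x → q z x ∨ ∃ i, r i z x) (hr : ∀ i, pm π (r i) ≤ c) :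
    pm π p ≤ pm π q + (u + 2) * c := by
  have h1 : pm π p ≤ pm π q + ∑ i, pm π (r i) := by
    unfold pm
    rw [sum_comm (s := univ) (t := univ), ← sum_add_distrib]
    refine sum_le_sum fun z _ => (sum_with_or (hπ z) (h z)).trans ?_
    exact add_le_add le_rfl (sum_with_exists (hπ z) fun _ _ h => h)
  have h2 : ∑ i, pm π (r i) ≤ ∑ _i : Fin (u + 2), c := sum_le_sum fun i _ => hr i
  simp only [sum_const, card_univ, Fintype.card_fin, nsmul_eq_mul] at h2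
  push_cast at h2
  linarith

/-- the facts of `S_L2` for one local system -/
structure L2c (N : ℕ) (lev : X → ℕ) (m : X → ℝ) (π : Z → (Fin (u + 2) → X) → ℝ) (cell : Z → Ce)
    (ε C : ℝ) : Prop where
  loc : Loc N u lev m π cell ε
  one_le : 1 ≤ C
  tot : ∑ z, ∑ x, π z x ≤ 1 + C * ε
  cells : ∀ 𝒞 : Finset Ce, (𝒞.card : ℝ) / Fintype.card Ce ≤ pm π (fun z _ => cell z ∈ 𝒞) + C * ε
  up : ∀ (E : X → Prop) (i : Fin (u + 2)), pm π (fun _ x => E (x i)) ≤ C * mm N m E + ε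
  lo : ∀ E : X → Prop, mm N m E ≤ C * (pm π (fun _ x => E (x 0)) + ε)
  two : ∀ (E E' : X → Prop) (i : Fin (u + 2)), 0 ≠ i →
    pm π (fun _ x => E (x 0) ∧ E' (x i)) ≤ C * (mm N m E * mm N m E') + ε
  l2 : ∀ (ψ : X → ℝ) (g : Ce → ℝ) (K : ℝ), (∀ x, |ψ x| ≤ K) → (∀ c, |g c| ≤ K) →
      (u + 2) * ∑ x, m x * P1 N u (lev x) * (ψ x - levMean lev m ψ (lev x)) ^ 2 +
        (∑ c, Form N u (levMean lev m ψ) (g c)) / Fintype.card Ce ≤
      ∑ z, ∑ x, π z x * (∑ i, ψ (x i) + g (cell z)) ^ 2 + C * ε * K ^ 2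

lemma exists_l2c (hL2 : S_L2) {u : ℕ} (hu : 6 ≤ u) : ∃ C ε₀ : ℝ, 1 ≤ C ∧ 0 < ε₀ ∧
    ∀ (X Z Ce : Type) [Fintype X] [Fintype Z] [Fintype Ce] [Nonempty Ce] (N : ℕ) (lev : X → ℕ)
      (m : X → ℝ) (π : Z → (Fin (u + 2) → X) → ℝ) (cell : Z → Ce) (ε : ℝ), ε ≤ ε₀ →
      Loc N u lev m π cell ε → L2c N lev m π cell ε C := by
  obtain ⟨C, ε₀, hC, hε, H⟩ := hL2 u hu
  refine ⟨C, ε₀, hC, hε, fun X Z Ce _ _ _ _ N lev m π cell ε he hl => ?_⟩
  obtain ⟨h1, h2, h3, h4, h5⟩ := H X Z Ce N lev m π cell ε he hl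
  refine ⟨hl, hC, by linarith [(abs_le.mp h1).2], fun 𝒞 => (h2 𝒞).trans ?_, fun E i => ?_,
    fun E => (h3 E).2, fun E E' i hi => ?_, h5⟩
  · refine add_le_add (le_of_eq ?_) le_rfl
    unfold pm
    rw [sum_filter]
    refine sum_congr rfl fun z _ => ?_
    by_cases hz : cell z ∈ 𝒞 <;> simp [hz]
  · have := (h3 E).1
    rw [mul_div_assoc] at this
    refine le_trans (le_of_eq ?_) this
    exact sum_congr rfl fun z _ => sum_with_symm_one (hl.symm z) i E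
  · refine le_trans (le_of_eq ?_) (h4 E E')
    rw [← pm_eq]
    exact sum_congr rfl fun z _ => sum_with_symm_two (hl.symm z) hi E E'

lemma abs_sum_le_of {n : ℕ} {f : Fin n → ℝ} {Λ : ℝ} (h : ∀ i, |f i| ≤ Λ) : |∑ i, f i| ≤ n * Λ := by
  refine (abs_sum_le_sum_abs _ _).trans ((sum_le_sum fun i _ => h i).trans ?_)
  simp

/-- most cells contain a point where `At` is small -/
lemma cells [Nonempty Ce] (H : L2c N lev m π cell ε C) {ψ : X → ℝ} {At : Z → ℝ} {lam Λ h h2 δ : ℝ}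
    (hh : pm π (fun z x => lam < |∑ i, ψ (x i) + At z|) ≤ h)
    (hf : mm N m (fun x => Λ < |ψ x|) ≤ h2) (hδ : h + (u + 2) * (C * h2 + ε) + C * ε ≤ δ) :
    (1 - δ) * Fintype.card Ce ≤
      ((univ.filter fun c => ∃ z, cell z = c ∧ |At z| ≤ lam + (u + 2) * Λ).card : ℝ) := by
  have h1 := H.cells (univ.filter fun c => ¬ ∃ z, cell z = c ∧ |At z| ≤ lam + (u + 2) * Λ)
  have h2 := pm_union H.loc.nonneg (c := C * h2 + ε)
    (p := fun z _ => cell z ∈ univ.filter fun c => ¬ ∃ z, cell z = c ∧ |At z| ≤ lam + (u + 2) * Λ)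
    (q := fun z x => lam < |∑ i, ψ (x i) + At z|) (r := fun i _ x => Λ < |ψ (x i)|) ?_ ?_
  · have h3 := card_filter_add_card_filter_not (s := (univ : Finset Ce))
      fun c => ∃ z, cell z = c ∧ |At z| ≤ lam + (u + 2) * Λ
    have h4 : (0 : ℝ) < Fintype.card Ce := by exact_mod_cast Fintype.card_pos
    rw [div_le_iff₀ h4] at h1
    rw [card_univ] at h3
    have h5 := congrArg (Nat.cast : ℕ → ℝ) h3
    push_cast at h5
    nlinarith
  · intro z x _ hz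
    by_contra hc
    push Not at hc
    apply (mem_filter.mp hz).2
    refine ⟨z, rfl, ?_⟩
    have h3 := abs_sum_le_of hc.2
    have h4 := abs_sub (∑ i, ψ (x i) + At z) (∑ i, ψ (x i))
    rw [add_sub_cancel_left] at h4
    push_cast at h3
    linarith [hc.1]
  · intro i
    refine (H.up (fun x => Λ < |ψ x|) i).trans ?_
    have := H.one_le
    gcongr

/-- the tail bound -/
lemma tail (H : L2c N lev m π cell ε C) {ψ : X → ℝ} {At : Z → ℝ} {lam Λ h k Mg : ℝ}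
    (hh : pm π (fun z x => lam < |∑ i, ψ (x i) + At z|) ≤ h) (hΛ : 0 ≤ Λ)
    (hf : mm N m (fun x => Λ < |ψ x|) ≤ k) (hA : ∀ z, |At z| ≤ Mg)
    (hs : C ^ 2 * (u + 2) * k ≤ 1 / 2) :
    mm N m (fun x => lam + (u + 2) * Λ + Mg < |ψ x|) ≤ 2 * C * (u + 3) * (h + ε) := by
  set K := lam + (u + 2) * Λ + Mg with hK
  set ρ := mm N m (fun x => K < |ψ x|) with hρ
  have hρ0 : 0 ≤ ρ := mm_nonneg H.loc.m_nonneg _
  have hC := H.one_le
  have hε := H.loc.pos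
  have hf0 : 0 ≤ mm N m (fun x => Λ < |ψ x|) := mm_nonneg H.loc.m_nonneg _
  have hh0 : 0 ≤ h := (pm_nonneg H.loc.nonneg _).trans hh
  have h1 := H.lo fun x => K < |ψ x|
  have h2 := pm_union H.loc.nonneg (c := C * (ρ * k) + ε)
    (p := fun _ x => K < |ψ (x 0)|) (q := fun z x => lam < |∑ i, ψ (x i) + At z|)
    (r := fun i _ x => 0 ≠ i ∧ K < |ψ (x 0)| ∧ Λ < |ψ (x i)|) ?_ ?_
  · have hu : (0 : ℝ) ≤ u := Nat.cast_nonneg u
    have h3 : ρ ≤ C * (h + (u + 2) * (C * (ρ * k) + ε) + ε) :=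
      h1.trans (mul_le_mul_of_nonneg_left (by linarith) (by linarith))
    have h4 : C * ((u + 2) * (C * (ρ * k))) ≤ ρ / 2 := by
      have := mul_le_mul_of_nonneg_left hs hρ0
      linarith
    have h5 : C * h ≤ C * ((u + 3) * h) := by
      refine mul_le_mul_of_nonneg_left ?_ (by linarith)
      nlinarith
    linarith
  · intro z x _ hz
    by_contra hc
    push Not at hc
    have h3 : |∑ i : Fin (u + 1), ψ (x i.succ)| ≤ (u + 1 : ℕ) * Λ :=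
      abs_sum_le_of fun i => hc.2 i.succ (Fin.succ_ne_zero i).symm hz
    have h4 := hc.1
    rw [Fin.sum_univ_succ] at h4
    have h5 := hA z
    push_cast at h3
    rw [abs_le] at h3 h4 h5
    rw [lt_abs] at hz
    rcases hz with hz | hz <;> linarith [h3.1, h3.2, h4.1, h4.2, h5.1, h5.2]
  · intro i
    by_cases hi : 0 = i
    · have : pm π (fun _ x => 0 ≠ i ∧ K < |ψ (x 0)| ∧ Λ < |ψ (x i)|) = 0 := by simp [pm, hi]
      rw [this]
      have := hf0.trans hf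
      positivity
    · have := H.two (fun x => K < |ψ x|) (fun x => Λ < |ψ x|) i hi
      simp only [ne_eq, hi, not_false_eq_true, true_and]
      refine this.trans ?_
      gcongr

/-- the second moment of the truncated sum -/
lemma trunc (H : L2c N lev m π cell ε C) {ψ : X → ℝ} {At : Z → ℝ} {g : Ce → ℝ} {lam h K ρ o : ℝ}
    (hh : pm π (fun z x => lam < |∑ i, ψ (x i) + At z|) ≤ h) (hK : 0 ≤ K) (hl : 0 ≤ lam + o)
    (hf : mm N m (fun x => K < |ψ x|) ≤ ρ) (hg : ∀ c, |g c| ≤ K)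
    (ho : ∀ z, |At z - g (cell z)| ≤ o) (he : C * ε ≤ 1) :
    ∑ z, ∑ x, π z x * (∑ i, tr K (ψ (x i)) + g (cell z)) ^ 2 ≤
      2 * (lam + o) ^ 2 + ((u + 3) * K) ^ 2 * (h + (u + 2) * (C * ρ + ε)) := by
  have hC := H.one_le
  have h2 := pm_union H.loc.nonneg (c := C * ρ + ε)
    (p := fun z x => lam + o < |∑ i, tr K (ψ (x i)) + g (cell z)|)
    (q := fun z x => lam < |∑ i, ψ (x i) + At z|) (r := fun i _ x => K < |ψ (x i)|) ?_ ?_
  · have h3 : ∑ z, ∑ x, π z x * (∑ i, tr K (ψ (x i)) + g (cell z)) ^ 2 ≤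
        (lam + o) ^ 2 * ∑ z, ∑ x, π z x + ((u + 3) * K) ^ 2 *
          pm π (fun z x => lam + o < |∑ i, tr K (ψ (x i)) + g (cell z)|) := by
      rw [← pm_eq]
      simp only [sum_filter, mul_sum, ← sum_add_distrib]
      refine sum_le_sum fun z _ => sum_le_sum fun x _ => ?_
      have h4 := H.loc.nonneg z x
      split_ifs with hc
      · have h5 : |∑ i, tr K (ψ (x i))| ≤ (u + 2 : ℕ) * K := abs_sum_le_of fun i => abs_tr_le hK _
        have h6 := abs_add_le (∑ i, tr K (ψ (x i))) (g (cell z))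
        have h7 : |∑ i, tr K (ψ (x i)) + g (cell z)| ≤ (u + 3) * K := by
          push_cast at h5; linarith [hg (cell z)]
        have h8 := pow_le_pow_left₀ (abs_nonneg _) h7 2
        rw [sq_abs] at h8
        linarith [mul_le_mul_of_nonneg_left h8 h4, mul_nonneg (sq_nonneg (lam + o)) h4]
      · have h8 := pow_le_pow_left₀ (abs_nonneg _) (not_lt.mp hc) 2
        rw [sq_abs] at h8
        linarith [mul_le_mul_of_nonneg_left h8 h4]
    have h4 := H.tot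
    refine h3.trans (add_le_add ?_ (mul_le_mul_of_nonneg_left (by linarith) (sq_nonneg _)))
    nlinarith [sq_nonneg (lam + o)]
  · intro z x _ hz
    by_contra hc
    push Not at hc
    rw [sum_congr rfl fun i _ => tr_of_le (hc.2 i)] at hz
    have h4 := abs_sub (∑ i, ψ (x i) + At z) (At z - g (cell z))
    rw [show ∑ i, ψ (x i) + At z - (At z - g (cell z)) = ∑ i, ψ (x i) + g (cell z) by ring] at h4
    linarith [hc.1, ho z]
  · intro i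
    refine (H.up (fun x => K < |ψ x|) i).trans ?_
    gcongr

/-- an affine fit in mean square -/
lemma fit [Nonempty Ce] (H : L2c N lev m π cell ε C) {c CF : ℝ} (hc : 0 < c) (hCF : 1 ≤ CF)
    (hP : ∀ i < N, c ≤ N * P1 N u i)
    (hF : ∀ (φ : ℕ → ℝ) (A : ℝ), 0 ≤ Form N u φ A ∧ ∀ σ K : ℝ, 0 ≤ σ → Form N u φ A ≤ σ ^ 2 →
      (∀ i < N, |φ i| ≤ K) → ∃ φ₁ κ : ℝ,
        ∑ i ∈ range N, (φ i - φ₁ - κ * i / N) ^ 2 ≤ CF * N * σ ^ 2 ∧ |κ| ≤ CF * (K + σ))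
    {ψ : X → ℝ} {g : Ce → ℝ} {K σ : ℝ} (hK : 0 ≤ K) (hσ : 0 ≤ σ) (hψ : ∀ x, |ψ x| ≤ K)
    (hg : ∀ c, |g c| ≤ K) (he : ε ≤ 1)
    (hs : ∑ z, ∑ x, π z x * (∑ i, ψ (x i) + g (cell z)) ^ 2 + C * ε * K ^ 2 ≤ σ ^ 2) :
    ∃ φ₁ κ : ℝ, |κ| ≤ CF * (K + σ) ∧
      ∑ x, m x * (ψ x - φ₁ - κ * lev x / N) ^ 2 ≤ (1 / c + 4 * CF) * N * σ ^ 2 := by
  have h1 := (H.l2 ψ g K hψ hg).trans hs
  set φ := levMean lev m ψ
  have hm := H.loc.m_nonneg
  have hN := H.loc.NR_pos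
  have hu : (0 : ℝ) ≤ u := Nat.cast_nonneg u
  have h4 : (0 : ℝ) < Fintype.card Ce := by exact_mod_cast Fintype.card_pos
  have h2 : 0 ≤ ∑ x, m x * P1 N u (lev x) * (ψ x - φ (lev x)) ^ 2 :=
    sum_nonneg fun x _ => mul_nonneg (mul_nonneg (hm x) (P1_nonneg _ _ _)) (sq_nonneg _)
  have h3 : 0 ≤ (∑ c, Form N u φ (g c)) / Fintype.card Ce :=
    div_nonneg (sum_nonneg fun c _ => (hF φ (g c)).1) h4.le
  have h5 : ∃ c, Form N u φ (g c) ≤ σ ^ 2 := by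
    by_contra hc
    push Not at hc
    have h6 : ∑ _c : Ce, σ ^ 2 < ∑ c, Form N u φ (g c) :=
      sum_lt_sum_of_nonempty univ_nonempty fun c _ => hc c
    have h7 : (∑ c, Form N u φ (g c)) / Fintype.card Ce ≤ σ ^ 2 := by linarith [mul_nonneg (show (0 : ℝ) ≤ u + 2 by linarith) h2]
    rw [div_le_iff₀ h4] at h7
    simp only [sum_const, card_univ, nsmul_eq_mul] at h6
    linarith
  obtain ⟨c₀, h5⟩ := h5
  obtain ⟨φ₁, κ, h6, h7⟩ := (hF φ (g c₀)).2 σ K hσ h5 fun i _ => abs_levMean_le hm hK hψ lev i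
  refine ⟨φ₁, κ, h7, ?_⟩
  have h8 : c * ∑ x, m x * (ψ x - φ (lev x)) ^ 2 ≤
      N * ∑ x, m x * P1 N u (lev x) * (ψ x - φ (lev x)) ^ 2 := by
    rw [mul_sum, mul_sum]
    refine sum_le_sum fun x _ => ?_
    have := mul_le_mul_of_nonneg_right (hP _ (H.loc.lev_lt x))
      (mul_nonneg (hm x) (sq_nonneg (ψ x - φ (lev x))))
    linarith
  have h9 : ∑ x, m x * (φ (lev x) - φ₁ - κ * lev x / N) ^ 2 ≤ 2 * (CF * N * σ ^ 2) := by
    refine le_trans ?_ (mul_le_mul_of_nonneg_left h6 zero_le_two)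
    rw [sum_lev H.loc.lev_lt, mul_sum]
    refine sum_le_sum fun i hi => ?_
    rw [sum_congr rfl fun x hx => by rw [(mem_filter.mp hx).2], ← sum_mul]
    refine mul_le_mul_of_nonneg_right ?_ (sq_nonneg _)
    linarith [(abs_le.mp (H.loc.m_sum i (mem_range.mp hi))).2]
  have h10 : ∑ x, m x * (ψ x - φ₁ - κ * lev x / N) ^ 2 ≤
      2 * ∑ x, m x * (ψ x - φ (lev x)) ^ 2 +
        2 * ∑ x, m x * (φ (lev x) - φ₁ - κ * lev x / N) ^ 2 := by
    rw [mul_sum, mul_sum, ← sum_add_distrib]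
    refine sum_le_sum fun x _ => ?_
    nlinarith [mul_nonneg (hm x)
      (sq_nonneg (ψ x - φ (lev x) - (φ (lev x) - φ₁ - κ * lev x / N)))]
  have h11 : 2 * ∑ x, m x * P1 N u (lev x) * (ψ x - φ (lev x)) ^ 2 ≤ σ ^ 2 := by linarith [mul_nonneg hu h2]
  have h12 : 2 * ∑ x, m x * (ψ x - φ (lev x)) ^ 2 ≤ 1 / c * N * σ ^ 2 := by
    rw [one_div, mul_assoc, le_inv_mul_iff₀ hc]
    nlinarith
  linarith

/-- the data of the statement -/
structure Dat (N : ℕ) (lev : X → ℕ) (π : Z → (Fin (u + 2) → X) → ℝ) (cell : Z → Ce)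
    (CR δ θ h lam : ℝ) (A Lg : Z → ℝ) (v ψ : X → ℝ) : Prop where
  pos : 0 < lam
  rem : RemP A Lg cell CR δ θ
  v_mem : ∀ x, (lev x : ℝ) / N ≤ v x ∧ v x ≤ (lev x + 1) / N
  size : ∀ z x, π z x ≠ 0 → ∑ i, v (x i) = Lg z
  eqn : pm π (fun z x => lam < |∑ i, ψ (x i) + A z|) ≤ h

variable {CR δ θ h lam k : ℝ} {A Lg : Z → ℝ} {v ψ : X → ℝ}

lemma Dat.shift (D : Dat N lev π cell CR δ θ h lam A Lg v ψ) (hπ : ∀ z x, 0 ≤ π z x) (φ₀ κ : ℝ) :
    pm π (fun z x => lam < |∑ i, (ψ (x i) - φ₀ - κ * v (x i)) +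
      (A z + (u + 2) * φ₀ + κ * Lg z)|) ≤ h := by
  refine le_trans (sum_le_sum fun z _ => sum_with_mono (hπ z) fun x hx h' => ?_) D.eqn
  dsimp only at h' ⊢
  rw [← D.size z x hx] at h'
  simp only [sum_sub_distrib, ← mul_sum, sum_const, card_univ, Fintype.card_fin, nsmul_eq_mul] at h'
  push_cast at h'
  rwa [show ∑ i, ψ (x i) - (u + 2) * φ₀ - κ * ∑ i, v (x i) +
    (A z + (u + 2) * φ₀ + κ * ∑ i, v (x i)) = ∑ i, ψ (x i) + A z by ring] at h'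

/-- a rough fit bounds the remainder and the tail -/
lemma Dat.rough [Nonempty Ce] (D : Dat N lev π cell CR δ θ h lam A Lg v ψ)
    (H : L2c N lev m π cell ε C) {φ₀ κ Λ : ℝ} (hΛ : 0 ≤ Λ)
    (hf : mm N m (fun x => Λ < |ψ x - φ₀ - κ * v x|) ≤ k)
    (c1 : h + (u + 2) * (C * k + ε) + C * ε ≤ δ) (c2 : C ^ 2 * (u + 2) * k ≤ 1 / 2) :
    (∀ z, |A z + (u + 2) * φ₀ + κ * Lg z| ≤ CR * (lam + (u + 2) * Λ)) ∧
    (∀ z z', cell z = cell z' → |A z + κ * Lg z - (A z' + κ * Lg z')| ≤ θ * (lam + (u + 2) * Λ)) ∧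
    mm N m (fun x => (1 + CR) * (lam + (u + 2) * Λ) < |ψ x - φ₀ - κ * v x|) ≤
      2 * C * (u + 3) * (h + ε) := by
  have h1 := D.shift H.loc.nonneg φ₀ κ
  have hl := D.pos
  obtain ⟨h2, h3⟩ := D.rem ((u + 2) * φ₀) κ (lam + (u + 2) * Λ) (by positivity)
    (cells H (ψ := fun x => ψ x - φ₀ - κ * v x) h1 hf c1)
  refine ⟨h2, h3, ?_⟩
  have h4 := tail H (ψ := fun x => ψ x - φ₀ - κ * v x) h1 hΛ hf h2 c2
  rwa [show lam + (u + 2) * Λ + CR * (lam + (u + 2) * Λ) = (1 + CR) * (lam + (u + 2) * Λ) by ring]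
    at h4

lemma ar1 {lam θ M K η U T S R : ℝ} (hl : 0 ≤ lam) (hθ : 0 ≤ θ) (hM : 0 ≤ M) (hMK : M ≤ K)
    (hη : 0 ≤ η) (c5 : 4 * θ ^ 2 + U ^ 2 * T + R ≤ η ^ 2)
    (h : S ≤ 2 * (lam + θ * M) ^ 2 + (U * K) ^ 2 * T) : S + R * K ^ 2 ≤ (2 * lam + K * η) ^ 2 := by
  have e1 : (θ * M) ^ 2 ≤ (θ * K) ^ 2 :=
    pow_le_pow_left₀ (by positivity) (mul_le_mul_of_nonneg_left hMK hθ) 2
  have e2 := mul_le_mul_of_nonneg_left c5 (sq_nonneg K)
  have e3 : 0 ≤ lam * (K * η) := mul_nonneg hl (mul_nonneg (hM.trans hMK) hη)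
  linarith [sq_nonneg (lam - θ * M)]

lemma ar2 {lam Λ K η U D CF CR σ : ℝ} (hl : 0 ≤ lam) (hΛ : 0 ≤ Λ) (hη0 : 0 ≤ η) (hη : η ≤ 1)
    (hD : 0 ≤ D) (hCF : 0 ≤ CF) (hCR : 0 ≤ CR) (hU : 1 ≤ U) (hK : K = (1 + CR) * (lam + U * Λ))
    (hσ : σ = 2 * lam + K * η) (c7 : η * (D + 2 * CF) * (1 + CR) * U ≤ 1 / 2) :
    D * σ + CF * (K + σ) * η ≤ (2 * D + 2 * CF + 1) * lam + Λ / 2 := by
  have hK0 : 0 ≤ K := by rw [hK]; positivity
  have hσ0 : 0 ≤ σ := by rw [hσ]; positivity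
  have a1 : K * η * (D + 2 * CF) = η * (D + 2 * CF) * (1 + CR) * lam +
    η * (D + 2 * CF) * (1 + CR) * U * Λ := by rw [hK]; ring
  have a2 : 0 ≤ η * (D + 2 * CF) * (1 + CR) := by positivity
  have a3 : η * (D + 2 * CF) * (1 + CR) ≤ 1 := by
    have := mul_le_mul_of_nonneg_left hU a2
    linarith
  have a4 := mul_le_mul_of_nonneg_right c7 hΛ
  have a5 := mul_le_mul_of_nonneg_right a3 hl
  have a6 : σ * η ≤ σ := mul_le_of_le_one_right hσ0 hη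
  have a7 := mul_le_mul_of_nonneg_left a6 hCF
  have a8 : D * σ + CF * σ = (2 * D + 2 * CF) * lam + K * η * (D + CF) := by rw [hσ]; ring
  linarith

/-- one step of the iteration -/
lemma Dat.step [Nonempty Ce] (D : Dat N lev π cell CR δ θ h lam A Lg v ψ)
    (H : L2c N lev m π cell ε C) {c CF η D' : ℝ} (hc : 0 < c) (hCF : 1 ≤ CF) (hCR : 1 ≤ CR)
    (hP : ∀ i < N, c ≤ N * P1 N u i)
    (hF : ∀ (φ : ℕ → ℝ) (A : ℝ), 0 ≤ Form N u φ A ∧ ∀ σ K : ℝ, 0 ≤ σ → Form N u φ A ≤ σ ^ 2 →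
      (∀ i < N, |φ i| ≤ K) → ∃ φ₁ κ : ℝ,
        ∑ i ∈ range N, (φ i - φ₁ - κ * i / N) ^ 2 ≤ CF * N * σ ^ 2 ∧ |κ| ≤ CF * (K + σ))
    (hθ : 0 ≤ θ) (c1 : h + (u + 2) * (C * k + ε) + C * ε ≤ δ) (c2 : C ^ 2 * (u + 2) * k ≤ 1 / 2)
    (c3 : 2 * C * (u + 3) * (h + ε) ≤ k / 2) (c4 : C * ε ≤ 1)
    (c5 : 4 * θ ^ 2 + (u + 3) ^ 2 * (h + (u + 2) * (C * (2 * C * (u + 3) * (h + ε)) + ε)) +
      C * ε ≤ η ^ 2) (hD : 0 < D') (c6 : 1 / c + 4 * CF ≤ D' ^ 2 * (k / 2))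
    (c7 : η * (D' + 2 * CF) * (1 + CR) * (u + 2) ≤ 1 / 2) (hη : η ≤ 1) (hε : ε ≤ η)
    {φ₀ κ Λ : ℝ} (hΛ : 0 ≤ Λ) (hf : mm N m (fun x => Λ < |ψ x - φ₀ - κ * v x|) ≤ k) :
    ∃ φ₀' κ' : ℝ,
      mm N m (fun x => (2 * D' + 2 * CF + 1) * lam + Λ / 2 < |ψ x - φ₀' - κ' * v x|) ≤ k := by
  obtain ⟨h1, h2, h3⟩ := D.rough H hΛ hf c1 c2
  have hl := D.pos
  have hε0 := H.loc.pos
  have hN := H.loc.NR_pos
  have hm := H.loc.m_nonneg
  have hC := H.one_le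
  have hu : (0 : ℝ) ≤ u := Nat.cast_nonneg u
  set M := lam + (u + 2) * Λ with hM
  set K := (1 + CR) * M with hK
  have hM0 : 0 < M := by positivity
  have hCM : 0 ≤ CR * M := by positivity
  have hK' : K = M + CR * M := by rw [hK]; ring
  have hMK : M ≤ K := by linarith
  have hK0 : 0 ≤ K := by linarith
  have hη0 : 0 < η := hε0.trans_le hε
  obtain ⟨g, hg, ho⟩ : ∃ g : Ce → ℝ, (∀ c, |g c| ≤ K) ∧
      ∀ z, |A z + (u + 2) * φ₀ + κ * Lg z - g (cell z)| ≤ θ * M := by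
    refine ⟨fun c => if hc : ∃ z, cell z = c then
      A hc.choose + (u + 2) * φ₀ + κ * Lg hc.choose else 0, fun c => ?_, fun z => ?_⟩
    · dsimp only
      split_ifs with hc
      · exact (h1 _).trans (by linarith)
      · simpa using hK0
    · have hc : ∃ z', cell z' = cell z := ⟨z, rfl⟩
      simp only [dif_pos hc]
      refine le_trans (le_of_eq ?_) (h2 z hc.choose hc.choose_spec.symm)
      congr 1; ring
  have h4 := trunc H (ψ := fun x => ψ x - φ₀ - κ * v x) (D.shift H.loc.nonneg φ₀ κ) hK0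
    (by positivity) h3 hg ho c4
  set σ := 2 * lam + K * η with hσ
  have hσ0 : 0 < σ := by positivity
  obtain ⟨φ₁, κ₁, h5, h6⟩ := fit H hc hCF hP hF (ψ := fun x => tr K (ψ x - φ₀ - κ * v x))
    (g := g) hK0 hσ0.le (fun x => abs_tr_le hK0 _) hg (hε.trans hη)
    (ar1 hl.le hθ hM0.le hMK hη0.le c5 h4)
  refine ⟨φ₀ + φ₁, κ + κ₁, ?_⟩
  have h7 : mm N m (fun x => D' * σ < |tr K (ψ x - φ₀ - κ * v x) - φ₁ - κ₁ * lev x / N|) ≤
      k / 2 := by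
    have e1 := (chebyshev hm (fun x => tr K (ψ x - φ₀ - κ * v x) - φ₁ - κ₁ * lev x / N)
      (l := D' * σ) (by positivity)).trans h6
    rw [← mm_eq, div_le_iff₀ hN]
    have e2 : (1 / c + 4 * CF) * N * σ ^ 2 ≤ (D' * σ) ^ 2 * (k / 2 * N) := by
      have := mul_le_mul_of_nonneg_right c6 (by positivity : 0 ≤ N * σ ^ 2)
      linarith
    exact le_of_mul_le_mul_left (e1.trans e2) (by positivity)
  have h8 := mm_or (N := N) hm
    (p := fun x => (2 * D' + 2 * CF + 1) * lam + Λ / 2 < |ψ x - (φ₀ + φ₁) - (κ + κ₁) * v x|)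
    (q := fun x => K < |ψ x - φ₀ - κ * v x|)
    (r := fun x => D' * σ < |tr K (ψ x - φ₀ - κ * v x) - φ₁ - κ₁ * lev x / N|) ?_
  · linarith
  intro x hx
  by_contra hcon
  push Not at hcon
  obtain ⟨e1, e2⟩ := hcon
  rw [tr_of_le e1] at e2
  have e3 : |v x - lev x / N| ≤ ε := by
    have a1 := D.v_mem x
    have a2 : 1 / (N : ℝ) ≤ ε := by rw [div_le_iff₀ hN]; exact H.loc.Npos
    rw [add_div] at a1
    rw [abs_le]; constructor <;> linarith [a1.1, a1.2]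
  have e4 : |κ₁ * (v x - lev x / N)| ≤ CF * (K + σ) * η := by
    rw [abs_mul]; exact mul_le_mul h5 (e3.trans hε) (abs_nonneg _) (by positivity)
  have e5 := abs_sub (ψ x - φ₀ - κ * v x - φ₁ - κ₁ * lev x / N) (κ₁ * (v x - lev x / N))
  rw [show ψ x - φ₀ - κ * v x - φ₁ - κ₁ * lev x / N - κ₁ * (v x - lev x / N) =
    ψ x - (φ₀ + φ₁) - (κ + κ₁) * v x by ring] at e5
  have e6 := ar2 hl.le hΛ hη0.le hη hD.le (by linarith) (by linarith) (by linarith) hK hσ c7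
  linarith

end LocS

open LocS in
theorem p_locS (hCnt : S_Cnt) (hFE : S_FE) (hL2 : S_L2) : S_LocS := by
  intro u hu CR δ hCR hδ
  obtain ⟨C, ε₀, hC, hε₀, HL⟩ := exists_l2c hL2 hu
  obtain ⟨CF, hCF, HF⟩ := hFE u hu
  obtain ⟨c, C', hc, -, HC⟩ := hCnt.2.2.2.2.2 u hu
  have hu0 : (0 : ℝ) ≤ u := Nat.cast_nonneg u
  obtain ⟨k, hk, k1, k2⟩ : ∃ k : ℝ, 0 < k ∧ (u + 2) * (C * k) ≤ δ / 2 ∧
      C ^ 2 * (u + 2) * k ≤ 1 / 2 := by
    refine ⟨min (δ / (2 * ((u + 2) * C))) (1 / (2 * (C ^ 2 * (u + 2)))), by positivity, ?_, ?_⟩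
    · have := min_le_left (δ / (2 * ((u + 2) * C))) (1 / (2 * (C ^ 2 * (u + 2))))
      rw [le_div_iff₀ (by positivity)] at this
      linarith
    · have := min_le_right (δ / (2 * ((u + 2) * C))) (1 / (2 * (C ^ 2 * (u + 2))))
      rw [le_div_iff₀ (by positivity)] at this
      linarith
  obtain ⟨D', hD, c6⟩ : ∃ D' : ℝ, 0 < D' ∧ 1 / c + 4 * CF ≤ D' ^ 2 * (k / 2) := by
    refine ⟨√((1 / c + 4 * CF) / (k / 2)), by positivity, ?_⟩
    rw [Real.sq_sqrt (by positivity), div_mul_cancel₀ _ (by positivity)]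
  obtain ⟨η, hη0, hη, c7⟩ : ∃ η : ℝ, 0 < η ∧ η ≤ 1 ∧
      η * (D' + 2 * CF) * (1 + CR) * (u + 2) ≤ 1 / 2 := by
    refine ⟨min 1 (1 / (2 * ((D' + 2 * CF) * (1 + CR) * (u + 2)))), by positivity,
      min_le_left _ _, ?_⟩
    have := min_le_right 1 (1 / (2 * ((D' + 2 * CF) * (1 + CR) * (u + 2))))
    rw [le_div_iff₀ (by positivity)] at this
    linarith
  set E : ℝ := 2 * C * (u + 3) with hE
  set W : ℝ := 4 + (u + 3) ^ 2 * (1 + (u + 2) * (C * (2 * E) + 1)) + C with hW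
  have hE0 : 0 < E := by positivity
  have hW0 : 0 < W := by positivity
  obtain ⟨h₀, h0, a1, a2, a3, a4, a5, a6, a7⟩ : ∃ h₀ : ℝ, 0 < h₀ ∧ h₀ ≤ ε₀ ∧ h₀ ≤ η ∧
      h₀ * (12 * (u + 2)) ≤ 1 ∧ h₀ * (u + 3 + C) ≤ δ / 2 ∧ h₀ * (4 * E) ≤ k ∧ h₀ * C ≤ 1 ∧
      h₀ * W ≤ η ^ 2 := by
    refine ⟨min ε₀ (min η (min (1 / (12 * (u + 2))) (min (δ / 2 / (u + 3 + C))
      (min (k / (4 * E)) (min (1 / C) (η ^ 2 / W)))))), by positivity, ?_, ?_, ?_, ?_, ?_, ?_, ?_⟩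
    all_goals first | rw [← le_div_iff₀ (by positivity)] | skip
    all_goals simp only [min_le_iff, le_refl, true_or, or_true]
  set C₁ : ℝ := 2 * D' + 2 * CF + 1 with hC₁
  have hC₁0 : 0 < C₁ := by positivity
  set C₂ : ℝ := (1 + CR) * (1 + (u + 2) * (2 * C₁ + 1)) with hC₂
  have hC₂0 : 1 ≤ C₂ := by
    have : 0 ≤ (u + 2) * (2 * C₁ + 1) := by positivity
    linarith [mul_nonneg (show 0 ≤ CR by linarith) (show 0 ≤ 1 + (u + 2) * (2 * C₁ + 1) by linarith)]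
  refine ⟨C₂ + E, h₀, by linarith, h0, ?_⟩
  intro X Z Ce _ _ _ _ N lev m π cell ε θ h lam A Lg v ψ hε hθ0 hθ hh hl hloc hrem hv hsz heq
  have H := HL X Z Ce N lev m π cell ε (hε.trans a1) hloc
  have D : Dat N lev π cell CR δ θ h lam A Lg v ψ := ⟨hl, hrem, hv, hsz, by rwa [← pm_eq]⟩
  have hε0 := hloc.pos
  have hh0 : 0 ≤ h := (pm_nonneg hloc.nonneg _).trans D.eqn
  have hN : 12 * (u + 2) ≤ N := le_of_Npos hloc.Npos (by
    push_cast; exact (mul_le_mul_of_nonneg_right hε (by positivity)).trans a3)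
  have c1 : h + (u + 2) * (C * k + ε) + C * ε ≤ δ := by
    linarith [mul_le_mul_of_nonneg_left hε (show 0 ≤ (u : ℝ) + 2 + C by linarith)]
  have c3 : E * (h + ε) ≤ k / 2 := by
    linarith [mul_le_mul_of_nonneg_left hh hE0.le, mul_le_mul_of_nonneg_left hε hE0.le]
  have c4 : C * ε ≤ 1 := by linarith [mul_le_mul_of_nonneg_left hε (show 0 ≤ C by linarith)]
  have c5 : 4 * θ ^ 2 + (u + 3) ^ 2 * (h + (u + 2) * (C * (E * (h + ε)) + ε)) + C * ε ≤ η ^ 2 := by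
    refine le_trans ?_ a7
    have b1 : θ ^ 2 ≤ h₀ := by
      linarith [mul_le_mul_of_nonneg_left (hθ.trans (a2.trans hη)) hθ0]
    have b2 : h + (u + 2) * (C * (E * (h + ε)) + ε) ≤
        h₀ + (u + 2) * (C * (E * (h₀ + h₀)) + h₀) := by gcongr
    have b3 := mul_le_mul_of_nonneg_left b2 (sq_nonneg ((u : ℝ) + 3))
    have b4 : C * ε ≤ C * h₀ := by gcongr
    rw [hW]
    linarith
  have hit : ∀ j : ℕ, ∃ φ₀ κ : ℝ, mm N m
      (fun x => 2 * C₁ * lam + (∑ x, |ψ x|) / 2 ^ j < |ψ x - φ₀ - κ * v x|) ≤ k := by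
    intro j
    induction j with
    | zero =>
      refine ⟨0, 0, le_trans (mm_mono (q := fun _ => False) hloc.m_nonneg fun x hx => ?_) ?_⟩
      · have b1 := single_le_sum (f := fun x => |ψ x|) (fun x _ => abs_nonneg _) (mem_univ x)
        have b2 : 0 < 2 * C₁ * lam := by positivity
        simp only [pow_zero, div_one, zero_mul, sub_zero] at hx
        linarith
      · simp [mm, hk.le]
    | succ j ih =>
      obtain ⟨φ₀, κ, ih⟩ := ih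
      obtain ⟨φ₀', κ', h1⟩ := D.step H hc hCF hCR (fun i hi => ((HC N hN).2.2.1 i hi).1) (HF N hN)
        hθ0 c1 k2 c3 c4 c5 hD c6 c7 hη (hε.trans a2) (by positivity) ih
      refine ⟨φ₀', κ', le_trans (mm_mono hloc.m_nonneg fun x hx => lt_of_eq_of_lt ?_ hx) h1⟩
      rw [pow_succ, hC₁]; field_simp; ring
  obtain ⟨j, hj⟩ : ∃ j : ℕ, (∑ x, |ψ x|) / 2 ^ j ≤ lam := by
    obtain ⟨j, hj⟩ := pow_unbounded_of_one_lt ((∑ x, |ψ x|) / lam) (one_lt_two (α := ℝ))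
    refine ⟨j, ?_⟩
    rw [div_lt_iff₀ hl] at hj
    rw [div_le_iff₀ (by positivity)]
    linarith
  obtain ⟨φ₀, κ, hf⟩ := hit j
  have hf' : mm N m (fun x => (2 * C₁ + 1) * lam < |ψ x - φ₀ - κ * v x|) ≤ k :=
    le_trans (mm_mono hloc.m_nonneg fun x hx => lt_of_le_of_lt (by linarith) hx) hf
  obtain ⟨h1, -, h3⟩ := D.rough H (by positivity) hf' c1 k2
  have e : (1 + CR) * (lam + (u + 2) * ((2 * C₁ + 1) * lam)) = C₂ * lam := by rw [hC₂]; ring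
  have e' : 0 ≤ lam + (u + 2) * ((2 * C₁ + 1) * lam) := by positivity
  have e'' : 0 ≤ E * lam := by positivity
  refine ⟨φ₀, κ, ?_, fun z => (h1 z).trans (by linarith)⟩
  rw [mm_eq]
  refine le_trans (mm_mono hloc.m_nonneg fun x hx => lt_of_le_of_lt (by linarith) hx)
    (h3.trans ?_)
  exact mul_le_mul_of_nonneg_right (by linarith) (by linarith)

end

end Pool.Agent.P.MP_b8021b_nt.VE
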