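import Pool.Agent.P.MP_b8021b_nt.VE.StN

/-! Geometry of numbers in a quartic field with a small basis. -/

namespace Pool.Agent.P.MP_b8021b_nt.VE

open NumberField Finset
open scoped Classical

namespace Mink

/-- the square of side `s` that contains `z` -/
noncomputable def sq (s : ℝ) (z : ℂ) : ℤ × ℤ := (⌊z.re / s⌋, ⌊z.im / s⌋)

lemma floor_close {s x y : ℝ} (hs : 0 < s) (h : ⌊x / s⌋ = ⌊y / s⌋) : |x - y| ≤ s := by
  have h1 := Int.abs_sub_lt_one_of_floor_eq_floor h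
  rw [← sub_div, abs_div, abs_of_pos hs, div_lt_one hs] at h1
  exact h1.le

lemma sq_close {s : ℝ} {z w : ℂ} (hs : 0 < s) (h : sq s z = sq s w) : ‖z - w‖ ≤ 2 * s := by
  have h1 := floor_close hs (congrArg Prod.fst h)
  have h2 := floor_close hs (congrArg Prod.snd h)
  have h3 := Complex.norm_le_abs_re_add_abs_im (z - w)
  rw [Complex.sub_re, Complex.sub_im] at h3
  linarith

lemma floor_mem {s x R : ℝ} (hs : 0 < s) (h : |x| ≤ R) :
    ⌊x / s⌋ ∈ Icc (-⌈R / s⌉) ⌈R / s⌉ := by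
  have h1 : x / s ≤ R / s := div_le_div_of_nonneg_right (abs_le.1 h).2 hs.le
  have h2 : -(R / s) ≤ x / s := by
    rw [← neg_div]; exact div_le_div_of_nonneg_right (abs_le.1 h).1 hs.le
  rw [mem_Icc]
  refine ⟨?_, (Int.floor_le_floor h1).trans (Int.floor_le_ceil _)⟩
  rw [← Int.floor_neg]
  exact Int.floor_le_floor h2

/-- the squares that meet the disc of radius `R` -/
noncomputable def sqs (s R : ℝ) : Finset (ℤ × ℤ) :=
  Icc (-⌈R / s⌉) ⌈R / s⌉ ×ˢ Icc (-⌈R / s⌉) ⌈R / s⌉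

lemma sq_mem {s R : ℝ} {z : ℂ} (hs : 0 < s) (h : ‖z‖ ≤ R) : sq s z ∈ sqs s R :=
  mem_product.2 ⟨floor_mem hs ((Complex.abs_re_le_norm z).trans h),
    floor_mem hs ((Complex.abs_im_le_norm z).trans h)⟩

lemma card_sqs {s R : ℝ} (hs : 0 < s) (h : s ≤ R) : ((sqs s R).card : ℝ) ≤ (5 * R / s) ^ 2 := by
  have h1 : 1 ≤ R / s := (one_le_div hs).2 h
  have h2 : (⌈R / s⌉ : ℝ) < R / s + 1 := Int.ceil_lt_add_one _
  have h3 : 0 ≤ ⌈R / s⌉ := Int.ceil_nonneg (by linarith)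
  have h4 : ((Icc (-⌈R / s⌉) ⌈R / s⌉).card : ℝ) = 2 * ⌈R / s⌉ + 1 := by
    rw [Int.card_Icc]
    have : ((⌈R / s⌉ + 1 - -⌈R / s⌉).toNat : ℤ) = 2 * ⌈R / s⌉ + 1 := by omega
    exact_mod_cast this
  have h5 : ((Icc (-⌈R / s⌉) ⌈R / s⌉).card : ℝ) ≤ 5 * R / s := by
    rw [h4, mul_div_assoc]; linarith
  rw [sqs, card_product, Nat.cast_mul, pow_two]
  exact mul_le_mul h5 h5 (Nat.cast_nonneg _) ((Nat.cast_nonneg _).trans h5)

section Gen

variable {R : Type} [CommRing R] (τ₁ τ₂ : R →+* ℂ) (b : Fin 4 → R) {Q : ℝ}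

lemma norm_comb (τ : R →+* ℂ) (hb : ∀ j, ‖τ (b j)‖ ≤ Q) (c : Fin 4 → ℝ) {T : ℝ}
    (hc : ∀ j, |c j| ≤ T) : ‖∑ j, (c j : ℂ) * τ (b j)‖ ≤ 4 * T * Q := by
  refine (norm_sum_le _ _).trans ?_
  have : ∀ j ∈ (univ : Finset (Fin 4)), ‖(c j : ℂ) * τ (b j)‖ ≤ T * Q := fun j _ => by
    rw [norm_mul, Complex.norm_real, Real.norm_eq_abs]
    exact mul_le_mul (hc j) (hb j) (norm_nonneg _) ((abs_nonneg _).trans (hc j))
  refine (sum_le_sum this).trans ?_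
  simp only [sum_const, card_univ, Fintype.card_fin, nsmul_eq_mul]
  push_cast
  linarith

/-- pigeonhole form of the theorem of Minkowski -/
lemma mink (li : LinearIndependent ℝ fun j => (τ₁ (b j), τ₂ (b j))) (h₁ : ∀ j, ‖τ₁ (b j)‖ ≤ Q)
    (h₂ : ∀ j, ‖τ₂ (b j)‖ ≤ Q) (hQ : 1 ≤ Q) (𝔞 : Ideal R) [Finite (R ⧸ 𝔞)] {s₁ s₂ : ℝ}
    (hs₁ : 0 < s₁) (hs₂ : 0 < s₂) (h : (20 * Q) ^ 4 * Nat.card (R ⧸ 𝔞) < (s₁ * s₂) ^ 2) :
    ∃ γ ∈ 𝔞, γ ≠ 0 ∧ ‖τ₁ γ‖ ≤ 2 * s₁ ∧ ‖τ₂ γ‖ ≤ 2 * s₂ := by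
  have := Fintype.ofFinite (R ⧸ 𝔞)
  obtain ⟨T, hT⟩ := exists_nat_ge (s₁ + s₂)
  have hT0 : (0 : ℝ) < T := by linarith
  have hTQ : (T : ℝ) ≤ 4 * T * Q := by nlinarith
  set el : (Fin 4 → Fin T) → R := fun n => ∑ j, ((n j).1 : R) * b j with hel
  have hτ : ∀ (τ : R →+* ℂ) n, τ (el n) = ∑ j, (((n j).1 : ℝ) : ℂ) * τ (b j) := fun τ n => by
    simp [hel]
  have hbd : ∀ (n : Fin 4 → Fin T) j, |((n j).1 : ℝ)| ≤ T := fun n j => by
    rw [abs_of_nonneg (Nat.cast_nonneg _)]; exact_mod_cast (n j).2.le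
  have hcard : ((univ : Finset (R ⧸ 𝔞)) ×ˢ sqs s₁ (4 * T * Q) ×ˢ sqs s₂ (4 * T * Q)).card <
      (univ : Finset (Fin 4 → Fin T)).card := by
    rw [← Nat.cast_lt (α := ℝ), card_product, card_product, card_univ, card_univ,
      ← Nat.card_eq_fintype_card]
    simp only [Fintype.card_pi, Fintype.card_fin, prod_const, card_univ]
    push_cast
    have e1 := card_sqs hs₁ (R := 4 * T * Q) (by linarith)
    have e2 := card_sqs hs₂ (R := 4 * T * Q) (by linarith)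
    have e3 : (0 : ℝ) < (s₁ * s₂) ^ 2 := by positivity
    calc _ ≤ (Nat.card (R ⧸ 𝔞) : ℝ) * ((5 * (4 * T * Q) / s₁) ^ 2 * (5 * (4 * T * Q) / s₂) ^ 2) := by
          gcongr
      _ = (T : ℝ) ^ 4 * ((20 * Q) ^ 4 * Nat.card (R ⧸ 𝔞) / (s₁ * s₂) ^ 2) := by
          field_simp; ring
      _ < (T : ℝ) ^ 4 * 1 := by
          gcongr
          exact (div_lt_one e3).2 h
      _ = _ := mul_one _
  obtain ⟨n, -, n', -, hne, he⟩ := exists_ne_map_eq_of_card_lt_of_maps_to hcard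
    (f := fun n => (Ideal.Quotient.mk 𝔞 (el n), sq s₁ (τ₁ (el n)), sq s₂ (τ₂ (el n))))
    (fun n _ => mem_coe.2 (mem_product.2 ⟨mem_univ _, mem_product.2
      ⟨sq_mem hs₁ (by rw [hτ]; exact norm_comb b τ₁ h₁ _ (hbd n)),
       sq_mem hs₂ (by rw [hτ]; exact norm_comb b τ₂ h₂ _ (hbd n))⟩⟩))
  simp only [Prod.mk.injEq] at he
  refine ⟨el n - el n', Ideal.Quotient.eq.1 he.1, fun h0 => hne ?_, ?_, ?_⟩
  · have h1 : el n = el n' := sub_eq_zero.1 h0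
    have h2 := Fintype.linearIndependent_iff.1 li (fun j => ((n j).1 : ℝ) - (n' j).1) (by
      have a1 := hτ τ₁ n
      have a2 := hτ τ₂ n
      rw [h1, hτ] at a1 a2
      ext
      · simp only [Prod.fst_sum, Prod.smul_fst, Complex.real_smul, Prod.fst_zero]
        push_cast at a1 ⊢
        simp only [sub_mul, sum_sub_distrib, a1, sub_self]
      · simp only [Prod.snd_sum, Prod.smul_snd, Complex.real_smul, Prod.snd_zero]
        push_cast at a2 ⊢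
        simp only [sub_mul, sum_sub_distrib, a2, sub_self])
    funext j
    exact Fin.ext (by exact_mod_cast sub_eq_zero.1 (h2 j))
  · rw [map_sub]; exact sq_close hs₁ he.2.1
  · rw [map_sub]; exact sq_close hs₂ he.2.2

/-- reduction modulo the lattice spanned by the `g * b j` -/
lemma reduce (li : LinearIndependent ℝ fun j => (τ₁ (b j), τ₂ (b j))) (h₁ : ∀ j, ‖τ₁ (b j)‖ ≤ Q)
    (h₂ : ∀ j, ‖τ₂ (b j)‖ ≤ Q) (g β : R) (g₁ : τ₁ g ≠ 0) (g₂ : τ₂ g ≠ 0) :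
    ∃ t : R, ‖τ₁ (β - g * t)‖ ≤ 4 * Q * ‖τ₁ g‖ ∧ ‖τ₂ (β - g * t)‖ ≤ 4 * Q * ‖τ₂ g‖ := by
  have hr : Fintype.card (Fin 4) = Module.finrank ℝ (ℂ × ℂ) := by
    simp [Module.finrank_prod]
  have hsp := li.span_eq_top_of_card_eq_finrank hr
  have hm : (τ₁ β / τ₁ g, τ₂ β / τ₂ g) ∈
      Submodule.span ℝ (Set.range fun j => (τ₁ (b j), τ₂ (b j))) := by
    rw [hsp]; trivial
  obtain ⟨c, hc⟩ := (Submodule.mem_span_range_iff_exists_fun ℝ).1 hm
  have c1 := congrArg Prod.fst hc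
  have c2 := congrArg Prod.snd hc
  simp only [Prod.fst_sum, Prod.smul_fst, Complex.real_smul] at c1
  simp only [Prod.snd_sum, Prod.smul_snd, Complex.real_smul] at c2
  have key : ∀ τ : R →+* ℂ, (∀ j, ‖τ (b j)‖ ≤ Q) → τ g ≠ 0 →
      ∑ j, (c j : ℂ) * τ (b j) = τ β / τ g →
      ‖τ (β - g * ∑ j, (⌊c j⌋ : R) * b j)‖ ≤ 4 * Q * ‖τ g‖ := by
    intro τ hb hg hc
    have e : τ (β - g * ∑ j, (⌊c j⌋ : R) * b j) =
        (∑ j, ((Int.fract (c j) : ℝ) : ℂ) * τ (b j)) * τ g := by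
      rw [eq_div_iff hg] at hc
      simp only [map_sub, map_mul, map_sum, map_intCast, Int.fract, ← hc]
      push_cast
      simp only [sub_mul, sum_sub_distrib]
      ring
    rw [e, norm_mul]
    have := norm_comb b τ hb (fun j => Int.fract (c j)) (T := 1) fun j => by
      rw [abs_of_nonneg (Int.fract_nonneg _)]; exact (Int.fract_lt_one _).le
    rw [mul_one] at this
    exact mul_le_mul_of_nonneg_right this (norm_nonneg _)
  exact ⟨_, key τ₁ h₁ g₁ c1, key τ₂ h₂ g₂ c2⟩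

end Gen

lemma split (m : ℕ) : ∀ M : ℕ, 1 ≤ M → ∃ d k : ℕ, 1 ≤ d ∧ d ≤ M ∧ d.Coprime m ∧ M ∣ d * m ^ k := by
  intro M
  induction M using Nat.strong_induction_on with
  | _ M ih =>
    intro hM
    by_cases h : M.Coprime m
    · exact ⟨M, 0, hM, le_rfl, h, by simp⟩
    · obtain ⟨M', hM'⟩ := Nat.gcd_dvd_left M m
      have g0 : 0 < M.gcd m := Nat.gcd_pos_of_pos_left _ hM
      have g2 : 2 ≤ M.gcd m := by
        have : M.gcd m ≠ 1 := h
        omega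
      have p0 : 1 ≤ M' := by
        rcases Nat.eq_zero_or_pos M' with h0 | h0
        · rw [h0] at hM'; omega
        · exact h0
      have lt : M' < M := by nlinarith
      obtain ⟨d, k, h1, h2, h3, h4⟩ := ih M' lt p0
      refine ⟨d, k + 1, h1, h2.trans lt.le, h3, ?_⟩
      rw [hM', pow_succ, ← mul_assoc, mul_comm (M.gcd m)]
      exact Nat.mul_dvd_mul h4 (Nat.gcd_dvd_right _ _)

section NF

variable {K : Type} [Field K] [NumberField K] {Q : ℝ} (F : Quart K Q)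

/-- the first embedding on the integers -/
noncomputable def t1 : 𝓞 K →+* ℂ := F.σ₁.comp (algebraMap (𝓞 K) K)

/-- the second embedding on the integers -/
noncomputable def t2 : 𝓞 K →+* ℂ := F.σ₂.comp (algebraMap (𝓞 K) K)

lemma nrm (β : 𝓞 K) :
    (Ideal.absNorm (Ideal.span {β}) : ℝ) = (‖t1 F β‖ * ‖t2 F β‖) ^ 2 := by
  rw [F.nrm, mul_pow]; rfl

lemma one_le_norm {I : Ideal (𝓞 K)} (h : I ≠ ⊥) : 1 ≤ Ideal.absNorm I :=
  Nat.one_le_iff_ne_zero.2 fun h0 => h (Ideal.absNorm_eq_zero_iff.1 h0)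

lemma one_le_prod {β : 𝓞 K} (h : β ≠ 0) : 1 ≤ ‖t1 F β‖ * ‖t2 F β‖ := by
  have h1 : (1 : ℝ) ≤ Ideal.absNorm (Ideal.span {β}) := by
    exact_mod_cast one_le_norm (by simpa using h)
  rw [nrm F] at h1
  exact (one_le_sq_iff₀ (by positivity)).1 h1

lemma part1 (hQ : 2 ≤ Q) (𝔞 : Ideal (𝓞 K)) (v : ℝ) (h : 𝔞 ≠ ⊥) : ∃ γ ∈ 𝔞, γ ≠ 0 ∧
    ‖t1 F γ‖ ≤ Q ^ 7 * (Ideal.absNorm 𝔞 : ℝ) ^ (1 / 4 : ℝ) * Real.exp v ∧
    ‖t2 F γ‖ ≤ Q ^ 7 * (Ideal.absNorm 𝔞 : ℝ) ^ (1 / 4 : ℝ) * Real.exp (-v) := by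
  have hN := one_le_norm h
  have : Finite (𝓞 K ⧸ 𝔞) := (Ideal.absNorm_ne_zero_iff 𝔞).1 (by omega)
  have hN' : (1 : ℝ) ≤ Ideal.absNorm 𝔞 := by exact_mod_cast hN
  set n : ℝ := (Ideal.absNorm 𝔞 : ℝ) ^ (1 / 4 : ℝ) with hn
  have n0 : 0 < n := Real.rpow_pos_of_pos (by linarith) _
  have n4 : n ^ 4 = Ideal.absNorm 𝔞 := by
    rw [hn, ← Real.rpow_natCast, ← Real.rpow_mul (by linarith)]; norm_num
  have Q0 : 0 < Q := by linarith
  obtain ⟨γ, h1, h2, h3, h4⟩ := mink (t1 F) (t2 F) F.b F.li F.le₁ F.le₂ (by linarith) 𝔞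
    (s₁ := Q ^ 7 * n * Real.exp v / 2) (s₂ := Q ^ 7 * n * Real.exp (-v) / 2) (by positivity)
    (by positivity) (by
      have e1 : (Nat.card (𝓞 K ⧸ 𝔞) : ℝ) = n ^ 4 := by
        rw [n4, Ideal.absNorm_apply, Submodule.cardQuot_apply]
      have e2 : Real.exp v * Real.exp (-v) = 1 := by rw [← Real.exp_add]; simp
      have e3 : (Q ^ 7 * n * Real.exp v / 2 * (Q ^ 7 * n * Real.exp (-v) / 2)) ^ 2 =
          (Q ^ 6 / 2 * Q) ^ 4 * n ^ 4 := by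
        calc _ = (Q ^ 14 * n ^ 2 / 4 * (Real.exp v * Real.exp (-v))) ^ 2 := by ring
          _ = _ := by rw [e2]; ring
      have e4 : (2 : ℝ) ^ 6 ≤ Q ^ 6 := by gcongr
      rw [e1, e3]
      gcongr
      linarith)
  exact ⟨γ, h1, h2, by linarith, by linarith⟩

include F in
lemma part2 (hQ : 2 ≤ Q) (m d : ℕ) (𝔞 : Ideal (𝓞 K)) (hm : 1 ≤ m) (hd : 1 ≤ d) (h : 𝔞 ≠ ⊥)
    (hc : Cop m 𝔞) : ∃ (𝔠 : Ideal (𝓞 K)) (β : 𝓞 K),
      𝔠 ≠ ⊥ ∧ Cop (m * d) 𝔠 ∧ (Ideal.absNorm 𝔠 : ℝ) ≤ (Q * m * d) ^ 44 ∧ (m : 𝓞 K) ∣ β - 1 ∧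
      𝔞 * 𝔠 = Ideal.span {β} := by
  obtain ⟨d', k, d1, d2, d3, d4⟩ := split m (2 * d) (by omega)
  have hd' : Ideal.span {(d' : 𝓞 K)} ≠ ⊥ := by
    rw [Ne, Ideal.span_singleton_eq_bot, Nat.cast_eq_zero]; omega
  obtain ⟨a, ha⟩ := IsDedekindDomain.exists_sup_span_eq
    (I := 𝔞 * Ideal.span {(d' : 𝓞 K)}) (J := 𝔞) Ideal.mul_le_left (mul_ne_zero h hd')
  have hcop : IsCoprime (𝔞 * Ideal.span {(d' : 𝓞 K)}) (Ideal.span {(m : 𝓞 K)}) := by
    refine IsCoprime.mul_left hc ?_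
    rw [Ideal.isCoprime_span_singleton_iff]
    exact Nat.isCoprime_iff_coprime.2 d3 |>.map (Int.castRingHom (𝓞 K)) |> fun h => by simpa using h
  obtain ⟨i, hi, j, hj, hij⟩ := Ideal.isCoprime_iff_exists.1 hcop
  obtain ⟨γ, g1, g2, g3, g4⟩ := part1 F hQ 𝔞 0 h
  have gp := one_le_prod F g2
  have g5 : t1 F γ ≠ 0 := fun h0 => by rw [h0] at gp; norm_num at gp
  have g6 : t2 F γ ≠ 0 := fun h0 => by rw [h0] at gp; norm_num at gp
  have hmd : ((m * d' : ℕ) : ℂ) ≠ 0 := by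
    rw [Nat.cast_ne_zero]; positivity
  obtain ⟨t, t3, t4⟩ := reduce (t1 F) (t2 F) F.b F.li F.le₁ F.le₂ (((m * d' : ℕ) : 𝓞 K) * γ)
    (a * j + i) (by rw [map_mul, map_natCast]; exact mul_ne_zero hmd g5)
    (by rw [map_mul, map_natCast]; exact mul_ne_zero hmd g6)
  set β := a * j + i - ((m * d' : ℕ) : 𝓞 K) * γ * t with hβ
  have hγd : (d' : 𝓞 K) * γ ∈ 𝔞 * Ideal.span {(d' : 𝓞 K)} := by
    rw [mul_comm (d' : 𝓞 K)]; exact Ideal.mul_mem_mul g1 (Ideal.mem_span_singleton_self _)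
  have b1 : (m : 𝓞 K) ∣ β - 1 := by
    obtain ⟨j', rfl⟩ := Ideal.mem_span_singleton.1 hj
    refine ⟨a * j' - j' - d' * γ * t, ?_⟩
    rw [hβ, ← hij]; push_cast; ring
  have b2 : β - a ∈ 𝔞 * Ideal.span {(d' : 𝓞 K)} := by
    have e : β - a = (1 - a) * i - (m * t) * (d' * γ) := by
      have : j = 1 - i := by rw [← hij]; ring
      rw [hβ, this]; push_cast; ring
    rw [e]
    exact sub_mem (Ideal.mul_mem_left _ _ hi) (Ideal.mul_mem_left _ _ hγd)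
  have ha' : a ∈ 𝔞 := ha ▸ Ideal.mem_sup_right (Ideal.mem_span_singleton_self a)
  have b3 : β ∈ 𝔞 := by
    have := add_mem (Ideal.mul_le_left b2) ha'
    simpa using this
  obtain ⟨𝔠, h𝔠⟩ := Ideal.dvd_span_singleton.2 b3
  have hβc : β ∈ 𝔠 := Ideal.mul_le_right (h𝔠 ▸ Ideal.mem_span_singleton_self β)
  have c1 : IsCoprime 𝔠 (Ideal.span {(m : 𝓞 K)}) := by
    refine Ideal.isCoprime_iff_exists.2 ⟨β, hβc, 1 - β, ?_, by ring⟩
    rw [Ideal.mem_span_singleton, ← neg_sub]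
    exact b1.neg_right
  have c2 : IsCoprime 𝔠 (Ideal.span {(d' : 𝓞 K)}) := by
    rw [Ideal.isCoprime_iff_sup_eq]
    apply mul_left_cancel₀ h
    rw [Ideal.mul_sup, ← h𝔠, Ideal.mul_top]
    refine le_antisymm (sup_le ((Ideal.span_singleton_le_iff_mem _).2 b3) Ideal.mul_le_left) ?_
    conv_lhs => rw [← ha]
    refine sup_le le_sup_right ((Ideal.span_singleton_le_iff_mem _).2 ?_)
    have : a = β - (β - a) := by ring
    rw [this]
    exact sub_mem (Ideal.mem_sup_left (Ideal.mem_span_singleton_self _)) (Ideal.mem_sup_right b2)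
  have c3 : IsCoprime 𝔠 (Ideal.span {((m * (2 * d) : ℕ) : 𝓞 K)}) := by
    have e := c2.mul_right (c1.pow_right (n := k + 1))
    rw [Ideal.span_singleton_pow, Ideal.span_singleton_mul_span_singleton] at e
    refine e.of_isCoprime_of_dvd_right ?_
    rw [Ideal.dvd_iff_le, Ideal.span_singleton_le_span_singleton]
    have : m * (2 * d) ∣ d' * m ^ (k + 1) := by
      rw [pow_succ, ← mul_assoc d', mul_comm m (2 * d)]; exact Nat.mul_dvd_mul_right d4 m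
    exact_mod_cast (Nat.cast_dvd_cast (α := 𝓞 K) this)
  have c4 : 𝔠 ≠ ⊥ := by
    rintro rfl
    rw [Ideal.isCoprime_iff_sup_eq, bot_sup_eq, Ideal.span_singleton_eq_top] at c3
    have e := c3.map (Algebra.norm ℤ)
    have e2 : ((m * (2 * d) : ℕ) : 𝓞 K) = algebraMap ℤ (𝓞 K) ((m * (2 * d) : ℕ) : ℤ) := by simp
    rw [e2, Algebra.norm_algebraMap, RingOfIntegers.rank, F.deg, isUnit_pow_iff (by norm_num),
      Int.isUnit_iff] at e
    have : 2 ≤ m * (2 * d) := by nlinarith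
    omega
  refine ⟨𝔠, β, c4, ?_, ?_, b1, h𝔠.symm⟩
  · refine c3.of_isCoprime_of_dvd_right ?_
    rw [Ideal.dvd_iff_le, Ideal.span_singleton_le_span_singleton]
    exact Nat.cast_dvd_cast ⟨2, by ring⟩
  · have hN' : (1 : ℝ) ≤ Ideal.absNorm 𝔞 := by exact_mod_cast one_le_norm h
    set n : ℝ := (Ideal.absNorm 𝔞 : ℝ) ^ (1 / 4 : ℝ) with hn
    have n0 : 0 < n := Real.rpow_pos_of_pos (by linarith) _
    have n4 : n ^ 4 = Ideal.absNorm 𝔞 := by
      rw [hn, ← Real.rpow_natCast, ← Real.rpow_mul (by linarith)]; norm_num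
    have Q0 : 0 < Q := by linarith
    have m1 : (1 : ℝ) ≤ m := by exact_mod_cast hm
    have d1' : (1 : ℝ) ≤ d := by exact_mod_cast hd
    have d2' : (d' : ℝ) ≤ 2 * d := by exact_mod_cast d2
    simp only [neg_zero, Real.exp_zero, mul_one] at g3 g4
    rw [map_mul, map_natCast, norm_mul, Complex.norm_natCast] at t3 t4
    have bd : ∀ x : ℝ, 0 ≤ x → x ≤ Q ^ 7 * n →
        4 * Q * (((m * d' : ℕ) : ℝ) * x) ≤ (Q * m * d) ^ 11 * n := by
      intro x x0 hx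
      have e4 : (2 : ℝ) ^ 3 ≤ Q ^ 3 := by gcongr
      calc _ ≤ 4 * Q * ((m * (2 * d)) * (Q ^ 7 * n)) := by push_cast; gcongr
        _ = 2 ^ 3 * Q ^ 8 * m ^ 1 * d ^ 1 * n := by ring
        _ ≤ Q ^ 3 * Q ^ 8 * m ^ 11 * d ^ 11 * n := by gcongr <;> first | assumption | norm_num
        _ = _ := by ring
    have e1 := t3.trans (bd _ (norm_nonneg _) g3)
    have e2 := t4.trans (bd _ (norm_nonneg _) g4)
    have e3 := nrm F β
    rw [h𝔠, map_mul, Nat.cast_mul, ← n4] at e3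
    have e5 : n ^ 4 * (Ideal.absNorm 𝔠 : ℝ) ≤ n ^ 4 * (Q * m * d) ^ 44 := by
      rw [e3]
      calc _ ≤ (((Q * m * d) ^ 11 * n) * ((Q * m * d) ^ 11 * n)) ^ 2 := by gcongr
        _ = _ := by ring
    exact le_of_mul_le_mul_left e5 (by positivity)

lemma part3 (hQ : 2 ≤ Q) (m : ℕ) (hm : 1 ≤ m) : ∃ ε : (𝓞 K)ˣ, (m : 𝓞 K) ∣ ε - 1 ∧
    0 < Real.log ‖t1 F ε‖ ∧ Real.log ‖t1 F ε‖ ≤ (Q * m) ^ 150 := by
  have Q0 : 0 < Q := by linarith
  set A := Q ^ 7 with hA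
  have A1 : 1 ≤ A := one_le_pow₀ (by linarith)
  have hlA : Real.log A ≤ A := (Real.log_le_sub_one_of_pos (by linarith)).trans (by linarith)
  have hex : ∀ j : ℕ, ∃ γ : 𝓞 K, γ ≠ 0 ∧ |Real.log ‖t1 F γ‖ - 3 * A * j| ≤ A ∧
      (Ideal.absNorm (Ideal.span {γ}) : ℝ) ≤ A ^ 4 := by
    intro j
    obtain ⟨γ, -, g2, g3, g4⟩ := part1 F hQ ⊤ (3 * A * j) top_ne_bot
    rw [Ideal.absNorm_top, Nat.cast_one, Real.one_rpow, mul_one] at g3 g4
    have gp := one_le_prod F g2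
    have g5 : 0 < ‖t1 F γ‖ := norm_pos_iff.2 fun h0 => by rw [h0] at gp; norm_num at gp
    have g6 : 0 < ‖t2 F γ‖ := norm_pos_iff.2 fun h0 => by rw [h0] at gp; norm_num at gp
    have l1 := Real.log_le_log g5 g3
    have l2 := Real.log_le_log g6 g4
    have l3 := Real.log_nonneg gp
    rw [Real.log_mul (by positivity) (by positivity), Real.log_exp] at l1 l2
    rw [Real.log_mul g5.ne' g6.ne'] at l3
    refine ⟨γ, g2, abs_le.2 ⟨by linarith, by linarith⟩, ?_⟩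
    have e2 : Real.exp (3 * A * j) * Real.exp (-(3 * A * j)) = 1 := by rw [← Real.exp_add]; simp
    rw [nrm F]
    calc _ ≤ ((A * Real.exp (3 * A * j)) * (A * Real.exp (-(3 * A * j)))) ^ 2 := by gcongr
      _ = (A ^ 2 * (Real.exp (3 * A * j) * Real.exp (-(3 * A * j)))) ^ 2 := by ring
      _ = _ := by rw [e2]; ring
  choose γ g0 g1 g2 using hex
  set B := ⌊A ^ 4⌋₊ with hB
  set N : ℕ → ℕ := fun j => Ideal.absNorm (Ideal.span {γ j}) with hN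
  have N1 : ∀ j, 1 ≤ N j := fun j => one_le_norm (by simpa using g0 j)
  have N2 : ∀ j, N j ≤ B := fun j => Nat.le_floor (g2 j)
  set e := RingOfIntegers.basis K with he
  have hcard : (Icc 1 B ×ˢ Fintype.piFinset fun _ : Module.Free.ChooseBasisIndex ℤ (𝓞 K) =>
      Ico (0 : ℤ) (B * m : ℕ)).card < (range (B ^ 5 * m ^ 4 + 1)).card := by
    rw [card_product, Fintype.card_piFinset, prod_const, card_univ,
      ← Module.finrank_eq_card_chooseBasisIndex, RingOfIntegers.rank, F.deg, card_range,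
      Nat.card_Icc, Int.card_Ico, sub_zero, Int.toNat_natCast, Nat.add_sub_cancel]
    rw [Nat.lt_succ_iff]
    exact le_of_eq (by ring)
  have hpos : ∀ j, (0 : ℤ) < (N j * m : ℕ) := fun j => by
    have := N1 j
    positivity
  have main : ∀ i j, i < j → j ≤ B ^ 5 * m ^ 4 → N i = N j →
      (∀ l, e.repr (γ i) l % (N i * m : ℕ) = e.repr (γ j) l % (N j * m : ℕ)) →
      ∃ ε : (𝓞 K)ˣ, (m : 𝓞 K) ∣ ε - 1 ∧
        0 < Real.log ‖t1 F ε‖ ∧ Real.log ‖t1 F ε‖ ≤ (Q * m) ^ 150 := by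
    intro i j hij hj hNN hrep
    have hdvd : ((N i * m : ℕ) : 𝓞 K) ∣ γ j - γ i := by
      rw [← e.sum_repr (γ j - γ i)]
      refine dvd_sum fun l _ => ?_
      have h1 := hrep l
      rw [← hNN] at h1
      obtain ⟨c, hc⟩ : ((N i * m : ℕ) : ℤ) ∣ e.repr (γ j) l - e.repr (γ i) l :=
        Int.ModEq.dvd h1
      refine ⟨c • e l, ?_⟩
      rw [map_sub, Finsupp.sub_apply, hc]
      simp [mul_assoc]
    obtain ⟨c, hc⟩ := hdvd
    obtain ⟨x, hx⟩ := Ideal.mem_span_singleton.1 (Ideal.absNorm_mem (Ideal.span {γ i}))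
    obtain ⟨y, hy⟩ := Ideal.mem_span_singleton.1 (Ideal.absNorm_mem (Ideal.span {γ j}))
    have hx' : (N i : 𝓞 K) = γ i * x := hx
    have hy' : (N i : 𝓞 K) = γ j * y := by rw [hNN]; exact hy
    have e1 : γ j = γ i * (1 + m * x * c) := by
      push_cast at hc
      rw [hx'] at hc
      linear_combination hc
    have e2 : γ i = γ j * (1 - m * y * c) := by
      push_cast at hc
      rw [hy'] at hc
      linear_combination -hc
    have e3 : (1 + m * x * c) * (1 - m * y * c) = 1 := by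
      apply mul_left_cancel₀ (g0 i)
      rw [← mul_assoc, ← e1, ← e2, mul_one]
    have gi : t1 F (γ i) ≠ 0 := fun h0 => by
      have gp := one_le_prod F (g0 i)
      rw [h0] at gp; norm_num at gp
    have gu : t1 F (1 + m * x * c) ≠ 0 := fun h0 => by
      have := congrArg (t1 F) e3
      rw [map_mul, h0] at this
      simp at this
    have l1 : Real.log ‖t1 F (γ j)‖ =
        Real.log ‖t1 F (γ i)‖ + Real.log ‖t1 F (1 + m * x * c)‖ := by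
      conv_lhs => rw [e1]
      rw [map_mul, norm_mul, Real.log_mul (norm_ne_zero_iff.2 gi) (norm_ne_zero_iff.2 gu)]
    have a1 := abs_le.1 (g1 i)
    have a2 := abs_le.1 (g1 j)
    have a3 : (i : ℝ) + 1 ≤ j := by exact_mod_cast hij
    have a4 : (0 : ℝ) ≤ i := Nat.cast_nonneg _
    have a5 : (j : ℝ) ≤ (A ^ 4) ^ 5 * m ^ 4 := by
      have b1 : (j : ℝ) ≤ (B : ℝ) ^ 5 * m ^ 4 := by exact_mod_cast hj
      have b2 : (B : ℝ) ≤ A ^ 4 := Nat.floor_le (by positivity)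
      exact b1.trans (by gcongr)
    refine ⟨Units.mkOfMulEqOne _ _ e3, ⟨x * c, by simp [mul_assoc]⟩, ?_, ?_⟩
    · rw [Units.val_mkOfMulEqOne]
      nlinarith
    · rw [Units.val_mkOfMulEqOne]
      have m1 : (1 : ℝ) ≤ m := by exact_mod_cast hm
      have e4 : (2 : ℝ) ^ 3 ≤ Q ^ 3 := by gcongr
      calc _ ≤ 5 * A * j := by nlinarith
        _ ≤ Q ^ 3 * A * ((A ^ 4) ^ 5 * m ^ 4) := by gcongr; linarith
        _ = Q ^ 150 * m ^ 4 := by rw [hA]; ring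
        _ ≤ Q ^ 150 * m ^ 150 := by gcongr; norm_num
        _ = _ := by rw [mul_pow]
  obtain ⟨i, hi, j, hj, hne, hij⟩ := exists_ne_map_eq_of_card_lt_of_maps_to hcard
    (f := fun j => (N j, fun l => e.repr (γ j) l % (N j * m : ℕ)))
    (fun j _ => mem_coe.2 (mem_product.2 ⟨mem_Icc.2 ⟨N1 j, N2 j⟩, Fintype.mem_piFinset.2 fun l =>
      mem_Ico.2 ⟨Int.emod_nonneg _ (hpos j).ne', (Int.emod_lt_of_pos _ (hpos j)).trans_le (by
        exact_mod_cast Nat.mul_le_mul_right m (N2 j))⟩⟩))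
  simp only [Prod.mk.injEq] at hij
  rcases lt_or_gt_of_ne hne with h | h
  · exact main i j h (Nat.lt_succ_iff.1 (mem_range.1 hj)) hij.1 fun l => congrFun hij.2 l
  · exact main j i h (Nat.lt_succ_iff.1 (mem_range.1 hi)) hij.1.symm
      fun l => (congrFun hij.2 l).symm

end NF

end Mink

open Mink in
theorem p_mink (_hLam : S_Lam) : S_Mink := by
  refine ⟨150, fun K _ _ Q F hQ => ⟨fun 𝔞 v h => ?_, fun m d 𝔞 hm hd h hc => ?_,
    fun m hm => part3 F hQ m hm⟩⟩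
  · obtain ⟨γ, h1, h2, h3, h4⟩ := part1 F hQ 𝔞 v h
    have e : Q ^ 7 ≤ Q ^ 150 := pow_le_pow_right₀ (by linarith) (by norm_num)
    have Q0 : 0 < Q := by linarith
    exact ⟨γ, h1, h2, h3.trans (by gcongr), h4.trans (by gcongr)⟩
  · obtain ⟨𝔠, β, h1, h2, h3, h4, h5⟩ := part2 F hQ m d 𝔞 hm hd h hc
    have m1 : (1 : ℝ) ≤ m := by exact_mod_cast hm
    have d1 : (1 : ℝ) ≤ d := by exact_mod_cast hd
    have e : (1 : ℝ) ≤ Q * m * d := one_le_mul_of_one_le_of_one_le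
      (one_le_mul_of_one_le_of_one_le (by linarith) m1) d1
    exact ⟨𝔠, β, h1, h2, h3.trans (pow_le_pow_right₀ e (by norm_num)), h4, h5⟩

end Pool.Agent.P.MP_b8021b_nt.VE
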