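import Pool.Agent.P.MP_b8021b_nt.VE.StN

/-! Equidistribution on the fibres that are not bad. -/

namespace Pool.Agent.P.MP_b8021b_nt.VE.PMix

open Polynomial NumberField Finset Filter
open scoped Classical

lemma ev_pow (k : ℕ) (C : ℝ) : ∃ y₀ : ℝ, ∀ y, y₀ ≤ y → C * Real.log y ^ k ≤ y := by
  have h := (Real.isLittleO_pow_log_id_atTop (n := k)).bound
    (c := 1 / (|C| + 1)) (by positivity)
  obtain ⟨y₀, hy⟩ := eventually_atTop.mp h
  refine ⟨max y₀ 1, fun y hy' => ?_⟩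
  have h1 := hy y (le_trans (le_max_left _ _) hy')
  have h2 : 1 ≤ y := le_trans (le_max_right _ _) hy'
  have h3 : 0 ≤ Real.log y ^ k := pow_nonneg (Real.log_nonneg h2) k
  simp only [id, Real.norm_eq_abs] at h1
  rw [abs_of_nonneg h3, abs_of_nonneg (by linarith : (0 : ℝ) ≤ y), one_div, inv_mul_eq_div,
    le_div_iff₀ (by positivity)] at h1
  nlinarith [le_abs_self C]

lemma ev_log (C : ℝ) : ∃ y₀ : ℝ, ∀ y, y₀ ≤ y → C ≤ Real.log y :=
  ⟨Real.exp C, fun _ hy => (Real.le_log_iff_exp_le ((Real.exp_pos C).trans_le hy)).mpr hy⟩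

lemma two_pow_omega {n : ℕ} (hn : n ≠ 0) : 2 ^ n.primeFactors.card ≤ n := by
  refine le_trans ?_ (Nat.le_of_dvd (Nat.pos_of_ne_zero hn) (Nat.prod_primeFactors_dvd n))
  exact pow_card_le_prod _ _ _ fun q hq => (Nat.prime_of_mem_primeFactors hq).two_le

lemma omega_le {n : ℕ} {y : ℝ} (hn : n ≠ 0) (hy : (n : ℝ) ≤ y ^ 75) (h1 : 1 ≤ y) :
    (n.primeFactors.card : ℝ) ≤ 150 * Real.log y := by
  have h2 : (2 : ℝ) ^ n.primeFactors.card ≤ y ^ 75 := by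
    refine le_trans ?_ hy
    exact_mod_cast two_pow_omega hn
  have h3 := Real.log_le_log (by positivity) h2
  rw [Real.log_pow, Real.log_pow] at h3
  have h4 := Real.log_two_gt_d9
  have h5 : (0 : ℝ) ≤ n.primeFactors.card := Nat.cast_nonneg _
  have h6 := Real.log_nonneg h1
  push_cast at h3
  nlinarith

lemma class_le {L : Type} [Field L] [NumberField L] (K : IQ L) {C : ℝ} (hC : 1 ≤ C)
    (h1 : (classNumber L : ℝ) ≤ C * cov L * (1 + Real.log |(K.D : ℝ)|) ^ 3)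
    (h2 : cov L ≤ √|(K.D : ℝ)|) : (classNumber L : ℝ) ≤ C * |(K.D : ℝ)| ^ 4 := by
  have hD : (1 : ℝ) ≤ |(K.D : ℝ)| := by
    have : (1 : ℤ) ≤ |K.D| := Int.one_le_abs K.neg.ne
    exact_mod_cast this
  have h3 : √|(K.D : ℝ)| ≤ |(K.D : ℝ)| := by
    rw [Real.sqrt_le_left (by linarith)]
    nlinarith
  have h4 : 1 + Real.log |(K.D : ℝ)| ≤ |(K.D : ℝ)| := by
    have := Real.log_le_sub_one_of_pos (by linarith : (0 : ℝ) < |(K.D : ℝ)|)
    linarith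
  have h5 : 0 ≤ 1 + Real.log |(K.D : ℝ)| := by
    have := Real.log_nonneg hD
    linarith
  calc (classNumber L : ℝ) ≤ C * cov L * (1 + Real.log |(K.D : ℝ)|) ^ 3 := h1
    _ ≤ C * |(K.D : ℝ)| * |(K.D : ℝ)| ^ 3 := by
        refine mul_le_mul (mul_le_mul_of_nonneg_left (h2.trans h3) (by linarith))
          (pow_le_pow_left₀ h5 h4 3) (by positivity) (by positivity)
    _ = _ := by ring

lemma eqd (hErr : S_Err) {L : Type} [Field L] [NumberField L] (K : IQ L) {n N u A : ℕ}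
    {y δ C : ℝ} (hn : 3 ≤ n) (hD : 2 * K.D ∣ n) (hny : (n : ℝ) ≤ y ^ 75) (hu : 1 ≤ u)
    (hδ : 248 ≤ δ * u) (hy : 1 ≤ y) (hl : 4 ≤ Real.log y)
    (hs : ∀ i < N, ∑ q ∈ strat y N i, wt y N q = 1)
    (hw : ∀ i < N, ∀ q ∈ strat y N i, 0 ≤ wt y N q ∧ wt y N q ≤ 4 * N * Real.log y / y)
    (hb : ¬ K.Bad y N δ) (hE : E2 y N u (8 * n ^ 2) ≤ (Real.log y ^ ((5 * A + 1) * u))⁻¹)
    (hh : (classNumber L : ℝ) ≤ C * y ^ 96) (hphi : phi L n ≤ n ^ 2)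
    (hN : (N : ℝ) ≤ 2 * Real.log y ^ (6 * A)) (e1 : 8 * Real.log y ^ (18 * A) ≤ y)
    (e2 : 4 * C * Real.log y ^ (5 * A) ≤ y) (e3 : 2400 * Real.log y ^ (11 * A + 2) ≤ y) :
    EqD K.σ y N u n (Real.log y ^ (5 * A))⁻¹ := by
  set l := Real.log y with hl'
  have hl0 : 0 < l := by linarith
  have hy0 : 0 < y := by linarith
  have hV : 0 ≤ y ^ (-δ) := Real.rpow_nonneg hy0.le _
  have hϑ : 0 ≤ 4 * N * l / y := by positivity
  obtain ⟨h1, h2⟩ := hErr L K n N u (N ^ 2) y (4 * N * l / y) (y ^ (-δ)) hn hD hu hV hϑ hs hw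
    (fun k χ hk hχ hs i hi => by
      by_contra hc
      exact hb ⟨n, k, χ, i, hn, hny, hD, by exact_mod_cast hk, hχ, hs, hi, not_le.mp hc⟩)
  have hm : 0 < l ^ (5 * A) := by positivity
  have hε : (l ^ (5 * A + 1))⁻¹ ≤ (l ^ (5 * A))⁻¹ / 4 := by
    rw [pow_succ, mul_inv, div_eq_mul_inv]
    exact mul_le_mul_of_nonneg_left (inv_anti₀ (by norm_num) hl) (by positivity)
  have hm1 : (l ^ (5 * A))⁻¹ ≤ 1 := inv_le_one_of_one_le₀ (one_le_pow₀ (by linarith))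
  have hE' : E2 y N u (8 * n ^ 2) ≤ (l ^ (5 * A + 1))⁻¹ ^ u := by
    rwa [inv_pow, ← pow_mul]
  refine ⟨h1.trans ?_, fun χ hχ ht i hi => (h2 _ (by positivity) hE' χ hχ ht i hi).trans ?_⟩
  · have a1 : 2 ^ u * E2 y N u (8 * n ^ 2) ≤ (l ^ (5 * A))⁻¹ / 2 := by
      calc 2 ^ u * E2 y N u (8 * n ^ 2) ≤ 2 ^ u * (l ^ (5 * A + 1))⁻¹ ^ u :=
            mul_le_mul_of_nonneg_left hE' (by positivity)
        _ = (2 * (l ^ (5 * A + 1))⁻¹) ^ u := by rw [mul_pow]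
        _ ≤ 2 * (l ^ (5 * A + 1))⁻¹ :=
            pow_le_of_le_one (by positivity) (by linarith) (by omega)
        _ ≤ _ := by linarith
    have a2 : (y ^ (-δ)) ^ u ≤ (y ^ 248)⁻¹ := by
      rw [← Real.rpow_natCast, ← Real.rpow_mul hy0.le, ← Real.rpow_natCast, ← Real.rpow_neg hy0.le]
      refine Real.rpow_le_rpow_of_exponent_le hy ?_
      push_cast
      linarith
    have a3 : (phi L n : ℝ) ≤ y ^ 150 := by
      calc (phi L n : ℝ) ≤ (n : ℝ) ^ 2 := by exact_mod_cast hphi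
        _ ≤ (y ^ 75) ^ 2 := pow_le_pow_left₀ (Nat.cast_nonneg _) hny 2
        _ = _ := by ring
    have a4 : (N : ℝ) ^ 3 ≤ y := by
      calc (N : ℝ) ^ 3 ≤ (2 * l ^ (6 * A)) ^ 3 := pow_le_pow_left₀ (Nat.cast_nonneg _) hN 3
        _ = 8 * l ^ (18 * A) := by ring
        _ ≤ y := e1
    have hC : 0 ≤ C * y ^ 96 := (Nat.cast_nonneg _).trans hh
    have a5 : 2 * ((N ^ 2 : ℕ) : ℝ) * (classNumber L * phi L n) * N * (y ^ (-δ)) ^ u ≤
        2 * C / y := by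
      calc 2 * ((N ^ 2 : ℕ) : ℝ) * (classNumber L * phi L n) * N * (y ^ (-δ)) ^ u
          = 2 * (N : ℝ) ^ 3 * (classNumber L * phi L n) * (y ^ (-δ)) ^ u := by
            push_cast
            ring
        _ ≤ 2 * y * (C * y ^ 96 * y ^ 150) * (y ^ 248)⁻¹ := by
            refine mul_le_mul (mul_le_mul (by linarith)
              (mul_le_mul hh a3 (Nat.cast_nonneg _) hC) (by positivity) (by positivity)) a2
              (by positivity) (mul_nonneg (by positivity) (mul_nonneg hC (by positivity)))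
        _ = 2 * C / y := by field_simp
    have a6 : 2 * C / y ≤ (l ^ (5 * A))⁻¹ / 2 := by
      rw [div_le_iff₀ hy0, inv_eq_one_div, div_div, div_mul_eq_mul_div, le_div_iff₀ (by positivity)]
      linarith
    linarith
  · have a1 := omega_le (by omega) hny hy
    have a2 : 4 * N * l / y * n.primeFactors.card ≤ (l ^ (5 * A))⁻¹ / 2 := by
      calc 4 * N * l / y * n.primeFactors.card ≤ 4 * (2 * l ^ (6 * A)) * l / y * (150 * l) := by
            gcongr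
        _ = 2400 * l ^ (11 * A + 2) / y * ((l ^ (5 * A))⁻¹ / 2) := by
            field_simp
            ring
        _ ≤ 1 * ((l ^ (5 * A))⁻¹ / 2) :=
            mul_le_mul_of_nonneg_right ((div_le_one hy0).mpr e3) (by positivity)
        _ = _ := one_mul _
    have : 0 ≤ (l ^ (5 * A))⁻¹ := by positivity
    linarith

lemma dl_ne {t t' : ℤ × ℤ} (h : 0 < t.2) (h' : 0 < t'.2) {ζ : ℝ} (hζ : 0 < ζ)
    (hc : ζ ≤ |(t.1 : ℝ) / t.2 - (t'.1 : ℝ) / t'.2|) : dl t t' ≠ 0 := by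
  intro h0
  have h1 : (t.1 : ℝ) * t'.2 - t'.1 * t.2 = 0 := by
    unfold dl at h0
    exact_mod_cast h0
  have h2 : (0 : ℝ) < t.2 := by exact_mod_cast h
  have h3 : (0 : ℝ) < t'.2 := by exact_mod_cast h'
  have h4 : (t.1 : ℝ) / t.2 - (t'.1 : ℝ) / t'.2 = 0 := by
    rw [sub_eq_zero, div_eq_div_iff h2.ne' h3.ne']
    linarith
  rw [h4, abs_zero] at hc
  linarith

lemma nn_facts (p : Par) {x x' : Pt} {t t' : ℤ × ℤ} (hx : x.1.Prime) (hx' : x'.1.Prime)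
    (ha : t.1 ≠ 0) (ha' : t'.1 ≠ 0) (hd : dl t t' ≠ 0) (hD : p.D t ≠ 0) (hD' : p.D t' ≠ 0) :
    3 ≤ nn p x x' t t' ∧ 2 * p.D t ∣ nn p x x' t t' ∧ 2 * p.D t' ∣ nn p x x' t t' := by
  unfold nn
  refine ⟨?_, Int.dvd_natAbs.mpr ⟨(p.r : ℤ) ^ p.n0 * x.1 * x'.1 * t.1 * t'.1 * dl t t' * p.D t',
    by ring⟩, Int.dvd_natAbs.mpr ⟨(p.r : ℤ) ^ p.n0 * x.1 * x'.1 * t.1 * t'.1 * dl t t' * p.D t,
    by ring⟩⟩
  have hr : (p.r : ℤ) ≠ 0 := by exact_mod_cast p.hr.ne_zero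
  have h1 : (x.1 : ℤ) ≠ 0 := by exact_mod_cast hx.ne_zero
  have h2 : (x'.1 : ℤ) ≠ 0 := by exact_mod_cast hx'.ne_zero
  have h0 : (2 * (p.r : ℤ) ^ p.n0 * x.1 * x'.1 * t.1 * t'.1 * dl t t' * p.D t * p.D t') ≠ 0 := by
    positivity
  have h3 : 2 * x.1 ∣
      (2 * (p.r : ℤ) ^ p.n0 * x.1 * x'.1 * t.1 * t'.1 * dl t t' * p.D t * p.D t').natAbs := by
    rw [← Int.natCast_dvd_natCast, Int.dvd_natAbs]
    exact ⟨(p.r : ℤ) ^ p.n0 * x'.1 * t.1 * t'.1 * dl t t' * p.D t * p.D t', by push_cast; ring⟩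
  have h4 := Nat.le_of_dvd (Int.natAbs_pos.mpr h0) h3
  have h5 := hx.two_le
  omega

lemma one_le_Pi (z n : ℕ) : 1 ≤ Pi z n := by
  unfold Pi
  refine le_trans (le_of_eq prod_const_one.symm) (prod_le_prod (fun _ _ => zero_le_one) fun l _ => ?_)
  have : (0 : ℝ) ≤ 10 / (l : ℝ) := by positivity
  linarith

end Pool.Agent.P.MP_b8021b_nt.VE.PMix
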