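import Pool.Agent.P.MP_b8021b_nt.VE.PMix1
import Pool.Agent.P.MP_b8021b_nt.VE.PMix2

/-! N30: the design is mixing. -/

namespace Pool.Agent.P.MP_b8021b_nt.VE

open Polynomial NumberField Finset
open scoped Classical

namespace PMix

lemma abs_sub_one_le {W M : ℝ} (h0 : 0 ≤ W) (h1 : W ≤ M) (hM : 1 ≤ M) : |W - 1| ≤ M :=
  abs_le.mpr ⟨by linarith, by linarith⟩

lemma out_le {p : Par} {c : Cfg} (T₀ A : Finset (Tset p c)) (Bd : Tset p c → Prop) (a b : ℝ)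
    (B : Finset (ℤ × ℤ)) (B' : Finset (Tset p c)) (hT : ∀ t : Tset p c, 0 ≤ wT p c t.1)
    (hT₀ : ∀ t, t ∈ T₀ ↔ IsCoprime t.1.1 t.1.2 ∧ ¬ Bd t) (hA : ∀ t, t ∈ A ↔ t ∉ T₀)
    (hB : ∀ t, t ∈ B ↔ t ∈ Tset p c ∧ ¬ IsCoprime t.1 t.2)
    (hB' : ∀ t, t ∈ B' ↔ IsCoprime t.1.1 t.1.2 ∧ Bd t) (h1 : ∑ t ∈ B, wT p c t ≤ a)
    (h2 : ∑ t ∈ B', wT p c t.1 ≤ b) : ∑ t ∈ A, wT p c t.1 ≤ a + b := by
  have e : ∑ t ∈ B, wT p c t = ∑ t : Tset p c with ¬ IsCoprime t.1.1 t.1.2, wT p c t.1 := by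
    have : B = (Tset p c).filter fun t => ¬ IsCoprime t.1 t.2 := by
      ext t
      rw [hB, mem_filter]
    rw [this, sum_filter, sum_filter, ← sum_coe_sort (Tset p c)]
  rw [e] at h1
  have hsub : A ⊆ (univ.filter fun t : Tset p c => ¬ IsCoprime t.1.1 t.1.2) ∪ B' := by
    intro t ht
    rw [hA, hT₀] at ht
    rw [mem_union, mem_filter, hB']
    by_cases h : IsCoprime t.1.1 t.1.2
    · exact Or.inr ⟨h, by_contra fun hb => ht ⟨h, hb⟩⟩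
    · exact Or.inl ⟨mem_univ _, h⟩
  refine (sum_le_sum_of_subset_of_nonneg hsub fun t _ _ => hT t).trans ?_
  rw [sum_union]
  · exact add_le_add h1 h2
  · rw [disjoint_left]
    intro t ht ht'
    exact (mem_filter.mp ht).2 ((hB' t).mp ht').1

lemma small {l CS : ℝ} {u A k : ℕ} (hl : 1 ≤ l) (hA : 2 * u + 8 ≤ A) (hk : A ≤ k) :
    2 * (CS * l ^ (u + 3)) ^ 2 * (l ^ k)⁻¹ ≤ 2 * CS ^ 2 / l := by
  have h0 : 0 < l := by linarith
  have h1 : l ^ (2 * u + 7) ≤ l ^ k := pow_le_pow_right₀ hl (by omega)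
  calc 2 * (CS * l ^ (u + 3)) ^ 2 * (l ^ k)⁻¹ ≤ 2 * (CS * l ^ (u + 3)) ^ 2 * (l ^ (2 * u + 7))⁻¹ :=
        mul_le_mul_of_nonneg_left (inv_anti₀ (by positivity) h1) (by positivity)
    _ = _ := by
        field_simp
        ring

end PMix

open PMix in
theorem p_mix (hCnt : S_Cnt) (hCut : S_Cut) (hTheta : S_Theta) (hIndT : S_IndT) (hIndS : S_IndS)
    (hFlat : S_Flat) (hIQ : S_IQ) (hCl : S_Cl) (hPhi : S_Phi) (hErr : S_Err) (hE2avg : S_E2avg)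
    (hBad : S_Bad) (hSup : S_Sup) (hWW : S_WW) (hPairEst : S_PairEst) (hPi : S_Pi) : S_Mix := by
  intro p τ0
  obtain ⟨δ, hδ, hBad⟩ := hBad
  obtain ⟨u₁, hE2avg⟩ := hE2avg
  refine ⟨max (max 6 u₁) ⌈248 / δ⌉₊, fun u hu ε hε => ?_⟩
  have hu6 : 6 ≤ u := le_trans (le_trans (le_max_left _ _) (le_max_left _ _)) hu
  have hu1 : u₁ ≤ u := le_trans (le_trans (le_max_right _ _) (le_max_left _ _)) hu
  have hδu : 248 ≤ δ * u := by
    have h := Nat.ceil_le.mp (le_trans (le_max_right _ _) hu)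
    rw [div_le_iff₀ hδ] at h
    linarith
  obtain ⟨ε₁, hε₁, hCut⟩ := hCut u hu6 ε hε
  obtain ⟨cH, CH, hcH, hCH, hH⟩ := hCnt.2.2.2.2.2 u hu6
  obtain ⟨CP, ηP, hCP, hηP, hPE⟩ := hPairEst p τ0 u hu6
  obtain ⟨CF, hCF, hFl⟩ := hFlat p τ0
  obtain ⟨Ccl, hCcl, hCl⟩ := hCl
  obtain ⟨z₁, hPi⟩ := hPi p (ε₁ / (6 * CH * CP)) (by positivity)
  refine ⟨min ηP (ε₁ / (30 * CH * CP)), max (max 4 p.r) z₁, lt_min hηP (by positivity),
    fun F hp hτ hFu hη hz hA => ?_⟩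
  subst hp hτ hFu
  have hA1 : 1 ≤ F.A := by omega
  obtain ⟨y1, h1⟩ := hIndT F 1 ε₁ hA1 hε₁
  obtain ⟨y2, h2⟩ := hIndS F ε₁ hε₁
  obtain ⟨y3, h3⟩ := hIndS F 1 one_pos
  obtain ⟨y4, h4⟩ := hFl F rfl rfl
  obtain ⟨y5, h5⟩ := hE2avg F hu1 hA1 ((5 * F.A + 1) * F.u)
  obtain ⟨y6, h6⟩ := hBad F (ε₁ / 2) hA1 (by positivity)
  obtain ⟨CS, hCS, y7, h7⟩ := hSup F hu6 hA1
  obtain ⟨y8, h8⟩ := hPE F rfl rfl rfl (hη.trans (min_le_left _ _)) hA1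
    (le_trans (le_trans (le_max_left _ _) (le_max_left _ _)) hz)
    (le_trans (le_trans (le_max_right _ _) (le_max_left _ _)) hz)
  obtain ⟨Cπ, y9, h9⟩ := hPi F rfl (le_trans (le_max_right _ _) hz) hA1
  obtain ⟨y10, h10⟩ := hTheta (6 * F.A + 1)
  obtain ⟨y11, h11⟩ := ev_pow (18 * F.A) 8
  obtain ⟨y12, h12⟩ := ev_pow (5 * F.A) (4 * (Ccl * CF ^ 4))
  obtain ⟨y13, h13⟩ := ev_pow (11 * F.A + 2) 2400
  obtain ⟨y14, h14⟩ := ev_pow F.A 1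
  obtain ⟨y15, h15⟩ := ev_log (12 * (F.u + 2))
  obtain ⟨y16, h16⟩ := ev_log (6 * CH * CS ^ 2 * (|Cπ| + 1) / ε₁)
  obtain ⟨Y, hY⟩ := Finset.exists_le
    ({y1, y2, y3, y4, y5, y6, y7, y8, y9, y10, y11, y12, y13, y14, y15, y16, 1} : Finset ℝ)
  simp only [mem_insert, mem_singleton, forall_eq_or_imp, forall_eq] at hY
  obtain ⟨g1, g2, g3, g4, g5, g6, g7, g8, g9, g10, g11, g12, g13, g14, g15, g16, g17⟩ := hY
  refine ⟨Y, fun c hc hIn => ?_⟩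
  obtain ⟨hb, hT, -, hadm⟩ := h1 c (g1.trans hc) hIn
  have hS := h2 c (g2.trans hc) hIn
  have hS1 := h3 c (g3.trans hc) hIn
  obtain ⟨-, -, -, hD, hnn⟩ := h4 c (g4.trans hc) hIn
  have hE := h5 c (g5.trans hc) hIn
  have hBd := h6 c (g6.trans hc) hIn
  have hSu := h7 c (g7.trans hc) hIn
  have hP := h8 c (g8.trans hc) hIn
  obtain ⟨q1, q2, q3, q4⟩ := h9 c (g9.trans hc) hIn
  have e11 := h11 c.y (g11.trans hc)
  have e12 := h12 c.y (g12.trans hc)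
  have e13 := h13 c.y (g13.trans hc)
  have e14 := h14 c.y (g14.trans hc)
  have e15 := h15 c.y (g15.trans hc)
  have e16 := h16 c.y (g16.trans hc)
  have hy : 1 ≤ c.y := g17.trans hc
  have hth := h10 c.y (g10.trans hc) c.N
  clear h1 h2 h3 h4 h5 h6 h7 h8 h9 h10 h11 h12 h13 h14 h15 h16 g1 g2 g3 g4 g5 g6 g7 g8 g9 g10 g11
    g12 g13 g14 g15 g16 g17 hPi hPE hFl hBad hE2avg hSup hWW hPairEst hIndT hIndS hFlat hTheta
  have hu0 : (0 : ℝ) ≤ F.u := Nat.cast_nonneg _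
  have hl : 4 ≤ Real.log c.y := by linarith
  have hl1 : 1 ≤ Real.log c.y := by linarith
  have hl0 : 0 < Real.log c.y := by linarith
  have hNl : Real.log c.y ≤ c.N :=
    le_trans (le_self_pow₀ hl1 (by omega)) hIn.N_ge
  have hN12 : 12 * (F.u + 2) ≤ c.N := by
    have : (12 * (F.u + 2) : ℝ) ≤ c.N := e15.trans hNl
    exact_mod_cast this
  have hN1 : 1 ≤ c.N := by omega
  obtain ⟨-, t2, -, t4⟩ := hth hN1 (hIn.N_le.trans (by
    rw [pow_succ, mul_comm]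
    exact mul_le_mul_of_nonneg_left (by linarith) (by positivity)))
  obtain ⟨-, -, -, hH⟩ := hH c.N hN12
  choose L iF iN K hK using fun t : Tset F.p c => hIQ (F.p.D t.1) (hadm t.1 t.2).2.1
  obtain ⟨T₀, hT₀⟩ : ∃ T₀ : Finset (Tset F.p c),
      ∀ t, t ∈ T₀ ↔ IsCoprime t.1.1 t.1.2 ∧ ¬ (K t).Bad c.y c.N δ :=
    ⟨univ.filter fun t => IsCoprime t.1.1 t.1.2 ∧ ¬ (K t).Bad c.y c.N δ, fun t => by
      rw [mem_filter]
      exact and_iff_right (mem_univ _)⟩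
  have hw : ∀ a : Xset F.p c.y c.N, 0 ≤ wt c.y c.N a.1.1 := fun a =>
    hb.w_nonneg ((base F.p c.y c.N).pr a)
  have hlv : ∀ a : Xset F.p c.y c.N, lv c.y c.N a.1.1 < c.N := fun a =>
    hb.lev_lt ((base F.p c.y c.N).pr a)
  have hκ : ∀ t, 0 ≤ kap (L t) F.p c F.u := by
    intro t
    unfold kap ir cov
    have : 0 ≤ c.y := by linarith
    positivity
  refine ⟨mu F.p c F.u T₀ fun t => kap (L t) F.p c F.u, ?_, fun t s x h => mu_good h⟩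
  refine hCut _ _ _ _ _ _ _ _ T₀
    (fun t s a a' => kap' (L t) F.p c F.u a.1 a'.1 * Wg F.p c F.u t.1 s.1 a.1 a'.1) hb hT hS
    (mu_tup hw hT.nonneg hS.nonneg hκ) (fun t s a a' => ?_) ?_ ?_
  · refine mu_marg t s a a' _ (fun x => ?_) fun h => ?_
    · simp only [mem_filter, mem_univ, true_and]
    · have := (hH _ (hlv a) _ (hlv a')).1
      rw [h, mul_zero] at this
      linarith
  · have h := out_le T₀ _ (fun t => (K t).Bad c.y c.N δ) _ _ _ _ hT.nonneg hT₀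
      (fun t => (mem_filter (s := univ) (p := fun t => t ∉ T₀)).trans (and_iff_right (mem_univ _)))
      (fun t => mem_filter) (fun t => mem_filter.trans (and_iff_right (mem_univ _))) q3
      (hBd L K hK)
    have h' : ε₁ / (6 * CH * CP) ≤ ε₁ / 2 :=
      div_le_div_of_nonneg_left hε₁.le (by norm_num) (by nlinarith)
    refine le_trans (le_of_eq (sum_congr ?_ fun _ _ => rfl)) (h.trans (by linarith))
    ext t
    simp only [mem_filter]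
  obtain ⟨M, hM⟩ : ∃ M, M = 2 * (CS * Real.log c.y ^ (F.u + 3)) ^ 2 := ⟨_, rfl⟩
  have hM0 : 0 ≤ M := by
    rw [hM]
    positivity
  have hη0 : 0 < c.η := hIn.η ▸ F.ηpos
  have hη1 : c.η ≤ 1 := hIn.η ▸ F.ηle
  have hζ : 0 < (Real.log c.y ^ F.A)⁻¹ := by positivity
  refine (pc_le (T₀ := T₀) (u := F.u) (fun t t' a a' =>
      ∑ s, (sideS F.p c.y c.N c.S0 c.L).c2 (base F.p c.y c.N) a a' s *
        ((kap' (L t) F.p c F.u a.1 a'.1 * Wg F.p c F.u t.1 s.1 a.1 a'.1 - 1) *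
          (kap' (L t') F.p c F.u a.1 a'.1 * Wg F.p c F.u t'.1 s.1 a.1 a'.1 - 1))) CH
    (fun x x' t t' => 2 * CP * (if dl t t' ≠ 0 then Pi c.z (nn F.p x x' t t') - 1 else 0) +
      CP * c.η * 1 +
      M * (if |(t.1 : ℝ) / t.2 - (t'.1 : ℝ) / t'.2| < (Real.log c.y ^ F.A)⁻¹ then 1 else 0) +
      M * (if dl t t' ≠ 0 ∧ (Real.log c.y ^ ((5 * F.A + 1) * F.u))⁻¹ <
        E2 c.y c.N F.u (8 * nn F.p x x' t t' ^ 2) then 1 else 0))
    hw hT.nonneg hN1 (by linarith) (fun a a' => (hH _ (hlv a) _ (hlv a')).2)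
    (fun t ht => ((hT₀ t).mp ht).1) (fun x x' t t' => ?_) (fun a a' t t' ht ht' hQ => ?_)).trans ?_
  · have := sub_nonneg.mpr (one_le_Pi c.z (nn F.p x x' t t'))
    split_ifs <;> positivity
  · have hPi1 := sub_nonneg.mpr (one_le_Pi c.z (nn F.p a.1 a'.1 t.1 t'.1))
    rw [es_eq a a' fun s => (kap' (L t) F.p c F.u a.1 a'.1 * Wg F.p c F.u t.1 s a.1 a'.1 - 1) *
      (kap' (L t') F.p c F.u a.1 a'.1 * Wg F.p c F.u t'.1 s a.1 a'.1 - 1)]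
    have hgen : |Es F.p c a.1 a'.1 fun s =>
        (kap' (L t) F.p c F.u a.1 a'.1 * Wg F.p c F.u t.1 s a.1 a'.1 - 1) *
        (kap' (L t') F.p c F.u a.1 a'.1 * Wg F.p c F.u t'.1 s a.1 a'.1 - 1)| ≤ M := by
      obtain ⟨k0, k1, -⟩ := hSu a.1 a'.1 t.1 (L t) (K t) a.2 a'.2 t.2 (hK t)
      obtain ⟨k0', k1', -⟩ := hSu a.1 a'.1 t'.1 (L t') (K t') a.2 a'.2 t'.2 (hK t')
      have hge : 1 ≤ CS * Real.log c.y ^ (F.u + 3) :=
        one_le_mul_of_one_le_of_one_le hCS (one_le_pow₀ hl1)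
      refine (es_abs_le _ _ _ ((CS * Real.log c.y ^ (F.u + 3)) ^ 2)
        (fun s hs => hS.nonneg ⟨s, hs⟩) fun s => ?_).trans ?_
      · rw [abs_mul, sq]
        exact mul_le_mul (abs_sub_one_le (mul_nonneg k0 (k1 s).1) (k1 s).2 hge)
          (abs_sub_one_le (mul_nonneg k0' (k1' s).1) (k1' s).2 hge) (abs_nonneg _) (by linarith)
      · rw [hM, mul_comm 2]
        exact mul_le_mul_of_nonneg_left (es_one a a' hQ.ne hN1 hS1) (by positivity)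
    by_cases c1 : |(t.1.1 : ℝ) / t.1.2 - (t'.1.1 : ℝ) / t'.1.2| < (Real.log c.y ^ F.A)⁻¹
    · rw [if_pos c1]
      refine hgen.trans ?_
      have : 0 ≤ CP * c.η := by positivity
      split_ifs <;> nlinarith
    have hdl : dl t.1 t'.1 ≠ 0 := dl_ne (hadm t.1 t.2).1 (hadm t'.1 t'.2).1 hζ (not_lt.mp c1)
    rw [if_neg c1, if_pos hdl]
    by_cases c2 : (Real.log c.y ^ ((5 * F.A + 1) * F.u))⁻¹ <
        E2 c.y c.N F.u (8 * nn F.p a.1 a'.1 t.1 t'.1 ^ 2)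
    · rw [if_pos ⟨hdl, c2⟩]
      refine hgen.trans ?_
      have : 0 ≤ CP * c.η := by positivity
      nlinarith
    rw [if_neg fun h => c2 h.2]
    obtain ⟨n3, nD, nD'⟩ := nn_facts F.p (mem_filter.mp a.2).2.1 (mem_filter.mp a'.2).2.1
      (hD t.1 t.2).1.ne (hD t'.1 t'.2).1.ne hdl (hadm t.1 t.2).2.1.ne (hadm t'.1 t'.2).2.1.ne
    have hEq : ∀ t₁ ∈ T₀, 2 * F.p.D t₁.1 ∣ nn F.p a.1 a'.1 t.1 t'.1 →
        EqD (K t₁).σ c.y c.N F.u (nn F.p a.1 a'.1 t.1 t'.1) (Real.log c.y ^ (5 * F.A))⁻¹ := by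
      intro t₁ ht₁ hd
      obtain ⟨cl1, -, cl2, -⟩ := hCl (L t₁) (K t₁)
      have cl := class_le (K t₁) hCcl cl1 cl2
      have hDle : |((K t₁).D : ℝ)| ≤ CF * c.y ^ 24 := by
        obtain ⟨-, -, d1, d2⟩ := hD t₁.1 t₁.2
        have hB0 : 0 ≤ c.B := le_trans (by positivity) hIn.B_ge
        have hB4 : c.B ^ 4 ≤ (c.y ^ 6) ^ 4 := pow_le_pow_left₀ hB0 hIn.B_le 4
        rw [hK t₁, abs_of_nonpos (by linarith [pow_nonneg hB0 4])]
        refine d2.trans (mul_le_mul_of_nonneg_left (hB4.trans_eq (by ring)) (by linarith))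
      refine eqd (C := Ccl * CF ^ 4) hErr (K t₁) n3 (by rwa [hK t₁]) (hnn _ _ _ _ hQ) (by omega)
        hδu hy hl t2 (fun i hi q hq => ?_) ((hT₀ t₁).mp ht₁).2 (not_lt.mp c2) (cl.trans ?_)
        (hPhi (L t₁) (K t₁).deg 1 _ (by omega) (one_dvd _)).2.1 hIn.N_le e11 e12 e13
      · exact (t4 q (mem_biUnion.mpr ⟨i, mem_range.mpr hi, hq⟩)).2.2.2.2.2
      · calc Ccl * |((K t₁).D : ℝ)| ^ 4 ≤ Ccl * (CF * c.y ^ 24) ^ 4 :=
              mul_le_mul_of_nonneg_left (pow_le_pow_left₀ (abs_nonneg _) hDle 4) (by linarith)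
          _ = _ := by ring
    refine (hP a.1 a'.1 t.1 t'.1 (L t) (L t') (K t) (K t') hQ (hK t) (hK t') (not_lt.mp c1)
      (hEq t ht nD) (hEq t' ht' nD')).trans ?_
    have : 0 ≤ CP * ((1 - c.η) * (Pi c.z (nn F.p a.1 a'.1 t.1 t'.1) - 1)) :=
      mul_nonneg (by linarith) (mul_nonneg (by linarith) hPi1)
    nlinarith
  rw [qs_lin]
  have q5 := q4 _ (inv_anti₀ (by positivity) (by linarith) : c.y⁻¹ ≤ (Real.log c.y ^ F.A)⁻¹)
  have s1 := small (CS := CS) hl1 hA le_rfl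
  have s2 := small (CS := CS) hl1 hA (k := (5 * F.A + 1) * F.u) (by nlinarith)
  rw [← hM] at s1 s2
  have b1 : CH * (2 * CP * (ε₁ / (6 * CH * CP))) = ε₁ / 3 := by
    field_simp
    ring
  have b2 : CH * (CP * c.η * 10) ≤ ε₁ / 3 := by
    have h := hIn.η ▸ hη.trans (min_le_right _ _)
    rw [le_div_iff₀ (by positivity)] at h
    linarith
  have b3 : CH * ((|Cπ| + 1) * (2 * CS ^ 2 / Real.log c.y)) ≤ ε₁ / 3 := by
    rw [div_le_iff₀ hε₁] at e16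
    rw [← mul_div_assoc, ← mul_div_assoc, div_le_iff₀ hl0]
    linarith
  have b4 : M * (Cπ * (Real.log c.y ^ F.A)⁻¹) ≤ |Cπ| * (2 * CS ^ 2 / Real.log c.y) := by
    calc M * (Cπ * (Real.log c.y ^ F.A)⁻¹) = Cπ * (M * (Real.log c.y ^ F.A)⁻¹) := by ring
      _ ≤ |Cπ| * (M * (Real.log c.y ^ F.A)⁻¹) :=
          mul_le_mul_of_nonneg_right (le_abs_self _) (by positivity)
      _ ≤ _ := mul_le_mul_of_nonneg_left s1 (abs_nonneg _)
  refine le_trans (mul_le_mul_of_nonneg_left (add_le_add (add_le_add (add_le_add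
    (mul_le_mul_of_nonneg_left q2 (by positivity)) (mul_le_mul_of_nonneg_left q1 (by positivity)))
    ((mul_le_mul_of_nonneg_left q5 hM0).trans b4))
    ((mul_le_mul_of_nonneg_left hE hM0).trans s2)) (by linarith)) ?_
  nlinarith

end Pool.Agent.P.MP_b8021b_nt.VE
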