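import Pool.Agent.P.MP_b8021b_nt.VE.StA

/-! A3: an integral model with a prescribed fibre at `x = 0`. -/

namespace Pool.Agent.P.MP_b8021b_nt.VE

open Polynomial

namespace PModel

theorem cubic_eq (g : ℚ[X]) (hm : g.Monic) (hd : g.natDegree = 3) :
    g = X ^ 3 + C (g.coeff 2) * X ^ 2 + C (g.coeff 1) * X + C (g.coeff 0) := by
  have h := hm.as_sum
  rw [hd] at h
  conv_lhs => rw [h]
  simp [Finset.sum_range_succ]
  ring

theorem den_int (a : ℚ) (u : ℕ) (h : a.den ∣ u) : ∃ b : ℤ, (b : ℚ) = u * a := by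
  obtain ⟨k, rfl⟩ := h
  refine ⟨k * a.num, ?_⟩
  have := Rat.den_mul_eq_num a
  push_cast
  rw [← this]
  ring

theorem comp_sep (f : ℚ[X]) (hf : f.Separable) (e t k : ℚ) (he : e ≠ 0) (hk : k ≠ 0) :
    (C k * f.comp (C e * X + C t)).Separable := by
  obtain ⟨a, b, hab⟩ := hf
  refine ⟨C k⁻¹ * a.comp (C e * X + C t), C (k * e)⁻¹ * b.comp (C e * X + C t), ?_⟩
  have h1 := congrArg (fun p : ℚ[X] => p.comp (C e * X + C t)) hab
  simp only [add_comp, mul_comp, one_comp] at h1
  have h2 : derivative (C k * f.comp (C e * X + C t)) =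
      C (k * e) * (derivative f).comp (C e * X + C t) := by
    rw [derivative_C_mul, derivative_comp]
    simp [mul_assoc]
  have h3 : (C k⁻¹ : ℚ[X]) * C k = 1 := by rw [← C_mul, inv_mul_cancel₀ hk, C_1]
  have h4 : (C (k * e)⁻¹ : ℚ[X]) * C (k * e) = 1 := by
    rw [← C_mul, inv_mul_cancel₀ (mul_ne_zero hk he), C_1]
  rw [h2]
  linear_combination h1 + (a.comp (C e * X + C t) * f.comp (C e * X + C t)) * h3 +
    (b.comp (C e * X + C t) * (derivative f).comp (C e * X + C t)) * h4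

end PModel

open PModel

theorem p_model : S_Model := by
  intro A _ _ M t
  set g : ℚ[X] := M.f.comp (X + C t) with hg
  have hgm : g.Monic := M.monic.comp_X_add_C t
  have hgd : g.natDegree = 3 := by
    rw [hg, natDegree_comp, natDegree_X_add_C, M.deg]
  set u : ℕ := (g.coeff 2).den * (g.coeff 1).den * (g.coeff 0).den with hu
  have hu0 : (u : ℚ) ≠ 0 := by
    have : u ≠ 0 := mul_ne_zero (mul_ne_zero (g.coeff 2).den_nz (g.coeff 1).den_nz)
      (g.coeff 0).den_nz
    exact_mod_cast this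
  obtain ⟨b2, hb2⟩ := den_int (g.coeff 2) u ⟨(g.coeff 1).den * (g.coeff 0).den, by rw [hu]; ring⟩
  obtain ⟨b1, hb1⟩ := den_int (g.coeff 1) u ⟨(g.coeff 2).den * (g.coeff 0).den, by rw [hu]; ring⟩
  obtain ⟨b0, hb0⟩ := den_int (g.coeff 0) u ⟨(g.coeff 2).den * (g.coeff 1).den, by rw [hu]; ring⟩
  set e : ℚ := ((u : ℚ) ^ 2)⁻¹ with he
  have he0 : e ≠ 0 := inv_ne_zero (pow_ne_zero _ hu0)
  have heu : e * (u : ℚ) ^ 2 = 1 := inv_mul_cancel₀ (pow_ne_zero _ hu0)
  set f' : ℚ[X] := C ((u : ℚ) ^ 6) * M.f.comp (C e * X + C t) with hf'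
  set fz : ℤ[X] := X ^ 3 + C ((u : ℤ) * b2) * X ^ 2 + C ((u : ℤ) ^ 3 * b1) * X +
    C ((u : ℤ) ^ 5 * b0) with hfz
  have hc : M.f.comp (C e * X + C t) = g.comp (C e * X) := by
    rw [hg, comp_assoc]
    simp
  have hmap : fz.map (Int.castRingHom ℚ) = f' := by
    rw [hf', hc, cubic_eq g hgm hgd]
    apply Polynomial.funext
    intro z
    simp only [hfz, Polynomial.map_add, Polynomial.map_mul, Polynomial.map_pow, map_X, map_C,
      eval_add, eval_mul, eval_pow, eval_X, eval_C, eval_comp, eq_intCast, Int.cast_mul,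
      Int.cast_pow, Int.cast_natCast, hb2, hb1, hb0]
    simp only [Polynomial.map_intCast, eval_intCast, Polynomial.map_natCast, eval_natCast,
      hb2, hb1, hb0]
    rw [he]
    field_simp
  have hfm : fz.Monic := by
    rw [hfz]
    monicity!
  have hfd : fz.natDegree = 3 := by
    rw [hfz]
    compute_degree!
  set x' : A := algebraMap ℚ A ((u : ℚ) ^ 2) * (M.x - algebraMap ℚ A t) with hx'
  have hx : aeval x' (C e * X + C t) = M.x := by
    simp only [map_add, map_mul, aeval_C, aeval_X, hx']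
    rw [← mul_assoc, ← map_mul, heu, map_one]
    ring
  have hx2 : aeval M.x (C ((u : ℚ) ^ 2) * (X - C t)) = x' := by
    simp only [map_sub, map_mul, aeval_C, aeval_X, hx']
  have hinv : (C ((u : ℚ) ^ 2) * (X - C t)).comp (C e * X + C t) = X := by
    simp only [mul_comp, sub_comp, C_comp, X_comp, add_sub_cancel_right]
    rw [← mul_assoc, ← C_mul, mul_comm _ e, heu, C_1, one_mul]
  have hu3 : algebraMap ℚ A ((u : ℚ) ^ 3)⁻¹ * algebraMap ℚ A ((u : ℚ) ^ 3) = 1 := by
    rw [← map_mul, inv_mul_cancel₀ (pow_ne_zero _ hu0), map_one]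
  refine ⟨{ f := f'
            monic := hmap ▸ hfm.map _
            deg := by rw [← hmap, hfm.natDegree_map, hfd]
            sep := comp_sep M.f M.sep e t _ he0 (pow_ne_zero _ hu0)
            x := x'
            y := algebraMap ℚ A ((u : ℚ) ^ 3) * M.y
            rel := ?_
            surj := ?_
            inj := ?_
            fz := fz
            hfz := hmap }, (u : ℚ) ^ 2, pow_ne_zero _ hu0, rfl⟩
  · rw [hf', map_mul, aeval_C, aeval_comp, hx, mul_pow, M.rel, ← map_pow, ← pow_mul]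
  · intro h
    obtain ⟨p, c, hpc⟩ := M.surj h
    refine ⟨p.comp (C e * X + C t), C ((u : ℚ) ^ 3)⁻¹ * c.comp (C e * X + C t), ?_⟩
    rw [map_mul, aeval_C, aeval_comp, aeval_comp, hx, hpc]
    linear_combination (-(aeval M.x c * M.y)) * hu3
  · intro p c h
    have h1 := M.inj (p.comp (C ((u : ℚ) ^ 2) * (X - C t)))
      (C ((u : ℚ) ^ 3) * c.comp (C ((u : ℚ) ^ 2) * (X - C t))) (by
        rw [map_mul, aeval_C, aeval_comp, aeval_comp, hx2, ← h]
        ring)
    have h2 : ∀ q : ℚ[X], q.comp (C ((u : ℚ) ^ 2) * (X - C t)) = 0 → q = 0 := by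
      intro q hq
      have := congrArg (fun p : ℚ[X] => p.comp (C e * X + C t)) hq
      simpa only [comp_assoc, hinv, comp_X, zero_comp] using this
    refine ⟨h2 p h1.1, h2 c ?_⟩
    exact (mul_eq_zero.1 h1.2).resolve_left (C_ne_zero.2 (pow_ne_zero _ hu0))

end Pool.Agent.P.MP_b8021b_nt.VE
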