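import Pool.Agent.P.MP_b8021b_nt.VE.StN
import Pool.Agent.P.MP_746f10_nt.Basic

/-! N18: few fibres share the quadratic field of a given fibre. -/

namespace Pool.Agent.P.MP_b8021b_nt.VE

open Polynomial Finset
open scoped Classical

namespace MulP

theorem sqfree_dvd {D g m s : ℤ} (hm : m ≠ 0) (hs : Squarefree s) (hc : IsCoprime s g)
    (h : IsSquare (D * (m ^ 2 * s * g))) : s ∣ D := by
  obtain ⟨w, hw⟩ := h
  have h1 : m ^ 2 ∣ w ^ 2 := ⟨D * s * g, by rw [sq w, ← hw]; ring⟩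
  obtain ⟨v, rfl⟩ := (Int.pow_dvd_pow_iff (by norm_num)).1 h1
  have h2 : D * s * g = v ^ 2 := by
    apply mul_left_cancel₀ (pow_ne_zero 2 hm)
    linear_combination hw
  have h3 : s ∣ v ^ 2 := ⟨D * g, by rw [← h2]; ring⟩
  obtain ⟨k, rfl⟩ := (hs.dvd_pow_iff_dvd (by norm_num)).1 h3
  have h4 : D * g = s * k ^ 2 := by
    apply mul_left_cancel₀ hs.ne_zero
    linear_combination h2
  exact hc.dvd_of_dvd_mul_right ⟨_, h4⟩

theorem D_eq (p : Par) (a b : ℤ) : p.D (a, b) =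
    b * (a ^ 3 + b * (p.f.coeff 2 * a ^ 2 + p.f.coeff 1 * a * b + p.f.coeff 0 * b ^ 2)) := by
  obtain ⟨h1, h2, -, -⟩ := p.hf
  have c3 : p.f.coeff 3 = 1 := by rw [← h2]; exact h1.coeff_natDegree
  have c4 : p.f.coeff 4 = 0 := coeff_eq_zero_of_natDegree_lt (by omega)
  simp only [Par.D, hev, sum_range_succ, sum_range_zero, c3, c4]
  ring

theorem card_le (p : Par) (T : Finset (ℤ × ℤ)) (A : Finset ℤ) (M : ℕ) (D : ℤ) (hD : D ≠ 0)
    (hT : ∀ t ∈ T, t.1 ∈ A ∧ 0 < t.2 ∧ t.2 < ((M : ℤ) + 1) ^ 2) :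
    (T.filter fun t' => IsCoprime t'.1 t'.2 ∧ IsSquare (D * p.D t')).card ≤
      A.card * (D.natAbs.divisors.card * (M + 1)) := by
  have hsub : (T.filter fun t' => IsCoprime t'.1 t'.2 ∧ IsSquare (D * p.D t')) ⊆
      (A ×ˢ D.natAbs.divisors ×ˢ range (M + 1)).image
        fun x : ℤ × ℕ × ℕ => (x.1, ((x.2.2 : ℤ) ^ 2 * x.2.1)) := by
    rintro ⟨a, b⟩ ht
    obtain ⟨ht, hc, hsq⟩ := mem_filter.1 ht
    obtain ⟨ha, hb, hb'⟩ := hT _ ht
    simp only at ha hb hb' hc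
    obtain ⟨s, m, hs0, hm0, e, hs⟩ := Nat.sq_mul_squarefree_of_pos (n := b.toNat) (by omega)
    have e' : (m : ℤ) ^ 2 * s = b := by
      have : ((m ^ 2 * s : ℕ) : ℤ) = b := by rw [e]; omega
      exact_mod_cast this
    have hc' : IsCoprime b (a ^ 3 +
        b * (p.f.coeff 2 * a ^ 2 + p.f.coeff 1 * a * b + p.f.coeff 0 * b ^ 2)) :=
      (hc.symm.pow_right (n := 3)).add_mul_left_right _
    rw [D_eq] at hsq
    generalize (a ^ 3 +
        b * (p.f.coeff 2 * a ^ 2 + p.f.coeff 1 * a * b + p.f.coeff 0 * b ^ 2)) = g at hc' hsq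
    have hd : (s : ℤ) ∣ D := by
      refine sqfree_dvd (m := m) (g := g) (by exact_mod_cast hm0.ne')
        (Int.squarefree_natCast.2 hs) ?_ (by rwa [e'])
      rw [← e'] at hc'
      exact hc'.of_mul_left_right
    refine mem_image.2 ⟨(a, s, m), ?_, by simp only [e']⟩
    simp only [mem_product, Nat.mem_divisors, mem_range]
    refine ⟨ha, ⟨Int.natCast_dvd.1 hd, Int.natAbs_ne_zero.2 hD⟩, ?_⟩
    have s1 : (1 : ℤ) ≤ s := by exact_mod_cast hs0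
    have : (m : ℤ) ^ 2 < ((M : ℤ) + 1) ^ 2 := by nlinarith [sq_nonneg (m : ℤ)]
    have := lt_of_pow_lt_pow_left₀ 2 (by positivity) this
    omega
  refine (card_le_card hsub).trans (card_image_le.trans ?_)
  simp only [card_product, card_range, le_refl]

end MulP

open MulP

theorem p_mul (hFlat : S_Flat) : S_Mul := by
  intro F
  obtain ⟨C, hC, hF⟩ := hFlat F.p F.τ0
  obtain ⟨y₀, hy₀⟩ := hF F rfl rfl
  obtain ⟨Ct, hCt, hτ⟩ := Pool.Agent.P.MP_746f10_nt.exists_tau_le 8 25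
  have hτ0 := F.tau.1
  obtain ⟨K, hK⟩ : ∃ K : ℝ, K = 3 * (2 - 2 * F.τ0) := ⟨_, rfl⟩
  have hK0 : 0 < K := by rw [hK]; linarith
  refine ⟨max (max y₀ C) (K ^ 8 * Ct), fun c hc hIn t ht => ?_⟩
  have y1 : y₀ ≤ c.y := ((le_max_left _ _).trans (le_max_left _ _)).trans hc
  have y2 : C ≤ c.y := ((le_max_right _ _).trans (le_max_left _ _)).trans hc
  have y3 : K ^ 8 * Ct ≤ c.y := (le_max_right _ _).trans hc
  have y4 : 1 ≤ c.y := hC.trans y2
  have B1 : 1 ≤ c.B := (one_le_pow₀ y4).trans hIn.B_ge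
  obtain ⟨-, -, d1, d2⟩ := (hy₀ c y1 hIn).2.2.2.1 t ht
  have d0 : (F.p.D t : ℝ) < 0 := by linarith [one_le_pow₀ (n := 4) B1]
  have hD : F.p.D t ≠ 0 := by
    intro h; rw [h] at d0; simp at d0
  have hsq : 0 ≤ √(2 * c.B) := Real.sqrt_nonneg _
  have h1 := card_le F.p (Tset F.p c) (Finset.Icc ⌊2 * c.B * c.τ0⌋ 0) ⌊√(2 * c.B)⌋₊ _ hD (by
    intro t' ht'
    obtain ⟨a1, a2, a3, -⟩ := mem_filter.1 ht'
    refine ⟨(mem_product.1 a1).1, ?_, ?_⟩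
    · have : (0 : ℝ) < t'.2 := by linarith
      exact_mod_cast this
    · have b1 := Nat.lt_floor_add_one √(2 * c.B)
      have b2 : 2 * c.B < ((⌊√(2 * c.B)⌋₊ : ℝ) + 1) ^ 2 := by
        rw [← Real.sq_sqrt (show 0 ≤ 2 * c.B by linarith)]
        rw [Real.sqrt_sq hsq]
        gcongr
      have b3 : c.η ≤ 1 := hIn.η ▸ F.ηle
      have : (t'.2 : ℝ) < ((⌊√(2 * c.B)⌋₊ : ℝ) + 1) ^ 2 := by nlinarith
      exact_mod_cast this)
  have h2 : ((Finset.Icc ⌊2 * c.B * c.τ0⌋ 0).card : ℝ) ≤ (2 - 2 * F.τ0) * c.B := by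
    rw [hIn.τ0, Int.card_Icc]
    have a := Int.lt_floor_add_one (2 * c.B * F.τ0)
    have a' := Int.floor_le (2 * c.B * F.τ0)
    have b : (0 : ℤ) ≤ 0 + 1 - ⌊2 * c.B * F.τ0⌋ := by
      have : (0 : ℝ) ≤ 0 + 1 - (⌊2 * c.B * F.τ0⌋ : ℤ) := by nlinarith
      exact_mod_cast this
    have e : (((0 + 1 - ⌊2 * c.B * F.τ0⌋).toNat : ℕ) : ℝ) = 0 + 1 - (⌊2 * c.B * F.τ0⌋ : ℤ) := by
      have := Int.toNat_of_nonneg b
      exact_mod_cast this
    rw [e]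
    nlinarith
  have h3 : (⌊√(2 * c.B)⌋₊ : ℝ) + 1 ≤ 3 * √c.B := by
    have a := Nat.floor_le hsq
    have b : 1 ≤ √c.B := Real.one_le_sqrt.2 B1
    have d : √(2 * c.B) ≤ 2 * √c.B := by
      rw [Real.sqrt_le_left (by positivity), mul_pow, Real.sq_sqrt (by linarith)]
      linarith
    linarith
  have h4 : ((F.p.D t).natAbs.divisors.card : ℝ) ^ 8 ≤ Ct * c.y := by
    refine hτ _ _ (Int.natAbs_ne_zero.2 hD) y4 ?_
    rw [Nat.cast_natAbs, Int.cast_abs, abs_of_neg d0]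
    calc _ ≤ C * c.B ^ 4 := d2
      _ ≤ c.y * (c.y ^ 6) ^ 4 := by gcongr; exact hIn.B_le
      _ = c.y ^ 25 := by ring
  have h5 : K * ((F.p.D t).natAbs.divisors.card : ℝ) ≤ c.y ^ (1 / 4 : ℝ) := by
    refine le_of_pow_le_pow_left₀ (n := 8) (by norm_num) (by positivity) ?_
    rw [← Real.rpow_natCast (c.y ^ (1 / 4 : ℝ)), ← Real.rpow_mul (by linarith), mul_pow]
    norm_num
    calc _ ≤ K ^ 8 * (Ct * c.y) := by gcongr
      _ = K ^ 8 * Ct * c.y := by ring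
      _ ≤ c.y * c.y := by gcongr
      _ = _ := by ring
  have h6 : c.B ^ (3 / 2 : ℝ) = c.B * √c.B := by
    rw [show (3 / 2 : ℝ) = 1 + 1 / 2 by norm_num, Real.rpow_add (by linarith), Real.rpow_one,
      Real.sqrt_eq_rpow]
  have h1' := (Nat.cast_le (α := ℝ)).2 h1
  push_cast at h1'
  have p1 : (0 : ℝ) ≤ (2 - 2 * F.τ0) * c.B := by nlinarith
  calc _ ≤ _ := h1'
    _ ≤ (2 - 2 * F.τ0) * c.B * (((F.p.D t).natAbs.divisors.card : ℝ) * (3 * √c.B)) := by gcongr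
    _ = c.B * √c.B * (K * ((F.p.D t).natAbs.divisors.card : ℝ)) := by rw [hK]; ring
    _ ≤ _ := by rw [h6]; gcongr

end Pool.Agent.P.MP_b8021b_nt.VE
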