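import Pool.Agent.P.MP_b8021b_nt.VE.StA

/-!
Step A7a, second half: the function with divisor `(2 k - 1) P₁ + Q`.
-/

namespace Pool.Agent.P.MP_b8021b_nt.VE

open Polynomial WeierstrassCurve WeierstrassCurve.Affine WeierstrassCurve.Affine.CoordinateRing
open scoped Classical

namespace Near

variable {F : Type} [Field F] {W : WeierstrassCurve.Affine F}

/-- evaluation at an affine point -/
noncomputable def ev {x y : F} (h : W.Equation x y) : W.CoordinateRing →+* F :=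
  AdjoinRoot.lift (evalRingHom x) y (by
    rw [eval₂_evalRingHom]; exact h)

theorem ev_C {x y : F} (h : W.Equation x y) (q : F[X]) : ev h (mk W (C q)) = q.eval x := by
  rw [ev, AdjoinRoot.lift_mk, eval₂_C, coe_evalRingHom]

theorem ev_Y {x y : F} (h : W.Equation x y) : ev h (mk W X) = y := by
  rw [ev, AdjoinRoot.lift_mk, eval₂_X]

theorem XY_le_ker_iff {x y : F} (h : W.Equation x y) (a b : F) :
    XYIdeal W a (C b) ≤ RingHom.ker (ev h) ↔ x = a ∧ y = b := by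
  rw [XYIdeal, Ideal.span_le, Set.insert_subset_iff, Set.singleton_subset_iff, SetLike.mem_coe,
    SetLike.mem_coe, RingHom.mem_ker, RingHom.mem_ker, XClass, YClass, ev_C, map_sub, map_sub,
    ev_Y, ev_C]
  simp [sub_eq_zero]

theorem poly_eq (h1 : W.a₁ = 0) (h3 : W.a₃ = 0) :
    W.polynomial = X ^ 2 - C (X ^ 3 + C W.a₂ * X ^ 2 + C W.a₄ * X + C W.a₆) := by
  rw [Affine.polynomial, h1, h3]
  simp only [map_zero, zero_mul, add_zero]

theorem Y_sq (h1 : W.a₁ = 0) (h3 : W.a₃ = 0) :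
    mk W X ^ 2 = mk W (C (X ^ 3 + C W.a₂ * X ^ 2 + C W.a₄ * X + C W.a₆)) := by
  rw [← map_pow, AdjoinRoot.mk_eq_mk, ← poly_eq h1 h3]

/-- the hyperelliptic involution -/
noncomputable def io (h1 : W.a₁ = 0) (h3 : W.a₃ = 0) : W.CoordinateRing →+* W.CoordinateRing :=
  AdjoinRoot.lift ((CoordinateRing.mk W).comp C) (-CoordinateRing.mk W X) (by
    have e : ∀ q : F[X][X], q = W.polynomial →
        eval₂ ((CoordinateRing.mk W).comp C) (-CoordinateRing.mk W X) q = 0 := by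
      intro q hq
      rw [poly_eq h1 h3] at hq
      rw [hq, eval₂_sub, eval₂_C, eval₂_X_pow, RingHom.comp_apply, neg_sq, Y_sq h1 h3, sub_self]
    exact e _ rfl)

theorem io_C (h1 : W.a₁ = 0) (h3 : W.a₃ = 0) (q : F[X]) : io h1 h3 (mk W (C q)) = mk W (C q) := by
  rw [io, AdjoinRoot.lift_mk, eval₂_C, RingHom.comp_apply]

theorem io_Y (h1 : W.a₁ = 0) (h3 : W.a₃ = 0) : io h1 h3 (mk W X) = -mk W X := by
  rw [io, AdjoinRoot.lift_mk, eval₂_X]

theorem map_XY (h1 : W.a₁ = 0) (h3 : W.a₃ = 0) (a b : F) :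
    Ideal.map (io h1 h3) (XYIdeal W a (C b)) = XYIdeal W a (C (W.negY a b)) := by
  have e : io h1 h3 (YClass W (C b)) = -YClass W (C (W.negY a b)) := by
    rw [YClass, YClass, map_sub, map_sub, map_sub, io_Y, io_C, negY, h1, h3]
    simp only [zero_mul, sub_zero, map_neg]
    ring
  rw [XYIdeal, XYIdeal, Ideal.map_span, Set.image_insert_eq, Set.image_singleton, e, XClass, io_C,
    Ideal.span_insert, Ideal.span_insert, Ideal.span_singleton_neg]

theorem dvd_of_dvd {a b : F[X]} (h : mk W (C a) ∣ mk W (C b)) : a ∣ b := by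
  obtain ⟨u, hu⟩ := h
  obtain ⟨p, q, rfl⟩ := exists_smul_basis_eq u
  have : (a * p - b) • (1 : W.CoordinateRing) + (a * q) • mk W X = 0 := by
    simp only [smul, map_sub, map_mul, mul_one] at hu ⊢
    rw [hu]; ring
  exact ⟨p, (sub_eq_zero.mp (smul_basis_eq_zero this).1).symm⟩

theorem exists_fun [DecidableEq F] (ha1 : W.a₁ = 0) (ha3 : W.a₃ = 0) {x1 y1 x2 y2 : F}
    (h1 : W.Nonsingular x1 y1) (h2 : W.Nonsingular x2 y2) (m : ℕ)
    (h : m • Point.some _ _ h1 + Point.some _ _ h2 = 0) :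
    ∃ (g c : F[X]) (l : F), l ≠ 0 ∧
      g ^ 2 - c ^ 2 * (X ^ 3 + C W.a₂ * X ^ 2 + C W.a₄ * X + C W.a₆) =
        C l * (X - C x1) ^ m * (X - C x2) ∧ g.eval x2 + c.eval x2 * y2 = 0 ∧
      ∀ y, W.Equation x1 y → y ≠ y1 → y ≠ y2 → g.eval x1 + c.eval x1 * y ≠ 0 := by
  have hc := congrArg Point.toClass h
  rw [map_add, map_nsmul, map_zero, Point.toClass_some, Point.toClass_some] at hc
  have hc' : ClassGroup.mk W.FunctionField (XYIdeal' (W := W) h1 ^ m * XYIdeal' (W := W) h2) = 1 := by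
    rw [map_mul, map_pow]
    exact hc
  obtain ⟨s, hs0, hs⟩ := (ClassGroup.mk_eq_one_of_coe_ideal
    (I' := XYIdeal W x1 (C y1) ^ m * XYIdeal W x2 (C y2)) (by
      rw [Units.val_mul, Units.val_pow_eq_pow_val, XYIdeal'_eq, XYIdeal'_eq,
        FractionalIdeal.coeIdeal_mul, FractionalIdeal.coeIdeal_pow])).mp hc'
  obtain ⟨g, c, rfl⟩ := exists_smul_basis_eq s
  have hev : ∀ {x y : F} (e : W.Equation x y),
      ev e (g • (1 : W.CoordinateRing) + c • mk W X) = g.eval x + c.eval x * y := by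
    intro x y e
    rw [smul, smul, map_add, map_mul, map_mul, ev_C, ev_C, ev_Y, map_one, mul_one]
  have hN : (g • (1 : W.CoordinateRing) + c • mk W X) *
      io ha1 ha3 (g • (1 : W.CoordinateRing) + c • mk W X) =
      mk W (C (g ^ 2 - c ^ 2 * (X ^ 3 + C W.a₂ * X ^ 2 + C W.a₄ * X + C W.a₆))) := by
    rw [smul, smul, map_add, map_mul, map_mul, io_C, io_C, io_Y, map_one, map_sub, map_sub,
      map_mul, map_mul, map_pow, map_pow, map_pow, map_pow, ← Y_sq ha1 ha3]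
    ring
  have hI : Ideal.span {mk W (C ((X - C x1) ^ m * (X - C x2)))} =
      Ideal.span {mk W (C (g ^ 2 - c ^ 2 * (X ^ 3 + C W.a₂ * X ^ 2 + C W.a₄ * X + C W.a₆)))} := by
    have e := congrArg (Ideal.map (io ha1 ha3)) hs
    rw [Ideal.map_mul, Ideal.map_pow, map_XY, map_XY, Ideal.map_span, Set.image_singleton] at e
    rw [← hN, ← Ideal.span_singleton_mul_span_singleton, ← e, ← hs, mul_mul_mul_comm, ← mul_pow,
      mul_comm (XYIdeal W x1 (C y1)), mul_comm (XYIdeal W x2 (C y2)), XYIdeal_neg_mul h1,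
      XYIdeal_neg_mul h2, XIdeal, XIdeal, Ideal.span_singleton_pow,
      Ideal.span_singleton_mul_span_singleton, XClass, XClass, map_mul, map_mul, map_pow, map_pow]
  have hA := Ideal.span_singleton_eq_span_singleton.mp hI
  obtain ⟨u, hu⟩ := associated_of_dvd_dvd (dvd_of_dvd hA.dvd) (dvd_of_dvd hA.symm.dvd)
  obtain ⟨l, hl, hlu⟩ := Polynomial.isUnit_iff.mp u.isUnit
  refine ⟨g, c, l, hl.ne_zero, ?_, ?_, ?_⟩
  · rw [← hu, ← hlu]; ring
  · rw [← hev h2.1, ← RingHom.mem_ker, ← Ideal.span_singleton_le_iff_mem, ← hs]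
    exact Ideal.mul_le_right.trans ((XY_le_ker_iff _ _ _).mpr ⟨rfl, rfl⟩)
  · intro y e hy1 hy2 h0
    rw [← hev e, ← RingHom.mem_ker, ← Ideal.span_singleton_le_iff_mem, ← hs] at h0
    have hP : (RingHom.ker (ev e)).IsPrime := RingHom.ker_isPrime _
    rcases hP.mul_le.mp h0 with h0 | h0
    · exact hy1 ((XY_le_ker_iff _ _ _).mp (hP.le_of_pow_le h0)).2
    · exact hy2 ((XY_le_ker_iff _ _ _).mp h0).2

theorem cubic_eq {f : ℤ[X]} (hf : Cubic0 f) :
    f = X ^ 3 + C (f.coeff 2) * X ^ 2 + C (f.coeff 1) * X + C (f.coeff 0) := by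
  have h3 : f.coeff 3 = 1 := by rw [← hf.2.1]; exact hf.1
  conv_lhs => rw [f.as_sum_range_C_mul_X_pow, hf.2.1]
  simp only [Finset.sum_range_succ, Finset.sum_range_zero, h3]
  simp
  ring

end Near

open Near in
theorem p_near (hTors : S_Tors) : S_Near := by
  intro r _ f hf w₀ hw n
  have hw0 : w₀ ≠ 0 := by
    intro h0
    rw [h0, zero_pow two_ne_zero] at hw
    exact hf.2.2.2 (by exact_mod_cast hw.symm)
  have h2w : (2 : ℚ_[r]) * w₀ ≠ 0 := mul_ne_zero two_ne_zero hw0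
  have hE : ∀ y : ℚ_[r], y ^ 2 = w₀ ^ 2 → (wc f ℚ_[r]).toAffine.Equation 0 y := by
    intro y hy
    rw [equation_iff]
    simp [wc, hy, hw]
  have h₁ : (wc f ℚ_[r]).toAffine.Nonsingular 0 w₀ := by
    rw [nonsingular_iff']
    refine ⟨hE _ rfl, Or.inr ?_⟩
    simpa [wc] using hw0
  have hr1 : (1 : ℝ) < r := by exact_mod_cast (Fact.out : r.Prime).one_lt
  obtain ⟨n1, hn1⟩ : ∃ n1 : ℕ, (r : ℝ) ^ (-(n1 : ℤ)) < ‖2 * w₀‖ := by
    obtain ⟨n1, h⟩ := exists_pow_lt_of_lt_one (norm_pos_iff.mpr h2w) (inv_lt_one_of_one_lt₀ hr1)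
    exact ⟨n1, by rwa [zpow_neg, zpow_natCast, ← inv_pow]⟩
  obtain ⟨k, xQ, yQ, hQ, hk, hP, hx, hy⟩ := hTors r f hf w₀ h₁ (n + n1)
  have m1 : (r : ℝ) ^ (-((n + n1 : ℕ) : ℤ)) ≤ (r : ℝ) ^ (-(n : ℤ)) :=
    zpow_le_zpow_right₀ hr1.le (by omega)
  have m2 : (r : ℝ) ^ (-((n + n1 : ℕ) : ℤ)) ≤ (r : ℝ) ^ (-(n1 : ℤ)) :=
    zpow_le_zpow_right₀ hr1.le (by omega)
  obtain ⟨g, c, l, hl, hN, hQ0, hne⟩ := exists_fun (W := (wc f ℚ_[r]).toAffine) rfl rfl h₁ hQ _ hP
  have hfm : f.map (Int.castRingHom ℚ_[r]) = X ^ 3 + C (wc f ℚ_[r]).toAffine.a₂ * X ^ 2 +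
      C (wc f ℚ_[r]).toAffine.a₄ * X + C (wc f ℚ_[r]).toAffine.a₆ := by
    conv_lhs => rw [cubic_eq hf]
    simp only [Polynomial.map_add, Polynomial.map_mul, Polynomial.map_pow, map_X, map_C]
    rfl
  refine ⟨k, g, c, xQ, yQ, l, hk, hl, ?_, ?_, hQ0, ?_, hx.trans m1, hy.trans m1⟩
  · rw [hfm, hN, map_zero, sub_zero]
  · have := hne (-w₀) (hE _ (neg_sq _)) (fun h => h2w (by linear_combination -h)) (fun h => by
      have : ‖2 * w₀‖ = ‖yQ - w₀‖ := by
        rw [← h, ← norm_neg]; congr 1; ring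
      linarith)
    rw [coeff_zero_eq_eval_zero, coeff_zero_eq_eval_zero]
    intro h0
    exact this (by linear_combination h0)
  · have e := (equation_iff _ _).mp hQ.1
    rw [aeval_def, eval₂_eq_eval_map, algebraMap_int_eq, hfm]
    simp only [eval_add, eval_mul, eval_pow, eval_X, eval_C]
    rw [← e]
    simp [wc]

end Pool.Agent.P.MP_b8021b_nt.VE
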