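import Pool.Agent.P.MP_b8021b_nt.VE.StN

/-! N31: the choice of the parameters at two scales. -/

namespace Pool.Agent.P.MP_b8021b_nt.VE

open Polynomial Finset

namespace NtP

lemma ex_tau (p : Par) : ∃ τ0 : ℝ, p.Tau τ0 := by
  obtain ⟨hm, hd, -, -⟩ := p.hf
  have h3 : p.f.coeff 3 = 1 := by
    have := hm.coeff_natDegree
    rwa [hd] at this
  set a0 : ℝ := (p.f.coeff 0 : ℝ)
  set a1 : ℝ := (p.f.coeff 1 : ℝ)
  set a2 : ℝ := (p.f.coeff 2 : ℝ)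
  have hev : ∀ a : ℝ, aeval a p.f = a ^ 3 + a2 * a ^ 2 + a1 * a + a0 := by
    intro a
    rw [aeval_eq_sum_range, hd]
    simp only [sum_range_succ, range_zero, sum_empty, h3, zsmul_eq_mul, a0, a1, a2]
    push_cast
    ring
  have h0 := abs_nonneg a0
  have h1 := abs_nonneg a1
  have h2 := abs_nonneg a2
  refine ⟨-(|a0| + |a1| + |a2|) - 3, by linarith, fun a ha => ?_⟩
  rw [hev]
  obtain ⟨b, rfl⟩ : ∃ b, a = -b := ⟨-a, by ring⟩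
  have hb : |a0| + |a1| + |a2| + 2 ≤ b := by linarith
  have hb1 : 1 ≤ b := by linarith
  have hb2 : b ≤ b ^ 2 := by nlinarith
  have hb3 : 1 ≤ b ^ 2 := by linarith
  have e0 : a0 ≤ |a0| * b ^ 2 := (le_abs_self a0).trans (le_mul_of_one_le_right h0 hb3)
  have e1 : a1 * -b ≤ |a1| * b ^ 2 := by
    have : a1 * -b ≤ |a1| * b := by
      have := neg_abs_le a1
      nlinarith
    exact this.trans (mul_le_mul_of_nonneg_left hb2 h1)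
  have e2 : a2 * (-b) ^ 2 ≤ |a2| * b ^ 2 := by
    rw [neg_sq]
    exact mul_le_mul_of_nonneg_right (le_abs_self a2) (sq_nonneg b)
  have e3 : (|a0| + |a1| + |a2| + 2) * b ^ 2 ≤ b * b ^ 2 :=
    mul_le_mul_of_nonneg_right hb (sq_nonneg b)
  nlinarith

/-- all the properties hold for large `y` -/
lemma fine_ev (hIndT : S_IndT) (hIndS : S_IndS) (F : Fix) (Nc : ℕ) [NeZero Nc] (ε C : ℝ)
    (hε : 0 < ε) (hA : 1 ≤ F.A) (hC : C * F.η ≤ 1 / 3)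
    (hFl : F.Ev fun c => ∀ s ∈ Sset F.p c.S0 c.L, ∀ a ∈ Set.Icc F.τ0 (F.τ0 + c.η),
      |(F.p.FR s).eval a / ((F.p.r : ℝ) ^ F.p.n0 * c.S0 * F.τ0 ^ F.p.k) ^ 2 - 1| ≤ C * c.η)
    (hM : F.Ev fun c => ∃ μ, Mix (base F.p c.y c.N) (sideT F.p c) (sideS F.p c.y c.N c.S0 c.L)
      F.u μ ε ∧ ∀ t s x, μ t s x ≠ 0 → F.p.Good t.1 s.1 fun i => (x i).1) :
    F.Ev fun c => Fine F.p c F.u Nc ε := by
  obtain ⟨y1, h1⟩ := hIndT F Nc ε hA hε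
  obtain ⟨y2, h2⟩ := hIndS F ε hε
  obtain ⟨y3, h3⟩ := hFl
  obtain ⟨y4, h4⟩ := hM
  refine ⟨max (max (max y1 y2) (max y3 y4)) 1, fun c hc hin => ?_⟩
  simp only [max_le_iff] at hc
  obtain ⟨⟨⟨c1, c2⟩, c3, c4⟩, c5⟩ := hc
  obtain ⟨hb, hT, hbox, hadm⟩ := h1 c c1 hin
  have hS := h2 c c2 hin
  have hF := h3 c c3 hin
  obtain ⟨μ, hμ, hg⟩ := h4 c c4 hin
  have hS0 : (0 : ℝ) < c.S0 := lt_of_lt_of_le (by positivity) hin.S_ge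
  have hr : (0 : ℝ) < F.p.r := by exact_mod_cast F.p.hr.pos
  have hτ : F.τ0 ≠ 0 := by
    have := F.tau.1
    intro h
    rw [h] at this
    linarith
  have hM : 0 < ((F.p.r : ℝ) ^ F.p.n0 * c.S0 * F.τ0 ^ F.p.k) ^ 2 := by positivity
  set M := ((F.p.r : ℝ) ^ F.p.n0 * c.S0 * F.τ0 ^ F.p.k) ^ 2
  have key : ∀ s ∈ Sset F.p c.S0 c.L, ∀ a ∈ Set.Icc c.τ0 (c.τ0 + c.η),
      2 / 3 * M ≤ (F.p.FR s).eval a ∧ (F.p.FR s).eval a ≤ 4 / 3 * M := by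
    intro s hs a ha
    rw [hin.τ0] at ha
    have h := hF s hs a ha
    rw [hin.η] at h
    obtain ⟨l1, l2⟩ := abs_le.mp (h.trans hC)
    constructor
    · rw [← le_div_iff₀ hM]; linarith
    · rw [← div_le_iff₀ hM]; linarith
  refine ⟨by linarith, hbox, hadm, fun s hs a ha => ?_, fun s hs a ha a' ha' => ?_,
    μ, ⟨hb, hT, hS, hμ⟩, hg⟩
  · have := (key s hs a ha).1
    linarith
  · have := (key s hs a ha).2
    have := (key s hs a' ha').1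
    linarith

/-- the choice of `B` -/
lemma ex_B (k m s : ℕ) (hk : 5 ≤ k) (hm : 10 * k ≤ m) (hm' : m ≤ 10 * k + 1) (K G : ℝ)
    (hK : 0 < K) (hG : G ≠ 0) : ∃ y₀ : ℝ, ∀ y, y₀ ≤ y → ∀ S : ℝ, y ^ s ≤ S → S ≤ 2 * y ^ s →
      ∃ B : ℝ, y ^ 4 ≤ B ∧ B ≤ y ^ 6 ∧ B ^ (2 * k) * (G * S) ^ 2 = K * y ^ (m + 2 * s) := by
  have hG2 : 0 < G ^ 2 := by positivity
  refine ⟨max 1 (max (K / G ^ 2) (4 * G ^ 2 / K)), fun y hy S hS hS' => ?_⟩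
  simp only [max_le_iff] at hy
  obtain ⟨hy1, hy2, hy3⟩ := hy
  have hy0 : 0 < y := by linarith
  have hys : 0 < y ^ s := by positivity
  have hS0 : 0 < S := by linarith
  have hGS : 0 < (G * S) ^ 2 := by positivity
  set R := K * y ^ (m + 2 * s) / (G * S) ^ 2 with hR
  have hR0 : 0 < R := by positivity
  have h2k : 2 * k ≠ 0 := by omega
  have hB : (R ^ (((2 * k : ℕ) : ℝ)⁻¹)) ^ (2 * k) = R := Real.rpow_inv_natCast_pow hR0.le h2k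
  have hB0 : 0 ≤ R ^ (((2 * k : ℕ) : ℝ)⁻¹) := Real.rpow_nonneg hR0.le _
  have hyK : K ≤ y * G ^ 2 := by rwa [div_le_iff₀ hG2] at hy2
  have hyG : 4 * G ^ 2 ≤ y * K := by rwa [div_le_iff₀ hK] at hy3
  refine ⟨R ^ (((2 * k : ℕ) : ℝ)⁻¹), ?_, ?_, ?_⟩
  · refine le_of_pow_le_pow_left₀ h2k hB0 ?_
    rw [hB, hR, le_div_iff₀ hGS, ← pow_mul]
    have a1 : S ^ 2 ≤ 4 * y ^ (2 * s) := by
      have : S ^ 2 ≤ (2 * y ^ s) ^ 2 := pow_le_pow_left₀ hS0.le hS' 2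
      calc S ^ 2 ≤ (2 * y ^ s) ^ 2 := this
        _ = 4 * y ^ (2 * s) := by ring
    have a2 : y ^ (4 * (2 * k)) * y ≤ y ^ m := by
      rw [← pow_succ]
      exact pow_le_pow_right₀ hy1 (by omega)
    have a3 : 0 < y ^ (4 * (2 * k)) := by positivity
    have a4 : 0 < y ^ (2 * s) := by positivity
    calc y ^ (4 * (2 * k)) * (G * S) ^ 2 = y ^ (4 * (2 * k)) * (G ^ 2 * S ^ 2) := by ring
      _ ≤ y ^ (4 * (2 * k)) * (G ^ 2 * (4 * y ^ (2 * s))) := by gcongr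
      _ = y ^ (4 * (2 * k)) * (4 * G ^ 2) * y ^ (2 * s) := by ring
      _ ≤ y ^ (4 * (2 * k)) * (y * K) * y ^ (2 * s) := by gcongr
      _ = K * (y ^ (4 * (2 * k)) * y * y ^ (2 * s)) := by ring
      _ ≤ K * (y ^ m * y ^ (2 * s)) := by gcongr
      _ = K * y ^ (m + 2 * s) := by rw [pow_add]
  · refine le_of_pow_le_pow_left₀ h2k (by positivity) ?_
    rw [hB, hR, div_le_iff₀ hGS, ← pow_mul]
    have a1 : y ^ (2 * s) ≤ S ^ 2 := by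
      have : (y ^ s) ^ 2 ≤ S ^ 2 := pow_le_pow_left₀ hys.le hS 2
      calc y ^ (2 * s) = (y ^ s) ^ 2 := by ring
        _ ≤ S ^ 2 := this
    have a2 : y ^ m * y ≤ y ^ (6 * (2 * k)) := by
      rw [← pow_succ]
      exact pow_le_pow_right₀ hy1 (by omega)
    have a3 : 0 < y ^ m := by positivity
    have a4 : 0 < y ^ (2 * s) := by positivity
    calc K * y ^ (m + 2 * s) = K * (y ^ m * y ^ (2 * s)) := by rw [pow_add]
      _ ≤ y * G ^ 2 * (y ^ m * S ^ 2) := by gcongr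
      _ = y ^ m * y * (G * S) ^ 2 := by ring
      _ ≤ y ^ (6 * (2 * k)) * (G * S) ^ 2 := by gcongr
  · rw [hB, hR, div_mul_cancel₀ _ hGS.ne']

/-- the choice of all parameters, for one scale -/
lemma ex_in (F : Fix) (m s : ℕ) (hs : 200 ≤ s) (hm : 10 * F.p.k ≤ m) (hm' : m ≤ 10 * F.p.k + 1)
    (hu : F.u + 2 = m + 2 * s) : ∃ y₀ : ℝ, ∀ y, y₀ ≤ y → ∃ B : ℝ,
      F.In ⟨y, ⌈Real.log y ^ (6 * F.A)⌉₊, F.τ0, F.η, B, F.z, ⌈y ^ s⌉₊, ⌊F.η * ⌈y ^ s⌉₊⌋₊⟩ := by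
  have hr : (0 : ℝ) < F.p.r := by exact_mod_cast F.p.hr.pos
  have hτ : F.τ0 ≠ 0 := by
    have := F.tau.1
    intro h
    rw [h] at this
    linarith
  obtain ⟨y1, h1⟩ := ex_B F.p.k m s F.p.hk hm hm'
    ((F.p.r : ℝ) ^ F.p.e * Real.exp ((F.u + 2) / 2)) ((F.p.r : ℝ) ^ F.p.n0 * F.τ0 ^ F.p.k)
    (by positivity) (by positivity)
  have hη := F.ηpos
  refine ⟨max y1 (max (Real.exp 1) (2 / F.η)), fun y hy => ?_⟩
  simp only [max_le_iff] at hy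
  obtain ⟨hy1, hy2, hy3⟩ := hy
  have he : 1 ≤ Real.exp 1 := Real.one_le_exp zero_le_one
  have hy : 1 ≤ y := he.trans hy2
  have hl : 1 ≤ Real.log y := by
    rw [Real.le_log_iff_exp_le (by linarith)]
    exact hy2
  have hl' : 1 ≤ Real.log y ^ (6 * F.A) := one_le_pow₀ hl
  have hys : 1 ≤ y ^ s := one_le_pow₀ hy
  have hS1 : y ^ s ≤ (⌈y ^ s⌉₊ : ℝ) := Nat.le_ceil _
  have hS2 : (⌈y ^ s⌉₊ : ℝ) ≤ 2 * y ^ s := by
    have := Nat.ceil_lt_add_one (show 0 ≤ y ^ s by positivity)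
    linarith
  obtain ⟨B, hB1, hB2, hB3⟩ := h1 y hy1 _ hS1 hS2
  have hyy : y ≤ y ^ s := le_self_pow₀ hy (by omega)
  have hL : 2 ≤ F.η * (⌈y ^ s⌉₊ : ℝ) := by
    rw [div_le_iff₀ hη] at hy3
    have : y * F.η ≤ (⌈y ^ s⌉₊ : ℝ) * F.η := mul_le_mul_of_nonneg_right (hyy.trans hS1) hη.le
    linarith
  refine ⟨B, rfl, rfl, rfl, Nat.le_ceil _, ?_, hB1, hB2, ?_, ?_, ?_, ?_⟩
  · have := Nat.ceil_lt_add_one (show 0 ≤ Real.log y ^ (6 * F.A) by linarith)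
    show ((⌈Real.log y ^ (6 * F.A)⌉₊ : ℕ) : ℝ) ≤ 2 * Real.log y ^ (6 * F.A)
    linarith
  · exact (pow_le_pow_right₀ hy hs).trans hS1
  · have := Nat.lt_floor_add_one (F.η * (⌈y ^ s⌉₊ : ℝ))
    show F.η * (⌈y ^ s⌉₊ : ℝ) / 2 ≤ ((⌊F.η * (⌈y ^ s⌉₊ : ℝ)⌋₊ : ℕ) : ℝ)
    linarith
  · exact Nat.floor_le (by linarith)
  · show B ^ (2 * F.p.k) * ((F.p.r : ℝ) ^ F.p.n0 * (⌈y ^ s⌉₊ : ℝ) * F.τ0 ^ F.p.k) ^ 2 =
      (F.p.r : ℝ) ^ F.p.e * y ^ (F.u + 2) * Real.exp ((F.u + 2) / 2)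
    rw [hu]
    linear_combination hB3

end NtP

open NtP in
theorem p_nt (hIndT : S_IndT) (hIndS : S_IndS) (hFlat : S_Flat) (hMix : S_Mix) : S_NT := by
  intro p
  obtain ⟨τ0, hτ⟩ := ex_tau p
  obtain ⟨u₀, hu₀⟩ := hMix p τ0
  obtain ⟨C, hC1, hC⟩ := hFlat p τ0
  have hk := p.hk
  obtain ⟨s, hs⟩ : ∃ s, s = u₀ + 200 := ⟨_, rfl⟩
  obtain ⟨u, hu⟩ : ∃ u, u + 2 = 10 * p.k + 2 * s := ⟨10 * p.k + 2 * s - 2, by omega⟩
  refine ⟨u, by omega, fun Nc _ ε hε => ?_⟩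
  obtain ⟨η1, z1, hη1, h1⟩ := hu₀ u (by omega) ε hε
  obtain ⟨η2, z2, hη2, h2⟩ := hu₀ (u + 1) (by omega) ε hε
  have hC0 : 0 < C := by linarith
  set η := min (min η1 η2) (1 / (3 * C)) with hη
  have hη0 : 0 < η := lt_min (lt_min hη1 hη2) (by positivity)
  have hηC : C * η ≤ 1 / 3 := by
    have : η ≤ 1 / (3 * C) := min_le_right _ _
    rw [le_div_iff₀ (by positivity)] at this
    linarith
  have hη1' : η ≤ 1 := by nlinarith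
  have e1 : η ≤ η1 := (min_le_left _ _).trans (min_le_left _ _)
  have e2 : η ≤ η2 := (min_le_left _ _).trans (min_le_right _ _)
  let F1 : Fix := ⟨p, τ0, hτ, u, 2 * u + 10, η, hη0, hη1', max z1 z2⟩
  let F2 : Fix := ⟨p, τ0, hτ, u + 1, 2 * u + 10, η, hη0, hη1', max z1 z2⟩
  have fl : ∀ F : Fix, F.p = p → F.τ0 = τ0 →
      F.Ev fun c => ∀ s ∈ Sset F.p c.S0 c.L, ∀ a ∈ Set.Icc F.τ0 (F.τ0 + c.η),
      |(F.p.FR s).eval a / ((F.p.r : ℝ) ^ F.p.n0 * c.S0 * F.τ0 ^ F.p.k) ^ 2 - 1| ≤ C * c.η := by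
    intro F a b
    obtain ⟨y, hy⟩ := hC F a b
    subst a b
    exact ⟨y, fun c hc hin => (hy c hc hin).1⟩
  obtain ⟨y1, g1⟩ := fine_ev hIndT hIndS F1 Nc ε C hε (show 1 ≤ 2 * u + 10 by omega) hηC
    (fl F1 rfl rfl) (h1 F1 rfl rfl rfl e1 (le_max_left _ _) (show 2 * u + 8 ≤ 2 * u + 10 by omega))
  obtain ⟨y2, g2⟩ := fine_ev hIndT hIndS F2 Nc ε C hε (show 1 ≤ 2 * u + 10 by omega) hηC
    (fl F2 rfl rfl)
    (h2 F2 rfl rfl rfl e2 (le_max_right _ _) (show 2 * (u + 1) + 8 ≤ 2 * u + 10 by omega))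
  have s200 : 200 ≤ s := by omega
  have k1 : 10 * p.k ≤ 10 * p.k := le_rfl
  have k2 : 10 * p.k ≤ 10 * p.k + 1 := by omega
  have k3 : 10 * p.k + 1 ≤ 10 * p.k + 1 := le_rfl
  have k4 : u + 1 + 2 = 10 * p.k + 1 + 2 * s := by omega
  obtain ⟨y3, g3⟩ := ex_in F1 (10 * p.k) s s200 k1 k2 hu
  obtain ⟨y4, g4⟩ := ex_in F2 (10 * p.k + 1) s s200 k2 k3 k4
  set y := max (max y1 y2) (max y3 y4)
  have b1 : y1 ≤ y := (le_max_left _ _).trans (le_max_left _ _)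
  have b2 : y2 ≤ y := (le_max_right _ _).trans (le_max_left _ _)
  have b3 : y3 ≤ y := (le_max_left _ _).trans (le_max_right _ _)
  have b4 : y4 ≤ y := (le_max_right _ _).trans (le_max_right _ _)
  obtain ⟨B, hB⟩ := g3 y b3
  obtain ⟨B', hB'⟩ := g4 y b4
  exact ⟨_, B', g1 _ b1 hB, g2 _ b2 hB'⟩

end Pool.Agent.P.MP_b8021b_nt.VE
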