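import Pool.Agent.P.MP_b8021b_nt.VE.POmP1
import Pool.Agent.P.MP_b8021b_nt.VE.POmP2

/-! The package `omP`: the weight of the fibres of the evaluation map. -/

namespace Pool.Agent.P.MP_b8021b_nt.VE

open Polynomial Finset NumberField
open scoped Classical

namespace OmP

lemma dec (hIQb : S_IQb) {L : Type} [Field L] [NumberField L] (K : IQ L) (m : ℤ) (B : ℝ)
    (hB : B ^ 4 ≤ -(K.D : ℝ)) (δ : 𝓞 L) (hδ : δ ∈ Ideal.span {((2 * m * K.D : ℤ) : 𝓞 L)}) :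
    ∃ x y : ℤ, δ = ((m * x : ℤ) : 𝓞 L) + ((m * y : ℤ) : 𝓞 L) * K.ω ∧
      |((m * x : ℤ) : ℝ)| ≤ ‖K.σ δ‖ ∧ |((m * y : ℤ) : ℝ)| * B ^ 2 ≤ ‖K.σ δ‖ := by
  obtain ⟨h1, -, -, h4, -⟩ := hIQb L K
  obtain ⟨β, hβ⟩ := Ideal.mem_span_singleton'.mp hδ
  obtain ⟨x, y, hxy⟩ := h1 β
  have e : δ = ((m * x : ℤ) : 𝓞 L) + ((m * y : ℤ) : 𝓞 L) * K.ω := by
    rw [← hβ]
    push_cast
    linear_combination (m : 𝓞 L) * hxy
  have h5 := h4 (m * x) (m * y)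
  rw [← e] at h5
  have hD : 0 ≤ -(K.D : ℝ) := le_trans (by positivity) hB
  refine ⟨x, y, e, ?_, ?_⟩
  · refine abs_le_of_sq_le_sq' ?_ (norm_nonneg _) |> fun h => abs_le.mpr h
    rw [h5]
    nlinarith [mul_nonneg (sq_nonneg ((m * y : ℤ) : ℝ)) hD]
  · refine (abs_le_of_sq_le_sq' ?_ (norm_nonneg _)).2
    rw [h5, mul_pow, sq_abs, ← pow_mul]
    have k1 := mul_le_mul_of_nonneg_left hB (sq_nonneg ((m * y : ℤ) : ℝ))
    have k2 := sq_nonneg ((m * x : ℤ) : ℝ)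
    rw [show 2 * 2 = 4 from rfl]
    linarith

lemma div_pow_le (z N B b : ℝ) (d e k : ℕ) (hk : d + e = k) (hB : 0 < B) (hb : B ≤ b)
    (h : |z| * B ^ e ≤ N) : |z| / b ^ d ≤ N / B ^ k := by
  subst hk
  have h1 : |z| / b ^ d ≤ |z| / B ^ d :=
    div_le_div_of_nonneg_left (abs_nonneg z) (pow_pos hB d) (pow_le_pow_left₀ hB.le hb d)
  refine h1.trans ?_
  rw [div_le_div_iff₀ (pow_pos hB _) (pow_pos hB _), pow_add]
  nlinarith [mul_le_mul_of_nonneg_right h (pow_pos hB d).le]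

lemma abs_low (ρ a w : ℤ) (B : ℝ) (hρ : 1 ≤ ρ) (hB : 0 ≤ B) (ha : B ≤ |(a : ℝ)|) :
    |(w : ℝ)| * B ≤ |((ρ * a * w : ℤ) : ℝ)| := by
  push_cast
  rw [abs_mul, abs_mul]
  have h1 : (1 : ℝ) ≤ |(ρ : ℝ)| := le_trans (by exact_mod_cast hρ) (le_abs_self _)
  have h2 : B ≤ |(ρ : ℝ)| * |(a : ℝ)| := by nlinarith
  nlinarith [abs_nonneg (w : ℝ)]

/-- lifting a pair of differences to a small vector -/
lemma liftK (hIQb : S_IQb) (p : Par) (t t' : ℤ × ℤ) {L L' : Type} [Field L] [NumberField L]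
    [Field L'] [NumberField L'] (K : IQ L) (K' : IQ L') (T B ζ : ℝ) (hB : 1 ≤ B) (hT : 1 ≤ T)
    (b1 : B ≤ t.2) (b2 : t.2 ≤ 2 * B) (b1' : B ≤ t'.2) (b2' : t'.2 ≤ 2 * B)
    (a1 : B ≤ |(t.1 : ℝ)|) (a1' : B ≤ |(t'.1 : ℝ)|) (hτ : |(t.1 : ℝ) / t.2| ≤ T)
    (hτ' : |(t'.1 : ℝ) / t'.2| ≤ T) (hD : B ^ 4 ≤ -(K.D : ℝ)) (hD' : B ^ 4 ≤ -(K'.D : ℝ))
    (hc : IsCoprime t.1 t.2) (hc' : IsCoprime t'.1 t'.2) (hζ : 0 < ζ) (hζ1 : ζ ≤ 1)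
    (hζτ : ζ ≤ |(t.1 : ℝ) / t.2 - (t'.1 : ℝ) / t'.2|) (δ : 𝓞 L) (δ' : 𝓞 L')
    (hδ : δ ∈ Ideal.span {((2 * (p.r : ℤ) ^ p.n0 * t.1 * dl t t' * K.D : ℤ) : 𝓞 L)})
    (hδ' : δ' ∈ Ideal.span {((2 * (p.r : ℤ) ^ p.n0 * t'.1 * dl t t' * K'.D : ℤ) : 𝓞 L')}) :
    ∃ v : p.Co, (∀ s, K.al p t (s + v) = K.al p t s + δ) ∧
      (∀ s, K'.al p t' (s + v) = K'.al p t' s + δ') ∧
      ∀ j, |(v j : ℝ)| ≤
        (1 + T) * ((‖K.σ δ‖ + ‖K'.σ δ'‖) / B ^ p.k + 8 * p.k * B ^ 2 * T ^ p.k) / ζ := by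
  have hk := p.hk
  have hρ : (1 : ℤ) ≤ (p.r : ℤ) ^ p.n0 := one_le_pow₀ (by exact_mod_cast p.hr.one_lt.le)
  set ρ : ℤ := (p.r : ℤ) ^ p.n0 with hρdef
  have hB0 : 0 < B := by linarith
  have hb : 0 < t.2 := by
    have : (0 : ℝ) < t.2 := by linarith
    exact_mod_cast this
  have hb' : 0 < t'.2 := by
    have : (0 : ℝ) < t'.2 := by linarith
    exact_mod_cast this
  rw [show 2 * ρ * t.1 * dl t t' * K.D = 2 * (ρ * t.1 * dl t t') * K.D by ring] at hδ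
  rw [show 2 * ρ * t'.1 * dl t t' * K'.D = 2 * (ρ * t'.1 * dl t t') * K'.D by ring] at hδ'
  obtain ⟨x, y, e, hx, hy⟩ := dec hIQb K _ B hD δ hδ
  obtain ⟨x', y', e', hx', hy'⟩ := dec hIQb K' _ B hD' δ' hδ'
  have hW : (t.2 : ℝ) * t'.2 ≤ 4 * B ^ 2 :=
    (mul_le_mul b2 b2' (by linarith) (by linarith)).trans (le_of_eq (by ring))
  have hdl : dl t t' = t.1 * t'.2 - t'.1 * t.2 := rfl
  have g1 : |((t.1 * t'.2 - t'.1 * t.2 : ℤ) : ℝ) * x| * B ^ 1 ≤ ‖K.σ δ‖ := by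
    have := abs_low ρ t.1 (dl t t' * x) B hρ hB0.le a1
    rw [← mul_assoc] at this
    rw [pow_one, ← hdl, ← Int.cast_mul]
    exact this.trans hx
  have g2 : |((t.1 * t'.2 - t'.1 * t.2 : ℤ) : ℝ) * x'| * B ^ 1 ≤ ‖K'.σ δ'‖ := by
    have := abs_low ρ t'.1 (dl t t' * x') B hρ hB0.le a1'
    rw [← mul_assoc] at this
    rw [pow_one, ← hdl, ← Int.cast_mul]
    exact this.trans hx'
  have g3 : |((t.1 * t'.2 - t'.1 * t.2 : ℤ) : ℝ) * y| * B ^ 3 ≤ ‖K.σ δ‖ := by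
    have := abs_low ρ t.1 (dl t t' * y) B hρ hB0.le a1
    rw [← mul_assoc] at this
    rw [← hdl, ← Int.cast_mul, pow_succ', ← mul_assoc]
    exact (mul_le_mul_of_nonneg_right this (by positivity)).trans hy
  have g4 : |((t.1 * t'.2 - t'.1 * t.2 : ℤ) : ℝ) * y'| * B ^ 3 ≤ ‖K'.σ δ'‖ := by
    have := abs_low ρ t'.1 (dl t t' * y') B hρ hB0.le a1'
    rw [← mul_assoc] at this
    rw [← hdl, ← Int.cast_mul, pow_succ', ← mul_assoc]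
    exact (mul_le_mul_of_nonneg_right this (by positivity)).trans hy'
  obtain ⟨P, P1, P2, P3⟩ := lift1 (p.k - 1) (by omega) t.1 t.2 t'.1 t'.2 x x' hc hc' hb hb' T ζ
    (4 * B ^ 2) ((‖K.σ δ‖ + ‖K'.σ δ'‖) / B ^ p.k) hT hτ hτ' hζ hζ1 hζτ hW (by
      rw [add_div]
      exact add_le_add (div_pow_le _ _ B _ _ 1 _ (by omega) hB0 b1 g1)
        (div_pow_le _ _ B _ _ 1 _ (by omega) hB0 b1' g2))
  obtain ⟨Q, Q1, Q2, Q3⟩ := lift1 (p.k - 2 - 1) (by omega) t.1 t.2 t'.1 t'.2 y y' hc hc' hb hb' T ζ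
    (4 * B ^ 2) ((‖K.σ δ‖ + ‖K'.σ δ'‖) / B ^ p.k) hT hτ hτ' hζ hζ1 hζτ hW (by
      rw [add_div]
      exact add_le_add (div_pow_le _ _ B _ _ 3 _ (by omega) hB0 b1 g3)
        (div_pow_le _ _ B _ _ 3 _ (by omega) hB0 b1' g4))
  have mono : ∀ d : ℕ, d + 1 ≤ p.k →
      (1 + T) * ((‖K.σ δ‖ + ‖K'.σ δ'‖) / B ^ p.k + 2 * ((d + 1) * (4 * B ^ 2) * T ^ d)) / ζ ≤
      (1 + T) * ((‖K.σ δ‖ + ‖K'.σ δ'‖) / B ^ p.k + 8 * p.k * B ^ 2 * T ^ p.k) / ζ := by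
    intro d hd
    refine div_le_div_of_nonneg_right (mul_le_mul_of_nonneg_left ?_ (by linarith)) hζ.le
    have h1 : (d : ℝ) + 1 ≤ p.k := by exact_mod_cast hd
    have h2 : T ^ d ≤ T ^ p.k := pow_le_pow_right₀ hT (by omega)
    have h3 : ((d : ℝ) + 1) * T ^ d ≤ p.k * T ^ p.k :=
      mul_le_mul h1 h2 (by positivity) (by positivity)
    have h4 := mul_le_mul_of_nonneg_left h3 (sq_nonneg B)
    linarith
  refine ⟨Sum.elim (fun i => P.coeff i.1) fun i => Q.coeff i.1, fun s => ?_, fun s => ?_, ?_⟩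
  · rw [al_add, e]
    simp only [lg, lc, Sum.elim_inl, Sum.elim_inr]
    rw [sum_shift _ (by omega), sum_shift _ (by omega), P1, Q1, ← hρdef, hdl]
    push_cast
    ring
  · rw [al_add, e']
    simp only [lg, lc, Sum.elim_inl, Sum.elim_inr]
    rw [sum_shift _ (by omega), sum_shift _ (by omega), P2, Q2, ← hρdef, hdl]
    push_cast
    ring
  · rintro (i | i)
    · exact (P3 i.1).trans (mono _ (by omega))
    · exact (Q3 i.1).trans (mono _ (by omega))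

lemma cv_pos {L : Type} [Field L] [NumberField L] (𝔟 : Ideal (𝓞 L)) (n : ℕ) (hn : 1 ≤ n)
    (h : (n : 𝓞 L) ∈ 𝔟) : 0 < (Ideal.absNorm 𝔟 : ℝ) * cov L := by
  have h1 : 𝔟 ≠ ⊥ := fun h0 => by
    rw [h0, Ideal.mem_bot] at h
    have : n = 0 := by exact_mod_cast h
    omega
  have h2 : Ideal.absNorm 𝔟 ≠ 0 := fun h0 => h1 (Ideal.absNorm_eq_zero_iff.mp h0)
  have h3 : (discr L : ℝ) ≠ 0 := by exact_mod_cast discr_ne_zero L
  have h4 : 0 < cov L := by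
    unfold cov
    have := Real.sqrt_pos.mpr (abs_pos.mpr h3)
    positivity
  have h5 : (0 : ℝ) < Ideal.absNorm 𝔟 := by exact_mod_cast Nat.pos_of_ne_zero h2
  positivity

/-- small elements of an ideal -/
lemma small (hShell : S_Shell) : ∃ C : ℝ, 1 ≤ C ∧ ∀ (L : Type) [Field L] [NumberField L] (K : IQ L)
    (𝔟 : Ideal (𝓞 L)) (n : ℕ) (ϱ : ℝ), 1 ≤ n → (n : 𝓞 L) ∈ 𝔟 →
    4 * (n * (1 + √|(K.D : ℝ)|)) ≤ ϱ → ∃ T : Finset (𝓞 L), (∀ α ∈ T, α ∈ 𝔟 ∧ ‖K.σ α‖ ≤ ϱ) ∧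
      ϱ ^ 2 / (C * (Ideal.absNorm 𝔟 * cov L)) ≤ T.card := by
  obtain ⟨C, hC, h⟩ := hShell 0
  refine ⟨C, hC, fun L _ _ K 𝔟 n ϱ hn hb hϱ => ?_⟩
  obtain ⟨hf, h2⟩ := (h L K 𝔟 n 0 _ hn hb le_rfl).2.1 0 ϱ
  have hf' : {α : 𝓞 L | α - 0 ∈ 𝔟 ∧ ‖K.σ α - 0‖ ≤ ϱ}.Finite := hf.subset fun α hα => hα.2
  refine ⟨hf'.toFinset, fun α hα => ?_, ?_⟩
  · simpa using hα
  · rw [← Set.ncard_eq_toFinset_card _ hf']
    exact (h2 hϱ).1

end OmP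

open OmP in
theorem p_omP (hIQb : S_IQb) (hSEq : S_SEq) (hFlat : S_Flat) (hShell : S_Shell) : S_Om := by
  intro F
  obtain ⟨CF, hCF, hF⟩ := hFlat F.p F.τ0
  obtain ⟨y₁, hy₁⟩ := hF F rfl rfl
  obtain ⟨CS, hCS, hS⟩ := two_scales hSEq F.p
  obtain ⟨CH, hCH, hH⟩ := small hShell
  have hτ0 := F.tau.1
  have hη := F.ηpos
  have hη1 := F.ηle
  obtain ⟨T, hT⟩ : ∃ T : ℝ, T = -F.τ0 := ⟨_, rfl⟩
  have hT1 : 1 ≤ T := by linarith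
  obtain ⟨m, hm⟩ : ∃ m : ℕ, m = Fintype.card F.p.Ix := ⟨_, rfl⟩
  obtain ⟨E, hE⟩ : ∃ E : ℝ, E = (1 + T) * (8 * F.p.k * T ^ F.p.k) := ⟨_, rfl⟩
  have hE0 : 0 ≤ E := by rw [hE]; positivity
  obtain ⟨C₁, hC₁⟩ : ∃ C₁ : ℝ, C₁ = 4 * 8 ^ m * CH ^ 2 * (4 * (1 + T)) ^ 4 := ⟨_, rfl⟩
  have hC₁0 : 0 ≤ C₁ := by rw [hC₁]; positivity
  obtain ⟨Kc, hKc⟩ : ∃ Kc : ℝ, Kc = 2 * CS + 32 * CF * (1 + T) + 2 * E + 2 * m * E + 1 := ⟨_, rfl⟩
  have hmE : 0 ≤ (m : ℝ) * E := by positivity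
  have hCFT : 0 ≤ CF * (1 + T) := by positivity
  have hmT : 0 ≤ (m : ℝ) * (1 + T) := by positivity
  refine ⟨C₁ + 2 * m * (1 + T) + 1, by linarith, max y₁ (max 1 (2 * Kc / F.η)), ?_⟩
  intro c hy hc t t' L L' _ _ _ _ K K' 𝔟 𝔟' n₁ s₀ ζ Ω ht ht' hco hco' hD hD' hζ hζτ hn hny hnb hnb'
    h𝔟 h𝔟' hΩ
  obtain ⟨-, -, -, hsz, -⟩ := hy₁ c (le_trans (le_max_left _ _) hy) hc
  have hy1 : 1 ≤ c.y := le_trans (le_trans (le_max_left _ _) (le_max_right _ _)) hy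
  have hy2 : 2 * Kc / F.η ≤ c.y := le_trans (le_trans (le_max_right _ _) (le_max_right _ _)) hy
  have hy0 : 0 < c.y := by linarith
  have hB1 : 1 ≤ c.B := le_trans (one_le_pow₀ hy1) hc.B_ge
  have hB0 : 0 < c.B := by linarith
  have hB2 : c.B ^ 2 ≤ c.y ^ 12 := by
    have := pow_le_pow_left₀ hB0.le hc.B_le 2
    rwa [← pow_mul] at this
  have hζ0 : 0 < ζ := lt_of_lt_of_le (inv_pos.mpr hy0) hζ
  have hζy : 1 ≤ ζ * c.y := by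
    have := mul_le_mul_of_nonneg_right hζ hy0.le
    rwa [inv_mul_cancel₀ hy0.ne'] at this
  have hL : Kc * c.y ^ 199 ≤ c.L := by
    have h1 := hc.L_ge
    have h2 := hc.S_ge
    rw [hc.η] at h1
    rw [div_le_iff₀ hη] at hy2
    have h3 : 0 < c.y ^ 199 := by positivity
    have h4 : F.η * c.y ^ 200 ≤ F.η * c.S0 := mul_le_mul_of_nonneg_left h2 hη.le
    have h5 : F.η * c.y ^ 200 = c.y * F.η * c.y ^ 199 := by ring
    have h6 := mul_le_mul_of_nonneg_right hy2 h3.le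
    linarith
  have hpw : ∀ e : ℕ, e ≤ 199 → c.y ^ e ≤ c.y ^ 199 := fun e he => pow_le_pow_right₀ hy1 he
  have hKL : ∀ (a : ℝ) (e : ℕ), 0 ≤ a → a ≤ Kc → e ≤ 199 → a * c.y ^ e ≤ c.L := fun a e h0 h1 he =>
    (mul_le_mul h1 (hpw e he) (by positivity) (h0.trans h1)).trans hL
  have hL1r : (1 : ℝ) ≤ c.L := by
    have := hKL 1 0 zero_le_one (by linarith) (by norm_num)
    simpa using this
  have hL1 : 1 ≤ c.L := by exact_mod_cast hL1r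
  have hL0 : (0 : ℝ) < c.L := by linarith
  have hbox : ∀ u ∈ Tset F.p c, c.B ≤ u.2 ∧ u.2 ≤ 2 * c.B ∧ c.B ≤ |(u.1 : ℝ)| ∧
      F.τ0 ≤ (u.1 : ℝ) / u.2 ∧ (u.1 : ℝ) / u.2 ≤ F.τ0 + 1 := by
    intro u hu
    obtain ⟨u1, u2, u3, u4, -⟩ := (mem_filter.mp hu).2
    rw [hc.η] at u2 u4
    rw [hc.τ0] at u3 u4
    have u0 : (0 : ℝ) < u.2 := by linarith
    have u6 : c.B * (1 + F.η) ≤ c.B * 2 := mul_le_mul_of_nonneg_left (by linarith) hB0.le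
    refine ⟨u1, by linarith, ?_, u3, by linarith⟩
    have u5 : (u.1 : ℝ) / u.2 ≤ -1 := by linarith
    rw [div_le_iff₀ u0] at u5
    have := neg_le_abs (u.1 : ℝ)
    linarith
  obtain ⟨b1, b2, a1, t1, t2⟩ := hbox t ht
  obtain ⟨b1', b2', a1', t1', t2'⟩ := hbox t' ht'
  obtain ⟨-, -, d1, d2⟩ := hsz t ht
  obtain ⟨-, -, d1', d2'⟩ := hsz t' ht'
  rw [← hD] at d1 d2 h𝔟
  rw [← hD'] at d1' d2' h𝔟'
  have hζ1 : ζ ≤ 1 := hζτ.trans (abs_le.mpr ⟨by linarith, by linarith⟩)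
  have hBk : 1 ≤ c.B ^ F.p.k := one_le_pow₀ hB1
  -- the lifting lemma
  have hlift : ∀ δ ∈ 𝔟, ∀ δ' ∈ 𝔟', ∃ v : F.p.Co, (∀ s, K.al F.p t (s + v) = K.al F.p t s + δ) ∧
      (∀ s, K'.al F.p t' (s + v) = K'.al F.p t' s + δ') ∧ ∀ j, |(v j : ℝ)| ≤
        (1 + T) * (‖K.σ δ‖ + ‖K'.σ δ'‖) / (ζ * c.B ^ F.p.k) + E * c.y ^ 13 := by
    intro δ hδ δ' hδ'
    obtain ⟨v, v1, v2, v3⟩ := liftK hIQb F.p t t' K K' T c.B ζ hB1 hT1 b1 b2 b1' b2' a1 a1'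
      (abs_le.mpr ⟨by linarith, by linarith⟩) (abs_le.mpr ⟨by linarith, by linarith⟩) d1 d1'
      hco hco' hζ0 hζ1 hζτ δ δ' (h𝔟 hδ) (h𝔟' hδ')
    refine ⟨v, v1, v2, fun j => (v3 j).trans ?_⟩
    have e1 : (1 + T) * ((‖K.σ δ‖ + ‖K'.σ δ'‖) / c.B ^ F.p.k +
        8 * F.p.k * c.B ^ 2 * T ^ F.p.k) / ζ =
        (1 + T) * (‖K.σ δ‖ + ‖K'.σ δ'‖) / (ζ * c.B ^ F.p.k) + E * (c.B ^ 2 / ζ) := by
      rw [hE]; field_simp
    rw [e1]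
    refine add_le_add le_rfl (mul_le_mul_of_nonneg_left ?_ hE0)
    rw [div_le_iff₀ hζ0]
    have h3 : 0 < c.y ^ 12 := by positivity
    have h5 : c.y ^ 13 * ζ = c.y ^ 12 * (ζ * c.y) := by ring
    rw [h5]
    exact hB2.trans (le_mul_of_one_le_right h3.le hζy)
  -- small elements
  obtain ⟨G, hG⟩ : ∃ G : ℝ, G = ζ * c.L * c.B ^ F.p.k := ⟨_, rfl⟩
  have hG0 : 0 < G := by rw [hG]; positivity
  obtain ⟨ϱ, hϱ⟩ : ∃ ϱ : ℝ, ϱ = G / (4 * (1 + T)) := ⟨_, rfl⟩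
  have hϱ0 : 0 < ϱ := by rw [hϱ]; positivity
  have hr : ∀ D : ℝ, c.B ^ 4 ≤ -D → -D ≤ CF * c.B ^ 4 → 4 * (n₁ * (1 + √|D|)) ≤ ϱ := by
    intro D h1 h2
    have h3 : √|D| ≤ CF * c.y ^ 12 := by
      refine le_trans ?_ (mul_le_mul_of_nonneg_left hB2 (by linarith))
      rw [Real.sqrt_le_left (by positivity), abs_of_nonpos (by linarith [pow_pos hB0 4])]
      refine h2.trans ?_
      rw [mul_pow, ← pow_mul]
      exact mul_le_mul_of_nonneg_right (le_self_pow₀ hCF two_ne_zero) (by positivity)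
    have h4 : 1 ≤ CF * c.y ^ 12 := one_le_mul_of_one_le_of_one_le hCF (one_le_pow₀ hy1)
    have h5 : (n₁ : ℝ) * (1 + √|D|) ≤ c.y ^ 80 * (2 * (CF * c.y ^ 12)) :=
      mul_le_mul hny (by linarith) (by positivity) (by positivity)
    have h6 := hKL (32 * CF * (1 + T)) 93 (by positivity) (by linarith) (by norm_num)
    rw [hϱ, le_div_iff₀ (by positivity), hG]
    have h7 : ζ * c.L ≤ ζ * c.L * c.B ^ F.p.k := le_mul_of_one_le_right (by positivity) hBk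
    have h8 : ζ * (32 * CF * (1 + T) * c.y ^ 93) ≤ ζ * c.L := mul_le_mul_of_nonneg_left h6 hζ0.le
    have h9 : 32 * CF * (1 + T) * c.y ^ 92 ≤ ζ * (32 * CF * (1 + T) * c.y ^ 93) := by
      have : ζ * (32 * CF * (1 + T) * c.y ^ 93) = 32 * CF * (1 + T) * c.y ^ 92 * (ζ * c.y) := by
        ring
      rw [this]
      exact le_mul_of_one_le_right (by positivity) hζy
    have h10 : 4 * ((n₁ : ℝ) * (1 + √|D|)) * (4 * (1 + T)) ≤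
        4 * (c.y ^ 80 * (2 * (CF * c.y ^ 12))) * (4 * (1 + T)) :=
      mul_le_mul_of_nonneg_right (by linarith) (by positivity)
    have h11 : 4 * (c.y ^ 80 * (2 * (CF * c.y ^ 12))) * (4 * (1 + T)) =
        32 * CF * (1 + T) * c.y ^ 92 := by ring
    linarith
  obtain ⟨T₁, hT₁, cT₁⟩ := hH L K 𝔟 n₁ ϱ hn hnb (hr _ d1 d2)
  obtain ⟨T₂, hT₂, cT₂⟩ := hH L' K' 𝔟' n₁ ϱ hn hnb' (hr _ d1' d2')
  have cv := cv_pos 𝔟 n₁ hn hnb
  have cv' := cv_pos 𝔟' n₁ hn hnb'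
  have hv : ∀ z : 𝓞 L × 𝓞 L', ∃ v : F.p.Co, z ∈ T₁ ×ˢ T₂ →
      (∀ s, K.al F.p t (s + v) = K.al F.p t s + z.1) ∧
      (∀ s, K'.al F.p t' (s + v) = K'.al F.p t' s + z.2) ∧ ∀ j, |(v j : ℝ)| ≤ c.L := by
    intro z
    by_cases hz : z ∈ T₁ ×ˢ T₂
    · obtain ⟨z1, z2⟩ := mem_product.mp hz
      obtain ⟨v, v1, v2, v3⟩ := hlift z.1 (hT₁ _ z1).1 z.2 (hT₂ _ z2).1
      refine ⟨v, fun _ => ⟨v1, v2, fun j => (v3 j).trans ?_⟩⟩
      have h1 := hKL (2 * E) 13 (by positivity) (by linarith) (by norm_num)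
      have h2 : (1 + T) * (‖K.σ z.1‖ + ‖K'.σ z.2‖) / (ζ * c.B ^ F.p.k) ≤ c.L / 2 := by
        rw [div_le_iff₀ (by positivity)]
        have h3 : (1 + T) * (‖K.σ z.1‖ + ‖K'.σ z.2‖) ≤ (1 + T) * (2 * ϱ) :=
          mul_le_mul_of_nonneg_left (by linarith [(hT₁ _ z1).2, (hT₂ _ z2).2]) (by linarith)
        refine h3.trans (le_of_eq ?_)
        rw [hϱ, hG]
        field_simp
        ring
      linarith
    · exact ⟨0, fun h => absurd h hz⟩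
  choose vv hvv using hv
  obtain ⟨P, hP⟩ : ∃ P : ℝ, P = ∑ s ∈ Sset F.p c.S0 c.L with K.al F.p t s - K.al F.p t s₀ ∈ 𝔟 ∧
      K'.al F.p t' s - K'.al F.p t' s₀ ∈ 𝔟', wS F.p c.S0 c.L s := ⟨_, rfl⟩
  have hP0 : 0 ≤ P := by rw [hP]; exact Finset.sum_nonneg fun s _ => wS_nonneg _ _ _ _
  have h4P := hS c.S0 c.L n₁ (fun s => K.al F.p t s - K.al F.p t s₀ ∈ 𝔟 ∧
      K'.al F.p t' s - K'.al F.p t' s₀ ∈ 𝔟') hn
    ((mul_le_mul_of_nonneg_left hny (by linarith)).trans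
      (hKL (2 * CS) 80 (by linarith) (by linarith) (by norm_num)))
    (fun s s' h hs => by
      have h1 := 𝔟.add_mem (al_congr K F.p t n₁ 𝔟 hnb s s' h) hs.1
      have h2 := 𝔟'.add_mem (al_congr K' F.p t' n₁ 𝔟' hnb' s s' h) hs.2
      rw [sub_add_sub_cancel] at h1 h2
      exact ⟨h1, h2⟩)
  rw [← hP] at h4P
  rw [← hP, ← hG] at hΩ
  obtain ⟨Z, hZ⟩ : ∃ Z : ℝ, Z = P * (Ideal.absNorm 𝔟 * cov L) * (Ideal.absNorm 𝔟' * cov L') / G ^ 4 :=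
    ⟨_, rfl⟩
  have hZ0 : 0 ≤ Z := by rw [hZ]; positivity
  have hΩZ : Ω = (C₁ + 2 * m * (1 + T) + 1) * Z := by rw [hΩ, hZ]; ring
  have hCΩ : C₁ * Z ≤ Ω := by
    rw [hΩZ]
    exact mul_le_mul_of_nonneg_right (by linarith) hZ0
  have hΩ0 : 0 ≤ Ω := le_trans (by positivity) hCΩ
  -- the number of points of a fibre
  have hcard : ∀ α α', α - K.al F.p t s₀ ∈ 𝔟 → α' - K'.al F.p t' s₀ ∈ 𝔟' →
      (((Sset F.p c.S0 c.L).filter fun s => K.al F.p t s = α ∧ K'.al F.p t' s = α').card : ℝ) ≤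
        Ω * (c.L : ℝ) ^ m := by
    intro α α' hα hα'
    have h1 := pack F.p c.S0 c.L hL1 (T₁ ×ˢ T₂) (fun s => K.al F.p t s = α ∧ K'.al F.p t' s = α')
      (fun s => K.al F.p t s - K.al F.p t s₀ ∈ 𝔟 ∧ K'.al F.p t' s - K'.al F.p t' s₀ ∈ 𝔟') vv
      (fun i hi => (hvv i hi).2.2)
      (fun s hs i hi => by
        obtain ⟨z1, z2⟩ := mem_product.mp hi
        rw [(hvv i hi).1, (hvv i hi).2.1, hs.1, hs.2, add_sub_right_comm, add_sub_right_comm α']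
        exact ⟨𝔟.add_mem hα (hT₁ _ z1).1, 𝔟'.add_mem hα' (hT₂ _ z2).1⟩)
      (fun s s' hs hs' i hi i' hi' h => by
        have e1 := (hvv i hi).1 s
        have e2 := (hvv i hi).2.1 s
        rw [h, (hvv i' hi').1, hs.1, hs'.1] at e1
        rw [h, (hvv i' hi').2.1, hs.2, hs'.2] at e2
        exact Prod.ext (add_left_cancel e1).symm (add_left_cancel e2).symm)
    rw [← hm, Finset.card_product] at h1
    push_cast at h1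
    set Nn : ℝ := (((Sset F.p c.S0 c.L).filter
      fun s => K.al F.p t s = α ∧ K'.al F.p t' s = α').card : ℝ)
    have hN0 : 0 ≤ Nn := Nat.cast_nonneg _
    have h2 : ϱ ^ 2 / (CH * (Ideal.absNorm 𝔟 * cov L)) *
        (ϱ ^ 2 / (CH * (Ideal.absNorm 𝔟' * cov L'))) ≤ (T₁.card : ℝ) * T₂.card :=
      mul_le_mul cT₁ cT₂ (by positivity) (Nat.cast_nonneg _)
    have h3 := (mul_le_mul_of_nonneg_left h2 hN0).trans
      (h1.trans (mul_le_mul_of_nonneg_left h4P (by positivity)))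
    rw [← le_div_iff₀ (by positivity)] at h3
    refine h3.trans (le_trans (le_of_eq ?_) (mul_le_mul_of_nonneg_right hCΩ (by positivity)))
    rw [hC₁, hZ, hϱ, mul_pow]
    field_simp
  intro α₁ α₂ α₁' α₂' h1 h2 h1' h2'
  constructor
  · refine (Finset.sum_le_card_nsmul _ _ _ fun s _ => wS_le F.p c.S0 c.L s).trans ?_
    rw [nsmul_eq_mul, ← hm, mul_one_div, div_le_iff₀ (by positivity)]
    exact hcard α₁ α₁' h1 h1'
  · have m1 : α₂ - α₁ ∈ 𝔟 := by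
      have := 𝔟.sub_mem h2 h1
      rwa [sub_sub_sub_cancel_right] at this
    have m2 : α₂' - α₁' ∈ 𝔟' := by
      have := 𝔟'.sub_mem h2' h1'
      rwa [sub_sub_sub_cancel_right] at this
    obtain ⟨v, v1, v2, v3⟩ := hlift _ m1 _ m2
    have n1 : ‖K.σ (α₂ - α₁ : 𝓞 L)‖ = ‖K.σ α₁ - K.σ α₂‖ := by
      rw [norm_sub_rev]; push_cast; rw [map_sub]
    have n2 : ‖K'.σ (α₂' - α₁' : 𝓞 L')‖ = ‖K'.σ α₁' - K'.σ α₂'‖ := by
      rw [norm_sub_rev]; push_cast; rw [map_sub]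
    rw [n1, n2] at v3
    have h3 := lip F.p c.S0 c.L hL1 (fun s => K.al F.p t s = α₁ ∧ K'.al F.p t' s = α₁')
      (fun s => K.al F.p t s = α₂ ∧ K'.al F.p t' s = α₂') v _ (Ω * (c.L : ℝ) ^ m) (by positivity)
      (fun s => by
        rw [v1, v2]
        constructor
        · rintro ⟨e1, e2⟩
          rw [e1, e2]
          exact ⟨add_sub_cancel _ _, add_sub_cancel _ _⟩
        · rintro ⟨e1, e2⟩
          exact ⟨by linear_combination e1, by linear_combination e2⟩)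
      v3 (hcard α₁ α₁' h1 h1') (hcard α₂ α₂' h2 h2')
    refine h3.trans ?_
    rw [← hm, ← hG]
    set X : ℝ := ‖K.σ α₁ - K.σ α₂‖ + ‖K'.σ α₁' - K'.σ α₂'‖
    have hX : 0 ≤ X := by positivity
    have e1 : 2 * (Ω * (c.L : ℝ) ^ m) * (m * (((1 + T) * X / (ζ * c.B ^ F.p.k) + E * c.y ^ 13) /
        c.L) / (c.L : ℝ) ^ m) = Ω * (2 * m * (1 + T) * X / G + 2 * m * E * c.y ^ 13 / c.L) := by
      rw [hG]
      field_simp
    rw [e1]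
    refine mul_le_mul_of_nonneg_left (add_le_add ?_ ?_) hΩ0
    · exact div_le_div_of_nonneg_right (mul_le_mul_of_nonneg_right (by linarith) hX) hG0.le
    · have h4 := hKL (2 * m * E) 14 (by positivity) (by linarith) (by norm_num)
      rw [div_le_iff₀ hL0, ← div_eq_inv_mul, le_div_iff₀ hy0]
      refine le_trans (le_of_eq ?_) h4
      ring

end Pool.Agent.P.MP_b8021b_nt.VE
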