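import Pool.Agent.P.MP_b8021b_nt.VE.StB

/-! B3: product test functions of one point or of two different points. -/

namespace Pool.Agent.P.MP_b8021b_nt.VE

open Polynomial Finset
open scoped Classical

namespace POne

variable {P X Z T S : Type} [Fintype P] [Fintype X] [Fintype Z] [Fintype T] [Fintype S]

lemma N_ge {b : Base P X} {ε : ℝ} (hb : b.Ok ε) (h1 : ε ≤ 1) : (1 : ℝ) ≤ b.N := by
  have := hb.Npos
  have h0 : (0 : ℝ) ≤ b.N := Nat.cast_nonneg _
  nlinarith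

lemma q_pos {b : Base P X} {ε : ℝ} (hb : b.Ok ε) (h0 : 0 < ε) (h1 : ε ≤ 1) (a : P) :
    0 < b.q a := by
  have h2 := hb.q_ge a
  have h3 := N_ge hb h1
  by_contra h
  have h4 : b.q a ≤ 0 := not_lt.mp h
  nlinarith

lemma epsN_le {b : Base P X} {ε : ℝ} (hb : b.Ok ε) (h1 : ε ≤ 1) : ε / b.N ≤ 1 := by
  have h3 := N_ge hb h1
  rw [div_le_one (by linarith)]
  linarith

lemma sum_pr (b : Base P X) (g : P → ℝ) :
    ∑ x, g (b.pr x) = ∑ a, ((univ.filter fun x => b.pr x = a).card : ℝ) * g a := by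
  rw [← Finset.sum_fiberwise (s := univ) (g := b.pr)]
  refine Finset.sum_congr rfl fun a _ => ?_
  rw [Finset.sum_congr rfl (g := fun _ => g a)
    (fun x hx => by rw [(Finset.mem_filter.mp hx).2])]
  simp

lemma sum_lev {b : Base P X} {ε : ℝ} (hb : b.Ok ε) (h : ℕ → ℝ) :
    ∑ a, b.w a * h (b.lev a) = ∑ i ∈ range b.N, h i := by
  rw [← Finset.sum_fiberwise_of_maps_to (s := univ) (t := range b.N) (g := b.lev)
    (fun a _ => Finset.mem_range.mpr (hb.lev_lt a))]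
  refine Finset.sum_congr rfl fun i hi => ?_
  rw [Finset.sum_congr rfl (g := fun a => b.w a * h i)
    (fun a ha => by rw [(Finset.mem_filter.mp ha).2]), ← Finset.sum_mul,
    hb.w_sum i (Finset.mem_range.mp hi), one_mul]

/-- the reference measure on the points -/
noncomputable def rho (b : Base P X) (x : X) : ℝ := b.w (b.pr x) / (b.q (b.pr x) * b.N)

lemma rho_nonneg {b : Base P X} {ε : ℝ} (hb : b.Ok ε) (h0 : 0 < ε) (h1 : ε ≤ 1) (x : X) :
    0 ≤ rho b x :=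
  div_nonneg (hb.w_nonneg _) (mul_nonneg (q_pos hb h0 h1 _).le (Nat.cast_nonneg _))

lemma rho_sum {b : Base P X} {ε : ℝ} (hb : b.Ok ε) (h0 : 0 < ε) (h1 : ε ≤ 1) :
    ∑ x, rho b x ≤ 2 := by
  have hN := N_ge hb h1
  have hN0 : (0 : ℝ) < b.N := by linarith
  have e1 := sum_pr b fun a => b.w a / (b.q a * b.N)
  have e2 := sum_lev hb fun _ => 2 / (b.N : ℝ)
  have e3 : ∑ _i ∈ range b.N, 2 / (b.N : ℝ) = 2 := by
    rw [Finset.sum_const, Finset.card_range, nsmul_eq_mul]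
    field_simp
  unfold rho
  rw [e1, ← e3, ← e2]
  refine Finset.sum_le_sum fun a _ => ?_
  have hq := q_pos hb h0 h1 a
  have hc := (abs_le.mp (hb.card a)).2
  have he := epsN_le hb h1
  have hw := hb.w_nonneg a
  have e4 : ((univ.filter fun x => b.pr x = a).card : ℝ) * (b.w a / (b.q a * b.N)) =
      b.w a * ((((univ.filter fun x => b.pr x = a).card : ℝ) / b.q a) / b.N) := by
    field_simp
  rw [e4]
  refine mul_le_mul_of_nonneg_left ?_ hw
  exact div_le_div_of_nonneg_right (by linarith) hN0.le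

lemma c1_bound {b : Base P X} {σ : Side X Z} {ε : ℝ} (hb : b.Ok ε) (hσ : σ.Ok b ε) (h0 : 0 < ε)
    (h1 : ε ≤ 1) (x : X) (φ : Z → ℝ) (hφ : ∀ z, |φ z| ≤ 1) : |∑ z, σ.c1 b x z * φ z| ≤ 2 := by
  have hq := q_pos hb h0 h1 (b.pr x)
  have hi := hσ.ind {x} (by simp) (by simp)
  have he := epsN_le hb h1
  have e1 : σ.prob {x} * (∏ y ∈ ({x} : Finset X), b.q (b.pr y)) = ∑ z, σ.c1 b x z := by
    unfold Side.prob Side.c1
    rw [Finset.sum_mul, Finset.sum_filter]
    refine Finset.sum_congr rfl fun z _ => ?_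
    simp
  rw [e1] at hi
  have h2 := (abs_le.mp hi).2
  refine (Finset.abs_sum_le_sum_abs _ _).trans (le_trans (Finset.sum_le_sum fun z _ => ?_)
    (show ∑ z, σ.c1 b x z ≤ 2 by linarith))
  have hn : 0 ≤ σ.c1 b x z := by
    unfold Side.c1
    split_ifs
    · exact mul_nonneg (hσ.nonneg z) hq.le
    · exact le_rfl
  rw [abs_mul, abs_of_nonneg hn]
  exact mul_le_of_le_one_right hn (hφ z)

lemma c2_bound {b : Base P X} {σ : Side X Z} {ε : ℝ} (hb : b.Ok ε) (hσ : σ.Ok b ε) (h0 : 0 < ε)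
    (h1 : ε ≤ 1) (x x' : X) (hx : b.pr x ≠ b.pr x') (φ : Z → ℝ) (hφ : ∀ z, |φ z| ≤ 1) :
    |∑ z, σ.c2 b x x' z * φ z| ≤ 2 := by
  have hq := q_pos hb h0 h1 (b.pr x)
  have hq' := q_pos hb h0 h1 (b.pr x')
  have hne : x ≠ x' := fun h => hx (by rw [h])
  have hi := hσ.ind {x, x'} (le_trans Finset.card_le_two (by norm_num)) (by
    intro y hy y' hy' hyy
    simp only [Finset.coe_insert, Finset.coe_singleton, Set.mem_insert_iff,
      Set.mem_singleton_iff] at hy hy'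
    rcases hy with rfl | rfl <;> rcases hy' with rfl | rfl
    · rfl
    · exact absurd hyy hx
    · exact absurd hyy.symm hx
    · rfl)
  have he := epsN_le hb h1
  have e1 : σ.prob {x, x'} * (∏ y ∈ ({x, x'} : Finset X), b.q (b.pr y)) =
      ∑ z, σ.c2 b x x' z := by
    unfold Side.prob Side.c2
    rw [Finset.sum_mul, Finset.sum_filter, Finset.prod_pair hne]
    refine Finset.sum_congr rfl fun z _ => ?_
    simp
  rw [e1] at hi
  have h2 := (abs_le.mp hi).2
  refine (Finset.abs_sum_le_sum_abs _ _).trans (le_trans (Finset.sum_le_sum fun z _ => ?_)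
    (show ∑ z, σ.c2 b x x' z ≤ 2 by linarith))
  have hn : 0 ≤ σ.c2 b x x' z := by
    unfold Side.c2
    split_ifs
    · exact mul_nonneg (hσ.nonneg z) (mul_nonneg hq.le hq'.le)
    · exact le_rfl
  rw [abs_mul, abs_of_nonneg hn]
  exact mul_le_of_le_one_right hn (hφ z)

lemma c2_comm (b : Base P X) (σ : Side X Z) (x x' : X) (z : Z) :
    σ.c2 b x x' z = σ.c2 b x' x z := by
  unfold Side.c2
  by_cases h : σ.on x z <;> by_cases h' : σ.on x' z <;> simp [h, h', mul_comm]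

lemma Hh_nonneg (N u i i' : ℕ) : 0 ≤ Hh N u i i' := by
  unfold Hh
  positivity

lemma om_nonneg {b : Base P X} {ε : ℝ} (hb : b.Ok ε) (h0 : 0 < ε) (h1 : ε ≤ 1) (u : ℕ)
    (x x' : X) : 0 ≤ b.om u x x' := by
  unfold Base.om
  split_ifs
  · exact div_nonneg (mul_nonneg (mul_nonneg (hb.w_nonneg _) (hb.w_nonneg _))
      (Hh_nonneg _ _ _ _)) (mul_nonneg (q_pos hb h0 h1 _).le (q_pos hb h0 h1 _).le)
  · exact le_rfl

lemma om_le {b : Base P X} {ε : ℝ} (hb : b.Ok ε) (h0 : 0 < ε) (h1 : ε ≤ 1) {u : ℕ} {C : ℝ}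
    (hC : ∀ i < b.N, ∀ i' < b.N, (b.N : ℝ) ^ 2 * Hh b.N u i i' ≤ C) (x x' : X) :
    b.om u x x' ≤ if b.pr x' ≠ b.pr x then C * (rho b x * rho b x') else 0 := by
  have hN := N_ge hb h1
  have hN0 : (0 : ℝ) < b.N := by linarith
  have hq := q_pos hb h0 h1 (b.pr x)
  have hq' := q_pos hb h0 h1 (b.pr x')
  unfold Base.om
  by_cases h : b.pr x = b.pr x'
  · simp [h]
  · rw [if_pos h, if_pos (Ne.symm h)]
    have h2 := hC _ (hb.lev_lt (b.pr x)) _ (hb.lev_lt (b.pr x'))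
    have e : b.w (b.pr x) * b.w (b.pr x') * Hh b.N u (b.lev (b.pr x)) (b.lev (b.pr x')) /
        (b.q (b.pr x) * b.q (b.pr x')) =
        ((b.N : ℝ) ^ 2 * Hh b.N u (b.lev (b.pr x)) (b.lev (b.pr x'))) * (rho b x * rho b x') := by
      unfold rho
      field_simp
    rw [e]
    exact mul_le_mul_of_nonneg_right h2
      (mul_nonneg (rho_nonneg hb h0 h1 x) (rho_nonneg hb h0 h1 x'))

/-- averaging a row bound -/
lemma avg_row {b : Base P X} {ε : ℝ} (hb : b.Ok ε) (h0 : 0 < ε) (h1 : ε ≤ 1) {u : ℕ} {C K : ℝ}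
    (hC0 : 0 ≤ C) (hK : 0 ≤ K)
    (hC : ∀ i < b.N, ∀ i' < b.N, (b.N : ℝ) ^ 2 * Hh b.N u i i' ≤ C) (D : X → X → ℝ)
    (hD : ∀ x, ∑ x' with b.pr x' ≠ b.pr x, rho b x' * |D x x'| ≤ K) :
    ∑ x, ∑ x', b.om u x x' * |D x x'| ≤ 2 * C * K := by
  have h2 : ∀ x, ∑ x', b.om u x x' * |D x x'| ≤ rho b x * (C * K) := by
    intro x
    have h3 : ∑ x', b.om u x x' * |D x x'| ≤
        ∑ x' with b.pr x' ≠ b.pr x, rho b x * C * (rho b x' * |D x x'|) := by
      rw [Finset.sum_filter]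
      refine Finset.sum_le_sum fun x' _ => ?_
      refine (mul_le_mul_of_nonneg_right (om_le hb h0 h1 hC x x') (abs_nonneg _)).trans ?_
      split_ifs
      · exact le_of_eq (by ring)
      · simp
    refine h3.trans ?_
    rw [← Finset.mul_sum, ← mul_assoc]
    exact mul_le_mul_of_nonneg_left (hD x) (mul_nonneg (rho_nonneg hb h0 h1 x) hC0)
  refine (Finset.sum_le_sum fun x _ => h2 x).trans ?_
  rw [← Finset.sum_mul, mul_assoc]
  exact mul_le_mul_of_nonneg_right (rho_sum hb h0 h1) (mul_nonneg hC0 hK)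

lemma om_comm (b : Base P X) {u : ℕ} (hs : ∀ i i', Hh b.N u i i' = Hh b.N u i' i) (x x' : X) :
    b.om u x x' = b.om u x' x := by
  unfold Base.om
  by_cases h : b.pr x = b.pr x'
  · simp [h]
  · rw [if_pos h, if_pos (Ne.symm h), hs]
    ring

/-- the marginal of `om` -/
lemma om_marg {b : Base P X} {ε : ℝ} (hb : b.Ok ε) (h0 : 0 < ε) (h1 : ε ≤ 1) {u : ℕ} {C : ℝ}
    (hC : ∀ i < b.N, ∀ i' < b.N, (b.N : ℝ) ^ 2 * Hh b.N u i i' ≤ C) (x : X) :
    |∑ x', b.om u x x' - b.w (b.pr x) / b.q (b.pr x) * P1 b.N u (b.lev (b.pr x))| ≤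
      rho b x * (2 * C * ε) := by
  have hN := N_ge hb h1
  have hN0 : (0 : ℝ) < b.N := by linarith
  have hq := q_pos hb h0 h1 (b.pr x)
  set a := b.pr x with ha
  set H : P → ℝ := fun a' => Hh b.N u (b.lev a) (b.lev a') with hH
  have hH0 : ∀ a', 0 ≤ H a' := fun a' => Hh_nonneg _ _ _ _
  have hH1 : ∀ a', H a' ≤ C / b.N ^ 2 := fun a' => by
    rw [le_div_iff₀ (by positivity), mul_comm]
    exact hC _ (hb.lev_lt a) _ (hb.lev_lt a')
  have hC0 : 0 ≤ C / (b.N : ℝ) ^ 2 := (hH0 a).trans (hH1 a)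
  have e1 : ∑ x', b.om u x x' = b.w a / b.q a * ∑ a', if a ≠ a' then
      b.w a' * H a' * (((univ.filter fun y => b.pr y = a').card : ℝ) / b.q a') else 0 := by
    have := sum_pr b fun a' => if a ≠ a' then b.w a * b.w a' * H a' / (b.q a * b.q a') else 0
    unfold Base.om
    rw [this, Finset.mul_sum]
    refine Finset.sum_congr rfl fun a' _ => ?_
    have hq' := q_pos hb h0 h1 a'
    split_ifs
    · field_simp
    · simp
  have e2 : P1 b.N u (b.lev a) = ∑ a', b.w a' * H a' := by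
    unfold P1
    exact (sum_lev hb fun i => Hh b.N u (b.lev a) i).symm
  have hwq : 0 ≤ b.w a / b.q a := div_nonneg (hb.w_nonneg a) hq.le
  rw [e1, e2, ← mul_sub, ← Finset.sum_sub_distrib, abs_mul, abs_of_nonneg hwq]
  have h3 : |∑ a', ((if a ≠ a' then
      b.w a' * H a' * (((univ.filter fun y => b.pr y = a').card : ℝ) / b.q a') else 0) -
        b.w a' * H a')| ≤ ∑ a', (b.w a' * (ε / b.N * (C / b.N ^ 2)) +
          if a = a' then ε / b.N * (C / b.N ^ 2) else 0) := by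
    refine (Finset.abs_sum_le_sum_abs _ _).trans (Finset.sum_le_sum fun a' _ => ?_)
    have hw := hb.w_nonneg a'
    have hεN : 0 ≤ ε / b.N := by positivity
    by_cases h : a = a'
    · rw [if_neg (not_not.mpr h), if_pos h, zero_sub, abs_neg,
        abs_of_nonneg (mul_nonneg hw (hH0 a'))]
      have h4 : b.w a' * H a' ≤ ε / b.N * (C / b.N ^ 2) :=
        mul_le_mul (hb.w_le a') (hH1 a') (hH0 a') hεN
      have h5 : 0 ≤ b.w a' * (ε / b.N * (C / b.N ^ 2)) := mul_nonneg hw (mul_nonneg hεN hC0)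
      linarith
    · rw [if_pos h, if_neg h, add_zero, ← mul_sub_one, abs_mul,
        abs_of_nonneg (mul_nonneg hw (hH0 a')), mul_assoc]
      refine mul_le_mul_of_nonneg_left ?_ hw
      rw [mul_comm]
      exact mul_le_mul (hb.card a') (hH1 a') (hH0 a') hεN
  have e3 := sum_lev hb fun _ => ε / b.N * (C / b.N ^ 2)
  rw [Finset.sum_add_distrib, e3, Finset.sum_ite_eq, if_pos (Finset.mem_univ _), Finset.sum_const,
    Finset.card_range, nsmul_eq_mul] at h3
  have e4 : rho b x * (2 * C * ε) = b.w a / b.q a * (2 * C * ε / b.N) := by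
    unfold rho
    rw [← ha]
    field_simp
  rw [e4]
  refine mul_le_mul_of_nonneg_left (h3.trans ?_) hwq
  have hC1 : 0 ≤ C := by
    have := mul_nonneg hC0 (show (0 : ℝ) ≤ (b.N : ℝ) ^ 2 by positivity)
    rwa [div_mul_cancel₀ _ (by positivity)] at this
  have e5 : (b.N : ℝ) * (ε / b.N * (C / b.N ^ 2)) + ε / b.N * (C / b.N ^ 2) =
      C * ε / b.N * (1 / b.N + 1 / b.N ^ 2) := by
    field_simp
  have e6 : 2 * C * ε / b.N = C * ε / b.N * 2 := by ring
  rw [e5, e6]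
  refine mul_le_mul_of_nonneg_left ?_ (by positivity)
  have h6 : 1 / (b.N : ℝ) ≤ 1 := by rw [div_le_one hN0]; exact hN
  have h7 : 1 / (b.N : ℝ) ^ 2 ≤ 1 := by rw [div_le_one (by positivity)]; nlinarith
  linarith

lemma nu_sum (b : Base P X) (σT : Side X T) (σS : Side X S) (u : ℕ) (φ : T → X → X → ℝ)
    (ψ : S → X → X → ℝ) :
    ∑ t, ∑ s, ∑ x, ∑ x', nu b σT σS u t s x x' * (φ t x x' * ψ s x x') =
      ∑ x, ∑ x', b.om u x x' *
        ((∑ t, σT.c2 b x x' t * φ t x x') * ∑ s, σS.c2 b x x' s * ψ s x x') := by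
  have e1 : ∀ t, ∑ s, ∑ x, ∑ x', nu b σT σS u t s x x' * (φ t x x' * ψ s x x') =
      ∑ x, ∑ x', ∑ s, nu b σT σS u t s x x' * (φ t x x' * ψ s x x') := by
    intro t
    rw [Finset.sum_comm]
    exact Finset.sum_congr rfl fun x _ => Finset.sum_comm
  rw [Finset.sum_congr rfl fun t _ => e1 t, Finset.sum_comm]
  refine Finset.sum_congr rfl fun x _ => ?_
  rw [Finset.sum_comm]
  refine Finset.sum_congr rfl fun x' _ => ?_
  rw [Finset.sum_mul_sum, Finset.mul_sum]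
  refine Finset.sum_congr rfl fun t _ => ?_
  rw [Finset.mul_sum]
  refine Finset.sum_congr rfl fun s _ => ?_
  unfold nu
  ring

/-- replacing the two factors one at a time -/
lemma swap_le {b : Base P X} {ε : ℝ} (hb : b.Ok ε) (h0 : 0 < ε) (h1 : ε ≤ 1) (u : ℕ)
    (A2 B2 A1 B1 : X → X → ℝ) (hB : ∀ x x', b.pr x ≠ b.pr x' → |B2 x x'| ≤ 2)
    (hA : ∀ x x', |A1 x x'| ≤ 2) :
    |∑ x, ∑ x', b.om u x x' * (A2 x x' * B2 x x') - ∑ x, ∑ x', b.om u x x' * (A1 x x' * B1 x x')| ≤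
      2 * ∑ x, ∑ x', b.om u x x' * |A2 x x' - A1 x x'| +
        2 * ∑ x, ∑ x', b.om u x x' * |B2 x x' - B1 x x'| := by
  rw [← Finset.sum_sub_distrib, Finset.mul_sum, Finset.mul_sum, ← Finset.sum_add_distrib]
  refine (Finset.abs_sum_le_sum_abs _ _).trans (Finset.sum_le_sum fun x _ => ?_)
  rw [← Finset.sum_sub_distrib, Finset.mul_sum, Finset.mul_sum, ← Finset.sum_add_distrib]
  refine (Finset.abs_sum_le_sum_abs _ _).trans (Finset.sum_le_sum fun x' _ => ?_)
  have ho := om_nonneg hb h0 h1 u x x'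
  by_cases h : b.pr x = b.pr x'
  · have : b.om u x x' = 0 := by simp [Base.om, h]
    simp [this]
  · rw [← mul_sub, abs_mul, abs_of_nonneg ho]
    have e : A2 x x' * B2 x x' - A1 x x' * B1 x x' =
        (A2 x x' - A1 x x') * B2 x x' + A1 x x' * (B2 x x' - B1 x x') := by ring
    have h2 : |A2 x x' * B2 x x' - A1 x x' * B1 x x'| ≤
        2 * |A2 x x' - A1 x x'| + 2 * |B2 x x' - B1 x x'| := by
      rw [e]
      refine (abs_add_le _ _).trans ?_
      rw [abs_mul, abs_mul]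
      have h3 := mul_le_mul_of_nonneg_left (hB x x' h) (abs_nonneg (A2 x x' - A1 x x'))
      have h4 := mul_le_mul_of_nonneg_right (hA x x') (abs_nonneg (B2 x x' - B1 x x'))
      linarith
    have h5 := mul_le_mul_of_nonneg_left h2 ho
    linarith

end POne

open POne in
theorem p_one (hCnt : S_Cnt) (hTK : S_TK) : S_One := by
  intro u hu ε' hε'
  obtain ⟨c, C, -, hC1, hC⟩ := hCnt.2.2.2.2.2 u hu
  obtain ⟨K, hK1, hK⟩ := hTK
  set M : ℝ := 1 + 16 * C + 8 * C * K with hM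
  have hM1 : 1 ≤ M := by
    have : 0 ≤ C * K := by positivity
    linarith
  set δ : ℝ := min (ε' / M) (1 / (12 * (u + 2))) with hδ
  have hu0 : (0 : ℝ) < 12 * (u + 2) := by positivity
  have hδ0 : 0 < δ := lt_min (by positivity) (by positivity)
  have hδu : δ * (12 * (u + 2)) ≤ 1 := by
    have := min_le_right (ε' / M) (1 / (12 * ((u : ℝ) + 2)))
    rwa [← hδ, le_div_iff₀ hu0] at this
  have hδM : δ * M ≤ ε' := by
    have := min_le_left (ε' / M) (1 / (12 * ((u : ℝ) + 2)))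
    rwa [← hδ, le_div_iff₀ (by linarith)] at this
  have hδ1 : δ ≤ 1 := by
    have : (0 : ℝ) ≤ u := Nat.cast_nonneg _
    nlinarith
  refine ⟨δ ^ 2, by positivity, ?_⟩
  intro P X T S _ _ _ _ b σT σS μ hD φ ψ hφ hψ
  have h0 : 0 < δ ^ 2 := by positivity
  have hεδ : δ ^ 2 ≤ δ := by nlinarith
  have h1 : δ ^ 2 ≤ 1 := hεδ.trans hδ1
  have hb := hD.base
  have hsq : √(δ ^ 2) = δ := Real.sqrt_sq hδ0.le
  have hN : 12 * (u + 2) ≤ b.N := by
    have h2 := hb.Npos
    have h3 : (0 : ℝ) ≤ b.N := Nat.cast_nonneg _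
    have h4 : (1 : ℝ) ≤ δ * b.N := h2.trans (mul_le_mul_of_nonneg_right hεδ h3)
    have h5 : (12 * (u + 2) : ℝ) ≤ b.N := by
      have h6 := mul_le_mul_of_nonneg_left h4 hu0.le
      have h7 := mul_le_mul_of_nonneg_right hδu h3
      nlinarith
    exact_mod_cast h5
  obtain ⟨-, hs, -, hH⟩ := hC b.N hN
  have hH' : ∀ i < b.N, ∀ i' < b.N, (b.N : ℝ) ^ 2 * Hh b.N u i i' ≤ C :=
    fun i hi i' hi' => (hH i hi i' hi').2
  have hT := (hK P X T b σT _ h1 hb hD.sT).2.1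
  have hS := (hK P X S b σS _ h1 hb hD.sS).2.1
  rw [hsq] at hT hS
  have hC0 : 0 ≤ C := by linarith
  have hKδ : 0 ≤ K * δ := by positivity
  have rT := avg_row hb h0 h1 hC0 hKδ hH'
    (fun x x' => ∑ t, σT.c2 b x x' t * φ t x - ∑ t, σT.c1 b x t * φ t x)
    fun x => hT (fun t => φ t x) x fun t => hφ t x
  have rS := avg_row hb h0 h1 hC0 hKδ hH'
    (fun x x' => ∑ s, σS.c2 b x x' s * ψ s x - ∑ s, σS.c1 b x s * ψ s x)
    fun x => hS (fun s => ψ s x) x fun s => hψ s x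
  have hfin : δ ^ 2 + 16 * C * δ ^ 2 + 8 * C * K * δ ≤ ε' := by
    have h2 := mul_le_mul_of_nonneg_left hεδ (show 0 ≤ 16 * C by linarith)
    rw [hM] at hδM
    nlinarith
  have hCδ : 0 ≤ C * δ ^ 2 := by positivity
  constructor
  · have m1 := hD.mix.cut (fun t x _ => φ t x) (fun s x _ => ψ s x) (fun t x _ => hφ t x)
      fun s x _ => hψ s x
    rw [nu_sum] at m1
    have m2 := swap_le hb h0 h1 u (fun x x' => ∑ t, σT.c2 b x x' t * φ t x)
      (fun x x' => ∑ s, σS.c2 b x x' s * ψ s x) (fun x _ => ∑ t, σT.c1 b x t * φ t x)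
      (fun x _ => ∑ s, σS.c1 b x s * ψ s x)
      (fun x x' h => c2_bound hb hD.sS h0 h1 x x' h _ fun s => hψ s x)
      fun x _ => c1_bound hb hD.sT h0 h1 x _ fun t => hφ t x
    have m3 : |∑ x, ∑ x', b.om u x x' *
        ((∑ t, σT.c1 b x t * φ t x) * ∑ s, σS.c1 b x s * ψ s x) -
        ∑ x, b.w (b.pr x) / b.q (b.pr x) * P1 b.N u (b.lev (b.pr x)) *
          ((∑ t, σT.c1 b x t * φ t x) * ∑ s, σS.c1 b x s * ψ s x)| ≤ 16 * C * δ ^ 2 := by
      rw [← Finset.sum_sub_distrib]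
      have m4 : ∀ x, |∑ x', b.om u x x' *
          ((∑ t, σT.c1 b x t * φ t x) * ∑ s, σS.c1 b x s * ψ s x) -
          b.w (b.pr x) / b.q (b.pr x) * P1 b.N u (b.lev (b.pr x)) *
            ((∑ t, σT.c1 b x t * φ t x) * ∑ s, σS.c1 b x s * ψ s x)| ≤
          rho b x * (8 * C * δ ^ 2) := by
        intro x
        rw [← Finset.sum_mul, ← sub_mul, abs_mul, abs_mul]
        have a1 := c1_bound hb hD.sT h0 h1 x _ fun t => hφ t x
        have a2 := c1_bound hb hD.sS h0 h1 x _ fun s => hψ s x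
        have a3 := mul_le_mul a1 a2 (abs_nonneg _) (by norm_num)
        have a4 := om_marg hb h0 h1 hH' x
        have a5 := mul_le_mul a4 a3 (by positivity) ((abs_nonneg _).trans a4)
        linarith
      refine (Finset.abs_sum_le_sum_abs _ _).trans ((Finset.sum_le_sum fun x _ => m4 x).trans ?_)
      rw [← Finset.sum_mul]
      have := mul_le_mul_of_nonneg_right (rho_sum hb h0 h1) (show 0 ≤ 8 * C * δ ^ 2 by positivity)
      linarith
    have t1 := abs_le.mp m1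
    have t2 := abs_le.mp m2
    have t3 := abs_le.mp m3
    rw [abs_le]
    constructor <;> linarith [t1.1, t1.2, t2.1, t2.2, t3.1, t3.2]
  · have m1 := hD.mix.cut (fun t x _ => φ t x) (fun s _ x' => ψ s x') (fun t x _ => hφ t x)
      fun s _ x' => hψ s x'
    rw [nu_sum] at m1
    have m2 := swap_le hb h0 h1 u (fun x x' => ∑ t, σT.c2 b x x' t * φ t x)
      (fun x x' => ∑ s, σS.c2 b x x' s * ψ s x') (fun x _ => ∑ t, σT.c1 b x t * φ t x)
      (fun _ x' => ∑ s, σS.c1 b x' s * ψ s x')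
      (fun x x' h => c2_bound hb hD.sS h0 h1 x x' h _ fun s => hψ s x')
      fun x _ => c1_bound hb hD.sT h0 h1 x _ fun t => hφ t x
    have rS' : ∑ x, ∑ x', b.om u x x' *
        |∑ s, σS.c2 b x x' s * ψ s x' - ∑ s, σS.c1 b x' s * ψ s x'| ≤ 2 * C * (K * δ) := by
      rw [Finset.sum_comm]
      refine le_trans (le_of_eq ?_) rS
      refine Finset.sum_congr rfl fun x _ => Finset.sum_congr rfl fun x' _ => ?_
      rw [om_comm b hs x' x, Finset.sum_congr rfl fun s _ => by rw [c2_comm b σS x' x s]]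
    have t1 := abs_le.mp m1
    have t2 := abs_le.mp m2
    rw [abs_le]
    constructor <;> linarith [t1.1, t1.2, t2.1, t2.2]

end Pool.Agent.P.MP_b8021b_nt.VE
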