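import Pool.Agent.P.MP_b8021b_nt.VE.PPairEst3

/-! N28: the pair correlation estimate. -/

namespace Pool.Agent.P.MP_b8021b_nt.VE

open NumberField Finset
open scoped Classical

namespace PairEst

/-- the final assembly -/
lemma final {p : Par} {c : Cfg} {x x' : Pt} {W W' V V' l l' b b' : p.Co → ℝ} {U U' : p.Co → Prop}
    {M Q CL cq cq' : ℝ} (hy : 1 ≤ c.y) (hη : 0 < c.η) (hη1 : c.η ≤ 1) (hM : 1 ≤ M) (hCL : 1 ≤ CL)
    (hq : 1 ≤ cq) (hq' : 1 ≤ cq') (hQ : cq * cq' ≤ Q)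
    (hW : ∀ s, (0 ≤ W s ∧ W s ≤ M) ∧ (0 ≤ V s ∧ V s ≤ M) ∧ 0 ≤ b s ∧ (W s ≠ V s → 1 ≤ b s))
    (hW' : ∀ s, (0 ≤ W' s ∧ W' s ≤ M) ∧ (0 ≤ V' s ∧ V' s ≤ M) ∧ 0 ≤ b' s ∧ (W' s ≠ V' s → 1 ≤ b' s))
    (hb : Es p c x x' b ≤ 1000 / c.y) (hb' : Es p c x x' b' ≤ 1000 / c.y)
    (hs : 4000 / c.η * M ^ 2 ≤ c.y) (h1 : |Es p c x x' (fun _ => 1) - 1| ≤ c.y⁻¹)
    (hU : Es p c x x' (fun s => if U s then 0 else 1) ≤ Q - 1)
    (hl : ∀ s ∈ Sset p c.S0 c.L, |l s - cq| ≤ CL * c.η * cq)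
    (hl' : ∀ s ∈ Sset p c.S0 c.L, |l' s - cq'| ≤ CL * c.η * cq')
    (hp : |Es p c x x' fun s => (V s - 1) * (V' s - 1) -
      ((if U s then l s else 0) - 1) * ((if U' s then l' s else 0) - 1)| ≤ c.η * Q) :
    |Es p c x x' fun s => (W s - 1) * (W' s - 1)| ≤ (6 * CL ^ 2 + 3) * (Q - 1 + c.η * Q) := by
  have hQ1 : 1 ≤ Q := (one_le_mul_of_one_le_of_one_le hq hq').trans hQ
  have hy0 : 0 < c.y := by linarith
  have k1 : |Es p c x x' fun s => (W s - 1) * (W' s - 1) - (V s - 1) * (V' s - 1)| ≤ c.η * Q := by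
    refine (abs_Es_le p c x x' (Ψ := fun s => 2 * M ^ 2 * (b s + b' s)) fun s _ => ?_).trans ?_
    · obtain ⟨a1, a2, a3, a4⟩ := hW s
      obtain ⟨b1, b2, b3, b4⟩ := hW' s
      exact ptw_bad hM a1.1 a1.2 b1.1 b1.2 a2.1 a2.2 b2.1 b2.2 a3 b3 a4 b4
    · rw [Es_mul, Es_add]
      calc _ ≤ 2 * M ^ 2 * (1000 / c.y + 1000 / c.y) := by gcongr
        _ = c.η * (4000 / c.η * M ^ 2 / c.y) := by field_simp; ring
        _ ≤ c.η * Q := by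
          gcongr
          exact ((div_le_one hy0).mpr hs).trans hQ1
  have hθ : 0 ≤ CL * c.η := by positivity
  have k2 : |Es p c x x' fun s => ((if U s then l s else 0) - 1) * ((if U' s then l' s else 0) - 1)| ≤
      2 * (Q * (1 + CL * c.η) ^ 2 - 1) + (Q - 1) := by
    refine (abs_Es_le p c x x' fun s hs => ptw_main hq hq' hθ hQ (hl s hs) (hl' s hs)).trans ?_
    rw [Es_add, Es_mul]
    have a1 : Es p c x x' (fun _ => 1) ≤ 2 := by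
      linarith [(abs_le.mp h1).2, inv_le_one_of_one_le₀ hy]
    have a2 : 0 ≤ Q * (1 + CL * c.η) ^ 2 - 1 := by nlinarith [sq_nonneg (CL * c.η)]
    nlinarith
  have e : (Es p c x x' fun s => (W s - 1) * (W' s - 1)) =
      (Es p c x x' fun s => (W s - 1) * (W' s - 1) - (V s - 1) * (V' s - 1)) +
      (Es p c x x' fun s => (V s - 1) * (V' s - 1) -
        ((if U s then l s else 0) - 1) * ((if U' s then l' s else 0) - 1)) +
      Es p c x x' fun s => ((if U s then l s else 0) - 1) * ((if U' s then l' s else 0) - 1) := by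
    rw [Es_sub, Es_sub]; ring
  rw [e]
  refine (abs_add_three _ _ _).trans ?_
  have k3 : (1 + CL * c.η) ^ 2 ≤ 1 + 3 * CL ^ 2 * c.η := by
    have a1 : CL ≤ CL ^ 2 := by nlinarith
    have a2 : CL * c.η ≤ CL ^ 2 * c.η := mul_le_mul_of_nonneg_right a1 hη.le
    have a3 : CL ^ 2 * c.η * c.η ≤ CL ^ 2 * c.η * 1 := by gcongr
    nlinarith
  have k4 := mul_le_mul_of_nonneg_left k3 (zero_le_one.trans hQ1)
  have k5 : 0 ≤ CL ^ 2 * (Q - 1) := mul_nonneg (sq_nonneg _) (by linarith)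
  have k6 : 0 ≤ c.η * Q := by positivity
  nlinarith

end PairEst

open PairEst in
theorem p_pairEst (hTheta : S_Theta) (hFlat : S_Flat) (hIndT : S_IndT) (hIQb : S_IQb) (hQF : S_QF)
    (hCl : S_Cl) (hPhi : S_Phi) (hShell : S_Shell) (hCos : S_Cos) (hOm : S_Om) (hSup : S_Sup)
    (hWW : S_WW) (hLam1 : S_Lam1) : S_PairEst := by
  intro p τ0 u hu
  obtain ⟨CL, η₀, hCL, hη₀, hlam⟩ := hLam1 p τ0 u hu
  obtain ⟨Cf, hCf, hflat⟩ := hFlat p τ0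
  obtain ⟨Cd, hCd, hsd⟩ := sd_of hCos hShell u (by omega)
  obtain ⟨_, -, hcl⟩ := hCl
  refine ⟨6 * CL ^ 2 + 3, η₀, by nlinarith, hη₀, fun F hp hτ hFu hη hA hz hr => ?_⟩
  have e1 := hlam F hp hτ hFu hη hA
  have e2 := hflat F hp hτ
  subst hp hτ hFu
  clear hlam hflat
  obtain ⟨Co, hCo, e3⟩ := hOm F
  obtain ⟨Cs, hCs, e4⟩ := hSup F hu hA
  have e5 := Fix.Ev.of_N (F := F) (hTheta (6 * F.A + 1))
  have e6 := hWW F hz hr hA
  have e7 := (F.ev_y_ge 4).and ((F.ev_y_ge CL).and ((F.ev_y_ge Cf).and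
    ((F.ev_y_ge (F.p.r ^ F.p.e)).and ((F.ev_N_pow_le_self 1 6).and (F.ev_N.and ((F.ev_log_ge 1).and
    ((F.ev_log_ge (128 * Co * (Cd * CL ^ 2) ^ 2 * (3 + 2 * Co * CL / F.η) / F.η ^ 5)).and
    ((F.ev_log_pow_le_self 1 (F.A * 5)).and
    (F.ev_log_pow_le_self (4000 / F.η * Cs ^ 2) ((F.u + 3) * 2))))))))))
  refine (e1.and (e2.and (e3.and (e4.and (e5.and (e6.and e7)))))).mono ?_
  clear e1 e2 e3 e4 e5 e6 e7
  rintro c hi ⟨hlam, ⟨-, -, -, hD, hnn⟩, hom, hsup, ⟨-, -, -, hth⟩, hww, y4, yCL, yCf, yr, yN, ⟨hN, -⟩,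
    hl1, hlK, hl5, hlS⟩ x x' t t' L L' _ _ _ _ K K' hq hK hK' hsep hE hE'
  have y1 : 1 ≤ c.y := by linarith
  have hB := hi.one_le_B y1
  rw [mul_comm 5, pow_mul] at hE hE'
  rw [one_mul, pow_mul] at hl5
  rw [one_mul] at yN
  have hN6 := hi.N_ge
  rw [mul_comm 6, pow_mul] at hN6
  have hm : Real.log c.y ≤ Real.log c.y ^ F.A := le_self_pow₀ hl1 (by omega)
  generalize Real.log c.y ^ F.A = m at hsep hE hE' hl5 hN6 hm
  have hm1 : 1 ≤ m := hl1.trans hm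
  rw [← hi.η] at hlK hlS
  rw [← hi.z] at hz
  have hη0 := hi.η_pos
  have hS : 0 < (c.S0 : ℝ) := lt_of_lt_of_le (by positivity) hi.S_ge
  have hBk : 1 ≤ c.B ^ F.p.k := one_le_pow₀ hB
  have hL : 0 < (c.L : ℝ) := lt_of_lt_of_le (by positivity) hi.L_ge
  have hd : dl t t' ≠ 0 := dl_ne (hi.t2_pos y1 hq.ht).ne' (hi.t2_pos y1 hq.ht').ne'
    (abs_pos.mp (lt_of_lt_of_le (by positivity) hsep))
  have hd' : dl t' t ≠ 0 := fun h => hd (by unfold dl at h ⊢; linarith)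
  obtain ⟨hn3, hnd⟩ := nn_facts hi y1 hq hd
  have hn75 := hnn x x' t t' hq
  obtain ⟨hc1, hc2, hc3⟩ := cc_mul_le hPhi K K' hz (by omega) hnd
  have hNa : ((F.p.r ^ F.p.e * x.1 * x'.1 : ℕ) : ℝ) ≤ c.y ^ 5 := by
    have a1 : (x.1 : ℝ) ≤ c.y ^ 2 := by nlinarith [(hth _ (fst_mem_Pset hq.hx)).2.2.1]
    have a2 : (x'.1 : ℝ) ≤ c.y ^ 2 := by nlinarith [(hth _ (fst_mem_Pset hq.hx')).2.2.1]
    push_cast
    calc _ ≤ c.y * c.y ^ 2 * c.y ^ 2 := by gcongr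
      _ = _ := by ring
  have hNa0 : 0 < F.p.r ^ F.p.e * x.1 * x'.1 :=
    Nat.mul_pos (Nat.mul_pos (Nat.pow_pos F.p.r_pos) (mem_Xset.mp hq.hx).2.1.pos)
      (mem_Xset.mp hq.hx').2.1.pos
  generalize hn : nn F.p x x' t t' = n at *
  have hnum := fun cq cq' e (h1 : cq * cq' ≤ Pi c.z n) (h2 : 0 ≤ e) (h3 : e ≤ 2) =>
    num (C := Cd * CL ^ 2) CL hCo hCL hη0 hm1 hS (by positivity : 0 < c.B ^ F.p.k) hi.L_ge hN6 hl5 h1
      (zero_le_one.trans (one_le_Pi _ _)) h2 h3 (hlK.trans hm)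
  have hM1 : 1 ≤ Cs * Real.log c.y ^ (F.u + 3) :=
    one_le_mul_of_one_le_of_one_le hCs (one_le_pow₀ hl1)
  have hMs : 4000 / c.η * (Cs * Real.log c.y ^ (F.u + 3)) ^ 2 ≤ c.y := by
    rw [mul_pow, ← pow_mul, ← mul_assoc]; exact hlS
  generalize Cs * Real.log c.y ^ (F.u + 3) = M at hsup hM1 hMs
  have side : ∀ (t t' : ℤ × ℤ) (L : Type) [Field L] [NumberField L] (K : IQ L),
      IsQ F.p c x x' t t' → dl t t' ≠ 0 → nn F.p x x' t t' = n → K.D = F.p.D t →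
      EqD K.σ c.y c.N F.u n (m ^ 5)⁻¹ → 1 ≤ cc L (M0 F.p.r c.z * F.p.r) n →
      ∃ (𝔞 : Ideal (𝓞 L)) (b : F.p.Co → ℝ), Ideal.absNorm 𝔞 = F.p.r ^ F.p.e * x.1 * x'.1 ∧
        Sd (Sset F.p c.S0 c.L) (fun s => F.p.OnS x s ∧ F.p.OnS x' s) (K.al F.p t)
          (Ideal.span {(n : 𝓞 L)} * 𝔞) (Rs n 𝔞 (kap' L F.p c F.u x x') (Wan c.y c.N F.u 𝔞))
          (Rs n 𝔞 (kap' L F.p c F.u x x') (Lam K.σ c.y c.N F.u n 𝔞))
          (Lip K (Ideal.span {(n : 𝓞 L)} * 𝔞) (Co / (m⁻¹ * c.L * c.B ^ F.p.k)) c.y⁻¹)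
          (Ideal.absNorm (Ideal.span {(n : 𝓞 L)} * 𝔞) * cov L)
          (Cd * CL ^ 2 * cc L (M0 F.p.r c.z * F.p.r) n * (c.S0 * c.B ^ F.p.k) ^ 2)
          ((3 + 2 * Co * CL / c.η) / m ^ 5) ∧
        (∀ s, (0 ≤ kap' L F.p c F.u x x' * Wg F.p c F.u t s x x' ∧
            kap' L F.p c F.u x x' * Wg F.p c F.u t s x x' ≤ M) ∧
          (0 ≤ Rs n 𝔞 (kap' L F.p c F.u x x') (Wan c.y c.N F.u 𝔞) (K.al F.p t s) ∧
            Rs n 𝔞 (kap' L F.p c F.u x x') (Wan c.y c.N F.u 𝔞) (K.al F.p t s) ≤ M) ∧ 0 ≤ b s ∧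
          (kap' L F.p c F.u x x' * Wg F.p c F.u t s x x' ≠
            Rs n 𝔞 (kap' L F.p c F.u x x') (Wan c.y c.N F.u 𝔞) (K.al F.p t s) → 1 ≤ b s)) ∧
        Es F.p c x x' b ≤ 1000 / c.y ∧ |Es F.p c x x' (fun _ => 1) - 1| ≤ c.y⁻¹ ∧
        Es F.p c x x' (fun s => if UnitC n 𝔞 (K.al F.p t s) then 0 else 1) ≤ Pi c.z n - 1 ∧
        ∀ s ∈ Sset F.p c.S0 c.L, |kap' L F.p c F.u x x' * Lam K.σ c.y c.N F.u n 𝔞 (K.al F.p t s) -
          cc L (M0 F.p.r c.z * F.p.r) n| ≤ CL * c.η * cc L (M0 F.p.r c.z * F.p.r) n := by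
    intro t t' L _ _ K hq hd hn hK hE hc
    have hadm := hi.adm y1 hq.ht
    obtain ⟨⟨𝔮, h𝔮⟩, hnorm, -⟩ := hQF F.p t L K hadm hK
    obtain ⟨w1, w2, w3, w4, w5⟩ := hww x x' t t' L K 𝔮 hq hd hK h𝔮
    rw [hn] at w4 w5
    generalize K.a0 F.p 𝔮 t x x' = 𝔞 at w1 w2 w4 w5
    obtain ⟨l1, l2, l3, l4⟩ := hlam x x' t L K 𝔞 n hq.hx hq.hx' hq.ht hK (by omega) w1
    obtain ⟨s1, s2, s3⟩ := hsup x x' t L K hq.hx hq.hx' hq.ht hK
    refine ⟨𝔞, _, w1, ?_, fun s => ⟨⟨mul_nonneg s1 (s2 s).1, (s2 s).2⟩, ?_, ?_, ?_⟩, w5, w3, w4,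
      fun s hs => (l1 s hs).1⟩
    · refine hsd _ _ _ L K _ n c.N 𝔞 c.y _ _ _ _ _ _ CL _ hn3 hN (by linarith) ?_ hCL hc
        (by linarith [(hcl L K).2.1]) ?_ (inv_le_one_of_one_le₀ (one_le_pow₀ hm1)) hE
        (by positivity) (by positivity) s1 l2 l3 l4 (fun s hs => (l1 s hs).2) w2 (by positivity)
        (hnum 1 1 0 (by simpa using one_le_Pi _ _) le_rfl zero_le_two).1
      · intro h
        rw [h, Ideal.absNorm_bot] at w1
        omega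
      · rw [Nat.cast_mul, w1]
        refine size y4 yN (by positivity) hn75 (by positivity) hNa ?_ (by linarith) yCL ?_
        · obtain ⟨-, -, a1, a2⟩ := hD t hq.ht
          rw [hK, abs_of_nonpos (by linarith [pow_nonneg (zero_le_one.trans hB) 4])]
          calc _ ≤ c.y * (c.y ^ 6) ^ 4 := a2.trans (by gcongr; exact hi.B_le)
            _ = c.y ^ 25 := by ring
            _ ≤ _ := pow_le_pow_right₀ y1 (by norm_num)
        · exact hi.S_ge.trans (le_mul_of_one_le_right hS.le hBk)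
    · have h0 : K.al F.p t s ≠ 0 := by
        intro h
        have a1 := (hnorm s).1
        rw [h, Ideal.span_singleton_zero, Ideal.absNorm_bot] at a1
        exact (hadm.N_pos s).ne (by exact_mod_cast a1)
      unfold Rs
      split_ifs
      · exact ⟨mul_nonneg s1 (s3 𝔞 _ h0).1, (s3 𝔞 _ h0).2⟩
      · exact ⟨le_rfl, zero_le_one.trans hM1⟩
    · split_ifs <;> norm_num
    · intro h
      refine (if_neg fun h' => h ?_).ge
      rw [h', Rs]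
      split_ifs
      exacts [rfl, mul_zero _]
  have omg : ∀ (t t' : ℤ × ℤ) (L L' : Type) [Field L] [NumberField L] [Field L'] [NumberField L']
      (K : IQ L) (K' : IQ L') (𝔞 : Ideal (𝓞 L)) (𝔞' : Ideal (𝓞 L')), IsQ F.p c x x' t t' →
      nn F.p x x' t t' = n → K.D = F.p.D t → K'.D = F.p.D t' →
      m⁻¹ ≤ |(t.1 : ℝ) / t.2 - (t'.1 : ℝ) / t'.2| → Ideal.absNorm 𝔞 = F.p.r ^ F.p.e * x.1 * x'.1 →
      Ideal.absNorm 𝔞' = F.p.r ^ F.p.e * x.1 * x'.1 →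
      ∀ s₀ α', α' - K'.al F.p t' s₀ ∈ Ideal.span {(n : 𝓞 L')} * 𝔞' →
        Lip K (Ideal.span {(n : 𝓞 L)} * 𝔞) (Co / (m⁻¹ * c.L * c.B ^ F.p.k)) c.y⁻¹ (K.al F.p t s₀)
          (fun α => om K K' F.p c t t' α α')
          (Co / (m⁻¹ * c.L * c.B ^ F.p.k) ^ 4 *
            (Ideal.absNorm (Ideal.span {(n : 𝓞 L)} * 𝔞) * cov L) *
            (Ideal.absNorm (Ideal.span {(n : 𝓞 L')} * 𝔞') * cov L') *
            ∑ s ∈ Sset F.p c.S0 c.L with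
              K.al F.p t s - K.al F.p t s₀ ∈ Ideal.span {(n : 𝓞 L)} * 𝔞 ∧
              K'.al F.p t' s - K'.al F.p t' s₀ ∈ Ideal.span {(n : 𝓞 L')} * 𝔞',
              wS F.p c.S0 c.L s) := by
    intro t t' L L' _ _ _ _ K K' 𝔞 𝔞' hq hn hK hK' hsep w w' s₀ α' hα'
    have a1 := le_span F.p x x' t t' 𝔞
    have a2 : Ideal.span {(nn F.p x x' t' t : 𝓞 L')} * 𝔞' ≤ Ideal.span
        {((2 * (F.p.r : ℤ) ^ F.p.n0 * t'.1 * dl t t' * F.p.D t' : ℤ) : 𝓞 L')} := by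
      refine (le_span F.p x x' t' t 𝔞').trans (Ideal.span_singleton_le_span_singleton.mpr ?_)
      exact Int.cast_dvd_cast _ _ ⟨-1, by unfold dl; ring⟩
    rw [nn_symm, hn] at a2
    rw [hn] at a1
    have a3 := hom t t' L L' K K' _ _ (n * (F.p.r ^ F.p.e * x.1 * x'.1)) s₀ m⁻¹ _ hq.ht hq.ht' hq.pr
      hq.pr' hK hK' (inv_anti₀ (by positivity) ((le_self_pow₀ hm1 (by norm_num)).trans hl5)) hsep
      (Nat.mul_pos (by omega) hNa0) (by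
        rw [Nat.cast_mul]
        calc _ ≤ c.y ^ 75 * c.y ^ 5 := by gcongr
          _ = _ := by ring)
      (by
        rw [Nat.cast_mul, ← w]
        exact Ideal.mul_mem_mul (Ideal.mem_span_singleton_self _) (Ideal.absNorm_mem 𝔞))
      (by
        rw [Nat.cast_mul, ← w']
        exact Ideal.mul_mem_mul (Ideal.mem_span_singleton_self _) (Ideal.absNorm_mem 𝔞'))
      a1 a2 rfl
    have a4 : ∀ a b c d e : ℝ, a / b * c * d * e = a * e * c * d / b := fun _ _ _ _ _ => by ring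
    rw [a4]
    refine ⟨fun α hα => ?_, fun α β hα hβ => ?_⟩
    · exact (abs_of_nonneg (sum_nonneg fun s _ => wS_nonneg _ _ _ s)).le.trans
        (a3 α α α' α' hα hα hα' hα').1
    · refine (a3 α β α' α' hα hβ hα' hα').2.trans (le_of_eq ?_)
      rw [sub_self, norm_zero, add_zero, div_mul_eq_mul_div Co]
  obtain ⟨𝔞, b, n1, sd, p1, p2, p3, p4, p5⟩ := side t t' L K hq hd hn hK hE hc1
  obtain ⟨𝔞', b', n1', sd', p1', p2', -, -, p5'⟩ := side t' t L' K' (isQ_symm hq) hd'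
    ((nn_symm _ _ _ _ _).trans hn) hK' hE' hc2
  refine final y1 hη0 hi.η_le hM1 hCL hc1 hc2 hc3 p1 p1' p2 p2' hMs p3 p4 p5 p5'
    (U' := fun s => UnitC n 𝔞' (K'.al F.p t' s)) ?_
  have k := PairEst.pair (iP := fun _ => inferInstance) sd sd' (by positivity) (by positivity)
    (wS_nonneg F.p c.S0 c.L) (omg t t' L L' K K' 𝔞 𝔞' hq hn hK hK' hsep n1 n1')
    (omg t' t L' L K' K 𝔞' 𝔞 (isQ_symm hq) ((nn_symm _ _ _ _ _).trans hn) hK' hK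
      (by rwa [abs_sub_comm]) n1' n1)
  have h0 : 0 ≤ Es F.p c x x' fun _ => 1 :=
    (abs_nonneg _).trans (abs_Es_le F.p c x x' (Φ := fun _ => 0) fun _ _ => by simp)
  refine le_trans ?_ (hnum _ _ _ hc3 h0
    (by linarith [(abs_le.mp p3).2, inv_le_one_of_one_le₀ y1])).2
  rw [Es_eq, Es_eq, abs_mul, abs_of_nonneg (by positivity), mul_left_comm]
  refine mul_le_mul_of_nonneg_left ?_ (by positivity)
  simp only [mul_one]
  exact k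

end Pool.Agent.P.MP_b8021b_nt.VE
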