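import Pool.Agent.P.MP_b8021b_nt.VE.StN

/-! N12: the number of invertible residues. -/

namespace Pool.Agent.P.MP_b8021b_nt.VE

open NumberField Finset

namespace PhiP

theorem pre {A B : Type} [AddCommGroup A] [AddCommGroup B] [Finite A] [Finite B] (π : A →+ B)
    (hπ : Function.Surjective π) (p : B → Prop) :
    Nat.card {a // p (π a)} * Nat.card B = Nat.card A * Nat.card {b // p b} := by
  classical
  have := Fintype.ofFinite A
  have := Fintype.ofFinite B
  have key : ∀ T : Finset B, (univ.filter fun a => π a ∈ T).card =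
      T.card * (univ.filter fun a => π a = 0).card := fun T => by
    rw [← sum_card_fiberwise_eq_card_filter, ← smul_eq_mul, ← sum_const]
    exact sum_congr rfl fun b _ => AddMonoidHom.card_fiber_eq_of_mem_range π (hπ b) (hπ 0)
  have h1 := key univ
  have h2 := key (univ.filter p)
  simp only [mem_univ, filter_true, mem_filter, true_and, card_univ] at h1 h2
  simp only [Nat.card_eq_fintype_card, Fintype.card_subtype]
  rw [h1, h2]
  ring

theorem units (A : Type) [CommRing A] : Nat.card Aˣ = Nat.card {a : A // IsUnit a} :=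
  Nat.card_congr Submonoid.unitsTypeEquivIsUnitSubmonoid.toEquiv

variable {L : Type} [Field L] [NumberField L]

/-- the proportion of invertible residues -/
noncomputable def psi (I : Ideal (𝓞 L)) : ℝ := Nat.card (𝓞 L ⧸ I)ˣ / Ideal.absNorm I

theorem fin {I : Ideal (𝓞 L)} (h : I ≠ 0) : Finite (𝓞 L ⧸ I) :=
  (Ideal.absNorm_ne_zero_iff I).1 (mt Ideal.absNorm_eq_zero_iff.1 h)

theorem cardQ (I : Ideal (𝓞 L)) : Nat.card (𝓞 L ⧸ I) = Ideal.absNorm I := rfl

theorem npos {I : Ideal (𝓞 L)} (h : I ≠ 0) : (0 : ℝ) < Ideal.absNorm I :=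
  Nat.cast_pos.2 (Nat.pos_of_ne_zero (mt Ideal.absNorm_eq_zero_iff.1 h))

theorem psi_pos {I : Ideal (𝓞 L)} (h : I ≠ 0) : 0 < psi I := by
  have := fin h
  exact div_pos (Nat.cast_pos.2 Nat.card_pos) (npos h)

theorem psi_dvd {I J : Ideal (𝓞 L)} (hI : I ≠ 0) (h : J ∣ I) : psi (I * J) = psi I := by
  have hJ : J ≠ 0 := ne_zero_of_dvd_ne_zero hI h
  have := fin hI
  have := fin (mul_ne_zero hI hJ)
  have hle : I * J ≤ I := Ideal.le_of_dvd (dvd_mul_right I J)
  have h1 := pre (Ideal.Quotient.factor hle).toAddMonoidHom (Ideal.Quotient.factor_surjective hle)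
    IsUnit
  have h2 : ∀ a : 𝓞 L ⧸ I * J, IsUnit ((Ideal.Quotient.factor hle).toAddMonoidHom a) ↔
      IsUnit a := fun a => by
    refine ⟨fun ha => ?_, fun ha => ha.map (Ideal.Quotient.factor hle)⟩
    obtain ⟨x, rfl⟩ := Ideal.Quotient.mk_surjective a
    obtain ⟨b, hb⟩ := ha.exists_right_inv
    obtain ⟨y, rfl⟩ := Ideal.Quotient.mk_surjective b
    have h3 : x * y - 1 ∈ I := Ideal.Quotient.eq.1 hb
    refine IsUnit.of_mul_eq_one (Ideal.Quotient.mk _ (y * (2 - x * y))) (Ideal.Quotient.eq.2 ?_)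
    have e : x * (y * (2 - x * y)) - 1 = -((x * y - 1) * (x * y - 1)) := by ring
    rw [e]
    exact neg_mem (Ideal.mul_mem_mul h3 (Ideal.le_of_dvd h h3))
  simp only [h2] at h1
  rw [← units, ← units, cardQ, cardQ] at h1
  rw [psi, psi, div_eq_div_iff (npos (mul_ne_zero hI hJ)).ne' (npos hI).ne']
  rw [mul_comm (Ideal.absNorm _)] at h1
  exact_mod_cast h1

theorem psi_prime {I P : Ideal (𝓞 L)} (hI : I ≠ 0) (hP : Prime P) (h : ¬ P ∣ I) :
    psi (I * P) = psi I * (1 - 1 / Ideal.absNorm P) := by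
  have hm : P.IsMaximal := (Ideal.isPrime_of_prime hP).isMaximal hP.ne_zero
  have hc : IsCoprime I P := Ideal.isCoprime_iff_sup_eq.2 (by
    by_contra h'
    exact h (Ideal.dvd_iff_le.2 (le_sup_left.trans (hm.eq_of_le h' le_sup_right).ge)))
  let := Ideal.Quotient.field P
  have h1 : Nat.card (𝓞 L ⧸ I * P)ˣ = Nat.card (𝓞 L ⧸ I)ˣ * Nat.card (𝓞 L ⧸ P)ˣ := by
    rw [← Nat.card_prod]
    exact Nat.card_congr ((Units.mapEquiv
      (Ideal.quotientMulEquivQuotientProd I P hc).toMulEquiv).trans MulEquiv.prodUnits).toEquiv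
  have h2 : Nat.card (𝓞 L ⧸ P)ˣ = Ideal.absNorm P - 1 := Nat.card_units _
  have h3 := npos hI
  have h4 := npos hP.ne_zero
  rw [psi, psi, h1, h2, map_mul, Nat.cast_mul, Nat.cast_mul, Nat.cast_sub (by exact_mod_cast h4)]
  field_simp
  simp

theorem psi_mul {l : ℕ} (hl : l.Prime) (J : Ideal (𝓞 L)) : ∀ (I : Ideal (𝓞 L)) (j : ℕ), I ≠ 0 →
    Ideal.absNorm J ∣ l ^ j → psi I * (1 - 1 / l) ^ j ≤ psi (I * J) ∧ psi (I * J) ≤ psi I := by
  have hl2 : (2 : ℝ) ≤ l := by exact_mod_cast hl.two_le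
  have h0 : (0 : ℝ) ≤ 1 - 1 / l := by
    rw [sub_nonneg, div_le_one (by linarith)]
    linarith
  have h1 : (1 : ℝ) - 1 / l ≤ 1 := sub_le_self _ (by positivity)
  induction J using UniqueFactorizationMonoid.induction_on_prime with
  | h₁ =>
    intro I j _ h
    exact absurd (by simpa using h) (pow_ne_zero j hl.ne_zero)
  | h₂ J hJ =>
    intro I j hI _
    rw [isUnit_iff_eq_one.1 hJ, mul_one]
    exact ⟨mul_le_of_le_one_right (psi_pos hI).le (pow_le_one₀ h0 h1), le_rfl⟩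
  | h₃ J P _ hP ih =>
    intro I j hI h
    rw [map_mul] at h
    obtain ⟨a, ha, hPa⟩ := (Nat.dvd_prime_pow hl).1 (dvd_of_mul_right_dvd h)
    have ha0 : a ≠ 0 := by
      rintro rfl
      exact hP.not_isUnit (isUnit_iff_eq_one.2 (by simpa using hPa))
    have hlP : l ∣ Ideal.absNorm P := hPa ▸ dvd_pow_self l ha0
    obtain ⟨j, rfl⟩ : ∃ j', j = j' + 1 := ⟨j - 1, by omega⟩
    have hJ : Ideal.absNorm J ∣ l ^ j := by
      have h2 := (mul_dvd_mul_right hlP _).trans h
      rwa [pow_succ', Nat.mul_dvd_mul_iff_left hl.pos] at h2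
    obtain ⟨b1, b2⟩ := ih (I * P) j (mul_ne_zero hI hP.ne_zero) hJ
    have hb : psi I * (1 - 1 / l) ≤ psi (I * P) ∧ psi (I * P) ≤ psi I := by
      have hp := (psi_pos hI).le
      by_cases hd : P ∣ I
      · rw [psi_dvd hI hd]
        exact ⟨mul_le_of_le_one_right hp h1, le_rfl⟩
      · have h3 : (l : ℝ) ≤ Ideal.absNorm P := by
          exact_mod_cast Nat.le_of_dvd (by exact_mod_cast npos hP.ne_zero) hlP
        rw [psi_prime hI hP hd]
        exact ⟨mul_le_mul_of_nonneg_left (sub_le_sub_left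
          (one_div_le_one_div_of_le (by linarith) h3) 1) hp,
          mul_le_of_le_one_right hp (sub_le_self _ (by positivity))⟩
    rw [← mul_assoc]
    refine ⟨le_trans ?_ b1, b2.trans hb.2⟩
    rw [pow_succ', ← mul_assoc]
    exact mul_le_mul_of_nonneg_right hb.1 (pow_nonneg h0 j)

theorem sp_ne {n : ℕ} (h : n ≠ 0) : Ideal.span {(n : 𝓞 L)} ≠ 0 := by
  simpa using h

theorem chain (hd : Module.finrank ℚ L = 2) {m : ℕ} (hm : m ≠ 0) (k : ℕ) : k ≠ 0 →
    psi (Ideal.span {((m * k : ℕ) : 𝓞 L)}) ≤ psi (Ideal.span {(m : 𝓞 L)}) ∧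
    psi (Ideal.span {(m : 𝓞 L)}) ≤ psi (Ideal.span {((m * k : ℕ) : 𝓞 L)}) *
      ∏ l ∈ (m * k).primeFactors.filter (fun l => ¬ l ∣ m), (1 - 1 / (l : ℝ))⁻¹ ^ 2 := by
  induction k using induction_on_primes with
  | zero => exact fun h => absurd rfl h
  | one =>
    intro _
    rw [mul_one, filter_false_of_mem fun l hl h => h (Nat.dvd_of_mem_primeFactors hl)]
    simp
  | prime_mul l k hl ih =>
    intro hk
    have hk0 : k ≠ 0 := right_ne_zero_of_mul hk
    have hn : m * k ≠ 0 := mul_ne_zero hm hk0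
    obtain ⟨a1, a2⟩ := ih hk0
    have e : m * (l * k) = m * k * l := by ring
    have e2 : Ideal.span {((m * k * l : ℕ) : 𝓞 L)} =
        Ideal.span {((m * k : ℕ) : 𝓞 L)} * Ideal.span {(l : 𝓞 L)} := by
      rw [Ideal.span_singleton_mul_span_singleton, Nat.cast_mul (m * k)]
    rw [e, e2, Nat.primeFactors_mul hn hl.ne_zero, hl.primeFactors]
    by_cases h : l ∣ m * k
    · rw [psi_dvd (sp_ne hn) (Ideal.dvd_iff_le.2 (Ideal.span_singleton_le_span_singleton.2
        (Nat.cast_dvd_cast h))), union_eq_left.2 (singleton_subset_iff.2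
        (Nat.mem_primeFactors.2 ⟨hl, h, hn⟩))]
      exact ⟨a1, a2⟩
    · obtain ⟨b1, b2⟩ := psi_mul hl (Ideal.span {(l : 𝓞 L)}) _ 2 (sp_ne hn)
        (by rw [Ideal.absNorm_span_natCast, RingOfIntegers.rank, hd])
      refine ⟨b2.trans a1, a2.trans ?_⟩
      have hl2 : (2 : ℝ) ≤ l := by exact_mod_cast hl.two_le
      have h0 : (0 : ℝ) < 1 - 1 / l := by
        rw [sub_pos, div_lt_one (by linarith)]
        linarith
      rw [union_comm, ← insert_eq, filter_insert, if_pos fun h' => h (h'.mul_right k),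
        prod_insert fun h' => h (Nat.dvd_of_mem_primeFactors (mem_filter.1 h').1), ← mul_assoc]
      refine mul_le_mul_of_nonneg_right ?_ (prod_nonneg fun _ _ => sq_nonneg _)
      rw [inv_pow, ← div_eq_mul_inv, le_div_iff₀ (pow_pos h0 2)]
      exact b1

end PhiP

open PhiP in
theorem p_phiP : S_Phi := by
  rintro L _ _ hd m n hn ⟨k, rfl⟩
  have hn0 : m * k ≠ 0 := by omega
  have hm : m ≠ 0 := left_ne_zero_of_mul hn0
  have hN : ∀ n : ℕ, Ideal.absNorm (Ideal.span {(n : 𝓞 L)}) = n ^ 2 := fun n => by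
    rw [Ideal.absNorm_span_natCast, RingOfIntegers.rank, hd]
  have := fin (sp_ne (L := L) hn0)
  obtain ⟨a1, a2⟩ := chain hd hm k (right_ne_zero_of_mul hn0)
  have hp := psi_pos (sp_ne (L := L) hn0)
  have e : cc L m (m * k) =
      psi (Ideal.span {(m : 𝓞 L)}) / psi (Ideal.span {((m * k : ℕ) : 𝓞 L)}) := by
    rw [cc, psi, psi, hN, hN, phi, phi, Nat.cast_pow, Nat.cast_pow]
    have : (m : ℝ) ≠ 0 := Nat.cast_ne_zero.2 hm
    field_simp
  refine ⟨Nat.card_pos, ?_, ?_, ?_⟩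
  · rw [← hN, ← cardQ]
    exact Nat.card_le_card_of_injective _ Units.val_injective
  · rw [e, one_le_div hp]
    exact a1
  · rw [e, div_le_iff₀' hp]
    exact a2

end Pool.Agent.P.MP_b8021b_nt.VE
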