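import Pool.Agent.P.MP_b8021b_nt.VE.PPiP3

/-! N29: averages over the quadruples. -/

namespace Pool.Agent.P.MP_b8021b_nt.VE

open Polynomial Finset Filter Topology
open scoped Classical

namespace PiP

variable {p : Par} {c : Cfg}

lemma inn_add (p : Par) (c : Cfg) (q q' : ℕ) (b : ℝ) (Φ : ℤ × ℤ → ℤ × ℤ → ℝ) :
    inn p c q q' (fun t t' => Φ t t' + b) = inn p c q q' Φ + b * inn p c q q' fun _ _ => 1 := by
  unfold inn
  rw [mul_sum, ← sum_add_distrib]
  refine sum_congr rfl fun t _ => ?_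
  rw [mul_sum, ← sum_add_distrib]
  refine sum_congr rfl fun t' _ => ?_
  split_ifs <;> ring

/-- the five forms -/
def GG (p : Par) (t t' : ℤ × ℤ) : Fin 5 → ℤ := ![t.1, p.D t, t'.1, p.D t', dl t t']

lemma Ctx.HH_nn (h : Ctx p c) (hz : 10 ≤ c.z) (S : Finset ℕ)
    (hS : ∀ l ∈ S, l.Prime ∧ c.z < l ∧ (l : ℝ) < c.y) {x x' : Pt} {t t' : ℤ × ℤ}
    (hI : IsQ p c x x' t t') : HH S 10 (nn p x x' t t') ≤ ∏ i, HH S 10 (GG p t t' i) := by
  unfold HH
  rw [Finset.prod_comm]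
  have one : ∀ (l : ℕ) (n : ℤ), (1 : ℝ) ≤ 1 + if (l : ℤ) ∣ n then 10 / (l : ℝ) else 0 :=
    fun l n => by
      split_ifs
      · exact le_add_of_nonneg_right (by positivity)
      · simp
  refine prod_le_prod (fun l _ => zero_le_one.trans (one _ _)) fun l hl => ?_
  obtain ⟨l1, l2, l3⟩ := hS l hl
  by_cases hd : (l : ℤ) ∣ ((nn p x x' t t' : ℕ) : ℤ)
  · have hp : Prime (l : ℤ) := Nat.prime_iff_prime_int.mp l1
    have nq : ∀ q ∈ Pset c.y c.N, ¬ (l : ℤ) ∣ (q : ℤ) := fun q hq e => by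
      obtain ⟨a1, a2, -⟩ := h.pr q hq
      have := (Nat.prime_dvd_prime_iff_eq l1 a1).mp (Int.natCast_dvd_natCast.mp e)
      rw [this] at l3
      linarith
    have hex : ∃ i, (l : ℤ) ∣ GG p t t' i := by
      have h0 := Int.dvd_natAbs.mp hd
      rcases hp.dvd_or_dvd h0 with h0 | h0
      swap
      · exact ⟨3, h0⟩
      rcases hp.dvd_or_dvd h0 with h0 | h0
      swap
      · exact ⟨1, h0⟩
      rcases hp.dvd_or_dvd h0 with h0 | h0
      swap
      · exact ⟨4, h0⟩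
      rcases hp.dvd_or_dvd h0 with h0 | h0
      swap
      · exact ⟨2, h0⟩
      rcases hp.dvd_or_dvd h0 with h0 | h0
      swap
      · exact ⟨0, h0⟩
      rcases hp.dvd_or_dvd h0 with h0 | h0
      swap
      · exact absurd h0 (nq _ (fst_mem_Pset hI.hx'))
      rcases hp.dvd_or_dvd h0 with h0 | h0
      swap
      · exact absurd h0 (nq _ (fst_mem_Pset hI.hx))
      exfalso
      rcases hp.dvd_or_dvd h0 with h0 | h0
      · have := Int.le_of_dvd (by norm_num) h0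
        omega
      · have := (Nat.prime_dvd_prime_iff_eq l1 p.hr).mp
          (Int.natCast_dvd_natCast.mp (hp.dvd_of_dvd_pow h0))
        have := h.rz
        omega
    obtain ⟨i, hi⟩ := hex
    rw [if_pos hd, ← mul_prod_erase univ _ (mem_univ i), if_pos hi]
    exact le_mul_of_one_le_right (by positivity) (Finset.one_le_prod fun j _ => one _ _)
  · rw [if_neg hd, add_zero]
    exact Finset.one_le_prod fun j _ => one _ _

lemma Ctx.part2 (h : Ctx p c) (hT : S_TEq) (hz : 10 ≤ c.z) (hY : 1 < Real.log c.y / 2) {δ : ℝ}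
    (hδ : Real.exp (1500 / Real.log (Real.log c.y / 2)) ≤ 1 + δ) (hδ1 : δ ≤ 1)
    (hn : ∀ x x' t t', IsQ p c x x' t t' → (nn p x x' t t' : ℝ) ≤ c.y ^ 75) :
    Qs p c (fun x x' t t' => if dl t t' ≠ 0 then Pi c.z (nn p x x' t t') - 1 else 0) ≤
      4 * (20 * (Real.exp (4 * 310 / c.z) - 1) + 2 * δ) := by
  have hy : 0 < c.y := by linarith [h.y1]
  set Y := Real.log c.y / 2 with hYdef
  have hyY : c.y = Real.exp (2 * Y) := by
    rw [hYdef, mul_div_cancel₀ _ two_ne_zero, Real.exp_log hy]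
  have hδ0 : 0 ≤ δ := by
    have := Real.one_le_exp (x := 1500 / Real.log Y) (div_nonneg (by norm_num) (Real.log_pos hY).le)
    linarith
  set S := (range (⌊Y⌋₊ + 1)).filter fun l => l.Prime ∧ c.z < l with hSdef
  have hfl : (⌊Y⌋₊ : ℝ) ≤ Y := Nat.floor_le (by linarith)
  have hS : ∀ l ∈ S, l.Prime ∧ c.z < l ∧ (l : ℝ) < c.y := fun l hl => by
    obtain ⟨h1, h2, h3⟩ := mem_filter.mp hl
    refine ⟨h2, h3, ?_⟩
    have h4 : (l : ℝ) ≤ ⌊Y⌋₊ := by exact_mod_cast Nat.lt_succ_iff.mp (mem_range.mp h1)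
    rw [hyY]
    linarith [Real.add_one_le_exp (2 * Y)]
  have hD : ((∏ l ∈ S, l : ℕ) : ℝ) ≤ c.y := by
    have h1 : ∏ l ∈ S, l ≤ 4 ^ ⌊Y⌋₊ := by
      refine le_trans (Nat.le_of_dvd (primorial_pos _) ?_) (primorial_le_four_pow _)
      exact prod_dvd_prod_of_subset _ _ _ fun l hl =>
        mem_filter.mpr ⟨(mem_filter.mp hl).1, (mem_filter.mp hl).2.1⟩
    have h2 : (4 : ℝ) ≤ Real.exp 2 := by
      have := Real.add_one_le_exp 1
      rw [show (2 : ℝ) = 1 + 1 by norm_num, Real.exp_add]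
      nlinarith
    calc _ ≤ (4 : ℝ) ^ ⌊Y⌋₊ := by exact_mod_cast h1
      _ ≤ Real.exp 2 ^ ⌊Y⌋₊ := by gcongr
      _ = Real.exp (⌊Y⌋₊ * 2) := (Real.exp_nat_mul _ _).symm
      _ ≤ c.y := by rw [hyY]; exact Real.exp_le_exp.mpr (by linarith)
  have hexp : 0 ≤ Real.exp (4 * 310 / c.z) - 1 := by
    have := Real.one_le_exp (x := 4 * 310 / c.z) (by positivity)
    linarith
  have h0 : ∀ t t', 0 ≤ ∑ i, 2 * (HH S 310 (GG p t t' i) - 1) := fun t t' =>
    sum_nonneg fun i _ => by linarith [one_le_HH S (K := 310) (by norm_num) (GG p t t' i)]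
  refine h.qs_le (Φ := fun t t' => ∑ i, 2 * (HH S 310 (GG p t t' i) - 1) + δ) (by positivity)
    (fun t t' => add_nonneg (h0 t t') hδ0) (fun x x' t t' hI => ?_) fun q hq q' hq' hne => ?_
  · split_ifs
    · have a1 := pi_le c.z (nn p x x' t t') hY ((hn _ _ _ _ hI).trans (le_of_eq (by
        rw [hyY, ← Real.exp_nat_mul]; congr 1; push_cast; ring)))
      have a2 := h.HH_nn hz S hS hI
      have a3 := five (fun i => HH S 10 (GG p t t' i)) (fun i => HH S 310 (GG p t t' i))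
        (fun i => one_le_HH S (by norm_num) _) fun i =>
          HH_pow S (fun l hl => by have := (hS l hl).2.1; omega) _
      have a4 := h0 t t'
      rw [← mul_sum] at a4 ⊢
      set σ := ∑ i, (HH S 310 (GG p t t' i) - 1)
      have a5 : Pi c.z (nn p x x' t t') ≤ (1 + σ) * (1 + δ) :=
        a1.trans (mul_le_mul (a2.trans a3) hδ (Real.exp_pos _).le (by linarith))
      nlinarith
    · exact add_nonneg (h0 t t') hδ0
  · have hz1 : 1 ≤ c.z := by omega
    have b := fun (G : ℤ × ℤ → ℤ × ℤ → ℤ) (hG : ∀ t, IsCoprime t.1 t.2 → Frm (G t)) =>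
      h.inn_HH hT hq hq' hne hG S hS hD (K := 310) (by norm_num) hz1
    have b2 := b (fun _ t' => t'.1) fun _ _ => frm_fst
    have b3 := b (fun _ t' => p.D t') fun _ _ => frm_D p
    have b4 := b dl fun _ ht => frm_lin ht
    have b0 := b2
    have b1 := b3
    rw [← inn_swap] at b0 b1
    have b5 := mul_le_mul_of_nonneg_left (h.inn_one hT hq hq' hne) hδ0
    rw [inn_add, inn_lin p c q q' univ (fun _ => 2) fun i t t' => HH S 310 (GG p t t' i) - 1,
      Fin.sum_univ_five]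
    have e : (20 * (Real.exp (4 * 310 / c.z) - 1) + 2 * δ) / (q * q') =
        10 * (2 * (Real.exp (4 * 310 / c.z) - 1) / (q * q')) + δ * (2 / (q * q')) := by ring
    rw [e]
    simp only [GG, Matrix.cons_val]
    linarith

lemma Ctx.part3 (h : Ctx p c) (hT : S_TEq) (hz : 1 ≤ c.z) {C : ℝ} (hC : 0 ≤ C)
    (hb : ∀ t ∈ Tset p c, t.1 < 0 ∧ |(t.1 : ℝ)| ≤ C * c.B) :
    ∑ t ∈ Tset p c with ¬ IsCoprime t.1 t.2, wT p c t ≤
      2 / c.z + 8 * C * ((M0 p.r c.z * p.r ^ p.n0 : ℕ) : ℝ) ^ 2 / c.η ^ 2 / c.y := by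
  have hy2 := h.y1
  have hy : 0 < c.y := by linarith
  have hB := h.Bpos
  have hη := h.ηpos
  set M : ℝ := ((M0 p.r c.z * p.r ^ p.n0 : ℕ) : ℝ) with hM
  have hM0 : 0 < M := by
    have h1 : 0 < M0 p.r c.z := prod_pos fun l hl => (mem_filter.mp hl).2.1.pos
    have h2 := p.hr.pos
    rw [hM]; positivity
  have hy4 : c.y ≤ c.B := le_trans (le_self_pow₀ (by linarith) (by norm_num)) h.B
  have htot := (hT p c 1 ∅ c.τ0 c.τ0 c.B c.B h.τ0 hη h.ηle le_rfl (Nat.coprime_one_left _)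
    (by
      rw [mul_one]
      have : c.η * c.y ≤ c.η * c.B := by gcongr
      linarith [h.big]) le_rfl le_rfl (by linarith) le_rfl le_rfl (by nlinarith)).1
  have hw : ∀ t ∈ Tset p c, wT p c t ≤ 2 * M ^ 2 / (c.η ^ 2 * c.B ^ 2) := fun t ht => by
    have h1 := (mem_T ht).1
    calc wT p c t ≤ c.B⁻¹ / (c.η ^ 2 * c.B / (2 * M ^ 2)) := by
          unfold wT
          exact div_le_div₀ (by positivity) (inv_anti₀ hB h1) (by positivity) htot
      _ = _ := by field_simp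
  let m : ℕ → ℝ := fun l => ∑ t ∈ Tset p c, if (l : ℤ) ∣ t.1 ∧ (l : ℤ) ∣ t.2 then wT p c t else 0
  set S := (range (⌈2 * c.B⌉₊ + 1)).filter fun l => l.Prime ∧ c.z < l with hS
  have s1 : ∑ t ∈ Tset p c with ¬ IsCoprime t.1 t.2, wT p c t ≤ ∑ l ∈ S, m l := by
    simp only [m]
    rw [sum_comm, sum_filter]
    refine sum_le_sum fun t ht => ?_
    have hw0 := h.wT_nonneg ht
    have hnn : ∀ l ∈ S, 0 ≤ if (l : ℤ) ∣ t.1 ∧ (l : ℤ) ∣ t.2 then wT p c t else 0 := fun l _ => by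
      split_ifs
      · exact hw0
      · exact le_rfl
    by_cases hc : IsCoprime t.1 t.2
    · rw [if_neg (not_not.mpr hc)]; exact sum_nonneg hnn
    rw [if_pos hc]
    obtain ⟨l, l1, l2⟩ := Nat.exists_prime_and_dvd (n := Int.gcd t.1 t.2)
      fun e => hc (Int.isCoprime_iff_gcd_eq_one.mpr e)
    have d1 : (l : ℤ) ∣ t.1 := (Int.natCast_dvd_natCast.mpr l2).trans (Int.gcd_dvd_left _ _)
    have d2 : (l : ℤ) ∣ t.2 := (Int.natCast_dvd_natCast.mpr l2).trans (Int.gcd_dvd_right _ _)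
    obtain ⟨t1, t2, -, -, t5, -, -, t8⟩ := mem_T ht
    have nd : ¬ (l : ℤ) ∣ 1 := fun e => l1.one_lt.ne' (by exact_mod_cast Int.eq_one_of_dvd_one (by positivity) e)
    have hl : l ∈ S := by
      refine mem_filter.mpr ⟨mem_range.mpr (Nat.lt_succ_of_le ?_), l1, ?_⟩
      · have t0 : (0 : ℤ) < t.2 := by exact_mod_cast lt_of_lt_of_le hB t1
        have a1 : (l : ℝ) ≤ t.2 := by exact_mod_cast Int.le_of_dvd t0 d2
        have a2 : (l : ℝ) ≤ ⌈2 * c.B⌉₊ := by
          nlinarith [Nat.le_ceil (2 * c.B), h.ηle]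
        exact_mod_cast a2
      · by_contra hlz
        by_cases hr : l = p.r
        · have a1 : (l : ℤ) ∣ t.1 - 1 := by
            refine dvd_trans ?_ t5
            rw [hr]
            exact dvd_pow_self _ (by have := p.hn; omega)
          exact nd (by simpa using dvd_sub d1 a1)
        · have a1 : l ∣ M0 p.r c.z := dvd_prod_of_mem _
            (mem_filter.mpr ⟨mem_range.mpr (by omega), l1, hr⟩)
          exact nd (by simpa using dvd_sub d2 ((Int.natCast_dvd_natCast.mpr a1).trans t8))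
    refine le_trans (le_of_eq ?_) (single_le_sum hnn hl)
    rw [if_pos ⟨d1, d2⟩]
  have s2 : ∀ l ∈ S, (l : ℝ) ≤ c.y → m l ≤ 2 * ((l : ℝ) ^ 2)⁻¹ := fun l hl hly => by
    obtain ⟨-, l1, l2⟩ := mem_filter.mp hl
    have hP : Per l fun t => (l : ℤ) ∣ t.1 ∧ (l : ℤ) ∣ t.2 := fun t t' e1 e2 ht =>
      ⟨by simpa using dvd_sub ht.1 e1, by simpa using dvd_sub ht.2 e2⟩
    have := h.est hT l1.one_le (h.cop l1 l2) (κ := 1) le_rfl
      (by nlinarith [le_self_pow₀ (a := c.y) (n := 3) (by linarith) (by norm_num)]) hP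
      (τ₁ := c.τ0) (τ₂ := c.τ0 + c.η) le_rfl (by linarith) le_rfl
    refine le_trans (sum_le_sum fun t ht => le_of_eq ?_) (this.trans ?_)
    · obtain ⟨-, -, s3, s4, -⟩ := mem_T ht
      by_cases g : (l : ℤ) ∣ t.1 ∧ (l : ℤ) ∣ t.2
      · rw [if_pos g, if_pos ⟨s3, s4, g⟩]
      · rw [if_neg g, if_neg fun hh => g hh.2.2]
    · have b1 : (c.τ0 + c.η - c.τ0) / c.η = 1 := by field_simp; ring
      have b2 : cR l (fun t => (l : ℤ) ∣ t.1 ∧ (l : ℤ) ∣ t.2) ≤ 1 := by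
        refine le_trans (card_le_card (t := {(0, 0)}) fun ab hab => ?_) (by simp)
        obtain ⟨⟨a1, a2⟩, a3, a4⟩ := mem_sR.mp hab
        exact mem_singleton.mpr (Prod.ext
          (Nat.eq_zero_of_dvd_of_lt (Int.natCast_dvd_natCast.mp a3) a1)
          (Nat.eq_zero_of_dvd_of_lt (Int.natCast_dvd_natCast.mp a4) a2))
      have b3 : (cR l (fun t => (l : ℤ) ∣ t.1 ∧ (l : ℤ) ∣ t.2) : ℝ) ≤ 1 := by exact_mod_cast b2
      rw [b1, ← one_div, show (1 : ℝ) + 1 = 2 by norm_num]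
      gcongr
  have s3 : ∀ l ∈ S, m l ≤ 4 * C * M ^ 2 / c.η ^ 2 * ((l : ℝ) ^ 2)⁻¹ := fun l hl => by
    obtain ⟨-, l1, -⟩ := mem_filter.mp hl
    have l0 : (0 : ℝ) < l := by exact_mod_cast l1.pos
    simp only [m]
    rw [← sum_filter]
    set U := (Tset p c).filter fun t => (l : ℤ) ∣ t.1 ∧ (l : ℤ) ∣ t.2 with hU
    have hc : U.card ≤ (Ioc (0 : ℤ) ⌊C * c.B / l⌋₊ ×ˢ Ioc (0 : ℤ) ⌊2 * c.B / l⌋₊).card := by
      refine card_le_card_of_injOn (fun t => (-(t.1 / l), t.2 / l)) ?_ ?_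
      · intro t ht
        obtain ⟨ht1, ⟨a, ha⟩, ⟨b, hb'⟩⟩ := mem_filter.mp (mem_coe.mp ht)
        obtain ⟨u1, u2⟩ := hb t ht1
        obtain ⟨t1, t2, -⟩ := mem_T ht1
        have lz : (0 : ℤ) < l := by exact_mod_cast l1.pos
        have t0 : (0 : ℤ) < t.2 := by exact_mod_cast lt_of_lt_of_le hB t1
        have ea : t.1 / l = a := by rw [ha]; exact Int.mul_ediv_cancel_left _ lz.ne'
        have eb : t.2 / l = b := by rw [hb']; exact Int.mul_ediv_cancel_left _ lz.ne'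
        have fl : ∀ (k : ℤ) (x : ℝ), 0 < k → (k : ℝ) ≤ x → k ≤ (⌊x⌋₊ : ℤ) := fun k x hk hx => by
          lift k to ℕ using hk.le
          exact_mod_cast Nat.le_floor (by exact_mod_cast hx)
        have a0 : 0 < -a := by nlinarith
        have b0 : 0 < b := by nlinarith
        refine mem_coe.mpr (mem_product.mpr ⟨mem_Ioc.mpr ?_, mem_Ioc.mpr ?_⟩)
        · simp only [ea]
          refine ⟨a0, fl _ _ a0 ?_⟩
          rw [le_div_iff₀ l0]
          have := neg_abs_le (t.1 : ℝ)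
          rw [ha] at this u2
          push_cast at this u2 ⊢
          linarith
        · simp only [eb]
          refine ⟨b0, fl _ _ b0 ?_⟩
          rw [le_div_iff₀ l0]
          rw [hb'] at t2
          push_cast at t2
          nlinarith [h.ηle]
      · intro t ht t' ht' he
        obtain ⟨-, a1, a2⟩ := mem_filter.mp (mem_coe.mp ht)
        obtain ⟨-, a3, a4⟩ := mem_filter.mp (mem_coe.mp ht')
        simp only [Prod.mk.injEq, neg_inj] at he
        exact Prod.ext (by rw [← Int.mul_ediv_cancel' a1, he.1, Int.mul_ediv_cancel' a3])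
          (by rw [← Int.mul_ediv_cancel' a2, he.2, Int.mul_ediv_cancel' a4])
    have hc2 : (U.card : ℝ) ≤ (C * c.B / l) * (2 * c.B / l) := by
      rw [card_product, Int.card_Ioc, Int.card_Ioc] at hc
      simp only [sub_zero, Int.toNat_natCast] at hc
      calc (U.card : ℝ) ≤ (⌊C * c.B / l⌋₊ : ℝ) * ⌊2 * c.B / l⌋₊ := by exact_mod_cast hc
        _ ≤ _ := by gcongr <;> exact Nat.floor_le (by positivity)
    calc _ ≤ U.card • (2 * M ^ 2 / (c.η ^ 2 * c.B ^ 2)) :=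
          sum_le_card_nsmul _ _ _ fun t ht => hw t (mem_filter.mp ht).1
      _ ≤ (C * c.B / l) * (2 * c.B / l) * (2 * M ^ 2 / (c.η ^ 2 * c.B ^ 2)) := by
          rw [nsmul_eq_mul]; gcongr
      _ = _ := by field_simp; ring
  refine s1.trans ?_
  rw [← sum_filter_add_sum_filter_not S fun l : ℕ => (l : ℝ) ≤ c.y]
  refine add_le_add ?_ ?_
  · refine (sum_le_sum fun l hl => s2 l (mem_filter.mp hl).1 (mem_filter.mp hl).2).trans ?_
    rw [← mul_sum, div_eq_mul_inv]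
    exact mul_le_mul_of_nonneg_left (sum_inv_sq_le _ hz fun l hl =>
      (mem_filter.mp (mem_filter.mp hl).1).2.2) (by norm_num)
  · refine (sum_le_sum fun l hl => s3 l (mem_filter.mp hl).1).trans ?_
    rw [← mul_sum]
    have f1 : 1 ≤ ⌊c.y⌋₊ := Nat.le_floor (by push_cast; linarith)
    have f2 := sum_inv_sq_le (S.filter fun l : ℕ => ¬ (l : ℝ) ≤ c.y) f1 fun l hl =>
      (Nat.floor_lt hy.le).mpr (not_le.mp (mem_filter.mp hl).2)
    have f3 : ((⌊c.y⌋₊ : ℕ) : ℝ)⁻¹ ≤ (c.y / 2)⁻¹ :=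
      inv_anti₀ (by positivity) (by linarith [Nat.lt_floor_add_one c.y])
    calc _ ≤ 4 * C * M ^ 2 / c.η ^ 2 * (c.y / 2)⁻¹ :=
          mul_le_mul_of_nonneg_left (f2.trans f3) (by positivity)
      _ = _ := by field_simp; ring

lemma sum_wt {y : ℝ} {N : ℕ} (h1 : ∀ i < N, ∑ q ∈ strat y N i, wt y N q = 1)
    (h2 : ∀ i, ∀ q ∈ strat y N i, lv y N q = i) : ∑ q ∈ Pset y N, wt y N q = N := by
  unfold Pset
  rw [sum_biUnion, sum_congr rfl fun i hi => h1 i (mem_range.mp hi)]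
  · simp
  · intro i _ j _ hij
    exact disjoint_left.mpr fun q hi hj => hij ((h2 i q hi).symm.trans (h2 j q hj))

end PiP

open PiP in
theorem p_piP (hTheta : S_Theta) (hTEq : S_TEq) (hFlat : S_Flat) : S_Pi := by
  intro p ε hε
  have ez : ∀ᶠ z : ℕ in atTop, Real.exp (4 * 310 / z) - 1 ≤ ε / 160 ∧ 2 / (z : ℝ) ≤ ε / 2 := by
    have t1 : Tendsto (fun z : ℕ => Real.exp (4 * 310 / z) - 1) atTop (𝓝 (Real.exp 0 - 1)) :=
      ((Real.continuous_exp.tendsto 0).comp (tendsto_const_div_atTop_nhds_zero_nat _)).sub_const 1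
    rw [Real.exp_zero, sub_self] at t1
    exact (t1.eventually_le_const (by positivity)).and
      ((tendsto_const_div_atTop_nhds_zero_nat (2 : ℝ)).eventually_le_const (by positivity))
  obtain ⟨z₁, hz₁⟩ := eventually_atTop.mp ez
  refine ⟨max z₁ (max 10 p.r), fun F hp hz hA => ⟨4 * (2 / F.η + 1), ?_⟩⟩
  obtain ⟨C, hC, hF⟩ := hFlat p F.τ0
  obtain ⟨y₁, hy₁⟩ := hF F hp rfl
  obtain ⟨y₂, hy₂⟩ := hTheta (6 * F.A + 1)
  have hη := F.ηpos
  set M : ℝ := ((M0 p.r F.z * p.r ^ p.n0 : ℕ) : ℝ) with hM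
  have tl : Tendsto (fun y : ℝ => Real.log y / 2) atTop atTop :=
    Real.tendsto_log_atTop.atTop_div_const two_pos
  have t2 : Tendsto (fun y : ℝ => Real.exp (1500 / Real.log (Real.log y / 2))) atTop
      (𝓝 (Real.exp 0)) := (Real.continuous_exp.tendsto 0).comp
    (tendsto_const_nhds.div_atTop (Real.tendsto_log_atTop.comp tl))
  rw [Real.exp_zero] at t2
  have t3 : Tendsto (fun y : ℝ => 8 * C * M ^ 2 / F.η ^ 2 / y) atTop (𝓝 0) :=
    tendsto_const_nhds.div_atTop tendsto_id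
  have hm : 0 < min 1 (ε / 16) := lt_min one_pos (by positivity)
  have ey := (eventually_ge_atTop y₁).and ((eventually_ge_atTop y₂).and
    ((eventually_ge_atTop (2 : ℝ)).and ((eventually_ge_atTop (180 * M / F.η)).and
    ((eventually_gt_atTop (F.z : ℝ)).and ((tl.eventually_gt_atTop 1).and
    ((t2.eventually_le_const (show (1 : ℝ) < 1 + min 1 (ε / 16) by linarith)).and
    (t3.eventually_le_const (show (0 : ℝ) < ε / 2 by positivity))))))))
  obtain ⟨y₀, hy₀⟩ := eventually_atTop.mp ey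
  refine ⟨y₀, fun c hy hIn => ?_⟩
  obtain ⟨e1, e2, e3, e4, e5, e6, e7, e8⟩ := hy₀ c.y hy
  obtain ⟨-, -, -, f4, f5⟩ := hy₁ c e1 hIn
  have hl : 2 ≤ Real.log c.y := by linarith
  have hN1 : 1 ≤ c.N := by
    have : (1 : ℝ) ≤ c.N := (one_le_pow₀ (by linarith)).trans hIn.N_ge
    exact_mod_cast this
  obtain ⟨-, g2, g3, g4⟩ := hy₂ c.y e2 c.N hN1 (hIn.N_le.trans (by
    rw [pow_succ, mul_comm]
    exact mul_le_mul_of_nonneg_left hl (by positivity)))
  have z1 : z₁ ≤ F.z := (le_max_left _ _).trans hz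
  have z2 : 10 ≤ F.z := ((le_max_left _ _).trans (le_max_right _ _)).trans hz
  have z3 : p.r ≤ F.z := ((le_max_right _ _).trans (le_max_right _ _)).trans hz
  have hc : Ctx p c :=
    { τ0 := hIn.τ0 ▸ F.tau.1
      ηpos := hIn.η ▸ hη
      ηle := hIn.η ▸ F.ηle
      y1 := e3
      B := hIn.B_ge
      big := by
        rw [hIn.η, hIn.z, mul_comm F.η]
        exact (div_le_iff₀ hη).mp e4
      rz := hIn.z ▸ z3
      zy := hIn.z ▸ e5
      N1 := hN1
      sum := sum_wt g2 g3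
      pr := fun q hq => ⟨(g4 q hq).1, (g4 q hq).2.1, (g4 q hq).2.2.1, (g4 q hq).2.2.2.2.2.1⟩ }
  obtain ⟨k1, k2⟩ := hz₁ F.z z1
  refine ⟨hc.part1 hTEq, ?_, ?_, fun ζ hζ => hIn.η ▸ hc.part4 hTEq hζ⟩
  · refine (hc.part2 hTEq (hIn.z ▸ z2) e6 e7 (min_le_left _ _) f5).trans ?_
    rw [hIn.z]
    linarith [min_le_right 1 (ε / 16)]
  · refine (hc.part3 hTEq (by rw [hIn.z]; omega) (by linarith)
      fun t ht => ⟨(f4 t ht).1, (f4 t ht).2.1⟩).trans ?_
    rw [hIn.z, hIn.η]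
    linarith

end Pool.Agent.P.MP_b8021b_nt.VE
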