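import Pool.Agent.P.MP_b8021b_nt.VE.PIqb1
import Pool.Agent.P.MP_b8021b_nt.VE.BasicP

/-! N6: the ideals attached to points and sections on a fibre. -/

namespace Pool.Agent.P.MP_b8021b_nt.VE

open NumberField Polynomial

namespace Qf

variable {L : Type} [Field L] [NumberField L] (K : IQ L)

theorem cop_of_norm {I J : Ideal (𝓞 L)} (h : (Ideal.absNorm I).Coprime (Ideal.absNorm J)) :
    IsCoprime I J := by
  obtain ⟨u, v, huv⟩ := Nat.isCoprime_iff_coprime.2 h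
  have h1 := congrArg (Int.cast : ℤ → 𝓞 L) huv
  push_cast at h1
  exact Ideal.isCoprime_iff_exists.2 ⟨_, I.mul_mem_left _ (Ideal.absNorm_mem I), _,
    J.mul_mem_left _ (Ideal.absNorm_mem J), h1⟩

theorem map_map_c (I : Ideal (𝓞 L)) : (I.map K.c).map K.c = I := by
  refine le_antisymm (Ideal.map_le_iff_le_comap.2 (Ideal.map_le_iff_le_comap.2 fun β hβ => ?_))
    fun β hβ => ?_
  · simpa [Ideal.mem_comap, Iqb.cc] using hβ
  · rw [← Iqb.cc K β]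
    exact Ideal.mem_map_of_mem _ (Ideal.mem_map_of_mem _ hβ)

theorem pow_dvd {𝔮 : Ideal (𝓞 L)} (hp : Prime 𝔮) (hc : 𝔮.map K.c = 𝔮) (e : ℕ) :
    ∀ I : Ideal (𝓞 L), 𝔮 ^ (2 * e) ∣ I * I.map K.c → 𝔮 ^ e ∣ I := by
  induction e with
  | zero => simp
  | succ e ih =>
    intro I h
    have h1 : 𝔮 ∣ I := by
      rcases hp.dvd_or_dvd ((dvd_pow_self 𝔮 (by omega)).trans h) with h1 | h1
      · exact h1
      · obtain ⟨J, hJ⟩ := h1
        refine ⟨J.map K.c, ?_⟩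
        rw [← map_map_c K I, hJ, Ideal.map_mul, hc]
    obtain ⟨J, rfl⟩ := h1
    rw [Ideal.map_mul, hc] at h
    have h2 : 𝔮 ^ 2 * 𝔮 ^ (2 * e) ∣ 𝔮 ^ 2 * (J * J.map K.c) := by
      have h3 : 𝔮 ^ 2 * 𝔮 ^ (2 * e) = 𝔮 ^ (2 * (e + 1)) := by ring
      have h4 : 𝔮 ^ 2 * (J * J.map K.c) = 𝔮 * J * (𝔮 * J.map K.c) := by ring
      rw [h3, h4]
      exact h
    rw [pow_succ']
    exact mul_dvd_mul_left _ (ih J ((mul_dvd_mul_iff_left (pow_ne_zero 2 hp.ne_zero)).1 h2))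

variable {p : Par} {t : ℤ × ℤ}

theorem norm_al (hD : K.D = p.D t) (s : p.Co) :
    (Ideal.absNorm (Ideal.span {K.al p t s}) : ℤ) = p.N s t := by
  have h := Iqb.absNorm_span K (K.al p t s)
  rw [IQ.al, Iqb.norm_lin, hD] at h
  rw [Par.N, IQ.al]
  exact_mod_cast h

theorem not_dvd {x : Pt} (hx : p.IsPt x) (ht : OnT x t) : ¬ (x.1 : ℤ) ∣ t.1 * p.D t := by
  have hp : Prime (x.1 : ℤ) := Nat.prime_iff_prime_int.mp hx.1
  obtain ⟨-, -, -, h1, h2, h3, h4, -⟩ := id hx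
  intro h
  rcases hp.dvd_or_dvd h with h | h
  · have h5 : (x.1 : ℤ) ∣ x.2.1 * t.2 := by
      have := dvd_sub h ht.1
      rwa [sub_sub_cancel] at this
    rcases hp.dvd_or_dvd h5 with h6 | h6
    · exact absurd (Nat.le_of_dvd h1 (Int.natCast_dvd_natCast.1 h6)) (by omega)
    · exact ht.2 h6
  · have h5 : (x.1 : ℤ) ∣ (t.2 ^ 2 * x.2.2) ^ 2 := by
      have := dvd_sub h (hx.dvd_D ht)
      rwa [sub_sub_cancel] at this
    rcases hp.dvd_or_dvd (hp.dvd_of_dvd_pow h5) with h6 | h6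
    · exact ht.2 (hp.dvd_of_dvd_pow h6)
    · exact absurd (Nat.le_of_dvd h3 (Int.natCast_dvd_natCast.1 h6)) (by omega)

theorem not_dvd2 (hD : K.D = p.D t) {x : Pt} (hx : p.IsPt x) (ht : OnT x t) :
    ¬ (x.1 : ℤ) ∣ 2 * K.D := by
  have hp : Prime (x.1 : ℤ) := Nat.prime_iff_prime_int.mp hx.1
  intro h
  rcases hp.dvd_or_dvd h with h | h
  · exact hx.2.1 ((Nat.prime_dvd_prime_iff_eq hx.1 Nat.prime_two).1 (by exact_mod_cast h))
  · exact not_dvd hx ht ((hD ▸ h).mul_left _)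

/-- the ideal of a point is the kernel of a homomorphism -/
theorem J_ker (hD : K.D = p.D t) {x : Pt} (hx : p.IsPt x) (ht : OnT x t) :
    ∃ φ : 𝓞 L →+* ZMod x.1, φ K.ω = ((t.2 ^ 2 * x.2.2 : ℤ) : ZMod x.1) ∧
      K.J t x = RingHom.ker φ := by
  have := Fact.mk hx.1
  have h := not_dvd2 K hD hx ht
  obtain ⟨φ, hφ⟩ := Iqb.exists_hom K h (w := ((t.2 ^ 2 * x.2.2 : ℤ) : ZMod x.1)) (by
    have h1 := (ZMod.intCast_eq_intCast_iff_dvd_sub _ _ _).2 (hx.dvd_D ht)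
    rw [hD, ← h1, Int.cast_pow])
  exact ⟨φ, hφ, (Iqb.ker_eq K h φ hφ).symm⟩

theorem norm_J (hD : K.D = p.D t) {x : Pt} (hx : p.IsPt x) (ht : OnT x t) :
    Ideal.absNorm (K.J t x) = x.1 := by
  have := Fact.mk hx.1
  obtain ⟨φ, -, h⟩ := J_ker K hD hx ht
  rw [h, Iqb.absNorm_ker]

theorem J_conj {x : Pt} (hx : p.IsPt x) : (K.J t x).map K.c = K.J t (inv x) := by
  have h : x.2.2 ≤ x.1 := hx.2.2.2.2.2.2.1.le
  simp only [IQ.J, inv, Ideal.map_span, Set.image_pair, map_natCast, map_sub, map_intCast, K.cω,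
    Nat.cast_sub h]
  push_cast
  refine le_antisymm ?_ ?_ <;> rw [Ideal.span_le] <;> rintro _ (rfl | rfl)
  · exact Ideal.subset_span (by simp)
  · exact Ideal.mem_span_pair.2 ⟨-(t.2 : 𝓞 L) ^ 2, -1, by ring⟩
  · exact Ideal.subset_span (by simp)
  · exact Ideal.mem_span_pair.2 ⟨-(t.2 : 𝓞 L) ^ 2, -1, by ring⟩

theorem onS_iff (hD : K.D = p.D t) {x : Pt} (hx : p.IsPt x) (ht : OnT x t) (s : p.Co) :
    p.OnS x s ↔ K.al p t s ∈ K.J t x := by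
  obtain ⟨φ, h1, h2⟩ := J_ker K hD hx ht
  rw [h2, RingHom.mem_ker, Par.onS_iff hx.1 ht, ← ZMod.intCast_zmod_eq_zero_iff_dvd, IQ.al,
    map_add, map_mul, map_intCast, map_intCast, h1, Int.cast_add, Int.cast_mul]

theorem J_inj (hD : K.D = p.D t) {x x' : Pt} (hx : p.IsPt x) (ht : OnT x t) (hx' : p.IsPt x')
    (ht' : OnT x' t) (h : K.J t x = K.J t x') : x = x' := by
  have h0 : x.1 = x'.1 := by rw [← norm_J K hD hx ht, h, norm_J K hD hx' ht']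
  obtain ⟨q, a, w⟩ := x
  obtain ⟨q', a', w'⟩ := x'
  obtain rfl : q = q' := h0
  have hp : Prime (q : ℤ) := Nat.prime_iff_prime_int.mp hx.1
  have hsm : ∀ m m' : ℕ, m < q → m' < q → (q : ℤ) ∣ m - m' → m = m' := fun m m' h1 h2 h3 => by
    have := Int.eq_zero_of_abs_lt_dvd h3 (abs_lt.2 ⟨by omega, by omega⟩)
    omega
  obtain ⟨φ, h1, h2⟩ := J_ker K hD hx ht
  have h3 : K.ω - ((t.2 ^ 2 * w' : ℤ) : 𝓞 L) ∈ RingHom.ker φ := by
    rw [← h2, h]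
    exact Ideal.subset_span (by simp)
  rw [RingHom.mem_ker, map_sub, map_intCast, h1, ← Int.cast_sub,
    ZMod.intCast_zmod_eq_zero_iff_dvd, ← mul_sub] at h3
  have h4 : (q : ℤ) ∣ (a - a') * t.2 := by
    have := dvd_sub ht'.1 ht.1
    simp only at this
    rwa [sub_sub_sub_cancel_left, ← sub_mul] at this
  rw [hsm a a' hx.2.2.2.2.1 hx'.2.2.2.2.1 ((hp.dvd_or_dvd h4).resolve_right ht.2),
    hsm w w' hx.2.2.2.2.2.2.1 hx'.2.2.2.2.2.2.1
      ((hp.dvd_or_dvd h3).resolve_left fun h5 => ht.2 (hp.dvd_of_dvd_pow h5))]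

theorem J_surj (hD : K.D = p.D t) {q : ℕ} {I : Ideal (𝓞 L)} (hq : q.Prime)
    (h : ¬ (q : ℤ) ∣ 2 * p.r * t.1 * p.D t) (hI : Ideal.absNorm I = q) :
    ∃ x : Pt, x.1 = q ∧ p.IsPt x ∧ OnT x t ∧ K.J t x = I := by
  have := Fact.mk hq
  have h0 : (2 * p.r * t.1 * p.D t : ZMod q) ≠ 0 := fun h' =>
    h ((ZMod.intCast_zmod_eq_zero_iff_dvd _ _).1 (by exact_mod_cast h'))
  simp only [ne_eq, mul_eq_zero, not_or] at h0
  obtain ⟨⟨⟨h2, hr⟩, ha⟩, hd⟩ := h0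
  have hb : (t.2 : ZMod q) ≠ 0 := fun h' => hd (by rw [p.D_eq, Int.cast_mul, h', zero_mul])
  obtain ⟨φ, rfl⟩ := Iqb.exists_ker hI
  have hw := Iqb.hom_sq K φ
  rw [hD] at hw
  have hw0 : φ K.ω ≠ 0 := fun h' => hd (by rw [← hw, h', zero_pow two_ne_zero])
  have hτ : (t.1 : ZMod q) = t.1 / t.2 * t.2 := (div_mul_cancel₀ _ hb).symm
  have h2D : ¬ (q : ℤ) ∣ 2 * K.D := fun h' => by
    have h3 := (ZMod.intCast_zmod_eq_zero_iff_dvd _ _).2 h'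
    rw [hD, Int.cast_mul, mul_eq_zero] at h3
    exact h3.elim (fun h4 => h2 (by exact_mod_cast h4)) hd
  refine ⟨(q, ((t.1 : ZMod q) / t.2).val, (φ K.ω / t.2 ^ 2).val), rfl,
    ⟨hq, ?_, ?_, ?_, ZMod.val_lt _, ?_, ZMod.val_lt _, ?_⟩, ⟨?_, ?_⟩, ?_⟩
  · rintro rfl
    exact h2 rfl
  · intro h3
    exact hr (by rw [← h3]; exact ZMod.natCast_self q)
  · exact (ZMod.val_pos).2 (div_ne_zero ha hb)
  · exact (ZMod.val_pos).2 (div_ne_zero hw0 (pow_ne_zero 2 hb))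
  · rw [← ZMod.intCast_zmod_eq_zero_iff_dvd, Int.cast_sub, ← aeval_intCast]
    simp only [Int.cast_pow, Int.cast_natCast, ZMod.natCast_zmod_val]
    rw [div_pow, hw, p.D_cast hτ]
    field_simp
    ring
  · rw [← ZMod.intCast_zmod_eq_zero_iff_dvd]
    simp only [Int.cast_sub, Int.cast_mul, Int.cast_natCast, ZMod.natCast_zmod_val]
    rw [← hτ, sub_self]
  · rw [← ZMod.intCast_zmod_eq_zero_iff_dvd]
    exact hb
  · refine (Iqb.ker_eq K h2D φ ?_).symm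
    simp only [Int.cast_mul, Int.cast_pow, Int.cast_natCast, ZMod.natCast_zmod_val]
    field_simp

theorem ram (hD : K.D = p.D t) (ht : p.Adm t) :
    ∃ 𝔮 : Ideal (𝓞 L), 𝔮 ^ 2 = Ideal.span {(p.r : 𝓞 L)} := by
  have hn : 2 ≤ p.n0 := by have := p.hn; omega
  obtain ⟨a, ha⟩ := ht.r_dvd.1
  obtain ⟨b, hb⟩ := (pow_dvd_pow (p.r : ℤ) hn).trans ht.2.2.2
  have h1 : t.1 = 1 + p.r * a := by linarith
  have h2 : t.2 = p.r * (1 + p.r * b) := by linear_combination hb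
  obtain ⟨m, hm⟩ : ∃ m : ℤ, K.D = p.r * (1 + p.r * m) := by
    rw [hD, p.D_eq', h1, h2]
    generalize p.f.coeff 2 = c2
    generalize p.f.coeff 1 = c1
    generalize p.f.coeff 0 = c0
    generalize (p.r : ℤ) = r
    exact ⟨b + (1 + r * b) * (3 * a + 3 * r * a ^ 2 + r ^ 2 * a ^ 3 +
      c2 * (1 + r * a) ^ 2 * (1 + r * b) + c1 * (1 + r * a) * r * (1 + r * b) ^ 2 +
      c0 * r ^ 2 * (1 + r * b) ^ 3), by ring⟩
  have hw := K.sq
  rw [hm] at hw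
  push_cast at hw
  refine ⟨Ideal.span {(p.r : 𝓞 L), K.ω}, le_antisymm ?_ ?_⟩
  · rw [sq, Ideal.span_mul_span', Ideal.span_le]
    rintro _ ⟨u, rfl | rfl, v, rfl | rfl, rfl⟩ <;> refine Ideal.mem_span_singleton.2 ?_
    · exact dvd_mul_right _ _
    · exact dvd_mul_right _ _
    · exact dvd_mul_left _ _
    · exact ⟨_, (sq _).symm.trans hw⟩
  · rw [Ideal.span_le, Set.singleton_subset_iff]
    have h3 : (p.r : 𝓞 L) = K.ω ^ 2 - m * (p.r : 𝓞 L) ^ 2 := by linear_combination -hw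
    have h4 : K.ω ^ 2 - m * (p.r : 𝓞 L) ^ 2 ∈ Ideal.span {(p.r : 𝓞 L), K.ω} ^ 2 :=
      sub_mem (Ideal.pow_mem_pow (Ideal.subset_span (by simp)) 2)
        (Ideal.mul_mem_left _ _ (Ideal.pow_mem_pow (Ideal.subset_span (by simp)) 2))
    rwa [← h3] at h4

end Qf

theorem p_qf (_hIQb : S_IQb) : S_QF := by
  intro p t L _ _ K ht hD
  refine ⟨Qf.ram K hD ht, fun s => ⟨Qf.norm_al K hD s, ht.N_val s⟩,
    fun x hx hx' => ⟨Qf.norm_J K hD hx hx', Qf.J_conj K hx, Qf.not_dvd hx hx',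
      Qf.onS_iff K hD hx hx'⟩, fun x x' => Qf.J_inj K hD, fun q I => Qf.J_surj K hD,
    fun 𝔮 h𝔮 => ?_⟩
  have h1 : Ideal.absNorm 𝔮 = p.r := by
    have h := congrArg Ideal.absNorm h𝔮
    rw [map_pow, Iqb.absNorm_nat K] at h
    exact Nat.pow_left_injective two_ne_zero h
  have h0 : 𝔮 ≠ 0 := fun h => p.hr.ne_zero (by rw [← h1, h, map_zero])
  have h2 : 𝔮.map K.c = 𝔮 := by
    apply mul_left_cancel₀ h0
    rw [Iqb.mul_map_c, h1, ← h𝔮, sq]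
  have h3 : Prime 𝔮 := Ideal.prime_of_isPrime h0
    (Ideal.isPrime_of_irreducible_absNorm (h1 ▸ p.hr))
  have h4 : ∀ s, 𝔮 ^ p.e ∣ Ideal.span {K.al p t s} := fun s => by
    refine Qf.pow_dvd K h3 h2 _ _ ?_
    rw [Iqb.mul_map_c, pow_mul, h𝔮, Ideal.span_singleton_pow,
      Ideal.dvd_span_singleton, Ideal.mem_span_singleton]
    have h5 := map_dvd (Int.castRingHom (𝓞 L)) (Qf.norm_al K hD s ▸ (ht.N_val s).1)
    simpa using h5
  refine ⟨h1, h2, fun s => Ideal.dvd_span_singleton.1 (h4 s), fun n s x hx => ?_⟩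
  have h5 : ∀ i, Ideal.absNorm (K.J t (x i)) = (x i).1 := fun i =>
    Qf.norm_J K hD (hx.1 i).1 (hx.1 i).2.1
  have h6 : 𝔮 ^ p.e * ∏ i, K.J t (x i) ∣ Ideal.span {K.al p t s} := by
    refine IsCoprime.mul_dvd (IsCoprime.pow_left (IsCoprime.prod_right fun i _ =>
      Qf.cop_of_norm ?_)) (h4 s) (Finset.prod_dvd_of_coprime (fun i _ j _ hij =>
      Qf.cop_of_norm ?_) fun i _ => Ideal.dvd_span_singleton.2
        ((Qf.onS_iff K hD (hx.1 i).1 (hx.1 i).2.1 s).1 (hx.1 i).2.2))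
    · rw [h1, h5]
      exact (Nat.coprime_primes p.hr (hx.1 i).1.1).2 (hx.1 i).1.2.2.1.symm
    · rw [h5, h5]
      exact (Nat.coprime_primes (hx.1 i).1.1 (hx.1 j).1.1).2 fun h => hij (hx.2.1 h)
  obtain ⟨I, hI⟩ := h6
  have h7 := Qf.norm_al K hD s
  have h8 := ht.N_pos s
  rw [hI, map_mul, map_mul, map_pow, map_prod, h1, Finset.prod_congr rfl fun i _ => h5 i] at h7
  push_cast at h7
  rw [← hx.2.2] at h7
  have h9 : Ideal.absNorm I = 1 := by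
    exact_mod_cast (mul_right_eq_self₀.1 h7).resolve_right h8.ne'
  rw [hI, Ideal.absNorm_eq_one_iff.1 h9, Ideal.mul_top]

end Pool.Agent.P.MP_b8021b_nt.VE
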