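import Pool.Agent.P.MP_b8021b_nt.VE.StA

/-! A6a: the core elements and the rationals generate a quadratic field up to torsion. -/

namespace Pool.Agent.P.MP_b8021b_nt.VE

open NumberField
open scoped nonZeroDivisors

namespace QuadGen

variable {L : Type} [Field L] [NumberField L]

theorem indep {D : ℤ} {ω : L} (hω : ω ^ 2 = D) (hD : ¬ IsSquare D) (x y : ℚ)
    (h : (x : L) + y * ω = 0) : x = 0 ∧ y = 0 := by
  have hy : y = 0 := by
    by_contra hy
    have hy' : (y : L) ≠ 0 := by exact_mod_cast hy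
    have e : ω = ((-x / y : ℚ) : L) := by
      push_cast
      field_simp
      linear_combination h
    apply hD
    rw [← Rat.isSquare_intCast_iff]
    refine ⟨-x / y, ?_⟩
    have : ((D : ℚ) : L) = ((-x / y * (-x / y) : ℚ) : L) := by
      rw [Rat.cast_mul, ← e, Rat.cast_intCast, ← hω, sq]
    exact_mod_cast this
  subst hy
  refine ⟨?_, rfl⟩
  simpa using h

/-- coordinates and the conjugation -/
theorem conj {D : ℤ} {ω : L} (hω : ω ^ 2 = D) (hD : ¬ IsSquare D) (h2 : Module.finrank ℚ L = 2) :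
    (∀ a : L, ∃ x y : ℚ, a = x + y * ω) ∧
      ∃ σ : L →+* L, ∀ x y : ℚ, σ (x + y * ω) = x - y * ω := by
  have hli : LinearIndependent ℚ ![(1 : L), ω] := by
    rw [LinearIndependent.pair_iff]
    intro s t h
    refine indep hω hD s t ?_
    simpa [Rat.smul_def] using h
  let b := basisOfLinearIndependentOfCardEqFinrank hli (by simp [h2])
  have hb0 : b 0 = 1 := by simp [b]
  have hb1 : b 1 = ω := by simp [b]
  have rep : ∀ a : L, ∃ x y : ℚ, a = x + y * ω := fun a => by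
    refine ⟨b.repr a 0, b.repr a 1, ?_⟩
    have := b.sum_repr a
    rw [Fin.sum_univ_two, hb0, hb1] at this
    simpa [Rat.smul_def] using this.symm
  let f : L →ₗ[ℚ] L := b.constr ℚ ![1, -ω]
  have hf : ∀ x y : ℚ, f (x + y * ω) = x - y * ω := fun x y => by
    have e : (x : L) + y * ω = x • b 0 + y • b 1 := by simp [hb0, hb1, Rat.smul_def]
    rw [e, map_add, map_smul, map_smul, Module.Basis.constr_basis, Module.Basis.constr_basis]
    simp [Rat.smul_def, sub_eq_add_neg]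
  have h1 : f 1 = 1 := by simpa using hf 1 0
  have hm : ∀ a c, f (a * c) = f a * f c := fun a c => by
    obtain ⟨x, y, rfl⟩ := rep a
    obtain ⟨z, w, rfl⟩ := rep c
    have e : ((x : L) + y * ω) * (z + w * ω) =
        ((x * z + y * w * D : ℚ) : L) + ((x * w + y * z : ℚ) : L) * ω := by
      push_cast
      linear_combination (y * w : L) * hω
    rw [e, hf, hf, hf]
    push_cast
    linear_combination (-(y * w) : L) * hω
  exact ⟨rep, (AlgHom.ofLinearMap f h1 hm).toRingHom, hf⟩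

/-- the data used below -/
structure Dat (D : ℤ) (ω : L) (s : 𝓞 L →+* 𝓞 L) : Prop where
  sq : ω ^ 2 = D
  ns : ¬ IsSquare D
  rep : ∀ a : 𝓞 L, ∃ x y : ℚ, algebraMap (𝓞 L) L a = x + y * ω ∧
    algebraMap (𝓞 L) L (s a) = x - y * ω

variable {D : ℤ} {ω : L} {s : 𝓞 L →+* 𝓞 L}

omit [NumberField L] in
theorem Dat.ne (H : Dat D ω s) : D ≠ 0 := fun h => H.ns (h ▸ IsSquare.zero)

theorem Dat.of (H : Dat D ω s) (a : 𝓞 L) (x y : ℚ) (h : algebraMap (𝓞 L) L a = x + y * ω) :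
    algebraMap (𝓞 L) L (s a) = x - y * ω := by
  obtain ⟨x', y', h1, h2⟩ := H.rep a
  have := indep H.sq H.ns (x - x') (y - y') (by push_cast; linear_combination h1 - h)
  rw [h2, sub_eq_zero.1 this.1, sub_eq_zero.1 this.2]

theorem Dat.ss (H : Dat D ω s) (a : 𝓞 L) : s (s a) = a := by
  obtain ⟨x, y, h1, h2⟩ := H.rep a
  have := H.of (s a) x (-y) (by rw [h2]; push_cast; ring)
  apply IsFractionRing.injective (𝓞 L) L
  rw [this, h1]
  push_cast
  ring

theorem Dat.fix (H : Dat D ω s) (a : 𝓞 L) (h : s a = a) : ∃ n : ℤ, a = n := by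
  obtain ⟨x, y, h1, h2⟩ := H.rep a
  rw [h, h1] at h2
  have := (indep H.sq H.ns 0 (2 * y) (by push_cast; linear_combination h2)).2
  have hy : y = 0 := by linarith
  subst hy
  have e : algebraMap (𝓞 L) L a = algebraMap ℚ L x := by simpa using h1
  have hi : IsIntegral ℤ (algebraMap ℚ L x) := e ▸ a.isIntegral_coe
  obtain ⟨n, hn⟩ := IsIntegrallyClosed.algebraMap_eq_of_integral
    ((isIntegral_algebraMap_iff (algebraMap ℚ L).injective).1 hi)
  refine ⟨n, IsFractionRing.injective (𝓞 L) L ?_⟩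
  rw [e, ← hn]
  simp

theorem Dat.tr (H : Dat D ω s) (a : 𝓞 L) : ∃ n : ℤ, a + s a = n :=
  H.fix _ (by rw [map_add, H.ss, add_comm])

theorem Dat.nm (H : Dat D ω s) (a : 𝓞 L) : ∃ n : ℤ, a * s a = n :=
  H.fix _ (by rw [map_mul, H.ss, mul_comm])

theorem Dat.om (H : Dat D ω s) :
    ∃ w : 𝓞 L, algebraMap (𝓞 L) L w = ω ∧ s w = -w ∧ w ^ 2 = D := by
  have hi : IsIntegral ℤ ω :=
    IsIntegral.of_pow two_pos (by rw [H.sq]; exact isIntegral_algebraMap (x := D))
  refine ⟨⟨ω, hi⟩, rfl, IsFractionRing.injective (𝓞 L) L ?_, IsFractionRing.injective (𝓞 L) L ?_⟩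
  · rw [H.of ⟨ω, hi⟩ 0 1 (by simp)]
    simp
  · simpa using H.sq

/-- a power of a good element is a core element -/
theorem Dat.core (H : Dat D ω s) {P : Ideal (𝓞 L)} (hP : P.IsPrime) {r : ℕ} (hr : r.Prime)
    (hrP : (r : 𝓞 L) ∈ P) {π : 𝓞 L} (h1 : π ∈ P) (h2 : s π ∉ P) {n : ℕ} (h3 : π ∣ (r : 𝓞 L) ^ n) :
    ∃ (j : ℕ) (x y : ℚ), j ≠ 0 ∧ algebraMap (𝓞 L) L π ^ j = x + y * ω ∧ CoreCond D r x y := by
  have hri : Prime (r : ℤ) := Nat.prime_iff_prime_int.1 hr
  obtain ⟨K, m, hm, hK⟩ := WfDvdMonoid.max_power_factor (a₀ := 2 * D)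
    (mul_ne_zero two_ne_zero H.ne) hri.irreducible
  have hm0 : m ≠ 0 := fun e => hm (e ▸ dvd_zero _)
  have hI : Ideal.span {(m : 𝓞 L)} ≠ ⊥ := by simpa using hm0
  have := Ideal.finiteQuotientOfFreeOfNeBot _ hI
  have hu : IsUnit (Ideal.Quotient.mk (Ideal.span {(m : 𝓞 L)}) π) := by
    refine isUnit_of_dvd_unit (map_dvd _ h3) ?_
    rw [map_pow]
    refine IsUnit.pow n ?_
    obtain ⟨u, v, huv⟩ := (hri.irreducible.coprime_iff_not_dvd).2 hm
    have e : (u : 𝓞 L) * r + v * m = 1 := by exact_mod_cast huv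
    refine IsUnit.of_mul_eq_one (Ideal.Quotient.mk _ u) ?_
    rw [← map_mul, ← map_one (Ideal.Quotient.mk _), Ideal.Quotient.eq, Ideal.mem_span_singleton']
    exact ⟨-v, by linear_combination -e⟩
  obtain ⟨j, hj, e⟩ := isOfFinOrder_iff_pow_eq_one.1 hu.isOfFinOrder
  rw [← map_pow, ← map_one (Ideal.Quotient.mk _), Ideal.Quotient.eq,
    Ideal.mem_span_singleton'] at e
  obtain ⟨b, hb⟩ := e
  obtain ⟨b0, b1, e1, e2⟩ := H.rep b
  obtain ⟨w, hw, hsw, -⟩ := H.om
  have eπ : algebraMap (𝓞 L) L (π ^ j) =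
      ((1 + m * b0 : ℚ) : L) + ((m * b1 : ℚ) : L) * ω := by
    have : π ^ j = 1 + b * m := by linear_combination -hb
    rw [this, map_add, map_one, map_mul, map_intCast, e1]
    push_cast
    ring
  have eσ := H.of _ _ _ eπ
  have g1 : π ^ j ∈ P := P.pow_mem_of_mem h1 j hj
  have g2 : s (π ^ j) ∉ P := fun h => h2 (hP.mem_of_pow_mem j (by rwa [map_pow] at h))
  have hKq : (2 * D : ℚ) = (r : ℚ) ^ K * m := by exact_mod_cast hK
  refine ⟨j, 1 + m * b0, m * b1, hj.ne', by simpa using eπ, hr, ?_, ?_, ?_⟩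
  · obtain ⟨t0, h0⟩ := H.tr b
    obtain ⟨t1, h1⟩ := H.tr (b * w)
    have k0 : 2 * b0 = t0 := by
      have := congrArg (algebraMap (𝓞 L) L) h0
      rw [map_add, map_intCast, e1, e2] at this
      have k : ((2 * b0 : ℚ) : L) = ((t0 : ℚ) : L) := by
        push_cast
        linear_combination this
      exact_mod_cast k
    have k1 : 2 * b1 * D = t1 := by
      rw [map_mul, hsw] at h1
      have := congrArg (algebraMap (𝓞 L) L) h1
      rw [map_add, map_mul, map_mul, map_neg, map_intCast, e1, e2, hw] at this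
      have k : ((2 * b1 * D : ℚ) : L) = ((t1 : ℚ) : L) := by
        push_cast
        linear_combination this - (2 * b1 : L) * H.sq
      exact_mod_cast k
    refine ⟨K, r ^ K + D * t0, t1, ?_, ?_⟩
    · push_cast
      linear_combination (D : ℚ) * k0 - b0 * hKq
    · linear_combination k1 - b1 * hKq
  · obtain ⟨T, hT⟩ := H.tr (π ^ j)
    refine ⟨T, ?_, fun ⟨c, hc⟩ => g2 ?_⟩
    · have := congrArg (algebraMap (𝓞 L) L) hT
      rw [map_add, map_intCast, eπ, eσ] at this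
      have k : ((2 * (1 + m * b0) : ℚ) : L) = ((T : ℚ) : L) := by
        push_cast at this ⊢
        linear_combination this
      exact_mod_cast k
    · have : s (π ^ j) = r * c - π ^ j := by
        rw [hc] at hT
        push_cast at hT
        linear_combination hT
      rw [this]
      exact P.sub_mem (P.mul_mem_right _ hrP) g1
  · obtain ⟨N, hN⟩ := H.nm (π ^ j)
    have k : (1 + m * b0) ^ 2 - (m * b1) ^ 2 * D = (N : ℚ) := by
      have := congrArg (algebraMap (𝓞 L) L) hN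
      rw [map_mul, map_intCast, eπ, eσ] at this
      have k : (((1 + m * b0) ^ 2 - (m * b1) ^ 2 * D : ℚ) : L) = ((N : ℚ) : L) := by
        push_cast at this ⊢
        linear_combination this + (m * b1 : L) ^ 2 * H.sq
      exact_mod_cast k
    obtain ⟨c, hc⟩ := pow_dvd_pow_of_dvd h3 j
    obtain ⟨M, hM⟩ := H.nm c
    have hs := congrArg s hc
    rw [map_pow, map_pow, map_natCast, map_mul] at hs
    have e3 : ((r : ℤ) ^ (2 * (n * j)) : ℤ) = N * M := by
      have : (((r : ℤ) ^ (2 * (n * j)) : ℤ) : 𝓞 L) = ((N * M : ℤ) : 𝓞 L) := by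
        push_cast
        rw [← hN, ← hM, two_mul, pow_add, pow_mul]
        linear_combination ((r : 𝓞 L) ^ n) ^ j * hs + (s (π ^ j) * s c) * hc
      exact_mod_cast this
    have e4 : N.natAbs ∣ r ^ (2 * (n * j)) := by
      have := Int.natAbs_dvd_natAbs.2 (⟨M, e3⟩ : N ∣ (r : ℤ) ^ (2 * (n * j)))
      simpa [Int.natAbs_pow] using this
    obtain ⟨h, -, hh⟩ := (Nat.dvd_prime_pow hr).1 e4
    refine ⟨h, ?_, ?_⟩
    · by_contra h0
      have h0 : h = 0 := by omega
      rw [h0, pow_zero] at hh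
      have hNP : (N : 𝓞 L) ∈ P := hN ▸ P.mul_mem_right _ g1
      exact hP.ne_top (P.eq_top_of_isUnit_mem hNP
        ((Int.isUnit_iff_natAbs_eq.2 hh).map (Int.castRingHom (𝓞 L))))
    · rw [k, ← Int.cast_abs, Int.abs_eq_natAbs, hh]
      push_cast
      rfl

omit [NumberField L] in
theorem phi_pow {Φ : L → ℝ} (hΦ : ∀ a b, a ≠ 0 → b ≠ 0 → Φ (a * b) = Φ a + Φ b) {a : L}
    (ha : a ≠ 0) (k : ℕ) : Φ (a ^ k) = k * Φ a := by
  induction k with
  | zero =>
    have := hΦ 1 1 one_ne_zero one_ne_zero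
    rw [mul_one] at this
    simp only [pow_zero, Nat.cast_zero, zero_mul]
    linarith
  | succ k ih =>
    rw [pow_succ, hΦ _ _ (pow_ne_zero _ ha) ha, ih]
    push_cast
    ring

theorem exists_gen (I : Ideal (𝓞 L)) (hI : I ≠ 0) :
    ∃ x : 𝓞 L, x ≠ 0 ∧ I ^ Fintype.card (ClassGroup (𝓞 L)) = Ideal.span {x} := by
  have : ClassGroup.mk0 (⟨I, mem_nonZeroDivisors_of_ne_zero hI⟩ ^
      Fintype.card (ClassGroup (𝓞 L)) : (Ideal (𝓞 L))⁰) = 1 := by
    rw [map_pow, pow_card_eq_one]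
  obtain ⟨x, hx⟩ := (ClassGroup.mk0_eq_one_iff
    (pow_mem (mem_nonZeroDivisors_of_ne_zero hI) _)).1 this
  refine ⟨x, fun e => pow_ne_zero (Fintype.card (ClassGroup (𝓞 L))) hI ?_, hx⟩
  rw [hx, e]
  simp

theorem Dat.prime_mem (H : Dat D ω s) {P : Ideal (𝓞 L)} (hP : P.IsPrime) {π : 𝓞 L} (h0 : π ≠ 0)
    (h1 : π ∈ P) : ∃ r : ℕ, r.Prime ∧ (r : 𝓞 L) ∈ P := by
  obtain ⟨N, hN⟩ := H.nm π
  have hs : s π ≠ 0 := fun e => h0 (by rw [← H.ss π, e, map_zero])
  have hN0 : N ≠ 0 := fun e => mul_ne_zero h0 hs (by rw [hN, e, Int.cast_zero])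
  have hp : (P.comap (Int.castRingHom (𝓞 L))).IsPrime := Ideal.comap_isPrime _ _
  obtain ⟨g, hg⟩ := (IsPrincipalIdealRing.principal (P.comap (Int.castRingHom (𝓞 L)))).principal
  have hg' : P.comap (Int.castRingHom (𝓞 L)) = Ideal.span {g} := hg
  have hNm : N ∈ P.comap (Int.castRingHom (𝓞 L)) := by
    rw [Ideal.mem_comap]
    exact (show (N : 𝓞 L) ∈ P from hN ▸ P.mul_mem_right _ h1)
  have hg0 : g ≠ 0 := by
    rintro rfl
    rw [hg'] at hNm
    exact hN0 (by simpa using hNm)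
  rw [hg'] at hp
  refine ⟨g.natAbs, Int.prime_iff_natAbs_prime.1 ((Ideal.span_singleton_prime hg0).1 hp), ?_⟩
  have : ((g.natAbs : ℕ) : ℤ) ∈ P.comap (Int.castRingHom (𝓞 L)) := by
    rw [hg', Ideal.mem_span_singleton]
    exact Int.dvd_natAbs.2 dvd_rfl
  rw [Ideal.mem_comap] at this
  simpa using this

theorem Dat.main (H : Dat D ω s) (Φ : L → ℝ)
    (hΦ : ∀ a b, a ≠ 0 → b ≠ 0 → Φ (a * b) = Φ a + Φ b) (hq : ∀ q : ℚ, q ≠ 0 → Φ q = 0)
    (hc : ∀ r γ₀ γ₁, CoreCond D r γ₀ γ₁ → Φ (γ₀ + γ₁ * ω) = 0) (a : 𝓞 L) (ha : a ≠ 0) :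
    Φ (algebraMap (𝓞 L) L a) = 0 := by
  set n := Fintype.card (ClassGroup (𝓞 L)) with hn
  have hn0 : n ≠ 0 := Fintype.card_ne_zero
  have c0 : ∀ x : 𝓞 L, x ≠ 0 → algebraMap (𝓞 L) L x ≠ 0 := fun x hx =>
    RingOfIntegers.coe_ne_zero_iff.2 hx
  have mul : ∀ x y : 𝓞 L, x ≠ 0 → y ≠ 0 → Φ (algebraMap (𝓞 L) L (x * y)) =
      Φ (algebraMap (𝓞 L) L x) + Φ (algebraMap (𝓞 L) L y) := fun x y hx hy => by
    rw [map_mul]
    exact hΦ _ _ (c0 x hx) (c0 y hy)
  -- generators of powers of split primes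
  have split : ∀ P : Ideal (𝓞 L), P.IsPrime → (∃ b ∈ P, s b ∉ P) → ∀ π : 𝓞 L, π ≠ 0 →
      P ^ n = Ideal.span {π} → Φ (algebraMap (𝓞 L) L π) = 0 := by
    rintro P hP ⟨b, hb, hsb⟩ π h0 hπ
    have h1 : π ∈ P := Ideal.pow_le_self hn0 (hπ ▸ Ideal.mem_span_singleton_self π)
    have h2 : s π ∉ P := fun h => by
      have hp : (P.comap s).IsPrime := Ideal.comap_isPrime _ _
      have : P ^ n ≤ P.comap s := by
        rw [hπ, Ideal.span_singleton_le_iff_mem]
        exact h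
      exact hsb (Ideal.IsPrime.le_of_pow_le this hb)
    obtain ⟨r, hr, hrP⟩ := H.prime_mem hP h0 h1
    have h3 : π ∣ (r : 𝓞 L) ^ n :=
      Ideal.mem_span_singleton.1 (hπ ▸ Ideal.pow_mem_pow hrP n)
    obtain ⟨j, x, y, hj, e, hcore⟩ := H.core hP hr hrP h1 h2 h3
    have := hc r x y hcore
    rw [← e, phi_pow hΦ (c0 π h0)] at this
    exact (mul_eq_zero.1 this).resolve_left (Nat.cast_ne_zero.2 hj)
  -- units
  have unit : ∀ u : 𝓞 L, IsUnit u → Φ (algebraMap (𝓞 L) L u) = 0 := by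
    obtain ⟨w, -, hsw, hw⟩ := H.om
    have hs : s (1 + 2 * w) = 1 - 2 * w := by
      rw [map_add, map_one, map_mul, hsw, map_ofNat]
      ring
    have hnu : ¬ IsUnit (1 + 2 * w) := by
      intro hu
      obtain ⟨c, hc⟩ := hu.exists_right_inv
      obtain ⟨M, hM⟩ := H.nm c
      have h1 := congrArg s hc
      rw [map_mul, hs, map_one] at h1
      have h2 : (((1 - 4 * D) * M : ℤ) : 𝓞 L) = ((1 : ℤ) : 𝓞 L) := by
        push_cast
        rw [← hM, ← hw]
        linear_combination ((1 - 2 * w) * s c) * hc + h1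
      have h3 : (1 - 4 * D) * M = 1 := by exact_mod_cast h2
      have := H.ne
      rcases Int.eq_one_or_neg_one_of_mul_eq_one h3 with h | h <;> omega
    obtain ⟨P, hP, hle⟩ := Ideal.exists_le_maximal (Ideal.span {1 + 2 * w})
      (by rwa [Ne, Ideal.span_singleton_eq_top])
    have hb : 1 + 2 * w ∈ P := hle (Ideal.mem_span_singleton_self _)
    have hsb : s (1 + 2 * w) ∉ P := fun h => by
      rw [hs] at h
      refine hP.ne_top ((Ideal.eq_top_iff_one P).2 ?_)
      have e : (1 : 𝓞 L) = (1 + 2 * w) * (1 - 2 * w) + 2 * D * ((1 + 2 * w) + (1 - 2 * w)) := by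
        linear_combination 4 * hw
      rw [e]
      exact P.add_mem (P.mul_mem_right _ hb) (P.mul_mem_left _ (P.add_mem hb h))
    have hP0 : P ≠ 0 := fun e => by
      rw [e] at hb
      have h0 : 1 + 2 * w = 0 := by simpa using hb
      exact hsb (by rw [h0, map_zero]; exact P.zero_mem)
    obtain ⟨π, h0, hπ⟩ := exists_gen P hP0
    intro u hu
    have k1 := split P hP.isPrime ⟨_, hb, hsb⟩ π h0 hπ
    have k2 := split P hP.isPrime ⟨_, hb, hsb⟩ (u * π) (mul_ne_zero hu.ne_zero h0)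
      (by rw [Ideal.span_singleton_mul_left_unit hu]; exact hπ)
    rw [mul _ _ hu.ne_zero h0] at k2
    linarith
  -- generators of powers of primes
  have prime : ∀ P : Ideal (𝓞 L), P.IsPrime → ∀ π : 𝓞 L, π ≠ 0 →
      P ^ n = Ideal.span {π} → Φ (algebraMap (𝓞 L) L π) = 0 := by
    intro P hP π h0 hπ
    by_cases hsp : ∃ b ∈ P, s b ∉ P
    · exact split P hP hsp π h0 hπ
    · push Not at hsp
      have h1 : P.map s ≤ P := Ideal.map_le_iff_le_comap.2 hsp
      have h2 : s π ∈ Ideal.span {π} := by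
        rw [← hπ]
        refine Ideal.pow_right_mono h1 n ?_
        rw [← Ideal.map_pow, hπ]
        exact Ideal.mem_map_of_mem _ (Ideal.mem_span_singleton_self π)
      obtain ⟨c, hc⟩ := Ideal.mem_span_singleton'.1 h2
      have h3 := congrArg s hc
      rw [map_mul, H.ss, ← hc] at h3
      have hu : IsUnit c := by
        refine IsUnit.of_mul_eq_one (s c) (mul_right_cancel₀ h0 ?_)
        linear_combination h3
      obtain ⟨N, hN⟩ := H.nm π
      rw [← hc] at hN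
      have hN0 : N ≠ 0 := fun e =>
        mul_ne_zero h0 (mul_ne_zero hu.ne_zero h0) (by rw [hN, e, Int.cast_zero])
      have k := hq N (Int.cast_ne_zero.2 hN0)
      have e : ((N : ℚ) : L) = algebraMap (𝓞 L) L (π * (c * π)) := by
        rw [hN]
        simp
      rw [e, mul _ _ h0 (mul_ne_zero hu.ne_zero h0), mul _ _ hu.ne_zero h0, unit c hu] at k
      linarith
  have all : ∀ I : Ideal (𝓞 L), I ≠ 0 → ∀ x : 𝓞 L, x ≠ 0 → I ^ n = Ideal.span {x} →
      Φ (algebraMap (𝓞 L) L x) = 0 := by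
    intro I
    induction I using UniqueFactorizationMonoid.induction_on_prime with
    | h₁ => exact fun h => absurd rfl h
    | h₂ I hu =>
      intro _ x _ hx
      obtain rfl : I = 1 := by simpa using hu
      rw [one_pow, Ideal.one_eq_top] at hx
      exact unit x (Ideal.span_singleton_eq_top.1 hx.symm)
    | h₃ J P hJ hP ih =>
      intro _ x _ hx
      obtain ⟨π, h0, hπ⟩ := exists_gen P hP.ne_zero
      obtain ⟨y, hy0, hy⟩ := exists_gen J hJ
      rw [mul_pow, hπ, hy, Ideal.span_singleton_mul_span_singleton] at hx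
      obtain ⟨u, rfl⟩ := Ideal.span_singleton_eq_span_singleton.1 hx
      rw [mul _ _ (mul_ne_zero h0 hy0) u.ne_zero, mul _ _ h0 hy0, unit _ u.isUnit,
        prime P (Ideal.isPrime_of_prime hP) π h0 hπ, ih hJ y hy0 hy]
      ring
  have k := all (Ideal.span {a}) (by simpa using ha) (a ^ n) (pow_ne_zero _ ha)
    (Ideal.span_singleton_pow a n)
  rw [map_pow, phi_pow hΦ (c0 a ha)] at k
  exact (mul_eq_zero.1 k).resolve_left (Nat.cast_ne_zero.2 hn0)

end QuadGen

theorem p_quadGen : S_QuadGen := by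
  intro L _ _ D ω hω hD h2 Φ hΦ hq hc a ha
  obtain ⟨rep, σ, hσ⟩ := QuadGen.conj hω hD h2
  have H : QuadGen.Dat D ω (RingOfIntegers.mapRingHom σ) := ⟨hω, hD, fun a => by
    obtain ⟨x, y, h⟩ := rep (algebraMap (𝓞 L) L a)
    exact ⟨x, y, h, by rw [← hσ, ← h]; rfl⟩⟩
  obtain ⟨x, y, hy, rfl⟩ := IsFractionRing.div_surjective (A := 𝓞 L) a
  have hy0 : y ≠ 0 := nonZeroDivisors.ne_zero hy
  have hy' : algebraMap (𝓞 L) L y ≠ 0 := RingOfIntegers.coe_ne_zero_iff.2 hy0
  have hx : x ≠ 0 := by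
    rintro rfl
    simp at ha
  have k := hΦ _ _ ha hy'
  rw [div_mul_cancel₀ _ hy'] at k
  have k1 : Φ (algebraMap (𝓞 L) L x) = 0 := H.main Φ hΦ hq hc x hx
  have k2 : Φ (algebraMap (𝓞 L) L y) = 0 := H.main Φ hΦ hq hc y hy0
  linarith

end Pool.Agent.P.MP_b8021b_nt.VE
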