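import Mathlib

/-!
Step A7c: auxiliary lemmas.
-/

namespace Pool.Agent.P.MP_b8021b_nt.VE.Rad

open Polynomial

variable {r : ℕ} [hr : Fact r.Prime]

theorem one_lt_r : (1 : ℝ) < r := by exact_mod_cast hr.out.one_lt

theorem norm_int_eq_one {T : ℤ} (h : ¬ (r : ℤ) ∣ T) : ‖(T : ℚ_[r])‖ = 1 := by
  refine le_antisymm (Padic.norm_int_le_one T) (not_lt.mp fun h1 => h ?_)
  exact (Padic.norm_intCast_lt_one_iff).mp h1

theorem roots {T N : ℤ} {h : ℕ} (hT : ¬ (r : ℤ) ∣ T) (hN : |N| = (r : ℤ) ^ h) (h1 : 1 ≤ h) :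
    ∃ T1 T2 : ℚ_[r], T1 + T2 = T ∧ T1 * T2 = N ∧ ‖T1‖ = (r : ℝ) ^ (-(h : ℤ)) ∧ ‖T2‖ = 1 := by
  have hTn := norm_int_eq_one hT
  have hNn : ‖(N : ℚ_[r])‖ = (r : ℝ) ^ (-(h : ℤ)) := by
    rw [← Padic.norm_p_pow]
    rcases abs_eq (by positivity) |>.mp hN with e | e
    · rw [e]; push_cast; rfl
    · rw [e]; push_cast; rw [norm_neg]
  have hlt : (r : ℝ) ^ (-(h : ℤ)) < 1 := zpow_lt_one_of_neg₀ one_lt_r (by omega)
  have e1 : ∀ z : ℤ_[r], aeval z (X ^ 2 - C T * X + C N : ℤ[X]) = z ^ 2 - T * z + N := by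
    intro z; simp
  have e2 : aeval (0 : ℤ_[r]) (derivative (X ^ 2 - C T * X + C N : ℤ[X])) = -T := by
    simp
  have hTz : ‖(T : ℤ_[r])‖ = 1 := by rw [PadicInt.norm_def, PadicInt.coe_intCast, hTn]
  obtain ⟨z, hz, hz1, -⟩ := hensels_lemma (p := r) (F := (X ^ 2 - C T * X + C N : ℤ[X])) (a := 0)
    (by
      rw [e1, e2, norm_neg, hTz]
      simp only [ne_eq, OfNat.ofNat_ne_zero, not_false_eq_true, zero_pow, mul_zero, sub_self,
        zero_add, one_pow]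
      rw [PadicInt.norm_def, PadicInt.coe_intCast, hNn]; exact hlt)
  rw [e2, norm_neg, hTz, sub_zero, PadicInt.norm_def] at hz1
  rw [e1] at hz
  have hz' : (z : ℚ_[r]) ^ 2 - T * z + N = 0 := by
    have := congrArg (fun w : ℤ_[r] => (w : ℚ_[r])) hz
    simpa using this
  have h2 : ‖(T : ℚ_[r]) - z‖ = 1 := by
    refine Eq.trans ?_ hTn
    apply Padic.norm_eq_of_norm_sub_lt_right
    rw [hTn, sub_sub_cancel_left, norm_neg]; exact hz1
  have h3 : (z : ℚ_[r]) * (T - z) = N := by linear_combination -hz'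
  refine ⟨z, T - z, by ring, h3, ?_, h2⟩
  rw [← hNn, ← h3, norm_mul, h2, mul_one]

theorem pow_red (D a b : ℤ) (j : ℕ) :
    ∃ U V : ℤ, (X ^ 2 - C D : ℤ[X]) ∣ C U + C V * X - (C a + C b * X) ^ j := by
  induction j with
  | zero => exact ⟨1, 0, by simp⟩
  | succ j ih =>
    obtain ⟨U, V, q, hq⟩ := ih
    refine ⟨U * a + V * b * D, U * b + V * a, q * (C a + C b * X) - C V * C b, ?_⟩
    simp only [map_add, map_mul]
    linear_combination (C a + C b * X) * hq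

theorem exists_pow_int (q : ℚ_[r][X]) : ∃ (m : ℕ) (Q : ℤ_[r][X]),
    Q.map (algebraMap ℤ_[r] ℚ_[r]) = C ((r : ℚ_[r]) ^ m) * q := by
  obtain ⟨b, hb, h⟩ := IsLocalization.integerNormalization_spec (nonZeroDivisors ℤ_[r]) q
  have hb0 := nonZeroDivisors.ne_zero hb
  refine ⟨b.valuation, C (((PadicInt.unitCoeff hb0)⁻¹ : ℤ_[r]ˣ) : ℤ_[r]) *
    IsLocalization.integerNormalization (nonZeroDivisors ℤ_[r]) q, ?_⟩
  rw [Polynomial.map_mul, map_C, h, ← algebraMap_smul ℚ_[r], smul_eq_C_mul, ← mul_assoc, ← C_mul,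
    ← map_mul]
  congr 2
  conv_lhs => enter [2, 2]; rw [PadicInt.unitCoeff_spec hb0]
  rw [← mul_assoc, Units.inv_mul, one_mul, map_pow, map_natCast]

theorem round (n d : ℕ) (G : ℤ_[r][X]) (hd : G.natDegree ≤ d) (m : ℤ) (hm : G.coeff 0 = m) :
    ∃ Q : ℤ[X], Q.natDegree ≤ d ∧ Q.coeff 0 = m ∧
      C ((r : ℤ_[r]) ^ n) ∣ Q.map (Int.castRingHom ℤ_[r]) - G := by
  let a : ℕ → ℤ := fun i => if i = 0 then m else (PadicInt.appr (G.coeff i) n : ℕ)
  have hc : ∀ i, (∑ j ∈ Finset.range (d + 1), monomial j (a j)).coeff i =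
      if i < d + 1 then a i else 0 := by
    intro i
    simp only [finsetSum_coeff, coeff_monomial, Finset.sum_ite_eq', Finset.mem_range]
  refine ⟨∑ j ∈ Finset.range (d + 1), monomial j (a j), ?_, ?_, ?_⟩
  · rw [natDegree_le_iff_coeff_eq_zero]
    intro i hi
    rw [hc, if_neg (by omega)]
  · rw [hc, if_pos (by omega)]; simp [a]
  · rw [C_dvd_iff_dvd_coeff]
    intro i
    rw [coeff_sub, coeff_map, hc]
    split_ifs with h
    · by_cases hi : i = 0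
      · subst hi; simp [a, hm]
      · simp only [a, if_neg hi, eq_intCast, Int.cast_natCast]
        rw [← Ideal.mem_span_singleton, ← neg_mem_iff, neg_sub]
        exact PadicInt.appr_spec n _
    · rw [coeff_eq_zero_of_natDegree_lt (by omega)]; simp

/-- the bound for one coefficient -/
def Sm (r : ℕ) [Fact r.Prime] (k : ℕ) (t : ℤ) (z : ℚ_[r]) : Prop :=
  ‖z‖ ^ (2 * k) ≤ (r : ℝ) ^ (-t)

theorem Sm.add {k : ℕ} {t : ℤ} {x y : ℚ_[r]} (hx : Sm r k t x) (hy : Sm r k t y) :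
    Sm r k t (x + y) := by
  unfold Sm at *
  rcases le_max_iff.mp (Padic.nonarchimedean x y) with h | h
  · exact (pow_le_pow_left₀ (norm_nonneg _) h _).trans hx
  · exact (pow_le_pow_left₀ (norm_nonneg _) h _).trans hy

theorem Sm.of_le {k : ℕ} {t m : ℤ} {x : ℚ_[r]} (hx : ‖x‖ ≤ (r : ℝ) ^ (-m)) (h : t ≤ 2 * k * m) :
    Sm r k t x := by
  unfold Sm
  refine (pow_le_pow_left₀ (norm_nonneg _) hx _).trans ?_
  rw [← zpow_natCast, ← zpow_mul]
  refine zpow_le_zpow_right₀ one_lt_r.le ?_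
  push_cast
  linarith

theorem Sm.zero {k : ℕ} (hk : 1 ≤ k) {t : ℤ} : Sm r k t 0 := by
  unfold Sm
  rw [norm_zero, zero_pow (by omega)]
  have := one_lt_r (r := r)
  positivity

theorem Sm.dvd {k t : ℕ} {x : ℤ} (h : Sm r k t (x : ℚ_[r])) : (r : ℤ) ^ t ∣ x ^ (2 * k) := by
  rw [← Padic.norm_int_le_pow_iff_dvd]
  unfold Sm at h
  push_cast
  rwa [norm_pow]

/-- the coefficients of the norm of the base section -/
theorem slope_core {k ν n : ℕ} (hk : 2 ≤ k) {e E δ : ℤ} (hδ : E - e = δ) (h1 : 2 * k * ν ≤ δ)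
    (h2 : δ ≤ 2 * k * n) {α β A xQ : ℚ_[r]} {g : ℚ_[r][X]} (hα : ‖α‖ = (r : ℝ) ^ (-e))
    (hx : ‖xQ‖ ≤ (r : ℝ) ^ (-(n : ℤ))) (hβ : ‖β * g.coeff 0‖ ≤ (r : ℝ) ^ (-E))
    (hA : ‖A‖ ≤ (r : ℝ) ^ (-E))
    (hg : ∀ i : ℕ, ‖g.coeff i‖ * (r : ℝ) ^ (-(i * ν : ℤ)) ≤ ‖g.coeff 0‖) (i : ℕ) (hi : i ≤ 2 * k) :
    Sm r k (2 * k * e + (2 * k - i) * δ)
      ((C α * X ^ (2 * k - 1) * (X - C xQ) + C β * g + C A).coeff i) := by
  have hr0 : (0 : ℝ) < r := zero_lt_one.trans one_lt_r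
  have hδ0 : 0 ≤ δ := le_trans (by positivity) h1
  have hi' : (i : ℤ) ≤ 2 * k := by exact_mod_cast hi
  rw [coeff_add, coeff_add]
  refine Sm.add (Sm.add ?_ ?_) ?_
  · have e1 : C α * X ^ (2 * k - 1) * (X - C xQ) =
        C α * X ^ (2 * k) + C (-(α * xQ)) * X ^ (2 * k - 1) := by
      have : (X : ℚ_[r][X]) ^ (2 * k) = X ^ (2 * k - 1) * X := by
        rw [← pow_succ]; congr 1; omega
      rw [this, map_neg, map_mul]; ring
    rw [e1, coeff_add, coeff_C_mul_X_pow, coeff_C_mul_X_pow]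
    refine Sm.add ?_ ?_
    · split_ifs with h
      · refine Sm.of_le hα.le ?_
        rw [h]; push_cast; simp
      · exact Sm.zero (by omega)
    · split_ifs with h
      · refine Sm.of_le (m := e + n) ?_ ?_
        · rw [norm_neg, norm_mul, hα, neg_add, zpow_add₀ hr0.ne']
          exact mul_le_mul_of_nonneg_left hx (by positivity)
        · have : (2 * k - i : ℤ) = 1 := by omega
          rw [this]; linarith
      · exact Sm.zero (by omega)
  · refine Sm.of_le (m := E - i * ν) ?_ ?_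
    · rw [coeff_C_mul, norm_mul]
      rw [norm_mul] at hβ
      have h3 := mul_le_mul_of_nonneg_left (hg i) (norm_nonneg β)
      have h4 : (0 : ℝ) < (r : ℝ) ^ (-(i * ν : ℤ)) := by positivity
      have h5 : (r : ℝ) ^ (-(E - i * ν)) * (r : ℝ) ^ (-(i * ν : ℤ)) = (r : ℝ) ^ (-E) := by
        rw [← zpow_add₀ hr0.ne']; congr 1; ring
      refine le_of_mul_le_mul_right ?_ h4
      rw [h5, mul_assoc]
      exact h3.trans hβ
    · have := mul_le_mul_of_nonneg_left h1 (show (0 : ℤ) ≤ i by positivity)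
      have h6 : E = e + δ := by linarith
      rw [h6]; nlinarith
  · rw [coeff_C]
    split_ifs with h
    · refine Sm.of_le hA ?_
      have h6 : E = e + δ := by linarith
      rw [h, h6]; push_cast; linarith
    · exact Sm.zero (by omega)

end Pool.Agent.P.MP_b8021b_nt.VE.Rad
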