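import Pool.Agent.P.MP_b8021b_nt.VE.StA
import Pool.Agent.P.MP_b8021b_nt.VE.PRad1

/-!
Step A7c: the base section whose norm has a Newton polygon with one slope.
-/

namespace Pool.Agent.P.MP_b8021b_nt.VE

open Polynomial

namespace Rad

/-- the `r`-adic data attached to a core element -/
theorem core_data {D : ℤ} {r : ℕ} [hr : Fact r.Prime] {γ₀ γ₁ : ℚ} (H : CoreCond D r γ₀ γ₁) :
    ∃ (h : ℕ) (N : ℤ) (w₀ : ℚ_[r]), 1 ≤ h ∧ |N| = (r : ℤ) ^ h ∧ w₀ ^ 2 = D ∧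
      ((γ₀ : ℚ_[r]) + γ₁ * w₀) * (γ₀ - γ₁ * w₀) = N ∧
      ‖(γ₀ : ℚ_[r]) + γ₁ * w₀‖ = (r : ℝ) ^ (-(h : ℤ)) ∧ ‖(γ₀ : ℚ_[r]) - γ₁ * w₀‖ = 1 := by
  obtain ⟨-, -, ⟨T, hT, hrT⟩, h, h1, hN⟩ := H
  obtain ⟨N, hN1, hN2⟩ : ∃ N : ℤ, (N : ℚ) = γ₀ ^ 2 - γ₁ ^ 2 * D ∧ |N| = (r : ℤ) ^ h := by
    rcases abs_eq (by positivity) |>.mp hN with e | e
    · exact ⟨(r : ℤ) ^ h, by rw [e]; push_cast; rfl, abs_of_nonneg (by positivity)⟩
    · exact ⟨-(r : ℤ) ^ h, by rw [e]; push_cast; rfl, by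
        rw [abs_neg]; exact abs_of_nonneg (by positivity)⟩
  have hγ : γ₁ ≠ 0 := by
    intro h0
    have e : (T : ℚ) ^ 2 = 4 * N := by rw [← hT, hN1, h0]; ring
    have e' : T ^ 2 = 4 * N := by exact_mod_cast e
    have hd : (r : ℤ) ∣ N := by
      rw [← dvd_abs, hN2]; exact dvd_pow_self _ (by omega)
    exact hrT ((Nat.prime_iff_prime_int.mp hr.out).dvd_of_dvd_pow (e' ▸ hd.mul_left 4))
  have hγ' : (γ₁ : ℚ_[r]) ≠ 0 := by exact_mod_cast hγ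
  obtain ⟨T1, T2, a1, a2, a3, a4⟩ := roots hrT hN2 h1
  have hT' : 2 * (γ₀ : ℚ_[r]) = T := by exact_mod_cast congrArg (fun q : ℚ => (q : ℚ_[r])) hT
  have hN' : (N : ℚ_[r]) = γ₀ ^ 2 - γ₁ ^ 2 * D := by
    exact_mod_cast congrArg (fun q : ℚ => (q : ℚ_[r])) hN1
  have b1 : (γ₀ : ℚ_[r]) + γ₁ * ((T1 - γ₀) / γ₁) = T1 := by field_simp; ring
  have b2 : (γ₀ : ℚ_[r]) - γ₁ * ((T1 - γ₀) / γ₁) = T2 := by linear_combination -b1 - a1 + hT'
  refine ⟨h, N, (T1 - γ₀) / γ₁, h1, hN2, ?_, by rw [b1, b2, a2], by rw [b1, a3], by rw [b2, a4]⟩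
  apply mul_left_cancel₀ (pow_ne_zero 2 hγ')
  have := a2
  rw [← b1, ← b2, hN'] at this
  linear_combination -this

end Rad

open Rad in
theorem p_rad (hNear : S_Near) (hWeier : S_Weier) : S_Rad := by
  intro f hf r γ₀ γ₁ H
  have hr : Fact r.Prime := ⟨H.1⟩
  have hr1 : (1 : ℝ) < r := one_lt_r
  have hr0 : (0 : ℝ) < r := zero_lt_one.trans hr1
  have hrq : (r : ℚ_[r]) ≠ 0 := by exact_mod_cast hr.out.ne_zero
  obtain ⟨h, N, w₀, h1, hN, hw, hT12, hT1, hT2⟩ := core_data H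
  obtain ⟨-, ⟨K, a, b, ha, hb⟩, -⟩ := H
  set T1 : ℚ_[r] := γ₀ + γ₁ * w₀ with hT1d
  set T2 : ℚ_[r] := γ₀ - γ₁ * w₀ with hT2d
  have hw0 : w₀ ≠ 0 := by
    intro h0
    rw [h0, zero_pow two_ne_zero] at hw
    exact hf.2.2.2 (by exact_mod_cast hw.symm)
  obtain ⟨ν, n₁, hν, hW⟩ := hWeier r f hf w₀ hw
  obtain ⟨k, g, c, xQ, yQ, l, hk, D⟩ := hNear r f hf w₀ hw (n₁ + (ν + h))
  obtain ⟨hdg, hdc, h00, hg, hl⟩ := hW _ (by omega) k g c xQ yQ l hk D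
  set L : ℚ_[r] := 2 * g.coeff 0 with hL
  have hL0 : L ≠ 0 := fun h => D.atP (by linear_combination h - h00 - hL)
  obtain ⟨va, hva⟩ : ∃ v : ℤ, ‖L‖ = (r : ℝ) ^ (-v) := ⟨_, Padic.norm_eq_zpow_neg_valuation hL0⟩
  obtain ⟨vb, hvb⟩ : ∃ v : ℤ, ‖l‖ = (r : ℝ) ^ (-v) := ⟨_, Padic.norm_eq_zpow_neg_valuation D.l0⟩
  have hab : 2 * va ≤ vb + 2 * k * ν := by
    rw [hva, hvb, ← zpow_add₀ hr0.ne', ← zpow_natCast, ← zpow_mul, zpow_le_zpow_iff_right₀ hr1] at hl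
    push_cast at hl
    linarith
  obtain ⟨j, hj1, hj2, hj3⟩ : ∃ j : ℕ, 1 ≤ j ∧ (2 * k * ν : ℤ) < j * h + 2 * va - vb ∧
      (j * h + 2 * va - vb : ℤ) ≤ 2 * k * ν + h := by
    obtain ⟨N0, hN0⟩ := Int.eq_ofNat_of_zero_le (show 0 ≤ vb + 2 * k * ν - 2 * va by linarith)
    have e1 := Nat.div_add_mod N0 h
    have e2 := Nat.mod_lt N0 (show 0 < h by omega)
    have e3 : (h : ℤ) * (N0 / h : ℕ) + (N0 % h : ℕ) = N0 := by exact_mod_cast e1
    have e4 : ((N0 % h : ℕ) : ℤ) < h := by exact_mod_cast e2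
    have e5 : (0 : ℤ) ≤ (N0 % h : ℕ) := by positivity
    refine ⟨N0 / h + 1, Nat.le_add_left _ _, ?_, ?_⟩
    · rw [Nat.cast_add, Nat.cast_one]; linarith
    · rw [Nat.cast_add, Nat.cast_one]; linarith
  obtain ⟨U, V, hUV⟩ := pow_red (f.coeff 0) a b j
  obtain ⟨m1, G1, hG1⟩ := exists_pow_int (C L⁻¹ * g)
  obtain ⟨m2, C1, hC1⟩ := exists_pow_int (C L⁻¹ * c)
  set G' := m1 + m2 with hG'
  set G := K * j + G' with hG
  -- the values at the two points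
  have hval : ∀ w : ℚ_[r], w ^ 2 = (f.coeff 0 : ℤ) →
      (r : ℚ_[r]) ^ G' * (U + V * w) = (r : ℚ_[r]) ^ G * (γ₀ + γ₁ * w) ^ j := by
    intro w hw'
    obtain ⟨q, hq⟩ := hUV
    have e := congrArg (aeval w) hq
    simp only [map_sub, map_add, map_mul, map_pow, aeval_X, eq_intCast, map_intCast,
      hw', sub_self, zero_mul] at e
    have ha' : (r : ℚ_[r]) ^ K * γ₀ = a := by
      exact_mod_cast congrArg (fun q : ℚ => (q : ℚ_[r])) ha
    have hb' : (r : ℚ_[r]) ^ K * γ₁ = b := by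
      exact_mod_cast congrArg (fun q : ℚ => (q : ℚ_[r])) hb
    rw [sub_eq_zero.mp e, ← ha', ← hb', hG, pow_add _ (K * j), pow_mul, mul_assoc _ (γ₁ : ℚ_[r]),
      ← mul_add, mul_pow]
    ring
  have hv1 := hval w₀ hw
  have hv2 := hval (-w₀) (by rw [neg_sq, hw])
  rw [mul_neg, mul_neg, ← sub_eq_add_neg, ← sub_eq_add_neg, ← hT2d] at hv2
  rw [← hT1d] at hv1
  have hT1j : ‖T1 ^ j‖ = (r : ℝ) ^ (-(j * h : ℤ)) := by
    rw [norm_pow, hT1, ← zpow_natCast, ← zpow_mul]; congr 1; ring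
  have hjh : (1 : ℤ) ≤ j * h := by exact_mod_cast Nat.mul_pos hj1 h1
  have hT1j' : ‖T1 ^ j‖ < 1 := by rw [hT1j]; exact zpow_lt_one_of_neg₀ hr1 (by omega)
  have hT2j : ‖T2 ^ j‖ = 1 := by rw [norm_pow, hT2, one_pow]
  have hdiff : ‖T2 ^ j - T1 ^ j‖ = 1 := by
    refine Eq.trans ?_ hT2j
    apply Padic.norm_eq_of_norm_sub_lt_right
    rw [hT2j, sub_sub_cancel_left, norm_neg]; exact hT1j'
  obtain ⟨d', hd'⟩ : ∃ z : ℤ_[r], (z : ℚ_[r]) = T2 ^ j - T1 ^ j := ⟨⟨_, hdiff.le⟩, rfl⟩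
  obtain ⟨t', ht'⟩ : ∃ z : ℤ_[r], (z : ℚ_[r]) = T1 ^ j := ⟨⟨_, hT1j'.le⟩, rfl⟩
  set φ := algebraMap ℤ_[r] ℚ_[r] with hφ
  have hφa : ∀ z : ℤ_[r], φ z = z := fun z => rfl
  have hφi : Function.Injective φ := Subtype.val_injective
  set c' : ℚ_[r] := (r : ℚ_[r]) ^ G * (T2 ^ j - T1 ^ j) * L⁻¹ with hc'
  set A0 : ℚ_[r] := (r : ℚ_[r]) ^ G * T1 ^ j with hA0
  have hcL : c' * L = (r : ℚ_[r]) ^ G * (T2 ^ j - T1 ^ j) := by
    rw [hc', mul_assoc, inv_mul_cancel₀ hL0, mul_one]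
  obtain ⟨Gs, hGs⟩ : ∃ Gs : ℤ_[r][X], Gs.map φ = C c' * g + C A0 := by
    refine ⟨C ((r : ℤ_[r]) ^ (K * j + m2) * d') * G1 + C ((r : ℤ_[r]) ^ G * t'), ?_⟩
    rw [Polynomial.map_add, Polynomial.map_mul, map_C, map_C, hG1, map_mul φ, map_mul φ, map_pow φ,
      map_pow φ, map_natCast φ, hφa, hφa, hd', ht', ← mul_assoc, ← mul_assoc, ← C_mul, ← C_mul]
    congr 3
    rw [hc', hG, hG']; ring
  obtain ⟨Cs, hCs⟩ : ∃ Cs : ℤ_[r][X], Cs.map φ = C c' * c := by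
    refine ⟨C ((r : ℤ_[r]) ^ (K * j + m1) * d') * C1, ?_⟩
    rw [Polynomial.map_mul, map_C, hC1, map_mul φ, map_pow φ,
      map_natCast φ, hφa, hd', ← mul_assoc, ← mul_assoc, ← C_mul, ← C_mul]
    congr 2
    rw [hc', hG, hG']; ring
  have hGd : Gs.natDegree ≤ k := by
    rw [← natDegree_map_eq_of_injective hφi, hGs, natDegree_add_C]
    exact (natDegree_C_mul_le _ _).trans hdg
  have hCd : Cs.natDegree ≤ k - 2 := by
    rw [← natDegree_map_eq_of_injective hφi, hCs]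
    exact (natDegree_C_mul_le _ _).trans hdc
  have hG0 : Gs.coeff 0 = (((r : ℤ) ^ G' * U : ℤ) : ℤ_[r]) := by
    apply hφi
    rw [← coeff_map, hGs, coeff_add, coeff_C_mul, coeff_C_zero, map_intCast]
    push_cast
    apply mul_left_cancel₀ (two_ne_zero (α := ℚ_[r]))
    linear_combination hcL - c' * hL - hv1 - hv2 + hA0
  have hC0 : Cs.coeff 0 = (((r : ℤ) ^ G' * V : ℤ) : ℤ_[r]) := by
    apply hφi
    rw [← coeff_map, hCs, coeff_C_mul, map_intCast]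
    push_cast
    apply mul_left_cancel₀ (mul_ne_zero (two_ne_zero (α := ℚ_[r])) hw0)
    linear_combination 2 * c' * h00 - hcL + c' * hL - hv1 + hv2 - hA0
  set E0 := 2 * G + j * h with hE0
  obtain ⟨g0, hg0d, hg00, hg0⟩ := round (E0 + 1) k Gs hGd _ hG0
  obtain ⟨c0, hc0d, hc00, hc0⟩ := round (E0 + 1) (k - 2) Cs hCd _ hC0
  set ψ := Int.castRingHom ℤ_[r] with hψ
  have hFs : (Gs ^ 2 - Cs ^ 2 * f.map ψ).map φ =
      C (c' ^ 2 * l) * X ^ (2 * k - 1) * (X - C xQ) + C (2 * c' * A0) * g + C (A0 ^ 2) := by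
    have e : φ.comp ψ = Int.castRingHom ℚ_[r] := RingHom.ext_int _ _
    rw [Polynomial.map_sub, Polynomial.map_mul, Polynomial.map_pow, Polynomial.map_pow, hGs, hCs,
      Polynomial.map_map, e]
    simp only [map_mul, map_pow, map_ofNat]
    linear_combination C c' ^ 2 * D.norm
  have hrG : ‖(r : ℚ_[r]) ^ G‖ = (r : ℝ) ^ (-(G : ℤ)) := Padic.norm_p_pow G
  have hα : ‖c' ^ 2 * l‖ = (r : ℝ) ^ (-(2 * G - 2 * va + vb)) := by
    rw [norm_mul, norm_pow, hc', norm_mul, norm_mul, norm_inv, hrG, hdiff, hva, hvb, mul_one,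
      ← zpow_neg, ← zpow_add₀ hr0.ne', ← zpow_natCast, ← zpow_mul, ← zpow_add₀ hr0.ne']
    congr 1; push_cast; ring
  have htop : (C (c' ^ 2 * l) * X ^ (2 * k - 1) * (X - C xQ) + C (2 * c' * A0) * g +
      C (A0 ^ 2)).coeff (2 * k) = c' ^ 2 * l := by
    rw [coeff_add, coeff_add, coeff_C_mul, coeff_eq_zero_of_natDegree_lt (p := g) (by omega),
      coeff_C, if_neg (by omega), mul_assoc, coeff_C_mul]
    conv_lhs => rw [show 2 * k = 1 + (2 * k - 1) by omega]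
    rw [show 1 + (2 * k - 1) - 1 = 2 * k - 1 by omega, coeff_X_pow_mul]
    simp
  obtain ⟨e, he⟩ : ∃ e : ℕ, 2 * G - 2 * va + vb = (e : ℤ) := by
    apply Int.eq_ofNat_of_zero_le
    have : ‖c' ^ 2 * l‖ ≤ 1 := by
      rw [← htop, ← hFs, coeff_map, hφa]; exact PadicInt.norm_le_one _
    rw [hα, zpow_le_one_iff_right₀ hr1] at this
    linarith
  rw [he] at hα
  have hE0z : (E0 : ℤ) = 2 * G + j * h := by rw [hE0]; push_cast; ring
  have hkν : (0 : ℤ) ≤ 2 * k * ν := by positivity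
  have heE : e < E0 := by
    have : (e : ℤ) < E0 := by linarith
    exact_mod_cast this
  have hA0n : ‖A0‖ = (r : ℝ) ^ (-(G + j * h : ℤ)) := by
    rw [hA0, norm_mul, hrG, hT1j, ← zpow_add₀ hr0.ne']; congr 1; ring
  refine ⟨⟨f, hf, k, hk, r, hr.out, E0 + 1, e, E0, by omega, heE, g0, c0, hg0d, hc0d, ?_, ?_⟩,
    G, j, rfl, rfl, hj1, ?_⟩
  · have e1 : (nrm f g0 c0).coeff 0 = (r : ℤ) ^ (2 * G) * N ^ j := by
      have : (((nrm f g0 c0).coeff 0 : ℤ) : ℚ_[r]) = (((r : ℤ) ^ (2 * G) * N ^ j : ℤ) : ℚ_[r]) := by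
        rw [nrm, coeff_sub, mul_coeff_zero, pow_two, pow_two, mul_coeff_zero, mul_coeff_zero, hg00,
          hc00]
        push_cast
        rw [← hT12, ← hw, mul_pow]
        have := congrArg₂ (· * ·) hv1 hv2
        simp only [hA0] at this
        linear_combination this
      exact_mod_cast this
    have e2 : N.natAbs = r ^ h := by
      have : (N.natAbs : ℤ) = (r ^ h : ℕ) := by rw [Int.natCast_natAbs, hN]; push_cast; rfl
      exact_mod_cast this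
    rw [e1, Int.natAbs_mul, Int.natAbs_pow, Int.natAbs_pow, e2, Int.natAbs_natCast, hE0, pow_add,
      ← pow_mul, mul_comm h]
  · intro g1 c1 _ _ _ _ hg1 hc1
    have hm : ∀ {q : ℤ[X]}, C ((r : ℤ) ^ (E0 + 1)) ∣ q →
        C ((r : ℤ_[r]) ^ (E0 + 1)) ∣ q.map ψ := by
      intro q hq
      have := Polynomial.map_dvd ψ hq
      rwa [map_C, map_pow, map_natCast] at this
    have hg2 : C ((r : ℤ_[r]) ^ (E0 + 1)) ∣ g1.map ψ - Gs := by
      have := (hm hg1).add hg0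
      rwa [Polynomial.map_sub, sub_add_sub_cancel] at this
    have hc2 : C ((r : ℤ_[r]) ^ (E0 + 1)) ∣ c1.map ψ - Cs := by
      have := (hm hc1).add hc0
      rwa [Polynomial.map_sub, sub_add_sub_cancel] at this
    have hF : C ((r : ℤ_[r]) ^ (E0 + 1)) ∣ (nrm f g1 c1).map ψ - (Gs ^ 2 - Cs ^ 2 * f.map ψ) := by
      have e1 : (nrm f g1 c1).map ψ - (Gs ^ 2 - Cs ^ 2 * f.map ψ) =
          (g1.map ψ - Gs) * (g1.map ψ + Gs) - (c1.map ψ - Cs) * ((c1.map ψ + Cs) * f.map ψ) := by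
        rw [nrm, Polynomial.map_sub, Polynomial.map_mul, Polynomial.map_pow, Polynomial.map_pow]
        ring
      rw [e1]
      exact (hg2.mul_right _).sub (hc2.mul_right _)
    have hF2 : ∀ i, ∃ z : ℚ_[r], ‖z‖ ≤ (r : ℝ) ^ (-((E0 + 1 : ℕ) : ℤ)) ∧
        (((nrm f g1 c1).coeff i : ℤ) : ℚ_[r]) = (C (c' ^ 2 * l) * X ^ (2 * k - 1) * (X - C xQ) +
          C (2 * c' * A0) * g + C (A0 ^ 2)).coeff i + z := by
      intro i
      have h3 := (C_dvd_iff_dvd_coeff _ _).mp hF i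
      rw [← Ideal.mem_span_singleton, ← PadicInt.norm_le_pow_iff_mem_span_pow,
        PadicInt.norm_def] at h3
      refine ⟨_, h3, ?_⟩
      rw [← hFs, coeff_map, hφa, coeff_sub (map ψ _), PadicInt.coe_sub, add_sub_cancel, coeff_map,
        eq_intCast, PadicInt.coe_intCast]
    have hn : ‖(((nrm f g1 c1).coeff (2 * k) : ℤ) : ℚ_[r])‖ = (r : ℝ) ^ (-(e : ℤ)) := by
      obtain ⟨z, hz, hz2⟩ := hF2 (2 * k)
      rw [hz2, htop, ← hα]
      apply Padic.norm_eq_of_norm_sub_lt_right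
      rw [add_sub_cancel_left, hα]
      exact hz.trans_lt (zpow_lt_zpow_right₀ hr1 (by omega))
    refine ⟨?_, ?_, ?_⟩
    · rw [← Padic.norm_int_le_pow_iff_dvd, hn]
    · rw [← Padic.norm_int_le_pow_iff_dvd, hn, not_le]
      exact zpow_lt_zpow_right₀ hr1 (by omega)
    · intro i hi
      obtain ⟨z, hz, hz2⟩ := hF2 i
      apply Sm.dvd
      have hcast : ((2 * k * e + (2 * k - i) * (E0 - e) : ℕ) : ℤ) =
          2 * k * e + (2 * k - i) * (E0 - e) := by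
        push_cast [Nat.cast_sub hi, Nat.cast_sub heE.le]; ring
      rw [hz2, hcast]
      refine Sm.add (slope_core (ν := ν) (n := n₁ + (ν + h)) (E := E0) (by omega) rfl (by linarith)
        ?_ hα D.nx ?_ ?_ hg i hi) (Sm.of_le hz ?_)
      · push_cast
        have : (0 : ℤ) ≤ k * n₁ := by positivity
        have h5 : (5 : ℤ) ≤ k := by exact_mod_cast hk
        have h6 : (0 : ℤ) ≤ h := by positivity
        have h7 := mul_le_mul_of_nonneg_right h5 h6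
        rw [hE0z, ← he]
        linarith
      · have : 2 * c' * A0 * g.coeff 0 = A0 * (c' * L) := by rw [hL]; ring
        rw [this, hcL, norm_mul, hA0n, norm_mul, hdiff, hrG, mul_one, ← zpow_add₀ hr0.ne']
        exact zpow_le_zpow_right₀ hr1.le (by linarith)
      · rw [norm_pow, hA0n, ← zpow_natCast, ← zpow_mul]
        refine zpow_le_zpow_right₀ hr1.le ?_
        push_cast; linarith
      · push_cast
        have h5 : (0 : ℤ) ≤ i := by positivity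
        have h6 : (e : ℤ) < E0 := by exact_mod_cast heE
        have h7 : (0 : ℤ) ≤ k := by positivity
        have h8 := mul_nonneg h5 (sub_pos.mpr h6).le
        linarith
  · obtain ⟨q, hq⟩ := hUV
    have e1 := congrArg (Polynomial.map (Int.castRingHom ℚ)) hq
    simp only [Polynomial.map_sub, Polynomial.map_add, Polynomial.map_mul, Polynomial.map_pow,
      map_C, map_X, eq_intCast (Int.castRingHom ℚ)] at e1
    refine ⟨C ((r : ℚ) ^ G') * q.map (Int.castRingHom ℚ), ?_⟩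
    simp only [hg00, hc00]
    push_cast
    rw [← ha, ← hb] at e1
    rw [hG, pow_add _ (K * j), pow_mul]
    simp only [map_mul, map_pow] at e1 ⊢
    rw [mul_assoc _ (C γ₁), ← mul_add, mul_pow] at e1
    linear_combination C (r : ℚ) ^ G' * e1

end Pool.Agent.P.MP_b8021b_nt.VE
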