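import Pool.Agent.P.MP_b8021b_nt.VE.StB

/-! B12: iteration, rounding and the limit `lam → 0`. -/

namespace Pool.Agent.P.MP_b8021b_nt.VE

open Polynomial Finset
open scoped Classical

namespace Rig

set_option linter.unusedSectionVars false

section mono

variable {P X Z T S : Type} [Fintype P] [Fintype X] [Fintype Z] [Fintype T] [Fintype S]

lemma N_pos {b : Base P X} {ε : ℝ} (h : b.Ok ε) : (0 : ℝ) < b.N := by
  have h1 := h.Npos
  rcases (Nat.cast_nonneg (α := ℝ) b.N).eq_or_lt with h2 | h2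
  · rw [← h2] at h1; norm_num at h1
  · exact h2

lemma eps_pos {b : Base P X} {ε : ℝ} (h : b.Ok ε) : 0 < ε := by
  have h1 := h.Npos
  have h2 := N_pos h
  by_contra h3
  push Not at h3
  nlinarith

lemma div_le {b : Base P X} {ε ε' : ℝ} (h : b.Ok ε) (he : ε ≤ ε') : ε / b.N ≤ ε' / b.N :=
  div_le_div_of_nonneg_right he (N_pos h).le

lemma base_mono {b : Base P X} {ε ε' : ℝ} (h : b.Ok ε) (he : ε ≤ ε') : b.Ok ε' where
  Npos := h.Npos.trans (mul_le_mul_of_nonneg_right he (N_pos h).le)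
  lev_lt := h.lev_lt
  v_mem := h.v_mem
  q_ge a := by
    have h1 := h.q_ge a
    have h2 := N_pos h
    have h3 := eps_pos h
    have h4 : 0 ≤ b.q a := by
      by_contra h5
      push Not at h5
      nlinarith
    exact h1.trans (mul_le_mul_of_nonneg_right he h4)
  w_nonneg := h.w_nonneg
  w_le a := (h.w_le a).trans (div_le h he)
  w_sum := h.w_sum
  card a := (h.card a).trans (div_le h he)
  ι_ι := h.ι_ι
  pr_ι := h.pr_ι

lemma side_mono {b : Base P X} {σ : Side X Z} {ε ε' : ℝ} (hb : b.Ok ε) (h : σ.Ok b ε)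
    (he : ε ≤ ε') : σ.Ok b ε' where
  nonneg := h.nonneg
  sum := h.sum
  ind Y h1 h2 := (h.ind Y h1 h2).trans (div_le hb he)
  same0 := h.same0
  same1 := h.same1

lemma ok_mono {Nc u d : ℕ} {G : Sys P X T S Nc u} {ε ε' : ℝ} (h : G.Ok d ε) (he : ε ≤ ε') :
    G.Ok d ε' where
  des := ⟨base_mono h.des.base he, side_mono h.des.base h.des.sT he,
    side_mono h.des.base h.des.sS he,
    ⟨h.des.mix.tup, fun φ ψ h1 h2 => (h.des.mix.cut φ ψ h1 h2).trans he⟩⟩
  box := ⟨h.box.mem, fun Y h1 h2 c => (h.box.cell Y h1 h2 c).trans (div_le h.des.base he),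
    h.box.inv⟩
  anti := h.anti
  degF := h.degF
  degQ := h.degQ
  pos := h.pos
  flat := h.flat
  deriv := h.deriv
  zero := h.zero
  size := h.size
  eqn := h.eqn

lemma m_nonneg {b : Base P X} {σ : Side X Z} {ε : ℝ} (hb : b.Ok ε) (z : Z) (x : X) :
    0 ≤ σ.m b z x := by
  unfold Side.m
  split_ifs
  · exact hb.w_nonneg _
  · exact le_rfl

lemma flag_nonneg {b : Base P X} {σ : Side X Z} {ε : ℝ} (hb : b.Ok ε) (h : σ.Ok b ε) (x : X)
    (z : Z) : 0 ≤ σ.flag b x z :=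
  div_nonneg (mul_nonneg (h.nonneg z) (m_nonneg hb z x)) (N_pos hb).le

end mono

/-- finitely many strict inequalities hold for a small positive number -/
lemma small {ι : Type} [Finite ι] (K g : ι → ℝ) :
    ∃ M : ℝ, 0 < M ∧ ∀ i, 0 < g i → K i * M < g i := by
  have h : ∀ᶠ M in nhdsWithin (0 : ℝ) (Set.Ioi 0), ∀ i, 0 < g i → K i * M < g i := by
    refine Filter.eventually_all.2 fun i => ?_
    by_cases hi : 0 < g i
    · have h1 : ContinuousAt (fun M : ℝ => K i * M) 0 := by fun_prop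
      have h2 : ∀ᶠ M in nhds (0 : ℝ), K i * M < g i :=
        h1.eventually (gt_mem_nhds (by simpa using hi))
      exact (h2.filter_mono nhdsWithin_le_nhds).mono fun M hM _ => hM
    · exact Filter.Eventually.of_forall fun M h => absurd h hi
  obtain ⟨M, h1, h2⟩ := (h.and self_mem_nhdsWithin).exists
  exact ⟨M, h2, h1⟩

variable {P X T S : Type} [Fintype P] [Fintype X] [Fintype T] [Fintype S] {Nc u d : ℕ}
  {G : Sys P X T S Nc u} {ε : ℝ}

lemma start (G : Sys P X T S Nc u) {h : ℝ} (hh : 0 ≤ h) : ∃ lam : ℝ, 0 < lam ∧ G.PT 0 lam h := by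
  obtain ⟨B, hB⟩ := (Set.finite_range fun p : X × T => |G.c₁ p.1 p.2|).bddAbove
  refine ⟨|B| + 1, by positivity, fun x => by simp, ?_⟩
  rw [sum_eq_zero fun t _ => sum_eq_zero fun x hx => ?_]
  · exact hh
  · have h1 := (mem_filter.1 hx).2
    have h2 : |G.c₁ x t| ≤ B := hB ⟨(x, t), rfl⟩
    simp only [Pi.zero_apply, sub_zero] at h1
    linarith [le_abs_self B]

/-- rounding to the finite set of values -/
lemma round (hG : G.Ok d ε) {h : ℝ}
    (hPT : ∀ l : ℝ, 0 < l → ∃ a lam, lam ≤ l ∧ G.PT a lam h) :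
    ∃ a, ∀ lam : ℝ, 0 < lam → G.PT a lam h := by
  let V : Finset ℝ := (univ.image fun p : X × T => G.c₁ p.1 p.2) ∪
    (univ.image fun p : X × T => -G.c₁ p.1 p.2)
  have hneg : ∀ v ∈ V, -v ∈ V := by
    intro v hv
    simp only [V, mem_union, mem_image, mem_univ, true_and] at hv ⊢
    rcases hv with ⟨p, rfl⟩ | ⟨p, rfl⟩
    · exact Or.inr ⟨p, rfl⟩
    · exact Or.inl ⟨p, by simp⟩
  have hmem : ∀ x t, G.c₁ x t ∈ V := fun x t =>
    mem_union_left _ (mem_image.2 ⟨(x, t), mem_univ _, rfl⟩)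
  obtain ⟨l, l0, hl⟩ := small (ι := V × V) (fun _ => 2) fun p => |p.1.1 - p.2.1|
  obtain ⟨a, lam, h1, h2, h3⟩ := hPT l l0
  refine ⟨fun x => ∑ v ∈ V with |v - a x| ≤ lam, v, fun lam' h0 => ⟨fun x => ?_, ?_⟩⟩
  · rw [← sum_neg_distrib]
    refine sum_bij' (fun v _ => -v) (fun v _ => -v) ?_ ?_ ?_ ?_ ?_
    · intro v hv
      obtain ⟨a1, a2⟩ := mem_filter.1 hv
      refine mem_filter.2 ⟨hneg v a1, ?_⟩
      rw [h2 x] at a2
      rw [← abs_neg]
      rwa [show -(-v - a x) = v - -a x by ring]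
    · intro v hv
      obtain ⟨a1, a2⟩ := mem_filter.1 hv
      refine mem_filter.2 ⟨hneg v a1, ?_⟩
      rw [h2 x, ← abs_neg]
      rwa [show -(-v - -a x) = v - a x by ring]
    · intro v _; simp
    · intro v _; simp
    · intro v _; simp
  · refine le_trans (sum_le_sum fun t _ => sum_le_sum_of_subset_of_nonneg ?_ fun x _ _ =>
      flag_nonneg hG.des.base hG.des.sT x t) h3
    intro x hx
    have h4 := (mem_filter.1 hx).2
    refine mem_filter.2 ⟨mem_univ _, ?_⟩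
    by_contra h5
    push Not at h5
    have h6 : V.filter (fun v => |v - a x| ≤ lam) = {G.c₁ x t} := by
      ext v
      simp only [mem_filter, mem_singleton]
      refine ⟨fun ⟨b1, b2⟩ => ?_, fun e => e ▸ ⟨hmem x t, h5⟩⟩
      by_contra hne
      have h7 := hl (⟨v, b1⟩, ⟨_, hmem x t⟩) (abs_pos.2 (sub_ne_zero.2 hne))
      have h8 : |v - G.c₁ x t| ≤ |v - a x| + |G.c₁ x t - a x| := by
        rw [show v - G.c₁ x t = (v - a x) - (G.c₁ x t - a x) by ring]
        exact abs_sub _ _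
      simp only at h7
      linarith
    simp only [h6, sum_singleton, sub_self, abs_zero] at h4
    linarith

/-- every cell contains a fibre -/
lemma cell_ne (hG : G.Ok d ε) (he : ε ≤ 1 / 2) (e : Fin Nc × Fin Nc) :
    ∃ t, G.box.cell t = e := by
  by_contra h
  push Not at h
  have h1 := hG.box.cell ∅ (by simp) (by simp) e
  rw [sum_eq_zero fun t ht => by
    simp only [mem_filter] at ht
    exact absurd ht.2.1 (h t)] at h1
  have h2 := N_pos hG.des.base
  have h3 := hG.des.base.Npos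
  have h4 : ε / G.b.N ≤ 1 / 2 := by
    rw [div_le_iff₀ h2]
    nlinarith [eps_pos hG.des.base]
  simp only [zero_mul, zero_sub, abs_neg, abs_one] at h1
  linarith

lemma tau_mem (hG : G.Ok d ε) (t : T) : G.box.τ t ∈ G.I := by
  have h := hG.box.mem
  have h0 : (0 : ℝ) < Nc := by
    have := (G.box.cell t).1.pos
    exact_mod_cast this
  have h1 : (((G.box.cell t).1.1 : ℝ) + 1) ≤ Nc := by
    have := (G.box.cell t).1.2
    exact_mod_cast this
  refine ⟨le_trans ?_ (h.τ_ge t), (h.τ_le t).trans ?_⟩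
  · have := h.ηpos
    have : 0 ≤ ((G.box.cell t).1.1 : ℝ) * G.box.η / Nc := by positivity
    linarith
  · have : (((G.box.cell t).1.1 : ℝ) + 1) * G.box.η / Nc ≤ G.box.η := by
      rw [div_le_iff₀ h0]
      nlinarith [h.ηpos]
    linarith

lemma exists_ne (hG : G.Ok d ε) (s : S) : ∃ a ∈ G.I, G.Q s ≠ 0 → (G.Q s).eval a ≠ 0 := by
  have hη := hG.box.mem.ηpos
  by_cases hQ : G.Q s = 0
  · exact ⟨G.box.τ0, ⟨le_rfl, by linarith⟩, fun h => absurd hQ h⟩
  · have h1 : (G.I).Infinite := Set.Icc_infinite (by linarith)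
    obtain ⟨a, h2, h3⟩ := h1.exists_notMem_finite (finite_setOfPred_isRoot hQ)
    exact ⟨a, h2, fun _ => h3⟩

/-- the consequence of B6 for one section -/
lemma rem (hG : G.Ok d ε) (he : ε ≤ 1 / 2) {CR δ : ℝ} (hδ : 0 < δ)
    (hR : ∀ (F Q : ℝ[X]) (R : ℝ → ℝ) (κ c M : ℝ), G.box.Mem → Q.natDegree ≤ d →
      (∀ a ∈ G.I, 0 < F.eval a) → (∀ a ∈ G.I, ∀ a' ∈ G.I, F.eval a ≤ 2 * F.eval a') →
      (∀ a ∈ G.I, HasDerivAt R (Q.eval a / F.eval a) a) → 0 ≤ M →
      (1 - δ) * (Nc : ℝ) ^ 2 ≤ ((univ.filter fun e => ∃ t, G.box.cell t = e ∧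
        |R (G.box.τ t) + κ * Real.log (G.box.b t) + c| ≤ M).card : ℝ) →
      (∀ a ∈ G.I, G.box.η * |Q.eval a / F.eval a| ≤ CR * M) ∧ G.box.η * |κ| ≤ CR * M)
    (s : S) {φ₀ κ M : ℝ} (hM : 0 ≤ M)
    (h : ∀ t, |G.A s (G.box.τ t) + (u + 2) * φ₀ + κ * G.Lg d s t| ≤ M) :
    G.box.η * |κ| ≤ CR * M ∧ ∀ a ∈ G.I, G.box.η * |(G.Q s).eval a / (G.F s).eval a| ≤
      CR * (1 + |(G.F s).derivative.eval a / (G.F s).eval a|) * M := by
  have hη := hG.box.mem.ηpos
  obtain ⟨h1, h2⟩ := hR (G.F s) (G.Q s + C κ * (G.F s).derivative)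
    (fun a => G.A s a + κ * Real.log ((G.F s).eval a)) (κ * (d + 1))
    (κ * G.c + (u + 2) * φ₀) M hG.box.mem
    ((natDegree_add_le _ _).trans (max_le (hG.degQ s) ((natDegree_C_mul_le _ _).trans
      ((natDegree_derivative_le _).trans (by have := hG.degF s; omega)))))
    (hG.pos s) (hG.flat s)
    (fun a ha => by
      have h3 := (hG.deriv s a ha).add
        ((((G.F s).hasDerivAt a).log (hG.pos s a ha).ne').const_mul κ)
      have h4 : (G.Q s + C κ * (G.F s).derivative).eval a / (G.F s).eval a =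
          (G.Q s).eval a / (G.F s).eval a +
            κ * ((G.F s).derivative.eval a / (G.F s).eval a) := by
        simp only [eval_add, eval_mul, eval_C]
        ring
      rw [h4]
      exact h3) hM
    (by
      rw [filter_true_of_mem fun e _ => ?_]
      · simp only [card_univ, Fintype.card_prod, Fintype.card_fin, Nat.cast_mul]
        nlinarith [sq_nonneg (Nc : ℝ)]
      · obtain ⟨t, ht⟩ := cell_ne hG he e
        refine ⟨t, ht, le_trans (le_of_eq ?_) (h t)⟩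
        congr 1
        simp only [Sys.Lg]
        ring)
  have h3 : G.box.η * |κ| ≤ CR * M := by
    refine le_trans (mul_le_mul_of_nonneg_left ?_ hη.le) h2
    rw [abs_mul, abs_of_pos (show (0 : ℝ) < d + 1 by positivity)]
    nlinarith [abs_nonneg κ, Nat.cast_nonneg (α := ℝ) d]
  refine ⟨h3, fun a ha => ?_⟩
  have h4 := h1 a ha
  have h5 : (G.Q s).eval a / (G.F s).eval a =
      (G.Q s + C κ * (G.F s).derivative).eval a / (G.F s).eval a -
        κ * ((G.F s).derivative.eval a / (G.F s).eval a) := by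
    simp only [eval_add, eval_mul, eval_C]
    ring
  have h6 := abs_sub ((G.Q s + C κ * (G.F s).derivative).eval a / (G.F s).eval a)
    (κ * ((G.F s).derivative.eval a / (G.F s).eval a))
  rw [← h5, abs_mul] at h6
  have h7 := abs_nonneg ((G.F s).derivative.eval a / (G.F s).eval a)
  have h8 := mul_le_mul_of_nonneg_right h3 h7
  have h9 := mul_le_mul_of_nonneg_left h6 hη.le
  nlinarith

/-- the limit `lam → 0` -/
lemma limit (hG : G.Ok d ε) (he : ε ≤ 1 / 2) (hNc : 1 ≤ Nc) {CR δ : ℝ} (hδ : 0 < δ)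
    (hR : ∀ (F Q : ℝ[X]) (R : ℝ → ℝ) (κ c M : ℝ), G.box.Mem → Q.natDegree ≤ d →
      (∀ a ∈ G.I, 0 < F.eval a) → (∀ a ∈ G.I, ∀ a' ∈ G.I, F.eval a ≤ 2 * F.eval a') →
      (∀ a ∈ G.I, HasDerivAt R (Q.eval a / F.eval a) a) → 0 ≤ M →
      (1 - δ) * (Nc : ℝ) ^ 2 ≤ ((univ.filter fun e => ∃ t, G.box.cell t = e ∧
        |R (G.box.τ t) + κ * Real.log (G.box.b t) + c| ≤ M).card : ℝ) →
      (∀ a ∈ G.I, G.box.η * |Q.eval a / F.eval a| ≤ CR * M) ∧ G.box.η * |κ| ≤ CR * M)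
    {a : X → ℝ} {h e : ℝ} (hRS : ∀ M : ℝ, 0 < M → G.RS d a M h e) :
    ∃ Gd : Finset S, ∑ s with s ∉ Gd, G.σS.wt s ≤ e ∧ ∀ s ∈ Gd,
      (∑ x with G.c₂ x s ≠ a x - G.β / (u + 2), G.σS.m G.b s x) / G.b.N ≤ h := by
  have hη := hG.box.mem.ηpos
  obtain ⟨t₀, -⟩ := cell_ne hG he (⟨0, hNc⟩, ⟨0, hNc⟩)
  choose r hr hr' using exists_ne hG
  obtain ⟨M, M0, hM⟩ := small (ι := S ⊕ X × S)
    (Sum.elim (fun s => CR * (1 + |(G.F s).derivative.eval (r s) / (G.F s).eval (r s)|))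
      fun p => 2 + CR / G.box.η * (|G.Lg d p.2 t₀| + |G.b.v (G.b.pr p.1)|))
    (Sum.elim (fun s => G.box.η * |(G.Q s).eval (r s) / (G.F s).eval (r s)|)
      fun p => |G.c₂ p.1 p.2 - a p.1 + G.β / (u + 2)|)
  obtain ⟨Gd, h1, h2⟩ := hRS M M0
  refine ⟨Gd, h1, fun s hs => ?_⟩
  obtain ⟨φ₀, κ, h3, h4⟩ := h2 s hs
  obtain ⟨h5, h6⟩ := rem hG he hδ hR s M0.le h4
  have hQ : G.Q s = 0 := by
    by_contra hQ
    have h7 := hM (.inl s) (mul_pos hη (abs_pos.2
      (div_ne_zero (hr' s hQ) (hG.pos s _ (hr s)).ne')))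
    exact absurd (h6 _ (hr s)) (not_le.2 h7)
  have h7 := h4 t₀
  rw [hG.zero s hQ _ (tau_mem hG t₀), zero_add] at h7
  have hκ : |κ| ≤ CR / G.box.η * M := by
    rw [div_mul_eq_mul_div, le_div_iff₀ hη]
    linarith
  have hφ : |φ₀| ≤ M + |κ| * |G.Lg d s t₀| := by
    have h8 : |φ₀| ≤ |((u : ℝ) + 2) * φ₀| := by
      rw [abs_mul, abs_of_pos (show (0 : ℝ) < u + 2 by positivity)]
      nlinarith [abs_nonneg φ₀, Nat.cast_nonneg (α := ℝ) u]
    have h9 := abs_sub ((u + 2) * φ₀ + κ * G.Lg d s t₀) (κ * G.Lg d s t₀)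
    rw [add_sub_cancel_right, abs_mul κ] at h9
    linarith
  refine le_trans (div_le_div_of_nonneg_right (sum_le_sum_of_subset_of_nonneg ?_ fun x _ _ =>
    m_nonneg hG.des.base s x) (N_pos hG.des.base).le) h3
  intro x hx
  have h8 := (mem_filter.1 hx).2
  refine mem_filter.2 ⟨mem_univ _, ?_⟩
  have h9 := hM (.inr (x, s)) (abs_pos.2 fun e => h8 (by
    simp only at e
    linarith))
  simp only [Sum.elim_inr] at h9
  have h10 : |G.c₂ x s - a x + G.β / (u + 2)| ≤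
      |G.c₂ x s - a x + G.β / (u + 2) - φ₀ - κ * G.b.v (G.b.pr x)| + |φ₀| +
        |κ| * |G.b.v (G.b.pr x)| := by
    rw [← abs_mul]
    refine le_trans (le_of_eq ?_) (abs_add_three _ _ _)
    congr 1
    ring
  have h11 := mul_le_mul_of_nonneg_right hκ (abs_nonneg (G.Lg d s t₀))
  have h12 := mul_le_mul_of_nonneg_right hκ (abs_nonneg (G.b.v (G.b.pr x)))
  nlinarith

end Rig

open Rig in
theorem p_rig (hTK : S_TK) (hRem : S_Rem) (hSA : S_SA) (hTail : S_Tail) (hContr : S_Contr) :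
    S_Rig := by
  intro u d hu δ hδ
  obtain ⟨CK, CK1, hK⟩ := hTK
  obtain ⟨CR, δR, NR, CR1, δR0, hR⟩ := hRem d
  obtain ⟨CS, hS, NS, CS1, hS0, hSA⟩ := hSA u d hu
  obtain ⟨CT, hT, NT, CT1, hT0, hTail⟩ := hTail u d hu
  obtain ⟨CC, hC, NC, CC1, hC0, hContr⟩ := hContr u d hu
  obtain ⟨K, hKd⟩ : ∃ K : ℝ, K = 4 * CC * CT ^ 2 := ⟨_, rfl⟩
  have K1 : 1 ≤ K := by rw [hKd]; nlinarith [one_le_pow₀ CT1 (n := 2)]
  obtain ⟨h, h0, hh⟩ := small (ι := Fin 5) ![1, 1, 1, 4 * K * CT, 3 * CS] ![hS, hT, hC, 1, δ]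
  have a1 : h < hS := by simpa using hh 0 hS0
  have a2 : h < hT := by simpa using hh 1 hT0
  have a3 : h < hC := by simpa using hh 2 hC0
  have a4 : 4 * K * CT * h < 1 := by simpa using hh 3 one_pos
  have a5 : 3 * CS * h < δ := by simpa using hh 4 hδ
  refine ⟨NR + NS + NT + NC + ⌈2 * K / h⌉₊ + 1, fun Nc hNc => ?_⟩
  have e1 : 0 < h / (8 * K) := by positivity
  obtain ⟨e, e0, he⟩ := small (ι := Fin 2) ![3, (3 * CK) ^ 2] ![δ, δ ^ 2]
  have b1 : 3 * e < δ := by simpa using he 0 hδ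
  have b2 : (3 * CK) ^ 2 * e < δ ^ 2 := by simpa using he 1 (pow_pos hδ 2)
  obtain ⟨εS, εS0, hSA⟩ := hSA Nc (by omega) e e0
  obtain ⟨εT, εT0, hTail⟩ := hTail Nc (by omega) _ e1
  obtain ⟨εC, εC0, hContr⟩ := hContr Nc (by omega) _ e1
  refine ⟨min (min εS εT) (min εC (1 / 2)), by positivity, ?_⟩
  intro P X T S _ _ _ _ G hG
  have hhalf : min (min εS εT) (min εC (1 / 2)) ≤ 1 / 2 := (min_le_right _ _).trans (min_le_right _ _)
  have hSA := hSA P X T S G (ok_mono hG ((min_le_left _ _).trans (min_le_left _ _)))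
  have hTail := hTail P X T S G (ok_mono hG ((min_le_left _ _).trans (min_le_right _ _)))
  have hContr := hContr P X T S G (ok_mono hG ((min_le_right _ _).trans (min_le_left _ _)))
  have hN1 : (1 : ℝ) ≤ Nc := by exact_mod_cast (show 1 ≤ Nc by omega)
  have hN2 : 2 * K / h ≤ Nc :=
    (Nat.le_ceil _).trans (by exact_mod_cast (show ⌈2 * K / h⌉₊ ≤ Nc by omega))
  have c1 : K * (CT * h ^ 2) ≤ h / 4 := by nlinarith
  have c2 : K * (h / (8 * K)) = h / 8 := by field_simp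
  have c3 : K * (1 / (Nc : ℝ) ^ 2) ≤ h / 2 := by
    rw [div_le_iff₀ h0] at hN2
    rw [mul_one_div, div_le_iff₀ (by positivity)]
    nlinarith [mul_le_mul_of_nonneg_left hN1 (show 0 ≤ h * Nc by positivity)]
  have c4 : CT * h ^ 2 + h / (8 * K) ≤ hC := by
    have : 0 ≤ CT * h ^ 2 + h / (8 * K) := by positivity
    nlinarith
  have step : ∀ a lam, 0 < lam → G.PT a lam h → ∃ a', G.PT a' (lam / 2) h := by
    intro a lam l0 hP
    obtain ⟨a', h1⟩ := hTail a lam h l0 a2.le hP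
    obtain ⟨a'', h2, h3⟩ := hContr a' (CT * lam) _ (1 / (2 * CT)) (by positivity) c4
      (by positivity) (by rw [div_le_one (by positivity)]; linarith) h1
    rw [show 1 / (2 * CT) * (CT * lam) = lam / 2 by field_simp] at h3
    refine ⟨a'', h2, h3.trans ?_⟩
    rw [show CC * (CT * h ^ 2 + h / (8 * K) + 1 / (Nc : ℝ) ^ 2 + h / (8 * K)) /
      (1 / (2 * CT)) ^ 2 = K * (CT * h ^ 2) + K * (h / (8 * K)) + K * (1 / (Nc : ℝ) ^ 2) +
        K * (h / (8 * K)) from ?_]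
    · linarith
    · generalize h / (8 * K) = z
      rw [hKd]
      field_simp
      ring
  obtain ⟨l₀, l0, hl⟩ := start G h0.le
  have iter : ∀ k : ℕ, ∃ a, G.PT a (l₀ * (1 / 2) ^ k) h := by
    intro k
    induction k with
    | zero => exact ⟨0, by simpa using hl⟩
    | succ k ih =>
      obtain ⟨a, ha⟩ := ih
      obtain ⟨a', ha'⟩ := step a _ (by positivity) ha
      exact ⟨a', by rwa [show l₀ * (1 / 2) ^ (k + 1) = l₀ * (1 / 2) ^ k / 2 by ring]⟩
  obtain ⟨a, ha⟩ := round hG (h := h) fun l hl0 => by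
    obtain ⟨k, hk⟩ := exists_pow_lt_of_lt_one (div_pos hl0 l0) (show (1 / 2 : ℝ) < 1 by norm_num)
    obtain ⟨a, ha⟩ := iter k
    refine ⟨a, _, ?_, ha⟩
    rw [lt_div_iff₀ l0] at hk
    linarith
  refine ⟨a, (ha 1 one_pos).1, ?_⟩
  obtain ⟨Gd, g1, g2⟩ := limit hG hhalf (by omega) (CR := CR) δR0
    (fun F Q R κ c M m1 m2 m3 m4 m5 m6 m7 =>
      let r := hR Nc (by omega) T G.box F Q R κ c M m1 m2 m3 m4 m5 m6 m7
      ⟨r.1, r.2.1⟩) (a := a) (h := CS * h + e) (e := e) fun M M0 => by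
      have := hSA a (M / CS) h (by positivity) a1.le (ha _ (by positivity))
      rwa [show CS * (M / CS) = M by field_simp] at this
  have g3 := (hK P X S G.b G.σS _ (hhalf.trans (by norm_num)) hG.des.base hG.des.sS).2.2
    (univ.filter fun s => s ∉ Gd)
  have g4 : CK * √(∑ s with s ∉ Gd, G.σS.wt s) ≤ δ / 3 := by
    have : √(∑ s with s ∉ Gd, G.σS.wt s) ≤ δ / (3 * CK) := by
      refine Real.sqrt_le_iff.2 ⟨by positivity, g1.trans ?_⟩
      rw [div_pow, le_div_iff₀ (by positivity)]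
      linarith
    calc _ ≤ CK * (δ / (3 * CK)) := by gcongr
      _ = δ / 3 := by field_simp
  rw [← sum_filter_add_sum_filter_not univ fun s => s ∈ Gd]
  have g5 : ∑ s with s ∈ Gd, ∑ x with G.c₂ x s ≠ a x - G.β / (u + 2), G.σS.flag G.b x s ≤
      CS * h + e := by
    calc _ ≤ ∑ s with s ∈ Gd, G.σS.wt s * (CS * h + e) := by
          refine sum_le_sum fun s hs => ?_
          simp only [Side.flag, mul_div_assoc]
          rw [← mul_sum, ← sum_div]
          exact mul_le_mul_of_nonneg_left (g2 s (mem_filter.1 hs).2) (hG.des.sS.nonneg s)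
      _ ≤ ∑ s, G.σS.wt s * (CS * h + e) :=
          sum_le_sum_of_subset_of_nonneg (filter_subset _ _) fun s _ _ =>
            mul_nonneg (hG.des.sS.nonneg s) (by positivity)
      _ = CS * h + e := by rw [← sum_mul, hG.des.sS.sum, one_mul]
  have g6 : ∑ s with s ∉ Gd, ∑ x with G.c₂ x s ≠ a x - G.β / (u + 2), G.σS.flag G.b x s ≤
      ∑ s with s ∉ Gd, ∑ x, G.σS.flag G.b x s :=
    sum_le_sum fun s _ => sum_le_sum_of_subset_of_nonneg (filter_subset _ _) fun x _ _ =>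
      flag_nonneg hG.des.base hG.des.sS x s
  linarith

end Pool.Agent.P.MP_b8021b_nt.VE
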