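import Pool.Agent.P.MP_b8021b_nt.VE.StA

/-! S1: the relations in the fibres of `E × 𝔾ₘ → E`. -/

namespace Pool.Agent.P.MP_b8021b_nt.VE

open Polynomial NumberField Finset
open scoped Classical WithZero IntermediateField

namespace S1

section Val

variable {K : Type} [Field K] (p : GPt K)

lemma val_unique {a : K} {c d : Qb} (h : p.Val a c) (h' : p.Val a d) : c = d := by
  obtain ⟨h1, rfl⟩ := h
  obtain ⟨h2, rfl⟩ := h'
  rfl

lemma v_eq_one {a : K} {c : Qb} (h : p.Val a c) (hc : c ≠ 0) : p.v a = 1 := by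
  obtain ⟨h1, rfl⟩ := h
  have h2 : p.v a ≤ 1 := (Valuation.mem_valuationSubring_iff _ _).mp h1
  have h3 : ¬ p.v a < 1 := fun h => hc ((p.ker ⟨a, h1⟩).mpr h)
  exact le_antisymm h2 (not_lt.mp h3)

lemma ord_eq_zero {a : K} (h : p.v a = 1) : p.ord a = 0 := by
  simp [GPt.ord, h]

lemma val_div {a b : K} {c d : Qb} (ha : p.Val a c) (hb : p.Val b d) (hd : d ≠ 0) :
    p.Val (a / b) (c / d) := by
  have hb1 := v_eq_one p hb hd
  have hb0 : b ≠ 0 := by
    rintro rfl
    simp at hb1
  obtain ⟨h1, rfl⟩ := ha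
  obtain ⟨h2, rfl⟩ := hb
  have h3 : a / b ∈ p.v.valuationSubring := by
    rw [Valuation.mem_valuationSubring_iff, map_div₀, hb1, div_one]
    exact (Valuation.mem_valuationSubring_iff _ _).mp h1
  refine ⟨h3, ?_⟩
  rw [eq_div_iff hd, ← map_mul]
  congr 1
  ext
  simp [hb0]

lemma val_one {a : K} (h : p.v (a - 1) < 1) : p.Val a 1 := by
  have h1 : a - 1 ∈ p.v.valuationSubring := (Valuation.mem_valuationSubring_iff _ _).mpr h.le
  have h2 : a ∈ p.v.valuationSubring := by
    have := add_mem h1 (one_mem p.v.valuationSubring)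
    simpa using this
  refine ⟨h2, ?_⟩
  have h3 : p.ρ ⟨a - 1, h1⟩ = 0 := (p.ker _).mpr h
  have h4 : (⟨a, h2⟩ : p.v.valuationSubring) = ⟨a - 1, h1⟩ + 1 := by
    ext
    simp
  rw [h4, map_add, h3, map_one, zero_add]

lemma ord_div {a b : K} (ha : a ≠ 0) (hb : b ≠ 0) : p.ord (a / b) = p.ord a - p.ord b := by
  unfold GPt.ord
  rw [map_div₀, WithZero.log_div ((Valuation.ne_zero_iff _).mpr ha)
    ((Valuation.ne_zero_iff _).mpr hb)]
  ring

lemma v_le_one {L : Type} [Field L] [NumberField L] (ι : L →+* K) (c : L) : p.v (ι c) ≤ 1 := by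
  have halg : IsAlgebraic ℤ c :=
    (IsFractionRing.isAlgebraic_iff ℤ ℚ L).mpr (Algebra.IsAlgebraic.isAlgebraic c)
  obtain ⟨n, hn, hi⟩ := halg.exists_integral_multiple
  have h1 : IsIntegral ℤ (ι (n • c)) := hi.map ι.toIntAlgHom
  have h2 : IsIntegral p.v.integer (ι (n • c)) := h1.tower_top
  have h3 := (Valuation.integer.integers p.v).mem_of_integral h2
  rw [Valuation.mem_integer_iff, map_zsmul, zsmul_eq_mul, map_mul] at h3
  have h4 : p.Val (n : K) (n : Qb) := by
    refine ⟨intCast_mem _ n, ?_⟩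
    have : (⟨(n : K), intCast_mem _ n⟩ : p.v.valuationSubring) = n := by
      ext
      simp
    rw [this, map_intCast]
  rwa [v_eq_one p h4 (Int.cast_ne_zero.mpr hn), one_mul] at h3

end Val

section Poly

variable {L : Type} [Field L] [NumberField L] {K : Type} [Field K]

lemma poly_mem (p : GPt K) (j : L[X] →+* K) (hX : j X ∈ p.v.valuationSubring) (r : L[X]) :
    j r ∈ p.v.valuationSubring := by
  induction r using Polynomial.induction_on' with
  | add a b ha hb => rw [map_add]; exact add_mem ha hb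
  | monomial n c =>
    rw [← C_mul_X_pow_eq_monomial, map_mul, map_pow]
    refine mul_mem ?_ (pow_mem hX n)
    exact (Valuation.mem_valuationSubring_iff _ _).mpr (v_le_one p (j.comp C) c)

lemma v_lt (p : GPt K) (j : L[X] →+* K) (hX : 1 < p.v (j X)) {r : L[X]} {n : ℕ}
    (hr : r.degree < n) : p.v (j r) < p.v (j X) ^ n := by
  have h0 : p.v (j X) ≠ 0 := (lt_trans zero_lt_one hX).ne'
  rw [r.as_sum_support_C_mul_X_pow, map_sum]
  refine Valuation.map_sum_lt _ (pow_ne_zero _ h0) fun i hi => ?_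
  have h1 : i < n := by
    have := (le_degree_of_ne_zero (mem_support_iff.mp hi)).trans_lt hr
    exact_mod_cast this
  rw [map_mul, map_mul, map_pow, map_pow]
  calc p.v (j (C (r.coeff i))) * p.v (j X) ^ i ≤ 1 * p.v (j X) ^ i :=
        mul_le_mul_left (v_le_one p (j.comp C) _) _
    _ = p.v (j X) ^ i := one_mul _
    _ < p.v (j X) ^ n := pow_lt_pow_right₀ hX h1

lemma v_monic (p : GPt K) (j : L[X] →+* K) (hX : 1 < p.v (j X)) {r : L[X]} (hr : r.Monic) :
    p.v (j r) = p.v (j X) ^ r.natDegree := by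
  have h1 : (r - X ^ r.natDegree).degree < (r.natDegree : WithBot ℕ) := by
    have := degree_sub_lt_left (p := r) (q := X ^ r.natDegree)
      (by rw [degree_X_pow, degree_eq_natDegree hr.ne_zero]) hr.ne_zero
      (by rw [leadingCoeff_X_pow, hr.leadingCoeff])
    rwa [degree_eq_natDegree hr.ne_zero] at this
  have h2 := v_lt p j hX h1
  have h3 : j r = j X ^ r.natDegree + j (r - X ^ r.natDegree) := by
    rw [map_sub, map_pow]
    ring
  rw [h3, Valuation.map_add_eq_of_lt_left _ (by rwa [map_pow]), map_pow]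

lemma val_inf (p : GPt K) (j : L[X] →+* K) (hX : j X ∉ p.v.valuationSubring) {G D : L[X]}
    (hG : G.Monic) (hD : D.Monic) (h : G.natDegree = D.natDegree) : p.Val (j G / j D) 1 := by
  have hX' : 1 < p.v (j X) := by
    rw [Valuation.mem_valuationSubring_iff] at hX
    exact not_le.mp hX
  have h0 : p.v (j X) ^ D.natDegree ≠ 0 := pow_ne_zero _ (lt_trans zero_lt_one hX').ne'
  have h1 := v_monic p j hX' hD
  have h2 : j D ≠ 0 := by
    intro h
    rw [h, map_zero] at h1
    exact h0 h1.symm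
  have h3 : (G - D).degree < D.natDegree := by
    have := degree_sub_lt_left (p := G) (q := D)
      (by rw [degree_eq_natDegree hG.ne_zero, degree_eq_natDegree hD.ne_zero, h]) hG.ne_zero
      (by rw [hG.leadingCoeff, hD.leadingCoeff])
    rwa [degree_eq_natDegree hG.ne_zero, h] at this
  have h4 := v_lt p j hX' h3
  apply val_one
  have h5 : j G / j D - 1 = j (G - D) / j D := by
    rw [map_sub]
    field_simp
  rw [h5, map_div₀, h1]
  exact (div_lt_one₀ (zero_lt_iff.mpr h0)).mpr h4

lemma mult_eq (τ : L →+* Qb) (a : Qb) (hk : RingHom.ker (eval₂RingHom τ a) ≠ ⊥) {r : L[X]}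
    (hr : r ≠ 0) :
    multiplicity (RingHom.ker (eval₂RingHom τ a)) (Ideal.span {r}) = (r.map τ).roots.count a := by
  letI : Algebra L Qb := τ.toAlgebra
  have hker : RingHom.ker (eval₂RingHom τ a) = Ideal.span {minpoly L a} :=
    minpoly.ker_aeval_eq_span_minpoly L a
  have hq0 : minpoly L a ≠ 0 := by
    intro h
    rw [h, Ideal.span_singleton_zero] at hker
    exact hk hker
  have hint : IsIntegral L a := by
    by_contra h
    exact hq0 (minpoly.eq_zero h)
  have hirr := minpoly.irreducible hint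
  have hfin : FiniteMultiplicity (minpoly L a) r :=
    FiniteMultiplicity.of_not_isUnit hirr.not_isUnit hr
  rw [hker, multiplicity_eq_of_emultiplicity_eq Ideal.emultiplicity_eq_emultiplicity_span]
  obtain ⟨s, hs, hns⟩ := hfin.exists_eq_pow_mul_and_not_dvd
  generalize multiplicity (minpoly L a) r = k at hs ⊢
  have hm : (r.map τ) ≠ 0 := Polynomial.map_ne_zero hr
  have hq : ((minpoly L a).map τ) ≠ 0 := Polynomial.map_ne_zero hq0
  have h1 : ((minpoly L a).map τ).roots.count a = 1 := by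
    rw [count_roots]
    refine le_antisymm (rootMultiplicity_le_one_of_separable (hirr.separable.map) a) ?_
    refine (rootMultiplicity_pos hq).mpr ?_
    rw [IsRoot.def, eval_map]
    exact minpoly.aeval L a
  have h2 : (s.map τ).roots.count a = 0 := by
    rw [count_roots]
    refine rootMultiplicity_eq_zero fun h => hns ?_
    rw [IsRoot.def, eval_map] at h
    exact minpoly.dvd L a h
  have h3 : r.map τ = ((minpoly L a).map τ) ^ k * s.map τ := by
    rw [hs, Polynomial.map_mul, Polynomial.map_pow]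
  rw [h3] at hm ⊢
  rw [roots_mul hm, roots_pow, Multiset.count_add, Multiset.count_nsmul, h1, h2]
  simp

lemma sum_count (s : Multiset Qb) (T : Finset Qb) (h : ∀ a ∈ s, a ∈ T) (g : Qb → ℝ) :
    ∑ a ∈ T, (s.count a : ℝ) * g a = (s.map g).sum := by
  rw [Finset.sum_multiset_map_count]
  symm
  simp only [nsmul_eq_mul]
  refine Finset.sum_subset (fun a ha => h a (Multiset.mem_toFinset.mp ha)) fun a _ ha => ?_
  rw [Multiset.count_eq_zero_of_notMem (fun h => ha (Multiset.mem_toFinset.mpr h))]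
  simp

lemma isCurve [Algebra L[X] K] [IsFractionRing L[X] K] [Algebra ℚ K] : IsCurve K := by
  set j := algebraMap L[X] K with hj
  have hinj : Function.Injective j := IsFractionRing.injective _ _
  let ι : L →ₐ[ℚ] K := (j.comp C).toRatAlgHom
  refine ⟨j X, ?_, ?_⟩
  · rw [transcendental_iff]
    intro q hq
    have h1 : aeval (j X) q = j (q.map (algebraMap ℚ L)) := by
      have : (aeval (j X) : ℚ[X] →ₐ[ℚ] K) =
          (j.comp (mapRingHom (algebraMap ℚ L))).toRatAlgHom := by
        ext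
        simp
      rw [this]
      rfl
    rw [h1] at hq
    have h2 : q.map (algebraMap ℚ L) = 0 := hinj (by rw [hq, map_zero])
    exact (Polynomial.map_eq_zero _).mp h2
  · let b := Module.finBasis ℚ L
    let E : IntermediateField ℚ⟮j X⟯ K := IntermediateField.adjoin ℚ⟮j X⟯ (Set.range (ι ∘ b))
    haveI : FiniteDimensional ℚ⟮j X⟯ E := by
      refine IntermediateField.finiteDimensional_adjoin ?_
      rintro _ ⟨i, rfl⟩
      exact ((Algebra.IsIntegral.isIntegral (R := ℚ) (b i)).map ι).tower_top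
    have hX : j X ∈ E :=
      E.algebraMap_mem ⟨j X, IntermediateField.mem_adjoin_simple_self ℚ (j X)⟩
    have hc : ∀ c : L, ι c ∈ E := by
      intro c
      rw [← b.sum_repr c, map_sum]
      refine sum_mem fun i _ => ?_
      rw [map_smul, Algebra.smul_def, eq_ratCast]
      exact mul_mem (SubfieldClass.ratCast_mem E _) (IntermediateField.subset_adjoin _ _ ⟨i, rfl⟩)
    have hp : ∀ r : L[X], j r ∈ E := by
      intro r
      induction r using Polynomial.induction_on' with
      | add a b ha hb => rw [map_add]; exact add_mem ha hb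
      | monomial n c =>
        rw [← C_mul_X_pow_eq_monomial, map_mul, map_pow]
        exact mul_mem (hc c) (pow_mem hX n)
    have hE : E = ⊤ := by
      rw [eq_top_iff]
      intro z _
      obtain ⟨a, b, -, rfl⟩ := IsFractionRing.div_surjective L[X] z
      exact div_mem (hp a) (hp b)
    rw [hE] at this
    exact IntermediateField.topEquiv.toLinearEquiv.finiteDimensional

end Poly

section Main

variable {L : Type} [Field L] [NumberField L]

/-- evaluation at `a` along the embedding `τ` -/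
noncomputable abbrev ev (z : (L →ₐ[ℚ] Qb) × Qb) : L[X] →+* Qb := eval₂RingHom (z.1 : L →+* Qb) z.2

lemma ev_apply (z : (L →ₐ[ℚ] Qb) × Qb) (r : L[X]) :
    ev z r = (r.map (z.1 : L →+* Qb)).eval z.2 := by
  rw [eval_map]
  rfl

lemma ev_inj {z z' : (L →ₐ[ℚ] Qb) × Qb} (h : ∀ r, ev z r = ev z' r) : z = z' := by
  refine Prod.ext (AlgHom.ext fun c => ?_) ?_
  · simpa using h (C c)
  · simpa using h X

lemma exists_ev (σ : L[X] →+* Qb) : ∃ z, σ = ev z := by
  refine ⟨((σ.comp C).toRatAlgHom, σ X), ?_⟩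
  ext c
  · simp
  · simp

theorem rel (hS0 : S_S0) (W : WeierstrassCurve ℚ) (l : EP W Qb × Qbˣ → ℝ) (hl : Kills W l)
    (P : EP W L) {G D : L[X]} (hG : G.Monic) (hD : D.Monic) (h : G.natDegree = D.natDegree)
    (h0 : G.coeff 0 = D.coeff 0) (h1 : D.coeff 0 ≠ 0) :
    ∑ τ : L →ₐ[ℚ] Qb, (((G.map (τ : L →+* Qb)).roots.map (ext0 l (mp τ P))).sum -
      ((D.map (τ : L →+* Qb)).roots.map (ext0 l (mp τ P))).sum) = 0 := by
  let K := FractionRing L[X]
  set j := algebraMap L[X] K with hj
  have hinj : Function.Injective j := IsFractionRing.injective _ _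
  haveI : CharZero K := charZero_of_injective_ringHom (f := j) hinj
  letI : Algebra ℚ K := DivisionRing.toRatAlgebra
  let ι : L →ₐ[ℚ] K := (j.comp C).toRatAlgHom
  obtain ⟨hA, hB, hC⟩ := hS0 L[X] K
  have hjne : ∀ r : L[X], r ≠ 0 → j r ≠ 0 := fun r hr h => hr (hinj (by rw [h, map_zero]))
  have hGD : G * D ≠ 0 := mul_ne_zero hG.ne_zero hD.ne_zero
  let T : (L →ₐ[ℚ] Qb) → Finset Qb := fun τ => ((G * D).map (τ : L →+* Qb)).roots.toFinset
  have hT : ∀ τ a, a ∈ T τ ↔ ev (τ, a) (G * D) = 0 := by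
    intro τ a
    rw [ev_apply, Multiset.mem_toFinset, mem_roots (Polynomial.map_ne_zero hGD), IsRoot.def]
  let Z : Finset ((L →ₐ[ℚ] Qb) × Qb) := univ.biUnion fun τ => (T τ).image fun a => (τ, a)
  have hZ : ∀ z, z ∈ Z ↔ ev z (G * D) = 0 := by
    rintro ⟨τ, a⟩
    rw [← hT]
    simp [Z]
  have hker : ∀ z ∈ Z, RingHom.ker (ev z) ≠ ⊥ := by
    intro z hz h
    have : G * D ∈ RingHom.ker (ev z) := (hZ z).mp hz
    rw [h] at this
    exact hGD this
  have hz0 : ∀ z : (L →ₐ[ℚ] Qb) × Qb, z.2 = 0 → ev z D ≠ 0 ∧ ev z G = ev z D := by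
    rintro ⟨τ, a⟩ (rfl : a = 0)
    rw [ev_apply, ev_apply, ← coeff_zero_eq_eval_zero, ← coeff_zero_eq_eval_zero, coeff_map,
      coeff_map, h0]
    exact ⟨(_root_.map_ne_zero _).mpr h1, rfl⟩
  have hne : ∀ z ∈ Z, z.2 ≠ 0 := by
    intro z hz h
    obtain ⟨h2, h3⟩ := hz0 z h
    have := (hZ z).mp hz
    rw [map_mul, h3] at this
    exact mul_ne_zero h2 h2 this
  have hpt : ∀ z : Z, ∃ p : GPt K, ∀ r, p.Val (j r) (ev z.1 r) :=
    fun z => (hA _ (hker z.1 z.2)).exists
  choose pt hpt using hpt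
  have hptinj : Function.Injective pt := by
    intro z z' hzz
    refine Subtype.ext (ev_inj fun r => val_unique (pt z) (hpt z r) ?_)
    rw [hzz]
    exact hpt z' r
  let φ : GPt K → EP W Qb × Qbˣ := Function.extend pt
    (fun z => (mp z.1.1 P, Units.mk0 z.1.2 (hne z.1 z.2))) (fun _ => (0, 1))
  have hφ : ∀ z : Z, φ (pt z) = (mp z.1.1 P, Units.mk0 z.1.2 (hne z.1 z.2)) :=
    fun z => hptinj.extend_apply _ _ z
  let u : Kˣ := Units.mk0 (j X) (hjne X X_ne_zero)
  let f : Kˣ := Units.mk0 (j G / j D) (div_ne_zero (hjne G hG.ne_zero) (hjne D hD.ne_zero))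
  let ξ : (W.baseChange K).toAffine.Point := WeierstrassCurve.Affine.Point.map (W' := W.toAffine) ι P
  have hfin : ∀ p : GPt K, j X ∈ p.v.valuationSubring →
      ∃ z, RingHom.ker (ev z) ≠ ⊥ ∧ ∀ r, p.Val (j r) (ev z r) := by
    intro p hp
    obtain ⟨σ, h2, h3⟩ := hB p (poly_mem p j hp)
    obtain ⟨z, rfl⟩ := exists_ev σ
    exact ⟨z, h2, h3⟩
  have hmem : (∑ p ∈ univ.image pt, Finsupp.single (φ p) (p.ord f)) ∈ susTrivial W := by
    refine AddSubgroup.subset_closure ⟨K, inferInstance, inferInstance, isCurve (L := L), ξ, u, f,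
      univ.image pt, φ, ?_, ?_, ?_, rfl⟩
    · intro p hp
      by_cases hX : j X ∈ p.v.valuationSubring
      · obtain ⟨z, -, h3⟩ := hfin p hX
        have h4 : z.2 = 0 := by
          by_contra h4
          refine hp (ord_eq_zero p (v_eq_one p (h3 X) ?_))
          simpa using h4
        obtain ⟨h5, h6⟩ := hz0 z h4
        have := val_div p (h3 G) (h3 D) h5
        rwa [h6, div_self h5] at this
      · exact val_inf p j hX hG hD h
    · intro p hp
      by_cases hX : j X ∈ p.v.valuationSubring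
      · obtain ⟨z, h2, h3⟩ := hfin p hX
        have h4 : z ∉ Z := by
          intro hz
          refine hp (mem_image.mpr ⟨⟨z, hz⟩, mem_univ _, ?_⟩)
          exact (hA _ h2).unique (hpt ⟨z, hz⟩) h3
        rw [hZ, map_mul, mul_eq_zero, not_or] at h4
        exact ord_eq_zero p (v_eq_one p (val_div p (h3 G) (h3 D) h4.2) (div_ne_zero h4.1 h4.2))
      · exact ord_eq_zero p (v_eq_one p (val_inf p j hX hG hD h) one_ne_zero)
    · intro p hp
      obtain ⟨z, -, rfl⟩ := mem_image.mp hp
      rw [hφ]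
      have hX : (pt z).Val (j X) z.1.2 := by simpa using hpt z X
      refine ⟨?_, hX⟩
      have hc : ∀ c : L, (pt z).Val (j (C c)) (z.1.1 c) := fun c => by simpa using hpt z (C c)
      change (pt z).ValE W (WeierstrassCurve.Affine.Point.map (W' := W.toAffine) ι P)
        (WeierstrassCurve.Affine.Point.map (W' := W.toAffine) z.1.1 P)
      clear hφ
      rcases P with _ | ⟨x, y, hxy⟩
      · exact ⟨fun _ => rfl, fun x y h hh => absurd hh.symm
          (WeierstrassCurve.Affine.Point.some_ne_zero h)⟩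
      · rw [WeierstrassCurve.Affine.Point.map_some, WeierstrassCurve.Affine.Point.map_some]
        refine ⟨fun hh => absurd hh (WeierstrassCurve.Affine.Point.some_ne_zero _),
          fun x' y' h' hh => Or.inl ?_⟩
        obtain ⟨rfl, rfl⟩ := WeierstrassCurve.Affine.Point.some.inj hh
        exact ⟨_, _, _, hc x, hc y, rfl⟩
  have hk := hl _ hmem
  rw [← Finsupp.sum_finsetSum_index (by simp) (by intros; push_cast; ring),
    sum_image fun a _ b _ hab => hptinj hab] at hk
  let g : (L →ₐ[ℚ] Qb) × Qb → ℝ := fun z =>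
    (((G.map (z.1 : L →+* Qb)).roots.count z.2 : ℝ) - (D.map (z.1 : L →+* Qb)).roots.count z.2) *
      ext0 l (mp z.1 P) z.2
  have hg : ∀ z : Z, ((Finsupp.single (φ (pt z)) ((pt z).ord f)).sum fun z n => (n : ℝ) * l z) =
      g z.1 := by
    intro z
    rw [Finsupp.sum_single_index (by simp), hφ]
    have h2 : (pt z).ord f = (pt z).ord (j G) - (pt z).ord (j D) :=
      ord_div _ (hjne G hG.ne_zero) (hjne D hD.ne_zero)
    rw [h2, hC _ _ (hpt z) G hG.ne_zero, hC _ _ (hpt z) D hD.ne_zero,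
      mult_eq _ _ (hker z.1 z.2) hG.ne_zero, mult_eq _ _ (hker z.1 z.2) hD.ne_zero]
    simp only [g, ext0, dif_neg (hne z.1 z.2)]
    push_cast
    ring
  rw [sum_congr rfl fun z _ => hg z, sum_coe_sort Z g, sum_biUnion] at hk
  · rw [← hk]
    refine sum_congr rfl fun τ _ => ?_
    rw [sum_image fun a _ b _ hab => (Prod.mk.inj hab).2]
    have hm : (G * D).map (τ : L →+* Qb) ≠ 0 := Polynomial.map_ne_zero hGD
    have hr : ((G * D).map (τ : L →+* Qb)).roots =
        (G.map (τ : L →+* Qb)).roots + (D.map (τ : L →+* Qb)).roots := by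
      rw [Polynomial.map_mul] at hm ⊢
      exact roots_mul hm
    rw [← sum_count _ (T τ), ← sum_count _ (T τ), ← sum_sub_distrib]
    · refine sum_congr rfl fun a _ => ?_
      simp only [g]
      ring
    · intro a ha
      rw [Multiset.mem_toFinset, hr]
      exact Multiset.mem_add.mpr (Or.inr ha)
    · intro a ha
      rw [Multiset.mem_toFinset, hr]
      exact Multiset.mem_add.mpr (Or.inl ha)
  · intro τ _ τ' _ hττ
    refine disjoint_left.mpr fun z hz hz' => hττ ?_
    obtain ⟨a, -, rfl⟩ := mem_image.mp hz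
    obtain ⟨a', -, h2⟩ := mem_image.mp hz'
    exact (Prod.mk.inj h2).1.symm

end Main

end S1

theorem p_s1 (hS0 : S_S0) : S_S1 := by
  intro W l hl L _ _ P G N hG hd hN h0
  obtain ⟨m, hm⟩ : ∃ m, G.natDegree = m + 1 := ⟨G.natDegree - 1, by omega⟩
  have hD : ((X - C N) * (X - C 1) ^ m : L[X]).Monic :=
    (monic_X_sub_C N).mul ((monic_X_sub_C 1).pow m)
  have hc : ((X - C N) * (X - C 1) ^ m : L[X]).coeff 0 = (-1) ^ (m + 1) * N := by
    rw [coeff_zero_eq_eval_zero]
    simp
    ring
  have key := S1.rel hS0 W l hl P hG hD (by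
      rw [(monic_X_sub_C N).natDegree_mul ((monic_X_sub_C 1).pow m), natDegree_X_sub_C,
        (monic_X_sub_C 1).natDegree_pow, natDegree_X_sub_C, hm]
      ring) (by rw [h0, hc, hm])
    (by rw [hc]; exact mul_ne_zero (pow_ne_zero _ (neg_ne_zero.mpr one_ne_zero)) hN)
  rw [← key]
  refine sum_congr rfl fun τ _ => ?_
  have hm0 := Polynomial.map_ne_zero (f := (τ : L →+* Qb)) hD.ne_zero
  rw [Polynomial.map_mul, Polynomial.map_pow, Polynomial.map_sub, Polynomial.map_sub, map_X, map_C,
    map_C] at hm0 ⊢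
  rw [roots_mul hm0, roots_pow, roots_X_sub_C, roots_X_sub_C, Multiset.map_add, Multiset.sum_add,
    Multiset.map_nsmul, Multiset.sum_nsmul, hm]
  have h1 : ext0 l (mp τ P) 1 = l (mp τ P, 1) := by
    simp [ext0]
  simp [h1]
  ring

end Pool.Agent.P.MP_b8021b_nt.VE
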