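import Pool.Agent.P.MP_b8021b_nt.VE.BasicS
import Pool.Agent.P.MP_b8021b_nt.VE.BasicA

/-! Reciprocity for the family of homomorphisms attached to a functional. -/

namespace Pool.Agent.P.MP_b8021b_nt.VE

open Polynomial Finset
open scoped Classical

namespace S2a

section alg

variable {A : Type} [CommRing A] [IsDedekindDomain A] [Algebra ℚ A]
  {φ : MaximalSpectrum A → A → ℝ}

/-- reciprocity from the relations given by graphs -/
theorem recip (δ : A → ℕ) (dmul : ∀ f g, f ≠ 0 → g ≠ 0 → δ (f * g) = δ f + δ g)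
    (d1 : ∀ h, h ≠ 0 → δ h ≠ 1 ∧ (δ h = 0 → ∃ c : ℚ, h = algebraMap ℚ A c))
    (dlead : ∀ h h', h ≠ 0 → h' ≠ 0 → δ h = δ h' →
      ∃ c : ℚ, c ≠ 0 ∧ (h = c • h' ∨ δ (h - c • h') < δ h))
    (dV : ∀ n : ℕ, 1 ≤ n → ∃ V : Submodule ℚ A, ∀ h, h ∈ V ↔ h = 0 ∨ δ h ≤ n)
    (zero : ∀ P h, h ∈ P.asIdeal → φ P h = 0)
    (congr : ∀ P h h', h - h' ∈ P.asIdeal → φ P h = φ P h')
    (mul : ∀ P h h', h ∉ P.asIdeal → h' ∉ P.asIdeal → φ P (h * h') = φ P h + φ P h')
    (G1 : ∀ (a : A) (c : ℚ), a ≠ 0 → c ≠ 0 → pair φ a (algebraMap ℚ A c) = 0)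
    (G2 : ∀ a b u : A, a ≠ 0 → b ≠ 0 → u ≠ 0 →
      (∀ P : MaximalSpectrum A, u ∈ P.asIdeal → a - b ∈ P.asIdeal ∧ b ∉ P.asIdeal) →
      δ a = δ b → (a - b = 0 ∨ δ (a - b) < δ a) → pair φ a u = pair φ b u)
    (f h : A) (hf : f ≠ 0) (hh : h ≠ 0) (hc : IsCoprime f h) : pair φ f h = pair φ h f := by
  have done : δ 1 = 0 := by
    have := dmul 1 1 one_ne_zero one_ne_zero
    rw [mul_one] at this
    omega
  have dpow : ∀ (g : A) (n : ℕ), g ≠ 0 → δ (g ^ n) = n * δ g := by
    intro g n hg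
    induction n with
    | zero => simpa using done
    | succ n ih => rw [pow_succ, dmul _ _ (pow_ne_zero _ hg) hg, ih]; ring
  have n1 : ∀ P : MaximalSpectrum A, (1 : A) ∉ P.asIdeal := fun P =>
    not_mem_of_isUnit P isUnit_one
  have hneg : ∀ (P : MaximalSpectrum A) (g : A), φ P (-g) = φ P g := by
    intro P g
    by_cases hg : g ∈ P.asIdeal
    · rw [zero P g hg, zero P _ (neg_mem hg)]
    · have h1 : (-1 : A) ∉ P.asIdeal := fun h' => n1 P (neg_mem_iff.1 h')
      have h2 := mul P 1 1 (n1 P) (n1 P)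
      have h3 := mul P (-1) (-1) h1 h1
      have h4 := mul P (-1) g h1 hg
      rw [mul_one] at h2
      rw [neg_mul_neg, mul_one] at h3
      rw [neg_one_mul] at h4
      linarith
  have hone : ∀ (u : A) (κ : ℚ), u ≠ 0 → δ u ≠ 0 → κ ≠ 0 →
      1 + κ • u ≠ 0 ∧ δ (1 + κ • u) = δ u ∧ pair φ (1 + κ • u) u = 0 := by
    intro u κ hu hd hκ
    have h2 := (d1 u hu).1
    obtain ⟨V, hV⟩ := dV (δ u) (by omega)
    obtain ⟨V', hV'⟩ := dV (δ u - 1) (by omega)
    have h3 : 1 + κ • u ∈ V := add_mem ((hV 1).2 (Or.inr (by omega)))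
      (V.smul_mem κ ((hV u).2 (Or.inr le_rfl)))
    have h4 : 1 + κ • u ∉ V' := fun h' => by
      have h5 : κ⁻¹ • (1 + κ • u - 1) ∈ V' :=
        V'.smul_mem _ (sub_mem h' ((hV' 1).2 (Or.inr (by omega))))
      rw [add_sub_cancel_left, smul_smul, inv_mul_cancel₀ hκ, one_smul, hV'] at h5
      rcases h5 with h5 | h5
      · exact hu h5
      · omega
    rw [hV', not_or] at h4
    refine ⟨h4.1, ?_, ?_⟩
    · have := ((hV _).1 h3).resolve_left h4.1
      omega
    · rw [← G1 (1 + κ • u) (-κ⁻¹) h4.1 (neg_ne_zero.2 (inv_ne_zero hκ))]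
      refine pair_congr φ φ _ _ _ fun P hP => congr P _ _ ?_
      have : u - algebraMap ℚ A (-κ⁻¹) = algebraMap ℚ A κ⁻¹ * (1 + κ • u) := by
        rw [← Algebra.smul_def, smul_add, smul_smul, inv_mul_cancel₀ hκ, one_smul, map_neg,
          Algebra.algebraMap_eq_smul_one]
        ring
      rw [this]
      exact Ideal.mul_mem_left _ _ hP
  have three : ∀ u f1 f2 : A, u ≠ 0 → δ u ≠ 0 → f1 ≠ 0 → f2 ≠ 0 →
      (∀ P : MaximalSpectrum A, u ∈ P.asIdeal → f1 - f2 ∈ P.asIdeal ∧ f2 ∉ P.asIdeal) →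
      pair φ f1 u = pair φ f2 u := by
    intro u f1 f2 hu hd h1 h2 hP
    obtain ⟨a1, a2, a3⟩ := hone u 1 hu hd one_ne_zero
    rw [one_smul] at a1 a2 a3
    have hF1 : f1 ^ δ u * (1 + u) ^ δ f2 ≠ 0 := mul_ne_zero (pow_ne_zero _ h1) (pow_ne_zero _ a1)
    have hF2 : f2 ^ δ u * (1 + u) ^ δ f1 ≠ 0 := mul_ne_zero (pow_ne_zero _ h2) (pow_ne_zero _ a1)
    have e1 : δ (f1 ^ δ u * (1 + u) ^ δ f2) = δ (f2 ^ δ u * (1 + u) ^ δ f1) := by
      rw [dmul _ _ (pow_ne_zero _ h1) (pow_ne_zero _ a1),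
        dmul _ _ (pow_ne_zero _ h2) (pow_ne_zero _ a1), dpow _ _ h1, dpow _ _ h2, dpow _ _ a1,
        dpow _ _ a1, a2]
      ring
    have p1 : pair φ (f1 ^ δ u * (1 + u) ^ δ f2) u = δ u * pair φ f1 u := by
      rw [pair_mul_left φ (pow_ne_zero _ h1) (pow_ne_zero _ a1), pair_pow_left φ h1,
        pair_pow_left φ a1, a3, mul_zero, add_zero]
    have p2 : pair φ (f2 ^ δ u * (1 + u) ^ δ f1) u = δ u * pair φ f2 u := by
      rw [pair_mul_left φ (pow_ne_zero _ h2) (pow_ne_zero _ a1), pair_pow_left φ h2,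
        pair_pow_left φ a1, a3, mul_zero, add_zero]
    have hm : ∀ P : MaximalSpectrum A, u ∈ P.asIdeal →
        f1 ^ δ u * (1 + u) ^ δ f2 - f2 ^ δ u * (1 + u) ^ δ f1 ∈ P.asIdeal ∧
          f2 ^ δ u * (1 + u) ^ δ f1 ∉ P.asIdeal := by
      intro P hu'
      obtain ⟨h3, h4⟩ := hP P hu'
      rw [← Ideal.Quotient.eq] at h3 ⊢
      rw [← Ideal.Quotient.eq_zero_iff_mem] at hu' ⊢
      simp only [map_mul, map_pow, map_add, map_one, hu', h3, add_zero, one_pow, mul_one, true_and]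
      rw [← map_pow, Ideal.Quotient.eq_zero_iff_mem]
      exact fun h' => h4 (P.isMaximal.isPrime.mem_of_pow_mem _ h')
    generalize f1 ^ δ u * (1 + u) ^ δ f2 = F1 at *
    generalize f2 ^ δ u * (1 + u) ^ δ f1 = F2 at *
    obtain ⟨κ, hκ, hl⟩ := dlead F1 F2 hF1 hF2 e1
    obtain ⟨b1, b2, b3⟩ := hone u κ hu hd hκ
    have h5 := (d1 u hu).1
    have key := G2 (F1 * (1 + u)) (F2 * (1 + κ • u)) u (mul_ne_zero hF1 a1) (mul_ne_zero hF2 b1) hu
      (fun P hu' => by
        obtain ⟨h3, h4⟩ := hm P hu'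
        have h6 : κ • u ∈ P.asIdeal := by
          rw [Algebra.smul_def]
          exact Ideal.mul_mem_left _ _ hu'
        refine ⟨?_, fun h' => ?_⟩
        · have : F1 * (1 + u) - F2 * (1 + κ • u) = (F1 - F2) + (F1 * u - F2 * κ • u) := by ring
          rw [this]
          exact add_mem h3 (sub_mem (Ideal.mul_mem_left _ _ hu') (Ideal.mul_mem_left _ _ h6))
        · rcases P.isMaximal.isPrime.mem_or_mem h' with h7 | h7
          · exact h4 h7
          · exact n1 P (by simpa using sub_mem h7 h6))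
      (by rw [dmul _ _ hF1 a1, dmul _ _ hF2 b1, a2, b2, e1]) (by
        obtain ⟨V, hV⟩ := dV (δ F1 + δ u - 1) (by omega)
        have e2 : F1 * (1 + u) - F2 * (1 + κ • u) = (F1 - κ • F2) * u + (F1 - F2) := by
          simp only [Algebra.smul_def]
          ring
        have h6 : (F1 - κ • F2) * u ∈ V := by
          by_cases h7 : F1 - κ • F2 = 0
          · rw [h7, zero_mul]
            exact zero_mem _
          · have h8 := hl.resolve_left fun h' => h7 (sub_eq_zero.2 h')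
            refine (hV _).2 (Or.inr ?_)
            rw [dmul _ _ h7 hu]
            omega
        have h9 : F1 * (1 + u) - F2 * (1 + κ • u) ∈ V := by
          rw [e2]
          exact add_mem h6 (sub_mem ((hV _).2 (Or.inr (by omega))) ((hV _).2 (Or.inr (by omega))))
        refine ((hV _).1 h9).imp id fun h' => ?_
        rw [dmul _ _ hF1 a1, a2]
        omega)
    rw [pair_mul_left φ hF1 a1, pair_mul_left φ hF2 b1, a3, b3, add_zero, add_zero, p1, p2] at key
    exact mul_left_cancel₀ (Nat.cast_ne_zero.2 hd) key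
  have cst : ∀ g u : A, g ≠ 0 → u ≠ 0 → δ u = 0 → pair φ g u = pair φ u g := by
    intro g u hg hu hd
    obtain ⟨c, rfl⟩ := (d1 u hu).2 hd
    have hc0 : c ≠ 0 := by
      rintro rfl
      exact hu (map_zero _)
    rw [G1 g c hg hc0, pair_unit_left φ ((IsUnit.mk0 c hc0).map _)]
  by_cases dh : δ h = 0
  · exact cst f h hf hh dh
  by_cases df : δ f = 0
  · exact (cst h f hh hf df).symm
  have he : f + h ≠ 0 := by
    intro h0
    have e : f = -h := eq_neg_of_add_eq_zero_left h0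
    rw [e, IsCoprime.neg_left_iff, isCoprime_self] at hc
    obtain ⟨w, hw⟩ := hc.exists_right_inv
    have := dmul h w hh (right_ne_zero_of_mul_eq_one hw)
    rw [hw] at this
    omega
  have e1 := three h (f + h) f hh dh he hf fun P hP =>
    ⟨by simpa using hP, not_mem_of_isCoprime P hc.symm hP⟩
  have e2 := three f (f + h) h hf df he hh fun P hP =>
    ⟨by simpa using hP, not_mem_of_isCoprime P hc hP⟩
  rw [← e1, ← e2]
  refine pair_congr φ φ _ _ _ fun P hP => ?_
  rw [← hneg P f]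
  exact congr P _ _ (by simpa [add_comm] using hP)

end alg

variable {W : WeierstrassCurve ℚ} {l : EP W Qb × Qbˣ → ℝ}

theorem eqn (W : WeierstrassCurve ℚ) :
    cY W ^ 2 + algebraMap ℚ _ W.a₁ * cX W * cY W + algebraMap ℚ _ W.a₃ * cY W =
      cX W ^ 3 + algebraMap ℚ _ W.a₂ * cX W ^ 2 + algebraMap ℚ _ W.a₄ * cX W +
        algebraMap ℚ _ W.a₆ := by
  have h : WeierstrassCurve.Affine.CoordinateRing.mk W.toAffine W.toAffine.polynomial = 0 :=
    AdjoinRoot.mk_self
  have e : ∀ c : ℚ, algebraMap ℚ W.toAffine.CoordinateRing c =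
      WeierstrassCurve.Affine.CoordinateRing.mk W.toAffine (C (C c)) := fun _ => rfl
  simp only [WeierstrassCurve.Affine.polynomial, map_add, map_sub, map_mul, map_pow] at h
  simp only [e, cX, cY]
  linear_combination h

theorem nonsing [W.IsElliptic] {F : Type} [Field F] [Algebra ℚ F]
    (σ : W.toAffine.CoordinateRing →ₐ[ℚ] F) :
    (W.baseChange F).toAffine.Nonsingular (σ (cX W)) (σ (cY W)) := by
  have := ell W F
  rw [← WeierstrassCurve.Affine.equation_iff_nonsingular, WeierstrassCurve.Affine.equation_iff]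
  have h := congrArg σ (eqn W)
  simp only [map_add, map_mul, map_pow, AlgHom.commutes] at h
  exact h

theorem ptOf_eq [W.IsElliptic] (σ : W.toAffine.CoordinateRing →ₐ[ℚ] Qb) :
    ptOf W σ = .some _ _ (nonsing σ) := dif_pos _

theorem bij {A L : Type} [CommRing A] [Algebra ℚ A] [Field L] [Algebra ℚ L] (π : A →ₐ[ℚ] L)
    (hs : Function.Surjective π) :
    Set.BijOn (fun τ : L →ₐ[ℚ] Qb => τ.comp π) Set.univ
      {σ | RingHom.ker σ = RingHom.ker π} := by
  refine ⟨fun τ _ => ?_, fun τ _ τ' _ e => ?_, fun σ hσ => ?_⟩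
  · ext a
    simp [RingHom.mem_ker]
  · ext a
    obtain ⟨a, rfl⟩ := hs a
    exact AlgHom.congr_fun e a
  · have hle : RingHom.ker (π : A →+* L) ≤ RingHom.ker (σ : A →+* Qb) := le_of_eq hσ.symm
    exact ⟨((π : A →+* L).liftOfSurjective hs ⟨(σ : A →+* Qb), hle⟩).toRatAlgHom, trivial,
      AlgHom.ext fun a => (π : A →+* L).liftOfSurjective_comp_apply hs ⟨(σ : A →+* Qb), hle⟩ a⟩

theorem exists_res {A : Type} [CommRing A] [Algebra ℚ A] (P : MaximalSpectrum A)
    (h : FiniteDimensional ℚ (A ⧸ P.asIdeal)) :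
    ∃ (L : Type) (_ : Field L) (_ : NumberField L) (π : A →ₐ[ℚ] L),
      Function.Surjective π ∧ RingHom.ker π = P.asIdeal := by
  have := P.isMaximal
  let _ := Ideal.Quotient.field P.asIdeal
  have h2 : CharZero (A ⧸ P.asIdeal) := algebraRat.charZero _
  have h3 : NumberField (A ⧸ P.asIdeal) :=
    { to_finiteDimensional := by
        rwa [Subsingleton.elim DivisionRing.toRatAlgebra (Ideal.Quotient.algebra ℚ)] }
  exact ⟨A ⧸ P.asIdeal, inferInstance, h3,
    @RingHom.toRatAlgHom _ _ _ _ _ DivisionRing.toRatAlgebra (Ideal.Quotient.mk P.asIdeal),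
    Ideal.Quotient.mk_surjective, Ideal.mk_ker⟩

theorem phiW_eq [W.IsElliptic] {L : Type} [Field L] [NumberField L]
    (π : W.toAffine.CoordinateRing →ₐ[ℚ] L) (hs : Function.Surjective π)
    {P : MaximalSpectrum W.toAffine.CoordinateRing} (hk : RingHom.ker π = P.asIdeal)
    (h : W.toAffine.CoordinateRing) :
    phiW l P h = ∑ τ : L →ₐ[ℚ] Qb, ext0 l (mp τ (.some _ _ (nonsing π))) (τ (π h)) := by
  rw [phiW, ← hk, ← finsum_mem_eq_of_bijOn _ (bij π hs)
    (f := fun τ => ext0 l (mp τ (.some _ _ (nonsing π))) (τ (π h))) fun τ _ => by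
      rw [ptOf_eq]
      rfl, finsum_mem_univ, finsum_eq_sum_of_fintype]

/-- the relation given by the graph of `u` -/
theorem graph [W.IsElliptic] (hS0 : S_S0) (hl : Kills W l) (hl0 : ∀ u, l (0, u) = 0)
    [IsDedekindDomain W.toAffine.CoordinateRing]
    (hP0 : ∀ P : MaximalSpectrum W.toAffine.CoordinateRing, P.asIdeal ≠ ⊥)
    (hfin : ∀ P : MaximalSpectrum W.toAffine.CoordinateRing,
      {σ : W.toAffine.CoordinateRing →ₐ[ℚ] Qb | RingHom.ker σ = P.asIdeal}.Finite)
    {K : Type} [Field K] [Algebra W.toAffine.CoordinateRing K]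
    [IsFractionRing W.toAffine.CoordinateRing K] [Algebra ℚ K] (hK : IsCurve K)
    (hI : {p : GPt K | algebraMap _ K (cX W) ∉ p.v.valuationSubring}.Finite)
    (hI' : ∀ p : GPt K, algebraMap _ K (cX W) ∈ p.v.valuationSubring →
      ∀ a : W.toAffine.CoordinateRing, algebraMap _ K a ∈ p.v.valuationSubring)
    {a b u : W.toAffine.CoordinateRing} (ha : a ≠ 0) (hb : b ≠ 0) (hu : u ≠ 0)
    (h1 : ∀ p : GPt K, p.ord (algebraMap _ K u) ≠ 0 →
      p.Val (algebraMap _ K a / algebraMap _ K b) 1) :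
    pair (phiW l) a u = pair (phiW l) b u := by
  have hu' : algebraMap _ K u ≠ 0 := (map_ne_zero_iff _ (IsFractionRing.injective _ K)).2 hu
  have hab := mul_ne_zero ha hb
  let ι : W.toAffine.CoordinateRing →ₐ[ℚ] K := (algebraMap _ K).toRatAlgHom
  set T := (zs (a * b)).biUnion fun P => (hfin P).toFinset with hT
  have key := hl.rel_aff hS0 hK (.some _ _ (nonsing ι)) hu' ha hb h1
    (T.image fun σ : W.toAffine.CoordinateRing →ₐ[ℚ] Qb =>
      (σ : W.toAffine.CoordinateRing →+* Qb)) (fun σ hσ => by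
      have h2 : a * b ∈ RingHom.ker σ := by
        rw [RingHom.mem_ker, map_mul, mul_eq_zero]
        exact hσ
      have h3 : RingHom.ker σ ≠ ⊥ := fun e => hab (by simpa [e] using h2)
      exact mem_image.2 ⟨σ.toRatAlgHom, mem_biUnion.2
        ⟨⟨RingHom.ker σ, (RingHom.ker_isPrime σ).isMaximal h3⟩, (mem_zs hab).2 h2,
          (hfin _).mem_toFinset.2 rfl⟩, rfl⟩)
    (fun σ hσ => by
      obtain ⟨σ, h2, rfl⟩ := mem_image.1 hσ
      obtain ⟨P, -, h3⟩ := mem_biUnion.1 h2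
      have e : RingHom.ker σ = P.asIdeal := (hfin P).mem_toFinset.1 h3
      exact fun h4 => hP0 P (e.symm.trans h4))
    hI.toFinset (fun p => by
      rw [hI.mem_toFinset]
      exact ⟨fun h => ⟨_, h⟩, fun ⟨r, hr⟩ h => hr (hI' p h r)⟩)
    (fun σ => ptOf W σ.toRatAlgHom) (fun σ => σ u) (fun σ _ p hp => by
      rw [ptOf_eq]
      exact ⟨GPt.valE_some _ _ (hp _) (hp _), hp u⟩)
    (fun _ => 0) (fun p => Classical.epsilon fun c => p.Val (algebraMap _ K u) c)
    (fun p hp ho => by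
      refine ⟨GPt.valE_inf _ (hI.mem_toFinset.1 hp), Classical.epsilon_spec (p.exists_val ?_)⟩
      refine (p.ord_nonneg_iff hu').1 (Eq.ge ?_)
      by_contra h2
      exact ho ((h1 p h2).ord_eq_zero one_ne_zero))
  have e0 : ∀ c, ext0 l 0 c = 0 := by
    intro c
    by_cases hc : c = 0
    · rw [hc, ext0_zero]
    · rw [ext0_ne _ hc, hl0]
  simp only [e0, mul_zero, sum_const_zero, add_zero] at key
  rw [sum_image fun _ _ _ _ e => AlgHom.coe_ringHom_injective e, hT, sum_biUnion (by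
    intro P _ Q _ hPQ
    refine disjoint_left.2 fun σ h2 h3 => hPQ (MaximalSpectrum.ext ?_)
    exact ((hfin P).mem_toFinset.1 h2).symm.trans ((hfin Q).mem_toFinset.1 h3))] at key
  rw [← sub_eq_zero, ← key,
    pair_eq_sum _ a u (zs (a * b)) fun P hP => (mem_zs hab).2 (Ideal.mul_mem_right _ _ hP),
    pair_eq_sum _ b u (zs (a * b)) fun P hP => (mem_zs hab).2 (Ideal.mul_mem_left _ _ hP),
    ← sum_sub_distrib]
  refine sum_congr rfl fun P _ => ?_
  rw [← sub_mul, phiW, finsum_mem_eq_finite_toFinset_sum _ (hfin P), mul_sum]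
  refine sum_congr rfl fun σ hσ => ?_
  have e : RingHom.ker (σ : W.toAffine.CoordinateRing →+* Qb) = P.asIdeal :=
    (hfin P).mem_toFinset.1 hσ
  rw [e]
  rfl

end S2a

open S2a

theorem p_s2a (hS0 : S_S0) (hSinf : S_Sinf) (hA1 : S_A1) (hA2 : S_A2) (hS1 : S_S1) : S_S2a := by
  intro W _ l hl hl0 hl1
  obtain ⟨M, hMx, -⟩ := hA2 ℚ W
  obtain ⟨hD, hfd, hdg, hP0, -, hd1, hlead, hV⟩ := hA1 ℚ _ M
  have hfin : ∀ P : MaximalSpectrum W.toAffine.CoordinateRing,
      {σ : W.toAffine.CoordinateRing →ₐ[ℚ] Qb | RingHom.ker σ = P.asIdeal}.Finite := by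
    intro P
    obtain ⟨L, _, _, π, hs, hk⟩ := exists_res P (hfd _ (hP0 P))
    rw [← hk, ← (bij π hs).finite_iff_finite]
    exact Set.finite_univ
  have hsum : ∀ P h, phiW l P h = ∑ σ ∈ (hfin P).toFinset, ext0 l (ptOf W σ) (σ h) :=
    fun P h => finsum_mem_eq_finite_toFinset_sum _ (hfin P)
  have zero : ∀ P h, h ∈ P.asIdeal → phiW l P h = 0 := by
    intro P h hh
    rw [hsum]
    refine sum_eq_zero fun σ hσ => ?_
    have e : RingHom.ker σ = P.asIdeal := (hfin P).mem_toFinset.1 hσ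
    rw [← e, RingHom.mem_ker] at hh
    rw [hh, ext0_zero]
  have congr : ∀ P h h', h - h' ∈ P.asIdeal → phiW l P h = phiW l P h' := by
    intro P h h' hh
    rw [hsum, hsum]
    refine sum_congr rfl fun σ hσ => ?_
    have e : RingHom.ker σ = P.asIdeal := (hfin P).mem_toFinset.1 hσ
    rw [← e, RingHom.mem_ker, map_sub, sub_eq_zero] at hh
    rw [hh]
  have mul : ∀ P h h', h ∉ P.asIdeal → h' ∉ P.asIdeal →
      phiW l P (h * h') = phiW l P h + phiW l P h' := by
    intro P h h' hh hh'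
    obtain ⟨L, _, _, π, hs, hk⟩ := exists_res P (hfd _ (hP0 P))
    rw [← hk, RingHom.mem_ker] at hh hh'
    have hdeg : ((X - C (π h)) * (X - C (π h'))).natDegree = 2 := by
      rw [(monic_X_sub_C _).natDegree_mul (monic_X_sub_C _), natDegree_X_sub_C, natDegree_X_sub_C]
    have key := hS1 W l hl L (.some _ _ (nonsing π)) ((X - C (π h)) * (X - C (π h')))
      (π h * π h') ((monic_X_sub_C _).mul (monic_X_sub_C _)) (by omega) (mul_ne_zero hh hh')
      (by simp [hdeg])
    rw [phiW_eq π hs hk, phiW_eq π hs hk, phiW_eq π hs hk, ← sum_add_distrib, eq_comm,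
      ← sub_eq_zero, ← sum_sub_distrib, ← key]
    refine sum_congr rfl fun τ _ => ?_
    rw [hl1, mul_zero, sub_zero, Polynomial.map_mul, Polynomial.map_sub, Polynomial.map_sub,
      map_X, map_C, map_C, roots_mul ((monic_X_sub_C _).mul (monic_X_sub_C _)).ne_zero,
      roots_X_sub_C, roots_X_sub_C, map_mul π]
    simp
  obtain ⟨hK, hI, hI', hord⟩ := hSinf ℚ _ (FractionRing W.toAffine.CoordinateRing) M
  rw [hMx] at hI hI' hord
  have hinj := IsFractionRing.injective W.toAffine.CoordinateRing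
    (FractionRing W.toAffine.CoordinateRing)
  refine ⟨zero, congr, mul, recip (del ℚ) (fun f g hf hg => ?_) hd1 hlead
    (fun n hn => ?_) zero congr mul (fun a c ha hc => ?_) fun a b u ha hb hu hP hd hlt => ?_⟩
  · rw [del, del, del, ← Ideal.span_singleton_mul_span_singleton]
    exact hdg _ _ (by simpa using hf) (by simpa using hg)
  · obtain ⟨V, -, -, h⟩ := hV n hn
    exact ⟨V, h⟩
  · rw [graph hS0 hl hl0 hP0 hfin hK hI hI' ha one_ne_zero
      (((IsUnit.mk0 c hc).map _).ne_zero) fun p hp => absurd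
        (p.ord_alg ((algebraMap _ (FractionRing W.toAffine.CoordinateRing)).comp
          (algebraMap ℚ W.toAffine.CoordinateRing)) c) hp]
    exact pair_unit_left _ isUnit_one _
  · refine graph hS0 hl hl0 hP0 hfin hK hI hI' ha hb hu fun p hp => ?_
    have hb' := (map_ne_zero_iff _ hinj).2 hb
    by_cases hx : algebraMap _ (FractionRing W.toAffine.CoordinateRing) (cX W) ∈
        p.v.valuationSubring
    · obtain ⟨σ, hσ, hv⟩ := (hS0 _ _).2.1 p (hI' p hx)
      have h2 : σ u = 0 := by_contra fun h => hp ((hv u).ord_eq_zero h)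
      obtain ⟨h3, h4⟩ := hP ⟨RingHom.ker σ, (RingHom.ker_isPrime σ).isMaximal hσ⟩ h2
      have h5 : σ b ≠ 0 := h4
      have h6 : σ a = σ b := by
        have h7 : σ (a - b) = 0 := h3
        rwa [map_sub, sub_eq_zero] at h7
      have h8 := (hv a).div (hv b) h5
      rwa [h6, div_self h5] at h8
    · have h2 := p.val_one.add (p.val_div_zero (a := algebraMap _ _ (a - b)) hb' (by
        by_cases h3 : a - b = 0
        · exact Or.inl (by rw [h3, map_zero])
        · refine Or.inr ?_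
          have := hlt.resolve_left h3
          rw [hord p hx _ hb, hord p hx _ h3]
          omega))
      rwa [map_sub, add_zero, sub_div, div_self hb', add_sub_cancel] at h2

end Pool.Agent.P.MP_b8021b_nt.VE
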