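import Pool.Agent.P.MP_b8021b_nt.VE.BasicA
import Pool.Agent.P.MP_b8021b_nt.VE.BasicS

/-! S3: the theorem of Abel for the functionals that kill the relations. -/

namespace Pool.Agent.P.MP_b8021b_nt.VE

open Polynomial Finset WeierstrassCurve.Affine
open scoped Classical

namespace S3

section ideals

variable {L : Type} [Field L] (V : WeierstrassCurve L)

/-- the ideal of a point -/
noncomputable def idl : V.toAffine.Point → Ideal V.toAffine.CoordinateRing
  | .zero => ⊤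
  | .some x y _ => CoordinateRing.XYIdeal V.toAffine x (C y)

theorem idl_zero : idl V 0 = ⊤ := rfl

theorem idl_some {x y : L} (h : V.toAffine.Nonsingular x y) :
    idl V (.some x y h) = CoordinateRing.XYIdeal V.toAffine x (C y) := rfl

theorem idl_ne (P : V.toAffine.Point) : idl V P ≠ ⊥ := by
  rcases P with _ | ⟨x, y, h⟩
  · exact top_ne_bot
  · intro e
    have h1 : CoordinateRing.XClass V.toAffine x ∈ idl V (.some x y h) :=
      Ideal.subset_span (Set.mem_insert _ _)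
    rw [e, Ideal.mem_bot] at h1
    exact CoordinateRing.XClass_ne_zero x h1

theorem exists_ab (P Q : V.toAffine.Point) : ∃ a b : V.toAffine.CoordinateRing, a ≠ 0 ∧ b ≠ 0 ∧
    Ideal.span {a} * (idl V P * idl V Q) = Ideal.span {b} * idl V (P + Q) := by
  rcases P with _ | ⟨x₁, y₁, h₁⟩
  · refine ⟨1, 1, one_ne_zero, one_ne_zero, ?_⟩
    rw [← Point.zero_def, zero_add, idl_zero, Ideal.top_mul]
  rcases Q with _ | ⟨x₂, y₂, h₂⟩
  · refine ⟨1, 1, one_ne_zero, one_ne_zero, ?_⟩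
    rw [← Point.zero_def, add_zero, idl_zero, Ideal.mul_top]
  by_cases hxy : x₁ = x₂ ∧ y₁ = V.toAffine.negY x₂ y₂
  · refine ⟨1, CoordinateRing.XClass V.toAffine x₂, one_ne_zero, CoordinateRing.XClass_ne_zero _, ?_⟩
    rw [Point.add_of_Y_eq hxy.1 hxy.2, idl_zero, idl_some, idl_some, hxy.1, hxy.2,
      CoordinateRing.XYIdeal_neg_mul h₂, Ideal.span_singleton_one, Ideal.top_mul, Ideal.mul_top]
    rfl
  · rw [Point.add_some hxy, idl_some, idl_some, idl_some]
    exact ⟨_, _, CoordinateRing.XClass_ne_zero _, CoordinateRing.YClass_ne_zero _,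
      CoordinateRing.XYIdeal_mul_XYIdeal h₁.1 h₂.1 hxy⟩

theorem algebraMap_eq (c : L) : algebraMap L V.toAffine.CoordinateRing c =
    CoordinateRing.mk V.toAffine (C (C c)) := rfl

theorem exists_ev {x y : L} (h : V.toAffine.Nonsingular x y) :
    ∃ ev : V.toAffine.CoordinateRing →ₐ[L] L, RingHom.ker ev = idl V (.some x y h) ∧
      ev (cX V) = x ∧ ev (cY V) = y := by
  let ev : V.toAffine.CoordinateRing →ₐ[L] L :=
    (CoordinateRing.quotientXYIdealEquiv (W' := V.toAffine) (x := x) (y := C y) h.1).toAlgHom.comp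
      (Ideal.Quotient.mkₐ L _)
  have hk : RingHom.ker ev = idl V (.some x y h) := by
    ext r
    rw [RingHom.mem_ker, idl_some]
    rw [← Ideal.Quotient.eq_zero_iff_mem]
    exact EmbeddingLike.map_eq_zero_iff
      (f := CoordinateRing.quotientXYIdealEquiv (W' := V.toAffine) (x := x) (y := C y) h.1)
  have h1 : CoordinateRing.XClass V.toAffine x ∈ RingHom.ker ev := by
    rw [hk]
    exact Ideal.subset_span (Set.mem_insert _ _)
  have h2 : CoordinateRing.YClass V.toAffine (C y) ∈ RingHom.ker ev := by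
    rw [hk]
    exact Ideal.subset_span (Set.mem_insert_of_mem _ rfl)
  have e1 : CoordinateRing.XClass V.toAffine x = cX V - algebraMap L _ x := by
    rw [algebraMap_eq, cX, ← map_sub, ← map_sub]
    rfl
  have e2 : CoordinateRing.YClass V.toAffine (C y) = cY V - algebraMap L _ y := by
    rw [algebraMap_eq, cY, ← map_sub]
    rfl
  rw [RingHom.mem_ker, e1, map_sub, AlgHom.commutes, sub_eq_zero] at h1
  rw [RingHom.mem_ker, e2, map_sub, AlgHom.commutes, sub_eq_zero] at h2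
  exact ⟨ev, hk, h1, h2⟩

theorem gen_eq : cY V ^ 2 + algebraMap L _ V.a₁ * cX V * cY V + algebraMap L _ V.a₃ * cY V =
    cX V ^ 3 + algebraMap L _ V.a₂ * cX V ^ 2 + algebraMap L _ V.a₄ * cX V +
      algebraMap L _ V.a₆ := by
  have h : CoordinateRing.mk V.toAffine (X ^ 2 + C (C V.a₁ * X + C V.a₃) * X -
      C (X ^ 3 + C V.a₂ * X ^ 2 + C V.a₄ * X + C V.a₆)) = 0 := AdjoinRoot.mk_self
  simp only [map_add, map_sub, map_mul, map_pow] at h
  simp only [algebraMap_eq, cX, cY]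
  linear_combination h

end ideals

section dedekind

variable {R : Type} [CommRing R]

theorem mult_max [IsDedekindDomain R] (P : MaximalSpectrum R) {I : Ideal R} (hI : I ≠ ⊥)
    (h : I = ⊤ ∨ I.IsMaximal) : multiplicity P.asIdeal I = if P.asIdeal = I then 1 else 0 := by
  split_ifs with e
  · have := finiteMultiplicity_span P hI
    rw [← e] at this ⊢
    exact multiplicity_self
  · rw [multiplicity_eq_zero, Ideal.dvd_iff_le]
    intro hle
    rcases h with rfl | h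
    · exact P.isMaximal.ne_top (top_le_iff.1 hle)
    · exact e (h.eq_of_le P.isMaximal.ne_top hle).symm

theorem mult_rel [IsDedekindDomain R] {a b : R} (ha : a ≠ 0) (hb : b ≠ 0) {I J K : Ideal R}
    (hI : I ≠ ⊥) (hJ : J ≠ ⊥) (hK : K ≠ ⊥) (hI' : I = ⊤ ∨ I.IsMaximal) (hJ' : J = ⊤ ∨ J.IsMaximal)
    (hK' : K = ⊤ ∨ K.IsMaximal) (hab : Ideal.span {a} * (I * J) = Ideal.span {b} * K)
    {p : Ideal R} (hp : p.IsMaximal) :
    ((if p = I then 1 else 0) + (if p = J then 1 else 0) - (if p = K then 1 else 0) : ℝ) =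
      (multiplicity p (Ideal.span {b}) : ℝ) - multiplicity p (Ideal.span {a}) := by
  have h1 := congrArg (multiplicity (⟨p, hp⟩ : MaximalSpectrum R).asIdeal) hab
  rw [multiplicity_ideal_mul _ (by simpa using ha) (mul_ne_zero hI hJ),
    multiplicity_ideal_mul _ hI hJ, multiplicity_ideal_mul _ (by simpa using hb) hK,
    mult_max _ hI hI', mult_max _ hJ hJ', mult_max _ hK hK'] at h1
  have h2 := congrArg (Nat.cast (R := ℝ)) h1
  push_cast at h2
  linarith

theorem exists_common [IsDomain R] {I J K : Ideal R} (hI : I ≠ ⊥) (hJ : J ≠ ⊥) (hK : K ≠ ⊥) :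
    ∃ c, c ≠ 0 ∧ c ∈ I ∧ c ∈ J ∧ c ∈ K := by
  obtain ⟨x, hx, hx0⟩ := Submodule.exists_mem_ne_zero_of_ne_bot hI
  obtain ⟨y, hy, hy0⟩ := Submodule.exists_mem_ne_zero_of_ne_bot hJ
  obtain ⟨z, hz, hz0⟩ := Submodule.exists_mem_ne_zero_of_ne_bot hK
  exact ⟨x * y * z, mul_ne_zero (mul_ne_zero hx0 hy0) hz0,
    I.mul_mem_right _ (I.mul_mem_right _ hx), J.mul_mem_right _ (J.mul_mem_left _ hy),
    K.mul_mem_left _ hz⟩

variable {L : Type} [Field L] [NumberField L] [Algebra L R]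

theorem fin_zeros (a : R) (h : FiniteDimensional L (R ⧸ Ideal.span {a})) :
    {σ : R →+* Qb | σ a = 0}.Finite := by
  let : Algebra ℚ (R ⧸ Ideal.span {a}) :=
    ((algebraMap L (R ⧸ Ideal.span {a})).comp (algebraMap ℚ L)).toAlgebra
  have : IsScalarTower ℚ L (R ⧸ Ideal.span {a}) := IsScalarTower.of_algebraMap_eq fun _ => rfl
  have : FiniteDimensional ℚ (R ⧸ Ideal.span {a}) := Module.Finite.trans L _
  refine (Set.finite_range fun τ : (R ⧸ Ideal.span {a}) →ₐ[ℚ] Qb =>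
    (τ : (R ⧸ Ideal.span {a}) →+* Qb).comp (Ideal.Quotient.mk _)).subset fun σ hσ => ?_
  refine ⟨(Ideal.Quotient.lift (Ideal.span {a}) σ fun r hr => ?_).toRatAlgHom, ?_⟩
  · obtain ⟨c, rfl⟩ := Ideal.mem_span_singleton'.1 hr
    rw [map_mul, show σ a = 0 from hσ, mul_zero]
  · ext r
    rfl

theorem sum_ker (ev : R →ₐ[L] L) (T : Finset (R →+* Qb))
    (hT : ∀ σ : R →+* Qb, RingHom.ker σ = RingHom.ker ev → σ ∈ T) (g : (R →+* Qb) → ℝ) :
    ∑ σ ∈ T, (if RingHom.ker σ = RingHom.ker ev then 1 else 0) * g σ =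
      ∑ τ : L →ₐ[ℚ] Qb, g ((τ : L →+* Qb).comp ev) := by
  have hk : ∀ τ : L →ₐ[ℚ] Qb, RingHom.ker ((τ : L →+* Qb).comp (ev : R →+* L)) =
      RingHom.ker ev := by
    intro τ
    ext r
    simp [RingHom.mem_ker]
  simp only [ite_mul, one_mul, zero_mul]
  rw [← sum_filter]
  symm
  refine sum_nbij' (fun τ => (τ : L →+* Qb).comp ev)
    (fun σ => (σ.comp (algebraMap L R)).toRatAlgHom) ?_ ?_ ?_ ?_ ?_
  · intro τ _
    exact mem_filter.2 ⟨hT _ (hk τ), hk τ⟩
  · intro σ _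
    exact mem_univ _
  · intro τ _
    ext c
    simp
  · intro σ hσ
    have e := (mem_filter.1 hσ).2
    ext r
    have h1 : r - algebraMap L R (ev r) ∈ RingHom.ker σ := by
      rw [e, RingHom.mem_ker, map_sub, AlgHom.commutes]
      exact sub_self _
    rw [RingHom.mem_ker, map_sub, sub_eq_zero] at h1
    exact h1.symm
  · intro τ _
    rfl

end dedekind

/-- the coordinate ring over `L` -/
abbrev CR (W : WeierstrassCurve ℚ) (L : Type) [Field L] [NumberField L] : Type :=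
  (W.baseChange L).toAffine.CoordinateRing

variable {W : WeierstrassCurve ℚ} {l : EP W Qb × Qbˣ → ℝ} {L : Type} [Field L] [NumberField L]

/-- the point given by a homomorphism of the coordinate ring -/
noncomputable def pt (σ : CR W L →+* Qb) : EP W Qb :=
  if h : (W.baseChange Qb).toAffine.Nonsingular (σ (cX _)) (σ (cY _)) then .some _ _ h else 0

theorem rel [W.IsElliptic] (hS0 : S_S0) (hSinf : S_Sinf) (hl : Kills W l)
    (M : Quad L (CR W L)) (hM : M.x = cX _)
    [IsDedekindDomain (CR W L)]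
    {a b : CR W L} (ha : a ≠ 0) (hb : b ≠ 0)
    (T : Finset (CR W L →+* Qb))
    (hT : ∀ σ : CR W L →+* Qb, σ a = 0 ∨ σ b = 0 → σ ∈ T)
    (hT0 : ∀ σ ∈ T, RingHom.ker σ ≠ ⊥) :
    ∑ σ ∈ T, ((multiplicity (RingHom.ker σ) (Ideal.span {a}) : ℝ) -
      multiplicity (RingHom.ker σ) (Ideal.span {b})) * (l (pt σ, 1) - l (0, 1)) = 0 := by
  obtain ⟨K, _, _, _⟩ : ∃ (K : Type) (_ : Field K) (_ : Algebra (CR W L) K), IsFractionRing (CR W L) K :=
    ⟨FractionRing (CR W L), inferInstance, inferInstance, inferInstance⟩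
  let : Algebra ℚ K := ((algebraMap (CR W L) K).comp ((algebraMap L (CR W L)).comp (algebraMap ℚ L))).toAlgebra
  obtain ⟨hK, hfin, hreg, -⟩ := hSinf L (CR W L) K M
  rw [hM] at hfin hreg
  have hI : ∀ p, p ∈ hfin.toFinset ↔ ∃ r, algebraMap (CR W L) K r ∉ p.v.valuationSubring := by
    intro p
    rw [Set.Finite.mem_toFinset]
    exact ⟨fun h => ⟨_, h⟩, fun ⟨r, hr⟩ h => hr (hreg p h r)⟩
  have hns : (W.baseChange K).toAffine.Nonsingular (algebraMap (CR W L) K (cX _)) (algebraMap (CR W L) K (cY _)) := by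
    have := ell W K
    rw [← WeierstrassCurve.Affine.equation_iff_nonsingular, WeierstrassCurve.Affine.equation_iff]
    have e := congrArg (algebraMap (CR W L) K) (gen_eq (W.baseChange L))
    simp only [map_add, map_mul, map_pow] at e
    exact e
  have h1 : ∀ p : GPt K, p.ord (1 : K) ≠ 0 → p.Val (algebraMap (CR W L) K a / algebraMap (CR W L) K b) 1 :=
    fun p h => absurd p.ord_one h
  have k1 := hl.rel_aff hS0 hK (.some _ _ hns) one_ne_zero ha hb h1 T hT hT0 _ hI pt (fun _ => 1)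
    (fun σ _ p hp => ⟨by
      have h' := GPt.nonsingular_val hns (hp _) (hp _)
      rw [pt, dif_pos h']
      exact GPt.valE_some hns h' (hp _) (hp _), p.val_one⟩) (fun _ => 0) (fun _ => 1)
    (fun p hp _ => ⟨GPt.valE_inf hns (hfin.mem_toFinset.1 hp), p.val_one⟩)
  have k2 := hl.rel_aff hS0 hK 0 one_ne_zero ha hb h1 T hT hT0 _ hI (fun _ => 0) (fun _ => 1)
    (fun σ _ p _ => ⟨p.valE_zero W, p.val_one⟩) (fun _ => 0) (fun _ => 1)
    (fun p _ _ => ⟨p.valE_zero W, p.val_one⟩)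
  simp only [ext0_one] at k1 k2
  simp only [mul_sub, sum_sub_distrib]
  linarith

theorem sum_idl (P : EP W L) (T : Finset (CR W L →+* Qb))
    (hT : ∀ σ : CR W L →+* Qb,
      RingHom.ker σ = idl _ P → σ ∈ T) :
    ∑ σ ∈ T, (if RingHom.ker σ = idl _ P then 1 else 0) * (l (pt σ, 1) - l (0, 1)) =
      ∑ τ : L →ₐ[ℚ] Qb, (l (mp τ P, 1) - l (0, 1)) := by
  rcases P with _ | ⟨x, y, h⟩
  · rw [← Point.zero_def, idl_zero]
    simp only [mp_zero, sub_self, sum_const_zero]
    exact sum_eq_zero fun σ _ => by rw [if_neg (RingHom.ker_ne_top σ), zero_mul]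
  · obtain ⟨ev, hk, hx, hy⟩ := exists_ev (W.baseChange L) h
    rw [← hk] at hT ⊢
    rw [sum_ker ev T hT fun σ => l (pt σ, 1) - l (0, 1)]
    refine sum_congr rfl fun τ _ => ?_
    have e : pt ((τ : L →+* Qb).comp (ev : CR W L →+* L)) = mp τ (.some x y h) := by
      have h' : (W.baseChange Qb).toAffine.Nonsingular (τ x) (τ y) :=
        (baseChange_nonsingular (W := W.toAffine) τ.injective x y).mpr h
      have e1 : ((τ : L →+* Qb).comp (ev : CR W L →+* L)) (cX _) = τ x := congrArg τ hx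
      have e2 : ((τ : L →+* Qb).comp (ev : CR W L →+* L)) (cY _) = τ y := congrArg τ hy
      rw [pt, dif_pos (by rw [e1, e2]; exact h')]
      simp only [e1, e2]
      rfl
    rw [e]

theorem idl_max (P : EP W L) : idl _ P = ⊤ ∨ (idl _ P).IsMaximal := by
  rcases P with _ | ⟨x, y, h⟩
  · exact Or.inl rfl
  · obtain ⟨ev, hk, -, -⟩ := exists_ev (W.baseChange L) h
    rw [← hk]
    exact Or.inr (RingHom.ker_isMaximal_of_surjective ev fun c => ⟨_, ev.commutes c⟩)

end S3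

open S3 in
theorem p_s3 (hS0 : S_S0) (hSinf : S_Sinf) (hA1 : S_A1) (hA2 : S_A2) : S_S3 := by
  intro W _ l hl L _ _ P Q
  have hE : (W.baseChange L).IsElliptic := ell W L
  obtain ⟨M, hM, -⟩ := hA2 L (W.baseChange L)
  obtain ⟨hD, hfd, -⟩ := hA1 L _ M
  obtain ⟨a, b, ha, hb, hab⟩ := exists_ab (W.baseChange L) P Q
  obtain ⟨c, hc0, c1, c2, c3⟩ := exists_common (idl_ne _ P) (idl_ne _ Q) (idl_ne _ (P + Q))
  have he : a * b * c ≠ 0 := mul_ne_zero (mul_ne_zero ha hb) hc0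
  obtain ⟨T, hT⟩ : ∃ T : Finset (CR W L →+* Qb), ∀ σ, σ ∈ T ↔ σ (a * b * c) = 0 :=
    ⟨(fin_zeros (L := L) (a * b * c) (hfd _ (by simpa using he))).toFinset,
      fun σ => Set.Finite.mem_toFinset _⟩
  have hc' : ∀ σ : CR W L →+* Qb, c ∈ RingHom.ker σ → σ ∈ T := fun σ h => (hT σ).2 (by
    rw [map_mul, (RingHom.mem_ker).1 h, mul_zero])
  have hT0 : ∀ σ ∈ T, RingHom.ker σ ≠ ⊥ := fun σ hσ e => he (by
    have h1 : a * b * c ∈ RingHom.ker σ := (hT σ).1 hσ
    rwa [e, Ideal.mem_bot] at h1)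
  have key := rel hS0 hSinf hl M hM hb ha T (fun σ h => (hT σ).2 (by
    rw [map_mul, map_mul]
    rcases h with h | h
    · rw [h, mul_zero, zero_mul]
    · rw [h, zero_mul, zero_mul])) hT0
  have s1 := sum_idl (l := l) P T fun σ h => hc' σ (by rw [h]; exact c1)
  have s2 := sum_idl (l := l) Q T fun σ h => hc' σ (by rw [h]; exact c2)
  have s3 := sum_idl (l := l) (P + Q) T fun σ h => hc' σ (by rw [h]; exact c3)
  have e : ∑ τ : L →ₐ[ℚ] Qb, (l (mp τ P, 1) + l (mp τ Q, 1) - l (mp τ (P + Q), 1) - l (0, 1)) =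
      ∑ τ : L →ₐ[ℚ] Qb, (l (mp τ P, 1) - l (0, 1)) + ∑ τ : L →ₐ[ℚ] Qb, (l (mp τ Q, 1) - l (0, 1)) -
        ∑ τ : L →ₐ[ℚ] Qb, (l (mp τ (P + Q), 1) - l (0, 1)) := by
    rw [← sum_add_distrib, ← sum_sub_distrib]
    exact sum_congr rfl fun τ _ => by ring
  rw [e, ← s1, ← s2, ← s3, ← sum_add_distrib, ← sum_sub_distrib]
  refine Eq.trans (sum_congr rfl fun σ hσ => ?_) key
  rw [← add_mul, ← sub_mul, mult_rel ha hb (idl_ne _ P) (idl_ne _ Q) (idl_ne _ (P + Q))
    (idl_max P) (idl_max Q) (idl_max (P + Q)) hab ((RingHom.ker_isPrime σ).isMaximal (hT0 σ hσ))]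

end Pool.Agent.P.MP_b8021b_nt.VE
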