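import Pool.Agent.P.MP_b8021b_nt.VE.StA

/-! Package S4: from the vanishing of the functionals to the torsion statement. -/

namespace Pool.Agent.P.MP_b8021b_nt.VE

open Polynomial NumberField Finset
open scoped Classical

noncomputable section

namespace S4

theorem lc_eq {Z : Type} (l : Z → ℝ) (D : Z →₀ ℤ) :
    Finsupp.linearCombination ℤ l D = D.sum fun z n => (n : ℝ) * l z := by
  rw [Finsupp.linearCombination_apply]
  exact Finsupp.sum_congr fun z _ => zsmul_eq_mul _ _

/-- an element that is not torsion modulo `N` is detected by a real functional -/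
theorem exists_fun {Z : Type} (N : AddSubgroup (Z →₀ ℤ)) (D : Z →₀ ℤ)
    (h : ∀ n : ℕ, 0 < n → n • D ∉ N) :
    ∃ l : Z → ℝ, (∀ D' ∈ N, Finsupp.linearCombination ℤ l D' = 0) ∧
      Finsupp.linearCombination ℤ l D ≠ 0 := by
  let f : ℤ →+ (Z →₀ ℤ) ⧸ N := zmultiplesHom _ (QuotientAddGroup.mk D)
  have hf : Function.Injective f := by
    rw [injective_iff_map_eq_zero]
    intro a ha
    by_contra h0
    have h1 : a • D ∈ N := by
      rw [← QuotientAddGroup.eq_zero_iff, QuotientAddGroup.mk_zsmul]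
      exact ha
    refine h a.natAbs (Int.natAbs_pos.2 h0) ?_
    rcases Int.natAbs_eq a with e | e
    · rw [← natCast_zsmul, ← e]; exact h1
    · have e' : (a.natAbs : ℤ) = -a := by omega
      rw [← natCast_zsmul, e', neg_smul]; exact N.neg_mem h1
  obtain ⟨g, hg⟩ := (Module.Baer.of_divisible ℝ).extension_property_addMonoidHom f hf
    (Int.castAddHom ℝ)
  let Λ : (Z →₀ ℤ) →+ ℝ := g.comp (QuotientAddGroup.mk' N)
  have key : ∀ D', Finsupp.linearCombination ℤ (fun z => Λ (Finsupp.single z 1)) D' = Λ D' := by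
    intro D'
    induction D' using Finsupp.induction_linear with
    | zero => simp
    | add a b ha hb => rw [map_add, map_add, ha, hb]
    | single z n =>
      rw [Finsupp.linearCombination_single, ← map_zsmul, Finsupp.smul_single, smul_eq_mul, mul_one]
  refine ⟨fun z => Λ (Finsupp.single z 1), fun D' hD' => ?_, ?_⟩
  · rw [key]
    change g (QuotientAddGroup.mk D') = 0
    rw [(QuotientAddGroup.eq_zero_iff D').2 hD', map_zero]
  · rw [key]
    have h1 : g (f 1) = 1 := by
      have := DFunLike.congr_fun hg 1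
      simpa using this
    have h2 : f 1 = QuotientAddGroup.mk D := by simp [f]
    change g (QuotientAddGroup.mk D) ≠ 0
    rw [← h2, h1]
    exact one_ne_zero

variable {W : WeierstrassCurve ℚ}

theorem kills_comp {l : EP W Qb × Qbˣ → ℝ} (hl : Kills W l) (a : EP W Qb × Qbˣ → EP W Qb × Qbˣ)
    (ha : ∀ D ∈ susTrivial W, Finsupp.mapDomain a D ∈ susTrivial W) :
    Kills W (fun z => l (a z)) := by
  intro D hD
  have := hl _ (ha D hD)
  rw [← lc_eq, Finsupp.linearCombination_mapDomain] at this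
  rw [← lc_eq]
  exact this

theorem map_fst (D : EP W Qb × Qbˣ →₀ ℤ) (hD : D ∈ susTrivial W) :
    Finsupp.mapDomain (fun z : EP W Qb × Qbˣ => ((0 : EP W Qb), z.2)) D ∈ susTrivial W := by
  induction hD using AddSubgroup.closure_induction with
  | mem D hD =>
    obtain ⟨K, i1, i2, hK, ξ, u, f, S, φ, h1, h2, h3, rfl⟩ := hD
    refine AddSubgroup.subset_closure ⟨K, i1, i2, hK, 0, u, f, S, fun p => (0, (φ p).2), h1, h2,
      fun p hp => ⟨⟨fun _ => rfl, fun x y h e => by cases e⟩, (h3 p hp).2⟩, ?_⟩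
    rw [Finsupp.mapDomain_finsetSum]
    simp only [Finsupp.mapDomain_single]
  | zero => rw [Finsupp.mapDomain_zero]; exact zero_mem _
  | add a b _ _ ha hb => rw [Finsupp.mapDomain_add]; exact add_mem ha hb
  | neg a _ ha =>
    rw [← Finsupp.mapDomain.addMonoidHom_apply, map_neg]
    exact neg_mem ha

theorem map_snd (D : EP W Qb × Qbˣ →₀ ℤ) (hD : D ∈ susTrivial W) :
    Finsupp.mapDomain (fun z : EP W Qb × Qbˣ => (z.1, (1 : Qbˣ))) D ∈ susTrivial W := by
  induction hD using AddSubgroup.closure_induction with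
  | mem D hD =>
    obtain ⟨K, i1, i2, hK, ξ, u, f, S, φ, h1, h2, h3, rfl⟩ := hD
    refine AddSubgroup.subset_closure ⟨K, i1, i2, hK, ξ, 1, f, S, fun p => ((φ p).1, 1),
      fun p hp => absurd (by simp [GPt.ord]) hp, h2,
      fun p hp => ⟨(h3 p hp).1, ⟨one_mem _, map_one p.ρ⟩⟩, ?_⟩
    rw [Finsupp.mapDomain_finsetSum]
    simp only [Finsupp.mapDomain_single]
  | zero => rw [Finsupp.mapDomain_zero]; exact zero_mem _
  | add a b _ _ ha hb => rw [Finsupp.mapDomain_add]; exact add_mem ha hb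
  | neg a _ ha =>
    rw [← Finsupp.mapDomain.addMonoidHom_apply, map_neg]
    exact neg_mem ha

theorem kills_red {l : EP W Qb × Qbˣ → ℝ} (hl : Kills W l) :
    Kills W (fun z => l z - l (0, z.2) - l (z.1, 1) + l (0, 1)) := by
  intro D hD
  have h0 := hl D hD
  have h1 := kills_comp hl _ map_fst D hD
  have h2 := kills_comp hl _ map_snd D hD
  have h3 := kills_comp (kills_comp hl _ map_fst) _ map_snd D hD
  simp only [Finsupp.sum] at h0 h1 h2 h3 ⊢
  simp only [mul_add, mul_sub, sum_add_distrib, sum_sub_distrib]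
  rw [h0, h1, h2, h3]
  ring

/-- the Galois action does not change the value of a functional on an invariant cycle -/
theorem gal_sum (l : EP W Qb × Qbˣ → ℝ) (D : EP W Qb × Qbˣ →₀ ℤ) (hG : GalInv W D)
    (σ : Qb →ₐ[ℚ] Qb) :
    ∑ z ∈ D.support, (D z : ℝ) * l (mp σ z.1, Units.map σ.toMonoidHom z.2)
      = ∑ z ∈ D.support, (D z : ℝ) * l z := by
  let s : EP W Qb × Qbˣ → EP W Qb × Qbˣ := fun z => (mp σ z.1, Units.map σ.toMonoidHom z.2)
  have hs : ∀ z, D (s z) = D z := fun z => hG σ z.1 z.2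
  have hi : Function.Injective s := by
    intro z z' e
    have e1 : mp σ z.1 = mp σ z'.1 := congrArg Prod.fst e
    have e2 : Units.map σ.toMonoidHom z.2 = Units.map σ.toMonoidHom z'.2 := congrArg Prod.snd e
    exact Prod.ext (WeierstrassCurve.Affine.Point.map_injective (W' := W.toAffine) σ e1)
      (Units.map_injective σ.injective e2)
  have hm : ∀ z ∈ D.support, s z ∈ D.support := by
    intro z hz
    rw [Finsupp.mem_support_iff] at hz ⊢
    rwa [hs]
  refine Finset.sum_bij (fun z _ => s z) hm (fun z _ z' _ e => hi e) ?_ ?_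
  · intro b hb
    obtain ⟨a, ha, e⟩ := Finset.surj_on_of_inj_on_of_card_le (fun z _ => s z) hm
      (fun z z' _ _ e => hi e) le_rfl b hb
    exact ⟨a, ha, e.symm⟩
  · intro z _
    rw [hs]

theorem alg : Algebra.IsAlgebraic ℚ Qb := AlgebraicClosure.isAlgebraic ℚ

theorem exists_ext {L : Type} [Field L] [NumberField L] (ι τ : L →ₐ[ℚ] Qb) :
    ∃ σ : Qb →ₐ[ℚ] Qb, σ.comp ι = τ := by
  let : Algebra L Qb := (ι : L →+* Qb).toAlgebra
  have : IsScalarTower ℚ L Qb := IsScalarTower.of_algebraMap_eq fun q => (ι.commutes q).symm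
  have := alg
  have : Algebra.IsAlgebraic L Qb := Algebra.IsAlgebraic.tower_top (K := ℚ) L
  obtain ⟨σ, hσ⟩ := IsAlgClosed.surjective_domRestrict_of_isAlgebraic (K := ℚ) (L := L) (M := Qb)
    (E := Qb) τ
  exact ⟨σ, AlgHom.ext fun x => DFunLike.congr_fun hσ x⟩

theorem core (hS1 : S_S1) (hS2 : S_S2) (hS3 : S_S3) [W.IsElliptic] (l : EP W Qb × Qbˣ → ℝ)
    (hl : Kills W l) (D : EP W Qb × Qbˣ →₀ ℤ) (hG : GalInv W D) (h0 : (D.sum fun _ n => n) = 0)
    (h1 : (D.sum fun z n => n • z.1) = 0) (h2 : (D.prod fun z n => z.2 ^ n) = 1)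
    (L : Type) [Field L] [NumberField L] (ι : L →ₐ[ℚ] Qb)
    (hx : ∀ z ∈ D.support, (∃ P : EP W L, mp ι P = z.1) ∧ ∃ u : L, ι u = z.2) :
    ∑ z ∈ D.support, (D z : ℝ) * l z = 0 := by
  have hP : ∀ z : EP W Qb × Qbˣ, ∃ P : EP W L, z ∈ D.support → mp ι P = z.1 := by
    intro z
    by_cases hz : z ∈ D.support
    · obtain ⟨P, e⟩ := (hx z hz).1
      exact ⟨P, fun _ => e⟩
    · exact ⟨0, fun h => absurd h hz⟩
  have hu : ∀ z : EP W Qb × Qbˣ, ∃ u : Lˣ, z ∈ D.support → Units.map ι.toMonoidHom u = z.2 := by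
    intro z
    by_cases hz : z ∈ D.support
    · obtain ⟨u, e⟩ := (hx z hz).2
      have hu0 : u ≠ 0 := by
        rintro rfl
        exact z.2.ne_zero (by rw [← e, map_zero])
      exact ⟨Units.mk0 u hu0, fun _ => Units.ext e⟩
    · exact ⟨1, fun h => absurd h hz⟩
  choose P hP using hP
  choose u hu using hu
  have hext : ∀ (m : EP W Qb × Qbˣ → ℝ) (Q : EP W Qb) (τ : L →ₐ[ℚ] Qb) (a : Lˣ),
      ext0 m Q (τ a) = m (Q, Units.map τ.toMonoidHom a) := by
    intro m Q τ a
    have h : τ a ≠ 0 := (Units.map τ.toMonoidHom a).ne_zero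
    unfold ext0
    rw [dif_neg h]
    exact congrArg (fun v => m (Q, v)) (Units.ext rfl)
  let α : EP W L →+ ℝ := AddMonoidHom.mk' (fun Q => ∑ τ : L →ₐ[ℚ] Qb, (l (mp τ Q, 1) - l (0, 1)))
    (by
      intro a b
      have h := hS3 W l hl L a b
      simp only [sum_add_distrib, sum_sub_distrib] at h ⊢
      linarith)
  let β : Additive Lˣ →+ ℝ := AddMonoidHom.mk'
    (fun a => ∑ τ : L →ₐ[ℚ] Qb, (l (0, Units.map τ.toMonoidHom a.toMul) - l (0, 1)))
    (by
      intro a b
      have hm : ((X - C (a.toMul : L)) * (X - C (b.toMul : L))).Monic :=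
        (monic_X_sub_C _).mul (monic_X_sub_C _)
      have hd : ((X - C (a.toMul : L)) * (X - C (b.toMul : L))).natDegree = 2 := by
        rw [(monic_X_sub_C _).natDegree_mul (monic_X_sub_C _), natDegree_X_sub_C,
          natDegree_X_sub_C]
      have h := hS1 W l hl L 0 _ ((a + b).toMul : Lˣ) hm (by omega) (Units.ne_zero _)
        (by rw [hd]; simp [toMul_add])
      have hr : ∀ τ : L →ₐ[ℚ] Qb,
          ((((X - C (a.toMul : L)) * (X - C (b.toMul : L))).map (τ : L →+* Qb)).roots.map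
            (ext0 l (mp τ 0))).sum = l (0, Units.map τ.toMonoidHom a.toMul)
              + l (0, Units.map τ.toMonoidHom b.toMul) := by
        intro τ
        rw [Polynomial.map_mul, Polynomial.map_sub, Polynomial.map_sub, map_X, map_C, map_C,
          roots_mul ((monic_X_sub_C _).mul (monic_X_sub_C _)).ne_zero, roots_X_sub_C,
          roots_X_sub_C, Multiset.map_add, Multiset.sum_add, Multiset.map_singleton,
          Multiset.map_singleton, Multiset.sum_singleton, Multiset.sum_singleton]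
        exact congrArg₂ (· + ·) (hext l 0 τ _) (hext l 0 τ _)
      have h00 : ∀ τ : L →ₐ[ℚ] Qb, mp τ (0 : EP W L) = 0 := fun _ => rfl
      simp only [hr, hd, hext] at h
      simp only [h00, sum_add_distrib, sum_sub_distrib] at h ⊢
      norm_num at h ⊢
      linarith)
  have hα : ∑ z ∈ D.support, (D z : ℝ) * α (P z) = 0 := by
    have e : ∑ z ∈ D.support, D z • P z = 0 := by
      apply WeierstrassCurve.Affine.Point.map_injective (W' := W.toAffine) ι
      rw [map_sum, map_zero, ← h1]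
      refine sum_congr rfl fun z hz => ?_
      rw [map_zsmul]
      exact congrArg (fun Q => D z • Q) (hP z hz)
    have := congrArg α e
    rw [map_sum, map_zero] at this
    simpa only [map_zsmul, zsmul_eq_mul] using this
  have hβ : ∑ z ∈ D.support, (D z : ℝ) * β (Additive.ofMul (u z)) = 0 := by
    have e : ∏ z ∈ D.support, u z ^ D z = 1 := by
      apply Units.map_injective (f := ι.toMonoidHom) ι.injective
      rw [map_prod, map_one, ← h2]
      refine prod_congr rfl fun z hz => ?_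
      rw [map_zpow, hu z hz]
    have := congrArg (fun v => β (Additive.ofMul v)) e
    simp only [ofMul_prod, ofMul_one, map_sum, map_zero, ofMul_zpow, map_zsmul,
      zsmul_eq_mul] at this
    exact this
  have hdeg : ∑ z ∈ D.support, (D z : ℝ) = 0 := by
    have : ((∑ z ∈ D.support, D z : ℤ) : ℝ) = 0 := by exact_mod_cast h0
    simpa using this
  have hred : ∀ z, ∑ τ : L →ₐ[ℚ] Qb, l (mp τ (P z), Units.map τ.toMonoidHom (u z))
      = α (P z) + β (Additive.ofMul (u z)) + Fintype.card (L →ₐ[ℚ] Qb) * l (0, 1) := by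
    intro z
    have h := hS2 W _ (kills_red hl) (fun v => by simp) (fun Q => by simp) L (P z) (u z)
      (u z).ne_zero
    simp only [hext] at h
    simp only [α, β, AddMonoidHom.mk'_apply, toMul_ofMul, sum_add_distrib, sum_sub_distrib,
      sum_const, card_univ, nsmul_eq_mul] at h ⊢
    linarith
  have hτ : ∀ τ : L →ₐ[ℚ] Qb, ∑ z ∈ D.support, (D z : ℝ) * l z
      = ∑ z ∈ D.support, (D z : ℝ) * l (mp τ (P z), Units.map τ.toMonoidHom (u z)) := by
    intro τ
    obtain ⟨σ, rfl⟩ := exists_ext ι τ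
    rw [← gal_sum l D hG σ]
    refine sum_congr rfl fun z hz => ?_
    rw [← hP z hz, ← hu z hz]
    have e1 : mp σ (mp ι (P z)) = mp (σ.comp ι) (P z) :=
      WeierstrassCurve.Affine.Point.map_map (W' := W.toAffine) ι σ (P z)
    rw [e1]
    rfl
  have hsum : (Fintype.card (L →ₐ[ℚ] Qb) : ℝ) * ∑ z ∈ D.support, (D z : ℝ) * l z = 0 := by
    rw [← nsmul_eq_mul, ← card_univ, ← sum_const, sum_congr rfl fun τ _ => hτ τ, sum_comm]
    simp only [← mul_sum, hred]
    simp only [mul_add, sum_add_distrib, ← sum_mul]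
    rw [hα, hβ, hdeg]
    ring
  have hc : (Fintype.card (L →ₐ[ℚ] Qb) : ℝ) ≠ 0 := by
    have : Nonempty (L →ₐ[ℚ] Qb) := ⟨ι⟩
    exact_mod_cast Fintype.card_ne_zero
  exact (mul_eq_zero.1 hsum).resolve_left hc

/-- coordinates of a point -/
def co (z : EP W Qb × Qbˣ) : Finset Qb :=
  match z.1 with
  | 0 => {(z.2 : Qb)}
  | .some x y _ => {(z.2 : Qb), x, y}

end S4

theorem p_s4 (hS1 : S_S1) (hS2 : S_S2) (hS3 : S_S3) : S_Main := by
  intro W _ D hG h0 h1 h2
  by_contra hc
  obtain ⟨l, hl, hD⟩ := S4.exists_fun (susTrivial W) D fun n hn h => hc ⟨n, hn, h⟩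
  have hK : Kills W l := fun D' hD' => by rw [← S4.lc_eq]; exact hl D' hD'
  let T : Finset Qb := D.support.biUnion S4.co
  let L : IntermediateField ℚ Qb := IntermediateField.adjoin ℚ (T : Set Qb)
  have : FiniteDimensional ℚ L :=
    IntermediateField.finiteDimensional_adjoin fun x _ => (S4.alg.isAlgebraic x).isIntegral
  have : NumberField L := NumberField.of_module_finite ℚ L
  have hT : ∀ z ∈ D.support, ∀ x ∈ S4.co z, x ∈ L := fun z hz x hx =>
    IntermediateField.subset_adjoin ℚ _ (Finset.mem_coe.2 (Finset.mem_biUnion.2 ⟨z, hz, hx⟩))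
  apply hD
  rw [S4.lc_eq]
  refine S4.core hS1 hS2 hS3 l hK D hG h0 h1 h2 L L.val ?_
  rintro ⟨P, u⟩ hz
  have h := hT _ hz
  rcases P with _ | ⟨x, y, hxy⟩
  · exact ⟨⟨0, rfl⟩, ⟨⟨u, h _ (by simp [S4.co])⟩, rfl⟩⟩
  · have hx : x ∈ L := h _ (by simp [S4.co])
    have hy : y ∈ L := h _ (by simp [S4.co])
    exact ⟨⟨.some ⟨x, hx⟩ ⟨y, hy⟩
      ((W.toAffine.baseChange_nonsingular (f := L.val) L.val.injective _ _).1 hxy), rfl⟩,
      ⟨⟨u, h _ (by simp [S4.co])⟩, rfl⟩⟩

end

end Pool.Agent.P.MP_b8021b_nt.VE
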