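import Pool.Agent.P.MP_b8021b_nt.VE.StA
import Pool.Agent.P.MP_b8021b_nt.VE.BasicA
import Pool.Agent.P.MP_b8021b_nt.VE.BasicS

/-! The points at infinity of the curve `y ^ 2 = f x`. -/

namespace Pool.Agent.P.MP_b8021b_nt.VE

open Polynomial Finset WithZero
open scoped Classical WithZero IntermediateField

namespace SinfP

variable {L A K : Type} [Field L] [NumberField L] [CommRing A] [Algebra L A] [Field K]
  [Algebra A K]

/-- the constants -/
def io (L A K : Type) [Field L] [CommRing A] [Algebra L A] [Field K] [Algebra A K] : L →+* K :=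
  (algebraMap A K).comp (algebraMap L A)

omit [NumberField L] in
theorem map_aeval (a : A) (g : L[X]) :
    algebraMap A K (aeval a g) = g.eval₂ (io L A K) (algebraMap A K a) := by
  rw [aeval_def, hom_eval₂]
  rfl

omit [NumberField L] in
theorem map_el (M : Quad L A) (g c : L[X]) :
    algebraMap A K (M.el g c) = g.eval₂ (io L A K) (algebraMap A K M.x) +
      c.eval₂ (io L A K) (algebraMap A K M.x) * algebraMap A K M.y := by
  rw [Quad.el, map_add, map_mul, map_aeval, map_aeval]

omit [NumberField L] in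
theorem map_rel (M : Quad L A) :
    algebraMap A K M.y ^ 2 = M.f.eval₂ (io L A K) (algebraMap A K M.x) := by
  rw [← map_pow, M.rel, map_aeval]

theorem eval_mem (p : GPt K) (ι : L →+* K) {z : K} (hz : z ∈ p.v.valuationSubring) (g : L[X]) :
    g.eval₂ ι z ∈ p.v.valuationSubring := by
  obtain ⟨τ, hτ⟩ := p.exists_emb ι
  obtain ⟨c, hc⟩ := p.exists_val hz
  exact (p.val_eval₂ (τ := (τ : L →+* Qb)) hτ hc g).mem

theorem all_mem (M : Quad L A) (p : GPt K) (hx : algebraMap A K M.x ∈ p.v.valuationSubring)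
    (a : A) : algebraMap A K a ∈ p.v.valuationSubring := by
  obtain ⟨g, c, rfl⟩ := M.exists_el a
  have hy : algebraMap A K M.y ∈ p.v.valuationSubring := by
    have h := eval_mem p (io L A K) hx M.f
    rw [← map_rel, GPt.mem_iff, map_pow] at h
    exact (pow_le_one_iff two_ne_zero).1 h
  rw [map_el]
  exact add_mem (eval_mem p _ hx g) (mul_mem (eval_mem p _ hx c) hy)

theorem v_eval (p : GPt K) (ι : L →+* K) {z : K} (hz : 1 < p.v z) {g : L[X]} (hg : g ≠ 0) :
    p.v (g.eval₂ ι z) = p.v z ^ g.natDegree := by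
  have h1 : ∀ c : L, c ≠ 0 → p.v (ι c) = 1 := fun c hc =>
    (p.ord_eq_zero_iff ((_root_.map_ne_zero ι).2 hc)).1 (p.ord_alg ι c)
  have h0 : (0 : ℤᵐ⁰) < p.v z := zero_lt_one.trans hz
  have h2 : p.v (ι (g.coeff g.natDegree) * z ^ g.natDegree) = p.v z ^ g.natDegree := by
    rw [map_mul, map_pow, h1 (g.coeff g.natDegree) (leadingCoeff_ne_zero.2 hg), one_mul]
  rw [eval₂_eq_sum_range, sum_range_succ, Valuation.map_add_eq_of_lt_right, h2]
  rw [h2]
  refine p.v.map_sum_lt (pow_pos h0 _).ne' fun i hi => ?_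
  rw [map_mul, map_pow]
  exact (mul_le_of_le_one_left' (p.mem_of_alg ι _)).trans_lt
    (pow_lt_pow_right₀ hz (mem_range.1 hi))

variable [IsFractionRing A K]

theorem v_del (hA1 : S_A1) (M : Quad L A) (p : GPt K)
    (hx : algebraMap A K M.x ∉ p.v.valuationSubring) :
    ∃ m : ℤ, ∀ h : A, h ≠ 0 → p.v (algebraMap A K h) = exp (m * del L h) := by
  have hinj := IsFractionRing.injective A K
  have hx1 : 1 < p.v (algebraMap A K M.x) := not_le.1 hx
  have hx0 : algebraMap A K M.x ≠ 0 := (map_ne_zero_iff _ hinj).2 M.x_ne_zero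
  have hy0 : algebraMap A K M.y ≠ 0 := (map_ne_zero_iff _ hinj).2 M.y_ne_zero
  have hr : p.v (algebraMap A K M.y) ^ 2 = p.v (algebraMap A K M.x) ^ 3 := by
    rw [← map_pow, map_rel, v_eval p _ hx1 M.f_ne_zero, M.deg]
  have ho := (p.ord_neg_iff _).2 hx
  have ex := p.v_eq hx0
  have ey := p.v_eq hy0
  generalize p.ord (algebraMap A K M.x) = a at ho ex
  generalize p.ord (algebraMap A K M.y) = b at ey
  rw [ex, ey, ← exp_nsmul, ← exp_nsmul, exp_inj] at hr
  simp only [nsmul_eq_mul, Nat.cast_ofNat] at hr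
  obtain ⟨m, hm, rfl, rfl⟩ : ∃ m : ℤ, 0 < m ∧ a = -(2 * m) ∧ b = -(3 * m) :=
    ⟨a - b, by omega, by omega, by omega⟩
  rw [neg_neg] at ex ey
  have e1 : ∀ g : L[X], g ≠ 0 → p.v (g.eval₂ (io L A K) (algebraMap A K M.x)) =
      exp (m * (2 * g.natDegree)) := fun g hg => by
    rw [v_eval p _ hx1 hg, ex, ← exp_nsmul, nsmul_eq_mul]
    congr 1
    ring
  have e2 : ∀ g : L[X], g ≠ 0 → p.v (g.eval₂ (io L A K) (algebraMap A K M.x) *
      algebraMap A K M.y) = exp (m * (2 * g.natDegree + 3)) := fun g hg => by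
    rw [map_mul, e1 g hg, ey, ← exp_add]
    congr 1
    ring
  refine ⟨m, fun h hh => ?_⟩
  obtain ⟨g, c, rfl⟩ := M.exists_el h
  rw [(hA1 L A M).2.2.2.2.1 g c hh, map_el]
  by_cases hc : c = 0
  · subst hc
    have hg : g ≠ 0 := by
      rintro rfl
      exact hh M.el_zero
    rw [eval₂_zero, zero_mul, add_zero, e1 g hg]
    simp
  · rw [M.natDegree_nm g c hc]
    by_cases hg : g = 0
    · subst hg
      rw [eval₂_zero, zero_add, e2 c hc]
      simp
    · rcases lt_or_gt_of_ne (by omega : 2 * g.natDegree ≠ 2 * c.natDegree + 3) with h | h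
      · rw [max_eq_right h.le, Valuation.map_add_eq_of_lt_right, e2 c hc]
        · push_cast
          rfl
        · rw [e1 g hg, e2 c hc, exp_lt_exp]
          exact mul_lt_mul_of_pos_left (by omega) hm
      · rw [max_eq_left h.le, Valuation.map_add_eq_of_lt_left, e1 g hg]
        · push_cast
          rfl
        · rw [e1 g hg, e2 c hc, exp_lt_exp]
          exact mul_lt_mul_of_pos_left (by omega) hm

theorem ord_del (hA1 : S_A1) (M : Quad L A) (p : GPt K)
    (hx : algebraMap A K M.x ∉ p.v.valuationSubring) (h : A) (hh : h ≠ 0) :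
    p.ord (algebraMap A K h) = -(del L h : ℤ) := by
  obtain ⟨m, hm⟩ := v_del hA1 M p hx
  have := M.nontrivial
  have h1 : m = 1 := by
    obtain ⟨z, hz⟩ := p.surj (exp 1)
    obtain ⟨a, b, hb, rfl⟩ := IsFractionRing.div_surjective (A := A) z
    have ha : a ≠ 0 := by
      rintro rfl
      simp only [map_zero, zero_div] at hz
      exact exp_ne_zero hz.symm
    rw [map_div₀, hm a ha, hm b (nonZeroDivisors.ne_zero hb), ← exp_sub, exp_inj, ← mul_sub] at hz
    have h2 := hm M.x M.x_ne_zero
    have h3 : 1 < p.v (algebraMap A K M.x) := not_le.1 hx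
    rw [h2, ← exp_zero, exp_lt_exp] at h3
    have h4 : 0 < m := not_le.1 fun h5 =>
      h3.not_ge (mul_nonpos_of_nonpos_of_nonneg h5 (Int.natCast_nonneg _))
    exact Int.eq_one_of_mul_eq_one_right h4.le hz
  rw [GPt.ord, hm h hh, h1, one_mul, log_exp]

theorem v_ext (hA1 : S_A1) (M : Quad L A) (p q : GPt K)
    (hp : algebraMap A K M.x ∉ p.v.valuationSubring)
    (hq : algebraMap A K M.x ∉ q.v.valuationSubring) : p.v = q.v := by
  have hinj := IsFractionRing.injective A K
  have key : ∀ a : A, p.v (algebraMap A K a) = q.v (algebraMap A K a) := fun a => by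
    rcases eq_or_ne a 0 with rfl | ha
    · simp
    · have ha' := (map_ne_zero_iff _ hinj).2 ha
      rw [p.v_eq ha', q.v_eq ha', ord_del hA1 M p hp a ha, ord_del hA1 M q hq a ha]
  ext z
  obtain ⟨a, b, -, rfl⟩ := IsFractionRing.div_surjective (A := A) z
  rw [map_div₀, map_div₀, key, key]

theorem exists_const (hA1 : S_A1) (M : Quad L A) (p : GPt K)
    (hp : algebraMap A K M.x ∉ p.v.valuationSubring) {z : K} (hz : z ∈ p.v.valuationSubring) :
    ∃ c : L, p.v (z - io L A K c) < 1 := by
  have hinj := IsFractionRing.injective A K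
  obtain ⟨a, b, hb, rfl⟩ := IsFractionRing.div_surjective (A := A) z
  have := M.nontrivial
  have hb0 := nonZeroDivisors.ne_zero hb
  have hb' := (map_ne_zero_iff _ hinj).2 hb0
  have small : ∀ a : A, a = 0 ∨ del L a < del L b →
      p.v (algebraMap A K a / algebraMap A K b) < 1 := fun a ha => by
    refine (p.val_zero_iff _).1 (p.val_div_zero hb' ?_)
    rcases eq_or_ne a 0 with rfl | ha0
    · exact Or.inl (map_zero _)
    · rw [ord_del hA1 M p hp a ha0, ord_del hA1 M p hp b hb0]
      have := ha.resolve_left ha0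
      exact Or.inr (by omega)
  by_cases h : a = 0 ∨ del L a < del L b
  · exact ⟨0, by simpa using small a h⟩
  · rw [not_or, not_lt] at h
    have h1 := p.ord_nonneg hz
    rw [p.ord_div ((map_ne_zero_iff _ hinj).2 h.1) hb', ord_del hA1 M p hp a h.1,
      ord_del hA1 M p hp b hb0] at h1
    have h2 : del L a = del L b := by omega
    obtain ⟨c, -, hc⟩ := (hA1 L A M).2.2.2.2.2.2.1 a b h.1 hb0 h2
    refine ⟨c, ?_⟩
    have h3 : algebraMap A K a / algebraMap A K b - io L A K c =
        algebraMap A K (a - c • b) / algebraMap A K b := by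
      rw [map_sub, Algebra.smul_def, map_mul, sub_div, mul_div_cancel_right₀ _ hb']
      rfl
    rw [h3]
    exact small _ (hc.imp (fun e => sub_eq_zero.2 e) fun e => h2 ▸ e)

theorem finite_inf (hA1 : S_A1) (M : Quad L A) :
    {p : GPt K | algebraMap A K M.x ∉ p.v.valuationSubring}.Finite := by
  choose τ hτ using fun p : GPt K => p.exists_emb (io L A K)
  refine Set.Finite.of_finite_image (f := τ) (Set.toFinite _) fun p hp q hq e => ?_
  have hv := v_ext hA1 M p q hp hq
  refine GPt.ext_val hv fun z c hz => ?_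
  obtain ⟨d, hd⟩ := exists_const hA1 M p hp hz.mem
  have h1 := ((p.val_zero_iff _).2 hd).add (hτ p d)
  have h2 := ((q.val_zero_iff _).2 (hv ▸ hd)).add (hτ q d)
  rw [sub_add_cancel] at h1 h2
  rwa [hz.unique h1, e]

theorem isCurve [Algebra ℚ K] (M : Quad L A) : IsCurve K := by
  have hinj := IsFractionRing.injective A K
  refine ⟨algebraMap A K M.x, ?_, ?_⟩
  · rintro ⟨q, hq, h0⟩
    rw [aeval_def, Subsingleton.elim (algebraMap ℚ K) ((io L A K).comp (algebraMap ℚ L)),
      ← eval₂_map, ← map_aeval, map_eq_zero_iff _ hinj, M.aeval_eq_zero] at h0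
    exact hq ((Polynomial.map_eq_zero _).1 h0)
  · set F := ℚ⟮algebraMap A K M.x⟯
    have hx : IsIntegral F (algebraMap A K M.x) :=
      isIntegral_algebraMap (x := (⟨_, IntermediateField.mem_adjoin_simple_self ℚ _⟩ : F))
    have hc : ∀ c : L, IsIntegral F (io L A K c) := fun c =>
      ((Algebra.IsIntegral.isIntegral (R := ℚ) c).map (io L A K).toRatAlgHom).tower_top
    have hy : IsIntegral F (algebraMap A K M.y) := by
      refine IsIntegral.of_pow two_pos ?_
      rw [map_rel, eval₂_eq_sum_range]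
      exact IsIntegral.sum _ fun i _ => (hc _).mul (hx.pow _)
    let b := Module.finBasis ℚ L
    let S : Set K := insert (algebraMap A K M.y) (Set.range fun i => io L A K (b i))
    have hS : Finite S := ((Set.finite_range _).insert _).to_subtype
    have hfin : FiniteDimensional F (IntermediateField.adjoin F S) :=
      IntermediateField.finiteDimensional_adjoin (by
        rintro z (rfl | ⟨i, rfl⟩)
        · exact hy
        · exact hc _)
    have mx : algebraMap A K M.x ∈ IntermediateField.adjoin F S :=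
      IntermediateField.algebraMap_mem _ (⟨_, IntermediateField.mem_adjoin_simple_self ℚ _⟩ : F)
    have my : algebraMap A K M.y ∈ IntermediateField.adjoin F S :=
      IntermediateField.subset_adjoin _ _ (Set.mem_insert _ _)
    have mc : ∀ c : L, io L A K c ∈ IntermediateField.adjoin F S := fun c => by
      rw [← b.sum_repr c, map_sum]
      refine sum_mem fun i _ => ?_
      rw [Rat.smul_def, map_mul, map_ratCast]
      exact mul_mem (SubfieldClass.ratCast_mem _ _)
        (IntermediateField.subset_adjoin _ _ (Set.mem_insert_of_mem _ ⟨i, rfl⟩))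
    have mg : ∀ g : L[X], g.eval₂ (io L A K) (algebraMap A K M.x) ∈
        IntermediateField.adjoin F S := fun g => by
      rw [eval₂_eq_sum_range]
      exact sum_mem fun i _ => mul_mem (mc _) (pow_mem mx _)
    have ma : ∀ a : A, algebraMap A K a ∈ IntermediateField.adjoin F S := fun a => by
      obtain ⟨g, c, rfl⟩ := M.exists_el a
      rw [map_el]
      exact add_mem (mg g) (mul_mem (mg c) my)
    have htop : IntermediateField.adjoin F S = ⊤ := by
      refine eq_top_iff.2 fun z _ => ?_
      obtain ⟨a, b, -, rfl⟩ := IsFractionRing.div_surjective (A := A) z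
      exact div_mem (ma a) (ma b)
    rw [htop] at hfin
    exact IntermediateField.topEquiv.toLinearEquiv.finiteDimensional

end SinfP

theorem p_sinf (hA1 : S_A1) : S_Sinf := fun _ _ _ _ _ _ _ _ _ _ _ _ M =>
  ⟨SinfP.isCurve M, SinfP.finite_inf hA1 M, SinfP.all_mem M, SinfP.ord_del hA1 M⟩

end Pool.Agent.P.MP_b8021b_nt.VE
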