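import Pool.Agent.P.MP_b8021b_nt.VE.StB
import Pool.Agent.P.MP_b8021b_nt.VE.StN

/-! N28a: pointwise bounds for the weighted numbers of completions. -/

namespace Pool.Agent.P.MP_b8021b_nt.VE

open Polynomial NumberField Finset
open scoped Classical

namespace Sup

/-- a sum of products of bounded weights over tuples from a small set -/
lemma sum_prod_le {α : Type} {u : ℕ} (T : Finset (Fin u → α)) (S : Finset α) (w : α → ℝ)
    (m : (Fin u → α) → ℝ) (b M : ℝ) (n : ℕ) (hb : 0 ≤ b) (hM : 0 ≤ M)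
    (hw : ∀ v ∈ T, ∀ j, 0 ≤ w (v j) ∧ w (v j) ≤ b) (hm : ∀ v ∈ T, 0 ≤ m v ∧ m v ≤ M)
    (hS : ∀ v ∈ T, m v ≠ 0 → ∀ j, v j ∈ S) (hn : S.card ≤ n) :
    ∑ v ∈ T, (∏ j, w (v j)) * m v ≤ (n : ℝ) ^ u * (b ^ u * M) := by
  rw [← Finset.sum_filter_of_ne (p := fun v => m v ≠ 0)
    (fun v _ h h0 => h (by rw [h0, mul_zero]))]
  have hc : (T.filter fun v => m v ≠ 0).card ≤ n ^ u := by
    have hsub : (T.filter fun v => m v ≠ 0) ⊆ Fintype.piFinset fun _ : Fin u => S := by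
      intro v hv
      obtain ⟨h1, h2⟩ := mem_filter.mp hv
      exact Fintype.mem_piFinset.mpr (hS v h1 h2)
    calc _ ≤ _ := card_le_card hsub
      _ = S.card ^ u := by simp [Fintype.card_piFinset]
      _ ≤ n ^ u := Nat.pow_le_pow_left hn u
  calc ∑ v ∈ T.filter (fun v => m v ≠ 0), (∏ j, w (v j)) * m v
      ≤ ∑ _v ∈ T.filter (fun v => m v ≠ 0), b ^ u * M := by
        refine sum_le_sum fun v hv => ?_
        have h1 := (mem_filter.mp hv).1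
        have h2 : ∏ j, w (v j) ≤ b ^ u := by
          calc ∏ j, w (v j) ≤ ∏ _j : Fin u, b :=
                prod_le_prod (fun j _ => (hw v h1 j).1) (fun j _ => (hw v h1 j).2)
            _ = b ^ u := by simp
        exact mul_le_mul h2 (hm v h1).2 (hm v h1).1 (pow_nonneg hb u)
    _ = ((T.filter fun v => m v ≠ 0).card : ℝ) * (b ^ u * M) := by
        rw [sum_const, nsmul_eq_mul]
    _ ≤ (n : ℝ) ^ u * (b ^ u * M) := by
        refine mul_le_mul_of_nonneg_right ?_ (by positivity)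
        exact_mod_cast hc

/-- equal products of primes have the same factors -/
lemma mem_of_prod_eq {n : ℕ} (q q' : Fin n → ℕ) (hq : ∀ i, (q i).Prime) (hq' : ∀ i, (q' i).Prime)
    (h : ∏ i, q i = ∏ i, q' i) (i : Fin n) : q i ∈ univ.image q' := by
  have h1 : q i ∣ ∏ j, q' j := h ▸ dvd_prod_of_mem q (mem_univ i)
  obtain ⟨j, -, hj⟩ := ((hq i).prime.dvd_finsetProd_iff q').mp h1
  exact mem_image.mpr ⟨j, mem_univ j, ((Nat.prime_dvd_prime_iff_eq (hq i) (hq' j)).mp hj).symm⟩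

lemma eq_of_dvd_sub {q a b : ℕ} (ha : a < q) (hb : b < q) (h : (q : ℤ) ∣ (a : ℤ) - b) : a = b := by
  have h1 : (a : ℤ) - b = 0 := by
    refine Int.eq_zero_of_dvd_of_natAbs_lt_natAbs h ?_
    omega
  omega

/-- at most two points over a prime lie on a fibre -/
lemma card_fib (p : Par) (t : ℤ × ℤ) (X : Finset Pt) (q : ℕ) :
    (X.filter fun x => x.1 = q ∧ p.IsPt x ∧ OnT x t).card ≤ 2 := by
  rcases (X.filter fun x => x.1 = q ∧ p.IsPt x ∧ OnT x t).eq_empty_or_nonempty with h | ⟨a, ha⟩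
  · rw [h]; simp
  obtain ⟨-, a1, a2, a3⟩ := mem_filter.mp ha
  have hsub : (X.filter fun x => x.1 = q ∧ p.IsPt x ∧ OnT x t) ⊆ {a, inv a} := by
    intro x hx
    obtain ⟨-, x1, x2, x3⟩ := mem_filter.mp hx
    obtain ⟨q1, τ, w⟩ := x
    obtain ⟨q2, τ', w'⟩ := a
    simp only at x1 a1
    subst x1
    subst a1
    obtain ⟨hp, -, -, -, hτ, -, hw, hd⟩ := x2
    obtain ⟨-, -, -, -, hτ', hw0, hw', hd'⟩ := a2
    obtain ⟨o1, o2⟩ := x3
    obtain ⟨o1', -⟩ := a3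
    simp only at hp hτ hw hd hτ' hw0 hw' hd' o1 o2 o1'
    have hP : Prime (q2 : ℤ) := Nat.prime_iff_prime_int.mp hp
    have e1 : τ = τ' := by
      refine eq_of_dvd_sub hτ hτ' ?_
      have h3 : (q2 : ℤ) ∣ ((τ : ℤ) - τ') * t.2 := by
        have := dvd_sub o1' o1
        have e : t.1 - (τ' : ℤ) * t.2 - (t.1 - τ * t.2) = ((τ : ℤ) - τ') * t.2 := by ring
        rwa [e] at this
      exact (hP.dvd_or_dvd h3).resolve_right o2
    subst e1
    have h4 : (q2 : ℤ) ∣ ((w : ℤ) - w') * (w + w') := by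
      have := dvd_sub hd hd'
      have e : (w : ℤ) ^ 2 - eval (τ : ℤ) p.f - ((w' : ℤ) ^ 2 - eval (τ : ℤ) p.f) =
        ((w : ℤ) - w') * (w + w') := by ring
      rwa [e] at this
    rcases hP.dvd_or_dvd h4 with h5 | h5
    · have := eq_of_dvd_sub hw hw' h5
      subst this
      simp
    · have e2 : w = q2 - w' := by
        refine eq_of_dvd_sub hw (by omega) ?_
        rw [Nat.cast_sub hw'.le]
        have := dvd_sub h5 (dvd_refl (q2 : ℤ))
        have e : (w : ℤ) + w' - q2 = w - (q2 - w') := by ring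
        rwa [e] at this
      subst e2
      simp [inv]
  exact (card_le_card hsub).trans (card_le_two)

lemma card_fibs (p : Par) (t : ℤ × ℤ) (X : Finset Pt) (Q : Finset ℕ) :
    (X.filter fun x => x.1 ∈ Q ∧ p.IsPt x ∧ OnT x t).card ≤ 2 * Q.card := by
  have hsub : (X.filter fun x => x.1 ∈ Q ∧ p.IsPt x ∧ OnT x t) ⊆
      Q.biUnion fun q => X.filter fun x => x.1 = q ∧ p.IsPt x ∧ OnT x t := by
    intro x hx
    obtain ⟨h1, h2, h3⟩ := mem_filter.mp hx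
    exact mem_biUnion.mpr ⟨x.1, h2, mem_filter.mpr ⟨h1, rfl, h3⟩⟩
  refine (card_le_card hsub).trans (card_biUnion_le.trans ?_)
  calc _ ≤ ∑ _q ∈ Q, 2 := sum_le_sum fun q _ => card_fib p t X q
    _ = 2 * Q.card := by rw [sum_const, smul_eq_mul, mul_comm]

lemma wg_bound (p : Par) (c : Cfg) (u : ℕ) (t : ℤ × ℤ) (s : p.Co) (x x' : Pt) (b : ℝ) (hb : 0 ≤ b)
    (hw : ∀ q ∈ Pset c.y c.N, 0 ≤ wt c.y c.N q ∧ wt c.y c.N q ≤ b) :
    0 ≤ Wg p c u t s x x' ∧ Wg p c u t s x x' ≤ ((2 * (u + 2) : ℕ) : ℝ) ^ u * b ^ u := by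
  have hw' : ∀ v ∈ (Fintype.piFinset fun _ : Fin u => Xset p c.y c.N).filter fun v =>
      p.Good t s (Fin.cons x (Fin.cons x' v) : Fin (u + 2) → Pt), ∀ j,
      0 ≤ wt c.y c.N (v j).1 ∧ wt c.y c.N (v j).1 ≤ b := fun v hv j =>
    hw _ (fst_mem_Pset (Fintype.mem_piFinset.mp (mem_filter.mp hv).1 j))
  refine ⟨sum_nonneg fun v hv => prod_nonneg fun j _ => (hw' v hv j).1, ?_⟩
  unfold Wg
  rcases ((Fintype.piFinset fun _ : Fin u => Xset p c.y c.N).filter fun v =>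
      p.Good t s (Fin.cons x (Fin.cons x' v) : Fin (u + 2) → Pt)).eq_empty_or_nonempty with
    h | ⟨v₀, hv₀⟩
  · rw [h, sum_empty]; positivity
  have g₀ := (mem_filter.mp hv₀).2
  have key := sum_prod_le _ ((Xset p c.y c.N).filter fun z => z.1 ∈ univ.image
    (fun i => ((Fin.cons x (Fin.cons x' v₀) : Fin (u + 2) → Pt) i).1) ∧ p.IsPt z ∧ OnT z t)
    (fun z => wt c.y c.N z.1) (fun _ => 1) b 1 (2 * (u + 2)) hb zero_le_one hw'
    (fun _ _ => ⟨zero_le_one, le_rfl⟩) ?_ ?_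
  · simpa using key
  · intro v hv _ j
    obtain ⟨h1, g⟩ := mem_filter.mp hv
    have hr : (p.r : ℤ) ^ p.e ≠ 0 := pow_ne_zero _ (by exact_mod_cast p.hr.ne_zero)
    have e1 := mul_left_cancel₀ hr (g.2.2.symm.trans g₀.2.2)
    have e2 : ∏ i, ((Fin.cons x (Fin.cons x' v) : Fin (u + 2) → Pt) i).1 =
        ∏ i, ((Fin.cons x (Fin.cons x' v₀) : Fin (u + 2) → Pt) i).1 := by exact_mod_cast e1
    have m1 := mem_of_prod_eq _ _ (fun i => (g.1 i).1.1) (fun i => (g₀.1 i).1.1) e2 j.succ.succ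
    have m2 := g.1 j.succ.succ
    simp only [Fin.cons_succ] at m1 m2
    exact mem_filter.mpr ⟨Fintype.mem_piFinset.mp h1 j, m1, m2.1, m2.2.1⟩
  · refine (card_fibs p t _ _).trans (Nat.mul_le_mul_left 2 (card_image_le.trans ?_))
    simp

lemma wan_bound (hLam : S_Lam) {L : Type} [Field L] [NumberField L] (hd : Module.finrank ℚ L = 2)
    (y : ℝ) (N u : ℕ) (𝔞 : Ideal (𝓞 L)) (α : 𝓞 L) (hα : α ≠ 0) (b : ℝ) (hb : 0 ≤ b)
    (hw : ∀ q ∈ Pset y N, q.Prime ∧ 0 ≤ wt y N q ∧ wt y N q ≤ b) :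
    0 ≤ Wan y N u 𝔞 α ∧ Wan y N u 𝔞 α ≤ (u : ℝ) ^ u * (b ^ u * 4 ^ u) := by
  have hw' : ∀ q ∈ Fintype.piFinset fun _ : Fin u => Pset y N, ∀ j,
      (q j).Prime ∧ 0 ≤ wt y N (q j) ∧ wt y N (q j) ≤ b := fun q hq j =>
    hw _ (Fintype.mem_piFinset.mp hq j)
  refine ⟨sum_nonneg fun q hq => mul_nonneg (prod_nonneg fun j _ => (hw' q hq j).2.1)
    (Nat.cast_nonneg _), ?_⟩
  unfold Wan
  have hN : ∀ (q : Fin u → ℕ), ((Set.ncard {I : Fin u → Ideal (𝓞 L) |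
      (∀ j, Ideal.absNorm (I j) = q j) ∧ Ideal.span {α} = 𝔞 * ∏ j, I j} : ℕ) : ℝ) ≠ 0 →
      Ideal.absNorm (Ideal.span {α}) = Ideal.absNorm 𝔞 * ∏ j, q j := by
    intro q h
    have h1 : Set.ncard {I : Fin u → Ideal (𝓞 L) |
      (∀ j, Ideal.absNorm (I j) = q j) ∧ Ideal.span {α} = 𝔞 * ∏ j, I j} ≠ 0 := by exact_mod_cast h
    obtain ⟨I, h2, h3⟩ := Set.nonempty_of_ncard_ne_zero h1
    rw [h3, map_mul, map_prod]
    exact congrArg _ (prod_congr rfl fun j _ => h2 j)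
  have h0 : Ideal.absNorm (Ideal.span {α}) ≠ 0 := by
    rw [Ne, Ideal.absNorm_eq_zero_iff, Ideal.span_singleton_eq_bot]
    exact hα
  have hM : ∀ q ∈ Fintype.piFinset fun _ : Fin u => Pset y N,
      ((Set.ncard {I : Fin u → Ideal (𝓞 L) | (∀ j, Ideal.absNorm (I j) = q j) ∧
        Ideal.span {α} = 𝔞 * ∏ j, I j} : ℕ) : ℝ) ≤ 4 ^ u := by
    intro q hq
    have hf : ∀ j, {I : Ideal (𝓞 L) | Ideal.absNorm I = q j}.Finite := fun j =>
      Ideal.finite_setOfPred_absNorm_eq (q j)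
    have hsub : {I : Fin u → Ideal (𝓞 L) | (∀ j, Ideal.absNorm (I j) = q j) ∧
        Ideal.span {α} = 𝔞 * ∏ j, I j} ⊆ ↑(Fintype.piFinset fun j => (hf j).toFinset) := by
      intro I hI
      exact mem_coe.mpr (Fintype.mem_piFinset.mpr fun j => (hf j).mem_toFinset.mpr (hI.1 j))
    have h1 := Set.ncard_le_ncard hsub (finite_toSet _)
    rw [Set.ncard_coe_finset, Fintype.card_piFinset] at h1
    have h2 : ∏ j, ((hf j).toFinset).card ≤ ∏ _j : Fin u, 4 := by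
      refine prod_le_prod' fun j _ => ?_
      have h3 := (hLam L).1 (q j) (hw' q hq j).1.one_le
      rw [Set.ncard_eq_toFinset_card _ (hf j), hd, (hw' q hq j).1.divisors,
        card_pair (hw' q hq j).1.one_lt.ne] at h3
      exact h3
    have h4 := h1.trans h2
    rw [prod_const, card_univ, Fintype.card_fin] at h4
    exact_mod_cast h4
  by_cases hex : ∃ q₀ ∈ Fintype.piFinset fun _ : Fin u => Pset y N,
      ((Set.ncard {I : Fin u → Ideal (𝓞 L) | (∀ j, Ideal.absNorm (I j) = q₀ j) ∧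
        Ideal.span {α} = 𝔞 * ∏ j, I j} : ℕ) : ℝ) ≠ 0
  · obtain ⟨q₀, hq₀, hn₀⟩ := hex
    refine sum_prod_le _ (univ.image q₀) (wt y N) _ b (4 ^ u) u hb (by positivity)
      (fun q hq j => (hw' q hq j).2) (fun q hq => ⟨Nat.cast_nonneg _, hM q hq⟩) ?_ ?_
    · intro q hq hn j
      have e0 := hN q₀ hn₀
      have ha : Ideal.absNorm 𝔞 ≠ 0 := fun h => h0 (by rw [e0, h, zero_mul])
      have e1 := mul_left_cancel₀ ha ((hN q hn).symm.trans e0)
      exact mem_of_prod_eq q q₀ (fun i => (hw' q hq i).1) (fun i => (hw' q₀ hq₀ i).1) e1 j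
    · exact card_image_le.trans (by simp)
  · refine sum_prod_le _ ∅ (wt y N) _ b (4 ^ u) u hb (by positivity)
      (fun q hq j => (hw' q hq j).2) (fun q hq => ⟨Nat.cast_nonneg _, hM q hq⟩) ?_ (by simp)
    intro q hq hn j
    exact (hex ⟨q, hq, hn⟩).elim

lemma mz_le (N u : ℕ) : (Mz N u : ℝ) ≤ (u + 2) * N / 2 ∧ (u + 2) * N / 2 - 1 ≤ (Mz N u : ℝ) := by
  unfold Mz
  have h1 : 2 * ((u + 2) * N / 2) ≤ (u + 2) * N := Nat.mul_div_le _ _
  have h2 : (u + 2) * N ≤ 2 * ((u + 2) * N / 2) + 1 := by omega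
  have h1' : (2 : ℝ) * (((u + 2) * N / 2 : ℕ) : ℝ) ≤ (u + 2) * N := by exact_mod_cast h1
  have h2' : ((u : ℝ) + 2) * N ≤ 2 * (((u + 2) * N / 2 : ℕ) : ℝ) + 1 := by exact_mod_cast h2
  rw [Int.cast_natCast]
  constructor <;> linarith

lemma m0_pos (r z : ℕ) (hr : r.Prime) : 1 ≤ M0 r z * r := by
  refine Nat.one_le_iff_ne_zero.mpr (mul_ne_zero ?_ hr.ne_zero)
  unfold M0
  exact prod_ne_zero_iff.mpr fun l hl => (mem_filter.mp hl).2.1.ne_zero

/-- the arithmetic factor -/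
lemma den_ge {L : Type} [Field L] [NumberField L] (m : ℕ) (H : ℝ) (hw : 1 ≤ wu L)
    (hp : 1 ≤ phi L m) (hp' : phi L m ≤ m ^ 2) (hc : 0 < cov L)
    (hh : (classNumber L : ℝ) ≤ cov L * H) : 1 ≤ H * (ir L m * cov L * (m : ℝ) ^ 2) := by
  have h1 : (0 : ℝ) < classNumber L := by exact_mod_cast classNumber_pos L
  have h2 : (0 : ℝ) < phi L m := by exact_mod_cast hp
  have h3 : (1 : ℝ) ≤ wu L := by exact_mod_cast hw
  have h4 : (phi L m : ℝ) ≤ (m : ℝ) ^ 2 := by exact_mod_cast hp'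
  have e : H * (ir L m * cov L * (m : ℝ) ^ 2) =
      wu L * (cov L * H * (m : ℝ) ^ 2) / (classNumber L * phi L m) := by
    unfold ir; ring
  rw [e, le_div_iff₀ (mul_pos h1 h2), one_mul]
  have h5 : (classNumber L : ℝ) * phi L m ≤ cov L * H * (m : ℝ) ^ 2 :=
    mul_le_mul hh h4 h2.le (h1.le.trans hh)
  have h6 : 0 ≤ cov L * H * (m : ℝ) ^ 2 := (mul_pos h1 h2).le.trans h5
  nlinarith

/-- the numerical estimate -/
lemma num (u : ℕ) (y N E E₀ d H n a a' h c₀ : ℝ) (hy : 0 < y) (hN : 0 < N) (hE0 : 0 ≤ E)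
    (hE : E ≤ E₀) (hH : 0 < H) (hd : 1 ≤ H * d) (hn : (N / (4 * (u + 2))) ^ (u + 1) ≤ n)
    (ha : y ≤ a) (ha' : y ≤ a') (hc : 0 < c₀) (hh : c₀ ≤ N ^ 2 * h) :
    Real.pi * y ^ (u + 2) * E / (N * d * n) / (a * a' * h) ≤
      Real.pi * E₀ * (4 * (u + 2)) ^ (u + 1) / c₀ * H * (y / N) ^ u := by
  have hd0 : 1 / H ≤ d := by rw [div_le_iff₀ hH]; linarith
  have hh0 : c₀ / N ^ 2 ≤ h := by rw [div_le_iff₀ (by positivity)]; linarith
  have hpi := Real.pi_pos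
  have hE₀ : 0 ≤ E₀ := hE0.trans hE
  calc Real.pi * y ^ (u + 2) * E / (N * d * n) / (a * a' * h)
      ≤ Real.pi * y ^ (u + 2) * E₀ / (N * (1 / H) * (N / (4 * (u + 2))) ^ (u + 1)) /
        (y * y * (c₀ / N ^ 2)) := by
        have hy' : 0 < a := hy.trans_le ha
        have hy'' : 0 < a' := hy.trans_le ha'
        have hd1 : 0 < d := lt_of_lt_of_le (by positivity) hd0
        gcongr
    _ = Real.pi * E₀ * (4 * (u + 2)) ^ (u + 1) / c₀ * H * (y / N) ^ u := by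
        rw [div_pow, div_pow]
        field_simp
        ring

end Sup

open Sup in
theorem p_sup (hCnt : S_Cnt) (hTheta : S_Theta) (hFlat : S_Flat) (hLam : S_Lam) (hCl : S_Cl)
    (hPhi : S_Phi) : S_Sup := by
  intro F hu hA
  obtain ⟨c₀, C₀, hc₀, -, hH⟩ := hCnt.2.2.2.2.2 F.u hu
  obtain ⟨y₁, hT⟩ := hTheta (6 * F.A + 1)
  obtain ⟨C₁, hC₁, hF⟩ := hFlat F.p F.τ0
  obtain ⟨y₂, hF⟩ := hF F rfl rfl
  obtain ⟨C₂, hC₂, hCl⟩ := hCl
  set K₀ : ℝ := Real.pi * Real.exp ((F.u + 2) / 2) * (4 * (F.u + 2)) ^ (F.u + 1) / c₀ *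
    (C₂ * 26 ^ 3) with hK₀
  have hK0 : 0 ≤ K₀ := by have := Real.pi_pos; positivity
  set K₁ : ℝ := ((2 * (F.u + 2) : ℕ) : ℝ) ^ F.u + (F.u : ℝ) ^ F.u * 4 ^ F.u with hK₁
  have hK1 : 0 ≤ K₁ := by positivity
  refine ⟨1 + K₀ * K₁ * 4 ^ F.u, le_add_of_nonneg_right (by positivity),
    max (max y₁ y₂) (max C₁ (Real.exp (12 * (F.u + 2)))), ?_⟩
  intro c hy hin x x' t L _ _ K hx hx' ht hD
  have hy1 : y₁ ≤ c.y := (le_max_left _ _).trans ((le_max_left _ _).trans hy)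
  have hy2 : y₂ ≤ c.y := (le_max_right _ _).trans ((le_max_left _ _).trans hy)
  have hy3 : C₁ ≤ c.y := (le_max_left _ _).trans ((le_max_right _ _).trans hy)
  have hy4 : Real.exp (12 * (F.u + 2)) ≤ c.y :=
    (le_max_right _ _).trans ((le_max_right _ _).trans hy)
  have hy0 : 0 < c.y := (Real.exp_pos _).trans_le hy4
  have hl : 12 * ((F.u : ℝ) + 2) ≤ Real.log c.y := (Real.le_log_iff_exp_le hy0).mpr hy4
  have hu0 : (0 : ℝ) ≤ F.u := Nat.cast_nonneg _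
  have hl2 : 2 ≤ Real.log c.y := by linarith
  have hl1 : 1 ≤ Real.log c.y := by linarith
  have hNl : Real.log c.y ≤ c.N :=
    (le_self_pow₀ hl1 (by omega : 6 * F.A ≠ 0)).trans hin.N_ge
  have hN12 : 12 * (F.u + 2) ≤ c.N := by exact_mod_cast hl.trans hNl
  have hN12' : 12 * ((F.u : ℝ) + 2) ≤ c.N := hl.trans hNl
  have hN0 : (0 : ℝ) < c.N := by linarith
  have hNu : (c.N : ℝ) ≤ Real.log c.y ^ (6 * F.A + 1) := by
    refine hin.N_le.trans ?_
    rw [pow_succ, mul_comm]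
    exact mul_le_mul_of_nonneg_left hl2 (by positivity)
  obtain ⟨-, -, -, hP⟩ := hT c.y hy1 c.N (by omega) hNu
  obtain ⟨-, -, -, hD4, -⟩ := hF c hy2 hin
  obtain ⟨-, -, -, hD5⟩ := hD4 t ht
  obtain ⟨hh, hcov, -, hwu⟩ := hCl L K
  obtain ⟨hp1, hp2, -, -⟩ := hPhi L K.deg (M0 F.p.r c.z * F.p.r) (M0 F.p.r c.z * F.p.r)
    (m0_pos _ _ F.p.hr) dvd_rfl
  have hDneg : (K.D : ℝ) ≤ -1 := by
    have := K.neg
    exact_mod_cast (by omega : K.D ≤ -1)
  have hDabs : |(K.D : ℝ)| = -(K.D : ℝ) := abs_of_nonpos (by linarith)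
  have hB0 : 0 ≤ c.B := le_trans (by positivity) hin.B_ge
  have hDle : |(K.D : ℝ)| ≤ c.y ^ 25 := by
    rw [hDabs, hD]
    calc -(F.p.D t : ℝ) ≤ C₁ * c.B ^ 4 := hD5
      _ ≤ c.y * (c.y ^ 6) ^ 4 := by
        have := hin.B_le
        gcongr
      _ = c.y ^ 25 := by ring
  have hlog0 : 0 ≤ Real.log |(K.D : ℝ)| := Real.log_nonneg (by rw [hDabs]; linarith)
  have hlog : 1 + Real.log |(K.D : ℝ)| ≤ 26 * Real.log c.y := by
    have h1 := Real.log_le_log (by rw [hDabs]; linarith) hDle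
    rw [Real.log_pow] at h1
    push_cast at h1
    linarith
  have hc0 : 0 < cov L := by linarith
  have hh' : (classNumber L : ℝ) ≤ cov L * (C₂ * 26 ^ 3 * Real.log c.y ^ 3) := by
    calc (classNumber L : ℝ) ≤ C₂ * cov L * (1 + Real.log |(K.D : ℝ)|) ^ 3 := hh
      _ ≤ C₂ * cov L * (26 * Real.log c.y) ^ 3 := by gcongr
      _ = _ := by ring
  have hden := den_ge (M0 F.p.r c.z * F.p.r) _ hwu hp1 hp2 hc0 hh'
  obtain ⟨hm1, hm2⟩ := mz_le c.N F.u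
  have hcnt := hCnt.2.2.2.1 (F.u + 1) c.N (Mz c.N F.u) hN12 (by
    rw [abs_le]
    push_cast
    constructor <;> nlinarith)
  have hE : Real.exp (Mz c.N F.u / c.N) ≤ Real.exp ((F.u + 2) / 2) := by
    refine Real.exp_le_exp.mpr ?_
    rw [div_le_iff₀ hN0]
    linarith
  obtain ⟨-, hx1, -, hx2, -⟩ := hP _ (fst_mem_Pset hx)
  obtain ⟨-, hx1', -, hx2', -⟩ := hP _ (fst_mem_Pset hx')
  have hHh := ((hH c.N hN12).2.2.2 _ hx2 _ hx2').1
  have hkap : kap' L F.p c F.u x x' ≤ K₀ * Real.log c.y ^ 3 * (c.y / c.N) ^ F.u := by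
    have h1 := num F.u c.y c.N _ _ _ _ (cnt (F.u + 2) c.N (Mz c.N F.u)) x.1 x'.1 _ c₀ hy0 hN0
      (Real.exp_pos _).le hE (by positivity) hden (by
        refine le_trans (le_of_eq ?_) hcnt
        push_cast
        ring) hx1 hx1' hc₀ hHh
    refine le_trans (le_of_eq ?_) (h1.trans (le_of_eq ?_))
    · unfold kap' kap
      ring
    · rw [hK₀]; ring
  have hkap0 : 0 ≤ kap' L F.p c F.u x x' := by
    have := Real.pi_pos
    have h2 : 0 ≤ ir L (M0 F.p.r c.z * F.p.r) := by unfold ir; positivity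
    have h3 : 0 ≤ Hh c.N F.u (lv c.y c.N x.1) (lv c.y c.N x'.1) := by unfold Hh; positivity
    unfold kap' kap
    positivity
  have hb : 0 ≤ 4 * c.N * Real.log c.y / c.y := by positivity
  have fin : ∀ W : ℝ, 0 ≤ W → W ≤ K₁ * (4 * c.N * Real.log c.y / c.y) ^ F.u →
      kap' L F.p c F.u x x' * W ≤ (1 + K₀ * K₁ * 4 ^ F.u) * Real.log c.y ^ (F.u + 3) := by
    intro W hW0 hW
    calc kap' L F.p c F.u x x' * W ≤ K₀ * Real.log c.y ^ 3 * (c.y / c.N) ^ F.u *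
          (K₁ * (4 * c.N * Real.log c.y / c.y) ^ F.u) :=
          mul_le_mul hkap hW hW0 (by positivity)
      _ = K₀ * K₁ * 4 ^ F.u * Real.log c.y ^ (F.u + 3) := by
          rw [div_pow, div_pow, mul_pow, mul_pow]
          field_simp
          ring
      _ ≤ _ := by
          refine mul_le_mul_of_nonneg_right (by linarith) (by positivity)
  refine ⟨hkap0, fun s => ?_, fun 𝔞 α hα => ?_⟩
  · obtain ⟨h1, h2⟩ := wg_bound F.p c F.u t s x x' _ hb fun q hq => (hP q hq).2.2.2.2.2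
    refine ⟨h1, fin _ h1 (h2.trans ?_)⟩
    refine mul_le_mul_of_nonneg_right ?_ (by positivity)
    rw [hK₁]
    exact le_add_of_nonneg_right (by positivity)
  · obtain ⟨h1, h2⟩ := wan_bound hLam K.deg c.y c.N F.u 𝔞 α hα _ hb fun q hq =>
      ⟨(hP q hq).1, (hP q hq).2.2.2.2.2⟩
    refine ⟨h1, fin _ h1 (h2.trans ?_)⟩
    have h3 : (F.u : ℝ) ^ F.u * 4 ^ F.u ≤ K₁ := by
      rw [hK₁]
      exact le_add_of_nonneg_left (by positivity)
    calc (F.u : ℝ) ^ F.u * ((4 * c.N * Real.log c.y / c.y) ^ F.u * 4 ^ F.u)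
        = (F.u : ℝ) ^ F.u * 4 ^ F.u * (4 * c.N * Real.log c.y / c.y) ^ F.u := by ring
      _ ≤ _ := mul_le_mul_of_nonneg_right h3 (by positivity)

end Pool.Agent.P.MP_b8021b_nt.VE
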