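import Pool.Agent.P.MP_b8021b_nt.VE.StA

/-! A4: every functional is anti-invariant. -/

namespace Pool.Agent.P.MP_b8021b_nt.VE

open Polynomial

namespace PSym

variable {A : Type} [CommRing A] [Algebra ℚ A]

omit [Algebra ℚ A] in
theorem mem_of_ord {P : MaximalSpectrum A} {f : A} (h : ord P f ≠ 0) : f ∈ P.asIdeal := by
  unfold ord at h
  rw [Ne, multiplicity_eq_zero, not_not] at h
  exact Ideal.le_of_dvd h (Ideal.mem_span_singleton_self f)

theorem ev_ne (M : Quad ℚ A) {g : ℚ[X]} (hg : g ≠ 0) : aeval M.x g ≠ 0 := fun h =>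
  hg (M.inj g 0 (by simpa using h)).1

omit [Algebra ℚ A] in
theorem pair_congr {φ : MaximalSpectrum A → A → ℝ} (hφ : IsFn φ) (f : A) {h h' : A}
    (e : f ∣ h - h') : pair φ f h = pair φ f h' := by
  unfold pair
  refine finsum_congr fun P => ?_
  by_cases hP : ord P f = 0
  · simp [hP]
  · rw [hφ.congr P h h' (Ideal.mem_of_dvd _ e (mem_of_ord hP))]

omit [Algebra ℚ A] in
theorem pair_unit (φ : MaximalSpectrum A → A → ℝ) {f : A} (hf : IsUnit f) (h : A) :
    pair φ f h = 0 := by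
  unfold pair
  refine finsum_eq_zero_of_forall_eq_zero fun P => ?_
  have : ord P f = 0 := by
    by_contra hP
    exact P.isMaximal.ne_top (Ideal.eq_top_of_isUnit_mem _ (mem_of_ord hP) hf)
  simp [this]

theorem pair_poly (M : Quad ℚ A) {φ : MaximalSpectrum A → A → ℝ} (hφ : IsFn φ) (n : ℕ) :
    ∀ q G : ℚ[X], q.natDegree = n → q ≠ 0 → IsCoprime q G →
      pair φ (aeval M.x q) (aeval M.x G) = 0 := by
  induction n using Nat.strong_induction_on with
  | _ n ih =>
    intro q G hn hq hc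
    by_cases hu : IsUnit q
    · exact pair_unit φ (hu.map (aeval M.x)) _
    · have e : G - G % q = q * (G / q) := by
        have := EuclideanDomain.div_add_mod G q
        linear_combination -this
      have hc' : IsCoprime (G % q) q := by
        have : G % q = G + q * (-(G / q)) := by linear_combination -e
        rw [this]
        exact hc.symm.add_mul_left_left _
      have h0 : G % q ≠ 0 := fun h => hu (isCoprime_zero_left.1 (h ▸ hc'))
      rw [pair_congr hφ _ (h' := aeval M.x (G % q)) (by rw [← map_sub, e, map_mul]; simp),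
        hφ.recip _ _ (ev_ne M hq) (ev_ne M h0) (hc'.symm.map (aeval M.x : ℚ[X] →ₐ[ℚ] A).toRingHom)]
      exact ih _ (hn ▸ natDegree_lt_natDegree h0 (degree_mod_lt G hq)) _ _ rfl h0 hc'

theorem iota_ev (M : Quad ℚ A) (ι : A ≃ₐ[ℚ] A) (hx : ι M.x = M.x) (g : ℚ[X]) :
    ι (aeval M.x g) = aeval M.x g := by
  rw [← aeval_algHom_apply, hx]

theorem iota_iota (M : Quad ℚ A) (ι : A ≃ₐ[ℚ] A) (hx : ι M.x = M.x) (hy : ι M.y = -M.y) (a : A) :
    ι (ι a) = a := by
  obtain ⟨g, c, rfl⟩ := M.surj a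
  simp only [map_add, map_mul, iota_ev M ι hx, hy, map_neg, neg_neg]

theorem norm_ev (M : Quad ℚ A) (ι : A ≃ₐ[ℚ] A) (hx : ι M.x = M.x) (hy : ι M.y = -M.y) (a : A) :
    ∃ n : ℚ[X], aeval M.x n = a * ι a := by
  obtain ⟨g, c, rfl⟩ := M.surj a
  refine ⟨g ^ 2 - c ^ 2 * M.f, ?_⟩
  simp only [map_add, map_mul, map_sub, map_pow, iota_ev M ι hx, hy, ← M.rel]
  ring

end PSym

open PSym in
theorem p_sym (hA1 : S_A1) : S_Sym := by
  intro A _ _ M ι hx hy φ hφ P Q hPQ h
  classical
  obtain ⟨hD, -, -, hb, -⟩ := hA1 ℚ A M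
  have ii := iota_iota M ι hx hy
  have hQP : ∀ a, ι a ∈ P.asIdeal ↔ a ∈ Q.asIdeal := fun a => by rw [hPQ, ii]
  by_cases hh : h ∈ P.asIdeal
  · rw [hφ.zero P h hh, hφ.zero Q _ ((hPQ h).1 hh), neg_zero]
  have hPp := P.isMaximal.isPrime
  let J : Ideal ℚ[X] := P.asIdeal.comap (aeval M.x : ℚ[X] →ₐ[ℚ] A)
  have mJ : ∀ g, g ∈ J ↔ aeval M.x g ∈ P.asIdeal := fun g => Ideal.mem_comap
  have J0 : J ≠ ⊥ := by
    obtain ⟨a, ha, a0⟩ := (Submodule.ne_bot_iff _).1 (hb P)
    obtain ⟨n, hn⟩ := norm_ev M ι hx hy a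
    refine (Submodule.ne_bot_iff _).2 ⟨n, (mJ n).2 (hn ▸ Ideal.mul_mem_right _ _ ha), ?_⟩
    rintro rfl
    rw [map_zero] at hn
    exact mul_ne_zero a0 (by simpa using a0) hn.symm
  have Jp : J.IsPrime := Ideal.comap_isPrime _ _
  have Jm : J.IsMaximal := IsPrime.to_maximal_ideal J0
  obtain ⟨q, hq⟩ := (IsPrincipalIdealRing.principal J).principal
  have hq' : J = Ideal.span {q} := hq
  have q0 : q ≠ 0 := by
    rintro rfl
    exact J0 (by simpa using hq')
  have qP : aeval M.x q ∈ P.asIdeal := (mJ q).1 (hq' ▸ Ideal.mem_span_singleton_self q)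
  have van : ∀ a, a * ι a ∉ P.asIdeal → pair φ (aeval M.x q) (a * ι a) = 0 := by
    intro a ha
    obtain ⟨n, hn⟩ := norm_ev M ι hx hy a
    rw [← hn] at ha ⊢
    obtain ⟨y, i, hi, e⟩ := Jm.exists_inv fun h => ha ((mJ n).1 h)
    obtain ⟨z, rfl⟩ := Ideal.mem_span_singleton'.1 (hq' ▸ hi)
    exact pair_poly M hφ _ q n rfl q0 ⟨z, y, by rw [add_comm, e]⟩
  have ovr : ∀ R : MaximalSpectrum A, ord R (aeval M.x q) ≠ 0 → R = P ∨ R = Q := by
    intro R hR
    have hJ : J = R.asIdeal.comap (aeval M.x : ℚ[X] →ₐ[ℚ] A) :=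
      Jm.eq_of_le (Ideal.comap_ne_top _ R.isMaximal.ne_top)
        (by rw [hq', Ideal.span_singleton_le_iff_mem]; exact mem_of_ord hR)
    have : (R.asIdeal : Set A) ⊆ P.asIdeal ∪ Q.asIdeal := by
      intro a ha
      obtain ⟨n, hn⟩ := norm_ev M ι hx hy a
      have h1 : n ∈ J := by
        rw [hJ, Ideal.mem_comap, hn]
        exact Ideal.mul_mem_right _ _ ha
      rw [mJ, hn] at h1
      exact (hPp.mem_or_mem h1).imp id (hQP a).1
    rcases Ideal.subset_union.1 this with h1 | h1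
    · exact Or.inl (MaximalSpectrum.ext (R.isMaximal.eq_of_le P.isMaximal.ne_top h1))
    · exact Or.inr (MaximalSpectrum.ext (R.isMaximal.eq_of_le Q.isMaximal.ne_top h1))
  have pos : (ord P (aeval M.x q) : ℝ) ≠ 0 := by
    rw [Nat.cast_ne_zero]
    unfold ord
    rw [Ne, multiplicity_eq_zero, not_not, Ideal.dvd_iff_le, Ideal.span_singleton_le_iff_mem]
    exact qP
  have supp : ∀ G, Function.support (fun R => (ord R (aeval M.x q) : ℝ) * φ R G) ⊆
      ({P, Q} : Finset (MaximalSpectrum A)) := by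
    intro G R hR
    have : ord R (aeval M.x q) ≠ 0 := fun h => hR (by simp [h])
    simpa using ovr R this
  by_cases e : P = Q
  · subst e
    have h2 : ι h ∉ P.asIdeal := fun a => hh ((hPQ h).2 a)
    have := van h fun a => (hPp.mem_or_mem a).elim hh h2
    unfold pair at this
    rw [finsum_eq_sum_of_support_subset _ (supp _), Finset.pair_eq_singleton, Finset.sum_singleton,
      hφ.mul P _ _ hh h2] at this
    linarith [(mul_eq_zero.1 this).resolve_left pos]
  · have hs : P.asIdeal ⊔ Q.asIdeal = ⊤ :=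
      P.isMaximal.coprime_of_ne Q.isMaximal fun h => e (MaximalSpectrum.ext h)
    obtain ⟨p, hp, r, hr, e1⟩ := Submodule.mem_sup.1 (hs ▸ Submodule.mem_top : (1 : A) ∈ _)
    have a1 : h * r + p - h ∈ P.asIdeal := by
      have : h * r + p - h = (1 - h) * p := by linear_combination h * e1
      rw [this]
      exact Ideal.mul_mem_left _ _ hp
    have a2 : h * r + p - 1 ∈ Q.asIdeal := by
      have : h * r + p - 1 = (h - 1) * r := by linear_combination e1
      rw [this]
      exact Ideal.mul_mem_left _ _ hr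
    generalize h * r + p = h' at a1 a2
    have a3 : ι h' - 1 ∈ P.asIdeal := by simpa using (hQP _).2 a2
    have a4 : ι h' - ι h ∈ Q.asIdeal := by simpa using (hPQ _).1 a1
    have b1 : h' * ι h' - h ∈ P.asIdeal := by
      have : h' * ι h' - h = h' * (ι h' - 1) + (h' - h) := by ring
      rw [this]
      exact Ideal.add_mem _ (Ideal.mul_mem_left _ _ a3) a1
    have b2 : h' * ι h' - ι h ∈ Q.asIdeal := by
      have : h' * ι h' - ι h = ι h' * (h' - 1) + (ι h' - ι h) := by ring
      rw [this]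
      exact Ideal.add_mem _ (Ideal.mul_mem_left _ _ a2) a4
    have eo : ord Q (aeval M.x q) = ord P (aeval M.x q) := by
      have key : ∀ (I I' : Ideal A), (∀ a, a ∈ I → ι a ∈ I') → (∀ a, a ∈ I' → ι a ∈ I) → ∀ n : ℕ,
          I ^ n ∣ Ideal.span {aeval M.x q} → I' ^ n ∣ Ideal.span {aeval M.x q} := by
        intro I I' h1 h2 n hn
        have m1 : I.map ι = I' := by
          refine le_antisymm (Ideal.map_le_iff_le_comap.2 h1) fun a ha => ?_
          rw [← ii a]
          exact Ideal.mem_map_of_mem _ (h2 a ha)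
        rw [Ideal.dvd_iff_le, Ideal.span_singleton_le_iff_mem] at hn ⊢
        rw [← m1, ← Ideal.map_pow, ← iota_ev M ι hx q]
        exact Ideal.mem_map_of_mem _ hn
      unfold ord
      refine multiplicity_eq_of_emultiplicity_eq (emultiplicity_eq_emultiplicity_iff.2 fun n => ?_)
      exact ⟨key _ _ (fun a => (hQP a).2) (fun a => (hPQ a).1) n,
        key _ _ (fun a => (hPQ a).1) (fun a => (hQP a).2) n⟩
    have := van h' fun a => hh (by simpa using Ideal.sub_mem _ a b1)
    unfold pair at this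
    rw [finsum_eq_sum_of_support_subset _ (supp _), Finset.sum_pair e, eo, hφ.congr P _ _ b1,
      hφ.congr Q _ _ b2, ← mul_add] at this
    linarith [(mul_eq_zero.1 this).resolve_left pos]

end Pool.Agent.P.MP_b8021b_nt.VE
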