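import Pool.Agent.P.MP_b8021b_nt.VE.StN
import Pool.Agent.P.MP_b8021b_nt.VE.Leg0

/-! Package N14: symmetric ray class characters are trivial on ideals of norm close to one. -/

namespace Pool.Agent.P.MP_b8021b_nt.VE

open NumberField
open scoped ComplexConjugate

namespace SymA

/-- Hensel iteration -/
lemma hensel (n C : ℤ) (j : ℕ) : ∃ μ : ℤ, n ^ j ∣ μ + n * μ ^ 2 - C := by
  induction j with
  | zero => exact ⟨0, by simp⟩
  | succ j ih =>
    obtain ⟨μ, c, hc⟩ := ih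
    refine ⟨μ - (μ + n * μ ^ 2 - C), c * (n ^ j * c - 2 * μ), ?_⟩
    have : μ - (μ + n * μ ^ 2 - C) + n * (μ - (μ + n * μ ^ 2 - C)) ^ 2 - C =
        n * (μ + n * μ ^ 2 - C) * ((μ + n * μ ^ 2 - C) - 2 * μ) := by ring
    rw [this, hc]
    ring

/-- a point of the conic with nonzero second coordinate -/
lemma twist (d m X Y z : ℤ) (hm : 0 < m) (hz : z ≠ 0)
    (h : X ^ 2 + d * Y ^ 2 = m * z ^ 2) :
    ∃ X' Y' z' : ℤ, Y' ≠ 0 ∧ X' ^ 2 + d * Y' ^ 2 = m * z' ^ 2 := by
  by_cases hY : Y = 0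
  · subst hY
    have hX : X ≠ 0 := by
      rintro rfl
      have : 0 < m * z ^ 2 := by positivity
      simp at h
      omega
    refine ⟨X * (1 - d), 2 * X, z * (1 + d), by omega, ?_⟩
    linear_combination (1 + d) ^ 2 * h
  · exact ⟨X, Y, z, hY, h⟩

/-- weak approximation on the conic at the primes dividing `n` -/
lemma approx (n : ℕ) (d m X Y z : ℤ) (hn : n ≠ 0) (hd : 0 < d) (hm : (4 * n : ℤ) ∣ m - 1)
    (hY : Y ≠ 0) (h : X ^ 2 + d * Y ^ 2 = m * z ^ 2) :
    ∃ a b w : ℤ, a ^ 2 + d * b ^ 2 = m * w ^ 2 ∧ IsCoprime w (n : ℤ) ∧ (n : ℤ) ∣ a - w ∧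
      (n : ℤ) ∣ b := by
  obtain ⟨C, hC⟩ := hm
  set W : ℕ := (4 * d * Y ^ 2).natAbs with hW
  have hW0 : W ≠ 0 := Int.natAbs_ne_zero.2 (by positivity)
  obtain ⟨μ, e, he⟩ := hensel n C (W + 1)
  set ν : ℤ := 1 + 2 * n * μ with hν
  have hE : m - ν ^ 2 = (n : ℤ) ^ (W + 1) * (n * (-4 * e)) := by
    rw [hν]
    linear_combination hC - 4 * n * he
  set Q : ℤ := z * ν ^ 2 + 2 * X * ν + m * z with hQ
  set g : ℕ := Int.gcd Q ((n : ℤ) ^ (W + 1)) with hg
  have hg1 : (g : ℤ) ∣ Q := Int.gcd_dvd_left _ _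
  have hg2 : (g : ℤ) ∣ (n : ℤ) ^ (W + 1) := Int.gcd_dvd_right _ _
  have hn' : (n : ℤ) ≠ 0 := by exact_mod_cast hn
  have hg0 : g ≠ 0 := by
    intro h0
    rw [h0] at hg2
    exact pow_ne_zero _ hn' (zero_dvd_iff.1 (by exact_mod_cast hg2))
  have hνn : IsCoprime ν (n : ℤ) := ⟨1, -2 * μ, by rw [hν]; ring⟩
  have hgν : IsCoprime (g : ℤ) ν := (hνn.pow_right.of_isCoprime_of_dvd_right hg2).symm
  have hgE : (g : ℤ) ∣ m - ν ^ 2 := hE ▸ hg2.mul_right _
  have hgW : (g : ℤ) ∣ 4 * d * Y ^ 2 := by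
    refine hgν.dvd_of_dvd_mul_left ?_
    have : ν * (4 * d * Y ^ 2) = Q * (2 * z * ν - 2 * X) +
        (m - ν ^ 2) * (4 * z ^ 2 * ν - z * (2 * z * ν - 2 * X)) := by
      rw [hQ]
      linear_combination 4 * ν * h
    rw [this]
    exact (hg1.mul_right _).add (hgE.mul_right _)
  have hgW' : g ∣ W := by
    rw [hW]
    exact Int.natCast_dvd.1 hgW
  have hg3 : g ∣ n ^ W := by
    have h1 : g ∣ n ^ (W + 1) := by exact_mod_cast hg2
    have h2 : g ∣ n ^ g := (Nat.dvd_pow_self_iff hg0 hn).2 fun p hp => by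
      have hp' := Nat.mem_primeFactors.1 hp
      exact Nat.mem_primeFactors.2 ⟨hp'.1, hp'.1.dvd_of_dvd_pow (hp'.2.1.trans h1), hn⟩
    exact h2.trans (pow_dvd_pow _ (Nat.le_of_dvd (Nat.pos_of_ne_zero hW0) hgW'))
  obtain ⟨w, hw⟩ := hg1
  obtain ⟨f, hf⟩ := hg2
  have hg0' : (g : ℤ) ≠ 0 := by exact_mod_cast hg0
  have hE' : m - ν ^ 2 = g * (n * (f * (-4 * e))) := by rw [hE, hf]; ring
  refine ⟨ν * w + n * (f * (-4 * e)) * (z * ν + X), -(n * (f * (-4 * e)) * Y), w, ?_, ?_, ?_, ?_⟩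
  · have key : (ν * Q + (m - ν ^ 2) * (z * ν + X)) ^ 2 + d * (-((m - ν ^ 2) * Y)) ^ 2 =
        m * Q ^ 2 := by
      rw [hQ]
      linear_combination (m - ν ^ 2) ^ 2 * h
    rw [hE', hw] at key
    refine mul_left_cancel₀ (pow_ne_zero 2 hg0') ?_
    linear_combination key
  · rw [Int.isCoprime_iff_gcd_eq_one]
    by_contra hne
    obtain ⟨p, hp, hp1⟩ := Nat.exists_prime_and_dvd hne
    have hpw : (p : ℤ) ∣ w := (Int.natCast_dvd_natCast.2 hp1).trans (Int.gcd_dvd_left _ _)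
    have hpn : (p : ℤ) ∣ n := (Int.natCast_dvd_natCast.2 hp1).trans (Int.gcd_dvd_right _ _)
    have h1 : ((g * p : ℕ) : ℤ) ∣ Q := by
      rw [hw]
      push_cast
      exact mul_dvd_mul_left _ hpw
    have h2 : ((g * p : ℕ) : ℤ) ∣ (n : ℤ) ^ (W + 1) := by
      rw [pow_succ]
      push_cast
      exact mul_dvd_mul (by exact_mod_cast hg3) hpn
    have h3 : g * p ∣ g := Int.dvd_gcd h1 h2
    have h4 := Nat.le_of_dvd (Nat.pos_of_ne_zero hg0) h3
    have h5 := hp.two_le
    have h6 := Nat.pos_of_ne_zero hg0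
    nlinarith
  · refine ⟨2 * μ * w + f * (-4 * e) * (z * ν + X), ?_⟩
    rw [hν]
    ring
  · exact ⟨-(f * (-4 * e) * Y), by ring⟩

variable {L : Type} [Field L] [NumberField L]

lemma map_span (K : IQ L) (α : 𝓞 L) :
    (Ideal.span {α}).map K.c = Ideal.span {K.c α} := by
  rw [Ideal.map_span, Set.image_singleton]

lemma map_map (K : IQ L) (hc : ∀ β, K.c (K.c β) = β) (I : Ideal (𝓞 L)) :
    (I.map K.c).map K.c = I := by
  apply le_antisymm
  · rw [Ideal.map_le_iff_le_comap, Ideal.map_le_iff_le_comap]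
    intro x hx
    simpa [Ideal.mem_comap, hc] using hx
  · intro x hx
    rw [← hc x]
    exact Ideal.mem_map_of_mem _ (Ideal.mem_map_of_mem _ hx)

lemma map_dvd (K : IQ L) {I J : Ideal (𝓞 L)} (h : I ∣ J) : I.map K.c ∣ J.map K.c := by
  obtain ⟨M, rfl⟩ := h
  exact ⟨M.map K.c, Ideal.map_mul _ _ _⟩

/-- a symmetric character depends only on the norm -/
lemma eq_of_norm (K : IQ L) (hc : ∀ β, K.c (K.c β) = β)
    (hN : ∀ I : Ideal (𝓞 L), I * I.map K.c = Ideal.span {(Ideal.absNorm I : 𝓞 L)})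
    (χ : Ideal (𝓞 L) →* ℂ) (hs : K.Sym χ) (I J : Ideal (𝓞 L))
    (h : Ideal.absNorm I = Ideal.absNorm J) : χ I = χ J := by
  by_cases hI : I = ⊥
  · subst hI
    rw [Ideal.absNorm_bot, eq_comm, Ideal.absNorm_eq_zero_iff] at h
    rw [h]
  obtain ⟨I', J', h1, h2, h3⟩ := extract_gcd I J
  generalize gcd I J = G at h1 h2
  subst h1 h2
  have hG : G ≠ 0 := left_ne_zero_of_mul hI
  have hn : Ideal.absNorm I' = Ideal.absNorm J' := by
    rw [map_mul, map_mul] at h
    exact Nat.eq_of_mul_eq_mul_left (Nat.pos_of_ne_zero (Ideal.absNorm_eq_zero_iff.not.2 hG)) h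
  have he : I' * I'.map K.c = J' * J'.map K.c := by rw [hN, hN, hn]
  have hr : IsRelPrime I' J' := gcd_isUnit_iff_isRelPrime.1 h3
  have d1 : I' ∣ J'.map K.c := hr.dvd_of_dvd_mul_left ⟨_, he.symm⟩
  have d2 : J' ∣ I'.map K.c := hr.symm.dvd_of_dvd_mul_left ⟨_, he⟩
  have d3 : J'.map K.c ∣ I' := by simpa [map_map K hc] using map_dvd K d2
  have e : I' = J'.map K.c := associated_iff_eq.1 (associated_of_dvd_dvd d1 d3)
  rw [map_mul, map_mul, e, hs]

/-- an inert prime divides every norm to an even power -/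
lemma even_val (K : IQ L) (hc : ∀ β, K.c (K.c β) = β)
    (hN : ∀ I : Ideal (𝓞 L), I * I.map K.c = Ideal.span {(Ideal.absNorm I : 𝓞 L)})
    (p : ℕ) (hp : p.Prime) (hp2 : Ideal.absNorm (Ideal.span {(p : 𝓞 L)}) = p ^ 2)
    (h0 : ∀ I : Ideal (𝓞 L), Ideal.absNorm I ≠ p) (m : ℕ) :
    ∀ I : Ideal (𝓞 L), Ideal.absNorm I = m → m ≠ 0 → Even (m.factorization p) := by
  have hP0 : Ideal.span {(p : 𝓞 L)} ≠ ⊥ := by
    intro h
    rw [h, Ideal.absNorm_bot] at hp2
    exact pow_ne_zero 2 hp.ne_zero hp2.symm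
  have hP : Prime (Ideal.span {(p : 𝓞 L)}) := by
    have hT : Ideal.span {(p : 𝓞 L)} ≠ ⊤ := by
      intro h
      rw [h, Ideal.absNorm_top] at hp2
      have := hp.two_le
      nlinarith
    obtain ⟨M, hM, hle⟩ := Ideal.exists_le_maximal _ hT
    obtain ⟨J, hJ⟩ := Ideal.dvd_iff_le.2 hle
    have hd : Ideal.absNorm M ∣ p ^ 2 := by
      rw [← hp2, hJ, map_mul]
      exact dvd_mul_right _ _
    obtain ⟨i, hi, hi'⟩ := (Nat.dvd_prime_pow hp).1 hd
    have hM2 : Ideal.absNorm M = p ^ 2 := by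
      interval_cases i
      · exact absurd (Ideal.absNorm_eq_one_iff.1 (by simpa using hi')) hM.ne_top
      · exact absurd (by simpa using hi') (h0 M)
      · exact hi'
    have hJ1 : Ideal.absNorm J = 1 := by
      rw [hJ, map_mul, hM2] at hp2
      exact (Nat.mul_eq_left (pow_ne_zero 2 hp.ne_zero)).1 hp2
    rw [Ideal.absNorm_eq_one_iff.1 hJ1, Ideal.mul_top] at hJ
    exact Ideal.prime_of_isPrime hP0 (hJ ▸ hM.isPrime)
  induction m using Nat.strong_induction_on with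
  | _ m ih =>
    intro I hI hm
    by_cases hpm : p ∣ m
    · have h1 : Ideal.span {(p : 𝓞 L)} ∣ I * I.map K.c := by
        rw [hN, hI]
        exact Ideal.dvd_iff_le.2 (Ideal.span_singleton_le_span_singleton.2 (Nat.cast_dvd_cast hpm))
      have h2 : Ideal.span {(p : 𝓞 L)} ∣ I := by
        rcases hP.dvd_or_dvd h1 with h | h
        · exact h
        · simpa [map_map K hc, map_span] using map_dvd K h
      obtain ⟨I', rfl⟩ := h2
      rw [map_mul, hp2] at hI
      have hI' : Ideal.absNorm I' ≠ 0 := by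
        intro h
        rw [h] at hI
        exact hm hI.symm
      have hlt : Ideal.absNorm I' < m := by
        rw [← hI]
        exact lt_mul_of_one_lt_left (Nat.pos_of_ne_zero hI') (Nat.one_lt_pow two_ne_zero hp.one_lt)
      have := ih _ hlt I' rfl hI'
      rw [← hI, Nat.factorization_mul (pow_ne_zero 2 hp.ne_zero) hI', hp.factorization_pow]
      simpa [parity_simps] using this
    · rw [Nat.factorization_eq_zero_of_not_dvd hpm]
      exact Even.zero

/-- the angular type of a symmetric character vanishes -/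
lemma type_zero (s : ℂ) (hs : conj s = -s) (hs0 : s ≠ 0) (k : ℤ)
    (h : ∀ j : ℕ, dir (conj (1 + j * s)) ^ k = dir (1 + j * s) ^ k) : k = 0 := by
  by_contra hk
  have hne : ∀ j : ℕ, (1 : ℂ) - j * s ≠ 0 := by
    intro j hj
    have h1 := congrArg conj hj
    simp only [map_sub, map_one, map_mul, map_natCast, hs, map_zero] at h1
    have : (2 : ℂ) = 0 := by linear_combination hj + h1
    exact two_ne_zero this
  have hcj : ∀ j : ℕ, conj (1 + j * s) = 1 - j * s := by
    intro j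
    simp only [map_add, map_one, map_mul, map_natCast, hs]
    ring
  have hz : ∀ j : ℕ, ((1 + j * s) / (1 - j * s)) ^ k.natAbs = 1 := by
    intro j
    have h1 := h j
    have hr : ((‖1 - j * s‖ : ℝ) : ℂ) ≠ 0 := by exact_mod_cast norm_ne_zero_iff.2 (hne j)
    have hr' : ‖1 + j * s‖ = ‖1 - j * s‖ := by rw [← hcj, Complex.norm_conj]
    unfold dir at h1
    rw [hcj, hr', div_zpow, div_zpow, div_left_inj' (zpow_ne_zero _ hr)] at h1
    have h2 : ((1 + j * s) / (1 - j * s)) ^ k = 1 := by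
      rw [div_zpow, ← h1, div_self (zpow_ne_zero _ (hne j))]
    obtain ⟨m, rfl | rfl⟩ := k.eq_nat_or_neg
    · simpa using h2
    · simpa using h2
  have hinj : Function.Injective fun j : ℕ => (1 + j * s) / (1 - j * s) := by
    intro j j' e
    simp only at e
    rw [div_eq_div_iff (hne j) (hne j')] at e
    have : (2 * s) * ((j : ℂ) - j') = 0 := by linear_combination e
    have h3 := (mul_eq_zero.1 this).resolve_left (mul_ne_zero two_ne_zero hs0)
    exact_mod_cast sub_eq_zero.1 h3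
  refine Set.infinite_of_injective_forall_mem hinj
    (s := ((Polynomial.nthRoots k.natAbs (1 : ℂ)).toFinset : Set ℂ)) (fun j => ?_)
    (Finset.finite_toSet _)
  simp only [Finset.mem_coe, Multiset.mem_toFinset]
  exact (Polynomial.mem_nthRoots (Int.natAbs_pos.2 hk)).2 (hz j)

end SymA

open SymA in
theorem p_symA (hIQb : S_IQb) (hLeg : S_Leg) : S_SymA := by
  intro L _ _ K n k χ hn hD hχ hs
  obtain ⟨-, -, h3, h4, h5, hc, -, -, hN, -, -, -, hq⟩ := hIQb L K
  have hn0 : n ≠ 0 := by omega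
  have hk : k = 0 := by
    refine type_zero (n * K.σ K.ω) ?_ ?_ k fun j => ?_
    · have := h5 K.ω
      rw [K.cω] at this
      simp only [map_mul, map_natCast, ← this]
      simp
    · refine mul_ne_zero (by exact_mod_cast hn0) fun h0 => ?_
      have h1 := h4 0 1
      simp only [Int.cast_zero, Int.cast_one, one_mul, zero_add] at h1
      rw [h0] at h1
      simp at h1
      exact K.neg.ne h1
    · have e1 := hχ.prin (1 + j * (n * K.ω)) ⟨j * K.ω, by ring⟩
      have e2 := hχ.prin (K.c (1 + j * (n * K.ω))) ⟨-(j * K.ω), by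
        simp only [map_add, map_one, map_mul, map_natCast, K.cω]
        ring⟩
      rw [← map_span, hs, e1, h5] at e2
      simpa using e2.symm
  refine ⟨hk, fun I hI => ?_⟩
  subst hk
  have hone : ∀ α : 𝓞 L, (n : 𝓞 L) ∣ α - 1 → χ (Ideal.span {α}) = 1 := fun α h => by
    simpa using hχ.prin α h
  set m := Ideal.absNorm I with hm
  set d := K.D.natAbs with hd
  have hdD : (d : ℤ) = -K.D := by
    rw [hd]
    exact Int.ofNat_natAbs_of_nonpos K.neg.le
  have hd0 : 0 < d := Int.natAbs_pos.2 K.neg.ne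
  have hmz : ((8 * n ^ 2 : ℕ) : ℤ) ∣ (m : ℤ) - 1 := by
    have := (Nat.modEq_iff_dvd.1 hI.symm)
    simpa using this
  have hmn : (n : ℤ) ∣ (m : ℤ) - 1 := Dvd.dvd.trans ⟨8 * n, by push_cast; ring⟩ hmz
  have hcop : IsCoprime (m : ℤ) (n : ℤ) := by
    obtain ⟨c, hc⟩ := hmn
    exact ⟨1, -c, by linear_combination hc⟩
  have hm0 : m ≠ 0 := by
    intro h
    rw [h] at hcop
    have := Int.isUnit_iff.1 (isCoprime_zero_left.1 (by simpa using hcop))
    omega
  have hdn : (d : ℤ) ∣ n := by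
    rw [hdD]
    exact (dvd_mul_left _ _).neg_left.trans hD
  have hint : ∀ w : ℤ, Ideal.absNorm (Ideal.span {(w : 𝓞 L)}) = w.natAbs ^ 2 := by
    intro w
    have h1 := h3 w
    have h2 := h4 w 0
    simp only [Int.cast_zero, zero_mul, add_zero] at h2
    rw [h2] at h1
    have : ((Ideal.absNorm (Ideal.span {(w : 𝓞 L)}) : ℤ) : ℝ) = ((w.natAbs ^ 2 : ℕ) : ℤ) := by
      push_cast
      rw [h1, sq_abs]
      ring
    exact_mod_cast this
  obtain ⟨x, y, hxy⟩ := legendre_norm m d (Nat.pos_of_ne_zero hm0) hd0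
    (Nat.isCoprime_iff_coprime.1 (hcop.of_isCoprime_of_dvd_right hdn)) (fun p hp hodd => by
      by_contra hns
      have hpm : p ∣ m := by
        by_contra h
        rw [Nat.factorization_eq_zero_of_not_dvd h] at hodd
        exact absurd hodd (by decide)
      have hpD : ¬ (p : ℤ) ∣ 2 * K.D := fun h => by
        have := hcop.isUnit_of_dvd' (Int.natCast_dvd_natCast.2 hpm) (h.trans hD)
        have h2 := hp.two_le
        rcases Int.isUnit_iff.1 this with h | h <;> omega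
      have := Fact.mk hp
      have hj : jacobiSym K.D p = -1 := by
        rw [← jacobiSym.legendreSym.to_jacobiSym, legendreSym.eq_neg_one_iff]
        have : ((K.D : ℤ) : ZMod p) = -(d : ZMod p) := by
          rw [show K.D = -(d : ℤ) by omega]
          push_cast
          rfl
        rwa [this]
      have h0 := hq p hp hpD
      rw [hj, add_neg_cancel, Nat.cast_eq_zero,
        Set.ncard_eq_zero (Ideal.finite_setOfPred_absNorm_eq p)] at h0
      have hev := even_val K hc hN p hp (by simpa using hint p)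
        (fun J hJ => (Set.eq_empty_iff_forall_notMem.1 h0 J) hJ) m I rfl hm0
      exact (Nat.not_even_iff_odd.2 hodd) hev) (by
      have : (m : ZMod d) = 1 := by
        have h1 := (ZMod.intCast_zmod_eq_zero_iff_dvd _ _).2 (hdn.trans hmn)
        push_cast at h1
        exact sub_eq_zero.1 h1
      rw [this]
      exact IsSquare.one)
  have hint2 : (x.num * y.den) ^ 2 + (d : ℤ) * (y.num * x.den) ^ 2 =
      (m : ℤ) * (x.den * y.den) ^ 2 := by
    have ex : (x.num : ℚ) = x * x.den := (Rat.mul_den_eq_num x).symm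
    have ey : (y.num : ℚ) = y * y.den := (Rat.mul_den_eq_num y).symm
    have : (((x.num * y.den) ^ 2 + d * (y.num * x.den) ^ 2 : ℤ) : ℚ) =
        ((m * (x.den * y.den) ^ 2 : ℤ) : ℚ) := by
      push_cast
      rw [ex, ey, hxy]
      ring
    exact_mod_cast this
  obtain ⟨X, Y, z, hY, hXY⟩ := twist d m _ _ _
    (by exact_mod_cast Nat.pos_of_ne_zero hm0)
    (mul_ne_zero (by exact_mod_cast x.den_ne_zero) (by exact_mod_cast y.den_ne_zero)) hint2
  obtain ⟨a, b, w, hab, ⟨u, v, huv⟩, ⟨a', ha⟩, ⟨b', hb⟩⟩ := approx n d m X Y z hn0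
    (by exact_mod_cast hd0) (Dvd.dvd.trans ⟨2 * n, by push_cast; ring⟩ hmz) hY hXY
  have hnorm : Ideal.absNorm (Ideal.span {((a : 𝓞 L) + b * K.ω : 𝓞 L)}) =
      Ideal.absNorm (I * Ideal.span {(w : 𝓞 L)}) := by
    rw [map_mul, hint, ← hm]
    have h1 := h3 ((a : 𝓞 L) + b * K.ω)
    rw [h4] at h1
    have h2 : (a : ℝ) ^ 2 + (d : ℤ) * (b : ℝ) ^ 2 = (m : ℤ) * (w : ℝ) ^ 2 := by exact_mod_cast hab
    rw [hdD] at h2
    have : ((Ideal.absNorm (Ideal.span {((a : 𝓞 L) + b * K.ω : 𝓞 L)}) : ℤ) : ℝ) =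
        ((m * w.natAbs ^ 2 : ℕ) : ℤ) := by
      push_cast at h2 ⊢
      rw [h1, sq_abs]
      linear_combination h2
    exact_mod_cast this
  have e1 := eq_of_norm K hc hN χ hs _ _ hnorm
  have huv' : (u : 𝓞 L) * w + v * n = 1 := by exact_mod_cast congrArg (Int.cast : ℤ → 𝓞 L) huv
  have ha' : (a : 𝓞 L) - w = n * a' := by exact_mod_cast congrArg (Int.cast : ℤ → 𝓞 L) ha
  have hb' : (b : 𝓞 L) = n * b' := by exact_mod_cast congrArg (Int.cast : ℤ → 𝓞 L) hb
  have e2 := hone (((a : 𝓞 L) + b * K.ω) * u)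
    ⟨(a' + b' * K.ω) * u - v, by linear_combination u * ha' + K.ω * u * hb' + huv'⟩
  have e3 := hone ((w : 𝓞 L) * u) ⟨-v, by linear_combination huv'⟩
  rw [← Ideal.span_singleton_mul_span_singleton, map_mul] at e2 e3
  rw [e1, map_mul, mul_assoc, e3, mul_one] at e2
  exact e2

end Pool.Agent.P.MP_b8021b_nt.VE
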