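import Pool.Agent.P.MP_b8021b_nt.VE.StN

/-! N15a: symmetric characters factor through the norm. -/

namespace Pool.Agent.P.MP_b8021b_nt.VE

open NumberField

namespace PSymB

theorem ext_char {A : Type} [CommMonoid A] {m : ℕ} [NeZero m] (f : A →* ZMod m) (χ : A →* ℂ)
    (h0 : ∀ a, ¬ IsUnit (f a) → χ a = 0) (h1 : ∀ a, f a = 1 → χ a = 1) :
    ∃ η : DirichletCharacter ℂ m, ∀ a, χ a = η (f a) := by
  obtain ⟨e, he⟩ : ∃ e, Nat.card (ZMod m)ˣ = e + 1 :=
    Nat.exists_eq_succ_of_ne_zero Nat.card_pos.ne'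
  have pw : ∀ x : ZMod m, IsUnit x → x ^ (e + 1) = 1 := by
    rintro _ ⟨u, rfl⟩
    rw [← Units.val_pow_eq_pow_val, ← he, pow_card_eq_one', Units.val_one]
  have wd : ∀ a b, f a = f b → χ a = χ b := by
    intro a b h
    by_cases hu : IsUnit (f b)
    · have a1 := h1 (a * b ^ e) (by rw [map_mul, map_pow, h, ← pow_succ', pw _ hu])
      have a2 := h1 (b ^ (e + 1)) (by rw [map_pow, pw _ hu])
      rw [map_mul, map_pow] at a1
      rw [map_pow, pow_succ] at a2
      linear_combination χ b * a1 - χ a * a2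
    · rw [h0 b hu, h0 a (h ▸ hu)]
  let s : MonoidHom.mrange f → A := fun x => x.2.choose
  have hs : ∀ x, f (s x) = x.1 := fun x => x.2.choose_spec
  let ψ : MulChar (MonoidHom.mrange f) ℂ :=
    { toFun := fun x => χ (s x)
      map_one' := h1 _ (hs 1)
      map_mul' := fun x y => by
        rw [← map_mul]
        exact wd _ _ (by rw [map_mul, hs, hs, hs]; rfl)
      map_nonunit' := fun x hx => h0 _ fun hu => hx
        (IsUnit.of_pow_eq_one (Subtype.ext (pw _ (hs x ▸ hu))) e.succ_ne_zero) }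
  obtain ⟨η, hη⟩ := MulChar.domRestrictHom_surjective (ZMod m) ℂ (MonoidHom.mrange f) ψ
  refine ⟨η, fun a => ?_⟩
  by_cases hu : IsUnit (f a)
  · have hx : IsUnit (⟨f a, a, rfl⟩ : MonoidHom.mrange f) :=
      IsUnit.of_pow_eq_one (Subtype.ext (pw _ hu)) e.succ_ne_zero
    have e1 : ψ ⟨f a, a, rfl⟩ = χ a := wd _ _ (hs _)
    rw [← e1, ← hη, MulChar.domRestrictHom_apply, MulChar.domRestrict_apply, if_pos hx]
  · rw [h0 a hu, MulChar.map_nonunit _ hu]

variable {L : Type} [Field L] [NumberField L]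

theorem cop_iff (n : ℕ) (I : Ideal (𝓞 L)) : Cop n I ↔ (Ideal.absNorm I).Coprime n := by
  unfold Cop
  constructor
  · intro h
    by_contra hc
    obtain ⟨p, hp, h1, h2⟩ := Nat.Prime.not_coprime_iff_dvd.1 hc
    by_cases hI : I = ⊥
    · subst hI
      rw [← Ideal.zero_eq_bot, isCoprime_zero_left, Ideal.isUnit_iff, ← Ideal.absNorm_eq_one_iff,
        Ideal.absNorm_span_natCast, Nat.pow_eq_one] at h
      rcases h with h | h
      · exact hp.one_lt.ne' (Nat.dvd_one.1 (h ▸ h2))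
      · exact Module.finrank_pos.ne' h
    · obtain ⟨P, hP, hu, hd⟩ := Ideal.exists_isMaximal_dvd_of_dvd_absNorm' hp I h1
      have m1 : (p : 𝓞 L) ∈ P := by
        have : (p : ℤ) ∈ P.under ℤ := hu ▸ Ideal.mem_span_singleton_self _
        simpa using Ideal.mem_comap.1 this
      have m2 : Ideal.span {(n : 𝓞 L)} ≤ P := by
        rw [Ideal.span_singleton_le_iff_mem]
        exact Ideal.mem_of_dvd _ (Nat.cast_dvd_cast h2) m1
      rw [Ideal.isCoprime_iff_sup_eq] at h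
      exact hP.ne_top (top_le_iff.1 (h ▸ sup_le (Ideal.le_of_dvd hd) m2))
  · intro h
    obtain ⟨a, b, e⟩ := Nat.Coprime.cast (R := 𝓞 L) h
    rw [Ideal.isCoprime_iff_exists]
    exact ⟨_, Ideal.mul_mem_left _ a (Ideal.absNorm_mem I), _,
      Ideal.mul_mem_left _ b (Ideal.mem_span_singleton_self _), e⟩

theorem jac (D : ℤ) (n : ℕ) (hn : 3 ≤ n) (hD : 2 * D ∣ n) (hd : Module.finrank ℚ L = 2)
    (hc : ∀ q : ℕ, q.Prime → ¬ (q : ℤ) ∣ 2 * D →
      (Set.ncard {I : Ideal (𝓞 L) | Ideal.absNorm I = q} : ℤ) = 1 + jacobiSym D q)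
    (I : Ideal (𝓞 L)) : (Ideal.absNorm I).Coprime n → jacobiSym D (Ideal.absNorm I) = 1 := by
  refine UniqueFactorizationMonoid.induction_on_prime I ?_ ?_ ?_
  · intro h
    simp at h
    omega
  · intro J hJ _
    rw [Ideal.isUnit_iff.1 hJ, Ideal.absNorm_top, jacobiSym.one_right]
  · intro J P hJ hP ih h
    rw [map_mul] at h ⊢
    have hP0 : P ≠ ⊥ := hP.ne_zero
    have hPm : P.IsMaximal := (Ideal.isPrime_of_prime hP).isMaximal hP0
    rw [jacobiSym.mul_right' _ (mt Ideal.absNorm_eq_zero_iff.1 hP0)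
      (mt Ideal.absNorm_eq_zero_iff.1 hJ), ih (Nat.Coprime.coprime_mul_left h), mul_one]
    obtain ⟨q, f, hf, hq, qp, e⟩ := Ideal.exists_prime_and_absNorm_eq_pow P
    have hqn : q.Coprime n :=
      Nat.Coprime.coprime_dvd_left (e ▸ dvd_pow_self q hf.ne') (Nat.Coprime.coprime_mul_right h)
    have nd : ¬ (q : ℤ) ∣ 2 * D := fun a =>
      (Nat.Prime.coprime_iff_not_dvd qp).1 hqn (Int.natCast_dvd_natCast.1 (a.trans hD))
    have g : D.gcd q = 1 := by
      rw [Int.gcd_comm]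
      exact Int.isCoprime_iff_gcd_eq_one.1 ((Nat.prime_iff_prime_int.1 qp).irreducible.coprime_iff_not_dvd.2
        fun a => nd (a.mul_left 2))
    have le : q ^ f ∣ q ^ 2 := by
      have := Ideal.absNorm_dvd_absNorm_of_le ((Ideal.span_singleton_le_iff_mem P).2 hq)
      rwa [Ideal.absNorm_span_natCast, RingOfIntegers.rank, hd, e] at this
    have f2 : f ≤ 2 := (Nat.pow_dvd_pow_iff_le_right qp.one_lt).1 le
    rw [e, jacobiSym.pow_right]
    obtain rfl | rfl : f = 1 ∨ f = 2 := by omega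
    · have h1 := hc q qp nd
      have h2 : 0 < Set.ncard {I : Ideal (𝓞 L) | Ideal.absNorm I = q} :=
        (Set.ncard_pos (Ideal.finite_setOfPred_absNorm_eq q)).2 ⟨P, by simpa using e⟩
      rcases jacobiSym.eq_one_or_neg_one g with h3 | h3
      · rw [h3, one_pow]
      · omega
    · exact jacobiSym.sq_one g

end PSymB

theorem p_symB (hIQb : S_IQb) (hSymA : S_SymA) : S_SymB := by
  intro L _ _ K n hn hD
  obtain ⟨-, -, -, -, -, -, -, -, -, -, -, -, hc⟩ := hIQb L K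
  refine ⟨fun I h => PSymB.jac K.D n hn hD K.deg hc I ((PSymB.cop_iff n I).1 h), PSymB.cop_iff n,
    fun k χ h1 h2 => ?_⟩
  have : NeZero (8 * n ^ 2) := ⟨by positivity⟩
  have h8 : 2 ∣ n := Int.natCast_dvd_natCast.1 ((dvd_mul_right 2 K.D).trans hD)
  refine PSymB.ext_char
    ((Nat.castRingHom (ZMod (8 * n ^ 2))).toMonoidHom.comp
      (Ideal.absNorm : Ideal (𝓞 L) →*₀ ℕ).toMonoidHom) χ (fun I h => ?_) fun I h => ?_
  · refine h1.zero I fun a => h ?_
    rw [PSymB.cop_iff] at a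
    refine (ZMod.isUnit_iff_coprime _ _).2 (Nat.Coprime.mul_right ?_ (a.pow_right 2))
    exact (a.coprime_dvd_right h8).pow_right 3
  · refine (hSymA L K n k χ hn hD h1 h2).2 I ((ZMod.natCast_eq_natCast_iff _ _ _).1 ?_)
    rw [Nat.cast_one]
    exact h

end Pool.Agent.P.MP_b8021b_nt.VE
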