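import Pool.Agent.P.MP_b8021b_nt.VE.PTail1

/-!
The tail step: the exceptional mass is squared at the cost of a constant factor in the tolerance.
-/

namespace Pool.Agent.P.MP_b8021b_nt.VE

open Finset Tail
open scoped Classical

namespace Tail

theorem two_bad {u : ℕ} {c ψ : Fin (u + 2) → ℝ} {A l₁ l₃ : ℝ} (h1 : 0 ≤ l₁) (h3 : 0 ≤ l₃)
    (e : ∑ i, c i = ∑ i, ψ i + A) (hA : |A| ≤ l₁) (h : l₁ + (u + 1) * (l₃ + l₁) < |c 0 - ψ 0|) :
    (l₃ < |c 0| ∨ l₁ < |ψ 0|) ∧ ∃ i, i ≠ 0 ∧ (l₃ < |c i| ∨ l₁ < |ψ i|) := by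
  have k : ∀ i, ¬ (l₃ < |c i| ∨ l₁ < |ψ i|) → |c i - ψ i| ≤ l₃ + l₁ := fun i hi =>
    (abs_sub _ _).trans (add_le_add (not_lt.1 (not_or.1 hi).1) (not_lt.1 (not_or.1 hi).2))
  have hu : (0 : ℝ) ≤ u := Nat.cast_nonneg u
  constructor
  · by_contra hn
    nlinarith [k 0 hn]
  · by_contra hn
    have h4 : c 0 - ψ 0 = A - ∑ i : Fin (u + 1), (c i.succ - ψ i.succ) := by
      rw [Fin.sum_univ_succ c, Fin.sum_univ_succ ψ] at e
      rw [sum_sub_distrib]; linarith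
    have h5 : |∑ i : Fin (u + 1), (c i.succ - ψ i.succ)| ≤ (u + 1) * (l₃ + l₁) :=
      (abs_sum_le_sum_abs _ _).trans ((sum_le_sum fun i _ =>
        k i.succ fun hi => hn ⟨i.succ, Fin.succ_ne_zero i, hi⟩).trans_eq (by
          rw [sum_const, card_univ, Fintype.card_fin, nsmul_eq_mul]; push_cast; ring))
    rw [h4] at h
    linarith [abs_sub A (∑ i : Fin (u + 1), (c i.succ - ψ i.succ))]

theorem some_bad {u : ℕ} {c ψ : Fin (u + 2) → ℝ} {A l₁ : ℝ}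
    (e : ∑ i, c i = ∑ i, ψ i + A) (hA : |A| ≤ l₁) (h : (u + 3) * l₁ < |∑ i, c i|) :
    ∃ i, l₁ < |ψ i| := by
  by_contra hn
  have h5 : |∑ i, ψ i| ≤ (u + 2) * l₁ :=
    (abs_sum_le_sum_abs _ _).trans ((sum_le_sum fun i _ =>
      not_lt.1 fun hi => hn ⟨i, hi⟩).trans_eq (by simp))
  rw [e] at h
  linarith [abs_add_le (∑ i, ψ i) A]

theorem arith {u c₀ CL C₀ K h ρ ε' : ℝ} (hu : 0 ≤ u) (hc : 0 < c₀) (h1 : 1 ≤ CL) (h2 : 1 ≤ C₀)
    (h3 : 0 ≤ ρ) (h4 : ρ ≤ 1)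
    (h5 : ρ ≤ ε' * c₀ / (16 * ((u + 1) * (2 * CL + 2 * C₀) * (2 * K ^ 2) + 4 * (u + 1) + 7))) :
    16 * ((u + 1) * (CL * (K * (h + ρ) * (K * (h + ρ))) + ρ ^ 2 +
      (CL * (K * (h + ρ) * (K * (h + ρ))) + ρ ^ 2) +
      2 * (C₀ * (K * (h + ρ) * (K * (h + ρ))) + ρ ^ 2)) + 3 * ρ ^ 2 + 3 * ρ ^ 2 + ρ ^ 2) / c₀ ≤
    16 * ((u + 1) * (2 * CL + 2 * C₀) * (2 * K ^ 2)) / c₀ * h ^ 2 + ε' := by
  rw [le_div_iff₀ (by positivity)] at h5
  have e : ∀ Y : ℝ, (Y / c₀ * h ^ 2 + ε') * c₀ = Y * h ^ 2 + ε' * c₀ := fun Y => by field_simp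
  rw [div_le_iff₀ hc, e]
  have k1 : ρ ^ 2 ≤ ρ := by nlinarith
  have k2 : (h + ρ) ^ 2 ≤ 2 * h ^ 2 + 2 * ρ := by nlinarith [sq_nonneg (h - ρ)]
  have k3 := mul_le_mul_of_nonneg_left k2
    (by positivity : 0 ≤ (u + 1) * (2 * CL + 2 * C₀) * K ^ 2)
  have k4 := mul_le_mul_of_nonneg_left k1 (by positivity : 0 ≤ 4 * (u + 1) + 7)
  nlinarith

end Tail

theorem p_tail (hCnt : S_Cnt) (hTK : S_TK) (hOne : S_One) (hCond : S_Cond) (hLoc : S_Loc)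
    (hL2 : S_L2) (hLocT : S_LocT) (hSA : S_SA) : S_Tail := by
  intro u d hu
  obtain ⟨c₀, C₀, hc₀, hC₀, hH⟩ := hCnt.2.2.2.2.2 u hu
  obtain ⟨CT, hCT, hTK⟩ := hTK
  obtain ⟨Cc, hCc, hCond⟩ := hCond u hu
  obtain ⟨CL, ε₀, hCL, hε₀, hL2⟩ := hL2 u hu
  obtain ⟨C₂, hT, hC₂, hhT, hLocT⟩ := hLocT u hu
  obtain ⟨C₁, hS, N₀, hC₁, hhS, hSA⟩ := hSA u d hu
  have hu0 : (0 : ℝ) ≤ u := Nat.cast_nonneg u
  obtain ⟨K₁, hK₁⟩ : ∃ K₁, K₁ = CT + C₁ + 1 := ⟨_, rfl⟩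
  obtain ⟨K₂, hK₂⟩ : ∃ K₂, K₂ = (u + 2) * (Cc * K₁ + 1) := ⟨_, rfl⟩
  obtain ⟨K, hK⟩ : ∃ K, K = C₂ * (K₂ + 1) := ⟨_, rfl⟩
  obtain ⟨CA, hCA⟩ : ∃ CA, CA = C₁ + (u + 1) * (C₂ * ((u + 3) * C₁) + C₁) := ⟨_, rfl⟩
  obtain ⟨CB, hCB⟩ : ∃ CB, CB = 16 * ((u + 1) * (2 * CL + 2 * C₀) * (2 * K ^ 2)) / c₀ := ⟨_, rfl⟩
  have k1 : 1 ≤ K₁ := by linarith
  have k2 : K₁ ≤ K₂ := by nlinarith [mul_le_mul_of_nonneg_right hCc (by linarith : 0 ≤ K₁)]
  have k3 : K₁ ≤ K := by nlinarith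
  have kA : 1 ≤ CA := by
    have : 0 ≤ (u + 1) * (C₂ * ((u + 3) * C₁) + C₁) := by positivity
    linarith
  have kB : 0 ≤ CB := by rw [hCB]; positivity
  have k2' : 0 < K₂ := by linarith
  refine ⟨CA + CB, min hS (hT / (2 * K₂)), N₀, by linarith, by positivity, fun Nc hNc ε' hε' => ?_⟩
  obtain ⟨ρ, r0, r1, r2, r3, r4, r5, r6⟩ : ∃ ρ : ℝ, 0 < ρ ∧ ρ ≤ 1 ∧ ρ ≤ ε₀ ∧ ρ ≤ hT ∧
      ρ ≤ 1 / CL ∧ ρ ≤ hT / (2 * K₂) ∧
      ρ ≤ ε' * c₀ / (16 * ((u + 1) * (2 * CL + 2 * C₀) * (2 * K ^ 2) + 4 * (u + 1) + 7)) :=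
    ⟨min 1 (min ε₀ (min hT (min (1 / CL) (min (hT / (2 * K₂))
      (ε' * c₀ / (16 * ((u + 1) * (2 * CL + 2 * C₀) * (2 * K ^ 2) + 4 * (u + 1) + 7))))))),
      by positivity, by simp, by simp, by simp, by simp, by simp, by simp⟩
  have hδ : 0 < ρ ^ 2 := by positivity
  have hδρ : ρ ^ 2 ≤ ρ := by nlinarith
  obtain ⟨ε₁, e1, hSA⟩ := hSA Nc hNc _ hδ
  obtain ⟨ε₂, e2, hCond⟩ := hCond _ hδ
  obtain ⟨ε₃, e3, hLoc⟩ := hLoc u hu 1 _ hδ
  obtain ⟨ε₄, e4, hOne⟩ := hOne u hu _ hδ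
  obtain ⟨ε, e0, l1, l2, l3, l4, l5⟩ : ∃ ε : ℝ, 0 < ε ∧ ε ≤ ε₁ ∧ ε ≤ ε₂ ∧ ε ≤ ε₃ ∧ ε ≤ ε₄ ∧
      ε ≤ 1 / (12 * (u + 2)) := ⟨min ε₁ (min ε₂ (min ε₃ (min ε₄ (1 / (12 * (u + 2)))))),
      by positivity, by simp, by simp, by simp, by simp, by simp⟩
  refine ⟨ε, e0, fun P X T S _ _ _ _ G hG a lam h hlam hh ⟨ha, hPT⟩ => ?_⟩
  have hD := hG.des
  have hb := hD.base
  have l6 : ε ≤ 1 / 2 := l5.trans (one_div_le_one_div_of_le two_pos (by linarith))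
  have hN : 12 * (u + 2) ≤ G.b.N := by
    have := hb.Npos.trans (mul_le_mul_of_nonneg_right l5 (Nat.cast_nonneg _))
    rw [one_div_mul_eq_div, le_div_iff₀ (by positivity), one_mul] at this
    exact_mod_cast this
  obtain ⟨-, -, hP1, hHh⟩ := hH _ hN
  have h0 : 0 ≤ h :=
    (sum_nonneg fun t _ => sum_nonneg fun x _ => flag_nonneg hb hD.sT x t).trans hPT
  have hρ : 0 < h + ρ := by linarith
  obtain ⟨Gd, g1, g2⟩ := hSA P X T S G (ok_mono hG l1) a lam h hlam (hh.trans (min_le_left _ _))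
    ⟨ha, hPT⟩
  choose! φ₀ κ g2 g3 using g2
  let c : X → T → ℝ := fun x t => G.c₁ x t - a x
  let ψ : S → X → ℝ := fun s x =>
    G.c₂ x s - a x + G.β / (u + 2) - φ₀ s - κ s * G.b.v (G.b.pr x)
  have hc : ∀ x t, G.σT.on x t → c (G.b.ι x) t = -c x t := fun x t k => by
    simp only [c, hG.anti x t k, ha]; ring
  have heq : ∀ t s x, G.μ t s x ≠ 0 → ∑ i, c (x i) t = ∑ i, ψ s (x i) +
      (G.A s (G.box.τ t) + (u + 2) * φ₀ s + κ s * G.Lg d s t) := fun t s x e => by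
    simp only [c, ψ, sum_sub_distrib, sum_add_distrib, ← mul_sum, hG.size t s x e, hG.eqn t s x e,
      sum_const, card_univ, Fintype.card_fin, nsmul_eq_mul]
    push_cast
    field_simp
    ring
  have g2' : ∀ s ∈ Gd, (∑ x, G.σS.m G.b s x * ind (C₁ * lam < |ψ s x|)) / G.b.N ≤ C₁ * h + ρ ^ 2 :=
    fun s hs => by rw [← sum_ind]; exact g2 s hs
  have hK1 : C₁ * h + ρ ^ 2 + CT * ρ ≤ K₁ * (h + ρ) := by nlinarith
  have hK1' : C₁ * h + ρ ^ 2 ≤ K * (h + ρ) := by nlinarith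
  -- the flag mass of the bad pairs on the section side
  have f1 : Fl G.σS G.b (fun s x => s ∉ Gd ∨ C₁ * lam < |ψ s x|) ≤ K₁ * (h + ρ) := by
    refine (fl_mono hb hD.sS (E' := fun s x => s ∈ Gd ∧ C₁ * lam < |ψ s x|)
      (E'' := fun s _ => s ∉ Gd) fun s x _ k => by tauto).trans (le_trans (add_le_add
        (fl_le hD.sS _ _ (by positivity) g2') ?_) hK1)
    have k := (hTK P X S G.b G.σS ε (by linarith) hb hD.sS).2.2 (univ.filter (· ∉ Gd))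
    rw [sum_ind] at k
    simp only [Fl, ← sum_mul]
    refine k.trans (mul_le_mul_of_nonneg_left ?_ (by linarith))
    exact (Real.sqrt_le_sqrt g1).trans_eq (Real.sqrt_sq r0.le)
  have f2 := hCond P X S T G.b G.σS G.σT _ (des_swap (des_mono hD l2))
    (fun s x => s ∉ Gd ∨ C₁ * lam < |ψ s x|) _ (by simp only [sum_ind]; exact f1)
  obtain ⟨GT, t1, t2, t3⟩ := hLoc P X S T Unit G.b G.σS G.σT _ (fun _ => ()) (by simp)
    (des_swap (des_mono hD l3)) (cellInd_unit (side_mono hD.sS l3))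
  obtain ⟨GS, s1, s2, s3⟩ := hLoc P X T S Unit G.b G.σT G.σS _ (fun _ => ()) (by simp)
    (des_mono hD l3) (cellInd_unit (side_mono hD.sT l3))
  have lT := fun t ht => hL2 X S Unit _ _ _ _ _ _ (hδρ.trans r2) (t3 t ht).2
  have lS := fun s hs => hL2 X T Unit _ _ _ _ _ _ (hδρ.trans r2) (s3 s hs).2
  have hCLρ : CL * ρ ^ 2 ≤ 1 := by
    rw [le_div_iff₀ (by linarith)] at r4
    nlinarith
  let BT : T → Prop := fun t => G.σT.wt t * (Cc * (K₁ * (h + ρ)) + ρ ^ 2) <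
    ∑ s, ∑ x, G.μ t s x * ind (s ∉ Gd ∨ C₁ * lam < |ψ s (x 0)|)
  have f3 : ∑ t, G.σT.wt t * ind (BT t) ≤ ρ ^ 2 := by simpa only [sum_ind] using f2
  -- rigidity on the good fibres
  have f4 : ∀ t, t ∈ GT ∧ ¬ BT t → (∑ x, G.σT.m G.b t x *
      ind (C₂ * ((u + 3) * (C₁ * lam)) < |c x t|)) / G.b.N ≤ K * (h + ρ) := fun t ⟨ht, ht'⟩ => by
    have hw := (t3 t ht).1
    have k := hLocT X S _ _ _ _ _ (K₂ * (h + ρ)) ((u + 3) * (C₁ * lam)) G.b.ι (fun x => c x t)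
      (hδρ.trans r3) (by
        have := hh.trans (min_le_right _ _)
        rw [le_div_iff₀ (by positivity)] at this r5
        linarith) (by positivity) (t3 t ht).2 hb.ι_ι (fun x => by rw [hb.pr_ι]) (fun x => by
        have : G.σT.on (G.b.ι x) t ↔ G.σT.on x t :=
          ⟨fun k => hb.ι_ι x ▸ hG.box.inv _ _ k, hG.box.inv x t⟩
        simp only [Side.m, this, hb.pr_ι])
      (fun x hx => hc x t (by by_contra hn; exact hx (if_neg hn))) (by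
        simp only [sum_ind, div_mul_eq_mul_div, ← sum_div, div_le_iff₀ hw]
        have k1 : ∑ s, ∑ x, G.μ t s x * ind ((u + 3) * (C₁ * lam) < |∑ i, c (x i) t|) ≤
            ∑ s, ∑ i : Fin (u + 2), ∑ x, G.μ t s x * ind (s ∉ Gd ∨ C₁ * lam < |ψ s (x i)|) := by
          refine sum_le_sum fun s _ => ?_
          rw [sum_comm]
          refine sum_le_sum fun x _ => ?_
          rw [← mul_sum]
          by_cases e : G.μ t s x = 0
          · simp [e]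
          refine mul_le_mul_of_nonneg_left (ind_le_of (sum_nonneg fun i _ => ind_nonneg _)
            fun k => ?_) (hD.mix.tup.nonneg t s x)
          obtain ⟨i, hi⟩ : ∃ i, s ∉ Gd ∨ C₁ * lam < |ψ s (x i)| := by
            by_cases hs : s ∈ Gd
            · exact (some_bad (heq t s x e) (g3 s hs t) k).imp fun _ => Or.inr
            · exact ⟨0, Or.inl hs⟩
          exact (ind_pos hi).ge.trans (single_le_sum
            (f := fun i => ind (s ∉ Gd ∨ C₁ * lam < |ψ s (x i)|)) (fun i _ => ind_nonneg _)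
            (mem_univ i))
        have k2 : ∀ s (i : Fin (u + 2)),
            ∑ x, G.μ t s x * ind (s ∉ Gd ∨ C₁ * lam < |ψ s (x i)|) =
            ∑ x, G.μ t s x * ind (s ∉ Gd ∨ C₁ * lam < |ψ s (x 0)|) := fun s i => by
          rw [← sum_perm (hD.mix.tup.symm t s) (Equiv.swap 0 i)]
          simp only [Function.comp_apply, Equiv.swap_apply_right]
        simp only [k2, sum_const, card_univ, Fintype.card_fin, nsmul_eq_mul, ← mul_sum] at k1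
        refine k1.trans ((mul_le_mul_of_nonneg_left (not_lt.1 ht') (by positivity)).trans ?_)
        have k3 : Cc * (K₁ * (h + ρ)) + ρ ^ 2 ≤ (Cc * K₁ + 1) * (h + ρ) := by nlinarith
        have k4 := mul_le_mul_of_nonneg_left k3 (by positivity : 0 ≤ ((u : ℝ) + 2) * G.σT.wt t)
        rw [hK₂]
        push_cast
        linarith)
    rw [sum_ind] at k
    refine k.trans ?_
    rw [hK, mul_assoc]
    exact mul_le_mul_of_nonneg_left (by nlinarith) (by linarith)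
  have hKρ : 0 ≤ K * (h + ρ) := mul_nonneg (by linarith) hρ.le
  have f5 := pairs hD.mix.tup (fun t => t ∈ GT ∧ ¬ BT t) (fun s => s ∈ GS ∧ s ∈ Gd)
    (fun t x => C₂ * ((u + 3) * (C₁ * lam)) < |c x t|) (fun s x => C₁ * lam < |ψ s x|)
    (fun t s x => CA * lam < |c (x 0) t - ψ s (x 0)|) fun t s x e _ hs k =>
      two_bad (c := fun i => c (x i) t) (ψ := fun i => ψ s (x i)) (by positivity) (by positivity)
        (heq t s x e) (g3 s hs.2 t) (lt_of_eq_of_lt (by rw [hCA]; ring) k)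
  have sq : ∀ {y : ℝ}, 0 ≤ y → y ≤ K * (h + ρ) →
      CL * (y * y) + ρ ^ 2 ≤ CL * (K * (h + ρ) * (K * (h + ρ))) + ρ ^ 2 := fun h1 h2 => by
    gcongr
  have a1 := ex_le (μ := G.μ) hD.sT (fun t => t ∈ GT ∧ ¬ BT t)
    (fun t _ x => C₂ * ((u + 3) * (C₁ * lam)) < |c (x 0) t| ∧
      C₂ * ((u + 3) * (C₁ * lam)) < |c (x 1) t|)
    (H := CL * (K * (h + ρ) * (K * (h + ρ))) + ρ ^ 2) (by positivity) fun t ht => by
      have k := (lT t ht.1).2.2.2.1 (fun x => C₂ * ((u + 3) * (C₁ * lam)) < |c x t|)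
        fun x => C₂ * ((u + 3) * (C₁ * lam)) < |c x t|
      simp only [sum_ind] at k
      exact ⟨(t3 t ht.1).1, k.trans (sq (div_nonneg (sum_nonneg fun x _ =>
        mul_nonneg (m_nonneg hb _ _) (ind_nonneg _)) (Nat.cast_nonneg _)) (f4 t ht))⟩
  have a2 := ex_le (μ := fun s t x => G.μ t s x) hD.sS (fun s => s ∈ GS ∧ s ∈ Gd)
    (fun s _ x => C₁ * lam < |ψ s (x 0)| ∧ C₁ * lam < |ψ s (x 1)|)
    (H := CL * (K * (h + ρ) * (K * (h + ρ))) + ρ ^ 2) (by positivity) fun s hs => by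
      have k := (lS s hs.1).2.2.2.1 (fun x => C₁ * lam < |ψ s x|) fun x => C₁ * lam < |ψ s x|
      simp only [sum_ind] at k
      exact ⟨(s3 s hs.1).1, k.trans (sq (div_nonneg (sum_nonneg fun x _ =>
        mul_nonneg (m_nonneg hb _ _) (ind_nonneg _)) (Nat.cast_nonneg _))
        ((g2' s hs.2).trans hK1'))⟩
  rw [Ex.swap (μ := G.μ) (f := fun _ s x => ind ((s ∈ GS ∧ s ∈ Gd) ∧
    C₁ * lam < |ψ s (x 0)| ∧ C₁ * lam < |ψ s (x 1)|))] at a2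
  have hO := fun (E : T → X → Prop) (E' : S → X → Prop) =>
    hOne P X T S G.b G.σT G.σS G.μ (des_mono hD l4) (fun t x => ind (E t x))
      (fun s x => ind (E' s x)) (fun _ _ => abs_ind _) fun _ _ => abs_ind _
  have a3 : Ex G.μ (fun t s x => ind ((t ∈ GT ∧ ¬ BT t) ∧ C₂ * ((u + 3) * (C₁ * lam)) < |c (x 0) t|) *
      ind ((s ∈ GS ∧ s ∈ Gd) ∧ C₁ * lam < |ψ s (x 1)|)) ≤
      C₀ * (K * (h + ρ) * (K * (h + ρ))) + ρ ^ 2 := by
    have k := (abs_le.1 (hO (fun t x => (t ∈ GT ∧ ¬ BT t) ∧ C₂ * ((u + 3) * (C₁ * lam)) < |c x t|)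
      fun s x => (s ∈ GS ∧ s ∈ Gd) ∧ C₁ * lam < |ψ s x|).2).2
    have k' := (two_le hD (fun i hi i' hi' => (hHh i hi i' hi').2) (by linarith) _ _).trans
      (mul_le_mul_of_nonneg_left (mul_le_mul (fl_le hD.sT _ _ hKρ f4)
        (fl_le hD.sS (fun s => s ∈ GS ∧ s ∈ Gd) _ hKρ fun s hs => (g2' s hs.2).trans hK1')
        (fl_nonneg hb hD.sS _) hKρ) (by linarith))
    exact (sub_le_iff_le_add'.1 k).trans (add_le_add k' le_rfl)
  have a4 : Ex G.μ (fun t _ _ => ind (¬ (t ∈ GT ∧ ¬ BT t))) ≤ 3 * ρ ^ 2 := by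
    have k := ex_wt (μ := G.μ) hD.sT (· ∈ GT) BT fun t ht =>
      ⟨(t3 t ht).1, by linarith [(abs_le.1 (lT t ht).1).2]⟩
    have k' : Ex G.μ (fun t _ _ => ind (t ∉ GT)) ≤ ρ ^ 2 := by
      rw [← Ex.swap]
      simpa only [sum_ind, Ex, sum_mul] using t2
    refine (Ex.mono (g := fun t _ _ => ind (t ∈ GT ∧ BT t) + ind (t ∉ GT)) hD.mix.tup.nonneg
      fun t _ _ _ => ind_le_of (add_nonneg (ind_nonneg _) (ind_nonneg _)) fun k => ?_).trans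
      (Ex.add.trans_le (by linarith))
    by_cases ht : t ∈ GT
    · rw [ind_pos ⟨ht, not_not.1 fun hn => k ⟨ht, hn⟩⟩]; linarith [ind_nonneg (t ∉ GT)]
    · rw [ind_pos ht]; linarith [ind_nonneg (t ∈ GT ∧ BT t)]
  have a5 : Ex G.μ (fun _ s _ => ind (¬ (s ∈ GS ∧ s ∈ Gd))) ≤ 3 * ρ ^ 2 := by
    have k := ex_wt (μ := fun s t x => G.μ t s x) hD.sS (· ∈ GS) (· ∉ Gd) fun s hs =>
      ⟨(s3 s hs).1, by linarith [(abs_le.1 (lS s hs).1).2]⟩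
    rw [Ex.swap (μ := G.μ) (f := fun _ s _ => ind (s ∈ GS ∧ s ∉ Gd))] at k
    have k' : Ex G.μ (fun _ s _ => ind (s ∉ GS)) ≤ ρ ^ 2 := by
      simpa only [sum_ind, Ex, sum_mul] using s2
    rw [sum_ind] at g1
    refine (Ex.mono (g := fun _ s _ => ind (s ∈ GS ∧ s ∉ Gd) + ind (s ∉ GS)) hD.mix.tup.nonneg
      fun _ s _ _ => ind_le_of (add_nonneg (ind_nonneg _) (ind_nonneg _)) fun k => ?_).trans
      (Ex.add.trans_le (by linarith))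
    by_cases hs : s ∈ GS
    · rw [ind_pos ⟨hs, fun hn => k ⟨hs, hn⟩⟩]; linarith [ind_nonneg (s ∉ GS)]
    · rw [ind_pos hs]; linarith [ind_nonneg (s ∈ GS ∧ s ∉ Gd)]
  obtain ⟨m, m1, m2⟩ := final hD l6 hc₀ (fun i hi => (hP1 i hi).1)
    (fun E E' => neg_le_sub_iff_le_add.1 (abs_le.1 (hO E E').1).1) hG.box.inv c ψ hc
    (f5.trans (add_le_add (add_le_add (mul_le_mul_of_nonneg_left (add_le_add (add_le_add a1 a2)
      (mul_le_mul_of_nonneg_left a3 zero_le_two)) (by positivity)) a4) a5))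
  refine ⟨fun x => a x + m x, fun x => by simp only [ha, m1]; ring, ?_⟩
  have m3 := m2.trans (arith hu0 hc₀ hCL hC₀ r0.le r1 r6)
  simp only [sum_ind]
  refine le_trans (sum_le_sum fun t _ => sum_le_sum fun x _ => mul_le_mul_of_nonneg_left
    (ind_le_of (ind_nonneg _) fun k => (ind_pos ?_).ge) (flag_nonneg hb hD.sT x t))
    (m3.trans (hCB ▸ add_le_add (mul_le_mul_of_nonneg_right (le_add_of_nonneg_left
      (zero_le_one.trans kA)) (sq_nonneg h)) le_rfl))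
  rw [← sub_sub] at k
  exact lt_of_le_of_lt (mul_le_mul_of_nonneg_right (le_add_of_nonneg_right kB) hlam.le) k

end Pool.Agent.P.MP_b8021b_nt.VE
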