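import Pool.Agent.P.MP_b8021b_nt.VE.StA

/-! Package A7a, first half: a multiple of a point is close to the origin. -/

namespace Pool.Agent.P.MP_b8021b_nt.VE

open Polynomial Filter Topology WeierstrassCurve WeierstrassCurve.Affine

namespace PTors

/-- the curve `y ^ 2 = x ^ 3 + a x ^ 2 + b x + c` -/
def cv {K : Type} [Field K] (a b c : K) : WeierstrassCurve K := ⟨0, a, 0, b, c⟩

section alg

variable {K : Type} [Field K] {a b c : K}

lemma eqn {x y : K} (h : (cv a b c).toAffine.Nonsingular x y) :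
    y ^ 2 = x ^ 3 + a * x ^ 2 + b * x + c := by
  have := (equation_iff _ _).1 h.1
  simpa [cv] using this

lemma negY_eq (x y : K) : (cv a b c).toAffine.negY x y = -y := by
  simp [cv, negY]

variable [DecidableEq K]

/-- two identities for three points with `R₁ + R₂ = R₃` -/
lemma ident {x₁ y₁ x₂ y₂ x₃ y₃ : K}
    {h₁ : (cv a b c).toAffine.Nonsingular x₁ y₁} {h₂ : (cv a b c).toAffine.Nonsingular x₂ y₂}
    {h₃ : (cv a b c).toAffine.Nonsingular x₃ y₃}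
    (h : Point.some x₁ y₁ h₁ + Point.some x₂ y₂ h₂ = Point.some x₃ y₃ h₃) :
    (x₃ + a + x₁ + x₂) * (x₁ - x₂) ^ 2 = (y₁ - y₂) ^ 2 ∧
      (x₃ + a + x₁ + x₂) * (y₁ + y₂) ^ 2 =
        (x₁ ^ 2 + x₁ * x₂ + x₂ ^ 2 + a * (x₁ + x₂) + b) ^ 2 := by
  have hxy : ¬ (x₁ = x₂ ∧ y₁ = (cv a b c).toAffine.negY x₂ y₂) := fun hxy => by
    rw [Point.add_of_Y_eq hxy.1 hxy.2] at h
    exact Point.some_ne_zero h₃ h.symm
  rw [Point.add_some hxy, Point.some.injEq] at h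
  have e : x₃ + a + x₁ + x₂ = (cv a b c).toAffine.slope x₁ x₂ y₁ y₂ ^ 2 := by
    rw [← h.1]
    simp [addX, cv]
    ring
  have e1 := eqn h₁
  have e2 := eqn h₂
  rw [e, ← mul_pow, ← mul_pow]
  by_cases hx : x₁ = x₂
  · have hy : y₁ ≠ (cv a b c).toAffine.negY x₂ y₂ := fun hy => hxy ⟨hx, hy⟩
    have hy' : y₁ = y₂ := Y_eq_of_Y_ne h₁.1 h₂.1 hx hy
    subst hx hy'
    rw [slope_of_Y_ne rfl hy, negY_eq]
    rw [negY_eq] at hy
    have hy0 : y₁ - -y₁ ≠ 0 := sub_ne_zero.2 hy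
    refine ⟨by ring, ?_⟩
    congr 1
    rw [sub_neg_eq_add] at hy0 ⊢
    rw [div_mul_cancel₀ _ hy0]
    simp [cv]
    ring
  · rw [slope_of_X_ne hx]
    have hx0 : x₁ - x₂ ≠ 0 := sub_ne_zero.2 hx
    refine ⟨by rw [div_mul_cancel₀ _ hx0], ?_⟩
    congr 1
    rw [div_mul_eq_mul_div, div_eq_iff hx0]
    linear_combination e1 - e2

/-- the sum of a point with `x = 0` and another point -/
lemma add_zero_x {w X Y : K} (h₁ : (cv a b c).toAffine.Nonsingular 0 w)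
    (h₂ : (cv a b c).toAffine.Nonsingular X Y) (hX : X ≠ 0) :
    ∃ x y h, Point.some 0 w h₁ + Point.some X Y h₂ = Point.some x y h ∧
      x * X ^ 2 = b * X + 2 * c - 2 * w * Y ∧
      (y - w) * X ^ 3 = 2 * w * (a * X ^ 2 + b * X + c) - Y * (b * X + 4 * c) +
        w * (b * X + 2 * c) := by
  have e1 := eqn h₁
  have e2 := eqn h₂
  have hl : (cv a b c).toAffine.slope 0 X w Y * X = Y - w := by
    rw [slope_of_X_ne hX.symm, zero_sub, div_neg, neg_mul, div_mul_cancel₀ _ hX, neg_sub]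
  refine ⟨_, _, _, Point.add_of_X_ne hX.symm, ?_, ?_⟩
  · generalize (cv a b c).toAffine.slope 0 X w Y = l at hl
    simp only [addX, cv]
    linear_combination (l * X + Y - w) * hl + e1 + e2
  · generalize (cv a b c).toAffine.slope 0 X w Y = l at hl
    simp only [addY, negY, negAddY, addX, cv]
    linear_combination (-(l * X) ^ 2 - l * X * (Y - w) - (Y - w) ^ 2 + a * X ^ 2 + X ^ 3) * hl +
      (w - 3 * Y) * e1 + (3 * w - Y) * e2

end alg

section an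

variable {K : Type} [NormedField K] {a b c : K}

lemma norm_two : ‖(2 : K)‖ ≤ 2 := by
  have := norm_add_le (1 : K) 1
  rw [one_add_one_eq_two, norm_one] at this
  linarith

lemma norm_four : ‖(4 : K)‖ ≤ 4 := by
  have : (4 : K) = 2 * 2 := by norm_num
  rw [this, norm_mul]
  nlinarith [norm_two (K := K), norm_nonneg (2 : K)]

lemma normY (ha : ‖a‖ ≤ 1) (hb : ‖b‖ ≤ 1) (hc : ‖c‖ ≤ 1) {x y : K} {t : ℝ} (ht : 1 ≤ t)
    (hx : ‖x‖ ≤ t ^ 2) (h : y ^ 2 = x ^ 3 + a * x ^ 2 + b * x + c) : ‖y‖ ≤ 2 * t ^ 3 := by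
  have h0 := norm_nonneg x
  have t2 : 1 ≤ t ^ 2 := one_le_pow₀ ht
  have h1 : ‖y‖ ^ 2 ≤ (2 * t ^ 3) ^ 2 := by
    rw [← norm_pow, h]
    have e1 : ‖x ^ 3‖ ≤ (t ^ 2) ^ 3 := by rw [norm_pow]; gcongr
    have e2 : ‖a * x ^ 2‖ ≤ (t ^ 2) ^ 3 := by
      rw [norm_mul, norm_pow]
      calc _ ≤ 1 * (t ^ 2) ^ 2 := by gcongr
        _ ≤ _ := by rw [one_mul]; exact pow_le_pow_right₀ t2 (by norm_num)
    have e3 : ‖b * x‖ ≤ (t ^ 2) ^ 3 := by
      rw [norm_mul]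
      calc _ ≤ 1 * (t ^ 2) ^ 1 := by rw [pow_one]; gcongr
        _ ≤ _ := by rw [one_mul]; exact pow_le_pow_right₀ t2 (by norm_num)
    have e4 : ‖c‖ ≤ (t ^ 2) ^ 3 := hc.trans (one_le_pow₀ t2)
    have := norm_add_le (x ^ 3 + a * x ^ 2 + b * x) c
    have := norm_add_le (x ^ 3 + a * x ^ 2) (b * x)
    have := norm_add_le (x ^ 3) (a * x ^ 2)
    nlinarith
  exact (pow_le_pow_iff_left₀ (norm_nonneg _) (by positivity) two_ne_zero).1 h1

variable [DecidableEq K]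

/-- adding a point that is far away moves `(0, w)` only a little -/
lemma near (ha : ‖a‖ ≤ 1) (hb : ‖b‖ ≤ 1) (hc : ‖c‖ ≤ 1) {w X Y : K}
    (h₁ : (cv a b c).toAffine.Nonsingular 0 w) (h₂ : (cv a b c).toAffine.Nonsingular X Y)
    {s : ℝ} (hs : 1 ≤ s) (hX : s ^ 2 ≤ ‖X‖) :
    ∃ x y h, Point.some 0 w h₁ + Point.some X Y h₂ = Point.some x y h ∧
      ‖x‖ ≤ 19 / s ∧ ‖y - w‖ ≤ 19 / s := by
  have hX1 : 1 ≤ ‖X‖ := (one_le_pow₀ hs).trans hX
  have hX0 : X ≠ 0 := norm_pos_iff.1 (by linarith)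
  obtain ⟨x, y, h, e, e1, e2⟩ := add_zero_x h₁ h₂ hX0
  refine ⟨x, y, h, e, ?_⟩
  obtain ⟨t, ht0, ht⟩ : ∃ t : ℝ, 0 ≤ t ∧ ‖X‖ = t ^ 2 :=
    ⟨√‖X‖, Real.sqrt_nonneg _, (Real.sq_sqrt (norm_nonneg _)).symm⟩
  have hst : s ≤ t := by
    rw [ht] at hX
    exact (pow_le_pow_iff_left₀ (by linarith) ht0 two_ne_zero).1 hX
  have ht1 : 1 ≤ t := hs.trans hst
  have hY : ‖Y‖ ≤ 2 * t ^ 3 := normY ha hb hc ht1 ht.le (eqn h₂)
  have hw : ‖w‖ ≤ 1 := by
    have e0 := eqn h₁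
    have : ‖w‖ ^ 2 ≤ 1 ^ 2 := by
      rw [← norm_pow, e0]
      simpa using hc
    exact (pow_le_pow_iff_left₀ (norm_nonneg _) zero_le_one two_ne_zero).1 this
  have n2 := norm_two (K := K)
  have n4 := norm_four (K := K)
  have p (i j : ℕ) (hij : i ≤ j) : t ^ i ≤ t ^ j := pow_le_pow_right₀ ht1 hij
  have hbX : ‖b * X‖ ≤ t ^ 2 := by
    rw [norm_mul, ht]
    exact mul_le_of_le_one_left (by positivity) hb
  have haX : ‖a * X ^ 2‖ ≤ t ^ 4 := by
    rw [norm_mul, norm_pow, ht, ← pow_mul]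
    exact mul_le_of_le_one_left (by positivity) ha
  have h2c : ‖2 * c‖ ≤ 2 := by
    rw [norm_mul]
    exact (mul_le_of_le_one_right (norm_nonneg _) hc).trans n2
  have h4c : ‖4 * c‖ ≤ 4 := by
    rw [norm_mul]
    exact (mul_le_of_le_one_right (norm_nonneg _) hc).trans n4
  have h2w : ‖2 * w‖ ≤ 2 := by
    rw [norm_mul]
    exact (mul_le_of_le_one_right (norm_nonneg _) hw).trans n2
  have fin : ∀ (v : ℝ) (j : ℕ), v * t ^ (j + 1) ≤ 19 * t ^ j → v ≤ 19 / s := by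
    intro v j hv
    have h1 : v * t ≤ 19 := by
      rw [pow_succ', ← mul_assoc] at hv
      exact le_of_mul_le_mul_right hv (by positivity)
    have h2 : v ≤ 19 / t := by rwa [le_div_iff₀ (by positivity)]
    exact h2.trans (div_le_div_of_nonneg_left (by norm_num) (by linarith) hst)
  have p0 := p 0 2 (by norm_num)
  have p2 := p 2 3 (by norm_num)
  have p3 := p 3 4 (by norm_num)
  have p4 := p 4 5 (by norm_num)
  rw [pow_zero] at p0
  constructor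
  · refine fin _ 3 ?_
    have h1 : ‖x‖ * t ^ (3 + 1) = ‖b * X + 2 * c - 2 * w * Y‖ := by
      rw [← e1, norm_mul, norm_pow, ht, ← pow_mul]
    have h2 : ‖2 * w * Y‖ ≤ 2 * (2 * t ^ 3) := by
      rw [norm_mul]
      gcongr
    have h3 := norm_sub_le (b * X + 2 * c) (2 * w * Y)
    have h4 := norm_add_le (b * X) (2 * c)
    linarith
  · refine fin _ 5 ?_
    have h1 : ‖y - w‖ * t ^ (5 + 1) = ‖2 * w * (a * X ^ 2 + b * X + c) - Y * (b * X + 4 * c) +
        w * (b * X + 2 * c)‖ := by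
      rw [← e2, norm_mul, norm_pow, ht, ← pow_mul]
    have h2 : ‖2 * w * (a * X ^ 2 + b * X + c)‖ ≤ 2 * (3 * t ^ 5) := by
      rw [norm_mul]
      have := norm_add_le (a * X ^ 2 + b * X) c
      have := norm_add_le (a * X ^ 2) (b * X)
      exact mul_le_mul h2w (by linarith) (norm_nonneg _) (by norm_num)
    have h3 : ‖Y * (b * X + 4 * c)‖ ≤ 2 * t ^ 3 * (5 * t ^ 2) := by
      rw [norm_mul]
      have := norm_add_le (b * X) (4 * c)
      exact mul_le_mul hY (by linarith) (norm_nonneg _) (by positivity)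
    have h4 : ‖w * (b * X + 2 * c)‖ ≤ 1 * (3 * t ^ 5) := by
      rw [norm_mul]
      have := norm_add_le (b * X) (2 * c)
      exact mul_le_mul hw (by linarith) (norm_nonneg _) (by norm_num)
    have h5 := norm_add_le (2 * w * (a * X ^ 2 + b * X + c) - Y * (b * X + 4 * c))
      (w * (b * X + 2 * c))
    have h6 := norm_sub_le (2 * w * (a * X ^ 2 + b * X + c)) (Y * (b * X + 4 * c))
    have h7 : 2 * t ^ 3 * (5 * t ^ 2) = 10 * t ^ 5 := by ring
    linarith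

/-- some multiple of a point is far away -/
lemma far [ProperSpace K] (h2 : (2 : K) ≠ 0) (ha : ‖a‖ ≤ 1) (hb : ‖b‖ ≤ 1) (hc : ‖c‖ ≤ 1)
    (hsep : ∀ x : K, x ^ 3 + a * x ^ 2 + b * x + c = 0 → 3 * x ^ 2 + 2 * a * x + b ≠ 0)
    (R : (cv a b c).toAffine.Point) {s : ℝ} (hs : 1 ≤ s) :
    ∃ m : ℕ, (m + 1) • R = 0 ∨ ∃ X Y h, (m + 1) • R = Point.some X Y h ∧ s ^ 2 ≤ ‖X‖ := by
  by_contra hcon
  have H : ∀ m : ℕ, ∃ X Y h, (m + 1) • R = Point.some X Y h ∧ ‖X‖ ≤ s ^ 2 := by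
    intro m
    rcases hR : (m + 1) • R with _ | ⟨X, Y, h⟩
    · exact absurd ⟨m, Or.inl hR⟩ hcon
    · refine ⟨X, Y, h, rfl, ?_⟩
      by_contra hX
      exact hcon ⟨m, Or.inr ⟨X, Y, h, hR, (not_le.1 hX).le⟩⟩
  choose X Y h hR hX using H
  have hY : ∀ m, ‖Y m‖ ≤ 2 * s ^ 3 := fun m => normY ha hb hc hs (hX m) (eqn (h m))
  obtain ⟨⟨x, y⟩, -, φ, hφ, hl⟩ := tendsto_subseq_of_bounded
    (Metric.isBounded_closedBall (x := (0 : K × K)) (r := max (s ^ 2) (2 * s ^ 3)))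
    (x := fun m => (X m, Y m)) fun m => by
      rw [mem_closedBall_zero_iff, Prod.norm_def]
      exact max_le_max (hX m) (hY m)
  have lx : Tendsto (fun j => X (φ j)) atTop (𝓝 x) := (continuous_fst.tendsto _).comp hl
  have ly : Tendsto (fun j => Y (φ j)) atTop (𝓝 y) := (continuous_snd.tendsto _).comp hl
  have lx' : Tendsto (fun j => X (φ (j + 1))) atTop (𝓝 x) := lx.comp (tendsto_add_atTop_nat 1)
  have ly' : Tendsto (fun j => Y (φ (j + 1))) atTop (𝓝 y) := ly.comp (tendsto_add_atTop_nat 1)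
  have key : ∀ j, ∃ L : K, ‖L‖ ≤ 3 * s ^ 2 + 1 ∧
      L * (X (φ (j + 1)) - X (φ j)) ^ 2 = (Y (φ (j + 1)) + Y (φ j)) ^ 2 ∧
      L * (Y (φ (j + 1)) - Y (φ j)) ^ 2 = (X (φ (j + 1)) ^ 2 + X (φ (j + 1)) * X (φ j) +
        X (φ j) ^ 2 + a * (X (φ (j + 1)) + X (φ j)) + b) ^ 2 := by
    intro j
    obtain ⟨d, hd⟩ := Nat.exists_eq_add_of_lt (hφ (Nat.lt_succ_self j))
    have e : Point.some _ _ (h (φ (j + 1))) + -Point.some _ _ (h (φ j)) =
        Point.some _ _ (h d) := by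
      rw [← hR, ← hR, ← hR, ← sub_eq_add_neg, sub_eq_iff_eq_add, ← add_nsmul]
      congr 1
      simp only [Nat.succ_eq_add_one] at hd
      omega
    rw [Point.neg_some] at e
    have := ident e
    rw [negY_eq, sub_neg_eq_add, ← sub_eq_add_neg] at this
    refine ⟨_, ?_, this⟩
    have := norm_add_le (X d + a + X (φ (j + 1))) (X (φ j))
    have := norm_add_le (X d + a) (X (φ (j + 1)))
    have := norm_add_le (X d) a
    linarith [hX d, hX (φ j), hX (φ (j + 1))]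
  choose L hL e1 e2 using key
  have hB : IsBoundedUnder (· ≤ ·) atTop ((‖·‖) ∘ L) := isBoundedUnder_of ⟨_, hL⟩
  have t1 : Tendsto (fun j => L j * (X (φ (j + 1)) - X (φ j)) ^ 2) atTop (𝓝 0) :=
    isBoundedUnder_le_mul_tendsto_zero hB (by simpa using (lx'.sub lx).pow 2)
  have t2 : Tendsto (fun j => L j * (Y (φ (j + 1)) - Y (φ j)) ^ 2) atTop (𝓝 0) :=
    isBoundedUnder_le_mul_tendsto_zero hB (by simpa using (ly'.sub ly).pow 2)
  simp only [e1] at t1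
  simp only [e2] at t2
  have u1 := tendsto_nhds_unique ((ly'.add ly).pow 2) t1
  have u2 := tendsto_nhds_unique ((((((lx'.pow 2).add (lx'.mul lx)).add (lx.pow 2)).add
    ((lx'.add lx).const_mul a)).add_const b).pow 2) t2
  have t3 : Tendsto (fun j => Y (φ j) ^ 2) atTop (𝓝 (x ^ 3 + a * x ^ 2 + b * x + c)) := by
    simp only [fun j => eqn (h (φ j))]
    exact (((lx.pow 3).add ((lx.pow 2).const_mul a)).add (lx.const_mul b)).add_const c
  have u3 := tendsto_nhds_unique (ly.pow 2) t3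
  have hy : y = 0 := by
    have := pow_eq_zero_iff (two_ne_zero) |>.1 u1
    rw [← two_mul] at this
    exact (mul_eq_zero.1 this).resolve_left h2
  refine hsep x (by rw [← u3, hy]; ring) ?_
  have := pow_eq_zero_iff (two_ne_zero) |>.1 u2
  linear_combination this

end an

lemma sep {K : Type} [Field K] [CharZero K] {f : ℤ[X]} (hf : Cubic0 f) (x : K)
    (h : x ^ 3 + (f.coeff 2 : ℤ) * x ^ 2 + (f.coeff 1 : ℤ) * x + (f.coeff 0 : ℤ) = 0) :
    3 * x ^ 2 + 2 * (f.coeff 2 : ℤ) * x + (f.coeff 1 : ℤ) ≠ 0 := by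
  obtain ⟨hm, hd, hs, -⟩ := hf
  have h3 : f.coeff 3 = 1 := by rw [← hd]; exact hm
  have e : f = X ^ 3 + C (f.coeff 2) * X ^ 2 + C (f.coeff 1) * X + C (f.coeff 0) := by
    conv_lhs => rw [f.as_sum_range_C_mul_X_pow, hd]
    simp only [Finset.sum_range_succ, Finset.sum_range_zero, h3, map_one]
    ring
  generalize f.coeff 2 = a2, f.coeff 1 = a1, f.coeff 0 = a0 at h e ⊢
  have := hs.aeval_derivative_ne_zero (x := x) (by rw [e]; simpa using h)
  rw [e] at this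
  intro h0
  apply this
  simp
  linear_combination h0

end PTors

open scoped Classical in
open PTors in
theorem p_tors : S_Tors := by
  intro r _ f hf w₀ h₁ n
  have hn : ∀ z : ℤ, ‖(z : ℚ_[r])‖ ≤ 1 := fun z => Padic.norm_int_le_one z
  have hr : (0 : ℝ) < (r : ℝ) ^ (-(n : ℤ)) :=
    zpow_pos (by exact_mod_cast (Fact.out : r.Prime).pos) _
  generalize (r : ℝ) ^ (-(n : ℤ)) = δ at hr ⊢
  have hs : 1 ≤ 19 / δ + 1 := by
    have : 0 ≤ 19 / δ := by positivity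
    linarith
  have hδ : 19 / (19 / δ + 1) ≤ δ := by
    rw [div_le_iff₀ (by positivity), mul_add, mul_div_cancel₀ _ hr.ne']
    linarith
  have e : ∀ (m : ℕ) (P : (wc f ℚ_[r]).toAffine.Point),
      (2 * (5 * (m + 1)) - 1) • P + (P + (m + 1) • -(10 • P)) = 0 := by
    intro m P
    rw [← add_assoc, ← succ_nsmul, neg_nsmul, ← mul_nsmul, add_neg_eq_zero]
    congr 1
    omega
  obtain ⟨m, hm | ⟨X, Y, h, hm, hX⟩⟩ := far (a := ((f.coeff 2 : ℤ) : ℚ_[r]))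
    (b := (f.coeff 1 : ℤ)) (c := (f.coeff 0 : ℤ)) two_ne_zero (hn _) (hn _) (hn _) (sep hf)
    (-(10 • Point.some 0 w₀ h₁)) hs
  · refine ⟨5 * (m + 1), 0, w₀, h₁, by omega, ?_, by simpa using hr.le, by simpa using hr.le⟩
    have := e m (Point.some 0 w₀ h₁)
    have hm' : (m + 1) • -(10 • Point.some 0 w₀ h₁) = 0 := hm
    rwa [hm', add_zero] at this
  · obtain ⟨x, y, h', e', hx, hy⟩ := near (hn _) (hn _) (hn _) h₁ h hs hX
    refine ⟨5 * (m + 1), x, y, h', by omega, ?_, hx.trans hδ, hy.trans hδ⟩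
    have := e m (Point.some 0 w₀ h₁)
    have hm' : (m + 1) • -(10 • Point.some 0 w₀ h₁) =
      Point.some (W' := (wc f ℚ_[r]).toAffine) X Y h := hm
    have e'' : Point.some 0 w₀ h₁ + Point.some (W' := (wc f ℚ_[r]).toAffine) X Y h =
      Point.some (W' := (wc f ℚ_[r]).toAffine) x y h' := e'
    rwa [hm', e''] at this

end Pool.Agent.P.MP_b8021b_nt.VE
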