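import Mathlib

/-!
Step A7b: a Gauss lemma argument in `ℤ_[p]⟦X⟧`.
-/

open Polynomial

namespace Pool.Agent.P.MP_b8021b_nt.VE.Weier

variable {p : ℕ} [hp : Fact p.Prime]

theorem C_dvd_iff {R : Type*} [CommRing R] (a : R) (φ : PowerSeries R) :
    PowerSeries.C a ∣ φ ↔ ∀ i, a ∣ PowerSeries.coeff i φ := by
  constructor
  · rintro ⟨ψ, rfl⟩ i
    rw [PowerSeries.coeff_C_mul]
    exact Dvd.intro _ rfl
  · intro h
    choose c hc using h
    refine ⟨PowerSeries.mk c, ?_⟩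
    ext i
    rw [PowerSeries.coeff_C_mul, PowerSeries.coeff_mk, hc]

theorem C_p_dvd_iff (φ : PowerSeries ℤ_[p]) :
    PowerSeries.C (p : ℤ_[p]) ∣ φ ↔ PowerSeries.map (PadicInt.toZMod (p := p)) φ = 0 := by
  rw [C_dvd_iff, PowerSeries.ext_iff]
  refine forall_congr' fun i => ?_
  rw [PowerSeries.coeff_map, map_zero, ← RingHom.mem_ker, PadicInt.ker_toZMod,
    PadicInt.maximalIdeal_eq_span_p, Ideal.mem_span_singleton]

theorem C_p_dvd_mul {U S : PowerSeries ℤ_[p]} (h : PowerSeries.C (p : ℤ_[p]) ∣ U * S) :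
    PowerSeries.C (p : ℤ_[p]) ∣ U ∨ PowerSeries.C (p : ℤ_[p]) ∣ S := by
  rw [C_p_dvd_iff] at h
  rw [C_p_dvd_iff, C_p_dvd_iff]
  rw [map_mul] at h
  exact mul_eq_zero.mp h

theorem gauss_aux (n : ℕ) : ∀ (U S : PowerSeries ℤ_[p]) (u : ℤ_[p]), IsUnit u →
    U * S = PowerSeries.C ((p : ℤ_[p]) ^ n * u) →
    ∃ S1, IsUnit S1 ∧ S = PowerSeries.C (PowerSeries.constantCoeff S) * S1 := by
  induction n with
  | zero =>
    intro U S u hu h
    rw [pow_zero, one_mul] at h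
    have hS : IsUnit S := isUnit_of_mul_isUnit_right (h ▸ hu.map _)
    obtain ⟨c, hc⟩ := (PowerSeries.isUnit_iff_constantCoeff.mp hS).exists_right_inv
    refine ⟨PowerSeries.C c * S, ((IsUnit.of_mul_eq_one_right _ hc).map _).mul hS, ?_⟩
    rw [← mul_assoc, ← map_mul, hc, map_one, one_mul]
  | succ n ih =>
    intro U S u hu h
    have hp0 : PowerSeries.C (p : ℤ_[p]) ≠ 0 := by
      intro h0
      have := congrArg PowerSeries.constantCoeff h0
      rw [PowerSeries.constantCoeff_C, map_zero] at this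
      exact hp.out.ne_zero (by exact_mod_cast this)
    have h' : U * S = PowerSeries.C (p : ℤ_[p]) * PowerSeries.C ((p : ℤ_[p]) ^ n * u) := by
      rw [h, ← map_mul]; congr 1; ring
    rcases C_p_dvd_mul (U := U) (S := S) ⟨_, h'⟩ with ⟨U', rfl⟩ | ⟨S', rfl⟩
    · rw [mul_assoc] at h'
      exact ih U' S u hu (mul_left_cancel₀ hp0 h')
    · rw [mul_left_comm] at h'
      obtain ⟨S1, h1, h2⟩ := ih U S' u hu (mul_left_cancel₀ hp0 h')
      refine ⟨S1, h1, ?_⟩
      rw [map_mul, PowerSeries.constantCoeff_C, map_mul, mul_assoc, ← h2]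

theorem gauss {U S : PowerSeries ℤ_[p]} {c : ℤ_[p]} (hc : c ≠ 0) (h : U * S = PowerSeries.C c) :
    ∃ S1, IsUnit S1 ∧ S = PowerSeries.C (PowerSeries.constantCoeff S) * S1 := by
  refine gauss_aux c.valuation U S (PadicInt.unitCoeff hc) (Units.isUnit _) ?_
  rw [h, mul_comm, ← PadicInt.unitCoeff_spec hc]

theorem exists_mu {R : Type*} [CommRing R] (ρ : PowerSeries R)
    (hρ : PowerSeries.constantCoeff ρ = 0) :
    ∃ μ : PowerSeries R, μ ^ 2 - μ = ρ ∧ PowerSeries.constantCoeff μ = 1 := by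
  have H : HenselianRing (PowerSeries R) (Ideal.span {PowerSeries.X}) := inferInstance
  have hm : (X ^ 2 - X - C ρ : (PowerSeries R)[X]).Monic := by
    nontriviality (PowerSeries R)
    monicity!
  obtain ⟨μ, h1, h2⟩ := H.is_henselian _ hm 1 (by
    rw [Ideal.mem_span_singleton, PowerSeries.X_dvd_iff]; simp [hρ]) (by
    have : (derivative (X ^ 2 - X - C ρ : (PowerSeries R)[X])).eval 1 = 1 := by
      simp
    rw [this, map_one]; exact isUnit_one)
  refine ⟨μ, ?_, ?_⟩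
  · have := h1.eq_zero
    simp only [eval_sub, eval_pow, eval_X, eval_C] at this
    exact sub_eq_zero.mp this
  · rw [Ideal.mem_span_singleton, PowerSeries.X_dvd_iff, map_sub, map_one] at h2
    exact sub_eq_zero.mp h2

theorem radB (k : ℕ) (hk : 2 ≤ k) (ρ G Cc : ℤ_[p][X]) (sQ μQ l'' : ℤ_[p])
    (hρ : ρ.coeff 0 = 0) (hμ : IsUnit μQ) (hμ2 : μQ ^ 2 - μQ = ρ.eval sQ)
    (hG : G.natDegree ≤ k)
    (hN : G ^ 2 - Cc ^ 2 * (1 + 4 * ρ) = C l'' * X ^ (2 * k - 1) * (X - C sQ)) (hl'' : l'' ≠ 0)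
    (hQ : G.eval sQ + Cc.eval sQ * (2 * μQ - 1) = 0)
    (hl : G.coeff 0 - Cc.coeff 0 ≠ 0) :
    (∀ i, (G.coeff 0 - Cc.coeff 0) ∣ 2 * G.coeff i) ∧ (G.coeff 0 - Cc.coeff 0) ^ 2 ∣ l'' := by
  obtain ⟨μ, hμ1, hμ0⟩ := exists_mu (ρ : PowerSeries ℤ_[p]) (by
    rw [← PowerSeries.coeff_zero_eq_constantCoeff_apply, Polynomial.coeff_coe, hρ])
  set sp : PowerSeries ℤ_[p] := G + Cc * (2 * μ - 1) with hsp
  set sm : PowerSeries ℤ_[p] := G - Cc * (2 * μ - 1) with hsm
  set Z : PowerSeries ℤ_[p] := PowerSeries.X - PowerSeries.C sQ with hZ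
  have hZ' : ((X - C sQ : ℤ_[p][X]) : PowerSeries ℤ_[p]) = Z := by
    rw [Polynomial.coe_sub, Polynomial.coe_X, Polynomial.coe_C]
  have hN' : sp * sm = PowerSeries.C l'' * PowerSeries.X ^ (2 * k - 1) * Z := by
    have := congrArg (fun q : ℤ_[p][X] => (q : PowerSeries ℤ_[p])) hN
    simp only [Polynomial.coe_sub, Polynomial.coe_mul, Polynomial.coe_pow, Polynomial.coe_add,
      Polynomial.coe_one, Polynomial.coe_X, Polynomial.coe_C] at this
    have h4 : ((4 : ℤ_[p][X]) : PowerSeries ℤ_[p]) = 4 :=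
      map_ofNat Polynomial.coeToPowerSeries.ringHom 4
    rw [h4] at this
    rw [← this, ← hμ1, hsp, hsm]; ring
  have hdiv : ∀ q : ℤ_[p][X], Z ∣ (q : PowerSeries ℤ_[p]) - PowerSeries.C (q.eval sQ) := by
    intro q
    obtain ⟨r, hr⟩ := X_sub_C_dvd_sub_C_eval (p := q) (a := sQ)
    refine ⟨r, ?_⟩
    rw [← hZ', ← Polynomial.coe_mul, ← hr, Polynomial.coe_sub, Polynomial.coe_C]
  have h1 : Z ∣ μ - PowerSeries.C μQ := by
    have hu : IsUnit (μ + PowerSeries.C μQ - 1) := by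
      rw [PowerSeries.isUnit_iff_constantCoeff]
      simpa [hμ0] using hμ
    rw [← hu.dvd_mul_right]
    have := hdiv ρ
    rw [← hμ2, ← hμ1, map_sub, map_pow] at this
    convert this using 1
    ring
  have h2 : Z ∣ sp := by
    have e : sp = ((G : PowerSeries ℤ_[p]) - PowerSeries.C (G.eval sQ)) +
        ((Cc : PowerSeries ℤ_[p]) - PowerSeries.C (Cc.eval sQ)) * (2 * PowerSeries.C μQ - 1) +
        Cc * 2 * (μ - PowerSeries.C μQ) +
        PowerSeries.C (G.eval sQ + Cc.eval sQ * (2 * μQ - 1)) := by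
      rw [hsp, map_add, map_mul, map_sub, map_mul, map_one, map_ofNat]; ring
    rw [e, hQ, map_zero, add_zero]
    exact ((hdiv G).add ((hdiv Cc).mul_right _)).add (h1.mul_left _)
  obtain ⟨V, hV⟩ := h2
  have hZ0 : Z ≠ 0 := by
    intro h0
    have := congrArg (PowerSeries.coeff 1) h0
    simp [hZ, PowerSeries.coeff_C] at this
  have h3 : sm * V = PowerSeries.X ^ (2 * k - 1) * PowerSeries.C l'' := by
    apply mul_left_cancel₀ hZ0
    rw [hV] at hN'
    linear_combination hN'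
  have hsm0 : PowerSeries.constantCoeff sm = G.coeff 0 - Cc.coeff 0 := by
    rw [hsm, map_sub, map_mul, map_sub, map_mul, hμ0, map_one, map_ofNat,
      ← PowerSeries.coeff_zero_eq_constantCoeff_apply, ← PowerSeries.coeff_zero_eq_constantCoeff_apply,
      Polynomial.coeff_coe, Polynomial.coeff_coe]
    ring
  obtain ⟨U, hU⟩ : PowerSeries.X ^ (2 * k - 1) ∣ V :=
    PowerSeries.X_prime.pow_dvd_of_dvd_mul_left _ (a := sm)
      (by rw [PowerSeries.X_dvd_iff, hsm0]; exact hl) (h3 ▸ Dvd.intro _ rfl)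
  have h4 : U * sm = PowerSeries.C l'' := by
    apply mul_left_cancel₀ (pow_ne_zero (2 * k - 1) (PowerSeries.X_ne_zero (R := ℤ_[p])))
    rw [← h3, hU]; ring
  obtain ⟨S1, hS1, hS⟩ := gauss hl'' h4
  obtain ⟨U1, hU1, hUU⟩ := gauss hl'' ((mul_comm _ _).trans h4)
  rw [hsm0] at hS
  set l := G.coeff 0 - Cc.coeff 0 with hl0
  have hA : ∀ i, l ∣ 2 * G.coeff i := by
    intro i
    by_cases hi : i < 2 * k - 1
    · have e : (2 : PowerSeries ℤ_[p]) * (G : PowerSeries ℤ_[p]) =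
          PowerSeries.X ^ (2 * k - 1) * (Z * U) + sm := by
        have : (2 : PowerSeries ℤ_[p]) * (G : PowerSeries ℤ_[p]) = sp + sm := by
          rw [hsp, hsm]; ring
        rw [this, hV, hU]; ring
      have e2 := congrArg (PowerSeries.coeff i) e
      rw [map_add, PowerSeries.X_pow_dvd_iff.mp (Dvd.intro _ rfl) i hi, zero_add, hS,
        PowerSeries.coeff_C_mul, two_mul, map_add, Polynomial.coeff_coe, ← two_mul] at e2
      exact ⟨_, e2⟩
    · rw [coeff_eq_zero_of_natDegree_lt (by omega), mul_zero]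
      exact dvd_zero _
  refine ⟨hA, ?_⟩
  have h5 : PowerSeries.C l ∣ sp := by
    have e : sp = 2 * G - sm := by rw [hsp, hsm]; ring
    rw [e]
    refine Dvd.dvd.sub ?_ ⟨S1, hS⟩
    rw [C_dvd_iff]
    intro i
    rw [two_mul, map_add, Polynomial.coeff_coe, ← two_mul]
    exact hA i
  set u0 := PowerSeries.constantCoeff U with hu0
  have h6 : PowerSeries.C l ∣ PowerSeries.C u0 * (PowerSeries.X ^ (2 * k - 1) * Z) := by
    rw [← hU1.dvd_mul_right]
    have e : PowerSeries.C u0 * (PowerSeries.X ^ (2 * k - 1) * Z) * U1 = sp := by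
      rw [hV, hU]
      conv_rhs => rw [hUU]
      ring
    rw [e]; exact h5
  have h7 : l ∣ u0 := by
    have := (C_dvd_iff _ _).mp h6 (1 + (2 * k - 1))
    rw [PowerSeries.coeff_C_mul, PowerSeries.coeff_X_pow_mul] at this
    simpa [hZ, PowerSeries.coeff_C] using this
  have h8 : u0 * l = l'' := by
    have := congrArg PowerSeries.constantCoeff h4
    rwa [map_mul, hsm0, PowerSeries.constantCoeff_C] at this
  rw [← h8, pow_two]
  exact mul_dvd_mul_right h7 l

end Pool.Agent.P.MP_b8021b_nt.VE.Weier
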