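import Pool.Agent.P.MP_b8021b_nt.VE.StA
import Pool.Agent.P.MP_b8021b_nt.VE.PWeier1

/-!
Step A7b: size of the coefficients of the function with divisor `(2 k - 1) P₁ + Q`.
-/

namespace Pool.Agent.P.MP_b8021b_nt.VE

open Polynomial

namespace Weier

theorem degs {F : Type} [Field F] {f g c : F[X]} (hf : f.natDegree = 3) {k : ℕ}
    (h : (g ^ 2 - c ^ 2 * f).natDegree = 2 * k) : g.natDegree ≤ k ∧ c.natDegree ≤ k - 2 := by
  by_cases hc : c = 0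
  · rw [hc, zero_pow two_ne_zero, zero_mul, sub_zero, natDegree_pow] at h
    rw [hc, natDegree_zero]
    omega
  have hf0 : f ≠ 0 := by
    intro h0
    rw [h0, natDegree_zero] at hf
    omega
  have h1 : (g ^ 2).natDegree = 2 * g.natDegree := natDegree_pow _ _
  have h2 : (c ^ 2 * f).natDegree = 2 * c.natDegree + 3 := by
    rw [natDegree_mul (pow_ne_zero 2 hc) hf0, natDegree_pow, hf]
  rcases lt_or_gt_of_ne (show (g ^ 2).natDegree ≠ (c ^ 2 * f).natDegree by omega) with h3 | h3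
  · rw [natDegree_sub_eq_right_of_natDegree_lt h3] at h
    omega
  · rw [natDegree_sub_eq_left_of_natDegree_lt h3] at h
    omega

theorem cubic_eq {f : ℤ[X]} (hf : Cubic0 f) :
    f = X ^ 3 + C (f.coeff 2) * X ^ 2 + C (f.coeff 1) * X + C (f.coeff 0) := by
  have h3 : f.coeff 3 = 1 := by rw [← hf.2.1]; exact hf.1
  conv_lhs => rw [f.as_sum_range_C_mul_X_pow, hf.2.1]
  simp only [Finset.sum_range_succ, Finset.sum_range_zero, h3]
  simp
  ring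

variable {r : ℕ} [hr : Fact r.Prime]

theorem norm_le_of_dvd {a b : ℤ_[r]} (h : a ∣ b) : ‖(b : ℚ_[r])‖ ≤ ‖(a : ℚ_[r])‖ := by
  obtain ⟨c, rfl⟩ := h
  rw [PadicInt.coe_mul, norm_mul]
  exact mul_le_of_le_one_right (norm_nonneg _) c.2

theorem exists_int (q : ℚ_[r][X]) : ∃ (b : ℤ_[r]) (Q : ℤ_[r][X]), b ≠ 0 ∧
    Q.map (algebraMap ℤ_[r] ℚ_[r]) = C (b : ℚ_[r]) * q := by
  obtain ⟨b, hb, h⟩ := IsLocalization.integerNormalization_spec (nonZeroDivisors ℤ_[r]) q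
  refine ⟨b, _, nonZeroDivisors.ne_zero hb, h.trans ?_⟩
  rw [← algebraMap_smul ℚ_[r], smul_eq_C_mul]
  rfl

theorem exists_pow_lt {a : ℚ_[r]} (ha : a ≠ 0) : ∃ n : ℕ, 1 ≤ n ∧ (r : ℝ) ^ (-(n : ℤ)) < ‖a‖ := by
  have hr1 : (1 : ℝ) < r := by exact_mod_cast hr.out.one_lt
  obtain ⟨n, h⟩ := exists_pow_lt_of_lt_one (norm_pos_iff.mpr ha) (inv_lt_one_of_one_lt₀ hr1)
  refine ⟨n + 1, by omega, lt_of_le_of_lt ?_ h⟩
  rw [inv_pow, ← zpow_natCast, ← zpow_neg]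
  exact zpow_le_zpow_right₀ hr1.le (by omega)

end Weier

open Weier in
theorem p_weier : S_Weier := by
  intro r hr f hf w₀ hw
  have hr1 : (1 : ℝ) < r := by exact_mod_cast hr.out.one_lt
  have hf0 : ((f.coeff 0 : ℤ) : ℚ_[r]) ≠ 0 := by exact_mod_cast hf.2.2.2
  have hw0 : w₀ ≠ 0 := by
    intro h0
    rw [h0, zero_pow two_ne_zero] at hw
    exact hf0 hw.symm
  have h2w : (2 : ℚ_[r]) * w₀ ≠ 0 := mul_ne_zero two_ne_zero hw0
  have h4f : (4 : ℚ_[r]) * (f.coeff 0 : ℤ) ≠ 0 := mul_ne_zero (by norm_num) hf0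
  obtain ⟨ν, hν1, hν⟩ := exists_pow_lt h4f
  obtain ⟨n1, -, hn1⟩ := exists_pow_lt h2w
  refine ⟨ν, ν + n1, hν1, ?_⟩
  intro n hn k g c xQ yQ l hk D
  have hfm : f.map (Int.castRingHom ℚ_[r]) = X ^ 3 + C ((f.coeff 2 : ℤ) : ℚ_[r]) * X ^ 2 +
      C ((f.coeff 1 : ℤ) : ℚ_[r]) * X + C ((f.coeff 0 : ℤ) : ℚ_[r]) := by
    conv_lhs => rw [cubic_eq hf]
    simp only [Polynomial.map_add, Polynomial.map_mul, Polynomial.map_pow, map_X, map_C]
    rfl
  obtain ⟨hdg, hdc⟩ : g.natDegree ≤ k ∧ c.natDegree ≤ k - 2 := by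
    refine degs (f := f.map (Int.castRingHom ℚ_[r])) ?_ ?_
    · rw [hf.1.natDegree_map, hf.2.1]
    · rw [D.norm, mul_assoc, natDegree_C_mul D.l0, (monic_X_pow _).natDegree_mul (monic_X_sub_C _),
        natDegree_X_pow, natDegree_X_sub_C]
      omega
  have h00 : g.coeff 0 + c.coeff 0 * w₀ = 0 := by
    have e := congrArg (eval 0) D.norm
    rw [hfm] at e
    simp only [eval_sub, eval_mul, eval_pow, eval_add, eval_X, eval_C,
      zero_pow (show 2 * k - 1 ≠ 0 by omega), ← coeff_zero_eq_eval_zero] at e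
    apply (mul_eq_zero.mp (_ : (g.coeff 0 - c.coeff 0 * w₀) * _ = 0)).resolve_left D.atP
    linear_combination e - c.coeff 0 ^ 2 * hw
  refine ⟨hdg, hdc, h00, ?_⟩
  set π : ℚ_[r] := (r : ℚ_[r]) ^ ν with hπ
  have hπn : ‖π‖ = (r : ℝ) ^ (-(ν : ℤ)) := Padic.norm_p_pow ν
  have hπ0 : π ≠ 0 := pow_ne_zero _ (by exact_mod_cast hr.out.ne_zero)
  have hπ1 : ‖π‖ ≤ 1 := by
    rw [hπn]; exact zpow_le_one_of_nonpos₀ hr1.le (by omega)
  -- the integral data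
  obtain ⟨a, ha⟩ : ∃ a : ℤ_[r], (a : ℚ_[r]) = π / (4 * (f.coeff 0 : ℤ)) :=
    ⟨⟨_, by rw [norm_div, div_le_one (norm_pos_iff.mpr h4f), hπn]; exact hν.le⟩, rfl⟩
  obtain ⟨π', hπ'⟩ : ∃ a : ℤ_[r], (a : ℚ_[r]) = π := ⟨⟨_, hπ1⟩, rfl⟩
  obtain ⟨sQ, hsQ⟩ : ∃ a : ℤ_[r], (a : ℚ_[r]) = xQ / π :=
    ⟨⟨_, by
      rw [norm_div, div_le_one (norm_pos_iff.mpr hπ0), hπn]
      exact D.nx.trans (zpow_le_zpow_right₀ hr1.le (by omega))⟩, rfl⟩
  have hη : ‖(yQ - w₀) / (2 * w₀)‖ < 1 := by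
    rw [norm_div, div_lt_one (norm_pos_iff.mpr h2w)]
    exact lt_of_le_of_lt (D.ny.trans (zpow_le_zpow_right₀ hr1.le (by omega))) hn1
  obtain ⟨η, hη'⟩ : ∃ a : ℤ_[r], (a : ℚ_[r]) = (yQ - w₀) / (2 * w₀) := ⟨⟨_, hη.le⟩, rfl⟩
  have hμ : IsUnit (1 + η) := by
    apply IsLocalRing.isUnit_one_sub_self_of_mem_nonunits (-η) _ |>.imp fun _ h => by
      rw [h, sub_neg_eq_add]
    rw [PadicInt.mem_nonunits, norm_neg, PadicInt.norm_def, hη']
    exact hη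
  set ρ : ℤ_[r][X] := C (a * π' ^ 2) * X ^ 3 + C (a * π' * (f.coeff 2 : ℤ)) * X ^ 2 +
    C (a * (f.coeff 1 : ℤ)) * X with hρ
  obtain ⟨b1, G1, hb1, hG1⟩ := exists_int (g.comp (C π * X))
  obtain ⟨b2, C1, hb2, hC1⟩ := exists_int (C w₀ * c.comp (C π * X))
  set M : ℚ_[r] := (b1 : ℚ_[r]) * b2 with hM
  have hM0 : M ≠ 0 := mul_ne_zero (PadicInt.coe_ne_zero.mpr hb1) (PadicInt.coe_ne_zero.mpr hb2)
  set φ := algebraMap ℤ_[r] ℚ_[r] with hφ
  have hφa : ∀ z : ℤ_[r], φ z = z := fun z => rfl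
  have hφi : Function.Injective φ := Subtype.val_injective
  have h2c : ((2 : ℤ_[r]) : ℚ_[r]) = 2 := map_ofNat φ 2
  obtain ⟨G, hG⟩ : ∃ G : ℤ_[r][X], G.map φ = C M * g.comp (C π * X) :=
    ⟨C b2 * G1, by rw [Polynomial.map_mul, map_C, hG1, hφa, hM, C_mul]; ring⟩
  obtain ⟨Cc, hCc⟩ : ∃ G : ℤ_[r][X], G.map φ = C M * (C w₀ * c.comp (C π * X)) :=
    ⟨C b1 * C1, by rw [Polynomial.map_mul, map_C, hC1, hφa, hM, C_mul]; ring⟩
  have hρm : C (w₀ ^ 2) * (1 + 4 * ρ.map φ) = (f.map (Int.castRingHom ℚ_[r])).comp (C π * X) := by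
    have e : (4 : ℚ_[r]) * w₀ ^ 2 * a = π := by
      rw [ha, hw]; field_simp
    have e' := congrArg (C : ℚ_[r] → ℚ_[r][X]) e
    have e2 := congrArg (C : ℚ_[r] → ℚ_[r][X]) hw
    rw [hfm, hρ]
    simp only [Polynomial.map_add, Polynomial.map_mul, Polynomial.map_pow, map_X, map_C, add_comp,
      mul_comp, pow_comp, X_comp, C_comp, map_mul, map_pow, hφa, hπ', PadicInt.coe_intCast] at e' e2 ⊢
    rw [map_ofNat] at e'
    linear_combination e2 + (C π ^ 2 * X ^ 3 + C π * C ((f.coeff 2 : ℤ) : ℚ_[r]) * X ^ 2 +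
      C ((f.coeff 1 : ℤ) : ℚ_[r]) * X) * e'
  have hNm : (G ^ 2 - Cc ^ 2 * (1 + 4 * ρ)).map φ =
      C (M ^ 2 * l * π ^ (2 * k)) * X ^ (2 * k - 1) * (X - C (xQ / π)) := by
    have e := congrArg (fun q => q.comp (C π * X)) D.norm
    simp only [sub_comp, mul_comp, pow_comp, X_comp, C_comp] at e
    rw [← hρm] at e
    have e3 : C π * C (xQ / π) = C xQ := by rw [← C_mul, mul_div_cancel₀ _ hπ0]
    have e4 : C π ^ (2 * k) = C π ^ (2 * k - 1) * C π := by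
      rw [← pow_succ]; congr 1; omega
    simp only [Polynomial.map_sub, Polynomial.map_mul, Polynomial.map_pow, Polynomial.map_add,
      Polynomial.map_one, Polynomial.map_ofNat, hG, hCc, map_mul, map_pow] at e ⊢
    rw [e4]
    rw [mul_pow, ← e3] at e
    linear_combination C M ^ 2 * e
  obtain ⟨l'', hl''⟩ : ∃ z : ℤ_[r], (z : ℚ_[r]) = M ^ 2 * l * π ^ (2 * k) := by
    refine ⟨(G ^ 2 - Cc ^ 2 * (1 + 4 * ρ)).coeff (1 + (2 * k - 1)), ?_⟩
    rw [← hφa, ← coeff_map, hNm, mul_assoc, coeff_C_mul, coeff_X_pow_mul]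
    simp
  have hGi : ∀ i, ((G.coeff i : ℤ_[r]) : ℚ_[r]) = M * (g.coeff i * π ^ i) := by
    intro i
    rw [← hφa, ← coeff_map, hG, coeff_C_mul, comp_C_mul_X_coeff]
  have hC0 : ((Cc.coeff 0 : ℤ_[r]) : ℚ_[r]) = M * (w₀ * c.coeff 0) := by
    rw [← hφa, ← coeff_map, hCc, coeff_C_mul, coeff_C_mul, comp_C_mul_X_coeff, pow_zero, mul_one]
  have hl0 : ((G.coeff 0 - Cc.coeff 0 : ℤ_[r]) : ℚ_[r]) = M * (2 * g.coeff 0) := by
    rw [PadicInt.coe_sub, hGi, hC0]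
    linear_combination -M * h00
  have hg0 : 2 * g.coeff 0 ≠ 0 := fun h => D.atP (by linear_combination h - h00)
  have hev : ∀ q : ℤ_[r][X], ((q.eval sQ : ℤ_[r]) : ℚ_[r]) = (q.map φ).eval (xQ / π) := by
    intro q
    rw [← hsQ, ← hφa, ← hφa, eval_map_algebraMap, ← aeval_algebraMap_apply_eq_algebraMap_eval]
  have hxπ : (C π * X).eval (xQ / π) = xQ := by
    rw [eval_mul, eval_C, eval_X, mul_div_cancel₀ _ hπ0]
  have hy : w₀ * (2 * (1 + (η : ℚ_[r])) - 1) = yQ := by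
    rw [hη']; field_simp; ring
  obtain ⟨hA, hB⟩ := radB k (by omega) ρ G Cc sQ (1 + η) l'' (by simp [hρ]) hμ
    (by
      apply hφi
      have e := congrArg (eval (xQ / π)) hρm
      rw [eval_comp, hxπ, ← eval₂_eq_eval_map, ← algebraMap_int_eq, ← aeval_def, ← D.onE,
        ← hy] at e
      simp only [eval_mul, eval_add, eval_C, eval_one, eval_ofNat] at e
      rw [hφa, hφa, hev]
      push_cast
      apply mul_left_cancel₀ (mul_ne_zero (show (4 : ℚ_[r]) ≠ 0 by norm_num) (pow_ne_zero 2 hw0))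
      linear_combination -e)
    (by
      rw [natDegree_le_iff_coeff_eq_zero]
      intro i hi
      apply hφi
      rw [hφa, hGi, coeff_eq_zero_of_natDegree_lt (hdg.trans_lt hi), map_zero, zero_mul, mul_zero])
    (by
      apply map_injective φ hφi
      rw [hNm]
      simp only [Polynomial.map_mul, Polynomial.map_pow, Polynomial.map_sub, map_X, map_C, hφa,
        hl'', hsQ])
    (by
      rw [← PadicInt.coe_ne_zero, hl'']
      exact mul_ne_zero (mul_ne_zero (pow_ne_zero 2 hM0) D.l0) (pow_ne_zero _ hπ0))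
    (by
      apply hφi
      rw [hφa, map_zero]
      push_cast
      rw [hev, hev, hG, hCc, h2c]
      simp only [eval_mul, eval_C, eval_comp, hxπ]
      linear_combination M * D.atQ + M * c.eval xQ * hy)
    (by
      rw [← PadicInt.coe_ne_zero, hl0]
      exact mul_ne_zero hM0 hg0)
  have hMp : 0 < ‖M‖ := norm_pos_iff.mpr hM0
  have h2p : 0 < ‖(2 : ℚ_[r])‖ := norm_pos_iff.mpr two_ne_zero
  constructor
  · intro i
    have e := norm_le_of_dvd (hA i)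
    rw [hl0] at e
    push_cast at e
    rw [hGi, h2c] at e
    simp only [norm_mul, norm_pow, hπn] at e
    rw [← zpow_natCast, ← zpow_mul, show (-(ν : ℤ)) * (i : ℕ) = -(i * ν : ℤ) by ring] at e
    have : ‖M‖ * ‖(2 : ℚ_[r])‖ * (‖g.coeff i‖ * (r : ℝ) ^ (-(i * ν : ℤ))) ≤
        ‖M‖ * ‖(2 : ℚ_[r])‖ * ‖g.coeff 0‖ := by linarith
    exact le_of_mul_le_mul_left this (mul_pos hMp h2p)
  · have e := norm_le_of_dvd hB
    rw [hl'', PadicInt.coe_pow, hl0, mul_pow M, norm_mul, norm_mul, norm_mul (M ^ 2) (_ ^ 2),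
      norm_pow π,
      norm_pow (2 * g.coeff 0), hπn, ← zpow_natCast _ (2 * k), ← zpow_mul,
      show (-(ν : ℤ)) * (2 * k : ℕ) = -(2 * k * ν : ℤ) by push_cast; ring, mul_assoc] at e
    exact le_of_mul_le_mul_left e (norm_pos_iff.mpr (pow_ne_zero 2 hM0))

end Pool.Agent.P.MP_b8021b_nt.VE
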