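import Pool.Agent.P.MP_b8021b_nt.VE.PWin1

/-! N21: sums of the test function over a coset of an ideal of a quartic field. -/

namespace Pool.Agent.P.MP_b8021b_nt.VE

open MeasureTheory NumberField

namespace Win

lemma cov_rel {E : Type} [NormedAddCommGroup E] [NormedSpace ℝ E] [FiniteDimensional ℝ E]
    [MeasurableSpace E] [BorelSpace E] (μ : Measure E) [μ.IsAddHaarMeasure]
    (L₁ L₂ : Submodule ℤ E) [DiscreteTopology L₁] [IsZLattice ℝ L₁] [DiscreteTopology L₂]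
    [IsZLattice ℝ L₂] (h : L₁ ≤ L₂) :
    ZLattice.covolume L₁ μ =
      L₁.toAddSubgroup.relIndex L₂.toAddSubgroup * ZLattice.covolume L₂ μ := by
  classical
  let b₁ := Module.finBasisOfFinrankEq ℤ L₁ (ZLattice.rank ℝ L₁)
  let b₂ := Module.finBasisOfFinrankEq ℤ L₂ (ZLattice.rank ℝ L₂)
  rw [AddSubgroup.relIndex_eq_natAbs_det L₁.toAddSubgroup L₂.toAddSubgroup h b₁ b₂,
    Nat.cast_natAbs, Int.cast_abs,
    ZLattice.covolume_eq_det_mul_measureReal L₁ μ b₁ (b₂.ofZLatticeBasis ℝ),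
    ZLattice.covolume_eq_measure_fundamentalDomain L₂ μ (ZLattice.isAddFundamentalDomain b₂ μ)]
  congr 2
  rw [Module.Basis.det_apply, Module.Basis.det_apply, Int.cast_det]
  congr 1
  ext i j
  rw [Matrix.map_apply, Module.Basis.toMatrix_apply, Module.Basis.toMatrix_apply]
  exact (b₂.ofZLatticeBasis_repr_apply ℝ L₂ ⟨b₁ j, h (Submodule.coe_mem _)⟩ i)

lemma vol_box {a b : ℝ} (ha : 0 ≤ a) (hb : 0 ≤ b) :
    (volume : Measure (ℂ × ℂ)) (Metric.closedBall 0 a ×ˢ Metric.closedBall 0 b) =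
      ENNReal.ofReal (a ^ 2 * Real.pi * (b ^ 2 * Real.pi)) := by
  rw [Measure.volume_eq_prod, Measure.prod_prod, Complex.volume_closedBall,
    Complex.volume_closedBall, ENNReal.ofReal_mul (by positivity),
    ENNReal.ofReal_mul (by positivity), ENNReal.ofReal_mul (by positivity),
    ENNReal.ofReal_pow ha, ENNReal.ofReal_pow hb, ← NNReal.coe_real_pi, ENNReal.ofReal_coe_nnreal]

variable {K : Type} [Field K] [NumberField K] {Q : ℝ} (F : Quart K Q)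

/-- the embedding -/
noncomputable def ph : 𝓞 K →ₗ[ℤ] ℂ × ℂ :=
  ((F.σ₁.comp (algebraMap (𝓞 K) K)).prod
    (F.σ₂.comp (algebraMap (𝓞 K) K))).toAddMonoidHom.toIntLinearMap

lemma ph_apply (β : 𝓞 K) : ph F β = (F.σ₁ β, F.σ₂ β) := rfl

lemma s1_ne {β : 𝓞 K} (h : β ≠ 0) : F.σ₁ β ≠ 0 := by
  rw [map_ne_zero]; exact_mod_cast h

lemma s2_ne {β : 𝓞 K} (h : β ≠ 0) : F.σ₂ β ≠ 0 := by
  rw [map_ne_zero]; exact_mod_cast h

lemma ph_inj : Function.Injective (ph F) := by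
  rw [injective_iff_map_eq_zero]
  intro β h
  by_contra hc
  exact s1_ne F hc (congrArg Prod.fst h)

lemma one_le_ph {β : 𝓞 K} (h : β ≠ 0) : 1 ≤ ‖ph F β‖ := by
  have h1 : 1 ≤ Ideal.absNorm (Ideal.span {β}) := by
    rw [Nat.one_le_iff_ne_zero, Ne, Ideal.absNorm_eq_zero_iff, Ideal.span_singleton_eq_bot]
    exact h
  have h2 : (1 : ℝ) ≤ ‖F.σ₁ β‖ ^ 2 * ‖F.σ₂ β‖ ^ 2 := by
    rw [← F.nrm]; exact_mod_cast h1
  have h3 : ‖F.σ₁ β‖ ≤ ‖ph F β‖ := norm_fst_le (ph F β)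
  have h4 : ‖F.σ₂ β‖ ≤ ‖ph F β‖ := norm_snd_le (ph F β)
  by_contra hc
  have hc := not_le.mp hc
  have h5 : ‖F.σ₁ β‖ ^ 2 < 1 := by nlinarith [norm_nonneg (F.σ₁ β)]
  have h6 : ‖F.σ₂ β‖ ^ 2 < 1 := by nlinarith [norm_nonneg (F.σ₂ β)]
  nlinarith [sq_nonneg ‖F.σ₁ β‖, sq_nonneg ‖F.σ₂ β‖]

/-- the lattice of an ideal -/
noncomputable def lat (𝔟 : Ideal (𝓞 K)) : Submodule ℤ (ℂ × ℂ) :=
  (𝔟.restrictScalars ℤ).map (ph F)

lemma mem_lat {𝔟 : Ideal (𝓞 K)} {x : ℂ × ℂ} : x ∈ lat F 𝔟 ↔ ∃ β ∈ 𝔟, ph F β = x := Iff.rfl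

lemma lat_disc (𝔟 : Ideal (𝓞 K)) : DiscreteTopology (lat F 𝔟) := by
  rw [discreteTopology_iff_isOpen_singleton_zero]
  have : ({0} : Set (lat F 𝔟)) = (↑) ⁻¹' Metric.ball (0 : ℂ × ℂ) 1 := by
    ext x
    simp only [Set.mem_singleton_iff, Set.mem_preimage, mem_ball_zero_iff]
    constructor
    · rintro rfl; simp
    · intro hx
      obtain ⟨β, -, hβ⟩ := (mem_lat F).mp x.2
      by_cases h : β = 0
      · apply Subtype.ext
        rw [← hβ, h, map_zero]; rfl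
      · have := one_le_ph F h
        rw [hβ] at this
        linarith
  rw [this]
  exact Metric.isOpen_ball.preimage continuous_subtype_val

lemma li_mul {γ : 𝓞 K} (h : γ ≠ 0) : LinearIndependent ℝ fun j => ph F (γ * F.b j) := by
  have hk : LinearMap.ker (mm (F.σ₁ γ) (F.σ₂ γ)) = ⊥ := by
    rw [LinearMap.ker_eq_bot']
    intro w hw
    rw [mm_apply, Prod.mk_eq_zero, mul_eq_zero, mul_eq_zero] at hw
    exact Prod.ext (hw.1.resolve_left (s1_ne F h)) (hw.2.resolve_left (s2_ne F h))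
  have := F.li.map' _ hk
  have e : (fun j => ph F (γ * F.b j)) =
      mm (F.σ₁ γ) (F.σ₂ γ) ∘ fun j => (F.σ₁ (F.b j), F.σ₂ (F.b j)) := by
    funext j
    simp [ph_apply, mm_apply]
  rw [e]
  exact this

/-- a real basis inside the lattice -/
noncomputable def bas {γ : 𝓞 K} (h : γ ≠ 0) : Module.Basis (Fin 4) ℝ (ℂ × ℂ) :=
  basisOfLinearIndependentOfCardEqFinrank (li_mul F h) (by simp)

lemma bas_apply {γ : 𝓞 K} (h : γ ≠ 0) (j : Fin 4) : bas F h j = ph F (γ * F.b j) := by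
  simp [bas]

lemma absNorm_ne {𝔟 : Ideal (𝓞 K)} (h : 𝔟 ≠ ⊥) : ((Ideal.absNorm 𝔟 : ℕ) : 𝓞 K) ≠ 0 := by
  rw [Nat.cast_ne_zero, Ne, Ideal.absNorm_eq_zero_iff]
  exact h

lemma lat_isZ {𝔟 : Ideal (𝓞 K)} (h : 𝔟 ≠ ⊥) [DiscreteTopology (lat F 𝔟)] :
    IsZLattice ℝ (lat F 𝔟) := by
  refine ⟨top_unique ?_⟩
  rw [← (bas F (absNorm_ne h)).span_eq]
  apply Submodule.span_mono
  rintro _ ⟨j, rfl⟩
  rw [bas_apply]
  exact (mem_lat F).mpr ⟨_, 𝔟.mul_mem_right _ (Ideal.absNorm_mem 𝔟), rfl⟩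

lemma finite_bdd (ρ : ℝ) : {β : 𝓞 K | ‖ph F β‖ ≤ ρ}.Finite := by
  have := lat_disc F ⊤
  have h1 : (Metric.closedBall (0 : ℂ × ℂ) ρ ∩ (lat F ⊤ : Set (ℂ × ℂ))).Finite := by
    refine Metric.finite_isBounded_inter_isClosed DiscreteTopology.isDiscrete
      Metric.isBounded_closedBall ?_
    rw [← Submodule.coe_toAddSubgroup]
    exact AddSubgroup.isClosed_of_discrete
  refine (h1.preimage (ph_inj F).injOn).subset ?_
  intro β hβ
  exact ⟨mem_closedBall_zero_iff.mpr hβ, (mem_lat F).mpr ⟨β, trivial, rfl⟩⟩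

lemma cov_eq {𝔟 : Ideal (𝓞 K)} (h : 𝔟 ≠ ⊥) :
    ZLattice.covolume (lat F 𝔟) volume =
      Ideal.absNorm 𝔟 * ZLattice.covolume (lat F ⊤) volume := by
  have := haar
  have := lat_disc F ⊤
  have := lat_disc F 𝔟
  have := lat_isZ F h
  have := lat_isZ F (𝔟 := ⊤) top_ne_bot
  rw [cov_rel volume (lat F 𝔟) (lat F ⊤) (Submodule.map_mono fun x _ => trivial)]
  congr 2
  have e : ∀ 𝔠 : Ideal (𝓞 K), (lat F 𝔠).toAddSubgroup =
      𝔠.toAddSubgroup.map (ph F).toAddMonoidHom := fun 𝔠 => rfl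
  rw [e, e, AddSubgroup.relIndex_map_map_of_injective _ _ (ph_inj F), Ideal.absNorm_eq_index]
  exact AddSubgroup.relIndex_top_right _

lemma cov_ge {𝔟 : Ideal (𝓞 K)} (h : 𝔟 ≠ ⊥) : 1 / 32 ≤ ZLattice.covolume (lat F 𝔟) volume := by
  have := haar
  have := lat_disc F 𝔟
  have := lat_isZ F h
  let b := Module.Free.chooseBasis ℤ (lat F 𝔟)
  have fund := ZLattice.isAddFundamentalDomain b (volume : Measure (ℂ × ℂ))
  rw [ZLattice.covolume_eq_measure_fundamentalDomain _ _ fund]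
  by_contra hc
  have hc := not_le.mp hc
  have hfin : (volume : Measure (ℂ × ℂ)) (ZSpan.fundamentalDomain (b.ofZLatticeBasis ℝ)) ≠ ⊤ :=
    (ZSpan.fundamentalDomain_isBounded _).measure_lt_top.ne
  have hcount : Countable (lat F 𝔟).toAddSubgroup :=
    (inferInstance : Countable (lat F 𝔟))
  obtain ⟨x, hx0, hx⟩ := exists_ne_zero_mem_lattice_of_measure_mul_two_pow_lt_measure
    (L := (lat F 𝔟).toAddSubgroup) (μ := volume)
    (s := Metric.closedBall (0 : ℂ) (1 / 2) ×ˢ Metric.closedBall (0 : ℂ) (1 / 2)) fund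
    (fun x hx => by
      simp only [Set.mem_prod, mem_closedBall_zero_iff, Prod.fst_neg, Prod.snd_neg,
        norm_neg] at hx ⊢
      exact hx)
    ((convex_closedBall _ _).prod (convex_closedBall _ _)) (by
      rw [vol_box (by norm_num) (by norm_num), ← ENNReal.ofReal_toReal hfin]
      have : Module.finrank ℝ (ℂ × ℂ) = 4 := by simp
      rw [this, show (2 : ENNReal) ^ 4 = ENNReal.ofReal 16 by norm_num,
        ← ENNReal.ofReal_mul ENNReal.toReal_nonneg, ENNReal.ofReal_lt_ofReal_iff (by positivity)]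
      have := Real.pi_gt_three
      unfold Measure.real at hc
      nlinarith)
  obtain ⟨β, -, hβ⟩ := (mem_lat F).mp x.2
  have hβ0 : β ≠ 0 := by
    rintro rfl
    apply hx0
    apply Subtype.ext
    rw [← hβ, map_zero]; rfl
  have h1 := one_le_ph F hβ0
  rw [hβ, Prod.norm_def] at h1
  simp only [Set.mem_prod, mem_closedBall_zero_iff] at hx
  have := max_le hx.1 hx.2
  linarith

lemma sum_conv (𝔟 : Ideal (𝓞 K)) (β₀ : 𝓞 K) (f : ℂ × ℂ → ℂ) :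
    ∑ᶠ β ∈ {β : 𝓞 K | β - β₀ ∈ 𝔟}, f (ph F β) =
      ∑ᶠ x ∈ (lat F 𝔟 : Set (ℂ × ℂ)), f (ph F β₀ + x) := by
  refine finsum_mem_eq_of_bijOn (fun β => ph F (β - β₀)) ⟨?_, ?_, ?_⟩ ?_
  · intro β hβ
    exact (mem_lat F).mpr ⟨_, hβ, rfl⟩
  · intro β _ β' _ h
    exact sub_left_injective (ph_inj F h)
  · intro x hx
    obtain ⟨β, hβ, rfl⟩ := (mem_lat F).mp hx
    exact ⟨β + β₀, by simpa using hβ, by simp⟩
  · intro β _
    simp

lemma Wd_fin (k₁ k₂ : ℤ) {r : ℝ} (hr0 : 0 ≤ r) (hr : r ≤ 1) {ρ : ℝ} (hρ : 0 < ρ) (t : ℝ) :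
    {β : 𝓞 K | Wd k₁ k₂ r ρ t (ph F β) ≠ 0}.Finite := by
  refine (finite_bdd F (max (4 * ρ * Real.exp t) (4 * ρ * Real.exp (-t)))).subset ?_
  intro β hβ
  obtain ⟨h1, h2⟩ := supp_Wd hr0 hr hρ hβ
  show ‖ph F β‖ ≤ _
  rw [Prod.norm_def]
  exact max_le_max h1 h2

lemma window (hLat : S_Lat) (k₁ k₂ : ℤ) {r : ℝ} (hr0 : 0 ≤ r) (hr : r ≤ 1) {ρ : ℝ} (hρ : 1 ≤ ρ)
    (t A : ℝ) {𝔟 : Ideal (𝓞 K)} (h : 𝔟 ≠ ⊥) (β₀ : 𝓞 K) {γ : 𝓞 K} (hγ : γ ≠ 0) (hγb : γ ∈ 𝔟)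
    (hA : 0 ≤ A) (hQ : 0 ≤ Q) (g1 : ‖F.σ₁ γ‖ ≤ A * Real.exp t)
    (g2 : ‖F.σ₂ γ‖ ≤ A * Real.exp (-t)) :
    ‖∑ᶠ β ∈ {β : 𝓞 K | β - β₀ ∈ 𝔟}, Wd k₁ k₂ r ρ t (ph F β) -
      (ρ ^ 4 : ℝ) * (∫ w, G k₁ k₂ r w) / (ZLattice.covolume (lat F 𝔟) volume : ℝ)‖ ≤
      2 ^ 19 * (|(k₁ : ℝ)| + |(k₂ : ℝ)| + 1) * (4 + 4 * A * Q) ^ 5 * ρ ^ 3 := by
  have := haar
  have := lat_disc F 𝔟
  have := lat_isZ F h
  have hρ0 : 0 < ρ := by linarith
  set P := 4 * A * Q with hP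
  have hP0 : 0 ≤ P := by positivity
  have hδ : ∀ c : Fin 4 → ℝ, (∀ j, |c j| ≤ 1) →
      ‖(∑ j, c j • bas F hγ j).1‖ ≤ P * Real.exp t ∧
        ‖(∑ j, c j • bas F hγ j).2‖ ≤ P * Real.exp (-t) := by
    intro c hc
    have key : ∀ (σ : K →+* ℂ) (B : ℝ), (∀ j, ‖σ (F.b j)‖ ≤ Q) → ‖σ γ‖ ≤ A * B →
        ‖∑ j, c j • σ ((γ * F.b j : 𝓞 K) : K)‖ ≤ P * B := by
      intro σ B h1 h2
      refine (norm_sum_le _ _).trans ?_
      have : ∀ j, ‖c j • σ ((γ * F.b j : 𝓞 K) : K)‖ ≤ A * B * Q := by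
        intro j
        rw [norm_smul, Real.norm_eq_abs]
        refine (mul_le_of_le_one_left (norm_nonneg _) (hc j)).trans ?_
        push_cast
        rw [map_mul, norm_mul]
        exact mul_le_mul h2 (h1 j) (norm_nonneg _) ((norm_nonneg _).trans h2)
      refine (Finset.sum_le_sum fun j _ => this j).trans (le_of_eq ?_)
      simp [hP]
      ring
    simp only [Prod.fst_sum, Prod.snd_sum, Prod.smul_fst, Prod.smul_snd, bas_apply, ph_apply]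
    exact ⟨key F.σ₁ _ F.le₁ g1, key F.σ₂ _ F.le₂ g2⟩
  have hvol := vol_box (a := (4 * ρ + P) * Real.exp t) (b := (4 * ρ + P) * Real.exp (-t))
    (by positivity) (by positivity)
  have main := hLat (ℂ × ℂ) volume (lat F 𝔟) (Fin 4) (bas F hγ) (Wd k₁ k₂ r ρ t)
    (1024 * (|(k₁ : ℝ)| + |(k₂ : ℝ)| + 1) * (P / ρ))
    (Metric.closedBall 0 ((4 * ρ + P) * Real.exp t) ×ˢ
      Metric.closedBall 0 ((4 * ρ + P) * Real.exp (-t))) (ph F β₀)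
    (fun j => by
      rw [bas_apply]
      exact (mem_lat F).mpr ⟨_, 𝔟.mul_mem_right _ hγb, rfl⟩)
    (Wd_cont k₁ k₂ hr0 hr ρ t)
    (HasCompactSupport.intro ((isCompact_closedBall (0 : ℂ) (4 * ρ * Real.exp t)).prod
      (isCompact_closedBall (0 : ℂ) (4 * ρ * Real.exp (-t)))) fun x hx => by
        by_contra hc
        obtain ⟨h1, h2⟩ := supp_Wd hr0 hr hρ0 hc
        exact hx ⟨mem_closedBall_zero_iff.mpr h1, mem_closedBall_zero_iff.mpr h2⟩)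
    (by rw [hvol]; exact ENNReal.ofReal_ne_top)
    (fun y c hc => Wd_lip k₁ k₂ hr0 hr hρ0 t P y _ (hδ c hc).1 (hδ c hc).2)
    (fun y c hc hy => by
      obtain ⟨h1, h2⟩ := supp_Wd hr0 hr hρ0 hy
      obtain ⟨h3, h4⟩ := hδ c hc
      refine ⟨mem_closedBall_zero_iff.mpr ?_, mem_closedBall_zero_iff.mpr ?_⟩
      · refine (norm_add_le _ _).trans ?_
        linarith
      · refine (norm_add_le _ _).trans ?_
        linarith)
  rw [sum_conv, ← integral_Wd k₁ k₂ hr0 hr hρ0 t]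
  refine main.trans ?_
  have hc := cov_ge F h
  rw [div_le_iff₀ (by linarith), Measure.real, hvol, ENNReal.toReal_ofReal (by positivity)]
  have e1 : ((4 * ρ + P) * Real.exp t) ^ 2 * Real.pi *
      (((4 * ρ + P) * Real.exp (-t)) ^ 2 * Real.pi) = (4 * ρ + P) ^ 4 * Real.pi ^ 2 := by
    rw [Real.exp_neg]
    field_simp
  rw [e1]
  set k := |(k₁ : ℝ)| + |(k₂ : ℝ)| + 1
  have hk : 0 ≤ k := by positivity
  have h1 : (4 * ρ + P) ^ 4 ≤ ((4 + P) * ρ) ^ 4 :=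
    pow_le_pow_left₀ (by positivity) (by nlinarith) 4
  have h2 : Real.pi ^ 2 ≤ 16 := by nlinarith [Real.pi_le_four, Real.pi_pos]
  have h3 : P / ρ ≤ (4 + P) / ρ := by gcongr; linarith
  calc 1024 * k * (P / ρ) * ((4 * ρ + P) ^ 4 * Real.pi ^ 2)
      ≤ 1024 * k * ((4 + P) / ρ) * (((4 + P) * ρ) ^ 4 * 16) := by gcongr
    _ = 2 ^ 19 * k * (4 + P) ^ 5 * ρ ^ 3 * (1 / 32) := by field_simp; ring
    _ ≤ _ := by gcongr

lemma numer (C : ℕ) {Q N R k m : ℝ} (hQ : 2 ≤ Q) (hN : 1 ≤ N) (hR : 0 ≤ R) (hk1 : 1 ≤ k)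
    (hm0 : 0 ≤ m) (hm1 : m ≤ R + 1) :
    m * (2 ^ 19 * k * (4 + 4 * (N * Q ^ C) * Q) ^ 5) ≤ (Q * N * (R + 1) * k) ^ (5 * C + 50) := by
  obtain ⟨X, hX⟩ : ∃ X, X = Q * N * (R + 1) * k := ⟨_, rfl⟩
  rw [← hX]
  have hR1 : 1 ≤ R + 1 := by linarith
  have q1 : Q * N ≤ X := by
    rw [hX, mul_assoc (Q * N)]
    exact le_mul_of_one_le_right (by positivity) (one_le_mul_of_one_le_of_one_le hR1 hk1)
  have q2 : (R + 1) * k ≤ X := by
    rw [hX, mul_assoc (Q * N)]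
    exact le_mul_of_one_le_left (by positivity)
      (one_le_mul_of_one_le_of_one_le (by linarith) hN)
  have q3 : Q ≤ X := (le_mul_of_one_le_right (by linarith) hN).trans q1
  have hX2 : 2 ≤ X := hQ.trans q3
  have q4 : 4 + 4 * (N * Q ^ C) * Q ≤ X ^ (C + 4) := by
    have a1 : Q ^ C ≤ X ^ C := pow_le_pow_left₀ (by linarith) q3 C
    have a2 : N * Q ^ C * Q ≤ X ^ (C + 1) := by
      rw [pow_succ, mul_comm N, mul_assoc, mul_comm N]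
      exact mul_le_mul a1 q1 (by positivity) (by positivity)
    have a3 : 1 ≤ X ^ (C + 1) := one_le_pow₀ (by linarith)
    have a4 : (2 : ℝ) ^ 3 ≤ X ^ 3 := pow_le_pow_left₀ (by norm_num) hX2 3
    rw [show C + 4 = C + 1 + 3 by ring, pow_add X (C + 1)]
    nlinarith
  have q5 : (2 : ℝ) ^ 19 ≤ X ^ 19 := pow_le_pow_left₀ (by norm_num) hX2 19
  have q6 : m * k ≤ X := (mul_le_mul_of_nonneg_right hm1 (by linarith)).trans q2
  calc m * (2 ^ 19 * k * (4 + 4 * (N * Q ^ C) * Q) ^ 5)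
      = 2 ^ 19 * (m * k) * (4 + 4 * (N * Q ^ C) * Q) ^ 5 := by ring
    _ ≤ X ^ 19 * X * (X ^ (C + 4)) ^ 5 := by gcongr
    _ = X ^ (5 * C + 40) := by ring
    _ ≤ X ^ (5 * C + 50) := pow_le_pow_right₀ (by linarith) (by omega)

end Win

open Win in
theorem p_win (hLat : S_Lat) (hMink : S_Mink) : S_Win := by
  obtain ⟨C, hC⟩ := hMink
  refine ⟨5 * C + 50, fun K _ _ Q F k₁ k₂ R hQ hR => ?_⟩
  obtain ⟨hM, -, -⟩ := hC K Q F hQ
  set m := ⌈R⌉₊ with hm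
  have hm0 : (0 : ℝ) < m := by exact_mod_cast Nat.ceil_pos.mpr hR
  set r := R / m with hr
  have hr0 : 0 ≤ r := by positivity
  have hr1 : r ≤ 1 := by rw [hr, div_le_one hm0]; exact Nat.le_ceil R
  have hRm : R = m * r := by rw [hr]; field_simp
  refine ⟨m * (∫ w, G k₁ k₂ r w) / (ZLattice.covolume (lat F ⊤) volume : ℝ), fun hk => by
    rw [integral_G hr0 hr1 hk]; simp, fun 𝔟 β₀ Z h𝔟 hZ => ?_⟩
  set ρ := Z ^ (1 / 4 : ℝ) with hρ
  have hρ1 : 1 ≤ ρ := Real.one_le_rpow hZ (by norm_num)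
  have hρ0 : 0 < ρ := by linarith
  have hρ4 : ρ ^ 4 = Z := by
    rw [hρ, ← Real.rpow_natCast, ← Real.rpow_mul (by linarith)]; norm_num
  have hρ3 : ρ ^ 3 = Z ^ (3 / 4 : ℝ) := by
    rw [hρ, ← Real.rpow_natCast, ← Real.rpow_mul (by linarith)]; norm_num
  have hw : ∀ β : 𝓞 K, wfn k₁ k₂ Z R (F.σ₁ β) (F.σ₂ β) =
      ∑ j ∈ Finset.range m, Wd k₁ k₂ r ρ (j * r / 2) (ph F β) := by
    intro β
    rw [← wfn_eq_sum k₁ k₂ r m hρ0, hρ4, ← hRm]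
    rfl
  constructor
  · refine ((Finset.range m).finite_toSet.biUnion fun j _ =>
      Wd_fin F k₁ k₂ hr0 hr1 hρ0 (j * r / 2)).subset ?_
    intro β hβ
    rw [Set.mem_ofPred_eq, hw] at hβ
    obtain ⟨j, hj, h⟩ := Finset.exists_ne_zero_of_sum_ne_zero hβ
    exact Set.mem_biUnion (Finset.mem_coe.mpr hj) h
  have hN1 : 1 ≤ Ideal.absNorm 𝔟 := by
    rw [Nat.one_le_iff_ne_zero, Ne, Ideal.absNorm_eq_zero_iff]; exact h𝔟
  have hN : (1 : ℝ) ≤ Ideal.absNorm 𝔟 := by exact_mod_cast hN1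
  set N : ℝ := (Ideal.absNorm 𝔟 : ℝ) with hNdef
  have hcov := cov_ge F (𝔟 := ⊤) top_ne_bot
  have hsum : ∑ᶠ β ∈ {β : 𝓞 K | β - β₀ ∈ 𝔟}, wfn k₁ k₂ Z R (F.σ₁ β) (F.σ₂ β) =
      ∑ j ∈ Finset.range m, ∑ᶠ β ∈ {β : 𝓞 K | β - β₀ ∈ 𝔟},
        Wd k₁ k₂ r ρ (j * r / 2) (ph F β) := by
    simp only [hw, ← finsum_set_coe_eq_finsum_mem]
    refine finsum_sum_comm _ _ fun j _ => ?_
    exact (Wd_fin F k₁ k₂ hr0 hr1 hρ0 (j * r / 2)).preimage Subtype.val_injective.injOn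
  have hI : (Z : ℂ) * (m * (∫ w, G k₁ k₂ r w) / (ZLattice.covolume (lat F ⊤) volume : ℝ)) /
      (Ideal.absNorm 𝔟 : ℂ) = ∑ j ∈ Finset.range m,
        (ρ ^ 4 : ℝ) * (∫ w, G k₁ k₂ r w) / (ZLattice.covolume (lat F 𝔟) volume : ℝ) := by
    rw [Finset.sum_const, Finset.card_range, nsmul_eq_mul, cov_eq F h𝔟, hρ4]
    have h1 : ((Ideal.absNorm 𝔟 : ℕ) : ℂ) ≠ 0 := by exact_mod_cast (by omega : _ ≠ 0)
    have h2 : ((ZLattice.covolume (lat F ⊤) volume : ℝ) : ℂ) ≠ 0 := by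
      have : ZLattice.covolume (lat F ⊤) volume ≠ 0 := by linarith
      exact_mod_cast this
    push_cast
    field_simp
  rw [hsum, hI, ← Finset.sum_sub_distrib]
  refine (norm_sum_le _ _).trans ?_
  set k := |(k₁ : ℝ)| + |(k₂ : ℝ)| + 1 with hk
  have hk1 : 1 ≤ k := by linarith [abs_nonneg (k₁ : ℝ), abs_nonneg (k₂ : ℝ)]
  have hb : ∀ j ∈ Finset.range m, ‖∑ᶠ β ∈ {β : 𝓞 K | β - β₀ ∈ 𝔟},
      Wd k₁ k₂ r ρ (j * r / 2) (ph F β) -
      (ρ ^ 4 : ℝ) * (∫ w, G k₁ k₂ r w) / (ZLattice.covolume (lat F 𝔟) volume : ℝ)‖ ≤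
      2 ^ 19 * k * (4 + 4 * (N * Q ^ C) * Q) ^ 5 * ρ ^ 3 := by
    intro j _
    obtain ⟨γ, -, hγ, g1, g2⟩ := hM ⊤ (j * r / 2) top_ne_bot
    simp only [Ideal.absNorm_top, Nat.cast_one, Real.one_rpow, mul_one] at g1 g2
    refine window F hLat k₁ k₂ hr0 hr1 hρ1 _ _ h𝔟 β₀ (mul_ne_zero (absNorm_ne h𝔟) hγ)
      (𝔟.mul_mem_right _ (Ideal.absNorm_mem 𝔟)) (by positivity) (by linarith) ?_ ?_
    · push_cast
      rw [map_mul, map_natCast, norm_mul, Complex.norm_natCast, mul_assoc]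
      exact mul_le_mul_of_nonneg_left g1 (by positivity)
    · push_cast
      rw [map_mul, map_natCast, norm_mul, Complex.norm_natCast, mul_assoc]
      exact mul_le_mul_of_nonneg_left g2 (by positivity)
  refine (Finset.sum_le_sum hb).trans ?_
  rw [Finset.sum_const, Finset.card_range, nsmul_eq_mul, ← hρ3, ← mul_assoc]
  refine mul_le_mul_of_nonneg_right ?_ (by positivity)
  rw [Int.cast_abs, Int.cast_abs, ← hk]
  exact numer C hQ hN hR.le hk1 (Nat.cast_nonneg m) (Nat.ceil_lt_add_one hR.le).le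

end Pool.Agent.P.MP_b8021b_nt.VE
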