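import Pool.Agent.P.MP_b8021b_nt.VE.BasicP
import Pool.Agent.P.MP_b8021b_nt.VE.PWw1
import Pool.Agent.P.MP_b8021b_nt.VE.PWw2

/-! N28b: good tuples and factorisations. -/

namespace Pool.Agent.P.MP_b8021b_nt.VE

open Polynomial NumberField Finset
open scoped Classical

namespace Ww

/-- equidistribution of `μ` in residue classes -/
def Eqd (μ : (ℤ → ℤ → Prop) → ℝ) (y : ℝ) (a : ℤ) : Prop :=
  ∀ (d m : ℕ) (Φ : ℤ → ℤ → Prop), 1 ≤ d → (d : ℝ) ≤ y ^ 80 → IsCoprime (d : ℤ) a → Den d Φ m →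
    |μ Φ - m / (d : ℝ) ^ 2| ≤ y⁻¹ * (m / (d : ℝ) ^ 2)

section

variable {μ : (ℤ → ℤ → Prop) → ℝ} {y : ℝ} {a : ℤ}

lemma Eqd.le (H : Eqd μ y a) (hy : 1 ≤ y) {d m : ℕ} {Φ : ℤ → ℤ → Prop} (h1 : 1 ≤ d)
    (h2 : (d : ℝ) ≤ y ^ 80) (h3 : IsCoprime (d : ℤ) a) (h4 : Den d Φ m) :
    μ Φ ≤ 2 * (m / (d : ℝ) ^ 2) := by
  have h5 := (abs_le.mp (H d m Φ h1 h2 h3 h4)).2
  have h6 : y⁻¹ ≤ 1 := inv_le_one_of_one_le₀ hy
  have h7 : (0 : ℝ) ≤ m / (d : ℝ) ^ 2 := by positivity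
  nlinarith

lemma Eqd.b0 (H : Eqd μ y a) (hy : 9 ≤ y) {q q' : ℕ} (hq : q.Prime) (hq' : q'.Prime) (hne : q ≠ q')
    (h1 : (q : ℝ) < 3 * y) (h1' : (q' : ℝ) < 3 * y) (c1 : IsCoprime (q : ℤ) a)
    (c1' : IsCoprime (q' : ℤ) a) (β β' : ℤ) :
    |(q * q' : ℝ) * μ (fun g c => (q : ℤ) ∣ g + c * β ∧ (q' : ℤ) ∣ g + c * β') - 1| ≤ y⁻¹ := by
  have p1 : (0 : ℝ) < q := by exact_mod_cast hq.pos
  have p2 : (0 : ℝ) < q' := by exact_mod_cast hq'.pos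
  have h := H (q * q') (q * q') _ (Nat.mul_pos hq.pos hq'.pos) (by
      push_cast
      calc (q : ℝ) * q' ≤ y ^ 2 * y ^ 2 := by
            refine mul_le_mul ?_ ?_ p2.le (by positivity) <;> nlinarith
        _ = y ^ 4 := by ring
        _ ≤ y ^ 80 := pow_le_pow_right₀ (by linarith) (by norm_num))
    (by push_cast; exact c1.mul_left c1')
    ((den_lin q hq.ne_zero β).mul ((Nat.coprime_primes hq hq').mpr hne) (den_lin q' hq'.ne_zero β'))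
  push_cast at h
  have e : (q * q' : ℝ) * μ (fun g c => (q : ℤ) ∣ g + c * β ∧ (q' : ℤ) ∣ g + c * β') - 1 =
      (q * q') * (μ (fun g c => (q : ℤ) ∣ g + c * β ∧ (q' : ℤ) ∣ g + c * β') -
        (q * q') / (q * q') ^ 2) := by
    field_simp
  rw [e, abs_mul, abs_of_pos (mul_pos p1 p2)]
  refine (mul_le_mul_of_nonneg_left h (mul_pos p1 p2).le).trans (le_of_eq ?_)
  field_simp

lemma Eqd.b1 (H : Eqd μ y a) (hy : 9 ≤ y) {q q' l : ℕ} (hq : q.Prime) (hq' : q'.Prime)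
    (hl : l.Prime) (hne : q ≠ q') (n1 : l ≠ q) (n2 : l ≠ q') (h1 : (q : ℝ) < 3 * y)
    (h1' : (q' : ℝ) < 3 * y) (h2 : (l : ℝ) ≤ y ^ 75) (c1 : IsCoprime (q : ℤ) a)
    (c1' : IsCoprime (q' : ℤ) a) (c2 : IsCoprime (l : ℤ) a) (β β' D : ℤ) :
    (q * q' : ℝ) * μ (fun g c => ((q : ℤ) ∣ g + c * β ∧ (q' : ℤ) ∣ g + c * β') ∧
      (l : ℤ) ∣ g ^ 2 - c ^ 2 * D) ≤ 4 / l := by
  have p1 : (0 : ℝ) < q := by exact_mod_cast hq.pos
  have p2 : (0 : ℝ) < q' := by exact_mod_cast hq'.pos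
  have p3 : (0 : ℝ) < l := by exact_mod_cast hl.pos
  obtain ⟨m, hm, hd⟩ := den_quad l hl D
  have h := H.le (by linarith) (d := q * q' * l) (Nat.mul_pos (Nat.mul_pos hq.pos hq'.pos) hl.pos)
    (by
      push_cast
      calc (q : ℝ) * q' * l ≤ y ^ 2 * y ^ 2 * y ^ 75 := by
            refine mul_le_mul (mul_le_mul ?_ ?_ p2.le (by positivity)) h2 p3.le (by positivity) <;>
              nlinarith
        _ = y ^ 79 := by ring
        _ ≤ y ^ 80 := pow_le_pow_right₀ (by linarith) (by norm_num))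
    (by push_cast; exact (c1.mul_left c1').mul_left c2)
    (((den_lin q hq.ne_zero β).mul ((Nat.coprime_primes hq hq').mpr hne)
      (den_lin q' hq'.ne_zero β')).mul (Nat.Coprime.mul_left
        ((Nat.coprime_primes hq hl).mpr n1.symm) ((Nat.coprime_primes hq' hl).mpr n2.symm)) hd)
  push_cast at h
  refine (mul_le_mul_of_nonneg_left h (mul_pos p1 p2).le).trans ?_
  have hm' : (m : ℝ) ≤ 2 * l := by exact_mod_cast hm
  have e : (q * q' : ℝ) * (2 * (q * q' * m / (q * q' * l) ^ 2)) = 2 * m / l / l := by field_simp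
  rw [e]
  refine div_le_div_of_nonneg_right ?_ p3.le
  rw [div_le_iff₀ p3]
  linarith

lemma Eqd.b2 (H : Eqd μ y a) (hy : 9 ≤ y) {q q' : ℕ} (hq : q.Prime) (hq' : q'.Prime)
    (hne : q ≠ q') (n2 : q ≠ 2) (h1 : (q : ℝ) < 3 * y) (h1' : (q' : ℝ) < 3 * y)
    (c1 : IsCoprime (q : ℤ) a) (c1' : IsCoprime (q' : ℤ) a) (β' D : ℤ) (hD : ¬ (q : ℤ) ∣ D) :
    (q * q' : ℝ) * μ (fun g c => (q : ℤ) ^ 2 ∣ g ^ 2 - c ^ 2 * D ∧ (q' : ℤ) ∣ g + c * β') ≤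
      6 / q := by
  have p1 : (0 : ℝ) < q := by exact_mod_cast hq.pos
  have p2 : (0 : ℝ) < q' := by exact_mod_cast hq'.pos
  obtain ⟨m, hm, hd⟩ := den_sq q hq n2 D hD
  have h := H.le (by linarith) (d := q ^ 2 * q') (Nat.mul_pos (pow_pos hq.pos 2) hq'.pos)
    (by
      push_cast
      calc (q : ℝ) ^ 2 * q' ≤ (y ^ 2) ^ 2 * y ^ 2 := by
            refine mul_le_mul (pow_le_pow_left₀ p1.le ?_ 2) ?_ p2.le (by positivity) <;> nlinarith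
        _ = y ^ 6 := by ring
        _ ≤ y ^ 80 := pow_le_pow_right₀ (by linarith) (by norm_num))
    (by push_cast; exact c1.pow_left.mul_left c1')
    (hd.mul (Nat.Coprime.pow_left 2 ((Nat.coprime_primes hq hq').mpr hne))
      (den_lin q' hq'.ne_zero β'))
  push_cast at h
  refine (mul_le_mul_of_nonneg_left h (mul_pos p1 p2).le).trans ?_
  have hm' : (m : ℝ) ≤ 3 * q ^ 2 := by exact_mod_cast hm
  have e : (q * q' : ℝ) * (2 * (m * q' / (q ^ 2 * q') ^ 2)) = 2 * m / q ^ 2 / q := by field_simp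
  rw [e]
  refine div_le_div_of_nonneg_right ?_ p1.le
  rw [div_le_iff₀ (by positivity)]
  linarith

lemma Eqd.b3 (H : Eqd μ y a) (hy : 9 ≤ y) {q q' l : ℕ} (hq : q.Prime) (hq' : q'.Prime)
    (hl : l.Prime) (hne : q ≠ q') (n1 : l ≠ q) (n2 : l ≠ q') (n3 : l ≠ 2) (h1 : (q : ℝ) < 3 * y)
    (h1' : (q' : ℝ) < 3 * y) (h2 : (l : ℝ) < 3 * y) (c1 : IsCoprime (q : ℤ) a)
    (c1' : IsCoprime (q' : ℤ) a) (c2 : IsCoprime (l : ℤ) a) (β β' D : ℤ) (hD : ¬ (l : ℤ) ∣ D) :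
    (q * q' : ℝ) * μ (fun g c => ((q : ℤ) ∣ g + c * β ∧ (q' : ℤ) ∣ g + c * β') ∧
      (l : ℤ) ^ 2 ∣ g ^ 2 - c ^ 2 * D) ≤ 6 / (l : ℝ) ^ 2 := by
  have p1 : (0 : ℝ) < q := by exact_mod_cast hq.pos
  have p2 : (0 : ℝ) < q' := by exact_mod_cast hq'.pos
  have p3 : (0 : ℝ) < l := by exact_mod_cast hl.pos
  obtain ⟨m, hm, hd⟩ := den_sq l hl n3 D hD
  have h := H.le (by linarith) (d := q * q' * l ^ 2)
    (Nat.mul_pos (Nat.mul_pos hq.pos hq'.pos) (pow_pos hl.pos 2))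
    (by
      push_cast
      calc (q : ℝ) * q' * l ^ 2 ≤ y ^ 2 * y ^ 2 * (y ^ 2) ^ 2 := by
            refine mul_le_mul (mul_le_mul ?_ ?_ p2.le (by positivity))
              (pow_le_pow_left₀ p3.le ?_ 2) (by positivity) (by positivity) <;> nlinarith
        _ = y ^ 8 := by ring
        _ ≤ y ^ 80 := pow_le_pow_right₀ (by linarith) (by norm_num))
    (by push_cast; exact (c1.mul_left c1').mul_left c2.pow_left)
    (((den_lin q hq.ne_zero β).mul ((Nat.coprime_primes hq hq').mpr hne)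
      (den_lin q' hq'.ne_zero β')).mul (Nat.Coprime.pow_right 2 (Nat.Coprime.mul_left
        ((Nat.coprime_primes hq hl).mpr n1.symm) ((Nat.coprime_primes hq' hl).mpr n2.symm))) hd)
  push_cast at h
  refine (mul_le_mul_of_nonneg_left h (mul_pos p1 p2).le).trans ?_
  have hm' : (m : ℝ) ≤ 3 * l ^ 2 := by exact_mod_cast hm
  have e : (q * q' : ℝ) * (2 * (q * q' * m / (q * q' * l ^ 2) ^ 2)) = 2 * m / l ^ 2 / l ^ 2 := by
    field_simp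
  rw [e]
  refine div_le_div_of_nonneg_right ?_ (by positivity)
  rw [div_le_iff₀ (by positivity)]
  linarith

end

/-- mass of the sections whose values on `t` satisfy `Φ` -/
noncomputable def mu (p : Par) (S0 L : ℕ) (t : ℤ × ℤ) (Φ : ℤ → ℤ → Prop) : ℝ :=
  ∑ s ∈ Sset p S0 L with Φ (p.gt s t) (p.ct s t), wS p S0 L s

lemma mu_eq (p : Par) (S0 L : ℕ) (t : ℤ × ℤ) (Φ : ℤ → ℤ → Prop) (E : p.Co → Prop) [DecidablePred E]
    (h : ∀ s, E s ↔ Φ (p.gt s t) (p.ct s t)) :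
    ∑ s ∈ Sset p S0 L with E s, wS p S0 L s = mu p S0 L t Φ := by
  unfold mu
  refine sum_congr ?_ fun _ _ => rfl
  ext s
  simp only [mem_filter, h]

lemma le_mu (p : Par) (S0 L : ℕ) (t : ℤ × ℤ) (Φ : ℤ → ℤ → Prop) (E : p.Co → Prop) [DecidablePred E]
    (h : ∀ s, E s → Φ (p.gt s t) (p.ct s t)) :
    ∑ s ∈ Sset p S0 L with E s, wS p S0 L s ≤ mu p S0 L t Φ := by
  unfold mu
  refine sum_le_sum_of_subset_of_nonneg (fun s hs => ?_) fun s _ _ => wS_nonneg _ _ _ _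
  exact mem_filter.mpr ⟨(mem_filter.mp hs).1, h s (mem_filter.mp hs).2⟩

lemma eqd_mu (hSEq : S_SEq) (F : Fix) :
    F.Ev fun c => ∀ t : ℤ × ℤ, Eqd (mu F.p c.S0 c.L t) c.y (t.1 * F.p.r) := by
  obtain ⟨C, hC, h⟩ := hSEq F.p
  refine (F.ev_L.and (F.ev_y_ge C)).mono fun c _ hc t d m Φ h1 h2 h3 h4 => ?_
  obtain ⟨⟨hL, -⟩, hy⟩ := hc
  have y1 : 1 ≤ c.y := hC.trans hy
  have y0 : 0 < c.y := by linarith
  have hd : (d : ℝ) ≤ c.L := h2.trans ((pow_le_pow_right₀ y1 (by norm_num)).trans hL)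
  obtain ⟨R, hR, hΦ⟩ := h4
  have h5 := (h c.S0 c.L d h1 (by exact_mod_cast hd)).2.2 t R h3
  rw [mu_eq F.p c.S0 c.L t Φ _ fun s => (hΦ _ _).symm, hR] at h5
  refine h5.trans (mul_le_mul_of_nonneg_right ?_ (by positivity))
  have L0 : (0 : ℝ) < c.L := lt_of_lt_of_le (by positivity) hL
  rw [← mul_div_assoc, div_le_iff₀ L0, inv_mul_eq_div, le_div_iff₀ y0]
  calc C * d * c.y ≤ c.y * c.y ^ 80 * c.y :=
        mul_le_mul_of_nonneg_right (mul_le_mul hy h2 (by positivity) y0.le) y0.le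
    _ = c.y ^ 82 := by ring
    _ ≤ c.y ^ 199 := pow_le_pow_right₀ y1 (by norm_num)
    _ ≤ c.L := hL

lemma card_Pset (y : ℝ) (N : ℕ) (hy : 2 ≤ y) : ((Pset y N).card : ℝ) ≤ 4 * y := by
  have h1 : Pset y N ⊆ range (⌈3 * y⌉₊ + 1) := fun q hq => by
    obtain ⟨i, -, hi⟩ := mem_biUnion.mp hq
    exact (mem_filter.mp hi).1
  have h2 := card_le_card h1
  rw [card_range] at h2
  have h3 : ((Pset y N).card : ℝ) ≤ (⌈3 * y⌉₊ : ℝ) + 1 := by exact_mod_cast h2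
  have h4 := Nat.ceil_lt_add_one (show 0 ≤ 3 * y by linarith)
  linarith

lemma cop_prime {l r : ℕ} {a : ℤ} (hl : l.Prime) (hr : r.Prime) (h1 : ¬ (l : ℤ) ∣ a) (h2 : l ≠ r) :
    IsCoprime (l : ℤ) (a * r) :=
  ((Nat.prime_iff_prime_int.mp hl).irreducible.coprime_iff_not_dvd.mpr h1).mul_right
    (Nat.isCoprime_iff_coprime.mpr ((Nat.coprime_primes hl hr).mpr h2))

end Ww

open Ww in
theorem p_ww (hTheta : S_Theta) (hSEq : S_SEq) (hFlat : S_Flat) (_hIQb : S_IQb) (hQF : S_QF)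
    (hSymB : S_SymB) (hIndT : S_IndT) : S_WW := by
  intro F hz hrz hA
  obtain ⟨C, -, hC⟩ := hFlat F.p F.τ0
  have e1 := Fix.Ev.of_N (F := F) (φ := fun y N => ∀ q ∈ Pset y N, q.Prime ∧ y ≤ q ∧ q < 3 * y) (by
    obtain ⟨y₀, h⟩ := hTheta (6 * F.A + 1)
    exact ⟨y₀, fun y hy N h1 h2 q hq =>
      have h3 := (h y hy N h1 h2).2.2.2 q hq
      ⟨h3.1, h3.2.1, h3.2.2.1⟩⟩)
  refine (((((hC F rfl rfl).and e1).and (hIndT F 1 1 hA one_pos)).and (eqd_mu hSEq F)).and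
    ((F.ev_y_ge 9).and (F.ev_y_ge (F.z + 1)))).mono ?_
  rintro c hi ⟨⟨⟨⟨⟨-, -, -, -, hn75⟩, hP⟩, ⟨-, -, -, hAdm⟩⟩, hE⟩, hy, hyz⟩ x x' t t' L _ _ K 𝔮 hQ
    hdl hD h𝔮
  have H := hE t
  have adm := hAdm t hQ.ht
  have adm' := hAdm t' hQ.ht'
  obtain ⟨-, Q2, Q3, Q4, Q5, Q6⟩ := hQF F.p t L K adm hD
  obtain ⟨Q7, -, Q8, Q9⟩ := Q6 𝔮 h𝔮
  obtain ⟨xP, xI⟩ := mem_Xset.mp hQ.hx
  obtain ⟨xP', xI'⟩ := mem_Xset.mp hQ.hx'
  obtain ⟨q1, q2, q3⟩ := hP _ xP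
  obtain ⟨q1', q2', q3'⟩ := hP _ xP'
  obtain ⟨J1, -, J2, J3⟩ := Q3 x xI hQ.o11
  obtain ⟨J1', -, J2', J3'⟩ := Q3 x' xI' hQ.o21
  have hr := F.p.hr
  have y0 : 0 < c.y := by linarith
  have c1 : IsCoprime (x.1 : ℤ) (t.1 * F.p.r) :=
    cop_prime q1 hr (fun h => J2 (h.mul_right _)) xI.2.2.1
  have c1' : IsCoprime (x'.1 : ℤ) (t.1 * F.p.r) :=
    cop_prime q1' hr (fun h => J2' (h.mul_right _)) xI'.2.2.1
  have κ0 : (0 : ℝ) ≤ x.1 * x'.1 := by positivity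
  have on1 := fun s => Par.onS_iff q1 hQ.o11 (p := F.p) s
  have on2 := fun s => Par.onS_iff q1' hQ.o21 (p := F.p) s
  set n := nn F.p x x' t t' with hn
  have hnz : ∀ m : ℤ, m ∣ 2 * (F.p.r : ℤ) ^ F.p.n0 * x.1 * x'.1 * t.1 * t'.1 * dl t t' * F.p.D t *
      F.p.D t' → m ∣ n := fun m h => Int.dvd_natAbs.mpr h
  have t0 : ∀ τ : ℤ × ℤ, F.p.Adm τ → τ.1 ≠ 0 := fun τ h h0 => by
    have h1 := h.r_dvd.1
    rw [h0, zero_sub, dvd_neg] at h1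
    exact (Nat.prime_iff_prime_int.mp hr).not_dvd_one h1
  have n0 : n ≠ 0 := by
    refine Int.natAbs_ne_zero.mpr ?_
    have := t0 t adm
    have := t0 t' adm'
    have := adm.2.1.ne
    have := adm'.2.1.ne
    have : (F.p.r : ℤ) ≠ 0 := by exact_mod_cast hr.ne_zero
    have : (x.1 : ℤ) ≠ 0 := by exact_mod_cast q1.ne_zero
    have : (x'.1 : ℤ) ≠ 0 := by exact_mod_cast q1'.ne_zero
    positivity
  have n1 : 2 * (F.p.r : ℤ) * t.1 * F.p.D t ∣ n := by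
    obtain ⟨j, hj⟩ : ∃ j, F.p.n0 = j + 1 := ⟨F.p.n0 - 1, by have := F.p.hn; omega⟩
    exact hnz _ ⟨(F.p.r : ℤ) ^ j * x.1 * x'.1 * t'.1 * dl t t' * F.p.D t', by rw [hj]; ring⟩
  have n2 : x.1 ∣ n := Int.natCast_dvd_natCast.mp (hnz _
    ⟨2 * (F.p.r : ℤ) ^ F.p.n0 * x'.1 * t.1 * t'.1 * dl t t' * F.p.D t * F.p.D t', by ring⟩)
  have n3 : x'.1 ∣ n := Int.natCast_dvd_natCast.mp (hnz _
    ⟨2 * (F.p.r : ℤ) ^ F.p.n0 * x.1 * t.1 * t'.1 * dl t t' * F.p.D t * F.p.D t', by ring⟩)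
  have n4 : 3 ≤ n := by
    have h1 := Nat.le_of_dvd (Nat.pos_of_ne_zero n0) n2
    have h2 : (3 : ℝ) ≤ x.1 := by linarith
    have h3 : 3 ≤ x.1 := by exact_mod_cast h2
    omega
  have n5 : (n : ℝ) ≤ c.y ^ 75 := hn75 x x' t t' hQ
  have hc := (hSymB L K n n4 (by
    rw [hD]
    exact Dvd.dvd.trans ⟨F.p.r * t.1, by ring⟩ n1)).2.1
  have ha : Ideal.absNorm (K.a0 F.p 𝔮 t x x') = F.p.r ^ F.p.e * x.1 * x'.1 := by
    unfold IQ.a0
    rw [map_mul, map_mul, map_pow, Q7, J1, J1']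
  have hm : ∀ s, F.p.OnS x s ∧ F.p.OnS x' s ↔ K.al F.p t s ∈ K.a0 F.p 𝔮 t x x' := by
    intro s
    unfold IQ.a0
    rw [mem_mul3, J3, J3']
    · exact ⟨fun h => ⟨Q8 s, h⟩, fun h => h.2⟩
    · rw [map_pow, Q7, J1]
      exact Nat.Coprime.pow_left _ ((Nat.coprime_primes hr q1).mpr xI.2.2.1.symm)
    · rw [map_pow, Q7, J1']
      exact Nat.Coprime.pow_left _ ((Nat.coprime_primes hr q1').mpr xI'.2.2.1.symm)
    · rw [J1, J1']
      exact (Nat.coprime_primes q1 q1').mpr hQ.ne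
  -- the basic bound for a prime divisor of the modulus
  have key : ∀ l : ℕ, l.Prime → l ≠ F.p.r → l ∣ n →
      (x.1 * x'.1 : ℝ) * ∑ s ∈ Sset F.p c.S0 c.L with (F.p.OnS x s ∧ F.p.OnS x' s) ∧
        (l : ℤ) ∣ F.p.N s t ∧ (l = x.1 ∨ l = x'.1 → (l : ℤ) ^ 2 ∣ F.p.N s t),
        wS F.p c.S0 c.L s ≤ 10 / l := by
    intro l hl hlr hln
    have l0 : (0 : ℝ) < l := by exact_mod_cast hl.pos
    by_cases hla : (l : ℤ) ∣ t.1
    · rw [sum_eq_zero fun s hs => absurd (mem_filter.mp hs).2.2.1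
        (not_dvd_N F.p s t hQ.pr l hl hlr hla), mul_zero]
      positivity
    by_cases h1 : l = x.1
    · refine le_trans (mul_le_mul_of_nonneg_left (le_mu F.p c.S0 c.L t _ _ fun s hs =>
        ⟨h1 ▸ hs.2.2 (Or.inl h1), (on2 s).mp hs.1.2⟩) κ0) ((H.b2 hy q1 q1' hQ.ne xI.2.1 q3 q3' c1
          c1' (t.2 ^ 2 * x'.2.2) (F.p.D t) fun h => J2 (h.mul_left _)).trans ?_)
      rw [h1] at l0 ⊢
      exact div_le_div_of_nonneg_right (by norm_num) l0.le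
    by_cases h2 : l = x'.1
    · rw [mul_comm (x.1 : ℝ)] at κ0 ⊢
      refine le_trans (mul_le_mul_of_nonneg_left (le_mu F.p c.S0 c.L t _ _ fun s hs =>
        ⟨h2 ▸ hs.2.2 (Or.inr h2), (on1 s).mp hs.1.1⟩) κ0) ((H.b2 hy q1' q1 hQ.ne.symm xI'.2.1 q3' q3
          c1' c1 (t.2 ^ 2 * x.2.2) (F.p.D t) fun h => J2' (h.mul_left _)).trans ?_)
      rw [h2] at l0 ⊢
      exact div_le_div_of_nonneg_right (by norm_num) l0.le
    have h3 : (l : ℝ) ≤ n := by exact_mod_cast Nat.le_of_dvd (Nat.pos_of_ne_zero n0) hln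
    refine le_trans (mul_le_mul_of_nonneg_left (le_mu F.p c.S0 c.L t _ _ fun s hs =>
      ⟨⟨(on1 s).mp hs.1.1, (on2 s).mp hs.1.2⟩, hs.2.1⟩) κ0) ((H.b1 hy q1 q1' hl hQ.ne h1 h2 q3 q3'
        (h3.trans n5) c1 c1' (cop_prime hl hr hla hlr) (t.2 ^ 2 * x.2.2) (t.2 ^ 2 * x'.2.2)
        (F.p.D t)).trans ?_)
    exact div_le_div_of_nonneg_right (by norm_num) l0.le
  refine ⟨ha, hm, ?_, ?_, ?_⟩
  · have h1 := H.b0 hy q1 q1' hQ.ne q3 q3' c1 c1' (t.2 ^ 2 * x.2.2) (t.2 ^ 2 * x'.2.2)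
    rw [← mu_eq F.p c.S0 c.L t _ (fun s => F.p.OnS x s ∧ F.p.OnS x' s)
      fun s => and_congr (on1 s) (on2 s), mul_sum] at h1
    unfold Es
    rwa [sum_congr rfl fun s _ => (mul_one _).trans (mul_comm _ _)]
  · unfold Es
    refine (union_bound _ _ (wS_nonneg _ _ _) _ κ0 _ _ (n.primeFactors.filter fun l => c.z < l)
      (fun l s => (F.p.OnS x s ∧ F.p.OnS x' s) ∧ (l : ℤ) ∣ F.p.N s t ∧
        (l = x.1 ∨ l = x'.1 → (l : ℤ) ^ 2 ∣ F.p.N s t)) fun s hs hU => ?_).trans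
      (le_trans (sum_le_sum fun l hl => ?_) (sum_le_prod _ (fun l : ℕ => 10 / (l : ℝ))
        fun l => by positivity))
    · obtain ⟨𝔟, hb⟩ := Ideal.dvd_span_singleton.mpr ((hm s).mp hs)
      have h1 : ¬ (Ideal.absNorm 𝔟).Coprime n := fun h => hU ⟨𝔟, hb, (hc 𝔟).mpr h⟩
      obtain ⟨l, hl, ⟨j, hj⟩, h3⟩ := Nat.Prime.not_coprime_iff_dvd.mp h1
      have h4 : F.p.N s t = (F.p.r : ℤ) ^ F.p.e * x.1 * x'.1 * (l * j) := by
        rw [← (Q2 s).1, hb, map_mul, ha, hj]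
        push_cast
        ring
      have h5 : l ≠ F.p.r := fun h => (Q2 s).2.2 ⟨x.1 * x'.1 * j, by rw [h4, h]; ring⟩
      have h6 : (l : ℤ) ∣ F.p.N s t := ⟨(F.p.r : ℤ) ^ F.p.e * x.1 * x'.1 * j, by rw [h4]; ring⟩
      refine ⟨l, mem_filter.mpr ⟨Nat.mem_primeFactors.mpr ⟨hl, h3, n0⟩, ?_⟩, hs, h6, ?_⟩
      · by_contra h7
        refine not_dvd_N F.p s t hQ.pr l hl h5 ?_ h6
        exact (Int.natCast_dvd_natCast.mpr (dvd_M0 hl (not_lt.mp h7) h5)).trans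
          (Tset_prop hQ.ht).2.2.2.2.2.2.1
      · rintro (h | h)
        · exact ⟨(F.p.r : ℤ) ^ F.p.e * x'.1 * j, by rw [h4, h]; ring⟩
        · exact ⟨(F.p.r : ℤ) ^ F.p.e * x.1 * j, by rw [h4, h]; ring⟩
    · obtain ⟨h1, h2⟩ := mem_filter.mp hl
      obtain ⟨h3, h4, -⟩ := Nat.mem_primeFactors.mp h1
      refine key l h3 (fun h => ?_) h4
      rw [hi.z] at h2
      omega
  · unfold Es
    have hzr : (F.p.r : ℝ) ≤ F.z := by exact_mod_cast hrz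
    have lr : ∀ l ∈ Pset c.y c.N, l ≠ F.p.r := fun l hl h => by
      have := (hP l hl).2.1
      rw [h] at this
      linarith
    refine (union_bound _ _ (wS_nonneg _ _ _) _ κ0 _ _ (Pset c.y c.N)
      (fun l s => (F.p.OnS x s ∧ F.p.OnS x' s) ∧ (l : ℤ) ∣ F.p.N s t ∧
        ((l = x.1 ∨ l = x'.1) ∨ ¬ l ∣ n → (l : ℤ) ^ 2 ∣ F.p.N s t)) fun s hs hU => ?_).trans
      (le_trans (sum_le_sum (g := fun l => (if l ∣ n then 10 / c.y else 0) + 6 / c.y ^ 2)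
        fun l hl => ?_) ?_)
    · by_contra hcon
      push Not at hcon
      refine hU (wg_eq K F.p c F.u n t s x x' 𝔮 (fun q hq => (hP q hq).1) xI xI' hQ.o11 hQ.o21
        hQ.ne hs.1 hs.2 (Q2 s).1 (fun z h1 h2 => ⟨(Q3 z h1 h2).1, (Q3 z h1 h2).2.2.2 s⟩) Q4 Q5
        (Q9 _ s) ha hc n1 n2 n3 (fun l hl h => ?_) fun l hl h1 h2 h3 h4 => ?_)
      · exact (hcon l hl hs ((dvd_pow_self _ two_ne_zero).trans h)).2 h
      · rcases (hcon l hl hs h4).1 with (h | h) | h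
        · exact h2 h
        · exact h3 h
        · exact h h1
    · obtain ⟨l1, l2, l3⟩ := hP l hl
      have p6 : 0 ≤ 6 / c.y ^ 2 := by positivity
      by_cases hln : l ∣ n
      · rw [if_pos hln]
        refine le_trans (mul_le_mul_of_nonneg_left (sum_le_sum_of_subset_of_nonneg
          (fun s hs => ?_) fun s _ _ => wS_nonneg _ _ _ _) κ0) ((key l l1 (lr l hl) hln).trans ?_)
        · obtain ⟨h1, h2, h3, h4⟩ := mem_filter.mp hs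
          exact mem_filter.mpr ⟨h1, h2, h3, fun h => h4 (Or.inl h)⟩
        · exact le_add_of_le_of_nonneg (div_le_div_of_nonneg_left (by norm_num) y0 l2) p6
      · rw [if_neg hln, zero_add]
        have nd : ∀ m : ℤ, m ∣ 2 * (F.p.r : ℤ) * t.1 * F.p.D t → ¬ (l : ℤ) ∣ m := fun m h h' =>
          hln (Int.natCast_dvd_natCast.mp (h'.trans (h.trans n1)))
        refine le_trans (mul_le_mul_of_nonneg_left (le_mu F.p c.S0 c.L t _ _ fun s hs =>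
          ⟨⟨(on1 s).mp hs.1.1, (on2 s).mp hs.1.2⟩, hs.2.2 (Or.inr hln)⟩) κ0)
          ((H.b3 hy q1 q1' l1 hQ.ne (fun h => hln (h ▸ n2)) (fun h => hln (h ▸ n3)) (fun h => ?_)
            q3 q3' l3 c1 c1' (cop_prime l1 hr (nd _ ⟨2 * F.p.r * F.p.D t, by ring⟩) (lr l hl))
            (t.2 ^ 2 * x.2.2) (t.2 ^ 2 * x'.2.2) (F.p.D t) (nd _ (dvd_mul_left _ _))).trans ?_)
        · rw [h] at l2
          push_cast at l2
          linarith
        · exact div_le_div_of_nonneg_left (by norm_num) (by positivity)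
            (pow_le_pow_left₀ y0.le l2 2)
    · rw [sum_add_distrib, ← sum_filter, sum_const, sum_const, nsmul_eq_mul, nsmul_eq_mul]
      have h1 := card_dvd_le ((Pset c.y c.N).filter fun l => l ∣ n) c.y (by linarith) n 75 n0 n5
        fun l hl => ⟨(hP l (mem_filter.mp hl).1).1, (hP l (mem_filter.mp hl).1).2.1,
          (mem_filter.mp hl).2⟩
      have h2 : ((((Pset c.y c.N).filter fun l => l ∣ n).card : ℕ) : ℝ) ≤ 75 := by exact_mod_cast h1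
      have h3 := card_Pset c.y c.N (by linarith)
      have h4 : (75 : ℝ) * (10 / c.y) + 4 * c.y * (6 / c.y ^ 2) ≤ 1000 / c.y := by
        rw [show (75 : ℝ) * (10 / c.y) + 4 * c.y * (6 / c.y ^ 2) = 774 / c.y by
          field_simp; norm_num]
        exact div_le_div_of_nonneg_right (by norm_num) y0.le
      exact le_trans (add_le_add (mul_le_mul_of_nonneg_right h2 (by positivity))
        (mul_le_mul_of_nonneg_right h3 (by positivity))) h4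

end Pool.Agent.P.MP_b8021b_nt.VE
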