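import Pool.Agent.P.MP_b8021b_nt.VE.PA1
import Pool.Agent.P.MP_b8021b_nt.VE.PA2
import Pool.Agent.P.MP_b8021b_nt.VE.PModel
import Pool.Agent.P.MP_b8021b_nt.VE.PQuadGen
import Pool.Agent.P.MP_b8021b_nt.VE.PTors
import Pool.Agent.P.MP_b8021b_nt.VE.PWeier
import Pool.Agent.P.MP_b8021b_nt.VE.PRep
import Pool.Agent.P.MP_b8021b_nt.VE.PArch
import Pool.Agent.P.MP_b8021b_nt.VE.PS0
import Pool.Agent.P.MP_b8021b_nt.VE.PCntP
import Pool.Agent.P.MP_b8021b_nt.VE.PTk
import Pool.Agent.P.MP_b8021b_nt.VE.PRem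
import Pool.Agent.P.MP_b8021b_nt.VE.PTheta
import Pool.Agent.P.MP_b8021b_nt.VE.PCard
import Pool.Agent.P.MP_b8021b_nt.VE.PTEq
import Pool.Agent.P.MP_b8021b_nt.VE.PSEq
import Pool.Agent.P.MP_b8021b_nt.VE.PIq
import Pool.Agent.P.MP_b8021b_nt.VE.PIqb
import Pool.Agent.P.MP_b8021b_nt.VE.PLamP
import Pool.Agent.P.MP_b8021b_nt.VE.PPhiP
import Pool.Agent.P.MP_b8021b_nt.VE.PRay
import Pool.Agent.P.MP_b8021b_nt.VE.PLeg
import Pool.Agent.P.MP_b8021b_nt.VE.PKapP
import Pool.Agent.P.MP_b8021b_nt.VE.PLat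
import Pool.Agent.P.MP_b8021b_nt.VE.PFejP
import Pool.Agent.P.MP_b8021b_nt.VE.PSym
import Pool.Agent.P.MP_b8021b_nt.VE.PDeg
import Pool.Agent.P.MP_b8021b_nt.VE.PNear
import Pool.Agent.P.MP_b8021b_nt.VE.PC2
import Pool.Agent.P.MP_b8021b_nt.VE.PSinf
import Pool.Agent.P.MP_b8021b_nt.VE.PS1
import Pool.Agent.P.MP_b8021b_nt.VE.POne
import Pool.Agent.P.MP_b8021b_nt.VE.PCond
import Pool.Agent.P.MP_b8021b_nt.VE.PLoc
import Pool.Agent.P.MP_b8021b_nt.VE.PFe
import Pool.Agent.P.MP_b8021b_nt.VE.PL2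
import Pool.Agent.P.MP_b8021b_nt.VE.PCut
import Pool.Agent.P.MP_b8021b_nt.VE.PIndT
import Pool.Agent.P.MP_b8021b_nt.VE.PIndS
import Pool.Agent.P.MP_b8021b_nt.VE.PFlat
import Pool.Agent.P.MP_b8021b_nt.VE.PQf
import Pool.Agent.P.MP_b8021b_nt.VE.PCl
import Pool.Agent.P.MP_b8021b_nt.VE.PEqP
import Pool.Agent.P.MP_b8021b_nt.VE.PSymA
import Pool.Agent.P.MP_b8021b_nt.VE.PE2
import Pool.Agent.P.MP_b8021b_nt.VE.PBq
import Pool.Agent.P.MP_b8021b_nt.VE.PMink
import Pool.Agent.P.MP_b8021b_nt.VE.PShell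
import Pool.Agent.P.MP_b8021b_nt.VE.PTf
import Pool.Agent.P.MP_b8021b_nt.VE.PRad
import Pool.Agent.P.MP_b8021b_nt.VE.PC1
import Pool.Agent.P.MP_b8021b_nt.VE.PS3
import Pool.Agent.P.MP_b8021b_nt.VE.PS2a
import Pool.Agent.P.MP_b8021b_nt.VE.PLocS
import Pool.Agent.P.MP_b8021b_nt.VE.PLocT
import Pool.Agent.P.MP_b8021b_nt.VE.PSymB
import Pool.Agent.P.MP_b8021b_nt.VE.PDvd
import Pool.Agent.P.MP_b8021b_nt.VE.PMul
import Pool.Agent.P.MP_b8021b_nt.VE.PWin
import Pool.Agent.P.MP_b8021b_nt.VE.PCos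
import Pool.Agent.P.MP_b8021b_nt.VE.POmP
import Pool.Agent.P.MP_b8021b_nt.VE.PSup
import Pool.Agent.P.MP_b8021b_nt.VE.PLam1
import Pool.Agent.P.MP_b8021b_nt.VE.PPiP
import Pool.Agent.P.MP_b8021b_nt.VE.PSa
import Pool.Agent.P.MP_b8021b_nt.VE.PErr
import Pool.Agent.P.MP_b8021b_nt.VE.PE2avg
import Pool.Agent.P.MP_b8021b_nt.VE.PRs4
import Pool.Agent.P.MP_b8021b_nt.VE.PAdj
import Pool.Agent.P.MP_b8021b_nt.VE.PWw
import Pool.Agent.P.MP_b8021b_nt.VE.PTail
import Pool.Agent.P.MP_b8021b_nt.VE.PContr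
import Pool.Agent.P.MP_b8021b_nt.VE.PRs
import Pool.Agent.P.MP_b8021b_nt.VE.PPairEst
import Pool.Agent.P.MP_b8021b_nt.VE.PRig
import Pool.Agent.P.MP_b8021b_nt.VE.PLsh
import Pool.Agent.P.MP_b8021b_nt.VE.PBb
import Pool.Agent.P.MP_b8021b_nt.VE.PBad
import Pool.Agent.P.MP_b8021b_nt.VE.PMix
import Pool.Agent.P.MP_b8021b_nt.VE.PNt
import Pool.Agent.P.MP_b8021b_nt.VE.PCore
import Pool.Agent.P.MP_b8021b_nt.VE.PFib
import Pool.Agent.P.MP_b8021b_nt.VE.PAlg
import Pool.Agent.P.MP_b8021b_nt.VE.PS2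
import Pool.Agent.P.MP_b8021b_nt.VE.PS4

/-! All interface statements without hypotheses. -/

namespace Pool.Agent.P.MP_b8021b_nt.VE

theorem all_A1 : S_A1 := p_a1

theorem all_A2 : S_A2 := p_a2

theorem all_Model : S_Model := p_model

theorem all_QuadGen : S_QuadGen := p_quadGen

theorem all_Tors : S_Tors := p_tors

theorem all_Weier : S_Weier := p_weier

theorem all_Rep : S_Rep := p_rep

theorem all_Arch : S_Arch := p_arch

theorem all_S0 : S_S0 := p_s0

theorem all_Cnt : S_Cnt := p_cntP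

theorem all_TK : S_TK := p_tk

theorem all_Rem : S_Rem := p_rem

theorem all_Theta : S_Theta := p_theta

theorem all_Card : S_Card := p_card

theorem all_TEq : S_TEq := p_tEq

theorem all_SEq : S_SEq := p_sEq

theorem all_IQ : S_IQ := p_iq

theorem all_IQb : S_IQb := p_iqb

theorem all_Lam : S_Lam := p_lamP

theorem all_Phi : S_Phi := p_phiP

theorem all_Ray : S_Ray := p_ray

theorem all_Leg : S_Leg := p_leg

theorem all_Kap : S_Kap := p_kapP

theorem all_Lat : S_Lat := p_lat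

theorem all_Fej : S_Fej := p_fejP

theorem all_Sym : S_Sym := p_sym all_A1

theorem all_Deg : S_Deg := p_deg all_A1

theorem all_Near : S_Near := p_near all_Tors

theorem all_C2 : S_C2 := p_c2 all_A1 all_Rep all_Arch

theorem all_Sinf : S_Sinf := p_sinf all_A1

theorem all_S1 : S_S1 := p_s1 all_S0

theorem all_One : S_One := p_one all_Cnt all_TK

theorem all_Cond : S_Cond := p_cond all_Cnt all_TK

theorem all_Loc : S_Loc := p_loc all_Cnt all_TK

theorem all_FE : S_FE := p_fe all_Cnt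

theorem all_L2 : S_L2 := p_l2 all_Cnt

theorem all_Cut : S_Cut := p_cut all_Cnt all_TK

theorem all_IndT : S_IndT := p_indT all_Theta all_Card all_TEq

theorem all_IndS : S_IndS := p_indS all_Theta all_SEq

theorem all_Flat : S_Flat := p_flat all_Theta

theorem all_QF : S_QF := p_qf all_IQb

theorem all_Cl : S_Cl := p_cl all_IQb all_Lam

theorem all_Eq : S_Eq := p_eqP all_IQb all_Ray

theorem all_SymA : S_SymA := p_symA all_IQb all_Leg

theorem all_E2 : S_E2 := p_e2 all_Theta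

theorem all_BQ : S_BQ := p_bq all_IQb

theorem all_Mink : S_Mink := p_mink all_Lam

theorem all_Shell : S_Shell := p_shell all_IQb all_Lat all_Fej

theorem all_TF : S_TF := p_tf all_Fej

theorem all_Rad : S_Rad := p_rad all_Near all_Weier

theorem all_C1 : S_C1 := p_c1 all_A1 all_Sym all_IQ all_IQb all_QF

theorem all_S3 : S_S3 := p_s3 all_S0 all_Sinf all_A1 all_A2

theorem all_S2a : S_S2a := p_s2a all_S0 all_Sinf all_A1 all_A2 all_S1

theorem all_LocS : S_LocS := p_locS all_Cnt all_FE all_L2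

theorem all_LocT : S_LocT := p_locT all_Cnt all_FE all_L2

theorem all_SymB : S_SymB := p_symB all_IQb all_SymA

theorem all_Dvd : S_Dvd := p_dvd all_Theta all_TEq all_Flat

theorem all_Mul : S_Mul := p_mul all_Flat

theorem all_Win : S_Win := p_win all_Lat all_Mink

theorem all_Cos : S_Cos := p_cos all_IQb all_Cnt all_Lam all_Cl all_Eq all_Shell all_TF

theorem all_Om : S_Om := p_omP all_IQb all_SEq all_Flat all_Shell

theorem all_Sup : S_Sup := p_sup all_Cnt all_Theta all_Flat all_Lam all_Cl all_Phi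

theorem all_Lam1 : S_Lam1 := p_lam1 all_Cnt all_Theta all_Flat all_IQb all_Cl all_Phi

theorem all_Pi : S_Pi := p_piP all_Theta all_TEq all_Flat

theorem all_SA : S_SA := p_sa all_Cond all_Loc all_Rem all_LocS

theorem all_Err : S_Err := p_err all_IQb all_Eq all_SymA all_SymB all_Kap all_Cl

theorem all_E2avg : S_E2avg := p_e2avg all_E2 all_Dvd all_Flat all_Pi

theorem all_RS4 : S_RS4 := p_rs4 all_Ray all_Mink all_Win all_Lam

theorem all_Adj : S_Adj := p_adj all_IQb all_Ray all_SymA all_SymB all_Kap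

theorem all_WW : S_WW := p_ww all_Theta all_SEq all_Flat all_IQb all_QF all_SymB all_IndT

theorem all_Tail : S_Tail := p_tail all_Cnt all_TK all_One all_Cond all_Loc all_L2 all_LocT all_SA

theorem all_Contr : S_Contr := p_contr all_Cnt all_TK all_One all_Loc all_FE all_L2 all_Rem all_SA

theorem all_RS : S_RS := p_rs all_BQ all_RS4 all_Lam

theorem all_PairEst : S_PairEst := p_pairEst all_Theta all_Flat all_IndT all_IQb all_QF all_Cl all_Phi all_Shell all_Cos all_Om all_Sup all_WW all_Lam1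

theorem all_Rig : S_Rig := p_rig all_TK all_Rem all_SA all_Tail all_Contr

theorem all_LSH : S_LSH := p_lsh all_Theta all_Lam all_RS all_Adj

theorem all_B : S_B := p_bb all_Rig

theorem all_Bad : S_Bad := p_bad all_TEq all_Mul all_LSH

theorem all_Mix : S_Mix := p_mix all_Cnt all_Cut all_Theta all_IndT all_IndS all_Flat all_IQ all_Cl all_Phi all_Err all_E2avg all_Bad all_Sup all_WW all_PairEst all_Pi

theorem all_NT : S_NT := p_nt all_IndT all_IndS all_Flat all_Mix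

theorem all_Core : S_Core := p_core all_A1 all_Rad all_C1 all_C2 all_NT all_B

theorem all_Fib : S_Fib := p_fib all_A1 all_Sym all_Core all_QuadGen

theorem all_Alg : S_Alg := p_alg all_Model all_Fib all_Deg

theorem all_S2 : S_S2 := p_s2 all_A1 all_A2 all_S1 all_S2a all_Alg

theorem all_Main : S_Main := p_s4 all_S1 all_S2 all_S3

end Pool.Agent.P.MP_b8021b_nt.VE
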