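import Pool.Agent.P.MP_b8021b_nt.VE.BasicA

/-! A1: the coordinate ring is a Dedekind domain; degrees. -/

namespace Pool.Agent.P.MP_b8021b_nt.VE

open Polynomial
open scoped Classical

noncomputable section

namespace A1

variable {F A : Type} [Field F] [CommRing A] [Algebra F A] (M : Quad F A)

/-- the algebra structure over the polynomial ring -/
abbrev alg : Algebra F[X] A := (aeval M.x : F[X] →ₐ[F] A).toRingHom.toAlgebra

theorem tower : letI := alg M; IsScalarTower F F[X] A :=
  letI := alg M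
  IsScalarTower.of_algebraMap_eq fun a => by
    change _ = aeval M.x (algebraMap F F[X] a)
    rw [AlgHom.commutes]

/-- the basis `1, y` -/
def bas : letI := alg M; Module.Basis (Fin 2) F[X] A :=
  letI := alg M
  Module.Basis.mk (v := ![1, M.y])
    (by
      rw [LinearIndependent.pair_iff]
      intro s t h
      refine M.inj s t ?_
      have h' : aeval M.x s * 1 + aeval M.x t * M.y = 0 := h
      rwa [mul_one] at h')
    (by
      intro h _
      obtain ⟨g, c, rfl⟩ := M.surj h
      have e : aeval M.x g + aeval M.x c * M.y = g • (1 : A) + c • M.y := by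
        change _ = aeval M.x g * 1 + aeval M.x c * M.y
        rw [mul_one]
      rw [e]
      exact add_mem (Submodule.smul_mem _ _ (Submodule.subset_span ⟨0, rfl⟩))
        (Submodule.smul_mem _ _ (Submodule.subset_span ⟨1, rfl⟩)))

theorem bas_repr (g c : F[X]) : letI := alg M
    (bas M).repr (M.el g c) 0 = g ∧ (bas M).repr (M.el g c) 1 = c := by
  let := alg M
  have e : M.el g c = g • bas M 0 + c • bas M 1 := by
    simp only [bas, Module.Basis.coe_mk]
    change _ = aeval M.x g * 1 + aeval M.x c * M.y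
    rw [mul_one, Quad.el]
  rw [e]
  simp

theorem norm_el (g c : F[X]) : letI := alg M
    Algebra.norm F[X] (M.el g c) = g ^ 2 - c ^ 2 * M.f := by
  let := alg M
  have b0 : bas M 0 = M.el 1 0 := by simp [bas, Quad.el]
  have b1 : bas M 1 = M.el 0 1 := by simp [bas, Quad.el]
  rw [Algebra.norm_eq_matrix_det (bas M), Matrix.det_fin_two]
  simp only [Algebra.leftMulMatrix_eq_repr_mul, b0, b1, M.el_mul, (bas_repr M _ _).1,
    (bas_repr M _ _).2]
  ring

theorem del_el (g c : F[X]) (h : M.el g c ≠ 0) :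
    del F (M.el g c) = (g ^ 2 - c ^ 2 * M.f).natDegree := by
  let := alg M
  have := tower M
  have := M.isDomain
  rw [← norm_el]
  exact finrank_quotient_span_eq_natDegree_norm (bas M) h

include M in
theorem finite_quot (I : Ideal A) (hI : I ≠ ⊥) : FiniteDimensional F (A ⧸ I) := by
  let := alg M
  have := tower M
  have := M.isDomain
  exact ((I.quotientEquivDirectSum F (bas M) hI).symm).finiteDimensional

theorem dvd_of_integral {K : Type} [Field K] [Algebra F[X] K]
    (hinj : Function.Injective (algebraMap F[X] K)) {u q : F[X]} (hq : q ≠ 0)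
    (h : IsIntegral F[X] (algebraMap F[X] K u / algebraMap F[X] K q)) : q ∣ u := by
  let L := FractionRing F[X]
  let ψ : L →ₐ[F[X]] K := IsFractionRing.liftAlgHom (g := Algebra.ofId F[X] K) hinj
  have e : ψ (algebraMap F[X] L u / algebraMap F[X] L q) =
      algebraMap F[X] K u / algebraMap F[X] K q := by
    rw [map_div₀, AlgHom.commutes, AlgHom.commutes]
  rw [← e, isIntegral_algHom_iff ψ ψ.toRingHom.injective] at h
  obtain ⟨v, hv⟩ := (isIntegrallyClosed_iff L).1 inferInstance h
  have hq' : algebraMap F[X] L q ≠ 0 := by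
    simpa using hq
  rw [eq_div_iff hq', ← map_mul] at hv
  exact ⟨v, by rw [← IsFractionRing.injective F[X] L hv, mul_comm]⟩

theorem dvd_of_sq {q c f : F[X]} (hq : q ≠ 0) (hf : Squarefree f) (h : q ^ 2 ∣ c ^ 2 * f) :
    q ∣ c := by
  obtain ⟨q', c', d, hco, rfl, rfl⟩ := UniqueFactorizationMonoid.exists_reduced_factors q hq c
  have hd : d ≠ 0 := left_ne_zero_of_mul hq
  have h1 : q' ^ 2 ∣ c' ^ 2 * f := by
    rw [mul_pow, mul_pow, mul_assoc] at h
    exact (mul_dvd_mul_iff_left (pow_ne_zero 2 hd)).1 h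
  have h2 : q' ^ 2 ∣ f := (hco.pow (m := 2) (n := 2)).dvd_of_dvd_mul_left h1
  have h3 : IsUnit q' := hf q' (by rwa [← sq])
  exact mul_dvd_mul_left d h3.dvd

include M in
theorem dedekind [CharZero F] : IsDedekindDomain A := by
  let := alg M
  have := tower M
  have hdom := M.isDomain
  have hfin : Module.Finite F[X] A := Module.Finite.of_basis (bas M)
  have hint : Algebra.IsIntegral F[X] A := Algebra.IsIntegral.of_finite _ _
  let K := FractionRing A
  rw [isDedekindDomain_iff A K]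
  refine ⟨hdom, IsNoetherianRing.of_finite F[X] A, Ring.DimensionLEOne.of_isIntegral F[X] A, ?_⟩
  intro z hz
  have hz' : IsIntegral F[X] z := isIntegral_trans z hz
  have hAK : ∀ g : F[X], algebraMap F[X] K g = algebraMap A K (aeval M.x g) := fun g =>
    IsScalarTower.algebraMap_apply F[X] A K g
  have hinj : Function.Injective (algebraMap F[X] K) := fun a b h => by
    rw [hAK, hAK] at h
    exact M.aeval_injective (IsFractionRing.injective A K h)
  let ι0 : A ≃ₐ[F[X]] A := { M.conj.toRingEquiv with commutes' := fun g => M.conj_aeval g }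
  let ι : K ≃ₐ[F[X]] K := IsFractionRing.algEquivOfAlgEquiv ι0
  have hι : ∀ a : A, ι (algebraMap A K a) = algebraMap A K (M.conj a) := fun a =>
    IsFractionRing.algEquivOfAlgEquiv_algebraMap ι0 a
  obtain ⟨a, b, hb, rfl⟩ := IsFractionRing.div_surjective (A := A) z
  have hb0 : b ≠ 0 := nonZeroDivisors.ne_zero hb
  have hcb : M.conj b ≠ 0 := by simpa using hb0
  obtain ⟨g, c, hgc⟩ := M.exists_el (a * M.conj b)
  set q := M.nm b with hq
  have hq0 : q ≠ 0 := fun h => hb0 (M.nm_eq_zero.1 h)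
  have hqK : algebraMap F[X] K q ≠ 0 := fun h => hq0 (hinj (h.trans (map_zero _).symm))
  have e1 : algebraMap A K a / algebraMap A K b =
      algebraMap A K (M.el g c) / algebraMap F[X] K q := by
    have h1 : algebraMap A K (M.conj b) ≠ 0 := by simpa using hcb
    rw [← hgc, hAK, hq, ← M.mul_conj, map_mul, map_mul, mul_div_mul_right _ _ h1]
  rw [e1] at hz' ⊢
  have hz2 : IsIntegral F[X] (algebraMap A K (M.el g (-c)) / algebraMap F[X] K q) := by
    have h := hz'.map (ι : K →ₐ[F[X]] K)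
    rwa [map_div₀, AlgHom.commutes, AlgEquiv.coe_toAlgHom, hι, M.conj_el] at h
  have hs : q ∣ 2 * g := by
    refine dvd_of_integral hinj hq0 ?_
    have h := hz'.add hz2
    rwa [← add_div, ← map_add, ← M.conj_el, M.add_conj, M.c0_el, ← hAK] at h
  have hg : q ∣ g := by
    have hu : IsUnit (2 : F[X]) := by
      have : (2 : F[X]) = C 2 := rfl
      rw [this]
      exact isUnit_C.2 (IsUnit.mk0 _ two_ne_zero)
    exact hu.dvd_mul_left.1 hs
  have hp : q ^ 2 ∣ g ^ 2 - c ^ 2 * M.f := by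
    refine dvd_of_integral hinj (pow_ne_zero 2 hq0) ?_
    have h := hz'.mul hz2
    rwa [div_mul_div_comm, ← map_mul, M.el_mul_conj, ← hAK, ← sq, ← map_pow] at h
  have hc : q ∣ c := by
    refine dvd_of_sq hq0 M.sep.squarefree ?_
    have h := dvd_sub (pow_dvd_pow_of_dvd hg 2) hp
    rwa [sub_sub_cancel] at h
  obtain ⟨g', rfl⟩ := hg
  obtain ⟨c', rfl⟩ := hc
  refine ⟨M.el g' c', ?_⟩
  rw [eq_div_iff hqK, hAK, ← map_mul, mul_comm, M.aeval_mul_el]

theorem dg_mul [IsDedekindDomain A] (hfin : ∀ I : Ideal A, I ≠ ⊥ → FiniteDimensional F (A ⧸ I))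
    (I J : Ideal A) (hI : I ≠ ⊥) (hJ : J ≠ ⊥) : dg F (I * J) = dg F I + dg F J := by
  have hIJ : I * J ≠ 0 := mul_ne_zero hI hJ
  have := hfin _ hIJ
  obtain ⟨a, ha⟩ := IsDedekindDomain.exists_sup_span_eq (Ideal.mul_le_right (I := I) (J := J)) hIJ
  have haJ : a ∈ J := ha ▸ Ideal.mem_sup_right (Ideal.mem_span_singleton_self a)
  let φ : (A ⧸ I * J) →ₗ[A] (A ⧸ J) := Submodule.factor Ideal.mul_le_right
  let ψ0 : A →ₗ[A] (A ⧸ I * J) := (I * J).mkQ ∘ₗ LinearMap.toSpanSingleton A A a
  have hψ : ∀ r, ψ0 r = (I * J).mkQ (r * a) := fun r => rfl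
  have hker : LinearMap.ker ψ0 = I := by
    ext r
    have e : r ∈ LinearMap.ker ψ0 ↔ r * a ∈ I * J := by
      rw [LinearMap.mem_ker, hψ, Submodule.mkQ_apply, Submodule.Quotient.mk_eq_zero]
    rw [e]
    have h0 : r ∈ I → r * a ∈ I * J := fun h => Ideal.mul_mem_mul h haJ
    refine Iff.intro (fun h => ?_) h0
    have h1 : Ideal.span {r} * J ≤ I * J := by
      conv_lhs => rw [← ha]
      rw [Ideal.mul_sup, Ideal.span_singleton_mul_span_singleton]
      exact sup_le Ideal.mul_le_right ((Ideal.span_singleton_le_iff_mem _).2 h)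
    rw [← Ideal.dvd_iff_le, mul_dvd_mul_iff_right hJ, Ideal.dvd_span_singleton] at h1
    exact h1
  have hrange : LinearMap.range ψ0 = LinearMap.ker φ := by
    ext z
    obtain ⟨b, rfl⟩ := (I * J).mkQ_surjective z
    have e : (I * J).mkQ b ∈ LinearMap.ker φ ↔ b ∈ J := by
      simp [φ, Ideal.Quotient.eq_zero_iff_mem]
    rw [e]
    constructor
    · rintro ⟨r, hr⟩
      rw [hψ, Submodule.mkQ_apply, Submodule.mkQ_apply, Submodule.Quotient.eq] at hr
      have h2 := sub_mem (J.mul_mem_left r haJ) (Ideal.mul_le_right hr)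
      rwa [sub_sub_cancel] at h2
    · intro hb
      rw [← ha] at hb
      obtain ⟨u, hu, v, hv, rfl⟩ := Submodule.mem_sup.1 hb
      obtain ⟨r, rfl⟩ := Ideal.mem_span_singleton'.1 hv
      rw [LinearMap.mem_range]
      use r
      rw [hψ, Submodule.mkQ_apply, Submodule.mkQ_apply, Submodule.Quotient.eq]
      simpa using hu
  have e1 : (A ⧸ I) ≃ₗ[A] LinearMap.ker φ :=
    (Submodule.quotEquivOfEq _ _ hker.symm).trans
      (ψ0.quotKerEquivRange.trans (LinearEquiv.ofEq _ _ hrange))
  have h1 := (φ.restrictScalars F).finrank_range_add_finrank_ker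
  have hφ : Function.Surjective φ := fun z => by
    obtain ⟨b, rfl⟩ := J.mkQ_surjective z
    exact ⟨(I * J).mkQ b, rfl⟩
  have h2 : LinearMap.range (φ.restrictScalars F) = ⊤ := LinearMap.range_eq_top.2 hφ
  have h3 : Module.finrank F (LinearMap.ker (φ.restrictScalars F)) = dg F I :=
    (e1.restrictScalars F).finrank_eq.symm
  rw [h2, finrank_top, h3] at h1
  unfold dg at h1 ⊢
  omega

theorem del_el_zero (g : F[X]) (hg : g ≠ 0) : del F (M.el g 0) = 2 * g.natDegree := by
  rw [del_el M g 0 (fun h => hg (M.el_eq_zero.1 h).1)]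
  simp

theorem del_el_max (g c : F[X]) (hc : c ≠ 0) :
    del F (M.el g c) = max (2 * g.natDegree) (2 * c.natDegree + 3) := by
  rw [del_el M g c (fun h => hc (M.el_eq_zero.1 h).2), M.natDegree_nm g c hc]

theorem del_le_iff (g c : F[X]) (n : ℕ) : (M.el g c = 0 ∨ del F (M.el g c) ≤ n) ↔
    g.degree < (n / 2 + 1 : ℕ) ∧ c.degree < ((n - 1) / 2 : ℕ) := by
  have hdeg : ∀ (p : F[X]) (m : ℕ), p ≠ 0 → (p.degree < m ↔ p.natDegree < m) := fun p m hp =>
    (natDegree_lt_iff_degree_lt hp).symm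
  by_cases hc : c = 0
  · subst hc
    by_cases hg : g = 0
    · subst hg
      simp [M.el_zero]
    · rw [del_el_zero M g hg, hdeg g _ hg, M.el_eq_zero]
      simp only [hg, false_or, degree_zero, WithBot.bot_lt_natCast, and_true]
      omega
  · rw [del_el_max M g c hc, hdeg c _ hc, M.el_eq_zero]
    by_cases hg : g = 0
    · subst hg
      simp only [hc, and_false, false_or, degree_zero, WithBot.bot_lt_natCast, true_and,
        natDegree_zero]
      omega
    · rw [hdeg g _ hg]
      simp only [hc, and_false, false_or]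
      omega

/-- the coordinates as a linear map -/
def elL : F[X] × F[X] →ₗ[F] A where
  toFun p := M.el p.1 p.2
  map_add' _ _ := (M.el_add _ _ _ _).symm
  map_smul' _ _ := (M.el_smul _ _ _).symm

include M in
theorem rr (n : ℕ) (hn : 1 ≤ n) : ∃ V : Submodule F A, FiniteDimensional F V ∧
    Module.finrank F V = n ∧ ∀ h, h ∈ V ↔ h = 0 ∨ del F h ≤ n := by
  let a := n / 2 + 1
  let b := (n - 1) / 2
  let ψ : degreeLT F a × degreeLT F b →ₗ[F] A :=
    elL M ∘ₗ (degreeLT F a).subtype.prodMap (degreeLT F b).subtype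
  have fa : FiniteDimensional F (degreeLT F a) := (degreeLTEquiv F a).symm.finiteDimensional
  have fb : FiniteDimensional F (degreeLT F b) := (degreeLTEquiv F b).symm.finiteDimensional
  have hinj : Function.Injective ψ := by
    rintro ⟨p, q⟩ ⟨p', q'⟩ h
    have h' : M.el p.1 q.1 = M.el p'.1 q'.1 := h
    rw [M.el_inj] at h'
    exact Prod.ext (Subtype.ext h'.1) (Subtype.ext h'.2)
  refine ⟨LinearMap.range ψ, inferInstance, ?_, fun h => ?_⟩
  · rw [LinearMap.finrank_range_of_inj hinj, Module.finrank_prod, (degreeLTEquiv F a).finrank_eq,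
      (degreeLTEquiv F b).finrank_eq]
    simp only [Module.finrank_fin_fun, a, b]
    omega
  · obtain ⟨g, c, rfl⟩ := M.exists_el h
    rw [del_le_iff]
    constructor
    · rintro ⟨⟨p, q⟩, hpq⟩
      have h' : M.el p.1 q.1 = M.el g c := hpq
      rw [M.el_inj] at h'
      rw [← h'.1, ← h'.2]
      exact ⟨mem_degreeLT.1 p.2, mem_degreeLT.1 q.2⟩
    · rintro ⟨h1, h2⟩
      exact ⟨(⟨g, mem_degreeLT.2 h1⟩, ⟨c, mem_degreeLT.2 h2⟩), rfl⟩

theorem cancel_top {g g' : F[X]} (hg : g ≠ 0) (hg' : g' ≠ 0) (h : g.natDegree = g'.natDegree) :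
    ∃ a : F, a ≠ 0 ∧ (g - a • g').degree < g.degree := by
  have h1 := leadingCoeff_ne_zero.2 hg
  have h2 := leadingCoeff_ne_zero.2 hg'
  have ha : g.leadingCoeff / g'.leadingCoeff ≠ 0 := div_ne_zero h1 h2
  refine ⟨_, ha, degree_sub_lt_left ?_ hg ?_⟩
  · rw [smul_eq_C_mul, degree_C_mul ha, degree_eq_natDegree hg, degree_eq_natDegree hg', h]
  · rw [smul_eq_C_mul, leadingCoeff_mul, leadingCoeff_C, div_mul_cancel₀ _ h2]

include M in
theorem lead (h h' : A) (h0 : h ≠ 0) (h0' : h' ≠ 0) (e : del F h = del F h') :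
    ∃ c : F, c ≠ 0 ∧ (h = c • h' ∨ del F (h - c • h') < del F h) := by
  obtain ⟨g, c, rfl⟩ := M.exists_el h
  obtain ⟨g', c', rfl⟩ := M.exists_el h'
  set n := del F (M.el g c) with hn
  have b1 := (del_le_iff M g c n).1 (Or.inr le_rfl)
  have b2 := (del_le_iff M g' c' n).1 (Or.inr e.ge)
  have hsm : ∀ (a : F) (p q : F[X]) (m : ℕ), p.degree < m → q.degree < m →
      (p - a • q).degree < m := fun a p q m hp hq =>
    mem_degreeLT.1 (sub_mem (mem_degreeLT.2 hp) (Submodule.smul_mem _ _ (mem_degreeLT.2 hq)))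
  rcases Nat.eq_zero_or_pos n with hz | hpos
  · rw [hz] at b1 b2
    have c0 : c = 0 := by simpa using b1.2
    have c0' : c' = 0 := by simpa using b2.2
    subst c0 c0'
    have hg : g ≠ 0 := fun h => h0 (by rw [h, M.el_zero])
    have hg' : g' ≠ 0 := fun h => h0' (by rw [h, M.el_zero])
    have d1 : g.natDegree = 0 := by
      have := (natDegree_lt_iff_degree_lt hg).2 b1.1
      omega
    have d2 : g'.natDegree = 0 := by
      have := (natDegree_lt_iff_degree_lt hg').2 b2.1
      omega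
    obtain ⟨a, ha, hlt⟩ := cancel_top hg hg' (d1.trans d2.symm)
    refine ⟨a, ha, Or.inl ?_⟩
    rw [degree_eq_natDegree hg, d1] at hlt
    have h3 : g - a • g' = 0 := by simpa using hlt
    rw [M.el_smul, ← sub_eq_zero.1 h3, smul_zero]
  · have n1 : ¬ (g.degree < ((n - 1) / 2 + 1 : ℕ) ∧ c.degree < ((n - 1 - 1) / 2 : ℕ)) := by
      rw [← del_le_iff M]
      rintro (h | h)
      · exact h0 h
      · omega
    have n2 : ¬ (g'.degree < ((n - 1) / 2 + 1 : ℕ) ∧ c'.degree < ((n - 1 - 1) / 2 : ℕ)) := by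
      rw [← del_le_iff M]
      rintro (h | h)
      · exact h0' h
      · omega
    have key : ∃ a : F, a ≠ 0 ∧ (g - a • g').degree < ((n - 1) / 2 + 1 : ℕ) ∧
        (c - a • c').degree < ((n - 1 - 1) / 2 : ℕ) := by
      have top : ∀ (p q : F[X]) (m : ℕ), p.degree < (m + 1 : ℕ) → q.degree < (m + 1 : ℕ) →
          ¬ p.degree < m → ¬ q.degree < m → ∃ a : F, a ≠ 0 ∧ (p - a • q).degree < m := by
        intro p q m hp hq np nq
        have p0 : p ≠ 0 := by rintro rfl; simp at np
        have q0 : q ≠ 0 := by rintro rfl; simp at nq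
        rw [← natDegree_lt_iff_degree_lt p0] at hp np
        rw [← natDegree_lt_iff_degree_lt q0] at hq nq
        obtain ⟨a, ha, hlt⟩ := cancel_top p0 q0 (by omega)
        refine ⟨a, ha, ?_⟩
        rwa [degree_eq_natDegree p0, show p.natDegree = m by omega] at hlt
      rcases Nat.even_or_odd' n with ⟨j, hj | hj⟩
      · have e1 : n / 2 + 1 = (n - 1) / 2 + 1 + 1 := by omega
        have e2 : (n - 1) / 2 = (n - 1 - 1) / 2 := by omega
        rw [e1] at b1 b2
        have b12 := b1.2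
        have b22 := b2.2
        rw [e2] at b12 b22
        obtain ⟨a, ha, hlt⟩ := top g g' _ b1.1 b2.1 (fun h => n1 ⟨h, b12⟩) (fun h => n2 ⟨h, b22⟩)
        exact ⟨a, ha, hlt, hsm a _ _ _ b12 b22⟩
      · have e1 : n / 2 + 1 = (n - 1) / 2 + 1 := by omega
        rw [e1] at b1 b2
        by_cases hj0 : j = 0
        · have e2 : (n - 1) / 2 = (n - 1 - 1) / 2 := by omega
          exact absurd ⟨b1.1, e2 ▸ b1.2⟩ n1
        · have e2 : (n - 1) / 2 = (n - 1 - 1) / 2 + 1 := by omega
          have b12 := b1.2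
          have b22 := b2.2
          rw [e2] at b12 b22
          obtain ⟨a, ha, hlt⟩ := top c c' _ b12 b22 (fun h => n1 ⟨b1.1, h⟩)
            (fun h => n2 ⟨b2.1, h⟩)
          exact ⟨a, ha, hsm a _ _ _ b1.1 b2.1, hlt⟩
    obtain ⟨a, ha, hk⟩ := key
    refine ⟨a, ha, ?_⟩
    rw [← del_le_iff M, ← M.el_sub, ← M.el_smul] at hk
    rcases hk with hk | hk
    · exact Or.inl (sub_eq_zero.1 hk)
    · exact Or.inr (by omega)

include M in
theorem small (h : A) (h0 : h ≠ 0) :
    del F h ≠ 1 ∧ (del F h = 0 → ∃ c : F, h = algebraMap F A c) := by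
  obtain ⟨g, c, rfl⟩ := M.exists_el h
  by_cases hc : c = 0
  · subst hc
    have hg : g ≠ 0 := fun h => h0 (by rw [h, M.el_zero])
    rw [del_el_zero M g hg]
    refine ⟨by omega, fun h => ⟨g.coeff 0, ?_⟩⟩
    rw [← M.el_C, ← eq_C_of_natDegree_eq_zero (by omega)]
  · rw [del_el_max M g c hc]
    exact ⟨by omega, fun h => by omega⟩

include M in
theorem max_ne_bot (P : MaximalSpectrum A) : P.asIdeal ≠ ⊥ := by
  intro hP
  have hx : M.x ∉ P.asIdeal := by
    rw [hP]
    simpa using M.x_ne_zero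
  obtain ⟨a, b, hb, hab⟩ := P.isMaximal.exists_inv hx
  rw [hP, Ideal.mem_bot] at hb
  rw [hb, add_zero] at hab
  have h1 : aeval M.x (X : F[X]) ∣ aeval M.x (1 : F[X]) := by
    simpa using Dvd.intro_left a hab
  rw [M.aeval_dvd_aeval] at h1
  exact not_isUnit_X (isUnit_of_dvd_one h1)

end A1

theorem p_a1 : S_A1 := by
  intro F A _ _ _ _ M
  have hD := A1.dedekind M
  exact ⟨hD, A1.finite_quot M, A1.dg_mul (A1.finite_quot M), A1.max_ne_bot M, A1.del_el M,
    A1.small M, A1.lead M, A1.rr M⟩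

end

end Pool.Agent.P.MP_b8021b_nt.VE
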