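import Pool.Agent.P.MP_b8021b_nt.VE.StN

/-! Generic facts for the biquadratic field. -/

namespace Pool.Agent.P.MP_b8021b_nt.VE

open Polynomial NumberField Finset
open scoped Classical ComplexConjugate

set_option linter.unusedSectionVars false

namespace Bq

/-- universal property of the quadratic algebra -/
lemma qa_lift {F : Type} [Field F] (a : F) (A : Type) [CommRing A] (f : F →+* A) (s : A)
    (hs : s ^ 2 = f a) :
    ∃ g : QuadraticAlgebra F a 0 →+* A, (∀ x, g (algebraMap F _ x) = f x) ∧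
      g QuadraticAlgebra.omega = s := by
  let := f.toAlgebra
  have h : s * s = a • (1 : A) + (0 : F) • s := by
    rw [zero_smul, add_zero, Algebra.smul_def, mul_one, ← sq, hs]; rfl
  refine ⟨(QuadraticAlgebra.lift ⟨s, h⟩ : _ →ₐ[F] A).toRingHom, fun x => AlgHom.commutes _ x, ?_⟩
  simp [QuadraticAlgebra.lift]

variable {L : Type} [Field L] [NumberField L]

lemma sqL (K : IQ L) : (K.ω : L) ^ 2 = K.D := by
  have := congrArg (algebraMap (𝓞 L) L) K.sq
  simpa using this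

lemma iq_equiv (K : IQ L) : ∃ e : QuadraticAlgebra ℚ (K.D : ℚ) 0 →+* L, Function.Bijective e ∧
    e QuadraticAlgebra.omega = K.ω ∧ ∀ x : ℚ, e (algebraMap ℚ _ x) = x := by
  have : Fact (∀ r : ℚ, r ^ 2 ≠ (K.D : ℚ) + 0 * r) := ⟨fun r h => by
    have h1 : (K.D : ℚ) < 0 := by exact_mod_cast K.neg
    nlinarith [sq_nonneg r]⟩
  have h : (K.ω : L) * K.ω = (K.D : ℚ) • (1 : L) + (0 : ℚ) • (K.ω : L) := by
    rw [zero_smul, add_zero, Algebra.smul_def, mul_one, ← sq, sqL]; simp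
  let e : QuadraticAlgebra ℚ (K.D : ℚ) 0 →ₐ[ℚ] L := QuadraticAlgebra.lift ⟨K.ω, h⟩
  have hi : Function.Injective e := e.toRingHom.injective
  have hs : Function.Surjective e :=
    (LinearMap.injective_iff_surjective_of_finrank_eq_finrank (f := e.toLinearMap)
      (by rw [QuadraticAlgebra.finrank_eq_two, K.deg])).mp hi
  refine ⟨e.toRingHom, ⟨hi, hs⟩, ?_, fun x => e.commutes x⟩
  change (0 : ℚ) • (1 : L) + (1 : ℚ) • (K.ω : L) = K.ω
  rw [zero_smul, one_smul, zero_add]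

lemma repr (K : IQ L) (z : L) : ∃ x y : ℚ, z = x + y * K.ω := by
  obtain ⟨e, hb, he, hq⟩ := iq_equiv K
  obtain ⟨w, rfl⟩ := hb.2 z
  refine ⟨w.re, w.im, ?_⟩
  have : w = algebraMap ℚ _ w.re + algebraMap ℚ _ w.im * QuadraticAlgebra.omega := by
    ext <;> simp
  conv_lhs => rw [this]
  rw [map_add, map_mul, hq, hq, he]

lemma hom_ext (K : IQ L) {A : Type} [Field A] [CharZero A] (f g : L →+* A)
    (h : f K.ω = g K.ω) : f = g := by
  ext z
  obtain ⟨x, y, rfl⟩ := repr K z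
  simp [h]

lemma exists_hom (K : IQ L) (A : Type) [Field A] [CharZero A] (s : A) (hs : s ^ 2 = K.D) :
    ∃ f : L →+* A, f K.ω = s := by
  obtain ⟨e, hb, he, hq⟩ := iq_equiv K
  obtain ⟨g, -, hg⟩ := qa_lift (K.D : ℚ) A (Rat.castHom A) s (by simpa using hs)
  refine ⟨g.comp (RingEquiv.ofBijective e hb).symm.toRingHom, ?_⟩
  have : (RingEquiv.ofBijective e hb).symm K.ω = QuadraticAlgebra.omega := by
    rw [RingEquiv.symm_apply_eq]; exact he.symm
  simp [this, hg]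

lemma conj_s (K : IQ L) : conj (K.σ K.ω) = -K.σ K.ω := by
  have h : K.σ K.ω ^ 2 = (K.D : ℂ) := by rw [← map_pow, sqL]; simp
  have h1 : (K.D : ℝ) < 0 := by exact_mod_cast K.neg
  have hre := congrArg Complex.re h
  have him := congrArg Complex.im h
  simp only [sq, Complex.mul_re, Complex.mul_im, Complex.intCast_re, Complex.intCast_im] at hre him
  have : (K.σ K.ω).re = 0 := by
    by_contra h0
    have : (K.σ K.ω).im = 0 := by
      have : (K.σ K.ω).re * (K.σ K.ω).im = 0 := by linarith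
      exact (mul_eq_zero.mp this).resolve_left h0
    rw [this] at hre
    nlinarith [mul_self_nonneg (K.σ K.ω).re]
  apply Complex.ext <;> simp [this]

lemma norm_s (K : IQ L) : ‖K.σ K.ω‖ ^ 2 = |(K.D : ℝ)| := by
  have h : K.σ K.ω ^ 2 = (K.D : ℂ) := by rw [← map_pow, sqL]; simp
  rw [← norm_pow, h, Complex.norm_intCast]

lemma s_ne (K : IQ L) : K.σ K.ω ≠ 0 := by
  intro h
  have := norm_s K
  rw [h] at this
  have h1 : (K.D : ℝ) < 0 := by exact_mod_cast K.neg
  rw [abs_of_neg h1] at this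
  simp at this
  have := K.neg
  omega

/-! ### ideals of squarefree norm -/

lemma norm_ker {m : ℕ} (f : 𝓞 L →+* ZMod m) : Ideal.absNorm (RingHom.ker f) = m := by
  rw [Ideal.absNorm_apply, Submodule.cardQuot_apply,
    Nat.card_congr (RingHom.quotientKerEquivOfSurjective (ZMod.ringHom_surjective f)).toEquiv,
    Nat.card_zmod]

lemma exists_ker {m : ℕ} (hm : Squarefree m) (I : Ideal (𝓞 L)) (hI : Ideal.absNorm I = m) :
    ∃ f : 𝓞 L →+* ZMod m, RingHom.ker f = I := by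
  have hm0 : m ≠ 0 := hm.ne_zero
  have hc : Nat.card (𝓞 L ⧸ I) = m := by
    rw [← hI, Ideal.absNorm_apply, Submodule.cardQuot_apply]
  have : Finite (𝓞 L ⧸ I) := Nat.finite_of_card_ne_zero (hc ▸ hm0)
  let : Fintype (𝓞 L ⧸ I) := Fintype.ofFinite _
  have hc' : Fintype.card (𝓞 L ⧸ I) = m := by rw [← hc, Nat.card_eq_fintype_card]
  have h1 : ringChar (𝓞 L ⧸ I) ∣ m := by
    rw [← ringChar.spec, ← hc']
    exact Nat.cast_card_eq_zero _
  have h2 : m ∣ ringChar (𝓞 L ⧸ I) := by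
    rw [← Nat.prod_primeFactors_of_squarefree hm]
    refine Finset.prod_primes_dvd _ (fun p hp => (Nat.prime_of_mem_primeFactors hp).prime) ?_
    intro p hp
    have := Fact.mk (Nat.prime_of_mem_primeFactors hp)
    rw [prime_dvd_char_iff_dvd_card, hc']
    exact Nat.dvd_of_mem_primeFactors hp
  have : CharP (𝓞 L ⧸ I) m := ringChar.of_eq (Nat.dvd_antisymm h1 h2)
  let e := ZMod.ringEquiv (𝓞 L ⧸ I) hc'
  refine ⟨e.symm.toRingHom.comp (Ideal.Quotient.mk I), ?_⟩
  ext x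
  simp [RingHom.mem_ker, Ideal.Quotient.eq_zero_iff_mem]

lemma eq_of_le_of_norm {I J : Ideal (𝓞 L)} (h : I ≤ J) (h1 : Ideal.absNorm I = Ideal.absNorm J)
    (h0 : Ideal.absNorm J ≠ 0) : I = J := by
  obtain ⟨C, rfl⟩ := Ideal.dvd_iff_le.mpr h
  rw [map_mul] at h1
  have : Ideal.absNorm C = 1 := by
    have h2 : Ideal.absNorm J * Ideal.absNorm C = Ideal.absNorm J * 1 := by rw [h1, mul_one]
    exact Nat.eq_of_mul_eq_mul_left (Nat.pos_of_ne_zero h0) h2
  rw [Ideal.absNorm_eq_one_iff.mp this, Ideal.mul_top]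

lemma cop_iff (n : ℕ) (I : Ideal (𝓞 L)) : Cop n I ↔ ∃ a ∈ I, (n : 𝓞 L) ∣ a - 1 := by
  unfold Cop
  rw [Ideal.isCoprime_iff_exists]
  constructor
  · rintro ⟨i, hi, j, hj, h⟩
    refine ⟨i, hi, ?_⟩
    have : i - 1 = -j := by linear_combination h
    rw [this, dvd_neg]
    exact Ideal.mem_span_singleton.mp hj
  · rintro ⟨a, ha, h⟩
    exact ⟨a, ha, 1 - a, Ideal.mem_span_singleton.mpr (by rwa [← dvd_neg, neg_sub]), by ring⟩

lemma cop_mul {n n' : ℕ} {I : Ideal (𝓞 L)} (h : Cop n I) (h' : Cop n' I) : Cop (n * n') I := by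
  unfold Cop at *
  rw [Nat.cast_mul, ← Ideal.span_singleton_mul_span_singleton]
  exact h.mul_right h'

lemma cop_of_dvd {n m : ℕ} {I : Ideal (𝓞 L)} (h : Cop m I) (hd : n ∣ m) : Cop n I := by
  obtain ⟨a, ha, h1⟩ := (cop_iff m I).mp h
  exact (cop_iff n I).mpr ⟨a, ha, (Nat.cast_dvd_cast hd).trans h1⟩

lemma cop_ker {n m : ℕ} (f : 𝓞 L →+* ZMod m) : Cop n (RingHom.ker f) ↔ n.Coprime m := by
  rw [cop_iff, ← ZMod.isUnit_iff_coprime]
  constructor
  · rintro ⟨a, ha, c, hc⟩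
    have := congrArg f hc
    rw [map_sub, RingHom.mem_ker.mp ha, map_mul, map_natCast, map_one] at this
    exact IsUnit.of_mul_eq_one (-f c) (by linear_combination this)
  · intro h
    obtain ⟨u, hu⟩ := h.exists_right_inv
    obtain ⟨c, rfl⟩ := ZMod.ringHom_surjective f u
    refine ⟨1 - n * c, ?_, -c, by ring⟩
    rw [RingHom.mem_ker, map_sub, map_mul, map_natCast, map_one, hu, sub_self]

lemma ne_zero_of_mod {m : ℕ} (hm : 2 ≤ m) {β : 𝓞 L} (h : (m : 𝓞 L) ∣ β - 1) : β ≠ 0 := by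
  rintro rfl
  rw [zero_sub, dvd_neg, ← isUnit_iff_dvd_one] at h
  have h1 : Ideal.span {(m : 𝓞 L)} = ⊤ := Ideal.span_singleton_eq_top.mpr h
  have h2 := Ideal.absNorm_span_natCast (S := 𝓞 L) m
  rw [h1, Ideal.absNorm_top] at h2
  have h3 : 0 < Module.finrank ℤ (𝓞 L) := Module.finrank_pos
  have := Nat.one_lt_pow h3.ne' (show 1 < m by omega)
  omega

/-- homomorphisms of the ring of integers are determined by the value at `ω` -/
lemma int_ext (hIQb : S_IQb) (K : IQ L) {R : Type} [CommRing R] (f g : 𝓞 L →+* R)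
    (hc : ∀ x y : R, 2 * (K.D : R) * x = 2 * (K.D : R) * y → x = y) (h : f K.ω = g K.ω) :
    f = g := by
  ext β
  obtain ⟨a, b, hab⟩ := (hIQb L K).1 β
  apply hc
  have h1 := congrArg f hab
  have h2 := congrArg g hab
  simp only [map_mul, map_add, map_intCast, map_ofNat] at h1 h2
  rw [h1, h2, h]

/-! ### quadratic extensions of number fields -/

section quad

variable {M : Type} [Field M] [NumberField M] [Algebra L M]

lemma univ_eq (h2 : Module.finrank L M = 2) (τ : M ≃ₐ[L] M) (hτ : τ ≠ 1) :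
    IsGalois L M ∧ (Finset.univ : Finset (M ≃ₐ[L] M)) = {1, τ} := by
  have : Algebra.IsQuadraticExtension L M := ⟨h2⟩
  have : IsGalois L M := inferInstance
  refine ⟨this, ?_⟩
  symm
  apply Finset.eq_univ_of_card
  rw [Finset.card_pair hτ.symm, ← Nat.card_eq_fintype_card, IsGalois.card_aut_eq_finrank, h2]

/-- restriction to the integers -/
noncomputable def rs (τ : M ≃ₐ[L] M) : 𝓞 M ≃ₐ[𝓞 L] 𝓞 M := RingOfIntegers.mapAlgEquiv τ

lemma rs_coe (τ : M ≃ₐ[L] M) (β : 𝓞 M) : ((rs τ β : 𝓞 M) : M) = τ β := rfl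

lemma j_coe (x : 𝓞 L) : ((algebraMap (𝓞 L) (𝓞 M) x : 𝓞 M) : M) = algebraMap L M x := rfl

lemma j_inj : Function.Injective (algebraMap (𝓞 L) (𝓞 M)) := FaithfulSMul.algebraMap_injective _ _

lemma j_norm (h2 : Module.finrank L M = 2) (τ : M ≃ₐ[L] M) (hτ : τ ≠ 1) (β : 𝓞 M) :
    algebraMap (𝓞 L) (𝓞 M) (Algebra.intNorm (𝓞 L) (𝓞 M) β) = β * rs τ β := by
  obtain ⟨hG, hu⟩ := univ_eq h2 τ hτ
  apply RingOfIntegers.ext
  rw [j_coe, RingOfIntegers.coe_eq_algebraMap, Algebra.algebraMap_intNorm (L := M),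
    Algebra.norm_eq_prod_automorphisms]
  rw [show (Finset.univ : Finset (M ≃ₐ[L] M)) = {1, τ} from hu, Finset.prod_pair hτ.symm]
  rfl

lemma j_trace (h2 : Module.finrank L M = 2) (τ : M ≃ₐ[L] M) (hτ : τ ≠ 1) (β : 𝓞 M) :
    algebraMap (𝓞 L) (𝓞 M) (Algebra.intTrace (𝓞 L) (𝓞 M) β) = β + rs τ β := by
  obtain ⟨hG, hu⟩ := univ_eq h2 τ hτ
  apply RingOfIntegers.ext
  rw [j_coe, RingOfIntegers.coe_eq_algebraMap, Algebra.algebraMap_intTrace (L := M),
    trace_eq_sum_automorphisms]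
  rw [show (Finset.univ : Finset (M ≃ₐ[L] M)) = {1, τ} from hu, Finset.sum_pair hτ.symm]
  rfl

lemma finrank_int (h2 : Module.finrank L M = 2) : Module.finrank (𝓞 L) (𝓞 M) = 2 := by
  rw [← h2, IsFractionRing.finrank_eq (𝓞 L) L (𝓞 M) M]

lemma norm_mod (h2 : Module.finrank L M = 2) (τ : M ≃ₐ[L] M) (hτ : τ ≠ 1) {n : ℕ} {β : 𝓞 M}
    (h : (n : 𝓞 M) ∣ β - 1) : (n : 𝓞 L) ∣ Algebra.intNorm (𝓞 L) (𝓞 M) β - 1 := by
  obtain ⟨c, hc⟩ := h
  refine ⟨Algebra.intTrace (𝓞 L) (𝓞 M) c + n * Algebra.intNorm (𝓞 L) (𝓞 M) c, ?_⟩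
  apply j_inj (M := M)
  have hβ : β = 1 + n * c := by linear_combination hc
  rw [map_sub, map_mul, map_add, map_mul, j_norm h2 τ hτ, j_norm h2 τ hτ, j_trace h2 τ hτ, hβ]
  simp only [map_add, map_mul, map_one, map_natCast]
  ring

lemma cop_norm (h2 : Module.finrank L M = 2) (τ : M ≃ₐ[L] M) (hτ : τ ≠ 1) (n : ℕ)
    (A : Ideal (𝓞 M)) : Cop n (Ideal.relNorm (𝓞 L) A) ↔ Cop n A := by
  rw [cop_iff, cop_iff]
  constructor
  · rintro ⟨a, ha, h⟩
    refine ⟨_, Ideal.relNorm_le_comap (𝓞 L) A ha, ?_⟩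
    have := map_dvd (algebraMap (𝓞 L) (𝓞 M)) h
    simpa using this
  · rintro ⟨a, ha, h⟩
    exact ⟨_, Ideal.intNorm_mem_spanNorm (𝓞 L) ha, norm_mod h2 τ hτ h⟩

lemma relNorm_ker {m : ℕ} (hm : m ≠ 0) (g : 𝓞 M →+* ZMod m) :
    Ideal.relNorm (𝓞 L) (RingHom.ker g) = RingHom.ker (g.comp (algebraMap (𝓞 L) (𝓞 M))) := by
  apply eq_of_le_of_norm
  · rw [← RingHom.comap_ker]
    exact Ideal.relNorm_le_comap (𝓞 L) _
  · rw [Ideal.absNorm_relNorm, norm_ker, norm_ker]
  · rw [norm_ker]; exact hm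

variable (h2 : Module.finrank L M = 2) (τ : M ≃ₐ[L] M) (hτ : τ ≠ 1) (d : ℤ) (W : 𝓞 M)
  (hW : W ^ 2 = d) (hτW : rs τ W = -W)

include h2 hτ hW hτW

/-- uniqueness of extensions -/
lemma ext_uniq {R : Type} [CommRing R] (e : R) (he : e * (2 * d) = 1) (g g' : 𝓞 M →+* R)
    (h : g.comp (algebraMap (𝓞 L) (𝓞 M)) = g'.comp (algebraMap (𝓞 L) (𝓞 M))) (hw : g W = g' W) :
    g = g' := by
  ext β
  have key : 2 * d * β = d * algebraMap (𝓞 L) (𝓞 M) (Algebra.intTrace (𝓞 L) (𝓞 M) β) +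
      W * algebraMap (𝓞 L) (𝓞 M) (Algebra.intTrace (𝓞 L) (𝓞 M) (β * W)) := by
    rw [j_trace h2 τ hτ, j_trace h2 τ hτ, map_mul, hτW]
    linear_combination (rs τ β - β) * hW
  have h1 := congrArg g key
  have h1' := congrArg g' key
  have h3 := fun x => DFunLike.congr_fun h x
  simp only [RingHom.comp_apply] at h3
  simp only [map_mul, map_add, map_intCast, map_ofNat] at h1 h1'
  rw [h3, h3, hw, ← h1'] at h1
  linear_combination e * h1 - (g β - g' β) * he

/-- existence of extensions -/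
lemma ext_ex {R : Type} [CommRing R] (e : R) (he : e * (2 * d) = 1) (f : 𝓞 L →+* R) (a : R)
    (ha : a ^ 2 = d) :
    ∃ g : 𝓞 M →+* R, g.comp (algebraMap (𝓞 L) (𝓞 M)) = f ∧ g W = a := by
  set U : 𝓞 M → 𝓞 L := fun β => Algebra.intTrace (𝓞 L) (𝓞 M) β with hU
  set V : 𝓞 M → 𝓞 L := fun β => Algebra.intTrace (𝓞 L) (𝓞 M) (β * W) with hV
  have jU : ∀ β, algebraMap (𝓞 L) (𝓞 M) (U β) = β + rs τ β := fun β => j_trace h2 τ hτ β
  have jV : ∀ β, algebraMap (𝓞 L) (𝓞 M) (V β) = W * (β - rs τ β) := fun β => by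
    rw [hV, j_trace h2 τ hτ, map_mul, hτW]; ring
  have Uj : ∀ x, U (algebraMap (𝓞 L) (𝓞 M) x) = 2 * x := fun x => by
    apply j_inj (M := M)
    rw [jU, AlgEquiv.commutes, map_mul, map_ofNat]; ring
  have Vj : ∀ x, V (algebraMap (𝓞 L) (𝓞 M) x) = 0 := fun x => by
    apply j_inj (M := M)
    rw [jV, AlgEquiv.commutes, map_zero]; ring
  have UW : U W = 0 := by
    apply j_inj (M := M)
    rw [jU, hτW, map_zero]; ring
  have VW : V W = 2 * d := by
    apply j_inj (M := M)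
    rw [jV, hτW, map_mul, map_ofNat, map_intCast]; linear_combination 2 * hW
  have Uadd : ∀ β β', U (β + β') = U β + U β' := fun β β' => map_add _ _ _
  have Vadd : ∀ β β', V (β + β') = V β + V β' := fun β β' => by
    simp only [hV, add_mul, map_add]
  have Umul : ∀ β β', 2 * d * U (β * β') = d * U β * U β' + V β * V β' := fun β β' => by
    apply j_inj (M := M)
    simp only [map_mul, map_add, map_ofNat, map_intCast, jU, jV]
    linear_combination (-(β - rs τ β) * (β' - rs τ β')) * hW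
  have Vmul : ∀ β β', 2 * V (β * β') = U β * V β' + U β' * V β := fun β β' => by
    apply j_inj (M := M)
    simp only [map_mul, map_add, map_ofNat, jU, jV]
    ring
  have gj : ∀ x, e * (d * f (U (algebraMap (𝓞 L) (𝓞 M) x)) + a * f (V (algebraMap (𝓞 L) (𝓞 M) x)))
      = f x := fun x => by
    rw [Uj, Vj, map_mul, map_ofNat, map_zero]
    linear_combination (f x) * he
  let g : 𝓞 M →+* R :=
    { toFun := fun β => e * (d * f (U β) + a * f (V β))
      map_one' := by simpa using gj 1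
      map_zero' := by simpa using gj 0
      map_add' := fun β β' => by rw [Uadd, Vadd, map_add, map_add]; ring
      map_mul' := fun β β' => by
        have h1 := congrArg f (Umul β β')
        have h3 := congrArg f (Vmul β β')
        simp only [map_mul, map_add, map_ofNat, map_intCast] at h1 h3
        linear_combination (e ^ 2 * d) * h1 + (e ^ 2 * d * a) * h3 -
          (e ^ 2 * f (V β) * f (V β')) * ha -
          (e * (d * f (U (β * β')) + a * f (V (β * β')))) * he }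
  refine ⟨g, RingHom.ext gj, ?_⟩
  change e * (d * f (U W) + a * f (V W)) = a
  rw [UW, VW, map_zero, map_mul, map_ofNat, map_intCast]
  linear_combination a * he

end quad

end Bq

end Pool.Agent.P.MP_b8021b_nt.VE
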