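import Pool.Agent.P.MP_b8021b_nt.VE.StB

/-! Basic lemmas for the contraction step. -/

namespace Pool.Agent.P.MP_b8021b_nt.VE

open Finset
open scoped Classical

namespace Contr

set_option linter.unusedSectionVars false

variable {P X Z T S Ce : Type} [Fintype P] [Fintype X] [Fintype Z] [Fintype T] [Fintype S]
  [Fintype Ce]

theorem sum_anti {ι : X → X} (hι : ∀ x, ι (ι x) = x) {F : X → ℝ} (hF : ∀ x, F (ι x) = -F x) :
    ∑ x, F x = 0 := by
  have h : ∑ x, F (ι x) = ∑ x, F x := Equiv.sum_comp (Function.Involutive.toPerm ι hι) F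
  simp only [hF, Finset.sum_neg_distrib] at h
  linarith

theorem Hh_nonneg (N u i i' : ℕ) : 0 ≤ Hh N u i i' := by unfold Hh; positivity

theorem P1_nonneg (N u i : ℕ) : 0 ≤ P1 N u i := Finset.sum_nonneg fun _ _ => Hh_nonneg _ _ _ _

section base

variable {b : Base P X} {ε : ℝ}

theorem N_pos (hb : b.Ok ε) : (1 : ℝ) ≤ b.N := by
  rcases Nat.eq_zero_or_pos b.N with h | h
  · have := hb.Npos
    rw [h] at this
    norm_num at this
  · exact_mod_cast h

theorem eps_pos (hb : b.Ok ε) : 0 < ε := by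
  have h1 := hb.Npos
  have h2 := N_pos hb
  by_contra h
  push Not at h
  nlinarith

theorem epsN_le (hb : b.Ok ε) : ε / b.N ≤ ε := div_le_self (eps_pos hb).le (N_pos hb)

theorem q_pos (hb : b.Ok ε) (a : P) : 0 < b.q a := by
  have h1 := hb.q_ge a
  have h2 := N_pos hb
  have h3 := eps_pos hb
  by_contra h
  push Not at h
  nlinarith

theorem base_mono (hb : b.Ok ε) {ε' : ℝ} (h : ε ≤ ε') : b.Ok ε' := by
  have hN : (0 : ℝ) < b.N := lt_of_lt_of_le one_pos (N_pos hb)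
  have hd : ε / b.N ≤ ε' / b.N := div_le_div_of_nonneg_right h hN.le
  exact ⟨hb.Npos.trans (mul_le_mul_of_nonneg_right h hN.le), hb.lev_lt, hb.v_mem,
    fun a => (hb.q_ge a).trans (mul_le_mul_of_nonneg_right h (q_pos hb a).le), hb.w_nonneg,
    fun a => (hb.w_le a).trans hd, hb.w_sum, fun a => (hb.card a).trans hd, hb.ι_ι, hb.pr_ι⟩

theorem side_mono {σ : Side X Z} (hσ : σ.Ok b ε) {ε' : ℝ} (h : ε ≤ ε') : σ.Ok b ε' :=
  ⟨hσ.nonneg, hσ.sum, fun Y h1 h2 => (hσ.ind Y h1 h2).trans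
    (div_le_div_of_nonneg_right h (Nat.cast_nonneg _)), hσ.same0, hσ.same1⟩

theorem cell_mono {σ : Side X Z} {cell : Z → Ce} (hσ : σ.CellInd b cell ε) {ε' : ℝ} (h : ε ≤ ε') :
    σ.CellInd b cell ε' := fun Y h1 h2 c => (hσ Y h1 h2 c).trans
      (div_le_div_of_nonneg_right h (Nat.cast_nonneg _))

theorem des_mono {σT : Side X T} {σS : Side X S} {u : ℕ} {μ : T → S → (Fin (u + 2) → X) → ℝ}
    (hD : Des b σT σS u μ ε) {ε' : ℝ} (h : ε ≤ ε') : Des b σT σS u μ ε' :=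
  ⟨base_mono hD.base h, side_mono hD.sT h, side_mono hD.sS h,
    ⟨hD.mix.tup, fun φ ψ h1 h2 => (hD.mix.cut φ ψ h1 h2).trans h⟩⟩

theorem sys_mono {Nc u d : ℕ} {G : Sys P X T S Nc u} (hG : G.Ok d ε) {ε' : ℝ} (h : ε ≤ ε') :
    G.Ok d ε' :=
  ⟨des_mono hG.des h, ⟨hG.box.mem, cell_mono hG.box.cell h, hG.box.inv⟩, hG.anti, hG.degF,
    hG.degQ, hG.pos, hG.flat, hG.deriv, hG.zero, hG.size, hG.eqn⟩

theorem c1_nonneg {σ : Side X Z} (hb : b.Ok ε) (hσ : σ.Ok b ε) (x : X) (z : Z) :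
    0 ≤ σ.c1 b x z := by
  unfold Side.c1
  split_ifs
  · exact mul_nonneg (hσ.nonneg z) (q_pos hb _).le
  · exact le_rfl

theorem c2_nonneg {σ : Side X Z} (hb : b.Ok ε) (hσ : σ.Ok b ε) (x x' : X) (z : Z) :
    0 ≤ σ.c2 b x x' z := by
  unfold Side.c2
  split_ifs
  · exact mul_nonneg (hσ.nonneg z) (mul_pos (q_pos hb _) (q_pos hb _)).le
  · exact le_rfl

theorem m_nonneg {σ : Side X Z} (hb : b.Ok ε) (z : Z) (x : X) : 0 ≤ σ.m b z x := by
  unfold Side.m
  split_ifs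
  · exact hb.w_nonneg _
  · exact le_rfl

theorem flag_nonneg {σ : Side X Z} (hb : b.Ok ε) (hσ : σ.Ok b ε) (x : X) (z : Z) :
    0 ≤ σ.flag b x z :=
  div_nonneg (mul_nonneg (hσ.nonneg z) (m_nonneg hb z x)) (Nat.cast_nonneg _)

theorem om_nonneg (hb : b.Ok ε) (u : ℕ) (x x' : X) : 0 ≤ b.om u x x' := by
  unfold Base.om
  split_ifs
  · exact div_nonneg (mul_nonneg (mul_nonneg (hb.w_nonneg _) (hb.w_nonneg _)) (Hh_nonneg _ _ _ _))
      (mul_pos (q_pos hb _) (q_pos hb _)).le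
  · exact le_rfl

theorem rho1 {σ : Side X Z} (hb : b.Ok ε) (hσ : σ.Ok b ε) (x : X) :
    |∑ z, σ.c1 b x z - 1| ≤ ε := by
  have h := hσ.ind {x} (by simp) (by simp)
  have e : σ.prob {x} * (∏ y ∈ ({x} : Finset X), b.q (b.pr y)) = ∑ z, σ.c1 b x z := by
    simp only [Side.prob, Finset.prod_singleton, Finset.sum_mul, Finset.sum_filter, Side.c1,
      Finset.mem_singleton, forall_eq]
    exact Finset.sum_congr rfl fun z _ => by split_ifs <;> simp
  rw [e] at h
  exact h.trans (epsN_le hb)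

theorem rho2 {σ : Side X Z} (hb : b.Ok ε) (hσ : σ.Ok b ε) {x x' : X} (hx : b.pr x ≠ b.pr x') :
    |∑ z, σ.c2 b x x' z - 1| ≤ ε := by
  have hne : x ≠ x' := fun h => hx (by rw [h])
  have h := hσ.ind {x, x'} (by rw [Finset.card_pair hne]; norm_num) (by
    intro y hy y' hy' hyy
    simp only [Finset.coe_insert, Finset.coe_singleton, Set.mem_insert_iff,
      Set.mem_singleton_iff] at hy hy'
    rcases hy with rfl | rfl <;> rcases hy' with rfl | rfl
    · rfl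
    · exact absurd hyy hx
    · exact absurd hyy.symm hx
    · rfl)
  have e : σ.prob {x, x'} * (∏ y ∈ ({x, x'} : Finset X), b.q (b.pr y)) =
      ∑ z, σ.c2 b x x' z := by
    simp only [Side.prob, Finset.prod_pair hne, Finset.sum_mul, Finset.sum_filter, Side.c2,
      Finset.mem_insert, Finset.mem_singleton, forall_eq_or_imp, forall_eq]
    exact Finset.sum_congr rfl fun z _ => by split_ifs <;> simp
  rw [e] at h
  exact h.trans (epsN_le hb)

theorem sum_lev (hb : b.Ok ε) (F : ℕ → ℝ) :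
    ∑ a, b.w a * F (b.lev a) = ∑ i ∈ range b.N, F i := by
  rw [← Finset.sum_fiberwise_of_maps_to (s := univ) (t := range b.N) (g := b.lev)
    (fun a _ => mem_range.2 (hb.lev_lt a))]
  refine Finset.sum_congr rfl fun i hi => ?_
  have : ∑ a with b.lev a = i, b.w a * F (b.lev a) = ∑ a with b.lev a = i, b.w a * F i :=
    Finset.sum_congr rfl fun a ha => by rw [(mem_filter.1 ha).2]
  rw [this, ← Finset.sum_mul, hb.w_sum i (mem_range.1 hi), one_mul]

theorem sum_wq (hb : b.Ok ε) (hε : ε ≤ 1) (F : ℕ → ℝ) (hF : ∀ i, 0 ≤ F i) :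
    ∑ x, b.w (b.pr x) / b.q (b.pr x) * F (b.lev (b.pr x)) ≤ 2 * ∑ i ∈ range b.N, F i := by
  rw [← sum_lev hb F, ← Finset.sum_fiberwise (s := univ) (g := b.pr), Finset.mul_sum]
  refine Finset.sum_le_sum fun a _ => ?_
  have : ∑ x with b.pr x = a, b.w (b.pr x) / b.q (b.pr x) * F (b.lev (b.pr x)) =
      ∑ x with b.pr x = a, b.w a / b.q a * F (b.lev a) :=
    Finset.sum_congr rfl fun x hx => by rw [(mem_filter.1 hx).2]
  rw [this, Finset.sum_const, nsmul_eq_mul]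
  have h1 := (abs_le.1 ((hb.card a).trans ((epsN_le hb).trans hε))).2
  have h2 : 0 ≤ b.w a * F (b.lev a) := mul_nonneg (hb.w_nonneg a) (hF _)
  calc _ = ((univ.filter fun x => b.pr x = a).card : ℝ) / b.q a * (b.w a * F (b.lev a)) := by ring
    _ ≤ _ := mul_le_mul_of_nonneg_right (by linarith) h2

theorem sum_om (hb : b.Ok ε) (hε : ε ≤ 1) (u : ℕ) (h1 : ∑ i ∈ range b.N, P1 b.N u i = 1) :
    ∑ x, ∑ x', b.om u x x' ≤ 4 := by
  have h2 : ∀ x, ∑ x', b.om u x x' ≤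
      2 * (b.w (b.pr x) / b.q (b.pr x) * P1 b.N u (b.lev (b.pr x))) := by
    intro x
    have hx : 0 ≤ b.w (b.pr x) / b.q (b.pr x) := div_nonneg (hb.w_nonneg _) (q_pos hb _).le
    have h3 := sum_wq hb hε (fun i => Hh b.N u (b.lev (b.pr x)) i) (fun i => Hh_nonneg _ _ _ _)
    calc ∑ x', b.om u x x' ≤ ∑ x', b.w (b.pr x) / b.q (b.pr x) *
          (b.w (b.pr x') / b.q (b.pr x') * Hh b.N u (b.lev (b.pr x)) (b.lev (b.pr x'))) := by
          refine Finset.sum_le_sum fun x' _ => ?_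
          unfold Base.om
          split_ifs
          · apply le_of_eq
            have := (q_pos hb (b.pr x)).ne'
            have := (q_pos hb (b.pr x')).ne'
            field_simp
          · exact mul_nonneg hx (mul_nonneg (div_nonneg (hb.w_nonneg _) (q_pos hb _).le)
              (Hh_nonneg _ _ _ _))
      _ ≤ _ := by
          rw [← Finset.mul_sum]
          refine (mul_le_mul_of_nonneg_left h3 hx).trans (le_of_eq ?_)
          unfold P1; ring
  refine (Finset.sum_le_sum fun x _ => h2 x).trans ?_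
  rw [← Finset.mul_sum]
  have := sum_wq hb hε (P1 b.N u) (P1_nonneg _ _)
  rw [h1] at this
  linarith

end base

section symm

variable {n : ℕ}

theorem sym2 (μ : (Fin (n + 2) → X) → ℝ)
    (hμ : ∀ x (σ : Equiv.Perm (Fin (n + 2))), μ (x ∘ σ) = μ x) (F : X → X → ℝ)
    {i j : Fin (n + 2)} (hij : i ≠ j) :
    ∑ x, μ x * F (x i) (x j) = ∑ x, μ x * F (x 0) (x 1) := by
  have h01 : (0 : Fin (n + 2)) ≠ 1 := Fin.zero_ne_one
  obtain ⟨σ, hσ⟩ := Equiv.Perm.exists_extending_pair (f := ![(0 : Fin (n + 2)), 1])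
    (g := ![i, j]) (by
      intro a c h
      fin_cases a <;> fin_cases c <;> simp_all) (by
      intro a c h
      fin_cases a <;> fin_cases c <;> simp_all)
  have h0 : σ 0 = i := by simpa using hσ 0
  have h1 : σ 1 = j := by simpa using hσ 1
  have := Equiv.sum_comp (Equiv.arrowCongr σ.symm (Equiv.refl X))
    (fun x : Fin (n + 2) → X => μ x * F (x 0) (x 1))
  rw [← this]
  refine Finset.sum_congr rfl fun x _ => ?_
  have e : (Equiv.arrowCongr σ.symm (Equiv.refl X)) x = x ∘ σ := by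
    funext k; simp
  rw [e, hμ, Function.comp_apply, Function.comp_apply, h0, h1]

theorem sym1 (μ : (Fin (n + 2) → X) → ℝ)
    (hμ : ∀ x (σ : Equiv.Perm (Fin (n + 2))), μ (x ∘ σ) = μ x) (F : X → ℝ) (i : Fin (n + 2)) :
    ∑ x, μ x * F (x i) = ∑ x, μ x * F (x 0) := by
  obtain ⟨j, hj⟩ := exists_ne i
  exact sym2 μ hμ (fun a _ => F a) hj.symm

theorem sum_exp (μ : (Fin (n + 2) → X) → ℝ)
    (hμ : ∀ x (σ : Equiv.Perm (Fin (n + 2))), μ (x ∘ σ) = μ x) (F : X → ℝ) :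
    ∑ x, μ x * ∑ i, F (x i) = (n + 2) * ∑ x, μ x * F (x 0) := by
  rw [Finset.sum_congr rfl fun x _ => Finset.mul_sum univ (fun i => F (x i)) (μ x),
    Finset.sum_comm, Finset.sum_congr rfl fun i _ => sym1 μ hμ F i]
  simp

theorem prod_exp (μ : (Fin (n + 2) → X) → ℝ)
    (hμ : ∀ x (σ : Equiv.Perm (Fin (n + 2))), μ (x ∘ σ) = μ x) (F F' : X → ℝ) :
    ∑ x, μ x * ((∑ i, F (x i)) * ∑ j, F' (x j)) =
      (n + 2) * ∑ x, μ x * (F (x 0) * F' (x 0)) +
        (n + 2) * (n + 1) * ∑ x, μ x * (F (x 0) * F' (x 1)) := by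
  have h1 : ∑ x, μ x * ((∑ i, F (x i)) * ∑ j, F' (x j)) =
      ∑ i, ∑ j, ∑ x, μ x * (F (x i) * F' (x j)) := by
    have : ∀ x : Fin (n + 2) → X, μ x * ((∑ i, F (x i)) * ∑ j, F' (x j)) =
        ∑ i, ∑ j, μ x * (F (x i) * F' (x j)) := by
      intro x
      rw [Finset.sum_mul_sum, Finset.mul_sum]
      exact Finset.sum_congr rfl fun i _ => Finset.mul_sum _ _ _
    rw [Finset.sum_congr rfl fun x _ => this x, Finset.sum_comm]
    exact Finset.sum_congr rfl fun i _ => Finset.sum_comm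
  have h2 : ∀ i : Fin (n + 2), ∑ j, ∑ x, μ x * (F (x i) * F' (x j)) =
      ∑ x, μ x * (F (x 0) * F' (x 0)) + (n + 1) * ∑ x, μ x * (F (x 0) * F' (x 1)) := by
    intro i
    rw [← Finset.add_sum_erase _ _ (mem_univ i), sym1 μ hμ (fun a => F a * F' a) i,
      Finset.sum_congr rfl fun j hj =>
        sym2 μ hμ (fun a a' => F a * F' a') (ne_of_mem_erase hj).symm]
    simp
  rw [h1, Finset.sum_congr rfl fun i _ => h2 i]
  simp
  ring

end symm

theorem levMean_le {lev : X → ℕ} {m ψ : X → ℝ} (hm : ∀ x, 0 ≤ m x) (hψ : ∀ x, |ψ x| ≤ 1) (i : ℕ) :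
    |levMean lev m ψ i| ≤ 1 := by
  unfold levMean
  have h0 : 0 ≤ ∑ x with lev x = i, m x := Finset.sum_nonneg fun x _ => hm x
  rw [abs_div, abs_of_nonneg h0]
  refine div_le_one_of_le₀ ((Finset.abs_sum_le_sum_abs _ _).trans
    (Finset.sum_le_sum fun x _ => ?_)) h0
  rw [abs_mul, abs_of_nonneg (hm x)]
  exact mul_le_of_le_one_right (hm x) (hψ x)

end Contr

end Pool.Agent.P.MP_b8021b_nt.VE
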