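import Pool.Agent.P.MP_b8021b_nt.VE.PContr1

/-! The second moment computation of the contraction step. -/

namespace Pool.Agent.P.MP_b8021b_nt.VE

open Finset
open scoped Classical

namespace Contr

set_option linter.unusedSectionVars false

variable {P X T S Ce : Type} [Fintype P] [Fintype X] [Fintype T] [Fintype S] [Fintype Ce]

/-- the ideal law of one point -/
noncomputable def Wt (b : Base P X) (u : ℕ) (x : X) : ℝ :=
  b.w (b.pr x) / b.q (b.pr x) * P1 b.N u (b.lev (b.pr x))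

/-- conditional mean given a point -/
noncomputable def bar (b : Base P X) (σT : Side X T) (f : T → X → ℝ) (x : X) : ℝ :=
  ∑ t, σT.c1 b x t * f t x

/-- the conclusion of the statement on product test functions -/
def OneP (b : Base P X) (σT : Side X T) (σS : Side X S) (u : ℕ)
    (μ : T → S → (Fin (u + 2) → X) → ℝ) (e : ℝ) : Prop :=
  ∀ (φ : T → X → ℝ) (ψ : S → X → ℝ), (∀ t x, |φ t x| ≤ 1) → (∀ s x, |ψ s x| ≤ 1) →
    |∑ t, ∑ s, ∑ x, μ t s x * (φ t (x 0) * ψ s (x 0)) -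
      ∑ x, Wt b u x * (bar b σT φ x * bar b σS ψ x)| ≤ e ∧
    |∑ t, ∑ s, ∑ x, μ t s x * (φ t (x 0) * ψ s (x 1)) -
      ∑ x, ∑ x', b.om u x x' * (bar b σT φ x * bar b σS ψ x')| ≤ e

/-- the second moment bound -/
def TKP (b : Base P X) (σ : Side X S) (C ε : ℝ) : Prop :=
  ∀ (β : X → ℝ) (bb : P → ℝ), (∀ x, |β x| ≤ bb (b.pr x)) → (∀ a, 0 ≤ bb a) →
    ∑ z, σ.wt z * (∑ x, β x * ((if σ.on x z then 1 else 0) - 1 / b.q (b.pr x))) ^ 2 ≤
      C * (ε / b.N * (∑ a, bb a) ^ 2 + ∑ a, bb a ^ 2)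

variable {b : Base P X} {σT : Side X T} {σS : Side X S} {u : ℕ}
  {μ : T → S → (Fin (u + 2) → X) → ℝ} {ε e : ℝ}

theorem Wt_nonneg (hb : b.Ok ε) (x : X) : 0 ≤ Wt b u x :=
  mul_nonneg (div_nonneg (hb.w_nonneg _) (q_pos hb _).le) (P1_nonneg _ _ _)

theorem sum_Wt (hb : b.Ok ε) (hε : ε ≤ 1) (h1 : ∑ i ∈ range b.N, P1 b.N u i = 1) :
    ∑ x, Wt b u x ≤ 2 := by
  have := sum_wq hb hε (P1 b.N u) (P1_nonneg _ _)
  rw [h1, mul_one] at this
  exact this

theorem sum_Wt_le (hb : b.Ok ε) (hε : ε ≤ 1) (h1 : ∑ i ∈ range b.N, P1 b.N u i = 1)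
    {F F' : X → ℝ} {K : ℝ} (hK : 0 ≤ K) (h : ∀ x, F x ≤ F' x + K) :
    ∑ x, Wt b u x * F x ≤ ∑ x, Wt b u x * F' x + 2 * K := by
  calc ∑ x, Wt b u x * F x ≤ ∑ x, (Wt b u x * F' x + Wt b u x * K) :=
        Finset.sum_le_sum fun x _ => by
          rw [← mul_add]; exact mul_le_mul_of_nonneg_left (h x) (Wt_nonneg hb x)
    _ = ∑ x, Wt b u x * F' x + (∑ x, Wt b u x) * K := by
        rw [Finset.sum_add_distrib, Finset.sum_mul]
    _ ≤ _ := by
        have := mul_le_mul_of_nonneg_right (sum_Wt hb hε h1) hK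
        linarith

theorem on_iota (hb : b.Ok ε) (hinv : ∀ x t, σT.on x t → σT.on (b.ι x) t) (x : X) (t : T) :
    σT.on (b.ι x) t ↔ σT.on x t :=
  ⟨fun h => by have := hinv _ _ h; rwa [hb.ι_ι] at this, hinv x t⟩

theorem bar_anti (hb : b.Ok ε) (hinv : ∀ x t, σT.on x t → σT.on (b.ι x) t) {f : T → X → ℝ}
    (hf : ∀ t x, f t (b.ι x) = -f t x) (x : X) : bar b σT f (b.ι x) = -bar b σT f x := by
  unfold bar Side.c1
  rw [← Finset.sum_neg_distrib]
  refine Finset.sum_congr rfl fun t _ => ?_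
  rw [hf, hb.pr_ι]
  by_cases h : σT.on x t
  · rw [if_pos h, if_pos (hinv x t h)]; ring
  · rw [if_neg h, if_neg fun h' => h ((on_iota hb hinv x t).1 h')]; ring

theorem bar_le (hb : b.Ok ε) (hσ : σT.Ok b ε) (hε : ε ≤ 1) {f : T → X → ℝ}
    (hf : ∀ t x, |f t x| ≤ 1) (x : X) : |bar b σT f x| ≤ 2 := by
  refine (Finset.abs_sum_le_sum_abs _ _).trans ?_
  have h := (abs_le.1 (rho1 hb hσ x)).2
  refine le_trans (Finset.sum_le_sum fun t _ => ?_) (show ∑ t, σT.c1 b x t ≤ 2 by linarith)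
  rw [abs_mul, abs_of_nonneg (c1_nonneg hb hσ x t)]
  exact mul_le_of_le_one_right (c1_nonneg hb hσ x t) (hf t x)

theorem bar_one (hb : b.Ok ε) (hσ : σT.Ok b ε) (x : X) :
    |bar b σT (fun _ _ => 1) x - 1| ≤ ε := by
  simpa [bar] using rho1 hb hσ x

theorem om_iota (hb : b.Ok ε) (x x' : X) : b.om u (b.ι x) x' = b.om u x x' := by
  unfold Base.om
  rw [hb.pr_ι]

theorem a0_ge (hD : Des b σT σS u μ ε) (hε : ε ≤ 1) (h1 : ∑ i ∈ range b.N, P1 b.N u i = 1)
    (hO : OneP b σT σS u μ e) {f : T → X → ℝ} (hf : ∀ t x, |f t x| ≤ 1) :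
    ∑ x, Wt b u x * bar b σT (fun t x => f t x ^ 2) x ≤
      ∑ t, ∑ s, ∑ x, μ t s x * (f t (x 0) * f t (x 0)) + (4 * ε + e) := by
  have hf2 : ∀ t x, |f t x ^ 2| ≤ 1 := fun t x => by
    rw [abs_pow]; exact pow_le_one₀ (abs_nonneg _) (hf t x)
  have h := (abs_le.1 (hO (fun t x => f t x ^ 2) (fun _ _ => 1) hf2 (by simp)).1).1
  have h2 := sum_Wt_le (u := u) hD.base hε h1 (F := bar b σT (fun t x => f t x ^ 2))
    (F' := fun x => bar b σT (fun t x => f t x ^ 2) x * bar b σS (fun _ _ => 1) x)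
    (K := 2 * ε) (by have := eps_pos hD.base; positivity) (by
      intro x
      have h3 := (abs_le.1 (bar_le hD.base hD.sT hε hf2 x)).2
      have h4 := (abs_le.1 (bar_one hD.base hD.sS x)).1
      have h5 : 0 ≤ bar b σT (fun t x => f t x ^ 2) x :=
        Finset.sum_nonneg fun t _ => mul_nonneg (c1_nonneg hD.base hD.sT x t) (sq_nonneg _)
      have := eps_pos hD.base
      nlinarith)
  simp only [mul_one] at h
  simp only [← sq]
  linarith

theorem a1_ge (hD : Des b σT σS u μ ε) (hε : ε ≤ 1) (h1 : ∑ i ∈ range b.N, P1 b.N u i = 1)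
    (hinv : ∀ x t, σT.on x t → σT.on (b.ι x) t) {f : T → X → ℝ} (hf : ∀ t x, |f t x| ≤ 1)
    (hfa : ∀ t x, f t (b.ι x) = -f t x) :
    -(9 * ε) ≤ ∑ t, ∑ s, ∑ x, μ t s x * (f t (x 0) * f t (x 1)) := by
  have hb := hD.base
  have hε0 := eps_pos hb
  have hff : ∀ t x x', |f t x * f t x'| ≤ 1 := fun t x x' => by
    rw [abs_mul]; exact mul_le_one₀ (hf t x) (abs_nonneg _) (hf t x')
  have h := (abs_le.1 (hD.mix.cut (fun t x x' => f t x * f t x') (fun _ _ _ => 1) hff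
    (by simp))).1
  simp only [mul_one] at h
  set Tp : X → X → ℝ := fun x x' => ∑ t, σT.c2 b x x' t * (f t x * f t x') with hTp
  set Sp : X → X → ℝ := fun x x' => ∑ s, σS.c2 b x x' s with hSp
  have e1 : ∑ t, ∑ s, ∑ x, ∑ x', nu b σT σS u t s x x' * (f t x * f t x') =
      ∑ x, ∑ x', b.om u x x' * (Tp x x' * Sp x x') := by
    have : ∀ x x', b.om u x x' * (Tp x x' * Sp x x') =
        ∑ t, ∑ s, nu b σT σS u t s x x' * (f t x * f t x') := by
      intro x x'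
      rw [hTp, hSp, Finset.sum_mul_sum, Finset.mul_sum]
      refine Finset.sum_congr rfl fun t _ => ?_
      rw [Finset.mul_sum]
      exact Finset.sum_congr rfl fun s _ => by unfold nu; ring
    simp only [this]
    calc _ = ∑ t, ∑ x, ∑ x', ∑ s, nu b σT σS u t s x x' * (f t x * f t x') := by
          refine Finset.sum_congr rfl fun t _ => ?_
          rw [Finset.sum_comm]
          exact Finset.sum_congr rfl fun x _ => Finset.sum_comm
      _ = _ := by
          rw [Finset.sum_comm]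
          exact Finset.sum_congr rfl fun x _ => Finset.sum_comm
  have e2 : ∑ x, ∑ x', b.om u x x' * Tp x x' = 0 := by
    refine sum_anti hb.ι_ι fun x => ?_
    rw [← Finset.sum_neg_distrib]
    refine Finset.sum_congr rfl fun x' _ => ?_
    rw [om_iota hb, ← mul_neg, hTp]
    congr 1
    simp only
    rw [← Finset.sum_neg_distrib]
    refine Finset.sum_congr rfl fun t _ => ?_
    unfold Side.c2
    rw [hfa, hb.pr_ι]
    by_cases h : σT.on x t ∧ σT.on x' t
    · rw [if_pos h, if_pos ⟨hinv x t h.1, h.2⟩]; ring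
    · rw [if_neg h, if_neg fun h' => h ⟨(on_iota hb hinv x t).1 h'.1, h'.2⟩]; ring
  have e3 : ∀ x x', b.om u x x' * Tp x x' - b.om u x x' * (2 * ε) ≤
      b.om u x x' * (Tp x x' * Sp x x') := by
    intro x x'
    by_cases hx : b.pr x = b.pr x'
    · have : b.om u x x' = 0 := by unfold Base.om; rw [if_neg (not_not.2 hx)]
      rw [this]; simp
    · rw [← mul_sub]
      refine mul_le_mul_of_nonneg_left ?_ (om_nonneg hb u x x')
      have h2 : |Tp x x'| ≤ 2 := by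
        refine (Finset.abs_sum_le_sum_abs _ _).trans ?_
        have h3 := (abs_le.1 (rho2 hb hD.sT hx)).2
        refine le_trans (Finset.sum_le_sum fun t _ => ?_)
          (show ∑ t, σT.c2 b x x' t ≤ 2 by linarith)
        rw [abs_mul, abs_of_nonneg (c2_nonneg hb hD.sT x x' t)]
        exact mul_le_of_le_one_right (c2_nonneg hb hD.sT x x' t) (hff t x x')
      have h3 : |Sp x x' - 1| ≤ ε := rho2 hb hD.sS hx
      have h4 : |Tp x x' * (Sp x x' - 1)| ≤ 2 * ε := by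
        rw [abs_mul]; exact mul_le_mul h2 h3 (abs_nonneg _) (by norm_num)
      have := (abs_le.1 h4).1
      linarith
  have e4 : ∑ x, ∑ x', (b.om u x x' * Tp x x' - b.om u x x' * (2 * ε)) ≤
      ∑ x, ∑ x', b.om u x x' * (Tp x x' * Sp x x') :=
    Finset.sum_le_sum fun x _ => Finset.sum_le_sum fun x' _ => e3 x x'
  simp only [Finset.sum_sub_distrib, ← Finset.sum_mul] at e4
  have e5 := mul_le_mul_of_nonneg_right (sum_om hb hε u h1) (show 0 ≤ 2 * ε by positivity)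
  rw [e1] at h
  linarith

theorem b1_le (hb : b.Ok ε) (hO : OneP b σT σS u μ e)
    (hinv : ∀ x t, σT.on x t → σT.on (b.ι x) t) {f : T → X → ℝ} (hf : ∀ t x, |f t x| ≤ 1)
    (hfa : ∀ t x, f t (b.ι x) = -f t x) {ψ : S → X → ℝ} (hψ : ∀ s x, |ψ s x| ≤ 1) :
    ∑ t, ∑ s, ∑ x, μ t s x * (f t (x 0) * ψ s (x 1)) ≤ e := by
  have h := (abs_le.1 (hO f ψ hf hψ).2).2
  have e2 : ∑ x, ∑ x', b.om u x x' * (bar b σT f x * bar b σS ψ x') = 0 := by
    refine sum_anti hb.ι_ι fun x => ?_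
    rw [← Finset.sum_neg_distrib]
    refine Finset.sum_congr rfl fun x' _ => ?_
    rw [om_iota hb, bar_anti hb hinv hfa]; ring
  linarith

theorem b2_le (hb : b.Ok ε) (hO : OneP b σT σS u μ e)
    (hinv : ∀ x t, σT.on x t → σT.on (b.ι x) t) {f : T → X → ℝ} (hf : ∀ t x, |f t x| ≤ 1)
    (hfa : ∀ t x, f t (b.ι x) = -f t x) (cell : T → Ce) {g : S → Ce → ℝ}
    (hg : ∀ s c, |g s c| ≤ 1) :
    ∑ t, ∑ s, ∑ x, μ t s x * (f t (x 0) * g s (cell t)) ≤ Fintype.card Ce * e := by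
  have h : ∀ c : Ce, ∑ t, ∑ s, ∑ x, μ t s x * ((if cell t = c then f t (x 0) else 0) * g s c) ≤
      e := fun c => b1_le hb hO hinv (f := fun t x => if cell t = c then f t x else 0)
        (fun t x => by split_ifs; exacts [hf t x, by simp])
        (fun t x => by split_ifs; exacts [hfa t x, by simp]) (ψ := fun s _ => g s c)
        (fun s _ => hg s c)
  have h2 := Finset.sum_le_card_nsmul univ _ e fun c _ => h c
  rw [Finset.card_univ, nsmul_eq_mul, Finset.sum_comm] at h2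
  refine le_trans (le_of_eq ?_) h2
  refine Finset.sum_congr rfl fun t _ => ?_
  rw [Finset.sum_eq_single (cell t)]
  · simp
  · intro c _ hc
    simp [hc.symm]
  · simp

theorem swapS (hb : b.Ok ε) (F : X → ℝ) (ψ : S → X → ℝ) :
    ∑ x, Wt b u x * (F x * bar b σS ψ x) =
      ∑ s, σS.wt s * ∑ x, σS.m b s x * P1 b.N u (b.lev (b.pr x)) * (F x * ψ s x) := by
  simp only [bar, Finset.mul_sum]
  rw [Finset.sum_comm]
  refine Finset.sum_congr rfl fun s _ => Finset.sum_congr rfl fun x _ => ?_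
  unfold Wt Side.c1 Side.m
  have := (q_pos hb (b.pr x)).ne'
  split_ifs
  · field_simp
  · simp

theorem lev_sq (hb : b.Ok ε) {C : ℝ} (hC : 0 ≤ C) (hTK : TKP b σS C ε) {F : X → ℝ}
    (hF : ∀ x, |F x| ≤ 2) (hFa : ∀ x, F (b.ι x) = -F x) {i : ℕ} (hi : i < b.N) :
    ∑ s, σS.wt s * (∑ x with b.lev (b.pr x) = i, σS.m b s x * F x) ^ 2 ≤ 8 * C * ε := by
  have h := hTK (fun x => if b.lev (b.pr x) = i then b.w (b.pr x) * F x else 0)
    (fun a => if b.lev a = i then 2 * b.w a else 0) (fun x => by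
      split_ifs
      · rw [abs_mul, abs_of_nonneg (hb.w_nonneg _), mul_comm]
        exact mul_le_mul_of_nonneg_right (hF x) (hb.w_nonneg _)
      · simp) (fun a => by
      split_ifs
      · have := hb.w_nonneg a; positivity
      · exact le_rfl)
  have e0 : ∑ x, (if b.lev (b.pr x) = i then b.w (b.pr x) * F x else 0) * (1 / b.q (b.pr x)) =
      0 := by
    refine sum_anti hb.ι_ι fun x => ?_
    rw [hb.pr_ι, hFa]
    split_ifs <;> ring
  have e1 : ∀ s, ∑ x, (if b.lev (b.pr x) = i then b.w (b.pr x) * F x else 0) *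
      ((if σS.on x s then 1 else 0) - 1 / b.q (b.pr x)) =
      ∑ x with b.lev (b.pr x) = i, σS.m b s x * F x := by
    intro s
    simp only [mul_sub, Finset.sum_sub_distrib, e0, sub_zero, Finset.sum_filter, Side.m]
    exact Finset.sum_congr rfl fun x _ => by split_ifs <;> simp
  have e2 : ∑ a, (if b.lev a = i then 2 * b.w a else 0) = 2 := by
    rw [← Finset.sum_filter, ← Finset.mul_sum, hb.w_sum i hi, mul_one]
  have e3 : ∑ a, (if b.lev a = i then 2 * b.w a else 0) ^ 2 ≤ 4 * ε := by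
    calc _ ≤ ∑ a, (if b.lev a = i then 2 * b.w a else 0) * (2 * ε) := by
          refine Finset.sum_le_sum fun a _ => ?_
          split_ifs
          · have h1 := hb.w_nonneg a
            have h2 := (hb.w_le a).trans (epsN_le hb)
            nlinarith
          · simp
      _ = _ := by rw [← Finset.sum_mul, e2]; ring
  simp only [e1, e2] at h
  refine h.trans ?_
  have := epsN_le hb
  have h4 : ε / b.N * 2 ^ 2 + ∑ a, (if b.lev a = i then 2 * b.w a else 0) ^ 2 ≤ 8 * ε := by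
    linarith
  calc _ ≤ C * (8 * ε) := mul_le_mul_of_nonneg_left h4 hC
    _ = _ := by ring

theorem b0_le (hD : Des b σT σS u μ ε) (hε : ε ≤ 1) (h1 : ∑ i ∈ range b.N, P1 b.N u i = 1)
    (hO : OneP b σT σS u μ e) {C η : ℝ} (hC : 1 ≤ C) (hTK : TKP b σS C ε) (hη : 0 < η)
    (hεη : ε ≤ η ^ 2) (hinv : ∀ x t, σT.on x t → σT.on (b.ι x) t) {f : T → X → ℝ}
    (hf : ∀ t x, |f t x| ≤ 1) (hfa : ∀ t x, f t (b.ι x) = -f t x) {ψ : S → X → ℝ}
    (hψ : ∀ s x, |ψ s x| ≤ 1) :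
    2 * ∑ t, ∑ s, ∑ x, μ t s x * (f t (x 0) * ψ s (x 0)) ≤
      ∑ x, Wt b u x * bar b σT f x ^ 2 +
      ∑ s, σS.wt s * ∑ x, σS.m b s x * P1 b.N u (b.lev (b.pr x)) *
        (ψ s x - levMean (fun x => b.lev (b.pr x)) (σS.m b s) (ψ s) (b.lev (b.pr x))) ^ 2 +
      (2 * e + 8 * ε + 9 * C * η) := by
  have hb := hD.base
  have hε0 := eps_pos hb
  have h := (abs_le.1 (hO f ψ hf hψ).1).2
  set a := bar b σT f with ha
  have ha2 : ∀ x, |a x| ≤ 2 := bar_le hb hD.sT hε hf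
  set φ : S → ℕ → ℝ := fun s => levMean (fun x => b.lev (b.pr x)) (σS.m b s) (ψ s) with hφ
  set L : S → ℕ → ℝ := fun s i => ∑ x with b.lev (b.pr x) = i, σS.m b s x * a x with hL
  have e1 : ∀ s, 2 * ∑ x, σS.m b s x * P1 b.N u (b.lev (b.pr x)) * (a x * ψ s x) ≤
      ∑ x, σS.m b s x * P1 b.N u (b.lev (b.pr x)) * (a x ^ 2 * 1) +
      ∑ x, σS.m b s x * P1 b.N u (b.lev (b.pr x)) * (ψ s x - φ s (b.lev (b.pr x))) ^ 2 +
      ∑ i ∈ range b.N, P1 b.N u i * (L s i ^ 2 / η + η) := by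
    intro s
    have e2 : ∑ x, σS.m b s x * P1 b.N u (b.lev (b.pr x)) * (a x * φ s (b.lev (b.pr x))) =
        ∑ i ∈ range b.N, P1 b.N u i * (φ s i * L s i) := by
      rw [← Finset.sum_fiberwise_of_maps_to (s := univ) (t := range b.N)
        (g := fun x => b.lev (b.pr x)) (fun x _ => mem_range.2 (hb.lev_lt _))]
      refine Finset.sum_congr rfl fun i _ => ?_
      rw [hL]
      simp only [Finset.mul_sum]
      refine Finset.sum_congr rfl fun x hx => ?_
      rw [(mem_filter.1 hx).2]; ring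
    have e3 : 2 * ∑ i ∈ range b.N, P1 b.N u i * (φ s i * L s i) ≤
        ∑ i ∈ range b.N, P1 b.N u i * (L s i ^ 2 / η + η) := by
      rw [Finset.mul_sum]
      refine Finset.sum_le_sum fun i _ => ?_
      rw [mul_left_comm]
      refine mul_le_mul_of_nonneg_left ?_ (P1_nonneg _ _ _)
      have h2 : |φ s i| ≤ 1 := levMean_le (m_nonneg hb s) (hψ s) i
      have h3 : φ s i * L s i ≤ |L s i| := by
        refine (le_abs_self _).trans ?_
        rw [abs_mul]; exact mul_le_of_le_one_left (abs_nonneg _) h2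
      have h4 : 2 * |L s i| ≤ L s i ^ 2 / η + η := by
        rw [div_add' _ _ _ hη.ne', le_div_iff₀ hη, ← sq_abs (L s i)]
        nlinarith [sq_nonneg (|L s i| - η)]
      linarith
    have e4 : 2 * ∑ x, σS.m b s x * P1 b.N u (b.lev (b.pr x)) * (a x * ψ s x) ≤
        ∑ x, σS.m b s x * P1 b.N u (b.lev (b.pr x)) * (a x ^ 2 * 1) +
        ∑ x, σS.m b s x * P1 b.N u (b.lev (b.pr x)) * (ψ s x - φ s (b.lev (b.pr x))) ^ 2 +
        2 * ∑ x, σS.m b s x * P1 b.N u (b.lev (b.pr x)) * (a x * φ s (b.lev (b.pr x))) := by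
      rw [Finset.mul_sum, Finset.mul_sum, ← Finset.sum_add_distrib, ← Finset.sum_add_distrib]
      refine Finset.sum_le_sum fun x _ => ?_
      have h2 : 0 ≤ σS.m b s x * P1 b.N u (b.lev (b.pr x)) :=
        mul_nonneg (m_nonneg hb s x) (P1_nonneg _ _ _)
      have := mul_nonneg h2 (sq_nonneg (a x - (ψ s x - φ s (b.lev (b.pr x)))))
      nlinarith
    rw [e2] at e4
    linarith
  have e5 : ∑ s, σS.wt s * ∑ i ∈ range b.N, P1 b.N u i * (L s i ^ 2 / η + η) ≤ 9 * C * η := by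
    have e6 : ∑ s, σS.wt s * ∑ i ∈ range b.N, P1 b.N u i * (L s i ^ 2 / η + η) =
        ∑ i ∈ range b.N, P1 b.N u i * ((∑ s, σS.wt s * L s i ^ 2) / η + (∑ s, σS.wt s) * η) := by
      simp only [Finset.mul_sum, Finset.sum_div, Finset.sum_mul, ← Finset.sum_add_distrib]
      rw [Finset.sum_comm]
      exact Finset.sum_congr rfl fun i _ => Finset.sum_congr rfl fun s _ => by ring
    rw [e6, hD.sS.sum]
    calc _ ≤ ∑ i ∈ range b.N, P1 b.N u i * (9 * C * η) := by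
          refine Finset.sum_le_sum fun i hi => mul_le_mul_of_nonneg_left ?_ (P1_nonneg _ _ _)
          have h2 := lev_sq hb (by linarith) hTK ha2 (bar_anti hb hinv hfa) (mem_range.1 hi)
          have h3 : (∑ s, σS.wt s * L s i ^ 2) / η ≤ 8 * C * η := by
            rw [div_le_iff₀ hη]
            refine h2.trans ?_
            nlinarith
          nlinarith
      _ = _ := by rw [← Finset.sum_mul, h1, one_mul]
  have e7 := Finset.sum_le_sum (s := univ) fun s _ =>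
    mul_le_mul_of_nonneg_left (e1 s) (hD.sS.nonneg s)
  simp only [mul_add (σS.wt _), Finset.sum_add_distrib, mul_left_comm (σS.wt _) 2,
    ← Finset.mul_sum univ _ (2 : ℝ)] at e7
  rw [← swapS hb a ψ, ← swapS hb (fun x => a x ^ 2) fun _ _ => 1] at e7
  have e8 := sum_Wt_le (u := u) hb hε h1 (F := fun x => a x ^ 2 * bar b σS (fun _ _ => 1) x)
    (F' := fun x => a x ^ 2) (K := 4 * ε) (by positivity) (by
      intro x
      have h4 := (abs_le.1 (bar_one hb hD.sS x)).2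
      have h5 : a x ^ 2 ≤ 4 := by
        rw [← sq_abs]; nlinarith [ha2 x, abs_nonneg (a x)]
      nlinarith [sq_nonneg (a x)])
  linarith

theorem var_le (hb : b.Ok ε) (hσ : σT.Ok b ε) (hε : ε ≤ 1)
    (h1 : ∑ i ∈ range b.N, P1 b.N u i = 1) {c : ℝ} (hc : ∀ i < b.N, c ≤ b.N * P1 b.N u i)
    {f : T → X → ℝ} (hf : ∀ t x, |f t x| ≤ 1) :
    c * ∑ t, ∑ x, σT.flag b x t * (f t x - bar b σT f x) ^ 2 ≤
      ∑ x, Wt b u x * bar b σT (fun t x => f t x ^ 2) x - ∑ x, Wt b u x * bar b σT f x ^ 2 +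
        8 * ε := by
  have hε0 := eps_pos hb
  have hN : (0 : ℝ) < b.N := lt_of_lt_of_le one_pos (N_pos hb)
  have e1 : c * ∑ t, ∑ x, σT.flag b x t * (f t x - bar b σT f x) ^ 2 ≤
      ∑ x, Wt b u x * ∑ t, σT.c1 b x t * (f t x - bar b σT f x) ^ 2 := by
    rw [Finset.sum_comm]
    simp only [Finset.mul_sum, ← mul_assoc]
    refine Finset.sum_le_sum fun x _ => Finset.sum_le_sum fun t _ =>
      mul_le_mul_of_nonneg_right ?_ (sq_nonneg _)
    unfold Side.flag Side.m Wt Side.c1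
    have hq := (q_pos hb (b.pr x)).ne'
    split_ifs
    · have h2 : c / b.N ≤ P1 b.N u (b.lev (b.pr x)) := by
        rw [div_le_iff₀' hN]; exact hc _ (hb.lev_lt _)
      have h3 := mul_le_mul_of_nonneg_left h2 (mul_nonneg (hσ.nonneg t) (hb.w_nonneg (b.pr x)))
      refine le_trans (le_of_eq ?_) (h3.trans (le_of_eq ?_))
      · ring
      · field_simp
    · simp
  have e2 := sum_Wt_le (u := u) hb hε h1
    (F := fun x => ∑ t, σT.c1 b x t * (f t x - bar b σT f x) ^ 2)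
    (F' := fun x => bar b σT (fun t x => f t x ^ 2) x - bar b σT f x ^ 2) (K := 4 * ε)
    (by positivity) (by
      intro x
      have e3 : ∑ t, σT.c1 b x t * (f t x - bar b σT f x) ^ 2 =
          bar b σT (fun t x => f t x ^ 2) x - 2 * bar b σT f x * bar b σT f x +
            bar b σT f x ^ 2 * ∑ t, σT.c1 b x t := by
        generalize hA : bar b σT f x = A
        rw [show 2 * A * A = 2 * A * bar b σT f x by rw [hA]]
        simp only [bar, Finset.mul_sum, ← Finset.sum_sub_distrib, ← Finset.sum_add_distrib]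
        exact Finset.sum_congr rfl fun t _ => by ring
      have h4 := (abs_le.1 (rho1 hb hσ x)).2
      have h5 : bar b σT f x ^ 2 ≤ 4 := by
        rw [← sq_abs]; nlinarith [bar_le hb hσ hε hf x, abs_nonneg (bar b σT f x)]
      rw [e3]
      nlinarith [sq_nonneg (bar b σT f x)])
  simp only [mul_sub, Finset.sum_sub_distrib] at e2
  linarith

theorem expand (hT : Tup b σT σS u μ) (f : T → X → ℝ) (ψ : S → X → ℝ) (g : T → S → ℝ) :
    ∑ t, ∑ s, ∑ x, μ t s x * (∑ i, f t (x i) - (∑ i, ψ s (x i) + g t s)) ^ 2 =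
      (u + 2) * ∑ t, ∑ s, ∑ x, μ t s x * (f t (x 0) * f t (x 0)) +
      (u + 2) * (u + 1) * ∑ t, ∑ s, ∑ x, μ t s x * (f t (x 0) * f t (x 1)) -
      (u + 2) * (2 * ∑ t, ∑ s, ∑ x, μ t s x * (f t (x 0) * ψ s (x 0))) -
      2 * ((u + 2) * (u + 1)) * ∑ t, ∑ s, ∑ x, μ t s x * (f t (x 0) * ψ s (x 1)) -
      2 * (u + 2) * ∑ t, ∑ s, ∑ x, μ t s x * (f t (x 0) * g t s) +
      ∑ t, ∑ s, ∑ x, μ t s x * (∑ i, ψ s (x i) + g t s) ^ 2 := by
  have e : ∀ t s, ∑ x, μ t s x * (∑ i, f t (x i) - (∑ i, ψ s (x i) + g t s)) ^ 2 =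
      (u + 2) * ∑ x, μ t s x * (f t (x 0) * f t (x 0)) +
      (u + 2) * (u + 1) * ∑ x, μ t s x * (f t (x 0) * f t (x 1)) -
      (u + 2) * (2 * ∑ x, μ t s x * (f t (x 0) * ψ s (x 0))) -
      2 * ((u + 2) * (u + 1)) * ∑ x, μ t s x * (f t (x 0) * ψ s (x 1)) -
      2 * (u + 2) * ∑ x, μ t s x * (f t (x 0) * g t s) +
      ∑ x, μ t s x * (∑ i, ψ s (x i) + g t s) ^ 2 := by
    intro t s
    have h1 := prod_exp (μ t s) (hT.symm t s) (f t) (f t)
    have h2 := prod_exp (μ t s) (hT.symm t s) (f t) (ψ s)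
    have h3 := sum_exp (μ t s) (hT.symm t s) (fun x => f t x * g t s)
    have h4 : ∑ x, μ t s x * (∑ i, f t (x i) - (∑ i, ψ s (x i) + g t s)) ^ 2 =
        ∑ x, μ t s x * ((∑ i, f t (x i)) * ∑ j, f t (x j)) -
        2 * ∑ x, μ t s x * ((∑ i, f t (x i)) * ∑ j, ψ s (x j)) -
        2 * ∑ x, μ t s x * ∑ i, f t (x i) * g t s +
        ∑ x, μ t s x * (∑ i, ψ s (x i) + g t s) ^ 2 := by
      rw [Finset.mul_sum univ _ 2, Finset.mul_sum univ _ 2, ← Finset.sum_sub_distrib,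
        ← Finset.sum_sub_distrib, ← Finset.sum_add_distrib]
      refine Finset.sum_congr rfl fun x _ => ?_
      rw [← Finset.sum_mul]; ring
    rw [h4, h1, h2, h3]; ring
  simp only [e, Finset.sum_add_distrib, Finset.sum_sub_distrib, ← Finset.mul_sum]

theorem core (hD : Des b σT σS u μ ε) (h1 : ∑ i ∈ range b.N, P1 b.N u i = 1)
    {c : ℝ} (hc : ∀ i < b.N, c ≤ b.N * P1 b.N u i) (hO : OneP b σT σS u μ e) {C η : ℝ}
    (hC : 1 ≤ C) (hTK : TKP b σS C ε) (hη : 0 < η) (hη1 : η ≤ 1) (hεη : ε ≤ η ^ 2)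
    (he : (1 + Fintype.card Ce) * e ≤ η) (hinv : ∀ x t, σT.on x t → σT.on (b.ι x) t)
    {f : T → X → ℝ} (hf : ∀ t x, |f t x| ≤ 1) (hfa : ∀ t x, f t (b.ι x) = -f t x)
    {ψ : S → X → ℝ} (hψ : ∀ s x, |ψ s x| ≤ 1) (cell : T → Ce) {g : S → Ce → ℝ}
    (hg : ∀ s c, |g s c| ≤ 1)
    (hd : (u + 2) * ∑ s, σS.wt s * ∑ x, σS.m b s x * P1 b.N u (b.lev (b.pr x)) *
        (ψ s x - levMean (fun x => b.lev (b.pr x)) (σS.m b s) (ψ s) (b.lev (b.pr x))) ^ 2 ≤
      ∑ t, ∑ s, ∑ x, μ t s x * (∑ i, ψ s (x i) + g s (cell t)) ^ 2 + C * η) :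
    (u + 2) * (c * ∑ t, ∑ x, σT.flag b x t * (f t x - bar b σT f x) ^ 2) ≤
      ∑ t, ∑ s, ∑ x, μ t s x * (∑ i, f t (x i) - (∑ i, ψ s (x i) + g s (cell t))) ^ 2 +
        50 * (u + 2) ^ 2 * (C * η) := by
  have hb := hD.base
  have hε0 := eps_pos hb
  have hεη' : ε ≤ η := hεη.trans (by nlinarith)
  have hε : ε ≤ 1 := hεη'.trans hη1
  have he0 : 0 ≤ e := (abs_nonneg _).trans (hO f ψ hf hψ).1
  have hcard : (0 : ℝ) ≤ Fintype.card Ce := Nat.cast_nonneg _
  have he1 : e ≤ η := by nlinarith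
  have he2 : Fintype.card Ce * e ≤ η := by nlinarith
  have hηC : η ≤ C * η := by nlinarith
  have i1 := a0_ge hD hε h1 hO hf
  have i2 := a1_ge hD hε h1 hinv hf hfa
  have i3 := b1_le hb hO hinv hf hfa hψ
  have i4 := b2_le hb hO hinv hf hfa cell hg
  have i5 := b0_le hD hε h1 hO hC hTK hη hεη hinv hf hfa hψ
  have i6 := var_le (u := u) hb hD.sT hε h1 hc hf
  rw [expand hD.mix.tup f ψ fun t s => g s (cell t)]
  have hu : (0 : ℝ) ≤ u := Nat.cast_nonneg u
  have hn : (0 : ℝ) ≤ u + 2 := by positivity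
  have hn2 : (0 : ℝ) ≤ (u + 2) * (u + 1) := by positivity
  have j1 := mul_le_mul_of_nonneg_left (i1.trans (add_le_add_right
    (show 4 * ε + e ≤ 5 * (C * η) by linarith) _)) hn
  have j2 := mul_le_mul_of_nonneg_left
    ((show -(9 * (C * η)) ≤ -(9 * ε) by linarith).trans i2) hn2
  have j3 := mul_le_mul_of_nonneg_left (i3.trans (he1.trans hηC)) hn2
  have j4 := mul_le_mul_of_nonneg_left (i4.trans (he2.trans hηC)) hn
  have j5 := mul_le_mul_of_nonneg_left (i5.trans (add_le_add_right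
    (show 2 * e + 8 * ε + 9 * C * η ≤ 19 * (C * η) by linarith) _)) hn
  have j6 := mul_le_mul_of_nonneg_left (i6.trans (add_le_add_right
    (show 8 * ε ≤ 8 * (C * η) by linarith) _)) hn
  have hCη : 0 ≤ C * η := hη.le.trans hηC
  have k1 : (u + 2) * (C * η) ≤ (u + 2) ^ 2 * (C * η) :=
    mul_le_mul_of_nonneg_right (by nlinarith) hCη
  have k2 : (u + 2) * (u + 1) * (C * η) ≤ (u + 2) ^ 2 * (C * η) :=
    mul_le_mul_of_nonneg_right (by nlinarith) hCη
  have k3 : C * η ≤ (u + 2) ^ 2 * (C * η) := le_mul_of_one_le_left hCη (by nlinarith)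
  nlinarith

end Contr

end Pool.Agent.P.MP_b8021b_nt.VE
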