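import Pool.Agent.P.MP_b8021b_nt.VE.PCos2
import Pool.Agent.P.MP_b8021b_nt.VE.StB

/-! N27: equidistribution of products of primes in one coset. -/

namespace Pool.Agent.P.MP_b8021b_nt.VE

open Polynomial NumberField Finset
open scoped Classical ComplexConjugate

namespace Cos

noncomputable section

variable {L : Type} [Field L] [NumberField L] {u N : ℕ}

/-- the part of `Lam` in the shell number `m` -/
def Lm (σ : L →+* ℂ) (y : ℝ) (N u n : ℕ) (𝔞 : Ideal (𝓞 L)) (m : ℕ) (α : 𝓞 L) : ℝ :=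
  cnt u N m * ir L n * (n ^ 2 * cov L * N / (Real.pi * y ^ u * Real.exp (m / N))) *
    sh N (Ideal.absNorm 𝔞 * y ^ u) m (σ α)

lemma Lam_eq (σ : L →+* ℂ) (y : ℝ) (N u n : ℕ) (𝔞 : Ideal (𝓞 L)) (α : 𝓞 L) :
    Lam σ y N u n 𝔞 α = ∑ m ∈ range (u * N + 1), Lm σ y N u n 𝔞 m α := rfl

lemma Lm_nonneg (σ : L →+* ℂ) {y : ℝ} (hy : 0 < y) (N u n : ℕ) (𝔞 : Ideal (𝓞 L)) (m : ℕ)
    (α : 𝓞 L) : 0 ≤ Lm σ y N u n 𝔞 m α := by
  have h1 := ir_nonneg L n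
  have h2 : 0 ≤ cov L := by
    unfold cov
    positivity
  have h3 := sh_nonneg (N := N) (Ideal.absNorm 𝔞 * y ^ u) m (σ α)
  unfold Lm
  positivity

/-- Fejer means of `Lm` -/
lemma L_mean (K : IQ L)
    (hnm : ∀ β : 𝓞 L, (Ideal.absNorm (Ideal.span {β}) : ℝ) = ‖K.σ β‖ ^ 2) (hu : 1 ≤ u)
    {n : ℕ} (hn : 3 ≤ n) (hN : 1 ≤ N) {𝔞 : Ideal (𝓞 L)} {α₀ : 𝓞 L} {y X C r₀ : ℝ} (hy : 0 < y)
    (ha : 𝔞 ≠ ⊥) (hX0 : 0 < X) (hX : X ^ 2 = Ideal.absNorm 𝔞 * y ^ u) (hcov : 0 < cov L)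
    (hC : 0 ≤ C) (hr0 : 0 ≤ r₀) (hr : (N : ℝ) ^ 6 * r₀ ≤ X) (s : Finset (𝓞 L))
    (hs : ∀ α, α ∈ s ↔ α - α₀ ∈ Ideal.span {(n : 𝓞 L)} * 𝔞 ∧ ‖K.σ α‖ ≤ X * Real.exp u)
    {m R : ℕ} (hm : m ≤ u * N) (hR : R ≤ N ^ 2) (ρ : ℂ)
    (h : |∑ᶠ α ∈ {α : 𝓞 L | α - α₀ ∈ Ideal.span {(n : 𝓞 L)} * 𝔞},
        sh N (X ^ 2) m (K.σ α) * fej R (dir (K.σ α) * ρ) -
        Real.pi * X ^ 2 * Real.exp (m / N) /
          (N * (Ideal.absNorm (Ideal.span {(n : 𝓞 L)} * 𝔞) * cov L))| ≤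
        C * (X ^ 2 / (N * (Ideal.absNorm (Ideal.span {(n : 𝓞 L)} * 𝔞) * cov L))) *
          (1 / (N : ℝ) ^ 2 + R ^ 2 * N * r₀ / X)) :
    |∑ α ∈ s, Lm K.σ y N u n 𝔞 m α * fej R (dir (K.σ α) * ρ) - cnt u N m * ir L n| ≤
      cnt u N m * ir L n * (2 * C / N) := by
  have hA : (0 : ℝ) < Ideal.absNorm 𝔞 := by
    exact_mod_cast Nat.pos_of_ne_zero fun h0 => ha (Ideal.absNorm_eq_zero_iff.mp h0)
  have hn0 : (0 : ℝ) < n := by exact_mod_cast (by omega : 0 < n)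
  have hN1 : (1 : ℝ) ≤ N := by exact_mod_cast hN
  have hir := ir_nonneg L n
  have e1 : (Ideal.absNorm (Ideal.span {(n : 𝓞 L)} * 𝔞) : ℝ) = n ^ 2 * Ideal.absNorm 𝔞 := by
    rw [map_mul, Nat.cast_mul, hnm]
    simp
  have e2 : ∑ᶠ α ∈ {α : 𝓞 L | α - α₀ ∈ Ideal.span {(n : 𝓞 L)} * 𝔞},
      sh N (X ^ 2) m (K.σ α) * fej R (dir (K.σ α) * ρ) =
      ∑ α ∈ s, sh N (X ^ 2) m (K.σ α) * fej R (dir (K.σ α) * ρ) := by
    refine finsum_mem_eq_sum_of_inter_support_eq _ ?_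
    ext α
    simp only [Set.mem_inter_iff, Set.mem_ofPred_eq, Function.mem_support, mem_coe, hs]
    exact ⟨fun h => ⟨⟨h.1, ((near_sh hu (left_ne_zero_of_mul h.2)).rad hN hX0 hm).1⟩, h.2⟩,
      fun h => ⟨h.1.1, h.2⟩⟩
  rw [e1, e2] at h
  set κ : ℝ := n ^ 2 * cov L * N / (Real.pi * y ^ u * Real.exp (m / N)) with hκ
  have hκ0 : 0 ≤ κ := by positivity
  have e3 : ∑ α ∈ s, Lm K.σ y N u n 𝔞 m α * fej R (dir (K.σ α) * ρ) - cnt u N m * ir L n =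
      cnt u N m * ir L n * (κ * (∑ α ∈ s, sh N (X ^ 2) m (K.σ α) * fej R (dir (K.σ α) * ρ) -
        Real.pi * X ^ 2 * Real.exp (m / N) / (N * (n ^ 2 * Ideal.absNorm 𝔞 * cov L)))) := by
    have e4 : κ * (Real.pi * X ^ 2 * Real.exp (m / N) /
        (N * (n ^ 2 * Ideal.absNorm 𝔞 * cov L))) = 1 := by
      rw [hκ, hX]
      field_simp
    rw [mul_sub κ, e4, mul_sub, mul_one, mul_sum, mul_sum]
    congr 1
    refine sum_congr rfl fun α _ => ?_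
    rw [Lm, ← hX]
    ring
  rw [e3, abs_mul, abs_mul κ, abs_of_nonneg hκ0, abs_of_nonneg (by positivity)]
  gcongr
  refine (mul_le_mul_of_nonneg_left h hκ0).trans ?_
  have e5 : κ * (X ^ 2 / (N * (n ^ 2 * Ideal.absNorm 𝔞 * cov L))) ≤ 1 := by
    have : κ * (X ^ 2 / (N * (n ^ 2 * Ideal.absNorm 𝔞 * cov L))) =
        1 / (Real.pi * Real.exp (m / N)) := by
      rw [hκ, hX]
      field_simp
    rw [this, div_le_one (by positivity)]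
    have h1 : 1 ≤ Real.exp (m / N) := Real.one_le_exp (by positivity)
    nlinarith [Real.pi_gt_three]
  have e6 : 1 / (N : ℝ) ^ 2 + R ^ 2 * N * r₀ / X ≤ 2 / N := by
    have h1 : 1 / (N : ℝ) ^ 2 ≤ 1 / N := by
      gcongr
      nlinarith
    have h2 : (R : ℝ) ≤ N ^ 2 := by exact_mod_cast hR
    have h3 : (R : ℝ) ^ 2 * N * r₀ / X ≤ 1 / N := by
      rw [div_le_div_iff₀ hX0 (by positivity)]
      calc (R : ℝ) ^ 2 * N * r₀ * N ≤ (N ^ 2) ^ 2 * N * r₀ * N := by gcongr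
        _ = N ^ 6 * r₀ := by ring
        _ ≤ _ := by linarith
    have : 2 / (N : ℝ) = 1 / N + 1 / N := by ring
    linarith
  calc _ = κ * (X ^ 2 / (N * (n ^ 2 * Ideal.absNorm 𝔞 * cov L))) *
        (C * (1 / (N : ℝ) ^ 2 + R ^ 2 * N * r₀ / X)) := by ring
    _ ≤ 1 * (C * (2 / N)) := by gcongr
    _ = _ := by ring

end

end Cos

open Cos in
theorem p_cos (hIQb : S_IQb) (hCnt : S_Cnt) (hLam : S_Lam) (hCl : S_Cl) (hEq : S_Eq)
    (hShell : S_Shell) (hTF : S_TF) : S_Cos := by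
  intro u hu
  obtain ⟨C, hC1, hSh⟩ := hShell u
  obtain ⟨C', -, hCl'⟩ := hCl
  have hE1 : 1 ≤ Real.exp u := Real.one_le_exp (Nat.cast_nonneg u)
  have hu0 : (0 : ℝ) ≤ u := Nat.cast_nonneg u
  set c₁ : ℝ := 3 + 2 ^ u + 2 * C with hc₁
  set c₂ : ℝ := Real.exp u * u + 1 + 2 * Real.exp u with hc₂
  have h2u : (0 : ℝ) < 2 ^ u := by positivity
  have hc₁1 : 1 ≤ c₁ := by linarith
  have hc₂1 : 1 ≤ c₂ := by nlinarith
  refine ⟨c₁ * c₂, by nlinarith, ?_⟩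
  intro L _ _ K n N n₁ 𝔞 α₀ y X ε Ω Λ δ₀ ω hn hN hn₁ hy ha h0 hmem hX0 hX hr hε hE hΩ hΛ hδ hb hlip
  have hy0 : 0 < y := by linarith
  have hnm := (hIQb L K).2.2.1
  have hcov : 0 < cov L := by linarith [(hCl' L K).2.1]
  set r₀ : ℝ := n₁ * (1 + √|(K.D : ℝ)|) with hr₀
  have hr0 : 0 ≤ r₀ := by positivity
  have hN1 : (1 : ℝ) ≤ N := by exact_mod_cast hN
  have hr1 : N * r₀ ≤ X := by
    refine le_trans ?_ hr
    gcongr
    exact le_self_pow₀ hN1 (by norm_num)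
  obtain ⟨hS1, hS2, hS3⟩ := hSh L K (Ideal.span {(n : 𝓞 L)} * 𝔞) n₁ α₀ r₀ hn₁ hmem le_rfl
  set s : Finset (𝓞 L) := (hS2 0 (X * Real.exp u)).1.toFinset.filter
    fun α => α - α₀ ∈ Ideal.span {(n : 𝓞 L)} * 𝔞 with hsdef
  have hs : ∀ α, α ∈ s ↔ α - α₀ ∈ Ideal.span {(n : 𝓞 L)} * 𝔞 ∧ ‖K.σ α‖ ≤ X * Real.exp u := by
    intro α
    simp [hsdef, and_comm]
  obtain ⟨B, hB1, hB2⟩ := W_mean hEq K hnm hu hn hN hy0 ha h0 hX0 hX hε hE s hs
  have hL : ∀ m ≤ u * N, ∀ (R : ℕ) (ρ : ℂ), 1 ≤ R → R ≤ N ^ 2 → ‖ρ‖ = 1 →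
      |∑ α ∈ s, Lm K.σ y N u n 𝔞 m α * fej R (dir (K.σ α) * ρ) - cnt u N m * ir L n| ≤
        cnt u N m * ir L n * (2 * C / N) := fun m hm R ρ hR hR' hρ =>
    L_mean K hnm hu hn hN hy0 ha hX0 hX hcov (by linarith) hr0 hr s hs hm hR' ρ
      (hS3 X N R m ρ hN hR hm hρ hr1)
  have hir := ir_nonneg L n
  have hε0 : 0 ≤ ε :=
    (norm_nonneg _).trans (hE.2 (chi0 L n) (chi0_H K.σ n).toIsChar (chi0_triv n) 0 hN)
  set a : ℝ := (N : ℝ) ^ u * ir L n with hadef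
  have ha0 : 0 ≤ a := by positivity
  have hN2 : 1 ≤ N ^ 2 := Nat.one_le_pow _ _ hN
  have hCN : 2 * C / N ≤ 2 * C := div_le_self (by linarith) hN1
  have hsc : ∑ m ∈ range (u * N + 1), (cnt u N m : ℝ) * ir L n = a := by rw [← sum_mul, sum_cnt]
  have hW : ∑ α ∈ s, Wan y N u 𝔞 α ≤ (2 + 2 ^ u) * a := by
    simp only [Wan_eq]
    rw [sum_comm]
    have h1 : ∑ i : Fin u → Fin N, ∑ α ∈ s, Wi y i 𝔞 α ≤ ∑ i, (ir L n + B i) :=
      sum_le_sum fun i _ => by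
        have := (abs_le.mp (hB2 i 1 1 le_rfl hN2 norm_one)).2
        simp only [fej_one, mul_one] at this
        linarith
    rw [sum_add_distrib, sum_const, card_univ, Fintype.card_fun, Fintype.card_fin,
      Fintype.card_fin, nsmul_eq_mul, Nat.cast_pow] at h1
    have h2 : (2 ^ u + 1) * ε * a ≤ (2 ^ u + 1) * 1 * a := by gcongr
    linarith
  have hLa : ∑ α ∈ s, Lam K.σ y N u n 𝔞 α ≤ (1 + 2 * C) * a := by
    simp only [Lam_eq]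
    rw [sum_comm, ← hsc, mul_sum]
    refine sum_le_sum fun m hm => ?_
    have := (abs_le.mp (hL m (Nat.lt_succ_iff.mp (mem_range.mp hm)) 1 1 le_rfl hN2 norm_one)).2
    simp only [fej_one, mul_one] at this
    have h1 : (0 : ℝ) ≤ cnt u N m * ir L n := by positivity
    nlinarith [mul_le_mul_of_nonneg_left hCN h1]
  have hcc : c₁ * a ≤ c₁ * c₂ * a := by
    gcongr
    nlinarith
  set ϱ : ℕ → 𝓞 L → ℝ := fun m α => ∑ i ∈ fib u N m, Wi y i 𝔞 α - Lm K.σ y N u n 𝔞 m α with hϱ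
  have hnear : ∀ m α, ϱ m α ≠ 0 → Near u N X m (K.σ α) := by
    intro m α h
    by_cases h1 : Lm K.σ y N u n 𝔞 m α = 0
    · simp only [hϱ, h1, sub_zero] at h
      obtain ⟨i, hi, h2⟩ := exists_ne_zero_of_sum_ne_zero h
      exact mem_fib.mp hi ▸ near_Wi K.σ hnm hy0 ha hX i h2
    · exact near_sh hu (hX ▸ right_ne_zero_of_mul h1)
  refine ⟨s, fun α h => ((hs α).mp h).1, fun α h1 h2 => ⟨?_, ?_⟩, ?_, by nlinarith, by nlinarith⟩
  · rw [Wan_eq]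
    refine sum_eq_zero fun i _ => ?_
    by_contra h
    exact h2 ((hs α).mpr ⟨h1, ((near_Wi K.σ hnm hy0 ha hX i h).rad hN hX0 (sum_le i)).1⟩)
  · rw [Lam_eq]
    refine sum_eq_zero fun m hm => ?_
    by_contra h
    exact h2 ((hs α).mpr ⟨h1, ((near_sh hu (hX ▸ right_ne_zero_of_mul h)).rad hN hX0
      (Nat.lt_succ_iff.mp (mem_range.mp hm))).1⟩)
  have hsub : ∀ f : 𝓞 L → ℝ,
      ∑ b ∈ s.subtype fun α => α - α₀ ∈ Ideal.span {(n : 𝓞 L)} * 𝔞, f b = ∑ α ∈ s, f α :=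
    fun f => sum_subtype_of_mem f fun α h => ((hs α).mp h).1
  have key := hTF {α : 𝓞 L // α - α₀ ∈ Ideal.span {(n : 𝓞 L)} * 𝔞} (s.subtype _)
    (fun b => K.σ b.1) (u * N + 1) (N ^ 2) (fun m b => ϱ m b.1)
    (fun m => X * Real.exp (m / (2 * N)))
    (fun m => ∑ i ∈ fib u N m, B i + cnt u N m * ir L n * (2 * C / N)) (fun b => ω b.1)
    Ω (Λ / X) δ₀ (X * Real.exp u * u / N) r₀ (X * Real.exp u) hN2 hΩ (by positivity) hδ
    (by positivity)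
    (fun m hm => ⟨by positivity, by
      have : (m : ℝ) ≤ u * N := by exact_mod_cast Nat.lt_succ_iff.mp hm
      gcongr
      rw [div_le_iff₀ (by positivity)]
      nlinarith⟩)
    (fun m hm b _ h => ⟨(hnear m b h).1, ((hnear m b h).rad hN hX0 (Nat.lt_succ_iff.mp hm)).2⟩)
    (fun b => hb b b.2)
    (fun b b' => (hlip b b' b.2 b'.2).trans_eq (by ring))
    (fun ζ => by
      obtain ⟨α, h1, h2⟩ := hS1 ζ
      exact ⟨⟨α, h1⟩, h2⟩)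
    (fun m hm ρ hρ => by
      rw [hsub fun α => ϱ m α * fej (N ^ 2) (dir (K.σ α) * ρ)]
      have e1 : ∑ α ∈ s, ϱ m α * fej (N ^ 2) (dir (K.σ α) * ρ) =
          ∑ i ∈ fib u N m, (∑ α ∈ s, Wi y i 𝔞 α * fej (N ^ 2) (dir (K.σ α) * ρ) - ir L n) -
            (∑ α ∈ s, Lm K.σ y N u n 𝔞 m α * fej (N ^ 2) (dir (K.σ α) * ρ) -
              cnt u N m * ir L n) := by
        simp only [hϱ, sub_mul, sum_sub_distrib, sum_mul, sum_const, nsmul_eq_mul, cnt_eq]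
        rw [sum_comm]
        ring
      rw [e1]
      refine (abs_sub _ _).trans (add_le_add ((abs_sum_le_sum_abs _ _).trans
        (sum_le_sum fun i _ => hB2 i _ ρ hN2 le_rfl hρ))
        (hL m (Nat.lt_succ_iff.mp hm) _ ρ hN2 le_rfl hρ)))
  have e1 : ∑ m ∈ range (u * N + 1),
      ∑ b ∈ s.subtype fun α => α - α₀ ∈ Ideal.span {(n : 𝓞 L)} * 𝔞, ϱ m b.1 * ω b.1 =
      ∑ α ∈ s, (Wan y N u 𝔞 α - Lam K.σ y N u n 𝔞 α) * ω α := by
    rw [sum_congr rfl fun m _ => hsub fun α => ϱ m α * ω α, sum_comm]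
    refine sum_congr rfl fun α _ => ?_
    rw [← sum_mul, Wan_eq, Lam_eq, ← sum_fib, ← sum_sub_distrib]
  have e2 : ∑ m ∈ range (u * N + 1),
      ∑ b ∈ s.subtype fun α => α - α₀ ∈ Ideal.span {(n : 𝓞 L)} * 𝔞, |ϱ m b.1| ≤ c₁ * a := by
    rw [sum_congr rfl fun m _ => hsub fun α => |ϱ m α|, sum_comm]
    have : ∑ α ∈ s, ∑ m ∈ range (u * N + 1), |ϱ m α| ≤
        ∑ α ∈ s, (Wan y N u 𝔞 α + Lam K.σ y N u n 𝔞 α) := sum_le_sum fun α _ => by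
      rw [Wan_eq, Lam_eq, ← sum_fib, ← sum_add_distrib]
      refine sum_le_sum fun m _ => (abs_sub _ _).trans_eq ?_
      rw [abs_of_nonneg (sum_nonneg fun i _ => Wi_nonneg y i 𝔞 α),
        abs_of_nonneg (Lm_nonneg K.σ hy0 N u n 𝔞 m α)]
    rw [sum_add_distrib] at this
    linarith
  have e3 : ∑ m ∈ range (u * N + 1), (∑ i ∈ fib u N m, B i + cnt u N m * ir L n * (2 * C / N)) ≤
      c₁ * c₂ * a * (ε + 1 / N) := by
    rw [sum_add_distrib, sum_fib, ← sum_mul, hsc]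
    have h1 : (2 ^ u + 1) * ε * a ≤ c₁ * a * ε := by
      have : (2 ^ u + 1) * (ε * a) ≤ c₁ * (ε * a) := by
        gcongr
        linarith
      linarith
    have h2 : a * (2 * C / N) ≤ c₁ * a * (1 / N) := by
      have : 2 * C * (a * (1 / N)) ≤ c₁ * (a * (1 / N)) := by
        gcongr
        linarith
      calc _ = 2 * C * (a * (1 / N)) := by ring
        _ ≤ _ := by linarith
    have h3 : c₁ * a * (ε + 1 / N) ≤ c₁ * c₂ * a * (ε + 1 / N) := by gcongr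
    linarith
  have e4 : δ₀ + Λ / X * (X * Real.exp u * u / N + r₀ + 2 * (X * Real.exp u) / √(N ^ 2 : ℕ)) ≤
      c₂ * (δ₀ + Λ / N) := by
    have h1 : √((N ^ 2 : ℕ) : ℝ) = N := by
      rw [Nat.cast_pow, Real.sqrt_sq (by positivity)]
    have h2 : r₀ ≤ X / N := by
      rw [le_div_iff₀ (by positivity)]
      linarith
    rw [h1]
    have h3 : Λ / X * (X * Real.exp u * u / N + r₀ + 2 * (X * Real.exp u) / N) ≤
        c₂ * (Λ / N) := by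
      calc _ ≤ Λ / X * (X * Real.exp u * u / N + X / N + 2 * (X * Real.exp u) / N) := by gcongr
        _ = _ := by
          rw [hc₂]
          field_simp
    nlinarith
  rw [e1] at key
  refine key.trans ?_
  calc _ ≤ Ω * (c₁ * c₂ * a * (ε + 1 / N) + c₁ * a * (c₂ * (δ₀ + Λ / N))) := by gcongr
    _ = _ := by ring

end Pool.Agent.P.MP_b8021b_nt.VE
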