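import Pool.Agent.P.MP_b8021b_nt.VE.PCos1

/-! Auxiliary lemmas for N27: Fejer means of the two weights. -/

namespace Pool.Agent.P.MP_b8021b_nt.VE

open Polynomial NumberField Finset
open scoped Classical ComplexConjugate

namespace Cos

noncomputable section

variable {L : Type} [Field L] [NumberField L] {u N : ℕ}

lemma ir_nonneg (L : Type) [Field L] [NumberField L] (n : ℕ) : 0 ≤ ir L n := by
  unfold ir
  positivity

/-- orthogonality on a finite part of the coset -/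
lemma orth (hEq : S_Eq) (K : IQ L) {n : ℕ} (hn : 3 ≤ n) (k : ℤ) :
    ∃ 𝒳 : Finset (Ideal (𝓞 L) →* ℂ), (∀ χ, χ ∈ 𝒳 ↔ IsHChar K.σ n k χ) ∧
      ∀ (𝔞 𝔟₀ 𝔟 : Ideal (𝓞 L)) (α₀ : 𝓞 L) (s : Finset (𝓞 L)), 𝔞 ≠ ⊥ →
        Ideal.span {α₀} = 𝔞 * 𝔟₀ → Cop n 𝔟₀ →
        (∀ α ∈ s, α - α₀ ∈ Ideal.span {(n : 𝓞 L)} * 𝔞) →
        (∀ α, α - α₀ ∈ Ideal.span {(n : 𝓞 L)} * 𝔞 → Ideal.span {α} = 𝔞 * 𝔟 → α ∈ s) →
        ∑ α ∈ s, (if Ideal.span {α} = 𝔞 * 𝔟 then 1 else 0) *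
          (dir (K.σ α) * conj (dir (K.σ α₀))) ^ k =
          (ir L n : ℂ) * ∑ χ ∈ 𝒳, χ 𝔟 * conj (χ 𝔟₀) := by
  obtain ⟨𝒳, h1, -, h2⟩ := hEq L K n k hn
  refine ⟨𝒳, h1, fun 𝔞 𝔟₀ 𝔟 α₀ s ha h0 hc hs hs' => ?_⟩
  obtain ⟨h3, h4⟩ := h2 𝔞 𝔟₀ 𝔟 α₀ ha h0 hc
  by_cases h : ∃ α, Ideal.span {α} = 𝔞 * 𝔟 ∧ α - α₀ ∈ Ideal.span {(n : 𝓞 L)} * 𝔞
  · obtain ⟨α, h5, h6⟩ := h
    obtain ⟨h7, h8⟩ := h3 α h5 h6
    rw [h7, sum_eq_single_of_mem α (hs' α h6 h5), if_pos h5, one_mul]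
    intro β hβ hne
    rw [if_neg fun h9 => hne (h8 β h9 (hs β hβ)), zero_mul]
  · rw [h4 h, mul_zero]
    refine sum_eq_zero fun β hβ => ?_
    rw [if_neg fun h9 => h ⟨β, h9, hs β hβ⟩, zero_mul]

/-- the character expansion for one tuple of levels -/
lemma expand (y : ℝ) (i : Fin u → Fin N) (𝔞 𝔟₀ : Ideal (𝓞 L)) (s : Finset (𝓞 L)) (F : 𝓞 L → ℂ)
    (c : ℂ) (𝒳 : Finset (Ideal (𝓞 L) →* ℂ))
    (h : ∀ (q : Fin u → ℕ) (I : Fin u → Ideal (𝓞 L)), (∀ j, q j ∈ strat y N (i j)) →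
      (∀ j, I j ∈ T L (q j)) →
      ∑ α ∈ s, (if Ideal.span {α} = 𝔞 * ∏ j, I j then 1 else 0) * F α =
        c * ∑ χ ∈ 𝒳, χ (∏ j, I j) * conj (χ 𝔟₀)) :
    ∑ α ∈ s, (Wi y i 𝔞 α : ℂ) * F α =
      c * ∑ χ ∈ 𝒳, conj (χ 𝔟₀) * ∏ j, Sm y N (i j) (lam χ) := by
  have e1 : ∑ α ∈ s, (Wi y i 𝔞 α : ℂ) * F α =
      ∑ q ∈ Fintype.piFinset fun j => strat y N (i j), (∏ j, (wt y N (q j) : ℂ)) *
        ∑ I ∈ Fintype.piFinset fun j => T L (q j),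
          ∑ α ∈ s, (if Ideal.span {α} = 𝔞 * ∏ j, I j then 1 else 0) * F α := by
    unfold Wi
    push_cast
    simp only [sum_mul, mul_sum]
    rw [sum_comm]
    refine sum_congr rfl fun q _ => ?_
    rw [sum_comm]
    refine sum_congr rfl fun I _ => sum_congr rfl fun α _ => ?_
    split_ifs <;> simp
  have e2 : ∀ χ : Ideal (𝓞 L) →* ℂ, ∏ j, Sm y N (i j) (lam χ) =
      ∑ q ∈ Fintype.piFinset fun j => strat y N (i j), (∏ j, (wt y N (q j) : ℂ)) *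
        ∑ I ∈ Fintype.piFinset fun j => T L (q j), χ (∏ j, I j) := by
    intro χ
    unfold Sm
    rw [prod_univ_sum]
    refine sum_congr rfl fun q _ => ?_
    rw [prod_mul_distrib]
    congr 1
    simp only [lam_eq, map_prod]
    rw [prod_univ_sum]
  rw [e1]
  simp only [e2]
  rw [sum_congr rfl fun q hq => by
    rw [sum_congr rfl fun I hI =>
      h q I (Fintype.mem_piFinset.mp hq) (Fintype.mem_piFinset.mp hI)]]
  simp only [mul_sum]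
  rw [sum_comm (s := 𝒳)]
  refine sum_congr rfl fun q _ => ?_
  rw [sum_comm (s := 𝒳)]
  refine sum_congr rfl fun I _ => sum_congr rfl fun χ _ => ?_
  ring

/-- the Fejer mean of a weight in terms of its Fourier coefficients -/
lemma fej_mean {J : Type} (s : Finset J) (W : J → ℝ) (z : J → ℂ) (ρ : ℂ) (R R' : ℕ) (hR : 1 ≤ R)
    (hR' : R ≤ R') (hρ : ‖ρ‖ = 1) (a : ℝ) (P : ℂ) (G : ℤ → ℂ) (b : ℤ → ℝ) (hb : ∀ k, ‖G k‖ ≤ b k)
    (h : ∀ k : ℤ, ∑ α ∈ s, (W α : ℂ) * z α ^ k = (if k = 0 then P else 0) + G k) :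
    |∑ α ∈ s, W α * fej R (z α * ρ) - a| ≤ ‖P - a‖ + ∑ k ∈ Finset.Ioo (-(R' : ℤ)) R', b k := by
  have h0 : (0 : ℤ) ∈ Finset.Ioo (-(R : ℤ)) R := by
    simp only [Finset.mem_Ioo]
    omega
  have e1 : ∑ α ∈ s, W α * fej R (z α * ρ) - a =
      (P - a + ∑ k ∈ Finset.Ioo (-(R : ℤ)) R, (1 - |(k : ℝ)| / R : ℝ) * ρ ^ k * G k).re := by
    have e2 : ∑ α ∈ s, W α * fej R (z α * ρ) =
        (∑ k ∈ Finset.Ioo (-(R : ℤ)) R, (1 - |(k : ℝ)| / R : ℝ) * ρ ^ k *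
          ∑ α ∈ s, (W α : ℂ) * z α ^ k).re := by
      simp only [mul_sum]
      rw [sum_comm, Complex.re_sum]
      refine sum_congr rfl fun α _ => ?_
      unfold fej
      rw [← Complex.re_ofReal_mul, mul_sum]
      congr 1
      refine sum_congr rfl fun k _ => ?_
      rw [mul_zpow]
      ring
    rw [e2]
    simp only [h, mul_add, sum_add_distrib, mul_ite, mul_zero, sum_ite_eq', if_pos h0]
    simp
    ring
  rw [e1]
  refine (Complex.abs_re_le_norm _).trans ((norm_add_le _ _).trans ?_)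
  gcongr
  refine (norm_sum_le _ _).trans ?_
  refine le_trans (sum_le_sum fun k hk => ?_) (sum_le_sum_of_subset_of_nonneg
    (s := Finset.Ioo (-(R : ℤ)) R) (Finset.Ioo_subset_Ioo (by omega) (by omega))
    fun k _ _ => (norm_nonneg _).trans (hb k))
  rw [norm_mul, norm_mul, norm_zpow, hρ, one_zpow, mul_one, Complex.norm_real, Real.norm_eq_abs]
  have hR0 : (0 : ℝ) < R := by exact_mod_cast hR
  have hk' : |(k : ℝ)| ≤ R := by
    have := Finset.mem_Ioo.mp hk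
    have h1 : |k| ≤ (R : ℤ) := abs_le.mpr ⟨this.1.le, this.2.le⟩
    exact_mod_cast h1
  have h1 : |1 - |(k : ℝ)| / R| ≤ 1 := by
    have h2 : 0 ≤ |(k : ℝ)| / R := by positivity
    have h3 : |(k : ℝ)| / R ≤ 1 := (div_le_one hR0).mpr hk'
    rw [abs_le]
    constructor <;> linarith
  calc _ ≤ 1 * b k := mul_le_mul h1 (hb k) (norm_nonneg _) zero_le_one
    _ = _ := one_mul _

lemma fej_one (z : ℂ) : fej 1 z = 1 := by
  have : Finset.Ioo (-((1 : ℕ) : ℤ)) (1 : ℕ) = {0} := by decide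
  unfold fej
  rw [this]
  simp

/-- Fejer means of `Wi` -/
lemma W_mean (hEq : S_Eq) (K : IQ L)
    (hnm : ∀ β : 𝓞 L, (Ideal.absNorm (Ideal.span {β}) : ℝ) = ‖K.σ β‖ ^ 2) (hu : 1 ≤ u)
    {n : ℕ} (hn : 3 ≤ n) (hN : 1 ≤ N) {𝔞 : Ideal (𝓞 L)} {α₀ : 𝓞 L} {y X ε : ℝ} (hy : 0 < y)
    (ha : 𝔞 ≠ ⊥) (h0 : UnitC n 𝔞 α₀) (hX0 : 0 < X) (hX : X ^ 2 = Ideal.absNorm 𝔞 * y ^ u)
    (hε : ε ≤ 1) (hE : EqD K.σ y N u n ε) (s : Finset (𝓞 L))
    (hs : ∀ α, α ∈ s ↔ α - α₀ ∈ Ideal.span {(n : 𝓞 L)} * 𝔞 ∧ ‖K.σ α‖ ≤ X * Real.exp u) :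
    ∃ B : (Fin u → Fin N) → ℝ, ∑ i, B i ≤ (2 ^ u + 1) * ε * ((N : ℝ) ^ u * ir L n) ∧
      ∀ (i : Fin u → Fin N) (R : ℕ) (ρ : ℂ), 1 ≤ R → R ≤ N ^ 2 → ‖ρ‖ = 1 →
        |∑ α ∈ s, Wi y i 𝔞 α * fej R (dir (K.σ α) * ρ) - ir L n| ≤ B i := by
  obtain ⟨𝔟₀, hb0, hc⟩ := h0
  choose 𝒳 hX1 hX2 using orth hEq K hn
  have hir := ir_nonneg L n
  have htriv := hE.2 (chi0 L n) (chi0_H K.σ n).toIsChar (chi0_triv n)
  have hε0 : 0 ≤ ε := (norm_nonneg _).trans (htriv 0 hN)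
  have hα0 : K.σ α₀ ≠ 0 := by
    intro h
    have h1 : α₀ = 0 := by simpa using h
    rw [h1, Ideal.span_singleton_eq_bot.mpr rfl] at hb0
    have h2 : 𝔟₀ = ⊥ := (Ideal.mul_eq_bot.mp hb0.symm).resolve_left ha
    rw [h2] at hc
    have h3 : Ideal.span {(n : 𝓞 L)} = ⊤ := by
      simpa using Ideal.isCoprime_iff_sup_eq.mp hc
    have h4 := hnm (n : 𝓞 L)
    rw [h3] at h4
    simp only [Ideal.absNorm_top, Nat.cast_one, map_natCast, Complex.norm_natCast] at h4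
    have h5 : (3 : ℝ) ≤ n := by exact_mod_cast hn
    nlinarith
  set 𝒩 : ℤ → Finset (Ideal (𝓞 L) →* ℂ) := fun k => (𝒳 k).filter fun χ => ¬ IsTriv n χ with h𝒩
  refine ⟨fun i => ir L n * (2 ^ u * ε) + ∑ k ∈ Finset.Ioo (-((N ^ 2 : ℕ) : ℤ)) (N ^ 2 : ℕ),
    ir L n * ∑ χ ∈ 𝒩 k, ∏ j, ‖Sm y N (i j) (lam χ)‖, ?_, fun i R ρ hR hR' hρ => ?_⟩
  · rw [sum_add_distrib, sum_const, card_univ, Fintype.card_fun, Fintype.card_fin,
      Fintype.card_fin, nsmul_eq_mul, sum_comm]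
    have e1 : Err K.σ y N u n (N ^ 2) = ∑ k ∈ Finset.Ioo (-((N ^ 2 : ℕ) : ℤ)) (N ^ 2 : ℕ),
        ∑ χ ∈ 𝒩 k, ∑ i ∈ range N, ‖Sm y N i (lam χ)‖ ^ u := by
      refine sum_congr rfl fun k _ => ?_
      rw [← finsum_mem_coe_finset]
      congr 2
      ext χ
      simp [h𝒩, hX1]
    have e2 : ∀ χ : Ideal (𝓞 L) →* ℂ, ∑ i : Fin u → Fin N, ∏ j, ‖Sm y N (i j) (lam χ)‖ ≤
        (N : ℝ) ^ u * ∑ i ∈ range N, ‖Sm y N i (lam χ)‖ ^ u := by
      intro χ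
      have e3 := prod_univ_sum (fun _ : Fin u => (univ : Finset (Fin N)))
        fun _ (i : Fin N) => ‖Sm y N i (lam χ)‖
      rw [Fintype.piFinset_univ] at e3
      rw [← e3, prod_const, card_univ, Fintype.card_fin,
        Fin.sum_univ_eq_sum_range (fun i => ‖Sm y N i (lam χ)‖) N]
      obtain ⟨v, rfl⟩ := Nat.exists_eq_add_of_le' hu
      refine (pow_sum_le_card_mul_sum_pow (fun _ _ => norm_nonneg _) v).trans ?_
      rw [card_range]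
      have : (1 : ℝ) ≤ N := by exact_mod_cast hN
      gcongr
      omega
    have e4 : ∑ k ∈ Finset.Ioo (-((N ^ 2 : ℕ) : ℤ)) (N ^ 2 : ℕ), ∑ i : Fin u → Fin N,
        ir L n * ∑ χ ∈ 𝒩 k, ∏ j, ‖Sm y N (i j) (lam χ)‖ ≤
        ir L n * ((N : ℝ) ^ u * Err K.σ y N u n (N ^ 2)) := by
      rw [e1, mul_sum, mul_sum]
      refine sum_le_sum fun k _ => ?_
      rw [← mul_sum, sum_comm, mul_sum (a := (N : ℝ) ^ u)]
      exact mul_le_mul_of_nonneg_left (sum_le_sum fun χ _ => e2 χ) hir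
    have e5 : ir L n * ((N : ℝ) ^ u * Err K.σ y N u n (N ^ 2)) ≤ ir L n * ((N : ℝ) ^ u * ε) := by
      gcongr
      exact hE.1
    rw [Nat.cast_pow]
    linarith
  · have hd := norm_dir hα0
    have e1 : ∀ α : 𝓞 L, dir (K.σ α) * ρ =
        dir (K.σ α) * conj (dir (K.σ α₀)) * (dir (K.σ α₀) * ρ) := fun α => by
      have : conj (dir (K.σ α₀)) * dir (K.σ α₀) = 1 := by
        rw [Complex.conj_mul', hd]
        simp
      linear_combination (-(dir (K.σ α)) * ρ) * this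
    rw [sum_congr rfl fun α _ => by rw [e1 α]]
    refine (fej_mean s _ _ _ R (N ^ 2) hR hR' (by rw [norm_mul, hd, hρ, one_mul]) (ir L n)
      (ir L n * ∏ j, Sm y N (i j) (lam (chi0 L n)))
      (fun k => ir L n * ∑ χ ∈ 𝒩 k, conj (χ 𝔟₀) * ∏ j, Sm y N (i j) (lam χ))
      (fun k => ir L n * ∑ χ ∈ 𝒩 k, ∏ j, ‖Sm y N (i j) (lam χ)‖) (fun k => ?_) fun k => ?_).trans ?_
    · rw [norm_mul, Complex.norm_real, Real.norm_of_nonneg hir]
      gcongr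
      refine (norm_sum_le _ _).trans (sum_le_sum fun χ hχ => ?_)
      rw [norm_mul, Complex.norm_conj, ((hX1 k χ).mp (mem_filter.mp hχ).1).norm_cop _ hc, one_mul,
        norm_prod]
    · rw [expand y i 𝔞 𝔟₀ s _ (ir L n) (𝒳 k) fun q I hq hI =>
        hX2 k 𝔞 𝔟₀ _ α₀ s ha hb0 hc (fun α h => ((hs α).mp h).1) fun α h1 h2 =>
          (hs α).mpr ⟨h1, ((near_fac K.σ hnm hy ha hX i hq hI h2).rad hN hX0 (sum_le i)).1⟩,
        ← sum_filter_add_sum_filter_not (𝒳 k) (IsTriv n), mul_add]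
      congr 1
      split_ifs with hk
      · have : (𝒳 k).filter (IsTriv n) = {chi0 L n} := by
          ext χ
          simp only [mem_filter, mem_singleton, hX1]
          refine ⟨fun h => eq_chi0 h.1.toIsChar h.2, ?_⟩
          rintro rfl
          exact ⟨hk ▸ chi0_H K.σ n, chi0_triv n⟩
        rw [this, sum_singleton, chi0_triv n _ hc]
        simp
      · rw [sum_eq_zero, mul_zero]
        intro χ hχ
        exact absurd (k_eq_zero K (by omega) ((hX1 k χ).mp (mem_filter.mp hχ).1)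
          (mem_filter.mp hχ).2) hk
    · refine add_le_add ?_ le_rfl
      have e2 : (ir L n : ℂ) * ∏ j, Sm y N (i j) (lam (chi0 L n)) - ir L n =
          ir L n * (∏ j, Sm y N (i j) (lam (chi0 L n)) - 1) := by ring
      rw [e2, norm_mul, Complex.norm_real, Real.norm_of_nonneg hir]
      gcongr
      refine (prod_sub_one univ _ hε fun j => htriv _ (i j).2).trans ?_
      rw [card_univ, Fintype.card_fin]
      gcongr
      linarith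

end

end Cos

end Pool.Agent.P.MP_b8021b_nt.VE
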