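import Pool.Agent.P.MP_b8021b_nt.VE.StN

/-! Counting lemmas for the package `dvd`. -/

namespace Pool.Agent.P.MP_b8021b_nt.VE.Dvd

open Finset

/-- a set with at most `m` points in every short window -/
lemma card_le_gap (U : Finset ℤ) (lo : ℤ) (Mx ℒ m : ℕ) (hℒ : 1 ≤ ℒ) (hU : U ⊆ Icc lo (lo + Mx))
    (h : ∀ V ⊆ U, (∀ a ∈ V, ∀ a' ∈ V, |a - a'| < ℒ) → V.card ≤ m) :
    (U.card : ℝ) ≤ m * (Mx / ℒ + 1) := by
  have hL : (0 : ℤ) < ℒ := by exact_mod_cast hℒ
  have h1 : U.card ≤ m * (range (Mx / ℒ + 1)).card := by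
    refine card_le_mul_card_image_of_maps_to (f := fun a => ((a - lo) / ℒ).toNat) ?_ m ?_
    · intro a ha
      have := mem_Icc.mp (hU ha)
      rw [mem_range, Nat.lt_succ_iff, Int.toNat_le]
      push_cast
      exact Int.ediv_le_ediv hL (by omega)
    · intro j _
      refine h _ (filter_subset _ _) ?_
      intro a ha a' ha'
      obtain ⟨ha1, ha2⟩ := mem_filter.mp ha
      obtain ⟨ha1', ha2'⟩ := mem_filter.mp ha'
      have b1 := mem_Icc.mp (hU ha1)
      have b2 := mem_Icc.mp (hU ha1')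
      have n1 : 0 ≤ (a - lo) / ℒ := Int.ediv_nonneg (by omega) hL.le
      have n2 : 0 ≤ (a' - lo) / ℒ := Int.ediv_nonneg (by omega) hL.le
      have e : (a - lo) / ℒ = (a' - lo) / ℒ := by omega
      have c1 := Int.emod_add_mul_ediv (a - lo) ℒ
      have c2 := Int.emod_add_mul_ediv (a' - lo) ℒ
      have d1 := Int.emod_nonneg (a - lo) hL.ne'
      have d2 := Int.emod_nonneg (a' - lo) hL.ne'
      have d3 := Int.emod_lt_of_pos (a - lo) hL
      have d4 := Int.emod_lt_of_pos (a' - lo) hL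
      rw [e] at c1
      rw [abs_lt]
      constructor <;> omega
  rw [card_range] at h1
  have h2 : ((Mx / ℒ : ℕ) : ℝ) ≤ Mx / ℒ := Nat.cast_div_le
  calc (U.card : ℝ) ≤ (m * (Mx / ℒ + 1) : ℕ) := by exact_mod_cast h1
    _ = m * (((Mx / ℒ : ℕ) : ℝ) + 1) := by push_cast; ring
    _ ≤ _ := by gcongr

/-- two dimensional version, windows in the first coordinate -/
lemma card_le_gap2 (S : Finset (ℤ × ℤ)) (lo lo' : ℤ) (Mx ℒ m : ℕ) (hℒ : 1 ≤ ℒ)
    (hS : S ⊆ Icc lo (lo + Mx) ×ˢ Icc lo' (lo' + Mx))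
    (h : ∀ (b : ℤ) (V : Finset ℤ), (∀ a ∈ V, (a, b) ∈ S) → (∀ a ∈ V, ∀ a' ∈ V, |a - a'| < ℒ) →
      V.card ≤ m) : (S.card : ℝ) ≤ (Mx + 1) * (m * (Mx / ℒ + 1)) := by
  have h1 : S.card = ∑ b ∈ Icc lo' (lo' + Mx), (S.filter fun t => t.2 = b).card :=
    card_eq_sum_card_fiberwise fun t ht => (mem_product.mp (hS ht)).2
  have h2 : ∀ b ∈ Icc lo' (lo' + Mx),
      ((S.filter fun t => t.2 = b).card : ℝ) ≤ m * (Mx / ℒ + 1) := by
    intro b _
    have e : (S.filter fun t => t.2 = b).card = ((S.filter fun t => t.2 = b).image Prod.fst).card := by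
      refine (card_image_of_injOn ?_).symm
      intro t ht t' ht' htt
      exact Prod.ext htt ((mem_filter.mp ht).2.trans (mem_filter.mp ht').2.symm)
    rw [e]
    refine card_le_gap _ lo Mx ℒ m hℒ ?_ ?_
    · intro a ha
      obtain ⟨t, ht, rfl⟩ := mem_image.mp ha
      exact (mem_product.mp (hS (mem_filter.mp ht).1)).1
    · intro V hV hV'
      refine h b V ?_ hV'
      intro a ha
      obtain ⟨t, ht, rfl⟩ := mem_image.mp (hV ha)
      obtain ⟨ht1, rfl⟩ := mem_filter.mp ht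
      exact ht1
  rw [h1]
  push_cast
  refine (sum_le_card_nsmul _ _ _ h2).trans ?_
  rw [Int.card_Icc, nsmul_eq_mul]
  have : ((lo' + Mx + 1 - lo').toNat : ℝ) = Mx + 1 := by
    have : (lo' + Mx + 1 - lo').toNat = Mx + 1 := by omega
    rw [this]; push_cast; ring
  rw [this]

/-- windows in the second coordinate -/
lemma card_le_gap2' (S : Finset (ℤ × ℤ)) (lo lo' : ℤ) (Mx ℒ m : ℕ) (hℒ : 1 ≤ ℒ)
    (hS : S ⊆ Icc lo (lo + Mx) ×ˢ Icc lo' (lo' + Mx))
    (h : ∀ (a : ℤ) (V : Finset ℤ), (∀ b ∈ V, (a, b) ∈ S) → (∀ a ∈ V, ∀ a' ∈ V, |a - a'| < ℒ) →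
      V.card ≤ m) : (S.card : ℝ) ≤ (Mx + 1) * (m * (Mx / ℒ + 1)) := by
  rw [← card_image_of_injective S Prod.swap_injective]
  refine card_le_gap2 _ lo' lo Mx ℒ m hℒ ?_ ?_
  · intro t ht
    obtain ⟨t', ht', rfl⟩ := mem_image.mp ht
    have := mem_product.mp (hS ht')
    exact mem_product.mpr ⟨this.2, this.1⟩
  · intro b V hV hV'
    refine h b V ?_ hV'
    intro a ha
    obtain ⟨t', ht', e⟩ := mem_image.mp (hV a ha)
    have : t' = (b, a) := by
      have := congrArg Prod.swap e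
      simpa using this
    rwa [← this]

/-- multiples of `q` in a window of length at most `q` -/
lemma card_le_one_of_dvd (V : Finset ℤ) (q ℒ : ℕ) (hq : ℒ ≤ q)
    (h : ∀ a ∈ V, ∀ a' ∈ V, (q : ℤ) ∣ a - a') (h' : ∀ a ∈ V, ∀ a' ∈ V, |a - a'| < ℒ) :
    V.card ≤ 1 := by
  refine card_le_one.mpr fun a ha a' ha' => ?_
  have h1 := h a ha a' ha'
  have h2 := h' a ha a' ha'
  have : a - a' = 0 := Int.eq_zero_of_abs_lt_dvd h1 (by omega)
  omega

/-- a monic cubic has at most three roots modulo `q` in a window of length `q ^ (1 / 6)` -/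
lemma card_le_three (V : Finset ℤ) (q ℒ : ℕ) (c2 c1 c0 : ℤ) (hq : ℒ ^ 6 ≤ q)
    (h : ∀ a ∈ V, (q : ℤ) ∣ a ^ 3 + c2 * a ^ 2 + c1 * a + c0)
    (h' : ∀ a ∈ V, ∀ a' ∈ V, |a - a'| < ℒ) : V.card ≤ 3 := by
  by_contra hc
  obtain ⟨x0, h0, x1, h1, x2, h2, x3, h3, n01, n02, n03, n12, n13, n23⟩ :=
    three_lt_card.mp (not_le.mp hc)
  have hd : (q : ℤ) ∣ (x0 - x1) * (x0 - x2) * (x0 - x3) * (x1 - x2) * (x1 - x3) * (x2 - x3) := by
    have e : (x0 - x1) * (x0 - x2) * (x0 - x3) * (x1 - x2) * (x1 - x3) * (x2 - x3) =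
        (x0 ^ 3 + c2 * x0 ^ 2 + c1 * x0 + c0) * ((x1 - x2) * (x1 - x3) * (x2 - x3)) -
        (x1 ^ 3 + c2 * x1 ^ 2 + c1 * x1 + c0) * ((x0 - x2) * (x0 - x3) * (x2 - x3)) +
        (x2 ^ 3 + c2 * x2 ^ 2 + c1 * x2 + c0) * ((x0 - x1) * (x0 - x3) * (x1 - x3)) -
        (x3 ^ 3 + c2 * x3 ^ 2 + c1 * x3 + c0) * ((x0 - x1) * (x0 - x2) * (x1 - x2)) := by ring
    rw [e]
    exact (((h x0 h0).mul_right _).sub ((h x1 h1).mul_right _)).add ((h x2 h2).mul_right _) |>.sub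
      ((h x3 h3).mul_right _)
  have hne : (x0 - x1) * (x0 - x2) * (x0 - x3) * (x1 - x2) * (x1 - x3) * (x2 - x3) ≠ 0 := by
    simp only [ne_eq, mul_eq_zero, sub_eq_zero, not_or]
    tauto
  refine hne (Int.eq_zero_of_abs_lt_dvd hd ?_)
  simp only [abs_mul]
  have a1 := h' x0 h0 x1 h1
  have a2 := h' x0 h0 x2 h2
  have a3 := h' x0 h0 x3 h3
  have a4 := h' x1 h1 x2 h2
  have a5 := h' x1 h1 x3 h3
  have a6 := h' x2 h2 x3 h3
  have hq' : (ℒ : ℤ) ^ 6 ≤ q := by exact_mod_cast hq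
  calc _ < (ℒ : ℤ) * ℒ * ℒ * ℒ * ℒ * ℒ := by gcongr
    _ = (ℒ : ℤ) ^ 6 := by ring
    _ ≤ q := hq'

/-- if `d` divides `c` times a product, then it has a large common divisor with a factor -/
lemma exists_gcd_ge (d c G : ℕ) (l : List ℕ) (hd : d ∣ c * l.prod) (hc : 0 < c)
    (hl : l ≠ []) (hG : c * G ^ l.length ≤ d) : ∃ F ∈ l, G ≤ Nat.gcd d F := by
  by_contra hcon
  push Not at hcon
  have key : ∀ (l : List ℕ) (c : ℕ), 0 < c → (∀ F ∈ l, Nat.gcd d F < G) → l ≠ [] →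
      Nat.gcd d (c * l.prod) < c * G ^ l.length := by
    intro l
    induction l with
    | nil => intro c _ _ h; exact absurd rfl h
    | cons F l ih =>
      intro c hc hF _
      have hF0 := hF F List.mem_cons_self
      have hstep : Nat.gcd d (c * (F :: l).prod) ≤ Nat.gcd d (c * l.prod) * Nat.gcd d F := by
        rcases Nat.eq_zero_or_pos d with rfl | hd0
        · simp only [Nat.gcd_zero_left, List.prod_cons]
          exact le_of_eq (by ring)
        refine Nat.le_of_dvd (Nat.mul_pos (Nat.gcd_pos_of_pos_left _ hd0)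
          (Nat.gcd_pos_of_pos_left _ hd0)) ?_
        rw [List.prod_cons, show c * (F * l.prod) = c * l.prod * F by ring]
        exact gcd_mul_dvd_mul_gcd d _ _
      have hG0 : 0 < G := by omega
      rcases eq_or_ne l [] with rfl | hl
      · simp only [List.prod_nil, mul_one, List.length_cons, List.length_nil, zero_add,
          pow_one] at hstep ⊢
        have : Nat.gcd d c ≤ c := Nat.gcd_le_right _ hc
        calc _ ≤ Nat.gcd d c * Nat.gcd d F := hstep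
          _ ≤ c * Nat.gcd d F := Nat.mul_le_mul_right _ this
          _ < c * G := Nat.mul_lt_mul_of_pos_left hF0 hc
      · have := ih c hc (fun F' hF' => hF F' (List.mem_cons_of_mem _ hF')) hl
        calc _ ≤ _ := hstep
          _ ≤ Nat.gcd d (c * l.prod) * G := Nat.mul_le_mul_left _ hF0.le
          _ < c * G ^ l.length * G := Nat.mul_lt_mul_of_pos_right this hG0
          _ = _ := by rw [List.length_cons]; ring
  have := key l c hc hcon hl
  rw [Nat.gcd_eq_left hd] at this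
  omega

end Pool.Agent.P.MP_b8021b_nt.VE.Dvd
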