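import Pool.Agent.P.MP_b8021b_nt.VE.PDvd2
import Pool.Agent.P.MP_b8021b_nt.VE.BasicP

/-! The events that cover the divisibility condition. -/

namespace Pool.Agent.P.MP_b8021b_nt.VE.Dvd

open Finset
open scoped Classical

variable {p : Par} {c : Cfg} {ϑ W C₁ : ℝ} {Mx : ℕ}

/-- the cubic form -/
def cub (p : Par) (t : ℤ × ℤ) : ℤ :=
  t.1 ^ 3 + p.f.coeff 2 * t.2 * t.1 ^ 2 + p.f.coeff 1 * t.2 ^ 2 * t.1 + p.f.coeff 0 * t.2 ^ 3

lemma D_cub (t : ℤ × ℤ) : p.D t = t.2 * cub p t := by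
  rw [p.D_eq', cub]; ring

/-- a large divisor of `d` divides one of the forms of one fibre -/
def E1 (p : Par) (d h : ℕ) (t : ℤ × ℤ) : Prop :=
  ∃ e ∈ d.divisors, h ^ 6 ≤ e ∧ ((e : ℤ) ∣ t.1 ∨ (e : ℤ) ∣ t.2 ∨ (e : ℤ) ∣ cub p t)

/-- a large divisor of `d` divides the determinant -/
def E3 (d h e : ℕ) (x x' : Pt) (t t' : ℤ × ℤ) : Prop :=
  h ^ 12 ≤ e ∧ Nat.gcd e t.2.natAbs < h ^ 6 ∧ ¬ x.1 ∣ d ∧ ¬ x'.1 ∣ d ∧ (e : ℤ) ∣ dl t t'

lemma Set0.C0 (H : Set0 p c ϑ W C₁ Mx) : 0 ≤ C₁ := by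
  have hB := H.Bpos
  have := H.Mle
  by_contra hc
  have : C₁ * c.B < 0 := mul_neg_of_neg_of_pos (not_le.mp hc) hB
  have : (0 : ℝ) ≤ Mx := by positivity
  linarith

lemma cover {x x' : Pt} {t t' : ℤ × ℤ} (hx : x.1.Prime) (hx' : x'.1.Prime) {d h : ℕ} (hd : 1 ≤ d)
    (hh : 1 ≤ h) (hc : h = 1 ∨ 32 * p.r ^ (2 * p.n0) * h ^ 216 ≤ d)
    (hdv : d ∣ 8 * nn p x x' t t' ^ 2) :
    x.1 ∣ d ∨ x'.1 ∣ d ∨ E1 p d h t ∨ E1 p d h t' ∨ ∃ e ∈ d.divisors, E3 d h e x x' t t' := by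
  have hd0 : d ≠ 0 := by omega
  have triv : h = 1 → E1 p d h t := fun h1 =>
    ⟨1, Nat.one_mem_divisors.mpr hd0, by simp [h1], Or.inl (by simp)⟩
  rcases hc with hc | hc
  · exact Or.inr (Or.inr (Or.inl (triv hc)))
  have h6 : h ^ 6 ≤ h ^ 12 := Nat.pow_le_pow_right hh (by norm_num)
  have hm : ∀ F : ℕ, Nat.gcd d F ∈ d.divisors := fun F =>
    Nat.mem_divisors.mpr ⟨Nat.gcd_dvd_left _ _, hd0⟩
  have hz : ∀ a : ℤ, ((Nat.gcd d a.natAbs : ℕ) : ℤ) ∣ a := fun a =>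
    Int.natCast_dvd.mpr (Nat.gcd_dvd_right _ _)
  have hp : ∀ q : ℕ, q.Prime → h ^ 12 ≤ Nat.gcd d q → q ∣ d ∨ h = 1 := by
    intro q hq hg
    by_cases h1 : q ∣ d
    · exact Or.inl h1
    · right
      rw [((Nat.Prime.coprime_iff_not_dvd hq).mpr h1).symm.gcd_eq_one] at hg
      have := Nat.le_self_pow (n := 12) (by norm_num) h
      omega
  let l : List ℕ := [x.1, x'.1, t.1.natAbs, t'.1.natAbs, (dl t t').natAbs, t.2.natAbs,
    (cub p t).natAbs, t'.2.natAbs, (cub p t').natAbs]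
  have hr := p.r_pos
  obtain ⟨F, hF, hG⟩ := exists_gcd_ge d (32 * p.r ^ (2 * p.n0)) (h ^ 12) (l ++ l) (by
      refine hdv.trans (dvd_of_eq ?_)
      simp only [l, nn, D_cub, Int.natAbs_mul, Int.natAbs_pow, Int.natAbs_natCast, List.prod_append,
        List.prod_cons, List.prod_nil]
      have : (2 : ℤ).natAbs = 2 := rfl
      rw [this]
      ring) (by positivity) (by simp [l]) (by
      have : (l ++ l).length = 18 := rfl
      rw [this, ← pow_mul]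
      exact hc)
  rw [List.mem_append, or_self] at hF
  simp only [l, List.mem_cons, List.not_mem_nil, or_false] at hF
  rcases hF with rfl | rfl | rfl | rfl | rfl | rfl | rfl | rfl | rfl
  · rcases hp _ hx hG with h1 | h1
    · exact Or.inl h1
    · exact Or.inr (Or.inr (Or.inl (triv h1)))
  · rcases hp _ hx' hG with h1 | h1
    · exact Or.inr (Or.inl h1)
    · exact Or.inr (Or.inr (Or.inl (triv h1)))
  · exact Or.inr (Or.inr (Or.inl ⟨_, hm _, h6.trans hG, Or.inl (hz _)⟩))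
  · exact Or.inr (Or.inr (Or.inr (Or.inl ⟨_, hm _, h6.trans hG, Or.inl (hz _)⟩)))
  · by_cases h1 : x.1 ∣ d
    · exact Or.inl h1
    by_cases h2 : x'.1 ∣ d
    · exact Or.inr (Or.inl h2)
    by_cases h3 : Nat.gcd (Nat.gcd d (dl t t').natAbs) t.2.natAbs < h ^ 6
    · exact Or.inr (Or.inr (Or.inr (Or.inr ⟨_, hm _, hG, h3, h1, h2, hz _⟩)))
    · refine Or.inr (Or.inr (Or.inl ⟨_, ?_, not_lt.mp h3, Or.inr (Or.inl ?_)⟩))
      · exact Nat.mem_divisors.mpr ⟨(Nat.gcd_dvd_left _ _).trans (Nat.gcd_dvd_left _ _), hd0⟩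
      · exact Int.natCast_dvd.mpr (Nat.gcd_dvd_right _ _)
  · exact Or.inr (Or.inr (Or.inl ⟨_, hm _, h6.trans hG, Or.inr (Or.inl (hz _))⟩))
  · exact Or.inr (Or.inr (Or.inl ⟨_, hm _, h6.trans hG, Or.inr (Or.inr (hz _))⟩))
  · exact Or.inr (Or.inr (Or.inr (Or.inl ⟨_, hm _, h6.trans hG, Or.inr (Or.inl (hz _))⟩)))
  · exact Or.inr (Or.inr (Or.inr (Or.inl ⟨_, hm _, h6.trans hG, Or.inr (Or.inr (hz _))⟩)))

lemma Set0.mass_one (H : Set0 p c ϑ W C₁ Mx) {e h : ℕ} (hh : 1 ≤ h) (he : h ^ 6 ≤ e) :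
    ∑ t ∈ Tset p c, wT p c t * ((if (e : ℤ) ∣ t.1 then 1 else 0) + (if (e : ℤ) ∣ t.2 then 1 else 0) +
      (if (e : ℤ) ∣ cub p t then 1 else 0)) ≤ 5 * (W * C₁ * (C₁ / h + 1 / c.B)) := by
  have h1 : h ≤ e := (Nat.le_self_pow (by norm_num) h).trans he
  have a1 := H.mass_le ((Tset p c).filter fun t => (e : ℤ) ∣ t.1) (filter_subset _ _) h 1 hh
    (card_le_gap2 _ _ _ Mx _ 1 hh ((filter_subset _ _).trans H.box) fun b V hV hV' =>
      card_le_one_of_dvd V e h h1 (fun a ha a' ha' =>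
        dvd_sub (mem_filter.mp (hV a ha)).2 (mem_filter.mp (hV a' ha')).2) hV')
  have a2 := H.mass_le ((Tset p c).filter fun t => (e : ℤ) ∣ t.2) (filter_subset _ _) h 1 hh
    (card_le_gap2' _ _ _ Mx _ 1 hh ((filter_subset _ _).trans H.box) fun b V hV hV' =>
      card_le_one_of_dvd V e h h1 (fun a ha a' ha' =>
        dvd_sub (mem_filter.mp (hV a ha)).2 (mem_filter.mp (hV a' ha')).2) hV')
  have a3 := H.mass_le ((Tset p c).filter fun t => (e : ℤ) ∣ cub p t) (filter_subset _ _) h 3 hh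
    (card_le_gap2 _ _ _ Mx _ 3 hh ((filter_subset _ _).trans H.box) fun b V hV hV' =>
      card_le_three V e h (p.f.coeff 2 * b) (p.f.coeff 1 * b ^ 2) (p.f.coeff 0 * b ^ 3) he
        (fun a ha => (mem_filter.mp (hV a ha)).2) hV')
  rw [sum_filter] at a1 a2 a3
  simp only [mul_add, sum_add_distrib, mul_ite, mul_one, mul_zero]
  push_cast at a1 a2 a3
  nlinarith

lemma Set0.mass_E1 (H : Set0 p c ϑ W C₁ Mx) (d : ℕ) {h : ℕ} (hh : 1 ≤ h) :
    ∑ t ∈ Tset p c, wT p c t * (if E1 p d h t then 1 else 0) ≤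
      d.divisors.card * (5 * (W * C₁ * (C₁ / h + 1 / c.B))) := by
  have hB := H.Bpos
  have hW := H.W0
  have hC := H.C0
  calc _ ≤ ∑ t ∈ Tset p c, ∑ e ∈ d.divisors with h ^ 6 ≤ e, wT p c t *
        ((if (e : ℤ) ∣ t.1 then 1 else 0) + (if (e : ℤ) ∣ t.2 then 1 else 0) +
          (if (e : ℤ) ∣ cub p t then 1 else 0)) := by
        refine sum_le_sum fun t ht => ?_
        rw [← mul_sum]
        refine mul_le_mul_of_nonneg_left ?_ (H.wT0 t ht).1
        have h0 : ∀ e ∈ d.divisors.filter fun e => h ^ 6 ≤ e, (0 : ℝ) ≤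
            (if (e : ℤ) ∣ t.1 then 1 else 0) + (if (e : ℤ) ∣ t.2 then 1 else 0) +
              (if (e : ℤ) ∣ cub p t then 1 else 0) := fun e _ => by positivity
        split_ifs with hE
        · obtain ⟨e, h1, h2, h3⟩ := hE
          refine le_trans ?_ (single_le_sum h0 (mem_filter.mpr ⟨h1, h2⟩))
          split_ifs <;> first | (exfalso; tauto) | norm_num
        · exact sum_nonneg h0
    _ ≤ ∑ e ∈ d.divisors with h ^ 6 ≤ e, 5 * (W * C₁ * (C₁ / h + 1 / c.B)) := by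
        rw [sum_comm]
        exact sum_le_sum fun e he => H.mass_one hh (mem_filter.mp he).2
    _ ≤ _ := by
        rw [sum_const, nsmul_eq_mul]
        refine mul_le_mul_of_nonneg_right ?_ (by positivity)
        exact_mod_cast card_filter_le _ _

lemma Set0.cond_one (H : Set0 p c ϑ W C₁ Mx) (x x' : Pt) (t : ℤ × ℤ) (a : ℝ) (ha : 0 ≤ a) :
    ∑ t' ∈ Tset p c with IsQ p c x x' t t', x.1 * x'.1 * wT p c t' * a ≤ W * C₁ * (C₁ + 1) * a := by
  have hB := H.Bpos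
  have hW := H.W0
  have hC := H.C0
  have := H.cond_le x x' t (fun _ => True) 1 1 le_rfl le_rfl (fun _ _ _ => Nat.coprime_one_left _)
    (fun _ _ _ _ _ _ => by simp)
  rw [← sum_mul]
  refine mul_le_mul_of_nonneg_right (le_trans (le_of_eq ?_) (this.trans ?_)) ha
  · simp
  · have : 9 * c.y ^ 2 / c.B ≤ 1 := (div_le_one hB).mpr H.By
    simp only [Nat.cast_one, div_one]
    gcongr

lemma Set0.avg_le (H : Set0 p c ϑ W C₁ Mx) {a : ℝ} (ha : 0 ≤ a) :
    (∑ q ∈ Pset c.y c.N, wt c.y c.N q * a) / c.N ≤ a := by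
  have hN : (0 : ℝ) < c.N := by exact_mod_cast H.Npos
  rw [← sum_mul, div_le_iff₀ hN, mul_comm]
  exact mul_le_mul_of_nonneg_left H.sum ha

lemma Set0.Qs_E1 (H : Set0 p c ϑ W C₁ Mx) (d : ℕ) {h : ℕ} (hh : 1 ≤ h) :
    Qs p c (fun _ _ t _ => if E1 p d h t then 1 else 0) ≤
      4 * (W * C₁ * (C₁ + 1)) * (d.divisors.card * (5 * (W * C₁ * (C₁ / h + 1 / c.B)))) := by
  have hW := H.W0
  have hC := H.C0
  refine (H.Qs_le _ (fun _ => W * C₁ * (C₁ + 1)) (fun t => if E1 p d h t then 1 else 0)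
    (fun _ => by positivity) (fun _ => by positivity)
    fun x x' t => H.cond_one x x' t _ (by positivity)).trans ?_
  refine mul_le_mul (mul_le_mul_of_nonneg_left (H.avg_le (by positivity)) (by norm_num))
    (H.mass_E1 d hh) (sum_nonneg fun t ht => mul_nonneg (H.wT0 t ht).1 (by positivity))
    (by positivity)

lemma Set0.sum_dvd (H : Set0 p c ϑ W C₁ Mx) {d : ℕ} (hd : 1 ≤ d) (hϑ : 0 ≤ ϑ) :
    ∑ q ∈ Pset c.y c.N, wt c.y c.N q * (if q ∣ d then 1 else 0) ≤ d.divisors.card * ϑ := by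
  calc _ ≤ ∑ q ∈ Pset c.y c.N, if q ∈ d.divisors then ϑ else 0 := by
        refine sum_le_sum fun q hq => ?_
        by_cases h : q ∣ d
        · rw [if_pos h, if_pos (Nat.mem_divisors.mpr ⟨h, by omega⟩), mul_one]
          exact (H.pr q hq).2.2.2
        · rw [if_neg h, if_neg fun h' => h (Nat.mem_divisors.mp h').1, mul_zero]
    _ ≤ _ := by
        rw [sum_ite_mem, sum_const, nsmul_eq_mul]
        refine mul_le_mul_of_nonneg_right ?_ hϑ
        exact Nat.cast_le.mpr (card_le_card inter_subset_right)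

lemma Set0.Qs_pr (H : Set0 p c ϑ W C₁ Mx) {d : ℕ} (hd : 1 ≤ d) (hϑ : 0 ≤ ϑ) :
    Qs p c (fun x _ _ _ => if x.1 ∣ d then 1 else 0) ≤
      4 * (W * C₁ * (C₁ + 1)) * (d.divisors.card * ϑ) := by
  have hW := H.W0
  have hC := H.C0
  have hN : (1 : ℝ) ≤ c.N := by exact_mod_cast H.Npos
  have hK : 0 ≤ W * C₁ * (C₁ + 1) := by positivity
  have h0 : ∀ q : ℕ, (0 : ℝ) ≤ if q ∣ d then 1 else 0 := fun q => by split_ifs <;> norm_num
  have a0 := H.Qs_le (fun x _ _ _ => if x.1 ∣ d then 1 else 0) (fun q => if q ∣ d then 1 else 0)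
    (fun _ => W * C₁ * (C₁ + 1)) h0 (fun _ => hK)
    fun x x' t => (H.cond_one x x' t _ (h0 x.1)).trans (le_of_eq (mul_comm _ _))
  have a1 := H.sum_dvd hd hϑ
  have a2 : ∑ t ∈ Tset p c, wT p c t * (W * C₁ * (C₁ + 1)) ≤ W * C₁ * (C₁ + 1) := by
    rw [← sum_mul]
    exact mul_le_of_le_one_left hK H.wT1
  have a3 : 0 ≤ ∑ t ∈ Tset p c, wT p c t * (W * C₁ * (C₁ + 1)) :=
    sum_nonneg fun t ht => mul_nonneg (H.wT0 t ht).1 hK
  have a4 : 0 ≤ (d.divisors.card : ℝ) * ϑ := by positivity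
  calc _ ≤ _ := a0
    _ ≤ 4 * (d.divisors.card * ϑ) * (W * C₁ * (C₁ + 1)) := by
        refine mul_le_mul (mul_le_mul_of_nonneg_left ?_ (by norm_num)) a2 a3 (by positivity)
        exact (div_le_div_of_nonneg_right a1 (by linarith)).trans (div_le_self a4 hN)
    _ = _ := by ring

lemma Set0.Qs_E3 (H : Set0 p c ϑ W C₁ Mx) {d h e : ℕ} (hh : 1 ≤ h) (he : e ∈ d.divisors) :
    Qs p c (fun x x' t t' => if E3 d h e x x' t t' then 1 else 0) ≤
      4 * (W * C₁ * (C₁ / h + 9 * c.y ^ 2 / c.B)) := by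
  have hB := H.Bpos
  have hW := H.W0
  have hC := H.C0
  have hed := (Nat.mem_divisors.mp he).1
  have he0 : 0 < e := Nat.pos_of_mem_divisors he
  refine (H.Qs_le _ (fun _ => W * C₁ * (C₁ / h + 9 * c.y ^ 2 / c.B)) (fun _ => 1)
    (fun _ => by positivity) (fun _ => by positivity) fun x x' t => ?_).trans ?_
  · rw [mul_one]
    by_cases h0 : h ^ 12 ≤ e ∧ Nat.gcd e t.2.natAbs < h ^ 6
    swap
    · refine le_trans (le_of_eq (sum_eq_zero fun t' _ => ?_)) (by positivity)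
      rw [if_neg fun hE => h0 ⟨hE.1, hE.2.1⟩, mul_zero]
    have hg : 0 < Nat.gcd e t.2.natAbs := Nat.gcd_pos_of_pos_left _ he0
    obtain ⟨g, b, hcop, e1, e2⟩ := Nat.exists_coprime e t.2.natAbs
    have hgd : g ∣ d := (Dvd.intro _ e1.symm).trans hed
    refine H.cond_le x x' t (E3 d h e x x' t) h g hh ?_ ?_ ?_
    · by_contra hlt
      have h1 : g * Nat.gcd e t.2.natAbs ≤ h * h ^ 6 := Nat.mul_le_mul (not_le.mp hlt).le h0.2.le
      have h2 : g * Nat.gcd e t.2.natAbs < h * h ^ 6 :=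
        Nat.mul_lt_mul_of_lt_of_le (not_le.mp hlt) h0.2.le (by positivity)
      have h3 : h * h ^ 6 ≤ h ^ 12 := by
        rw [← pow_succ']; exact Nat.pow_le_pow_right hh (by norm_num)
      omega
    · intro t' hq hE
      have p1 := (H.pr _ (fst_mem_Pset hq.hx)).1
      have p2 := (H.pr _ (fst_mem_Pset hq.hx')).1
      exact Nat.Coprime.mul_right
        ((Nat.Prime.coprime_iff_not_dvd p1).mpr fun h' => hE.2.2.1 (h'.trans hgd)).symm
        ((Nat.Prime.coprime_iff_not_dvd p2).mpr fun h' => hE.2.2.2.1 (h'.trans hgd)).symm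
    · intro a a' b' _ hE hE'
      have h1 : (e : ℤ) ∣ (a - a') * t.2 := by
        have := dvd_sub hE'.2.2.2.2 hE.2.2.2.2
        simp only [dl] at this
        rwa [show t.1 * b' - a' * t.2 - (t.1 * b' - a * t.2) = (a - a') * t.2 by ring] at this
      rw [Int.natCast_dvd, Int.natAbs_mul] at h1
      rw [Int.natCast_dvd]
      generalize Nat.gcd e t.2.natAbs = G at hg e1 e2
      rw [e2, e1, ← mul_assoc] at h1
      exact hcop.dvd_of_dvd_mul_right (Nat.dvd_of_mul_dvd_mul_right hg h1)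
  · have a2 : ∑ t ∈ Tset p c, wT p c t * 1 ≤ 1 := by simpa using H.wT1
    have a3 : 0 ≤ ∑ t ∈ Tset p c, wT p c t * 1 :=
      sum_nonneg fun t ht => mul_nonneg (H.wT0 t ht).1 zero_le_one
    refine (mul_le_mul (mul_le_mul_of_nonneg_left (H.avg_le (by positivity)) (by norm_num)) a2 a3
      (by positivity)).trans (le_of_eq (mul_one _))

/-- the main estimate -/
lemma Set0.core (H : Set0 p c ϑ W C₁ Mx) {d h : ℕ} (hd : 1 ≤ d) (hh : 1 ≤ h) (hϑ : 0 ≤ ϑ)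
    (hc : h = 1 ∨ 32 * p.r ^ (2 * p.n0) * h ^ 216 ≤ d) :
    Qs p c (fun x x' t t' => if dl t t' ≠ 0 ∧ d ∣ 8 * nn p x x' t t' ^ 2 then 1 else 0) ≤
      d.divisors.card * (8 * (W * C₁ * (C₁ + 1)) * (ϑ + 5 * (W * C₁ * (C₁ / h + 1 / c.B))) +
        4 * (W * C₁ * (C₁ / h + 9 * c.y ^ 2 / c.B))) := by
  have a1 := H.Qs_pr hd hϑ
  have a2 := a1
  rw [Qs_swapX] at a2
  have a3 := H.Qs_E1 d hh
  have a4 := a3
  rw [Qs_swapT] at a4
  have a5 : Qs p c (fun x x' t t' => ∑ e ∈ d.divisors, if E3 d h e x x' t t' then 1 else 0) ≤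
      d.divisors.card * (4 * (W * C₁ * (C₁ / h + 9 * c.y ^ 2 / c.B))) := by
    rw [Qs_sum d.divisors fun e x x' t t' => if E3 d h e x x' t t' then 1 else 0, ← nsmul_eq_mul]
    exact sum_le_card_nsmul _ _ _ fun e he => H.Qs_E3 hh he
  have a6 := add_le_add (add_le_add (add_le_add (add_le_add a1 a2) a3) a4) a5
  rw [← Qs_add, ← Qs_add, ← Qs_add, ← Qs_add] at a6
  refine (H.Qs_mono fun x x' t t' hq => ?_).trans (a6.trans (le_of_eq (by ring)))
  have b5 : ∀ e ∈ d.divisors, (0 : ℝ) ≤ if E3 d h e x x' t t' then 1 else 0 :=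
    fun e _ => by positivity
  have b6 := sum_nonneg b5
  have b1 : (0 : ℝ) ≤ if x.1 ∣ d then 1 else 0 := by positivity
  have b2 : (0 : ℝ) ≤ if x'.1 ∣ d then 1 else 0 := by positivity
  have b3 : (0 : ℝ) ≤ if E1 p d h t then 1 else 0 := by positivity
  have b4 : (0 : ℝ) ≤ if E1 p d h t' then 1 else 0 := by positivity
  by_cases hE : dl t t' ≠ 0 ∧ d ∣ 8 * nn p x x' t t' ^ 2
  · rw [if_pos hE]
    rcases cover (H.pr _ (fst_mem_Pset hq.hx)).1 (H.pr _ (fst_mem_Pset hq.hx')).1 hd hh hc hE.2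
      with k | k | k | k | ⟨e, he, k⟩
    · rw [if_pos k]; linarith
    · rw [if_pos k]; linarith
    · rw [if_pos k]; linarith
    · rw [if_pos k]; linarith
    · have := single_le_sum b5 he
      rw [if_pos k] at this
      linarith
  · rw [if_neg hE]; linarith

end Pool.Agent.P.MP_b8021b_nt.VE.Dvd
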