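import Pool.Agent.P.MP_b8021b_nt.VE.StN

/-! Auxiliary lemmas for the independence of the incidences on the fibres. -/

namespace Pool.Agent.P.MP_b8021b_nt.VE

open Polynomial Finset
open scoped Classical

namespace IndT

lemma sum_sub {α : Type} (s : Finset α) (P : α → Prop) (P' : s → Prop) (f : α → ℝ)
    {i1 : DecidablePred P} {i2 : DecidablePred P'} (h : ∀ z, P' z ↔ P z.1) :
    ∑ z : s with P' z, f z.1 = ∑ t ∈ s with P t, f t := by
  rw [sum_filter, sum_filter, ← s.sum_coe_sort]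
  refine sum_congr rfl fun z _ => ?_
  by_cases hz : P' z
  · rw [if_pos hz, if_pos ((h z).1 hz)]
  · rw [if_neg hz, if_neg fun h' => hz ((h z).2 h')]

lemma prod_ge {ι : Type} (s : Finset ι) (a : ι → ℝ) (h0 : ∀ i ∈ s, 0 ≤ a i)
    (h1 : ∀ i ∈ s, a i ≤ 1) : 1 - ∑ i ∈ s, a i ≤ ∏ i ∈ s, (1 - a i) := by
  induction s using Finset.induction_on with
  | empty => simp
  | insert i s hi ih =>
    rw [sum_insert hi, prod_insert hi]
    have h2 := ih (fun j hj => h0 j (mem_insert_of_mem hj)) fun j hj => h1 j (mem_insert_of_mem hj)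
    have h3 := h0 i (mem_insert_self _ _)
    have h4 := h1 i (mem_insert_self _ _)
    have h5 : 0 ≤ ∑ j ∈ s, a j := sum_nonneg fun j hj => h0 j (mem_insert_of_mem hj)
    nlinarith [mul_le_mul_of_nonneg_left h2 (sub_nonneg.2 h4), mul_nonneg h3 h5]

lemma tot_prod {ι : Type} (s : Finset ι) (q : ι → ℕ) (hq : ∀ i ∈ s, (q i).Prime)
    (hi : Set.InjOn q s) : ((∏ i ∈ s, q i).totient : ℝ) = ∏ i ∈ s, ((q i : ℝ) - 1) := by
  induction s using Finset.induction_on with
  | empty => simp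
  | insert i s his ih =>
    have hp := hq i (mem_insert_self _ _)
    have hc : (q i).Coprime (∏ j ∈ s, q j) := by
      refine Nat.Coprime.prod_right fun j hj => ?_
      refine (Nat.coprime_primes hp (hq j (mem_insert_of_mem hj))).2 fun h => his ?_
      have := hi (by simp) (by simp [hj]) h
      exact this ▸ hj
    rw [prod_insert his, prod_insert his, Nat.totient_mul hc, Nat.totient_prime hp, Nat.cast_mul,
      ih (fun j hj => hq j (mem_insert_of_mem hj)) (hi.mono (by simp)), Nat.cast_sub hp.one_le,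
      Nat.cast_one]

/-- the residue classes of the fibres through finitely many points -/
lemma classes {ι : Type} (s : Finset ι) (x : ι → Pt) (hq : ∀ i ∈ s, (x i).1.Prime)
    (hi : Set.InjOn (fun i => (x i).1) s) :
    ∃ R : Finset (ZMod (∏ i ∈ s, (x i).1) × ZMod (∏ i ∈ s, (x i).1)),
      R.card = (∏ i ∈ s, (x i).1).totient ∧
      ∀ t : ℤ × ℤ, ((t.1 : ZMod _), (t.2 : ZMod _)) ∈ R ↔ ∀ i ∈ s, OnT (x i) t := by
  have hpw : Set.Pairwise s (Function.onFun Nat.Coprime fun i => (x i).1) := by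
    intro i hi' j hj hij
    exact (Nat.coprime_primes (hq i hi') (hq j hj)).2 fun h => hij (hi hi' hj h)
  obtain ⟨τ, hτ⟩ := Nat.chineseRemainderOfFinset (fun i => (x i).2.1) (fun i => (x i).1) s
    (fun i hi' => (hq i hi').ne_zero) hpw
  set d := ∏ i ∈ s, (x i).1 with hd
  have : NeZero d := ⟨prod_ne_zero_iff.2 fun i hi' => (hq i hi').ne_zero⟩
  have hτ' : ∀ i ∈ s, ((x i).1 : ℤ) ∣ ((x i).2.1 : ℤ) - τ := fun i hi' => (hτ i hi').dvd
  have hdc : (d : ℤ) = ∏ i ∈ s, ((x i).1 : ℤ) := by rw [hd]; push_cast; rfl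
  refine ⟨univ.image fun u : (ZMod d)ˣ => ((τ : ZMod d) * u, (u : ZMod d)), ?_, fun t => ?_⟩
  · rw [card_image_of_injective, card_univ, ZMod.card_units_eq_totient]
    intro u v h
    exact Units.ext (congrArg Prod.snd h)
  · rw [mem_image]
    constructor
    · rintro ⟨u, -, hu⟩ i hi'
      have h1 : (τ : ZMod d) * u = t.1 := congrArg Prod.fst hu
      have h2 : (u : ZMod d) = t.2 := congrArg Prod.snd hu
      have h3 : IsCoprime (d : ℤ) t.2 :=
        (ZMod.coe_int_isUnit_iff_isCoprime _ _).1 (h2 ▸ u.isUnit)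
      have h4 : (d : ℤ) ∣ t.1 - τ * t.2 := by
        rw [← ZMod.intCast_zmod_eq_zero_iff_dvd]
        push_cast
        rw [← h1, ← h2, sub_self]
      have h5 : ((x i).1 : ℤ) ∣ d := hdc ▸ dvd_prod_of_mem _ hi'
      refine ⟨?_, fun h => ?_⟩
      · have := (h5.trans h4).sub ((hτ' i hi').mul_right t.2)
        have e : t.1 - τ * t.2 - (((x i).2.1 : ℤ) - τ) * t.2 = t.1 - (x i).2.1 * t.2 := by ring
        rwa [e] at this
      · have hu' := h3.isUnit_of_dvd' h5 h
        exact (Nat.prime_iff_prime_int.1 (hq i hi')).not_isUnit hu'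
    · intro h
      have h3 : IsCoprime (d : ℤ) t.2 := by
        rw [hdc]
        exact IsCoprime.prod_left fun i hi' =>
          ((Nat.prime_iff_prime_int.1 (hq i hi')).irreducible.coprime_iff_not_dvd).2 (h i hi').2
      have h4 : (d : ℤ) ∣ t.1 - τ * t.2 := by
        rw [hdc]
        refine prod_dvd_of_coprime (fun i hi' j hj hij => ?_) fun i hi' => ?_
        · exact Nat.isCoprime_iff_coprime.2 (hpw hi' hj hij)
        · have := (h i hi').1.add ((hτ' i hi').mul_right t.2)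
          have e : t.1 - (x i).2.1 * t.2 + (((x i).2.1 : ℤ) - τ) * t.2 = t.1 - τ * t.2 := by ring
          rwa [e] at this
      obtain ⟨u, hu⟩ := (ZMod.coe_int_isUnit_iff_isCoprime _ _).2 h3
      refine ⟨u, mem_univ _, Prod.ext ?_ hu⟩
      rw [← ZMod.intCast_zmod_eq_zero_iff_dvd] at h4
      push_cast at h4
      simp only [hu]
      exact (sub_eq_zero.1 h4).symm

section same

variable {X Z : Type} [Fintype X] [Fintype Z]

lemma prob_mono (σ : Side X Z) (h0 : ∀ z, 0 ≤ σ.wt z) {Y Y' : Finset X} (h : Y ⊆ Y') :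
    σ.prob Y' ≤ σ.prob Y := by
  refine sum_le_sum_of_subset_of_nonneg (fun z hz => ?_) fun z _ _ => h0 z
  simp only [mem_filter, mem_univ, true_and] at hz ⊢
  exact fun x hx => hz x (h hx)

/-- at most two points over one prime lie on a fibre -/
lemma same (σ : Side X Z) (h0 : ∀ z, 0 ≤ σ.wt z) (x x₁ : X) (S : Finset X)
    (h : ∀ x' ∈ S, ∀ z, σ.on x z → σ.on x' z → x' = x ∨ x' = x₁) (Y : Finset X)
    (W : X → Finset X) (hY : ∀ x', Y ⊆ W x') (hx : x ∈ Y) (hW : ∀ x', x' ∈ W x') (a : ℝ)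
    (ha : 0 ≤ a) : ∑ x' ∈ S, σ.prob (W x') * a ≤ 2 * (σ.prob Y * a) := by
  have hp : 0 ≤ σ.prob Y * a := mul_nonneg (sum_nonneg fun z _ => h0 z) ha
  calc ∑ x' ∈ S, σ.prob (W x') * a
      ≤ ∑ x' ∈ S, if x' ∈ ({x, x₁} : Finset X) then σ.prob Y * a else 0 := by
        refine sum_le_sum fun x' hx' => ?_
        split_ifs with hm
        · exact mul_le_mul_of_nonneg_right (prob_mono σ h0 (hY x')) ha
        · have : σ.prob (W x') = 0 := by
            refine sum_eq_zero fun z hz => absurd ?_ hm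
            simp only [mem_filter, mem_univ, true_and] at hz
            simpa using h x' hx' z (hz x (hY x' hx)) (hz x' (hW x'))
          rw [this, zero_mul]
    _ = (S.filter fun x' => x' ∈ ({x, x₁} : Finset X)).card * (σ.prob Y * a) := by
        rw [← sum_filter, sum_const, nsmul_eq_mul]
    _ ≤ 2 * (σ.prob Y * a) := by
        refine mul_le_mul_of_nonneg_right ?_ hp
        have h1 : (S.filter fun x' => x' ∈ ({x, x₁} : Finset X)).card ≤ 2 :=
          (card_le_card fun a ha => (mem_filter.1 ha).2).trans card_le_two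
        exact_mod_cast h1

end same

lemma two {p : Par} {x x' : Pt} {t : ℤ × ℤ} (hx : p.IsPt x) (hx' : p.IsPt x') (hq : x'.1 = x.1)
    (h : OnT x t) (h' : OnT x' t) : x' = x ∨ x' = inv x := by
  obtain ⟨q, τ, w⟩ := x
  obtain ⟨q', τ', w'⟩ := x'
  obtain rfl : q' = q := hq
  obtain ⟨h1, -, -, -, h5, h6, h7, h8⟩ := hx
  obtain ⟨-, -, -, -, h5', h6', h7', h8'⟩ := hx'
  simp only [OnT] at h h' h1 h5 h6 h7 h8 h5' h6' h7' h8'
  have hp := Nat.prime_iff_prime_int.1 h1
  have e1 : (q' : ℤ) ∣ ((τ : ℤ) - τ') * t.2 := by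
    have := h'.1.sub h.1
    have e : t.1 - τ' * t.2 - (t.1 - τ * t.2) = ((τ : ℤ) - τ') * t.2 := by ring
    rwa [e] at this
  have e2 : (τ : ℤ) - τ' = 0 :=
    Int.eq_zero_of_abs_lt_dvd ((hp.dvd_or_dvd e1).resolve_right h.2) (by rw [abs_lt]; omega)
  obtain rfl : τ = τ' := by omega
  have e3 : (q' : ℤ) ∣ ((w : ℤ) - w') * ((w : ℤ) + w' - q') := by
    have := (h8.sub h8').sub (Dvd.intro ((w : ℤ) - w') rfl)
    have e : (w : ℤ) ^ 2 - p.f.eval (τ : ℤ) - ((w' : ℤ) ^ 2 - p.f.eval (τ : ℤ)) -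
      q' * ((w : ℤ) - w') = ((w : ℤ) - w') * ((w : ℤ) + w' - q') := by ring
    rwa [e] at this
  rcases hp.dvd_or_dvd e3 with e4 | e4
  · have := Int.eq_zero_of_abs_lt_dvd e4 (by rw [abs_lt]; omega)
    left
    obtain rfl : w = w' := by omega
    rfl
  · have := Int.eq_zero_of_abs_lt_dvd e4 (by rw [abs_lt]; omega)
    right
    obtain rfl : w' = q' - w := by omega
    rfl

lemma cell_iff (Nc : ℕ) [NeZero Nc] (u : ℝ) (h0 : 0 ≤ u) (h1 : u < Nc) (i : Fin Nc) :
    Fin.ofNat Nc ⌊u⌋₊ = i ↔ (i.1 : ℝ) ≤ u ∧ u < i.1 + 1 := by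
  rw [Fin.ext_iff, Fin.val_ofNat, Nat.mod_eq_of_lt ((Nat.floor_lt h0).2 h1), Nat.floor_eq_iff h0]

lemma D_neg {p : Par} {τ0 : ℝ} (h : p.Tau τ0) {t : ℤ × ℤ} (hb : 0 < t.2)
    (ht : (t.1 : ℝ) / t.2 ≤ τ0 + 1) : p.D t < 0 := by
  have h1 := h.2 _ ht
  have hb' : (0 : ℝ) < t.2 := by exact_mod_cast hb
  rw [aeval_eq_sum_range' (n := 5) (by rw [p.hf.2.1]; norm_num)] at h1
  have h2 : (p.D t : ℝ) = (t.2 : ℝ) ^ 4 *
      ∑ i ∈ range 5, p.f.coeff i • ((t.1 : ℝ) / t.2) ^ i := by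
    simp only [Par.D, hev, sum_range_succ, sum_range_zero, zsmul_eq_mul]
    push_cast
    field_simp
    ring
  have h3 : (p.D t : ℝ) < 0 := by
    rw [h2]
    exact mul_neg_of_pos_of_neg (by positivity) (by linarith)
  exact_mod_cast h3

lemma large (K : ℝ) (m : ℕ) :
    ∀ᶠ y : ℝ in Filter.atTop, K * Real.log y ^ m ≤ y ^ (1 / 4 : ℝ) := by
  have h := (isLittleO_log_rpow_rpow_atTop (m : ℝ) (s := 1 / 4) (by norm_num)).const_mul_left K
  filter_upwards [h.bound one_pos, Filter.eventually_ge_atTop (0 : ℝ)] with y hy h0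
  rw [one_mul, Real.rpow_natCast, Real.norm_of_nonneg (Real.rpow_nonneg h0 _)] at hy
  exact (le_abs_self _).trans hy

end IndT

end Pool.Agent.P.MP_b8021b_nt.VE
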