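import Pool.Agent.P.MP_b8021b_nt.VE.StB

/-! Package B4, first part: level masses and the diagonal. -/

namespace Pool.Agent.P.MP_b8021b_nt.VE.PLoc

open Finset
open scoped Classical

noncomputable section

set_option linter.unusedSectionVars false

variable {P X Z : Type} [Fintype P] [Fintype X] [Fintype Z]

lemma eps_pos {b : Base P X} {ε : ℝ} (h : b.Ok ε) : 0 < ε := by
  by_contra hn
  have : ε * b.N ≤ 0 := mul_nonpos_of_nonpos_of_nonneg (not_lt.1 hn) (Nat.cast_nonneg _)
  linarith [h.Npos]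

lemma N_ge {b : Base P X} {ε : ℝ} (h : b.Ok ε) : (1 : ℝ) ≤ b.N := by
  rcases Nat.eq_zero_or_pos b.N with h0 | h0
  · have := h.Npos
    rw [h0] at this
    norm_num at this
  · exact_mod_cast h0

lemma q_pos {b : Base P X} {ε : ℝ} (h : b.Ok ε) (a : P) : 0 < b.q a := by
  by_contra hn
  have : ε * b.q a ≤ 0 := mul_nonpos_of_nonneg_of_nonpos (eps_pos h).le (not_lt.1 hn)
  linarith [h.q_ge a, N_ge h]

lemma div_le {b : Base P X} {ε : ℝ} (h : b.Ok ε) : ε / b.N ≤ ε :=
  div_le_self (eps_pos h).le (N_ge h)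

lemma sum_pr (b : Base P X) (g : P → ℝ) :
    ∑ x, g (b.pr x) = ∑ a, ((univ.filter fun x => b.pr x = a).card : ℝ) * g a := by
  rw [← Finset.sum_fiberwise univ b.pr]
  refine sum_congr rfl fun a _ => ?_
  rw [sum_congr rfl (g := fun _ => g a) fun x hx => by rw [(mem_filter.1 hx).2]]
  simp

/-- mass of a level -/
def lm (b : Base P X) (σ : Side X Z) (z : Z) (i : ℕ) : ℝ :=
  ∑ x with b.lev (b.pr x) = i, σ.m b z x

/-- expected mass of a level -/
def le (b : Base P X) (i : ℕ) : ℝ := ∑ x with b.lev (b.pr x) = i, b.w (b.pr x) / b.q (b.pr x)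

/-- the deviation of the level masses -/
def V (b : Base P X) (σ : Side X Z) (z : Z) : ℝ := ∑ i ∈ range b.N, (lm b σ z i - le b i) ^ 2

lemma V_nonneg (b : Base P X) (σ : Side X Z) (z : Z) : 0 ≤ V b σ z :=
  sum_nonneg fun _ _ => sq_nonneg _

lemma le_close {b : Base P X} {ε : ℝ} (h : b.Ok ε) {i : ℕ} (hi : i < b.N) :
    |le b i - 1| ≤ ε := by
  have e1 : le b i = ∑ a with b.lev a = i,
      b.w a * (((univ.filter fun x => b.pr x = a).card : ℝ) / b.q a) := by
    unfold le
    rw [sum_filter, sum_filter, sum_pr b fun a => if b.lev a = i then b.w a / b.q a else 0]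
    refine sum_congr rfl fun a _ => ?_
    split_ifs <;> ring
  have e2 : le b i - 1 = ∑ a with b.lev a = i,
      b.w a * (((univ.filter fun x => b.pr x = a).card : ℝ) / b.q a - 1) := by
    rw [e1, ← h.w_sum i hi, ← sum_sub_distrib]
    refine sum_congr rfl fun a _ => ?_
    rw [h.w_sum i hi]
    ring
  rw [e2]
  calc _ ≤ ∑ a with b.lev a = i, b.w a * ε := by
        refine (abs_sum_le_sum_abs _ _).trans (sum_le_sum fun a _ => ?_)
        rw [abs_mul, abs_of_nonneg (h.w_nonneg a)]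
        exact mul_le_mul_of_nonneg_left ((h.card a).trans (div_le h)) (h.w_nonneg a)
    _ = ε := by rw [← sum_mul, h.w_sum i hi, one_mul]

lemma exp_V {b : Base P X} {σ : Side X Z} {ε K : ℝ} (h : b.Ok ε) (hK : 0 ≤ K)
    (tk : ∀ (β : X → ℝ) (bb : P → ℝ), (∀ x, |β x| ≤ bb (b.pr x)) → (∀ a, 0 ≤ bb a) →
      ∑ z, σ.wt z * (∑ x, β x * ((if σ.on x z then 1 else 0) - 1 / b.q (b.pr x))) ^ 2 ≤
        K * (ε / b.N * (∑ a, bb a) ^ 2 + ∑ a, bb a ^ 2)) :
    ∑ z, σ.wt z * V b σ z ≤ 2 * K * ε := by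
  have hN := N_ge h
  have key : ∀ i ∈ range b.N, ∑ z, σ.wt z * (lm b σ z i - le b i) ^ 2 ≤ K * (2 * (ε / b.N)) := by
    intro i hi
    have hi' := mem_range.1 hi
    have h1 := tk (fun x => if b.lev (b.pr x) = i then b.w (b.pr x) else 0)
      (fun a => if b.lev a = i then b.w a else 0)
      (fun x => by
        split_ifs
        · exact (abs_of_nonneg (h.w_nonneg _)).le
        · simp)
      (fun a => by
        split_ifs
        · exact h.w_nonneg _
        · exact le_rfl)
    have e1 : ∑ a, (if b.lev a = i then b.w a else 0) = 1 := by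
      rw [← sum_filter]; exact h.w_sum i hi'
    have e2 : ∑ a, (if b.lev a = i then b.w a else 0) ^ 2 ≤ ε / b.N := by
      calc _ ≤ ∑ a, ε / b.N * (if b.lev a = i then b.w a else 0) := by
            refine sum_le_sum fun a _ => ?_
            split_ifs
            · rw [sq]; exact mul_le_mul_of_nonneg_right (h.w_le a) (h.w_nonneg a)
            · simp
        _ = ε / b.N := by rw [← mul_sum, e1, mul_one]
    rw [e1] at h1
    have e3 : ∀ z, lm b σ z i - le b i = ∑ x, (if b.lev (b.pr x) = i then b.w (b.pr x) else 0) *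
        ((if σ.on x z then 1 else 0) - 1 / b.q (b.pr x)) := by
      intro z
      unfold lm le Side.m
      rw [sum_filter, sum_filter, ← sum_sub_distrib]
      refine sum_congr rfl fun x _ => ?_
      split_ifs <;> ring
    simp only [e3]
    refine h1.trans (mul_le_mul_of_nonneg_left ?_ hK)
    linarith
  calc ∑ z, σ.wt z * V b σ z = ∑ i ∈ range b.N, ∑ z, σ.wt z * (lm b σ z i - le b i) ^ 2 := by
        unfold V
        simp only [mul_sum]
        exact sum_comm
    _ ≤ ∑ _i ∈ range b.N, K * (2 * (ε / b.N)) := sum_le_sum key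
    _ = 2 * K * ε := by
        rw [sum_const, card_range, nsmul_eq_mul]
        field_simp

lemma m_nonneg {b : Base P X} {ε : ℝ} (h : b.Ok ε) (σ : Side X Z) (z : Z) (x : X) :
    0 ≤ σ.m b z x := by
  unfold Side.m
  split_ifs
  · exact h.w_nonneg _
  · exact le_rfl

lemma H_nonneg (N u i i' : ℕ) : 0 ≤ Hh N u i i' := by
  unfold Hh
  positivity

/-- the ideal pair law on `z` -/
def mm (b : Base P X) (σ : Side X Z) (u : ℕ) (z : Z) (a a' : X) : ℝ :=
  σ.m b z a * σ.m b z a' * Hh b.N u (b.lev (b.pr a)) (b.lev (b.pr a'))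

lemma mm_nonneg {b : Base P X} {ε : ℝ} (h : b.Ok ε) (σ : Side X Z) (u : ℕ) (z : Z) (a a' : X) :
    0 ≤ mm b σ u z a a' :=
  mul_nonneg (mul_nonneg (m_nonneg h σ z a) (m_nonneg h σ z a')) (H_nonneg _ _ _ _)

lemma mm_sum {b : Base P X} {ε K : ℝ} (h : b.Ok ε) (h1 : ε ≤ 1) (σ : Side X Z) (u : ℕ)
    (hK : 0 ≤ K) (hH : ∀ i < b.N, ∀ i' < b.N, (b.N : ℝ) ^ 2 * Hh b.N u i i' ≤ K) (z : Z) :
    ∑ a, ∑ a', mm b σ u z a a' ≤ K * (2 * V b σ z + 8) := by
  have hN := N_ge h
  have hN0 : (0 : ℝ) < b.N := by linarith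
  have e1 : ∑ a, σ.m b z a = ∑ i ∈ range b.N, lm b σ z i := by
    unfold lm
    exact (sum_fiberwise_of_maps_to (fun x _ => mem_range.2 (h.lev_lt (b.pr x))) _).symm
  have e2 : (∑ a, σ.m b z a) ^ 2 ≤ b.N * (2 * V b σ z + 8 * b.N) := by
    rw [e1]
    refine sq_sum_le_card_mul_sum_sq.trans ?_
    rw [card_range]
    refine mul_le_mul_of_nonneg_left ?_ hN0.le
    calc _ ≤ ∑ i ∈ range b.N, (2 * (lm b σ z i - le b i) ^ 2 + 8) := by
          refine sum_le_sum fun i hi => ?_
          have := abs_le.1 (le_close h (mem_range.1 hi))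
          nlinarith [sq_nonneg (lm b σ z i - 2 * le b i)]
      _ = 2 * V b σ z + 8 * b.N := by
          rw [sum_add_distrib, ← mul_sum, sum_const, card_range, nsmul_eq_mul]
          unfold V
          ring
  calc ∑ a, ∑ a', mm b σ u z a a' ≤ ∑ a, ∑ a', σ.m b z a * σ.m b z a' * (K / b.N ^ 2) := by
        refine sum_le_sum fun a _ => sum_le_sum fun a' _ => ?_
        refine mul_le_mul_of_nonneg_left ?_ (mul_nonneg (m_nonneg h σ z a) (m_nonneg h σ z a'))
        rw [le_div_iff₀ (by positivity), mul_comm]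
        exact hH _ (h.lev_lt _) _ (h.lev_lt _)
    _ = (∑ a, σ.m b z a) ^ 2 * (K / b.N ^ 2) := by
        rw [sq (∑ a, σ.m b z a), sum_mul_sum, sum_mul]
        refine sum_congr rfl fun a _ => ?_
        rw [sum_mul]
    _ ≤ b.N * (2 * V b σ z + 8 * b.N) * (K / b.N ^ 2) :=
        mul_le_mul_of_nonneg_right e2 (by positivity)
    _ = K * (2 * V b σ z / b.N + 8) := by field_simp
    _ ≤ K * (2 * V b σ z + 8) := by
        refine mul_le_mul_of_nonneg_left ?_ hK
        have := div_le_self (mul_nonneg zero_le_two (V_nonneg b σ z)) hN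
        linarith

lemma prob_pair (σ : Side X Z) (a a' : X) :
    σ.prob {a, a'} = ∑ z, if σ.on a z ∧ σ.on a' z then σ.wt z else 0 := by
  unfold Side.prob
  rw [sum_filter]
  refine sum_congr rfl fun z _ => ?_
  by_cases h1 : σ.on a z <;> by_cases h2 : σ.on a' z <;> simp [h1, h2]

lemma diag {b : Base P X} {σ : Side X Z} {ε K : ℝ} (h : b.Ok ε) (h1 : ε ≤ 1) (hσ : σ.Ok b ε)
    (u : ℕ) (hK : 0 ≤ K) (hH : ∀ i < b.N, ∀ i' < b.N, (b.N : ℝ) ^ 2 * Hh b.N u i i' ≤ K) :
    ∑ z, ∑ a, ∑ a', (if b.pr a' = b.pr a then σ.wt z * mm b σ u z a a' else 0) ≤ 10 * K * ε := by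
  have hN := N_ge h
  have hN0 : (0 : ℝ) < b.N := by linarith
  have hε := eps_pos h
  have hH' : ∀ a a' : X, Hh b.N u (b.lev (b.pr a)) (b.lev (b.pr a')) ≤ K := fun a a' => by
    have := hH _ (h.lev_lt (b.pr a)) _ (h.lev_lt (b.pr a'))
    have h2 := H_nonneg b.N u (b.lev (b.pr a)) (b.lev (b.pr a'))
    have h3 : (1 : ℝ) ≤ (b.N : ℝ) ^ 2 := one_le_pow₀ hN
    nlinarith
  have e1 : ∀ a, ∑ a', ∑ z, (if b.pr a' = b.pr a then σ.wt z * mm b σ u z a a' else 0) ≤
      5 * K * (ε / b.N) * (b.w (b.pr a) / b.q (b.pr a)) := by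
    intro a
    have hq := q_pos h (b.pr a)
    have hw := h.w_nonneg (b.pr a)
    calc _ ≤ ∑ a' with b.pr a' = b.pr a, σ.prob {a, a'} * b.q (b.pr a) *
          (K * (ε / b.N) * (b.w (b.pr a) / b.q (b.pr a))) := by
          rw [sum_filter]
          refine sum_le_sum fun a' _ => ?_
          split_ifs with ha
          · rw [prob_pair, sum_mul, sum_mul]
            refine sum_le_sum fun z _ => ?_
            unfold mm Side.m
            by_cases h2 : σ.on a z
            · by_cases h3 : σ.on a' z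
              · simp only [h2, h3, and_self, if_true]
                have h4 : b.w (b.pr a) * b.w (b.pr a') *
                    Hh b.N u (b.lev (b.pr a)) (b.lev (b.pr a')) ≤ b.w (b.pr a) * (ε / b.N) * K :=
                  mul_le_mul (mul_le_mul_of_nonneg_left (h.w_le _) hw) (hH' a a')
                    (H_nonneg _ _ _ _) (by positivity)
                refine (mul_le_mul_of_nonneg_left h4 (hσ.nonneg z)).trans (le_of_eq ?_)
                field_simp
              · simp [h3]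
            · simp [h2]
          · simp
      _ ≤ 5 * (K * (ε / b.N) * (b.w (b.pr a) / b.q (b.pr a))) := by
          rw [← sum_mul]
          exact mul_le_mul_of_nonneg_right (hσ.same0 a) (by positivity)
      _ = _ := by ring
  have e2 : ∑ a, b.w (b.pr a) / b.q (b.pr a) ≤ 2 * b.N := by
    have : ∑ a, b.w (b.pr a) / b.q (b.pr a) = ∑ i ∈ range b.N, le b i := by
      unfold le
      exact (sum_fiberwise_of_maps_to (fun x _ => mem_range.2 (h.lev_lt (b.pr x))) _).symm
    rw [this]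
    calc _ ≤ ∑ _i ∈ range b.N, (2 : ℝ) := sum_le_sum fun i hi => by
          have := abs_le.1 (le_close h (mem_range.1 hi))
          linarith
      _ = 2 * b.N := by rw [sum_const, card_range, nsmul_eq_mul, mul_comm]
  calc _ = ∑ a, ∑ a', ∑ z, (if b.pr a' = b.pr a then σ.wt z * mm b σ u z a a' else 0) := by
        rw [sum_comm]
        exact sum_congr rfl fun a _ => sum_comm
    _ ≤ ∑ a, 5 * K * (ε / b.N) * (b.w (b.pr a) / b.q (b.pr a)) := sum_le_sum fun a _ => e1 a
    _ ≤ 5 * K * (ε / b.N) * (2 * b.N) := by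
        rw [← mul_sum]
        exact mul_le_mul_of_nonneg_left e2 (by positivity)
    _ = 10 * K * ε := by field_simp; ring

end

end Pool.Agent.P.MP_b8021b_nt.VE.PLoc
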