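import Pool.Agent.P.MP_b8021b_nt.VE.StN
import Pool.Agent.P.MP_b8021b_nt.VE.StB

/-! The weight on good tuples, its two-point marginal and the pair correlation sum. -/

namespace Pool.Agent.P.MP_b8021b_nt.VE.PMix

open Polynomial NumberField Finset
open scoped Classical

noncomputable section

lemma sum_cons2 {X : Type} [Fintype X] {u : ℕ} (f : (Fin (u + 2) → X) → ℝ) (a a' : X)
    (A : Finset (Fin (u + 2) → X)) (hA : ∀ x, x ∈ A ↔ x 0 = a ∧ x 1 = a') :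
    ∑ x ∈ A, f x = ∑ v : Fin u → X, f (Fin.cons a (Fin.cons a' v : Fin (u + 1) → X)) := by
  symm
  refine Finset.sum_bij' (fun v _ => Fin.cons a (Fin.cons a' v : Fin (u + 1) → X))
    (fun x _ => Fin.tail (Fin.tail x)) ?_ ?_ ?_ ?_ ?_
  · intro v _
    exact (hA _).mpr ⟨rfl, rfl⟩
  · intro x _
    exact mem_univ _
  · intro v _
    simp only [Fin.tail_cons]
  · intro x hx
    obtain ⟨h0, h1⟩ := (hA x).mp hx
    have e : (Fin.cons a' (Fin.tail (Fin.tail x)) : Fin (u + 1) → X) = Fin.tail x := by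
      rw [← h1]
      exact Fin.cons_self_tail (Fin.tail x)
    simp only [e]
    rw [← h0]
    exact Fin.cons_self_tail x
  · intro v _
    rfl

lemma sum_pi {α : Type} {u : ℕ} (s : Finset α) (g : (Fin u → α) → ℝ) :
    ∑ v ∈ Fintype.piFinset fun _ : Fin u => s, g v = ∑ v : Fin u → s, g fun j => (v j).1 := by
  symm
  refine Finset.sum_bij' (fun v _ => fun j => (v j).1)
    (fun v hv => fun j => ⟨v j, Fintype.mem_piFinset.mp hv j⟩) ?_ ?_ ?_ ?_ ?_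
  · intro v _
    exact Fintype.mem_piFinset.mpr fun j => (v j).2
  · intro v _
    exact mem_univ _
  · intro v _
    rfl
  · intro v _
    rfl
  · intro v _
    rfl

/-- the weight on good tuples -/
def mu (p : Par) (c : Cfg) (u : ℕ) (T₀ : Finset (Tset p c)) (κ : Tset p c → ℝ) (t : Tset p c)
    (s : Sset p c.S0 c.L) (x : Fin (u + 2) → Xset p c.y c.N) : ℝ :=
  if t ∈ T₀ ∧ p.Good t.1 s.1 (fun i => (x i).1) then
    wT p c t.1 * wS p c.S0 c.L s.1 * κ t * ∏ i, wt c.y c.N (x i).1.1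
  else 0

variable {p : Par} {c : Cfg} {u : ℕ} {T₀ : Finset (Tset p c)} {κ : Tset p c → ℝ}

lemma mu_good {t : Tset p c} {s : Sset p c.S0 c.L} {x : Fin (u + 2) → Xset p c.y c.N}
    (h : mu p c u T₀ κ t s x ≠ 0) : p.Good t.1 s.1 fun i => (x i).1 := by
  unfold mu at h
  by_contra hg
  exact h (if_neg fun hh => hg hh.2)

lemma good_perm {n : ℕ} {t : ℤ × ℤ} {s : p.Co} {x : Fin n → Pt} (σ : Equiv.Perm (Fin n))
    (h : p.Good t s x) : p.Good t s (x ∘ σ) := by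
  obtain ⟨h1, h2, h3⟩ := h
  refine ⟨fun i => h1 (σ i), h2.comp σ.injective, ?_⟩
  rw [h3]
  congr 1
  exact (Equiv.prod_comp σ fun i => ((x i).1 : ℤ)).symm

lemma mu_tup (hw : ∀ a : Xset p c.y c.N, 0 ≤ wt c.y c.N a.1.1) (hT : ∀ t : Tset p c, 0 ≤ wT p c t.1)
    (hS : ∀ s : Sset p c.S0 c.L, 0 ≤ wS p c.S0 c.L s.1) (hκ : ∀ t, 0 ≤ κ t) :
    Tup (base p c.y c.N) (sideT p c) (sideS p c.y c.N c.S0 c.L) u (mu p c u T₀ κ) := by
  refine ⟨fun t s x => ?_, fun t s x σ => ?_, fun t s x h => ?_⟩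
  · unfold mu
    split_ifs
    · exact mul_nonneg (mul_nonneg (mul_nonneg (hT t) (hS s)) (hκ t))
        (prod_nonneg fun i _ => hw (x i))
    · exact le_rfl
  · unfold mu
    have e : p.Good t.1 s.1 (fun i => ((x ∘ σ) i).1) ↔ p.Good t.1 s.1 fun i => (x i).1 := by
      constructor
      · intro h
        have h' := good_perm σ⁻¹ h
        have e2 : ((fun i => ((x ∘ σ) i).1) ∘ (σ⁻¹ : Equiv.Perm (Fin (u + 2)))) =
            fun i => (x i).1 := by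
          funext i
          simp
        rwa [e2] at h'
      · intro h
        exact good_perm σ h
    have e3 : ∏ i, wt c.y c.N ((x ∘ σ) i).1.1 = ∏ i, wt c.y c.N (x i).1.1 :=
      Equiv.prod_comp σ fun i => wt c.y c.N (x i).1.1
    by_cases h : t ∈ T₀ ∧ p.Good t.1 s.1 fun i => (x i).1
    · rw [if_pos h, if_pos ⟨h.1, e.mpr h.2⟩, e3]
    · rw [if_neg h, if_neg fun hh => h ⟨hh.1, e.mp hh.2⟩]
  · obtain ⟨h1, h2, -⟩ := mu_good h
    refine ⟨fun i => ⟨(h1 i).2.1, (h1 i).2.2⟩, fun i j hij => h2 ?_⟩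
    exact congrArg Subtype.val hij

lemma pt_pos (a : Xset p c.y c.N) : (0 : ℝ) < (a.1.1 : ℝ) := by
  have h := (mem_filter.mp a.2).2.1.pos
  exact_mod_cast h

lemma cons_val (a a' : Xset p c.y c.N) (v : Fin u → Xset p c.y c.N) :
    (fun i => ((Fin.cons a (Fin.cons a' v : Fin (u + 1) → Xset p c.y c.N) :
      Fin (u + 2) → Xset p c.y c.N) i).1) =
      (Fin.cons a.1 (Fin.cons a'.1 (fun j => (v j).1) : Fin (u + 1) → Pt) : Fin (u + 2) → Pt) := by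
  funext i
  refine Fin.cases rfl (fun i => ?_) i
  refine Fin.cases rfl (fun i => ?_) i
  rfl

lemma mu_marg (t : Tset p c) (s : Sset p c.S0 c.L) (a a' : Xset p c.y c.N)
    (A : Finset (Fin (u + 2) → Xset p c.y c.N)) (hA : ∀ x, x ∈ A ↔ x 0 = a ∧ x 1 = a')
    {inst : Decidable (t ∈ T₀)} (hH : Hh c.N u (lv c.y c.N a.1.1) (lv c.y c.N a'.1.1) ≠ 0) :
    ∑ x ∈ A, mu p c u T₀ κ t s x =
      if t ∈ T₀ then nu (base p c.y c.N) (sideT p c) (sideS p c.y c.N c.S0 c.L) u t s a a' *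
        (κ t / (a.1.1 * a'.1.1 * Hh c.N u (lv c.y c.N a.1.1) (lv c.y c.N a'.1.1)) *
          Wg p c u t.1 s.1 a.1 a'.1) else 0 := by
  rw [sum_cons2 _ a a' A hA]
  by_cases ht : t ∈ T₀
  swap
  · rw [if_neg ht]
    exact sum_eq_zero fun v _ => if_neg fun h => ht h.1
  rw [if_pos ht]
  have key : ∑ v : Fin u → Xset p c.y c.N,
      mu p c u T₀ κ t s (Fin.cons a (Fin.cons a' v : Fin (u + 1) → Xset p c.y c.N)) =
      wT p c t.1 * wS p c.S0 c.L s.1 * κ t * (wt c.y c.N a.1.1 * wt c.y c.N a'.1.1) *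
        Wg p c u t.1 s.1 a.1 a'.1 := by
    unfold Wg
    rw [sum_filter, sum_pi, mul_sum]
    refine sum_congr rfl fun v _ => ?_
    unfold mu
    rw [cons_val]
    by_cases hg : p.Good t.1 s.1
      (Fin.cons a.1 (Fin.cons a'.1 (fun j => (v j).1) : Fin (u + 1) → Pt) : Fin (u + 2) → Pt)
    · rw [if_pos ⟨ht, hg⟩, if_pos hg, Fin.prod_univ_succ, Fin.prod_univ_succ]
      simp only [Fin.cons_zero, Fin.cons_succ]
      ring
    · rw [if_neg fun h => hg h.2, if_neg hg, mul_zero]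
  rw [key]
  by_cases hW : Wg p c u t.1 s.1 a.1 a'.1 = 0
  · rw [hW]
    simp
  obtain ⟨v, hv, -⟩ := exists_ne_zero_of_sum_ne_zero hW
  obtain ⟨h1, h2, -⟩ := (mem_filter.mp hv).2
  have hne : (base p c.y c.N).pr a ≠ (base p c.y c.N).pr a' := by
    intro h
    have h' : a.1.1 = a'.1.1 := congrArg Subtype.val h
    have := @h2 0 1 h'
    exact absurd this (by simp)
  have hTa : (sideT p c).on a t ∧ (sideT p c).on a' t := ⟨(h1 0).2.1, (h1 1).2.1⟩
  have hSa : (sideS p c.y c.N c.S0 c.L).on a s ∧ (sideS p c.y c.N c.S0 c.L).on a' s :=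
    ⟨(h1 0).2.2, (h1 1).2.2⟩
  unfold nu Base.om Side.c2
  rw [if_pos hne, if_pos hTa, if_pos hSa]
  have ha := (pt_pos a).ne'
  have ha' := (pt_pos a').ne'
  simp only [base, sideT, sideS]
  field_simp

lemma es_eq (a a' : Xset p c.y c.N) (G : p.Co → ℝ) :
    ∑ s, (sideS p c.y c.N c.S0 c.L).c2 (base p c.y c.N) a a' s * G s.1 = Es p c a.1 a'.1 G := by
  unfold Es
  rw [sum_filter, ← sum_coe_sort (Sset p c.S0 c.L)]
  refine sum_congr rfl fun s _ => ?_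
  unfold Side.c2
  by_cases h : p.OnS a.1 s.1 ∧ p.OnS a'.1 s.1
  · rw [if_pos h, if_pos (show (sideS p c.y c.N c.S0 c.L).on a s ∧
      (sideS p c.y c.N c.S0 c.L).on a' s from h)]
    rfl
  · rw [if_neg h, if_neg (show ¬ ((sideS p c.y c.N c.S0 c.L).on a s ∧
      (sideS p c.y c.N c.S0 c.L).on a' s) from h), zero_mul]

lemma es_one (a a' : Xset p c.y c.N) (hne : a.1.1 ≠ a'.1.1) (hN : 1 ≤ c.N)
    (hS : (sideS p c.y c.N c.S0 c.L).Ok (base p c.y c.N) 1) : Es p c a.1 a'.1 (fun _ => 1) ≤ 2 := by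
  have hne' : a ≠ a' := fun h => hne (by rw [h])
  have h := hS.ind {a, a'} (card_le_two.trans (by norm_num)) (by
    intro x hx y hy hxy
    have h' : x.1.1 = y.1.1 := congrArg Subtype.val hxy
    simp only [coe_insert, coe_singleton, Set.mem_insert_iff, Set.mem_singleton_iff] at hx hy
    rcases hx with rfl | rfl <;> rcases hy with rfl | rfl
    · rfl
    · exact absurd h' hne
    · exact absurd h'.symm hne
    · rfl)
  rw [prod_pair hne'] at h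
  have e : Es p c a.1 a'.1 (fun _ => 1) = (sideS p c.y c.N c.S0 c.L).prob {a, a'} *
      ((base p c.y c.N).q ((base p c.y c.N).pr a) * (base p c.y c.N).q ((base p c.y c.N).pr a')) := by
    rw [← es_eq]
    unfold Side.prob Side.c2
    rw [sum_filter, sum_mul]
    refine sum_congr rfl fun s _ => ?_
    by_cases h : (sideS p c.y c.N c.S0 c.L).on a s ∧ (sideS p c.y c.N c.S0 c.L).on a' s
    · rw [if_pos h, if_pos, mul_one]
      intro x hx
      rcases mem_insert.mp hx with rfl | hx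
      · exact h.1
      · rw [mem_singleton.mp hx]
        exact h.2
    · rw [if_neg h, if_neg, zero_mul, zero_mul]
      intro hh
      exact h ⟨hh a (mem_insert_self _ _), hh a' (mem_insert_of_mem (mem_singleton_self _))⟩
  rw [e]
  have h1 : (1 : ℝ) / (base p c.y c.N).N ≤ 1 := by
    have : (1 : ℝ) ≤ (base p c.y c.N).N := by exact_mod_cast hN
    rw [div_le_one (by linarith)]
    exact this
  linarith [(abs_le.mp h).2]

lemma es_abs_le (x x' : Pt) (G : p.Co → ℝ) (M : ℝ)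
    (hS : ∀ s ∈ Sset p c.S0 c.L, 0 ≤ wS p c.S0 c.L s) (hG : ∀ s, |G s| ≤ M) :
    |Es p c x x' G| ≤ M * Es p c x x' fun _ => 1 := by
  unfold Es
  rw [mul_sum]
  refine (abs_sum_le_sum_abs _ _).trans (sum_le_sum fun s hs => ?_)
  have h0 : 0 ≤ wS p c.S0 c.L s * (x.1 * x'.1 : ℝ) :=
    mul_nonneg (hS s (mem_filter.mp hs).1) (by positivity)
  rw [abs_mul, abs_of_nonneg h0, mul_one, mul_comm M]
  exact mul_le_mul_of_nonneg_left (hG s) h0

/-- the weight of a quadruple -/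
def wq (p : Par) (c : Cfg) (x x' : Pt) (t t' : ℤ × ℤ) : ℝ :=
  if IsQ p c x x' t t' then
    wt c.y c.N x.1 * wt c.y c.N x'.1 * (x.1 * x'.1) * wT p c t * wT p c t' / c.N ^ 2
  else 0

lemma qs_eq (Φ : Pt → Pt → ℤ × ℤ → ℤ × ℤ → ℝ) : Qs p c Φ =
    ∑ x ∈ Xset p c.y c.N, ∑ x' ∈ Xset p c.y c.N, ∑ t ∈ Tset p c, ∑ t' ∈ Tset p c,
      wq p c x x' t t' * Φ x x' t t' := by
  unfold Qs wq
  refine sum_congr rfl fun x _ => sum_congr rfl fun x' _ => sum_congr rfl fun t _ =>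
    sum_congr rfl fun t' _ => ?_
  split_ifs
  · rfl
  · rw [zero_mul]

lemma qs_lin (Φ₁ Φ₂ Φ₃ Φ₄ : Pt → Pt → ℤ × ℤ → ℤ × ℤ → ℝ) (a₁ a₂ a₃ a₄ : ℝ) :
    Qs p c (fun x x' t t' => a₁ * Φ₁ x x' t t' + a₂ * Φ₂ x x' t t' + a₃ * Φ₃ x x' t t' +
      a₄ * Φ₄ x x' t t') = a₁ * Qs p c Φ₁ + a₂ * Qs p c Φ₂ + a₃ * Qs p c Φ₃ + a₄ * Qs p c Φ₄ := by
  simp only [qs_eq, mul_sum, ← sum_add_distrib]
  refine sum_congr rfl fun x _ => sum_congr rfl fun x' _ => sum_congr rfl fun t _ =>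
    sum_congr rfl fun t' _ => ?_
  ring

lemma pc_le (G : Tset p c → Tset p c → Xset p c.y c.N → Xset p c.y c.N → ℝ) (CH : ℝ)
    (Φ : Pt → Pt → ℤ × ℤ → ℤ × ℤ → ℝ) (hw : ∀ a : Xset p c.y c.N, 0 ≤ wt c.y c.N a.1.1)
    (hT : ∀ t : Tset p c, 0 ≤ wT p c t.1) (hN : 1 ≤ c.N) (hC : 0 ≤ CH)
    (hH : ∀ a a' : Xset p c.y c.N,
      (c.N : ℝ) ^ 2 * Hh c.N u (lv c.y c.N a.1.1) (lv c.y c.N a'.1.1) ≤ CH)
    (hT₀ : ∀ t ∈ T₀, IsCoprime t.1.1 t.1.2) (hΦ0 : ∀ x x' t t', 0 ≤ Φ x x' t t')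
    (hΦ : ∀ a a' t t', t ∈ T₀ → t' ∈ T₀ → IsQ p c a.1 a'.1 t.1 t'.1 →
      |G t t' a a'| ≤ Φ a.1 a'.1 t.1 t'.1) :
    ∑ a, ∑ a', ∑ t ∈ T₀, ∑ t' ∈ T₀, (base p c.y c.N).om u a a' *
      (sideT p c).c2 (base p c.y c.N) a a' t * (sideT p c).c2 (base p c.y c.N) a a' t' *
      |G t t' a a'| ≤ CH * Qs p c Φ := by
  have hwq : ∀ (a a' : Xset p c.y c.N) (t t' : Tset p c), 0 ≤ wq p c a.1 a'.1 t.1 t'.1 := by
    intro a a' t t'
    unfold wq
    split_ifs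
    · have := hw a
      have := hw a'
      have := hT t
      have := hT t'
      positivity
    · exact le_rfl
  rw [qs_eq, ← sum_coe_sort (Xset p c.y c.N), mul_sum]
  refine sum_le_sum fun a _ => ?_
  rw [← sum_coe_sort (Xset p c.y c.N), mul_sum]
  refine sum_le_sum fun a' _ => ?_
  rw [← sum_coe_sort (Tset p c), mul_sum]
  have h0 : ∀ t t' : Tset p c, 0 ≤ CH * (wq p c a.1 a'.1 t.1 t'.1 * Φ a.1 a'.1 t.1 t'.1) :=
    fun t t' => mul_nonneg hC (mul_nonneg (hwq a a' t t') (hΦ0 _ _ _ _))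
  refine le_trans (sum_le_sum fun t ht => ?_) (sum_le_sum_of_subset_of_nonneg (subset_univ T₀)
    fun t _ _ => ?_)
  swap
  · rw [← sum_coe_sort (Tset p c), mul_sum]
    exact sum_nonneg fun t' _ => h0 t t'
  rw [← sum_coe_sort (Tset p c), mul_sum]
  refine le_trans (sum_le_sum fun t' ht' => ?_) (sum_le_sum_of_subset_of_nonneg (subset_univ T₀)
    fun t' _ _ => h0 t t')
  unfold Base.om Side.c2
  by_cases h1 : (base p c.y c.N).pr a ≠ (base p c.y c.N).pr a'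
  swap
  · rw [if_neg h1, zero_mul, zero_mul, zero_mul]
    exact h0 t t'
  by_cases h2 : (sideT p c).on a t ∧ (sideT p c).on a' t
  swap
  · rw [if_neg h2, mul_zero, zero_mul, zero_mul]
    exact h0 t t'
  by_cases h3 : (sideT p c).on a t' ∧ (sideT p c).on a' t'
  swap
  · rw [if_neg h3, mul_zero, zero_mul]
    exact h0 t t'
  have hQ : IsQ p c a.1 a'.1 t.1 t'.1 :=
    ⟨a.2, a'.2, t.2, t'.2, fun h => h1 (Subtype.ext h), h2.1, h3.1, h2.2, h3.2, hT₀ t ht, hT₀ t' ht'⟩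
  rw [if_pos h1, if_pos h2, if_pos h3]
  have hb := hΦ a a' t t' ht ht' hQ
  have hq := hwq a a' t t'
  have ha := (pt_pos a).ne'
  have ha' := (pt_pos a').ne'
  have hN' : (c.N : ℝ) ≠ 0 := by
    have : (1 : ℝ) ≤ c.N := by exact_mod_cast hN
    linarith
  have e : wt c.y c.N a.1.1 * wt c.y c.N a'.1.1 *
      Hh c.N u (lv c.y c.N a.1.1) (lv c.y c.N a'.1.1) / ((a.1.1 : ℝ) * a'.1.1) *
      (wT p c t.1 * ((a.1.1 : ℝ) * a'.1.1)) * (wT p c t'.1 * ((a.1.1 : ℝ) * a'.1.1)) =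
      (c.N : ℝ) ^ 2 * Hh c.N u (lv c.y c.N a.1.1) (lv c.y c.N a'.1.1) *
        wq p c a.1 a'.1 t.1 t'.1 := by
    unfold wq
    rw [if_pos hQ]
    field_simp
  refine le_trans (le_of_eq (congrArg (· * |G t t' a a'|) e)) ?_
  calc (c.N : ℝ) ^ 2 * Hh c.N u (lv c.y c.N a.1.1) (lv c.y c.N a'.1.1) *
        wq p c a.1 a'.1 t.1 t'.1 * |G t t' a a'|
      ≤ CH * wq p c a.1 a'.1 t.1 t'.1 * |G t t' a a'| :=
        mul_le_mul_of_nonneg_right (mul_le_mul_of_nonneg_right (hH a a') hq) (abs_nonneg _)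
    _ ≤ CH * wq p c a.1 a'.1 t.1 t'.1 * Φ a.1 a'.1 t.1 t'.1 :=
        mul_le_mul_of_nonneg_left hb (mul_nonneg hC hq)
    _ = _ := by ring

end

end Pool.Agent.P.MP_b8021b_nt.VE.PMix
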