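import Pool.Agent.P.MP_b8021b_nt.VE.StN
import Pool.Agent.P.MP_b8021b_nt.VE.BasicP

/-! Pair correlation estimate: abstract lemmas. -/

namespace Pool.Agent.P.MP_b8021b_nt.VE.PairEst

open NumberField Finset
open scoped Classical

/-- a bound on every class gives a global bound -/
lemma class_sum {σ Q : Type*} (S : Finset σ) (cl : σ → Q) (w Φ : σ → ℝ) (T : ℝ)
    (G : σ → Finset σ) (hG : ∀ s₀ ∈ S, ∀ s, s ∈ G s₀ ↔ s ∈ S ∧ cl s = cl s₀)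
    (h : ∀ s₀ ∈ S, |∑ s ∈ G s₀, w s * Φ s| ≤ T * ∑ s ∈ G s₀, w s) :
    |∑ s ∈ S, w s * Φ s| ≤ T * ∑ s ∈ S, w s := by
  have hm : ∀ s ∈ S, cl s ∈ S.image cl := fun s hs => mem_image_of_mem _ hs
  rw [← sum_fiberwise_of_maps_to hm, ← sum_fiberwise_of_maps_to hm w, mul_sum]
  refine (abs_sum_le_sum_abs _ _).trans (sum_le_sum fun q hq => ?_)
  obtain ⟨s₀, hs₀, rfl⟩ := mem_image.mp hq
  have e : S.filter (fun s => cl s = cl s₀) = G s₀ := by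
    ext s
    rw [mem_filter, hG s₀ hs₀]
  rw [e]
  exact h s₀ hs₀

/-- the sum over a class as a double sum over the two cosets -/
lemma class_eq {σ A A' : Type*} (S : Finset σ) (w : σ → ℝ) (a : σ → A) (a' : σ → A')
    (R : σ → Prop) {_ : DecidablePred R} (f : A → ℝ) (g : A' → ℝ) (s₁ : Finset A) (s₂ : Finset A')
    {_ : ∀ α α', DecidablePred fun s => a s = α ∧ a' s = α'}
    (h1 : ∀ s ∈ S, a s ∈ s₁ → a' s ∈ s₂ → R s)
    (h2 : ∀ s ∈ S, R s → a s ∉ s₁ → f (a s) = 0) (h3 : ∀ s ∈ S, R s → a' s ∉ s₂ → g (a' s) = 0) :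
    ∑ s ∈ S with R s, w s * (f (a s) * g (a' s)) =
      ∑ α' ∈ s₂, g α' * ∑ α ∈ s₁, f α * ∑ s ∈ S with a s = α ∧ a' s = α', w s := by
  simp only [mul_sum, sum_filter]
  have e : ∀ α' ∈ s₂, ∑ α ∈ s₁, ∑ s ∈ S, g α' * (f α * if a s = α ∧ a' s = α' then w s else 0) =
      ∑ s ∈ S, ∑ α ∈ s₁, g α' * (f α * if a s = α ∧ a' s = α' then w s else 0) :=
    fun _ _ => sum_comm
  rw [sum_congr rfl e, sum_comm]
  refine sum_congr rfl fun s hs => ?_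
  have e2 : ∑ α' ∈ s₂, ∑ α ∈ s₁, g α' * (f α * if a s = α ∧ a' s = α' then w s else 0) =
      if a s ∈ s₁ ∧ a' s ∈ s₂ then w s * (f (a s) * g (a' s)) else 0 := by
    by_cases hh : a s ∈ s₁ ∧ a' s ∈ s₂
    · rw [if_pos hh, sum_eq_single (a' s), sum_eq_single (a s)]
      · rw [if_pos ⟨rfl, rfl⟩]; ring
      · intro b _ hb
        rw [if_neg fun h => hb h.1.symm, mul_zero, mul_zero]
      · exact fun h => absurd hh.1 h
      · intro b _ hb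
        exact sum_eq_zero fun _ _ => by rw [if_neg fun h => hb h.2.symm, mul_zero, mul_zero]
      · exact fun h => absurd hh.2 h
    · rw [if_neg hh]
      refine sum_eq_zero fun α' h' => sum_eq_zero fun α h => ?_
      have : ¬ (a s = α ∧ a' s = α') := fun h'' => hh ⟨h''.1 ▸ h, h''.2 ▸ h'⟩
      rw [if_neg this, mul_zero, mul_zero]
  rw [e2]
  by_cases hR : R s
  · rw [if_pos hR]
    by_cases hh : a s ∈ s₁ ∧ a' s ∈ s₂
    · rw [if_pos hh]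
    · rw [if_neg hh]
      rcases not_and_or.mp hh with h | h
      · rw [h2 s hs hR h, zero_mul, mul_zero]
      · rw [h3 s hs hR h, mul_zero, mul_zero]
  · rw [if_neg hR, if_neg fun hh => hR (h1 s hs hh.1 hh.2)]

/-- the transfer in the first variable -/
lemma key {σ A A' : Type*} [CommRing A] [CommRing A'] (S : Finset σ) (w : σ → ℝ) (a : σ → A)
    (a' : σ → A') (𝔟 : Ideal A) (𝔟' : Ideal A') (P : σ → Prop) {iP : DecidablePred P} (f : A → ℝ)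
    (g : A' → ℝ) (Lp : A → (A → ℝ) → ℝ → Prop) (c₀ Tf Tg : ℝ)
    {_ : ∀ α α', DecidablePred fun s => a s = α ∧ a' s = α'}
    {_ : ∀ s₀, DecidablePred fun s => a s - a s₀ ∈ 𝔟 ∧ a' s - a' s₀ ∈ 𝔟'}
    (hc : 0 ≤ c₀) (hTf : 0 ≤ Tf) (hw : ∀ s, 0 ≤ w s)
    (hP : ∀ s s₀, P s₀ → a s - a s₀ ∈ 𝔟 → P s)
    (hom : ∀ s₀ α', α' - a' s₀ ∈ 𝔟' →
      Lp (a s₀) (fun α => ∑ s ∈ S with a s = α ∧ a' s = α', w s)
        (c₀ * ∑ s ∈ S with a s - a s₀ ∈ 𝔟 ∧ a' s - a' s₀ ∈ 𝔟', w s))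
    (hf : ∀ α₀, ∃ s₁ : Finset A, (∀ α ∈ s₁, α - α₀ ∈ 𝔟) ∧ (∀ α, α - α₀ ∈ 𝔟 → α ∉ s₁ → f α = 0) ∧
      ∀ ω Ω, 0 ≤ Ω → Lp α₀ ω Ω → |∑ α ∈ s₁, f α * ω α| ≤ Ω * Tf)
    (hg : ∀ α₀, ∃ s₂ : Finset A', (∀ α ∈ s₂, α - α₀ ∈ 𝔟') ∧
      (∀ s ∈ S, a' s - α₀ ∈ 𝔟' → a' s ∉ s₂ → g (a' s) = 0) ∧ ∑ α ∈ s₂, |g α| ≤ Tg) :
    |∑ s ∈ S with P s, w s * (f (a s) * g (a' s))| ≤ c₀ * Tf * Tg * ∑ s ∈ S with P s, w s := by
  refine class_sum _ (fun s => (Ideal.Quotient.mk 𝔟 (a s), Ideal.Quotient.mk 𝔟' (a' s))) w _ _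
    (fun s₀ => S.filter fun s => a s - a s₀ ∈ 𝔟 ∧ a' s - a' s₀ ∈ 𝔟') ?_ ?_
  · intro s₀ hs₀ s
    simp only [mem_filter, Prod.mk.injEq, Ideal.Quotient.eq]
    exact ⟨fun h => ⟨⟨h.1, hP s s₀ (mem_filter.mp hs₀).2 h.2.1⟩, h.2⟩, fun h => ⟨h.1.1, h.2⟩⟩
  intro s₀ _
  obtain ⟨s₁, h1, h2, h3⟩ := hf (a s₀)
  obtain ⟨s₂, h4, h5, h6⟩ := hg (a' s₀)
  rw [class_eq S w a a' _ f g s₁ s₂ (fun s _ h h' => ⟨h1 _ h, h4 _ h'⟩)
    (fun s _ h h' => h2 _ h.1 h') (fun s hs h h' => h5 s hs h.2 h')]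
  set m := ∑ s ∈ S with a s - a s₀ ∈ 𝔟 ∧ a' s - a' s₀ ∈ 𝔟', w s with hm
  have hm0 : 0 ≤ m := sum_nonneg fun s _ => hw s
  have h0 : 0 ≤ c₀ * m * Tf := by positivity
  calc _ ≤ ∑ α' ∈ s₂, |g α'| * (c₀ * m * Tf) := by
        refine (abs_sum_le_sum_abs _ _).trans (sum_le_sum fun α' h' => ?_)
        rw [abs_mul]
        exact mul_le_mul_of_nonneg_left (h3 _ _ (by positivity) (hom s₀ α' (h4 _ h'))) (abs_nonneg _)
    _ ≤ Tg * (c₀ * m * Tf) := by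
        rw [← sum_mul]
        exact mul_le_mul_of_nonneg_right h6 h0
    _ = _ := by ring

/-! ### conditional expectations -/

section Es

variable (p : Par) (c : Cfg) (x x' : Pt)

lemma Es_eq (Φ : p.Co → ℝ) : Es p c x x' Φ = (x.1 * x'.1) *
    ∑ s ∈ Sset p c.S0 c.L with p.OnS x s ∧ p.OnS x' s, wS p c.S0 c.L s * Φ s := by
  rw [Es, mul_sum]
  exact sum_congr rfl fun _ _ => by ring

lemma Es_add (Φ Ψ : p.Co → ℝ) :
    Es p c x x' (fun s => Φ s + Ψ s) = Es p c x x' Φ + Es p c x x' Ψ := by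
  simp only [Es, mul_add, sum_add_distrib]

lemma Es_sub (Φ Ψ : p.Co → ℝ) :
    Es p c x x' (fun s => Φ s - Ψ s) = Es p c x x' Φ - Es p c x x' Ψ := by
  simp only [Es, mul_sub, sum_sub_distrib]

lemma Es_mul (a : ℝ) (Φ : p.Co → ℝ) : Es p c x x' (fun s => a * Φ s) = a * Es p c x x' Φ := by
  rw [Es, Es, mul_sum]
  exact sum_congr rfl fun _ _ => by ring

lemma abs_Es_le {Φ Ψ : p.Co → ℝ} (h : ∀ s ∈ Sset p c.S0 c.L, |Φ s| ≤ Ψ s) :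
    |Es p c x x' Φ| ≤ Es p c x x' Ψ := by
  refine (abs_sum_le_sum_abs _ _).trans (sum_le_sum fun s hs => ?_)
  have h0 : 0 ≤ wS p c.S0 c.L s * (x.1 * x'.1) := mul_nonneg (wS_nonneg _ _ _ _) (by positivity)
  rw [abs_mul, abs_of_nonneg h0]
  exact mul_le_mul_of_nonneg_left (h s (mem_filter.mp hs).1) h0

end Es

/-! ### symmetry -/

lemma nn_symm (p : Par) (x x' : Pt) (t t' : ℤ × ℤ) : nn p x x' t' t = nn p x x' t t' := by
  unfold nn dl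
  rw [← Int.natAbs_neg]
  congr 1
  ring

lemma isQ_symm {p : Par} {c : Cfg} {x x' : Pt} {t t' : ℤ × ℤ} (h : IsQ p c x x' t t') :
    IsQ p c x x' t' t :=
  ⟨h.hx, h.hx', h.ht', h.ht, h.ne, h.o12, h.o11, h.o22, h.o21, h.pr', h.pr⟩

/-! ### ideals -/

lemma sup_congr {A : Type*} [CommRing A] {I : Ideal A} {α β : A} (h : β - α ∈ I) :
    Ideal.span {β} ⊔ I ≤ Ideal.span {α} ⊔ I := by
  refine sup_le ((Ideal.span_singleton_le_iff_mem _).mpr ?_) le_sup_right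
  have := Ideal.add_mem _ (Ideal.mem_sup_left (T := I) (Ideal.mem_span_singleton_self α))
    (Ideal.mem_sup_right h)
  rwa [add_sub_cancel] at this

lemma cop_congr {A : Type*} [CommRing A] [IsDedekindDomain A] {𝔞 𝔟 𝔫 : Ideal A} (h0 : 𝔞 ≠ ⊥)
    {α β : A} (h1 : Ideal.span {α} = 𝔞 * 𝔟) (h2 : IsCoprime 𝔟 𝔫) (hβ : β - α ∈ 𝔫 * 𝔞) :
    ∃ 𝔠, Ideal.span {β} = 𝔞 * 𝔠 ∧ IsCoprime 𝔠 𝔫 := by
  have hα : α ∈ 𝔞 := by
    have := Ideal.mem_span_singleton_self α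
    rw [h1] at this
    exact Ideal.mul_le_left this
  have hβ' : β ∈ 𝔞 := by simpa using 𝔞.add_mem (Ideal.mul_le_right hβ) hα
  obtain ⟨𝔠, h3⟩ : 𝔞 ∣ Ideal.span {β} :=
    Ideal.dvd_iff_le.mpr ((Ideal.span_singleton_le_iff_mem _).mpr hβ')
  refine ⟨𝔠, h3, ?_⟩
  rw [Ideal.isCoprime_iff_sup_eq] at h2 ⊢
  apply mul_left_cancel₀ h0
  rw [← h2, Ideal.mul_sup, Ideal.mul_sup, ← h1, ← h3, mul_comm 𝔞]
  exact le_antisymm (sup_congr hβ) (sup_congr (by simpa using neg_mem hβ))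

variable {L : Type} [Field L] [NumberField L]

lemma unitC_congr {n : ℕ} {𝔞 : Ideal (𝓞 L)} (h0 : 𝔞 ≠ ⊥) {α β : 𝓞 L} (h : UnitC n 𝔞 α)
    (hβ : β - α ∈ Ideal.span {(n : 𝓞 L)} * 𝔞) : UnitC n 𝔞 β := by
  obtain ⟨𝔟, h1, h2⟩ := h
  exact cop_congr h0 h1 h2 hβ

lemma absNorm_n (K : IQ L) (n : ℕ) (𝔞 : Ideal (𝓞 L)) :
    Ideal.absNorm (Ideal.span {(n : 𝓞 L)} * 𝔞) = n ^ 2 * Ideal.absNorm 𝔞 := by
  rw [map_mul, Ideal.absNorm_span_natCast, RingOfIntegers.rank, K.deg]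

lemma wt_nonneg (y : ℝ) (N q : ℕ) : 0 ≤ wt y N q :=
  div_nonneg (Real.log_natCast_nonneg _) (sum_nonneg fun _ _ => Real.log_natCast_nonneg _)

lemma Wan_nonneg (y : ℝ) (N u : ℕ) (𝔞 : Ideal (𝓞 L)) (α : 𝓞 L) : 0 ≤ Wan y N u 𝔞 α :=
  sum_nonneg fun _ _ => mul_nonneg (prod_nonneg fun _ _ => wt_nonneg _ _ _) (Nat.cast_nonneg _)

lemma ir_nonneg (L : Type) [Field L] [NumberField L] (n : ℕ) : 0 ≤ ir L n := by
  unfold ir; positivity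

lemma cov_nonneg (L : Type) [Field L] [NumberField L] : 0 ≤ cov L := by
  unfold cov; positivity

lemma Lam_nonneg (σ : L →+* ℂ) {y : ℝ} (hy : 0 ≤ y) (N u n : ℕ) (𝔞 : Ideal (𝓞 L)) (α : 𝓞 L) :
    0 ≤ Lam σ y N u n 𝔞 α := by
  refine sum_nonneg fun m _ => mul_nonneg ?_ ?_
  · have := ir_nonneg L n
    have := cov_nonneg L
    have := Real.pi_pos
    positivity
  · unfold sh
    split_ifs
    exacts [le_rfl, tent_nonneg _]

/-- the product of the two local densities -/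
lemma cc_mul_le (hPhi : S_Phi) {L' : Type} [Field L'] [NumberField L'] (K : IQ L) (K' : IQ L')
    {r z n : ℕ} (hz : 4 ≤ z) (hn : 1 ≤ n) (hd : M0 r z * r ∣ n) :
    1 ≤ cc L (M0 r z * r) n ∧ 1 ≤ cc L' (M0 r z * r) n ∧
      cc L (M0 r z * r) n * cc L' (M0 r z * r) n ≤ Pi z n := by
  obtain ⟨-, -, h1, h2⟩ := hPhi L K.deg _ n hn hd
  obtain ⟨-, -, h3, h4⟩ := hPhi L' K'.deg _ n hn hd
  refine ⟨h1, h3, (mul_le_mul h2 h4 (by linarith) (by linarith)).trans ?_⟩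
  have hsub : n.primeFactors.filter (fun l => ¬ l ∣ M0 r z * r) ⊆
      n.primeFactors.filter fun l => z < l := by
    intro l hl
    obtain ⟨h5, h6⟩ := mem_filter.mp hl
    refine mem_filter.mpr ⟨h5, ?_⟩
    by_contra h7
    by_cases h8 : l = r
    · exact h6 (h8 ▸ dvd_mul_left _ _)
    · exact h6 ((dvd_M0 (Nat.prime_of_mem_primeFactors h5) (by omega) h8).mul_right _)
  rw [← prod_mul_distrib]
  refine le_trans (prod_le_prod (g := fun l : ℕ => 1 + 10 / (l : ℝ)) ?_ ?_) ?_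
  · exact fun l _ => mul_self_nonneg _
  · intro l hl
    have h5 : (5 : ℝ) ≤ l := by
      have := (mem_filter.mp (hsub hl)).2
      exact_mod_cast (by omega : 5 ≤ l)
    have h6 : 0 < 1 / (l : ℝ) := by positivity
    have h7 : 1 / (l : ℝ) ≤ 1 / 5 := one_div_le_one_div_of_le (by norm_num) h5
    rw [show 10 / (l : ℝ) = 10 * (1 / l) by ring]
    generalize 1 / (l : ℝ) = v at h6 h7
    have h8 : 0 < 1 - v := by linarith
    rw [← pow_add, inv_pow, inv_le_iff_one_le_mul₀ (by positivity)]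
    have h9 : (1 - 2 * v) ≤ (1 - v) ^ 2 := by nlinarith
    have h10 : (1 - 2 * v) ^ 2 ≤ (1 - v) ^ (2 + 2) := by
      rw [pow_add, ← sq]
      exact pow_le_pow_left₀ (by linarith) h9 2
    have h11 : 1 ≤ (1 + 10 * v) * (1 - 2 * v) ^ 2 := by
      nlinarith [mul_pos h6 h6, mul_nonneg h6.le (sub_nonneg.mpr h7), mul_pos h6 (mul_pos h6 h6)]
    nlinarith
  · exact prod_le_prod_of_subset_of_one_le hsub (fun l _ => by positivity)
      fun l _ _ => le_add_of_nonneg_right (by positivity)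

end Pool.Agent.P.MP_b8021b_nt.VE.PairEst
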