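import Pool.Agent.P.MP_b8021b_nt.VE.PPairEst1

/-! Pair correlation estimate: the two sides. -/

namespace Pool.Agent.P.MP_b8021b_nt.VE.PairEst

open NumberField Finset
open scoped Classical

/-- what is known on one side -/
structure Sd {σ A : Type*} [CommRing A] (S : Finset σ) (P : σ → Prop) (a : σ → A) (𝔟 : Ideal A)
    (V Lm : A → ℝ) (Lp : A → (A → ℝ) → ℝ → Prop) (vol G E : ℝ) : Prop where
  hvol : 0 < vol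
  hG : 0 ≤ G
  hP : ∀ s s₀, P s₀ → a s - a s₀ ∈ 𝔟 → P s
  f : ∀ α₀, ∃ s₁ : Finset A, (∀ α ∈ s₁, α - α₀ ∈ 𝔟) ∧
    (∀ α, α - α₀ ∈ 𝔟 → α ∉ s₁ → V α = 0 ∧ Lm α = 0) ∧ ∑ α ∈ s₁, |V α| ≤ G / vol ∧
    ∑ α ∈ s₁, |Lm α| ≤ G / vol ∧
    ∀ ω Ω, 0 ≤ Ω → Lp α₀ ω Ω → |∑ α ∈ s₁, (V α - Lm α) * ω α| ≤ Ω * (G / vol * E)
  one : ∀ α₀, ∃ s₂ : Finset A, (∀ α ∈ s₂, α - α₀ ∈ 𝔟) ∧
    (∀ s ∈ S, a s - α₀ ∈ 𝔟 → a s ∈ s₂) ∧ (s₂.card : ℝ) ≤ G / vol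

section pair

variable {σ A A' : Type*} [CommRing A] [CommRing A'] {S : Finset σ} {w : σ → ℝ} {a : σ → A}
  {a' : σ → A'} {𝔟 : Ideal A} {𝔟' : Ideal A'} {P : σ → Prop} {iP : DecidablePred P}
  {V Lm : A → ℝ} {V' Lm' : A' → ℝ} {Lp : A → (A → ℝ) → ℝ → Prop}
  {Lp' : A' → (A' → ℝ) → ℝ → Prop} {vol vol' G G' E C : ℝ}
  {_ : ∀ α α', DecidablePred fun s => a s = α ∧ a' s = α'}
  {_ : ∀ s₀, DecidablePred fun s => a s - a s₀ ∈ 𝔟 ∧ a' s - a' s₀ ∈ 𝔟'}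

lemma half (h : Sd S P a 𝔟 V Lm Lp vol G E) (h' : Sd S P a' 𝔟' V' Lm' Lp' vol' G' E)
    (hC : 0 ≤ C) (hE : 0 ≤ E) (hw : ∀ s, 0 ≤ w s)
    (hom : ∀ s₀ α', α' - a' s₀ ∈ 𝔟' →
      Lp (a s₀) (fun α => ∑ s ∈ S with a s = α ∧ a' s = α', w s)
        (C * vol * vol' * ∑ s ∈ S with a s - a s₀ ∈ 𝔟 ∧ a' s - a' s₀ ∈ 𝔟', w s))
    (g : A' → ℝ) (hg : g = V' ∨ g = Lm') :
    |∑ s ∈ S with P s, w s * ((V (a s) - Lm (a s)) * (g (a' s) - 1))| ≤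
      2 * (C * G * G' * E) * ∑ s ∈ S with P s, w s := by
  have h1 := h.hvol
  have h2 := h'.hvol
  have h3 := h.hG
  have h4 := h'.hG
  have hf : ∀ α₀, ∃ s₁ : Finset A, (∀ α ∈ s₁, α - α₀ ∈ 𝔟) ∧
      (∀ α, α - α₀ ∈ 𝔟 → α ∉ s₁ → V α - Lm α = 0) ∧
      ∀ ω Ω, 0 ≤ Ω → Lp α₀ ω Ω → |∑ α ∈ s₁, (V α - Lm α) * ω α| ≤ Ω * (G / vol * E) := by
    intro α₀
    obtain ⟨s₁, a1, a2, -, -, a3⟩ := h.f α₀
    exact ⟨s₁, a1, fun α b1 b2 => by rw [(a2 α b1 b2).1, (a2 α b1 b2).2, sub_zero], a3⟩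
  have k1 := key (iP := iP) S w a a' 𝔟 𝔟' P (fun α => V α - Lm α) g Lp (C * vol * vol') (G / vol * E)
    (G' / vol') (by positivity) (by positivity) hw h.hP hom hf (by
      intro α₀
      obtain ⟨s₁, a1, a2, a3, a4, -⟩ := h'.f α₀
      rcases hg with rfl | rfl
      · exact ⟨s₁, a1, fun s _ b1 b2 => (a2 _ b1 b2).1, a3⟩
      · exact ⟨s₁, a1, fun s _ b1 b2 => (a2 _ b1 b2).2, a4⟩)
  have k2 := key (iP := iP) S w a a' 𝔟 𝔟' P (fun α => V α - Lm α) (fun _ => 1) Lp (C * vol * vol')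
    (G / vol * E) (G' / vol') (by positivity) (by positivity) hw h.hP hom hf (by
      intro α₀
      obtain ⟨s₂, a1, a2, a3⟩ := h'.one α₀
      exact ⟨s₂, a1, fun s hs b1 b2 => absurd (a2 s hs b1) b2, by simpa using a3⟩)
  have e : C * vol * vol' * (G / vol * E) * (G' / vol') = C * G * G' * E := by field_simp
  rw [e] at k1 k2
  have e2 : ∑ s ∈ S with P s, w s * ((V (a s) - Lm (a s)) * (g (a' s) - 1)) =
      ∑ s ∈ S with P s, w s * ((V (a s) - Lm (a s)) * g (a' s)) -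
        ∑ s ∈ S with P s, w s * ((V (a s) - Lm (a s)) * 1) := by
    rw [← sum_sub_distrib]
    exact sum_congr rfl fun _ _ => by ring
  rw [e2]
  refine (abs_sub _ _).trans ?_
  linarith

lemma pair {_ : ∀ α' α, DecidablePred fun s => a' s = α' ∧ a s = α}
    {_ : ∀ s₀, DecidablePred fun s => a' s - a' s₀ ∈ 𝔟' ∧ a s - a s₀ ∈ 𝔟}
    (h : Sd S P a 𝔟 V Lm Lp vol G E) (h' : Sd S P a' 𝔟' V' Lm' Lp' vol' G' E)
    (hC : 0 ≤ C) (hE : 0 ≤ E) (hw : ∀ s, 0 ≤ w s)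
    (hom : ∀ s₀ α', α' - a' s₀ ∈ 𝔟' →
      Lp (a s₀) (fun α => ∑ s ∈ S with a s = α ∧ a' s = α', w s)
        (C * vol * vol' * ∑ s ∈ S with a s - a s₀ ∈ 𝔟 ∧ a' s - a' s₀ ∈ 𝔟', w s))
    (hom' : ∀ s₀ α, α - a s₀ ∈ 𝔟 →
      Lp' (a' s₀) (fun α' => ∑ s ∈ S with a' s = α' ∧ a s = α, w s)
        (C * vol' * vol * ∑ s ∈ S with a' s - a' s₀ ∈ 𝔟' ∧ a s - a s₀ ∈ 𝔟, w s)) :
    |∑ s ∈ S with P s, w s * ((V (a s) - 1) * (V' (a' s) - 1) -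
      (Lm (a s) - 1) * (Lm' (a' s) - 1))| ≤ 4 * (C * G * G' * E) * ∑ s ∈ S with P s, w s := by
  have k1 := half (iP := iP) h h' hC hE hw hom V' (Or.inl rfl)
  have k2 := half (iP := iP) h' h hC hE hw hom' Lm (Or.inr rfl)
  have e : ∑ s ∈ S with P s, w s * ((V (a s) - 1) * (V' (a' s) - 1) -
      (Lm (a s) - 1) * (Lm' (a' s) - 1)) =
      ∑ s ∈ S with P s, w s * ((V (a s) - Lm (a s)) * (V' (a' s) - 1)) +
        ∑ s ∈ S with P s, w s * ((V' (a' s) - Lm' (a' s)) * (Lm (a s) - 1)) := by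
    rw [← sum_add_distrib]
    exact sum_congr rfl fun _ _ => by ring
  rw [e]
  refine (abs_add_le _ _).trans ?_
  rw [show C * G' * G * E = C * G * G' * E by ring] at k2
  linarith

end pair

variable {L : Type} [Field L] [NumberField L]

/-- a function restricted to the unit cosets -/
noncomputable def Rs (n : ℕ) (𝔞 : Ideal (𝓞 L)) (κ : ℝ) (f : 𝓞 L → ℝ) (α : 𝓞 L) : ℝ :=
  if UnitC n 𝔞 α then κ * f α else 0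

/-- bounded and Lipschitz on a coset -/
def Lip (K : IQ L) (𝔟 : Ideal (𝓞 L)) (H δ : ℝ) (α₀ : 𝓞 L) (ω : 𝓞 L → ℝ) (Ω : ℝ) : Prop :=
  (∀ α, α - α₀ ∈ 𝔟 → |ω α| ≤ Ω) ∧ ∀ α α', α - α₀ ∈ 𝔟 → α' - α₀ ∈ 𝔟 →
    |ω α - ω α'| ≤ Ω * (H * ‖K.σ α - K.σ α'‖ + δ)

lemma side_f {n : ℕ} {𝔞 : Ideal (𝓞 L)} (h0 : 𝔞 ≠ ⊥) {κ M E : ℝ} {W Λ : 𝓞 L → ℝ}
    {Lp : 𝓞 L → (𝓞 L → ℝ) → ℝ → Prop} (hκ : 0 ≤ κ) (hM : 0 ≤ M) (hE : 0 ≤ E) (hW : ∀ α, 0 ≤ W α)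
    (hΛ : ∀ α, 0 ≤ Λ α) (hL : ∀ α₀, Lp α₀ (fun _ => 0) 0)
    (hcos : ∀ α₀ ω Ω, UnitC n 𝔞 α₀ → 0 ≤ Ω → Lp α₀ ω Ω → ∃ s : Finset (𝓞 L),
      (∀ α ∈ s, α - α₀ ∈ Ideal.span {(n : 𝓞 L)} * 𝔞) ∧
      (∀ α, α - α₀ ∈ Ideal.span {(n : 𝓞 L)} * 𝔞 → α ∉ s → W α = 0 ∧ Λ α = 0) ∧
      κ * |∑ α ∈ s, (W α - Λ α) * ω α| ≤ Ω * (M * E) ∧ κ * ∑ α ∈ s, W α ≤ M ∧
      κ * ∑ α ∈ s, Λ α ≤ M) (α₀ : 𝓞 L) :
    ∃ s₁ : Finset (𝓞 L), (∀ α ∈ s₁, α - α₀ ∈ Ideal.span {(n : 𝓞 L)} * 𝔞) ∧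
      (∀ α, α - α₀ ∈ Ideal.span {(n : 𝓞 L)} * 𝔞 → α ∉ s₁ →
        Rs n 𝔞 κ W α = 0 ∧ Rs n 𝔞 κ Λ α = 0) ∧ ∑ α ∈ s₁, |Rs n 𝔞 κ W α| ≤ M ∧
      ∑ α ∈ s₁, |Rs n 𝔞 κ Λ α| ≤ M ∧ ∀ ω Ω, 0 ≤ Ω → Lp α₀ ω Ω →
        |∑ α ∈ s₁, (Rs n 𝔞 κ W α - Rs n 𝔞 κ Λ α) * ω α| ≤ Ω * (M * E) := by
  by_cases hU : UnitC n 𝔞 α₀
  · obtain ⟨s, h1, h2, -, h3, h4⟩ := hcos α₀ _ 0 hU le_rfl (hL α₀)
    have hR : ∀ f, ∀ α ∈ s, Rs n 𝔞 κ f α = κ * f α := fun f α h =>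
      if_pos (unitC_congr h0 hU (h1 α h))
    refine ⟨s, h1, fun α b1 b2 => ?_, ?_, ?_, fun ω Ω hΩ hl => ?_⟩
    · simp [Rs, (h2 α b1 b2).1, (h2 α b1 b2).2]
    · rw [sum_congr rfl fun α h => by rw [hR W α h, abs_of_nonneg (mul_nonneg hκ (hW α))]]
      rwa [← mul_sum]
    · rw [sum_congr rfl fun α h => by rw [hR Λ α h, abs_of_nonneg (mul_nonneg hκ (hΛ α))]]
      rwa [← mul_sum]
    · obtain ⟨s', b1, b2, b3, -, -⟩ := hcos α₀ ω Ω hU hΩ hl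
      have e : ∑ α ∈ s, (W α - Λ α) * ω α = ∑ α ∈ s', (W α - Λ α) * ω α := by
        refine (sum_subset (subset_union_left (s₂ := s')) ?_).trans
          (sum_subset subset_union_right ?_).symm
        · intro α c1 c2
          have := h2 α (b1 α ((mem_union.mp c1).resolve_left c2)) c2
          rw [this.1, this.2, sub_zero, zero_mul]
        · intro α c1 c2
          have := b2 α (h1 α ((mem_union.mp c1).resolve_right c2)) c2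
          rw [this.1, this.2, sub_zero, zero_mul]
      rw [sum_congr rfl fun α h => by rw [hR W α h, hR Λ α h, ← mul_sub, mul_assoc], ← mul_sum,
        abs_mul, abs_of_nonneg hκ, e]
      exact b3
  · refine ⟨∅, by simp, fun α b1 _ => ?_, by simpa using hM, by simpa using hM,
      fun ω Ω hΩ _ => by rw [sum_empty, abs_zero]; positivity⟩
    have : ¬ UnitC n 𝔞 α := fun h => hU (unitC_congr h0 h (by simpa using neg_mem b1))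
    exact ⟨if_neg this, if_neg this⟩

lemma lip_zero (K : IQ L) (𝔟 : Ideal (𝓞 L)) (H δ : ℝ) (α₀ : 𝓞 L) :
    Lip K 𝔟 H δ α₀ (fun _ => 0) 0 := ⟨fun _ _ => by simp, fun _ _ _ _ => by simp⟩

/-! ### pointwise bounds -/

lemma ptw_bad {W W' V V' M : ℝ} (hM : 1 ≤ M) (h1 : 0 ≤ W) (h2 : W ≤ M) (h3 : 0 ≤ W') (h4 : W' ≤ M)
    (h5 : 0 ≤ V) (h6 : V ≤ M) (h7 : 0 ≤ V') (h8 : V' ≤ M) {b b' : ℝ} (hb : 0 ≤ b) (hb' : 0 ≤ b')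
    (e : W ≠ V → 1 ≤ b) (e' : W' ≠ V' → 1 ≤ b') :
    |(W - 1) * (W' - 1) - (V - 1) * (V' - 1)| ≤ 2 * M ^ 2 * (b + b') := by
  by_cases h : W = V ∧ W' = V'
  · rw [h.1, h.2, sub_self, abs_zero]; positivity
  have k : 1 ≤ b + b' := by
    rcases not_and_or.mp h with h | h
    · linarith [e h]
    · linarith [e' h]
  have a : ∀ z, 0 ≤ z → z ≤ M → |z - 1| ≤ M := fun z _ _ => abs_le.mpr ⟨by linarith, by linarith⟩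
  have k1 : |(W - 1) * (W' - 1)| ≤ M ^ 2 := by
    rw [abs_mul, sq]
    exact mul_le_mul (a _ h1 h2) (a _ h3 h4) (abs_nonneg _) (by linarith)
  have k2 : |(V - 1) * (V' - 1)| ≤ M ^ 2 := by
    rw [abs_mul, sq]
    exact mul_le_mul (a _ h5 h6) (a _ h7 h8) (abs_nonneg _) (by linarith)
  refine (abs_sub _ _).trans ?_
  nlinarith [sq_nonneg M]

lemma ptw_main {U U' : Prop} {_ : Decidable U} {_ : Decidable U'} {l l' c c' θ Q : ℝ} (hc : 1 ≤ c)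
    (hc' : 1 ≤ c') (hθ : 0 ≤ θ) (hQ : c * c' ≤ Q) (h : |l - c| ≤ θ * c) (h' : |l' - c'| ≤ θ * c') :
    |((if U then l else 0) - 1) * ((if U' then l' else 0) - 1)| ≤
      (Q * (1 + θ) ^ 2 - 1) * 1 + if U then 0 else 1 := by
  have a1 : |l - 1| ≤ c * (1 + θ) - 1 := by
    have := abs_le.mp h
    exact abs_le.mpr ⟨by nlinarith, by nlinarith⟩
  have a2 : |l' - 1| ≤ c' * (1 + θ) - 1 := by
    have := abs_le.mp h'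
    exact abs_le.mpr ⟨by nlinarith, by nlinarith⟩
  have a3 : (c * (1 + θ)) * (c' * (1 + θ)) ≤ Q * (1 + θ) ^ 2 := by
    nlinarith [mul_le_mul_of_nonneg_right hQ (sq_nonneg (1 + θ))]
  have a4 : 1 ≤ c * (1 + θ) := by nlinarith
  have a5 : 1 ≤ c' * (1 + θ) := by nlinarith
  generalize c * (1 + θ) = a at a1 a3 a4
  generalize c' * (1 + θ) = b at a2 a3 a5
  rw [abs_mul]
  have a6 := mul_nonneg (sub_nonneg.mpr a4) (sub_nonneg.mpr a5)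
  split_ifs
  · have := mul_le_mul a1 a2 (abs_nonneg _) (by linarith)
    nlinarith
  · simp only [zero_sub, abs_neg, abs_one]
    nlinarith
  · simp only [zero_sub, abs_neg, abs_one]
    nlinarith
  · simp only [zero_sub, abs_neg, abs_one]
    nlinarith

end Pool.Agent.P.MP_b8021b_nt.VE.PairEst
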