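import Pool.Agent.P.MP_b8021b_nt.VE.StN

/-! Counting lemmas for the package piP. -/

namespace Pool.Agent.P.MP_b8021b_nt.VE.PiP

open Polynomial Finset
open scoped Classical

/-- `P` only depends on the residues modulo `d` -/
def Per (d : ℕ) (P : ℤ × ℤ → Prop) : Prop :=
  ∀ t t' : ℤ × ℤ, (d : ℤ) ∣ t.1 - t'.1 → (d : ℤ) ∣ t.2 - t'.2 → P t → P t'

/-- residue pairs with `P` -/
noncomputable def sR (d : ℕ) (P : ℤ × ℤ → Prop) : Finset (ℕ × ℕ) :=
  (range d ×ˢ range d).filter fun ab : ℕ × ℕ => P ((ab.1 : ℤ), (ab.2 : ℤ))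

/-- number of residue pairs with `P` -/
noncomputable def cR (d : ℕ) (P : ℤ × ℤ → Prop) : ℕ := (sR d P).card

lemma mem_sR {d : ℕ} {P : ℤ × ℤ → Prop} {ab : ℕ × ℕ} :
    ab ∈ sR d P ↔ (ab.1 < d ∧ ab.2 < d) ∧ P ((ab.1 : ℤ), (ab.2 : ℤ)) := by
  simp [sR]

lemma Per.of_dvd {d e : ℕ} {P : ℤ × ℤ → Prop} (h : Per d P) (hde : d ∣ e) : Per e P :=
  fun t t' h1 h2 => h t t' ((Int.natCast_dvd_natCast.mpr hde).trans h1)
    ((Int.natCast_dvd_natCast.mpr hde).trans h2)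

lemma dvd_sub_mod (a m : ℕ) : (m : ℤ) ∣ (a : ℤ) - ((a % m : ℕ) : ℤ) := by
  refine ⟨(a / m : ℕ), ?_⟩
  have := Nat.div_add_mod a m
  have h2 : (a : ℤ) = (m : ℤ) * ((a / m : ℕ) : ℤ) + ((a % m : ℕ) : ℤ) := by exact_mod_cast this.symm
  linarith

lemma cR_mul {m n : ℕ} (hm : 0 < m) (hn : 0 < n) (h : m.Coprime n) {P Q : ℤ × ℤ → Prop}
    (hP : Per m P) (hQ : Per n Q) : cR (m * n) (fun t => P t ∧ Q t) ≤ cR m P * cR n Q := by
  unfold cR
  rw [← card_product]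
  refine card_le_card_of_injOn (fun ab => ((ab.1 % m, ab.2 % m), (ab.1 % n, ab.2 % n))) ?_ ?_
  · intro ab hab
    have hab' := mem_sR.mp (mem_coe.mp hab)
    exact mem_coe.mpr (mem_product.mpr
      ⟨mem_sR.mpr ⟨⟨Nat.mod_lt _ hm, Nat.mod_lt _ hm⟩,
        hP _ _ (dvd_sub_mod _ _) (dvd_sub_mod _ _) hab'.2.1⟩,
      mem_sR.mpr ⟨⟨Nat.mod_lt _ hn, Nat.mod_lt _ hn⟩,
        hQ _ _ (dvd_sub_mod _ _) (dvd_sub_mod _ _) hab'.2.2⟩⟩)
  · intro ab hab ab' hab' he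
    have h1 := (mem_sR.mp (mem_coe.mp hab)).1
    have h2 := (mem_sR.mp (mem_coe.mp hab')).1
    simp only [Prod.mk.injEq] at he
    obtain ⟨⟨e1, e2⟩, e3, e4⟩ := he
    have a1 : ab.1 ≡ ab'.1 [MOD m * n] := (Nat.modEq_and_modEq_iff_modEq_mul h).mp ⟨e1, e3⟩
    have a2 : ab.2 ≡ ab'.2 [MOD m * n] := (Nat.modEq_and_modEq_iff_modEq_mul h).mp ⟨e2, e4⟩
    exact Prod.ext (Nat.ModEq.eq_of_lt_of_lt a1 h1.1 h2.1) (Nat.ModEq.eq_of_lt_of_lt a2 h1.2 h2.2)

lemma per_all (S : Finset ℕ) (P : ℕ → ℤ × ℤ → Prop) (hP : ∀ l ∈ S, Per l (P l)) :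
    Per (∏ l ∈ S, l) fun t => ∀ l ∈ S, P l t :=
  fun t t' h1 h2 h l hl => (hP l hl).of_dvd (dvd_prod_of_mem _ hl) t t' h1 h2 (h l hl)

lemma cR_prod (S : Finset ℕ) (hS : ∀ l ∈ S, l.Prime) (P : ℕ → ℤ × ℤ → Prop)
    (hP : ∀ l ∈ S, Per l (P l)) :
    cR (∏ l ∈ S, l) (fun t => ∀ l ∈ S, P l t) ≤ ∏ l ∈ S, cR l (P l) := by
  induction S using Finset.induction_on with
  | empty =>
    simp only [prod_empty]
    unfold cR
    refine le_trans (card_le_card (t := {(0, 0)}) fun ab hab => ?_) (by simp)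
    have := (mem_sR.mp hab).1
    exact mem_singleton.mpr (Prod.ext (by simp only; omega) (by simp only; omega))
  | insert a S ha ih =>
    rw [prod_insert ha, prod_insert ha]
    have hS' : ∀ l ∈ S, l.Prime := fun l hl => hS l (mem_insert_of_mem hl)
    have hP' : ∀ l ∈ S, Per l (P l) := fun l hl => hP l (mem_insert_of_mem hl)
    have hap := hS a (mem_insert_self _ _)
    have hc : a.Coprime (∏ l ∈ S, l) := Nat.Coprime.prod_right fun l hl =>
      (Nat.coprime_primes hap (hS' l hl)).mpr fun e => ha (e ▸ hl)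
    have h1 := cR_mul hap.pos (prod_pos fun l hl => (hS' l hl).pos) hc
      (hP a (mem_insert_self _ _)) (per_all S P hP')
    have e : (fun t => ∀ l ∈ insert a S, P l t) = fun t => P a t ∧ ∀ l ∈ S, P l t := by
      funext t; simp only [forall_mem_insert]
    rw [e]
    exact h1.trans (Nat.mul_le_mul_left _ (ih hS' hP'))

lemma per_lin (l : ℕ) (α β : ℤ) : Per l fun t => (l : ℤ) ∣ α * t.2 - t.1 * β := by
  intro t t' h1 h2 h
  have : α * t'.2 - t'.1 * β = (α * t.2 - t.1 * β) - α * (t.2 - t'.2) + (t.1 - t'.1) * β := by ring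
  show (l : ℤ) ∣ α * t'.2 - t'.1 * β
  rw [this]
  exact dvd_add (dvd_sub h (h2.mul_left _)) (h1.mul_right _)

lemma eq_of_dvd_sub {l a a' : ℕ} (ha : a < l) (ha' : a' < l) (h : (l : ℤ) ∣ (a : ℤ) - a') :
    a = a' :=
  Nat.ModEq.eq_of_lt_of_lt ((Nat.modEq_iff_dvd.mpr h).symm) ha ha'

lemma cR_lin {l : ℕ} (hl : 0 < l) {α β : ℤ} (h : IsCoprime α β) :
    cR l (fun t => (l : ℤ) ∣ α * t.2 - t.1 * β) ≤ l := by
  obtain ⟨u, v, huv⟩ := h
  have : NeZero l := ⟨hl.ne'⟩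
  unfold cR
  have hc : (univ : Finset (ZMod l)).card = l := by simp
  refine le_trans (card_le_card_of_injOn (t := univ)
    (fun ab : ℕ × ℕ => ((u * ab.1 + v * ab.2 : ℤ) : ZMod l)) (fun _ _ => by simp) ?_) hc.le
  intro ab hab ab' hab' he
  obtain ⟨h1, h3⟩ := mem_sR.mp (mem_coe.mp hab)
  obtain ⟨h2, h4⟩ := mem_sR.mp (mem_coe.mp hab')
  have he' : (l : ℤ) ∣ (u * ab'.1 + v * ab'.2) - (u * ab.1 + v * ab.2) :=
    (ZMod.intCast_eq_intCast_iff_dvd_sub _ _ _).mp he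
  obtain ⟨k1, e1⟩ := h3
  obtain ⟨k2, e2⟩ := h4
  obtain ⟨k3, e3⟩ := he'
  simp only at e1 e2
  refine Prod.ext (eq_of_dvd_sub h1.1 h2.1 ⟨-α * k3 - v * k1 + v * k2, ?_⟩)
    (eq_of_dvd_sub h1.2 h2.2 ⟨-β * k3 + u * k1 - u * k2, ?_⟩)
  · linear_combination (-α) * e3 - v * e1 + v * e2 - ((ab.1 : ℤ) - ab'.1) * huv
  · linear_combination (-β) * e3 + u * e1 - u * e2 - ((ab.2 : ℤ) - ab'.2) * huv

lemma D_eq (p : Par) (t : ℤ × ℤ) : p.D t = t.2 * (t.1 ^ 3 + p.f.coeff 2 * t.1 ^ 2 * t.2 +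
    p.f.coeff 1 * t.1 * t.2 ^ 2 + p.f.coeff 0 * t.2 ^ 3) := by
  have h3 : p.f.coeff 3 = 1 := by
    have := p.hf.1.coeff_natDegree
    rwa [p.hf.2.1] at this
  have h4 : p.f.coeff 4 = 0 := coeff_eq_zero_of_natDegree_lt (by rw [p.hf.2.1]; norm_num)
  simp only [Par.D, hev, sum_range_succ, sum_range_zero, h3, h4]
  ring

lemma per_D (p : Par) (l : ℕ) : Per l fun t => (l : ℤ) ∣ p.D t := by
  intro t t' h1 h2 h
  have e1 : ((t'.1 : ℤ) : ZMod l) = t.1 := (ZMod.intCast_eq_intCast_iff_dvd_sub _ _ _).mpr h1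
  have e2 : ((t'.2 : ℤ) : ZMod l) = t.2 := (ZMod.intCast_eq_intCast_iff_dvd_sub _ _ _).mpr h2
  show (l : ℤ) ∣ p.D t'
  rw [← ZMod.intCast_zmod_eq_zero_iff_dvd] at h ⊢
  rw [D_eq] at h ⊢
  push_cast at h ⊢
  rw [e1, e2]; exact h

lemma cR_D (p : Par) {l : ℕ} (hl : l.Prime) : cR l (fun t => (l : ℤ) ∣ p.D t) ≤ 4 * l := by
  have : Fact l.Prime := ⟨hl⟩
  unfold cR
  set s := sR l fun t => (l : ℤ) ∣ p.D t with hs
  rw [← card_filter_add_card_filter_not (s := s) (fun ab => ab.2 = 0)]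
  have h0 : (s.filter fun ab => ab.2 = 0).card ≤ l := by
    refine le_trans (card_le_card_of_injOn (t := range l) Prod.fst ?_ ?_) (by simp)
    · intro ab hab
      exact mem_coe.mpr (mem_range.mpr (mem_sR.mp (mem_filter.mp (mem_coe.mp hab)).1).1.1)
    · intro ab hab ab' hab' he
      exact Prod.ext he ((mem_filter.mp (mem_coe.mp hab)).2.trans
        (mem_filter.mp (mem_coe.mp hab')).2.symm)
  have h1 : (s.filter fun ab => ¬ ab.2 = 0).card ≤ 3 * l := by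
    refine le_trans (card_le_mul_card_image (f := Prod.snd) _ 3 ?_) (Nat.mul_le_mul_left _ ?_)
    · intro b hb
      obtain ⟨ab0, hab0, rfl⟩ := mem_image.mp hb
      have hb0 := (mem_filter.mp hab0).2
      have hbl := (mem_sR.mp (mem_filter.mp hab0).1).1.2
      have hbz : ((ab0.2 : ℕ) : ZMod l) ≠ 0 := by
        rw [Ne, ZMod.natCast_eq_zero_iff]
        exact fun h => hb0 (Nat.eq_zero_of_dvd_of_lt h hbl)
      set β : ZMod l := ((ab0.2 : ℕ) : ZMod l) with hβ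
      let g : (ZMod l)[X] := X ^ 3 + C (((p.f.coeff 2 : ℤ) : ZMod l) * β) * X ^ 2 +
        C (((p.f.coeff 1 : ℤ) : ZMod l) * β ^ 2) * X + C (((p.f.coeff 0 : ℤ) : ZMod l) * β ^ 3)
      have hgm : g.Monic := by unfold g; monicity!
      have hgd : g.natDegree ≤ 3 := by unfold g; compute_degree
      refine le_trans (card_le_card_of_injOn (t := g.roots.toFinset)
        (fun ab : ℕ × ℕ => ((ab.1 : ℕ) : ZMod l)) ?_ ?_)
        ((Multiset.toFinset_card_le _).trans ((card_roots' g).trans hgd))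
      · intro ab hab
        obtain ⟨h2, h3⟩ := mem_filter.mp (mem_coe.mp hab)
        have h4 := (mem_sR.mp (mem_filter.mp h2).1).2
        rw [← ZMod.intCast_zmod_eq_zero_iff_dvd, D_eq] at h4
        push_cast at h4
        rw [h3, ← hβ] at h4
        refine mem_coe.mpr (Multiset.mem_toFinset.mpr ((mem_roots hgm.ne_zero).mpr ?_))
        have h5 := (mul_eq_zero.mp h4).resolve_left hbz
        simp only [IsRoot, g, eval_add, eval_mul, eval_pow, eval_X, eval_C]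
        linear_combination h5
      · intro ab hab ab' hab' he
        obtain ⟨h2, h3⟩ := mem_filter.mp (mem_coe.mp hab)
        obtain ⟨h2', h3'⟩ := mem_filter.mp (mem_coe.mp hab')
        have a1 := (mem_sR.mp (mem_filter.mp h2).1).1.1
        have a2 := (mem_sR.mp (mem_filter.mp h2').1).1.1
        exact Prod.ext (Nat.ModEq.eq_of_lt_of_lt ((ZMod.natCast_eq_natCast_iff _ _ _).mp he) a1 a2)
          (h3.trans h3'.symm)
    · refine le_trans (card_le_card (t := range l) ?_) (by simp)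
      intro b hb
      obtain ⟨ab0, hab0, rfl⟩ := mem_image.mp hb
      exact mem_range.mpr (mem_sR.mp (mem_filter.mp hab0).1).1.2
  omega

/-- at most two points over a prime lie on a fibre -/
lemma fib_card (p : Par) (y : ℝ) (N : ℕ) (t : ℤ × ℤ) (q : ℕ) :
    (((Xset p y N).filter fun x => OnT x t).filter fun x => x.1 = q).card ≤ 2 := by
  set s := ((Xset p y N).filter fun x => OnT x t).filter fun x => x.1 = q with hs
  rcases s.eq_empty_or_nonempty with h | ⟨x0, hx0⟩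
  · rw [h]; simp
  have key : ∀ x ∈ s, p.IsPt x ∧ OnT x t ∧ x.1 = q := fun x hx => by
    obtain ⟨h1, h2⟩ := mem_filter.mp hx
    obtain ⟨h3, h4⟩ := mem_filter.mp h1
    exact ⟨(mem_filter.mp h3).2, h4, h2⟩
  refine le_trans (card_le_card (t := {x0, inv x0}) ?_) card_le_two
  intro x hx
  obtain ⟨⟨a1, -, -, -, a5, a6, a7, a8⟩, ⟨b1, b2⟩, e⟩ := key x hx
  obtain ⟨⟨-, -, -, -, c5, c6, c7, c8⟩, ⟨d1, -⟩, e0⟩ := key x0 hx0
  obtain ⟨q1, τ, w⟩ := x
  obtain ⟨q0, τ0, w0⟩ := x0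
  simp only at *
  subst e
  subst e0
  have hp : Prime (q0 : ℤ) := Nat.prime_iff_prime_int.mp a1
  have hτ : τ = τ0 := by
    have : (q0 : ℤ) ∣ ((τ : ℤ) - τ0) * t.2 := by
      have := dvd_sub d1 b1
      rwa [show t.1 - (τ0 : ℤ) * t.2 - (t.1 - τ * t.2) = ((τ : ℤ) - τ0) * t.2 by ring] at this
    exact eq_of_dvd_sub a5 c5 ((hp.dvd_or_dvd this).resolve_right b2)
  subst hτ
  have : (q0 : ℤ) ∣ ((w : ℤ) - w0) * ((w : ℤ) - ((q0 - w0 : ℕ) : ℤ)) := by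
    rw [Nat.cast_sub c7.le]
    have h1 := dvd_sub a8 c8
    have h2 : ((w : ℤ) - w0) * ((w : ℤ) - ((q0 : ℤ) - w0)) =
        ((w : ℤ) ^ 2 - eval (τ : ℤ) p.f - ((w0 : ℤ) ^ 2 - eval (τ : ℤ) p.f)) - q0 * (w - w0) := by ring
    rw [h2]
    exact dvd_sub h1 (dvd_mul_right _ _)
  rcases hp.dvd_or_dvd this with h | h
  · simp [eq_of_dvd_sub a7 c7 h]
  · simp [inv, eq_of_dvd_sub a7 (by omega) h]

lemma fib_sum (p : Par) (y : ℝ) (N : ℕ) (t t' : ℤ × ℤ) (a : ℕ → ℝ)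
    (ha : ∀ q ∈ Pset y N, 0 ≤ a q) :
    ∑ x ∈ Xset p y N, (if OnT x t ∧ OnT x t' then a x.1 else 0) ≤
      2 * ∑ q ∈ Pset y N, if (q : ℤ) ∣ dl t t' then a q else 0 := by
  have h1 : ∑ x ∈ Xset p y N, (if OnT x t ∧ OnT x t' then a x.1 else 0) ≤
      ∑ x ∈ (Xset p y N).filter (fun x => OnT x t), if (x.1 : ℤ) ∣ dl t t' then a x.1 else 0 := by
    rw [sum_filter]
    refine sum_le_sum fun x hx => ?_
    have h0 := ha _ (fst_mem_Pset hx)
    by_cases h : OnT x t ∧ OnT x t'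
    · have hd : (x.1 : ℤ) ∣ dl t t' := by
        have := dvd_sub (h.1.1.mul_right t'.2) (h.2.1.mul_right t.2)
        rwa [show (t.1 - (x.2.1 : ℤ) * t.2) * t'.2 - (t'.1 - x.2.1 * t'.2) * t.2 = dl t t' by
          unfold dl; ring] at this
      rw [if_pos h, if_pos h.1, if_pos hd]
    · rw [if_neg h]
      split_ifs
      · exact h0
      · exact le_rfl
      · exact le_rfl
  refine h1.trans ?_
  rw [← sum_fiberwise_of_maps_to (s := (Xset p y N).filter fun x => OnT x t) (t := Pset y N)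
    (g := fun x => x.1) fun x hx => fst_mem_Pset (mem_filter.mp hx).1, mul_sum]
  refine sum_le_sum fun q hq => ?_
  rw [sum_congr rfl (g := fun _ => if (q : ℤ) ∣ dl t t' then a q else 0) fun x hx => by
    rw [(mem_filter.mp hx).2], sum_const, nsmul_eq_mul]
  refine mul_le_mul_of_nonneg_right (by exact_mod_cast fib_card p y N t q) ?_
  split_ifs
  · exact ha q hq
  · exact le_rfl

end Pool.Agent.P.MP_b8021b_nt.VE.PiP
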