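import Pool.Agent.P.MP_b8021b_nt.VE.PPiP1

/-! Mass estimates for the package piP. -/

namespace Pool.Agent.P.MP_b8021b_nt.VE.PiP

open Polynomial Finset
open scoped Classical

/-- the facts on the parameters that are used -/
structure Ctx (p : Par) (c : Cfg) : Prop where
  τ0 : c.τ0 ≤ -2
  ηpos : 0 < c.η
  ηle : c.η ≤ 1
  y1 : 2 ≤ c.y
  B : c.y ^ 4 ≤ c.B
  big : 180 * ((M0 p.r c.z * p.r ^ p.n0 : ℕ) : ℝ) ≤ c.η * c.y
  rz : p.r ≤ c.z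
  zy : (c.z : ℝ) < c.y
  N1 : 1 ≤ c.N
  sum : ∑ q ∈ Pset c.y c.N, wt c.y c.N q = c.N
  pr : ∀ q ∈ Pset c.y c.N, q.Prime ∧ c.y ≤ q ∧ q < 3 * c.y ∧ 0 ≤ wt c.y c.N q

variable {p : Par} {c : Cfg}

lemma Ctx.Bpos (h : Ctx p c) : 0 < c.B := lt_of_lt_of_le (by have := h.y1; positivity) h.B

lemma mem_T {t : ℤ × ℤ} (ht : t ∈ Tset p c) :
    c.B ≤ t.2 ∧ t.2 < c.B * (1 + c.η) ∧ c.τ0 ≤ (t.1 : ℝ) / t.2 ∧ (t.1 : ℝ) / t.2 < c.τ0 + c.η ∧
      (p.r : ℤ) ^ p.n0 ∣ t.1 - 1 ∧ (p.r : ℤ) ^ p.n0 ∣ t.2 - p.r ∧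
      (M0 p.r c.z : ℤ) ∣ t.1 ∧ (M0 p.r c.z : ℤ) ∣ t.2 - 1 := (mem_filter.mp ht).2

lemma Ctx.wT_nonneg (h : Ctx p c) {t : ℤ × ℤ} (ht : t ∈ Tset p c) : 0 ≤ wT p c t :=
  div_nonneg (inv_nonneg.mpr (h.Bpos.le.trans (mem_T ht).1))
    (sum_nonneg fun _ ht' => inv_nonneg.mpr (h.Bpos.le.trans (mem_T ht').1))

lemma sum_wT_le (p : Par) (c : Cfg) : ∑ t ∈ Tset p c, wT p c t ≤ 1 := by
  unfold wT
  rw [← sum_div]
  exact div_self_le_one _

lemma Ctx.cop (h : Ctx p c) {l : ℕ} (hl : l.Prime) (hz : c.z < l) :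
    l.Coprime (M0 p.r c.z * p.r) := by
  refine Nat.Coprime.mul_right (Nat.Coprime.prod_right fun a ha => ?_) ?_
  · obtain ⟨h1, h2, -⟩ := mem_filter.mp ha
    exact (Nat.coprime_primes hl h2).mpr (by have := mem_range.mp h1; omega)
  · exact (Nat.coprime_primes hl p.hr).mpr (by have := h.rz; omega)

lemma Ctx.est (h : Ctx p c) (hT : S_TEq) {d : ℕ} (hd : 1 ≤ d)
    (hc : d.Coprime (M0 p.r c.z * p.r)) {κ : ℝ} (hκ : κ ≤ 1)
    (hdκ : (d : ℝ) ≤ 9 * κ * c.y ^ 3) {P : ℤ × ℤ → Prop} (hP : Per d P) {τ₁ τ₂ : ℝ}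
    (h1 : c.τ0 ≤ τ₁) (h2 : τ₁ ≤ τ₂) (h3 : τ₂ ≤ c.τ0 + c.η) :
    ∑ t ∈ Tset p c, (if τ₁ ≤ (t.1 : ℝ) / t.2 ∧ (t.1 : ℝ) / t.2 < τ₂ ∧ P t then wT p c t else 0) ≤
      ((τ₂ - τ₁) / c.η + κ) * (cR d P / (d : ℝ) ^ 2) := by
  have hB := h.Bpos
  have hη := h.ηpos
  have hy : 0 < c.y := by linarith [h.y1]
  have hd0 : (0 : ℝ) < d := by exact_mod_cast hd
  have hκ0 : 0 ≤ κ := by
    by_contra hn
    have : 9 * κ * c.y ^ 3 < 0 := mul_neg_of_neg_of_pos (by linarith) (by positivity)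
    linarith
  set M : ℝ := ((M0 p.r c.z * p.r ^ p.n0 : ℕ) : ℝ) with hM
  have hM0 : 0 ≤ M := by positivity
  have hMd : ((M0 p.r c.z * p.r ^ p.n0 * d : ℕ) : ℝ) = M * d := by rw [hM]; push_cast; ring
  have key : 20 * (M * d) ≤ κ * (c.η * c.B) := by
    calc 20 * (M * d) ≤ 20 * (M * (9 * κ * c.y ^ 3)) := by gcongr
      _ = (180 * M) * (κ * c.y ^ 3) := by ring
      _ ≤ (c.η * c.y) * (κ * c.y ^ 3) := mul_le_mul_of_nonneg_right h.big (by positivity)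
      _ = κ * (c.η * c.y ^ 4) := by ring
      _ ≤ κ * (c.η * c.B) := by gcongr; exact h.B
  set R : Finset (ZMod d × ZMod d) :=
    (sR d P).image fun ab => ((ab.1 : ZMod d), (ab.2 : ZMod d)) with hR
  have h6 : 6 * ((M0 p.r c.z * p.r ^ p.n0 * d : ℕ) : ℝ) ≤ c.η * c.B := by
    rw [hMd]
    have : κ * (c.η * c.B) ≤ 1 * (c.η * c.B) := by gcongr
    have : 0 ≤ M * d := by positivity
    linarith
  have hmain := (hT p c d R τ₁ τ₂ c.B (c.B * (1 + c.η)) h.τ0 hη h.ηle hd hc h6 h1 h2 h3 le_rfl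
    (by nlinarith) le_rfl).2
  have hRc : (R.card : ℝ) ≤ cR d P := by exact_mod_cast card_image_le
  have hle : ∑ t ∈ Tset p c,
      (if τ₁ ≤ (t.1 : ℝ) / t.2 ∧ (t.1 : ℝ) / t.2 < τ₂ ∧ P t then wT p c t else 0) ≤
      ∑ t ∈ Tset p c with τ₁ ≤ (t.1 : ℝ) / t.2 ∧ (t.1 : ℝ) / t.2 < τ₂ ∧ c.B ≤ t.2 ∧
        t.2 < c.B * (1 + c.η) ∧ ((t.1 : ZMod d), (t.2 : ZMod d)) ∈ R, wT p c t := by
    rw [sum_filter]
    refine sum_le_sum fun t ht => ?_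
    have hw := h.wT_nonneg ht
    by_cases hp : τ₁ ≤ (t.1 : ℝ) / t.2 ∧ (t.1 : ℝ) / t.2 < τ₂ ∧ P t
    · rw [if_pos hp, if_pos]
      refine ⟨hp.1, hp.2.1, (mem_T ht).1, (mem_T ht).2.1, ?_⟩
      have hdz : (0 : ℤ) < d := by exact_mod_cast hd
      have e : ∀ a : ℤ, (((a % d).toNat : ℕ) : ℤ) = a % d := fun a =>
        Int.toNat_of_nonneg (Int.emod_nonneg _ hdz.ne')
      have lt : ∀ a : ℤ, (a % d).toNat < d := fun a => by
        have := Int.emod_lt_of_pos a hdz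
        have := e a
        omega
      have dv : ∀ a : ℤ, (d : ℤ) ∣ a - (((a % d).toNat : ℕ) : ℤ) := fun a => by
        rw [e]; exact Int.dvd_self_sub_emod
      have ca : ∀ a : ℤ, (((a % d).toNat : ℕ) : ZMod d) = (a : ZMod d) := fun a => by
        have := (ZMod.intCast_eq_intCast_iff_dvd_sub _ _ _).mpr (dv a)
        exact_mod_cast this
      refine mem_image.mpr ⟨((t.1 % d).toNat, (t.2 % d).toNat),
        mem_sR.mpr ⟨⟨lt _, lt _⟩, hP _ _ (dv _) (dv _) hp.2.2⟩, ?_⟩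
      simp only [ca]
    · rw [if_neg hp]
      split_ifs
      · exact hw
      · exact le_rfl
  refine hle.trans ?_
  have h7 := (abs_le.mp hmain).2
  have e1 : (τ₂ - τ₁) * (c.B * (1 + c.η) - c.B) / (c.η ^ 2 * c.B) = (τ₂ - τ₁) / c.η := by
    field_simp; ring
  rw [e1, hMd] at h7
  have h8 : 20 * (M * d / (c.η * c.B)) ≤ κ := by
    rw [← mul_div_assoc, div_le_iff₀ (by positivity)]; exact key
  have h9 : 0 ≤ (τ₂ - τ₁) / c.η := div_nonneg (by linarith) hη.le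
  have h10 : (0 : ℝ) ≤ R.card / (d : ℝ) ^ 2 := by positivity
  calc _ ≤ ((τ₂ - τ₁) / c.η + 20 * (M * d / (c.η * c.B))) * (R.card / (d : ℝ) ^ 2) := by linarith
    _ ≤ ((τ₂ - τ₁) / c.η + κ) * (cR d P / (d : ℝ) ^ 2) := by gcongr

/-- a form with small local densities -/
def Frm (G : ℤ × ℤ → ℤ) : Prop :=
  ∀ l : ℕ, l.Prime → Per l (fun t => (l : ℤ) ∣ G t) ∧ cR l (fun t => (l : ℤ) ∣ G t) ≤ 4 * l

lemma frm_lin {α β : ℤ} (h : IsCoprime α β) : Frm fun t => α * t.2 - t.1 * β := fun l hl =>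
  ⟨per_lin l α β, (cR_lin hl.pos h).trans (by omega)⟩

lemma frm_D (p : Par) : Frm p.D := fun l hl => ⟨per_D p l, cR_D p hl⟩

lemma frm_fst : Frm fun t => t.1 := by
  have := frm_lin (α := 0) (β := -1) ⟨0, -1, by ring⟩
  simpa using this

lemma Ctx.est3 (h : Ctx p c) (hT : S_TEq) {q q' : ℕ} (hq : q ∈ Pset c.y c.N)
    (hq' : q' ∈ Pset c.y c.N) (hne : q ≠ q') {t : ℤ × ℤ} (ht : IsCoprime t.1 t.2)
    {G : ℤ × ℤ → ℤ} (hG : Frm G) (S : Finset ℕ)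
    (hS : ∀ l ∈ S, l.Prime ∧ c.z < l ∧ (l : ℝ) < c.y) (hD : ((∏ l ∈ S, l : ℕ) : ℝ) ≤ c.y)
    {τ₁ τ₂ : ℝ} (h1 : c.τ0 ≤ τ₁) (h2 : τ₁ ≤ τ₂) (h3 : τ₂ ≤ c.τ0 + c.η) :
    ∑ t' ∈ Tset p c, (if τ₁ ≤ (t'.1 : ℝ) / t'.2 ∧ (t'.1 : ℝ) / t'.2 < τ₂ ∧
        ((q : ℤ) ∣ dl t t' ∧ (q' : ℤ) ∣ dl t t' ∧ ∀ l ∈ S, (l : ℤ) ∣ G t') then wT p c t' else 0) ≤
      ((τ₂ - τ₁) / c.η + ((∏ l ∈ S, l : ℕ) : ℝ) / c.y) * ((∏ l ∈ S, 4 / (l : ℝ)) / (q * q')) := by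
  obtain ⟨a1, a2, a3, -⟩ := h.pr q hq
  obtain ⟨b1, b2, b3, -⟩ := h.pr q' hq'
  have hy : 0 < c.y := by linarith [h.y1]
  set D : ℕ := ∏ l ∈ S, l with hDdef
  have hDpos : 0 < D := prod_pos fun l hl => (hS l hl).1.pos
  have cD : ∀ a : ℕ, a.Prime → c.y ≤ a → a.Coprime D := fun a ha hay =>
    Nat.Coprime.prod_right fun l hl => (Nat.coprime_primes ha (hS l hl).1).mpr fun e => by
      have := (hS l hl).2.2
      rw [← e] at this
      linarith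
  have zq : ∀ a : ℕ, c.y ≤ a → c.z < a := fun a ha => by
    have := lt_of_lt_of_le h.zy ha
    exact_mod_cast this
  have P1 : Per q fun t' => (q : ℤ) ∣ dl t t' := per_lin q t.1 t.2
  have P2 : Per q' fun t' => (q' : ℤ) ∣ dl t t' := per_lin q' t.1 t.2
  have P3 := per_all S (fun l t' => (l : ℤ) ∣ G t') fun l hl => (hG l (hS l hl).1).1
  have P23 : Per (q' * D) fun t' => (q' : ℤ) ∣ dl t t' ∧ ∀ l ∈ S, (l : ℤ) ∣ G t' :=
    fun s s' e1 e2 hs => ⟨P2.of_dvd (dvd_mul_right _ _) s s' e1 e2 hs.1,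
      P3.of_dvd (dvd_mul_left _ _) s s' e1 e2 hs.2⟩
  have P123 : Per (q * (q' * D)) fun t' =>
      (q : ℤ) ∣ dl t t' ∧ (q' : ℤ) ∣ dl t t' ∧ ∀ l ∈ S, (l : ℤ) ∣ G t' :=
    fun s s' e1 e2 hs => ⟨P1.of_dvd (dvd_mul_right _ _) s s' e1 e2 hs.1,
      P23.of_dvd (dvd_mul_left _ _) s s' e1 e2 hs.2⟩
  have c1 := cR_mul a1.pos (Nat.mul_pos b1.pos hDpos)
    (Nat.Coprime.mul_right ((Nat.coprime_primes a1 b1).mpr hne) (cD q a1 a2)) P1 P23
  have c2 := cR_mul b1.pos hDpos (cD q' b1 b2) P2 P3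
  have c3 := cR_prod S (fun l hl => (hS l hl).1) (fun l t' => (l : ℤ) ∣ G t')
    fun l hl => (hG l (hS l hl).1).1
  have c4 : ∏ l ∈ S, cR l (fun t' => (l : ℤ) ∣ G t') ≤ ∏ l ∈ S, 4 * l :=
    prod_le_prod' fun l hl => (hG l (hS l hl).1).2
  have c5 : cR q (fun t' => (q : ℤ) ∣ dl t t') ≤ q := cR_lin a1.pos ht
  have c6 : cR q' (fun t' => (q' : ℤ) ∣ dl t t') ≤ q' := cR_lin b1.pos ht
  have c7 := c1.trans (Nat.mul_le_mul c5 (c2.trans (Nat.mul_le_mul c6 (c3.trans c4))))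
  have hq0 : (0 : ℝ) < q := by exact_mod_cast a1.pos
  have hq0' : (0 : ℝ) < q' := by exact_mod_cast b1.pos
  have hD0 : (0 : ℝ) < D := by exact_mod_cast hDpos
  have hest := h.est hT (d := q * (q' * D)) (Nat.mul_pos a1.pos (Nat.mul_pos b1.pos hDpos))
    (Nat.Coprime.mul_left (h.cop a1 (zq q a2)) (Nat.Coprime.mul_left (h.cop b1 (zq q' b2))
      (Nat.Coprime.prod_left fun l hl => h.cop (hS l hl).1 (hS l hl).2.1)))
    (κ := D / c.y) ((div_le_one hy).mpr hD) (by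
      push_cast
      calc (q : ℝ) * (q' * D) ≤ (3 * c.y) * ((3 * c.y) * D) := by gcongr
        _ = 9 * (D / c.y) * c.y ^ 3 := by field_simp; ring) P123 h1 h2 h3
  refine le_trans (le_of_eq (sum_congr rfl fun t' _ => ?_)) (hest.trans ?_)
  · by_cases hh : τ₁ ≤ (t'.1 : ℝ) / t'.2 ∧ (t'.1 : ℝ) / t'.2 < τ₂ ∧
        ((q : ℤ) ∣ dl t t' ∧ (q' : ℤ) ∣ dl t t' ∧ ∀ l ∈ S, (l : ℤ) ∣ G t')
    · exact (if_pos hh).trans (if_pos hh).symm
    · exact (if_neg hh).trans (if_neg hh).symm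
  refine mul_le_mul_of_nonneg_left ?_
    (add_nonneg (div_nonneg (by linarith) h.ηpos.le) (by positivity))
  have e : ∏ l ∈ S, 4 / (l : ℝ) = ((∏ l ∈ S, 4 * l : ℕ) : ℝ) / (D : ℝ) ^ 2 := by
    rw [hDdef]
    push_cast
    rw [← prod_pow, ← prod_div_distrib]
    refine prod_congr rfl fun l hl => ?_
    have : (l : ℝ) ≠ 0 := by exact_mod_cast (hS l hl).1.ne_zero
    field_simp
  rw [e]
  have c8 : (cR (q * (q' * D)) (fun t' =>
      (q : ℤ) ∣ dl t t' ∧ (q' : ℤ) ∣ dl t t' ∧ ∀ l ∈ S, (l : ℤ) ∣ G t') : ℝ) ≤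
      q * (q' * ((∏ l ∈ S, 4 * l : ℕ) : ℝ)) := by exact_mod_cast c7
  calc _ ≤ q * (q' * ((∏ l ∈ S, 4 * l : ℕ) : ℝ)) / ((q * (q' * D) : ℕ) : ℝ) ^ 2 := by gcongr
    _ = _ := by rw [Nat.cast_mul, Nat.cast_mul]; field_simp

/-- the mass of pairs of fibres -/
noncomputable def inn (p : Par) (c : Cfg) (q q' : ℕ) (Φ : ℤ × ℤ → ℤ × ℤ → ℝ) : ℝ :=
  ∑ t ∈ Tset p c, ∑ t' ∈ Tset p c,
    if (IsCoprime t.1 t.2 ∧ IsCoprime t'.1 t'.2) ∧ (q : ℤ) ∣ dl t t' ∧ (q' : ℤ) ∣ dl t t' then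
      wT p c t * wT p c t' * Φ t t' else 0

lemma inn_swap (p : Par) (c : Cfg) (q q' : ℕ) (Φ : ℤ × ℤ → ℤ × ℤ → ℝ) :
    inn p c q q' (fun t t' => Φ t' t) = inn p c q q' Φ := by
  unfold inn
  rw [sum_comm]
  refine sum_congr rfl fun t _ => sum_congr rfl fun t' _ => ?_
  have e : dl t' t = -dl t t' := by unfold dl; ring
  rw [e]
  exact if_congr (by simp only [dvd_neg]; tauto) (by ring) rfl

lemma inn_lin (p : Par) (c : Cfg) (q q' : ℕ) {ι : Type} (s : Finset ι) (a : ι → ℝ)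
    (Φ : ι → ℤ × ℤ → ℤ × ℤ → ℝ) :
    inn p c q q' (fun t t' => ∑ i ∈ s, a i * Φ i t t') = ∑ i ∈ s, a i * inn p c q q' (Φ i) := by
  unfold inn
  simp only [mul_sum]
  rw [sum_comm (s := s)]
  refine sum_congr rfl fun t _ => ?_
  rw [sum_comm (s := s)]
  refine sum_congr rfl fun t' _ => ?_
  split_ifs
  · exact sum_congr rfl fun i _ => by ring
  · simp

lemma Ctx.inn_le (h : Ctx p c) {q q' : ℕ} {Φ : ℤ × ℤ → ℤ × ℤ → ℝ} {β : ℝ} (hβ : 0 ≤ β)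
    (h0 : ∀ t t', 0 ≤ Φ t t')
    (h1 : ∀ t ∈ Tset p c, IsCoprime t.1 t.2 → ∑ t' ∈ Tset p c,
      (if (q : ℤ) ∣ dl t t' ∧ (q' : ℤ) ∣ dl t t' then wT p c t' * Φ t t' else 0) ≤ β) :
    inn p c q q' Φ ≤ β := by
  calc inn p c q q' Φ ≤ ∑ t ∈ Tset p c, wT p c t * β := by
        refine sum_le_sum fun t ht => ?_
        have hw := h.wT_nonneg ht
        by_cases hp : IsCoprime t.1 t.2
        · refine le_trans ?_ (mul_le_mul_of_nonneg_left (h1 t ht hp) hw)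
          rw [mul_sum]
          refine sum_le_sum fun t' ht' => ?_
          have hw' := h.wT_nonneg ht'
          have := h0 t t'
          by_cases hd : (q : ℤ) ∣ dl t t' ∧ (q' : ℤ) ∣ dl t t'
          · rw [if_pos hd]
            split_ifs
            · exact le_of_eq (by ring)
            · positivity
          · rw [if_neg hd, if_neg fun hh => hd hh.2]; simp
        · rw [sum_eq_zero fun t' _ => if_neg fun hh => hp hh.1.1]
          positivity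
    _ ≤ β := by
        rw [← sum_mul]
        exact mul_le_of_le_one_left hβ (sum_wT_le p c)

lemma Ctx.qs_le (h : Ctx p c) {Ψ : Pt → Pt → ℤ × ℤ → ℤ × ℤ → ℝ} {Φ : ℤ × ℤ → ℤ × ℤ → ℝ} {β : ℝ}
    (hβ : 0 ≤ β) (h0 : ∀ t t', 0 ≤ Φ t t')
    (hΨ : ∀ x x' t t', IsQ p c x x' t t' → Ψ x x' t t' ≤ Φ t t')
    (h1 : ∀ q ∈ Pset c.y c.N, ∀ q' ∈ Pset c.y c.N, q ≠ q' → inn p c q q' Φ ≤ β / (q * q')) :
    Qs p c Ψ ≤ 4 * β := by
  have hN : (0 : ℝ) < c.N := by exact_mod_cast h.N1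
  let a : ℤ × ℤ → ℤ × ℤ → ℕ → ℕ → ℝ := fun t t' q q' =>
    if q ≠ q' ∧ IsCoprime t.1 t.2 ∧ IsCoprime t'.1 t'.2 then
      wt c.y c.N q * wt c.y c.N q' * (q * q') * wT p c t * wT p c t' / c.N ^ 2 * Φ t t' else 0
  have ha : ∀ t ∈ Tset p c, ∀ t' ∈ Tset p c, ∀ q ∈ Pset c.y c.N, ∀ q' ∈ Pset c.y c.N,
      0 ≤ a t t' q q' := fun t ht t' ht' q hq q' hq' => by
    have := h.wT_nonneg ht
    have := h.wT_nonneg ht'
    have := (h.pr q hq).2.2.2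
    have := (h.pr q' hq').2.2.2
    have := h0 t t'
    simp only [a]
    split_ifs
    · positivity
    · exact le_rfl
  have s1 : Qs p c Ψ ≤ ∑ t ∈ Tset p c, ∑ t' ∈ Tset p c, ∑ x ∈ Xset p c.y c.N,
      if OnT x t ∧ OnT x t' then ∑ x' ∈ Xset p c.y c.N,
        (if OnT x' t ∧ OnT x' t' then a t t' x.1 x'.1 else 0) else 0 := by
    unfold Qs
    rw [sum_congr rfl fun x _ => sum_comm, sum_comm]
    refine sum_le_sum fun t ht => ?_
    rw [sum_congr rfl fun x _ => sum_comm, sum_comm]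
    refine sum_le_sum fun t' ht' => sum_le_sum fun x hx => ?_
    by_cases ho : OnT x t ∧ OnT x t'
    · rw [if_pos ho]
      refine sum_le_sum fun x' hx' => ?_
      by_cases hI : IsQ p c x x' t t'
      · rw [if_pos hI, if_pos ⟨hI.o21, hI.o22⟩]
        simp only [a]
        rw [if_pos ⟨hI.ne, hI.pr, hI.pr'⟩]
        have := h.wT_nonneg ht
        have := h.wT_nonneg ht'
        have := (h.pr _ (fst_mem_Pset hx)).2.2.2
        have := (h.pr _ (fst_mem_Pset hx')).2.2.2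
        exact mul_le_mul_of_nonneg_left (hΨ _ _ _ _ hI) (by positivity)
      · rw [if_neg hI]
        split_ifs
        · exact ha t ht t' ht' _ (fst_mem_Pset hx) _ (fst_mem_Pset hx')
        · exact le_rfl
    · rw [if_neg ho]
      exact le_of_eq (sum_eq_zero fun x' _ => if_neg fun hI => ho ⟨hI.o11, hI.o12⟩)
  have s2 : ∀ t ∈ Tset p c, ∀ t' ∈ Tset p c, (∑ x ∈ Xset p c.y c.N,
      if OnT x t ∧ OnT x t' then ∑ x' ∈ Xset p c.y c.N,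
        (if OnT x' t ∧ OnT x' t' then a t t' x.1 x'.1 else 0) else 0) ≤
      4 * ∑ q ∈ Pset c.y c.N, ∑ q' ∈ Pset c.y c.N,
        if (q : ℤ) ∣ dl t t' ∧ (q' : ℤ) ∣ dl t t' then a t t' q q' else 0 := by
    intro t ht t' ht'
    refine (fib_sum p c.y c.N t t' (fun q => ∑ x' ∈ Xset p c.y c.N,
      (if OnT x' t ∧ OnT x' t' then a t t' q x'.1 else 0)) fun q hq => sum_nonneg fun x' hx' => ?_).trans ?_
    · split_ifs
      · exact ha t ht t' ht' _ hq _ (fst_mem_Pset hx')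
      · exact le_rfl
    rw [show (4 : ℝ) = 2 * 2 by norm_num, mul_assoc]
    refine mul_le_mul_of_nonneg_left ?_ (by norm_num)
    rw [mul_sum]
    refine sum_le_sum fun q hq => ?_
    by_cases hd : (q : ℤ) ∣ dl t t'
    · rw [if_pos hd]
      refine (fib_sum p c.y c.N t t' (a t t' q) fun q' hq' => ha t ht t' ht' _ hq _ hq').trans ?_
      simp only [hd, true_and, le_refl]
    · simp [hd]
  refine s1.trans ((sum_le_sum fun t ht => sum_le_sum fun t' ht' => s2 t ht t' ht').trans ?_)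
  simp only [← mul_sum]
  refine mul_le_mul_of_nonneg_left ?_ (by norm_num)
  rw [sum_congr rfl fun t _ => sum_comm, sum_comm]
  have s3 : β = ∑ q ∈ Pset c.y c.N, ∑ q' ∈ Pset c.y c.N,
      wt c.y c.N q * wt c.y c.N q' * (β / c.N ^ 2) := by
    simp only [← sum_mul, ← mul_sum, h.sum]
    field_simp
  rw [s3]
  refine sum_le_sum fun q hq => ?_
  rw [sum_congr rfl fun t _ => sum_comm, sum_comm]
  refine sum_le_sum fun q' hq' => ?_
  have w1 := (h.pr q hq).2.2.2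
  have w2 := (h.pr q' hq').2.2.2
  by_cases hne : q = q'
  · rw [sum_eq_zero fun t _ => sum_eq_zero fun t' _ => by simp [a, hne]]
    positivity
  have hq0 : (0 : ℝ) < q := by exact_mod_cast (h.pr q hq).1.pos
  have hq0' : (0 : ℝ) < q' := by exact_mod_cast (h.pr q' hq').1.pos
  calc _ = wt c.y c.N q * wt c.y c.N q' * (q * q') / c.N ^ 2 * inn p c q q' Φ := by
        unfold inn
        rw [mul_sum]
        refine sum_congr rfl fun t _ => ?_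
        rw [mul_sum]
        refine sum_congr rfl fun t' _ => ?_
        simp only [a]
        by_cases hd : (q : ℤ) ∣ dl t t' ∧ (q' : ℤ) ∣ dl t t'
        · by_cases hc : IsCoprime t.1 t.2 ∧ IsCoprime t'.1 t'.2
          · rw [if_pos hd, if_pos ⟨hne, hc⟩, if_pos ⟨hc, hd⟩]; ring
          · rw [if_pos hd, if_neg fun hh => hc hh.2, if_neg fun hh => hc hh.1, mul_zero]
        · rw [if_neg hd, if_neg fun hh => hd hh.2, mul_zero]
    _ ≤ wt c.y c.N q * wt c.y c.N q' * (q * q') / c.N ^ 2 * (β / (q * q')) :=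
        mul_le_mul_of_nonneg_left (h1 q hq q' hq' hne) (by positivity)
    _ = _ := by field_simp

end Pool.Agent.P.MP_b8021b_nt.VE.PiP
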