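import Pool.Agent.P.MP_b8021b_nt.VE.StN

/-! Auxiliary lemmas for the sums of a ray class character of a quartic field. -/

namespace Pool.Agent.P.MP_b8021b_nt.VE

open NumberField Finset
open scoped Classical

namespace Rs4

variable {K : Type} [Field K] [NumberField K]

lemma norm_congr {n : ℕ} {x y : 𝓞 K} (h : (n : 𝓞 K) ∣ x - y) :
    ((Algebra.norm ℤ x : ℤ) : ZMod n) = (Algebra.norm ℤ y : ℤ) := by
  obtain ⟨z, hz⟩ := h
  have hx : x = y + (n : ℤ) • z := by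
    rw [zsmul_eq_mul, Int.cast_natCast]; linear_combination hz
  let b := RingOfIntegers.basis K
  rw [Algebra.norm_eq_matrix_det b, Algebra.norm_eq_matrix_det b]
  have e : ∀ M : Matrix (Module.Free.ChooseBasisIndex ℤ (𝓞 K))
      (Module.Free.ChooseBasisIndex ℤ (𝓞 K)) ℤ,
      ((M.det : ℤ) : ZMod n) = ((Int.castRingHom (ZMod n)).mapMatrix M).det :=
    fun M => (Int.castRingHom (ZMod n)).map_det M
  rw [e, e]
  congr 1
  ext i j
  rw [hx, map_add, map_zsmul]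
  simp only [RingHom.mapMatrix_apply, Matrix.map_apply, Matrix.add_apply, Matrix.smul_apply,
    smul_eq_mul, map_add, map_mul, map_natCast, ZMod.natCast_self, zero_mul, add_zero]

lemma dvd_norm_congr {n : ℕ} {x y : 𝓞 K} (h : (n : 𝓞 K) ∣ x - y) :
    n ∣ Ideal.absNorm (Ideal.span {x}) ↔ n ∣ Ideal.absNorm (Ideal.span {y}) := by
  rw [Ideal.absNorm_span_singleton, Ideal.absNorm_span_singleton, ← Int.natCast_dvd,
    ← Int.natCast_dvd, ← ZMod.intCast_zmod_eq_zero_iff_dvd, ← ZMod.intCast_zmod_eq_zero_iff_dvd,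
    norm_congr h]

lemma cop_iff (n : ℕ) (I : Ideal (𝓞 K)) : Cop n I ↔ (Ideal.absNorm I).Coprime n := by
  constructor
  · intro h
    obtain ⟨x, hx, y, hy, hxy⟩ := Submodule.mem_sup.1 ((Ideal.eq_top_iff_one _).1 h.sup_eq)
    have h1 : (n : 𝓞 K) ∣ 1 - x := by
      rw [← hxy, add_sub_cancel_left]; exact Ideal.mem_span_singleton.1 hy
    have h2 := norm_congr h1
    rw [map_one] at h2
    have h3 : (n : ℤ) ∣ Algebra.norm ℤ x - 1 := (ZMod.intCast_eq_intCast_iff_dvd_sub _ _ _).1 h2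
    obtain ⟨a, ha⟩ := Ideal.absNorm_dvd_norm_of_mem hx
    obtain ⟨b, hb⟩ := h3
    rw [← Nat.isCoprime_iff_coprime]
    exact ⟨a, -b, by linear_combination hb - ha⟩
  · intro h
    obtain ⟨a, b, hab⟩ := Nat.isCoprime_iff_coprime.2 h
    rw [Cop, Ideal.isCoprime_iff_exists]
    refine ⟨(a : 𝓞 K) * (Ideal.absNorm I : ℕ), I.mul_mem_left _ (Ideal.absNorm_mem I),
      (b : 𝓞 K) * n, Ideal.mul_mem_left _ _ (Ideal.mem_span_singleton_self _), ?_⟩
    exact_mod_cast congrArg (Int.cast : ℤ → 𝓞 K) hab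

omit [NumberField K] in
lemma cop_span {n : ℕ} {β : 𝓞 K} (h : (n : 𝓞 K) ∣ β - 1) : Cop n (Ideal.span {β}) := by
  obtain ⟨c, hc⟩ := h
  rw [Cop, Ideal.isCoprime_span_singleton_iff]
  exact ⟨1, -c, by linear_combination hc⟩

lemma ne_zero_of {n : ℕ} (hn : 2 ≤ n) {β : 𝓞 K} (h : (n : 𝓞 K) ∣ β - 1) : β ≠ 0 := by
  rintro rfl
  have := (cop_iff _ _).1 (cop_span h)
  simp at this
  omega

lemma ne_bot_of {n : ℕ} (hn : 2 ≤ n) {I : Ideal (𝓞 K)} (h : Cop n I) : I ≠ ⊥ := by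
  rintro rfl
  have := (cop_iff _ _).1 h
  simp at this
  omega

lemma clamp_zero {x : ℝ} (h : x ≤ 0) : clamp x = 0 := by
  unfold clamp; rw [max_eq_left]; exact (min_le_right _ _).trans h

lemma clamp_one {x : ℝ} (h : 1 ≤ x) : clamp x = 1 := by
  unfold clamp; rw [min_eq_left h]; norm_num

lemma clamp_pos {x : ℝ} (h : 0 < x) : 0 < clamp x :=
  lt_max_of_lt_right (lt_min one_pos h)

/-- the sum of the window function over a group that acts by translations is constant -/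
lemma tele {U : Type} [CommGroup U] (v : U → ℝ) (hv : ∀ a b, v (a * b) = v a + v b) (ε : U)
    (R : ℝ) (hR : 0 < R) (hε : v ε = R) (hfin : ∀ M : ℝ, {η | 0 < v η ∧ v η ≤ M}.Finite) :
    ∃ J : ℝ, 1 ≤ J ∧ ∀ t, ∑ᶠ η, (clamp (t + v η) - clamp (t + v η - R)) = J := by
  have h1 : v 1 = 0 := by have := hv 1 1; rw [one_mul] at this; linarith
  have hpow : ∀ n : ℕ, v (ε ^ n) = n * R := by
    intro n
    induction n with
    | zero => simp [h1]
    | succ n ih => rw [pow_succ, hv, ih, hε]; push_cast; ring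
  have hinv : v ε⁻¹ = -R := by have := hv ε ε⁻¹; rw [mul_inv_cancel, h1, hε] at this; linarith
  have hfin' : ∀ M : ℝ, {η | |v η| ≤ M}.Finite := by
    intro M
    obtain ⟨n, hn⟩ := exists_nat_gt (M / R)
    rw [div_lt_iff₀ hR] at hn
    refine ((hfin (M + n * R)).preimage (f := fun η => η * ε ^ n)
      (mul_left_injective _).injOn).subset ?_
    intro η hη
    have := abs_le.1 (show |v η| ≤ M from hη)
    simp only [Set.mem_preimage, Set.mem_ofPred_eq, hv, hpow]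
    constructor <;> linarith
  let st : ℝ → ℝ := fun x => if 0 < x then 1 else 0
  have hs : Function.support (fun η => st (v η) - st (v η - R)) ⊆ {η | 0 < v η ∧ v η ≤ R} := by
    intro η hη
    by_contra hc
    apply hη
    simp only [Set.mem_ofPred_eq, not_and_or, not_lt, not_le] at hc
    rcases hc with hc | hc
    · simp only [st]; rw [if_neg (by linarith), if_neg (by linarith), sub_self]
    · simp only [st]; rw [if_pos (by linarith), if_pos (by linarith), sub_self]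
  refine ⟨∑ᶠ η, (st (v η) - st (v η - R)), ?_, fun t => ?_⟩
  · rw [finsum_eq_sum_of_support_subset_of_finite _ hs (hfin R)]
    have hm : ε ∈ (hfin R).toFinset := by simp [hε, hR]
    have := single_le_sum (f := fun η => st (v η) - st (v η - R)) (fun η hη => by
      have := (Set.Finite.mem_toFinset _).1 hη
      simp only [st]; rw [if_pos this.1, if_neg (by linarith [this.2])]; norm_num) hm
    simpa [st, hε, hR] using this
  · let D : U → ℝ := fun η => clamp (t + v η) - st (v η)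
    have hD : (Function.support D).Finite := by
      refine (hfin' (|t| + 1)).subset fun η hη => ?_
      by_contra hc
      apply hη
      have h2 := le_abs_self t
      have h3 := neg_abs_le t
      have h4 := abs_nonneg t
      simp only [Set.mem_ofPred_eq, not_le, lt_abs] at hc
      rcases hc with hc | hc
      · simp only [D, st]; rw [if_pos (by linarith), clamp_one (by linarith), sub_self]
      · simp only [D, st]; rw [if_neg (by linarith), clamp_zero (by linarith), sub_self]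
    have hD' : (Function.support fun η => D (η * ε⁻¹)).Finite :=
      hD.preimage (f := fun η => η * ε⁻¹) (mul_left_injective _).injOn
    have e : ∀ η, clamp (t + v η) - clamp (t + v η - R) =
        (D η - D (η * ε⁻¹)) + (st (v η) - st (v η - R)) := by
      intro η
      simp only [D, hv, hinv]
      rw [show t + (v η + -R) = t + v η - R by ring, show v η + -R = v η - R by ring]; ring
    have hDD : (Function.support fun η => D η - D (η * ε⁻¹)).Finite :=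
      (hD.union hD').subset (Function.support_sub _ _)
    rw [finsum_congr e, finsum_add_distrib hDD ((hfin R).subset hs), finsum_sub_distrib hD hD']
    have := finsum_comp_equiv (Equiv.mulRight ε⁻¹) (f := D)
    simp only [Equiv.coe_mulRight] at this
    rw [this, sub_self, zero_add]

/-- logarithm of the ratio of the two absolute values -/
noncomputable def vv {Q : ℝ} (F : Quart K Q) (β : 𝓞 K) : ℝ :=
  Real.log ‖F.σ₁ β‖ - Real.log ‖F.σ₂ β‖

omit [NumberField K] in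
lemma sig_ne (σ : K →+* ℂ) {β : 𝓞 K} (h : β ≠ 0) : σ β ≠ 0 := by
  rw [map_ne_zero]; exact RingOfIntegers.coe_ne_zero_iff.2 h

lemma vv_mul {Q : ℝ} (F : Quart K Q) {a b : 𝓞 K} (ha : a ≠ 0) (hb : b ≠ 0) :
    vv F (a * b) = vv F a + vv F b := by
  have h : ∀ σ : K →+* ℂ, Real.log ‖σ (a * b : 𝓞 K)‖ = Real.log ‖σ a‖ + Real.log ‖σ b‖ := by
    intro σ
    rw [← Real.log_mul (norm_ne_zero_iff.2 (sig_ne σ ha)) (norm_ne_zero_iff.2 (sig_ne σ hb)),
      ← norm_mul, ← map_mul]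
    rfl
  simp only [vv, h]; ring

lemma dir_ne {z : ℂ} (h : z ≠ 0) : dir z ≠ 0 :=
  div_ne_zero h (by exact_mod_cast norm_ne_zero_iff.2 h)

lemma unit_norm {Q : ℝ} (F : Quart K Q) (η : (𝓞 K)ˣ) :
    ‖F.σ₁ (η : 𝓞 K)‖ ^ 2 * ‖F.σ₂ (η : 𝓞 K)‖ ^ 2 = 1 := by
  rw [← F.nrm, Ideal.span_singleton_eq_top.2 η.isUnit, Ideal.absNorm_top, Nat.cast_one]

lemma vv_unit {Q : ℝ} (F : Quart K Q) (η : (𝓞 K)ˣ) :
    vv F η = 2 * Real.log ‖F.σ₁ (η : 𝓞 K)‖ := by
  have h := congrArg Real.log (unit_norm F η)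
  rw [Real.log_mul (pow_ne_zero _ (norm_ne_zero_iff.2 (sig_ne _ η.ne_zero)))
    (pow_ne_zero _ (norm_ne_zero_iff.2 (sig_ne _ η.ne_zero))), Real.log_pow, Real.log_pow,
    Real.log_one] at h
  simp only [vv]; push_cast at h; linarith

/-- the sum of the window function over the generators of a principal ideal -/
lemma unit_sum {Q : ℝ} (F : Quart K Q) (m : ℕ) (ε : (𝓞 K)ˣ) (hε : (m : 𝓞 K) ∣ ε - 1) (R : ℝ)
    (hR : 0 < R) (hv : vv F ε = R)
    (hfin : ∀ M : ℝ, 0 < M → {β : 𝓞 K | wfn 0 0 1 M (F.σ₁ β) (F.σ₂ β) ≠ 0}.Finite) :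
    ∃ J : ℝ, 1 ≤ J ∧ ∀ β₀ : 𝓞 K, β₀ ≠ 0 → (m : 𝓞 K) ∣ β₀ - 1 →
      ∑ᶠ β ∈ {β : 𝓞 K | Ideal.span {β₀} = Ideal.span {β} ∧ (m : 𝓞 K) ∣ β - 1},
        (clamp (vv F β) - clamp (vv F β - R)) = J := by
  let U : Subgroup (𝓞 K)ˣ :=
    { carrier := {η | (m : 𝓞 K) ∣ η - 1}
      mul_mem' := fun {a b} ha hb => by
        have : ((a * b : (𝓞 K)ˣ) : 𝓞 K) - 1 = a * (b - 1) + (a - 1) := by push_cast; ring
        simp only [Set.mem_ofPred_eq] at ha hb ⊢
        rw [this]; exact dvd_add (hb.mul_left _) ha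
      one_mem' := by simp
      inv_mem' := fun {a} ha => by
        have : ((a⁻¹ : (𝓞 K)ˣ) : 𝓞 K) - 1 = -(a⁻¹ : (𝓞 K)ˣ) * (a - 1) := by
          have := a.inv_mul; linear_combination this
        simp only [Set.mem_ofPred_eq] at ha ⊢
        rw [this]; exact ha.mul_left _ }
  obtain ⟨J, hJ, hs⟩ := tele (U := U) (fun η => vv F (η : (𝓞 K)ˣ))
    (fun a b => vv_mul F (Units.ne_zero _) (Units.ne_zero _)) ⟨ε, hε⟩ R hR hv (fun M => by
      rcases le_or_gt M 0 with hM | hM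
      · refine Set.finite_empty.subset fun η hη => ?_
        exact absurd (hη.1.trans_le (hη.2.trans hM)) (lt_irrefl _)
      refine ((hfin M hM).preimage (f := fun η : U => ((η : (𝓞 K)ˣ) : 𝓞 K))
        (Units.val_injective.comp Subtype.val_injective).injOn).subset fun η hη => ?_
      have h1 : 0 < clamp (vv F (η : (𝓞 K)ˣ)) := clamp_pos hη.1
      have h2 : clamp (vv F (η : (𝓞 K)ˣ) - M) = 0 := clamp_zero (by linarith [hη.2])
      simp only [vv] at h1 h2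
      simp only [Set.mem_preimage, Set.mem_ofPred_eq, wfn, zpow_zero, one_mul, unit_norm, h2]
      have h3 : tent (1 / 1 - 3 / 2) = 1 / 2 := by
        unfold tent; rw [abs_of_neg (by norm_num)]; norm_num
      rw [h3, sub_zero]
      exact_mod_cast (mul_pos (by norm_num) h1).ne')
  refine ⟨J, hJ, fun β₀ h0 h1 => ?_⟩
  have hset : {β : 𝓞 K | Ideal.span {β₀} = Ideal.span {β} ∧ (m : 𝓞 K) ∣ β - 1} =
      Set.range fun η : U => β₀ * ((η : (𝓞 K)ˣ) : 𝓞 K) := by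
    ext β
    constructor
    · rintro ⟨h2, h3⟩
      obtain ⟨u, rfl⟩ := Ideal.span_singleton_eq_span_singleton.1 h2
      refine ⟨⟨u, ?_⟩, rfl⟩
      have : (u : 𝓞 K) - 1 = (β₀ * u - 1) - u * (β₀ - 1) := by ring
      show (m : 𝓞 K) ∣ u - 1
      rw [this]; exact dvd_sub h3 (h1.mul_left _)
    · rintro ⟨⟨u, hu⟩, rfl⟩
      refine ⟨Ideal.span_singleton_eq_span_singleton.2 ⟨u, rfl⟩, ?_⟩
      have : β₀ * u - 1 = u * (β₀ - 1) + (u - 1) := by ring
      show (m : 𝓞 K) ∣ β₀ * u - 1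
      rw [this]; exact dvd_add (h1.mul_left _) hu
  have hinj : Function.Injective fun η : U => β₀ * ((η : (𝓞 K)ˣ) : 𝓞 K) :=
    fun a b h => Subtype.ext (Units.ext (mul_left_cancel₀ h0 h))
  rw [hset, finsum_mem_range hinj, ← hs (vv F β₀)]
  refine finsum_congr fun η => ?_
  rw [vv_mul F h0 (Units.ne_zero _)]

/-- the weight of an ideal -/
noncomputable def gw (ψ : Ideal (𝓞 K) →* ℂ) (d : ℕ) (Y : ℝ) (A : Ideal (𝓞 K)) : ℂ :=
  if d ^ 2 ∣ Ideal.absNorm A then (tent (Ideal.absNorm A / Y - 3 / 2) : ℂ) * ψ A else 0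

/-- the ideals of bounded norm -/
noncomputable def Ids (K : Type) [Field K] [NumberField K] (n : ℕ) : Finset (Ideal (𝓞 K)) :=
  (Ideal.finite_setOfPred_absNorm_le (S := 𝓞 K) n).toFinset

lemma mem_Ids {n : ℕ} {A : Ideal (𝓞 K)} : A ∈ Ids K n ↔ Ideal.absNorm A ≤ n := by
  simp [Ids]

lemma tent_ne {x : ℝ} (h : tent x ≠ 0) : |x| < 1 := by
  by_contra hc
  exact h (max_eq_left (by linarith [not_lt.1 hc]))

lemma sum_eq (ψ : Ideal (𝓞 K) →* ℂ) (d : ℕ) {Y : ℝ} (hY : 0 < Y) :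
    ∑ j ∈ range ⌈3 * Y⌉₊ with d ^ 2 ∣ j, (tent (j / Y - 3 / 2) : ℂ) * lam ψ j =
      ∑ A ∈ Ids K ⌈3 * Y⌉₊, gw ψ d Y A := by
  rw [← sum_fiberwise_of_maps_to (s := Ids K ⌈3 * Y⌉₊) (t := range (⌈3 * Y⌉₊ + 1))
    (g := fun A => Ideal.absNorm A) (fun A hA => mem_range.2 (Nat.lt_succ_of_le (mem_Ids.1 hA))),
    sum_range_succ, sum_filter]
  have h0 : ∑ A ∈ Ids K ⌈3 * Y⌉₊ with Ideal.absNorm A = ⌈3 * Y⌉₊, gw ψ d Y A = 0 := by
    refine sum_eq_zero fun A hA => ?_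
    have h1 : tent (Ideal.absNorm A / Y - 3 / 2) = 0 := by
      by_contra hc
      have h2 := (abs_lt.1 (tent_ne hc)).2
      rw [(mem_filter.1 hA).2] at h2
      have h3 : 3 ≤ (⌈3 * Y⌉₊ : ℝ) / Y := by rw [le_div_iff₀ hY]; exact Nat.le_ceil _
      linarith
    simp [gw, h1]
  rw [h0, add_zero]
  refine sum_congr rfl fun j hj => ?_
  have h1 : lam ψ j = ∑ A ∈ Ids K ⌈3 * Y⌉₊ with Ideal.absNorm A = j, ψ A := by
    rw [lam, ← finsum_mem_coe_finset]
    refine finsum_mem_congr ?_ fun _ _ => rfl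
    ext A
    simp only [Set.mem_ofPred_eq, coe_filter, mem_Ids, iff_and_self]
    rintro rfl
    exact (mem_range.1 hj).le
  rw [h1]
  split_ifs with h
  · rw [mul_sum]
    refine sum_congr rfl fun A hA => ?_
    rw [gw, (mem_filter.1 hA).2, if_pos h]
  · refine (sum_eq_zero fun A hA => ?_).symm
    rw [gw, (mem_filter.1 hA).2, if_neg h]

/-- `A 𝔠` has a generator that is congruent to one -/
def Rel (m : ℕ) (𝔠 A : Ideal (𝓞 K)) : Prop :=
  ∃ β : 𝓞 K, (m : 𝓞 K) ∣ β - 1 ∧ A * 𝔠 = Ideal.span {β}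

/-- unfolding of the sum over one ray class -/
lemma class_sum {Q : ℝ} (F : Quart K Q) {m d : ℕ} (hm : 2 ≤ m) {k₁ k₂ : ℤ}
    {ψ : Ideal (𝓞 K) →* ℂ} (hψ : F.IsH m k₁ k₂ ψ) {Y R J : ℝ} (hY : 0 < Y) {𝔠 : Ideal (𝓞 K)}
    (h0 : 𝔠 ≠ ⊥) (hc : (Ideal.absNorm 𝔠).Coprime d)
    (hfin : {β : 𝓞 K | wfn k₁ k₂ (Y * Ideal.absNorm 𝔠) R (F.σ₁ β) (F.σ₂ β) ≠ 0}.Finite)
    (hJ : ∀ β₀ : 𝓞 K, β₀ ≠ 0 → (m : 𝓞 K) ∣ β₀ - 1 →
      ∑ᶠ β ∈ {β : 𝓞 K | Ideal.span {β₀} = Ideal.span {β} ∧ (m : 𝓞 K) ∣ β - 1},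
        (clamp (vv F β) - clamp (vv F β - R)) = J) :
    ∑ β ∈ hfin.toFinset with β ∈ 𝔠 ∧ (m : 𝓞 K) ∣ β - 1 ∧ d ^ 2 ∣ Ideal.absNorm (Ideal.span {β}),
      wfn k₁ k₂ (Y * Ideal.absNorm 𝔠) R (F.σ₁ β) (F.σ₂ β) =
      ψ 𝔠 * J * ∑ A ∈ Ids K ⌈3 * Y⌉₊ with Rel m 𝔠 A, gw ψ d Y A := by
  have hN : (0 : ℝ) < Ideal.absNorm 𝔠 := by
    exact_mod_cast Nat.pos_of_ne_zero (mt Ideal.absNorm_eq_zero_iff.1 h0)
  have hw : ∀ (A : Ideal (𝓞 K)) (β : 𝓞 K), (m : 𝓞 K) ∣ β - 1 → A * 𝔠 = Ideal.span {β} →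
      wfn k₁ k₂ (Y * Ideal.absNorm 𝔠) R (F.σ₁ β) (F.σ₂ β) =
        ψ 𝔠 * ((tent (Ideal.absNorm A / Y - 3 / 2) : ℂ) * ψ A) *
          (clamp (vv F β) - clamp (vv F β - R) : ℝ) := by
    intro A β h1 h2
    have h3 : ‖F.σ₁ β‖ ^ 2 * ‖F.σ₂ β‖ ^ 2 / (Y * Ideal.absNorm 𝔠) = Ideal.absNorm A / Y := by
      rw [← F.nrm, ← h2, map_mul]; push_cast; field_simp
    rw [wfn, ← hψ.prin β h1, h3, ← h2, map_mul, vv]; push_cast; ring
  have hd : ∀ (A : Ideal (𝓞 K)) (β : 𝓞 K), A * 𝔠 = Ideal.span {β} →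
      (d ^ 2 ∣ Ideal.absNorm (Ideal.span {β}) ↔ d ^ 2 ∣ Ideal.absNorm A) := by
    intro A β h2
    rw [← h2, map_mul]
    exact Nat.Coprime.dvd_mul_right (hc.symm.pow_left 2)
  let a : 𝓞 K → Ideal (𝓞 K) := fun β => if h : ∃ A, A * 𝔠 = Ideal.span {β} then h.choose else ⊥
  have ha : ∀ β ∈ 𝔠, a β * 𝔠 = Ideal.span {β} := by
    intro β hβ
    have h : ∃ A, A * 𝔠 = Ideal.span {β} := by
      obtain ⟨A, hA⟩ := Ideal.dvd_span_singleton.2 hβ
      exact ⟨A, by rw [hA, mul_comm]⟩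
    simp only [a, dif_pos h]; exact h.choose_spec
  rw [← sum_fiberwise_of_maps_to (t := (Ids K ⌈3 * Y⌉₊).filter (Rel m 𝔠)) (g := a), mul_sum]
  · refine sum_congr rfl fun A hA => ?_
    obtain ⟨β₀, hb1, hb2⟩ := (mem_filter.1 hA).2
    have hiff : ∀ β : 𝓞 K, (β ∈ 𝔠 ∧ a β = A) ↔ Ideal.span {β₀} = Ideal.span {β} := by
      intro β
      constructor
      · rintro ⟨h1, h2⟩; rw [← ha β h1, h2, hb2]
      · intro h
        have h1 : β ∈ 𝔠 := Ideal.mul_le_right (I := A)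
          (by rw [hb2, h]; exact Ideal.mem_span_singleton_self β)
        exact ⟨h1, mul_right_cancel₀ h0 (by rw [ha β h1, hb2, h])⟩
    by_cases hdA : d ^ 2 ∣ Ideal.absNorm A
    swap
    · rw [gw, if_neg hdA, mul_zero]
      refine sum_eq_zero fun β hβ => ?_
      simp only [mem_filter] at hβ
      exact absurd ((hd A β (by rw [← hβ.2]; exact ha β hβ.1.2.1)).1 hβ.1.2.2.2) hdA
    rw [gw, if_pos hdA, ← hJ β₀ (ne_zero_of hm hb1) hb1]
    have e1 : ∑ᶠ β ∈ {β : 𝓞 K | Ideal.span {β₀} = Ideal.span {β} ∧ (m : 𝓞 K) ∣ β - 1},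
        wfn k₁ k₂ (Y * Ideal.absNorm 𝔠) R (F.σ₁ β) (F.σ₂ β) =
        ∑ β ∈ (hfin.toFinset.filter fun β => β ∈ 𝔠 ∧ (m : 𝓞 K) ∣ β - 1 ∧
          d ^ 2 ∣ Ideal.absNorm (Ideal.span {β})) with a β = A,
          wfn k₁ k₂ (Y * Ideal.absNorm 𝔠) R (F.σ₁ β) (F.σ₂ β) := by
      refine finsum_mem_eq_sum_of_inter_support_eq _ ?_
      ext β
      simp only [Set.mem_inter_iff, Set.mem_ofPred_eq, coe_filter, mem_filter,
        Set.Finite.mem_toFinset, Function.mem_support, and_congr_left_iff]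
      intro hβ
      constructor
      · rintro ⟨h1, h2⟩
        obtain ⟨h3, h4⟩ := (hiff β).2 h1
        exact ⟨⟨hβ, h3, h2, (hd A β (hb2.trans h1)).2 hdA⟩, h4⟩
      · rintro ⟨⟨-, h3, h2, -⟩, h4⟩
        exact ⟨(hiff β).1 ⟨h3, h4⟩, h2⟩
    rw [← e1, finsum_mem_congr rfl (fun β hβ => hw A β hβ.2 (hb2.trans hβ.1)), ← mul_finsum_mem]
    have e2 := (Complex.ofRealHom.toAddMonoidHom.map_finsum_of_injective
      Complex.ofReal_injective fun β => ∑ᶠ (_ : β ∈ {β : 𝓞 K | Ideal.span {β₀} = Ideal.span {β} ∧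
        (m : 𝓞 K) ∣ β - 1}), (clamp (vv F β) - clamp (vv F β - R)))
    have e3 : ∀ (P : Prop) (x : ℝ), Complex.ofRealHom.toAddMonoidHom (∑ᶠ (_ : P), x) =
        ∑ᶠ (_ : P), (x : ℂ) := fun P x => by
      by_cases h : P <;> simp [h]
    simp only [e3] at e2
    rw [← e2]
    simp only [RingHom.toAddMonoidHom_eq_coe, AddMonoidHom.coe_coe, Complex.ofRealHom_eq_coe]
    ring
  · intro β hβ
    simp only [mem_filter, Set.Finite.mem_toFinset, Set.mem_ofPred_eq] at hβ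
    obtain ⟨h1, h2, h3, -⟩ := hβ
    refine mem_filter.2 ⟨mem_Ids.2 ?_, β, h3, ha β h2⟩
    rw [hw _ β h3 (ha β h2)] at h1
    have h4 : tent (Ideal.absNorm (a β) / Y - 3 / 2) ≠ 0 := by
      intro h; apply h1; simp [h]
    have h5 := (abs_lt.1 (tent_ne h4)).2
    have h6 : (Ideal.absNorm (a β) : ℝ) ≤ 3 * Y := by
      rw [← div_le_iff₀ hY]; linarith
    exact_mod_cast h6.trans (Nat.le_ceil _)

end Rs4

end Pool.Agent.P.MP_b8021b_nt.VE
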