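import Pool.Agent.P.MP_b8021b_nt.VE.PS2a

/-! The normalised functional kills all Galois orbits. -/

namespace Pool.Agent.P.MP_b8021b_nt.VE

open Polynomial Finset IntermediateField
open scoped Classical

namespace S2

theorem sum_roots {K L E : Type} [Field K] [Field L] [Field E] [Algebra K L] [Algebra K E]
    [FiniteDimensional K L] [Algebra.IsSeparable K L] [IsAlgClosed E] (u : L) (g : E → ℝ) :
    ∑ τ : L →ₐ[K] E, g (τ u) =
      Module.finrank K⟮u⟯ L * (((minpoly K u).aroots E).map g).sum := by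
  have hu : IsIntegral K u := Algebra.IsSeparable.isIntegral K u
  have h1 : FiniteDimensional K⟮u⟯ L := FiniteDimensional.right K _ L
  have h2 : Algebra.IsSeparable K⟮u⟯ L := Algebra.isSeparable_tower_top_of_isSeparable K _ L
  have h3 : ((minpoly K u).aroots E).Nodup :=
    nodup_roots (Polynomial.Separable.map (Algebra.IsSeparable.isSeparable K u))
  rw [Fintype.sum_equiv (algHomEquivSigma (B := K⟮u⟯)) (fun τ : L →ₐ[K] E => g (τ u))
    (fun σ => g (σ.1 (AdjoinSimple.gen K u))) fun _ => rfl, ← univ_sigma_univ, sum_sigma,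
    Finset.sum_multiset_map_count, ← Finset.sum_coe_sort (Multiset.toFinset _), mul_sum]
  refine Fintype.sum_equiv ((algHomAdjoinIntegralEquiv K hu).trans
    (Equiv.subtypeEquivRight fun _ => Multiset.mem_toFinset.symm)) _ _ fun σ => ?_
  let _ : Algebra K⟮u⟯ E := σ.toRingHom.toAlgebra
  have h4 := algHomAdjoinIntegralEquiv_symm_apply_gen K hu (algHomAdjoinIntegralEquiv K hu σ)
  rw [Equiv.symm_apply_apply] at h4
  simp only [sum_const, card_univ, AlgHom.card, nsmul_eq_mul, Equiv.trans_apply,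
    Equiv.subtypeEquivRight_apply_coe, ← h4]
  rw [Multiset.count_eq_one_of_mem h3 (h4 ▸ (algHomAdjoinIntegralEquiv K hu σ).2), Nat.cast_one,
    one_mul]

theorem sum_tower {K L : Type} [Field K] [NumberField K] [Field L] [NumberField L] [Algebra K L]
    (u : L) (g : (K →ₐ[ℚ] Qb) → Qb → ℝ) :
    ∑ τ : L →ₐ[ℚ] Qb, g (τ.comp (IsScalarTower.toAlgHom ℚ K L)) (τ u) =
      Module.finrank K⟮u⟯ L *
        ∑ σ : K →ₐ[ℚ] Qb, ((((minpoly K u).map (σ : K →+* Qb)).roots).map (g σ)).sum := by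
  rw [Fintype.sum_equiv (algHomEquivSigma (B := K))
    (fun τ : L →ₐ[ℚ] Qb => g (τ.comp (IsScalarTower.toAlgHom ℚ K L)) (τ u))
    (fun σ => g σ.1 (σ.2 u)) fun _ => rfl, ← univ_sigma_univ, sum_sigma, mul_sum]
  refine sum_congr rfl fun σ _ => ?_
  let _ : Algebra K Qb := σ.toRingHom.toAlgebra
  exact sum_roots (K := K) u (g σ)

theorem exists_hom {W : WeierstrassCurve ℚ} {L : Type} [Field L] [Algebra ℚ L] {x y : L}
    (h : (W.baseChange L).toAffine.Equation x y) :
    ∃ π : W.toAffine.CoordinateRing →ₐ[ℚ] L, π (cX W) = x ∧ π (cY W) = y := by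
  have e := (WeierstrassCurve.Affine.equation_iff _ _).1 h
  have h0 : W.toAffine.polynomial.eval₂ (aeval x : ℚ[X] →ₐ[ℚ] L).toRingHom y = 0 := by
    simp only [WeierstrassCurve.Affine.polynomial, eval₂_add, eval₂_sub, eval₂_mul, eval₂_pow,
      eval₂_X, eval₂_C, AlgHom.toRingHom_eq_coe, RingHom.coe_coe, map_add, map_mul, map_pow,
      aeval_X, aeval_C]
    simp only [WeierstrassCurve.baseChange, WeierstrassCurve.map_a₁, WeierstrassCurve.map_a₂,
      WeierstrassCurve.map_a₃, WeierstrassCurve.map_a₄, WeierstrassCurve.map_a₆] at e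
    linear_combination e
  refine ⟨(AdjoinRoot.lift _ y h0).toRatAlgHom, ?_, ?_⟩
  · exact (AdjoinRoot.lift_mk h0 _).trans (by simp)
  · exact (AdjoinRoot.lift_mk h0 _).trans (by simp)

end S2

open S2 S2a

theorem p_s2 (hA1 : S_A1) (hA2 : S_A2) (hS1 : S_S1) (hS2a : S_S2a) (hAlg : S_Alg) : S_S2 := by
  intro W _ l hl hl0 hl1 L _ _ P u hu
  obtain ⟨M, -, -⟩ := hA2 ℚ W
  have hz := hAlg _ M _ (hS2a W l hl hl0 hl1)
  rcases P with _ | ⟨x, y, hP⟩
  · refine sum_eq_zero fun τ _ => ?_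
    rw [ext0_ne _ ((_root_.map_ne_zero τ).2 hu)]
    exact hl0 _
  obtain ⟨π, rfl, rfl⟩ := exists_hom hP.1
  let K : IntermediateField ℚ L := π.range.toIntermediateField' (Subalgebra.isField_of_algebraic _)
  let π' : W.toAffine.CoordinateRing →ₐ[ℚ] K :=
    (π.toRingHom.codRestrict K fun a => π.mem_range_self a).toRatAlgHom
  have hs : Function.Surjective π' := by
    rintro ⟨_, a, rfl⟩
    exact ⟨a, rfl⟩
  have hi : IsIntegral K u := Algebra.IsIntegral.isIntegral u
  have h0 : (minpoly K u).coeff 0 ≠ 0 := minpoly.coeff_zero_ne_zero hi hu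
  obtain ⟨a, ha⟩ := hs ((-1) ^ (minpoly K u).natDegree * (minpoly K u).coeff 0)
  have key := hS1 W l hl K (.some _ _ (nonsing π')) (minpoly K u) (π' a) (minpoly.monic hi)
    (minpoly.natDegree_pos hi) (by
      rw [ha]
      exact mul_ne_zero (pow_ne_zero _ (by norm_num)) h0) (by
      rw [ha, ← mul_assoc, ← mul_pow]
      simp)
  have h1 := phiW_eq (l := l) π' hs
    (P := ⟨RingHom.ker π', RingHom.ker_isMaximal_of_surjective π' hs⟩) rfl a
  simp only [hl1, mul_zero, sub_zero, sum_sub_distrib] at key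
  rw [← h1, hz, sub_zero] at key
  have h2 := sum_tower (K := K) u fun σ => ext0 l (mp σ (.some _ _ (nonsing π')))
  rw [key, mul_zero] at h2
  exact h2

end Pool.Agent.P.MP_b8021b_nt.VE
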