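import Pool.Agent.P.MP_b8021b_nt.VE.PShell2
import Pool.Agent.P.MP_b8021b_nt.VE.PShell3

/-! Package shell: lattice points of a coset in discs and shells. -/

namespace Pool.Agent.P.MP_b8021b_nt.VE

namespace Shell

open MeasureTheory NumberField

/-- the test function -/
noncomputable def tf (N R m : ℕ) (X : ℝ) (ρ z : ℂ) : ℝ := sh N (X ^ 2) m z * fej R (dir z * ρ)

lemma tf_lip (hFej : S_Fej) {X : ℝ} (hX : 0 < X) {N R : ℕ} (hN : 1 ≤ N) (hR : 1 ≤ R) (m : ℕ)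
    {ρ : ℂ} (hρ : ‖ρ‖ = 1) (y y' : ℂ) :
    |tf N R m X ρ y' - tf N R m X ρ y| ≤ 8 * R ^ 2 * N / X * ‖y' - y‖ := by
  have hN1 : (1 : ℝ) ≤ N := by exact_mod_cast hN
  have hR1 : (1 : ℝ) ≤ R := by exact_mod_cast hR
  have hne : ∀ z : ℂ, ph N X m ‖z‖ ≠ 0 → z ≠ 0 := by
    rintro z hz rfl
    have := (ph_ne hX hN m hz).1
    rw [norm_zero] at this
    linarith
  have hu : ∀ z : ℂ, z ≠ 0 → ‖dir z * ρ‖ = 1 := fun z hz => by
    rw [norm_mul, dir_norm hz, hρ, one_mul]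
  have hl : ∀ y y' : ℂ, |ph N X m ‖y'‖ - ph N X m ‖y‖| ≤ 4 * N * ‖y' - y‖ / X := by
    intro y y'
    refine (ph_lip hX N m _ _).trans ?_
    gcongr
    exact abs_norm_sub_norm_le _ _
  have hRR : (R : ℝ) ≤ R ^ 2 := by nlinarith
  have one : ∀ y y' : ℂ, ph N X m ‖y'‖ = 0 →
      |tf N R m X ρ y' - tf N R m X ρ y| ≤ 8 * R ^ 2 * N / X * ‖y' - y‖ := by
    intro y y' h
    unfold tf
    rw [sh_eq hX hN, sh_eq hX hN, h, zero_mul, zero_sub, abs_neg]
    by_cases hy : ph N X m ‖y‖ = 0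
    · rw [hy, zero_mul, abs_zero]; positivity
    obtain ⟨f0, f1, -⟩ := hFej R _ hR (hu y (hne y hy))
    have h1 := hl y y'
    rw [h, zero_sub, abs_neg] at h1
    rw [abs_mul, abs_of_nonneg f0]
    calc _ ≤ 4 * N * ‖y' - y‖ / X * R ^ 2 := by gcongr; exact f1.trans hRR
      _ = 4 * R ^ 2 * N / X * ‖y' - y‖ := by ring
      _ ≤ _ := by gcongr; norm_num
  by_cases hy' : ph N X m ‖y'‖ = 0
  · exact one y y' hy'
  by_cases hy : ph N X m ‖y‖ = 0
  · rw [abs_sub_comm, norm_sub_rev]; exact one y' y hy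
  obtain ⟨f0, f1, f2, -⟩ := hFej R _ hR (hu y' (hne y' hy'))
  have f3 := f2 _ (hu y (hne y hy))
  rw [← sub_mul, norm_mul, hρ, mul_one] at f3
  have f4 := dir_lip (hne y hy) (hne y' hy')
  have f5 := (ph_ne hX hN m hy).1
  have f6 : ‖dir y' - dir y‖ ≤ 4 * ‖y' - y‖ / X := by
    refine f4.trans ?_
    calc _ ≤ 2 * ‖y' - y‖ / (X / 2) := by gcongr
      _ = _ := by field_simp; ring
  unfold tf
  rw [sh_eq hX hN, sh_eq hX hN]
  have e : ph N X m ‖y'‖ * fej R (dir y' * ρ) - ph N X m ‖y‖ * fej R (dir y * ρ) =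
      (ph N X m ‖y'‖ - ph N X m ‖y‖) * fej R (dir y' * ρ) +
        ph N X m ‖y‖ * (fej R (dir y' * ρ) - fej R (dir y * ρ)) := by ring
  rw [e]
  refine (abs_add_le _ _).trans ?_
  have p0 : 0 ≤ ph N X m ‖y‖ := tent_nonneg _
  have p1 : ph N X m ‖y‖ ≤ 1 := tent_le _
  rw [abs_mul, abs_mul, abs_of_nonneg f0, abs_of_nonneg p0]
  have a1 : |ph N X m ‖y'‖ - ph N X m ‖y‖| * fej R (dir y' * ρ) ≤
      4 * N * ‖y' - y‖ / X * R ^ 2 := by
    have := hl y y'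
    gcongr
    exact f1.trans hRR
  have a2 : ph N X m ‖y‖ * |fej R (dir y' * ρ) - fej R (dir y * ρ)| ≤
      N * (R ^ 2 * (4 * ‖y' - y‖ / X)) := by
    refine mul_le_mul (p1.trans hN1) (f3.trans ?_) (abs_nonneg _) (by positivity)
    gcongr
  calc _ ≤ 4 * N * ‖y' - y‖ / X * R ^ 2 + N * (R ^ 2 * (4 * ‖y' - y‖ / X)) := add_le_add a1 a2
    _ = _ := by ring

lemma tf_ne {X : ℝ} (hX : 0 < X) {N : ℕ} (hN : 1 ≤ N) (R m : ℕ) (ρ : ℂ) {y : ℂ}
    (h : tf N R m X ρ y ≠ 0) :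
    X * Real.exp ((m - 1) / (2 * N)) ≤ ‖y‖ ∧ ‖y‖ ≤ X * Real.exp ((m + 1) / (2 * N)) := by
  unfold tf at h
  rw [sh_eq hX hN] at h
  exact (ph_ne hX hN m (left_ne_zero_of_mul h)).2

lemma tf_int (hFej : S_Fej) {X : ℝ} (hX : 0 < X) {N R : ℕ} (hN : 1 ≤ N) (hR : 1 ≤ R) (m : ℕ)
    {ρ : ℂ} (hρ : ‖ρ‖ = 1) :
    ∫ z, tf N R m X ρ z =
      Real.pi * X ^ 2 * Real.exp (m / N) / N * ∫ v, tent v * Real.exp (1 / N * v) := by
  have hN0 : (0 : ℝ) < N := by exact_mod_cast hN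
  rw [← Complex.integral_comp_polarCoord_symm, polarCoord_target]
  have e : ∫ p in Set.Ioi (0 : ℝ) ×ˢ Set.Ioo (-Real.pi) Real.pi,
      p.1 • tf N R m X ρ (Complex.polarCoord.symm p) =
      ∫ p in Set.Ioi (0 : ℝ) ×ˢ Set.Ioo (-Real.pi) Real.pi,
        (p.1 * tent (N * Real.log (p.1 ^ 2 / X ^ 2) - m)) *
          fej R (Complex.exp (p.2 * Complex.I) * ρ) := by
    refine setIntegral_congr_fun (measurableSet_Ioi.prod measurableSet_Ioo) fun p hp => ?_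
    have h1 : 0 < p.1 := hp.1
    have h2 : Complex.polarCoord.symm p = p.1 * Complex.exp (p.2 * Complex.I) := by
      rw [Complex.polarCoord_symm_apply, Complex.exp_mul_I]
      push_cast; rfl
    have h3 : ‖Complex.polarCoord.symm p‖ = p.1 := by
      rw [h2, norm_mul, Complex.norm_exp_ofReal_mul_I, Complex.norm_real, Real.norm_eq_abs,
        abs_of_pos h1, mul_one]
    have h4 : Complex.polarCoord.symm p ≠ 0 := by
      rw [← norm_pos_iff, h3]; exact h1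
    have h5 : dir (Complex.polarCoord.symm p) = Complex.exp (p.2 * Complex.I) := by
      unfold dir
      rw [h3, h2, mul_div_cancel_left₀]
      exact_mod_cast h1.ne'
    simp only [tf, sh, if_neg h4, h3, h5, smul_eq_mul]
    ring
  rw [e, Measure.volume_eq_prod, setIntegral_prod_mul
    (fun r : ℝ => r * tent (N * Real.log (r ^ 2 / X ^ 2) - m))
    (fun θ : ℝ => fej R (Complex.exp (θ * Complex.I) * ρ)), radial hX hN,
    ← integral_Ioc_eq_integral_Ioo,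
    ← intervalIntegral.integral_of_le (by linarith [Real.pi_pos]), (hFej R ρ hR hρ).2.2.2.2.2]
  field_simp

lemma vol_ann {a b : ℝ} (hb : 0 ≤ b) (hab : a ≤ b) :
    volume.real (Metric.closedBall (0 : ℂ) b \ Metric.ball 0 a) ≤ Real.pi * (2 * b * (b - a)) := by
  have hpi := Real.pi_pos
  rcases le_total a 0 with h | h
  · refine (measureReal_mono Set.sdiff_subset (measure_closedBall_lt_top).ne).trans ?_
    rw [vol_ball _ hb]
    gcongr
    nlinarith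
  · rw [measureReal_sdiff (Metric.ball_subset_closedBall.trans (Metric.closedBall_subset_closedBall hab))
      measurableSet_ball (measure_closedBall_lt_top).ne, vol_ball _ hb, measureReal_def,
      ← Measure.addHaar_closedBall_eq_addHaar_ball, ← measureReal_def, vol_ball _ h, ← mul_sub]
    gcongr
    nlinarith

lemma shell (hIQb : S_IQb) (hLat : S_Lat) (hFej : S_Fej) (u : ℕ) {L : Type} [Field L]
    [NumberField L] (K : IQ L) (𝔟 : Ideal (𝓞 L)) (n₁ : ℕ) (α₀ : 𝓞 L) (r₀ : ℝ) (hn : 1 ≤ n₁)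
    (hb : (n₁ : 𝓞 L) ∈ 𝔟) (hr : n₁ * (1 + √|(K.D : ℝ)|) ≤ r₀) (X : ℝ) (N R m : ℕ) (ρ : ℂ)
    (hN : 1 ≤ N) (hR : 1 ≤ R) (hm : m ≤ u * N) (hρ : ‖ρ‖ = 1) (hX : N * r₀ ≤ X) :
    |∑ᶠ α ∈ {α : 𝓞 L | α - α₀ ∈ 𝔟}, sh N (X ^ 2) m (K.σ α) * fej R (dir (K.σ α) * ρ) -
      Real.pi * X ^ 2 * Real.exp (m / N) / (N * (Ideal.absNorm 𝔟 * cov L))| ≤
      (400 * Real.exp (u + 1) ^ 2) * (X ^ 2 / (N * (Ideal.absNorm 𝔟 * cov L))) *
        (1 / (N : ℝ) ^ 2 + R ^ 2 * N * r₀ / X) := by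
  have h0 := r0_pos K n₁ r₀ hn hr
  have hN1 : (1 : ℝ) ≤ N := by exact_mod_cast hN
  have hN0 : (0 : ℝ) < N := by linarith
  have hX0 : 0 < X := lt_of_lt_of_le (by positivity) hX
  have hV := vol_pos 𝔟 (ne_bot 𝔟 n₁ hn hb)
  have hpi := Real.pi_pos
  have hpi4 := Real.pi_le_four
  have hm' : (m : ℝ) ≤ u * N := by exact_mod_cast hm
  set E : ℝ := Real.exp (u + 1) with hE
  have hE1 : 1 ≤ E := Real.one_le_exp (by positivity)
  set r₁ : ℝ := X * Real.exp ((m - 1) / (2 * N)) with hr₁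
  set r₂ : ℝ := X * Real.exp ((m + 1) / (2 * N)) with hr₂
  have hr2E : r₂ ≤ X * E := by
    refine mul_le_mul_of_nonneg_left (Real.exp_le_exp.mpr ?_) hX0.le
    rw [div_le_iff₀ (by positivity)]
    have : (0 : ℝ) ≤ u := Nat.cast_nonneg _
    nlinarith
  have hr2p : 0 < r₂ := by positivity
  have h12 : r₁ = r₂ * Real.exp (-(1 / N)) := by
    rw [hr₁, hr₂, mul_assoc, ← Real.exp_add]
    congr 2
    field_simp; ring
  have hd : r₂ - r₁ ≤ X * E / N := by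
    have h1 := Real.add_one_le_exp (-(1 / (N : ℝ)))
    have h2 : r₂ * (-(1 / N) + 1) ≤ r₁ := by rw [h12]; gcongr
    have h3 : r₂ / N ≤ X * E / N := by gcongr
    have h4 : r₂ * (-(1 / N) + 1) = r₂ - r₂ / N := by ring
    linarith
  have hle : r₁ ≤ r₂ := by
    rw [h12]
    exact mul_le_of_le_one_right hr2p.le (Real.exp_le_one_iff.mpr (by simp))
  have hr0N : r₀ ≤ X / N := by rw [le_div_iff₀ hN0]; linarith
  have hr0X : r₀ ≤ X := by nlinarith
  have hlip := tf_lip hFej hX0 hN hR m hρ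
  have hcont : Continuous (tf N R m X ρ) := by
    refine (LipschitzWith.of_dist_le' (K := 8 * R ^ 2 * N / X) fun y y' => ?_).continuous
    rw [Real.dist_eq, dist_eq_norm]
    exact hlip y' y
  have hsupp : HasCompactSupport (tf N R m X ρ) := by
    refine HasCompactSupport.intro (isCompact_closedBall 0 r₂) fun z hz => ?_
    by_contra h
    exact hz (mem_closedBall_zero_iff.mpr (tf_ne hX0 hN R m ρ h).2)
  have key := lat hIQb hLat K 𝔟 n₁ α₀ r₀ hn hb hr (tf N R m X ρ) (8 * R ^ 2 * N / X * r₀)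
    (Metric.closedBall 0 (r₂ + r₀) \ Metric.ball 0 (r₁ - r₀)) hcont hsupp
    ((measure_mono Set.sdiff_subset).trans_lt measure_closedBall_lt_top).ne ?_ ?_
  rotate_left
  · intro y h hh
    refine (hlip y (y + h)).trans ?_
    rw [add_sub_cancel_left]
    gcongr
  · intro y h hh hy
    obtain ⟨a1, a2⟩ := tf_ne hX0 hN R m ρ hy
    refine ⟨mem_closedBall_zero_iff.mpr ((norm_add_le _ _).trans (add_le_add a2 hh)), ?_⟩
    rw [mem_ball_zero_iff, not_lt]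
    have := norm_sub_le (y + h) h
    rw [add_sub_cancel_right] at this
    linarith
  have hvol := vol_ann (a := r₁ - r₀) (b := r₂ + r₀) (by positivity) (by linarith)
  have hvol2 : volume.real (Metric.closedBall (0 : ℂ) (r₂ + r₀) \ Metric.ball 0 (r₁ - r₀)) ≤
      48 * E ^ 2 * (X ^ 2 / N) := by
    refine hvol.trans ?_
    have b1 : r₂ + r₀ ≤ 2 * (X * E) := by nlinarith
    have b0 : X / N ≤ X * E / N := by gcongr; nlinarith
    have b2 : r₂ + r₀ - (r₁ - r₀) ≤ 3 * (X * E / N) := by linarith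
    have b3 : 0 ≤ r₂ + r₀ - (r₁ - r₀) := by linarith
    calc _ ≤ 4 * (2 * (2 * (X * E)) * (3 * (X * E / N))) := by gcongr
      _ = _ := by ring
  rw [tf_int hFej hX0 hN hR m hρ] at key
  have hI := tent_exp (t := 1 / N) (by
    rw [abs_of_pos (by positivity), div_le_one hN0]; exact hN1)
  set I : ℝ := ∫ v, tent v * Real.exp (1 / N * v) with hIdef
  set V : ℝ := Ideal.absNorm 𝔟 * cov L with hVdef
  have hmE : Real.exp (m / N) ≤ E ^ 2 := by
    refine le_trans (Real.exp_le_exp.mpr ?_) (by nlinarith : E ≤ E ^ 2)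
    rw [div_le_iff₀ hN0]; nlinarith
  have c1 : |Real.pi * X ^ 2 * Real.exp (m / N) / N * I / V -
      Real.pi * X ^ 2 * Real.exp (m / N) / (N * V)| ≤
      400 * E ^ 2 * (X ^ 2 / (N * V)) * (1 / (N : ℝ) ^ 2) := by
    have e : Real.pi * X ^ 2 * Real.exp (m / N) / N * I / V -
        Real.pi * X ^ 2 * Real.exp (m / N) / (N * V) =
        Real.pi * Real.exp (m / N) * (X ^ 2 / (N * V)) * (I - 1) := by field_simp
    rw [e, abs_mul, abs_of_pos (by positivity)]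
    rw [div_pow, one_pow] at hI
    gcongr
    linarith
  have c2 : 8 * R ^ 2 * N / X * r₀ *
      volume.real (Metric.closedBall (0 : ℂ) (r₂ + r₀) \ Metric.ball 0 (r₁ - r₀)) / V ≤
      400 * E ^ 2 * (X ^ 2 / (N * V)) * (R ^ 2 * N * r₀ / X) := by
    calc _ ≤ 8 * R ^ 2 * N / X * r₀ * (48 * E ^ 2 * (X ^ 2 / N)) / V := by gcongr
      _ = 384 * E ^ 2 * (X ^ 2 / (N * V)) * (R ^ 2 * N * r₀ / X) := by field_simp; ring
      _ ≤ _ := by gcongr; norm_num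
  refine (abs_sub_le _ (Real.pi * X ^ 2 * Real.exp (m / N) / N * I / V) _).trans ?_
  rw [mul_add]
  have key' := key.trans c2
  unfold tf at key'
  linarith

end Shell

theorem p_shell (hIQb : S_IQb) (hLat : S_Lat) (hFej : S_Fej) : S_Shell := by
  intro u
  have hE1 : 1 ≤ Real.exp (u + 1) := Real.one_le_exp (by positivity)
  have hC : 289 ≤ 400 * Real.exp (u + 1) ^ 2 := by nlinarith
  refine ⟨400 * Real.exp (u + 1) ^ 2, by linarith, ?_⟩
  intro L _ _ K 𝔟 n₁ α₀ r₀ hn hb hr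
  exact ⟨Shell.near K 𝔟 n₁ α₀ r₀ hn hb hr,
    fun ζ ϱ => ⟨Shell.finite_ball hIQb K ζ ϱ,
      fun h => Shell.count hIQb hLat K 𝔟 n₁ α₀ r₀ hn hb hr ζ h hC⟩,
    fun X N R m ρ => Shell.shell hIQb hLat hFej u K 𝔟 n₁ α₀ r₀ hn hb hr X N R m ρ⟩

end Pool.Agent.P.MP_b8021b_nt.VE
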