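import Pool.Agent.P.MP_b8021b_nt.VE.StN

/-! Package shell, part 1: an ideal of an imaginary quadratic field as a lattice in the plane. -/

namespace Pool.Agent.P.MP_b8021b_nt.VE.Shell

open NumberField MeasureTheory Module
open scoped Classical ComplexConjugate

variable {L : Type} [Field L] [NumberField L]

/-- the embedding of the ring of integers -/
noncomputable def em (K : IQ L) : 𝓞 L →+* ℂ := K.σ.comp (algebraMap (𝓞 L) L)

lemma em_apply (K : IQ L) (α : 𝓞 L) : em K α = K.σ α := rfl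

lemma em_inj (K : IQ L) : Function.Injective (em K) :=
  K.σ.injective.comp (RingOfIntegers.coe_injective)

lemma cov_pos : 0 < cov L := by
  unfold cov
  have h : (discr L : ℝ) ≠ 0 := by exact_mod_cast discr_ne_zero L
  have := abs_pos.mpr h
  positivity

lemma det_oneI (w : Fin 2 → ℂ) :
    Complex.basisOneI.det w = (w 0).re * (w 1).im - (w 1).re * (w 0).im := by
  rw [Basis.det_apply, Matrix.det_fin_two]
  simp [Basis.toMatrix_apply]

lemma vol_oneI : volume.real (ZSpan.fundamentalDomain Complex.basisOneI) = 1 := by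
  rw [measureReal_congr (ZSpan.fundamentalDomain_ae_parallelepiped Complex.basisOneI volume)]
  have h := Complex.orthonormalBasisOneI.volume_parallelepiped
  have h2 : (Complex.basisOneI : Fin 2 → ℂ) = Complex.orthonormalBasisOneI := by
    rw [← Complex.toBasis_orthonormalBasisOneI]; rfl
  rw [measureReal_def, h2, h]; simp

lemma exists_basis (hIQb : S_IQb) (K : IQ L) (𝔟 : Ideal (𝓞 L)) (hb : 𝔟 ≠ ⊥) :
    ∃ w : Basis (Fin 2) ℝ ℂ,
      (∀ z, z ∈ Submodule.span ℤ (Set.range w) ↔ ∃ β ∈ 𝔟, em K β = z) ∧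
      volume.real (ZSpan.fundamentalDomain w) = Ideal.absNorm 𝔟 * cov L := by
  obtain ⟨e, he⟩ := (hIQb L K).2.2.2.2.2.2.2.2.2.2.2.1
  let bI := Ideal.selfBasis e 𝔟 hb
  have hdet := Ideal.natAbs_det_basis_change e 𝔟 bI
  let w : Fin 2 → ℂ := fun j => em K (bI j)
  have hw : ∀ j, w j = (e.repr (bI j) 0 : ℂ) * em K (e 0) + (e.repr (bI j) 1 : ℂ) * em K (e 1) := by
    intro j
    have h := e.sum_repr (bI j : 𝓞 L)
    rw [Fin.sum_univ_two] at h
    have h2 := congrArg (em K) h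
    simp only [zsmul_eq_mul, map_add, map_mul, map_intCast] at h2
    exact h2.symm
  have hd : Complex.basisOneI.det w =
      (e.det ((↑) ∘ bI) : ℝ) * (-(em K (e 0) * conj (em K (e 1))).im) := by
    rw [det_oneI, hw 0, hw 1, Basis.det_apply, Matrix.det_fin_two]
    simp [Basis.toMatrix_apply]
    ring
  have habs : |Complex.basisOneI.det w| = Ideal.absNorm 𝔟 * cov L := by
    rw [hd, abs_mul, abs_neg, ← hdet, ← he, Nat.cast_natAbs, Int.cast_abs]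
    rfl
  have hN : (0 : ℝ) < Ideal.absNorm 𝔟 := by
    have : Ideal.absNorm 𝔟 ≠ 0 := by rwa [Ne, Ideal.absNorm_eq_zero_iff]
    exact_mod_cast Nat.pos_of_ne_zero this
  have hne : Complex.basisOneI.det w ≠ 0 := by
    intro h
    rw [h, abs_zero] at habs
    have := mul_pos hN (cov_pos (L := L))
    linarith
  obtain ⟨hli, hsp⟩ := (Complex.basisOneI.is_basis_iff_det (v := w)).mpr (Ne.isUnit hne)
  refine ⟨Basis.mk hli hsp.ge, ?_, ?_⟩
  · intro z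
    rw [Basis.coe_mk, Submodule.mem_span_range_iff_exists_fun]
    constructor
    · rintro ⟨c, rfl⟩
      refine ⟨((∑ i, c i • bI i : 𝔟) : 𝓞 L), Subtype.prop _, ?_⟩
      simp [w, Fin.sum_univ_two]
    · rintro ⟨β, hβ, rfl⟩
      refine ⟨fun i => bI.repr ⟨β, hβ⟩ i, ?_⟩
      have h := congrArg (fun x : 𝔟 => em K (x : 𝓞 L)) (bI.sum_repr ⟨β, hβ⟩)
      simp only [Fin.sum_univ_two, Submodule.coe_add, Submodule.coe_smul_of_tower, map_add,
        map_zsmul] at h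
      rw [Fin.sum_univ_two]
      exact h
  · rw [ZSpan.measureReal_fundamentalDomain _ _ Complex.basisOneI, vol_oneI, mul_one,
      Basis.coe_mk, habs]

lemma finite_ball (hIQb : S_IQb) (K : IQ L) (ζ : ℂ) (ϱ : ℝ) :
    {α : 𝓞 L | ‖K.σ α - ζ‖ ≤ ϱ}.Finite := by
  obtain ⟨w, hw, -⟩ := exists_basis hIQb K ⊤ (by simp)
  have h := ZSpan.setFinite_inter w (Metric.isBounded_closedBall (x := ζ) (r := ϱ))
  refine (h.preimage (em_inj K).injOn).subset ?_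
  intro α hα
  refine ⟨?_, (hw _).mpr ⟨α, trivial, rfl⟩⟩
  rw [Metric.mem_closedBall, dist_eq_norm]
  exact hα

lemma om_re (K : IQ L) : (em K K.ω).re = 0 ∧ |(em K K.ω).im| = √|(K.D : ℝ)| := by
  have h : em K K.ω ^ 2 = (K.D : ℂ) := by rw [← map_pow, K.sq, map_intCast]
  have h1 := congrArg Complex.re h
  have h2 := congrArg Complex.im h
  simp only [sq, Complex.mul_re, Complex.mul_im, Complex.intCast_re, Complex.intCast_im] at h1 h2
  have hD : (K.D : ℝ) < 0 := by exact_mod_cast K.neg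
  have hre : (em K K.ω).re = 0 := by
    by_contra hne
    have : (em K K.ω).im = 0 := by
      have : (em K K.ω).re * (em K K.ω).im = 0 := by linarith
      exact (mul_eq_zero.mp this).resolve_left hne
    rw [this] at h1
    nlinarith [mul_self_nonneg (em K K.ω).re]
  refine ⟨hre, ?_⟩
  rw [hre] at h1
  rw [abs_of_neg hD, ← Real.sqrt_sq_eq_abs]
  congr 1
  nlinarith

lemma om_norm (K : IQ L) : ‖em K K.ω‖ = √|(K.D : ℝ)| := by
  rw [← (om_re K).2, Complex.norm_eq_sqrt_sq_add_sq, (om_re K).1, ← Real.sqrt_sq_eq_abs]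
  simp

lemma om_im_ne (K : IQ L) : (em K K.ω).im ≠ 0 := by
  intro h
  have h2 := (om_re K).2
  rw [h, abs_zero] at h2
  have hD : (K.D : ℝ) ≠ 0 := by exact_mod_cast K.neg.ne
  have : 0 < √|(K.D : ℝ)| := Real.sqrt_pos.mpr (abs_pos.mpr hD)
  linarith

lemma comb_norm (K : IQ L) (n₁ : ℕ) (r₀ : ℝ) (hr : n₁ * (1 + √|(K.D : ℝ)|) ≤ r₀) (a b : ℝ)
    (ha : |a| ≤ 1) (hb : |b| ≤ 1) :
    ‖(a : ℂ) * n₁ + (b : ℂ) * (n₁ * em K K.ω)‖ ≤ r₀ := by
  refine (norm_add_le _ _).trans (le_trans ?_ hr)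
  rw [norm_mul, norm_mul, norm_mul, om_norm, Complex.norm_real, Complex.norm_real,
    Complex.norm_natCast, Real.norm_eq_abs, Real.norm_eq_abs]
  have h1 : (0 : ℝ) ≤ n₁ := Nat.cast_nonneg _
  have h2 : 0 ≤ √|(K.D : ℝ)| := Real.sqrt_nonneg _
  nlinarith [mul_nonneg h1 h2]

lemma near (K : IQ L) (𝔟 : Ideal (𝓞 L)) (n₁ : ℕ) (α₀ : 𝓞 L) (r₀ : ℝ) (hn : 1 ≤ n₁)
    (hb : (n₁ : 𝓞 L) ∈ 𝔟) (hr : n₁ * (1 + √|(K.D : ℝ)|) ≤ r₀) (ζ : ℂ) :
    ∃ α, α - α₀ ∈ 𝔟 ∧ ‖K.σ α - ζ‖ ≤ r₀ := by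
  have hn0 : (n₁ : ℝ) ≠ 0 := by exact_mod_cast (by omega : n₁ ≠ 0)
  have hi := om_im_ne K
  set a : ℝ := (ζ - em K α₀).re / n₁ with ha
  set b : ℝ := (ζ - em K α₀).im / (n₁ * (em K K.ω).im) with hbb
  have hz : ζ - em K α₀ = (a : ℂ) * n₁ + (b : ℂ) * (n₁ * em K K.ω) := by
    apply Complex.ext
    · simp only [Complex.add_re, Complex.mul_re, Complex.ofReal_re, Complex.ofReal_im,
        Complex.natCast_re, Complex.natCast_im, Complex.mul_im, (om_re K).1]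
      rw [ha]; field_simp; ring
    · simp only [Complex.add_im, Complex.mul_re, Complex.ofReal_re, Complex.ofReal_im,
        Complex.natCast_re, Complex.natCast_im, Complex.mul_im, (om_re K).1]
      rw [hbb]; field_simp; ring
  refine ⟨α₀ + (⌊a⌋ : 𝓞 L) * n₁ + (⌊b⌋ : 𝓞 L) * K.ω * n₁, ?_, ?_⟩
  · have : α₀ + (⌊a⌋ : 𝓞 L) * n₁ + (⌊b⌋ : 𝓞 L) * K.ω * n₁ - α₀ =
        ((⌊a⌋ : 𝓞 L) + (⌊b⌋ : 𝓞 L) * K.ω) * n₁ := by ring
    rw [this]
    exact 𝔟.mul_mem_left _ hb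
  · rw [← em_apply, norm_sub_rev]
    have : ζ - em K (α₀ + (⌊a⌋ : 𝓞 L) * n₁ + (⌊b⌋ : 𝓞 L) * K.ω * n₁) =
        ((Int.fract a : ℝ) : ℂ) * n₁ + ((Int.fract b : ℝ) : ℂ) * (n₁ * em K K.ω) := by
      simp only [map_add, map_mul, map_intCast, map_natCast, Int.fract, Complex.ofReal_sub,
        Complex.ofReal_intCast]
      linear_combination hz
    rw [this]
    apply comb_norm K n₁ r₀ hr
    · rw [abs_of_nonneg (Int.fract_nonneg _)]; exact (Int.fract_lt_one _).le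
    · rw [abs_of_nonneg (Int.fract_nonneg _)]; exact (Int.fract_lt_one _).le

lemma ne_bot (𝔟 : Ideal (𝓞 L)) (n₁ : ℕ) (hn : 1 ≤ n₁) (hb : (n₁ : 𝓞 L) ∈ 𝔟) : 𝔟 ≠ ⊥ := by
  rintro rfl
  rw [Ideal.mem_bot] at hb
  have : n₁ = 0 := by exact_mod_cast hb
  omega

lemma vol_pos (𝔟 : Ideal (𝓞 L)) (hb : 𝔟 ≠ ⊥) : 0 < (Ideal.absNorm 𝔟 : ℝ) * cov L := by
  have : Ideal.absNorm 𝔟 ≠ 0 := by rwa [Ne, Ideal.absNorm_eq_zero_iff]
  have hN : (0 : ℝ) < Ideal.absNorm 𝔟 := by exact_mod_cast Nat.pos_of_ne_zero this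
  exact mul_pos hN cov_pos

/-- the lattice sum of a real test function over a coset -/
lemma lat (hIQb : S_IQb) (hLat : S_Lat) (K : IQ L) (𝔟 : Ideal (𝓞 L)) (n₁ : ℕ) (α₀ : 𝓞 L) (r₀ : ℝ)
    (hn : 1 ≤ n₁) (hb : (n₁ : 𝓞 L) ∈ 𝔟) (hr : n₁ * (1 + √|(K.D : ℝ)|) ≤ r₀) (g : ℂ → ℝ) (κ : ℝ)
    (S : Set ℂ) (hg : Continuous g) (hc : HasCompactSupport g) (hS : volume S ≠ ⊤)
    (h1 : ∀ y h : ℂ, ‖h‖ ≤ r₀ → |g (y + h) - g y| ≤ κ)
    (h2 : ∀ y h : ℂ, ‖h‖ ≤ r₀ → g y ≠ 0 → y + h ∈ S) :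
    |∑ᶠ α ∈ {α : 𝓞 L | α - α₀ ∈ 𝔟}, g (K.σ α) - (∫ y, g y) / (Ideal.absNorm 𝔟 * cov L)| ≤
      κ * volume.real S / (Ideal.absNorm 𝔟 * cov L) := by
  obtain ⟨w, hw, hvol⟩ := exists_basis hIQb K 𝔟 (ne_bot 𝔟 n₁ hn hb)
  have hn0 : (n₁ : ℝ) ≠ 0 := by exact_mod_cast (by omega : n₁ ≠ 0)
  let v : Fin 2 → ℂ := ![n₁, n₁ * em K K.ω]
  have hne : Complex.basisOneI.det v ≠ 0 := by
    rw [det_oneI]
    simp only [v, Matrix.cons_val_zero, Matrix.cons_val_one, Complex.natCast_re, Complex.mul_im,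
      Complex.natCast_im, zero_mul, add_zero, mul_zero, sub_zero]
    exact mul_ne_zero hn0 (mul_ne_zero hn0 (om_im_ne K))
  obtain ⟨hli, hsp⟩ := (Complex.basisOneI.is_basis_iff_det (v := v)).mpr (Ne.isUnit hne)
  have hcv : ZLattice.covolume (Submodule.span ℤ (Set.range w)) volume =
      Ideal.absNorm 𝔟 * cov L := by
    rw [ZLattice.covolume_eq_measure_fundamentalDomain _ _ (ZSpan.isAddFundamentalDomain w volume),
      hvol]
  have hsum : ∀ c : Fin 2 → ℝ, (∀ j, |c j| ≤ 1) → ‖∑ j, c j • Basis.mk hli hsp.ge j‖ ≤ r₀ := by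
    intro c hc
    rw [Fin.sum_univ_two, Basis.coe_mk]
    simpa [v] using comb_norm K n₁ r₀ hr (c 0) (c 1) (hc 0) (hc 1)
  have key := hLat ℂ volume (Submodule.span ℤ (Set.range w)) (Fin 2) (Basis.mk hli hsp.ge)
    (fun z => (g z : ℂ)) κ S (em K α₀) ?_ (Complex.continuous_ofReal.comp hg)
    (hc.comp_left (g := fun x : ℝ => (x : ℂ)) (by simp)) hS ?_ ?_
  · rw [hcv, integral_complex_ofReal] at key
    have e1 : ∑ᶠ x ∈ (Submodule.span ℤ (Set.range w) : Set ℂ), (g (em K α₀ + x) : ℂ) =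
        ((∑ᶠ α ∈ {α : 𝓞 L | α - α₀ ∈ 𝔟}, g (K.σ α) : ℝ) : ℂ) := by
      have hinj : Function.Injective (Complex.ofRealHom.toAddMonoidHom) := Complex.ofReal_injective
      have e2 : ((∑ᶠ α ∈ {α : 𝓞 L | α - α₀ ∈ 𝔟}, g (K.σ α) : ℝ) : ℂ) =
          ∑ᶠ α ∈ {α : 𝓞 L | α - α₀ ∈ 𝔟}, (g (K.σ α) : ℂ) := by
        have := AddMonoidHom.map_finsum_of_injective _ hinj
          (fun α : 𝓞 L => ∑ᶠ (_ : α ∈ {α : 𝓞 L | α - α₀ ∈ 𝔟}), g (K.σ α))
        refine this.trans (finsum_congr fun α => ?_)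
        exact AddMonoidHom.map_finsum_of_injective _ hinj _
      rw [e2]
      symm
      refine finsum_mem_eq_of_bijOn (fun α => em K (α - α₀)) ⟨?_, ?_, ?_⟩ ?_
      · intro α hα
        exact (hw _).mpr ⟨_, hα, rfl⟩
      · intro α _ β _ h
        exact sub_left_injective (em_inj K h)
      · intro z hz
        obtain ⟨β, hβ, rfl⟩ := (hw z).mp hz
        exact ⟨β + α₀, by simpa using hβ, by simp⟩
      · intro α _
        simp [em_apply]
    rw [e1, ← Complex.ofReal_div, ← Complex.ofReal_sub, Complex.norm_real, Real.norm_eq_abs] at key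
    exact key
  · intro j
    rw [hw, Basis.coe_mk]
    fin_cases j
    · exact ⟨n₁, hb, by simp [v]⟩
    · exact ⟨n₁ * K.ω, 𝔟.mul_mem_right _ hb, by simp [v]⟩
  · intro y c hc
    rw [← Complex.ofReal_sub, Complex.norm_real, Real.norm_eq_abs]
    exact h1 y _ (hsum c hc)
  · intro y c hc hy
    exact h2 y _ (hsum c hc) (by simpa using hy)

end Pool.Agent.P.MP_b8021b_nt.VE.Shell
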