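import Pool.Agent.P.MP_b8021b_nt.VE.PShell1

/-! Package shell, part 2: points of a coset in a disc. -/

namespace Pool.Agent.P.MP_b8021b_nt.VE.Shell

open NumberField MeasureTheory Module
open scoped Classical ComplexConjugate

variable {L : Type} [Field L] [NumberField L]

/-- a cone over a disc -/
noncomputable def cone (ζ : ℂ) (s : ℝ) (z : ℂ) : ℝ := max (1 - ‖z - ζ‖ / s) 0

lemma cone_cont (ζ : ℂ) (s : ℝ) : Continuous (cone ζ s) := by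
  unfold cone
  fun_prop

lemma cone_nonneg (ζ : ℂ) (s : ℝ) (z : ℂ) : 0 ≤ cone ζ s z := le_max_right _ _

lemma cone_le (ζ : ℂ) {s : ℝ} (hs : 0 < s) (z : ℂ) : cone ζ s z ≤ 1 := by
  refine max_le ?_ zero_le_one
  have : 0 ≤ ‖z - ζ‖ / s := by positivity
  linarith

lemma cone_ne (ζ : ℂ) {s : ℝ} (hs : 0 < s) {z : ℂ} (h : cone ζ s z ≠ 0) : ‖z - ζ‖ ≤ s := by
  by_contra hlt
  apply h
  refine max_eq_right ?_
  have : 1 ≤ ‖z - ζ‖ / s := by rw [le_div_iff₀ hs]; linarith [not_le.mp hlt]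
  linarith

lemma cone_half (ζ : ℂ) {s : ℝ} (hs : 0 < s) {z : ℂ} (h : ‖z - ζ‖ ≤ s / 2) :
    1 / 2 ≤ cone ζ s z := by
  refine le_max_of_le_left ?_
  have : ‖z - ζ‖ / s ≤ 1 / 2 := by rw [div_le_iff₀ hs]; linarith
  linarith

lemma cone_supp (ζ : ℂ) {s : ℝ} (hs : 0 < s) : HasCompactSupport (cone ζ s) := by
  refine HasCompactSupport.intro (isCompact_closedBall ζ s) fun z hz => ?_
  by_contra h
  exact hz (by rw [Metric.mem_closedBall, dist_eq_norm]; exact cone_ne ζ hs h)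

lemma cone_lip (ζ : ℂ) {s : ℝ} (hs : 0 < s) (y h : ℂ) :
    |cone ζ s (y + h) - cone ζ s y| ≤ ‖h‖ / s := by
  refine (abs_max_sub_max_le_abs _ _ _).trans ?_
  have e : 1 - ‖y + h - ζ‖ / s - (1 - ‖y - ζ‖ / s) = (‖y - ζ‖ - ‖y + h - ζ‖) / s := by ring
  rw [e, abs_div, abs_of_pos hs]
  gcongr
  refine (abs_norm_sub_norm_le _ _).trans ?_
  have : y - ζ - (y + h - ζ) = -h := by ring
  rw [this, norm_neg]

lemma vol_ball (ζ : ℂ) {r : ℝ} (hr : 0 ≤ r) :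
    volume.real (Metric.closedBall ζ r) = Real.pi * r ^ 2 := by
  rw [measureReal_def, Complex.volume_closedBall]
  simp [ENNReal.toReal_ofReal hr, mul_comm]

lemma cone_int (ζ : ℂ) {s : ℝ} (hs : 0 < s) :
    Real.pi * s ^ 2 / 8 ≤ ∫ z, cone ζ s z ∧ ∫ z, cone ζ s z ≤ Real.pi * s ^ 2 := by
  have hi : Integrable (cone ζ s) := (cone_cont ζ s).integrable_of_hasCompactSupport (cone_supp ζ hs)
  have hc : ∀ (r c : ℝ), Integrable ((Metric.closedBall ζ r).indicator fun _ : ℂ => c) := by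
    intro r c
    rw [integrable_indicator_iff measurableSet_closedBall]
    exact integrableOn_const (measure_closedBall_lt_top).ne
  constructor
  · have h : ∫ z, (Metric.closedBall ζ (s / 2)).indicator (fun _ : ℂ => (1 / 2 : ℝ)) z ≤
        ∫ z, cone ζ s z := by
      refine integral_mono (hc _ _) hi fun z => ?_
      by_cases hz : z ∈ Metric.closedBall ζ (s / 2)
      · rw [Set.indicator_of_mem hz]
        exact cone_half ζ hs (by rwa [Metric.mem_closedBall, dist_eq_norm] at hz)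
      · rw [Set.indicator_of_notMem hz]; exact cone_nonneg _ _ _
    rw [integral_indicator_const _ measurableSet_closedBall, vol_ball ζ (by positivity),
      smul_eq_mul] at h
    linarith
  · have h : ∫ z, cone ζ s z ≤
        ∫ z, (Metric.closedBall ζ s).indicator (fun _ : ℂ => (1 : ℝ)) z := by
      refine integral_mono hi (hc _ _) fun z => ?_
      by_cases hz : z ∈ Metric.closedBall ζ s
      · rw [Set.indicator_of_mem hz]; exact cone_le ζ hs z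
      · rw [Set.indicator_of_notMem hz]
        by_contra hlt
        exact hz (by
          rw [Metric.mem_closedBall, dist_eq_norm]; exact cone_ne ζ hs (not_le.mp hlt).ne')
    rw [integral_indicator_const _ measurableSet_closedBall, vol_ball ζ hs.le, smul_eq_mul] at h
    linarith

/-- the points of a coset in a disc -/
def disc (K : IQ L) (𝔟 : Ideal (𝓞 L)) (α₀ : 𝓞 L) (ζ : ℂ) (ϱ : ℝ) : Set (𝓞 L) :=
  {α : 𝓞 L | α - α₀ ∈ 𝔟 ∧ ‖K.σ α - ζ‖ ≤ ϱ}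

lemma disc_fin (hIQb : S_IQb) (K : IQ L) (𝔟 : Ideal (𝓞 L)) (α₀ : 𝓞 L) (ζ : ℂ) (ϱ : ℝ) :
    (disc K 𝔟 α₀ ζ ϱ).Finite :=
  (finite_ball hIQb K ζ ϱ).subset fun _ h => h.2

lemma cone_sum (hIQb : S_IQb) (K : IQ L) (𝔟 : Ideal (𝓞 L)) (α₀ : 𝓞 L) (ζ : ℂ) {s : ℝ}
    (hs : 0 < s) :
    ∑ᶠ α ∈ {α : 𝓞 L | α - α₀ ∈ 𝔟}, cone ζ s (K.σ α) ≤ (disc K 𝔟 α₀ ζ s).ncard ∧
    ((disc K 𝔟 α₀ ζ (s / 2)).ncard : ℝ) / 2 ≤
      ∑ᶠ α ∈ {α : 𝓞 L | α - α₀ ∈ 𝔟}, cone ζ s (K.σ α) := by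
  have hf := disc_fin hIQb K 𝔟 α₀ ζ s
  have hf2 := disc_fin hIQb K 𝔟 α₀ ζ (s / 2)
  have e : ∑ᶠ α ∈ {α : 𝓞 L | α - α₀ ∈ 𝔟}, cone ζ s (K.σ α) =
      ∑ α ∈ hf.toFinset, cone ζ s (K.σ α) := by
    refine finsum_mem_eq_sum_of_inter_support_eq _ ?_
    ext α
    simp only [Set.mem_inter_iff, Set.mem_ofPred_eq, Function.mem_support, Set.Finite.coe_toFinset,
      disc]
    exact ⟨fun h => ⟨⟨h.1, cone_ne ζ hs h.2⟩, h.2⟩, fun h => ⟨h.1.1, h.2⟩⟩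
  rw [e, Set.ncard_eq_toFinset_card _ hf, Set.ncard_eq_toFinset_card _ hf2]
  constructor
  · have := Finset.sum_le_card_nsmul hf.toFinset (fun α => cone ζ s (K.σ α)) 1
      fun α _ => cone_le ζ hs _
    simpa using this
  · have hsub : hf2.toFinset ⊆ hf.toFinset := by
      intro α hα
      rw [Set.Finite.mem_toFinset] at hα ⊢
      exact ⟨hα.1, hα.2.trans (by linarith)⟩
    have h1 := Finset.card_nsmul_le_sum hf2.toFinset (fun α => cone ζ s (K.σ α)) (1 / 2)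
      fun α hα => cone_half ζ hs ((Set.Finite.mem_toFinset _).mp hα).2
    have h2 := Finset.sum_le_sum_of_subset_of_nonneg (f := fun α : 𝓞 L => cone ζ s (K.σ α)) hsub
      fun α _ _ => cone_nonneg _ _ _
    rw [nsmul_eq_mul] at h1
    linarith

lemma cone_lat (hIQb : S_IQb) (hLat : S_Lat) (K : IQ L) (𝔟 : Ideal (𝓞 L)) (n₁ : ℕ) (α₀ : 𝓞 L)
    (r₀ : ℝ) (hn : 1 ≤ n₁) (hb : (n₁ : 𝓞 L) ∈ 𝔟) (hr : n₁ * (1 + √|(K.D : ℝ)|) ≤ r₀) (ζ : ℂ)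
    {s : ℝ} (hs : 0 < s) (hr0 : 0 ≤ r₀) :
    |∑ᶠ α ∈ {α : 𝓞 L | α - α₀ ∈ 𝔟}, cone ζ s (K.σ α) -
      (∫ y, cone ζ s y) / (Ideal.absNorm 𝔟 * cov L)| ≤
      r₀ / s * (Real.pi * (s + r₀) ^ 2) / (Ideal.absNorm 𝔟 * cov L) := by
  rw [← vol_ball ζ (by positivity)]
  refine lat hIQb hLat K 𝔟 n₁ α₀ r₀ hn hb hr _ _ _ (cone_cont ζ s) (cone_supp ζ hs)
    (measure_closedBall_lt_top).ne ?_ ?_
  · intro y h hh
    refine (cone_lip ζ hs y h).trans ?_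
    gcongr
  · intro y h hh hy
    rw [Metric.mem_closedBall, dist_eq_norm]
    have : y + h - ζ = (y - ζ) + h := by ring
    rw [this]
    exact (norm_add_le _ _).trans (add_le_add (cone_ne ζ hs hy) hh)

lemma r0_pos (K : IQ L) (n₁ : ℕ) (r₀ : ℝ) (hn : 1 ≤ n₁) (hr : n₁ * (1 + √|(K.D : ℝ)|) ≤ r₀) :
    0 < r₀ := by
  have h1 : (1 : ℝ) ≤ n₁ := by exact_mod_cast hn
  have h2 : 0 ≤ √|(K.D : ℝ)| := Real.sqrt_nonneg _
  nlinarith

lemma cover (hIQb : S_IQb) (K : IQ L) (𝔟 : Ideal (𝓞 L)) (n₁ : ℕ) (α₀ : 𝓞 L)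
    (r₀ : ℝ) (hn : 1 ≤ n₁) (hb : (n₁ : 𝓞 L) ∈ 𝔟) (hr : n₁ * (1 + √|(K.D : ℝ)|) ≤ r₀) (ζ : ℂ)
    {ϱ : ℝ} (hϱ : 4 * r₀ ≤ ϱ) :
    (disc K 𝔟 α₀ ζ (4 * ϱ)).ncard ≤ (disc K 𝔟 α₀ ζ ϱ).ncard * 289 := by
  have h0 := r0_pos K n₁ r₀ hn hr
  have hp : 0 < ϱ := by linarith
  have hf := disc_fin hIQb K 𝔟 α₀ ζ (4 * ϱ)
  rw [Set.ncard_eq_toFinset_card _ hf]
  have hcard : (Finset.Icc (-8 : ℤ) 8 ×ˢ Finset.Icc (-8 : ℤ) 8).card = 289 := by
    rw [Finset.card_product, Int.card_Icc]; rfl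
  rw [← hcard]
  have hround : ∀ t : ℝ, |t| ≤ 4 * ϱ → round (2 * t / ϱ) ∈ Finset.Icc (-8 : ℤ) 8 := by
    intro t ht
    have h1 := abs_sub_round (2 * t / ϱ)
    have h2 : |2 * t / ϱ| ≤ 8 := by
      rw [abs_div, abs_mul, abs_of_pos hp, div_le_iff₀ hp, abs_two]; linarith
    rw [abs_le] at h1 h2
    rw [Finset.mem_Icc]
    constructor
    · have : (-9 : ℝ) < round (2 * t / ϱ) := by linarith
      have : (-9 : ℤ) < round (2 * t / ϱ) := by exact_mod_cast this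
      omega
    · have : (round (2 * t / ϱ) : ℝ) < 9 := by linarith
      have : round (2 * t / ϱ) < (9 : ℤ) := by exact_mod_cast this
      omega
  have hclose : ∀ t : ℝ, |t - ϱ / 2 * round (2 * t / ϱ)| ≤ ϱ / 4 := by
    intro t
    have h1 := abs_sub_round (2 * t / ϱ)
    have e : t - ϱ / 2 * round (2 * t / ϱ) = ϱ / 2 * (2 * t / ϱ - round (2 * t / ϱ)) := by
      field_simp
    rw [e, abs_mul, abs_of_pos (by positivity : 0 < ϱ / 2)]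
    calc _ ≤ ϱ / 2 * (1 / 2) := mul_le_mul_of_nonneg_left h1 (by positivity)
      _ = ϱ / 4 := by ring
  generalize Finset.Icc (-8 : ℤ) 8 = I at hround ⊢
  refine Finset.card_le_mul_card_image_of_maps_to
    (f := fun α : 𝓞 L => (round (2 * (K.σ α - ζ).re / ϱ), round (2 * (K.σ α - ζ).im / ϱ))) ?_ _ ?_
  · intro α hα
    have h := ((Set.Finite.mem_toFinset _).mp hα).2
    exact Finset.mem_product.mpr ⟨hround _ ((Complex.abs_re_le_norm _).trans h),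
      hround _ ((Complex.abs_im_le_norm _).trans h)⟩
  · rintro ⟨a, b⟩ -
    obtain ⟨l, hl, hl2⟩ := near K 𝔟 n₁ 0 r₀ hn hb hr ⟨ϱ / 2 * a, ϱ / 2 * b⟩
    rw [sub_zero] at hl
    rw [← Set.ncard_coe_finset]
    refine Set.ncard_le_ncard_of_injOn (fun α => α - l) ?_ (fun _ _ _ _ h => sub_left_injective h)
      (disc_fin hIQb K 𝔟 α₀ ζ ϱ)
    intro α hα
    rw [Finset.mem_coe, Finset.mem_filter, Set.Finite.mem_toFinset, Prod.mk.injEq] at hα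
    obtain ⟨⟨h1, -⟩, h2, h3⟩ := hα
    refine ⟨?_, ?_⟩
    · have : α - l - α₀ = α - α₀ - l := by ring
      rw [this]; exact 𝔟.sub_mem h1 hl
    · have e : K.σ ((α - l : 𝓞 L) : L) - ζ =
          (K.σ α - ζ - ⟨ϱ / 2 * a, ϱ / 2 * b⟩) - (K.σ l - ⟨ϱ / 2 * a, ϱ / 2 * b⟩) := by
        rw [← em_apply, ← em_apply, ← em_apply, map_sub]; ring
      rw [e]
      refine (norm_sub_le _ _).trans ?_
      have h4 := Complex.norm_le_abs_re_add_abs_im (K.σ α - ζ - ⟨ϱ / 2 * a, ϱ / 2 * b⟩)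
      have h5 := hclose (K.σ α - ζ).re
      have h6 := hclose (K.σ α - ζ).im
      rw [h2] at h5
      rw [h3] at h6
      rw [Complex.sub_re _ ⟨_, _⟩, Complex.sub_im _ ⟨_, _⟩] at h4
      simp only at h4
      linarith

lemma count (hIQb : S_IQb) (hLat : S_Lat) (K : IQ L) (𝔟 : Ideal (𝓞 L)) (n₁ : ℕ) (α₀ : 𝓞 L)
    (r₀ : ℝ) (hn : 1 ≤ n₁) (hb : (n₁ : 𝓞 L) ∈ 𝔟) (hr : n₁ * (1 + √|(K.D : ℝ)|) ≤ r₀) (ζ : ℂ)
    {ϱ : ℝ} (hϱ : 4 * r₀ ≤ ϱ) {C : ℝ} (hC : 289 ≤ C) :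
    ϱ ^ 2 / (C * (Ideal.absNorm 𝔟 * cov L)) ≤ (disc K 𝔟 α₀ ζ ϱ).ncard ∧
      (disc K 𝔟 α₀ ζ ϱ).ncard ≤ C * ϱ ^ 2 / (Ideal.absNorm 𝔟 * cov L) := by
  have h0 := r0_pos K n₁ r₀ hn hr
  have hp : 0 < ϱ := by linarith
  have hV := vol_pos 𝔟 (ne_bot 𝔟 n₁ hn hb)
  set V : ℝ := Ideal.absNorm 𝔟 * cov L with hVdef
  have hpi3 := Real.pi_gt_three
  have hpi4 := Real.pi_le_four
  have herr : ∀ s : ℝ, 0 < s → ∀ t : ℝ, 0 ≤ t → r₀ ≤ t * s →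
      r₀ / s * (Real.pi * (s + r₀) ^ 2) / V ≤ t * (1 + t) ^ 2 * (Real.pi * s ^ 2) / V := by
    intro s hs t ht hts
    have a1 : r₀ / s ≤ t := by rwa [div_le_iff₀ hs]
    have a2 : s + r₀ ≤ (1 + t) * s := by linarith
    calc _ ≤ t * (Real.pi * ((1 + t) * s) ^ 2) / V := by gcongr
      _ = _ := by ring
  constructor
  · have hs : 0 < 4 * ϱ := by linarith
    have h1 := cone_lat hIQb hLat K 𝔟 n₁ α₀ r₀ hn hb hr ζ hs h0.le
    have h2 := (cone_sum hIQb K 𝔟 α₀ ζ hs).1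
    have h3 := (cone_int ζ hs).1
    have h4 := herr _ hs (1 / 16) (by norm_num) (by linarith)
    have h5 : ((disc K 𝔟 α₀ ζ (4 * ϱ)).ncard : ℝ) ≤ (disc K 𝔟 α₀ ζ ϱ).ncard * 289 := by
      exact_mod_cast cover hIQb K 𝔟 n₁ α₀ r₀ hn hb hr ζ hϱ
    rw [← hVdef] at h1
    have h6 := (abs_le.mp (h1.trans h4)).1
    have h7 : Real.pi * (4 * ϱ) ^ 2 / 8 / V ≤ (∫ y, cone ζ (4 * ϱ) y) / V := by gcongr
    have h8 : ϱ ^ 2 / V ≤ Real.pi * (4 * ϱ) ^ 2 / 8 / V -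
        1 / 16 * (1 + 1 / 16) ^ 2 * (Real.pi * (4 * ϱ) ^ 2) / V := by
      rw [← sub_div]
      gcongr
      nlinarith [sq_nonneg ϱ]
    have h9 : ϱ ^ 2 / (C * V) ≤ ϱ ^ 2 / (289 * V) := by gcongr
    have h10 : ϱ ^ 2 / (289 * V) = ϱ ^ 2 / V / 289 := by field_simp
    linarith
  · have hs : 0 < 2 * ϱ := by linarith
    have h1 := cone_lat hIQb hLat K 𝔟 n₁ α₀ r₀ hn hb hr ζ hs h0.le
    have h2 := (cone_sum hIQb K 𝔟 α₀ ζ hs).2
    have h3 := (cone_int ζ hs).2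
    have h4 := herr _ hs 1 (by norm_num) (by linarith)
    rw [← hVdef] at h1
    rw [show 2 * ϱ / 2 = ϱ by ring] at h2
    have h6 := (abs_le.mp (h1.trans h4)).2
    have h7 : (∫ y, cone ζ (2 * ϱ) y) / V ≤ Real.pi * (2 * ϱ) ^ 2 / V := by gcongr
    have h8 : 2 * (Real.pi * (2 * ϱ) ^ 2 / V + 1 * (1 + 1) ^ 2 * (Real.pi * (2 * ϱ) ^ 2) / V) ≤
        C * ϱ ^ 2 / V := by
      rw [← add_div, ← mul_div_assoc]
      refine div_le_div_of_nonneg_right ?_ hV.le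
      nlinarith [sq_nonneg ϱ]
    linarith

end Pool.Agent.P.MP_b8021b_nt.VE.Shell
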