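import Pool.Agent.P.MP_b8021b_nt.VE.StN

/-! Analytic properties of the test function `wfn`. -/

namespace Pool.Agent.P.MP_b8021b_nt.VE.Win

open MeasureTheory

lemma tent_lip (a b : ℝ) : |tent a - tent b| ≤ |a - b| := by
  unfold tent
  have h := abs_max_sub_max_le_abs (1 - |a|) (1 - |b|) 0
  rw [max_comm (1 - |a|), max_comm (1 - |b|)] at h
  refine h.trans ?_
  have : 1 - |a| - (1 - |b|) = -(|a| - |b|) := by ring
  rw [this, abs_neg]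
  exact abs_abs_sub_abs_le_abs_sub a b

lemma clamp_lip (a b : ℝ) : |clamp a - clamp b| ≤ |a - b| := by
  unfold clamp
  have h := abs_max_sub_max_le_abs (min 1 a) (min 1 b) 0
  rw [max_comm (min 1 a), max_comm (min 1 b)] at h
  refine h.trans ?_
  have := abs_min_sub_min_le_max 1 a 1 b
  simpa using this

lemma tent_mem (a : ℝ) : 0 ≤ tent a ∧ tent a ≤ 1 := by
  unfold tent
  refine ⟨le_max_left _ _, max_le zero_le_one ?_⟩
  linarith [abs_nonneg a]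

lemma clamp_mem (a : ℝ) : 0 ≤ clamp a ∧ clamp a ≤ 1 := by
  unfold clamp
  exact ⟨le_max_left _ _, max_le zero_le_one (min_le_left _ _)⟩

lemma norm_dir_le (z : ℂ) (k : ℤ) : ‖dir z ^ k‖ ≤ 1 := by
  by_cases hz : z = 0
  · subst hz
    by_cases hk : k = 0
    · simp [hk]
    · simp [dir, zero_zpow k hk]
  · have : ‖dir z‖ = 1 := by
      unfold dir
      rw [norm_div, Complex.norm_real, norm_norm, div_self (norm_ne_zero_iff.mpr hz)]
    rw [norm_zpow, this, one_zpow]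

lemma norm_dir {z : ℂ} (hz : z ≠ 0) : ‖dir z‖ = 1 := by
  unfold dir
  rw [norm_div, Complex.norm_real, norm_norm, div_self (norm_ne_zero_iff.mpr hz)]

lemma pow_lip {u v : ℂ} (hu : ‖u‖ = 1) (hv : ‖v‖ = 1) (n : ℕ) :
    ‖u ^ n - v ^ n‖ ≤ n * ‖u - v‖ := by
  induction n with
  | zero => simp
  | succ n ih =>
    have : u ^ (n + 1) - v ^ (n + 1) = (u ^ n - v ^ n) * u + v ^ n * (u - v) := by ring
    rw [this]
    refine (norm_add_le _ _).trans ?_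
    rw [norm_mul, norm_mul, hu, norm_pow, hv, one_pow]
    push_cast
    linarith

lemma zpow_lip {u v : ℂ} (hu : ‖u‖ = 1) (hv : ‖v‖ = 1) (k : ℤ) :
    ‖u ^ k - v ^ k‖ ≤ |(k : ℝ)| * ‖u - v‖ := by
  obtain ⟨n, rfl | rfl⟩ := Int.eq_nat_or_neg k
  · simpa using pow_lip hu hv n
  · have hu0 : u ≠ 0 := by rintro rfl; simp at hu
    have hv0 : v ≠ 0 := by rintro rfl; simp at hv
    have h1 : u ^ (-(n : ℤ)) - v ^ (-(n : ℤ)) = -(u ^ n - v ^ n) / (u ^ n * v ^ n) := by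
      rw [zpow_neg, zpow_neg, zpow_natCast, zpow_natCast]
      field_simp
      ring
    rw [h1, norm_div, norm_neg, norm_mul, norm_pow, norm_pow, hu, hv]
    simpa using pow_lip hu hv n

lemma dir_lip {z w : ℂ} (hz : 1 / 8 ≤ ‖z‖) (hw : 1 / 8 ≤ ‖w‖) :
    ‖dir z - dir w‖ ≤ 16 * ‖z - w‖ := by
  have hz0 : (‖z‖ : ℂ) ≠ 0 := by
    have : ‖z‖ ≠ 0 := by linarith
    exact_mod_cast this
  have hw0 : (‖w‖ : ℂ) ≠ 0 := by
    have : ‖w‖ ≠ 0 := by linarith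
    exact_mod_cast this
  have h1 : dir z - dir w = ((z - w) + dir w * ((‖w‖ - ‖z‖ : ℝ) : ℂ)) / (‖z‖ : ℂ) := by
    unfold dir
    push_cast
    field_simp
    ring
  have hwn : ‖dir w‖ = 1 := norm_dir (by rintro rfl; norm_num at hw)
  rw [h1, norm_div, Complex.norm_real, norm_norm, div_le_iff₀ (by linarith)]
  have h2 := norm_add_le (z - w) (dir w * ((‖w‖ - ‖z‖ : ℝ) : ℂ))
  rw [norm_mul, hwn, Complex.norm_real, Real.norm_eq_abs] at h2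
  have h3 : |‖w‖ - ‖z‖| ≤ ‖z - w‖ := by
    rw [norm_sub_rev]; exact abs_norm_sub_norm_le w z
  nlinarith [norm_nonneg (z - w)]

lemma log_lip {a b : ℝ} (ha : 1 / 8 ≤ a) (hb : 1 / 8 ≤ b) :
    |Real.log a - Real.log b| ≤ 8 * |a - b| := by
  have key : ∀ a b : ℝ, 1 / 8 ≤ a → 1 / 8 ≤ b → Real.log a - Real.log b ≤ 8 * |a - b| := by
    intro a b ha hb
    rw [← Real.log_div (by linarith) (by linarith)]
    have h1 := Real.log_le_sub_one_of_pos (x := a / b) (by positivity)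
    have h2 : a / b - 1 = (a - b) / b := by field_simp
    have h3 : (a - b) / b ≤ 8 * |a - b| := by
      rw [div_le_iff₀ (by linarith)]
      nlinarith [le_abs_self (a - b), abs_nonneg (a - b)]
    linarith
  rw [abs_le]
  constructor
  · have := key b a hb ha
    rw [abs_sub_comm] at this
    linarith
  · exact key a b ha hb

/-- the normalised test function -/
noncomputable def G (k₁ k₂ : ℤ) (r : ℝ) (w : ℂ × ℂ) : ℂ := wfn k₁ k₂ 1 r w.1 w.2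

lemma norm_G_le (k₁ k₂ : ℤ) (r : ℝ) (w : ℂ × ℂ) : ‖G k₁ k₂ r w‖ ≤ 1 := by
  unfold G wfn
  rw [norm_mul, norm_mul, Complex.norm_real, Real.norm_eq_abs, abs_mul]
  have h1 := norm_dir_le w.1 k₁
  have h2 := norm_dir_le w.2 k₂
  have h3 := tent_mem (‖w.1‖ ^ 2 * ‖w.2‖ ^ 2 / 1 - 3 / 2)
  have h4 := clamp_mem (Real.log ‖w.1‖ - Real.log ‖w.2‖)
  have h5 := clamp_mem (Real.log ‖w.1‖ - Real.log ‖w.2‖ - r)
  have h6 : |clamp (Real.log ‖w.1‖ - Real.log ‖w.2‖) -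
      clamp (Real.log ‖w.1‖ - Real.log ‖w.2‖ - r)| ≤ 1 := by
    rw [abs_le]; constructor <;> linarith [h4.1, h4.2, h5.1, h5.2]
  rw [abs_of_nonneg h3.1]
  exact mul_le_one₀ (mul_le_one₀ h1 (norm_nonneg _) h2) (mul_nonneg h3.1 (abs_nonneg _))
    (mul_le_one₀ h3.2 (abs_nonneg _) h6)

lemma supp_G {k₁ k₂ : ℤ} {r : ℝ} (hr0 : 0 ≤ r) (hr : r ≤ 1) {w : ℂ × ℂ} (h : G k₁ k₂ r w ≠ 0) :
    1 / 4 ≤ ‖w.1‖ ∧ ‖w.1‖ ≤ 4 ∧ 1 / 4 ≤ ‖w.2‖ ∧ ‖w.2‖ ≤ 4 := by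
  unfold G wfn at h
  have h1 := (mul_ne_zero_iff.mp h).2
  have h2 : tent (‖w.1‖ ^ 2 * ‖w.2‖ ^ 2 / 1 - 3 / 2) * (clamp (Real.log ‖w.1‖ - Real.log ‖w.2‖) -
      clamp (Real.log ‖w.1‖ - Real.log ‖w.2‖ - r)) ≠ 0 := by exact_mod_cast h1
  obtain ⟨h3, h4⟩ := mul_ne_zero_iff.mp h2
  set a := ‖w.1‖
  set b := ‖w.2‖
  have ha : 0 ≤ a := norm_nonneg _
  have hb : 0 ≤ b := norm_nonneg _
  have h5 : |a ^ 2 * b ^ 2 / 1 - 3 / 2| < 1 := by
    by_contra hc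
    apply h3
    unfold tent
    exact max_eq_left (by linarith [not_lt.mp hc])
  rw [abs_lt] at h5
  have h6 : 1 / 2 < a ^ 2 * b ^ 2 := by linarith [h5.1]
  have h7 : a ^ 2 * b ^ 2 < 5 / 2 := by linarith [h5.2]
  have ha0 : 0 < a := by
    rcases ha.eq_or_lt with h | h
    · rw [← h] at h6; norm_num at h6
    · exact h
  have hb0 : 0 < b := by
    rcases hb.eq_or_lt with h | h
    · rw [← h] at h6; norm_num at h6
    · exact h
  have h8 : 0 < Real.log a - Real.log b := by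
    by_contra hc
    apply h4
    have hc := not_lt.mp hc
    unfold clamp
    rw [max_eq_left (le_trans (min_le_right _ _) hc),
      max_eq_left (le_trans (min_le_right _ _) (by linarith)), sub_zero]
  have h9 : Real.log a - Real.log b < 2 := by
    by_contra hc
    apply h4
    have hc := not_lt.mp hc
    unfold clamp
    rw [min_eq_left (by linarith), min_eq_left (by linarith), sub_self]
  have h10 : b < a := by
    rw [← Real.log_lt_log_iff hb0 ha0]; linarith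
  have h11 : a < 8 * b := by
    rw [← Real.log_lt_log_iff ha0 (by linarith), Real.log_mul (by norm_num) hb0.ne']
    have : Real.log 8 = 3 * Real.log 2 := by
      rw [show (8 : ℝ) = 2 ^ 3 by norm_num, Real.log_pow]; norm_num
    have := Real.log_two_gt_d9
    linarith
  have h12 : a ^ 2 < 64 * b ^ 2 := by nlinarith
  have h13 : a ≤ 4 := by
    by_contra hc
    have hc := not_le.mp hc
    have : 16 < a ^ 2 := by nlinarith
    nlinarith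
  have h14 : 1 / 4 ≤ b := by
    by_contra hc
    have hc := not_le.mp hc
    have : b ^ 2 < 1 / 16 := by nlinarith
    nlinarith
  exact ⟨by linarith, h13, h14, by linarith⟩

lemma prod_lip {a b c d a' b' c' d' : ℂ} (hb : ‖b‖ ≤ 1) (hc : ‖c‖ ≤ 1) (hd : ‖d‖ ≤ 1)
    (ha' : ‖a'‖ ≤ 1) (hb' : ‖b'‖ ≤ 1) (hc' : ‖c'‖ ≤ 1) :
    ‖a * b * (c * d) - a' * b' * (c' * d')‖ ≤ ‖a - a'‖ + ‖b - b'‖ + ‖c - c'‖ + ‖d - d'‖ := by
  have e : a * b * (c * d) - a' * b' * (c' * d') = (a - a') * (b * (c * d)) +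
      (b - b') * (a' * (c * d)) + (c - c') * (a' * (b' * d)) + (d - d') * (a' * (b' * c')) := by
    ring
  have m : ∀ x p q s : ℂ, ‖p‖ ≤ 1 → ‖q‖ ≤ 1 → ‖s‖ ≤ 1 → ‖x * (p * (q * s))‖ ≤ ‖x‖ := by
    intro x p q s hp hq hs
    rw [norm_mul, norm_mul, norm_mul]
    exact mul_le_of_le_one_right (norm_nonneg _)
      (mul_le_one₀ hp (by positivity) (mul_le_one₀ hq (norm_nonneg _) hs))
  rw [e]
  have := m (a - a') b c d hb hc hd
  have := m (b - b') a' c d ha' hc hd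
  have := m (c - c') a' b' d ha' hb' hd
  have := m (d - d') a' b' c' ha' hb' hc'
  refine (norm_add_le _ _).trans (add_le_add ((norm_add_le _ _).trans (add_le_add
    ((norm_add_le _ _).trans (add_le_add ?_ ?_)) ?_)) ?_) <;> assumption

lemma G_lip0 (k₁ k₂ : ℤ) (r : ℝ) {w w' : ℂ × ℂ} (h1 : 1 / 8 ≤ ‖w.1‖) (h2 : ‖w.1‖ ≤ 5)
    (h3 : 1 / 8 ≤ ‖w.2‖) (h4 : ‖w.2‖ ≤ 5) (h1' : 1 / 8 ≤ ‖w'.1‖) (h2' : ‖w'.1‖ ≤ 5)
    (h3' : 1 / 8 ≤ ‖w'.2‖) (h4' : ‖w'.2‖ ≤ 5) :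
    ‖G k₁ k₂ r w - G k₁ k₂ r w'‖ ≤ 1024 * (|(k₁ : ℝ)| + |(k₂ : ℝ)| + 1) * ‖w - w'‖ := by
  have n1 : ‖w.1 - w'.1‖ ≤ ‖w - w'‖ := norm_fst_le (w - w')
  have n2 : ‖w.2 - w'.2‖ ≤ ‖w - w'‖ := norm_snd_le (w - w')
  have a1 := (abs_norm_sub_norm_le w.1 w'.1).trans n1
  have a2 := (abs_norm_sub_norm_le w.2 w'.2).trans n2
  have z : ∀ z : ℂ, 1 / 8 ≤ ‖z‖ → ‖dir z‖ = 1 := fun z hz =>
    norm_dir (by rintro rfl; norm_num at hz)
  unfold G wfn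
  rw [Complex.ofReal_mul, Complex.ofReal_mul]
  have hcl : ∀ v : ℝ, ‖((clamp v - clamp (v - r) : ℝ) : ℂ)‖ ≤ 1 := by
    intro v
    rw [Complex.norm_real, Real.norm_eq_abs, abs_le]
    constructor <;> linarith [(clamp_mem v).1, (clamp_mem v).2, (clamp_mem (v - r)).1,
      (clamp_mem (v - r)).2]
  have ht : ∀ v : ℝ, ‖((tent v : ℝ) : ℂ)‖ ≤ 1 := by
    intro v
    rw [Complex.norm_real, Real.norm_eq_abs, abs_of_nonneg (tent_mem v).1]
    exact (tent_mem v).2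
  refine (prod_lip (norm_dir_le _ _) (ht _) (hcl _) (norm_dir_le _ _) (norm_dir_le _ _)
    (ht _)).trans ?_
  have b1 := (zpow_lip (z _ h1) (z _ h1') k₁).trans
    (mul_le_mul_of_nonneg_left ((dir_lip h1 h1').trans
      (mul_le_mul_of_nonneg_left n1 (by norm_num))) (abs_nonneg _))
  have b2 := (zpow_lip (z _ h3) (z _ h3') k₂).trans
    (mul_le_mul_of_nonneg_left ((dir_lip h3 h3').trans
      (mul_le_mul_of_nonneg_left n2 (by norm_num))) (abs_nonneg _))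
  set δ := ‖w - w'‖
  have hδ : 0 ≤ δ := norm_nonneg _
  set a := ‖w.1‖
  set b := ‖w.2‖
  set a' := ‖w'.1‖
  set b' := ‖w'.2‖
  have b3 : ‖((tent (a ^ 2 * b ^ 2 / 1 - 3 / 2) : ℝ) : ℂ) -
      ((tent (a' ^ 2 * b' ^ 2 / 1 - 3 / 2) : ℝ) : ℂ)‖ ≤ 500 * δ := by
    rw [← Complex.ofReal_sub, Complex.norm_real, Real.norm_eq_abs]
    refine (tent_lip _ _).trans ?_
    have e : a ^ 2 * b ^ 2 / 1 - 3 / 2 - (a' ^ 2 * b' ^ 2 / 1 - 3 / 2) =
        (a - a') * ((a + a') * b ^ 2) + (b - b') * ((b + b') * a' ^ 2) := by ring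
    rw [e]
    refine (abs_add_le _ _).trans ?_
    rw [abs_mul, abs_mul (b - b'), abs_of_nonneg (a := (a + a') * b ^ 2) (by positivity),
      abs_of_nonneg (a := (b + b') * a' ^ 2) (by positivity)]
    have c1 : (a + a') * b ^ 2 ≤ 10 * 25 :=
      mul_le_mul (by linarith) (by nlinarith) (by positivity) (by norm_num)
    have c2 : (b + b') * a' ^ 2 ≤ 10 * 25 :=
      mul_le_mul (by linarith) (by nlinarith) (by positivity) (by norm_num)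
    have := mul_le_mul a1 c1 (by positivity) hδ
    have := mul_le_mul a2 c2 (by positivity) hδ
    linarith
  have hv : |Real.log a - Real.log b - (Real.log a' - Real.log b')| ≤ 16 * δ := by
    have l1 := log_lip h1 h1'
    have l2 := log_lip h3 h3'
    have e : Real.log a - Real.log b - (Real.log a' - Real.log b') =
        (Real.log a - Real.log a') - (Real.log b - Real.log b') := by ring
    rw [e]
    refine (abs_sub _ _).trans ?_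
    linarith
  have b4 : ‖((clamp (Real.log a - Real.log b) - clamp (Real.log a - Real.log b - r) : ℝ) : ℂ) -
      ((clamp (Real.log a' - Real.log b') - clamp (Real.log a' - Real.log b' - r) : ℝ) : ℂ)‖ ≤
      32 * δ := by
    rw [← Complex.ofReal_sub, Complex.norm_real, Real.norm_eq_abs]
    have l1 := clamp_lip (Real.log a - Real.log b) (Real.log a' - Real.log b')
    have l2 := clamp_lip (Real.log a - Real.log b - r) (Real.log a' - Real.log b' - r)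
    rw [sub_sub_sub_cancel_right] at l2
    rw [sub_sub_sub_comm]
    refine (abs_sub _ _).trans ?_
    linarith
  have := mul_nonneg (abs_nonneg (k₁ : ℝ)) hδ
  have := mul_nonneg (abs_nonneg (k₂ : ℝ)) hδ
  nlinarith

lemma G_lip (k₁ k₂ : ℤ) {r : ℝ} (hr0 : 0 ≤ r) (hr : r ≤ 1) (w w' : ℂ × ℂ) :
    ‖G k₁ k₂ r w - G k₁ k₂ r w'‖ ≤ 1024 * (|(k₁ : ℝ)| + |(k₂ : ℝ)| + 1) * ‖w - w'‖ := by
  have hk : 1 ≤ |(k₁ : ℝ)| + |(k₂ : ℝ)| + 1 := by
    linarith [abs_nonneg (k₁ : ℝ), abs_nonneg (k₂ : ℝ)]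
  by_cases hδ : 1 / 8 ≤ ‖w - w'‖
  · have := (norm_sub_le _ _).trans
      (add_le_add (norm_G_le k₁ k₂ r w) (norm_G_le k₁ k₂ r w'))
    nlinarith
  have hδ := not_le.mp hδ
  have n1 : ‖w.1 - w'.1‖ ≤ ‖w - w'‖ := norm_fst_le (w - w')
  have n2 : ‖w.2 - w'.2‖ ≤ ‖w - w'‖ := norm_snd_le (w - w')
  have a1 := abs_le.mp ((abs_norm_sub_norm_le w.1 w'.1).trans n1)
  have a2 := abs_le.mp ((abs_norm_sub_norm_le w.2 w'.2).trans n2)
  by_cases h : G k₁ k₂ r w = 0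
  · by_cases h' : G k₁ k₂ r w' = 0
    · rw [h, h', sub_zero, norm_zero]; positivity
    · obtain ⟨s1, s2, s3, s4⟩ := supp_G hr0 hr h'
      apply G_lip0 <;> linarith [a1.1, a1.2, a2.1, a2.2]
  · obtain ⟨s1, s2, s3, s4⟩ := supp_G hr0 hr h
    apply G_lip0 <;> linarith [a1.1, a1.2, a2.1, a2.2]

lemma G_cont (k₁ k₂ : ℤ) {r : ℝ} (hr0 : 0 ≤ r) (hr : r ≤ 1) : Continuous (G k₁ k₂ r) := by
  have : LipschitzWith ⟨1024 * (|(k₁ : ℝ)| + |(k₂ : ℝ)| + 1), by positivity⟩ (G k₁ k₂ r) :=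
    LipschitzWith.of_dist_le_mul fun w w' => by
      rw [dist_eq_norm, dist_eq_norm]; exact G_lip k₁ k₂ hr0 hr w w'
  exact this.continuous

/-- coordinatewise multiplication -/
noncomputable def mm (a b : ℂ) : (ℂ × ℂ) →ₗ[ℝ] (ℂ × ℂ) :=
  (LinearMap.mul ℝ ℂ a).prodMap (LinearMap.mul ℝ ℂ b)

lemma mm_apply (a b : ℂ) (w : ℂ × ℂ) : mm a b w = (a * w.1, b * w.2) := rfl

lemma det_mm (a b : ℂ) : LinearMap.det (mm a b) = ‖a‖ ^ 2 * ‖b‖ ^ 2 := by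
  have h : ∀ a : ℂ, LinearMap.det (LinearMap.mul ℝ ℂ a) = ‖a‖ ^ 2 := by
    intro a
    rw [← Complex.normSq_eq_norm_sq, ← Algebra.norm_complex_apply, Algebra.norm_apply]
    rfl
  unfold mm
  rw [LinearMap.det_prodMap, h, h]

lemma haar : (volume : Measure (ℂ × ℂ)).IsAddHaarMeasure :=
  Measure.prod.instIsAddHaarMeasure _ _

lemma integral_mm {f : ℂ × ℂ → ℂ} (hf : Continuous f) {a b : ℂ} (ha : a ≠ 0) (hb : b ≠ 0) :
    ∫ w, f (mm a b w) = ((‖a‖ ^ 2 * ‖b‖ ^ 2)⁻¹ : ℝ) * ∫ w, f w := by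
  have := haar
  have hd : LinearMap.det (mm a b) ≠ 0 := by
    rw [det_mm]
    have := norm_pos_iff.mpr ha
    have := norm_pos_iff.mpr hb
    positivity
  rw [← integral_map (μ := volume) (φ := mm a b)
    (mm a b).continuous_of_finiteDimensional.aemeasurable hf.aestronglyMeasurable,
    Measure.map_linearMap_addHaar_eq_smul_addHaar _ hd, integral_smul_measure, det_mm,
    ENNReal.toReal_ofReal (abs_nonneg _), abs_of_nonneg (by positivity), Complex.real_smul]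

lemma dir_mul_unit {u : ℂ} (hu : ‖u‖ = 1) (z : ℂ) : dir (u * z) = u * dir z := by
  unfold dir
  rw [norm_mul, hu, one_mul, mul_div_assoc]

lemma exists_unit {k : ℤ} (hk : k ≠ 0) : ∃ u : ℂ, ‖u‖ = 1 ∧ u ^ k = -1 := by
  refine ⟨Complex.exp (((Real.pi / k : ℝ) : ℂ) * Complex.I), Complex.norm_exp_ofReal_mul_I _, ?_⟩
  rw [← Complex.exp_int_mul, ← Complex.exp_pi_mul_I]
  congr 1
  have : (k : ℂ) ≠ 0 := by exact_mod_cast hk
  push_cast
  field_simp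

lemma integral_G {k₁ k₂ : ℤ} {r : ℝ} (hr0 : 0 ≤ r) (hr : r ≤ 1) (hk : k₁ ≠ 0 ∨ k₂ ≠ 0) :
    ∫ w, G k₁ k₂ r w = 0 := by
  have key : ∀ a b : ℂ, ‖a‖ = 1 → ‖b‖ = 1 → a ^ k₁ * b ^ k₂ = -1 → ∫ w, G k₁ k₂ r w = 0 := by
    intro a b ha hb hab
    have h1 := integral_mm (G_cont k₁ k₂ hr0 hr) (a := a) (b := b)
      (by rintro rfl; simp at ha) (by rintro rfl; simp at hb)
    have h2 : ∀ w, G k₁ k₂ r (mm a b w) = -G k₁ k₂ r w := by
      intro w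
      unfold G wfn
      rw [mm_apply]
      simp only [norm_mul, ha, hb, one_mul, dir_mul_unit ha, dir_mul_unit hb, mul_zpow]
      linear_combination (dir w.1 ^ k₁ * dir w.2 ^ k₂ *
        ((tent (‖w.1‖ ^ 2 * ‖w.2‖ ^ 2 / 1 - 3 / 2) * (clamp (Real.log ‖w.1‖ - Real.log ‖w.2‖) -
          clamp (Real.log ‖w.1‖ - Real.log ‖w.2‖ - r)) : ℝ) : ℂ)) * hab
    simp only [h2, integral_neg, ha, hb] at h1
    norm_num at h1
    linear_combination (-1 / 2 : ℂ) * h1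
  rcases hk with hk | hk
  · obtain ⟨u, hu, hu'⟩ := exists_unit hk
    exact key u 1 hu norm_one (by simp [hu'])
  · obtain ⟨u, hu, hu'⟩ := exists_unit hk
    exact key 1 u norm_one hu (by simp [hu'])

lemma dir_mul_pos {c : ℝ} (hc : 0 < c) (z : ℂ) : dir (c * z) = dir z := by
  unfold dir
  rw [norm_mul, Complex.norm_real, Real.norm_eq_abs, abs_of_pos hc, Complex.ofReal_mul,
    mul_div_mul_left _ _ (by exact_mod_cast hc.ne')]

/-- the window with shift `2 t` at scale `ρ` -/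
noncomputable def Wd (k₁ k₂ : ℤ) (r ρ t : ℝ) (w : ℂ × ℂ) : ℂ :=
  G k₁ k₂ r (mm ((ρ * Real.exp t)⁻¹ : ℝ) ((ρ * Real.exp (-t))⁻¹ : ℝ) w)

lemma Wd_eq (k₁ k₂ : ℤ) (r t : ℝ) {ρ : ℝ} (hρ : 0 < ρ) (w : ℂ × ℂ) :
    Wd k₁ k₂ r ρ t w = dir w.1 ^ k₁ * dir w.2 ^ k₂ *
      (tent (‖w.1‖ ^ 2 * ‖w.2‖ ^ 2 / ρ ^ 4 - 3 / 2) *
        (clamp (Real.log ‖w.1‖ - Real.log ‖w.2‖ - 2 * t) -
          clamp (Real.log ‖w.1‖ - Real.log ‖w.2‖ - (2 * t + r))) : ℝ) := by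
  have p1 : 0 < (ρ * Real.exp t)⁻¹ := by positivity
  have p2 : 0 < (ρ * Real.exp (-t))⁻¹ := by positivity
  unfold Wd G wfn
  rw [mm_apply]
  simp only [dir_mul_pos p1, dir_mul_pos p2, norm_mul, Complex.norm_real, Real.norm_eq_abs,
    abs_of_pos p1, abs_of_pos p2]
  have e1 : ((ρ * Real.exp t)⁻¹ * ‖w.1‖) ^ 2 * ((ρ * Real.exp (-t))⁻¹ * ‖w.2‖) ^ 2 / 1 =
      ‖w.1‖ ^ 2 * ‖w.2‖ ^ 2 / ρ ^ 4 := by
    rw [Real.exp_neg]
    field_simp
  rw [e1]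
  by_cases h0 : ‖w.1‖ = 0 ∨ ‖w.2‖ = 0
  · have : tent (‖w.1‖ ^ 2 * ‖w.2‖ ^ 2 / ρ ^ 4 - 3 / 2) = 0 := by
      have : ‖w.1‖ ^ 2 * ‖w.2‖ ^ 2 = 0 := by rcases h0 with h | h <;> simp [h]
      rw [this]
      unfold tent
      norm_num [abs_of_neg]
    simp [this]
  · push Not at h0
    have e2 : Real.log ((ρ * Real.exp t)⁻¹ * ‖w.1‖) - Real.log ((ρ * Real.exp (-t))⁻¹ * ‖w.2‖) =
        Real.log ‖w.1‖ - Real.log ‖w.2‖ - 2 * t := by
      rw [Real.log_mul p1.ne' h0.1, Real.log_mul p2.ne' h0.2, Real.log_inv, Real.log_inv,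
        Real.log_mul hρ.ne' (Real.exp_pos _).ne', Real.log_mul hρ.ne' (Real.exp_pos _).ne',
        Real.log_exp, Real.log_exp]
      ring
    rw [e2, sub_sub _ (2 * t) r]

lemma wfn_eq_sum (k₁ k₂ : ℤ) (r : ℝ) (m : ℕ) {ρ : ℝ} (hρ : 0 < ρ) (w : ℂ × ℂ) :
    wfn k₁ k₂ (ρ ^ 4) (m * r) w.1 w.2 = ∑ j ∈ Finset.range m, Wd k₁ k₂ r ρ (j * r / 2) w := by
  induction m with
  | zero => simp [wfn]
  | succ m ih =>
    rw [Finset.sum_range_succ, ← ih, Wd_eq _ _ _ _ hρ]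
    unfold wfn
    have e1 : 2 * (m * r / 2) = m * r := by ring
    have e2 : ((m + 1 : ℕ) : ℝ) * r = m * r + r := by push_cast; ring
    rw [e1, e2]
    push_cast
    ring

lemma Wd_cont (k₁ k₂ : ℤ) {r : ℝ} (hr0 : 0 ≤ r) (hr : r ≤ 1) (ρ t : ℝ) :
    Continuous (Wd k₁ k₂ r ρ t) :=
  (G_cont k₁ k₂ hr0 hr).comp (mm _ _).continuous_of_finiteDimensional

lemma integral_Wd (k₁ k₂ : ℤ) {r : ℝ} (hr0 : 0 ≤ r) (hr : r ≤ 1) {ρ : ℝ} (hρ : 0 < ρ) (t : ℝ) :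
    ∫ w, Wd k₁ k₂ r ρ t w = (ρ ^ 4 : ℝ) * ∫ w, G k₁ k₂ r w := by
  have p1 : 0 < (ρ * Real.exp t)⁻¹ := by positivity
  have p2 : 0 < (ρ * Real.exp (-t))⁻¹ := by positivity
  unfold Wd
  rw [integral_mm (G_cont k₁ k₂ hr0 hr) (by exact_mod_cast p1.ne') (by exact_mod_cast p2.ne')]
  congr 2
  rw [Complex.norm_real, Complex.norm_real, Real.norm_eq_abs, Real.norm_eq_abs, abs_of_pos p1,
    abs_of_pos p2, Real.exp_neg]
  field_simp

lemma supp_Wd {k₁ k₂ : ℤ} {r : ℝ} (hr0 : 0 ≤ r) (hr : r ≤ 1) {ρ : ℝ} (hρ : 0 < ρ) {t : ℝ}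
    {w : ℂ × ℂ} (h : Wd k₁ k₂ r ρ t w ≠ 0) :
    ‖w.1‖ ≤ 4 * ρ * Real.exp t ∧ ‖w.2‖ ≤ 4 * ρ * Real.exp (-t) := by
  have p1 : 0 < ρ * Real.exp t := by positivity
  have p2 : 0 < ρ * Real.exp (-t) := by positivity
  obtain ⟨-, s2, -, s4⟩ := supp_G hr0 hr h
  rw [mm_apply] at s2 s4
  simp only [norm_mul, Complex.norm_real, Real.norm_eq_abs, abs_of_pos (inv_pos.mpr p1),
    abs_of_pos (inv_pos.mpr p2)] at s2 s4
  rw [inv_mul_le_iff₀ p1] at s2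
  rw [inv_mul_le_iff₀ p2] at s4
  constructor <;> linarith

lemma Wd_lip (k₁ k₂ : ℤ) {r : ℝ} (hr0 : 0 ≤ r) (hr : r ≤ 1) {ρ : ℝ} (hρ : 0 < ρ) (t P : ℝ)
    (w δ : ℂ × ℂ) (h1 : ‖δ.1‖ ≤ P * Real.exp t) (h2 : ‖δ.2‖ ≤ P * Real.exp (-t)) :
    ‖Wd k₁ k₂ r ρ t (w + δ) - Wd k₁ k₂ r ρ t w‖ ≤
      1024 * (|(k₁ : ℝ)| + |(k₂ : ℝ)| + 1) * (P / ρ) := by
  have p1 : 0 < ρ * Real.exp t := by positivity
  have p2 : 0 < ρ * Real.exp (-t) := by positivity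
  unfold Wd
  refine (G_lip k₁ k₂ hr0 hr _ _).trans (mul_le_mul_of_nonneg_left ?_ (by positivity))
  rw [← map_sub, add_sub_cancel_left, mm_apply, Prod.norm_def]
  simp only [norm_mul, Complex.norm_real, Real.norm_eq_abs, abs_of_pos (inv_pos.mpr p1),
    abs_of_pos (inv_pos.mpr p2)]
  apply max_le
  · rw [inv_mul_le_iff₀ p1]
    refine h1.trans (le_of_eq ?_)
    field_simp
  · rw [inv_mul_le_iff₀ p2]
    refine h2.trans (le_of_eq ?_)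
    field_simp

end Pool.Agent.P.MP_b8021b_nt.VE.Win
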