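import Mathlib

/-!
Zero-cycles on the surface `E × 𝔾ₘ` over the rationals modulo the relations of Suslin homology.
-/

open scoped WithZero IntermediateField Classical

namespace Pool.Agent.P.MP_b8021b_nt.VE

noncomputable section

/-- `K` is the function field of an integral curve over `ℚ`: a finite extension of `ℚ(t)`. -/
def IsCurve (K : Type) [Field K] [Algebra ℚ K] : Prop :=
  ∃ t : K, Transcendental ℚ t ∧ FiniteDimensional ℚ⟮t⟯ K

/-- A geometric point of the regular projective curve with function field `K`: a closed point,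
that is a normalised discrete valuation `v` of `K`, and an embedding of its residue field into the
algebraic numbers, that is a ring homomorphism `ρ` from the valuation ring whose kernel is the
maximal ideal. -/
structure GPt (K : Type) [Field K] where
  /-- the valuation -/
  v : Valuation K ℤᵐ⁰
  /-- evaluation of functions that are regular at the point -/
  ρ : v.valuationSubring →+* AlgebraicClosure ℚ
  surj : Function.Surjective v
  ker : ∀ a : v.valuationSubring, ρ a = 0 ↔ v a < 1

/-- The order of vanishing of `f` at `p` (Mathlib's valuations are multiplicative). -/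
def GPt.ord {K : Type} [Field K] (p : GPt K) (f : K) : ℤ := - WithZero.log (p.v f)

/-- The function `a` is regular at `p` with value `c`. -/
def GPt.Val {K : Type} [Field K] (p : GPt K) (a : K) (c : AlgebraicClosure ℚ) : Prop :=
  ∃ h : a ∈ p.v.valuationSubring, p.ρ ⟨a, h⟩ = c

/-- The morphism from the curve to `E` given by the point `ξ ∈ E(K)` takes the value `P` at `p`. -/
def GPt.ValE {K : Type} [Field K] [Algebra ℚ K] (p : GPt K) (W : WeierstrassCurve ℚ)
    (ξ : (W.baseChange K).toAffine.Point)
    (P : (W.baseChange (AlgebraicClosure ℚ)).toAffine.Point) : Prop :=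
  (ξ = 0 → P = 0) ∧ ∀ x y h, ξ = .some x y h →
    (∃ a b h', p.Val x a ∧ p.Val y b ∧ P = .some a b h') ∨ (x ∉ p.v.valuationSubring ∧ P = 0)

/-- The zero-cycles on `U = E × 𝔾ₘ` that vanish in Suslin homology `H₀(U)`: the subgroup generated
by the push-forwards `φ_* div f`, where `C` is a regular projective integral curve over `ℚ` with
function field `K`, `φ = (ξ, u)` is given by `ξ ∈ E(K)` and `u ∈ Kˣ`, and `f ∈ Kˣ` takes the value
`1` at all zeros and poles of `u` (the points of `C` that do not map to `U`). -/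
def susTrivial (W : WeierstrassCurve ℚ) :
    AddSubgroup (((W.baseChange (AlgebraicClosure ℚ)).toAffine.Point × (AlgebraicClosure ℚ)ˣ) →₀ ℤ) :=
  AddSubgroup.closure {D | ∃ (K : Type) (_ : Field K) (_ : Algebra ℚ K), IsCurve K ∧
    ∃ (ξ : (W.baseChange K).toAffine.Point) (u f : Kˣ) (S : Finset (GPt K))
      (φ : GPt K → (W.baseChange (AlgebraicClosure ℚ)).toAffine.Point × (AlgebraicClosure ℚ)ˣ),
      (∀ p : GPt K, p.ord u ≠ 0 → p.Val f 1) ∧ (∀ p : GPt K, p ∉ S → p.ord f = 0) ∧
      (∀ p ∈ S, p.ValE W ξ (φ p).1 ∧ p.Val u (φ p).2) ∧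
      D = ∑ p ∈ S, Finsupp.single (φ p) (p.ord f)}

/-- Zero-cycles on `U` over `ℚ` are the Galois invariant zero-cycles on its set of geometric points
(a closed point is the sum of its conjugates). -/
def GalInv (W : WeierstrassCurve ℚ)
    (D : ((W.baseChange (AlgebraicClosure ℚ)).toAffine.Point × (AlgebraicClosure ℚ)ˣ) →₀ ℤ) : Prop :=
  ∀ (σ : AlgebraicClosure ℚ →ₐ[ℚ] AlgebraicClosure ℚ) (P u),
    D (WeierstrassCurve.Affine.Point.map (W' := W.toAffine) σ P, Units.map σ.toMonoidHom u) = D (P, u)

/-- The statement. -/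
def S_Main : Prop :=
  ∀ (W : WeierstrassCurve ℚ) [W.IsElliptic]
    (D : ((W.baseChange (AlgebraicClosure ℚ)).toAffine.Point × (AlgebraicClosure ℚ)ˣ) →₀ ℤ),
    GalInv W D → (D.sum fun _ n => n) = 0 → (D.sum fun z n => n • z.1) = 0 →
    (D.prod fun z n => z.2 ^ n) = 1 → ∃ n : ℕ, 0 < n ∧ n • D ∈ susTrivial W

end

end Pool.Agent.P.MP_b8021b_nt.VE
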